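import Mathlib
import Pool.Agent.Lib.MP_89bcae_ag.Bk.K002

/-!
# Points and maximal ideals of the coordinate ring (3)

ROW WP3 (60 lines) = the lemma `hom_unique` of this file.
PROOF. The kernels of `g` and `h` are nonzero primes (they contain `x - P.x`), so by
`exists_hom_of_prime` they are the kernels of `φ`, `φ'` with points `P'`, `P''`; `g (ofPoly X) = τ (P.x)` gives
`P'.x = P.x` (`τ` is injective; `ofPoly (X - C P'.x)` is in the kernel of `g`), etc., so `P' = P'' = P` and the
kernels are equal to `P.ideal` by `ker_unique`; for `c` in `NRing`, `c - ofPoly (C (evalPt P c))` is in `P.ideal`.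
-/

open Polynomial IsDedekindDomain

open scoped Classical

namespace Pool.Agent.Lib.MP_89bcae_ag.Wt

universe u

variable {N : ℕ} {E : Type u} [Field E] {f : E[X]} [hG : IsGood N f]

lemma exists_pt_of_prime (I : Ideal (NRing N f)) (hI : I.IsPrime) (h0 : I ≠ ⊥) :
    ∃ P : Pt N f, P.ideal = I := by
  obtain ⟨P, φ, h1, h2, h3⟩ := exists_hom_of_prime I hI h0
  exact ⟨P, by rw [← ker_unique P φ h2 h3, h1]⟩

/-- A homomorphism is determined by the values of the constants, of `x` and of `y`. -/
lemma hom_unique {S : Type*} [CommRing S] [IsDomain S] (τ : E →+* S) (P : Pt N f)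
    (g h : NRing N f →+* S) (hg : ∀ p, g (ofPoly p) = τ (p.eval P.x)) (hgy : g yy = τ P.y)
    (hh : ∀ p, h (ofPoly p) = τ (p.eval P.x)) (hhy : h yy = τ P.y) : g = h := by
  have key : ∀ k : NRing N f →+* S, (∀ p, k (ofPoly p) = τ (p.eval P.x)) → k yy = τ P.y →
      RingHom.ker k = P.ideal := by
    intro k hk hky
    have hp : (RingHom.ker k).IsPrime := RingHom.ker_isPrime k
    have h0 : RingHom.ker k ≠ ⊥ := by
      intro hb
      have h1 : (ofPoly (X - C P.x) : NRing N f) ∈ RingHom.ker k := by
        rw [RingHom.mem_ker, hk, eval_sub, eval_X, eval_C, sub_self, map_zero]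
      rw [hb, Ideal.mem_bot] at h1
      have h2 : (X - C P.x : E[X]) = 0 :=
        ofPoly_injective (N := N) (f := f) (by rw [h1, map_zero])
      exact X_sub_C_ne_zero _ h2
    obtain ⟨P', φ, h1, h2, h3⟩ := exists_hom_of_prime (RingHom.ker k) hp h0
    have hx : P'.x = P.x := by
      have h4 : (ofPoly (X - C P'.x) : NRing N f) ∈ RingHom.ker φ := by
        rw [RingHom.mem_ker, h2, eval_sub, eval_X, eval_C, sub_self]
      rw [h1, RingHom.mem_ker, hk, eval_sub, eval_X, eval_C] at h4
      exact (sub_eq_zero.1 (τ.injective (h4.trans (map_zero τ).symm))).symm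
    have hy : P'.y = P.y := by
      have h4 : (yy - ofPoly (C P'.y) : NRing N f) ∈ RingHom.ker φ := by
        rw [RingHom.mem_ker, map_sub, h2, h3, eval_C, sub_self]
      rw [h1, RingHom.mem_ker, map_sub, hky, hk, eval_C, sub_eq_zero] at h4
      exact (τ.injective h4).symm
    have hP : P' = P := Pt.ext hx hy
    subst hP
    rw [← h1]
    exact ker_unique P' φ h2 h3
  ext c
  have hc : (c - ofPoly (C (evalPt P c)) : NRing N f) ∈ P.ideal := by
    rw [mem_ideal, map_sub, evalPt_ofPoly, eval_C, sub_self]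
  have hc1 := hc
  rw [← key g hg hgy, RingHom.mem_ker, map_sub, hg, eval_C, sub_eq_zero] at hc1
  rw [← key h hh hhy, RingHom.mem_ker, map_sub, hh, eval_C, sub_eq_zero] at hc
  rw [hc1, hc]

lemma evalPt_rotC (ζ : E) (hζ : ζ ^ N = 1) (P : Pt N f) (a : NRing N f) :
    evalPt P (rotC ζ hζ a) = evalPt (P.rot ζ hζ) a := by
  have h := hom_unique (RingHom.id E) (P.rot ζ hζ) ((evalPt P).comp (rotC ζ hζ))
    (evalPt (P.rot ζ hζ)) (fun p => by
      rw [RingHom.comp_apply, rotC_ofPoly, evalPt_ofPoly]
      rfl) (by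
      rw [RingHom.comp_apply, rotC_yy, map_mul, evalPt_ofPoly, evalPt_yy, eval_C]
      rfl) (fun p => by
      rw [evalPt_ofPoly]
      rfl) (by
      rw [evalPt_yy]
      rfl)
  exact congrArg (fun g : NRing N f →+* E => g a) h

section Maps

variable {E' : Type u} [Field E'] {f' : E'[X]} [hG' : IsGood N f']

omit hG hG' in
lemma coordMap_ofPoly (σ : E →+* E') (h : f.map σ = f') (p : E[X]) :
    coordMap N σ h (ofPoly p) = ofPoly (p.map σ) := Subtype.ext (funMap_polyF σ h p)

lemma coordMap_yy (σ : E →+* E') (h : f.map σ = f') :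
    coordMap N σ h (yy : NRing N f) = yy := Subtype.ext (funMap_yF σ h)

lemma evalPt_coordMap (σ : E →+* E') (h : f.map σ = f') (P : Pt N f) (a : NRing N f) :
    evalPt (P.map σ h) (coordMap N σ h a) = σ (evalPt P a) := by
  have h := hom_unique σ P ((evalPt (P.map σ h)).comp (coordMap N σ h))
    (σ.comp (evalPt P)) (fun p => by
      rw [RingHom.comp_apply, coordMap_ofPoly, evalPt_ofPoly]
      show (p.map σ).eval (σ P.x) = _
      rw [eval_map, eval₂_hom]) (by
      rw [RingHom.comp_apply, coordMap_yy, evalPt_yy]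
      rfl) (fun p => by
      rw [RingHom.comp_apply, evalPt_ofPoly]) (by
      rw [RingHom.comp_apply, evalPt_yy])
  exact congrArg (fun g : NRing N f →+* E' => g a) h

end Maps


end Pool.Agent.Lib.MP_89bcae_ag.Wt
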