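import Mathlib

/-!
# The places `t = a` of `F(t)`, their completions and the automorphisms of these
-/

open Polynomial IsDedekindDomain Topology

open scoped Classical WithZeroTopology

namespace Pool.Agent.Lib.MP_89bcae_ag.Sup

set_option linter.unusedSectionVars false

section Place

variable {F : Type*} [Field F]

/-- The place `t = τ` of `F(t)`. -/
noncomputable def plc (τ : F) : HeightOneSpectrum F[X] where
  asIdeal := Ideal.span {X - C τ}
  isPrime := (Ideal.span_singleton_prime (X_sub_C_ne_zero τ)).mpr (prime_X_sub_C τ)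
  ne_bot := by rw [Ne, Ideal.span_singleton_eq_bot]; exact X_sub_C_ne_zero τ

variable (L : Type*) [Field L] [Algebra F[X] L] [IsFractionRing F[X] L]

lemma val_algebraMap (τ : F) (p : F[X]) :
    Valued.v (algebraMap F[X] ((plc τ).adicCompletion L) p) = (plc τ).intValuation p :=
  (HeightOneSpectrum.valuedAdicCompletion_eq_valuation (K := L) (plc τ) p).trans
    ((plc τ).valuation_of_algebraMap p)


lemma val_X_sub_C (τ : F) :
    Valued.v (algebraMap F[X] ((plc τ).adicCompletion L) (X - C τ)) =
      WithZero.exp (-1 : ℤ) := by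
  rw [val_algebraMap]
  exact (plc τ).intValuation_singleton (X_sub_C_ne_zero τ) rfl

lemma val_eq_one (τ : F) {p : F[X]} (hp : p.eval τ ≠ 0) :
    Valued.v (algebraMap F[X] ((plc τ).adicCompletion L) p) = 1 := by
  rw [val_algebraMap, HeightOneSpectrum.intValuation_eq_one_iff]
  change p ∉ Ideal.span {X - C τ}
  rw [Ideal.mem_span_singleton, dvd_iff_isRoot]
  exact hp

end Place

section Resid

variable {F : Type*} [Field F] (L : Type*) [Field L] [Algebra F[X] L] [IsFractionRing F[X] L]

lemma val_lt_one_of_root (τ : F) {p : F[X]} (hp : p.eval τ = 0) :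
    Valued.v (algebraMap F[X] ((plc τ).adicCompletion L) p) < 1 := by
  rw [val_algebraMap, HeightOneSpectrum.intValuation_lt_one_iff_mem]
  change p ∈ Ideal.span {X - C τ}
  rw [Ideal.mem_span_singleton, dvd_iff_isRoot]
  exact hp

/-- Every integral element of the completion at `t = τ` is congruent to a constant. -/
lemma exists_residue (τ : F) (x : (plc τ).adicCompletion L) (hx : Valued.v x ≤ 1) :
    ∃ c : F, Valued.v (x - algebraMap F[X] _ (C c)) < 1 := by
  -- approximate by an element of `L`
  obtain ⟨y, hy⟩ : ∃ y : L, Valued.v (x - algebraMap L ((plc τ).adicCompletion L) y) < 1 := by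
    have h1 := HeightOneSpectrum.denseRange_algebraMap L (plc τ)
    have hcont : Continuous (Valued.v : (plc τ).adicCompletion L → WithZero (Multiplicative ℤ)) :=
      Valued.continuous_valuation_of_surjective
        (HeightOneSpectrum.valuedAdicCompletion_surjective L (plc τ))
    have h2 : IsOpen {z : (plc τ).adicCompletion L | Valued.v (x - z) < 1} := by
      have : {z : (plc τ).adicCompletion L | Valued.v (x - z) < 1} =
          (fun z => Valued.v (x - z)) ⁻¹' (Set.Iio (1 : WithZero (Multiplicative ℤ))) := rfl
      rw [this]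
      exact (WithZeroTopology.isOpen_Iio).preimage (hcont.comp (continuous_const.sub continuous_id))
    obtain ⟨z, hz, y, rfl⟩ := h1.inter_open_nonempty _ h2 ⟨x, by simp⟩
    exact ⟨y, hz⟩
  have hy1 : Valued.v (algebraMap L ((plc τ).adicCompletion L) y) ≤ 1 := by
    have : algebraMap L ((plc τ).adicCompletion L) y =
      x - (x - algebraMap L ((plc τ).adicCompletion L) y) := by ring
    rw [this]
    apply le_trans (Valuation.map_sub _ _ _)
    exact max_le hx hy.le
  have hval : ∀ z : L, Valued.v (algebraMap L ((plc τ).adicCompletion L) z) =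
      (plc τ).valuation L z := fun z =>
    HeightOneSpectrum.valuedAdicCompletion_eq_valuation' (plc τ) z
  rw [hval] at hy1
  obtain ⟨a, ha⟩ := HeightOneSpectrum.exists_valuation_sub_lt_of_integer (plc τ) hy1 1
  refine ⟨a.eval τ, ?_⟩
  have e1 : x - algebraMap F[X] ((plc τ).adicCompletion L) (C (a.eval τ)) =
      (x - algebraMap L ((plc τ).adicCompletion L) y) -
        algebraMap L ((plc τ).adicCompletion L) (algebraMap F[X] L a - y) +
        algebraMap F[X] ((plc τ).adicCompletion L) (a - C (a.eval τ)) := by
    rw [map_sub, map_sub, ← IsScalarTower.algebraMap_apply]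
    ring
  rw [e1]
  apply lt_of_le_of_lt (Valuation.map_add _ _ _)
  apply max_lt
  · apply lt_of_le_of_lt (Valuation.map_sub _ _ _)
    apply max_lt hy
    rw [hval]
    exact ha
  · apply val_lt_one_of_root
    simp

end Resid

section Cont

variable {A B : Type*} [Field A] [Field B] {v : Valuation A (WithZero (Multiplicative ℤ))}
  {v' : Valuation B (WithZero (Multiplicative ℤ))}

lemma continuous_congr8 (f : A ≃+* B) (h : ∀ x, v' (f x) = v x)
    (hsurj : Function.Surjective v) : Continuous (WithVal.congr v v' f) := by
  apply continuous_of_continuousAt_zero (WithVal.congr v v' f)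
  unfold ContinuousAt
  rw [map_zero, (Valued.hasBasis_nhds_zero (WithVal v') _).tendsto_right_iff]
  intro γ _
  set δ := MonoidWithZeroHom.ValueGroup₀.embedding γ.1 with hδ
  have hδ0 : δ ≠ 0 := by
    rw [hδ]
    simp
  obtain ⟨x₀, hx₀⟩ := hsurj δ
  have hne : (Valued.v.restrict (WithVal.toVal v x₀)) ≠ 0 := by
    intro h0
    rw [Valuation.restrict_eq_zero_iff] at h0
    rw [WithVal.valued_toVal, hx₀] at h0
    exact hδ0 h0
  have hopen := (Valued.isOpen_ball (WithVal v)
    (Valued.v.restrict (WithVal.toVal v x₀))).mem_nhds (x := 0) (by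
      simp only [Set.mem_ofPred_eq, map_zero]
      exact zero_lt_iff.mpr hne)
  filter_upwards [hopen] with x hx
  change Valued.v.restrict _ < γ.1
  rw [Valuation.restrict_lt_iff_lt_embedding]
  have h1 : Valued.v x < Valued.v (WithVal.toVal v x₀) := (Valuation.restrict_lt_iff _).mp hx
  have h1' : v x.ofVal < v x₀ := h1
  rw [hx₀] at h1'
  have h2 : Valued.v (WithVal.congr v v' f x) = v x.ofVal := by
    rw [WithVal.congr_apply, WithVal.valued_toVal, h]
  rw [h2]
  exact h1'

/-- The isomorphism of completions induced by an isomorphism compatible with the valuations. -/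
lemma exists_completion_equiv (f : A ≃+* B) (h : ∀ x, v' (f x) = v x)
    (hsurj : Function.Surjective v) (hsurj' : Function.Surjective v') :
    ∃ φ : v.Completion ≃+* v'.Completion,
      (∀ x : A, φ (x : v.Completion) = ((f x : B) : v'.Completion)) ∧
      ∀ x, Valued.v (φ x) = Valued.v x := by
  have hc := continuous_congr8 f h hsurj
  have h' : ∀ y, v (f.symm y) = v' y := by
    intro y
    rw [← h, f.apply_symm_apply]
  have hc' : Continuous (WithVal.congr v v' f).symm := continuous_congr8 f.symm h' hsurj'
  refine ⟨UniformSpace.Completion.mapRingEquiv (WithVal.congr v v' f) hc hc', ?_, ?_⟩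
  · intro x
    exact UniformSpace.Completion.mapRingHom_coe hc _
  · have h1 : Function.Surjective (Valued.v : v.Completion → WithZero (Multiplicative ℤ)) :=
      Valued.valuedCompletion_surjective_iff.mpr (fun γ => by
        obtain ⟨x, hx⟩ := hsurj γ
        exact ⟨WithVal.toVal v x, hx⟩)
    have h1' : Function.Surjective (Valued.v : v'.Completion → WithZero (Multiplicative ℤ)) :=
      Valued.valuedCompletion_surjective_iff.mpr (fun γ => by
        obtain ⟨x, hx⟩ := hsurj' γ
        exact ⟨WithVal.toVal v' x, hx⟩)
    have h2 := Valued.continuous_valuation_of_surjective h1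
    have h2' := Valued.continuous_valuation_of_surjective h1'
    have h3 : Continuous (UniformSpace.Completion.mapRingEquiv (WithVal.congr v v' f) hc hc') :=
      UniformSpace.Completion.continuous_map
    intro x
    refine UniformSpace.Completion.induction_on x ?_ fun a => ?_
    · exact isClosed_eq (h2'.comp h3) h2
    · have h4 : UniformSpace.Completion.mapRingEquiv (WithVal.congr v v' f) hc hc'
          (a : UniformSpace.Completion (WithVal v)) =
          ((WithVal.congr v v' f a : WithVal v') : UniformSpace.Completion (WithVal v')) :=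
        UniformSpace.Completion.mapRingHom_coe hc _
      rw [h4, Valued.valuedCompletion_apply, Valued.valuedCompletion_apply]
      exact h a.ofVal

end Cont

section Place2

variable {F : Type*} [Field F] (L : Type*) [Field L] [Algebra F[X] L] [IsFractionRing F[X] L]

lemma intValuation_map (σ : F ≃+* F) (τ : F) (p : F[X]) :
    (plc (σ τ)).intValuation (p.map (σ : F →+* F)) = (plc τ).intValuation p := by
  by_cases hp : p = 0
  · rw [hp, Polynomial.map_zero, map_zero, map_zero]
  obtain ⟨q, hq, hqτ⟩ := exists_eq_pow_rootMultiplicity_mul_and_not_dvd p hp τ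
  have h1 : ∀ (τ : F) (q : F[X]) (n : ℕ), ¬ (X - C τ) ∣ q →
      (plc τ).intValuation ((X - C τ) ^ n * q) = WithZero.exp (-1 : ℤ) ^ n := by
    intro τ q n hq
    rw [map_mul, map_pow]
    have e1 : (plc τ).intValuation (X - C τ) = WithZero.exp (-1 : ℤ) :=
      (plc τ).intValuation_singleton (X_sub_C_ne_zero τ) rfl
    have e2 : (plc τ).intValuation q = 1 := by
      rw [HeightOneSpectrum.intValuation_eq_one_iff]
      change q ∉ Ideal.span {X - C τ}
      rw [Ideal.mem_span_singleton]
      exact hq
    rw [e1, e2, mul_one]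
  rw [hq, h1 τ q _ hqτ, Polynomial.map_mul, Polynomial.map_pow, Polynomial.map_sub,
    Polynomial.map_X, Polynomial.map_C]
  apply h1
  intro h2
  apply hqτ
  rw [dvd_iff_isRoot, IsRoot.def] at h2 ⊢
  rw [eval_map] at h2
  have h3 : eval₂ (σ : F →+* F) (σ τ) q = σ (q.eval τ) :=
    eval₂_hom (p := q) (σ : F →+* F) τ
  rw [h3] at h2
  exact (map_eq_zero σ).mp h2

/-- The automorphism of `F(t)` induced by an automorphism of `F`. -/
noncomputable def coefL (σ : F ≃+* F) : L ≃+* L :=
  IsFractionRing.ringEquivOfRingEquiv (K := L) (L := L) (Polynomial.mapEquiv σ)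

lemma coefL_algebraMap (σ : F ≃+* F) (p : F[X]) :
    coefL L σ (algebraMap F[X] L p) = algebraMap F[X] L (p.map (σ : F →+* F)) :=
  IsFractionRing.ringEquivOfRingEquiv_algebraMap (Polynomial.mapEquiv σ) p

lemma valuation_coefL (σ : F ≃+* F) (τ : F) (x : L) :
    (plc (σ τ)).valuation L (coefL L σ x) = (plc τ).valuation L x := by
  obtain ⟨p, q, hq, rfl⟩ := IsFractionRing.div_surjective (A := F[X]) x
  rw [map_div₀, map_div₀, map_div₀, coefL_algebraMap, coefL_algebraMap,
    HeightOneSpectrum.valuation_of_algebraMap, HeightOneSpectrum.valuation_of_algebraMap,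
    HeightOneSpectrum.valuation_of_algebraMap, HeightOneSpectrum.valuation_of_algebraMap,
    intValuation_map, intValuation_map]

/-- The isomorphism of the completion at `t = τ` with the completion at `t = σ(τ)` induced by an
automorphism `σ` of `F`. -/
lemma exists_adic_equiv (σ : F ≃+* F) (τ : F) :
    ∃ φ : (plc τ).adicCompletion L ≃+* (plc (σ τ)).adicCompletion L,
      (∀ x : L, φ (algebraMap L _ x) = algebraMap L _ (coefL L σ x)) ∧
      ∀ x, Valued.v (φ x) = Valued.v x := by
  obtain ⟨φ, h1, h2⟩ := exists_completion_equiv (v := (plc τ).valuation L)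
    (v' := (plc (σ τ)).valuation L) (coefL L σ) (valuation_coefL L σ τ)
    ((plc τ).valuation_surjective L) ((plc (σ τ)).valuation_surjective L)
  refine ⟨((HeightOneSpectrum.adicCompletion.equiv L (plc τ)).trans φ).trans
    (HeightOneSpectrum.adicCompletion.equiv L (plc (σ τ))).symm, ?_, ?_⟩
  · intro x
    apply HeightOneSpectrum.adicCompletion.ext
    exact h1 x
  · intro x
    exact h2 x.toCompletion

end Place2

end Pool.Agent.Lib.MP_89bcae_ag.Sup
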