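import Mathlib
import Pool.Agent.Lib.MP_89bcae_ag.Bk.K001

section

/-!
# Laurent series: change of coefficients
-/

open scoped Classical

namespace Pool.Agent.Lib.MP_89bcae_ag.Bra

section

variable {A B : Type*} [Field A] [Field B]

/-- The homomorphism of the Laurent series induced by a homomorphism of the coefficients. -/
noncomputable def lm (σ : A →+* B) : LaurentSeries A →+* LaurentSeries B where
  toFun w := HahnSeries.map w σ
  map_one' := by
    exact HahnSeries.map_one σ.toMonoidWithZeroHom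
  map_mul' x y := by
    exact HahnSeries.map_mul (σ : A →ₙ+* B)
  map_zero' := by
    exact HahnSeries.map_zero (σ : ZeroHom A B)
  map_add' x y := by
    exact HahnSeries.map_add (σ : A →+ B)

@[simp] lemma coeff_lm (σ : A →+* B) (w : LaurentSeries A) (n : ℤ) :
    (lm σ w).coeff n = σ (w.coeff n) := rfl

/-- `HahnSeries.map_C` or `HahnSeries.map_single`, or coefficientwise. -/
lemma lm_C (σ : A →+* B) (c : A) : lm σ (HahnSeries.C c) = HahnSeries.C (σ c) := by
  ext n
  rw [coeff_lm, HahnSeries.C_apply, HahnSeries.C_apply, HahnSeries.coeff_single,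
    HahnSeries.coeff_single]
  split_ifs
  · rfl
  · exact map_zero σ

/-- The support is the same as `σ` is injective (`HahnSeries.order`, `HahnSeries.order_le_of_coeff_ne_zero`,
`HahnSeries.coeff_order_ne_zero`). -/
lemma order_lm (σ : A →+* B) (w : LaurentSeries A) : (lm σ w).order = w.order := by
  by_cases hw : w = 0
  · rw [hw, map_zero, HahnSeries.order_zero, HahnSeries.order_zero]
  · have h1 : (lm σ w).coeff w.order ≠ 0 := by
      rw [coeff_lm]
      intro h
      exact hw (HahnSeries.coeff_order_eq_zero.mp ((map_eq_zero σ).mp h))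
    have h2 : lm σ w ≠ 0 := by
      intro h
      rw [h] at h1
      exact h1 rfl
    apply le_antisymm
    · exact HahnSeries.order_le_of_coeff_ne_zero h1
    · apply HahnSeries.order_le_of_coeff_ne_zero
      intro h
      apply h2
      rw [← HahnSeries.coeff_order_eq_zero, coeff_lm, h, map_zero]

lemma lm_comp {D : Type*} [Field D] (σ : A →+* B) (τ : B →+* D) (w : LaurentSeries A) :
    lm τ (lm σ w) = lm (τ.comp σ) w := rfl

/-- Coefficientwise; for `n < 0` both are zero (`PowerSeries.coeff_coe`). -/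
lemma lm_coe (σ : A →+* B) (w : PowerSeries A) :
    lm σ (w : LaurentSeries A) = ((PowerSeries.map σ w : PowerSeries B) : LaurentSeries B) := by
  ext n
  rw [coeff_lm, PowerSeries.coeff_coe, PowerSeries.coeff_coe]
  split_ifs
  · exact map_zero σ
  · rw [PowerSeries.coeff_map]

end

end Pool.Agent.Lib.MP_89bcae_ag.Bra

end

section

/-!
# Invariant classes in the `ℓ`-adic Selmer group of the Jacobian of `D(t) y ^ ℓ = g(x) - t`

`k` is a field, `F` an algebraic closure of `k`, `L` the field of rational functions `F(t)` and `Ω`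
an algebraic closure of `L`.
-/

open Polynomial IsDedekindDomain

open scoped Classical

namespace Pool.Agent.Lib.MP_89bcae_ag.Sup

universe u

/-- The coordinate ring `A[x, y] / (y ^ ℓ - f(x))` of the affine curve `y ^ ℓ = f(x)`. -/
abbrev Coord (ℓ : ℕ) {A : Type u} [Field A] (f : A[X]) : Type u :=
  AdjoinRoot (X ^ ℓ - C f : A[X][X])


section

variable {L : Type u} [Field L]


variable {Ω : Type u} [Field Ω] [Algebra L Ω]


end


end Pool.Agent.Lib.MP_89bcae_ag.Sup

end

section

/-!
# The curve `y ^ ℓ = f(x)` over an algebraically closed field: basic definitions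
-/

open Polynomial IsDedekindDomain

open scoped Classical

namespace Pool.Agent.Lib.MP_89bcae_ag.Sup

universe u

/-- The hypotheses on the curve `y ^ ℓ = f(x)`. -/
class IsGood (ℓ : ℕ) {E : Type u} [Field E] (f : E[X]) : Prop where
  alg : IsAlgClosed E
  prime : ℓ.Prime
  ne_zero : (ℓ : E) ≠ 0
  separable : f.Separable
  coprime : f.natDegree.Coprime ℓ

section

variable (ℓ : ℕ) {E : Type u} [Field E] (f : E[X])

/-- The points of the affine curve `y ^ ℓ = f(x)`. -/
@[ext]
structure Pt where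
  /-- the first coordinate -/
  x : E
  /-- the second coordinate -/
  y : E
  eq : y ^ ℓ = f.eval x


end

section

variable {ℓ : ℕ} {E : Type u} [Field E] {f : E[X]}

/-- The function `p(x)` on the curve, for a polynomial `p`. -/
noncomputable def ofPoly : E[X] →+* Coord ℓ f := AdjoinRoot.of (X ^ ℓ - C f : E[X][X])

/-- The function `y` on the curve. -/
noncomputable def yy : Coord ℓ f := AdjoinRoot.root (X ^ ℓ - C f : E[X][X])

lemma yy_pow : (yy : Coord ℓ f) ^ ℓ = ofPoly f := by
  have h := AdjoinRoot.eval₂_root (X ^ ℓ - C f : E[X][X])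
  rw [eval₂_sub, eval₂_pow, eval₂_X, eval₂_C, sub_eq_zero] at h
  exact h

/-- The value of a function of the coordinate ring at a point. -/
noncomputable def evalPt (P : Pt ℓ f) : Coord ℓ f →+* E :=
  AdjoinRoot.lift (evalRingHom P.x) P.y (by
    rw [eval₂_sub, eval₂_pow, eval₂_X, eval₂_C, coe_evalRingHom, P.eq, sub_self])

@[simp] lemma evalPt_ofPoly (P : Pt ℓ f) (p : E[X]) : evalPt P (ofPoly p) = p.eval P.x := by
  rw [evalPt, ofPoly, AdjoinRoot.lift_of, coe_evalRingHom]

@[simp] lemma evalPt_yy (P : Pt ℓ f) : evalPt P yy = P.y := by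
  rw [evalPt, yy, AdjoinRoot.lift_root]


/-- The automorphism `y ↦ ζ y` of the coordinate ring. -/
noncomputable def rotC (ζ : E) (hζ : ζ ^ ℓ = 1) : Coord ℓ f →+* Coord ℓ f :=
  AdjoinRoot.lift ofPoly (ofPoly (C ζ) * yy) (by
    rw [eval₂_sub, eval₂_pow, eval₂_X, eval₂_C, mul_pow, ← map_pow, ← C_pow, hζ, C_1, map_one,
      one_mul, yy_pow, sub_self])

@[simp] lemma rotC_ofPoly (ζ : E) (hζ : ζ ^ ℓ = 1) (p : E[X]) :
    rotC ζ hζ (ofPoly p : Coord ℓ f) = ofPoly p := by
  unfold rotC
  exact AdjoinRoot.lift_of _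

@[simp] lemma rotC_yy (ζ : E) (hζ : ζ ^ ℓ = 1) :
    rotC ζ hζ (yy : Coord ℓ f) = ofPoly (C ζ) * yy := by
  unfold rotC
  exact AdjoinRoot.lift_root _

end

end Pool.Agent.Lib.MP_89bcae_ag.Sup

end

section

/-!
ROW R01 (80-150 lines). The coordinate ring `E[x, y] / (y ^ ℓ - f(x))` is a domain, with the
`E[x]`-basis `1, y, ..., y ^ (ℓ - 1)`; uniqueness and existence of the expansion, the norm.

PROOF. `E` is algebraically closed and `deg f` is prime to the prime `ℓ`, so `deg f ≠ 0`
(`Nat.Coprime 0 ℓ ↔ ℓ = 1`); let `θ` be a root of `f`, it is simple as `f` is separable. `Y ^ ℓ - f`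
in `E[X][Y]` is Eisenstein at the prime ideal `(X - θ)` (`f ∈ (X - θ)`, `f ∉ (X - θ) ^ 2`), monic,
so irreducible (`Polynomial.IsEisensteinAt.irreducible`), hence prime since `E[X][Y]` is a UFD;
`AdjoinRoot.isDomain_of_prime`. The expansion: `AdjoinRoot.powerBasis'` (the polynomial is monic),
or `Polynomial.modByMonic` / `AdjoinRoot.modByMonicHom`.
-/

open Polynomial IsDedekindDomain

open scoped Classical

namespace Pool.Agent.Lib.MP_89bcae_ag.Sup

universe u

variable {ℓ : ℕ} {E : Type u} [Field E] {f : E[X]}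

lemma monic_eqn (hℓ : ℓ ≠ 0) : (X ^ ℓ - C f : E[X][X]).Monic :=
  Polynomial.monic_X_pow_sub_C f hℓ

lemma r01_natDegree : (X ^ ℓ - C f : E[X][X]).natDegree = ℓ :=
  Polynomial.natDegree_X_pow_sub_C

/-- Expansion of an element of the coordinate ring. -/
lemma exists_expand (hℓ : ℓ ≠ 0) (a : Coord ℓ f) :
    ∃ p : ℕ → E[X], a = ∑ i ∈ Finset.range ℓ, ofPoly (p i) * yy ^ i := by
  obtain ⟨P, rfl⟩ := AdjoinRoot.mk_surjective a
  have hm := monic_eqn (f := f) hℓ
  have hne : (X ^ ℓ - C f : E[X][X]) ≠ 1 := by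
    intro h
    have h1 := r01_natDegree (ℓ := ℓ) (f := f)
    rw [h, natDegree_one] at h1
    exact hℓ h1.symm
  have hlt : (P %ₘ (X ^ ℓ - C f : E[X][X])).natDegree < ℓ := by
    have h1 := natDegree_modByMonic_lt P hm hne
    rwa [r01_natDegree] at h1
  refine ⟨fun i => (P %ₘ (X ^ ℓ - C f : E[X][X])).coeff i, ?_⟩
  have h1 : AdjoinRoot.mk (X ^ ℓ - C f : E[X][X]) P =
      AdjoinRoot.mk (X ^ ℓ - C f : E[X][X]) (P %ₘ (X ^ ℓ - C f : E[X][X])) := by
    rw [AdjoinRoot.mk_eq_mk]
    refine ⟨P /ₘ (X ^ ℓ - C f : E[X][X]), ?_⟩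
    have h2 := modByMonic_add_div P (X ^ ℓ - C f : E[X][X])
    linear_combination -h2
  rw [h1]
  conv_lhs => rw [as_sum_range' _ ℓ hlt]
  rw [map_sum]
  refine Finset.sum_congr rfl (fun i _ => ?_)
  rw [← C_mul_X_pow_eq_monomial, map_mul, map_pow, AdjoinRoot.mk_C, AdjoinRoot.mk_X]
  rfl

/-- Uniqueness of the expansion. -/
lemma expand_unique (hℓ : ℓ ≠ 0) (p : ℕ → E[X])
    (h : ∑ i ∈ Finset.range ℓ, (ofPoly (p i) : Coord ℓ f) * yy ^ i = 0) :
    ∀ i < ℓ, p i = 0 := by
  have hm := monic_eqn (f := f) hℓ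
  have h1 : AdjoinRoot.mk (X ^ ℓ - C f : E[X][X]) (∑ i ∈ Finset.range ℓ, C (p i) * X ^ i) = 0 := by
    rw [map_sum, ← h]
    refine Finset.sum_congr rfl (fun i _ => ?_)
    rw [map_mul, map_pow, AdjoinRoot.mk_C, AdjoinRoot.mk_X]
    rfl
  rw [AdjoinRoot.mk_eq_zero] at h1
  have hQ : (∑ i ∈ Finset.range ℓ, C (p i) * X ^ i : E[X][X]) = 0 := by
    by_contra hne
    refine hm.not_dvd_of_natDegree_lt hne ?_ h1
    rw [r01_natDegree]
    have h3 : (∑ i ∈ Finset.range ℓ, C (p i) * X ^ i : E[X][X]).natDegree ≤ ℓ - 1 := by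
      refine natDegree_sum_le_of_forall_le _ _ (fun i hi => ?_)
      refine (natDegree_C_mul_X_pow_le (p i) i).trans ?_
      have h4 := Finset.mem_range.1 hi
      omega
    omega
  intro i hi
  have h3 : (∑ i ∈ Finset.range ℓ, C (p i) * X ^ i : E[X][X]).coeff i = p i := by
    rw [finsetSum_coeff, Finset.sum_eq_single i]
    · rw [coeff_C_mul_X_pow, if_pos rfl]
    · intro j _ hj
      rw [coeff_C_mul_X_pow, if_neg (Ne.symm hj)]
    · intro h4
      exact absurd (Finset.mem_range.2 hi) h4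
  rw [← h3, hQ, coeff_zero]


end Pool.Agent.Lib.MP_89bcae_ag.Sup

end

section

/-!
ROW R07 (80-160 lines). The automorphisms `y ↦ ζ y` and the automorphisms of the constant field.

PROOF. `rotC ζ` has the inverse `rotC ζ⁻¹`; check on `ofPoly p` and `yy`
(`AdjoinRoot.ringHom_ext`, or `exists_expand`). `evalPt P ∘ rotC ζ = evalPt (P.rot ζ)` (check on
generators), so `ord_autU` with `Q`, `P := Q.rot ζ` gives `ord Q (rot h) = ord (Q.rot ζ) h`.
For `σ : E ≃+* E` with `f.map σ = f`: `coordMap ℓ σ` is bijective (inverse `coordMap ℓ σ⁻¹`), and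
`evalPt (P.map σ) (coordMap σ a) = σ (evalPt P a)`.
-/

open Polynomial IsDedekindDomain

open scoped Classical

namespace Pool.Agent.Lib.MP_89bcae_ag.Sup

universe u

variable {ℓ : ℕ} {E : Type u} [Field E] {f : E[X]}


section Maps

variable {E' : Type u} [Field E'] {f' : E'[X]}


end Maps


/-- The automorphisms of the field of constants which fix the coefficients of `f`. -/
def Sym (f : E[X]) : Subgroup (E ≃+* E) where
  carrier := {σ | f.map (σ : E →+* E) = f}
  mul_mem' {σ τ} hσ hτ := by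
    have h1 : f.map (σ : E →+* E) = f := hσ
    have h2 : f.map (τ : E →+* E) = f := hτ
    change f.map ((σ * τ : E ≃+* E) : E →+* E) = f
    have h3 : ((σ * τ : E ≃+* E) : E →+* E) = (σ : E →+* E).comp (τ : E →+* E) := by
      ext x
      rfl
    rw [h3, ← Polynomial.map_map, h2, h1]
  one_mem' := by
    change f.map ((1 : E ≃+* E) : E →+* E) = f
    have h3 : ((1 : E ≃+* E) : E →+* E) = RingHom.id E := by
      ext x
      rfl
    rw [h3, Polynomial.map_id]
  inv_mem' {σ} hσ := by
    have h1 : f.map (σ : E →+* E) = f := hσ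
    change f.map ((σ⁻¹ : E ≃+* E) : E →+* E) = f
    have h3 : ((σ⁻¹ : E ≃+* E) : E →+* E).comp (σ : E →+* E) = RingHom.id E := by
      ext x
      exact σ.symm_apply_apply x
    conv_lhs => rw [← h1]
    rw [Polynomial.map_map, h3, Polynomial.map_id]


variable [hG : IsGood ℓ f]


end Pool.Agent.Lib.MP_89bcae_ag.Sup

end

section

/-!
# An explicit form of Tsen's theorem in the ring `E[x, y] / (y ^ l - f(x))`
-/

open Polynomial IsDedekindDomain

open scoped Classical

namespace Pool.Agent.Lib.MP_89bcae_ag.Sup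

universe u

section R12aux

variable {E : Type u} [Field E]

/-- substitution `z ↦ η z` -/
private noncomputable def r12_rr (η : E) : E[X] →ₐ[E] E[X] := Polynomial.aeval (C η * X)

private lemma r12_rr_X (η : E) : r12_rr η X = C η * X := by
  unfold r12_rr; exact aeval_X _

private lemma r12_rr_C (η c : E) : r12_rr η (C c) = C c := by
  unfold r12_rr; exact aeval_C _ _

private lemma r12_rr_rr (η η' : E) (v : E[X]) : r12_rr η (r12_rr η' v) = r12_rr (η * η') v := by
  have h : (r12_rr η).comp (r12_rr η') = r12_rr (η * η') := by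
    ext1
    rw [AlgHom.comp_apply, r12_rr_X, map_mul, r12_rr_C, r12_rr_X, r12_rr_X, C_mul]
    ring
  rw [← h, AlgHom.comp_apply]

private lemma r12_rr_one (v : E[X]) : r12_rr 1 v = v := by
  have h : r12_rr (1 : E) = AlgHom.id E E[X] := by
    ext1
    rw [r12_rr_X, AlgHom.id_apply, C_1, one_mul]
  rw [h, AlgHom.id_apply]

/-- the polynomial `p(a - z ^ l)` -/
private noncomputable def r12_hat (l : ℕ) (a : E) : E[X] →ₐ[E] E[X] :=
  Polynomial.aeval (C a - X ^ l)

private lemma r12_hat_X (l : ℕ) (a : E) : r12_hat l a X = C a - X ^ l := by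
  unfold r12_hat; exact aeval_X _

private lemma r12_hat_C (l : ℕ) (a c : E) : r12_hat l a (C c) = C c := by
  unfold r12_hat; exact aeval_C _ _

private lemma r12_hat_ne {l : ℕ} (hl : 0 < l) (a : E) {p : E[X]} (hp : p ≠ 0) :
    r12_hat l a p ≠ 0 := by
  intro h
  have h1 : p.comp (C a - X ^ l) = 0 := by
    rw [Polynomial.comp_eq_aeval]; exact h
  rw [Polynomial.comp_eq_zero_iff] at h1
  rcases h1 with h1 | ⟨_, h1⟩
  · exact hp h1
  · have h2 := congrArg natDegree h1
    rw [natDegree_C] at h2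
    have h3 : (C a - X ^ l : E[X]).natDegree = l := by
      rw [natDegree_sub_eq_right_of_natDegree_lt]
      · exact natDegree_X_pow l
      · rw [natDegree_C, natDegree_X_pow]; exact hl
    omega

private lemma r12_rr_hat {l : ℕ} {η : E} (hη : η ^ l = 1) (a : E) (p : E[X]) :
    r12_rr η (r12_hat l a p) = r12_hat l a p := by
  have h : (r12_rr η).comp (r12_hat l a) = r12_hat l a := by
    ext1
    rw [AlgHom.comp_apply, r12_hat_X, map_sub, map_pow, r12_rr_C, r12_rr_X, mul_pow, ← C_pow, hη,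
      C_1, one_mul]
  exact congrArg (fun φ : E[X] →ₐ[E] E[X] => φ p) h

private lemma r12_lin {l : ℕ} (hl : 0 < l) {η : E} (hη : IsPrimitiveRoot η l) (s : E) :
    ∏ j ∈ Finset.range l, r12_rr (η ^ j) (C s - X) = C (s ^ l) - X ^ l := by
  have h1 : IsPrimitiveRoot (C η : E[X]) l := hη.map_of_injective C_injective
  have h2 := h1.pow_sub_pow_eq_prod_sub_mul (C s : E[X]) X hl
  have h3 : nthRootsFinset l (1 : E[X]) = (Finset.range l).image (fun j => (C η : E[X]) ^ j) := by
    symm
    apply Finset.eq_of_subset_of_card_le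
    · intro x hx
      obtain ⟨j, _, rfl⟩ := Finset.mem_image.mp hx
      rw [mem_nthRootsFinset hl, ← pow_mul, mul_comm, pow_mul, h1.pow_eq_one, one_pow]
    · rw [h1.card_nthRootsFinset, Finset.card_image_of_injOn, Finset.card_range]
      intro i hi j hj hij
      exact h1.pow_inj (Finset.mem_range.mp hi) (Finset.mem_range.mp hj) hij
  rw [h3, Finset.prod_image] at h2
  · rw [C_pow, h2]
    refine Finset.prod_congr rfl fun j _ => ?_
    rw [map_sub, r12_rr_C, r12_rr_X, C_pow]
  · intro i hi j hj hij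
    exact h1.pow_inj (Finset.mem_range.mp hi) (Finset.mem_range.mp hj) hij

private lemma r12_H [IsAlgClosed E] {l : ℕ} (hl : 0 < l) {η : E} (hη : IsPrimitiveRoot η l) (a : E)
    (f : E[X]) : ∃ H : E[X], ∏ j ∈ Finset.range l, r12_rr (η ^ j) H = r12_hat l a f := by
  have hmul : ∀ p q : E[X], (∃ H : E[X], ∏ j ∈ Finset.range l, r12_rr (η ^ j) H = r12_hat l a p) →
      (∃ H : E[X], ∏ j ∈ Finset.range l, r12_rr (η ^ j) H = r12_hat l a q) →
      ∃ H : E[X], ∏ j ∈ Finset.range l, r12_rr (η ^ j) H = r12_hat l a (p * q) := by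
    rintro p q ⟨H, hH⟩ ⟨H', hH'⟩
    refine ⟨H * H', ?_⟩
    rw [map_mul, ← hH, ← hH', ← Finset.prod_mul_distrib]
    exact Finset.prod_congr rfl fun j _ => map_mul _ _ _
  have hC : ∀ c : E, ∃ H : E[X], ∏ j ∈ Finset.range l, r12_rr (η ^ j) H = r12_hat l a (C c) := by
    intro c
    obtain ⟨d, hd⟩ := IsAlgClosed.exists_pow_nat_eq c hl
    refine ⟨C d, ?_⟩
    rw [r12_hat_C, ← hd, C_pow]
    rw [Finset.prod_congr rfl (fun j _ => r12_rr_C (η ^ j) d), Finset.prod_const,
      Finset.card_range]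
  have hX : ∀ r : E, ∃ H : E[X], ∏ j ∈ Finset.range l, r12_rr (η ^ j) H =
      r12_hat l a (X - C r) := by
    intro r
    obtain ⟨s, hs⟩ := IsAlgClosed.exists_pow_nat_eq (a - r) hl
    refine ⟨C s - X, ?_⟩
    rw [r12_lin hl hη, hs, map_sub (r12_hat l a), r12_hat_X, r12_hat_C, C_sub]
    ring
  have hm : ∀ m : Multiset E, ∃ H : E[X], ∏ j ∈ Finset.range l, r12_rr (η ^ j) H =
      r12_hat l a ((m.map fun r => X - C r).prod) := by
    intro m
    induction m using Multiset.induction_on with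
    | empty =>
      have := hC 1
      rwa [C_1] at this
    | cons r m ih =>
      rw [Multiset.map_cons, Multiset.prod_cons]
      exact hmul _ _ (hX r) ih
  have hsp := (IsAlgClosed.splits f).eq_prod_roots
  rw [hsp]
  exact hmul _ _ (hC _) (hm _)


private lemma r12_Y_pow (η : E) (H : E[X]) (Y : Module.End E E[X])
    (hY : ∀ v, Y v = H * r12_rr η v) (n : ℕ) (v : E[X]) :
    (Y ^ n) v = (∏ j ∈ Finset.range n, r12_rr (η ^ j) H) * r12_rr (η ^ n) v := by
  induction n generalizing v with
  | zero => rw [pow_zero, pow_zero, Finset.prod_range_zero, one_mul, r12_rr_one]; rfl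
  | succ n ih =>
    rw [pow_succ, Module.End.mul_apply, ih, hY, map_mul, r12_rr_rr, Finset.prod_range_succ,
      ← pow_succ]
    ring

/-- the action of the coordinate ring on the polynomials in `z` -/
private lemma r12_act {l : ℕ} (f : E[X]) (a : E) {η : E} (hη : η ^ l = 1) (H : E[X])
    (hH : ∏ j ∈ Finset.range l, r12_rr (η ^ j) H = r12_hat l a f) :
    ∃ act : Coord l f →+* Module.End E E[X],
      (∀ p v, act (ofPoly p) v = r12_hat l a p * v) ∧
      (∀ v, act yy v = H * r12_rr η v) := by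
  set f0 : E[X] →+* Module.End E E[X] :=
    (Algebra.lmul E E[X]).toRingHom.comp (r12_hat l a).toRingHom with hf0
  have hf0a : ∀ p v, f0 p v = r12_hat l a p * v := fun p v => rfl
  set Y : Module.End E E[X] := LinearMap.mulLeft E H * (r12_rr η).toLinearMap with hYd
  have hY : ∀ v, Y v = H * r12_rr η v := fun v => rfl
  have hcomm : ∀ p, Commute (f0 p) Y := by
    intro p
    apply LinearMap.ext
    intro v
    show f0 p (Y v) = Y (f0 p v)
    rw [hf0a, hY, hY, hf0a, map_mul, r12_rr_hat hη]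
    ring
  set act0 : E[X][X] →+* Module.End E E[X] := Polynomial.eval₂RingHom' f0 Y hcomm with hact0
  have h1 : ∀ p, act0 (C p) = f0 p := fun p => Polynomial.eval₂_C _ _
  have h2 : act0 X = Y := Polynomial.eval₂_X _ _
  have hzero : act0 (X ^ l - C f) = 0 := by
    rw [map_sub, map_pow, h1, h2, sub_eq_zero]
    apply LinearMap.ext
    intro v
    rw [r12_Y_pow η H Y hY, hH, hη, r12_rr_one, hf0a]
  set act : Coord l f →+* Module.End E E[X] :=
    Ideal.Quotient.lift (Ideal.span {(X ^ l - C f : E[X][X])}) act0 (by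
      intro x hx
      obtain ⟨y, rfl⟩ := Ideal.mem_span_singleton'.mp hx
      rw [map_mul, hzero, mul_zero]) with hact
  have h3 : ∀ q : E[X][X], act (AdjoinRoot.mk _ q) = act0 q := fun q => rfl
  refine ⟨act, ?_, ?_⟩
  · intro p v
    have h4 : (ofPoly p : Coord l f) = AdjoinRoot.mk _ (C p) := rfl
    rw [h4, h3, h1, hf0a]
  · intro v
    have h4 : (yy : Coord l f) = AdjoinRoot.mk _ X := rfl
    rw [h4, h3, h2, hY]


private lemma r12_exists_poly {l : ℕ} {f : E[X]} [IsDomain (Coord l f)] (hl2 : 2 ≤ l) {u : Coord l f} (hu : u ≠ 0) :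
    ∃ (p : E[X]) (c : Coord l f), p ≠ 0 ∧ (ofPoly p : Coord l f) = c * u := by
  have hfin : Module.Finite E[X] (Coord l f) :=
    (monic_eqn (f := f) (by omega : l ≠ 0)).finite_adjoinRoot
  have hint : IsIntegral E[X] u := Algebra.IsIntegral.isIntegral u
  have h1 := Ideal.comap_ne_bot_of_integral_mem hu (Ideal.mem_span_singleton_self u) hint
  obtain ⟨p, hp, hp0⟩ := (Submodule.ne_bot_iff _).mp h1
  rw [Ideal.mem_comap, Ideal.mem_span_singleton'] at hp
  obtain ⟨c, hc⟩ := hp
  exact ⟨p, c, hp0, hc.symm⟩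

private lemma r12_act_inj {l : ℕ} {f : E[X]} [IsDomain (Coord l f)] (hl2 : 2 ≤ l) {a : E}
    (act : Coord l f →+* Module.End E E[X])
    (h1 : ∀ p v, act (ofPoly p) v = r12_hat l a p * v) {v : E[X]} (hv : v ≠ 0) {u : Coord l f}
    (hu : act u v = 0) : u = 0 := by
  by_contra hne
  obtain ⟨p, c, hp, hpc⟩ := r12_exists_poly hl2 hne
  have h2 : act (ofPoly p) v = 0 := by
    rw [hpc, map_mul, Module.End.mul_apply, hu, map_zero]
  rw [h1] at h2
  exact mul_ne_zero (r12_hat_ne (by omega) a hp) hv h2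

private lemma r12_deg {l : ℕ} {f : E[X]} {a η : E} {H : E[X]}
    (act : Coord l f →+* Module.End E E[X])
    (h1 : ∀ p v, act (ofPoly p) v = r12_hat l a p * v)
    (h2 : ∀ v, act yy v = H * r12_rr η v) (i j : ℕ) (v : E[X]) :
    (act (ofPoly (X ^ j) * yy ^ i) v).natDegree ≤ l * j + i * H.natDegree + v.natDegree := by
  have hrr : ∀ w : E[X], (r12_rr η w).natDegree ≤ w.natDegree := by
    intro w
    have h3 : r12_rr η w = w.comp (C η * X) := by rw [Polynomial.comp_eq_aeval]; rfl
    rw [h3]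
    refine natDegree_comp_le.trans ?_
    have h4 : (C η * X : E[X]).natDegree ≤ 1 :=
      (natDegree_C_mul_le _ _).trans natDegree_X_le
    calc w.natDegree * (C η * X : E[X]).natDegree ≤ w.natDegree * 1 := Nat.mul_le_mul_left _ h4
      _ = w.natDegree := mul_one _
  have hy : ∀ (i : ℕ) (w : E[X]), ((act yy ^ i) w).natDegree ≤ i * H.natDegree + w.natDegree := by
    intro i
    induction i with
    | zero => intro w; rw [pow_zero]; show w.natDegree ≤ _; omega
    | succ i ih =>
      intro w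
      rw [pow_succ, Module.End.mul_apply]
      refine (ih _).trans ?_
      rw [h2]
      have h3 := natDegree_mul_le (p := H) (q := r12_rr η w)
      have h4 := hrr w
      have h5 : (i + 1) * H.natDegree = i * H.natDegree + H.natDegree := by ring
      omega
  rw [map_mul, Module.End.mul_apply, h1, map_pow act]
  have h3 := natDegree_mul_le (p := r12_hat l a (X ^ j)) (q := (act yy ^ i) v)
  have h4 := hy i v
  have h5 : (r12_hat l a (X ^ j)).natDegree ≤ l * j := by
    rw [map_pow, r12_hat_X]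
    refine natDegree_pow_le.trans ?_
    have h6 : (C a - X ^ l : E[X]).natDegree ≤ l := by
      refine (natDegree_sub_le _ _).trans ?_
      rw [natDegree_C, natDegree_X_pow]
      exact max_le (Nat.zero_le _) le_rfl
    calc j * (C a - X ^ l : E[X]).natDegree ≤ j * l := Nat.mul_le_mul_left _ h6
      _ = l * j := mul_comm _ _
  omega

/-- the element with the coefficients `c` -/
private noncomputable def r12_el {l : ℕ} {f : E[X]} (N : ℕ) (c : ℕ → ℕ → E) : Coord l f :=
  ∑ i ∈ Finset.range l, ofPoly (∑ j ∈ Finset.range N, C (c i j) * X ^ j) * yy ^ i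

private lemma r12_el_act {l : ℕ} {f : E[X]} {a : E}
    (act : Coord l f →+* Module.End E E[X])
    (h1 : ∀ p v, act (ofPoly p) v = r12_hat l a p * v) (N : ℕ) (c : ℕ → ℕ → E) (v : E[X]) :
    act (r12_el N c) v =
      ∑ i ∈ Finset.range l, ∑ j ∈ Finset.range N, c i j • act (ofPoly (X ^ j) * yy ^ i) v := by
  unfold r12_el
  rw [map_sum, LinearMap.sum_apply]
  refine Finset.sum_congr rfl fun i _ => ?_
  rw [map_mul, Module.End.mul_apply, h1, map_sum, Finset.sum_mul]
  refine Finset.sum_congr rfl fun j _ => ?_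
  rw [map_mul (r12_hat l a), r12_hat_C, map_mul act, Module.End.mul_apply, h1, smul_eq_C_mul,
    mul_assoc]

private lemma r12_el_zero {l : ℕ} (hl : l ≠ 0) {f : E[X]} {N : ℕ} {c : ℕ → ℕ → E}
    (h : (r12_el N c : Coord l f) = 0) : ∀ i < l, ∀ j < N, c i j = 0 := by
  intro i hi j hj
  have h1 := expand_unique hl (fun i => ∑ j ∈ Finset.range N, C (c i j) * X ^ j) h i hi
  have h2 := congrArg (fun p : E[X] => p.coeff j) h1
  simp only [finsetSum_coeff, coeff_C_mul, coeff_X_pow, coeff_zero] at h2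
  rw [Finset.sum_eq_single j] at h2
  · simpa using h2
  · intro b _ hb
    rw [if_neg (Ne.symm hb), mul_zero]
  · intro hb
    exact absurd (Finset.mem_range.mpr hj) hb


private lemma r12_exists_w {l : ℕ} {f : E[X]} [IsDomain (Coord l f)] (hl2 : 2 ≤ l) {a η : E} {H : E[X]}
    (act : Coord l f →+* Module.End E E[X])
    (h1 : ∀ p v, act (ofPoly p) v = r12_hat l a p * v)
    (h2 : ∀ v, act yy v = H * r12_rr η v) :
    ∃ (w : Coord l f) (q : E[X]), q ≠ 0 ∧ act w 1 = r12_hat l a q * X := by
  have hl : 2 ≤ l := hl2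
  set n' := H.natDegree with hn'
  set N := n' + 1 with hN
  set D := l * n' + (l - 1) * n' + 2 with hD
  set g : Fin 2 × Fin l × Fin N → E[X] := fun x =>
    if x.1 = 0 then act (ofPoly (X ^ (x.2.2 : ℕ)) * yy ^ (x.2.1 : ℕ)) 1
    else -act (ofPoly (X ^ (x.2.2 : ℕ)) * yy ^ (x.2.1 : ℕ)) X with hg
  have hgdeg : ∀ x, (g x).natDegree < D := by
    intro x
    obtain ⟨k, i, j⟩ := x
    have hi : (i : ℕ) ≤ l - 1 := by have := i.2; omega
    have hj : (j : ℕ) ≤ n' := by have := j.2; omega
    have h3 := r12_deg act h1 h2 (i : ℕ) (j : ℕ) 1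
    have h4 := r12_deg act h1 h2 (i : ℕ) (j : ℕ) X
    rw [natDegree_one, ← hn'] at h3
    rw [natDegree_X, ← hn'] at h4
    have h5 : (i : ℕ) * n' ≤ (l - 1) * n' := Nat.mul_le_mul_right _ hi
    have h6 : l * (j : ℕ) ≤ l * n' := Nat.mul_le_mul_left _ hj
    simp only [hg]
    split_ifs
    · omega
    · rw [natDegree_neg]; omega
  set T : (Fin 2 × Fin l × Fin N → E) →ₗ[E] E[X] := Fintype.linearCombination E g with hT
  set T' : (Fin 2 × Fin l × Fin N → E) →ₗ[E] (Fin D → E) :=
    LinearMap.pi (fun j => (Polynomial.lcoeff E (j : ℕ)).comp T) with hT'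
  have hker : LinearMap.ker T' ≠ ⊥ := by
    apply LinearMap.ker_ne_bot_of_finrank_lt
    rw [Module.finrank_fin_fun, Module.finrank_fintype_fun_eq_card, Fintype.card_prod,
      Fintype.card_prod, Fintype.card_fin, Fintype.card_fin, Fintype.card_fin, hD, hN]
    have h3 : (l - 1) * n' ≤ l * n' := Nat.mul_le_mul_right _ (by omega)
    have h4 : 2 * (l * (n' + 1)) = l * n' + l * n' + 2 * l := by ring
    omega
  obtain ⟨c, hc, hc0⟩ := (Submodule.ne_bot_iff _).mp hker
  have hTc : T c = 0 := by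
    ext j
    by_cases hj : j < D
    · have h3 : T' c = 0 := hc
      have h4 := congrFun h3 ⟨j, hj⟩
      exact h4
    · rw [coeff_zero]
      apply coeff_eq_zero_of_natDegree_lt
      have h3 : T c = ∑ x, c x • g x := rfl
      rw [h3]
      refine lt_of_lt_of_le ?_ (not_lt.mp hj)
      refine lt_of_le_of_lt (natDegree_sum_le_of_forall_le (n := D - 1) _ _ ?_) (by omega)
      intro x _
      refine (natDegree_smul_le _ _).trans ?_
      have := hgdeg x
      omega
  set cc : Fin 2 → ℕ → ℕ → E := fun k i j =>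
    if h : i < l ∧ j < N then c (k, ⟨i, h.1⟩, ⟨j, h.2⟩) else 0 with hcc
  have hccv : ∀ (k : Fin 2) (i : Fin l) (j : Fin N), cc k i j = c (k, i, j) := by
    intro k i j
    simp only [hcc]
    rw [dif_pos ⟨i.2, j.2⟩]
  have hsum : act (r12_el N (cc 0)) 1 - act (r12_el N (cc 1)) X = 0 := by
    rw [r12_el_act act h1, r12_el_act act h1, ← hTc]
    have h3 : T c = ∑ x, c x • g x := rfl
    rw [h3, Fintype.sum_prod_type, Fin.sum_univ_two, Fintype.sum_prod_type, Fintype.sum_prod_type,
      Finset.sum_range, Finset.sum_range, sub_eq_add_neg, ← Finset.sum_neg_distrib]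
    congr 1
    · refine Finset.sum_congr rfl fun i _ => ?_
      rw [Finset.sum_range]
      refine Finset.sum_congr rfl fun j _ => ?_
      rw [hccv]
      simp only [hg, if_pos]
    · refine Finset.sum_congr rfl fun i _ => ?_
      rw [Finset.sum_range, ← Finset.sum_neg_distrib]
      refine Finset.sum_congr rfl fun j _ => ?_
      rw [hccv]
      simp only [hg]
      rw [if_neg (by decide), smul_neg]
  have hu : (r12_el N (cc 1) : Coord l f) ≠ 0 := by
    intro h3
    have h4 := r12_el_zero (by omega) h3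
    rw [h3, map_zero, LinearMap.zero_apply, sub_zero] at hsum
    have h5 := r12_act_inj hl2 act h1 one_ne_zero hsum
    have h6 := r12_el_zero (by omega) h5
    apply hc0
    funext x
    obtain ⟨k, i, j⟩ := x
    rw [← hccv, Pi.zero_apply]
    fin_cases k
    · exact h6 i i.2 j j.2
    · exact h4 i i.2 j j.2
  obtain ⟨p, u', hp, hpu⟩ := r12_exists_poly hl2 hu
  refine ⟨u' * r12_el N (cc 0), p, hp, ?_⟩
  rw [map_mul, Module.End.mul_apply, sub_eq_zero.mp hsum, ← Module.End.mul_apply, ← map_mul, ← hpu,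
    h1]


/-- the main identity in the coordinate ring -/
lemma r12_main_wt {l : ℕ} {f : E[X]} [IsDomain (Coord l f)] [IsAlgClosed E] (hl2 : 2 ≤ l)
    (ζ : E) (hζ : IsPrimitiveRoot ζ l)
    (h0 : ζ ≠ 0) (a : E) :
    ∃ (w : Coord l f) (q : E[X]), q ≠ 0 ∧ w ≠ 0 ∧
      ∏ i ∈ Finset.range l, (rotC ζ hζ.pow_eq_one)^[i] w = ofPoly (q ^ l * (C a - X)) := by
  have hl : 0 < l := by omega
  have hη : IsPrimitiveRoot ζ⁻¹ l := hζ.inv
  obtain ⟨H, hH⟩ := r12_H hl hη a f
  obtain ⟨act, h1, h2⟩ := r12_act f a hη.pow_eq_one H hH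
  obtain ⟨w, q, hq, hw⟩ := r12_exists_w hl2 act h1 h2
  -- the semilinearity of the multiplication by `z`
  have hsemi : ∀ (u : Coord l f) (v : E[X]),
      X * act u v = act (rotC ζ hζ.pow_eq_one u) (X * v) := by
    have hadd : ∀ u u' : Coord l f,
        (∀ v : E[X], X * act u v = act (rotC ζ hζ.pow_eq_one u) (X * v)) →
        (∀ v : E[X], X * act u' v = act (rotC ζ hζ.pow_eq_one u') (X * v)) →
        ∀ v : E[X], X * act (u + u') v = act (rotC ζ hζ.pow_eq_one (u + u')) (X * v) := by
      intro u u' hu hu' v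
      rw [map_add act, map_add (rotC ζ hζ.pow_eq_one), map_add act, LinearMap.add_apply,
        LinearMap.add_apply, mul_add, hu, hu']
    have hmul : ∀ u u' : Coord l f,
        (∀ v : E[X], X * act u v = act (rotC ζ hζ.pow_eq_one u) (X * v)) →
        (∀ v : E[X], X * act u' v = act (rotC ζ hζ.pow_eq_one u') (X * v)) →
        ∀ v : E[X], X * act (u * u') v = act (rotC ζ hζ.pow_eq_one (u * u')) (X * v) := by
      intro u u' hu hu' v
      rw [map_mul act, map_mul (rotC ζ hζ.pow_eq_one), map_mul act, Module.End.mul_apply,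
        Module.End.mul_apply, hu, hu']
    have hp : ∀ (p : E[X]) (v : E[X]), X * act (ofPoly p : Coord l f) v =
        act (rotC ζ hζ.pow_eq_one (ofPoly p)) (X * v) := by
      intro p v
      rw [rotC_ofPoly, h1, h1]
      ring
    have hy : ∀ v : E[X], X * act (yy : Coord l f) v =
        act (rotC ζ hζ.pow_eq_one yy) (X * v) := by
      intro v
      rw [rotC_yy, map_mul act, Module.End.mul_apply, h1, h2, h2, map_mul, r12_rr_X, r12_hat_C]
      have h3 : (C ζ * C ζ⁻¹ : E[X]) = 1 := by rw [← C_mul, mul_inv_cancel₀ h0, C_1]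
      calc X * (H * r12_rr ζ⁻¹ v) = 1 * (X * (H * r12_rr ζ⁻¹ v)) := by rw [one_mul]
        _ = (C ζ * C ζ⁻¹) * (X * (H * r12_rr ζ⁻¹ v)) := by rw [h3]
        _ = _ := by ring
    have hyp : ∀ (i : ℕ) (v : E[X]), X * act ((yy : Coord l f) ^ i) v =
        act (rotC ζ hζ.pow_eq_one (yy ^ i)) (X * v) := by
      intro i
      induction i with
      | zero =>
        intro v
        rw [pow_zero, map_one (rotC ζ hζ.pow_eq_one), map_one act]
        rfl
      | succ i ih =>
        rw [pow_succ]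
        exact hmul _ _ ih hy
    intro u
    obtain ⟨p, rfl⟩ := exists_expand hl.ne' u
    have key : ∀ s : Finset ℕ, ∀ v : E[X],
        X * act (∑ i ∈ s, (ofPoly (p i) : Coord l f) * yy ^ i) v =
        act (rotC ζ hζ.pow_eq_one (∑ i ∈ s, ofPoly (p i) * yy ^ i)) (X * v) := by
      intro s
      induction s using Finset.induction_on with
      | empty =>
        intro v
        rw [Finset.sum_empty, map_zero, map_zero, map_zero, LinearMap.zero_apply,
          LinearMap.zero_apply, mul_zero]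
      | insert i s hi ih =>
        rw [Finset.sum_insert hi]
        exact hadd _ _ (hmul _ _ (hp (p i)) (hyp i)) ih
    exact key _
  have hsemik : ∀ (k : ℕ) (v : E[X]),
      X ^ k * act w v = act ((rotC ζ hζ.pow_eq_one)^[k] w) (X ^ k * v) := by
    intro k
    induction k with
    | zero => intro v; rw [pow_zero, one_mul, one_mul]; rfl
    | succ k ih =>
      intro v
      rw [pow_succ', mul_assoc, ih, hsemi, Function.iterate_succ_apply', mul_assoc]
  have hcommC : ∀ (u : Coord l f) (p v : E[X]),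
      act u (r12_hat l a p * v) = r12_hat l a p * act u v := by
    intro u p v
    rw [← h1, ← Module.End.mul_apply, ← map_mul, mul_comm, map_mul, Module.End.mul_apply, h1]
  have hprod : ∀ k : ℕ, act (∏ i ∈ Finset.range k, (rotC ζ hζ.pow_eq_one)^[i] w) 1 =
      r12_hat l a (q ^ k) * X ^ k := by
    intro k
    induction k with
    | zero =>
      rw [Finset.prod_range_zero, map_one act, pow_zero, pow_zero, map_one (r12_hat l a)]
      show (1 : E[X]) = 1 * 1
      rw [one_mul]
    | succ k ih =>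
      rw [Finset.prod_range_succ, mul_comm, map_mul, Module.End.mul_apply, ih, hcommC]
      have h3 := hsemik k 1
      rw [mul_one, hw] at h3
      rw [← h3, pow_succ, pow_succ, map_mul]
      ring
  have hw0 : w ≠ 0 := by
    intro h3
    rw [h3, map_zero, LinearMap.zero_apply] at hw
    exact mul_ne_zero (r12_hat_ne hl a hq) X_ne_zero hw.symm
  refine ⟨w, q, hq, hw0, ?_⟩
  rw [← sub_eq_zero]
  refine r12_act_inj hl2 act h1 (v := 1) one_ne_zero ?_
  rw [map_sub, LinearMap.sub_apply, hprod, h1, mul_one, map_mul, map_sub (r12_hat l a), r12_hat_X,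
    r12_hat_C]
  ring

end R12aux

end Pool.Agent.Lib.MP_89bcae_ag.Sup

end

section

/-!
# Local analysis at a place `t = a`: definitions

`M` is an algebraic closure of the completion of `F(t)` at `t = a`, with its absolute value `v`.
-/

open Polynomial

open scoped Classical

namespace Pool.Agent.Lib.MP_89bcae_ag.Sup

universe u

/-- The real number `x` is a power of `ϖ` with exponent in `ℤ[1/p]`. -/
def Val (p : ℕ) (ϖ x : ℝ) : Prop := ∃ (s : ℕ) (i : ℤ), x ^ p ^ s = ϖ ^ i

/-- `v` is a nonarchimedean absolute value of `M`, with residue field `F ⊆ M`, such that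
`v (t - a) < 1`. -/
structure LocCtx {F M : Type u} [Field F] [Field M] [Algebra F M] (v : AbsoluteValue M ℝ) (a : F)
    (t : M) : Prop where
  alg : IsAlgClosed F
  nonarch : ∀ x y, v (x + y) ≤ max (v x) (v y)
  const : ∀ c : F, c ≠ 0 → v (algebraMap F M c) = 1
  lt_one : v (t - algebraMap F M a) < 1
  ne : t ≠ algebraMap F M a
  residue : ∀ x, v x ≤ 1 → ∃ c : F, v (x - algebraMap F M c) < 1

/-- `Γ` is a group of automorphisms of `M` over `F(t)`, preserving `v`, whose fixed elements have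
their values in `ϖ ^ ℤ[1/p]`. -/
structure LocGrp (p : ℕ) (F : Type u) {M : Type u} [Field F] [Field M] [Algebra F M] (v : AbsoluteValue M ℝ)
    (t : M) (ϖ : ℝ) {f : M[X]} (Γ : Subgroup (Sym f)) : Prop where
  pos : 0 < ϖ
  lt_one : ϖ < 1
  inv : ∀ σ ∈ Γ, ∀ x, v ((σ : M ≃+* M) x) = v x
  fix : ∀ σ ∈ Γ, ∀ c : F, (σ : M ≃+* M) (algebraMap F M c) = algebraMap F M c
  fixt : ∀ σ ∈ Γ, (σ : M ≃+* M) t = t
  disc : ∀ x, x ≠ 0 → (∀ σ ∈ Γ, (σ : M ≃+* M) x = x) → Val p ϖ (v x)


end Pool.Agent.Lib.MP_89bcae_ag.Sup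

end

section

/-!
# The subring `E[x, y]` of the coordinate ring
-/

open Polynomial IsDedekindDomain

open scoped Classical

namespace Pool.Agent.Lib.MP_89bcae_ag.Wt

universe u

variable {N : ℕ} {E : Type u} [Field E] {f : E[X]} [hG : IsGood N f]

/-- The homomorphism from `E[x, y] / (y ^ N - f(x))` to the coordinate ring. -/
noncomputable def toN : Sup.Coord N f →+* NRing N f :=
  AdjoinRoot.lift ofPoly yy (by
    rw [eval₂_sub, eval₂_pow, eval₂_X, eval₂_C, yy_pow, sub_self])

lemma toN_ofPoly (p : E[X]) : toN (Sup.ofPoly p : Sup.Coord N f) = ofPoly p := by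
  unfold toN
  exact AdjoinRoot.lift_of _

lemma toN_yy : toN (Sup.yy : Sup.Coord N f) = yy := by
  unfold toN
  exact AdjoinRoot.lift_root _

lemma toN_expand (p : ℕ → E[X]) (s : Finset ℕ) :
    ((toN (∑ i ∈ s, Sup.ofPoly (p i) * Sup.yy ^ i : Sup.Coord N f) : NRing N f) :
      FunField N f) = ∑ i ∈ s, polyF (p i) * yF ^ i := by
  rw [map_sum]
  have h1 : ∀ i ∈ s, toN (Sup.ofPoly (p i) * Sup.yy ^ i : Sup.Coord N f) =
      ofPoly (p i) * yy ^ i := by
    intro i _
    rw [map_mul, map_pow, toN_ofPoly, toN_yy]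
  rw [Finset.sum_congr rfl h1]
  push_cast
  rfl

lemma toN_injective : Function.Injective (toN : Sup.Coord N f → NRing N f) := by
  rw [injective_iff_map_eq_zero]
  intro a ha
  obtain ⟨p, rfl⟩ := Sup.exists_expand hG.ne a
  have h1 := toN_expand (N := N) (f := f) p (Finset.range N)
  rw [ha] at h1
  have h2 := expand_unique p h1.symm
  refine Finset.sum_eq_zero fun i hi => ?_
  rw [h2 i (Finset.mem_range.1 hi), map_zero, zero_mul]

instance isDomain_coord : IsDomain (Sup.Coord N f) := toN_injective.isDomain (toN : Sup.Coord N f →+* NRing N f)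

lemma toN_rotC (ζ : E) (hζ : ζ ^ N = 1) (a : Sup.Coord N f) :
    toN (Sup.rotC ζ hζ a) = rotC ζ hζ (toN a) := by
  have h : (toN : Sup.Coord N f →+* NRing N f).comp (Sup.rotC ζ hζ) = (rotC ζ hζ).comp toN := by
    refine AdjoinRoot.ringHom_ext (RingHom.ext fun p => ?_) ?_
    · show toN (Sup.rotC ζ hζ (Sup.ofPoly p)) = rotC ζ hζ (toN (Sup.ofPoly p))
      rw [Sup.rotC_ofPoly, toN_ofPoly, rotC_ofPoly]
    · show toN (Sup.rotC ζ hζ Sup.yy) = rotC ζ hζ (toN Sup.yy)
      rw [Sup.rotC_yy, map_mul, toN_ofPoly, toN_yy, rotC_yy]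
  exact RingHom.congr_fun h a

lemma toN_rotC_iter (ζ : E) (hζ : ζ ^ N = 1) (n : ℕ) (a : Sup.Coord N f) :
    toN ((Sup.rotC ζ hζ)^[n] a) = (rotC ζ hζ)^[n] (toN a) := by
  induction n with
  | zero => rfl
  | succ n ih => rw [Function.iterate_succ_apply', Function.iterate_succ_apply', toN_rotC, ih]

/-- Uniqueness of the expansion. -/
lemma expand_unique_ring (p : ℕ → E[X])
    (h : ∑ i ∈ Finset.range N, (ofPoly (p i) : NRing N f) * yy ^ i = 0) :
    ∀ i < N, p i = 0 := by
  apply expand_unique (N := N) (f := f) p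
  have h1 := congrArg (fun b : NRing N f => (b : FunField N f)) h
  simp only [AddSubmonoidClass.coe_finsetSum] at h1
  exact h1

/-- Every function is a quotient of polynomials in `x`, `y`. -/
lemma exists_quot (h : FunField N f) : ∃ (a b : NRing N f) (p q : ℕ → E[X]), b ≠ 0 ∧
    a = ∑ i ∈ Finset.range N, ofPoly (p i) * yy ^ i ∧
    b = ∑ i ∈ Finset.range N, ofPoly (q i) * yy ^ i ∧
    algebraMap (NRing N f) (FunField N f) a / algebraMap (NRing N f) (FunField N f) b = h := by
  obtain ⟨p, q, hq, e⟩ := exists_den h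
  have hq' : (ofPoly q : NRing N f) ≠ 0 := fun h =>
    hq (ofPoly_injective (N := N) (f := f) (h.trans (map_zero _).symm))
  refine ⟨_, ofPoly q, p, fun i => if i = 0 then q else 0, hq', rfl, ?_, ?_⟩
  · rw [Finset.sum_eq_single 0]
    · simp
    · intro i _ hi
      show ofPoly (if i = 0 then q else 0) * yy ^ i = 0
      rw [if_neg hi, map_zero, zero_mul]
    · intro h
      exact absurd (Finset.mem_range.mpr hG.pos) h
  · have h1 : algebraMap (NRing N f) (FunField N f) (∑ i ∈ Finset.range N, ofPoly (p i) * yy ^ i) =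
        ∑ i ∈ Finset.range N, polyF (p i) * yF ^ i := by
      rw [map_sum]
      rfl
    have h2 : algebraMap (NRing N f) (FunField N f) (ofPoly q) = polyF q := rfl
    rw [h1, h2, ← e, mul_comm, mul_div_assoc, div_self (polyF_ne_zero hq), mul_one]


end Pool.Agent.Lib.MP_89bcae_ag.Wt

end
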