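import Mathlib
import Pool.Agent.Lib.MP_89bcae_ag.Bk.K004
import Pool.Agent.Lib.MP_89bcae_ag.Bk.K005
import Pool.Agent.Lib.MP_89bcae_ag.DefsN8

section

/-!
# Cocycles of degree two of a group which acts on a field
-/

namespace Pool.Agent.Lib.MP_89bcae_ag.Bra.Tsn

section

variable {G E : Type} [Group G] [Field E] [MulSemiringAction G E]

/-- `2`-cocycles of the group `G` with values in `Eˣ`. -/
def DCoc (b : G → G → Eˣ) : Prop :=
  ∀ g h j : G, (b g h : E) * b (g * h) j = g • (b h j : E) * b g (h * j)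

/-- `b` is the coboundary of a cochain. -/
def DCob (b : G → G → Eˣ) : Prop :=
  ∃ a : G → Eˣ, ∀ g h : G, (b g h : E) * a (g * h) = g • (a h : E) * a g

end

end Pool.Agent.Lib.MP_89bcae_ag.Bra.Tsn

end

section

/-!
# The number of ideals of given norm
-/

open NumberField Ideal

namespace Pool.Agent.Lib.MP_89bcae_ag.Re

/-- The number of ideals of norm `n` of the ring of integers of `K`. -/
noncomputable def idealCount (K : Type*) [Field K] [NumberField K] (n : ℕ) : ℕ :=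
  Nat.card {I : Ideal (𝓞 K) // absNorm I = n}

/-- The Dirichlet series of `K` for real `s`. -/
noncomputable def zetaR (K : Type*) [Field K] [NumberField K] (s : ℝ) : ℝ :=
  ∑' n : ℕ, (idealCount K n : ℝ) * (n : ℝ) ^ (-s)

end Pool.Agent.Lib.MP_89bcae_ag.Re

end

section

open Filter Topology

namespace Pool.Agent.Lib.MP_89bcae_ag.Re

/-- Elementary: `x ↦ log (1 + x) - x + x ^ 2` is nonnegative for `x ≥ 0` (for instance from
`Real.add_one_le_exp` applied to `-x/(1+x)`, or by cases `x ≤ 1`: `1 + x ≥ exp (x - x ^ 2)`). -/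
theorem exp_le_one_add_mul_exp_sq {x : ℝ} (hx : 0 ≤ x) :
    Real.exp x ≤ (1 + x) * Real.exp (x ^ 2) := by
  have h1 : x ^ 2 - x + 1 ≤ Real.exp (x ^ 2 - x) := Real.add_one_le_exp _
  have h2 : 1 ≤ (1 + x) * Real.exp (x ^ 2 - x) := by
    have h3 : (1 + x) * (x ^ 2 - x + 1) = 1 + x ^ 3 := by ring
    have h4 : (1 + x) * (x ^ 2 - x + 1) ≤ (1 + x) * Real.exp (x ^ 2 - x) :=
      mul_le_mul_of_nonneg_left h1 (by linarith)
    have h5 : 0 ≤ x ^ 3 := pow_nonneg hx 3
    linarith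
  calc Real.exp x = 1 * Real.exp x := (one_mul _).symm
    _ ≤ ((1 + x) * Real.exp (x ^ 2 - x)) * Real.exp x := mul_le_mul_of_nonneg_right h2 (Real.exp_pos _).le
    _ = (1 + x) * Real.exp (x ^ 2) := by
      rw [mul_assoc, ← Real.exp_add, sub_add_cancel]

private lemma n05a_pow {q : ℕ} (hq : 2 ≤ q) {s : ℝ} (hs : 1 < s) (e : ℕ) :
    ((q ^ e : ℕ) : ℝ) ^ (-s) ≤ (1 / 2) ^ e := by
  have hq1 : 1 ≤ q ^ e := Nat.one_le_pow _ _ (by omega)
  have hq1' : (1 : ℝ) ≤ ((q ^ e : ℕ) : ℝ) := by exact_mod_cast hq1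
  have h1 : ((q ^ e : ℕ) : ℝ) ^ (-s) ≤ ((q ^ e : ℕ) : ℝ) ^ (-1 : ℝ) :=
    Real.rpow_le_rpow_of_exponent_le hq1' (by linarith)
  have h2 : ((q ^ e : ℕ) : ℝ) ^ (-1 : ℝ) = (((q ^ e : ℕ) : ℝ))⁻¹ := Real.rpow_neg_one _
  have h3 : (((q ^ e : ℕ) : ℝ))⁻¹ ≤ (1 / 2) ^ e := by
    rw [one_div, inv_pow]
    apply inv_anti₀ (by positivity)
    push_cast
    exact pow_le_pow_left₀ (by norm_num) (by exact_mod_cast hq) e
  rw [h2] at h1
  exact h1.trans h3

private lemma n05a_sum (d : ℕ) : Summable fun e : ℕ => ((e : ℝ) + 1) ^ d * (1 / 2) ^ e := by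
  have h1 : Summable fun n : ℕ => (n : ℝ) ^ d * (1 / 2 : ℝ) ^ n :=
    summable_pow_mul_geometric_of_norm_lt_one d (by rw [Real.norm_eq_abs, abs_of_pos] <;> norm_num)
  have h2 := ((summable_nat_add_iff 1).2 h1).mul_left 2
  refine h2.congr fun e => ?_
  push_cast
  rw [pow_succ]
  ring

/-- The series of the Euler factor converges. Proof: `u e ≤ (e+1)^d`, `q ≥ 2`, compare with
`(e+1)^d * 2^(-e)` (`summable_pow_mul_geometric_of_norm_lt_one` or root test). -/
theorem summable_factor (d : ℕ) {u : ℕ → ℝ} (hu0 : ∀ e, 0 ≤ u e) (hu : ∀ e, u e ≤ ((e : ℝ) + 1) ^ d)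
    {q : ℕ} (hq : 2 ≤ q) {s : ℝ} (hs : 1 < s) :
    Summable fun e : ℕ => u e * ((q ^ e : ℕ) : ℝ) ^ (-s) := by
  refine Summable.of_nonneg_of_le (fun e => mul_nonneg (hu0 e) (Real.rpow_nonneg (Nat.cast_nonneg _) _))
    (fun e => ?_) (n05a_sum d)
  exact mul_le_mul (hu e) (n05a_pow hq hs e) (Real.rpow_nonneg (Nat.cast_nonneg _) _)
    (pow_nonneg (by positivity) _)

/-- The majorant of the tail of the Euler factor is summable. -/
theorem n05b_summable (d : ℕ) : Summable fun e : ℕ => ((e : ℝ) + 3) ^ d * (1 / 2 : ℝ) ^ e := by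
  have h1 : Summable fun n : ℕ => (n : ℝ) ^ d * (1 / 2 : ℝ) ^ n :=
    summable_pow_mul_geometric_of_norm_lt_one d (by rw [Real.norm_eq_abs, abs_of_pos] <;> norm_num)
  have h2 := ((summable_nat_add_iff 3).2 h1).mul_left 8
  refine h2.congr fun e => ?_
  push_cast
  rw [pow_add]
  ring

/-- One term of the tail. -/
theorem n05b_term {d : ℕ} {u : ℕ → ℝ} (hu : ∀ e, u e ≤ ((e : ℝ) + 1) ^ d) {q : ℕ} (hq : 2 ≤ q)
    {s : ℝ} (hs : 1 < s) (e : ℕ) :
    u (e + 2) * ((q ^ (e + 2) : ℕ) : ℝ) ^ (-s) ≤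
      1 / (q : ℝ) ^ 2 * (((e : ℝ) + 3) ^ d * (1 / 2 : ℝ) ^ e) := by
  have hq0 : (2 : ℝ) ≤ q := by exact_mod_cast hq
  have hqpos : (0 : ℝ) < q := by linarith
  have h1 : (1 : ℝ) ≤ ((q ^ (e + 2) : ℕ) : ℝ) := by
    exact_mod_cast Nat.one_le_pow _ _ (by omega : 0 < q)
  have h2 : ((q ^ (e + 2) : ℕ) : ℝ) ^ (-s) ≤ 1 / (q : ℝ) ^ 2 * (1 / 2 : ℝ) ^ e := by
    have h3 : ((q ^ (e + 2) : ℕ) : ℝ) ^ (-s) ≤ ((q ^ (e + 2) : ℕ) : ℝ) ^ (-1 : ℝ) :=
      Real.rpow_le_rpow_of_exponent_le h1 (by linarith)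
    refine h3.trans ?_
    rw [Real.rpow_neg_one, Nat.cast_pow, pow_add, mul_inv, one_div, one_div, inv_pow, mul_comm]
    refine mul_le_mul_of_nonneg_left ?_ (by positivity)
    exact inv_anti₀ (by positivity) (pow_le_pow_left₀ (by norm_num) hq0 e)
  have h4 : u (e + 2) ≤ ((e : ℝ) + 3) ^ d := by
    have h5 := hu (e + 2)
    push_cast at h5
    have h6 : (e : ℝ) + 2 + 1 = (e : ℝ) + 3 := by ring
    rwa [h6] at h5
  calc u (e + 2) * ((q ^ (e + 2) : ℕ) : ℝ) ^ (-s)
      ≤ ((e : ℝ) + 3) ^ d * ((q ^ (e + 2) : ℕ) : ℝ) ^ (-s) :=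
        mul_le_mul_of_nonneg_right h4 (Real.rpow_nonneg (by linarith) _)
    _ ≤ ((e : ℝ) + 3) ^ d * (1 / (q : ℝ) ^ 2 * (1 / 2 : ℝ) ^ e) :=
        mul_le_mul_of_nonneg_left h2 (by positivity)
    _ = 1 / (q : ℝ) ^ 2 * (((e : ℝ) + 3) ^ d * (1 / 2 : ℝ) ^ e) := by ring

/-- One Euler factor. `u e` stands for `a(q ^ e)`. Proof: the factor is `1 + u 1 * q ^ (-s) + R` with
`0 ≤ R = ∑_{e ≥ 2} ≤ ∑_{e ≥ 2} (e+1)^d q^(-e)` (since `s > 1`) `≤ C₁ / q ^ 2`,
`C₁ = ∑_{e ≥ 2} (e+1)^d 2^(2-e)`. -/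
theorem factor_le (d : ℕ) : ∃ C : ℝ, 0 ≤ C ∧ ∀ (u : ℕ → ℝ), (∀ e, 0 ≤ u e) → u 0 = 1 →
    (∀ e, u e ≤ ((e : ℝ) + 1) ^ d) → ∀ (q : ℕ), 2 ≤ q → ∀ s : ℝ, 1 < s →
      ∑' e : ℕ, u e * ((q ^ e : ℕ) : ℝ) ^ (-s) ≤ 1 + u 1 * (q : ℝ) ^ (-s) + C / (q : ℝ) ^ 2 := by
  refine ⟨∑' e : ℕ, ((e : ℝ) + 3) ^ d * (1 / 2 : ℝ) ^ e, tsum_nonneg fun e => by positivity, ?_⟩
  intro u hu0 hu1 hu q hq s hs
  have hsum := summable_factor d hu0 hu hq hs
  rw [← hsum.sum_add_tsum_nat_add 2, Finset.sum_range_succ, Finset.sum_range_one, hu1, pow_zero,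
    Nat.cast_one, Real.one_rpow, one_mul, pow_one]
  have h1 : ∑' e : ℕ, u (e + 2) * ((q ^ (e + 2) : ℕ) : ℝ) ^ (-s) ≤
      ∑' e : ℕ, 1 / (q : ℝ) ^ 2 * (((e : ℝ) + 3) ^ d * (1 / 2 : ℝ) ^ e) :=
    ((summable_nat_add_iff 2).2 hsum).tsum_le_tsum (fun e => n05b_term hu hq hs e)
      ((n05b_summable d).mul_left _)
  rw [tsum_mul_left] at h1
  have h2 : 1 / (q : ℝ) ^ 2 * ∑' e : ℕ, ((e : ℝ) + 3) ^ d * (1 / 2 : ℝ) ^ e =
      (∑' e : ℕ, ((e : ℝ) + 3) ^ d * (1 / 2 : ℝ) ^ e) / (q : ℝ) ^ 2 := by ring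
  linarith

end Pool.Agent.Lib.MP_89bcae_ag.Re

end

section

open NumberField Polynomial

namespace Pool.Agent.Lib.MP_89bcae_ag.Re

private theorem exists_nat_mul_int (K : Type*) [Field K] [NumberField K] (a : K) :
    ∃ M : ℕ, M ≠ 0 ∧ ∃ b : 𝓞 K, (b : K) = M * a := by
  have halg : IsAlgebraic ℤ a := by
    have h1 : IsAlgebraic ℚ a := Algebra.IsAlgebraic.isAlgebraic a
    exact (IsFractionRing.isAlgebraic_iff ℤ ℚ K).mpr h1
  obtain ⟨y, hy0, hy⟩ := halg.exists_integral_multiple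
  refine ⟨y.natAbs, Int.natAbs_ne_zero.mpr hy0, ?_⟩
  have hy2 : IsIntegral ℤ ((y.natAbs : K) * a) := by
    rcases Int.natAbs_eq y with h | h
    · have : ((y.natAbs : K) * a) = y • a := by
        rw [zsmul_eq_mul]
        conv_rhs => rw [h]
        simp
      rw [this]; exact hy
    · have : ((y.natAbs : K) * a) = - (y • a) := by
        rw [zsmul_eq_mul]
        conv_rhs => rw [h]
        simp
      rw [this]; exact hy.neg
  exact ⟨⟨_, hy2⟩, rfl⟩

private theorem exists_nat_mul_poly (K : Type*) [Field K] [NumberField K] (p : K[X]) :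
    ∃ M : ℕ, M ≠ 0 ∧ ∃ q : (𝓞 K)[X], q.map (algebraMap (𝓞 K) K) = (M : K[X]) * p := by
  induction p using Polynomial.induction_on' with
  | add p q hp hq =>
    obtain ⟨M, hM, P, hP⟩ := hp
    obtain ⟨N, hN, Q, hQ⟩ := hq
    refine ⟨M * N, mul_ne_zero hM hN, (N : (𝓞 K)[X]) * P + (M : (𝓞 K)[X]) * Q, ?_⟩
    rw [Polynomial.map_add, Polynomial.map_mul, Polynomial.map_mul, hP, hQ]
    simp only [Polynomial.map_natCast]
    push_cast
    ring
  | monomial n a =>
    obtain ⟨M, hM, b, hb⟩ := exists_nat_mul_int K a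
    refine ⟨M, hM, Polynomial.monomial n b, ?_⟩
    rw [Polynomial.map_monomial]
    have : (M : K[X]) = C (M : K) := by simp
    rw [this, Polynomial.C_mul_monomial]
    congr 1

/-- A common denominator. Proof: `𝓞 K'` is generated by finitely many elements `y` as an `ℤ`-module
(`Module.Finite ℤ (𝓞 K')`); each is `aeval α p` with `p ∈ K[X]` (`Algebra.adjoin_singleton_eq_range_aeval`),
and a nonzero integer times `p` has coefficients in `𝓞 K`
(`IsLocalization.integerNormalization`, or `exist_integer_multiples_of_finset` with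
`IsLocalization (nonZeroDivisors ℤ)` or `IsIntegralClosure.exists_smul_eq_mul` ...); take the product
of these integers, and extend to sums of integral multiples of the generators
(`Submodule.span_induction`). -/
theorem exists_denominator (K K' : Type*) [Field K] [NumberField K] [Field K'] [NumberField K']
    [Algebra K K'] {α : 𝓞 K'} (hα : Algebra.adjoin K {(α : K')} = ⊤) :
    ∃ M : ℕ, M ≠ 0 ∧ ∀ y : 𝓞 K', ∃ p : (𝓞 K)[X], (M : 𝓞 K') * y = aeval α p := by
  classical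
  -- one element
  have h1 : ∀ y : 𝓞 K', ∃ M : ℕ, M ≠ 0 ∧ ∃ p : (𝓞 K)[X], (M : 𝓞 K') * y = aeval α p := by
    intro y
    have hy : (y : K') ∈ Algebra.adjoin K {(α : K')} := by rw [hα]; trivial
    rw [Algebra.adjoin_singleton_eq_range_aeval] at hy
    obtain ⟨p, hp⟩ := hy
    obtain ⟨M, hM, q, hq⟩ := exists_nat_mul_poly K p
    refine ⟨M, hM, q, ?_⟩
    apply RingOfIntegers.coe_injective
    have e1 : ((aeval α q : 𝓞 K') : K') = aeval (α : K') q := by
      have := Polynomial.aeval_algebraMap_apply K' α q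
      exact this.symm
    have e2 : aeval (α : K') q = aeval (α : K') (q.map (algebraMap (𝓞 K) K)) := by
      rw [Polynomial.aeval_map_algebraMap]
    change (((M : 𝓞 K') * y : 𝓞 K') : K') = ((aeval α q : 𝓞 K') : K')
    rw [e1, e2, hq, map_mul, map_natCast]
    have hp' : aeval (α : K') p = (y : K') := hp
    rw [hp']
    simp
  -- a finite family
  obtain ⟨s, hs⟩ := (Module.Finite.fg_top : (⊤ : Submodule ℤ (𝓞 K')).FG)
  choose M hM p hp using h1
  refine ⟨∏ y ∈ s, M y, Finset.prod_ne_zero_iff.mpr (fun y _ => hM y), ?_⟩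
  intro y
  have hy : y ∈ Submodule.span ℤ (s : Set (𝓞 K')) := by rw [hs]; trivial
  induction hy using Submodule.span_induction with
  | mem x hx =>
    have hx' : x ∈ s := hx
    refine ⟨((∏ y ∈ s.erase x, M y : ℕ) : (𝓞 K)[X]) * p x, ?_⟩
    rw [map_mul, map_natCast, ← hp x, ← mul_assoc, ← Nat.cast_mul, mul_comm (∏ y ∈ s.erase x, M y),
      Finset.mul_prod_erase s M hx']
  | zero => exact ⟨0, by simp⟩
  | add a b _ _ ha hb =>
    obtain ⟨P, hP⟩ := ha
    obtain ⟨Q, hQ⟩ := hb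
    exact ⟨P + Q, by rw [mul_add, hP, hQ, map_add]⟩
  | smul n a _ ha =>
    obtain ⟨P, hP⟩ := ha
    refine ⟨(n : (𝓞 K)[X]) * P, ?_⟩
    rw [map_mul, map_intCast, ← hP, zsmul_eq_mul]
    ring

end Pool.Agent.Lib.MP_89bcae_ag.Re

end

section

open NumberField Polynomial

namespace Pool.Agent.Lib.MP_89bcae_ag.Re

private theorem n11_key (K K' : Type*) [Field K] [NumberField K] [Field K'] [NumberField K']
    [Algebra K K'] {ℓ : ℕ} (hℓ : 0 < ℓ) {b : 𝓞 K} {α : 𝓞 K'}
    (hb : α ^ ℓ = algebraMap (𝓞 K) (𝓞 K') b) (hirr : Irreducible (X ^ ℓ - C (b : K)))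
    {q : ℕ} (φ : 𝓞 K →+* ZMod q) {c : ZMod q} (hc : c ^ ℓ = φ b) (p : (𝓞 K)[X])
    (hp : aeval α p = 0) : eval₂ φ c p = 0 := by
  have hmon : (X ^ ℓ - C b : (𝓞 K)[X]).Monic := monic_X_pow_sub_C b hℓ.ne'
  have hPα : aeval α (X ^ ℓ - C b : (𝓞 K)[X]) = 0 := by
    simp [hb]
  have hPc : eval₂ φ c (X ^ ℓ - C b : (𝓞 K)[X]) = 0 := by
    simp [hc]
  have hdiv := modByMonic_add_div p (X ^ ℓ - C b : (𝓞 K)[X])
  set r := p %ₘ (X ^ ℓ - C b : (𝓞 K)[X]) with hr
  have hrα : aeval α r = 0 := by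
    have h := congrArg (aeval α) hdiv
    rw [map_add, map_mul, hPα, zero_mul, add_zero, hp] at h
    exact h
  have hmonK : (X ^ ℓ - C (b : K) : K[X]).Monic := monic_X_pow_sub_C _ hℓ.ne'
  have hαK : aeval (α : K') (X ^ ℓ - C (b : K) : K[X]) = 0 := by
    have h1 : ((α ^ ℓ : 𝓞 K') : K') = ((algebraMap (𝓞 K) (𝓞 K') b : 𝓞 K') : K') := by rw [hb]
    have h2 : (α : K') ^ ℓ = algebraMap K K' (b : K) := by
      have h3 : algebraMap (𝓞 K') K' (algebraMap (𝓞 K) (𝓞 K') b) =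
          algebraMap K K' (algebraMap (𝓞 K) K b) := by
        rw [← IsScalarTower.algebraMap_apply, ← IsScalarTower.algebraMap_apply]
      rw [← h3, ← hb, map_pow]
    simp only [map_sub, map_pow, aeval_X, aeval_C, h2, sub_self]
  have hmin := minpoly.eq_of_irreducible_of_monic hirr hαK hmonK
  have hrK : aeval (α : K') (r.map (algebraMap (𝓞 K) K)) = 0 := by
    have h1 : aeval (α : K') (r.map (algebraMap (𝓞 K) K)) = algebraMap (𝓞 K') K' (aeval α r) := by
      rw [aeval_map_algebraMap, aeval_algebraMap_apply]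
    rw [h1, hrα, map_zero]
  have hr0 : r = 0 := by
    have hdvd := minpoly.dvd K (α : K') hrK
    rw [← hmin] at hdvd
    have hdeg : (r.map (algebraMap (𝓞 K) K)).degree < (X ^ ℓ - C (b : K) : K[X]).degree := by
      calc (r.map (algebraMap (𝓞 K) K)).degree ≤ r.degree := degree_map_le
        _ < (X ^ ℓ - C b : (𝓞 K)[X]).degree := degree_modByMonic_lt _ hmon
        _ = ℓ := degree_X_pow_sub_C hℓ _
        _ = _ := (degree_X_pow_sub_C hℓ _).symm
    have h0 : r.map (algebraMap (𝓞 K) K) = 0 := by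
      by_contra hne
      exact absurd (degree_le_of_dvd hdvd hne) (not_le.mpr hdeg)
    exact (Polynomial.map_eq_zero_iff (IsFractionRing.injective (𝓞 K) K)).mp h0
  rw [← hdiv, hr0, zero_add, eval₂_mul, hPc, zero_mul]

/-- Extension of a homomorphism to `F_q`. Proof: `X ^ ℓ - C b` is the minimal polynomial of `α` over
`K` (`hirr`, monic, `minpoly.eq_of_irreducible_of_monic`), so, since `𝓞 K` is integrally closed, that
over `𝓞 K` too (`minpoly.isIntegrallyClosed_eq_field_fractions'`): a polynomial `p ∈ (𝓞 K)[X]` with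
`aeval α p = 0` is a multiple of `X ^ ℓ - C b` (`minpoly.isIntegrallyClosed_dvd`). So
`eval₂ φ c p = 0` whenever `aeval α p = 0`, because `c ^ ℓ = φ b`. Define `ψ y = M⁻¹ * eval₂ φ c p` for
any `p` with `M * y = aeval α p` (`Classical.choose`): this does not depend on `p`; it is additive; it
is multiplicative: if `M y = p(α)`, `M z = r(α)`, `M (y z) = w(α)`, then `p r - C M * w` is zero at
`α`. Values: `ψ (algebraMap x) = φ x` with `p = C (M x)`, `ψ α = c` with `p = C M * X`. -/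
theorem exists_extension (K K' : Type*) [Field K] [NumberField K] [Field K'] [NumberField K']
    [Algebra K K'] {ℓ : ℕ} (hℓ : 0 < ℓ) {b : 𝓞 K} {α : 𝓞 K'}
    (hb : α ^ ℓ = algebraMap (𝓞 K) (𝓞 K') b) (hirr : Irreducible (X ^ ℓ - C (b : K)))
    {M : ℕ} (hM : ∀ y : 𝓞 K', ∃ p : (𝓞 K)[X], (M : 𝓞 K') * y = aeval α p)
    {q : ℕ} [Fact q.Prime] (hqM : ¬ q ∣ M) (φ : 𝓞 K →+* ZMod q) {c : ZMod q} (hc : c ^ ℓ = φ b) :
    ∃ ψ : 𝓞 K' →+* ZMod q, (∀ x : 𝓞 K, ψ (algebraMap (𝓞 K) (𝓞 K') x) = φ x) ∧ ψ α = c := by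
  have hM0 : (M : ZMod q) ≠ 0 := by
    rw [Ne, ZMod.natCast_eq_zero_iff]
    exact hqM
  have key : ∀ p r : (𝓞 K)[X], aeval α p = aeval α r → eval₂ φ c p = eval₂ φ c r := by
    intro p r h
    have h1 : aeval α (p - r) = 0 := by rw [map_sub, h, sub_self]
    have h2 := n11_key K K' hℓ hb hirr φ hc (p - r) h1
    rw [eval₂_sub, sub_eq_zero] at h2
    exact h2
  choose P hP using hM
  have val : ∀ (y : 𝓞 K') (p : (𝓞 K)[X]), (M : 𝓞 K') * y = aeval α p →
      (M : ZMod q)⁻¹ * eval₂ φ c (P y) = (M : ZMod q)⁻¹ * eval₂ φ c p := by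
    intro y p hp
    rw [key (P y) p ((hP y).symm.trans hp)]
  have valM : ∀ (y : 𝓞 K') (p : (𝓞 K)[X]) (d : ZMod q), (M : 𝓞 K') * y = aeval α p →
      eval₂ φ c p = M * d → (M : ZMod q)⁻¹ * eval₂ φ c (P y) = d := by
    intro y p d hp hd
    rw [val y p hp, hd, ← mul_assoc, inv_mul_cancel₀ hM0, one_mul]
  refine ⟨{ toFun := fun y => (M : ZMod q)⁻¹ * eval₂ φ c (P y)
            map_one' := ?_
            map_mul' := ?_
            map_zero' := ?_
            map_add' := ?_ }, ?_, ?_⟩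
  · apply valM 1 (C (M : 𝓞 K)) 1
    · simp
    · simp
  · intro x y
    apply valM (x * y) (P (x * y))
    · exact hP _
    · have h1 : aeval α (C (M : 𝓞 K) * P (x * y)) = aeval α (P x * P y) := by
        rw [map_mul, map_mul, ← hP x, ← hP y, ← hP (x * y)]
        simp only [map_natCast]
        ring
      have h2 := key _ _ h1
      rw [eval₂_mul, eval₂_mul, eval₂_C, map_natCast] at h2
      have h3 : (M : ZMod q) * ((M : ZMod q)⁻¹ * eval₂ φ c (P x) * ((M : ZMod q)⁻¹ * eval₂ φ c (P y)))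
          = (M : ZMod q)⁻¹ * (eval₂ φ c (P x) * eval₂ φ c (P y)) := by
        have : (M : ZMod q) * (M : ZMod q)⁻¹ = 1 := mul_inv_cancel₀ hM0
        linear_combination ((M : ZMod q)⁻¹ * (eval₂ φ c (P x) * eval₂ φ c (P y))) * this
      rw [h3, ← h2, ← mul_assoc, inv_mul_cancel₀ hM0, one_mul]
  · apply valM 0 0 0
    · simp
    · simp
  · intro x y
    show (M : ZMod q)⁻¹ * eval₂ φ c (P (x + y)) = (M : ZMod q)⁻¹ * eval₂ φ c (P x) +
      (M : ZMod q)⁻¹ * eval₂ φ c (P y)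
    rw [val (x + y) (P x + P y), eval₂_add, mul_add]
    rw [map_add, ← hP x, ← hP y, mul_add]
  · intro x
    show (M : ZMod q)⁻¹ * eval₂ φ c (P _) = φ x
    apply valM _ (C ((M : 𝓞 K) * x))
    · rw [aeval_C, map_mul, map_natCast]
    · rw [eval₂_C, map_mul, map_natCast]
  · show (M : ZMod q)⁻¹ * eval₂ φ c (P _) = c
    apply valM _ (C (M : 𝓞 K) * X)
    · rw [map_mul, aeval_C, aeval_X, map_natCast]
    · rw [eval₂_mul, eval₂_C, eval₂_X, map_natCast]

end Pool.Agent.Lib.MP_89bcae_ag.Re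

end

section

namespace Pool.Agent.Lib.MP_89bcae_ag.Re

/-- Powers in a prime field. Proof: the group of units of `ZMod q` is cyclic of order `q - 1`, divisible
by `ℓ` (the order of `ζ`); `a` is an `ℓ`-th power iff `a ^ ((q - 1) / ℓ) = 1`. In detail: let `u` be a
generator (`IsCyclic (ZMod q)ˣ`), `a = u ^ i`; `a ^ ((q-1)/ℓ)` is an `ℓ`-th root of unity, so it is
`ζ ^ j` with `j < ℓ` (`IsPrimitiveRoot.eq_pow_of_pow_eq_one`); if `j = 0` then `q - 1` divides
`i (q-1)/ℓ`, so `ℓ ∣ i` and `a` is an `ℓ`-th power. -/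
theorem exists_symbol {ℓ q : ℕ} (hℓ : ℓ.Prime) [Fact q.Prime] {ζ : ZMod q}
    (hζ : IsPrimitiveRoot ζ ℓ) {a : ZMod q} (ha : a ≠ 0) (hpow : ∀ y : ZMod q, y ^ ℓ ≠ a) :
    ℓ ∣ q - 1 ∧ ∃ i : ZMod ℓ, i ≠ 0 ∧ a ^ ((q - 1) / ℓ) = ζ ^ i.val := by
  have hζ0 : ζ ≠ 0 := hζ.ne_zero hℓ.ne_zero
  have hdvd : ℓ ∣ q - 1 := by
    rw [hζ.eq_orderOf]
    exact ZMod.orderOf_dvd_card_sub_one hζ0
  refine ⟨hdvd, ?_⟩
  obtain ⟨m, hm⟩ := hdvd
  have hq1 : 0 < q - 1 := by
    have := (Fact.out : q.Prime).two_le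
    omega
  have hm0 : 0 < m := by
    rcases Nat.eq_zero_or_pos m with h | h
    · rw [h, mul_zero] at hm
      omega
    · exact h
  have hdiv : (q - 1) / ℓ = m := by
    rw [hm]
    exact Nat.mul_div_cancel_left m hℓ.pos
  rw [hdiv]
  have hNe : NeZero ℓ := ⟨hℓ.ne_zero⟩
  have h1 : (a ^ m) ^ ℓ = 1 := by
    rw [← pow_mul, mul_comm m ℓ, ← hm]
    exact ZMod.pow_card_sub_one_eq_one ha
  obtain ⟨j, hj, hj'⟩ := hζ.eq_pow_of_pow_eq_one h1
  refine ⟨(j : ZMod ℓ), ?_, ?_⟩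
  · intro h0
    rw [ZMod.natCast_eq_zero_iff] at h0
    have hj0 : j = 0 := Nat.eq_zero_of_dvd_of_lt h0 hj
    rw [hj0, pow_zero] at hj'
    obtain ⟨u, hu⟩ := IsCyclic.exists_generator (α := (ZMod q)ˣ)
    obtain ⟨i, hi⟩ := (Submonoid.mem_powers_iff _ _).1 ((mem_powers_iff_mem_zpowers).2 (hu (Units.mk0 a ha)))
    have hord : orderOf u = q - 1 := by
      rw [orderOf_eq_card_of_forall_mem_zpowers hu, Nat.card_eq_fintype_card, ZMod.card_units]
    have h2 : u ^ (i * m) = 1 := by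
      rw [pow_mul, hi]
      ext
      rw [Units.val_pow_eq_pow_val, Units.val_mk0, Units.val_one]
      exact hj'.symm
    have h3 : ℓ * m ∣ i * m := by
      rw [← hm, ← hord]
      exact orderOf_dvd_of_pow_eq_one h2
    obtain ⟨n, hn⟩ := Nat.dvd_of_mul_dvd_mul_right hm0 h3
    refine hpow ((u ^ n : (ZMod q)ˣ) : ZMod q) ?_
    have h4 : (u ^ n) ^ ℓ = Units.mk0 a ha := by
      rw [← hi, hn, mul_comm ℓ n, pow_mul]
    rw [← Units.val_pow_eq_pow_val, h4, Units.val_mk0]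
  · rw [ZMod.val_natCast, Nat.mod_eq_of_lt hj, hj']

/-- Proof: `(w ^ ℓ) ^ ((q - 1) / ℓ) = w ^ (q - 1) = 1` and
`(ζ ^ i.val) ^ j = ζ ^ (i * j : ZMod ℓ).val` (`ζ ^ ℓ = 1`, `ZMod.val_mul`, `pow_mod_orderOf`...). -/
theorem symbol_of_pow_mul {ℓ q : ℕ} (hℓ : ℓ.Prime) [Fact q.Prime] {ζ : ZMod q}
    (hζ : IsPrimitiveRoot ζ ℓ) (hdvd : ℓ ∣ q - 1) {w a z : ZMod q} {j : ℕ} (hw : w ≠ 0)
    (h : w ^ ℓ * a ^ j = z) {i : ZMod ℓ} (hi : a ^ ((q - 1) / ℓ) = ζ ^ i.val) :
    z ^ ((q - 1) / ℓ) = ζ ^ (i * j : ZMod ℓ).val := by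
  have hNe : NeZero ℓ := ⟨hℓ.ne_zero⟩
  obtain ⟨m, hm⟩ := hdvd
  have hdiv : (q - 1) / ℓ = m := by
    rw [hm]
    exact Nat.mul_div_cancel_left m hℓ.pos
  rw [hdiv] at hi ⊢
  have h1 : w ^ (ℓ * m) = 1 := by
    rw [← hm]
    exact ZMod.pow_card_sub_one_eq_one hw
  have h2 : ∀ n : ℕ, ζ ^ (n % ℓ) = ζ ^ n := by
    intro n
    conv_rhs => rw [← Nat.div_add_mod n ℓ, pow_add, pow_mul, hζ.pow_eq_one, one_pow, one_mul]
  rw [← h, mul_pow, ← pow_mul, h1, one_mul, ← pow_mul, mul_comm j m, pow_mul, hi, ← pow_mul,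
    ZMod.val_mul, ZMod.val_natCast, Nat.mul_mod_mod, h2]

end Pool.Agent.Lib.MP_89bcae_ag.Re

end

section

/-!
# Cyclic groups
-/

namespace Pool.Agent.Lib.MP_89bcae_ag.Bra.Tsn

section T5aux

variable {G A : Type} [Group G] [CommGroup A] [MulDistribMulAction G A]

/-- The coefficients of the powers of `c e_t`. -/
private def T5D (t : G) (b : G → G → A) (c : A) : ℕ → A
  | 0 => (b 1 1)⁻¹
  | i + 1 => c * (t • T5D t b c i) * b t (t ^ i)

private lemma T5_one_left {b : G → G → A}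
    (hb : ∀ g h j : G, b g h * b (g * h) j = g • b h j * b g (h * j)) (j : G) :
    b 1 j = b 1 1 := by
  have h := hb 1 1 j
  rw [one_smul, mul_one, one_mul] at h
  have h2 : b 1 1 * b 1 j = b 1 j * b 1 j := h
  exact (mul_right_cancel h2).symm

private lemma T5_one_right {b : G → G → A}
    (hb : ∀ g h j : G, b g h * b (g * h) j = g • b h j * b g (h * j)) (g : G) :
    b g 1 = g • b 1 1 := by
  have h := hb g 1 1
  rw [mul_one, mul_one] at h
  exact mul_right_cancel h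

private lemma T5D_one {t : G} {b : G → G → A} {c : A}
    (hb : ∀ g h j : G, b g h * b (g * h) j = g • b h j * b g (h * j)) :
    T5D t b c 1 = c := by
  change c * (t • (b 1 1)⁻¹) * b t (t ^ 0) = c
  rw [pow_zero, T5_one_right hb t, smul_inv', mul_assoc, inv_mul_cancel, mul_one]

private lemma T5D_add {t : G} {b : G → G → A} {c : A}
    (hb : ∀ g h j : G, b g h * b (g * h) j = g • b h j * b g (h * j)) (i j : ℕ) :
    T5D t b c (i + j) = T5D t b c i * (t ^ i • T5D t b c j) * b (t ^ i) (t ^ j) := by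
  induction i with
  | zero =>
    rw [zero_add, pow_zero, one_smul, T5_one_left hb]
    change _ = (b 1 1)⁻¹ * _ * _
    rw [mul_comm (b 1 1)⁻¹, mul_assoc, inv_mul_cancel, mul_one]
  | succ i ih =>
    have e1 : T5D t b c (i + 1 + j) = c * (t • T5D t b c (i + j)) * b t (t ^ (i + j)) := by
      rw [show i + 1 + j = (i + j) + 1 by ring]
      rfl
    have e2 : T5D t b c (i + 1) = c * (t • T5D t b c i) * b t (t ^ i) := rfl
    have e3 := hb t (t ^ i) (t ^ j)
    rw [← pow_succ', ← pow_add] at e3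
    have e4 : t ^ (i + 1) • T5D t b c j = t • t ^ i • T5D t b c j := by
      rw [smul_smul, ← pow_succ']
    rw [e1, ih, e2, smul_mul', smul_mul', e4]
    calc c * (t • T5D t b c i * t • t ^ i • T5D t b c j * t • b (t ^ i) (t ^ j)) *
          b t (t ^ (i + j))
        = c * (t • T5D t b c i * t • t ^ i • T5D t b c j) *
          (t • b (t ^ i) (t ^ j) * b t (t ^ (i + j))) := by
          simp only [mul_assoc]
      _ = c * (t • T5D t b c i * t • t ^ i • T5D t b c j) *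
          (b t (t ^ i) * b (t ^ (i + 1)) (t ^ j)) := by rw [e3]
      _ = c * t • T5D t b c i * b t (t ^ i) * t • t ^ i • T5D t b c j *
          b (t ^ (i + 1)) (t ^ j) := by
          simp only [mul_assoc, mul_left_comm, mul_comm]

private lemma T5D_prod {t : G} {b : G → G → A} {c : A} (i : ℕ) :
    T5D t b c i = (∏ k ∈ Finset.range i, t ^ k • c) * T5D t b 1 i := by
  induction i with
  | zero =>
    rw [Finset.range_zero, Finset.prod_empty, one_mul]
    rfl
  | succ i ih =>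
    change c * (t • T5D t b c i) * b t (t ^ i) =
      (∏ k ∈ Finset.range (i + 1), t ^ k • c) * (1 * (t • T5D t b 1 i) * b t (t ^ i))
    rw [ih, Finset.prod_range_succ', pow_zero, one_smul, one_mul, smul_mul', Finset.smul_prod']
    have e1 : ∀ k, t • t ^ k • c = t ^ (k + 1) • c := by
      intro k
      rw [smul_smul, ← pow_succ']
    simp only [e1]
    simp only [mul_assoc, mul_left_comm, mul_comm]

private theorem T5_core [Fintype G] (hG : IsCyclic G)
    (hn : ∀ u : A, (∀ g : G, g • u = u) → ∃ z : A, ∏ g : G, g • z = u)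
    (b : G → G → A)
    (hb : ∀ g h j : G, b g h * b (g * h) j = g • b h j * b g (h * j)) :
    ∃ a : G → A, ∀ g h : G, b g h * a (g * h) = g • a h * a g := by
  classical
  obtain ⟨t, ht⟩ := hG.exists_generator
  set n := orderOf t with hndef
  have htn : t ^ n = 1 := pow_orderOf_eq_one t
  have hfix : ∀ v : A, t • v = v → ∀ g : G, g • v = v := by
    intro v hv g
    obtain ⟨k, rfl⟩ := Subgroup.mem_zpowers_iff.1 (ht g)
    have : t ∈ MulAction.stabilizer G v := hv
    exact (MulAction.stabilizer G v).zpow_mem this k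
  set u := T5D t b 1 n with hu
  have hv : t • (u * b 1 1) = u * b 1 1 := by
    have h1 := T5D_add (c := (1 : A)) hb (t := t) n 1
    have h2 := T5D_add (c := (1 : A)) hb (t := t) 1 n
    rw [htn, T5D_one hb, one_smul, mul_one, T5_one_left hb, ← hu] at h1
    rw [htn, T5D_one hb, one_mul, pow_one, T5_one_right hb, ← hu, ← smul_mul'] at h2
    rw [← h2, ← h1, add_comm]
  obtain ⟨z, hz⟩ := hn _ (hfix _ hv)
  have hprod : (∏ k ∈ Finset.range n, t ^ k • z⁻¹) = (u * b 1 1)⁻¹ := by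
    rw [← hz, ← Finset.prod_inv_distrib]
    have himg : Finset.image (fun i => t ^ i) (Finset.range n) = Finset.univ := by
      rw [hndef, IsCyclic.image_range_orderOf ht]
    rw [← himg, Finset.prod_image]
    · refine Finset.prod_congr rfl fun k _ => ?_
      rw [smul_inv']
    · intro x hx y hy hxy
      exact pow_injOn_Iio_orderOf (Finset.mem_range.1 hx) (Finset.mem_range.1 hy) hxy
  have hDn : T5D t b z⁻¹ n = (b 1 1)⁻¹ := by
    rw [T5D_prod, hprod, ← hu, mul_inv, mul_comm u⁻¹, mul_assoc, inv_mul_cancel, mul_one]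
  have hper : ∀ i, T5D t b z⁻¹ (i + n) = T5D t b z⁻¹ i := by
    intro i
    rw [T5D_add hb, htn, hDn, T5_one_right hb (t ^ i), smul_inv', mul_assoc, inv_mul_cancel,
      mul_one]
  have hper2 : ∀ i m, T5D t b z⁻¹ (i + n * m) = T5D t b z⁻¹ i := by
    intro i m
    induction m with
    | zero => rw [mul_zero, add_zero]
    | succ m ih => rw [mul_add, mul_one, ← add_assoc, hper, ih]
  have hmod : ∀ i, T5D t b z⁻¹ i = T5D t b z⁻¹ (i % n) := by
    intro i
    conv_lhs => rw [← Nat.mod_add_div i n]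
    exact hper2 _ _
  have hdep : ∀ i j, t ^ i = t ^ j → T5D t b z⁻¹ i = T5D t b z⁻¹ j := by
    intro i j hij
    rw [hmod i, hmod j, pow_inj_mod.1 hij]
  have hk : ∀ g : G, ∃ k : ℕ, t ^ k = g := by
    intro g
    have := ht g
    rw [← mem_powers_iff_mem_zpowers] at this
    exact this
  choose k hk using hk
  refine ⟨fun g => (T5D t b z⁻¹ (k g))⁻¹, fun g h => ?_⟩
  have h1 : T5D t b z⁻¹ (k (g * h)) =
      T5D t b z⁻¹ (k g) * (g • T5D t b z⁻¹ (k h)) * b g h := by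
    rw [hdep (k (g * h)) (k g + k h) (by rw [pow_add, hk, hk, hk]), T5D_add hb, hk, hk]
  change b g h * (T5D t b z⁻¹ (k (g * h)))⁻¹ =
    g • (T5D t b z⁻¹ (k h))⁻¹ * (T5D t b z⁻¹ (k g))⁻¹
  rw [h1, smul_inv', mul_inv, mul_inv, mul_comm _ (b g h)⁻¹, ← mul_assoc, mul_inv_cancel,
    one_mul, mul_comm]

end T5aux

/-- If all fixed elements are norms then all `2`-cocycles of a finite cyclic group are coboundaries.

PROOF. Let `n = card G`, `t` a generator. (0) `b` may be normalised: the identities give `b 1 h = b 1 1` and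
`b g 1 = g (b 1 1)`; dividing by the coboundary of the constant cochain `b 1 1` we may suppose `b 1 h = 1 = b g 1`.
(1) Let `γ : ℕ → Eˣ`, `γ 0 = 1`, `γ (i+1) = t (γ i) * b(t, t^i)` (in the extension `e_g e_h = b(g,h) e_{gh}`, `e_g x = g(x) e_g`,
one has `e_t ^ i = γ i e_{t^i}`). Then `γ (i + j) = γ i * t^i(γ j) * b(t^i, t^j)` (induction on `i`, cocycle identity for
`(t, t^i, t^j)`). (2) `u := γ n` satisfies `t u = u`: `γ (n + 1) = γ n * t^n (γ 1) * b(1, t) = u` (as `γ 1 = 1`) and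
`γ (1 + n) = γ 1 * t(γ n) * b(t, 1) = t u`. So `u` is fixed by `G`; `u = N(z)`, `z ≠ 0`. As `G = {t^0, .., t^(n-1)}`,
`N(z) = ∏_{i<n} t^i z`. (3) `e' = z⁻¹ e_t`, `e'^i = δ i e_{t^i}` with `δ i = γ i / ∏_{k<i} t^k z`: `δ n = 1`,
`δ (i + j) = δ i * t^i(δ j) * b(t^i, t^j)`, so `δ (i + n) = δ i` and `δ i` depends only on `t^i`. For `g = t^i` put `a g = (δ i)⁻¹`:
`δ (i+j) = δ i * g (δ j) * b(g,h)` reads `b(g,h) a(gh) = g a(h) a(g)` after division, up to the inverse: with
`a = (δ i)⁻¹`, `1 / a(gh) = b(g,h) / (a(g) g a(h))`, so `b(g,h) a(gh) = a(g) g a(h)`. -/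
theorem cyclic_cob {G E : Type} [Group G] [Fintype G] [Field E] [MulSemiringAction G E]
    (hG : IsCyclic G) (hn : ∀ u : E, (∀ g : G, g • u = u) → ∃ z : E, ∏ g : G, g • z = u)
    (b : G → G → Eˣ) (hb : DCoc b) : DCob b := by
  let _ : MulDistribMulAction G Eˣ := Units.mulDistribMulActionRight
  have hval : ∀ (g : G) (x : Eˣ), ((g • x : Eˣ) : E) = g • (x : E) := fun _ _ => rfl
  have hb' : ∀ g h j : G, b g h * b (g * h) j = g • b h j * b g (h * j) := by
    intro g h j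
    ext
    rw [Units.val_mul, Units.val_mul, hval]
    exact hb g h j
  have hn' : ∀ u : Eˣ, (∀ g : G, g • u = u) → ∃ z : Eˣ, ∏ g : G, g • z = u := by
    intro u hu
    obtain ⟨z, hz⟩ := hn u (fun g => by
      have := congrArg Units.val (hu g)
      rwa [hval] at this)
    have hz0 : z ≠ 0 := by
      rintro rfl
      have h0 : ∏ g : G, g • (0 : E) = 0 := by
        simp
      rw [h0] at hz
      exact u.ne_zero hz.symm
    refine ⟨Units.mk0 z hz0, ?_⟩
    ext
    rw [← hz, Units.coe_prod]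
    rfl
  obtain ⟨a, ha⟩ := T5_core hG hn' b hb'
  refine ⟨a, fun g h => ?_⟩
  have := congrArg Units.val (ha g h)
  rwa [Units.val_mul, Units.val_mul, hval] at this

end Pool.Agent.Lib.MP_89bcae_ag.Bra.Tsn

end

section

/-!
# The transfer
-/

namespace Pool.Agent.Lib.MP_89bcae_ag.Bra.Tsn

theorem t7_alg {M : Type} [CommGroup M] {p q s t u v w y z : M} (e1 : u * v = p * y)
    (e2 : s * z = q * y) (e3 : t * z = w) : p / q * (s / t) = u * (v / w) := by
  rw [← mul_div_assoc u v w, e1, div_mul_div_comm, div_eq_div_iff_mul_eq_mul, ← e3]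
  calc p * s * (t * z) = p * t * (s * z) := by
        simp only [mul_comm, mul_left_comm]
    _ = p * y * (q * t) := by
        rw [e2]
        simp only [mul_comm, mul_left_comm]

/-- The transfer for cocycles which are `1` on `H × H`, with values in an abelian group. -/
theorem t7_core {G M : Type} [Group G] [Finite G] [CommGroup M] [MulDistribMulAction G M]
    (H : Subgroup G) (b : G → G → M) (hb : ∀ g h j : G, b g h * b (g * h) j = g • b h j * b g (h * j))
    (h1 : ∀ g ∈ H, ∀ h ∈ H, b g h = 1) :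
    ∃ a : G → M, ∀ g h : G, b g h ^ H.index * a (g * h) = g • a h * a g := by
  classical
  have : Fintype (G ⧸ H) := Fintype.ofFinite _
  let r : G ⧸ H → G := Quotient.out
  have hr : ∀ x : G ⧸ H, (r x : G ⧸ H) = x := fun x => QuotientGroup.out_eq' x
  have hmem : ∀ (g : G) (x : G ⧸ H), (r (g • x))⁻¹ * (g * r x) ∈ H := by
    intro g x
    rw [← QuotientGroup.eq, hr]
    show g • x = ((g * r x : G) : G ⧸ H)
    conv_lhs => rw [← hr x]
    rfl
  let a : G → G ⧸ H → M := fun g x => b g (r x) / b (r (g • x)) ((r (g • x))⁻¹ * (g * r x))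
  have key : ∀ (g g' : G) (x : G ⧸ H),
      g • a g' x * a g (g' • x) = b g g' * a (g * g') x := by
    intro g g' x
    have e1 := hb g g' (r x)
    have e2 := hb g (r (g' • x)) ((r (g' • x))⁻¹ * (g' * r x))
    have e3 := hb (r (g • g' • x)) ((r (g • g' • x))⁻¹ * (g * r (g' • x)))
      ((r (g' • x))⁻¹ * (g' * r x))
    rw [h1 _ (hmem g (g' • x)) _ (hmem g' x), smul_one, one_mul] at e3
    have f1 : r (g' • x) * ((r (g' • x))⁻¹ * (g' * r x)) = g' * r x := by group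
    have f2 : r (g • g' • x) * ((r (g • g' • x))⁻¹ * (g * r (g' • x))) = g * r (g' • x) := by group
    have f3 : (r (g • g' • x))⁻¹ * (g * r (g' • x)) * ((r (g' • x))⁻¹ * (g' * r x)) =
        (r (g • g' • x))⁻¹ * (g * g' * r x) := by group
    rw [f1] at e2
    rw [f2, f3] at e3
    show g • (b g' (r x) / b (r (g' • x)) ((r (g' • x))⁻¹ * (g' * r x))) *
      (b g (r (g' • x)) / b (r (g • g' • x)) ((r (g • g' • x))⁻¹ * (g * r (g' • x)))) =
      b g g' * (b (g * g') (r x) / b (r ((g * g') • x)) ((r ((g * g') • x))⁻¹ * (g * g' * r x)))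
    rw [mul_smul, smul_div']
    exact t7_alg e1 e2 e3
  refine ⟨fun g => ∏ x, a g x, fun g h => ?_⟩
  show b g h ^ H.index * ∏ x, a (g * h) x = g • (∏ x, a h x) * ∏ x, a g x
  have hre : ∏ x, a g x = ∏ x, a g (h • x) :=
    (Fintype.prod_equiv (MulAction.toPerm h) (fun x => a g (h • x)) (fun x => a g x)
      (fun x => rfl)).symm
  rw [hre, Finset.smul_prod', ← Finset.prod_mul_distrib, Finset.prod_congr rfl fun x _ => key g h x,
    Finset.prod_mul_distrib, Finset.prod_const, Finset.card_univ, Subgroup.index, Nat.card_eq_fintype_card]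

/-- A `2`-cocycle whose restriction to `H` is a coboundary is a coboundary up to the power `(G : H)`.

PROOF. (1) Extend `c` by `1` outside `H` and divide `b` by its coboundary: `b' g h = b g h * c (g h) / (g (c h) * c g)` is a cocycle
with `b' = 1` on `H × H`, and `b ^ m` is a coboundary if `b' ^ m` is. (2) Suppose `b = 1` on `H × H`. For `x` in `G ⧸ H` let `r x` be
the representative (`Quotient.out`); for `g` in `G`: `g * r x = r (g x) * h(g, x)`, `h(g, x) = (r (g x))⁻¹ * g * r x` in `H`. Put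
`a(g, x) = b(g, r x) / b(r (g x), h(g, x))` and `α g = ∏_x a(g, x)`. In the extension `e_g e_h = b(g,h) e_{gh}`, `e_g x = g(x) e_g`,
`e_g e_{r x} = a(g, x) e_{r (g x)} e_{h(g,x)}`, `e_h e_h' = e_{hh'}` for `h`, `h'` in `H`. Compute `e_g e_g' e_{r x}` in two ways:
`g(a(g', x)) * a(g, g' x) = b(g, g') * a(g g', x)` (a consequence of three or four cocycle identities, for
`(g, g', r x)`, `(g, r(g'x), h(g',x))`, `(r(gg'x), h(g,g'x), h(g',x))`, with `h(gg', x) = h(g, g'x) h(g', x)`). Take the product over `x`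
(`x ↦ g' x` is a bijection of `G ⧸ H`): `b(g,g')^m α(gg') = g(α(g')) α(g)`, `m = card (G ⧸ H) = H.index`. -/
theorem transfer {G E : Type} [Group G] [Finite G] [Field E] [MulSemiringAction G E]
    (H : Subgroup G) (b : G → G → Eˣ) (hb : DCoc b) (c : G → Eˣ)
    (hc : ∀ g ∈ H, ∀ h ∈ H, (b g h : E) * c (g * h) = g • (c h : E) * c g) :
    DCob fun g h => b g h ^ H.index := by
  classical
  let _ : MulDistribMulAction G Eˣ := Units.mulDistribMulActionRight
  have hcoe : ∀ (g : G) (u : Eˣ), ((g • u : Eˣ) : E) = g • (u : E) := fun g u => rfl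
  have hb' : ∀ g h j : G, b g h * b (g * h) j = g • b h j * b g (h * j) := by
    intro g h j
    ext
    exact hb g h j
  let c' : G → Eˣ := fun g => if g ∈ H then c g else 1
  have hc' : ∀ g ∈ H, ∀ h ∈ H, b g h * c' (g * h) = g • c' h * c' g := by
    intro g hg h hh
    ext
    simp only [c', if_pos hg, if_pos hh, if_pos (H.mul_mem hg hh)]
    exact hc g hg h hh
  obtain ⟨α, hα⟩ := t7_core H (fun g h => b g h * c' (g * h) / (g • c' h * c' g)) (by
      intro g h j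
      show b g h * c' (g * h) / (g • c' h * c' g) *
        (b (g * h) j * c' (g * h * j) / ((g * h) • c' j * c' (g * h))) =
        g • (b h j * c' (h * j) / (h • c' j * c' h)) *
        (b g (h * j) * c' (g * (h * j)) / (g • c' (h * j) * c' g))
      rw [smul_div', smul_mul', smul_mul', mul_smul, div_mul_div_comm, div_mul_div_comm,
        div_eq_div_iff_mul_eq_mul, mul_assoc g h j]
      have e := hb' g h j
      calc b g h * c' (g * h) * (b (g * h) j * c' (g * (h * j))) *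
            (g • h • c' j * g • c' h * (g • c' (h * j) * c' g))
          = (b g h * b (g * h) j) * (c' (g * h) * c' (g * (h * j)) *
            (g • h • c' j * g • c' h * (g • c' (h * j) * c' g))) := by
            simp only [mul_assoc, mul_comm, mul_left_comm]
        _ = _ := by
            rw [e]
            simp only [mul_assoc, mul_comm, mul_left_comm]) (by
      intro g hg h hh
      show b g h * c' (g * h) / (g • c' h * c' g) = 1
      rw [hc' g hg h hh, div_self'])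
  refine ⟨fun g => α g * c' g ^ H.index, fun g h => ?_⟩
  have e := hα g h
  have e1 : b g h ^ H.index * (α (g * h) * c' (g * h) ^ H.index) =
      g • (α h * c' h ^ H.index) * (α g * c' g ^ H.index) := by
    have e2 : (b g h * c' (g * h) / (g • c' h * c' g)) ^ H.index * α (g * h) = g • α h * α g := e
    rw [div_pow, mul_pow, mul_pow, div_mul_eq_mul_div, div_eq_iff_eq_mul] at e2
    rw [smul_mul', smul_pow']
    calc b g h ^ H.index * (α (g * h) * c' (g * h) ^ H.index)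
        = b g h ^ H.index * c' (g * h) ^ H.index * α (g * h) := by
          simp only [mul_comm, mul_left_comm]
      _ = _ := by
          rw [e2]
          simp only [mul_assoc, mul_comm, mul_left_comm]
  have e3 := congrArg (fun u : Eˣ => (u : E)) e1
  exact e3

end Pool.Agent.Lib.MP_89bcae_ag.Bra.Tsn

end

section

open NumberField Ideal

namespace Pool.Agent.Lib.MP_89bcae_ag.Re

/-- Proof: `absNorm I = 1` iff `I = ⊤` (`Ideal.absNorm_eq_one_iff`). -/
theorem idealCount_one (K : Type*) [Field K] [NumberField K] : idealCount K 1 = 1 := by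
  unfold idealCount
  have : Unique {I : Ideal (𝓞 K) // absNorm I = 1} :=
    { default := ⟨⊤, absNorm_eq_one_iff.2 rfl⟩
      uniq := fun I => Subtype.ext (absNorm_eq_one_iff.1 I.2) }
  exact Nat.card_unique

private theorem n02_sup (K : Type*) [Field K] [NumberField K] {m n : ℕ} (h : m.Coprime n)
    (J J' : Ideal (𝓞 K)) (hm : (m : 𝓞 K) ∈ J) (hn : (n : 𝓞 K) ∈ J') : J ⊔ J' = ⊤ := by
  rw [eq_top_iff_one]
  have h1 : IsCoprime (m : ℤ) (n : ℤ) := Nat.isCoprime_iff_coprime.2 h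
  obtain ⟨a, b, hab⟩ := h1
  have h2 : (1 : 𝓞 K) = (a : 𝓞 K) * (m : 𝓞 K) + (b : 𝓞 K) * (n : 𝓞 K) := by
    have h3 := congrArg (Int.cast : ℤ → 𝓞 K) hab
    push_cast at h3
    exact h3.symm
  rw [h2]
  exact Submodule.add_mem_sup (J.mul_mem_left _ hm) (J'.mul_mem_left _ hn)

private theorem n02_inj (K : Type*) [Field K] [NumberField K] {m n : ℕ} (h : m.Coprime n)
    (J J' : Ideal (𝓞 K)) (hm : absNorm J = m) (hn : absNorm J' = n) :
    J * J' ⊔ span {(m : 𝓞 K)} = J := by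
  have hmJ : (m : 𝓞 K) ∈ J := by rw [← hm]; exact absNorm_mem J
  have hnJ : (n : 𝓞 K) ∈ J' := by rw [← hn]; exact absNorm_mem J'
  have htop : span {(m : 𝓞 K)} ⊔ J' = ⊤ :=
    n02_sup K h _ _ (mem_span_singleton_self _) hnJ
  apply le_antisymm
  · exact sup_le mul_le_left ((span_singleton_le_iff_mem _).2 hmJ)
  · calc J = J * (span {(m : 𝓞 K)} ⊔ J') := by rw [htop, mul_top]
      _ = J * span {(m : 𝓞 K)} ⊔ J * J' := mul_sup _ _ _
      _ ≤ J * J' ⊔ span {(m : 𝓞 K)} := sup_le (le_sup_of_le_right mul_le_right) le_sup_left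

/-- Proof: the map `(J, J') ↦ J * J'` from pairs of ideals of norms `m`, `n` to ideals of norm `m n`
(`map_mul` of `absNorm`) is a bijection. Surjective: `I` of norm `m n`; `m n ∈ I`
(`Ideal.absNorm_mem`); put `J = I ⊔ span {m}`, `J' = I ⊔ span {n}`; as `m`, `n` are coprime,
`J ⊔ J' = ⊤`, and `J * J' ≤ I` (all four products lie in `I`), `I ≤ J ⊓ J' = J * J'`
(`Ideal.mul_eq_inf_of_coprime`). `J` contains `m`, so it divides `span {m}` and `absNorm J` divides
`m ^ [K:ℚ]`; so it is prime to `n` and divides `m`; the same for `J'`; as the product is `m n`, both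
are equalities (treat `m = 0` or `n = 0` apart: then the other one is `1`). Injective:
`J = J * J' ⊔ span {m}` if `absNorm J = m`, `absNorm J' = n`, because `J' ⊔ span {m} = ⊤`
(it contains `n` and `m`) and `m ∈ J`. -/
theorem idealCount_mul (K : Type*) [Field K] [NumberField K] {m n : ℕ} (h : m.Coprime n) :
    idealCount K (m * n) = idealCount K m * idealCount K n := by
  rcases Nat.eq_zero_or_pos m with rfl | hm0
  · have : n = 1 := by simpa using h
    rw [this, mul_one, idealCount_one, mul_one]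
  rcases Nat.eq_zero_or_pos n with rfl | hn0
  · have : m = 1 := by simpa using h
    rw [this, one_mul, idealCount_one, one_mul]
  unfold idealCount
  rw [← Nat.card_prod]
  symm
  refine Nat.card_congr (Equiv.ofBijective
    (fun p : {I : Ideal (𝓞 K) // absNorm I = m} × {I : Ideal (𝓞 K) // absNorm I = n} =>
      (⟨p.1.1 * p.2.1, by rw [map_mul, p.1.2, p.2.2]⟩ : {I : Ideal (𝓞 K) // absNorm I = m * n}))
    ⟨?_, ?_⟩)
  · rintro ⟨⟨J, hJ⟩, ⟨J', hJ'⟩⟩ ⟨⟨I, hI⟩, ⟨I', hI'⟩⟩ e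
    have e' : J * J' = I * I' := congrArg Subtype.val e
    have h1 : J = I := by
      rw [← n02_inj K h J J' hJ hJ', ← n02_inj K h I I' hI hI', e']
    have h2 : J' = I' := by
      rw [← n02_inj K h.symm J' J hJ' hJ, ← n02_inj K h.symm I' I hI' hI, mul_comm J' J,
        mul_comm I' I, e']
    subst h1 h2
    rfl
  · rintro ⟨I, hI⟩
    have hmn : (m : 𝓞 K) * (n : 𝓞 K) ∈ I := by
      have := absNorm_mem I
      rw [hI, Nat.cast_mul] at this
      exact this
    have hmJ : (m : 𝓞 K) ∈ I ⊔ span {(m : 𝓞 K)} :=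
      Ideal.mem_sup_right (mem_span_singleton_self _)
    have hnJ : (n : 𝓞 K) ∈ I ⊔ span {(n : 𝓞 K)} :=
      Ideal.mem_sup_right (mem_span_singleton_self _)
    have htop := n02_sup K h _ _ hmJ hnJ
    have hprod : (I ⊔ span {(m : 𝓞 K)}) * (I ⊔ span {(n : 𝓞 K)}) = I := by
      apply le_antisymm
      · rw [Ideal.sup_mul, Ideal.mul_sup, Ideal.mul_sup]
        refine sup_le (sup_le mul_le_left mul_le_left) (sup_le mul_le_right ?_)
        rw [span_singleton_mul_span_singleton, span_singleton_le_iff_mem]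
        exact hmn
      · rw [mul_eq_inf_of_coprime htop]
        exact le_inf le_sup_left le_sup_left
    have hnorm : absNorm (I ⊔ span {(m : 𝓞 K)}) * absNorm (I ⊔ span {(n : 𝓞 K)}) = m * n := by
      rw [← map_mul, hprod, hI]
    have hd1 : absNorm (I ⊔ span {(m : 𝓞 K)}) ∣ m := by
      have h1 : absNorm (I ⊔ span {(m : 𝓞 K)}) ∣ m ^ Module.finrank ℤ (𝓞 K) := by
        rw [← absNorm_span_natCast]
        exact absNorm_dvd_absNorm_of_le le_sup_right
      have h2 : (absNorm (I ⊔ span {(m : 𝓞 K)})).Coprime n :=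
        Nat.Coprime.coprime_dvd_left h1 (h.pow_left _)
      exact h2.dvd_of_dvd_mul_right (hnorm ▸ Dvd.intro _ rfl)
    have hd2 : absNorm (I ⊔ span {(n : 𝓞 K)}) ∣ n := by
      have h1 : absNorm (I ⊔ span {(n : 𝓞 K)}) ∣ n ^ Module.finrank ℤ (𝓞 K) := by
        rw [← absNorm_span_natCast]
        exact absNorm_dvd_absNorm_of_le le_sup_right
      have h2 : (absNorm (I ⊔ span {(n : 𝓞 K)})).Coprime m :=
        Nat.Coprime.coprime_dvd_left h1 (h.symm.pow_left _)
      exact h2.dvd_of_dvd_mul_left (hnorm ▸ Dvd.intro_left _ rfl)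
    have hl1 := Nat.le_of_dvd hm0 hd1
    have hl2 := Nat.le_of_dvd hn0 hd2
    have he1 : absNorm (I ⊔ span {(m : 𝓞 K)}) = m := by
      by_contra hne
      have h3 : absNorm (I ⊔ span {(m : 𝓞 K)}) < m := lt_of_le_of_ne hl1 hne
      have h4 : absNorm (I ⊔ span {(m : 𝓞 K)}) * absNorm (I ⊔ span {(n : 𝓞 K)}) < m * n :=
        lt_of_le_of_lt (Nat.mul_le_mul_left _ hl2) (Nat.mul_lt_mul_of_pos_right h3 hn0)
      omega
    have he2 : absNorm (I ⊔ span {(n : 𝓞 K)}) = n := by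
      rw [he1] at hnorm
      exact Nat.eq_of_mul_eq_mul_left hm0 hnorm
    exact ⟨(⟨_, he1⟩, ⟨_, he2⟩), Subtype.ext hprod⟩

end Pool.Agent.Lib.MP_89bcae_ag.Re

end

section

open NumberField Ideal

namespace Pool.Agent.Lib.MP_89bcae_ag.Re

/-- Proof: let `P` be the set of the maximal ideals of `𝓞 K` containing `q`; it is finite with at
most `[K:ℚ]` elements (`Ideal.primesOver`, `Ideal.sum_ramification_inertia`, or: the norm of their
product divides `q ^ [K:ℚ]` and each has norm at least `q`). If `absNorm I = q ^ e`, all the prime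
divisors of `I` are in `P` (`q ^ e ∈ I`) and each occurs at most `e` times (its norm is at least `q`,
as the norm is a power of `q` different from `1`). So `I` is determined by the function `P → Fin (e+1)`
of its multiplicities (`normalizedFactors`). -/
theorem idealCount_prime_pow_le (K : Type*) [Field K] [NumberField K] {q : ℕ} (hq : q.Prime)
    (e : ℕ) : idealCount K (q ^ e) ≤ (e + 1) ^ Module.finrank ℚ K := by
  classical
  have hq0 : (q : 𝓞 K) ≠ 0 := by
    have : (q : ℕ) ≠ 0 := hq.ne_zero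
    exact_mod_cast this
  have hS0 : (span {(q : 𝓞 K)} : Ideal (𝓞 K)) ≠ ⊥ := by
    rw [Ne, span_singleton_eq_bot]; exact hq0
  have hSn : absNorm (span {(q : 𝓞 K)} : Ideal (𝓞 K)) = q ^ Module.finrank ℚ K := by
    rw [absNorm_span_natCast, RingOfIntegers.rank]
  -- primes over q
  obtain ⟨P, hPdef⟩ : ∃ P : Finset (Ideal (𝓞 K)),
      P = (UniqueFactorizationMonoid.normalizedFactors (span {(q : 𝓞 K)} : Ideal (𝓞 K))).toFinset :=
    ⟨_, rfl⟩
  have hPmem : ∀ p : Ideal (𝓞 K), p ∈ P ↔ p.IsPrime ∧ span {(q : 𝓞 K)} ≤ p := by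
    intro p
    rw [hPdef, Multiset.mem_toFinset, Ideal.mem_normalizedFactors_iff hS0]
  have hnorm : ∀ (p : Ideal (𝓞 K)) (k : ℕ), p.IsPrime → absNorm p ∣ q ^ k → q ≤ absNorm p := by
    intro p k hp hd
    have h1 : absNorm p ≠ 1 := by
      rw [Ne, Ideal.absNorm_eq_one_iff]; exact hp.ne_top
    obtain ⟨j, -, hj⟩ := (Nat.dvd_prime_pow hq).1 hd
    rw [hj]
    have hj0 : j ≠ 0 := by
      rintro rfl
      rw [pow_zero] at hj
      exact h1 hj
    calc q = q ^ 1 := (pow_one q).symm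
      _ ≤ q ^ j := Nat.pow_le_pow_right hq.pos (Nat.one_le_iff_ne_zero.2 hj0)
  have hPcard : P.card ≤ Module.finrank ℚ K := by
    have hprod : P.val.prod ∣ span {(q : 𝓞 K)} := by
      have h1 : P.val.prod ∣
          (UniqueFactorizationMonoid.normalizedFactors (span {(q : 𝓞 K)} : Ideal (𝓞 K))).prod := by
        rw [hPdef, Multiset.toFinset_val]
        exact Multiset.prod_dvd_prod_of_le (Multiset.dedup_le _)
      rwa [Ideal.prod_normalizedFactors_eq_self hS0] at h1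
    have hnd : absNorm P.val.prod ∣ q ^ Module.finrank ℚ K := by
      rw [← hSn]
      exact map_dvd absNorm hprod
    have hnp : absNorm P.val.prod = ∏ p ∈ P, absNorm p := by
      rw [map_multiset_prod]; rfl
    have hge : q ^ P.card ≤ ∏ p ∈ P, absNorm p := by
      rw [← Finset.prod_const]
      apply Finset.prod_le_prod'
      intro p hp
      have hp' := (hPmem p).1 hp
      apply hnorm p (Module.finrank ℚ K) hp'.1
      rw [← hSn]
      exact Ideal.absNorm_dvd_absNorm_of_le hp'.2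
    have hle : q ^ P.card ≤ q ^ Module.finrank ℚ K :=
      hge.trans (hnp ▸ Nat.le_of_dvd (pow_pos hq.pos _) hnd)
    exact (Nat.pow_le_pow_iff_right hq.one_lt).1 hle
  -- facts on ideals of norm q^e
  have hI0 : ∀ I : Ideal (𝓞 K), absNorm I = q ^ e → I ≠ ⊥ := by
    intro I hI h0
    rw [h0, Ideal.absNorm_bot] at hI
    exact (pow_ne_zero e hq.ne_zero) hI.symm
  have hsupp : ∀ I : Ideal (𝓞 K), absNorm I = q ^ e →
      ∀ p ∈ UniqueFactorizationMonoid.normalizedFactors I, p ∈ P := by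
    intro I hI p hp
    have hp' := (Ideal.mem_normalizedFactors_iff (hI0 I hI)).1 hp
    rw [hPmem]
    refine ⟨hp'.1, ?_⟩
    rw [Ideal.span_singleton_le_iff_mem]
    have h1 : ((q : 𝓞 K)) ^ e ∈ p := by
      have h2 := hp'.2 (Ideal.absNorm_mem I)
      rw [hI] at h2
      simpa using h2
    exact hp'.1.mem_of_pow_mem e h1
  have hcount : ∀ I : Ideal (𝓞 K), absNorm I = q ^ e → ∀ p : Ideal (𝓞 K),
      (UniqueFactorizationMonoid.normalizedFactors I).count p < e + 1 := by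
    intro I hI p
    by_cases hp : p ∈ UniqueFactorizationMonoid.normalizedFactors I
    · have hp' := (Ideal.mem_normalizedFactors_iff (hI0 I hI)).1 hp
      set c := (UniqueFactorizationMonoid.normalizedFactors I).count p with hc
      have h1 : p ^ c ∣ I := by
        have h2 : (Multiset.replicate c p).prod ∣
            (UniqueFactorizationMonoid.normalizedFactors I).prod :=
          Multiset.prod_dvd_prod_of_le (Multiset.le_count_iff_replicate_le.1 le_rfl)
        rwa [Multiset.prod_replicate, Ideal.prod_normalizedFactors_eq_self (hI0 I hI)] at h2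
      have h3 : absNorm p ^ c ∣ q ^ e := by
        rw [← hI, ← map_pow]
        exact map_dvd absNorm h1
      have h4 : q ≤ absNorm p := by
        apply hnorm p e hp'.1
        rw [← hI]
        exact Ideal.absNorm_dvd_absNorm_of_le hp'.2
      have h5 : q ^ c ≤ q ^ e :=
        (Nat.pow_le_pow_left h4 c).trans (Nat.le_of_dvd (pow_pos hq.pos _) h3)
      have h6 := (Nat.pow_le_pow_iff_right hq.one_lt).1 h5
      omega
    · rw [Multiset.count_eq_zero_of_notMem hp]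
      omega
  let F : {I : Ideal (𝓞 K) // absNorm I = q ^ e} → (P → Fin (e + 1)) :=
    fun I p => ⟨(UniqueFactorizationMonoid.normalizedFactors I.1).count p.1, hcount I.1 I.2 p.1⟩
  have hF : Function.Injective F := by
    intro I J hIJ
    apply Subtype.ext
    have h1 : UniqueFactorizationMonoid.normalizedFactors I.1 =
        UniqueFactorizationMonoid.normalizedFactors J.1 := by
      ext p
      by_cases hp : p ∈ P
      · have h2 := congrFun hIJ ⟨p, hp⟩
        have h3 := congrArg Fin.val h2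
        exact h3
      · rw [Multiset.count_eq_zero_of_notMem (fun h => hp (hsupp I.1 I.2 p h)),
          Multiset.count_eq_zero_of_notMem (fun h => hp (hsupp J.1 J.2 p h))]
    rw [← Ideal.prod_normalizedFactors_eq_self (hI0 I.1 I.2), h1,
      Ideal.prod_normalizedFactors_eq_self (hI0 J.1 J.2)]
  unfold idealCount
  calc Nat.card {I : Ideal (𝓞 K) // absNorm I = q ^ e} ≤ Nat.card (P → Fin (e + 1)) :=
        Nat.card_le_card_of_injective F hF
    _ = (e + 1) ^ P.card := by simp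
    _ ≤ (e + 1) ^ Module.finrank ℚ K := Nat.pow_le_pow_right (Nat.succ_pos e) hPcard

end Pool.Agent.Lib.MP_89bcae_ag.Re

end

section

open NumberField Ideal Filter Topology

namespace Pool.Agent.Lib.MP_89bcae_ag.Re

/-- The average number of ideals of given norm. -/
private theorem N04a_lim (K : Type*) [Field K] [NumberField K] :
    Tendsto (fun n : ℕ => (∑ k ∈ Finset.Icc 1 n, (idealCount K k : ℝ)) / n) atTop
      (𝓝 (dedekindZeta_residue K)) := by
  refine ((Ideal.tendsto_norm_le_div_atTop₀ K).comp tendsto_natCast_atTop_atTop).congr fun n ↦ ?_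
  simp only [Function.comp_apply, Nat.cast_le, ← Nat.cast_sum, idealCount]
  congr
  rw [← add_left_inj 1, ← card_norm_le_eq_card_norm_le_add_one,
    show Finset.Icc 1 n = Finset.Ioc 0 n from Finset.Icc_succ_left_eq_Ioc _ _,
    show 1 = Nat.card {I : Ideal (𝓞 K) // absNorm I = 0} by simp [Ideal.absNorm_eq_zero_iff],
    Finset.sum_Ioc_add_eq_sum_Icc (n.zero_le),
    ← Finset.card_preimage_eq_sum_card_image_eq (fun k _ ↦ finite_setOfPred_absNorm_eq k)]
  simp [Set.coe_eq_subtype]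

private theorem N04a_bigO (K : Type*) [Field K] [NumberField K] :
    (fun n : ℕ => ∑ k ∈ Finset.Icc 1 n, (idealCount K k : ℝ)) =O[atTop] fun n : ℕ => (n : ℝ) ^ (1 : ℝ) := by
  have h1 : (fun n : ℕ => ∑ k ∈ Finset.Icc 1 n, (idealCount K k : ℝ)) =O[atTop] fun n : ℕ => (n : ℝ) := by
    refine Asymptotics.isBigO_of_div_tendsto_nhds ?_ (dedekindZeta_residue K) (N04a_lim K)
    filter_upwards [eventually_gt_atTop 0] with n hn h
    exact absurd h (Nat.cast_ne_zero.2 hn.ne')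
  simpa only [Real.rpow_one] using h1

/-- Proof: the partial sums of `idealCount K` are `O(n)`
(`NumberField.Ideal.tendsto_norm_le_div_atTop₀`; see the proof of
`NumberField.tendsto_sub_one_mul_dedekindZeta_nhdsGT` in Mathlib, file
`NumberTheory/NumberField/DedekindZeta`), so the series converges for `s > 1`
(`LSeriesSummable_of_sum_norm_bigO` or a similar lemma of `NumberTheory/LSeries/SumCoeff`); pass to
real numbers with `LSeriesSummable`, `LSeries.norm_term_eq` and the like (the term at `n = 0` is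
zero on both sides because `0 ^ (-s) = 0`). -/
theorem zetaR_summable (K : Type*) [Field K] [NumberField K] {s : ℝ} (hs : 1 < s) :
    Summable fun n : ℕ => (idealCount K n : ℝ) * (n : ℝ) ^ (-s) := by
  have h := LSeriesSummable_of_sum_norm_bigO_and_nonneg (s := (s : ℂ)) (N04a_bigO K)
    (fun n => Nat.cast_nonneg _) zero_le_one (by rwa [Complex.ofReal_re])
  refine h.norm.congr fun n => ?_
  rw [LSeries.norm_term_eq, Complex.ofReal_re]
  split_ifs with hn
  · rw [hn, Nat.cast_zero, Real.zero_rpow (by linarith), mul_zero]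
  · rw [Real.rpow_neg (Nat.cast_nonneg n), Complex.norm_real, Real.norm_of_nonneg (Nat.cast_nonneg _), div_eq_mul_inv]

private theorem zetaR_ofReal (K : Type*) [Field K] [NumberField K] {s : ℝ} (hs : s ≠ 0) :
    dedekindZeta K s = ((zetaR K s : ℝ) : ℂ) := by
  unfold dedekindZeta LSeries zetaR
  rw [Complex.ofReal_tsum]
  refine tsum_congr fun n => ?_
  rcases Nat.eq_zero_or_pos n with hn | hn
  · subst hn
    rw [LSeries.term_zero, Nat.cast_zero, Real.zero_rpow (neg_ne_zero.2 hs), mul_zero, Complex.ofReal_zero]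
  · rw [LSeries.term_of_ne_zero hn.ne', Complex.ofReal_mul, Complex.ofReal_natCast,
      Complex.ofReal_cpow (Nat.cast_nonneg n), Complex.ofReal_natCast, Complex.ofReal_neg, Complex.cpow_neg, div_eq_mul_inv]
    rfl

/-- Proof: for real `s` the number `dedekindZeta K s` is the real number `zetaR K s` (for all `s`, the
terms agree: `LSeries.term`, `Complex.ofReal_cpow`, the term at `n = 0` is zero on both sides for
`s ≠ 0`, `Complex.ofReal_tsum`), and `tendsto_sub_one_mul_dedekindZeta_nhdsGT`. -/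
theorem zetaR_tendsto (K : Type*) [Field K] [NumberField K] :
    Tendsto (fun s : ℝ => (s - 1) * zetaR K s) (𝓝[>] 1) (𝓝 (dedekindZeta_residue K)) := by
  have h := tendsto_sub_one_mul_dedekindZeta_nhdsGT K
  have h2 := (Complex.continuous_re.tendsto _).comp h
  rw [Complex.ofReal_re] at h2
  refine h2.congr' ?_
  filter_upwards [self_mem_nhdsWithin] with s hs
  have hs1 : (1 : ℝ) < s := hs
  have hs0 : s ≠ 0 := by
    intro h0
    rw [h0] at hs1
    exact absurd hs1 (by norm_num)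
  rw [Function.comp_apply, zetaR_ofReal K hs0]
  have h3 : ((s : ℂ) - 1) * ((zetaR K s : ℝ) : ℂ) = (((s - 1) * zetaR K s : ℝ) : ℂ) := by
    rw [Complex.ofReal_mul, Complex.ofReal_sub, Complex.ofReal_one]
  rw [h3, Complex.ofReal_re]

end Pool.Agent.Lib.MP_89bcae_ag.Re

end

section

open Filter Topology

namespace Pool.Agent.Lib.MP_89bcae_ag.Re

/-- Comparison of two Euler factors with `ℓ u(1) ≤ w(1)`. Proof: let `x = u 1 * q ^ (-s)`, so
`0 ≤ x ≤ 2 ^ d / q`. By `factor_le` the left side is at most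
`(1 + x + C / q²) ^ ℓ ≤ exp (ℓ x + ℓ C / q²)` and by `exp_le_one_add_mul_exp_sq`
`exp (ℓ x) ≤ (1 + ℓ x) exp ((ℓ x)²)`, where `(ℓ x)² ≤ ℓ² 4 ^ d / q²`; finally
`1 + ℓ x ≤ 1 + w 1 * q ^ (-s) ≤ ∑' e, w e * (q ^ e) ^ (-s)` (`summable_factor`, nonnegative terms,
`Summable.sum_le_tsum` for `{0, 1}`). -/
theorem factor_compare (d d' ℓ : ℕ) : ∃ C : ℝ, 0 ≤ C ∧ ∀ (u w : ℕ → ℝ), (∀ e, 0 ≤ u e) →
    (∀ e, 0 ≤ w e) → u 0 = 1 → w 0 = 1 → (∀ e, u e ≤ ((e : ℝ) + 1) ^ d) →
    (∀ e, w e ≤ ((e : ℝ) + 1) ^ d') → (ℓ : ℝ) * u 1 ≤ w 1 →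
    ∀ (q : ℕ), 2 ≤ q → ∀ s : ℝ, 1 < s →
      (∑' e : ℕ, u e * ((q ^ e : ℕ) : ℝ) ^ (-s)) ^ ℓ ≤
        Real.exp (C / (q : ℝ) ^ 2) * ∑' e : ℕ, w e * ((q ^ e : ℕ) : ℝ) ^ (-s) := by
  obtain ⟨C0, hC0, hfac⟩ := factor_le d
  refine ⟨(ℓ : ℝ) * C0 + (ℓ : ℝ) ^ 2 * 4 ^ d, by positivity, ?_⟩
  intro u w hu0 hw0 hu1 hw1 hud hwd hlw q hq s hs
  have hqR : (2 : ℝ) ≤ q := by exact_mod_cast hq
  have hqpos : (0 : ℝ) < q := by linarith
  have hps : (q : ℝ) ^ (-s) ≤ 1 / q := by
    rw [one_div, ← Real.rpow_neg_one]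
    exact Real.rpow_le_rpow_of_exponent_le (by linarith) (by linarith)
  have hps0 : 0 ≤ (q : ℝ) ^ (-s) := (Real.rpow_pos_of_pos hqpos _).le
  have hu1d : u 1 ≤ 2 ^ d := by
    have h := hud 1
    norm_num at h
    exact h
  have hx0 : 0 ≤ u 1 * (q : ℝ) ^ (-s) := mul_nonneg (hu0 1) hps0
  have hx1 : u 1 * (q : ℝ) ^ (-s) ≤ 2 ^ d / q := by
    calc u 1 * (q : ℝ) ^ (-s) ≤ 2 ^ d * (1 / q) :=
          mul_le_mul hu1d hps hps0 (by positivity)
      _ = 2 ^ d / q := by ring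
  have hF := hfac u hu0 hu1 hud q hq s hs
  set x := u 1 * (q : ℝ) ^ (-s) with hx
  have hT0 : 0 ≤ ∑' e : ℕ, u e * ((q ^ e : ℕ) : ℝ) ^ (-s) :=
    tsum_nonneg fun e => mul_nonneg (hu0 e) (Real.rpow_nonneg (Nat.cast_nonneg _) _)
  have hc0 : 0 ≤ C0 / (q : ℝ) ^ 2 := by positivity
  have h1 : (∑' e : ℕ, u e * ((q ^ e : ℕ) : ℝ) ^ (-s)) ^ ℓ ≤
      Real.exp ((ℓ : ℝ) * x) * Real.exp ((ℓ : ℝ) * (C0 / (q : ℝ) ^ 2)) := by
    calc (∑' e : ℕ, u e * ((q ^ e : ℕ) : ℝ) ^ (-s)) ^ ℓ ≤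
          (Real.exp (x + C0 / (q : ℝ) ^ 2)) ^ ℓ := by
          refine pow_le_pow_left₀ hT0 (hF.trans ?_) ℓ
          have := Real.add_one_le_exp (x + C0 / (q : ℝ) ^ 2)
          linarith
      _ = Real.exp ((ℓ : ℝ) * x) * Real.exp ((ℓ : ℝ) * (C0 / (q : ℝ) ^ 2)) := by
          rw [← Real.exp_nat_mul, ← Real.exp_add]
          congr 1
          ring
  have h2 : Real.exp ((ℓ : ℝ) * x) ≤ (1 + (ℓ : ℝ) * x) * Real.exp (((ℓ : ℝ) * x) ^ 2) :=
    exp_le_one_add_mul_exp_sq (by positivity)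
  have h3 : ((ℓ : ℝ) * x) ^ 2 ≤ (ℓ : ℝ) ^ 2 * 4 ^ d / (q : ℝ) ^ 2 := by
    calc ((ℓ : ℝ) * x) ^ 2 ≤ ((ℓ : ℝ) * (2 ^ d / q)) ^ 2 := by
          refine pow_le_pow_left₀ (by positivity) ?_ 2
          exact mul_le_mul_of_nonneg_left hx1 (Nat.cast_nonneg _)
      _ = (ℓ : ℝ) ^ 2 * 4 ^ d / (q : ℝ) ^ 2 := by
          rw [mul_pow, div_pow, ← pow_mul, mul_comm d 2, pow_mul]
          norm_num
          ring
  have h4 : 1 + (ℓ : ℝ) * x ≤ ∑' e : ℕ, w e * ((q ^ e : ℕ) : ℝ) ^ (-s) := by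
    have hsum := summable_factor d' hw0 hwd hq hs
    have h5 := hsum.sum_le_tsum {0, 1}
      (fun e _ => mul_nonneg (hw0 e) (Real.rpow_nonneg (Nat.cast_nonneg _) _))
    rw [Finset.sum_pair (by norm_num)] at h5
    simp only [pow_zero, pow_one, Nat.cast_one, Real.one_rpow, mul_one, hw1] at h5
    refine le_trans ?_ h5
    have h6 : (ℓ : ℝ) * x ≤ w 1 * (q : ℝ) ^ (-s) := by
      rw [hx, ← mul_assoc]
      exact mul_le_mul_of_nonneg_right hlw hps0
    linarith
  have hlx : 0 ≤ 1 + (ℓ : ℝ) * x := by positivity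
  calc (∑' e : ℕ, u e * ((q ^ e : ℕ) : ℝ) ^ (-s)) ^ ℓ ≤
        Real.exp ((ℓ : ℝ) * x) * Real.exp ((ℓ : ℝ) * (C0 / (q : ℝ) ^ 2)) := h1
    _ ≤ ((1 + (ℓ : ℝ) * x) * Real.exp ((ℓ : ℝ) ^ 2 * 4 ^ d / (q : ℝ) ^ 2)) *
        Real.exp ((ℓ : ℝ) * (C0 / (q : ℝ) ^ 2)) := by
        refine mul_le_mul_of_nonneg_right (h2.trans ?_) (Real.exp_pos _).le
        exact mul_le_mul_of_nonneg_left (Real.exp_le_exp.2 h3) hlx
    _ = Real.exp (((ℓ : ℝ) * C0 + (ℓ : ℝ) ^ 2 * 4 ^ d) / (q : ℝ) ^ 2) * (1 + (ℓ : ℝ) * x) := by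
        rw [mul_assoc, ← Real.exp_add, mul_comm]
        congr 2
        ring
    _ ≤ _ := mul_le_mul_of_nonneg_left h4 (Real.exp_pos _).le

private lemma n06b_pow {q : ℕ} (hq : 2 ≤ q) {s : ℝ} (hs : 1 < s) (e : ℕ) :
    ((q ^ e : ℕ) : ℝ) ^ (-s) ≤ (1 / 2) ^ e := by
  have hq1 : 1 ≤ q ^ e := Nat.one_le_pow _ _ (by omega)
  have hq1' : (1 : ℝ) ≤ ((q ^ e : ℕ) : ℝ) := by exact_mod_cast hq1
  have h1 : ((q ^ e : ℕ) : ℝ) ^ (-s) ≤ ((q ^ e : ℕ) : ℝ) ^ (-1 : ℝ) :=
    Real.rpow_le_rpow_of_exponent_le hq1' (by linarith)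
  have h2 : ((q ^ e : ℕ) : ℝ) ^ (-1 : ℝ) = (((q ^ e : ℕ) : ℝ))⁻¹ := Real.rpow_neg_one _
  have h3 : (((q ^ e : ℕ) : ℝ))⁻¹ ≤ (1 / 2) ^ e := by
    rw [one_div, inv_pow]
    apply inv_anti₀ (by positivity)
    push_cast
    exact pow_le_pow_left₀ (by norm_num) (by exact_mod_cast hq) e
  rw [h2] at h1
  exact h1.trans h3

private lemma n06b_sum (d : ℕ) : Summable fun e : ℕ => ((e : ℝ) + 1) ^ d * (1 / 2) ^ e := by
  have h1 : Summable fun n : ℕ => (n : ℝ) ^ d * (1 / 2 : ℝ) ^ n :=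
    summable_pow_mul_geometric_of_norm_lt_one d (by rw [Real.norm_eq_abs, abs_of_pos] <;> norm_num)
  have h2 := ((summable_nat_add_iff 1).2 h1).mul_left 2
  refine h2.congr fun e => ?_
  push_cast
  rw [pow_succ]
  ring

/-- The same without the condition on `u 1`, `w 1`, with a constant which does not depend on `q`.
Proof: the left side is at most `(∑' e, (e+1)^d 2^(-e)) ^ ℓ` (a constant), the series on the right is
at least its term at `e = 0`, which is `1`. -/
theorem factor_compare_bad (d d' ℓ : ℕ) : ∃ C : ℝ, 1 ≤ C ∧ ∀ (u w : ℕ → ℝ), (∀ e, 0 ≤ u e) →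
    (∀ e, 0 ≤ w e) → u 0 = 1 → w 0 = 1 → (∀ e, u e ≤ ((e : ℝ) + 1) ^ d) →
    (∀ e, w e ≤ ((e : ℝ) + 1) ^ d') →
    ∀ (q : ℕ), 2 ≤ q → ∀ s : ℝ, 1 < s →
      (∑' e : ℕ, u e * ((q ^ e : ℕ) : ℝ) ^ (-s)) ^ ℓ ≤
        C * ∑' e : ℕ, w e * ((q ^ e : ℕ) : ℝ) ^ (-s) := by
  refine ⟨max 1 ((∑' e : ℕ, ((e : ℝ) + 1) ^ d * (1 / 2) ^ e) ^ ℓ), le_max_left _ _, ?_⟩
  intro u w hu0 hw0 _ hw1 hu hw q hq s hs
  have h0 : ∀ e : ℕ, 0 ≤ u e * ((q ^ e : ℕ) : ℝ) ^ (-s) := fun e =>
    mul_nonneg (hu0 e) (Real.rpow_nonneg (Nat.cast_nonneg _) _)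
  have h1 : (∑' e : ℕ, u e * ((q ^ e : ℕ) : ℝ) ^ (-s)) ≤ ∑' e : ℕ, ((e : ℝ) + 1) ^ d * (1 / 2) ^ e := by
    refine Summable.tsum_le_tsum (fun e => ?_) (summable_factor d hu0 hu hq hs) (n06b_sum d)
    exact mul_le_mul (hu e) (n06b_pow hq hs e) (Real.rpow_nonneg (Nat.cast_nonneg _) _)
      (pow_nonneg (by positivity) _)
  have h2 : (∑' e : ℕ, u e * ((q ^ e : ℕ) : ℝ) ^ (-s)) ^ ℓ ≤
      max 1 ((∑' e : ℕ, ((e : ℝ) + 1) ^ d * (1 / 2) ^ e) ^ ℓ) :=
    (pow_le_pow_left₀ (tsum_nonneg h0) h1 ℓ).trans (le_max_right _ _)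
  have h3 : 1 ≤ ∑' e : ℕ, w e * ((q ^ e : ℕ) : ℝ) ^ (-s) := by
    have h4 := (summable_factor d' hw0 hw hq hs).sum_le_tsum {0}
      (fun e _ => mul_nonneg (hw0 e) (Real.rpow_nonneg (Nat.cast_nonneg _) _))
    rw [Finset.sum_singleton, hw1, pow_zero, Nat.cast_one, Real.one_rpow, mul_one] at h4
    exact h4
  have h5 : (0 : ℝ) ≤ max 1 ((∑' e : ℕ, ((e : ℝ) + 1) ^ d * (1 / 2) ^ e) ^ ℓ) :=
    zero_le_one.trans (le_max_left _ _)
  exact h2.trans (le_mul_of_one_le_right h5 h3)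

end Pool.Agent.Lib.MP_89bcae_ag.Re

end

section

open NumberField Ideal

namespace Pool.Agent.Lib.MP_89bcae_ag.Re

/-- Proof: a ring homomorphism is determined by its restriction to a finite set of generators of the
`ℤ`-module `𝓞 K`; or it is determined by its kernel, see below. -/
theorem finite_ringHom (K : Type*) [Field K] [NumberField K] (q : ℕ) [Fact q.Prime] :
    Finite (𝓞 K →+* ZMod q) := by
  obtain ⟨s, hs⟩ := (inferInstance : Module.Finite ℤ (𝓞 K)).fg_top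
  refine Finite.of_injective
    (fun (φ : 𝓞 K →+* ZMod q) => (fun x : (s : Set (𝓞 K)) => φ x.1)) ?_
  intro φ ψ h
  have h1 : φ.toAddMonoidHom.toIntLinearMap = ψ.toAddMonoidHom.toIntLinearMap := by
    apply LinearMap.ext_on hs
    intro x hx
    exact congrFun h ⟨x, hx⟩
  ext x
  exact LinearMap.congr_fun h1 x

/-- A ring homomorphism to `ZMod q` is surjective. -/
theorem surj_of_ringHom {R : Type*} [CommRing R] (q : ℕ) [Fact q.Prime] (φ : R →+* ZMod q) :
    Function.Surjective φ := by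
  intro x
  exact ⟨((ZMod.val x : ℕ) : R), by simp⟩

/-- The kernel of a ring homomorphism to `ZMod q` has norm `q`. -/
theorem absNorm_ker (K : Type*) [Field K] [NumberField K] (q : ℕ) [Fact q.Prime]
    (φ : 𝓞 K →+* ZMod q) : absNorm (RingHom.ker φ) = q := by
  rw [Ideal.absNorm_apply, Submodule.cardQuot_apply]
  have e := RingHom.quotientKerEquivOfSurjective (surj_of_ringHom q φ)
  have h := Nat.card_congr e.toEquiv
  rw [Nat.card_zmod] at h
  exact h

/-- Proof: `φ ↦ ker φ` is a bijection from the ring homomorphisms to the ideals of norm `q`. The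
homomorphism `φ` is surjective (`ZMod q` is generated by `1`), so the quotient by the kernel has
`q` elements (`Ideal.absNorm_apply`, `Submodule.cardQuot`). Injective: if `ker φ = ker ψ` then for
each `x` there is an integer `n` with `φ x = n = φ n`, so `x - n ∈ ker φ = ker ψ` and `ψ x = n`.
Surjective: an ideal `I` of norm `q` is maximal or: the quotient ring has `q` elements, so it is
isomorphic to `ZMod q` (`ZMod.ringEquivOfPrime` or `ZMod.ringEquiv`), compose with the quotient map. -/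
theorem idealCount_eq_card (K : Type*) [Field K] [NumberField K] (q : ℕ) [Fact q.Prime] :
    idealCount K q = Nat.card (𝓞 K →+* ZMod q) := by
  unfold idealCount
  symm
  refine Nat.card_eq_of_bijective
    (fun φ : 𝓞 K →+* ZMod q => (⟨RingHom.ker φ, absNorm_ker K q φ⟩ :
      {I : Ideal (𝓞 K) // absNorm I = q})) ⟨?_, ?_⟩
  · intro φ ψ h
    have hk : RingHom.ker φ = RingHom.ker ψ := congrArg Subtype.val h
    ext x
    have h1 : x - ((ZMod.val (φ x) : ℕ) : 𝓞 K) ∈ RingHom.ker φ := by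
      rw [RingHom.mem_ker]
      simp
    rw [hk, RingHom.mem_ker] at h1
    rw [map_sub, map_natCast, ZMod.natCast_rightInverse (φ x)] at h1
    exact (sub_eq_zero.mp h1).symm
  · rintro ⟨I, hI⟩
    have hq : q.Prime := Fact.out
    rw [Ideal.absNorm_apply, Submodule.cardQuot_apply] at hI
    have hc : Nat.card (𝓞 K ⧸ I) = q := hI
    have : Finite (𝓞 K ⧸ I) := Nat.finite_of_card_ne_zero (by rw [hc]; exact hq.ne_zero)
    let _ : Fintype (𝓞 K ⧸ I) := Fintype.ofFinite _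
    have hF : Fintype.card (𝓞 K ⧸ I) = q := by
      rw [← Nat.card_eq_fintype_card]; exact hc
    let e := ZMod.ringEquivOfPrime (𝓞 K ⧸ I) hq hF
    refine ⟨(e.symm : (𝓞 K ⧸ I) →+* ZMod q).comp (Ideal.Quotient.mk I), ?_⟩
    apply Subtype.ext
    ext x
    simp only [RingHom.mem_ker, RingHom.comp_apply, RingHom.coe_coe]
    rw [map_eq_zero_iff e.symm e.symm.injective, Ideal.Quotient.eq_zero_iff_mem]

end Pool.Agent.Lib.MP_89bcae_ag.Re

end

section

open Filter Topology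

namespace Pool.Agent.Lib.MP_89bcae_ag.Re

private lemma n07_eulerHasProd {a : ℕ → ℝ} (ha : ∀ n, 0 ≤ a n) (ha1 : a 1 = 1)
    (ham : ∀ m n : ℕ, m.Coprime n → a (m * n) = a m * a n)
    {s : ℝ} (hs : 1 < s) (has : Summable fun n : ℕ => a n * (n : ℝ) ^ (-s)) :
    HasProd (fun p : Nat.Primes => ∑' e : ℕ, a ((p : ℕ) ^ e) * (((p : ℕ) ^ e : ℕ) : ℝ) ^ (-s))
      (∑' n : ℕ, a n * (n : ℝ) ^ (-s)) := by
  have h := EulerProduct.eulerProduct_hasProd (R := ℝ) (f := fun n : ℕ => a n * (n : ℝ) ^ (-s))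
    (by simp [ha1]) (by
      intro m n hmn
      simp only [ham m n hmn, Nat.cast_mul,
        Real.mul_rpow (Nat.cast_nonneg m) (Nat.cast_nonneg n)]
      ring) (by
      refine has.congr fun n => ?_
      rw [Real.norm_of_nonneg]
      exact mul_nonneg (ha n) (Real.rpow_nonneg (Nat.cast_nonneg n) _)) (by
      simp only [Nat.cast_zero]
      rw [Real.zero_rpow (by linarith), mul_zero])
  exact h

private lemma n07_prod_le {C₁ C₂ : ℝ} (h1 : 0 ≤ C₁) (h2 : 1 ≤ C₂) (q₀ : ℕ)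
    (T : Finset Nat.Primes) :
    ∏ p ∈ T, ((if (p : ℕ) < q₀ then C₂ else 1) * Real.exp (C₁ / ((p : ℕ) : ℝ) ^ 2)) ≤
      C₂ ^ q₀ * Real.exp (C₁ * ∑' n : ℕ, 1 / (n : ℝ) ^ 2) := by
  rw [Finset.prod_mul_distrib]
  have hS : Summable fun n : ℕ => 1 / (n : ℝ) ^ 2 := Real.summable_one_div_nat_pow.2 (by norm_num)
  refine mul_le_mul ?_ ?_ (Finset.prod_nonneg fun p _ => (Real.exp_pos _).le) (by positivity)
  · rw [Finset.prod_ite, Finset.prod_const, Finset.prod_const_one, mul_one]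
    refine pow_le_pow_right₀ h2 ?_
    calc (T.filter fun p : Nat.Primes => (p : ℕ) < q₀).card
        ≤ (Finset.range q₀).card := by
          apply Finset.card_le_card_of_injOn (fun p : Nat.Primes => (p : ℕ))
          · intro p hp
            simp only [Finset.coe_filter, Set.mem_ofPred_eq] at hp
            simp only [Finset.coe_range, Set.mem_Iio]
            exact hp.2
          · intro p _ q _ h
            exact Subtype.ext h
      _ = q₀ := Finset.card_range q₀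
  · rw [← Real.exp_sum]
    apply Real.exp_le_exp.2
    have e1 : ∑ p ∈ T, C₁ / ((p : ℕ) : ℝ) ^ 2 =
        C₁ * ∑ n ∈ T.map ⟨fun p : Nat.Primes => (p : ℕ), fun p q h => Subtype.ext h⟩,
          1 / (n : ℝ) ^ 2 := by
      rw [Finset.sum_map, Finset.mul_sum]
      refine Finset.sum_congr rfl fun p _ => ?_
      show C₁ / ((p : ℕ) : ℝ) ^ 2 = C₁ * (1 / ((p : ℕ) : ℝ) ^ 2)
      ring
    rw [e1]
    refine mul_le_mul_of_nonneg_left ?_ h1
    exact hS.sum_le_tsum _ (fun n _ => by positivity)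

/-- Comparison of two Euler products. Proof: the Euler product (`EulerProduct.eulerProduct_hasProd`
for `f n = a n * n ^ (-s)`, which is multiplicative on coprime arguments, `f 0 = 0`, summable norm)
gives `HasProd (fun q : Nat.Primes => ∑' e, a(q^e) (q^e)^(-s)) (∑' n, a n n^(-s))`, the same for `b`.
Let `C₁` be the constant of `factor_compare` and `C₂` that of `factor_compare_bad`. For every finite
set `T` of primes the product over `T` of the `ℓ`-th powers of the factors of `a` is at most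
`C₂ ^ q₀ * exp (C₁ ∑' n, 1/n²)` times the product over `T` of the factors of `b`; pass to the limit
(`le_of_tendsto_of_tendsto'`, `HasProd` is a `Tendsto` along finite sets). -/
theorem euler_compare {a b : ℕ → ℝ} {d d' ℓ q₀ : ℕ} (ha : ∀ n, 0 ≤ a n) (hb : ∀ n, 0 ≤ b n)
    (ha1 : a 1 = 1) (hb1 : b 1 = 1)
    (ham : ∀ m n : ℕ, m.Coprime n → a (m * n) = a m * a n)
    (hbm : ∀ m n : ℕ, m.Coprime n → b (m * n) = b m * b n)
    (hap : ∀ q e : ℕ, q.Prime → a (q ^ e) ≤ ((e : ℝ) + 1) ^ d)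
    (hbp : ∀ q e : ℕ, q.Prime → b (q ^ e) ≤ ((e : ℝ) + 1) ^ d')
    (has : ∀ s : ℝ, 1 < s → Summable fun n : ℕ => a n * (n : ℝ) ^ (-s))
    (hbs : ∀ s : ℝ, 1 < s → Summable fun n : ℕ => b n * (n : ℝ) ^ (-s))
    (hab : ∀ q : ℕ, q.Prime → q₀ ≤ q → (ℓ : ℝ) * a q ≤ b q) :
    ∃ C : ℝ, 0 < C ∧ ∀ s : ℝ, 1 < s →
      (∑' n : ℕ, a n * (n : ℝ) ^ (-s)) ^ ℓ ≤ C * ∑' n : ℕ, b n * (n : ℝ) ^ (-s) := by
  obtain ⟨C₁, hC₁, h1⟩ := factor_compare d d' ℓ
  obtain ⟨C₂, hC₂, h2⟩ := factor_compare_bad d d' ℓ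
  refine ⟨C₂ ^ q₀ * Real.exp (C₁ * ∑' n : ℕ, 1 / (n : ℝ) ^ 2), by positivity, fun s hs => ?_⟩
  have hA := n07_eulerHasProd ha ha1 ham hs (has s hs)
  have hB := n07_eulerHasProd hb hb1 hbm hs (hbs s hs)
  set FA : Nat.Primes → ℝ := fun p => ∑' e : ℕ, a ((p : ℕ) ^ e) * (((p : ℕ) ^ e : ℕ) : ℝ) ^ (-s)
    with hFA
  set FB : Nat.Primes → ℝ := fun p => ∑' e : ℕ, b ((p : ℕ) ^ e) * (((p : ℕ) ^ e : ℕ) : ℝ) ^ (-s)
    with hFB
  have hFA0 : ∀ p, 0 ≤ FA p := fun p => tsum_nonneg fun e =>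
    mul_nonneg (ha _) (Real.rpow_nonneg (Nat.cast_nonneg _) _)
  have hFB0 : ∀ p, 0 ≤ FB p := fun p => tsum_nonneg fun e =>
    mul_nonneg (hb _) (Real.rpow_nonneg (Nat.cast_nonneg _) _)
  have hK : ∀ p : Nat.Primes, FA p ^ ℓ ≤
      ((if (p : ℕ) < q₀ then C₂ else 1) * Real.exp (C₁ / ((p : ℕ) : ℝ) ^ 2)) * FB p := by
    intro p
    have hp := p.2
    by_cases hlt : (p : ℕ) < q₀
    · rw [if_pos hlt]
      have h3 := h2 (fun e => a ((p : ℕ) ^ e)) (fun e => b ((p : ℕ) ^ e)) (fun e => ha _)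
        (fun e => hb _) (by simpa using ha1) (by simpa using hb1) (fun e => hap _ _ hp)
        (fun e => hbp _ _ hp) (p : ℕ) hp.two_le s hs
      refine h3.trans ?_
      refine mul_le_mul_of_nonneg_right ?_ (hFB0 p)
      have h4 : 1 ≤ Real.exp (C₁ / ((p : ℕ) : ℝ) ^ 2) := Real.one_le_exp (by positivity)
      nlinarith [h4, hC₂]
    · rw [if_neg hlt, one_mul]
      exact h1 (fun e => a ((p : ℕ) ^ e)) (fun e => b ((p : ℕ) ^ e)) (fun e => ha _)
        (fun e => hb _) (by simpa using ha1) (by simpa using hb1) (fun e => hap _ _ hp)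
        (fun e => hbp _ _ hp) (by simpa using hab p hp (not_lt.1 hlt)) (p : ℕ) hp.two_le s hs
  have hT : ∀ T : Finset Nat.Primes, (∏ p ∈ T, FA p) ^ ℓ ≤
      (C₂ ^ q₀ * Real.exp (C₁ * ∑' n : ℕ, 1 / (n : ℝ) ^ 2)) * ∏ p ∈ T, FB p := by
    intro T
    rw [← Finset.prod_pow]
    calc ∏ p ∈ T, FA p ^ ℓ ≤ ∏ p ∈ T,
          (((if (p : ℕ) < q₀ then C₂ else 1) * Real.exp (C₁ / ((p : ℕ) : ℝ) ^ 2)) * FB p) :=
          Finset.prod_le_prod (fun p _ => pow_nonneg (hFA0 p) _) (fun p _ => hK p)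
      _ = (∏ p ∈ T, ((if (p : ℕ) < q₀ then C₂ else 1) * Real.exp (C₁ / ((p : ℕ) : ℝ) ^ 2))) *
          ∏ p ∈ T, FB p := Finset.prod_mul_distrib
      _ ≤ _ := mul_le_mul_of_nonneg_right (n07_prod_le hC₁ hC₂ q₀ T)
          (Finset.prod_nonneg fun p _ => hFB0 p)
  exact le_of_tendsto_of_tendsto' (Tendsto.pow hA ℓ) (Tendsto.const_mul _ hB) hT

end Pool.Agent.Lib.MP_89bcae_ag.Re

end

section

/-!
# Comparison of the two forms of the definitions
-/

open Polynomial IsDedekindDomain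

open scoped Classical

namespace Pool.Agent.Lib.MP_89bcae_ag

universe u

section

variable (N : ℕ) {A B : Type u} [Field A] [Field B]

/-- The identity, from one form of the coordinate ring to the other. -/
noncomputable def ringN8 (f : A[X]) : Nrm.NRing N f →+* Wt.NRing N f where
  toFun a := (⟨a.1, a.2⟩ : integralClosure A[X] (Wt.FunField N f))
  map_one' := Subtype.ext rfl
  map_zero' := Subtype.ext rfl
  map_mul' _ _ := Subtype.ext rfl
  map_add' _ _ := Subtype.ext rfl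

/-- The inverse. -/
noncomputable def ringN8' (f : A[X]) : Wt.NRing N f →+* Nrm.NRing N f where
  toFun a := (⟨a.1, a.2⟩ : integralClosure A[X] (Nrm.FunRing N f))
  map_one' := Subtype.ext rfl
  map_zero' := Subtype.ext rfl
  map_mul' _ _ := Subtype.ext rfl
  map_add' _ _ := Subtype.ext rfl

theorem ringN8_comp (f : A[X]) : (ringN8 N f).comp (ringN8' N f) = RingHom.id _ :=
  RingHom.ext fun _ => Subtype.ext rfl

theorem ringN8'_comp (f : A[X]) : (ringN8' N f).comp (ringN8 N f) = RingHom.id _ :=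
  RingHom.ext fun _ => Subtype.ext rfl

theorem coordMap_compN8 (σ : A →+* B) {f : A[X]} {f' : B[X]} (h : f.map σ = f') :
    (ringN8 N f').comp (Nrm.coordMap N σ h) = (Wt.coordMap N σ h).comp (ringN8 N f) :=
  RingHom.ext fun _ => Subtype.ext rfl

/-- The isomorphism of the groups of points of the Jacobians. -/
noncomputable def jacN8 (f : A[X]) : Nrm.Jac N f →+ Wt.Jac N f :=
  MonoidHom.toAdditive (CommRing.Pic.mapRingHom (ringN8 N f))

/-- The inverse. -/
noncomputable def jacN8' (f : A[X]) : Wt.Jac N f →+ Nrm.Jac N f :=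
  MonoidHom.toAdditive (CommRing.Pic.mapRingHom (ringN8' N f))

theorem jacN8_jacN8' (f : A[X]) (x : Wt.Jac N f) : jacN8 N f (jacN8' N f x) = x := by
  have h : ∀ M : CommRing.Pic (Wt.NRing N f),
      CommRing.Pic.mapRingHom (ringN8 N f) (CommRing.Pic.mapRingHom (ringN8' N f) M) = M := by
    intro M
    rw [CommRing.Pic.mapRingHom_mapRingHom, ringN8_comp, CommRing.Pic.mapRingHom_id_apply]
  exact congrArg Additive.ofMul (h x.toMul)

theorem jacN8'_jacN8 (f : A[X]) (x : Nrm.Jac N f) : jacN8' N f (jacN8 N f x) = x := by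
  have h : ∀ M : CommRing.Pic (Nrm.NRing N f),
      CommRing.Pic.mapRingHom (ringN8' N f) (CommRing.Pic.mapRingHom (ringN8 N f) M) = M := by
    intro M
    rw [CommRing.Pic.mapRingHom_mapRingHom, ringN8'_comp, CommRing.Pic.mapRingHom_id_apply]
  exact congrArg Additive.ofMul (h (Additive.toMul x))

theorem jacN8_jacMap (σ : A →+* B) {f : A[X]} {f' : B[X]} (h : f.map σ = f') (x : Nrm.Jac N f) :
    jacN8 N f' (Nrm.jacMap N σ h x) = Wt.jacMap N σ h (jacN8 N f x) := by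
  have h : ∀ M : CommRing.Pic (Nrm.NRing N f),
      CommRing.Pic.mapRingHom (ringN8 N f') (CommRing.Pic.mapRingHom (Nrm.coordMap N σ h) M) =
        CommRing.Pic.mapRingHom (Wt.coordMap N σ h) (CommRing.Pic.mapRingHom (ringN8 N f) M) := by
    intro M
    rw [CommRing.Pic.mapRingHom_mapRingHom, CommRing.Pic.mapRingHom_mapRingHom, coordMap_compN8]
  exact congrArg Additive.ofMul (h (Additive.toMul x))

end

section

variable {L : Type u} [Field L] (ℓ : ℕ) (f : L[X])

theorem jacN8_push {A B : Type u} [Field A] [Field B] [Algebra L A] [Algebra L B] (σ : A →ₐ[L] B)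
    (x : Nrm.JacOver ℓ f A) :
    jacN8 ℓ (f.map (algebraMap L B)) (Nrm.push ℓ f σ x) =
      Wt.push ℓ f σ (jacN8 ℓ (f.map (algebraMap L A)) x) :=
  jacN8_jacMap ℓ (σ : A →+* B) _ x

variable {Ω : Type u} [Field Ω] [Algebra L Ω]

theorem isTateCocycleN8 {c : ℕ → (Ω ≃ₐ[L] Ω) → Nrm.JacOver ℓ f Ω} (hc : Nrm.IsTateCocycle ℓ f c) :
    Wt.IsTateCocycle ℓ f fun n σ => jacN8 ℓ (f.map (algebraMap L Ω)) (c n σ) where
  zero σ := by rw [hc.zero, map_zero]
  smul n σ := by rw [← map_nsmul, hc.smul]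
  cocycle n σ τ := by rw [hc.cocycle, map_add, jacN8_push]
  locallyConstant n := (hc.locallyConstant n).comp _

theorem isLocallyTrivialN8 {c : (Ω ≃ₐ[L] Ω) → Nrm.JacOver ℓ f Ω} (Lv : Type u) [Field Lv]
    [Algebra L Lv] (h : Nrm.IsLocallyTrivial ℓ f c Lv) :
    Wt.IsLocallyTrivial ℓ f (fun σ => jacN8 ℓ (f.map (algebraMap L Ω)) (c σ)) Lv := by
  intro M _ _ _ _ _ j
  obtain ⟨Q, hQ⟩ := h M j
  refine ⟨jacN8 ℓ (f.map (algebraMap L M)) Q, fun g g' hg => ?_⟩
  rw [← jacN8_push, hQ g g' hg, map_sub, jacN8_push]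

theorem isFixedByN8 {c : ℕ → (Ω ≃ₐ[L] Ω) → Nrm.JacOver ℓ f Ω} {γ : Ω ≃+* Ω}
    {hγ : (f.map (algebraMap L Ω)).map (γ : Ω →+* Ω) = f.map (algebraMap L Ω)}
    (h : Nrm.IsFixedBy ℓ f c γ hγ) :
    Wt.IsFixedBy ℓ f (fun n σ => jacN8 ℓ (f.map (algebraMap L Ω)) (c n σ)) γ hγ := by
  obtain ⟨m, hm, h⟩ := h
  refine ⟨m, hm, fun n => ?_⟩
  obtain ⟨A, hA, h⟩ := h n
  refine ⟨jacN8 ℓ (f.map (algebraMap L Ω)) A, by rw [← map_nsmul, hA, map_zero], fun g g' hg => ?_⟩
  have h1 := congrArg (jacN8 ℓ (f.map (algebraMap L Ω))) (h g g' hg)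
  rw [map_nsmul, map_sub, map_sub, jacN8_push, jacN8_jacMap] at h1
  exact h1

theorem isTrivialN8 {c : ℕ → (Ω ≃ₐ[L] Ω) → Nrm.JacOver ℓ f Ω}
    (h : Wt.IsTrivial ℓ f fun n σ => jacN8 ℓ (f.map (algebraMap L Ω)) (c n σ)) :
    Nrm.IsTrivial ℓ f c := by
  have hinj : Function.Injective (jacN8 ℓ (f.map (algebraMap L Ω))) :=
    Function.LeftInverse.injective (jacN8'_jacN8 ℓ _)
  intro n
  obtain ⟨A, hA, h⟩ := h n
  obtain ⟨A', rfl⟩ : ∃ A', jacN8 ℓ (f.map (algebraMap L Ω)) A' = A := ⟨_, jacN8_jacN8' ℓ _ A⟩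
  refine ⟨A', hinj (by rw [map_nsmul, hA, map_zero]), fun g => hinj ?_⟩
  rw [map_sub, jacN8_push]
  exact h g

end


/-- The two forms of the property. -/
theorem tateClassesTorsionN8 {ℓ : ℕ} {k F : Type u} {L Ω : Type u} [Field k] [Field F]
    [Algebra k F] [Field L] [Algebra F[X] L] [IsFractionRing F[X] L] [Field Ω] [Algebra L Ω]
    {ι : Type} [Fintype ι] {W : ι → ℕ} {α : ι → k[X]} {k' : IntermediateField k F}
    (h : Wt.TateClassesTorsionW ℓ L Ω W α k') : Nrm.TateClassesTorsionW ℓ L Ω W α k' := by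
  have key : ∀ f : L[X], (∀ c : ℕ → (Ω ≃ₐ[L] Ω) → Wt.JacOver ℓ f Ω, Wt.IsTateCocycle ℓ f c →
      (∀ (v : HeightOneSpectrum F[X]) (n : ℕ),
        Wt.IsLocallyTrivial ℓ f (c n) (v.adicCompletion L)) →
      (∀ (γ : Ω ≃+* Ω) hγ, (∀ p : k'[X], γ (base k' F L Ω p) = base k' F L Ω p) →
        Wt.IsFixedBy ℓ f c γ hγ) → Wt.IsTrivial ℓ f fun n g => ℓ • c n g) →
      ∀ c : ℕ → (Ω ≃ₐ[L] Ω) → Nrm.JacOver ℓ f Ω, Nrm.IsTateCocycle ℓ f c →
      (∀ (v : HeightOneSpectrum F[X]) (n : ℕ),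
        Nrm.IsLocallyTrivial ℓ f (c n) (v.adicCompletion L)) →
      (∀ (γ : Ω ≃+* Ω) hγ, (∀ p : k'[X], γ (base k' F L Ω p) = base k' F L Ω p) →
        Nrm.IsFixedBy ℓ f c γ hγ) → Nrm.IsTrivial ℓ f fun n g => ℓ • c n g := by
    intro f h c hc hloc hfix
    refine isTrivialN8 ℓ f ?_
    have h1 := h _ (isTateCocycleN8 ℓ f hc)
      (fun v n => isLocallyTrivialN8 ℓ f (v.adicCompletion L) (hloc v n))
      (fun γ hγ hp => isFixedByN8 ℓ f (hfix γ hγ hp))
    have h2 : (fun n g => jacN8 ℓ (f.map (algebraMap L Ω)) (ℓ • c n g)) =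
        fun n g => ℓ • jacN8 ℓ (f.map (algebraMap L Ω)) (c n g) :=
      funext fun n => funext fun g => map_nsmul _ _ _
    rw [h2]
    exact h1
  exact key _ h

end Pool.Agent.Lib.MP_89bcae_ag

end

section

open NumberField Polynomial

namespace Pool.Agent.Lib.MP_89bcae_ag.Re

/-- A primitive root of unity stays primitive modulo large primes. Proof: `ℓ` is prime, so it is
enough that `φ ζ ≠ 1` (`IsPrimitiveRoot.of_map_of_injective`... or `orderOf_eq_prime`); if
`φ ζ = 1` then, since `1 + ζ + ... + ζ ^ (ℓ - 1) = 0` (`IsPrimitiveRoot.geom_sum_eq_zero`),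
`φ` of it gives `(ℓ : ZMod q) = 0`, so `q ∣ ℓ` and `q = ℓ`. -/
theorem isPrimitiveRoot_map {K : Type*} [Field K] [NumberField K] {ℓ : ℕ} (hℓ : ℓ.Prime)
    {ζ : 𝓞 K} (hζ : IsPrimitiveRoot ζ ℓ) {q : ℕ} [Fact q.Prime] (hq : ℓ < q)
    (φ : 𝓞 K →+* ZMod q) : IsPrimitiveRoot (φ ζ) ℓ := by
  haveI : Fact ℓ.Prime := ⟨hℓ⟩
  have h1 : (φ ζ) ^ ℓ = 1 := by rw [← map_pow, hζ.pow_eq_one, map_one]
  have hne : φ ζ ≠ 1 := by
    intro h
    have hs := hζ.geom_sum_eq_zero hℓ.one_lt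
    have h2 := congrArg φ hs
    simp only [map_sum, map_pow, h, one_pow, Finset.sum_const, Finset.card_range, nsmul_eq_mul,
      mul_one, map_zero] at h2
    have h3 : q ∣ ℓ := (ZMod.natCast_eq_zero_iff ℓ q).1 h2
    have h4 := Nat.le_of_dvd hℓ.pos h3
    omega
  have h5 := orderOf_eq_prime h1 hne
  have h6 := IsPrimitiveRoot.orderOf (φ ζ)
  rwa [h5] at h6

/-- Proof: for each `φ` choose `c` with `c ^ ℓ = φ b ≠ 0`; the `ℓ` elements `φ(ζ)^i c`, `i < ℓ`, are
distinct (`isPrimitiveRoot_map`) with the same power; `exists_extension` gives `ψ_(φ,i)` with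
restriction `φ` and value `φ(ζ)^i c` at `α`: an injective map from `(𝓞 K →+* ZMod q) × Fin ℓ` to
`𝓞 K' →+* ZMod q`; `idealCount_eq_card`, `Nat.card_le_card_of_injective`, `finite_ringHom`. -/
theorem mul_idealCount_le (K K' : Type*) [Field K] [NumberField K] [Field K'] [NumberField K']
    [Algebra K K'] {ℓ : ℕ} (hℓ : ℓ.Prime) {ζ : 𝓞 K} (hζ : IsPrimitiveRoot ζ ℓ) {b : 𝓞 K} {α : 𝓞 K'}
    (hb : α ^ ℓ = algebraMap (𝓞 K) (𝓞 K') b) (hirr : Irreducible (X ^ ℓ - C (b : K)))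
    {M : ℕ} (hM : ∀ y : 𝓞 K', ∃ p : (𝓞 K)[X], (M : 𝓞 K') * y = aeval α p)
    {q : ℕ} [Fact q.Prime] (hqM : ¬ q ∣ M) (hqℓ : ℓ < q)
    (hφ : ∀ φ : 𝓞 K →+* ZMod q, φ b ≠ 0 ∧ ∃ c : ZMod q, c ^ ℓ = φ b) :
    ℓ * idealCount K q ≤ idealCount K' q := by
  classical
  rw [idealCount_eq_card K q, idealCount_eq_card K' q]
  haveI := finite_ringHom K q
  haveI := finite_ringHom K' q
  choose hb0 c hc using hφ
  have hext : ∀ (φ : 𝓞 K →+* ZMod q) (i : Fin ℓ), ∃ ψ : 𝓞 K' →+* ZMod q,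
      (∀ x : 𝓞 K, ψ (algebraMap (𝓞 K) (𝓞 K') x) = φ x) ∧ ψ α = (φ ζ) ^ (i : ℕ) * c φ := by
    intro φ i
    refine exists_extension K K' hℓ.pos hb hirr hM hqM φ ?_
    rw [mul_pow, ← pow_mul, mul_comm (i : ℕ), pow_mul,
      (isPrimitiveRoot_map hℓ hζ hqℓ φ).pow_eq_one, one_pow, one_mul, hc]
  choose ψ hψ1 hψ2 using hext
  have hinj : Function.Injective (fun p : (𝓞 K →+* ZMod q) × Fin ℓ => ψ p.1 p.2) := by
    rintro ⟨φ, i⟩ ⟨φ', j⟩ h
    have h' : ψ φ i = ψ φ' j := h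
    have hφφ' : φ = φ' := RingHom.ext fun x => by rw [← hψ1 φ i x, h', hψ1]
    subst hφφ'
    have h2 : (φ ζ) ^ (i : ℕ) * c φ = (φ ζ) ^ (j : ℕ) * c φ := by
      rw [← hψ2 φ i, h', hψ2]
    have hc0 : c φ ≠ 0 := by
      intro h0
      apply hb0 φ
      rw [← hc φ, h0, zero_pow hℓ.ne_zero]
    have h3 := mul_right_cancel₀ hc0 h2
    have h4 := (isPrimitiveRoot_map hℓ hζ hqℓ φ).pow_inj i.2 j.2 h3
    exact Prod.ext rfl (Fin.ext h4)
  have h7 := Nat.card_le_card_of_injective _ hinj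
  rw [Nat.card_prod, Nat.card_fin] at h7
  rw [mul_comm]
  exact h7

end Pool.Agent.Lib.MP_89bcae_ag.Re

end

section

open NumberField Ideal Filter Topology

namespace Pool.Agent.Lib.MP_89bcae_ag.Re

/-- A number field cannot have, for all large primes, at least `ℓ ≥ 2` times as many primes of
degree one as another one. Proof: `euler_compare` with `a = idealCount K`, `b = idealCount K'` gives
`zetaR K s ^ ℓ ≤ C zetaR K' s` for `s > 1`. Multiply by `(s - 1) ^ ℓ`:
`((s-1) zetaR K s) ^ ℓ ≤ C (s-1)^(ℓ-1) ((s-1) zetaR K' s)`; for `s → 1+` (`zetaR_tendsto`) the left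
side tends to `(dedekindZeta_residue K) ^ ℓ > 0` (`dedekindZeta_residue_pos`), the right side to
`0`. -/
theorem not_mul_le (K K' : Type*) [Field K] [NumberField K] [Field K'] [NumberField K'] {ℓ : ℕ}
    (hℓ : 2 ≤ ℓ) (q₀ : ℕ) :
    ∃ q : ℕ, q.Prime ∧ q₀ ≤ q ∧ idealCount K' q < ℓ * idealCount K q := by
  by_contra hcon
  push Not at hcon
  obtain ⟨C, hC, hle⟩ := euler_compare (a := fun n => (idealCount K n : ℝ))
    (b := fun n => (idealCount K' n : ℝ)) (d := Module.finrank ℚ K) (d' := Module.finrank ℚ K')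
    (ℓ := ℓ) (q₀ := q₀) (fun n => Nat.cast_nonneg _) (fun n => Nat.cast_nonneg _)
    (by simp only [idealCount_one, Nat.cast_one]) (by simp only [idealCount_one, Nat.cast_one])
    (fun m n h => by simp only [idealCount_mul K h, Nat.cast_mul])
    (fun m n h => by simp only [idealCount_mul K' h, Nat.cast_mul])
    (fun q e hq => by exact_mod_cast idealCount_prime_pow_le K hq e)
    (fun q e hq => by exact_mod_cast idealCount_prime_pow_le K' hq e)
    (fun s hs => zetaR_summable K hs) (fun s hs => zetaR_summable K' hs)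
    (fun q hq hqq => by exact_mod_cast hcon q hq hqq)
  have hle' : ∀ s : ℝ, 1 < s → zetaR K s ^ ℓ ≤ C * zetaR K' s := hle
  have h1 : Tendsto (fun s : ℝ => ((s - 1) * zetaR K s) ^ ℓ) (𝓝[>] 1)
      (𝓝 (dedekindZeta_residue K ^ ℓ)) := (zetaR_tendsto K).pow ℓ
  have h2 : Tendsto (fun s : ℝ => (s - 1) ^ (ℓ - 1)) (𝓝[>] 1) (𝓝 0) := by
    have h3 : Tendsto (fun s : ℝ => (s - 1) ^ (ℓ - 1)) (𝓝 1) (𝓝 ((1 - 1) ^ (ℓ - 1))) :=
      ((continuous_id.sub continuous_const).pow (ℓ - 1)).tendsto 1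
    rw [sub_self, zero_pow (by omega)] at h3
    exact h3.mono_left nhdsWithin_le_nhds
  have h4 : Tendsto (fun s : ℝ => C * ((s - 1) ^ (ℓ - 1) * ((s - 1) * zetaR K' s))) (𝓝[>] 1)
      (𝓝 0) := by
    have := (h2.mul (zetaR_tendsto K')).const_mul C
    rwa [zero_mul, mul_zero] at this
  have h5 : dedekindZeta_residue K ^ ℓ ≤ 0 := by
    refine le_of_tendsto_of_tendsto h1 h4 ?_
    filter_upwards [self_mem_nhdsWithin] with s hs
    have hs' : (1 : ℝ) < s := hs
    have hs0 : 0 ≤ s - 1 := by linarith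
    have h6 := mul_le_mul_of_nonneg_left (hle' s hs') (pow_nonneg hs0 ℓ)
    have h7 : (s - 1) ^ ℓ = (s - 1) ^ (ℓ - 1) * (s - 1) := by
      rw [← pow_succ]
      congr 1
      omega
    calc ((s - 1) * zetaR K s) ^ ℓ = (s - 1) ^ ℓ * zetaR K s ^ ℓ := mul_pow _ _ _
      _ ≤ (s - 1) ^ ℓ * (C * zetaR K' s) := h6
      _ = C * ((s - 1) ^ (ℓ - 1) * ((s - 1) * zetaR K' s)) := by rw [h7]; ring
  exact absurd h5 (not_le.2 (pow_pos (dedekindZeta_residue_pos K) ℓ))

end Pool.Agent.Lib.MP_89bcae_ag.Re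

end

section

/-!
ROW L10 (150-300 lines). The absolute value of an algebraic closure `M` of the completion `K` of
`F(t)` at `t = a`.

PROOF. `K` has the complete discrete valuation `Valued.v` with values in `ℤᵐ⁰`; choose a rank one
structure (`Valuation.RankOne`; e.g. `exp n ↦ 2 ^ n`; see `Valued.toNormedField`,
`IsDedekindDomain.HeightOneSpectrum.adicCompletion` and, for the pattern,
`Mathlib/NumberTheory/Padics/Complex.lean` and `.../NumberField/Completion/FinitePlace.lean`) to make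
`K` a complete nontrivially normed field with nonarchimedean norm, and let `v` be the spectral norm
`spectralNorm K M` (`spectralNorm_mul`/`spectralMulAlgNorm`, `isNonarchimedean_spectralNorm`,
`spectralNorm_extends`). `spectralNorm_eq_of_equiv` gives the invariance under `Aut(M/K)`; the
invariance under `u` (semilinear with respect to an isometry `φ` of `K`): the minimal polynomial of
`u x` is the image under `φ` of the minimal polynomial of `x`, and `spectralValue` depends only on the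
norms of the coefficients. Constants: `Valued.v (C c) = 1` for `c ≠ 0` (`val_eq_one`);
`Valued.v (X - a) = exp (-1)` (`val_X_sub_C`), so every nonzero element of `K` has the absolute value of a
power of `t - a`. Residues: let `x` in `M`, `v x ≤ 1`, with minimal polynomial `q` over `K`, whose
coefficients have norm `≤ 1` (definition of the spectral norm:
`spectralValue q ≤ 1 → ‖q.coeff n‖ ≤ 1`, `spectralValue_le_one_iff`); let `q₀` in `F[X]` be monic with
coefficients the residues of those of `q` (`exists_residue`); then `v (q₀(x)) = v (q₀(x) - q(x)) < 1` and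
`q₀ = ∏ (X - c_i)` (`F` is algebraically closed), so `v (x - c_i) < 1` for some `i`.
-/

open Polynomial IsDedekindDomain

open scoped Classical

namespace Pool.Agent.Lib.MP_89bcae_ag.Sup

universe u

section Spectral

variable {K M : Type u} [NontriviallyNormedField K] [IsUltrametricDist K] [CompleteSpace K]
  [Field M] [Algebra K M] [Algebra.IsAlgebraic K M]

/-- The spectral norm as an absolute value. -/
private noncomputable def L10_abs (K M : Type u) [NontriviallyNormedField K]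
    [IsUltrametricDist K] [CompleteSpace K]
    [Field M] [Algebra K M] [Algebra.IsAlgebraic K M] : AbsoluteValue M ℝ where
  toFun := spectralNorm K M
  map_mul' x y := (spectralMulAlgNorm K M).map_mul' x y
  nonneg' x := spectralNorm_nonneg x
  eq_zero' x := ⟨fun h => eq_zero_of_map_spectralNorm_eq_zero h
    (Algebra.IsAlgebraic.isAlgebraic x), fun h => by rw [h]; exact spectralNorm_zero⟩
  add_le' x y := isNonarchimedean_spectralNorm.add_le spectralNorm_nonneg


private theorem L10_nonarch (x y : M) :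
    L10_abs K M (x + y) ≤ max (L10_abs K M x) (L10_abs K M y) :=
  isNonarchimedean_spectralNorm x y

private theorem L10_ext (x : K) : L10_abs K M (algebraMap K M x) = ‖x‖ :=
  spectralNorm_extends x

private theorem L10_gal (σ : M ≃ₐ[K] M) (x : M) : L10_abs K M (σ x) = L10_abs K M x :=
  (spectralNorm_eq_of_equiv σ x).symm

private theorem L10_semilin (w : M ≃+* M) (φ : K ≃+* K) (hφ : ∀ x, ‖φ x‖ = ‖x‖)
    (hw : ∀ x, w (algebraMap K M x) = algebraMap K M (φ x)) (x : M) :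
    L10_abs K M (w x) = L10_abs K M x := by
  have hx : IsIntegral K x := (Algebra.IsAlgebraic.isAlgebraic x).isIntegral
  have hcomp : (algebraMap K M).comp (φ : K →+* K) = (w : M →+* M).comp (algebraMap K M) := by
    ext k
    exact (hw k).symm
  have hroot : aeval (w x) ((minpoly K x).map (φ : K →+* K)) = 0 := by
    rw [aeval_def, eval₂_map, hcomp]
    have h1 : eval₂ ((w : M →+* M).comp (algebraMap K M)) (w x) (minpoly K x) =
        w (eval₂ (algebraMap K M) x (minpoly K x)) := by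
      have := (hom_eval₂ (minpoly K x) (algebraMap K M) (w : M →+* M) x)
      exact this.symm
    rw [h1, ← aeval_def, minpoly.aeval, map_zero]
  have hirr : Irreducible ((minpoly K x).map (φ : K →+* K)) := by
    have h2 := minpoly.irreducible hx
    exact (MulEquiv.irreducible_iff (Polynomial.mapEquiv φ)).mpr h2
  have hmon : ((minpoly K x).map (φ : K →+* K)).Monic := (minpoly.monic hx).map _
  have hmin : minpoly K (w x) = (minpoly K x).map (φ : K →+* K) :=
    (minpoly.eq_of_irreducible_of_monic hirr hroot hmon).symm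
  change spectralValue (minpoly K (w x)) = spectralValue (minpoly K x)
  rw [hmin]
  unfold spectralValue
  congr 1
  funext n
  unfold spectralValueTerms
  rw [natDegree_map_eq_of_injective (RingHom.injective (φ : K →+* K)), coeff_map]
  have h3 : ‖(φ : K →+* K) ((minpoly K x).coeff n)‖ = ‖(minpoly K x).coeff n‖ := hφ _
  rw [h3]

private theorem L10_sum_lt {ι : Type*} (v : AbsoluteValue M ℝ)
    (hna : ∀ x y, v (x + y) ≤ max (v x) (v y)) (s : Finset ι) (f : ι → M)
    (h : ∀ i ∈ s, v (f i) < 1) : v (∑ i ∈ s, f i) < 1 := by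
  induction s using Finset.induction_on with
  | empty => rw [Finset.sum_empty, map_zero]; exact zero_lt_one
  | insert a s ha ih =>
    rw [Finset.sum_insert ha]
    refine (hna _ _).trans_lt (max_lt (h a (Finset.mem_insert_self a s)) (ih fun i hi => ?_))
    exact h i (Finset.mem_insert_of_mem hi)

private theorem L10_residue {F : Type u} [Field F] [IsAlgClosed F] (ι : F →+* K)
    (hres : ∀ k : K, ‖k‖ ≤ 1 → ∃ c : F, ‖k - ι c‖ < 1)
    (x : M) (hx : L10_abs K M x ≤ 1) :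
    ∃ c : F, L10_abs K M (x - algebraMap K M (ι c)) < 1 := by
  have hint : IsIntegral K x := (Algebra.IsAlgebraic.isAlgebraic x).isIntegral
  set q := minpoly K x with hq
  have hmon : q.Monic := minpoly.monic hint
  have hcoef : ∀ n, ‖q.coeff n‖ ≤ 1 := (spectralValue_le_one_iff hmon).mp hx
  choose c hc using fun n => hres (q.coeff n) (hcoef n)
  set n := q.natDegree with hn
  set q₀ : F[X] := X ^ n + ∑ i ∈ Finset.range n, C (c i) * X ^ i with hq₀
  have hdeg : (∑ i ∈ Finset.range n, C (c i) * X ^ i : F[X]).degree < n := by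
    rw [Finset.sum_range]
    exact degree_sum_fin_lt _
  have hq₀mon : q₀.Monic := monic_X_pow_add hdeg
  have hsplit : q₀.Splits := IsAlgClosed.splits q₀
  have hprod : q₀ = (q₀.roots.map fun r => X - C r).prod := by
    have := hsplit.eq_prod_roots
    rw [hq₀mon.leadingCoeff, C_1, one_mul] at this
    exact this
  set j : F →+* M := (algebraMap K M).comp ι with hj
  have heval : eval₂ j x q₀ = (q₀.roots.map fun r => x - j r).prod := by
    conv_lhs => rw [hprod]
    rw [← coe_eval₂RingHom, map_multiset_prod, Multiset.map_map]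
    congr 1
    refine Multiset.map_congr rfl fun r _ => ?_
    simp
  have hlt : L10_abs K M (eval₂ j x q₀) < 1 := by
    have hqx : eval₂ (algebraMap K M) x q = 0 := by
      rw [← aeval_def, hq, minpoly.aeval]
    have hq' : q = X ^ n + ∑ i ∈ Finset.range n, C (q.coeff i) * X ^ i := by
      conv_lhs => rw [q.as_sum_range_C_mul_X_pow]
      rw [Finset.sum_range_succ, ← hn, hn, hmon.coeff_natDegree, C_1, one_mul, add_comm]
    have hqx' : x ^ n + ∑ i ∈ Finset.range n, algebraMap K M (q.coeff i) * x ^ i = 0 := by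
      rw [← hqx]
      conv_rhs => rw [hq']
      simp [eval₂_finsetSum]
    have hq₀x : eval₂ j x q₀ =
        ∑ i ∈ Finset.range n, algebraMap K M (ι (c i) - q.coeff i) * x ^ i := by
      have h1 : eval₂ j x q₀ = x ^ n + ∑ i ∈ Finset.range n, j (c i) * x ^ i := by
        rw [hq₀]
        simp [eval₂_finsetSum]
      rw [h1, ← sub_zero (x ^ n + ∑ i ∈ Finset.range n, j (c i) * x ^ i), ← hqx',
        add_sub_add_left_eq_sub, ← Finset.sum_sub_distrib]
      refine Finset.sum_congr rfl fun i _ => ?_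
      rw [map_sub, sub_mul]
      rfl
    rw [hq₀x]
    refine L10_sum_lt _ L10_nonarch _ _ fun i _ => ?_
    rw [map_mul, map_pow, L10_ext, norm_sub_rev]
    calc ‖q.coeff i - ι (c i)‖ * L10_abs K M x ^ i ≤ ‖q.coeff i - ι (c i)‖ * 1 := by
          refine mul_le_mul_of_nonneg_left ?_ (norm_nonneg _)
          exact pow_le_one₀ (AbsoluteValue.nonneg _ _) hx
      _ < 1 := by rw [mul_one]; exact hc i
  by_contra hcon
  push Not at hcon
  rw [heval, map_multiset_prod, Multiset.map_map] at hlt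
  refine absurd hlt (not_lt.mpr ?_)
  have hall : ∀ s : Multiset F, 1 ≤ (s.map (⇑(L10_abs K M) ∘ fun r => x - j r)).prod := by
    intro s
    induction s using Multiset.induction_on with
    | empty => rw [Multiset.map_zero, Multiset.prod_zero]
    | cons a s ih =>
      rw [Multiset.map_cons, Multiset.prod_cons]
      exact one_le_mul_of_one_le_of_one_le (hcon a) ih
  exact hall _

end Spectral

section Discrete

variable {K M : Type u} [Field K] [Valued K (WithZero (Multiplicative ℤ))] [CompleteSpace K]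
  [Field M] [Algebra K M] [Algebra.IsAlgebraic K M]

private theorem L10_valued (hR : Valuation.RankOne (Valued.v : Valuation K
      (WithZero (Multiplicative ℤ)))) :
    ∃ v : AbsoluteValue M ℝ,
      (∀ x y, v (x + y) ≤ max (v x) (v y)) ∧
      (∀ x y : K, v (algebraMap K M x) ≤ v (algebraMap K M y) ↔ Valued.v x ≤ Valued.v y) ∧
      (∀ (σ : M ≃ₐ[K] M) (x : M), v (σ x) = v x) ∧
      (∀ (w : M ≃+* M) (φ : K ≃+* K), (∀ x, Valued.v (φ x) = Valued.v x) →
        (∀ x, w (algebraMap K M x) = algebraMap K M (φ x)) → ∀ x, v (w x) = v x) ∧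
      (∀ {F : Type u} [Field F] [IsAlgClosed F] (ι : F →+* K),
        (∀ k : K, Valued.v k ≤ 1 → ∃ c : F, Valued.v (k - ι c) < 1) →
        ∀ x : M, v x ≤ 1 → ∃ c : F, v (x - algebraMap K M (ι c)) < 1) := by
  let _ := hR
  let _ : NontriviallyNormedField K := Valued.toNontriviallyNormedField K _
  have _ : IsUltrametricDist K := Valued.instIsUltrametricDist K _
  refine ⟨L10_abs K M, L10_nonarch, fun x y => ?_, L10_gal, fun w φ hφ hw x => ?_,
    fun ι hres x hx => ?_⟩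
  · rw [L10_ext, L10_ext]
    exact Valued.toNormedField.norm_le_iff
  · refine L10_semilin w φ (fun k => ?_) hw x
    refine le_antisymm ?_ ?_
    · exact Valued.toNormedField.norm_le_iff.mpr (hφ k).le
    · exact Valued.toNormedField.norm_le_iff.mpr (hφ k).ge
  · refine L10_residue ι (fun k hk => ?_) x hx
    obtain ⟨c, hc⟩ := hres k (Valued.toNormedField.norm_le_one_iff.mp hk)
    exact ⟨c, Valued.toNormedField.norm_lt_one_iff.mpr hc⟩

end Discrete

theorem exists_locCtx {F L M : Type u} [Field F] [IsAlgClosed F] [Field L] [Algebra F[X] L]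
    [IsFractionRing F[X] L] (a : F) [Field M] [Algebra ((plc a).adicCompletion L) M]
    [IsAlgClosure ((plc a).adicCompletion L) M] [Algebra F M]
    (hF : ∀ c : F, algebraMap F M c = algebraMap ((plc a).adicCompletion L) M
      (algebraMap F[X] ((plc a).adicCompletion L) (C c))) :
    ∃ v : AbsoluteValue M ℝ,
      LocCtx v a (algebraMap ((plc a).adicCompletion L) M
        (algebraMap F[X] ((plc a).adicCompletion L) X)) ∧
      (∀ x : (plc a).adicCompletion L, x ≠ 0 → ∃ i : ℤ,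
        v (algebraMap ((plc a).adicCompletion L) M x) =
          v (algebraMap ((plc a).adicCompletion L) M
            (algebraMap F[X] ((plc a).adicCompletion L) X) - algebraMap F M a) ^ i) ∧
      (∀ (σ : M ≃ₐ[(plc a).adicCompletion L] M) (x : M), v (σ x) = v x) ∧
      ∀ (w : M ≃+* M) (φ : (plc a).adicCompletion L ≃+* (plc a).adicCompletion L),
        (∀ x, Valued.v (φ x) = Valued.v x) →
        (∀ x, w (algebraMap ((plc a).adicCompletion L) M x) =
          algebraMap ((plc a).adicCompletion L) M (φ x)) → ∀ x, v (w x) = v x := by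
  have hRD : (Valued.v : Valuation ((plc a).adicCompletion L)
      (WithZero (Multiplicative ℤ))).IsRankOneDiscrete := inferInstance
  obtain ⟨v, hna, hle, hgal, hsemi, hres⟩ := L10_valued
    (K := (plc a).adicCompletion L) (M := M)
    (Valuation.IsRankOneDiscrete.rankOne (Valued.v : Valuation ((plc a).adicCompletion L)
      (WithZero (Multiplicative ℤ))) (e := 2) one_lt_two)
  have hlt : ∀ x y : (plc a).adicCompletion L,
      v (algebraMap _ M x) < v (algebraMap _ M y) ↔ Valued.v x < Valued.v y := by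
    intro x y
    rw [← not_le, ← not_le, hle]
  have heq : ∀ x y : (plc a).adicCompletion L, Valued.v x = Valued.v y →
      v (algebraMap _ M x) = v (algebraMap _ M y) := by
    intro x y h
    exact le_antisymm ((hle x y).mpr h.le) ((hle y x).mpr h.ge)
  have hone : v (algebraMap ((plc a).adicCompletion L) M 1) = 1 := by
    rw [map_one, map_one]
  have hsub : algebraMap ((plc a).adicCompletion L) M
        (algebraMap F[X] ((plc a).adicCompletion L) X) - algebraMap F M a =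
      algebraMap ((plc a).adicCompletion L) M
        (algebraMap F[X] ((plc a).adicCompletion L) (X - C a)) := by
    rw [hF, map_sub, map_sub]
  have hval0 : Valued.v (algebraMap F[X] ((plc a).adicCompletion L) (X - C a)) =
      WithZero.exp (-1 : ℤ) := val_X_sub_C L a
  refine ⟨v, ⟨inferInstance, hna, ?_, ?_, ?_, ?_⟩, ?_, hgal, hsemi⟩
  · intro c hc
    rw [hF, ← hone]
    refine heq _ _ ?_
    rw [map_one]
    refine val_eq_one L a ?_
    rw [eval_C]
    exact hc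
  · rw [hsub, ← hone, hlt, hval0, map_one]
    rw [← WithZero.exp_zero]
    exact WithZero.exp_lt_exp.mpr (by norm_num)
  · intro h
    rw [← sub_eq_zero, hsub, map_eq_zero] at h
    rw [h, map_zero] at hval0
    exact WithZero.exp_ne_zero hval0.symm
  · intro x hx
    obtain ⟨c, hc⟩ := hres (F := F) ((algebraMap F[X] ((plc a).adicCompletion L)).comp C)
      (fun k hk => exists_residue L a k hk) x hx
    refine ⟨c, ?_⟩
    rw [hF]
    exact hc
  · intro x hx
    have hx0 : Valued.v x ≠ 0 := (Valuation.ne_zero_iff _).mpr hx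
    refine ⟨-(WithZero.log (Valued.v x)), ?_⟩
    rw [hsub, ← map_zpow₀, ← map_zpow₀]
    refine heq _ _ ?_
    rw [map_zpow₀, hval0, ← WithZero.exp_zsmul]
    simp [WithZero.exp_log hx0]

end Pool.Agent.Lib.MP_89bcae_ag.Sup

end

section

open NumberField Polynomial

namespace Pool.Agent.Lib.MP_89bcae_ag.Re

/-- A nonzero integer is not killed modulo large primes. Proof: `φ b = 0` implies that the norm of `b`
(`Algebra.norm ℤ b`, a nonzero integer, which is a multiple of `b` in `𝓞 K`: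
`Algebra.dvd_norm` or `Ideal.absNorm_mem` for the ideal `span {b}`) is zero in `ZMod q`; so `q` divides
it; take `N` its absolute value. -/
theorem exists_bound_ne_zero (K : Type*) [Field K] [NumberField K] {b : 𝓞 K} (hb : b ≠ 0) :
    ∃ N : ℕ, ∀ (q : ℕ) [Fact q.Prime], N < q → ∀ φ : 𝓞 K →+* ZMod q, φ b ≠ 0 := by
  have hn : Algebra.norm ℤ b ≠ 0 := by
    rw [Ne, Algebra.norm_eq_zero_iff]; exact hb
  refine ⟨(Algebra.norm ℤ b).natAbs, ?_⟩
  intro q _ hq φ hφ
  have hmem : ((Ideal.span {b} : Ideal (𝓞 K)).absNorm : 𝓞 K) ∈ Ideal.span {b} :=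
    Ideal.absNorm_mem _
  rw [Ideal.absNorm_span_singleton, Ideal.mem_span_singleton] at hmem
  obtain ⟨c, hc⟩ := hmem
  have h0 : (((Algebra.norm ℤ b).natAbs : ℕ) : ZMod q) = 0 := by
    have := congrArg φ hc
    rw [map_natCast, map_mul, hφ, zero_mul] at this
    exact this
  rw [ZMod.natCast_eq_zero_iff] at h0
  exact absurd (Nat.le_of_dvd (Int.natAbs_pos.mpr hn) h0) (by omega)

/-- **Primes with a non-residue.** Proof: suppose the contrary for all `q > N`. The polynomial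
`X ^ ℓ - C b` is irreducible over `K` (`X_pow_sub_C_irreducible_of_prime`); let
`K' = AdjoinRoot (X ^ ℓ - C b)`, a number field (finite over `K`), `α` the root, which is integral,
so it is an element of `𝓞 K'` with `α ^ ℓ = b`, `K' = K(α)` (`AdjoinRoot.adjoinRoot_eq_top`). By
`exists_denominator`, `exists_bound_ne_zero` and `mul_idealCount_le`, for all large primes `q` we have
`ℓ * idealCount K q ≤ idealCount K' q`: contradiction with `not_mul_le`. -/
theorem exists_nonresidue (K : Type*) [Field K] [NumberField K] {ℓ : ℕ} (hℓ : ℓ.Prime)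
    {ζ : 𝓞 K} (hζ : IsPrimitiveRoot ζ ℓ) {b : 𝓞 K} (hb : b ≠ 0) (hb' : ∀ x : K, x ^ ℓ ≠ b) (N : ℕ) :
    ∃ (q : ℕ) (_ : Fact q.Prime), N < q ∧ ∃ φ : 𝓞 K →+* ZMod q,
      φ b ≠ 0 ∧ ∀ y : ZMod q, y ^ ℓ ≠ φ b := by
  classical
  by_contra hcon
  have hall : ∀ (q : ℕ) [Fact q.Prime], N < q → ∀ φ : 𝓞 K →+* ZMod q, φ b ≠ 0 →
      ∃ y : ZMod q, y ^ ℓ = φ b := by
    intro q hq hN φ hφ
    by_contra hy
    push Not at hy
    exact hcon ⟨q, hq, hN, φ, hφ, hy⟩
  have hirr : Irreducible (X ^ ℓ - C (b : K)) := X_pow_sub_C_irreducible_of_prime hℓ hb'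
  have : Fact (Irreducible (X ^ ℓ - C (b : K))) := ⟨hirr⟩
  have hmonic : (X ^ ℓ - C (b : K)).Monic := monic_X_pow_sub_C (b : K) hℓ.ne_zero
  have : Module.Finite K (AdjoinRoot (X ^ ℓ - C (b : K))) := hmonic.finite_adjoinRoot
  have : NumberField (AdjoinRoot (X ^ ℓ - C (b : K))) :=
    NumberField.of_module_finite K (AdjoinRoot (X ^ ℓ - C (b : K)))
  have hroot : (AdjoinRoot.root (X ^ ℓ - C (b : K))) ^ ℓ =
      algebraMap K (AdjoinRoot (X ^ ℓ - C (b : K))) (b : K) := by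
    have h := AdjoinRoot.eval₂_root (X ^ ℓ - C (b : K))
    rw [eval₂_sub, eval₂_pow, eval₂_X, eval₂_C] at h
    exact sub_eq_zero.1 h
  have hint : IsIntegral ℤ (AdjoinRoot.root (X ^ ℓ - C (b : K))) := by
    apply IsIntegral.of_pow hℓ.pos
    rw [hroot]
    exact (RingOfIntegers.isIntegral_coe b).map (IsScalarTower.toAlgHom ℤ K _)
  let α : 𝓞 (AdjoinRoot (X ^ ℓ - C (b : K))) := ⟨AdjoinRoot.root (X ^ ℓ - C (b : K)), hint⟩
  have hαv : (α : AdjoinRoot (X ^ ℓ - C (b : K))) = AdjoinRoot.root (X ^ ℓ - C (b : K)) := rfl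
  have hαb : α ^ ℓ = algebraMap (𝓞 K) (𝓞 (AdjoinRoot (X ^ ℓ - C (b : K)))) b := by
    apply RingOfIntegers.ext
    exact hroot
  obtain ⟨M, hM0, hM⟩ := exists_denominator K (AdjoinRoot (X ^ ℓ - C (b : K))) (α := α)
    (by rw [hαv]; exact AdjoinRoot.adjoinRoot_eq_top)
  obtain ⟨N1, hN1⟩ := exists_bound_ne_zero K hb
  obtain ⟨q, hq, hqq, hlt⟩ := not_mul_le K (AdjoinRoot (X ^ ℓ - C (b : K))) hℓ.two_le
    (N + N1 + M + ℓ + 1)
  have : Fact q.Prime := ⟨hq⟩
  have hle : ℓ * idealCount K q ≤ idealCount (AdjoinRoot (X ^ ℓ - C (b : K))) q := by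
    refine mul_idealCount_le K (AdjoinRoot (X ^ ℓ - C (b : K))) hℓ hζ hαb hirr hM ?_ (by omega) ?_
    · intro hd
      have := Nat.le_of_dvd (Nat.pos_of_ne_zero hM0) hd
      omega
    · intro φ
      have h0 : φ b ≠ 0 := hN1 q (by omega) φ
      exact ⟨h0, hall q (by omega) φ h0⟩
  omega

end Pool.Agent.Lib.MP_89bcae_ag.Re

end

section

open NumberField Polynomial

namespace Pool.Agent.Lib.MP_89bcae_ag.Re

private def N15Mem (K : Type*) [Field K] [NumberField K] {q : ℕ} (φ : 𝓞 K →+* ZMod q) (x : K) :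
    Prop :=
  ∃ a s : 𝓞 K, φ s ≠ 0 ∧ x * algebraMap (𝓞 K) K s = algebraMap (𝓞 K) K a

private theorem n15_bound (K : Type*) [Field K] [NumberField K] (z : K) :
    ∃ N : ℕ, ∀ (q : ℕ) [Fact q.Prime], N < q → ∀ φ : 𝓞 K →+* ZMod q,
      N15Mem K φ z ∧ (z ≠ 0 → N15Mem K φ z⁻¹) := by
  obtain ⟨a, n, hn, rfl⟩ := IsFractionRing.div_surjective (A := 𝓞 K) z
  have hn0 : n ≠ 0 := nonZeroDivisors.ne_zero hn
  have hn0K : algebraMap (𝓞 K) K n ≠ 0 := by
    rw [Ne, map_eq_zero_iff _ (IsFractionRing.injective (𝓞 K) K)]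
    exact hn0
  obtain ⟨N₁, hN₁⟩ := exists_bound_ne_zero K hn0
  by_cases ha : a = 0
  · subst ha
    refine ⟨N₁, fun q _ hq φ => ⟨⟨0, n, hN₁ q hq φ, ?_⟩, fun h => absurd ?_ h⟩⟩
    · simp
    · simp
  · obtain ⟨N₂, hN₂⟩ := exists_bound_ne_zero K ha
    have haK : algebraMap (𝓞 K) K a ≠ 0 := by
      rw [Ne, map_eq_zero_iff _ (IsFractionRing.injective (𝓞 K) K)]
      exact ha
    refine ⟨max N₁ N₂, fun q _ hq φ => ⟨⟨a, n, hN₁ q ((le_max_left _ _).trans_lt hq) φ, ?_⟩,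
      fun _ => ⟨n, a, hN₂ q ((le_max_right _ _).trans_lt hq) φ, ?_⟩⟩⟩
    · exact div_mul_cancel₀ _ hn0K
    · rw [inv_div]
      exact div_mul_cancel₀ _ haK

/-- Extension of a homomorphism to a larger subring of `K` containing given elements. Proof: let
`A = {x : K | ∃ a s : 𝓞 K, φ s ≠ 0 ∧ x * s = a}`, a subring (the localization of `𝓞 K` at the kernel of
`φ`), and `Φ x = φ a / φ s` (well defined: `a s' = a' s` in `𝓞 K` if `x s = a`, `x s' = a'`, and `ZMod q`
is a field). For `z ∈ T` write `z = a / n` with `a ∈ 𝓞 K`, `n` a nonzero integer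
(`IsLocalization`, `exists_integer_multiple`); `N` is such that for `q > N` no `φ` kills `n` and, if
`z ≠ 0`, `a` (`exists_bound_ne_zero`, for both). -/
theorem exists_subring (K : Type*) [Field K] [NumberField K] (T : Finset K) :
    ∃ N : ℕ, ∀ (q : ℕ) [Fact q.Prime], N < q → ∀ φ : 𝓞 K →+* ZMod q,
      ∃ (A : Subring K) (Φ : A →+* ZMod q),
        (∀ x : 𝓞 K, ∃ h : (x : K) ∈ A, Φ ⟨x, h⟩ = φ x) ∧
        ∀ z ∈ T, z ∈ A ∧ (z ≠ 0 → z⁻¹ ∈ A) := by
  choose N hN using n15_bound K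
  refine ⟨T.sup N, fun q _ hq φ => ?_⟩
  have hinj := IsFractionRing.injective (𝓞 K) K
  let A : Subring K :=
    { carrier := {x | N15Mem K φ x}
      mul_mem' := by
        rintro x y ⟨a, s, hs, hx⟩ ⟨b, t, ht, hy⟩
        refine ⟨a * b, s * t, ?_, ?_⟩
        · rw [map_mul]; exact mul_ne_zero hs ht
        · rw [map_mul, map_mul, ← hx, ← hy]; ring
      one_mem' := ⟨1, 1, by rw [map_one]; exact one_ne_zero, by simp⟩
      add_mem' := by
        rintro x y ⟨a, s, hs, hx⟩ ⟨b, t, ht, hy⟩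
        refine ⟨a * t + b * s, s * t, ?_, ?_⟩
        · rw [map_mul]; exact mul_ne_zero hs ht
        · rw [map_mul, map_add, map_mul, map_mul, ← hx, ← hy]; ring
      zero_mem' := ⟨0, 1, by rw [map_one]; exact one_ne_zero, by simp⟩
      neg_mem' := by
        rintro x ⟨a, s, hs, hx⟩
        refine ⟨-a, s, hs, ?_⟩
        rw [map_neg, ← hx]; ring }
  have hA : ∀ x : A, ∃ a s : 𝓞 K, φ s ≠ 0 ∧ (x : K) * algebraMap (𝓞 K) K s = algebraMap (𝓞 K) K a :=
    fun x => x.2
  choose a s hs hx using hA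
  have val : ∀ (x : A) (b t : 𝓞 K), φ t ≠ 0 →
      (x : K) * algebraMap (𝓞 K) K t = algebraMap (𝓞 K) K b → φ (a x) / φ (s x) = φ b / φ t := by
    intro x b t ht h
    rw [div_eq_div_iff (hs x) ht, ← map_mul, ← map_mul]
    congr 1
    apply hinj
    rw [map_mul, map_mul, ← hx x, ← h]
    ring
  refine ⟨A, { toFun := fun x => φ (a x) / φ (s x)
               map_one' := ?_
               map_mul' := ?_
               map_zero' := ?_
               map_add' := ?_ }, ?_, ?_⟩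
  · rw [val 1 1 1 (by rw [map_one]; exact one_ne_zero) (by simp)]
    simp
  · intro x y
    show φ (a (x * y)) / φ (s (x * y)) = φ (a x) / φ (s x) * (φ (a y) / φ (s y))
    rw [val (x * y) (a x * a y) (s x * s y) (by rw [map_mul]; exact mul_ne_zero (hs x) (hs y))
      (by rw [map_mul, map_mul, ← hx x, ← hx y, Subring.coe_mul]; ring)]
    rw [map_mul, map_mul, div_mul_div_comm]
  · rw [val 0 0 1 (by rw [map_one]; exact one_ne_zero) (by simp)]
    simp
  · intro x y
    show φ (a (x + y)) / φ (s (x + y)) = φ (a x) / φ (s x) + (φ (a y) / φ (s y))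
    rw [val (x + y) (a x * s y + s x * a y) (s x * s y)
      (by rw [map_mul]; exact mul_ne_zero (hs x) (hs y))
      (by rw [map_mul, map_add, map_mul, map_mul, ← hx x, ← hx y, Subring.coe_add]; ring)]
    rw [map_mul, map_add, map_mul, map_mul, div_add_div _ _ (hs x) (hs y)]
  · intro x
    refine ⟨⟨x, 1, by rw [map_one]; exact one_ne_zero, by simp⟩, ?_⟩
    show φ (a _) / φ (s _) = φ x
    rw [val _ x 1 (by rw [map_one]; exact one_ne_zero) (by simp)]
    simp
  · intro z hz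
    exact hN z q ((Finset.le_sup hz).trans_lt hq) φ

end Pool.Agent.Lib.MP_89bcae_ag.Re

end

section

section

/-!
# Simply transitive groups on a fibre of `g` at a place where the leading coefficient has a simple zero
-/

open Polynomial WithZero

open scoped Classical Pointwise

set_option linter.unusedSimpArgs false
set_option linter.unusedVariables false
set_option linter.unusedSectionVars false
set_option linter.style.haveILetI false

namespace Pool.Agent.Lib.MP_89bcae_ag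

section Aux

variable {K κ : Type*} [Field K] [Field κ] {v : Valuation K ℤᵐ⁰} {q : v.integer →+* κ}


end Aux

section Main

variable {R k K : Type*} [CommRing R] [IsDomain R] [IsDiscreteValuationRing R] [Field k]
    [Algebra R k] [IsFractionRing R k] [Field K] [Algebra k K] [Algebra R K] [IsScalarTower R k K]
    [FiniteDimensional k K] [IsGalois k K]


end Main

end Pool.Agent.Lib.MP_89bcae_ag

end

section

/-!
Simply transitive finite sets of automorphisms on the fibre over any root of `D`.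
-/

open Polynomial WithZero

open scoped Classical Pointwise

set_option linter.unusedSimpArgs false
set_option linter.unusedVariables false
set_option linter.unusedSectionVars false
set_option linter.style.haveILetI false

namespace Pool.Agent.Lib.MP_89bcae_ag


end Pool.Agent.Lib.MP_89bcae_ag

end

section

/-!
The symbol of an automorphism of `F` with respect to a root of unity.
-/

open Polynomial

open scoped Classical

namespace Pool.Agent.Lib.MP_89bcae_ag.Sup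

universe u

/-- The symbol: `U x = ζ ^ κ(z) x` for `x ^ ℓ = z`. -/
noncomputable def kap {F : Type u} [Field F] (ℓ : ℕ) (ζ : F) (U : F → F) (z : F) : ZMod ℓ :=
  if h : ∃ i : ZMod ℓ, ∀ x : F, x ^ ℓ = z → U x = ζ ^ i.val * x then h.choose else 0

section

variable {ℓ : ℕ} {k F : Type u} [Field k] [Field F] [Algebra k F]


end

section

variable {F : Type u} [Field F] [IsAlgClosed F] {ℓ : ℕ} {ζ : F} (U : F ≃+* F)

lemma tk01_ex (hℓ : ℓ.Prime) (hζ : IsPrimitiveRoot ζ ℓ) (hU : U ζ = ζ) {z : F} (hz0 : z ≠ 0)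
    (hz : U z = z) : ∃ i : ZMod ℓ, ∀ x : F, x ^ ℓ = z → U x = ζ ^ i.val * x := by
  have : NeZero ℓ := ⟨hℓ.ne_zero⟩
  obtain ⟨x, hx⟩ := IsAlgClosed.exists_pow_nat_eq z hℓ.pos
  have hx0 : x ≠ 0 := by
    intro h
    rw [h, zero_pow hℓ.ne_zero] at hx
    exact hz0 hx.symm
  have h1 : (U x / x) ^ ℓ = 1 := by
    rw [div_pow, ← map_pow, hx, hz, div_self hz0]
  obtain ⟨i, hi, hi'⟩ := hζ.eq_pow_of_pow_eq_one h1
  have hUx : U x = ζ ^ i * x := by
    rw [hi', div_mul_cancel₀ _ hx0]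
  refine ⟨(i : ZMod ℓ), fun y hy => ?_⟩
  rw [ZMod.val_cast_of_lt hi]
  have h2 : (y / x) ^ ℓ = 1 := by
    rw [div_pow, hx, hy, div_self hz0]
  obtain ⟨j, hj, hj'⟩ := hζ.eq_pow_of_pow_eq_one h2
  have hyx : y = ζ ^ j * x := by
    rw [hj', div_mul_cancel₀ _ hx0]
  rw [hyx, map_mul, map_pow, hU, hUx]
  ring

lemma kap_spec (hℓ : ℓ.Prime) (hζ : IsPrimitiveRoot ζ ℓ) (hU : U ζ = ζ) {z : F} (hz0 : z ≠ 0)
    (hz : U z = z) {x : F} (hx : x ^ ℓ = z) : U x = ζ ^ (kap ℓ ζ U z).val * x := by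
  have h := tk01_ex U hℓ hζ hU hz0 hz
  unfold kap
  rw [dif_pos h]
  exact h.choose_spec x hx

lemma kap_of (hℓ : ℓ.Prime) (hζ : IsPrimitiveRoot ζ ℓ) (hU : U ζ = ζ) {x : F} (hx : x ≠ 0)
    {n : ℤ} (h : U x = ζ ^ n * x) : kap ℓ ζ U (x ^ ℓ) = n := by
  have : NeZero ℓ := ⟨hℓ.ne_zero⟩
  have hζ0 : ζ ≠ 0 := hζ.ne_zero hℓ.ne_zero
  have hz : U (x ^ ℓ) = x ^ ℓ := by
    have h1 : (ζ ^ n) ^ ℓ = 1 := by
      rw [← zpow_natCast, ← zpow_mul, mul_comm, zpow_mul, zpow_natCast, hζ.pow_eq_one, one_zpow]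
    rw [map_pow, h, mul_pow, h1, one_mul]
  have h2 := kap_spec U hℓ hζ hU (pow_ne_zero ℓ hx) hz (rfl : x ^ ℓ = x ^ ℓ)
  rw [h] at h2
  have h3 : ζ ^ n = ζ ^ ((kap ℓ ζ U (x ^ ℓ)).val : ℤ) := by
    rw [zpow_natCast]
    exact mul_right_cancel₀ hx h2
  have h4 : ζ ^ (n - ((kap ℓ ζ U (x ^ ℓ)).val : ℤ)) = 1 := by
    rw [zpow_sub₀ hζ0, h3, div_self]
    exact zpow_ne_zero _ hζ0
  have h5 : (ℓ : ℤ) ∣ n - ((kap ℓ ζ U (x ^ ℓ)).val : ℤ) := (hζ.zpow_eq_one_iff_dvd _).mp h4
  have h6 : ((n - ((kap ℓ ζ U (x ^ ℓ)).val : ℤ) : ℤ) : ZMod ℓ) = 0 :=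
    (ZMod.intCast_zmod_eq_zero_iff_dvd _ _).mpr h5
  rw [Int.cast_sub, Int.cast_natCast, ZMod.natCast_zmod_val, sub_eq_zero] at h6
  exact h6.symm

lemma tk01_root {U : F ≃+* F} (hℓ : ℓ.Prime) (hζ : IsPrimitiveRoot ζ ℓ) (hU : U ζ = ζ) {z : F}
    (hz0 : z ≠ 0) (hz : U z = z) : ∃ x : F, x ≠ 0 ∧ x ^ ℓ = z ∧
      U x = ζ ^ (((kap ℓ ζ U z).val : ℕ) : ℤ) * x := by
  obtain ⟨x, hx⟩ := IsAlgClosed.exists_pow_nat_eq z hℓ.pos
  refine ⟨x, ?_, hx, ?_⟩
  · intro h
    rw [h, zero_pow hℓ.ne_zero] at hx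
    exact hz0 hx.symm
  · rw [zpow_natCast]
    exact kap_spec U hℓ hζ hU hz0 hz hx

lemma kap_mul (hℓ : ℓ.Prime) (hζ : IsPrimitiveRoot ζ ℓ) (hU : U ζ = ζ) {z z' : F}
    (hz0 : z ≠ 0) (hz0' : z' ≠ 0) (hz : U z = z) (hz' : U z' = z') :
    kap ℓ ζ U (z * z') = kap ℓ ζ U z + kap ℓ ζ U z' := by
  have : NeZero ℓ := ⟨hℓ.ne_zero⟩
  have hζ0 : ζ ≠ 0 := hζ.ne_zero hℓ.ne_zero
  obtain ⟨x, hx0, hx, hUx⟩ := tk01_root hℓ hζ hU hz0 hz
  obtain ⟨y, hy0, hy, hUy⟩ := tk01_root hℓ hζ hU hz0' hz'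
  have h := kap_of U hℓ hζ hU (mul_ne_zero hx0 hy0)
    (n := ((kap ℓ ζ U z).val : ℤ) + ((kap ℓ ζ U z').val : ℤ)) (by
      rw [map_mul, hUx, hUy, zpow_add₀ hζ0]
      ring)
  rw [mul_pow, hx, hy, Int.cast_add, Int.cast_natCast, Int.cast_natCast, ZMod.natCast_zmod_val,
    ZMod.natCast_zmod_val] at h
  exact h

lemma kap_zpow (hℓ : ℓ.Prime) (hζ : IsPrimitiveRoot ζ ℓ) (hU : U ζ = ζ) {z : F}
    (hz0 : z ≠ 0) (hz : U z = z) (n : ℤ) : kap ℓ ζ U (z ^ n) = n * kap ℓ ζ U z := by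
  have : NeZero ℓ := ⟨hℓ.ne_zero⟩
  obtain ⟨x, hx0, hx, hUx⟩ := tk01_root hℓ hζ hU hz0 hz
  have h := kap_of U hℓ hζ hU (zpow_ne_zero n hx0) (n := ((kap ℓ ζ U z).val : ℤ) * n) (by
      rw [map_zpow₀, hUx, mul_zpow, ← zpow_mul])
  have h1 : (x ^ n) ^ ℓ = z ^ n := by
    rw [← hx, ← zpow_natCast, ← zpow_natCast, ← zpow_mul, ← zpow_mul, mul_comm]
  rw [h1, Int.cast_mul, Int.cast_natCast, ZMod.natCast_zmod_val, mul_comm] at h
  exact h

lemma tk01_one (hℓ : ℓ.Prime) (hζ : IsPrimitiveRoot ζ ℓ) (hU : U ζ = ζ) : kap ℓ ζ U 1 = 0 := by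
  have h := kap_of U hℓ hζ hU (one_ne_zero) (n := 0) (by rw [map_one, zpow_zero, one_mul])
  rw [one_pow, Int.cast_zero] at h
  exact h

lemma kap_prod (hℓ : ℓ.Prime) (hζ : IsPrimitiveRoot ζ ℓ) (hU : U ζ = ζ) {ι : Type*}
    (S : Finset ι) (z : ι → F) (hz0 : ∀ i ∈ S, z i ≠ 0) (hz : ∀ i ∈ S, U (z i) = z i) :
    kap ℓ ζ U (∏ i ∈ S, z i) = ∑ i ∈ S, kap ℓ ζ U (z i) := by
  induction S using Finset.induction_on with
  | empty => simpa using tk01_one U hℓ hζ hU
  | insert a S ha ih =>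
    rw [Finset.prod_insert ha, Finset.sum_insert ha]
    have h0 : ∀ i ∈ S, z i ≠ 0 := fun i hi => hz0 i (Finset.mem_insert_of_mem hi)
    have h1 : ∀ i ∈ S, U (z i) = z i := fun i hi => hz i (Finset.mem_insert_of_mem hi)
    rw [kap_mul U hℓ hζ hU (hz0 a (Finset.mem_insert_self a S)) (Finset.prod_ne_zero_iff.mpr h0)
      (hz a (Finset.mem_insert_self a S)) (by rw [map_prod]; exact Finset.prod_congr rfl h1),
      ih h0 h1]

lemma kap_eq_zero (hℓ : ℓ.Prime) (hζ : IsPrimitiveRoot ζ ℓ) (hU : U ζ = ζ) {z : F}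
    (hz0 : z ≠ 0) (h : ∀ x, x ^ ℓ = z → U x = x) : kap ℓ ζ U z = 0 := by
  obtain ⟨x, hx⟩ := IsAlgClosed.exists_pow_nat_eq z hℓ.pos
  have hx0 : x ≠ 0 := by
    intro h
    rw [h, zero_pow hℓ.ne_zero] at hx
    exact hz0 hx.symm
  have h1 := kap_of U hℓ hζ hU hx0 (n := 0) (by rw [zpow_zero, one_mul]; exact h x hx)
  rw [hx, Int.cast_zero] at h1
  exact h1

end

end Pool.Agent.Lib.MP_89bcae_ag.Sup

end

section

/-!
# Definitions for the density theorem
-/

open Polynomial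

open scoped Classical

namespace Pool.Agent.Lib.MP_89bcae_ag.Sup

universe u


end Pool.Agent.Lib.MP_89bcae_ag.Sup

end

section

/-!
Kummer duality: automorphisms with prescribed symbols.
-/

open Polynomial

open scoped Classical

set_option linter.unusedSectionVars false
set_option linter.unusedVariables false

namespace Pool.Agent.Lib.MP_89bcae_ag.Sup

universe u

theorem te04_lam_one {k F : Type u} [Field k] [Field F] [Algebra k F] {ℓ : ℕ}
    (K : IntermediateField k F) (lam : F → ZMod ℓ)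
    (hmul : ∀ x ∈ K, ∀ y ∈ K, x ≠ 0 → y ≠ 0 → lam (x * y) = lam x + lam y) : lam 1 = 0 := by
  have h := hmul 1 K.one_mem 1 K.one_mem one_ne_zero one_ne_zero
  rw [mul_one] at h
  exact left_eq_add.1 h

theorem te04_lam_pow {k F : Type u} [Field k] [Field F] [Algebra k F] {ℓ : ℕ}
    (K : IntermediateField k F) (lam : F → ZMod ℓ)
    (hmul : ∀ x ∈ K, ∀ y ∈ K, x ≠ 0 → y ≠ 0 → lam (x * y) = lam x + lam y) {x : F} (hx : x ∈ K)
    (hx0 : x ≠ 0) (n : ℕ) : lam (x ^ n) = n * lam x := by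
  induction n with
  | zero => simp [te04_lam_one K lam hmul]
  | succ n ih =>
    rw [pow_succ, hmul _ (pow_mem hx n) _ hx (pow_ne_zero _ hx0) hx0, ih]
    push_cast
    ring

theorem te04_lam_prod {k F : Type u} [Field k] [Field F] [Algebra k F] {ℓ : ℕ}
    (K : IntermediateField k F) (lam : F → ZMod ℓ)
    (hmul : ∀ x ∈ K, ∀ y ∈ K, x ≠ 0 → y ≠ 0 → lam (x * y) = lam x + lam y) {ι : Type*}
    (S : Finset ι) (z : ι → F) (hz : ∀ i ∈ S, z i ∈ K) (hz0 : ∀ i ∈ S, z i ≠ 0) :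
    lam (∏ i ∈ S, z i) = ∑ i ∈ S, lam (z i) := by
  classical
  induction S using Finset.induction_on with
  | empty => simp [te04_lam_one K lam hmul]
  | insert a S ha ih =>
    rw [Finset.prod_insert ha, Finset.sum_insert ha,
      hmul _ (hz a (Finset.mem_insert_self a S)) _
        (K.prod_mem fun i hi => hz i (Finset.mem_insert_of_mem hi))
        (hz0 a (Finset.mem_insert_self a S))
        (Finset.prod_ne_zero_iff.2 fun i hi => hz0 i (Finset.mem_insert_of_mem hi)),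
      ih (fun i hi => hz i (Finset.mem_insert_of_mem hi))
        (fun i hi => hz0 i (Finset.mem_insert_of_mem hi))]

/-- The symbols of a product of two automorphisms. -/
theorem te04_kap_comp {k F : Type u} [Field k] [Field F] [Algebra k F] [IsAlgClosed F]
    {ℓ : ℕ} (hℓ : ℓ.Prime) {ζ : k} (hζ : IsPrimitiveRoot ζ ℓ) (U V : F ≃ₐ[k] F) {z : F}
    (hz0 : z ≠ 0) (hU : U z = z) (hV : V z = z) :
    kap ℓ (algebraMap k F ζ) (U.trans V) z =
      kap ℓ (algebraMap k F ζ) U z + kap ℓ (algebraMap k F ζ) V z := by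
  have : NeZero ℓ := ⟨hℓ.ne_zero⟩
  have hζF : IsPrimitiveRoot (algebraMap k F ζ) ℓ :=
    hζ.map_of_injective (algebraMap k F).injective
  obtain ⟨x, hx⟩ := IsAlgClosed.exists_pow_nat_eq z hℓ.pos
  have hx0 : x ≠ 0 := by
    rintro rfl
    rw [zero_pow hℓ.ne_zero] at hx
    exact hz0 hx.symm
  have h1 := kap_spec U.toRingEquiv hℓ hζF (by simp) hz0 hU hx
  have h2 := kap_spec V.toRingEquiv hℓ hζF (by simp) hz0 hV hx
  have h3 : (U.trans V).toRingEquiv x = (algebraMap k F ζ) ^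
      (((kap ℓ (algebraMap k F ζ) U z).val + (kap ℓ (algebraMap k F ζ) V z).val : ℕ) : ℤ) * x := by
    rw [zpow_natCast, pow_add]
    show V (U x) = _
    have h1' : U x = (algebraMap k F ζ) ^ (kap ℓ (algebraMap k F ζ) U z).val * x := h1
    have h2' : V x = (algebraMap k F ζ) ^ (kap ℓ (algebraMap k F ζ) V z).val * x := h2
    rw [h1', map_mul, map_pow, V.commutes, h2']
    ring
  have h4 := kap_of (U.trans V).toRingEquiv hℓ hζF (by simp) hx0 h3
  rw [hx] at h4
  have h5 : kap ℓ (algebraMap k F ζ) (U.trans V) z =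
    ((((kap ℓ (algebraMap k F ζ) U z).val + (kap ℓ (algebraMap k F ζ) V z).val : ℕ) : ℤ) : ZMod ℓ) := h4
  rw [h5]
  push_cast
  rw [ZMod.natCast_zmod_val, ZMod.natCast_zmod_val]

theorem te04_kap_id {k F : Type u} [Field k] [Field F] [Algebra k F] [IsAlgClosed F]
    {ℓ : ℕ} (hℓ : ℓ.Prime) {ζ : k} (hζ : IsPrimitiveRoot ζ ℓ) {z : F}
    (hz0 : z ≠ 0) : kap ℓ (algebraMap k F ζ) (AlgEquiv.refl : F ≃ₐ[k] F) z = 0 := by
  have hζF : IsPrimitiveRoot (algebraMap k F ζ) ℓ :=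
    hζ.map_of_injective (algebraMap k F).injective
  exact kap_eq_zero (AlgEquiv.refl : F ≃ₐ[k] F).toRingEquiv hℓ hζF (by simp) hz0 (fun x _ => rfl)

theorem te04_fixed {k F : Type u} [Field k] [Field F] [Algebra k F] [IsAlgClosed F]
    [Algebra.IsAlgebraic k F] {ℓ : ℕ} (hℓ : ℓ.Prime) (hne : (ℓ : k) ≠ 0)
    (K : IntermediateField k F) {y z : F} (hz : z ∈ K) (hz0 : z ≠ 0) (hy : y ^ ℓ = z)
    (hfix : ∀ U : F ≃ₐ[k] F, (∀ x ∈ K, U x = x) → U y = y) : y ∈ K := by
  have halg : Algebra.IsAlgebraic K F := Algebra.IsAlgebraic.tower_top (K := k) K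
  have hneK : (ℓ : K) ≠ 0 := by
    intro h
    apply hne
    have h2 : algebraMap k K (ℓ : k) = 0 := by rw [map_natCast]; exact h
    exact (map_eq_zero_iff _ (algebraMap k K).injective).1 h2
  have hsep : (X ^ ℓ - C (⟨z, hz⟩ : K)).Separable := by
    apply separable_X_pow_sub_C _ hneK
    intro h
    exact hz0 (congrArg Subtype.val h)
  have hroot : aeval y (X ^ ℓ - C (⟨z, hz⟩ : K)) = 0 := by
    rw [map_sub, map_pow, aeval_X, aeval_C, hy]
    exact sub_self _
  have hys : IsSeparable K y := hsep.of_dvd (minpoly.dvd K y hroot)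
  by_contra hcon
  have hn : y ∉ (⊥ : Subalgebra K F) := by
    intro h
    rw [Algebra.mem_bot] at h
    obtain ⟨w, hw⟩ := h
    apply hcon
    rw [← hw]
    exact w.2
  rw [notMem_iff_exists_ne_and_isConjRoot hys (IsAlgClosed.splits _)] at hn
  obtain ⟨y', hne', hconj⟩ := hn
  have hnorm : Normal K F := by
    have : IsAlgClosure K F := ⟨inferInstance, halg⟩
    exact IsAlgClosure.normal K F
  obtain ⟨σ, hσ⟩ := isConjRoot_iff_exists_algEquiv.1 hconj
  have h1 : (σ.symm : F ≃ₐ[K] F) y = y' := by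
    rw [← hσ]; exact σ.symm_apply_apply y'
  have h2 := hfix (σ.symm.restrictScalars k) (fun x hx => by
    have := σ.symm.commutes (⟨x, hx⟩ : K)
    exact this)
  apply hne'
  rw [← h1]
  exact h2.symm

theorem exists_U_of_lam {k F : Type u} [Field k] [Field F] [Algebra k F] [IsAlgClosed F]
    [Algebra.IsAlgebraic k F] {ℓ : ℕ} (hℓ : ℓ.Prime) (hne : (ℓ : k) ≠ 0) {ζ : k}
    (hζ : IsPrimitiveRoot ζ ℓ) (K : IntermediateField k F) (lam : F → ZMod ℓ)
    (hmul : ∀ x ∈ K, ∀ y ∈ K, x ≠ 0 → y ≠ 0 → lam (x * y) = lam x + lam y) (T : Finset F)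
    (hT : ∀ x ∈ T, x ∈ K ∧ x ≠ 0) :
    ∃ U : F ≃ₐ[k] F, (∀ x ∈ K, U x = x) ∧
      ∀ x ∈ T, kap ℓ (algebraMap k F ζ) U x = lam x := by
  classical
  have : NeZero ℓ := ⟨hℓ.ne_zero⟩
  have : Fact ℓ.Prime := ⟨hℓ⟩
  have hζF : IsPrimitiveRoot (algebraMap k F ζ) ℓ :=
    hζ.map_of_injective (algebraMap k F).injective
  let V : AddSubmonoid (T → ZMod ℓ) :=
    { carrier := {v | ∃ U : F ≃ₐ[k] F, (∀ x ∈ K, U x = x) ∧
        ∀ x : T, kap ℓ (algebraMap k F ζ) U x = v x}
      add_mem' := by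
        rintro v w ⟨U, hU, hUv⟩ ⟨U', hU', hUw⟩
        refine ⟨U.trans U', fun x hx => ?_, fun x => ?_⟩
        · show U' (U x) = x
          rw [hU x hx, hU' x hx]
        · rw [te04_kap_comp hℓ hζ U U' (hT x x.2).2 (hU _ (hT x x.2).1) (hU' _ (hT x x.2).1),
            hUv, hUw]
          rfl
      zero_mem' := ⟨AlgEquiv.refl, fun x _ => rfl, fun x => te04_kap_id hℓ hζ (hT x x.2).2⟩ }
  let W : Submodule (ZMod ℓ) (T → ZMod ℓ) :=
    { V with
      smul_mem' := by
        intro c v hv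
        have h : c • v = c.val • v := by
          ext i
          simp only [Pi.smul_apply, smul_eq_mul, nsmul_eq_mul]
          rw [ZMod.natCast_zmod_val]
        rw [h]
        exact V.nsmul_mem hv c.val }
  by_cases hlam : (fun x : T => lam x) ∈ W
  · obtain ⟨U, hU, hUv⟩ := hlam
    exact ⟨U, hU, fun x hx => hUv ⟨x, hx⟩⟩
  exfalso
  obtain ⟨φ, hφ, hφW⟩ := Submodule.exists_le_ker_of_notMem hlam
  let c : T → ℕ := fun x => (φ (Pi.single x 1)).val
  have hφv : ∀ v : T → ZMod ℓ, φ v = ∑ x : T, (c x : ZMod ℓ) * v x := by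
    intro v
    rw [LinearMap.pi_apply_eq_sum_univ φ v]
    apply Finset.sum_congr rfl
    intro x _
    have h1 : (c x : ZMod ℓ) = φ (Pi.single x 1) := ZMod.natCast_zmod_val _
    rw [h1, smul_eq_mul, mul_comm]
    congr 2
    ext i
    simp [Pi.single_apply, eq_comm]
  set z : F := ∏ x : T, (x : F) ^ c x with hzdef
  have hzK : z ∈ K := K.prod_mem fun x _ => pow_mem (hT x x.2).1 _
  have hz0 : z ≠ 0 := Finset.prod_ne_zero_iff.2 fun x _ => pow_ne_zero _ (hT x x.2).2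
  obtain ⟨y, hy⟩ := IsAlgClosed.exists_pow_nat_eq z hℓ.pos
  have hy0 : y ≠ 0 := by
    rintro rfl
    rw [zero_pow hℓ.ne_zero] at hy
    exact hz0 hy.symm
  have hfix : ∀ U : F ≃ₐ[k] F, (∀ x ∈ K, U x = x) → U y = y := by
    intro U hU
    have h1 := kap_prod U.toRingEquiv hℓ hζF (by simp) Finset.univ
      (fun x : T => (x : F) ^ c x) (fun x _ => pow_ne_zero _ (hT x x.2).2)
      (fun x _ => hU _ (pow_mem (hT x x.2).1 _))
    have h2 : ∀ x : T, kap ℓ (algebraMap k F ζ) U.toRingEquiv ((x : F) ^ c x) =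
        (c x : ZMod ℓ) * kap ℓ (algebraMap k F ζ) U x := by
      intro x
      have := kap_zpow U.toRingEquiv hℓ hζF (by simp) (hT x x.2).2 (hU _ (hT x x.2).1) (c x : ℤ)
      rw [zpow_natCast] at this
      rw [this]
      push_cast
      rfl
    have h3 : kap ℓ (algebraMap k F ζ) U.toRingEquiv z = 0 := by
      rw [hzdef, h1, Finset.sum_congr rfl fun x _ => h2 x]
      have h4 : (fun x : T => kap ℓ (algebraMap k F ζ) U x) ∈ W := ⟨U, hU, fun x => rfl⟩
      have h5 := hφW h4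
      rw [LinearMap.mem_ker, hφv] at h5
      exact h5
    have h6 := kap_spec U.toRingEquiv hℓ hζF (by simp) hz0 (hU z hzK) hy
    rw [h3, ZMod.val_zero, pow_zero, one_mul] at h6
    exact h6
  have hyK := te04_fixed hℓ hne K hzK hz0 hy hfix
  have h7 : lam z = 0 := by
    rw [← hy, te04_lam_pow K lam hmul hyK hy0, ZMod.natCast_self, zero_mul]
  have h8 : lam z = φ (fun x : T => lam x) := by
    rw [hφv, hzdef, te04_lam_prod K lam hmul Finset.univ (fun x : T => (x : F) ^ c x)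
      (fun x _ => pow_mem (hT x x.2).1 _) (fun x _ => pow_ne_zero _ (hT x x.2).2)]
    apply Finset.sum_congr rfl
    intro x _
    exact te04_lam_pow K lam hmul (hT x x.2).1 (hT x x.2).2 (c x)
  exact hφ (by rw [← h8]; exact h7)

end Pool.Agent.Lib.MP_89bcae_ag.Sup

end

section

open Polynomial

open scoped Classical

set_option linter.unusedSectionVars false

namespace Pool.Agent.Lib.MP_89bcae_ag.Sup

universe u


end Pool.Agent.Lib.MP_89bcae_ag.Sup

end

section

open Polynomial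

open scoped Classical

set_option linter.unusedSectionVars false

namespace Pool.Agent.Lib.MP_89bcae_ag.Sup

universe u


end Pool.Agent.Lib.MP_89bcae_ag.Sup

end

section

/-!
# The criterion for all towers
-/

open Polynomial

open scoped Classical

set_option linter.unusedSectionVars false

namespace Pool.Agent.Lib.MP_89bcae_ag.Sup

universe u


end Pool.Agent.Lib.MP_89bcae_ag.Sup

end

section

open Polynomial WithZero

open scoped Classical

set_option linter.unusedSimpArgs false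
set_option linter.unusedVariables false
set_option linter.unusedSectionVars false
set_option linter.style.haveILetI false

namespace Pool.Agent.Lib.MP_89bcae_ag.Sup

universe u


end Pool.Agent.Lib.MP_89bcae_ag.Sup

end

end

section

open NumberField Polynomial

namespace Pool.Agent.Lib.MP_89bcae_ag.Re

/-- A number field over which the `ℓ`-th powers of the elements of `T` are seen through the symbol of
`U`. Proof: choose for each nonzero `z ∈ T` an element `x_z ∈ F` with `x_z ^ ℓ = z`; let `x₀` be that of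
`z₀` and for `z ∈ T` let `j_z` be the natural number below `ℓ` with
`kap z = j_z * kap z₀` (`ZMod ℓ` is a field); put `w_z = x_z / x₀ ^ j_z`. By `Sup.kap_spec`
`U x_z = ζ ^ kap(z) x_z`, `U x₀ = ζ ^ kap(z₀) x₀`, so `U w_z = w_z`. Let `E` be the field generated by
the `w_z` over `K`: it is finite over `K` (finitely many algebraic elements) and all its elements are
fixed by `U` (`IntermediateField.adjoin_induction`, or: it is contained in the fixed field). If `y ∈ E`
and `y ^ ℓ = z₀`, then `U y = y`, but `kap_spec` says `U y = ζ ^ kap(z₀) y` with `kap z₀ ≠ 0`, `y ≠ 0`. -/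
theorem exists_field {ℓ : ℕ} (hℓ : ℓ.Prime) (K F : Type) [Field K] [NumberField K] [Field F]
    [Algebra K F] [IsAlgClosure K F] {ζ : K} (hζ : IsPrimitiveRoot ζ ℓ) (U : F ≃ₐ[K] F)
    (T : Finset K) {z₀ : K} (hz₀ : z₀ ≠ 0)
    (hk₀ : Sup.kap ℓ (algebraMap K F ζ) U (algebraMap K F z₀) ≠ 0) :
    ∃ E : IntermediateField K F, FiniteDimensional K E ∧
      (∀ z ∈ T, z ≠ 0 → ∃ (w : E) (j : ℕ), w ≠ 0 ∧
        w ^ ℓ * (algebraMap K E z₀) ^ j = algebraMap K E z ∧
        Sup.kap ℓ (algebraMap K F ζ) U (algebraMap K F z) =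
          j * Sup.kap ℓ (algebraMap K F ζ) U (algebraMap K F z₀)) ∧
      ∀ y : E, y ^ ℓ ≠ algebraMap K E z₀ := by
  classical
  have : Fact ℓ.Prime := ⟨hℓ⟩
  have : NeZero ℓ := ⟨hℓ.ne_zero⟩
  have : IsAlgClosed F := IsAlgClosure.isAlgClosed K
  have halg : Algebra.IsAlgebraic K F := IsAlgClosure.isAlgebraic
  have hζF : IsPrimitiveRoot (algebraMap K F ζ) ℓ :=
    hζ.map_of_injective (algebraMap K F).injective
  have hUζ : U (algebraMap K F ζ) = algebraMap K F ζ := U.commutes ζ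
  have hne : ∀ z : K, z ≠ 0 → algebraMap K F z ≠ 0 := fun z hz =>
    (map_ne_zero_iff _ (algebraMap K F).injective).mpr hz
  have hspec : ∀ (z : K) (x : F), z ≠ 0 → x ^ ℓ = algebraMap K F z →
      U x = algebraMap K F ζ ^ (Sup.kap ℓ (algebraMap K F ζ) U (algebraMap K F z)).val * x :=
    fun z x hz hx => Sup.kap_spec (U : F ≃+* F) hℓ hζF hUζ (hne z hz) (U.commutes z) hx
  choose x hx using fun z : K => IsAlgClosed.exists_pow_nat_eq (algebraMap K F z) hℓ.pos
  have hx0 : ∀ z : K, z ≠ 0 → x z ≠ 0 := by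
    intro z hz h
    apply hne z hz
    rw [← hx z, h, zero_pow hℓ.ne_zero]
  set κ : K → ZMod ℓ := fun z => Sup.kap ℓ (algebraMap K F ζ) U (algebraMap K F z) with hκ
  set j : K → ℕ := fun z => (κ z / κ z₀).val with hj
  have hjκ : ∀ z : K, κ z = (j z : ZMod ℓ) * κ z₀ := by
    intro z
    have h1 : ((j z : ℕ) : ZMod ℓ) = κ z / κ z₀ := ZMod.natCast_zmod_val _
    rw [h1]
    exact (div_mul_cancel₀ _ hk₀).symm
  set w : K → F := fun z => x z / x z₀ ^ j z with hw
  have hw0 : ∀ z : K, z ≠ 0 → w z ≠ 0 := fun z hz =>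
    div_ne_zero (hx0 z hz) (pow_ne_zero _ (hx0 z₀ hz₀))
  have hwℓ : ∀ z : K, w z ^ ℓ * (algebraMap K F z₀) ^ j z = algebraMap K F z := by
    intro z
    have h1 : w z ^ ℓ = algebraMap K F z / (algebraMap K F z₀) ^ j z := by
      rw [hw]
      simp only
      rw [div_pow, hx z, ← pow_mul, mul_comm (j z) ℓ, pow_mul, hx z₀]
    rw [h1]
    exact div_mul_cancel₀ _ (pow_ne_zero _ (hne z₀ hz₀))
  have hpow : ∀ z : K, algebraMap K F ζ ^ (κ z).val = algebraMap K F ζ ^ ((κ z₀).val * j z) := by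
    intro z
    have h1 : (κ z).val ≡ (κ z₀).val * j z [MOD ℓ] := by
      rw [← ZMod.natCast_eq_natCast_iff]
      rw [Nat.cast_mul, ZMod.natCast_zmod_val, ZMod.natCast_zmod_val, hjκ z, mul_comm]
    have h2 : (κ z).val % orderOf (algebraMap K F ζ) =
        ((κ z₀).val * j z) % orderOf (algebraMap K F ζ) := by
      rw [← hζF.eq_orderOf]
      exact h1
    rw [← pow_mod_orderOf, h2, pow_mod_orderOf]
  have hUw : ∀ z : K, z ≠ 0 → U (w z) = w z := by
    intro z hz
    have h1 : U (x z) = algebraMap K F ζ ^ (κ z).val * x z := hspec z (x z) hz (hx z)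
    have h2 : U (x z₀) = algebraMap K F ζ ^ (κ z₀).val * x z₀ := hspec z₀ (x z₀) hz₀ (hx z₀)
    have h3 : algebraMap K F ζ ^ ((κ z₀).val * j z) ≠ 0 :=
      pow_ne_zero _ (hζF.ne_zero hℓ.ne_zero)
    have h4 : U (w z) = U (x z) / U (x z₀) ^ j z := by
      rw [hw]
      simp only
      rw [map_div₀, map_pow]
    rw [h4, h1, h2, hpow z, mul_pow, ← pow_mul]
    exact mul_div_mul_left _ _ h3
  set S : Set F := w '' {z : K | z ∈ T ∧ z ≠ 0} with hS
  have hSfin : S.Finite := by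
    apply Set.Finite.image
    exact T.finite_toSet.subset fun z hz => hz.1
  have : Finite S := hSfin
  have hmem : ∀ z ∈ T, z ≠ 0 → w z ∈ IntermediateField.adjoin K S := fun z hz hz0 =>
    IntermediateField.subset_adjoin K S ⟨z, ⟨hz, hz0⟩, rfl⟩
  have hfix : ∀ y ∈ IntermediateField.adjoin K S, U y = y := by
    intro y hy
    induction hy using IntermediateField.adjoin_induction with
    | mem y hy =>
      obtain ⟨z, hz, rfl⟩ := hy
      exact hUw z hz.2
    | algebraMap a => exact U.commutes a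
    | add a b _ _ ha hb => rw [map_add, ha, hb]
    | inv a _ ha => rw [map_inv₀, ha]
    | mul a b _ _ ha hb => rw [map_mul, ha, hb]
  refine ⟨IntermediateField.adjoin K S,
    IntermediateField.finiteDimensional_adjoin fun y _ => (halg.isAlgebraic y).isIntegral, ?_, ?_⟩
  · intro z hz hz0
    refine ⟨⟨w z, hmem z hz hz0⟩, j z, ?_, ?_, hjκ z⟩
    · intro h
      exact hw0 z hz0 (congrArg Subtype.val h)
    · apply Subtype.ext
      exact hwℓ z
  · intro y hy
    have h1 : (y : F) ^ ℓ = algebraMap K F z₀ := congrArg Subtype.val hy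
    have h2 := hspec z₀ y hz₀ h1
    rw [hfix y y.2] at h2
    have hy0 : (y : F) ≠ 0 := by
      intro h
      apply hne z₀ hz₀
      rw [← h1, h, zero_pow hℓ.ne_zero]
    have h3 : algebraMap K F ζ ^ (κ z₀).val = 1 := by
      have h4 : (1 : F) * y = algebraMap K F ζ ^ (κ z₀).val * y := by
        rw [one_mul]
        exact h2
      exact (mul_right_cancel₀ hy0 h4).symm
    have h5 : ℓ ∣ (κ z₀).val := (hζF.pow_eq_one_iff_dvd _).mp h3
    have h6 : (κ z₀).val = 0 := Nat.eq_zero_of_dvd_of_lt h5 (ZMod.val_lt _)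
    exact hk₀ ((ZMod.val_eq_zero _).mp h6)

end Pool.Agent.Lib.MP_89bcae_ag.Re

end

section

open NumberField Polynomial

namespace Pool.Agent.Lib.MP_89bcae_ag.Re

/-- **A prime with given Kummer symbols, up to a scalar.** Proof: let `E` be the field of
`exists_field` (with `z₀ ∈ T`, `kap z₀ ≠ 0`), a number field. Some `n ≠ 0` in `ℕ` is such that
`b = n ^ ℓ z₀` is in `𝓞 E`; it is not an `ℓ`-th power in `E`. `exists_nonresidue` for `E` (with `ζ` in
`𝓞 E`) and a large bound gives `q` and `φ : 𝓞 E →+* ZMod q` with `φ b ≠ 0` not an `ℓ`-th power.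
`exists_subring` for `E` and the set of the images of `T`, of `ζ`, of `n` and of the `w_z` (all nonzero)
gives `A' ≤ E` and `Φ'`. Let `A` be the inverse image of `A'` in `K` (`Subring.comap`) and `Φ` the
composite. `Φ z₀` is not an `ℓ`-th power, because `Φ' b = (Φ' n) ^ ℓ * Φ z₀` is not; by `exists_symbol`
(`isPrimitiveRoot_map` for `φ ζ`) `(Φ z₀) ^ ((q-1)/ℓ) = (Φ ζ) ^ i.val` with `i ≠ 0`. For `z ∈ T`,
`w_z ^ ℓ z₀ ^ j = z`, so by `symbol_of_pow_mul` the symbol of `Φ z` is `i * j` and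
`kap z = j * kap z₀`: take `c = i / kap z₀`. -/
theorem exists_reduction {ℓ : ℕ} (hℓ : ℓ.Prime) (K F : Type) [Field K] [NumberField K] [Field F]
    [Algebra K F] [IsAlgClosure K F] {ζ : K} (hζ : IsPrimitiveRoot ζ ℓ) (U : F ≃ₐ[K] F)
    (T : Finset K)
    (hT : ∃ z ∈ T, z ≠ 0 ∧ Sup.kap ℓ (algebraMap K F ζ) U (algebraMap K F z) ≠ 0) (N : ℕ) :
    ∃ (q : ℕ) (_ : Fact q.Prime) (A : Subring K) (Φ : A →+* ZMod q) (c : ZMod ℓ) (hζA : ζ ∈ A),
      N < q ∧ ℓ ∣ q - 1 ∧ c ≠ 0 ∧ IsPrimitiveRoot (Φ ⟨ζ, hζA⟩) ℓ ∧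
      ∀ z ∈ T, ∃ hz : z ∈ A, z ≠ 0 → Φ ⟨z, hz⟩ ≠ 0 ∧ (Φ ⟨z, hz⟩) ^ ((q - 1) / ℓ) =
        (Φ ⟨ζ, hζA⟩) ^ (c * Sup.kap ℓ (algebraMap K F ζ) U (algebraMap K F z)).val := by
  obtain ⟨z₀, hz₀T, hz₀, hk₀⟩ := hT
  obtain ⟨E, hfin, hw, hy⟩ := exists_field hℓ K F hζ U T hz₀ hk₀
  have : FiniteDimensional K E := hfin
  have : NumberField E := NumberField.of_module_finite K E
  have : NeZero ℓ := ⟨hℓ.ne_zero⟩
  have : Fact ℓ.Prime := ⟨hℓ⟩
  set kz : K → ZMod ℓ := fun z => Sup.kap ℓ (algebraMap K F ζ) U (algebraMap K F z) with hkz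
  choose! w j hw0 hwz hwk using hw
  set e₀ : E := algebraMap K E z₀ with he₀
  have he₀' : e₀ ≠ 0 := by
    rw [he₀]
    exact (map_ne_zero (algebraMap K E)).2 hz₀
  -- an integral multiple of `z₀`
  obtain ⟨n, hn, hint⟩ : ∃ n : ℕ, n ≠ 0 ∧ IsIntegral ℤ ((n : E) ^ ℓ * e₀) := by
    obtain ⟨y, hy0, hyi⟩ := ((IsFractionRing.isAlgebraic_iff ℤ ℚ E).2
      (Algebra.IsAlgebraic.isAlgebraic e₀)).exists_integral_multiple
    refine ⟨y.natAbs, Int.natAbs_ne_zero.2 hy0, ?_⟩
    have h1 : IsIntegral ℤ ((y.natAbs : E) * e₀) := by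
      rw [zsmul_eq_mul] at hyi
      rcases Int.natAbs_eq y with h | h
      · have h2 : (y : E) = (y.natAbs : E) := by
          conv_lhs => rw [h]
          rw [Int.cast_natCast]
        rw [← h2]; exact hyi
      · have h2 : (y : E) = -(y.natAbs : E) := by
          conv_lhs => rw [h]
          rw [Int.cast_neg, Int.cast_natCast]
        have h3 : (y.natAbs : E) * e₀ = -((y : E) * e₀) := by rw [h2]; ring
        rw [h3]; exact hyi.neg
    have h4 : (y.natAbs : E) ^ ℓ * e₀ = (y.natAbs : E) ^ (ℓ - 1) * ((y.natAbs : E) * e₀) := by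
      rw [← mul_assoc, ← pow_succ, Nat.sub_add_cancel hℓ.one_le]
    rw [h4]
    refine IsIntegral.mul (IsIntegral.pow ?_ _) h1
    exact isIntegral_algebraMap (R := ℤ) (A := E) (x := (y.natAbs : ℤ)) |> fun h => by simpa using h
  have hn' : (n : E) ≠ 0 := Nat.cast_ne_zero.2 hn
  let b : 𝓞 E := ⟨(n : E) ^ ℓ * e₀, hint⟩
  have hbE : (b : E) = (n : E) ^ ℓ * e₀ := rfl
  have hb : b ≠ 0 := by
    intro h
    have h1 : (b : E) = 0 := by rw [h]; rfl
    rw [hbE] at h1
    exact mul_ne_zero (pow_ne_zero _ hn') he₀' h1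
  have hb' : ∀ x : E, x ^ ℓ ≠ b := by
    intro x hx
    apply hy (x / n)
    rw [hbE] at hx
    rw [div_pow, hx, mul_div_cancel_left₀ _ (pow_ne_zero _ hn')]
  have hζ' : IsPrimitiveRoot (algebraMap K E ζ) ℓ :=
    hζ.map_of_injective (algebraMap K E).injective
  set ζE : 𝓞 E := hζ'.toInteger with hζE
  have hζEp : IsPrimitiveRoot ζE ℓ := hζ'.toInteger_isPrimitiveRoot
  have hζEE : (ζE : E) = algebraMap K E ζ := hζ'.coe_toInteger
  -- the finite set
  classical
  let T' : Finset E := T.image (algebraMap K E) ∪ T.image w ∪ {(n : E)}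
  obtain ⟨N₁, hN₁⟩ := exists_subring E T'
  obtain ⟨q, hqp, hq, φ, hφb, hφb'⟩ :=
    exists_nonresidue E hℓ hζEp hb hb' (max N (max N₁ ℓ))
  have : Fact q.Prime := hqp
  have hqN : N < q := lt_of_le_of_lt (le_max_left _ _) hq
  have hqN₁ : N₁ < q := lt_of_le_of_lt ((le_max_left _ _).trans (le_max_right _ _)) hq
  have hqℓ : ℓ < q := lt_of_le_of_lt ((le_max_right _ _).trans (le_max_right _ _)) hq
  obtain ⟨A', Φ', hA', hT'⟩ := hN₁ q hqN₁ φ
  have hne : ∀ x ∈ T', x ≠ 0 → ∀ hx : x ∈ A', Φ' ⟨x, hx⟩ ≠ 0 := by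
    intro x hx hx0 hxA h
    have hi := (hT' x hx).2 hx0
    have h1 : (⟨x, hxA⟩ : A') * ⟨x⁻¹, hi⟩ = 1 := Subtype.ext (mul_inv_cancel₀ hx0)
    have h2 := congrArg Φ' h1
    rw [map_mul, h, zero_mul, map_one] at h2
    exact zero_ne_one h2
  have hmemT : ∀ z ∈ T, algebraMap K E z ∈ T' := fun z hz =>
    Finset.mem_union_left _ (Finset.mem_union_left _ (Finset.mem_image_of_mem _ hz))
  have hmemw : ∀ z ∈ T, w z ∈ T' := fun z hz =>
    Finset.mem_union_left _ (Finset.mem_union_right _ (Finset.mem_image_of_mem _ hz))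
  have hmemn : (n : E) ∈ T' := Finset.mem_union_right _ (Finset.mem_singleton_self _)
  have hnA : (n : E) ∈ A' := (hT' _ hmemn).1
  have hz₀A : e₀ ∈ A' := (hT' _ (hmemT z₀ hz₀T)).1
  obtain ⟨hζA', hζΦ⟩ := hA' ζE
  obtain ⟨hbA', hbΦ⟩ := hA' b
  have hbval : φ b = (Φ' ⟨n, hnA⟩) ^ ℓ * Φ' ⟨e₀, hz₀A⟩ := by
    rw [← hbΦ, ← map_pow, ← map_mul]
    congr 1
  have hpow : ∀ y : ZMod q, y ^ ℓ ≠ Φ' ⟨e₀, hz₀A⟩ := by
    intro y hyy
    apply hφb' (Φ' ⟨n, hnA⟩ * y)
    rw [hbval, mul_pow, hyy]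
  have hζφ : IsPrimitiveRoot (φ ζE) ℓ := isPrimitiveRoot_map hℓ hζEp hqℓ φ
  obtain ⟨hdvd, i, hi0, hi⟩ := exists_symbol hℓ hζφ
    (hne e₀ (hmemT z₀ hz₀T) he₀' hz₀A) hpow
  have hζA : algebraMap K E ζ ∈ A' := hζEE ▸ hζA'
  let A : Subring K := A'.comap (algebraMap K E)
  let g : A →+* A' := (algebraMap K E).restrict A A' (fun x hx => hx)
  have hΦζ : Φ' ⟨algebraMap K E ζ, hζA⟩ = φ ζE := by
    have h1 : (⟨algebraMap K E ζ, hζA⟩ : A') = ⟨(ζE : E), hζA'⟩ := Subtype.ext hζEE.symm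
    rw [h1, hζΦ]
  refine ⟨q, hqp, A, Φ'.comp g, i / kz z₀, hζA, hqN, hdvd, div_ne_zero hi0 hk₀, ?_, ?_⟩
  · show IsPrimitiveRoot (Φ' ⟨algebraMap K E ζ, hζA⟩) ℓ
    rw [hΦζ]; exact hζφ
  · intro z hz
    have hzA : algebraMap K E z ∈ A' := (hT' _ (hmemT z hz)).1
    refine ⟨hzA, fun hz0 => ⟨?_, ?_⟩⟩
    · exact hne _ (hmemT z hz) ((map_ne_zero (algebraMap K E)).2 hz0) hzA
    · show (Φ' ⟨algebraMap K E z, hzA⟩) ^ ((q - 1) / ℓ) =
        (Φ' ⟨algebraMap K E ζ, hζA⟩) ^ (i / kz z₀ * kz z).val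
      have hwA : w z ∈ A' := (hT' _ (hmemw z hz)).1
      have h1 : (Φ' ⟨w z, hwA⟩) ^ ℓ * (Φ' ⟨e₀, hz₀A⟩) ^ (j z) = Φ' ⟨algebraMap K E z, hzA⟩ := by
        rw [← map_pow, ← map_pow, ← map_mul]
        congr 1
        exact Subtype.ext (hwz z hz hz0)
      have h2 := symbol_of_pow_mul hℓ hζφ hdvd (hne _ (hmemw z hz) (hw0 z hz hz0) hwA) h1 hi
      have h3 : i / kz z₀ * kz z = i * (j z : ZMod ℓ) := by
        have h4 : kz z = j z * kz z₀ := hwk z hz hz0
        have h5 : kz z₀ ≠ 0 := hk₀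
        rw [h4]
        field_simp
      rw [h2, hΦζ, h3]

end Pool.Agent.Lib.MP_89bcae_ag.Re

end
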