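import Mathlib
import Pool.Agent.Lib.MP_89bcae_ag.Bk.K003
import Pool.Agent.Lib.MP_89bcae_ag.Bk.K006

namespace Pool.Agent.Lib.MP_89bcae_ag.Wt
end Pool.Agent.Lib.MP_89bcae_ag.Wt
namespace Pool.Agent.Lib.MP_89bcae_ag.Wt.Lns
end Pool.Agent.Lib.MP_89bcae_ag.Wt.Lns

section

/-!
# Comparison of the two forms of the definitions: the converse
-/

open Polynomial IsDedekindDomain

open scoped Classical

namespace Pool.Agent.Lib.MP_89bcae_ag.Bra

universe u

section

variable {L : Type u} [Field L] (ℓ : ℕ) (f : L[X])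

theorem jacN8'_jacMap {A B : Type u} [Field A] [Field B] (σ : A →+* B) {f : A[X]} {f' : B[X]}
    (h : f.map σ = f') (x : Wt.Jac ℓ f) :
    jacN8' ℓ f' (Wt.jacMap ℓ σ h x) = Nrm.jacMap ℓ σ h (jacN8' ℓ f x) := by
  have h1 := jacN8_jacMap ℓ σ h (jacN8' ℓ f x)
  rw [jacN8_jacN8'] at h1
  rw [← h1, jacN8'_jacN8]

theorem jacN8'_push {A B : Type u} [Field A] [Field B] [Algebra L A] [Algebra L B] (σ : A →ₐ[L] B)
    (x : Wt.JacOver ℓ f A) :
    jacN8' ℓ (f.map (algebraMap L B)) (Wt.push ℓ f σ x) =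
      Nrm.push ℓ f σ (jacN8' ℓ (f.map (algebraMap L A)) x) :=
  jacN8'_jacMap ℓ (σ : A →+* B) _ x

variable {Ω : Type u} [Field Ω] [Algebra L Ω]

theorem isTateCocycleN8' {c : ℕ → (Ω ≃ₐ[L] Ω) → Wt.JacOver ℓ f Ω} (hc : Wt.IsTateCocycle ℓ f c) :
    Nrm.IsTateCocycle ℓ f fun n σ => jacN8' ℓ (f.map (algebraMap L Ω)) (c n σ) where
  zero σ := by rw [hc.zero, map_zero]
  smul n σ := by rw [← map_nsmul, hc.smul]
  cocycle n σ τ := by rw [hc.cocycle, map_add, jacN8'_push]
  locallyConstant n := (hc.locallyConstant n).comp _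

theorem isLocallyTrivialN8' {c : (Ω ≃ₐ[L] Ω) → Wt.JacOver ℓ f Ω} (Lv : Type u) [Field Lv]
    [Algebra L Lv] (h : Wt.IsLocallyTrivial ℓ f c Lv) :
    Nrm.IsLocallyTrivial ℓ f (fun σ => jacN8' ℓ (f.map (algebraMap L Ω)) (c σ)) Lv := by
  intro M _ _ _ _ _ j
  obtain ⟨Q, hQ⟩ := h M j
  refine ⟨jacN8' ℓ (f.map (algebraMap L M)) Q, fun g g' hg => ?_⟩
  rw [← jacN8'_push, hQ g g' hg, map_sub, jacN8'_push]

theorem isFixedByN8' {c : ℕ → (Ω ≃ₐ[L] Ω) → Wt.JacOver ℓ f Ω} {γ : Ω ≃+* Ω}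
    {hγ : (f.map (algebraMap L Ω)).map (γ : Ω →+* Ω) = f.map (algebraMap L Ω)}
    (h : Wt.IsFixedBy ℓ f c γ hγ) :
    Nrm.IsFixedBy ℓ f (fun n σ => jacN8' ℓ (f.map (algebraMap L Ω)) (c n σ)) γ hγ := by
  obtain ⟨m, hm, h⟩ := h
  refine ⟨m, hm, fun n => ?_⟩
  obtain ⟨A, hA, h⟩ := h n
  refine ⟨jacN8' ℓ (f.map (algebraMap L Ω)) A, by rw [← map_nsmul, hA, map_zero],
    fun g g' hg => ?_⟩
  have h1 := congrArg (jacN8' ℓ (f.map (algebraMap L Ω))) (h g g' hg)
  rw [map_nsmul, map_sub, map_sub, jacN8'_push, jacN8'_jacMap] at h1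
  exact h1

theorem isTrivialN8' {c : ℕ → (Ω ≃ₐ[L] Ω) → Wt.JacOver ℓ f Ω}
    (h : Nrm.IsTrivial ℓ f fun n σ => jacN8' ℓ (f.map (algebraMap L Ω)) (c n σ)) :
    Wt.IsTrivial ℓ f c := by
  have hinj : Function.Injective (jacN8' ℓ (f.map (algebraMap L Ω))) :=
    Function.LeftInverse.injective (jacN8_jacN8' ℓ _)
  intro n
  obtain ⟨A, hA, h⟩ := h n
  obtain ⟨A', rfl⟩ : ∃ A', jacN8' ℓ (f.map (algebraMap L Ω)) A' = A := ⟨_, jacN8'_jacN8 ℓ _ A⟩
  refine ⟨A', hinj (by rw [map_nsmul, hA, map_zero]), fun g => hinj ?_⟩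
  rw [map_sub, jacN8'_push]
  exact h g

end

/-- The two forms of the property. -/
theorem tateClassesTorsionN8' {ℓ : ℕ} {k F : Type u} {L Ω : Type u} [Field k] [Field F]
    [Algebra k F] [Field L] [Algebra F[X] L] [IsFractionRing F[X] L] [Field Ω] [Algebra L Ω]
    {ι : Type} [Fintype ι] {W : ι → ℕ} {α : ι → k[X]} {k' : IntermediateField k F}
    (h : Nrm.TateClassesTorsionW ℓ L Ω W α k') : Wt.TateClassesTorsionW ℓ L Ω W α k' := by
  have key : ∀ f : L[X], (∀ c : ℕ → (Ω ≃ₐ[L] Ω) → Nrm.JacOver ℓ f Ω, Nrm.IsTateCocycle ℓ f c →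
      (∀ (v : HeightOneSpectrum F[X]) (n : ℕ),
        Nrm.IsLocallyTrivial ℓ f (c n) (v.adicCompletion L)) →
      (∀ (γ : Ω ≃+* Ω) hγ, (∀ p : k'[X], γ (base k' F L Ω p) = base k' F L Ω p) →
        Nrm.IsFixedBy ℓ f c γ hγ) → Nrm.IsTrivial ℓ f fun n g => ℓ • c n g) →
      ∀ c : ℕ → (Ω ≃ₐ[L] Ω) → Wt.JacOver ℓ f Ω, Wt.IsTateCocycle ℓ f c →
      (∀ (v : HeightOneSpectrum F[X]) (n : ℕ),
        Wt.IsLocallyTrivial ℓ f (c n) (v.adicCompletion L)) →
      (∀ (γ : Ω ≃+* Ω) hγ, (∀ p : k'[X], γ (base k' F L Ω p) = base k' F L Ω p) →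
        Wt.IsFixedBy ℓ f c γ hγ) → Wt.IsTrivial ℓ f fun n g => ℓ • c n g := by
    intro f h c hc hloc hfix
    refine isTrivialN8' ℓ f ?_
    have h1 := h _ (isTateCocycleN8' ℓ f hc)
      (fun v n => isLocallyTrivialN8' ℓ f (v.adicCompletion L) (hloc v n))
      (fun γ hγ hp => isFixedByN8' ℓ f (hfix γ hγ hp))
    have h2 : (fun n g => jacN8' ℓ (f.map (algebraMap L Ω)) (ℓ • c n g)) =
        fun n g => ℓ • jacN8' ℓ (f.map (algebraMap L Ω)) (c n g) :=
      funext fun n => funext fun g => map_nsmul _ _ _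
    rw [h2]
    exact h1
  exact key _ h

end Pool.Agent.Lib.MP_89bcae_ag.Bra

end

section

/-!
# The points of the curve over the primes of the affine coordinate ring of the generic fibre
-/

open Polynomial IsDedekindDomain IsLocalRing

open scoped Classical

namespace Pool.Agent.Lib.MP_89bcae_ag.Bra

open Pool.Agent.Lib.MP_89bcae_ag.Wt Pool.Agent.Lib.MP_89bcae_ag.Wt.Lns

section

variable {K : Type} [Field K]
  {L Ω : Type} [Field L] [Field Ω] [Algebra L Ω] {ℓ : ℕ} {f : L[X]} [IsAlgClosure L Ω]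
  [hG : IsGood ℓ (f.map (algebraMap L Ω))] {κ : K →+* FunField ℓ (f.map (algebraMap L Ω))}
  {R : Type} [CommRing R] [Algebra R K]

lemma kappa_integral (h1 : ∀ r : R, ∃ p : L[X],
    κ (algebraMap R K r) = polyF (p.map (algebraMap L Ω))) (a : integralClosure R K) :
    κ (a : K) ∈ integralClosure (Polynomial Ω) (FunField ℓ (f.map (algebraMap L Ω))) := by
  obtain ⟨p, hp, hpa⟩ := (a.2 : IsIntegral R (a : K))
  choose q hq using h1
  let B : Subring (FunField ℓ (f.map (algebraMap L Ω))) :=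
    (polyF : (Polynomial Ω) →+* FunField ℓ (f.map (algebraMap L Ω))).range
  let θ : R →+* B := (κ.comp (algebraMap R K)).codRestrict B
    fun r => ⟨(q r).map (algebraMap L Ω), (hq r).symm⟩
  have h1 : IsIntegral B (κ (a : K)) := by
    refine ⟨p.map θ, hp.map θ, ?_⟩
    rw [eval₂_map]
    have h2 : (algebraMap B (FunField ℓ (f.map (algebraMap L Ω)))).comp θ =
        κ.comp (algebraMap R K) := RingHom.ext fun r => rfl
    rw [h2, ← Polynomial.hom_eval₂, hpa, map_zero]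
  obtain ⟨p', hp', hpa'⟩ := h1
  have h3 : Function.Surjective
      ((polyF : (Polynomial Ω) →+* FunField ℓ (f.map (algebraMap L Ω))).rangeRestrict) :=
    RingHom.rangeRestrict_surjective _
  obtain ⟨p'', hp'', -, hm⟩ := Polynomial.lifts_and_natDegree_eq_and_monic
    ((Polynomial.mem_lifts p').2 (Polynomial.map_surjective _ h3 p')) hp'
  refine ⟨p'', hm, ?_⟩
  rw [← hp'', eval₂_map] at hpa'
  exact hpa'

/-- The embedding of the coordinate rings. -/
noncomputable def kapA (h1 : ∀ r : R, ∃ p : L[X],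
    κ (algebraMap R K r) = polyF (p.map (algebraMap L Ω))) :
    integralClosure R K →+* NRing ℓ (f.map (algebraMap L Ω)) :=
  (κ.comp (algebraMap (integralClosure R K) K)).codRestrict
    (integralClosure (Polynomial Ω) (FunField ℓ (f.map (algebraMap L Ω)))) (kappa_integral h1)

lemma coe_kapA (h1 : ∀ r : R, ∃ p : L[X],
    κ (algebraMap R K r) = polyF (p.map (algebraMap L Ω))) (a : integralClosure R K) :
    algebraMap (NRing ℓ (f.map (algebraMap L Ω))) (FunField ℓ (f.map (algebraMap L Ω)))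
      (kapA h1 a) = κ (a : K) := rfl

end

section

variable {L Ω : Type} [Field L] [Field Ω] [Algebra L Ω] {ℓ : ℕ} {f : L[X]} [IsAlgClosure L Ω]
  [hG : IsGood ℓ (f.map (algebraMap L Ω))] {A : Type} [CommRing A]

/-- The coordinate ring over `Ω` is integral over the one over `L`. -/
lemma isIntegralElem_of (θ : A →+* NRing ℓ (f.map (algebraMap L Ω)))
    (hθ : ∀ p : L[X], ∃ a : A, θ a = ofPoly (p.map (algebraMap L Ω)))
    (b : NRing ℓ (f.map (algebraMap L Ω))) : θ.IsIntegralElem b := by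
  let _ : Algebra A (NRing ℓ (f.map (algebraMap L Ω))) := θ.toAlgebra
  let M := integralClosure A (NRing ℓ (f.map (algebraMap L Ω)))
  have hR : ∀ p : L[X], (ofPoly (p.map (algebraMap L Ω)) : NRing ℓ (f.map (algebraMap L Ω))) ∈ M := by
    intro p
    obtain ⟨a, ha⟩ := hθ p
    rw [← ha]
    exact Subalgebra.algebraMap_mem M a
  have hC : ∀ z : Ω, (ofPoly (C z) : NRing ℓ (f.map (algebraMap L Ω))) ∈ M := by
    intro z
    have hz : IsIntegral L z := (IsAlgClosure.isAlgebraic.isAlgebraic z : IsAlgebraic L z).isIntegral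
    let η : L →+* M := ((ofPoly : (Polynomial Ω) →+* NRing ℓ (f.map (algebraMap L Ω))).comp
      ((C : Ω →+* (Polynomial Ω)).comp (algebraMap L Ω))).codRestrict M.toSubring fun l => by
        have h2 := hR (C l)
        rw [Polynomial.map_C] at h2
        exact h2
    have h3 : IsIntegral M (ofPoly (C z) : NRing ℓ (f.map (algebraMap L Ω))) := by
      obtain ⟨p, hp, hpz⟩ := hz
      refine ⟨p.map η, hp.map η, ?_⟩
      rw [eval₂_map]
      have h4 : (algebraMap M (NRing ℓ (f.map (algebraMap L Ω)))).comp η =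
          ((ofPoly : (Polynomial Ω) →+* NRing ℓ (f.map (algebraMap L Ω))).comp
            (C : Ω →+* (Polynomial Ω))).comp (algebraMap L Ω) := RingHom.ext fun r => rfl
      rw [h4]
      have h5 := Polynomial.hom_eval₂ p (algebraMap L Ω)
        ((ofPoly : (Polynomial Ω) →+* NRing ℓ (f.map (algebraMap L Ω))).comp
          (C : Ω →+* (Polynomial Ω))) z
      rw [hpz, map_zero] at h5
      exact h5.symm
    exact isIntegral_trans (R := A) _ h3
  have hP : ∀ p : (Polynomial Ω), (ofPoly p : NRing ℓ (f.map (algebraMap L Ω))) ∈ M := by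
    intro p
    induction p using Polynomial.induction_on' with
    | add p q hp hq =>
      rw [map_add]
      exact M.add_mem hp hq
    | monomial n z =>
      rw [← C_mul_X_pow_eq_monomial, map_mul, map_pow]
      refine M.mul_mem (hC z) (M.pow_mem ?_ n)
      have h6 := hR X
      rw [Polynomial.map_X] at h6
      exact h6
  have h9 : IsIntegral M b := by
    let η : (Polynomial Ω) →+* M :=
      (ofPoly : (Polynomial Ω) →+* NRing ℓ (f.map (algebraMap L Ω))).codRestrict M.toSubring hP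
    obtain ⟨p, hp, hpb⟩ := (b.2 : IsIntegral (Polynomial Ω) (b : FunField ℓ (f.map (algebraMap L Ω))))
    refine ⟨p.map η, hp.map η, ?_⟩
    rw [eval₂_map]
    apply Subtype.ext
    have h8 := Polynomial.hom_eval₂ p (algebraMap (Polynomial Ω) (NRing ℓ (f.map (algebraMap L Ω))))
      (algebraMap (NRing ℓ (f.map (algebraMap L Ω))) (FunField ℓ (f.map (algebraMap L Ω)))) b
    exact h8.trans hpb
  exact isIntegral_trans (R := A) _ h9

/-- The prime of `A` below a point. -/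
lemma comap_ne_bot [IsDomain A] (θ : A →+* NRing ℓ (f.map (algebraMap L Ω)))
    (hθ : ∀ b, θ.IsIntegralElem b) (P : Pt ℓ (f.map (algebraMap L Ω))) : P.ideal.comap θ ≠ ⊥ := by
  let _ : Algebra A (NRing ℓ (f.map (algebraMap L Ω))) := θ.toAlgebra
  obtain ⟨b, hb, hb0⟩ := Submodule.exists_mem_ne_zero_of_ne_bot P.ideal_ne_bot
  exact Ideal.comap_ne_bot_of_integral_mem hb0 hb (hθ b)

/-- There are points above all the primes of `A`. -/
lemma exists_pt_over [IsDomain A] (θ : A →+* NRing ℓ (f.map (algebraMap L Ω)))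
    (hθ : ∀ b, θ.IsIntegralElem b) (hinj : Function.Injective θ)
    (q : Ideal A) (hq : q.IsMaximal) (hq0 : q ≠ ⊥) :
    ∃ P : Pt ℓ (f.map (algebraMap L Ω)), P.ideal.comap θ = q := by
  let _ : Algebra A (NRing ℓ (f.map (algebraMap L Ω))) := θ.toAlgebra
  have : Algebra.IsIntegral A (NRing ℓ (f.map (algebraMap L Ω))) := ⟨hθ⟩
  have hker : RingHom.ker (algebraMap A (NRing ℓ (f.map (algebraMap L Ω)))) ≤ q := by
    intro a ha
    have h1 : θ a = θ 0 := by rw [map_zero]; exact ha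
    rw [hinj h1]
    exact q.zero_mem
  obtain ⟨Q, hQ, hQq⟩ := Ideal.exists_ideal_over_maximal_of_isIntegral q hker
  have hQ0 : Q ≠ ⊥ := by
    rintro rfl
    apply hq0
    rw [← hQq, eq_bot_iff]
    intro a ha
    have h1 : θ a = θ 0 := by rw [map_zero]; exact ha
    exact hinj h1
  obtain ⟨P, hP⟩ := exists_pt_of_prime Q hQ.isPrime hQ0
  exact ⟨P, by rw [hP]; exact hQq⟩

end

end Pool.Agent.Lib.MP_89bcae_ag.Bra

end
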