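import Mathlib
import Pool.Agent.Lib.MP_89bcae_ag.Bk.K001

section

/-!
# Monotonicity of density one
-/

open Filter Topology

open scoped Classical

namespace Pool.Agent.Lib.MP_89bcae_ag

/-- Monotonicity of density one. -/
theorem density_mono8 {κ : Type} [Fintype κ] (N : ℕ) (hN : Fintype.card κ = N)
    {P Q : (κ → ℤ) → Prop} (hPQ : ∀ v, P v → Q v)
    (h : Tendsto (fun H : ℕ => ({v : κ → ℤ | (∀ i, |v i| ≤ H) ∧ P v}.ncard : ℝ) /
      (2 * H + 1) ^ N) atTop (𝓝 1)) :
    Tendsto (fun H : ℕ => ({v : κ → ℤ | (∀ i, |v i| ≤ H) ∧ Q v}.ncard : ℝ) /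
      (2 * H + 1) ^ N) atTop (𝓝 1) := by
  have hbox : ∀ H : ℕ, {v : κ → ℤ | ∀ i, |v i| ≤ H} =
      ((Fintype.piFinset fun _ : κ => Finset.Icc (-(H : ℤ)) H : Finset (κ → ℤ)) :
        Set (κ → ℤ)) := by
    intro H
    ext v
    rw [Finset.mem_coe, Fintype.mem_piFinset]
    refine forall_congr' fun i => ?_
    rw [Finset.mem_Icc]
    exact abs_le
  have hfin : ∀ (H : ℕ) (R : (κ → ℤ) → Prop), ({v : κ → ℤ | (∀ i, |v i| ≤ H) ∧ R v}).Finite := by
    intro H R
    refine Set.Finite.subset (Finset.finite_toSet
      (Fintype.piFinset fun _ : κ => Finset.Icc (-(H : ℤ)) H)) ?_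
    rw [← hbox]
    exact fun v hv => hv.1
  have hcard : ∀ H : ℕ, ({v : κ → ℤ | ∀ i, |v i| ≤ H}).ncard = (2 * H + 1) ^ N := by
    intro H
    rw [hbox, Set.ncard_coe_finset, Fintype.card_piFinset]
    rw [Finset.prod_const, Finset.card_univ, hN, Int.card_Icc]
    congr 1
    omega
  refine tendsto_of_tendsto_of_tendsto_of_le_of_le h tendsto_const_nhds (fun H => ?_) fun H => ?_
  · have hpos : (0 : ℝ) < (2 * (H : ℝ) + 1) ^ N := by positivity
    rw [div_le_div_iff_of_pos_right hpos]
    have h1 : ({v : κ → ℤ | (∀ i, |v i| ≤ H) ∧ P v}).ncard ≤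
        ({v : κ → ℤ | (∀ i, |v i| ≤ H) ∧ Q v}).ncard :=
      Set.ncard_le_ncard (fun v (hv : (∀ i, |v i| ≤ H) ∧ P v) => ⟨hv.1, hPQ v hv.2⟩) (hfin H Q)
    exact_mod_cast h1
  · have hpos : (0 : ℝ) < (2 * (H : ℝ) + 1) ^ N := by positivity
    rw [div_le_one hpos]
    have h1 : ({v : κ → ℤ | (∀ i, |v i| ≤ H) ∧ Q v}).ncard ≤
        ({v : κ → ℤ | ∀ i, |v i| ≤ H}).ncard := by
      refine Set.ncard_le_ncard (fun v hv => hv.1) ?_
      rw [hbox]
      exact Finset.finite_toSet _
    rw [hcard] at h1
    exact_mod_cast h1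

end Pool.Agent.Lib.MP_89bcae_ag

end

section

/-!
ROW R03 (60-120 lines). Finiteness of the support of the divisor of a function; orders.

PROOF. `HeightOneSpectrum.Support` finiteness: for `h = a / b` with `a, b` in the coordinate ring
the valuation of `h` at `v` is different from `1` only if `v` divides `(a)` or `(b)`
(`Ideal.finite_factors`, `HeightOneSpectrum.valuation_lt_one_iff_dvd`,
`HeightOneSpectrum.Support.finite`), and `P ↦ P.hs` is injective.
-/

open Polynomial IsDedekindDomain

open scoped Classical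

namespace Pool.Agent.Lib.MP_89bcae_ag.Wt

universe u

variable {N : ℕ} {E : Type u} [Field E] {f : E[X]} [hG : IsGood N f]

/-- The point as a prime of the coordinate ring. -/
noncomputable def Pt.hs (P : Pt N f) : HeightOneSpectrum (NRing N f) where
  asIdeal := P.ideal
  isPrime := P.ideal_isMaximal.isPrime
  ne_bot := P.ideal_ne_bot

/-- The order of a nonzero function at a point. -/
noncomputable def ord (P : Pt N f) (h : (FunField N f)ˣ) : ℤ :=
  -(WithZero.log (P.hs.valuation (FunField N f) (h : FunField N f)))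

lemma R03_hs_injective : Function.Injective (Pt.hs : Pt N f → HeightOneSpectrum (NRing N f)) := by
  intro P Q h
  apply Pt.ideal_injective
  exact congrArg HeightOneSpectrum.asIdeal h

lemma R03_val_finite (h : (FunField N f)ˣ) :
    {v : HeightOneSpectrum (NRing N f) | v.valuation (FunField N f) (h : FunField N f) ≠ 1}.Finite := by
  have h1 := HeightOneSpectrum.Support.finite (NRing N f) (h : FunField N f)
  have h2 := HeightOneSpectrum.Support.finite (NRing N f) (((h⁻¹ : (FunField N f)ˣ)) : FunField N f)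
  refine (h1.union h2).subset ?_
  intro v hv
  rcases lt_or_gt_of_ne (show v.valuation (FunField N f) (h : FunField N f) ≠ 1 from hv) with h3 | h3
  · right
    show 1 < v.valuation (FunField N f) (((h⁻¹ : (FunField N f)ˣ)) : FunField N f)
    rw [Units.val_inv_eq_inv_val, map_inv₀]
    have h0 : v.valuation (FunField N f) (h : FunField N f) ≠ 0 :=
      (Valuation.ne_zero_iff _).mpr h.ne_zero
    exact (one_lt_inv₀ (zero_lt_iff.mpr h0)).mpr h3
  · left
    exact h3

lemma ord_finite (h : (FunField N f)ˣ) : (Function.support fun P => ord P h).Finite := by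
  have h1 := R03_val_finite h
  refine (h1.preimage (f := Pt.hs) (R03_hs_injective.injOn)).subset ?_
  intro P hP
  show P.hs.valuation (FunField N f) (h : FunField N f) ≠ 1
  intro h2
  apply hP
  show ord P h = 0
  unfold ord
  rw [h2, WithZero.log_one, neg_zero]

/-- The divisor of a nonzero function on the affine curve. -/
noncomputable def div (h : (FunField N f)ˣ) : Pt N f →₀ ℤ :=
  Finsupp.ofSupportFinite (fun P => ord P h) (ord_finite h)

@[simp] lemma div_apply (h : (FunField N f)ˣ) (P : Pt N f) : div h P = ord P h := rfl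

/-- The class of a point. -/
noncomputable def clPt (P : Pt N f) : Jac N f :=
  Additive.ofMul (ClassGroup.equivPic (NRing N f) (ClassGroup.mk0
    ⟨P.ideal, mem_nonZeroDivisors_of_ne_zero P.ideal_ne_bot⟩))

/-- The class of a divisor. -/
noncomputable def cl : (Pt N f →₀ ℤ) →+ Jac N f :=
  Finsupp.liftAddHom fun P => zmultiplesHom _ (clPt P)

end Pool.Agent.Lib.MP_89bcae_ag.Wt

end

section

/-!
ROW R04 (100-200 lines). Elementary properties of `ord P`, residues.

PROOF. `ord P` is minus the logarithm of the valuation `P.hs.valuation`: multiplicativity and the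
ultrametric inequality are those of the valuation (`Valuation.map_mul`, `Valuation.map_add`).
For `a` in the coordinate ring: `HeightOneSpectrum.valuation_of_algebraMap`,
`intValuation_le_one`, `intValuation_lt_one_iff_mem` (or `_dvd`), and `a ∈ P.ideal` means
`evalPt P a = 0`. Residues: if `ord P h ≥ 0`, i.e. valuation at most one, then `h = a / b` with `a`,
`b` in the coordinate ring and `b ∉ P.ideal` (`HeightOneSpectrum` : the valuation ring is the
localization at the prime; Mathlib: `IsDedekindDomain.HeightOneSpectrum.exists_..._valuation_le_one`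
or: write `h = a / b` arbitrary, choose `c` in the coordinate ring with
`ord P (b c) = ...`; one may also use `IsLocalization.AtPrime` and `mem_integers_of_valuation_le_one`
for the localization). Take for `c` the quotient `evalPt P a / evalPt P b`; then
`h - c = (a - c b) / b` with `a - c b ∈ P.ideal`. Uniqueness: `ord P` of a nonzero constant is `0`.
-/

open Polynomial IsDedekindDomain

open scoped Classical

namespace Pool.Agent.Lib.MP_89bcae_ag.Wt

universe u

variable {N : ℕ} {E : Type u} [Field E] {f : E[X]} [hG : IsGood N f]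

private lemma R04_val_ne_zero (P : Pt N f) (h : (FunField N f)ˣ) :
    P.hs.valuation (FunField N f) (h : FunField N f) ≠ 0 :=
  (Valuation.ne_zero_iff _).mpr h.ne_zero

private lemma R04_ord_nonneg_iff (P : Pt N f) (h : (FunField N f)ˣ) :
    0 ≤ ord P h ↔ P.hs.valuation (FunField N f) (h : FunField N f) ≤ 1 := by
  have h1 := WithZero.log_le_iff_le_exp (a := (0 : ℤ)) (R04_val_ne_zero P h)
  rw [WithZero.exp_zero] at h1
  rw [← h1]
  unfold ord
  omega

private lemma R04_ord_pos_iff (P : Pt N f) (h : (FunField N f)ˣ) :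
    0 < ord P h ↔ P.hs.valuation (FunField N f) (h : FunField N f) < 1 := by
  have h1 := WithZero.log_lt_iff_lt_exp (a := (0 : ℤ)) (R04_val_ne_zero P h)
  rw [WithZero.exp_zero] at h1
  rw [← h1]
  unfold ord
  omega

lemma ord_mul (P : Pt N f) (h h' : (FunField N f)ˣ) : ord P (h * h') = ord P h + ord P h' := by
  unfold ord
  rw [Units.val_mul, map_mul, WithZero.log_mul (R04_val_ne_zero P h) (R04_val_ne_zero P h')]
  ring

lemma ord_one (P : Pt N f) : ord P 1 = 0 := by
  unfold ord
  rw [Units.val_one, map_one, WithZero.log_one, neg_zero]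

lemma ord_inv (P : Pt N f) (h : (FunField N f)ˣ) : ord P h⁻¹ = -ord P h := by
  have h1 := ord_mul P h h⁻¹
  rw [mul_inv_cancel, ord_one] at h1
  omega

lemma ord_pow (P : Pt N f) (h : (FunField N f)ˣ) (n : ℕ) : ord P (h ^ n) = n * ord P h := by
  induction n with
  | zero => rw [pow_zero, ord_one, Nat.cast_zero, zero_mul]
  | succ n ih =>
    rw [pow_succ, ord_mul, ih]
    push_cast
    ring

lemma ord_zpow (P : Pt N f) (h : (FunField N f)ˣ) (n : ℤ) : ord P (h ^ n) = n * ord P h := by
  rcases Int.eq_nat_or_neg n with ⟨m, rfl | rfl⟩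
  · rw [zpow_natCast, ord_pow]
  · rw [zpow_neg, zpow_natCast, ord_inv, ord_pow]
    ring

lemma ord_add (P : Pt N f) (u v w : (FunField N f)ˣ) (h : (w : FunField N f) = u + v) :
    min (ord P u) (ord P v) ≤ ord P w := by
  have h1 : P.hs.valuation (FunField N f) (w : FunField N f) ≤
      max (P.hs.valuation (FunField N f) (u : FunField N f)) (P.hs.valuation (FunField N f) (v : FunField N f)) := by
    rw [h]
    exact Valuation.map_add _ _ _
  rcases le_max_iff.mp h1 with h2 | h2
  · refine (min_le_left _ _).trans ?_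
    have h3 := (WithZero.log_le_log (R04_val_ne_zero P w) (R04_val_ne_zero P u)).mpr h2
    unfold ord
    omega
  · refine (min_le_right _ _).trans ?_
    have h3 := (WithZero.log_le_log (R04_val_ne_zero P w) (R04_val_ne_zero P v)).mpr h2
    unfold ord
    omega

lemma ord_nonneg (P : Pt N f) (a : NRing N f) (u : (FunField N f)ˣ)
    (hu : (u : FunField N f) = algebraMap (NRing N f) (FunField N f) a) : 0 ≤ ord P u := by
  rw [R04_ord_nonneg_iff, hu]
  exact HeightOneSpectrum.valuation_le_one _ _

lemma ord_pos_iff (P : Pt N f) (a : NRing N f) (u : (FunField N f)ˣ)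
    (hu : (u : FunField N f) = algebraMap (NRing N f) (FunField N f) a) : 0 < ord P u ↔ evalPt P a = 0 := by
  rw [R04_ord_pos_iff, hu]
  exact HeightOneSpectrum.valuation_lt_one_iff_mem _ _

/-- The constant function. -/
noncomputable def cst : E →+* FunField N f :=
  (algebraMap (NRing N f) (FunField N f)).comp (ofPoly.comp C)

/-- A nonzero constant, as a unit. -/
noncomputable def cstU : Eˣ →* (FunField N f)ˣ := Units.map (cst : E →+* FunField N f)

lemma ord_cstU (P : Pt N f) (c : Eˣ) : ord P (cstU c) = 0 := by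
  have h1 : 0 ≤ ord P (cstU c) := ord_nonneg P (ofPoly (C (c : E))) (cstU c) rfl
  have h2 : 0 ≤ ord P (cstU c⁻¹) := ord_nonneg P (ofPoly (C ((c⁻¹ : Eˣ) : E))) (cstU c⁻¹) rfl
  rw [map_inv, ord_inv] at h2
  omega

/-- The residue of a function which is regular at `P`. -/
lemma exists_residue_pt (P : Pt N f) (u : (FunField N f)ˣ) (hu : 0 ≤ ord P u) :
    ∃ c : E, ∀ w : (FunField N f)ˣ, (w : FunField N f) = (u : FunField N f) - (cst c : FunField N f) → 0 < ord P w := by
  rw [R04_ord_nonneg_iff] at hu
  obtain ⟨a, ha⟩ := HeightOneSpectrum.exists_valuation_sub_lt_of_integer P.hs hu 1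
  refine ⟨evalPt P a, fun w hw => ?_⟩
  rw [R04_ord_pos_iff]
  have h2 : P.hs.valuation (FunField N f)
      (algebraMap (NRing N f) (FunField N f) (a - ofPoly (C (evalPt P a)))) < 1 := by
    refine (HeightOneSpectrum.valuation_lt_one_iff_mem _ _).mpr ?_
    change evalPt P (a - ofPoly (C (evalPt P a))) = 0
    rw [map_sub, evalPt_ofPoly, eval_C, sub_self]
  have h3 : (w : FunField N f) = -(algebraMap (NRing N f) (FunField N f) a - (u : FunField N f)) +
      algebraMap (NRing N f) (FunField N f) (a - ofPoly (C (evalPt P a))) := by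
    rw [hw, map_sub]
    change (u : FunField N f) - algebraMap (NRing N f) (FunField N f) (ofPoly (C (evalPt P a))) = _
    ring
  rw [h3]
  refine lt_of_le_of_lt (Valuation.map_add _ _ _) (max_lt ?_ h2)
  rw [Valuation.map_neg]
  exact ha

lemma div_mul (h h' : (FunField N f)ˣ) : div (h * h') = div h + div h' := by
  ext P
  simp [ord_mul]

lemma div_one : div (1 : (FunField N f)ˣ) = 0 := by
  ext P
  simp [ord_one]

lemma div_inv (h : (FunField N f)ˣ) : div h⁻¹ = -div h := by
  ext P
  simp [ord_inv]

lemma div_cstU (c : Eˣ) : div (cstU c : (FunField N f)ˣ) = 0 := by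
  ext P
  simp [ord_cstU]

end Pool.Agent.Lib.MP_89bcae_ag.Wt

end
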