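import Mathlib

section

/-!
# Operators on cochains over `ZMod ℓ` given by weights and symbols

`w` are the weights, `c` the symbols: `c {i, j, l}` is the symbol of the triple `i, j, l`, `c {i, j}` that
of the triple of `i`, `j` and the point at infinity.
-/

namespace Pool.Agent.Lib.MP_89bcae_ag.Lr

variable {ι : Type} {ℓ : ℕ}

/-- The operator `κ ↦ (∑ w_l (h_il - g_i) (κ_i - κ_l))_i` on the functions on `S` modulo constants has no
eigenvector. -/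
def GoodR (w : ι → ZMod ℓ) (h : ι → ι → ZMod ℓ) (g : ι → ZMod ℓ) (S : Finset ι) : Prop :=
  ∀ (κ : ι → ZMod ℓ) (z μ : ZMod ℓ),
    (∀ i ∈ S, ∑ l ∈ S, w l * (h i l - g i) * (κ i - κ l) = z * κ i + μ) →
      ∀ i ∈ S, ∀ j ∈ S, κ i = κ j

/-- The operator `ε ↦ (∑ w_l (c_ijl - c_ij) (ε_ij + ε_jl + ε_li))_ij` on the antisymmetric functions of
pairs of elements of `S` modulo gradients has no eigenvector. -/
def GoodT [DecidableEq ι] (w : ι → ZMod ℓ) (c : Finset ι → ZMod ℓ) (S : Finset ι) : Prop :=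
  ∀ (ε : ι → ι → ZMod ℓ) (f : ι → ZMod ℓ) (z : ZMod ℓ),
    (∀ i ∈ S, ∀ j ∈ S, i ≠ j → ε j i = -ε i j) →
    (∀ i ∈ S, ∀ j ∈ S, i ≠ j → ∑ l ∈ S, w l * (c {i, j, l} - c {i, j}) * (ε i j + ε j l + ε l i) =
      z * ε i j + (f i - f j)) →
    ∃ b : ι → ZMod ℓ, ∀ i ∈ S, ∀ j ∈ S, i ≠ j → ε i j = b i - b j

/-- The operator `K` of the pencils. -/
def Kop (w : ι → ZMod ℓ) (h : ι → ι → ZMod ℓ) (P Q : ι → ZMod ℓ) (ω : ZMod ℓ) (S : Finset ι)
    (x : ι → ZMod ℓ) (i : ι) : ZMod ℓ :=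
  ∑ l ∈ S, w l * (h i l - P i) * (x i - x l) + ω * (Q i - P i) * x i + ∑ l ∈ S, w l * Q l * x l

/-- The operator `K - y (1 ⊗ w)` has no eigenvector. -/
def GoodK (w : ι → ZMod ℓ) (h : ι → ι → ZMod ℓ) (P Q : ι → ZMod ℓ) (ω y : ZMod ℓ)
    (S : Finset ι) : Prop :=
  ∀ (x : ι → ZMod ℓ) (z : ZMod ℓ),
    (∀ i ∈ S, Kop w h P Q ω S x i - y * ∑ l ∈ S, w l * x l = z * x i) → ∀ i ∈ S, x i = 0

end Pool.Agent.Lib.MP_89bcae_ag.Lr

end

section

/-!
ROW A01 (120-220 lines). Automorphisms of finite order congruent to `1` modulo `π²`, and modulo `π`.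

Setting: `B` commutative ring, `H` a `B`-module, `ℓ` prime, `z` in `B` with `∑_{i<ℓ} z^i = 0`,
`p = 1 - z`; `p` is injective on `H` and `⋂ p^n H = 0`.
(1) `exists_pi_identity`: there are `v`, `w` in `B` with `p v = ℓ`, `p^(ℓ-1) = ℓ (-1 + p w)`.
 PROOF. `v = ∑_{k<ℓ} ∑_{i<k} z^i` (`(1 - z) ∑_{i<k} z^i = 1 - z^k`). In `ℤ[X]`,
 `(1 - X)^(ℓ-1) - ∑_{i<ℓ} X^i` is divisible by `ℓ` (modulo `ℓ`: `(1-X)^ℓ = 1 - X^ℓ =
 (1-X) ∑ X^i`, cancel `1 - X`), equal to `ℓ W`; at `X = 1`: `W(1) = -1`, so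
 `W = -1 + (1 - X) W₂`; evaluate at `z`.
(2) `ℓ` is injective on `H`: `ℓ x = 0 → p^(ℓ-1) x = 0`. For `n` prime to `ℓ` and `X` in `B`,
 `n + p X` is injective on `H`: if `(n + pX) y = 0` then `n y ∈ pH`, `ℓ y = p v y ∈ pH`, so
 `y = p y₁` (Bezout), `(n + pX) y₁ = 0` by injectivity of `p`, and so on: `y ∈ ⋂ p^n H = 0`.
(3) `sq_case`: `W = 1 + p² Y`, `W^M x = x`, `M > 0` imply `Y x = 0`.
 PROOF. `W^ℓ = 1 + ℓ p² Y (1 + p X₁)`: binomial theorem: the terms `C(ℓ,j) p^{2j} Y^j`,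
 `2 ≤ j < ℓ`, are divisible by `ℓ p² Y · p`; `p^{2ℓ} Y^ℓ = p^{ℓ-1} p^{ℓ+1} Y^ℓ = ℓ (-1+pw) p^{ℓ+1} Y^ℓ`
 too. By induction `W^{ℓ^s} = 1 + ℓ^s p² Y (1 + p X_s)`, and for `M'` prime to `ℓ`,
 `(1 + p² Y')^{M'} = 1 + p² Y' (M' + p X')`. With `M = ℓ^s M'`:
 `0 = (W^M - 1) x = ℓ^s p² (1 + pX)(M' + pX') Y x`; all factors are injective by (2).
(4) `fst_case`: `W = 1 + p N`, `W^M x = x`, `M > 0` imply `(N^ℓ - N) x ∈ p H`.
 PROOF. `W^ℓ = 1 + ℓ p N + ∑_{2≤j<ℓ} C(ℓ,j) p^j N^j + p^ℓ N^ℓ` and `p^ℓ = ℓ p (-1 + p w)`: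
 `W^ℓ = 1 + ℓ p (N - N^ℓ + p X) = 1 + p² Y` with `Y = v (N - N^ℓ + p X)`, and
 `(W^ℓ)^M x = x`, so `Y x = 0` by (3), `p Y = ℓ (N - N^ℓ + pX)`, so `(N^ℓ - N) x = p X x`.
-/

open Polynomial

namespace Pool.Agent.Lib.MP_89bcae_ag.Sup

variable {B H : Type*} [CommRing B] [AddCommGroup H] [Module B H] {ℓ : ℕ}

private lemma A01_poly (hℓ : ℓ.Prime) : ∃ W : ℤ[X],
    (1 - X) ^ (ℓ - 1) - ∑ i ∈ Finset.range ℓ, (X : ℤ[X]) ^ i = C (ℓ : ℤ) * W := by
  have : Fact ℓ.Prime := ⟨hℓ⟩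
  have h1 : ((1 - X : (ZMod ℓ)[X])) ^ (ℓ - 1) = ∑ i ∈ Finset.range ℓ, (X : (ZMod ℓ)[X]) ^ i := by
    have h2 : (1 - X : (ZMod ℓ)[X]) * (1 - X) ^ (ℓ - 1) =
        (1 - X) * ∑ i ∈ Finset.range ℓ, (X : (ZMod ℓ)[X]) ^ i := by
      rw [mul_neg_geom_sum, ← pow_succ', Nat.sub_add_cancel hℓ.one_le, sub_pow_char, one_pow]
    have h3 : (1 - X : (ZMod ℓ)[X]) ≠ 0 := by
      intro h
      have := congrArg (eval 0) h
      simp at this
    exact mul_left_cancel₀ h3 h2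
  have h4 : C (ℓ : ℤ) ∣ (1 - X) ^ (ℓ - 1) - ∑ i ∈ Finset.range ℓ, (X : ℤ[X]) ^ i := by
    rw [C_dvd_iff_dvd_coeff]
    intro i
    rw [← ZMod.intCast_zmod_eq_zero_iff_dvd]
    have h5 : Polynomial.map (Int.castRingHom (ZMod ℓ))
        ((1 - X) ^ (ℓ - 1) - ∑ i ∈ Finset.range ℓ, (X : ℤ[X]) ^ i) = 0 := by
      rw [Polynomial.map_sub, Polynomial.map_pow, Polynomial.map_sub, Polynomial.map_one,
        Polynomial.map_X, Polynomial.map_sum, h1]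
      simp only [Polynomial.map_pow, Polynomial.map_X, sub_self]
    have h6 := congrArg (fun q => coeff q i) h5
    simp only [coeff_map, coeff_zero] at h6
    exact h6
  obtain ⟨W, hW⟩ := h4
  exact ⟨W, hW⟩

lemma exists_pi_identity (hℓ : ℓ.Prime) (z : B) (hz : ∑ i ∈ Finset.range ℓ, z ^ i = 0) :
    ∃ v w : B, (1 - z) * v = ℓ ∧ (1 - z) ^ (ℓ - 1) = ℓ * (-1 + (1 - z) * w) := by
  obtain ⟨W, hW⟩ := A01_poly hℓ
  have hW1 : eval 1 W = -1 := by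
    have h1 := congrArg (eval (1 : ℤ)) hW
    have h2 : ℓ - 1 ≠ 0 := Nat.sub_ne_zero_of_lt hℓ.one_lt
    simp only [eval_sub, eval_pow, eval_one, eval_X, sub_self, eval_finsetSum, one_pow,
      Finset.sum_const, Finset.card_range, eval_mul, eval_C, zero_pow h2, smul_eq_mul,
      nsmul_eq_mul, mul_one] at h1
    have h3 : (ℓ : ℤ) ≠ 0 := by exact_mod_cast hℓ.ne_zero
    have h4 : (ℓ : ℤ) * (eval 1 W + 1) = 0 := by linarith
    have h5 := (mul_eq_zero.1 h4).resolve_left h3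
    linarith
  obtain ⟨W2, hW2⟩ := (X_sub_C_dvd_sub_C_eval (a := (1 : ℤ)) (p := W))
  rw [hW1] at hW2
  have hWz : aeval z W = -1 + (1 - z) * (-aeval z W2) := by
    have h1 := congrArg (aeval z) hW2
    simp only [map_sub, map_mul, aeval_X, aeval_C, map_neg, map_one] at h1
    have h2 : aeval z W = (z - 1) * aeval z W2 - 1 := by
      rw [← h1]
      ring
    rw [h2]
    ring
  refine ⟨∑ k ∈ Finset.range ℓ, ∑ i ∈ Finset.range k, z ^ i, -aeval z W2, ?_, ?_⟩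
  · rw [Finset.mul_sum]
    simp only [mul_neg_geom_sum, Finset.sum_sub_distrib, Finset.sum_const, Finset.card_range,
      nsmul_eq_mul, mul_one]
    rw [hz, sub_zero]
  · have h1 := congrArg (aeval z) hW
    simp only [map_sub, map_mul, map_pow, map_sum, aeval_X, aeval_C, map_one, hz, sub_zero] at h1
    rw [h1, hWz]
    simp

private lemma A01_bin (hℓ : ℓ.Prime) (u : B) :
    ∃ R : B, (1 + u) ^ ℓ = 1 + ℓ * u * (1 + u * R) + u ^ ℓ := by
  have h1 := add_pow_prime_eq hℓ u (1 : B)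
  refine ⟨∑ k ∈ (Finset.Ioo 0 ℓ).erase 1, u ^ (k - 2) * ((ℓ.choose k / ℓ : ℕ) : B), ?_⟩
  have h2 : (1 : ℕ) ∈ Finset.Ioo 0 ℓ := Finset.mem_Ioo.2 ⟨one_pos, hℓ.one_lt⟩
  have h3 : ∑ k ∈ Finset.Ioo 0 ℓ, u ^ (k - 1) * (1 : B) ^ (ℓ - k - 1) *
      ((ℓ.choose k / ℓ : ℕ) : B) = 1 + u * ∑ k ∈ (Finset.Ioo 0 ℓ).erase 1, u ^ (k - 2) *
      ((ℓ.choose k / ℓ : ℕ) : B) := by
    rw [← Finset.add_sum_erase _ _ h2, Finset.mul_sum]
    congr 1
    · rw [Nat.choose_one_right, Nat.div_self hℓ.pos]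
      simp
    · refine Finset.sum_congr rfl fun k hk => ?_
      rw [Finset.mem_erase, Finset.mem_Ioo] at hk
      have h4 : k - 1 = (k - 2) + 1 := by omega
      rw [h4, pow_succ]
      ring
  rw [h3] at h1
  rw [add_comm, h1]
  ring

section

variable {z : B}

private lemma A01_inj_pow (hinj : ∀ x : H, (1 - z) • x = 0 → x = 0) (n : ℕ) (x : H)
    (h : (1 - z) ^ n • x = 0) : x = 0 := by
  induction n with
  | zero => simpa using h
  | succ n ih =>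
    rw [pow_succ', mul_smul] at h
    exact ih (hinj _ h)

private lemma A01_inj_unit (hℓ : ℓ.Prime) (hz : ∑ i ∈ Finset.range ℓ, z ^ i = 0)
    (hinj : ∀ x : H, (1 - z) • x = 0 → x = 0)
    (hsep : ∀ x : H, (∀ n : ℕ, ∃ y : H, x = (1 - z) ^ n • y) → x = 0)
    (a : ℤ) (ha : IsCoprime a (ℓ : ℤ)) (X : B) (y : H) (h : ((a : B) + (1 - z) * X) • y = 0) :
    y = 0 := by
  obtain ⟨v, w, hv, -⟩ := exists_pi_identity (B := B) hℓ z hz
  obtain ⟨c, d, hcd⟩ := ha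
  have key : ∀ n : ℕ, ∃ y' : H, y = (1 - z) ^ n • y' ∧ ((a : B) + (1 - z) * X) • y' = 0 := by
    intro n
    induction n with
    | zero => exact ⟨y, by simp, h⟩
    | succ n ih =>
      obtain ⟨y', h1, h2⟩ := ih
      have h3 : ((c : B) * (a : B) + (d : B) * (ℓ : B)) = 1 := by
        exact_mod_cast congrArg (fun q : ℤ => (q : B)) hcd
      have h4 : y' = (1 - z) • ((-(c : B) * X + d * v) • y') := by
        have h5 : (1 - z) * (-(c : B) * X + d * v) = 1 - (c : B) * ((a : B) + (1 - z) * X) := by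
          linear_combination (d : B) * hv + h3
        rw [← mul_smul, h5, sub_smul, one_smul, mul_smul, h2, smul_zero, sub_zero]
      refine ⟨(-(c : B) * X + d * v) • y', ?_, ?_⟩
      · rw [pow_succ, mul_smul, ← h4]
        exact h1
      · rw [← mul_smul, mul_comm, mul_smul, h2, smul_zero]
  refine hsep y fun n => ?_
  obtain ⟨y', h1, -⟩ := key n
  exact ⟨y', h1⟩

private lemma A01_inj_l (hℓ : ℓ.Prime) (hz : ∑ i ∈ Finset.range ℓ, z ^ i = 0)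
    (hinj : ∀ x : H, (1 - z) • x = 0 → x = 0) (x : H) (h : (ℓ : B) • x = 0) : x = 0 := by
  obtain ⟨v, w, -, hw⟩ := exists_pi_identity (B := B) hℓ z hz
  refine A01_inj_pow hinj (ℓ - 1) x ?_
  rw [hw, mul_comm, mul_smul, h, smul_zero]

private lemma A01_inj_l_pow (hℓ : ℓ.Prime) (hz : ∑ i ∈ Finset.range ℓ, z ^ i = 0)
    (hinj : ∀ x : H, (1 - z) • x = 0 → x = 0) (s : ℕ) (x : H) (h : (ℓ : B) ^ s • x = 0) :
    x = 0 := by
  induction s with
  | zero => simpa using h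
  | succ n ih =>
    rw [pow_succ', mul_smul] at h
    exact ih (A01_inj_l hℓ hz hinj _ h)

private lemma A01_pow_l (hℓ : ℓ.Prime) (hz : ∑ i ∈ Finset.range ℓ, z ^ i = 0) (Y : B) :
    ∃ X : B, (1 + (1 - z) ^ 2 * Y) ^ ℓ = 1 + ℓ * ((1 - z) ^ 2 * Y) * (1 + (1 - z) * X) := by
  obtain ⟨v, w, -, hw⟩ := exists_pi_identity (B := B) hℓ z hz
  obtain ⟨R, hR⟩ := A01_bin hℓ ((1 - z) ^ 2 * Y)
  obtain ⟨m, hm⟩ : ∃ m, ℓ = m + 2 := ⟨ℓ - 2, by have := hℓ.two_le; omega⟩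
  have h1 : ((1 - z) ^ 2 * Y) ^ ℓ = ℓ * ((1 - z) ^ 2 * Y) *
      ((1 - z) * ((-1 + (1 - z) * w) * (1 - z) ^ m * Y ^ (ℓ - 1))) := by
    have h2 : ((1 - z) ^ 2 * Y) ^ ℓ = ((1 - z) ^ 2 * Y) * ((1 - z) ^ (ℓ - 1) *
        (1 - z) ^ (ℓ - 1) * Y ^ (ℓ - 1)) := by
      obtain ⟨k, hk⟩ : ∃ k, ℓ = k + 1 := ⟨ℓ - 1, by have := hℓ.one_le; omega⟩
      rw [hk]
      simp only [Nat.add_sub_cancel]
      rw [pow_succ', mul_pow, ← pow_mul]
      ring
    have h3 : (1 - z) ^ (ℓ - 1) * (1 - z) ^ (ℓ - 1) =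
        (ℓ * (-1 + (1 - z) * w)) * ((1 - z) * (1 - z) ^ m) := by
      nth_rewrite 1 [hw]
      congr 1
      rw [← pow_succ']
      congr 1
      omega
    rw [h2, h3]
    ring
  refine ⟨(1 - z) * Y * R + (-1 + (1 - z) * w) * (1 - z) ^ m * Y ^ (ℓ - 1), ?_⟩
  rw [hR, h1]
  ring

private lemma A01_pow_ls (hℓ : ℓ.Prime) (hz : ∑ i ∈ Finset.range ℓ, z ^ i = 0) (Y : B) (s : ℕ) :
    ∃ X : B, (1 + (1 - z) ^ 2 * Y) ^ (ℓ ^ s) =
      1 + (1 - z) ^ 2 * ((ℓ : B) ^ s * Y * (1 + (1 - z) * X)) := by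
  induction s with
  | zero => exact ⟨0, by simp⟩
  | succ s ih =>
    obtain ⟨X, hX⟩ := ih
    obtain ⟨X', hX'⟩ := A01_pow_l hℓ hz ((ℓ : B) ^ s * Y * (1 + (1 - z) * X))
    refine ⟨X + X' + (1 - z) * X * X', ?_⟩
    rw [show ℓ ^ (s + 1) = ℓ ^ s * ℓ from pow_succ _ _, pow_mul, hX, hX']
    ring

private lemma A01_pow_M (u : B) (M : ℕ) : ∃ R : B, (1 + u) ^ M = 1 + u * (M + u * R) := by
  induction M with
  | zero => exact ⟨0, by simp⟩
  | succ n ih =>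
    obtain ⟨R, hR⟩ := ih
    refine ⟨R + n + u * R, ?_⟩
    rw [pow_succ, hR]
    push_cast
    ring

private lemma A01_fix {W : B} {x : H} (h : W • x = x) (n : ℕ) : W ^ n • x = x := by
  induction n with
  | zero => simp
  | succ n ih => rw [pow_succ, mul_smul, h, ih]

end

lemma sq_case (hℓ : ℓ.Prime) (z : B) (hz : ∑ i ∈ Finset.range ℓ, z ^ i = 0)
    (hinj : ∀ x : H, (1 - z) • x = 0 → x = 0)
    (hsep : ∀ x : H, (∀ n : ℕ, ∃ y : H, x = (1 - z) ^ n • y) → x = 0)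
    (Y : B) (x : H) (M : ℕ) (hM : 0 < M) (hx : (1 + (1 - z) ^ 2 * Y) ^ M • x = x) :
    Y • x = 0 := by
  obtain ⟨s, M', hM', hMe⟩ := Nat.exists_eq_pow_mul_and_not_dvd hM.ne' ℓ hℓ.ne_one
  obtain ⟨X, hX⟩ := A01_pow_ls hℓ hz Y s
  obtain ⟨R, hR⟩ := A01_pow_M ((1 - z) ^ 2 * ((ℓ : B) ^ s * Y * (1 + (1 - z) * X))) M'
  have hcop : IsCoprime (M' : ℤ) (ℓ : ℤ) := by
    rw [Nat.isCoprime_iff_coprime]
    exact ((Nat.Prime.coprime_iff_not_dvd hℓ).2 hM').symm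
  rw [hMe, pow_mul, hX, hR, add_smul, one_smul, add_eq_left] at hx
  have e : (1 - z) ^ 2 * ((ℓ : B) ^ s * Y * (1 + (1 - z) * X)) *
      ((M' : B) + (1 - z) ^ 2 * ((ℓ : B) ^ s * Y * (1 + (1 - z) * X)) * R) =
      (1 - z) ^ 2 * ((ℓ : B) ^ s * ((((1 : ℤ) : B) + (1 - z) * X) * ((((M' : ℤ) : B) + (1 - z) *
        ((1 - z) * ((ℓ : B) ^ s * Y * (1 + (1 - z) * X)) * R)) * Y))) := by
    push_cast
    ring
  rw [e, mul_smul, mul_smul, mul_smul, mul_smul] at hx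
  have h1 := A01_inj_pow hinj _ _ hx
  have h2 := A01_inj_l_pow hℓ hz hinj _ _ h1
  have h3 := A01_inj_unit hℓ hz hinj hsep 1 isCoprime_one_left _ _ h2
  exact A01_inj_unit hℓ hz hinj hsep _ hcop _ _ h3

lemma fst_case (hℓ : ℓ.Prime) (z : B) (hz : ∑ i ∈ Finset.range ℓ, z ^ i = 0)
    (hinj : ∀ x : H, (1 - z) • x = 0 → x = 0)
    (hsep : ∀ x : H, (∀ n : ℕ, ∃ y : H, x = (1 - z) ^ n • y) → x = 0)
    (N : B) (x : H) (M : ℕ) (hM : 0 < M) (hx : (1 + (1 - z) * N) ^ M • x = x) :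
    ∃ y : H, (N ^ ℓ - N) • x = (1 - z) • y := by
  obtain ⟨v, w, hv, hw⟩ := exists_pi_identity (B := B) hℓ z hz
  obtain ⟨R, hR⟩ := A01_bin hℓ ((1 - z) * N)
  have h1 : ((1 - z) * N) ^ ℓ = ℓ * ((1 - z) * ((-1 + (1 - z) * w) * N ^ ℓ)) := by
    have h2 : (1 - z) ^ ℓ = (1 - z) * (1 - z) ^ (ℓ - 1) := by
      rw [← pow_succ', Nat.sub_add_cancel hℓ.one_le]
    rw [mul_pow, h2, hw]
    ring
  have hW : (1 + (1 - z) * N) ^ ℓ = 1 + (1 - z) ^ 2 * (v * (N - N ^ ℓ + (1 - z) *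
      (N * N * R + w * N ^ ℓ))) := by
    have h3 : (1 + (1 - z) * N) ^ ℓ = 1 + (ℓ : B) * ((1 - z) * (N - N ^ ℓ + (1 - z) *
      (N * N * R + w * N ^ ℓ))) := by
      rw [hR, h1]
      ring
    rw [h3, ← hv]
    ring
  have hx' : (1 + (1 - z) ^ 2 * (v * (N - N ^ ℓ + (1 - z) *
      (N * N * R + w * N ^ ℓ)))) ^ M • x = x := by
    rw [← hW, ← pow_mul, mul_comm ℓ M, pow_mul]
    exact A01_fix hx ℓ
  have h4 := sq_case hℓ z hz hinj hsep _ x M hM hx'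
  have h5 : (N - N ^ ℓ + (1 - z) * (N * N * R + w * N ^ ℓ)) • x = 0 := by
    refine A01_inj_l hℓ hz hinj _ ?_
    rw [← hv, ← mul_smul, mul_assoc, mul_smul, h4, smul_zero]
  refine ⟨(N * N * R + w * N ^ ℓ) • x, ?_⟩
  rw [← mul_smul, ← sub_eq_zero, ← sub_smul]
  have e : N ^ ℓ - N - (1 - z) * (N * N * R + w * N ^ ℓ) =
      -(N - N ^ ℓ + (1 - z) * (N * N * R + w * N ^ ℓ)) := by ring
  rw [e, neg_smul, h5, neg_zero]

end Pool.Agent.Lib.MP_89bcae_ag.Sup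

end

section

namespace Pool.Agent.Lib.MP_89bcae_ag.Lr

variable {ι : Type} {ℓ : ℕ}

/-- A function without zeros and with weighted sum zero. Proof: two elements `i ≠ j` of `S`
(`Finset.one_lt_card`); take `κ = 1` on the other elements; let `R` be the sum of the other `w_l`; need
`w_i κ_i + w_j κ_j = - R` with `κ_i, κ_j ≠ 0`: `κ_i = a / w_i`, `κ_j = (- R - a) / w_j` with `a ≠ 0`,
`a ≠ - R`; such an `a` exists because `ℓ ≥ 3` (`a = 1`, or `a = -1` (if `R = -1`), `1 ≠ -1`). -/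
theorem exists_ne_zero_sum_zero [Fact ℓ.Prime] (h2 : ℓ ≠ 2) {w : ι → ZMod ℓ} {S : Finset ι}
    (hS : 2 ≤ S.card) (hw : ∀ i ∈ S, w i ≠ 0) :
    ∃ κ : ι → ZMod ℓ, (∀ i ∈ S, κ i ≠ 0) ∧ ∑ i ∈ S, w i * κ i = 0 := by
  classical
  obtain ⟨i, hi, j, hj, hij⟩ := Finset.one_lt_card.mp (show 1 < S.card by omega)
  have hwi := hw i hi
  have hwj := hw j hj
  set R : ZMod ℓ := ∑ l ∈ (S.erase i).erase j, w l with hR
  have hone : (1 : ZMod ℓ) ≠ -1 := by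
    intro h
    have h3 : ((2 : ℕ) : ZMod ℓ) = 0 := by
      push_cast
      linear_combination h
    rw [ZMod.natCast_eq_zero_iff] at h3
    have := (Nat.prime_dvd_prime_iff_eq (Fact.out : ℓ.Prime) Nat.prime_two).mp h3
    exact h2 this
  obtain ⟨a, ha0, haR⟩ : ∃ a : ZMod ℓ, a ≠ 0 ∧ -R - a ≠ 0 := by
    by_cases hR1 : R = -1
    · refine ⟨-1, by simp, ?_⟩
      rw [hR1]
      intro h
      exact hone (by linear_combination h)
    · refine ⟨1, one_ne_zero, ?_⟩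
      intro h
      exact hR1 (by linear_combination -h)
  refine ⟨fun l => if l = i then a / w i else if l = j then (-R - a) / w j else 1, ?_, ?_⟩
  · intro l _
    beta_reduce
    split_ifs with h3 h4
    · exact div_ne_zero ha0 hwi
    · exact div_ne_zero haR hwj
    · exact one_ne_zero
  · beta_reduce
    have hj' : j ∈ S.erase i := Finset.mem_erase.mpr ⟨fun h => hij h.symm, hj⟩
    rw [← Finset.add_sum_erase S _ hi, ← Finset.add_sum_erase (S.erase i) _ hj']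
    have h5 : ∑ x ∈ (S.erase i).erase j,
        w x * (if x = i then a / w i else if x = j then (-R - a) / w j else 1) = R := by
      rw [hR]
      refine Finset.sum_congr rfl (fun x hx => ?_)
      have hxj : x ≠ j := (Finset.mem_erase.mp hx).1
      have hxi : x ≠ i := (Finset.mem_erase.mp (Finset.mem_erase.mp hx).2).1
      rw [if_neg hxi, if_neg hxj, mul_one]
    rw [h5, if_pos rfl, if_neg (fun h => hij h.symm), if_pos rfl]
    field_simp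
    ring

/-- Not all `g` are good. Proof: `κ` from `exists_ne_zero_sum_zero`; `g_i = (∑ w_l h_il (κ_i - κ_l)) /
(W κ_i)` with `W = ∑ w_l`; then `∑_l w_l (h_il - g_i) (κ_i - κ_l) = 0` for all `i ∈ S`
(`∑_l w_l (κ_i - κ_l) = W κ_i - 0`), so `GoodR` (with `z = μ = 0`) would imply that `κ` is constant on `S`,
equal to some `a ≠ 0`, and `∑ w_i κ_i = W a ≠ 0`. -/
theorem exists_not_goodR [Fact ℓ.Prime] (h2 : ℓ ≠ 2) {w : ι → ZMod ℓ} (h : ι → ι → ZMod ℓ)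
    {S : Finset ι} (hS : 2 ≤ S.card) (hw : ∀ i ∈ S, w i ≠ 0) (hs : ∑ l ∈ S, w l ≠ 0) :
    ∃ g : ι → ZMod ℓ, ¬ GoodR w h g S := by
  obtain ⟨κ, hκ, hsum⟩ := exists_ne_zero_sum_zero h2 hS hw
  refine ⟨fun i => (∑ l ∈ S, w l * h i l * (κ i - κ l)) / ((∑ l ∈ S, w l) * κ i), ?_⟩
  intro hg
  have hconst := hg κ 0 0 (by
    intro i hi
    beta_reduce
    have hκi := hκ i hi
    set g : ZMod ℓ := (∑ l ∈ S, w l * h i l * (κ i - κ l)) / ((∑ l ∈ S, w l) * κ i) with hgdef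
    have h3 : ∑ l ∈ S, w l * (h i l - g) * (κ i - κ l) =
        ∑ l ∈ S, w l * h i l * (κ i - κ l) - g * ((∑ l ∈ S, w l) * κ i) + g * ∑ l ∈ S, w l * κ l := by
      rw [Finset.sum_mul, Finset.mul_sum, Finset.mul_sum, ← Finset.sum_sub_distrib, ← Finset.sum_add_distrib]
      exact Finset.sum_congr rfl (fun l _ => by ring)
    rw [h3, hsum, hgdef, div_mul_cancel₀ _ (mul_ne_zero hs hκi)]
    ring)
  have hne : S.Nonempty := Finset.card_pos.mp (by omega)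
  obtain ⟨i, hi⟩ := hne
  have h4 : (∑ l ∈ S, w l) * κ i = 0 := by
    rw [← hsum, Finset.sum_mul]
    exact Finset.sum_congr rfl (fun l hl => by rw [hconst i hi l hl])
  exact (mul_ne_zero hs (hκ i hi)) h4

end Pool.Agent.Lib.MP_89bcae_ag.Lr

end

section

namespace Pool.Agent.Lib.MP_89bcae_ag.Lr

variable {ι : Type} {ℓ : ℕ}

/-- One more element `b`, for `GoodT`. Proof: let `ε, f, z` satisfy the hypotheses on `insert b S`.
(a) For `i ≠ j` in `S` the term `l = b` of the sum is zero (`c' {i, j, b} = c {i, j} = c' {i, j}`; note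
`{i, j, b} = {b, i, j}`), and the terms `l = i`, `l = j` are zero on both sides (`{i, j, i} = {i, j}` as
finsets). So the hypotheses of `hT` hold on `S` and there is `b₀` with `ε i j = b₀ i - b₀ j` for `i ≠ j` in
`S`. (b) Then the left side of the equation for `i ≠ j` in `S` is `0` (for `l ≠ i, j` in `S` the sum
`ε i j + ε j l + ε l i` is `0`), so `z (b₀ i - b₀ j) + f i - f j = 0`: `z b₀ i + f i = m` for all `i ∈ S`
(`S` is not empty). (c) Put `κ i = ε b i + b₀ i` for `i ∈ S`. The equation for `b, i`: the terms `l = b`,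
`l = i` are zero, for the other `l` in `S`, `c' {b, i, l} = c {i, l}`, `c' {b, i} = g i`,
`ε b i + ε i l + ε l b = κ i - κ l`. So
`∑ w_l (c {i, l} - g i) (κ i - κ l) = z ε b i + f b - f i = z κ i + (f b - m)`, and `κ` is constant on `S`
by `hR`, `κ i = κ₀`. (d) Take `b₀` extended by `b ↦ κ₀` (`Function.update b₀ b κ₀`; on `S` it is `b₀`). -/
theorem goodT_insert [DecidableEq ι] {w : ι → ZMod ℓ} {c c' : Finset ι → ZMod ℓ}
    {g : ι → ZMod ℓ} {S : Finset ι} (hS : S.Nonempty) {b : ι} (hb : b ∉ S) (hT : GoodT w c S)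
    (hR : GoodR w (fun i l => c {i, l}) g S)
    (h1 : ∀ i ∈ S, ∀ j ∈ S, ∀ l ∈ S, i ≠ j → j ≠ l → i ≠ l → c' {i, j, l} = c {i, j, l})
    (h2 : ∀ i ∈ S, ∀ j ∈ S, i ≠ j → c' {i, j} = c {i, j})
    (h3 : ∀ i ∈ S, ∀ j ∈ S, i ≠ j → c' {b, i, j} = c {i, j})
    (h4 : ∀ i ∈ S, c' {b, i} = g i) :
    GoodT w c' (insert b S) := by
  intro ε f z hanti heq
  have hne : ∀ i ∈ S, b ≠ i := fun i hi h => hb (h ▸ hi)
  have e1 : ∀ i j : ι, ({i, j, i} : Finset ι) = {i, j} := by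
    intro i j; ext x; simp only [Finset.mem_insert, Finset.mem_singleton]; tauto
  have e2 : ∀ i j : ι, ({i, j, j} : Finset ι) = {i, j} := by
    intro i j; ext x; simp only [Finset.mem_insert, Finset.mem_singleton]; tauto
  have e3 : ∀ i j k : ι, ({i, j, k} : Finset ι) = {k, i, j} := by
    intro i j k; ext x; simp only [Finset.mem_insert, Finset.mem_singleton]; tauto
  have ha : ∀ i ∈ S, ∀ j ∈ S, i ≠ j → ∀ F : ι → ZMod ℓ,
      ∑ l ∈ insert b S, w l * (c' {i, j, l} - c' {i, j}) * F l =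
        ∑ l ∈ S, w l * (c {i, j, l} - c {i, j}) * F l := by
    intro i hi j hj hij F
    rw [Finset.sum_insert hb, e3 i j b, h3 i hi j hj hij, h2 i hi j hj hij, sub_self, mul_zero,
      zero_mul, zero_add]
    refine Finset.sum_congr rfl fun l hl => ?_
    by_cases hli : i = l
    · subst hli
      rw [e1 i j, h2 i hi j hj hij]
    · by_cases hlj : j = l
      · subst hlj
        rw [e2 i j, h2 i hi j hj hij]
      · rw [h1 i hi j hj l hl hij hlj hli]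
  obtain ⟨b₀, hb₀⟩ := hT ε f z
    (fun i hi j hj hij => hanti i (Finset.mem_insert_of_mem hi) j (Finset.mem_insert_of_mem hj) hij)
    (fun i hi j hj hij => by
      rw [← ha i hi j hj hij (fun l => ε i j + ε j l + ε l i)]
      exact heq i (Finset.mem_insert_of_mem hi) j (Finset.mem_insert_of_mem hj) hij)
  have hb2 : ∀ i ∈ S, ∀ j ∈ S, z * b₀ i + f i = z * b₀ j + f j := by
    intro i hi j hj
    by_cases hij : i = j
    · rw [hij]
    have h := heq i (Finset.mem_insert_of_mem hi) j (Finset.mem_insert_of_mem hj) hij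
    rw [ha i hi j hj hij (fun l => ε i j + ε j l + ε l i)] at h
    have h0 : ∑ l ∈ S, w l * (c {i, j, l} - c {i, j}) * (ε i j + ε j l + ε l i) = 0 := by
      refine Finset.sum_eq_zero fun l hl => ?_
      by_cases hli : i = l
      · subst hli
        rw [e1 i j, sub_self, mul_zero, zero_mul]
      · by_cases hlj : j = l
        · subst hlj
          rw [e2 i j, sub_self, mul_zero, zero_mul]
        · rw [hb₀ i hi j hj hij, hb₀ j hj l hl hlj, hb₀ l hl i hi (Ne.symm hli)]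
          ring
    rw [h0, hb₀ i hi j hj hij] at h
    linear_combination -h
  obtain ⟨s, hs⟩ := hS
  have hκ := hR (fun i => ε b i + b₀ i) z (f b - (z * b₀ s + f s)) (by
    intro i hi
    have h := heq b (Finset.mem_insert_self b S) i (Finset.mem_insert_of_mem hi) (hne i hi)
    rw [Finset.sum_insert hb, e1 b i, sub_self, mul_zero, zero_mul, zero_add] at h
    have h' : ∑ l ∈ S, w l * (c {i, l} - g i) * ((ε b i + b₀ i) - (ε b l + b₀ l)) =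
        ∑ l ∈ S, w l * (c' {b, i, l} - c' {b, i}) * (ε b i + ε i l + ε l b) := by
      refine Finset.sum_congr rfl fun l hl => ?_
      by_cases hil : i = l
      · subst hil
        rw [e2 b i]
        ring
      · rw [h3 i hi l hl hil, h4 i hi, hb₀ i hi l hl hil,
          hanti b (Finset.mem_insert_self b S) l (Finset.mem_insert_of_mem hl) (hne l hl)]
        ring
    rw [h', h]
    have := hb2 i hi s hs
    linear_combination -this)
  refine ⟨Function.update b₀ b (ε b s + b₀ s), ?_⟩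
  intro i hi j hj hij
  rw [Finset.mem_insert] at hi hj
  rcases hi with rfl | hi
  · rcases hj with rfl | hj
    · exact absurd rfl hij
    · rw [Function.update_self, Function.update_of_ne (Ne.symm hij)]
      have := hκ j hj s hs
      linear_combination this
  · rcases hj with rfl | hj
    · rw [Function.update_self, Function.update_of_ne hij,
        hanti _ (Finset.mem_insert_self _ S) i (Finset.mem_insert_of_mem hi) (Ne.symm hij)]
      have := hκ i hi s hs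
      linear_combination -this
    · rw [Function.update_of_ne (hne i hi).symm, Function.update_of_ne (hne j hj).symm]
      exact hb₀ i hi j hj hij

end Pool.Agent.Lib.MP_89bcae_ag.Lr

end

section

namespace Pool.Agent.Lib.MP_89bcae_ag.Lr

variable {ι : Type} {ℓ : ℕ}

/-- Existence of an irreducible quadratic of the given shape. -/
theorem exists_irreducible [Fact ℓ.Prime] (h2 : ℓ ≠ 2) {W e : ZMod ℓ} (hW : W ≠ 0) (he : e ≠ 0)
    (hWe : W + 2 * e ≠ 0) :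
    ∃ X Y : ZMod ℓ, ∀ Z : ZMod ℓ, Z ^ 2 - (W + e) * (X + Y) * Z + W * (W + 2 * e) * X * Y ≠ 0 := by
  have hch : ringChar (ZMod ℓ) ≠ 2 := by
    rw [ZMod.ringChar_zmod_n]; exact h2
  obtain ⟨r, hr⟩ := FiniteField.exists_nonsquare (F := ZMod ℓ) hch
  have h20 : (2 : ZMod ℓ) ≠ 0 := Ring.two_ne_zero hch
  have hD : W * (W + 2 * e) ≠ 0 := mul_ne_zero hW hWe
  have key : ∃ p m : ZMod ℓ, ¬ IsSquare (e ^ 2 * p ^ 2 + W * (W + 2 * e) * m ^ 2) := by
    by_cases hs : IsSquare (W * (W + 2 * e))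
    · obtain ⟨d, hd⟩ := hs
      have hd0 : d ≠ 0 := by
        rintro rfl
        exact hD (by rw [hd]; ring)
      obtain ⟨a, b, hab⟩ := ZMod.sq_add_sq ℓ r
      refine ⟨a / e, b / d, ?_⟩
      have : e ^ 2 * (a / e) ^ 2 + W * (W + 2 * e) * (b / d) ^ 2 = r := by
        rw [hd, ← hab]
        field_simp
      rw [this]; exact hr
    · refine ⟨0, 1, ?_⟩
      have : e ^ 2 * 0 ^ 2 + W * (W + 2 * e) * 1 ^ 2 = W * (W + 2 * e) := by ring
      rw [this]; exact hs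
  obtain ⟨p, m, hpm⟩ := key
  refine ⟨(p + m) / 2, (p - m) / 2, fun Z hZ => hpm ⟨2 * Z - (W + e) * p, ?_⟩⟩
  have h1 : (p + m) / 2 + (p - m) / 2 = p := by field_simp; ring
  have h3 : (4 : ZMod ℓ) * ((p + m) / 2 * ((p - m) / 2)) = p ^ 2 - m ^ 2 := by
    field_simp; ring
  rw [h1] at hZ
  linear_combination (-4) * hZ + (W * (W + 2 * e)) * h3

end Pool.Agent.Lib.MP_89bcae_ag.Lr

end

section

namespace Pool.Agent.Lib.MP_89bcae_ag.Lr

variable {ι : Type} {ℓ : ℕ}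

/-- Four elements, from `GoodR` to `GoodT`. Proof: let `ε, f, z` satisfy the hypotheses and
`φ(i, j, l) = ε i j + ε j l + ε l i`, `ψ₄ = φ(1, 2, 3)`, `ψ₃ = - φ(1, 2, 4)`, `ψ₂ = φ(1, 3, 4)`,
`ψ₁ = - φ(2, 3, 4)`; their sum is `0`. In the equations the terms `l = i`, `l = j` are zero. The sum of the
equations of the pairs `(1, 2), (2, 3), (3, 1)` is
`z ψ₄ = w₃ (g₄ - c₁₂) ψ₄ - w₄ (g₃ - c₁₂) ψ₃ + w₁ (g₄ - c₂₃) ψ₄ - w₄ (g₁ - c₂₃) ψ₁ + w₂ (g₄ - c₁₃) ψ₄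
- w₄ (g₂ - c₁₃) ψ₂`; here `c₁₂ = c₃₄`, `c₂₃ = c₁₄`, `c₁₃ = c₂₄`. In the same way for each `k`:
`z ψ_k = ∑_{l ≠ k} (w_l (g_k - c_kl) ψ_k - w_k (g_l - c_kl) ψ_l)`. Put `κ_k = ψ_k / w_k`; `∑ w_l κ_l = 0`,
so `∑_l w_l (c_kl - g_k) (κ_k - κ_l) = - z κ_k - ∑_l w_l g_l κ_l`. By `hR` `κ` is constant on `S`, and it is
zero because `W κ_k = ∑ w_l κ_l = 0`. So all the `φ` are zero; take `b i = ε i s₁` for `i ≠ s₁`,
`b s₁ = 0`. -/
theorem goodT_four [DecidableEq ι] [Fact ℓ.Prime] {w : ι → ZMod ℓ} {c : Finset ι → ZMod ℓ}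
    {g : ι → ZMod ℓ} {s₁ s₂ s₃ s₄ : ι} (h12 : s₁ ≠ s₂) (h13 : s₁ ≠ s₃) (h14 : s₁ ≠ s₄)
    (h23 : s₂ ≠ s₃) (h24 : s₂ ≠ s₄) (h34 : s₃ ≠ s₄) (hw1 : w s₁ ≠ 0) (hw2 : w s₂ ≠ 0)
    (hw3 : w s₃ ≠ 0) (hw4 : w s₄ ≠ 0) (hW : w s₁ + w s₂ + w s₃ + w s₄ ≠ 0)
    (hR : GoodR w (fun i l => c {i, l}) g {s₁, s₂, s₃, s₄})
    (c1 : c {s₁, s₂} = c {s₃, s₄}) (c2 : c {s₁, s₃} = c {s₂, s₄}) (c3 : c {s₁, s₄} = c {s₂, s₃})
    (c4 : c {s₁, s₂, s₃} = g s₄) (c5 : c {s₁, s₂, s₄} = g s₃) (c6 : c {s₁, s₃, s₄} = g s₂)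
    (c7 : c {s₂, s₃, s₄} = g s₁) :
    GoodT w c {s₁, s₂, s₃, s₄} := by
  intro ε f z hanti heq
  have m1 : s₁ ∈ ({s₁, s₂, s₃, s₄} : Finset ι) := by simp
  have m2 : s₂ ∈ ({s₁, s₂, s₃, s₄} : Finset ι) := by simp
  have m3 : s₃ ∈ ({s₁, s₂, s₃, s₄} : Finset ι) := by simp
  have m4 : s₄ ∈ ({s₁, s₂, s₃, s₄} : Finset ι) := by simp
  have e21 : ε s₂ s₁ = - ε s₁ s₂ := hanti _ m1 _ m2 h12
  have e31 : ε s₃ s₁ = - ε s₁ s₃ := hanti _ m1 _ m3 h13
  have e41 : ε s₄ s₁ = - ε s₁ s₄ := hanti _ m1 _ m4 h14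
  have e32 : ε s₃ s₂ = - ε s₂ s₃ := hanti _ m2 _ m3 h23
  have e42 : ε s₄ s₂ = - ε s₂ s₄ := hanti _ m2 _ m4 h24
  have e43 : ε s₄ s₃ = - ε s₃ s₄ := hanti _ m3 _ m4 h34
  have hsum : ∀ F : ι → ZMod ℓ,
      ∑ l ∈ ({s₁, s₂, s₃, s₄} : Finset ι), F l = F s₁ + F s₂ + F s₃ + F s₄ := by
    intro F
    rw [Finset.sum_insert (by simp [h12, h13, h14]), Finset.sum_insert (by simp [h23, h24]),
      Finset.sum_insert (by simp [h34]), Finset.sum_singleton]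
    ring
  have hl : ∀ a b : ι, ({a, b, a} : Finset ι) = {a, b} := by
    intro a b; ext x; simp; tauto
  have hr : ∀ a b : ι, ({a, b, b} : Finset ι) = {a, b} := by
    intro a b; ext x; simp
  have t132 : ({s₁, s₃, s₂} : Finset ι) = {s₁, s₂, s₃} := by ext x; simp; tauto
  have t142 : ({s₁, s₄, s₂} : Finset ι) = {s₁, s₂, s₄} := by ext x; simp; tauto
  have t143 : ({s₁, s₄, s₃} : Finset ι) = {s₁, s₃, s₄} := by ext x; simp; tauto
  have t231 : ({s₂, s₃, s₁} : Finset ι) = {s₁, s₂, s₃} := by ext x; simp; tauto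
  have t241 : ({s₂, s₄, s₁} : Finset ι) = {s₁, s₂, s₄} := by ext x; simp; tauto
  have t243 : ({s₂, s₄, s₃} : Finset ι) = {s₂, s₃, s₄} := by ext x; simp; tauto
  have t341 : ({s₃, s₄, s₁} : Finset ι) = {s₁, s₃, s₄} := by ext x; simp; tauto
  have t342 : ({s₃, s₄, s₂} : Finset ι) = {s₂, s₃, s₄} := by ext x; simp; tauto
  have E12 := heq _ m1 _ m2 h12
  have E13 := heq _ m1 _ m3 h13
  have E14 := heq _ m1 _ m4 h14
  have E23 := heq _ m2 _ m3 h23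
  have E24 := heq _ m2 _ m4 h24
  have E34 := heq _ m3 _ m4 h34
  rw [hsum, hl, hr, c4, c5, c1] at E12
  rw [hsum, hl, hr, t132, c4, c6, c2] at E13
  rw [hsum, hl, hr, t142, t143, c5, c6, c3] at E14
  rw [hsum, hl, hr, t231, c4, c7] at E23
  rw [hsum, hl, hr, t241, t243, c5, c7] at E24
  rw [hsum, hl, hr, t341, t342, c6, c7] at E34
  simp only [sub_self, mul_zero, zero_mul, zero_add, add_zero, e21, e31, e41, e32, e42, e43] at E12
  simp only [sub_self, mul_zero, zero_mul, zero_add, add_zero, e21, e31, e41, e32, e42, e43] at E13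
  simp only [sub_self, mul_zero, zero_mul, zero_add, add_zero, e21, e31, e41, e32, e42, e43] at E14
  simp only [sub_self, mul_zero, zero_mul, zero_add, add_zero, e21, e31, e41, e32, e42, e43] at E23
  simp only [sub_self, mul_zero, zero_mul, zero_add, add_zero, e21, e31, e41, e32, e42, e43] at E24
  simp only [sub_self, mul_zero, zero_mul, zero_add, add_zero, e21, e31, e41, e32, e42, e43] at E34
  have P4 : z * (ε s₁ s₂ + ε s₂ s₃ - ε s₁ s₃) =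
      (w s₃ * (g s₄ - c {s₃, s₄}) + w s₁ * (g s₄ - c {s₂, s₃}) + w s₂ * (g s₄ - c {s₂, s₄})) *
        (ε s₁ s₂ + ε s₂ s₃ - ε s₁ s₃)
      - w s₄ * (g s₃ - c {s₃, s₄}) * (-(ε s₁ s₂ + ε s₂ s₄ - ε s₁ s₄))
      - w s₄ * (g s₁ - c {s₂, s₃}) * (-(ε s₂ s₃ + ε s₃ s₄ - ε s₂ s₄))
      - w s₄ * (g s₂ - c {s₂, s₄}) * (ε s₁ s₃ + ε s₃ s₄ - ε s₁ s₄) := by
    linear_combination -(E12 + E23 - E13)
  have P3 : z * (-(ε s₁ s₂ + ε s₂ s₄ - ε s₁ s₄)) =
      (w s₄ * (g s₃ - c {s₃, s₄}) + w s₁ * (g s₃ - c {s₂, s₄}) + w s₂ * (g s₃ - c {s₂, s₃})) *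
        (-(ε s₁ s₂ + ε s₂ s₄ - ε s₁ s₄))
      - w s₃ * (g s₄ - c {s₃, s₄}) * (ε s₁ s₂ + ε s₂ s₃ - ε s₁ s₃)
      - w s₃ * (g s₁ - c {s₂, s₄}) * (-(ε s₂ s₃ + ε s₃ s₄ - ε s₂ s₄))
      - w s₃ * (g s₂ - c {s₂, s₃}) * (ε s₁ s₃ + ε s₃ s₄ - ε s₁ s₄) := by
    linear_combination (E12 + E24 - E14)
  have P2 : z * (ε s₁ s₃ + ε s₃ s₄ - ε s₁ s₄) =
      (w s₄ * (g s₂ - c {s₂, s₄}) + w s₁ * (g s₂ - c {s₃, s₄}) + w s₃ * (g s₂ - c {s₂, s₃})) *
        (ε s₁ s₃ + ε s₃ s₄ - ε s₁ s₄)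
      - w s₂ * (g s₄ - c {s₂, s₄}) * (ε s₁ s₂ + ε s₂ s₃ - ε s₁ s₃)
      - w s₂ * (g s₁ - c {s₃, s₄}) * (-(ε s₂ s₃ + ε s₃ s₄ - ε s₂ s₄))
      - w s₂ * (g s₃ - c {s₂, s₃}) * (-(ε s₁ s₂ + ε s₂ s₄ - ε s₁ s₄)) := by
    linear_combination -(E13 + E34 - E14)
  have P1 : z * (-(ε s₂ s₃ + ε s₃ s₄ - ε s₂ s₄)) =
      (w s₄ * (g s₁ - c {s₂, s₃}) + w s₂ * (g s₁ - c {s₃, s₄}) + w s₃ * (g s₁ - c {s₂, s₄})) *
        (-(ε s₂ s₃ + ε s₃ s₄ - ε s₂ s₄))
      - w s₁ * (g s₄ - c {s₂, s₃}) * (ε s₁ s₂ + ε s₂ s₃ - ε s₁ s₃)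
      - w s₁ * (g s₂ - c {s₃, s₄}) * (ε s₁ s₃ + ε s₃ s₄ - ε s₁ s₄)
      - w s₁ * (g s₃ - c {s₂, s₄}) * (-(ε s₁ s₂ + ε s₂ s₄ - ε s₁ s₄)) := by
    linear_combination (E23 + E34 - E24)
  obtain ⟨k4, hk4⟩ : ∃ k4, ε s₁ s₂ + ε s₂ s₃ - ε s₁ s₃ = w s₄ * k4 :=
    ⟨(w s₄)⁻¹ * (ε s₁ s₂ + ε s₂ s₃ - ε s₁ s₃), by rw [mul_inv_cancel_left₀ hw4]⟩
  obtain ⟨k3, hk3⟩ : ∃ k3, -(ε s₁ s₂ + ε s₂ s₄ - ε s₁ s₄) = w s₃ * k3 :=
    ⟨(w s₃)⁻¹ * (-(ε s₁ s₂ + ε s₂ s₄ - ε s₁ s₄)), by rw [mul_inv_cancel_left₀ hw3]⟩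
  obtain ⟨k2, hk2⟩ : ∃ k2, ε s₁ s₃ + ε s₃ s₄ - ε s₁ s₄ = w s₂ * k2 :=
    ⟨(w s₂)⁻¹ * (ε s₁ s₃ + ε s₃ s₄ - ε s₁ s₄), by rw [mul_inv_cancel_left₀ hw2]⟩
  obtain ⟨k1, hk1⟩ : ∃ k1, -(ε s₂ s₃ + ε s₃ s₄ - ε s₂ s₄) = w s₁ * k1 :=
    ⟨(w s₁)⁻¹ * (-(ε s₂ s₃ + ε s₃ s₄ - ε s₂ s₄)), by rw [mul_inv_cancel_left₀ hw1]⟩
  have hsum0 : w s₁ * k1 + w s₂ * k2 + w s₃ * k3 + w s₄ * k4 = 0 := by
    rw [← hk1, ← hk2, ← hk3, ← hk4]; ring
  rw [hk1, hk2, hk3, hk4] at P1 P2 P3 P4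
  -- the function `κ`
  let κ : ι → ZMod ℓ := fun i => if i = s₁ then k1 else if i = s₂ then k2 else if i = s₃ then k3
    else k4
  have κ1 : κ s₁ = k1 := by simp [κ]
  have κ2 : κ s₂ = k2 := by simp [κ, h12.symm]
  have κ3 : κ s₃ = k3 := by simp [κ, h13.symm, h23.symm]
  have κ4 : κ s₄ = k4 := by simp [κ, h14.symm, h24.symm, h34.symm]
  have p21 : ({s₂, s₁} : Finset ι) = {s₁, s₂} := Finset.pair_comm _ _
  have p31 : ({s₃, s₁} : Finset ι) = {s₁, s₃} := Finset.pair_comm _ _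
  have p41 : ({s₄, s₁} : Finset ι) = {s₁, s₄} := Finset.pair_comm _ _
  have p32 : ({s₃, s₂} : Finset ι) = {s₂, s₃} := Finset.pair_comm _ _
  have p42 : ({s₄, s₂} : Finset ι) = {s₂, s₄} := Finset.pair_comm _ _
  have p43 : ({s₄, s₃} : Finset ι) = {s₃, s₄} := Finset.pair_comm _ _
  have hk := hR κ (-z) (-(w s₁ * g s₁ * k1 + w s₂ * g s₂ * k2 + w s₃ * g s₃ * k3 +
    w s₄ * g s₄ * k4)) (by
      intro i hi
      rw [hsum, κ1, κ2, κ3, κ4]
      simp only [Finset.mem_insert, Finset.mem_singleton] at hi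
      rcases hi with hi | hi | hi | hi
      · rw [hi, κ1]
        beta_reduce
        rw [c1, c2, c3]
        apply mul_left_cancel₀ hw1
        linear_combination P1 + w s₁ * g s₁ * hsum0
      · rw [hi, κ2]
        beta_reduce
        rw [p21, c1]
        apply mul_left_cancel₀ hw2
        linear_combination P2 + w s₂ * g s₂ * hsum0
      · rw [hi, κ3]
        beta_reduce
        rw [p31, p32, c2]
        apply mul_left_cancel₀ hw3
        linear_combination P3 + w s₃ * g s₃ * hsum0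
      · rw [hi, κ4]
        beta_reduce
        rw [p41, p42, p43, c3]
        apply mul_left_cancel₀ hw4
        linear_combination P4 + w s₄ * g s₄ * hsum0)
  have k21 : k2 = k1 := by rw [← κ1, ← κ2]; exact hk _ m2 _ m1
  have k31 : k3 = k1 := by rw [← κ1, ← κ3]; exact hk _ m3 _ m1
  have k41 : k4 = k1 := by rw [← κ1, ← κ4]; exact hk _ m4 _ m1
  have k10 : k1 = 0 := by
    have h : (w s₁ + w s₂ + w s₃ + w s₄) * k1 = 0 := by
      rw [k21, k31, k41] at hsum0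
      linear_combination hsum0
    rcases mul_eq_zero.mp h with h | h
    · exact absurd h hW
    · exact h
  rw [k21, k10, mul_zero] at hk2
  rw [k31, k10, mul_zero] at hk3
  rw [k41, k10, mul_zero] at hk4
  rw [k10, mul_zero] at hk1
  refine ⟨fun i => if i = s₁ then 0 else ε i s₁, ?_⟩
  intro i hi j hj hij
  simp only [Finset.mem_insert, Finset.mem_singleton] at hi hj
  rcases hi with hi | hi | hi | hi <;> rcases hj with hj | hj | hj | hj <;> subst hi <;> subst hj <;>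
    first
    | exact absurd rfl hij
    | (simp only [h12, h13, h14, h23, h24, h34, h12.symm, h13.symm, h14.symm, h23.symm, h24.symm,
        h34.symm, if_true, if_false, e21, e31, e41, e32, e42, e43]
       first
       | ring1
       | linear_combination hk4
       | linear_combination -hk4
       | linear_combination hk3
       | linear_combination -hk3
       | linear_combination hk2
       | linear_combination -hk2)

end Pool.Agent.Lib.MP_89bcae_ag.Lr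

end

section

namespace Pool.Agent.Lib.MP_89bcae_ag.Lr

variable {ι : Type} {ℓ : ℕ}

/-- Two more elements `b`, `b'` with the same weight `e`, for `GoodR`. Proof: `X, Y` from
`exists_irreducible` for `W = ∑ w_l`; take `y - X`, `y - Y`. Let `κ, z, μ` satisfy the equations on
`insert b (insert b' S)`. For `i ∈ S` the terms `l = b`, `l = b'` are zero (`h' i b = g i = g' i`), so `κ`
is constant on `S` by `hR`, equal to `m` (`S` is not empty), and `0 = z m + μ`. Put `x = κ b - m`,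
`x' = κ b' - m`, `G = ∑ w_l g_l`, `Z = z - G + W y`. The equation at `b`:
`∑_{l ∈ S} w_l (g l - y + X) x + e X (x - x') = z x`, so `((W + e) X - Z) x = e X x'`; the equation at
`b'`: `((W + e) Y - Z) x' = e Y x`. Multiply: if `x ≠ 0` or `x' ≠ 0` then
`((W + e) X - Z) ((W + e) Y - Z) - e ^ 2 X Y = 0` (determinant), which is excluded. So `x = x' = 0`. -/
theorem exists_goodR_insert₂ [DecidableEq ι] [Fact ℓ.Prime] (hℓ2 : ℓ ≠ 2) {w : ι → ZMod ℓ}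
    {h : ι → ι → ZMod ℓ} {g : ι → ZMod ℓ} {S : Finset ι} (hS : S.Nonempty) {b b' : ι}
    (hb : b ∉ S) (hb' : b' ∉ S) (hbb' : b ≠ b') {e : ZMod ℓ} (hwb : w b = e) (hwb' : w b' = e)
    (hW : ∑ l ∈ S, w l ≠ 0) (he : e ≠ 0) (hWe : ∑ l ∈ S, w l + 2 * e ≠ 0)
    (hR : GoodR w h g S) (y : ZMod ℓ) :
    ∃ X' Y' : ZMod ℓ, ∀ (h' : ι → ι → ZMod ℓ) (g' : ι → ZMod ℓ),
      (∀ i ∈ S, ∀ l ∈ S, i ≠ l → h' i l = h i l) → (∀ i ∈ S, h' i b = g i) →
      (∀ i ∈ S, h' i b' = g i) → (∀ i ∈ S, h' b i = g i) → (∀ i ∈ S, h' b' i = g i) →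
      h' b b' = y → h' b' b = y → (∀ i ∈ S, g' i = g i) → g' b = X' → g' b' = Y' →
      GoodR w h' g' (insert b (insert b' S)) := by
  obtain ⟨X, Y, hXY⟩ := exists_irreducible (ℓ := ℓ) hℓ2 hW he hWe
  refine ⟨y - X, y - Y, ?_⟩
  intro h' g' h1 h2 h3 h4 h5 h6 h7 h8 h9 h10 κ z μ hE
  have hb1 : b ∉ insert b' S := by
    rw [Finset.mem_insert]; rintro (h | h)
    · exact hbb' h
    · exact hb h
  have hsum : ∀ f : ι → ZMod ℓ, ∑ l ∈ insert b (insert b' S), f l = f b + (f b' + ∑ l ∈ S, f l) := by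
    intro f
    rw [Finset.sum_insert hb1, Finset.sum_insert hb']
  have hS1 : ∀ i ∈ S, i ∈ insert b (insert b' S) := fun i hi =>
    Finset.mem_insert_of_mem (Finset.mem_insert_of_mem hi)
  -- equations on S
  have hEq : ∀ i ∈ S, ∑ l ∈ S, w l * (h i l - g i) * (κ i - κ l) = z * κ i + μ := by
    intro i hi
    have := hE i (hS1 i hi)
    rw [hsum, h2 i hi, h3 i hi, h8 i hi] at this
    simp only [sub_self, mul_zero, zero_mul, zero_add] at this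
    rw [← this]
    refine Finset.sum_congr rfl fun l hl => ?_
    by_cases hil : i = l
    · subst hil; simp
    · rw [h1 i hi l hl hil]
  have hc := hR κ z μ hEq
  obtain ⟨i0, hi0⟩ := hS
  have hm : ∀ i ∈ S, κ i = κ i0 := fun i hi => hc i hi i0 hi0
  have hz : z * κ i0 + μ = 0 := by
    rw [← hEq i0 hi0]
    refine Finset.sum_eq_zero fun l hl => ?_
    rw [hm l hl]; simp
  -- the equations at b and b'
  have hGW : ∀ (A x : ZMod ℓ), ∑ l ∈ S, w l * (g l - A) * x =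
      (∑ l ∈ S, w l * g l) * x - (∑ l ∈ S, w l) * A * x := by
    intro A x
    rw [Finset.sum_mul, Finset.sum_mul, Finset.sum_mul, ← Finset.sum_sub_distrib]
    exact Finset.sum_congr rfl fun l _ => by ring
  have eb : e * X * (κ b - κ b') + ((∑ l ∈ S, w l * g l) * (κ b - κ i0) -
      (∑ l ∈ S, w l) * (y - X) * (κ b - κ i0)) = z * κ b + μ := by
    have := hE b (Finset.mem_insert_self _ _)
    rw [hsum, h6, h9, hwb'] at this
    rw [← this, ← hGW]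
    have h12 : ∑ l ∈ S, w l * (h' b l - (y - X)) * (κ b - κ l) =
        ∑ l ∈ S, w l * (g l - (y - X)) * (κ b - κ i0) :=
      Finset.sum_congr rfl fun l hl => by rw [h4 l hl, hm l hl]
    rw [h12]; ring
  have eb' : e * Y * (κ b' - κ b) + ((∑ l ∈ S, w l * g l) * (κ b' - κ i0) -
      (∑ l ∈ S, w l) * (y - Y) * (κ b' - κ i0)) = z * κ b' + μ := by
    have := hE b' (Finset.mem_insert_of_mem (Finset.mem_insert_self _ _))
    rw [hsum, h7, h10, hwb] at this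
    rw [← this, ← hGW]
    have h12 : ∑ l ∈ S, w l * (h' b' l - (y - Y)) * (κ b' - κ l) =
        ∑ l ∈ S, w l * (g l - (y - Y)) * (κ b' - κ i0) :=
      Finset.sum_congr rfl fun l hl => by rw [h5 l hl, hm l hl]
    rw [h12]; ring
  have hdet := hXY (z - (∑ l ∈ S, w l * g l) + (∑ l ∈ S, w l) * y)
  have hx : κ b - κ i0 = 0 := by
    have : ((z - (∑ l ∈ S, w l * g l) + (∑ l ∈ S, w l) * y) ^ 2 -
        (∑ l ∈ S, w l + e) * (X + Y) * (z - (∑ l ∈ S, w l * g l) + (∑ l ∈ S, w l) * y) +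
        (∑ l ∈ S, w l) * (∑ l ∈ S, w l + 2 * e) * X * Y) * (κ b - κ i0) = 0 := by
      linear_combination ((∑ l ∈ S, w l + e) * Y - (z - (∑ l ∈ S, w l * g l) + (∑ l ∈ S, w l) * y)) * eb
        + e * X * eb' + (e * X + ((∑ l ∈ S, w l + e) * Y - (z - (∑ l ∈ S, w l * g l) + (∑ l ∈ S, w l) * y))) * hz
    exact (mul_eq_zero.mp this).resolve_left hdet
  have hx' : κ b' - κ i0 = 0 := by
    have : ((z - (∑ l ∈ S, w l * g l) + (∑ l ∈ S, w l) * y) ^ 2 -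
        (∑ l ∈ S, w l + e) * (X + Y) * (z - (∑ l ∈ S, w l * g l) + (∑ l ∈ S, w l) * y) +
        (∑ l ∈ S, w l) * (∑ l ∈ S, w l + 2 * e) * X * Y) * (κ b' - κ i0) = 0 := by
      linear_combination ((∑ l ∈ S, w l + e) * X - (z - (∑ l ∈ S, w l * g l) + (∑ l ∈ S, w l) * y)) * eb'
        + e * Y * eb + (e * Y + ((∑ l ∈ S, w l + e) * X - (z - (∑ l ∈ S, w l * g l) + (∑ l ∈ S, w l) * y))) * hz
    exact (mul_eq_zero.mp this).resolve_left hdet
  have hall : ∀ i ∈ insert b (insert b' S), κ i = κ i0 := by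
    intro i hi
    rcases Finset.mem_insert.mp hi with rfl | hi
    · exact sub_eq_zero.mp hx
    · rcases Finset.mem_insert.mp hi with rfl | hi
      · exact sub_eq_zero.mp hx'
      · exact hm i hi
  intro i hi j hj
  rw [hall i hi, hall j hj]

end Pool.Agent.Lib.MP_89bcae_ag.Lr

end
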