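import Mathlib
import Pool.Agent.Lib.MP_89bcae_ag.Bk.K003
import Pool.Agent.Lib.MP_89bcae_ag.Bk.K009
import Pool.Agent.Lib.MP_89bcae_ag.Bk.K011

section

/-!
ROW R07 (80-160 lines). The automorphisms `y ↦ ζ y` and the automorphisms of the constant field.

PROOF. `rotC ζ` has the inverse `rotC ζ⁻¹`; check on `ofPoly p` and `yy`
(`AdjoinRoot.ringHom_ext`, or `exists_expand`). `evalPt P ∘ rotC ζ = evalPt (P.rot ζ)` (check on
generators), so `ord_autU` with `Q`, `P := Q.rot ζ` gives `ord Q (rot h) = ord (Q.rot ζ) h`.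
For `σ : E ≃+* E` with `f.map σ = f`: `coordMap N σ` is bijective (inverse `coordMap N σ⁻¹`), and
`evalPt (P.map σ) (coordMap σ a) = σ (evalPt P a)`.
-/

open Polynomial IsDedekindDomain

open scoped Classical

namespace Pool.Agent.Lib.MP_89bcae_ag.Wt

universe u

variable {N : ℕ} {E : Type u} [Field E] {f : E[X]} [hG : IsGood N f]

omit hG in
lemma R07_rotF_comp (ζ ξ : E) (hζ : ζ ^ N = 1) (hξ : ξ ^ N = 1) (h : ζ * ξ = 1) :
    (rotF ζ hζ : FunField N f →+* FunField N f).comp (rotF ξ hξ) = RingHom.id _ := by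
  refine funField_hom_ext (fun p => ?_) ?_
  · rw [RingHom.comp_apply, rotF_polyF, rotF_polyF, RingHom.id_apply]
  · rw [RingHom.comp_apply, rotF_yF, map_mul, rotF_polyF, rotF_yF, RingHom.id_apply, ← mul_assoc,
      ← map_mul, ← C_mul, mul_comm ξ ζ, h, C_1, map_one, one_mul]

omit hG in
lemma R07_funMap_comp (σ τ : E →+* E) (hσ : f.map σ = f) (hτ : f.map τ = f)
    (h : σ.comp τ = RingHom.id E) :
    (funMap N σ hσ : FunField N f →+* FunField N f).comp (funMap N τ hτ) = RingHom.id _ := by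
  refine funField_hom_ext (fun p => ?_) ?_
  · rw [RingHom.comp_apply, funMap_polyF, funMap_polyF, RingHom.id_apply,
      Polynomial.map_map, h, Polynomial.map_id]
  · rw [RingHom.comp_apply, funMap_yF, funMap_yF, RingHom.id_apply]

omit hG in
lemma R07_funMap_rotF (σ : E →+* E) (hσ : f.map σ = f) (ζ : E) (hζ : ζ ^ N = 1) (h : σ ζ = ζ) :
    (funMap N σ hσ : FunField N f →+* FunField N f).comp (rotF ζ hζ) =
      (rotF ζ hζ).comp (funMap N σ hσ) := by
  refine funField_hom_ext (fun p => ?_) ?_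
  · rw [RingHom.comp_apply, RingHom.comp_apply, rotF_polyF, funMap_polyF, rotF_polyF]
  · rw [RingHom.comp_apply, RingHom.comp_apply, rotF_yF, map_mul, funMap_polyF, funMap_yF,
      rotF_yF, Polynomial.map_C, h]

omit hG in
lemma R07_rotC_comp (ζ ξ : E) (hζ : ζ ^ N = 1) (hξ : ξ ^ N = 1) (h : ζ * ξ = 1) :
    (rotC ζ hζ : NRing N f →+* NRing N f).comp (rotC ξ hξ) = RingHom.id _ :=
  RingHom.ext fun a => Subtype.ext
    (RingHom.congr_fun (R07_rotF_comp ζ ξ hζ hξ h) (a : FunField N f))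

omit hG in
lemma R07_coordMap_comp (σ τ : E →+* E) (hσ : f.map σ = f) (hτ : f.map τ = f)
    (h : σ.comp τ = RingHom.id E) :
    (coordMap N σ hσ : NRing N f →+* NRing N f).comp (coordMap N τ hτ) = RingHom.id _ :=
  RingHom.ext fun a => Subtype.ext
    (RingHom.congr_fun (R07_funMap_comp σ τ hσ hτ h) (a : FunField N f))

/-- The automorphism `y ↦ ζ y` of the coordinate ring. -/
noncomputable def rotE (ζ : E) (hζ : ζ ^ N = 1) (h0 : ζ ≠ 0) : NRing N f ≃+* NRing N f :=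
  RingEquiv.ofRingHom (rotC ζ hζ) (rotC ζ⁻¹ (by rw [inv_pow, hζ, inv_one]))
    (R07_rotC_comp _ _ _ _ (mul_inv_cancel₀ h0)) (R07_rotC_comp _ _ _ _ (inv_mul_cancel₀ h0))

lemma evalPt_rotE (ζ : E) (hζ : ζ ^ N = 1) (h0 : ζ ≠ 0) (P : Pt N f) (a : NRing N f) :
    evalPt P (rotE ζ hζ h0 a) = evalPt (P.rot ζ hζ) a := evalPt_rotC ζ hζ P a

/-- The automorphisms of the field of constants which fix the coefficients of `f`. -/
def Sym (f : E[X]) : Subgroup (E ≃+* E) where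
  carrier := {σ | f.map (σ : E →+* E) = f}
  mul_mem' {σ τ} hσ hτ := by
    have h1 : f.map (σ : E →+* E) = f := hσ
    have h2 : f.map (τ : E →+* E) = f := hτ
    change f.map ((σ * τ : E ≃+* E) : E →+* E) = f
    have h3 : ((σ * τ : E ≃+* E) : E →+* E) = (σ : E →+* E).comp (τ : E →+* E) := by
      ext x
      rfl
    rw [h3, ← Polynomial.map_map, h2, h1]
  one_mem' := by
    change f.map ((1 : E ≃+* E) : E →+* E) = f
    have h3 : ((1 : E ≃+* E) : E →+* E) = RingHom.id E := by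
      ext x
      rfl
    rw [h3, Polynomial.map_id]
  inv_mem' {σ} hσ := by
    have h1 : f.map (σ : E →+* E) = f := hσ
    change f.map ((σ⁻¹ : E ≃+* E) : E →+* E) = f
    have h3 : ((σ⁻¹ : E ≃+* E) : E →+* E).comp (σ : E →+* E) = RingHom.id E := by
      ext x
      exact σ.symm_apply_apply x
    conv_lhs => rw [← h1]
    rw [Polynomial.map_map, h3, Polynomial.map_id]

lemma mem_Sym {σ : E ≃+* E} : σ ∈ Sym f ↔ f.map (σ : E →+* E) = f := Iff.rfl

/-- The automorphism of the coordinate ring induced by `σ`. -/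
noncomputable def symE (N : ℕ) (σ : Sym f) : NRing N f ≃+* NRing N f :=
  RingEquiv.ofRingHom (coordMap N ((σ : E ≃+* E) : E →+* E) σ.2)
    (coordMap N (((σ⁻¹ : Sym f) : E ≃+* E) : E →+* E) (σ⁻¹).2)
    (R07_coordMap_comp _ _ _ _ (by
      ext x
      exact (σ : E ≃+* E).apply_symm_apply x))
    (R07_coordMap_comp _ _ _ _ (by
      ext x
      exact (σ : E ≃+* E).symm_apply_apply x))

/-- The action of `Sym f` on the points. -/
def Pt.sym (σ : Sym f) (P : Pt N f) : Pt N f := P.map ((σ : E ≃+* E) : E →+* E) σ.2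

lemma evalPt_symE (σ : Sym f) (P : Pt N f) (a : NRing N f) :
    evalPt (P.sym σ) (symE N σ a) = (σ : E ≃+* E) (evalPt P a) :=
  evalPt_coordMap ((σ : E ≃+* E) : E →+* E) σ.2 P a

/-- `h(x, y) ↦ h(x, ζ y)`. -/
noncomputable def rotU (ζ : E) (hζ : ζ ^ N = 1) (h0 : ζ ≠ 0) : (FunField N f)ˣ ≃* (FunField N f)ˣ :=
  autU (rotE ζ hζ h0)

lemma ord_rotU (ζ : E) (hζ : ζ ^ N = 1) (h0 : ζ ≠ 0) (P : Pt N f) (u : (FunField N f)ˣ) :
    ord P (rotU ζ hζ h0 u) = ord (P.rot ζ hζ) u :=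
  ord_autU (rotE ζ hζ h0) (P.rot ζ hζ) P (fun a => by rw [evalPt_rotE]) u

lemma R07_autU_mk (φ : NRing N f ≃+* NRing N f) (u : (FunField N f)ˣ) {a : NRing N f}
    (hu : (u : FunField N f) = algebraMap (NRing N f) (FunField N f) a) :
    ((autU φ u : (FunField N f)ˣ) : FunField N f) = algebraMap (NRing N f) (FunField N f) (φ a) := by
  have h1 : ((autU φ u : (FunField N f)ˣ) : FunField N f) = autF φ (u : FunField N f) := rfl
  rw [h1, hu, autF_algebraMap]

lemma R07_cstU (c : Eˣ) : ((cstU c : (FunField N f)ˣ) : FunField N f) =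
    algebraMap (NRing N f) (FunField N f) (ofPoly (C (c : E))) := rfl

lemma R07_polyU (p : E[X]) (hp : p ≠ 0) : ((polyU p hp : (FunField N f)ˣ) : FunField N f) =
    algebraMap (NRing N f) (FunField N f) (ofPoly p) := rfl

lemma R07_yU : ((yU : (FunField N f)ˣ) : FunField N f) = algebraMap (NRing N f) (FunField N f) yy := rfl

omit hG in
lemma R07_rotE_ofPoly (ζ : E) (hζ : ζ ^ N = 1) (h0 : ζ ≠ 0) (p : E[X]) :
    rotE ζ hζ h0 (ofPoly p : NRing N f) = ofPoly p := rotC_ofPoly ζ hζ p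

lemma R07_rotE_yy (ζ : E) (hζ : ζ ^ N = 1) (h0 : ζ ≠ 0) :
    rotE ζ hζ h0 (yy : NRing N f) = ofPoly (C ζ) * yy := rotC_yy ζ hζ

lemma rotU_cstU (ζ : E) (hζ : ζ ^ N = 1) (h0 : ζ ≠ 0) (c : Eˣ) :
    rotU ζ hζ h0 (cstU c : (FunField N f)ˣ) = cstU c := by
  ext
  rw [rotU, R07_autU_mk (rotE ζ hζ h0) _ (R07_cstU c), R07_rotE_ofPoly, R07_cstU]

lemma rotU_polyU (ζ : E) (hζ : ζ ^ N = 1) (h0 : ζ ≠ 0) (p : E[X]) (hp : p ≠ 0) :
    rotU ζ hζ h0 (polyU p hp : (FunField N f)ˣ) = polyU p hp := by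
  ext
  rw [rotU, R07_autU_mk (rotE ζ hζ h0) _ (R07_polyU p hp), R07_rotE_ofPoly, R07_polyU]

lemma rotU_yU (ζ : E) (hζ : ζ ^ N = 1) (h0 : ζ ≠ 0) :
    rotU ζ hζ h0 (yU : (FunField N f)ˣ) = cstU (Units.mk0 ζ h0) * yU := by
  ext
  rw [rotU, R07_autU_mk (rotE ζ hζ h0) _ R07_yU, R07_rotE_yy, Units.val_mul, R07_cstU, R07_yU,
    map_mul]
  rfl

/-- The action of `Sym f` on the nonzero functions. -/
noncomputable def symU (σ : Sym f) : (FunField N f)ˣ ≃* (FunField N f)ˣ := autU (symE N σ)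

lemma ord_symU (σ : Sym f) (P : Pt N f) (u : (FunField N f)ˣ) :
    ord (P.sym σ) (symU σ u) = ord P u :=
  ord_autU (symE N σ) P (P.sym σ) (fun a => by
    rw [evalPt_symE]
    exact EmbeddingLike.map_eq_zero_iff) u

omit hG in
lemma R07_symE_ofPoly (σ : Sym f) (p : E[X]) :
    symE N σ (ofPoly p : NRing N f) = ofPoly (p.map ((σ : E ≃+* E) : E →+* E)) :=
  coordMap_ofPoly ((σ : E ≃+* E) : E →+* E) σ.2 p

lemma R07_symE_yy (σ : Sym f) : symE N σ (yy : NRing N f) = yy :=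
  coordMap_yy ((σ : E ≃+* E) : E →+* E) σ.2

lemma symU_cstU (σ : Sym f) (c : Eˣ) :
    symU σ (cstU c : (FunField N f)ˣ) = cstU (Units.map ((σ : E ≃+* E) : E →* E) c) := by
  ext
  rw [symU, R07_autU_mk (symE N σ) _ (R07_cstU c), R07_symE_ofPoly, R07_cstU, Polynomial.map_C]
  rfl

lemma symU_yU (σ : Sym f) : symU σ (yU : (FunField N f)ˣ) = yU := by
  ext
  rw [symU, R07_autU_mk (symE N σ) _ R07_yU, R07_symE_yy, R07_yU]

lemma symU_xs (σ : Sym f) (a : E) : symU σ (xs a : (FunField N f)ˣ) = xs ((σ : E ≃+* E) a) := by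
  ext
  rw [symU, xs, xs, R07_autU_mk (symE N σ) _ (R07_polyU _ (X_sub_C_ne_zero a)), R07_symE_ofPoly,
    R07_polyU, Polynomial.map_sub, Polynomial.map_X, Polynomial.map_C]
  rfl

lemma symU_rotU (σ : Sym f) (ζ : E) (hζ : ζ ^ N = 1) (h0 : ζ ≠ 0)
    (hσ : (σ : E ≃+* E) ζ = ζ) (u : (FunField N f)ˣ) :
    symU σ (rotU ζ hζ h0 u) = rotU ζ hζ h0 (symU σ u) := by
  have hcomm : ∀ a : NRing N f, symE N σ (rotE ζ hζ h0 a) = rotE ζ hζ h0 (symE N σ a) :=
    fun a => Subtype.ext (RingHom.congr_fun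
      (R07_funMap_rotF ((σ : E ≃+* E) : E →+* E) σ.2 ζ hζ hσ) (a : FunField N f))
  ext
  obtain ⟨a, b, hb, hab⟩ := IsFractionRing.div_surjective (A := NRing N f) (u : FunField N f)
  change autF (symE N σ) (autF (rotE ζ hζ h0) (u : FunField N f)) =
    autF (rotE ζ hζ h0) (autF (symE N σ) (u : FunField N f))
  rw [← hab]
  simp only [map_div₀, autF_algebraMap, hcomm]

end Pool.Agent.Lib.MP_89bcae_ag.Wt

end

section

/-!
ROW R15 (80-160 lines). Divisors of rotated functions, of `x - a`, of `y`.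

PROOF. `div` is `P ↦ ord P`. `ord P (rot⁻¹ u) = ord (P.rot ζ⁻¹) u` (`ord_rotU` applied to
`rot⁻¹ u`), i.e. `div (rot⁻¹ u)` is the image of `div u` under `P ↦ P.rot ζ`
(`Finsupp.mapDomain_apply` for the injective map `Pt.rot`). Same for `symU` (`ord_symU`).
`div (x - a)`: the points above `a` are the `(a, ζ^i b)`, `i < N`; if `b ≠ 0` they are distinct and
the order of `x - a` is `1` at each of them (`ord_xs_of_unramified`); if `b = 0` they all coincide
and the order is `N` (`ord_xs_of_ramified`). `div y` : `ord_yU_...`.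
-/

open Polynomial IsDedekindDomain

open scoped Classical

namespace Pool.Agent.Lib.MP_89bcae_ag.Wt

universe u

variable {N : ℕ} {E : Type u} [Field E] {f : E[X]} [hG : IsGood N f]

lemma R15_root (P : Pt N f) (h : P.y = 0) : f.eval P.x = 0 := by
  rw [← P.eq, h, zero_pow hG.ne]

lemma ramDiv_finite (e : E → ℤ) :
    (Function.support fun P : Pt N f => if P.y = 0 then e P.x else 0).Finite := by
  have hf0 : f ≠ 0 := f_ne_zero N f
  have hfin : {P : Pt N f | P.y = 0}.Finite := by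
    apply Set.Finite.of_finite_image (f := Pt.x)
    · apply (f.roots.toFinset.finite_toSet).subset
      rintro _ ⟨P, hP, rfl⟩
      rw [Finset.mem_coe, Multiset.mem_toFinset, mem_roots hf0]
      exact R15_root P hP
    · intro P hP Q hQ hx
      ext
      · exact hx
      · rw [show P.y = 0 from hP, show Q.y = 0 from hQ]
  apply hfin.subset
  intro P hP
  by_contra h
  apply hP
  exact if_neg h

/-- The divisor `∑ e(θ) (θ, 0)` over the roots `θ` of `f`. -/
noncomputable def ramDiv (e : E → ℤ) : Pt N f →₀ ℤ :=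
  Finsupp.ofSupportFinite (fun P => if P.y = 0 then e P.x else 0) (ramDiv_finite e)

@[simp] lemma ramDiv_apply (e : E → ℤ) (P : Pt N f) :
    ramDiv e P = if P.y = 0 then e P.x else 0 := rfl

lemma ramDiv_add (e e' : E → ℤ) :
    (ramDiv (fun θ => e θ + e' θ) : Pt N f →₀ ℤ) = ramDiv e + ramDiv e' := by
  ext P
  rw [Finsupp.add_apply, ramDiv_apply, ramDiv_apply, ramDiv_apply]
  split_ifs <;> simp

lemma ramDiv_sub (e e' : E → ℤ) :
    (ramDiv (fun θ => e θ - e' θ) : Pt N f →₀ ℤ) = ramDiv e - ramDiv e' := by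
  ext P
  rw [Finsupp.sub_apply, ramDiv_apply, ramDiv_apply, ramDiv_apply]
  split_ifs <;> simp

lemma ramDiv_smul (n : ℤ) (e : E → ℤ) :
    (ramDiv (fun θ => n * e θ) : Pt N f →₀ ℤ) = n • ramDiv e := by
  ext P
  rw [Finsupp.smul_apply, ramDiv_apply, ramDiv_apply]
  split_ifs <;> simp

lemma ramDiv_congr (e e' : E → ℤ) (h : ∀ θ, f.eval θ = 0 → e θ = e' θ) :
    (ramDiv e : Pt N f →₀ ℤ) = ramDiv e' := by
  ext P
  rw [ramDiv_apply, ramDiv_apply]
  split_ifs with hP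
  · exact h _ (R15_root P hP)
  · rfl

omit hG in
lemma R15_sym_inv (σ : Sym f) (Q : Pt N f) : (Q.sym σ⁻¹).sym σ = Q := by
  ext
  · exact (σ : E ≃+* E).apply_symm_apply Q.x
  · exact (σ : E ≃+* E).apply_symm_apply Q.y

omit hG in
lemma R15_sym_inj (σ : Sym f) : Function.Injective (Pt.sym (N := N) σ) := by
  intro P Q h
  ext
  · exact (σ : E ≃+* E).injective (congrArg Pt.x h)
  · exact (σ : E ≃+* E).injective (congrArg Pt.y h)

omit hG in
lemma R15_ne (hN : N ≠ 0) (ζ : E) (hζ : ζ ^ N = 1) : ζ ≠ 0 := by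
  intro h
  rw [h, zero_pow hN] at hζ
  exact zero_ne_one hζ

lemma R15_rot_inj (ζ : E) (hζ : ζ ^ N = 1) :
    Function.Injective (Pt.rot (f := f) ζ hζ) := by
  intro P Q h
  have h1 := congrArg Pt.x h
  have h2 : ζ * P.y = ζ * Q.y := congrArg Pt.y h
  ext
  · exact h1
  · exact mul_left_cancel₀ (R15_ne hG.ne ζ hζ) h2

lemma R15_rot_inv (ζ : E) (hζ : ζ ^ N = 1) (Q : Pt N f) :
    (Q.rot ζ⁻¹ (by rw [inv_pow, hζ, inv_one])).rot ζ hζ = Q := by
  ext
  · rfl
  · exact mul_inv_cancel_left₀ (R15_ne hG.ne ζ hζ) Q.y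

omit hG in
lemma R15_iter (ζ : E) (hζ : ζ ^ N = 1) (P : Pt N f) (n : ℕ) :
    ((Pt.rot ζ hζ)^[n] P).x = P.x ∧ ((Pt.rot ζ hζ)^[n] P).y = ζ ^ n * P.y := by
  induction n with
  | zero => simp
  | succ n ih =>
    rw [Function.iterate_succ_apply']
    refine ⟨ih.1, ?_⟩
    show ζ * ((Pt.rot ζ hζ)^[n] P).y = _
    rw [ih.2, pow_succ]
    ring

lemma mapDomain_sym_ramDiv (σ : Sym f) (e : E → ℤ) :
    (ramDiv e : Pt N f →₀ ℤ).mapDomain (Pt.sym σ) =
      ramDiv fun θ => e (((σ⁻¹ : Sym f) : E ≃+* E) θ) := by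
  ext Q
  conv_lhs => rw [← R15_sym_inv σ Q]
  rw [Finsupp.mapDomain_apply (R15_sym_inj σ), ramDiv_apply, ramDiv_apply]
  have h1 : (Q.sym σ⁻¹).y = 0 ↔ Q.y = 0 :=
    map_eq_zero_iff (((σ⁻¹ : Sym f) : E ≃+* E)) (RingEquiv.injective _)
  by_cases hQ : Q.y = 0
  · rw [if_pos hQ, if_pos (h1.mpr hQ)]
    rfl
  · rw [if_neg hQ, if_neg (fun h => hQ (h1.mp h))]

lemma mapDomain_rot_ramDiv (ζ : E) (hζ : ζ ^ N = 1) (e : E → ℤ) :
    (ramDiv e : Pt N f →₀ ℤ).mapDomain (Pt.rot ζ hζ) = ramDiv e := by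
  ext Q
  conv_lhs => rw [← R15_rot_inv ζ hζ Q]
  rw [Finsupp.mapDomain_apply (R15_rot_inj ζ hζ), ramDiv_apply, ramDiv_apply]
  have h1 : (Q.rot ζ⁻¹ (by rw [inv_pow, hζ, inv_one])).y = 0 ↔ Q.y = 0 := by
    show ζ⁻¹ * Q.y = 0 ↔ Q.y = 0
    rw [mul_eq_zero, inv_eq_zero]
    constructor
    · rintro (h | h)
      · exact absurd h (R15_ne hG.ne ζ hζ)
      · exact h
    · exact Or.inr
  by_cases hQ : Q.y = 0
  · rw [if_pos hQ, if_pos (h1.mpr hQ)]
    rfl
  · rw [if_neg hQ, if_neg (fun h => hQ (h1.mp h))]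

/-- The coefficient of a divisor at `(θ, 0)` (zero if `θ` is not a root of `f`). -/
noncomputable def atR (D : Pt N f →₀ ℤ) (θ : E) : ℤ :=
  if hθ : f.eval θ = 0 then D ⟨θ, 0, by rw [zero_pow hG.ne, hθ]⟩ else 0

lemma div_rotU_symm (ζ : E) (hζ : ζ ^ N = 1) (h0 : ζ ≠ 0) (u : (FunField N f)ˣ) :
    div ((rotU ζ hζ h0).symm u) = (div u).mapDomain (Pt.rot ζ hζ) := by
  ext Q
  conv_rhs => rw [← R15_rot_inv ζ hζ Q]
  rw [Finsupp.mapDomain_apply (R15_rot_inj ζ hζ), div_apply, div_apply]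
  have h1 := ord_rotU ζ hζ h0 (Q.rot ζ⁻¹ (by rw [inv_pow, hζ, inv_one]))
    ((rotU ζ hζ h0).symm u)
  rw [MulEquiv.apply_symm_apply, R15_rot_inv] at h1
  exact h1.symm

lemma div_symU (σ : Sym f) (u : (FunField N f)ˣ) :
    div (symU σ u) = (div u).mapDomain (Pt.sym σ) := by
  ext Q
  conv_rhs => rw [← R15_sym_inv σ Q]
  rw [Finsupp.mapDomain_apply (R15_sym_inj σ), div_apply, div_apply]
  have h1 := ord_symU σ (Q.sym σ⁻¹) u
  rw [R15_sym_inv] at h1
  exact h1

lemma div_xs (ζ : E) (hζ : IsPrimitiveRoot ζ N) (P : Pt N f) :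
    div (xs P.x : (FunField N f)ˣ) =
      ∑ i ∈ Finset.range N, Finsupp.single ((Pt.rot ζ hζ.pow_eq_one)^[i] P) 1 := by
  have hN0 : N ≠ 0 := hG.ne
  have : NeZero N := ⟨hN0⟩
  ext Q
  rw [div_apply, Finsupp.finsetSum_apply]
  simp only [Finsupp.single_apply]
  by_cases hx : Q.x = P.x
  · by_cases hy : Q.y = 0
    · have hPy : P.y = 0 := by
        have h1 := P.eq
        rw [← hx, ← Q.eq, hy, zero_pow hN0] at h1
        exact (pow_eq_zero_iff hN0).mp h1
      rw [← hx, ord_xs_of_ramified Q hy]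
      have h2 : ∀ i ∈ Finset.range N, (if (Pt.rot ζ hζ.pow_eq_one)^[i] P = Q then (1 : ℤ) else 0) =
          1 := by
        intro i _
        rw [if_pos]
        ext
        · rw [(R15_iter ζ hζ.pow_eq_one P i).1, hx]
        · rw [(R15_iter ζ hζ.pow_eq_one P i).2, hPy, hy, mul_zero]
      rw [Finset.sum_congr rfl h2]
      simp
    · rw [← hx, ord_xs_of_unramified Q hy]
      have hPy : P.y ≠ 0 := by
        intro h
        apply hy
        have h1 := Q.eq
        rw [hx, ← P.eq, h, zero_pow hN0] at h1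
        exact (pow_eq_zero_iff hN0).mp h1
      have h5 : (Q.y / P.y) ^ N = 1 := by
        rw [div_pow, Q.eq, P.eq, hx, div_self]
        rw [← P.eq]
        exact pow_ne_zero N hPy
      obtain ⟨i, hi, he⟩ := hζ.eq_pow_of_pow_eq_one h5
      symm
      rw [Finset.sum_eq_single i]
      · rw [if_pos]
        ext
        · rw [(R15_iter ζ hζ.pow_eq_one P i).1, hx]
        · rw [(R15_iter ζ hζ.pow_eq_one P i).2, he, div_mul_cancel₀ _ hPy]
      · intro j hj hji
        rw [if_neg]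
        intro h
        apply hji
        have h6 := congrArg Pt.y h
        rw [(R15_iter ζ hζ.pow_eq_one P j).2] at h6
        have h7 : ζ ^ j = ζ ^ i := by
          rw [he, eq_div_iff hPy]
          exact h6
        exact hζ.pow_inj (Finset.mem_range.mp hj) hi h7
      · intro h
        exact absurd (Finset.mem_range.mpr hi) h
  · rw [ord_xs_of_ne Q hx]
    symm
    apply Finset.sum_eq_zero
    intro i _
    rw [if_neg]
    intro h
    apply hx
    rw [← h, (R15_iter ζ hζ.pow_eq_one P i).1]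

lemma div_yU : div (yU : (FunField N f)ˣ) = ramDiv fun θ => wt f θ := by
  ext P
  rw [div_apply, ramDiv_apply]
  split_ifs with h
  · exact ord_yU_of_ramified P h
  · exact ord_yU_of_ne P h

end Pool.Agent.Lib.MP_89bcae_ag.Wt

end
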