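import Mathlib
import Pool.Agent.Lib.MP_89bcae_ag.Bk.K003
import Pool.Agent.Lib.MP_89bcae_ag.Bk.K008

/-!
# Every class is the class of a divisor; the classes of divisors of functions, and only these, vanish
-/

open Polynomial IsDedekindDomain

open scoped Classical nonZeroDivisors

namespace Pool.Agent.Lib.MP_89bcae_ag.Wt

universe u

section gen

variable {R : Type*} [CommRing R] [IsDedekindDomain R] {K : Type*} [Field K] [Algebra R K]
  [IsFractionRing R K]

lemma r08_count_span_coe (v : HeightOneSpectrum R) (a : R) (ha : a ≠ 0) :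
    FractionalIdeal.count K v (FractionalIdeal.spanSingleton R⁰ (algebraMap R K a)) =
      -(WithZero.log (v.valuation K (algebraMap R K a))) := by
  rw [← FractionalIdeal.coeIdeal_span_singleton, FractionalIdeal.count_coe K v
    (by simpa using ha), HeightOneSpectrum.valuation_of_algebraMap,
    HeightOneSpectrum.intValuation_if_neg _ ha]
  simp

lemma r08_count_span (v : HeightOneSpectrum R) (x : Kˣ) :
    FractionalIdeal.count K v (FractionalIdeal.spanSingleton R⁰ (x : K)) =
      -(WithZero.log (v.valuation K (x : K))) := by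
  obtain ⟨a, b, hb, hab⟩ := IsFractionRing.div_surjective (A := R) (x : K)
  have hb0 : b ≠ 0 := nonZeroDivisors.ne_zero hb
  have hbK : algebraMap R K b ≠ 0 := by
    simpa using hb0
  have ha0 : a ≠ 0 := by
    rintro rfl
    apply x.ne_zero
    rw [← hab]; simp
  have h1 : FractionalIdeal.spanSingleton R⁰ (algebraMap R K a) =
      FractionalIdeal.spanSingleton R⁰ (x : K) *
        FractionalIdeal.spanSingleton R⁰ (algebraMap R K b) := by
    rw [FractionalIdeal.spanSingleton_mul_spanSingleton, ← hab, div_mul_cancel₀ _ hbK]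
  have h2 := FractionalIdeal.count_mul K v (I := FractionalIdeal.spanSingleton R⁰ (x : K))
    (I' := FractionalIdeal.spanSingleton R⁰ (algebraMap R K b))
    (FractionalIdeal.spanSingleton_ne_zero_iff.2 x.ne_zero)
    (FractionalIdeal.spanSingleton_ne_zero_iff.2 hbK)
  rw [← h1, r08_count_span_coe v a ha0, r08_count_span_coe v b hb0] at h2
  have h3 : v.valuation K (algebraMap R K a) =
      v.valuation K (x : K) * v.valuation K (algebraMap R K b) := by
    rw [← map_mul, ← hab, div_mul_cancel₀ _ hbK]
  rw [h3, WithZero.log_mul (by simp) (by simpa using hb0)] at h2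
  linarith

lemma r08_eq_of_count (I J : FractionalIdeal R⁰ K) (hI : I ≠ 0) (hJ : J ≠ 0)
    (h : ∀ v : HeightOneSpectrum R, FractionalIdeal.count K v I = FractionalIdeal.count K v J) :
    I = J := by
  rw [← FractionalIdeal.finprod_heightOneSpectrum_factorization' K hI,
    ← FractionalIdeal.finprod_heightOneSpectrum_factorization' K hJ]
  exact finprod_congr fun v => by rw [h v]


variable {T : Type*} (hs : T → HeightOneSpectrum R)

variable (K) in
/-- The fractional ideal of a divisor. -/
noncomputable def r08Ideal : (T →₀ ℤ) →+ Additive (FractionalIdeal R⁰ K)ˣ :=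
  Finsupp.liftAddHom fun P => zmultiplesHom _ (Additive.ofMul (FractionalIdeal.mk0 K
    ⟨(hs P).asIdeal, mem_nonZeroDivisors_of_ne_zero (hs P).ne_bot⟩))

variable (R K) in
/-- The class of an invertible fractional ideal. -/
noncomputable def r08Class : Additive (FractionalIdeal R⁰ K)ˣ →+ Additive (CommRing.Pic R) :=
  MonoidHom.toAdditive ((ClassGroup.equivPic R).toMonoidHom.comp (ClassGroup.mk (R := R) K))

/-- The class of a divisor. -/
noncomputable def r08Cl : (T →₀ ℤ) →+ Additive (CommRing.Pic R) :=
  Finsupp.liftAddHom fun P => zmultiplesHom _ (Additive.ofMul (ClassGroup.equivPic R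
    (ClassGroup.mk0 ⟨(hs P).asIdeal, mem_nonZeroDivisors_of_ne_zero (hs P).ne_bot⟩)))

lemma r08_cl_eq (D : T →₀ ℤ) : r08Cl hs D = r08Class R K (r08Ideal K hs D) := by
  have h : (r08Cl hs : (T →₀ ℤ) →+ _) = (r08Class R K).comp (r08Ideal K hs) := by
    refine Finsupp.addHom_ext' fun P => ?_
    refine AddMonoidHom.ext_int ?_
    simp only [r08Cl, r08Ideal, r08Class, AddMonoidHom.comp_apply, Finsupp.singleAddHom_apply,
      Finsupp.liftAddHom_apply_single, zmultiplesHom_apply, one_smul]
    change _ = Additive.ofMul (ClassGroup.equivPic R (ClassGroup.mk K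
      (FractionalIdeal.mk0 K _)))
    rw [ClassGroup.mk_mk0]
  rw [h]
  rfl

variable (R K) in
/-- The exponent of a prime, as a homomorphism. -/
noncomputable def r08Cnt (v : HeightOneSpectrum R) : Additive (FractionalIdeal R⁰ K)ˣ →+ ℤ :=
  AddMonoidHom.mk' (fun I => FractionalIdeal.count K v (I.toMul : FractionalIdeal _ _))
    fun I J => FractionalIdeal.count_mul K v I.toMul.ne_zero J.toMul.ne_zero

lemma r08_cnt_ideal (hinj : Function.Injective hs) (P : T) (D : T →₀ ℤ) :
    r08Cnt R K (hs P) (r08Ideal K hs D) = D P := by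
  have h : (r08Cnt R K (hs P)).comp (r08Ideal K hs) = Finsupp.applyAddHom P := by
    refine Finsupp.addHom_ext' fun Q => ?_
    refine AddMonoidHom.ext_int ?_
    simp only [r08Ideal, AddMonoidHom.comp_apply, Finsupp.singleAddHom_apply,
      Finsupp.liftAddHom_apply_single, zmultiplesHom_apply, one_smul, Finsupp.applyAddHom_apply]
    change FractionalIdeal.count K (hs P) (((hs Q).asIdeal : Ideal R) :
      FractionalIdeal R⁰ K) = _
    rw [FractionalIdeal.count_maximal, Finsupp.single_apply]
    simp only [hinj.eq_iff]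
  have := DFunLike.congr_fun h D
  simpa using this

lemma r08_cnt_principal (v : HeightOneSpectrum R) (h : Kˣ) :
    r08Cnt R K v (Additive.ofMul (toPrincipalIdeal R K h)) =
      -(WithZero.log (v.valuation K (h : K))) := by
  change FractionalIdeal.count K v (toPrincipalIdeal R K h : FractionalIdeal R⁰ K) = _
  rw [coe_toPrincipalIdeal, r08_count_span]

lemma r08_ext (hsurj : Function.Surjective hs) (I J : Additive (FractionalIdeal R⁰ K)ˣ)
    (h : ∀ P, r08Cnt R K (hs P) I = r08Cnt R K (hs P) J) : I = J := by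
  have : I.toMul = J.toMul := by
    refine Units.ext (r08_eq_of_count _ _ I.toMul.ne_zero J.toMul.ne_zero fun v => ?_)
    obtain ⟨P, rfl⟩ := hsurj v
    exact h P
  exact this

lemma r08_surjective (K : Type*) [Field K] [Algebra R K] [IsFractionRing R K] (hinj : Function.Injective hs) (hsurj : Function.Surjective hs) :
    Function.Surjective (r08Cl hs : (T →₀ ℤ) →+ Additive (CommRing.Pic R)) := by
  intro Q
  obtain ⟨I, hI⟩ := ClassGroup.mk0_surjective ((ClassGroup.equivPic R).symm Q.toMul)
  have hfin : (Function.support fun P : T =>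
      FractionalIdeal.count K (hs P) ((I : Ideal R) : FractionalIdeal R⁰ K)).Finite := by
    have := FractionalIdeal.finite_factors (K := K) ((I : Ideal R) : FractionalIdeal R⁰ K)
    rw [Filter.eventually_cofinite] at this
    exact this.preimage hinj.injOn
  refine ⟨Finsupp.ofSupportFinite _ hfin, ?_⟩
  have h1 : r08Ideal K hs (Finsupp.ofSupportFinite _ hfin) =
      Additive.ofMul (FractionalIdeal.mk0 K I) :=
    r08_ext hs hsurj _ _ fun P => by
      rw [r08_cnt_ideal hs hinj]
      rfl
  rw [r08_cl_eq (K := K), h1]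
  change Additive.ofMul (ClassGroup.equivPic R (ClassGroup.mk K
      (FractionalIdeal.mk0 K I))) = Q
  rw [ClassGroup.mk_mk0, hI, MulEquiv.apply_symm_apply]
  rfl

lemma r08_cl_eq_zero_iff (hinj : Function.Injective hs) (hsurj : Function.Surjective hs)
    (D : T →₀ ℤ) : r08Cl hs D = 0 ↔
      ∃ h : Kˣ, ∀ P, D P = -(WithZero.log ((hs P).valuation K (h : K))) := by
  constructor
  · intro hD
    rw [r08_cl_eq (K := K)] at hD
    have h1 : ClassGroup.equivPic R (ClassGroup.mk K (r08Ideal K hs D).toMul) = 1 := hD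
    rw [map_eq_one_iff _ (ClassGroup.equivPic R).injective, ClassGroup.mk_eq_one_iff] at h1
    obtain ⟨x, hx⟩ := h1.principal
    have hx' : ((r08Ideal K hs D).toMul : FractionalIdeal R⁰ K) =
        FractionalIdeal.spanSingleton R⁰ x := by
      apply Subtype.coe_injective
      simp only [FractionalIdeal.val_eq_coe, hx, FractionalIdeal.coe_spanSingleton]
    have hx0 : x ≠ 0 := by
      rintro rfl
      apply (r08Ideal K hs D).toMul.ne_zero
      rw [hx', FractionalIdeal.spanSingleton_zero]
    refine ⟨Units.mk0 x hx0, fun P => ?_⟩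
    have h2 : r08Ideal K hs D = Additive.ofMul (toPrincipalIdeal R K (Units.mk0 x hx0)) := by
      have : (r08Ideal K hs D).toMul = toPrincipalIdeal R K (Units.mk0 x hx0) := by
        refine Units.ext ?_
        rw [hx', coe_toPrincipalIdeal, Units.val_mk0]
      exact this
    rw [← r08_cnt_principal, ← h2, r08_cnt_ideal hs hinj]
  · rintro ⟨h, hD⟩
    have h1 : r08Ideal K hs D = Additive.ofMul (toPrincipalIdeal R K h) :=
      r08_ext hs hsurj _ _ fun P => by
        rw [r08_cnt_ideal hs hinj, r08_cnt_principal, hD]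
    rw [r08_cl_eq (K := K), h1]
    change Additive.ofMul (ClassGroup.equivPic R (ClassGroup.mk K (toPrincipalIdeal R K h))) = 0
    have : ClassGroup.mk K (toPrincipalIdeal R K h) = 1 := by
      rw [ClassGroup.mk_eq_one_iff, coe_toPrincipalIdeal, FractionalIdeal.coe_spanSingleton]
      exact ⟨⟨_, rfl⟩⟩
    rw [this, map_one]
    rfl

end gen

variable {N : ℕ} {E : Type u} [Field E] {f : E[X]} [hG : IsGood N f]

lemma r08_hs_injective : Function.Injective (Pt.hs : Pt N f → HeightOneSpectrum (NRing N f)) :=
  fun _ _ h => Pt.ideal_injective (congrArg HeightOneSpectrum.asIdeal h)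

lemma r08_hs_surjective : Function.Surjective (Pt.hs : Pt N f → HeightOneSpectrum (NRing N f)) := by
  intro v
  obtain ⟨P, hP⟩ := exists_pt_of_prime v.asIdeal v.isPrime v.ne_bot
  exact ⟨P, HeightOneSpectrum.ext hP⟩

lemma r08_cl : (cl : (Pt N f →₀ ℤ) →+ Jac N f) = r08Cl Pt.hs := rfl

lemma cl_surjective : Function.Surjective (cl : (Pt N f →₀ ℤ) →+ Jac N f) := by
  rw [r08_cl]
  exact r08_surjective Pt.hs (FunField N f) r08_hs_injective r08_hs_surjective

lemma cl_div (h : (FunField N f)ˣ) : cl (div h) = 0 := by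
  rw [r08_cl]
  exact (r08_cl_eq_zero_iff Pt.hs r08_hs_injective r08_hs_surjective _).mpr ⟨h, fun _ => rfl⟩

lemma exists_div_of_cl_eq_zero (D : Pt N f →₀ ℤ) (hD : cl D = 0) :
    ∃ h : (FunField N f)ˣ, div h = D := by
  rw [r08_cl] at hD
  obtain ⟨h, hh⟩ := (r08_cl_eq_zero_iff (R := NRing N f) (K := FunField N f) (T := Pt N f) Pt.hs
    r08_hs_injective r08_hs_surjective D).mp hD
  refine ⟨h, Finsupp.ext fun P => ?_⟩
  rw [hh P]
  rfl

end Pool.Agent.Lib.MP_89bcae_ag.Wt
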