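import Mathlib
import Pool.Agent.Lib.MP_89bcae_ag.Bk.K012
import Pool.Agent.Lib.MP_89bcae_ag.Bk.K014

section

/-!
# Functoriality of the class of a divisor

ROW W09 (150 lines) = the lemmas `funMap_unif`, `map_ideal` of this file.
PROOFS. `funMap_unif`: `funMap_yF`, `funMap_polyF`, `wt_map`.
`map_ideal`: let `J = P.ideal.map φ`, `φ = coordMap N σ h`, `P' = P.map σ h`. `J ≤ P'.ideal` by
`evalPt_coordMap`; `J ≠ ⊥` (it contains `x - σ(P.x)`). So `P'.ideal ∣ J`, `J = P'.ideal * K`. If `K ≠ ⊤` then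
`K ≤ Q.ideal` for some point `Q` (`Ideal.exists_le_maximal`, `exists_pt_of_prime`). For `a` in `P.ideal`,
`evalPt Q (φ a) = 0`; with `a = ofPoly (X - C P.x)`, `a = yy - ofPoly (C P.y)` this gives `Q = P'`
(`coordMap_ofPoly`, `coordMap_yy`). So `J ≤ P'.ideal ^ 2`. If `P.y ≠ 0` then
`φ (ofPoly (X - C P.x)) = ofPoly (X - C P'.x)` is not in `P'.ideal ^ 2` (`ofPoly_sub_pow`). If `P.y = 0` let `a` be
the element of `exists_unif` for `θ = P.x`: its order at `P` is `1` (`ord_unif`), so it is in `P.ideal`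
(`ord_pos_iff`), and `φ a` is the element of `exists_unif` for `σ θ` (`funMap_unif`), of order `1` at `P'`, so not
in `P'.ideal ^ 2` (`intValuation_le_pow_iff_mem`, as in `W05`).
-/

open Polynomial IsDedekindDomain

open scoped Classical nonZeroDivisors TensorProduct

namespace Pool.Agent.Lib.MP_89bcae_ag.Wt

universe u

/-- The fractional ideal of an ideal is isomorphic to the ideal. -/
noncomputable def R09_equiv (R : Type u) [CommRing R] [IsDedekindDomain R] (I : (Ideal R)⁰) :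
    ((FractionalIdeal.unitsMulEquivSubmodule (FractionalIdeal.mk0 (FractionRing R) I) : 
      (Submodule R (FractionRing R))ˣ) : Submodule R (FractionRing R)) ≃ₗ[R] I.1 := by
  refine (LinearEquiv.ofBijective ((Algebra.linearMap R (FractionRing R)).restrict (p := I.1) ?_) ⟨?_, ?_⟩).symm
  · intro x hx
    show algebraMap R (FractionRing R) x ∈ ((FractionalIdeal.mk0 (FractionRing R) I : FractionalIdeal R⁰ (FractionRing R)) : Submodule R (FractionRing R))
    rw [FractionalIdeal.coe_mk0]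
    exact FractionalIdeal.mem_coeIdeal_of_mem _ hx
  · intro x y h
    have h1 := congrArg Subtype.val h
    exact Subtype.ext (IsFractionRing.injective R (FractionRing R) h1)
  · rintro ⟨y, hy⟩
    have hy' : y ∈ (FractionalIdeal.mk0 (FractionRing R) I : FractionalIdeal R⁰ (FractionRing R)) := hy
    rw [FractionalIdeal.coe_mk0, FractionalIdeal.mem_coeIdeal] at hy'
    obtain ⟨x, hx, rfl⟩ := hy'
    exact ⟨⟨x, hx⟩, rfl⟩

lemma R09_invertible (R : Type u) [CommRing R] [IsDedekindDomain R] (I : (Ideal R)⁰) :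
    Module.Invertible R I.1 := Module.Invertible.congr (R09_equiv R I)

lemma R09_equivPic_mk0 (R : Type u) [CommRing R] [IsDedekindDomain R] (I : (Ideal R)⁰) [Module.Invertible R I.1] :
    ClassGroup.equivPic R (ClassGroup.mk0 I) = CommRing.Pic.mk R I.1 := by
  rw [ClassGroup.mk0_eq_quotientMk]
  have h : ClassGroup.equivPic R (QuotientGroup.mk (FractionalIdeal.mk0 (FractionRing R) I)) =
    Submodule.unitsToPic R (FractionRing R) 
      (FractionalIdeal.unitsMulEquivSubmodule (FractionalIdeal.mk0 (FractionRing R) I)) := rfl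
  refine h.trans ?_
  rw [Submodule.unitsToPic_apply, CommRing.Pic.mk_eq_mk_iff]
  exact ⟨R09_equiv R I⟩

/-- base change of an ideal -/
lemma R09_map {R S : Type u} [CommRing R] [CommRing S] (φ : R →+* S) (I : Ideal R) (J : Ideal S)
    [Module.Invertible R I] [Module.Invertible S J] (h : I.map φ = J) :
    CommRing.Pic.mapRingHom φ (CommRing.Pic.mk R I) = CommRing.Pic.mk S J := by
  let _ := φ.toAlgebra
  show CommRing.Pic.mapAlgebra R S (CommRing.Pic.mk R I) = CommRing.Pic.mk S J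
  rw [CommRing.Pic.mapAlgebra_apply, CommRing.Pic.mk_eq_mk_iff]
  have e1 : S ⊗[R] (CommRing.Pic.mk R I : CommRing.Pic R) ≃ₗ[S] S ⊗[R] I :=
    TensorProduct.AlgebraTensorModule.congr (LinearEquiv.refl S S) (CommRing.Pic.mk.linearEquiv R I)
  refine ⟨e1 ≪≫ₗ ?_⟩
  -- the multiplication map
  have hmem : ∀ x : I, φ x ∈ J := fun x => h ▸ Ideal.mem_map_of_mem φ x.2
  let g0 : I →ₗ[R] J :=
    { toFun := fun x => ⟨φ x, hmem x⟩
      map_add' := fun x y => Subtype.ext (by simp)
      map_smul' := fun r x => Subtype.ext (by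
        show φ (r * x) = ((r • (⟨φ x, hmem x⟩ : J) : J) : S)
        rw [map_mul]
        rfl) }
  let g : S ⊗[R] I →ₗ[S] J := TensorProduct.AlgebraTensorModule.lift
    ((LinearMap.toSpanSingleton S (I →ₗ[R] J) g0))
  have hg : ∀ (s : S) (x : I), ((g (s ⊗ₜ x) : J) : S) = s * φ x := by
    intro s x
    rfl
  have key : ∀ y ∈ Submodule.span S (φ '' (I : Set R)), ∃ t : S ⊗[R] I, ((g t : J) : S) = y := by
    intro y hy
    induction hy using Submodule.span_induction with
    | mem y hy =>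
      obtain ⟨x, hx, rfl⟩ := hy
      exact ⟨1 ⊗ₜ ⟨x, hx⟩, by rw [hg, one_mul]⟩
    | zero => exact ⟨0, by rw [map_zero]; rfl⟩
    | add y z _ _ hy hz =>
      obtain ⟨s, hs⟩ := hy
      obtain ⟨t, ht⟩ := hz
      exact ⟨s + t, by rw [map_add]; show ((g s : J) : S) + ((g t : J) : S) = _; rw [hs, ht]⟩
    | smul a y _ hy =>
      obtain ⟨s, hs⟩ := hy
      exact ⟨a • s, by rw [map_smul]; show a * ((g s : J) : S) = _; rw [hs]; rfl⟩
  refine LinearEquiv.ofBijective g (Module.Invertible.bijective_of_surjective ?_)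
  rintro ⟨y, hy⟩
  have hy2 : y ∈ Submodule.span S (φ '' (I : Set R)) := by
    have h3 : y ∈ I.map φ := by rw [h]; exact hy
    exact h3
  obtain ⟨t, ht⟩ := key y hy2
  exact ⟨t, Subtype.ext ht⟩

variable {N : ℕ} {E E' : Type u} [Field E] [Field E'] {f : E[X]} {f' : E'[X]} [hG : IsGood N f]
  [hG' : IsGood N f']

lemma R09_unif (θ : E) : ((unif θ : (FunField N f)ˣ) : FunField N f) =
    yF ^ al N (wt f θ) * (polyF (X - C θ) ^ be N (wt f θ))⁻¹ := by
  unfold unif
  rw [Units.val_mul, Units.val_pow_eq_pow_val, Units.val_inv_eq_inv_val, Units.val_pow_eq_pow_val]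
  rfl

lemma funMap_unif (σ : E →+* E') (h : f.map σ = f') (θ : E) :
    funMap N σ h ((unif θ : (FunField N f)ˣ) : FunField N f) =
      ((unif (σ θ) : (FunField N f')ˣ) : FunField N f') := by
  rw [R09_unif, R09_unif, map_mul, map_inv₀, map_pow, map_pow, funMap_yF, funMap_polyF, wt_map σ h,
    Polynomial.map_sub, map_X, map_C]

omit hG' in
lemma R09_mem_map {σ : E →+* E'} {h : f.map σ = f'} {P : Pt N f} {a : NRing N f}
    (ha : evalPt P a = 0) : coordMap N σ h a ∈ P.ideal.map (coordMap N σ h) :=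
  Ideal.mem_map_of_mem _ ((mem_ideal P a).mpr ha)

/-- The image of the ideal of `P` is not contained in the square of the ideal of the image. -/
lemma R09_not_le (σ : E →+* E') (h : f.map σ = f') (P : Pt N f) :
    ¬ P.ideal.map (coordMap N σ h) ≤ (Pt.map σ h P).ideal ^ 2 := by
  intro hle
  have hx : (Pt.map σ h P).x = σ P.x := rfl
  have hy : (Pt.map σ h P).y = σ P.y := rfl
  by_cases hy0 : P.y = 0
  · -- the ramified case
    have hθ : f.eval P.x = 0 := eval_of_y_eq_zero P hy0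
    obtain ⟨a, ha⟩ := exists_unif (N := N) hθ
    have h1 : evalPt P a = 0 := by
      rw [← ord_pos_iff P a (unif P.x) ha.symm, ord_unif P hy0]
      exact one_pos
    have h2 := hle (R09_mem_map (σ := σ) (h := h) h1)
    have hy0' : (Pt.map σ h P).y = 0 := by rw [hy, hy0, map_zero]
    have h3 : ((unif (Pt.map σ h P).x : (FunField N f')ˣ) : FunField N f') =
        algebraMap (NRing N f') (FunField N f') (coordMap N σ h a) := by
      rw [hx, ← funMap_unif σ h, ← ha]
      rfl
    have h4 := ord_unif (Pt.map σ h P) hy0'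
    unfold ord at h4
    rw [h3, HeightOneSpectrum.valuation_of_algebraMap] at h4
    have h5 := ((Pt.map σ h P).hs.intValuation_le_pow_iff_mem (coordMap N σ h a) 2).mpr h2
    have h0 : coordMap N σ h a ≠ 0 := by
      intro h0
      rw [h0, map_zero] at h3
      exact (unif (Pt.map σ h P).x : (FunField N f')ˣ).ne_zero h3
    have h6 := (WithZero.log_le_iff_le_exp ((Pt.map σ h P).hs.intValuation_ne_zero _ h0)).mpr h5
    push_cast at h6
    omega
  · have h1 : evalPt P (ofPoly (X - C P.x)) = 0 := by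
      rw [evalPt_ofPoly, eval_sub, eval_X, eval_C, sub_self]
    have h2 := hle (R09_mem_map (σ := σ) (h := h) h1)
    rw [coordMap_ofPoly, Polynomial.map_sub, map_X, map_C] at h2
    refine (ofPoly_sub_pow (Pt.map σ h P)).1 ?_ h2
    rw [hy]
    exact (map_ne_zero σ).mpr hy0

lemma map_ideal (σ : E →+* E') (h : f.map σ = f') (P : Pt N f) :
    P.ideal.map (coordMap N σ h) = (Pt.map σ h P).ideal := by
  have hle : P.ideal.map (coordMap N σ h) ≤ (Pt.map σ h P).ideal := by
    rw [Ideal.map_le_iff_le_comap]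
    intro a ha
    rw [Ideal.mem_comap, mem_ideal, evalPt_coordMap, (mem_ideal P a).mp ha, map_zero]
  obtain ⟨K, hK⟩ := Ideal.dvd_iff_le.mpr hle
  by_cases hKt : K = ⊤
  · rw [hK, hKt, Ideal.mul_top]
  · exfalso
    obtain ⟨M, hM, hKM⟩ := Ideal.exists_le_maximal K hKt
    have hx : evalPt P (ofPoly (X - C P.x)) = 0 := by
      rw [evalPt_ofPoly, eval_sub, eval_X, eval_C, sub_self]
    have hy : evalPt P (yy - ofPoly (C P.y)) = 0 := by
      rw [map_sub, evalPt_yy, evalPt_ofPoly, eval_C, sub_self]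
    have hJM : P.ideal.map (coordMap N σ h) ≤ M := by
      rw [hK]
      exact Ideal.mul_le_right.trans hKM
    have hxM : (ofPoly (X - C (σ P.x)) : NRing N f') ∈ M := by
      have h1 := hJM (R09_mem_map (σ := σ) (h := h) hx)
      rwa [coordMap_ofPoly, Polynomial.map_sub, map_X, map_C] at h1
    have hyM : (yy - ofPoly (C (σ P.y)) : NRing N f') ∈ M := by
      have h1 := hJM (R09_mem_map (σ := σ) (h := h) hy)
      rwa [map_sub, coordMap_yy, coordMap_ofPoly, map_C] at h1
    have hM0 : M ≠ ⊥ := by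
      intro h0
      rw [h0, Ideal.mem_bot] at hxM
      exact X_sub_C_ne_zero _ (ofPoly_injective (N := N) (f := f') (hxM.trans (map_zero _).symm))
    obtain ⟨Q, hQ⟩ := exists_pt_of_prime M hM.isPrime hM0
    rw [← hQ, mem_ideal, evalPt_ofPoly, eval_sub, eval_X, eval_C, sub_eq_zero] at hxM
    rw [← hQ, mem_ideal, map_sub, evalPt_yy, evalPt_ofPoly, eval_C, sub_eq_zero] at hyM
    have hQP : Q = Pt.map σ h P := Pt.ext hxM hyM
    refine R09_not_le σ h P ?_
    rw [hK, pow_two]
    refine Ideal.mul_mono_right ?_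
    rw [← hQP, hQ]
    exact hKM

lemma R09_clPt (σ : E →+* E') (h : f.map σ = f') (P : Pt N f) :
    jacMap N σ h (clPt P) = clPt (Pt.map σ h P) := by
  have i1 : Module.Invertible (NRing N f) P.ideal := R09_invertible (NRing N f)
    ⟨P.ideal, mem_nonZeroDivisors_of_ne_zero P.ideal_ne_bot⟩
  have i2 : Module.Invertible (NRing N f') (Pt.map σ h P).ideal := R09_invertible (NRing N f')
    ⟨(Pt.map σ h P).ideal, mem_nonZeroDivisors_of_ne_zero (Pt.map σ h P).ideal_ne_bot⟩
  have h1 : CommRing.Pic.mapRingHom (coordMap N σ h) (ClassGroup.equivPic (NRing N f)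
      (ClassGroup.mk0 ⟨P.ideal, mem_nonZeroDivisors_of_ne_zero P.ideal_ne_bot⟩)) =
      ClassGroup.equivPic (NRing N f') (ClassGroup.mk0
        ⟨(Pt.map σ h P).ideal, mem_nonZeroDivisors_of_ne_zero (Pt.map σ h P).ideal_ne_bot⟩) := by
    rw [R09_equivPic_mk0, R09_equivPic_mk0]
    refine R09_map (coordMap N σ h) P.ideal (Pt.map σ h P).ideal ?_
    exact map_ideal σ h P
  exact congrArg Additive.ofMul h1

lemma jacMap_cl (σ : E →+* E') (h : f.map σ = f') (D : Pt N f →₀ ℤ) :
    jacMap N σ h (cl D) = cl (D.mapDomain (Pt.map σ h)) := by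
  induction D using Finsupp.induction_linear with
  | zero => rw [map_zero, map_zero, Finsupp.mapDomain_zero, map_zero]
  | add D D' h1 h2 => rw [map_add, map_add, h1, h2, Finsupp.mapDomain_add, map_add]
  | single P n =>
    rw [Finsupp.mapDomain_single]
    have e1 : cl (Finsupp.single P n) = n • clPt P := by
      rw [cl, Finsupp.liftAddHom_apply_single, zmultiplesHom_apply]
    have e2 : cl (Finsupp.single (Pt.map σ h P) n) = n • clPt (Pt.map σ h P) := by
      rw [cl, Finsupp.liftAddHom_apply_single, zmultiplesHom_apply]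
    rw [e1, e2, map_zsmul, R09_clPt]

/-- The action of `Sym f` on the Jacobian. -/
noncomputable def symJ (σ : Sym f) : Jac N f →+ Jac N f :=
  jacMap N ((σ : E ≃+* E) : E →+* E) σ.2

lemma symJ_cl (σ : Sym f) (D : Pt N f →₀ ℤ) :
    symJ σ (cl D) = cl (D.mapDomain (Pt.sym σ)) := jacMap_cl _ _ D

end Pool.Agent.Lib.MP_89bcae_ag.Wt

end

section

/-!
ROW R16 (80-150 lines). The automorphism `Z` of the Jacobian induced by `(x, y) ↦ (x, ζ y)`.

PROOF. `cl` is surjective with kernel the divisors of functions (R08), and this kernel is stable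
under `D ↦ D.mapDomain (Pt.rot ζ)` because `(div u).mapDomain (rot) = div (rot⁻¹ u)`
(`div_rotU_symm`); so `Z` exists (e.g. via `QuotientAddGroup.lift`, or choose for each class a
divisor). `∑_{i<N} Z^i [P] = cl (div (x - P.x)) = 0` by `div_xs`, and these classes generate.
The classes of the points generate, so `Z` commutes with `symJ σ` if `σ ζ = ζ` as
`(P.rot ζ).sym σ = (P.sym σ).rot ζ`; and with `jacMap N σ` (`ζ ↦ σ ζ`) for a homomorphism `σ`.
-/

open Polynomial IsDedekindDomain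

open scoped Classical

namespace Pool.Agent.Lib.MP_89bcae_ag.Wt

universe u

variable {N : ℕ} {E : Type u} [Field E] {f : E[X]} [hG : IsGood N f]

lemma exists_zJ (ζ : E) (hζ : ζ ^ N = 1) : ∃ Z : Jac N f →+ Jac N f, ∀ D : Pt N f →₀ ℤ,
    Z (cl D) = cl (D.mapDomain (Pt.rot ζ hζ)) := by
  have h0 : ζ ≠ 0 := by
    intro h
    rw [h, zero_pow hG.ne] at hζ
    exact zero_ne_one hζ
  set g : (Pt N f →₀ ℤ) →+ Jac N f :=
    (cl : (Pt N f →₀ ℤ) →+ Jac N f).comp (Finsupp.mapDomain.addMonoidHom (Pt.rot ζ hζ)) with hg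
  have hker : (cl : (Pt N f →₀ ℤ) →+ Jac N f).ker ≤ g.ker := by
    intro D hD
    rw [AddMonoidHom.mem_ker] at hD ⊢
    obtain ⟨u, hu⟩ := exists_div_of_cl_eq_zero D hD
    change cl (D.mapDomain (Pt.rot ζ hζ)) = 0
    rw [← hu, ← div_rotU_symm ζ hζ h0, cl_div]
  refine ⟨(cl : (Pt N f →₀ ℤ) →+ Jac N f).liftOfSurjective cl_surjective ⟨g, hker⟩,
    fun D => ?_⟩
  exact AddMonoidHom.liftOfRightInverse_comp_apply _ _ _ ⟨g, hker⟩ D

/-- The automorphism of the Jacobian induced by `(x, y) ↦ (x, ζ y)`. -/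
noncomputable def zJ (ζ : E) (hζ : ζ ^ N = 1) : Jac N f →+ Jac N f := (exists_zJ ζ hζ).choose

lemma zJ_cl (ζ : E) (hζ : ζ ^ N = 1) (D : Pt N f →₀ ℤ) :
    zJ ζ hζ (cl D) = cl (D.mapDomain (Pt.rot ζ hζ)) := (exists_zJ ζ hζ).choose_spec D

lemma sum_zJ (ζ : E) (hζ : IsPrimitiveRoot ζ N) (Q : Jac N f) :
    ∑ i ∈ Finset.range N, (zJ ζ hζ.pow_eq_one)^[i] Q = 0 := by
  have hit : ∀ (i : ℕ) (D : Pt N f →₀ ℤ), (zJ ζ hζ.pow_eq_one)^[i] (cl D) =
      cl (D.mapDomain ((Pt.rot ζ hζ.pow_eq_one)^[i])) := by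
    intro i D
    induction i with
    | zero =>
      rw [Function.iterate_zero, Function.iterate_zero, id_eq, Finsupp.mapDomain_id]
    | succ i ih =>
      rw [Function.iterate_succ_apply', ih, zJ_cl, ← Finsupp.mapDomain_comp,
        Function.iterate_succ']
  obtain ⟨D, rfl⟩ := cl_surjective Q
  rw [Finset.sum_congr rfl fun i _ => hit i D]
  induction D using Finsupp.induction_linear with
  | zero =>
    refine Finset.sum_eq_zero fun i _ => ?_
    rw [Finsupp.mapDomain_zero, map_zero]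
  | add D D' h h' =>
    rw [Finset.sum_congr rfl fun i _ => by rw [Finsupp.mapDomain_add, map_add],
      Finset.sum_add_distrib, h, h', add_zero]
  | single P n =>
    have h1 : ∀ i ∈ Finset.range N, cl ((Finsupp.single P n).mapDomain
        ((Pt.rot ζ hζ.pow_eq_one)^[i])) =
        n • cl (Finsupp.single ((Pt.rot ζ hζ.pow_eq_one)^[i] P) (1 : ℤ)) := by
      intro i _
      rw [Finsupp.mapDomain_single, ← map_zsmul, Finsupp.smul_single, smul_eq_mul, mul_one]
    rw [Finset.sum_congr rfl h1, ← Finset.smul_sum, ← map_sum, ← div_xs ζ hζ P, cl_div,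
      smul_zero]

lemma zJ_symJ (ζ : E) (hζ : ζ ^ N = 1) (σ : Sym f) (hσ : (σ : E ≃+* E) ζ = ζ) (Q : Jac N f) :
    zJ ζ hζ (symJ σ Q) = symJ σ (zJ ζ hζ Q) := by
  obtain ⟨D, rfl⟩ := cl_surjective Q
  rw [symJ_cl, zJ_cl, zJ_cl, symJ_cl, ← Finsupp.mapDomain_comp, ← Finsupp.mapDomain_comp]
  congr 2
  funext P
  apply Pt.ext
  · rfl
  · change ζ * (σ : E ≃+* E) P.y = (σ : E ≃+* E) (ζ * P.y)
    rw [map_mul, hσ]

lemma zJ_jacMap {E' : Type u} [Field E'] {f' : E'[X]} [hG' : IsGood N f'] (σ : E →+* E')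
    (h : f.map σ = f') (ζ : E) (hζ : ζ ^ N = 1) (hζ' : (σ ζ) ^ N = 1) (Q : Jac N f) :
    zJ (σ ζ) hζ' (jacMap N σ h Q) = jacMap N σ h (zJ ζ hζ Q) := by
  obtain ⟨D, rfl⟩ := cl_surjective Q
  rw [jacMap_cl, zJ_cl, zJ_cl, jacMap_cl, ← Finsupp.mapDomain_comp, ← Finsupp.mapDomain_comp]
  congr 2
  funext P
  apply Pt.ext
  · rfl
  · change σ ζ * σ P.y = σ (ζ * P.y)
    rw [map_mul]

end Pool.Agent.Lib.MP_89bcae_ag.Wt

end
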