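import Mathlib
import Pool.Agent.Lib.MP_89bcae_ag.Bk.K013

/-!
ROW R13 (200-350 lines). The point at infinity: a function whose affine divisor has degree `0` is,
up to a constant `c`, zero at infinity.

STATEMENT: if `∑_P ord_P(h) = 0` then for some constant `c` either `h = c`, or `h - c ≠ 0` and
`∑_P ord_P(h - c) < 0`.

PROOF. For a nonzero `a = ∑_{i<N} p_i(x) y^i` of the coordinate ring let
`W(a) = max_{p_i ≠ 0} (N deg p_i + i m)`, `m = deg f`. As `m` is prime to `N` the numbers
`N deg p_i + i m` are different modulo `N`, so the maximum is attained exactly once.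
(1) `W(a b) = W(a) + W(b)`: in `a b = ∑ p_i q_j y^(i+j)`, `y^(i+j) = f y^(i+j-N)` if `i + j ≥ N`, the
term `(i, j)` contributes to the component `(i+j) mod N` a polynomial of weight exactly
`(N deg p_i + i m) + (N deg q_j + j m)` (`deg f = m` accounts for the carry), and all pairs except
the pair of the two maxima have strictly smaller weight; in the component of that pair the degree
is therefore exactly the one of this term, and all other components have smaller weight.
(2) `W(rot a) = W(a)` clearly, so for `N = ∏ rot^i a` in `E[x]` (see `R10`): `N W(a) = W(N)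
= N deg N`, `W(a) = deg N`.
(3) `∑_P ord_P(a) = deg N = W(a)`: by `exists_nrm_eq` (R10), `N = c ∏_P (x - P.x)^{ord_P(a)}`
(here all `ord_P(a) ≥ 0`, so this is an equality of polynomials, by `ofPoly_injective`), whose
degree is `∑_P ord_P(a)`.
(4) `h = a / q` with `q` in `E[x]` (multiply by conjugates as in R10); then
`0 = ∑ ord_P(h) = W(a) - W(q)`, `W(q) = N deg q`. So the unique maximum of
`N deg p_i + i m` is `≡ 0` modulo `N`, so `i = 0`, `deg p_0 = deg q`, and with
`c = lc(p_0)/lc(q)` either `a = c q` or `W(a - c q) < W(q)`, and `∑ ord_P(h - c) = W(a - c q) - W(q)`.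
-/

open Polynomial IsDedekindDomain

open scoped Classical

namespace Pool.Agent.Lib.MP_89bcae_ag.Wt

universe u

variable {N : ℕ} {E : Type u} [Field E] {f : E[X]} [hG : IsGood N f]

/-- The degree of a divisor. -/
noncomputable def dg (D : Pt N f →₀ ℤ) : ℤ := D.sum fun _ n => n

private lemma r13_rotE_ofPoly (ζ : E) (hζ : ζ ^ N = 1) (h0 : ζ ≠ 0) (p : E[X]) :
    rotE ζ hζ h0 (ofPoly p : NRing N f) = ofPoly p := rotC_ofPoly ζ hζ p

private lemma r13_rotE_yy (ζ : E) (hζ : ζ ^ N = 1) (h0 : ζ ≠ 0) :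
    rotE ζ hζ h0 (yy : NRing N f) = ofPoly (C ζ) * yy := rotC_yy ζ hζ

private lemma r13_rot (ζ : E) (hζ : ζ ^ N = 1) (h0 : ζ ≠ 0) (p : ℕ → E[X]) (u : (FunField N f)ˣ)
    (hu : (u : FunField N f) = algebraMap (NRing N f) (FunField N f)
      (∑ j ∈ Finset.range N, ofPoly (p j) * yy ^ j)) (k : ℕ) :
    (((rotU ζ hζ h0)^[k] u : (FunField N f)ˣ) : FunField N f) = algebraMap (NRing N f) (FunField N f)
      (∑ j ∈ Finset.range N, ofPoly (C (ζ ^ (k * j)) * p j) * yy ^ j) := by
  induction k with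
  | zero =>
    rw [Function.iterate_zero, id, hu]
    congr 1
    refine Finset.sum_congr rfl fun j _ => ?_
    rw [zero_mul, pow_zero, C_1, one_mul]
  | succ k ih =>
    rw [Function.iterate_succ_apply']
    have h1 : ((rotU ζ hζ h0 ((rotU ζ hζ h0)^[k] u) : (FunField N f)ˣ) : FunField N f) =
        autF (rotE ζ hζ h0) (((rotU ζ hζ h0)^[k] u : (FunField N f)ˣ) : FunField N f) := rfl
    rw [h1, ih, autF_algebraMap, map_sum]
    congr 1
    refine Finset.sum_congr rfl fun j _ => ?_
    have h2 : rotE ζ hζ h0 ((yy : NRing N f) ^ j) = ofPoly (C (ζ ^ j)) * yy ^ j := by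
      rw [map_pow, r13_rotE_yy, mul_pow, ← map_pow, ← C_pow]
    rw [map_mul, h2, r13_rotE_ofPoly, ← mul_assoc, ← map_mul]
    congr 2
    rw [Nat.succ_mul, pow_add, C_mul]
    ring

/-- the terms of the norm -/
private noncomputable def TT (N : ℕ) (f : E[X]) (ζ : E) (p : ℕ → E[X]) (φ : Fin N → Fin N) :
    E[X] :=
  (∏ k : Fin N, (C (ζ ^ ((k : ℕ) * (φ k : ℕ))) * p (φ k))) * f ^ ((∑ k, (φ k : ℕ)) / N)

private noncomputable def HH (N : ℕ) (f : E[X]) (ζ : E) (p : ℕ → E[X]) (j : ℕ) : E[X] :=
  ∑ φ ∈ (Finset.univ : Finset (Fin N → Fin N)).filter (fun φ => (∑ k, (φ k : ℕ)) % N = j),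
    TT N f ζ p φ

private lemma r13_yy_pow (s : ℕ) :
    (yy : NRing N f) ^ s = ofPoly (f ^ (s / N)) * yy ^ (s % N) := by
  conv_lhs => rw [← Nat.div_add_mod s N]
  rw [pow_add, pow_mul, yy_pow, map_pow]

private lemma r13_norm_poly (hN : 0 < N) (ζ : E) (p : ℕ → E[X]) :
    ∏ k ∈ Finset.range N, (∑ j ∈ Finset.range N,
      (ofPoly (C (ζ ^ (k * j)) * p j) : NRing N f) * yy ^ j) =
      ∑ j ∈ Finset.range N, ofPoly (HH N f ζ p j) * yy ^ j := by
  rw [Finset.prod_range]
  have h1 : ∀ k : Fin N, (∑ j ∈ Finset.range N,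
      (ofPoly (C (ζ ^ ((k : ℕ) * j)) * p j) : NRing N f) * yy ^ j) =
      ∑ j : Fin N, (ofPoly (C (ζ ^ ((k : ℕ) * (j : ℕ))) * p j) : NRing N f) * yy ^ (j : ℕ) :=
    fun k => Finset.sum_range _
  rw [Finset.prod_congr rfl fun k _ => h1 k, Finset.prod_univ_sum, Fintype.piFinset_univ]
  have h2 : ∀ φ : Fin N → Fin N, (∏ k : Fin N,
      (ofPoly (C (ζ ^ ((k : ℕ) * (φ k : ℕ))) * p (φ k)) : NRing N f) * yy ^ (φ k : ℕ)) =
      ofPoly (TT N f ζ p φ) * yy ^ ((∑ k, (φ k : ℕ)) % N) := by
    intro φ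
    rw [Finset.prod_mul_distrib, Finset.prod_pow_eq_pow_sum, r13_yy_pow, TT, map_mul, map_prod]
    ring
  rw [Finset.sum_congr rfl fun φ _ => h2 φ]
  have h3 := Finset.sum_fiberwise_of_maps_to
    (s := (Finset.univ : Finset (Fin N → Fin N))) (t := Finset.range N)
    (g := fun φ => (∑ k, (φ k : ℕ)) % N)
    (fun φ _ => Finset.mem_range.mpr (Nat.mod_lt _ hN))
    (fun φ => (ofPoly (TT N f ζ p φ) : NRing N f) * yy ^ ((∑ k, (φ k : ℕ)) % N))
  rw [← h3]
  refine Finset.sum_congr rfl fun j _ => ?_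
  rw [HH, map_sum, Finset.sum_mul]
  refine Finset.sum_congr rfl fun φ hφ => ?_
  rw [(Finset.mem_filter.mp hφ).2]

/-- `i0` is the index of the maximal weight `w` -/
private structure Top (N m : ℕ) (p : ℕ → E[X]) (i0 w : ℕ) : Prop where
  lt : i0 < N
  ne : p i0 ≠ 0
  eq : N * (p i0).natDegree + i0 * m = w
  max : ∀ i < N, i ≠ i0 → p i ≠ 0 → N * (p i).natDegree + i * m < w

omit hG in
private lemma r13_top_inj {m : ℕ} (hc : m.Coprime N) {i j d e : ℕ} (hi : i < N) (hj : j < N)
    (h : N * d + i * m = N * e + j * m) : i = j := by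
  have h1 : i * m ≡ j * m [MOD N] := by
    have h2 : (N * d + i * m) % N = (N * e + j * m) % N := by rw [h]
    rw [Nat.mul_add_mod, Nat.mul_add_mod] at h2
    exact h2
  have h3 : i ≡ j [MOD N] := Nat.ModEq.cancel_right_of_coprime (by rwa [Nat.gcd_comm]) h1
  have h4 : i % N = j % N := h3
  rwa [Nat.mod_eq_of_lt hi, Nat.mod_eq_of_lt hj] at h4

omit hG in
private lemma r13_exists_top {m : ℕ} (hc : m.Coprime N) (p : ℕ → E[X])
    (h : ∃ i < N, p i ≠ 0) : ∃ i0 w, Top N m p i0 w := by
  obtain ⟨i, hi, hpi⟩ := h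
  have hne : ((Finset.range N).filter (fun i => p i ≠ 0)).Nonempty :=
    ⟨i, Finset.mem_filter.mpr ⟨Finset.mem_range.mpr hi, hpi⟩⟩
  obtain ⟨i0, hi0, hmax⟩ := Finset.exists_max_image _
    (fun i => N * (p i).natDegree + i * m) hne
  rw [Finset.mem_filter, Finset.mem_range] at hi0
  refine ⟨i0, _, hi0.1, hi0.2, rfl, ?_⟩
  intro j hj hji hpj
  have h1 := hmax j (Finset.mem_filter.mpr ⟨Finset.mem_range.mpr hj, hpj⟩)
  refine lt_of_le_of_ne h1 fun h2 => hji ?_
  exact r13_top_inj hc hj hi0.1 h2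

private lemma r13_TT_lt (hN : 0 < N) (ζ : E) (p : ℕ → E[X]) {i0 w : ℕ}
    (ht : Top N f.natDegree p i0 w) (φ : Fin N → Fin N) (hφ : ∃ k, (φ k : ℕ) ≠ i0) :
    (TT N f ζ p φ).coeff w = 0 ∧ (TT N f ζ p φ).natDegree ≤ w := by
  by_cases hz : ∃ k, p (φ k) = 0
  · obtain ⟨k, hk⟩ := hz
    have h0 : TT N f ζ p φ = 0 := by
      rw [TT, Finset.prod_eq_zero (Finset.mem_univ k) (by rw [hk, mul_zero]), zero_mul]
    rw [h0]
    simp
  · push Not at hz
    have h1 : (TT N f ζ p φ).natDegree ≤
        ∑ k : Fin N, (p (φ k)).natDegree + (∑ k, (φ k : ℕ)) / N * f.natDegree := by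
      rw [TT]
      refine natDegree_mul_le.trans (add_le_add ?_ natDegree_pow_le)
      refine (natDegree_prod_le _ _).trans (Finset.sum_le_sum fun k _ => ?_)
      exact natDegree_C_mul_le _ _
    have h2 : N * (TT N f ζ p φ).natDegree ≤
        ∑ k : Fin N, (N * (p (φ k)).natDegree + (φ k : ℕ) * f.natDegree) := by
      refine (Nat.mul_le_mul_left N h1).trans ?_
      rw [mul_add, Finset.sum_add_distrib, ← Finset.mul_sum, ← Finset.sum_mul, ← mul_assoc]
      refine Nat.add_le_add_left (Nat.mul_le_mul_right _ (Nat.mul_div_le _ _)) _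
    have h3 : ∑ k : Fin N, (N * (p (φ k)).natDegree + (φ k : ℕ) * f.natDegree) <
        ∑ _k : Fin N, w := by
      have hle : ∀ k : Fin N, N * (p (φ k)).natDegree + (φ k : ℕ) * f.natDegree ≤ w := by
        intro k
        by_cases h4 : (φ k : ℕ) = i0
        · rw [h4]
          exact ht.eq.le
        · exact (ht.max _ (φ k).2 h4 (hz k)).le
      obtain ⟨k, hk⟩ := hφ
      exact Finset.sum_lt_sum (fun k _ => hle k)
        ⟨k, Finset.mem_univ k, ht.max _ (φ k).2 hk (hz k)⟩
    rw [Finset.sum_const, Finset.card_univ, Fintype.card_fin, smul_eq_mul] at h3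
    have h4 : (TT N f ζ p φ).natDegree < w := by
      have := lt_of_le_of_lt h2 h3
      exact Nat.lt_of_mul_lt_mul_left this
    exact ⟨coeff_eq_zero_of_natDegree_lt h4, h4.le⟩

private lemma r13_f_ne (N : ℕ) {f : E[X]} [hG : IsGood N f] : f ≠ 0 := by
  intro h
  have h1 : f.natDegree ≠ 0 := natDegree_ne N f
  rw [h] at h1
  simp at h1

private lemma r13_TT_top (hN : 0 < N) (ζ : E) (h0 : ζ ≠ 0) (p : ℕ → E[X]) {i0 w : ℕ}
    (ht : Top N f.natDegree p i0 w) (φ : Fin N → Fin N) (hφ : ∀ k, (φ k : ℕ) = i0) :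
    (TT N f ζ p φ).coeff w ≠ 0 ∧ (TT N f ζ p φ).natDegree ≤ w := by
  have hf := r13_f_ne N (f := f)
  have hs : (∑ k, (φ k : ℕ)) / N = i0 := by
    rw [Finset.sum_congr rfl fun k _ => hφ k, Finset.sum_const, Finset.card_univ,
      Fintype.card_fin, smul_eq_mul, Nat.mul_div_cancel_left _ hN]
  have hfac : ∀ k : Fin N, C (ζ ^ ((k : ℕ) * (φ k : ℕ))) * p (φ k) ≠ 0 := by
    intro k
    refine mul_ne_zero (C_ne_zero.mpr (pow_ne_zero _ h0)) ?_
    rw [hφ k]
    exact ht.ne
  have hprod : (∏ k : Fin N, (C (ζ ^ ((k : ℕ) * (φ k : ℕ))) * p (φ k))) ≠ 0 :=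
    Finset.prod_ne_zero_iff.mpr fun k _ => hfac k
  have hne : TT N f ζ p φ ≠ 0 := mul_ne_zero hprod (pow_ne_zero _ hf)
  have hdeg : (TT N f ζ p φ).natDegree = w := by
    rw [TT, natDegree_mul hprod (pow_ne_zero _ hf), natDegree_pow, hs,
      natDegree_prod _ _ fun k _ => hfac k]
    have h1 : ∀ k : Fin N, (C (ζ ^ ((k : ℕ) * (φ k : ℕ))) * p (φ k)).natDegree =
        (p i0).natDegree := by
      intro k
      rw [natDegree_C_mul (pow_ne_zero _ h0), hφ k]
    rw [Finset.sum_congr rfl fun k _ => h1 k, Finset.sum_const, Finset.card_univ,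
      Fintype.card_fin, smul_eq_mul]
    exact ht.eq
  refine ⟨?_, hdeg.le⟩
  rw [← hdeg, coeff_natDegree, leadingCoeff_ne_zero]
  exact hne

private lemma r13_HH (hN : 0 < N) (ζ : E) (h0 : ζ ≠ 0) (p : ℕ → E[X]) {i0 w : ℕ}
    (ht : Top N f.natDegree p i0 w) : (HH N f ζ p 0).natDegree = w := by
  set φ0 : Fin N → Fin N := fun _ => ⟨i0, ht.lt⟩ with hφ0
  have hmem : φ0 ∈ (Finset.univ : Finset (Fin N → Fin N)).filter
      (fun φ => (∑ k, (φ k : ℕ)) % N = 0) := by
    rw [Finset.mem_filter]
    refine ⟨Finset.mem_univ _, ?_⟩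
    rw [hφ0]
    simp
  have hother : ∀ φ : Fin N → Fin N, φ ≠ φ0 → ∃ k, (φ k : ℕ) ≠ i0 := by
    intro φ hφ
    by_contra hno
    push Not at hno
    exact hφ (funext fun k => Fin.ext (hno k))
  apply natDegree_eq_of_le_of_coeff_ne_zero
  · rw [HH]
    refine natDegree_sum_le_of_forall_le _ _ fun φ _ => ?_
    by_cases h1 : φ = φ0
    · rw [h1]
      exact (r13_TT_top hN ζ h0 p ht φ0 fun k => rfl).2
    · exact (r13_TT_lt hN ζ p ht φ (hother φ h1)).2
  · rw [HH, finset_sum_coeff, Finset.sum_eq_single φ0]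
    · exact (r13_TT_top hN ζ h0 p ht φ0 fun k => rfl).1
    · intro φ _ h1
      exact (r13_TT_lt hN ζ p ht φ (hother φ h1)).1
    · intro h1
      exact absurd hmem h1

omit hG in
private lemma r13_dg_add (D D' : Pt N f →₀ ℤ) : dg (D + D') = dg D + dg D' := by
  unfold dg
  exact Finsupp.sum_add_index' (fun _ => rfl) (fun _ _ _ => rfl)

omit hG in
private lemma r13_dg_neg (D : Pt N f →₀ ℤ) : dg (-D) = - dg D := by
  have h := r13_dg_add D (-D)
  rw [add_neg_cancel] at h
  have h0 : dg (0 : Pt N f →₀ ℤ) = 0 := by simp [dg]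
  rw [h0] at h
  linarith

/-- the degree of the divisor of an element of the coordinate ring -/
private lemma r13_dg (ζ : E) (hζ : IsPrimitiveRoot ζ N) (p : ℕ → E[X]) (u : (FunField N f)ˣ)
    (hu : (u : FunField N f) = algebraMap (NRing N f) (FunField N f)
      (∑ j ∈ Finset.range N, ofPoly (p j) * yy ^ j)) {i0 w : ℕ}
    (ht : Top N f.natDegree p i0 w) : dg (div u) = w := by
  have hN : 0 < N := hG.pos
  have h0 : ζ ≠ 0 := hζ.ne_zero hN.ne'
  obtain ⟨c, hc⟩ := exists_nrm_eq ζ hζ h0 u
  have hnn : ∀ P, 0 ≤ div u P := fun P => ord_nonneg P _ u hu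
  -- the right hand side
  set G0 : E[X] := ∏ P ∈ (div u).support, (X - C P.x) ^ (div u P).toNat with hG0
  have hxp : ((xprod (div u) : (FunField N f)ˣ) : FunField N f) =
      algebraMap (NRing N f) (FunField N f) (ofPoly G0) := by
    rw [xprod, Finsupp.prod, hG0, map_prod, map_prod, Units.coe_prod]
    refine Finset.prod_congr rfl fun P _ => ?_
    have h1 : div u P = ((div u P).toNat : ℤ) := (Int.toNat_of_nonneg (hnn P)).symm
    rw [h1, zpow_natCast, Units.val_pow_eq_pow_val, map_pow, map_pow, Int.toNat_natCast]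
    rfl
  have hcst : ((cstU c : (FunField N f)ˣ) : FunField N f) =
      algebraMap (NRing N f) (FunField N f) (ofPoly (C (c : E))) := rfl
  have hlhs : ((nrm ζ hζ.pow_eq_one h0 u : (FunField N f)ˣ) : FunField N f) =
      algebraMap (NRing N f) (FunField N f) (∑ j ∈ Finset.range N, ofPoly (HH N f ζ p j) * yy ^ j) := by
    rw [nrm, Units.coe_prod, ← r13_norm_poly hN, map_prod]
    exact Finset.prod_congr rfl fun k _ => r13_rot ζ hζ.pow_eq_one h0 p u hu k
  have heq : (∑ j ∈ Finset.range N, ofPoly (HH N f ζ p j) * yy ^ j : NRing N f) =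
      ofPoly (C (c : E) * G0) := by
    apply IsFractionRing.injective (NRing N f) (FunField N f)
    rw [← hlhs, hc, Units.val_mul, hcst, hxp, map_mul, map_mul]
  have huniq := expand_unique_ring (N := N) (f := f)
    (fun j => HH N f ζ p j - if j = 0 then C (c : E) * G0 else 0) (by
      simp only [map_sub, sub_mul, Finset.sum_sub_distrib]
      rw [heq]
      rw [Finset.sum_eq_single 0]
      · simp
      · intro j _ hj
        rw [if_neg hj, map_zero, zero_mul]
      · intro h
        exact absurd (Finset.mem_range.mpr hN) h)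
  have hH0 := huniq 0 hN
  rw [if_pos rfl, sub_eq_zero] at hH0
  have hdeg := r13_HH hN ζ h0 p ht
  rw [hH0, natDegree_C_mul c.ne_zero, hG0, natDegree_prod _ _ fun P _ =>
    pow_ne_zero _ (X_sub_C_ne_zero _)] at hdeg
  rw [dg, Finsupp.sum, ← hdeg]
  push_cast
  refine Finset.sum_congr rfl fun P _ => ?_
  rw [natDegree_pow, natDegree_X_sub_C, mul_one]
  exact (Int.toNat_of_nonneg (hnn P)).symm

lemma exists_const_of_dg_eq_zero (ζ : E) (hζ : IsPrimitiveRoot ζ N) (h : (FunField N f)ˣ)
    (hd : dg (div h) = 0) :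
    ∃ c : E, (h : FunField N f) = cst c ∨ ∃ w : (FunField N f)ˣ,
      (w : FunField N f) = (h : FunField N f) - (cst c : FunField N f) ∧ dg (div w) < 0 := by
  have hN : 0 < N := hG.pos
  have hc := hG.coprime
  obtain ⟨a, b, p, q, hb0, hp, hq, hab⟩ := exists_quot (h : FunField N f)
  have ha0 : a ≠ 0 := by
    rintro rfl
    rw [map_zero, zero_div] at hab
    exact h.ne_zero hab.symm
  have hinj := IsFractionRing.injective (NRing N f) (FunField N f)
  have hex : ∀ (r : ℕ → E[X]) (x : NRing N f), x = ∑ i ∈ Finset.range N, ofPoly (r i) * yy ^ i →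
      x ≠ 0 → ∃ i < N, r i ≠ 0 := by
    intro r x hx hx0
    by_contra hno
    push Not at hno
    apply hx0
    rw [hx]
    refine Finset.sum_eq_zero fun i hi => ?_
    rw [hno i (Finset.mem_range.mp hi), map_zero, zero_mul]
  have hmapne : ∀ x : NRing N f, x ≠ 0 → algebraMap (NRing N f) (FunField N f) x ≠ 0 := fun x hx h1 =>
    hx (hinj (by rw [h1, map_zero]))
  obtain ⟨ia, wa, hta⟩ := r13_exists_top hc p (hex p a hp ha0)
  obtain ⟨ib, wb, htb⟩ := r13_exists_top hc q (hex q b hq hb0)
  set ua : (FunField N f)ˣ := Units.mk0 _ (hmapne a ha0) with hua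
  set ub : (FunField N f)ˣ := Units.mk0 _ (hmapne b hb0) with hub
  have hda : dg (div ua) = wa := r13_dg ζ hζ p ua (by rw [← hp]; rfl) hta
  have hdb : dg (div ub) = wb := r13_dg ζ hζ q ub (by rw [← hq]; rfl) htb
  have hh : h = ua * ub⁻¹ := by
    apply Units.ext
    rw [Units.val_mul, Units.val_inv_eq_inv_val, ← div_eq_mul_inv, ← hab]
    rfl
  have hdeg : dg (div h) = wa - wb := by
    rw [hh, div_mul, div_inv, r13_dg_add, r13_dg_neg, hda, hdb]
    ring
  have hw : wa = wb := by
    rw [hd] at hdeg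
    omega
  subst hw
  have hi : ia = ib := r13_top_inj hc hta.lt htb.lt (hta.eq.trans htb.eq.symm)
  subst hi
  have hdd : (p ia).natDegree = (q ia).natDegree := by
    have h1 := hta.eq.trans htb.eq.symm
    have h2 : N * (p ia).natDegree = N * (q ia).natDegree := by omega
    exact Nat.eq_of_mul_eq_mul_left hN h2
  set c : E := (p ia).leadingCoeff / (q ia).leadingCoeff with hcdef
  have hlq : (q ia).leadingCoeff ≠ 0 := leadingCoeff_ne_zero.mpr htb.ne
  have hlp : (p ia).leadingCoeff ≠ 0 := leadingCoeff_ne_zero.mpr hta.ne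
  have hc0 : c ≠ 0 := div_ne_zero hlp hlq
  refine ⟨c, ?_⟩
  have hcstc : (cst c : FunField N f) = algebraMap (NRing N f) (FunField N f) (ofPoly (C c)) := rfl
  have hbF := hmapne b hb0
  by_cases hz : a - ofPoly (C c) * b = 0
  · left
    rw [← hab, hcstc, div_eq_iff hbF, ← map_mul, sub_eq_zero.mp hz]
  · right
    set v : (FunField N f)ˣ := Units.mk0 _ (hmapne _ hz) with hv
    refine ⟨v * ub⁻¹, ?_, ?_⟩
    · rw [Units.val_mul, Units.val_inv_eq_inv_val, ← div_eq_mul_inv, ← hab, hcstc]
      have h1 : (v : FunField N f) = algebraMap (NRing N f) (FunField N f) (a - ofPoly (C c) * b) := rfl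
      have h2 : (ub : FunField N f) = algebraMap (NRing N f) (FunField N f) b := rfl
      rw [h1, h2, map_sub, map_mul]
      field_simp
    · set r : ℕ → E[X] := fun i => p i - C c * q i with hr
      have hrexp : a - ofPoly (C c) * b = ∑ i ∈ Finset.range N, ofPoly (r i) * yy ^ i := by
        conv_lhs => rw [hp, hq]
        rw [Finset.mul_sum, ← Finset.sum_sub_distrib]
        refine Finset.sum_congr rfl fun i _ => ?_
        rw [hr]
        simp only [map_sub, map_mul]
        ring
      obtain ⟨iv, wv, htv⟩ := r13_exists_top hc r (hex r _ hrexp hz)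
      have hdv : dg (div v) = wv := r13_dg ζ hζ r v (by rw [← hrexp]; rfl) htv
      have hlt : wv < wa := by
        rw [← htv.eq]
        by_cases hiv : iv = ia
        · have h1 : (r iv).natDegree < (p ia).natDegree := by
            rw [hiv]
            have h2 : (r ia).degree < (p ia).degree := by
              rw [hr]
              refine degree_sub_lt ?_ hta.ne ?_
              · rw [degree_C_mul hc0, degree_eq_natDegree hta.ne, degree_eq_natDegree htb.ne, hdd]
              · rw [leadingCoeff_mul, leadingCoeff_C, hcdef, div_mul_cancel₀ _ hlq]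
            have h3 : r ia ≠ 0 := by
              rw [← hiv]
              exact htv.ne
            exact (natDegree_lt_natDegree_iff h3).mpr h2
          have h4 := hta.eq
          have h5 : N * (r iv).natDegree < N * (p ia).natDegree :=
            Nat.mul_lt_mul_of_pos_left h1 hN
          rw [hiv] at h5 ⊢
          omega
        · have h1 : (r iv).natDegree ≤ max (p iv).natDegree (q iv).natDegree := by
            rw [hr]
            refine (natDegree_sub_le _ _).trans (max_le_max le_rfl (natDegree_C_mul_le _ _))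
          have h6 : ∀ s : ℕ → E[X], Top N f.natDegree s ia wa → s iv ≠ 0 →
              N * (s iv).natDegree + iv * f.natDegree < wa := fun s hs h7 =>
            hs.max iv htv.lt hiv h7
          by_cases hp0 : p iv = 0
          · have hq0 : q iv ≠ 0 := by
              intro h8
              apply htv.ne
              rw [hr]
              simp only [hp0, h8, mul_zero, sub_zero]
            have h9 := h6 q htb hq0
            rw [hp0, natDegree_zero, max_eq_right (Nat.zero_le _)] at h1
            have := Nat.mul_le_mul_left N h1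
            omega
          · have h9 := h6 p hta hp0
            by_cases hq0 : q iv = 0
            · rw [hq0, natDegree_zero, max_eq_left (Nat.zero_le _)] at h1
              have := Nat.mul_le_mul_left N h1
              omega
            · have h10 := h6 q htb hq0
              rcases le_total (p iv).natDegree (q iv).natDegree with h11 | h11
              · rw [max_eq_right h11] at h1
                have := Nat.mul_le_mul_left N h1
                omega
              · rw [max_eq_left h11] at h1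
                have := Nat.mul_le_mul_left N h1
                omega
      rw [div_mul, div_inv, r13_dg_add, r13_dg_neg, hdv, hdb]
      have : (wv : ℤ) < wa := by exact_mod_cast hlt
      linarith

end Pool.Agent.Lib.MP_89bcae_ag.Wt
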