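import Mathlib
import Pool.Agent.Lib.MP_89bcae_ag.Bk.K013
import Pool.Agent.Lib.MP_89bcae_ag.Bk.K014
import Pool.Agent.Lib.MP_89bcae_ag.Bk.K018

section

/-!
ROW R11 (80-150 lines). Hilbert's theorem 90 for the cyclic extension of function fields.

PROOF. Let `φ = rotU ζ⁻¹` (an automorphism of the field `FunField N f`, the inverse of `rotU ζ`) and
`n = ∏_{i<N} φ^i(h) = nrm h = 1` (the same product in another order, as `φ^N = 1`). The field
automorphisms `1, φ, ..., φ^(N-1)` are distinct (`φ^i y = ζ^(-i) y`), so they are linearly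
independent (`linearIndependent_monoidHom`): there is `b` with
`v = ∑_{i<N} (∏_{j<i} φ^j(h)) φ^i(b) ≠ 0`. Then `h φ(v) = v` (the term `i = N - 1` becomes
`n φ^N(b) = b`). (Alternatively Mathlib's Hilbert 90 for cyclic groups.)
-/

open Polynomial IsDedekindDomain

open scoped Classical

namespace Pool.Agent.Lib.MP_89bcae_ag.Wt

universe u

variable {N : ℕ} {E : Type u} [Field E] {f : E[X]} [hG : IsGood N f]

lemma R11_full (ζ : E) (hζ : ζ ^ N = 1) (h0 : ζ ≠ 0) (x : FunField N f) :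
    (autF (rotE ζ hζ h0))^[N] x = x := by
  obtain ⟨a, b, _, hab⟩ := IsFractionRing.div_surjective (A := NRing N f) x
  rw [← hab, R10_autF_div, R10_autF_iter, R10_autF_iter, R10_rot_full, R10_rot_full]

lemma R11_yy (ζ : E) (hζ : ζ ^ N = 1) (h0 : ζ ≠ 0) (n : ℕ) :
    (rotE ζ hζ h0)^[n] (yy : NRing N f) = ofPoly (C (ζ ^ n)) * yy := by
  induction n with
  | zero => simp
  | succ n ih =>
    rw [Function.iterate_succ_apply', ih, R10_rotE_apply, map_mul, rotC_ofPoly, rotC_yy,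
      pow_succ, C_mul, map_mul]
    ring

lemma R11_succ (ζ : E) (hζ : ζ ^ N = 1) (h0 : ζ ≠ 0) (h : (FunField N f)ˣ) (i : ℕ) :
    ∏ j ∈ Finset.range (i + 1), (rotU ζ hζ h0)^[j] h =
      h * rotU ζ hζ h0 (∏ j ∈ Finset.range i, (rotU ζ hζ h0)^[j] h) := by
  rw [Finset.prod_range_succ', Function.iterate_zero, id, map_prod, mul_comm]
  congr 1
  apply Finset.prod_congr rfl
  intro j _
  rw [Function.iterate_succ_apply']

lemma R11_exists (ζ : E) (hζ : IsPrimitiveRoot ζ N) (h0 : ζ ≠ 0) (c : ℕ → FunField N f)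
    (hc : c 0 ≠ 0) :
    ∃ b : FunField N f, ∑ i ∈ Finset.range N, c i * (autF (rotE ζ hζ.pow_eq_one h0))^[i] b ≠ 0 := by
  by_contra hcon
  push Not at hcon
  set ρ := autF (rotE ζ hζ.pow_eq_one h0 : NRing N f ≃+* NRing N f) with hρ
  set ψ : Monoid.End (FunField N f) := ((ρ : FunField N f →+* FunField N f) : FunField N f →* FunField N f) with hψ
  have hψi : ∀ (i : ℕ) (x : FunField N f), (ψ ^ i : Monoid.End (FunField N f)) x = ρ^[i] x := by
    intro i x
    rw [Monoid.End.coe_pow]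
    rfl
  set χ : Fin N → (FunField N f →* FunField N f) := fun i => (ψ ^ (i : ℕ) : Monoid.End (FunField N f)) with hχ
  have hinj : Function.Injective χ := by
    intro i j hij
    have h1 : (χ i) (algebraMap (NRing N f) (FunField N f) yy) =
        (χ j) (algebraMap (NRing N f) (FunField N f) yy) := by rw [hij]
    have h2 : ∀ k : Fin N, (χ k) (algebraMap (NRing N f) (FunField N f) yy) =
        algebraMap (NRing N f) (FunField N f) (ofPoly (C (ζ ^ (k : ℕ))) * yy) := by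
      intro k
      rw [← R11_yy ζ hζ.pow_eq_one h0 k, ← R10_autF_iter]
      exact hψi k _
    rw [h2, h2, map_mul, map_mul] at h1
    have h3 := mul_right_cancel₀ algebraMap_yy_ne_zero h1
    have h4 := IsFractionRing.injective (NRing N f) (FunField N f) h3
    have h5 := C_injective (ofPoly_injective (N := N) (f := f) h4)
    exact Fin.ext (hζ.pow_inj i.2 j.2 h5)
  have hli := (linearIndependent_monoidHom (FunField N f) (FunField N f)).comp χ hinj
  rw [Fintype.linearIndependent_iff] at hli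
  have h6 := hli (fun i => c i) (by
    funext b
    rw [Finset.sum_apply, Pi.zero_apply, ← hcon b, Finset.sum_range]
    apply Finset.sum_congr rfl
    intro i _
    rw [← hψi i b]
    rfl) ⟨0, hG.pos⟩
  exact hc h6

lemma exists_hilbert (ζ : E) (hζ : IsPrimitiveRoot ζ N) (h0 : ζ ≠ 0) (h : (FunField N f)ˣ)
    (hn : nrm ζ hζ.pow_eq_one h0 h = 1) :
    ∃ v : (FunField N f)ˣ, h = v / (rotU ζ hζ.pow_eq_one h0).symm v := by
  set ρ := autF (rotE ζ hζ.pow_eq_one h0 : NRing N f ≃+* NRing N f) with hρ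
  set R := rotU ζ hζ.pow_eq_one h0 (f := f) with hR
  set c : ℕ → (FunField N f)ˣ := fun i => ∏ j ∈ Finset.range i, R^[j] h with hc
  have hRρ : ∀ u : (FunField N f)ˣ, ((R u : (FunField N f)ˣ) : FunField N f) = ρ (u : FunField N f) := fun _ => rfl
  have hcs : ∀ i, c (i + 1) = h * R (c i) := fun i => R11_succ ζ hζ.pow_eq_one h0 h i
  have hcN : c N = 1 := hn
  have hc0 : c 0 = 1 := by simp [hc]
  obtain ⟨b, hb⟩ := R11_exists ζ hζ h0 (fun i => (c i : FunField N f)) (by simp [hc0])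
  set w0 := ∑ i ∈ Finset.range N, (c i : FunField N f) * ρ^[i] b with hw0
  have key : (h : FunField N f) * ρ w0 = w0 := by
    have h1 : (h : FunField N f) * ρ w0 = ∑ i ∈ Finset.range N, (c (i + 1) : FunField N f) * ρ^[i + 1] b := by
      rw [hw0, map_sum, Finset.mul_sum]
      apply Finset.sum_congr rfl
      intro i _
      rw [map_mul, hcs, Units.val_mul, hRρ, Function.iterate_succ_apply']
      ring
    have h2 : ∑ i ∈ Finset.range N, (c (i + 1) : FunField N f) * ρ^[i + 1] b +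
        (c 0 : FunField N f) * ρ^[0] b = w0 + (c N : FunField N f) * ρ^[N] b := by
      rw [hw0, ← Finset.sum_range_succ,
        ← Finset.sum_range_succ' (fun i => (c i : FunField N f) * ρ^[i] b)]
    rw [hc0, hcN, R11_full, Function.iterate_zero, id] at h2
    rw [h1]
    exact add_right_cancel h2
  set w : (FunField N f)ˣ := Units.mk0 w0 hb with hw
  have hwR : h * R w = w := by
    apply Units.ext
    rw [Units.val_mul, hRρ]
    exact key
  refine ⟨(R w)⁻¹, ?_⟩
  rw [map_inv, MulEquiv.symm_apply_apply, div_inv_eq_mul, eq_comm, inv_mul_eq_iff_eq_mul,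
    mul_comm]
  exact hwR.symm

end Pool.Agent.Lib.MP_89bcae_ag.Wt

end

section

/-!
ROW R17 (100-200 lines). The kernel of `π = 1 - Z`.

Notation: `ram e = cl (ramDiv e) = ∑ e(θ) [(θ, 0)]`.

(A) `cl_eq_ram`: if `D - rot_* D = div h` and `nrm h = 1` then `cl D = ram e`, where
`e(θ) = atR D θ - n(θ)` and `lc θ h = ζ^n(θ)`.
PROOF. By Hilbert 90 (R11), `h = v / rot⁻¹ v`, so `div h = div v - rot_* div v` and
`D₀ = D - div v` is fixed by `rot_*`. A divisor fixed by `rot_*` is the sum of its part at the ramified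
points and of multiples of the full fibres `∑_{i<N} (P.rot^i) = div (x - P.x)` of unramified points
(induction on the size of the support, or a sum over the finite set of the `x`-coordinates), so its
class is `ram (atR D₀)`, and `atR D₀ θ = atR D θ - ordR θ v`. By `lc_spec`:
`lc θ (rot v') = ζ^{ordR θ v'} lc θ v'` with `v' = rot⁻¹ v` and `ordR θ v' = ordR θ v`
(`P.rot = P` for `P = (θ, 0)`), so `lc θ h = ζ^{ordR θ v}`, i.e. `n(θ) ≡ ordR θ v` modulo `N`; and
`N [(θ, 0)] = cl (div (x - θ)) = 0` so exponents matter only modulo `N`.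
(B) `zJ Q = Q` iff `Q` is some `ram e`. PROOF. If `Q = cl D` (R08), `D - rot_* D = div h`,
`nrm h = c · xprod (div h) = c` (`exists_nrm_eq`; `xprod (D - rot_* D) = 1` by `xprod_rot`,
`xprod_add`); dividing `h` by a constant whose `N`-th power is `c` (`E` algebraically closed) we may
assume `nrm h = 1` (`nrm_cstU`); apply (A) — the `lc θ h` are `N`-th roots of unity since
`1 = lc θ (nrm h) = ∏ lc θ (rot^i h) = ζ^{...} lc θ(h)^N` and `ordR θ h = 0`: `ord` of
`D - rot_* D` at a fixed point is zero. The converse: `mapDomain_rot_ramDiv`.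
(C) `ram e = 0` iff `e` is constant modulo `N` on the roots of `f`. PROOF. `ram 1 = cl (div y) = 0`
and `N [(θ,0)] = 0` give the direction from right to left. Conversely let `ramDiv e = div h`. Then `rot⁻¹ h / h` has divisor `0`
(`mapDomain_rot_ramDiv`), so it is a constant `c`: (divisor zero implies constant: R13 lemma
`exists_const_of_dg_eq_zero`: else `dg (div w) < 0` with `w = h - c`, but `ord_P w ≥ 0` for all `P`
by `ord_add`); `c^N = 1` as `rot^N = 1`; `c = ζ^{-j}`; and `lc θ (rot h) = ζ^{ordR θ h} lc θ h`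
gives `e(θ) = ordR θ h ≡ j` for all roots `θ`.
-/

open Polynomial IsDedekindDomain

open scoped Classical

namespace Pool.Agent.Lib.MP_89bcae_ag.Wt

universe u

variable {N : ℕ} {E : Type u} [Field E] {f : E[X]} [hG : IsGood N f]

/-- The class `∑ e(θ) [(θ, 0)]`. -/
noncomputable def ram (e : E → ℤ) : Jac N f := cl (ramDiv e)

lemma r17_eq_of_x_eq {P Q : Pt N f} (hP : P.y = 0) (h : Q.x = P.x) : Q = P := by
  have h1 : Q.y ^ N = 0 := by
    rw [Q.eq, h, ← P.eq, hP, zero_pow hG.ne]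
  exact Pt.ext h ((pow_eq_zero_iff hG.ne).1 h1 |>.trans hP.symm)

lemma r17_div_xs_ram (P : Pt N f) (hP : P.y = 0) :
    div (xs P.x : (FunField N f)ˣ) = N • Finsupp.single P 1 := by
  ext Q
  rw [div_apply, Finsupp.smul_apply, Finsupp.single_apply]
  by_cases h : P = Q
  · subst h
    rw [if_pos rfl, ord_xs_of_ramified P hP]
    simp
  · rw [if_neg h, smul_zero]
    exact ord_xs_of_ne Q fun h1 => h (r17_eq_of_x_eq hP h1).symm

lemma r17_smul_cl (D : Pt N f →₀ ℤ) (hD : ∀ P, P.y ≠ 0 → D P = 0) : N • cl D = 0 := by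
  conv_lhs => rw [← Finsupp.sum_single D]
  rw [Finsupp.sum, map_sum, Finset.smul_sum]
  refine Finset.sum_eq_zero fun P hP => ?_
  have hy : P.y = 0 := by
    by_contra hy
    exact Finsupp.mem_support_iff.1 hP (hD P hy)
  have h1 : (Finsupp.single P (D P) : Pt N f →₀ ℤ) = D P • Finsupp.single P 1 := by
    rw [Finsupp.smul_single, smul_eq_mul, mul_one]
  rw [h1, map_zsmul, smul_comm, ← map_nsmul, ← r17_div_xs_ram P hy, cl_div, smul_zero]

lemma ram_congr (e e' : E → ℤ) (h : ∀ θ, f.eval θ = 0 → (N : ℤ) ∣ e θ - e' θ) :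
    (ram e : Jac N f) = ram e' := by
  have hk : ∀ θ, ∃ k : ℤ, f.eval θ = 0 → e θ - e' θ = N * k := by
    intro θ
    by_cases hθ : f.eval θ = 0
    · obtain ⟨k, hk⟩ := h θ hθ
      exact ⟨k, fun _ => hk⟩
    · exact ⟨0, fun h => absurd h hθ⟩
  choose k hk using hk
  rw [← sub_eq_zero, ram, ram, ← map_sub, ← ramDiv_sub,
    ramDiv_congr (fun θ => e θ - e' θ) (fun θ => N * k θ) hk, ramDiv_smul, map_zsmul,
    natCast_zsmul]
  refine r17_smul_cl _ fun P hP => ?_
  rw [ramDiv_apply, if_neg hP]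

omit hG in
lemma r17_rot_injective (ζ : E) (hζ : ζ ^ N = 1) (h0 : ζ ≠ 0) :
    Function.Injective (Pt.rot ζ hζ : Pt N f → Pt N f) := by
  intro P Q h
  have hx : (Pt.rot ζ hζ P).x = (Pt.rot ζ hζ Q).x := by rw [h]
  have hy : (Pt.rot ζ hζ P).y = (Pt.rot ζ hζ Q).y := by rw [h]
  exact Pt.ext hx (mul_left_cancel₀ h0 hy)

omit hG in
lemma r17_rot_iter (ζ : E) (hζ : ζ ^ N = 1) (P : Pt N f) (i : ℕ) :
    ((Pt.rot ζ hζ)^[i] P).x = P.x ∧ ((Pt.rot ζ hζ)^[i] P).y = ζ ^ i * P.y := by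
  induction i with
  | zero => simp
  | succ i ih =>
    rw [Function.iterate_succ_apply']
    refine ⟨ih.1, ?_⟩
    change ζ * ((Pt.rot ζ hζ)^[i] P).y = _
    rw [ih.2, pow_succ']
    ring

lemma r17_exists_iter (ζ : E) (hζ : IsPrimitiveRoot ζ N) (P Q : Pt N f) (hP : P.y ≠ 0)
    (h : Q.x = P.x) : ∃ i, (Pt.rot ζ hζ.pow_eq_one)^[i] P = Q := by
  have h1 : (Q.y / P.y) ^ N = 1 := by
    rw [div_pow, Q.eq, P.eq, h, div_self]
    rw [← P.eq]
    exact pow_ne_zero _ hP
  have : NeZero N := ⟨hG.ne⟩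
  obtain ⟨i, _, hi⟩ := hζ.eq_pow_of_pow_eq_one h1
  refine ⟨i, Pt.ext ?_ ?_⟩
  · rw [(r17_rot_iter ζ hζ.pow_eq_one P i).1, h]
  · rw [(r17_rot_iter ζ hζ.pow_eq_one P i).2, hi, div_mul_cancel₀ _ hP]

omit hG in
lemma r17_apply_rot (ζ : E) (hζ : ζ ^ N = 1) (h0 : ζ ≠ 0) (D : Pt N f →₀ ℤ)
    (hD : D.mapDomain (Pt.rot ζ hζ) = D) (P : Pt N f) (i : ℕ) :
    D ((Pt.rot ζ hζ)^[i] P) = D P := by
  induction i with
  | zero => rfl
  | succ i ih =>
    rw [Function.iterate_succ_apply', ← ih]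
    conv_lhs => rw [← hD]
    exact Finsupp.mapDomain_apply (r17_rot_injective ζ hζ h0) _ _

lemma r17_cl_unram (ζ : E) (hζ : IsPrimitiveRoot ζ N) (h0 : ζ ≠ 0) (D : Pt N f →₀ ℤ)
    (hD : D.mapDomain (Pt.rot ζ hζ.pow_eq_one) = D) (hr : ∀ P, P.y = 0 → D P = 0) :
    cl D = 0 := by
  have := hG.alg
  have hb : ∀ a : E, ∃ b : E, b ^ N = f.eval a := fun a =>
    IsAlgClosed.exists_pow_nat_eq _ hG.pos
  choose b hb using hb
  have key : D = ∑ a ∈ D.support.image Pt.x, D ⟨a, b a, hb a⟩ • div (xs a : (FunField N f)ˣ) := by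
    ext Q
    rw [Finsupp.finsetSum_apply]
    by_cases hQ : Q.x ∈ D.support.image Pt.x
    · rw [Finset.sum_eq_single Q.x]
      · obtain ⟨P, hP, hPQ⟩ := Finset.mem_image.1 hQ
        have hPy : P.y ≠ 0 := fun h => Finsupp.mem_support_iff.1 hP (hr P h)
        have hQy : Q.y ≠ 0 := by
          intro h
          apply hPy
          rw [r17_eq_of_x_eq h hPQ]
          exact h
        have hby : b Q.x ≠ 0 := by
          intro h
          have h2 := hb Q.x
          rw [h, zero_pow hG.ne, ← Q.eq] at h2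
          exact hQy ((pow_eq_zero_iff hG.ne).1 h2.symm)
        obtain ⟨i, hi⟩ := r17_exists_iter ζ hζ ⟨Q.x, b Q.x, hb Q.x⟩ Q hby rfl
        rw [Finsupp.smul_apply, div_apply, ord_xs_of_unramified Q hQy, smul_eq_mul, mul_one,
          ← r17_apply_rot ζ hζ.pow_eq_one h0 D hD ⟨Q.x, b Q.x, hb Q.x⟩ i, hi]
      · intro a _ ha
        rw [Finsupp.smul_apply, div_apply, ord_xs_of_ne Q ha.symm, smul_zero]
      · intro h
        exact absurd hQ h
    · have hQ0 : D Q = 0 := by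
        by_contra h
        exact hQ (Finset.mem_image.2 ⟨Q, Finsupp.mem_support_iff.2 h, rfl⟩)
      rw [hQ0]
      symm
      refine Finset.sum_eq_zero fun a ha => ?_
      rw [Finsupp.smul_apply, div_apply, ord_xs_of_ne Q (fun h => hQ (h ▸ ha)), smul_zero]
  rw [key, map_sum]
  refine Finset.sum_eq_zero fun a _ => ?_
  rw [map_zsmul, cl_div, smul_zero]

lemma r17_cl_fixed (ζ : E) (hζ : IsPrimitiveRoot ζ N) (h0 : ζ ≠ 0) (D : Pt N f →₀ ℤ)
    (hD : D.mapDomain (Pt.rot ζ hζ.pow_eq_one) = D) : cl D = ram (atR D) := by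
  rw [← sub_eq_zero, ram, ← map_sub]
  refine r17_cl_unram ζ hζ h0 _ ?_ ?_
  · have := (Finsupp.mapDomain.addMonoidHom (M := ℤ) (Pt.rot ζ hζ.pow_eq_one : Pt N f → Pt N f)
      ).map_sub D (ramDiv (atR D))
    change (D - ramDiv (atR D)).mapDomain (Pt.rot ζ hζ.pow_eq_one) =
      D.mapDomain (Pt.rot ζ hζ.pow_eq_one) - (ramDiv (atR D)).mapDomain (Pt.rot ζ hζ.pow_eq_one)
      at this
    rw [this, hD, mapDomain_rot_ramDiv]
  · intro P hP
    have hθ : f.eval P.x = 0 := by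
      rw [← P.eq, hP, zero_pow hG.ne]
    rw [Finsupp.sub_apply, ramDiv_apply, if_pos hP, atR, dif_pos hθ, sub_eq_zero]
    congr 1
    exact Pt.ext rfl hP

lemma cl_eq_ram (ζ : E) (hζ : IsPrimitiveRoot ζ N) (h0 : ζ ≠ 0) (D : Pt N f →₀ ℤ)
    (h : (FunField N f)ˣ) (hD : D - D.mapDomain (Pt.rot ζ hζ.pow_eq_one) = div h)
    (hn : nrm ζ hζ.pow_eq_one h0 h = 1) (n : E → ℤ)
    (hlc : ∀ θ, f.eval θ = 0 → (lc θ h : E) = ζ ^ n θ) :
    cl D = ram fun θ => atR D θ - wt f θ * n θ := by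
  obtain ⟨v, hv⟩ := exists_hilbert ζ hζ h0 h hn
  have hdiv : div h = div v - (div v).mapDomain (Pt.rot ζ hζ.pow_eq_one) := by
    rw [hv, div_eq_mul_inv, div_mul, div_inv, div_rotU_symm, sub_eq_add_neg]
  have hfix : (D - div v).mapDomain (Pt.rot ζ hζ.pow_eq_one) = D - div v := by
    have := (Finsupp.mapDomain.addMonoidHom (M := ℤ) (Pt.rot ζ hζ.pow_eq_one : Pt N f → Pt N f)
      ).map_sub D (div v)
    change (D - div v).mapDomain (Pt.rot ζ hζ.pow_eq_one) =
      D.mapDomain (Pt.rot ζ hζ.pow_eq_one) - (div v).mapDomain (Pt.rot ζ hζ.pow_eq_one)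
      at this
    rw [this]
    rw [hdiv] at hD
    have h2 : D.mapDomain (Pt.rot ζ hζ.pow_eq_one) =
        D - (div v - (div v).mapDomain (Pt.rot ζ hζ.pow_eq_one)) := by
      rw [← hD]
      abel
    rw [h2]
    abel
  have hcl : cl D = cl (D - div v) := by
    rw [map_sub, cl_div, sub_zero]
  rw [hcl, r17_cl_fixed ζ hζ h0 _ hfix]
  refine ram_congr _ _ fun θ hθ => ?_
  have hrot : (Pt.rot ζ hζ.pow_eq_one (ramPt hG.ne hθ) : Pt N f) =
      ramPt hG.ne hθ := Pt.ext rfl (mul_zero ζ)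
  set v' := (rotU ζ hζ.pow_eq_one h0).symm v with hv'
  have hvv : rotU ζ hζ.pow_eq_one h0 v' = v := MulEquiv.apply_symm_apply _ _
  have hord : ordR θ v' = ord (ramPt hG.ne hθ) v := by
    rw [ordR, dif_pos hθ, ← hvv, ord_rotU, hrot]
  obtain ⟨_, _, _, _, hr, _⟩ := lc_spec (N := N) hθ
  have hl := hr ζ hζ.pow_eq_one h0 v'
  rw [hvv, hord] at hl
  have hl2 : (lc θ h : E) = ζ ^ (al N (wt f θ) * ord (ramPt hG.ne hθ) v) := by
    rw [hv, _root_.map_div, Units.val_div_eq_div_val, hl, mul_div_assoc, div_self (Units.ne_zero _),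
      mul_one]
  rw [hlc θ hθ] at hl2
  have hz : ζ ^ (n θ - al N (wt f θ) * ord (ramPt hG.ne hθ) v) = 1 := by
    rw [zpow_sub₀ h0, hl2, div_self (zpow_ne_zero _ h0)]
  have hdvd := (hζ.zpow_eq_one_iff_dvd _).1 hz
  have hat : atR (D - div v) θ = atR D θ - ord (ramPt hG.ne hθ) v := by
    rw [atR, dif_pos hθ, atR, dif_pos hθ, Finsupp.sub_apply, div_apply]
    rfl
  rw [hat]
  have hw : ((al N (wt f θ) * wt f θ : ℕ) : ℤ) = ((be N (wt f θ) * N + 1 : ℕ) : ℤ) := by
    rw [al_wt (N := N) hθ]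
  push_cast at hw
  have : atR D θ - ord (ramPt hG.ne hθ) v - (atR D θ - wt f θ * n θ) =
      wt f θ * (n θ - al N (wt f θ) * ord (ramPt hG.ne hθ) v) +
        N * (be N (wt f θ) * ord (ramPt hG.ne hθ) v) := by
    linear_combination (ord (ramPt hG.ne hθ) v) * hw
  rw [this]
  exact dvd_add (hdvd.mul_left _) (dvd_mul_right _ _)

end Pool.Agent.Lib.MP_89bcae_ag.Wt

end
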