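import Mathlib
import Pool.Agent.Lib.MP_89bcae_ag.Bk.K011

section

/-!
# Brackets of lines: counting modulo `p`

The lines `α i = a i + b i t`, `i ∈ ι`, and the line at infinity (`none`), as points
`(1, a i, b i)` and `(0, 1, 0)`. The bracket of three of them is the determinant of their
coordinates.
-/

open scoped Classical

namespace Pool.Agent.Lib.MP_89bcae_ag

section

variable {ι : Type} {R S : Type*} [CommRing R] [CommRing S]

/-- The first coordinate. -/
def pc14 (R : Type*) [CommRing R] : Option ι → R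
  | none => 0
  | some _ => 1

/-- The second coordinate. -/
def pa14 (v : ι ⊕ ι → R) : Option ι → R
  | none => 1
  | some i => v (Sum.inl i)

/-- The third coordinate. -/
def pb14 (v : ι ⊕ ι → R) : Option ι → R
  | none => 0
  | some i => v (Sum.inr i)

/-- The bracket: the determinant of the rows `(1, a i, b i)`, with `(0, 1, 0)` for `none`. -/
def brk14 (v : ι ⊕ ι → R) (x y z : Option ι) : R :=
  pc14 R x * (pa14 v y * pb14 v z - pb14 v y * pa14 v z) -
    pa14 v x * (pc14 R y * pb14 v z - pb14 v y * pc14 R z) +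
    pb14 v x * (pc14 R y * pa14 v z - pa14 v y * pc14 R z)


/-- The bracket with the line at infinity. -/
lemma brk14_none (v : ι ⊕ ι → R) (i j : ι) :
    brk14 v (some i) (some j) none = v (Sum.inr i) - v (Sum.inr j) := by
  simp only [brk14, pc14, pa14, pb14]
  ring


end

section thin

variable {κ : Type} [Fintype κ] [DecidableEq κ] {F : Type} [Fintype F] [AddGroup F]

/-- A set which meets every line in the direction of a coordinate in at most one point. -/
def Thin14 (κ₀ : κ) (Z : Set (κ → F)) : Prop :=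
  ∀ v ∈ Z, ∀ x : F, Function.update v κ₀ x ∈ Z → x = v κ₀


lemma Thin14.card {κ₀ : κ} {Z : Set (κ → F)} (h : Thin14 κ₀ Z) :
    Z.ncard * Fintype.card F ≤ Fintype.card F ^ Fintype.card κ := by
  have h1 : Z.ncard * Fintype.card F = Nat.card (Z × F) := by
    rw [Nat.card_prod, Nat.card_coe_set_eq, Nat.card_eq_fintype_card]
  have h2 : Fintype.card F ^ Fintype.card κ = Nat.card (κ → F) := by
    rw [Nat.card_eq_fintype_card, Fintype.card_fun]
  rw [h1, h2]
  refine Nat.card_le_card_of_injective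
    (fun p : Z × F => Function.update p.1.1 κ₀ (p.1.1 κ₀ + p.2)) ?_
  rintro ⟨⟨v, hv⟩, x⟩ ⟨⟨w, hw⟩, y⟩ hvw
  simp only at hvw
  have h3 : ∀ k, k ≠ κ₀ → v k = w k := by
    intro k hk
    have := congrFun hvw k
    rwa [Function.update_of_ne hk, Function.update_of_ne hk] at this
  have h4 : Function.update v κ₀ (w κ₀) = w := by
    funext k
    by_cases hk : k = κ₀
    · subst hk
      rw [Function.update_self]
    · rw [Function.update_of_ne hk, h3 k hk]
  have h5 : w κ₀ = v κ₀ := h v hv (w κ₀) (by rw [h4]; exact hw)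
  have h6 : v = w := by
    rw [← h4, h5, Function.update_eq_self]
  subst h6
  have h7 := congrFun hvw κ₀
  rw [Function.update_self, Function.update_self, add_right_inj] at h7
  rw [h7]

end thin

section count

variable {ι : Type} [Fintype ι] [DecidableEq ι] {F : Type} [Fintype F] [Field F]


end count

end Pool.Agent.Lib.MP_89bcae_ag

end

section

namespace Pool.Agent.Lib.MP_89bcae_ag.Lr

variable {ι : Type} {ℓ : ℕ}

/-- The sum of `Kop` against a function. -/
theorem kop_pair_h52 {w : ι → ZMod ℓ} {h : ι → ι → ZMod ℓ} {P Q : ι → ZMod ℓ} {ω : ZMod ℓ}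
    {S : Finset ι} (y y' : ι → ZMod ℓ) :
    ∑ i ∈ S, w i * Kop w h P Q ω S y i * y' i =
      ∑ i ∈ S, ∑ l ∈ S, w i * w l * h i l * (y i - y l) * y' i
        - (∑ l ∈ S, w l) * ∑ i ∈ S, w i * P i * y i * y' i
        + (∑ l ∈ S, w l * y l) * ∑ i ∈ S, w i * P i * y' i
        + ω * ∑ i ∈ S, w i * (Q i - P i) * y i * y' i
        + (∑ l ∈ S, w l * Q l * y l) * ∑ i ∈ S, w i * y' i := by
  have key : ∀ i ∈ S, w i * Kop w h P Q ω S y i * y' i =
      ∑ l ∈ S, w i * w l * h i l * (y i - y l) * y' i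
        - (∑ l ∈ S, w l) * (w i * P i * y i * y' i)
        + (∑ l ∈ S, w l * y l) * (w i * P i * y' i)
        + ω * (w i * (Q i - P i) * y i * y' i)
        + (∑ l ∈ S, w l * Q l * y l) * (w i * y' i) := by
    intro i _
    have e1 : ∑ l ∈ S, w l * (h i l - P i) * (y i - y l) =
        ∑ l ∈ S, w l * h i l * (y i - y l) - P i * y i * (∑ l ∈ S, w l)
          + P i * ∑ l ∈ S, w l * y l := by
      rw [Finset.mul_sum, Finset.mul_sum, ← Finset.sum_sub_distrib, ← Finset.sum_add_distrib]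
      exact Finset.sum_congr rfl fun l _ => by ring
    have e2 : ∑ l ∈ S, w i * w l * h i l * (y i - y l) * y' i =
        w i * y' i * ∑ l ∈ S, w l * h i l * (y i - y l) := by
      rw [Finset.mul_sum]
      exact Finset.sum_congr rfl fun l _ => by ring
    rw [e2]
    unfold Kop
    rw [e1]
    ring
  rw [Finset.sum_congr rfl key]
  simp only [Finset.sum_add_distrib, Finset.sum_sub_distrib, ← Finset.mul_sum]

/-- Symmetry of the first part. -/
theorem sym_part_h52 {w : ι → ZMod ℓ} {h : ι → ι → ZMod ℓ}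
    {S : Finset ι} (hh : ∀ i ∈ S, ∀ l ∈ S, h i l = h l i) (y y' : ι → ZMod ℓ) :
    ∑ i ∈ S, ∑ l ∈ S, w i * w l * h i l * (y i - y l) * y' i =
      ∑ i ∈ S, ∑ l ∈ S, w i * w l * h i l * (y' i - y' l) * y i := by
  have e : ∀ a b : ι → ZMod ℓ, ∑ i ∈ S, ∑ l ∈ S, w i * w l * h i l * (a i - a l) * b i =
      ∑ i ∈ S, ∑ l ∈ S, w i * w l * h i l * (a i * b i)
        - ∑ i ∈ S, ∑ l ∈ S, w i * w l * h i l * (a l * b i) := by
    intro a b
    rw [← Finset.sum_sub_distrib]
    refine Finset.sum_congr rfl fun i _ => ?_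
    rw [← Finset.sum_sub_distrib]
    exact Finset.sum_congr rfl fun l _ => by ring
  rw [e, e]
  congr 1
  · exact Finset.sum_congr rfl fun i _ => Finset.sum_congr rfl fun l _ => by ring
  · rw [Finset.sum_comm]
    refine Finset.sum_congr rfl fun i hi => Finset.sum_congr rfl fun l hl => ?_
    rw [hh l hl i hi]
    ring

/-- The symmetric form `B(x, x') = ∑ w_i x_i x'_i - (∑ w_i x_i) (∑ w_i x'_i) / (∑ w_i + ω)`: the
operator `Kop` is selfadjoint, and `B(x, 1) = ω (∑ w_i x_i) / (∑ w_i + ω)`. Proof of the first equation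
(multiply by `W + ω`, `W = ∑ w_i`; write `(P·x) = ∑ w_i P_i x_i`, `σ(x) = ∑ w_i x_i`):
`Kop x i = (∑ w_l h_il (x_i - x_l)) - P_i (W x_i - σ(x)) + ω (Q_i - P_i) x_i + (Q·x)`. The first part is
symmetric in `x, x'` after `∑_i w_i x'_i`: `∑_i ∑_l w_i w_l h_il (x_i - x_l) x'_i` is half of
`∑_i ∑_l w_i w_l h_il (x_i - x_l) (x'_i - x'_l)`; to avoid the division by `2`: the sum over `i, l` of
`w_i w_l h_il (x_i x'_i - x_l x'_i)` is symmetric in `x, x'` because `h` is symmetric (exchange `i, l` in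
the second part: `Finset.sum_comm`). `σ(Kop x) = (W + ω) ((Q·x) - (P·x)) + (∑ w_i P_i) σ(x)` (the first part
has sum `0` by symmetry). So
`∑ w_i (Kop x i) x'_i - σ(Kop x) σ(x') / (W + ω) = sym + (P·x') σ(x) + (P·x) σ(x') - (∑ w P) σ(x) σ(x') / (W + ω)`
is symmetric. -/
theorem form_symm {w : ι → ZMod ℓ} {h : ι → ι → ZMod ℓ} {P Q : ι → ZMod ℓ} {ω : ZMod ℓ}
    {S : Finset ι} [Fact ℓ.Prime] (hh : ∀ i ∈ S, ∀ l ∈ S, h i l = h l i)
    (hs : ∑ l ∈ S, w l + ω ≠ 0) (x x' : ι → ZMod ℓ) :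
    ∑ i ∈ S, w i * Kop w h P Q ω S x i * x' i -
        (∑ i ∈ S, w i * Kop w h P Q ω S x i) * (∑ i ∈ S, w i * x' i) / (∑ l ∈ S, w l + ω) =
      ∑ i ∈ S, w i * x i * Kop w h P Q ω S x' i -
        (∑ i ∈ S, w i * x i) * (∑ i ∈ S, w i * Kop w h P Q ω S x' i) / (∑ l ∈ S, w l + ω) := by
  have sg : ∀ y : ι → ZMod ℓ, ∑ i ∈ S, w i * Kop w h P Q ω S y i =
      (∑ l ∈ S, w l + ω) * (∑ l ∈ S, w l * Q l * y l - ∑ l ∈ S, w l * P l * y l)
        + (∑ l ∈ S, w l * P l) * ∑ l ∈ S, w l * y l := by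
    intro y
    have h1 := kop_pair_h52 (w := w) (h := h) (P := P) (Q := Q) (ω := ω) (S := S) y (fun _ => 1)
    have h2 := sym_part_h52 (w := w) (h := h) (S := S) hh y (fun _ => 1)
    simp only [mul_one, sub_self, mul_zero, zero_mul, Finset.sum_const_zero] at h1 h2
    rw [h1, h2]
    have h3 : ∑ i ∈ S, w i * (Q i - P i) * y i =
        ∑ l ∈ S, w l * Q l * y l - ∑ l ∈ S, w l * P l * y l := by
      rw [← Finset.sum_sub_distrib]
      exact Finset.sum_congr rfl fun l _ => by ring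
    rw [h3]
    ring
  have hr : ∑ i ∈ S, w i * x i * Kop w h P Q ω S x' i =
      ∑ i ∈ S, w i * Kop w h P Q ω S x' i * x i :=
    Finset.sum_congr rfl fun i _ => by ring
  rw [hr, sg x, sg x', kop_pair_h52 x x', kop_pair_h52 x' x, sym_part_h52 hh x x']
  have c1 : ∑ i ∈ S, w i * P i * x' i * x i = ∑ i ∈ S, w i * P i * x i * x' i :=
    Finset.sum_congr rfl fun i _ => by ring
  have c2 : ∑ i ∈ S, w i * (Q i - P i) * x' i * x i = ∑ i ∈ S, w i * (Q i - P i) * x i * x' i :=
    Finset.sum_congr rfl fun i _ => by ring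
  rw [c1, c2]
  generalize ∑ i ∈ S, ∑ l ∈ S, w i * w l * h i l * (x' i - x' l) * x i = SA
  generalize ∑ i ∈ S, w i * P i * x i * x' i = PP
  generalize ∑ i ∈ S, w i * (Q i - P i) * x i * x' i = QP
  field_simp
  ring

end Pool.Agent.Lib.MP_89bcae_ag.Lr

end

section

namespace Pool.Agent.Lib.MP_89bcae_ag.Lr

variable {ι : Type} {ℓ : ℕ}

/-- From `GoodK` to `GoodR` with one more element `b`. Proof: let `κ, z, μ` satisfy the equations on
`insert b S` (`Finset.sum_insert hb`; the term `l = i` vanishes). For `i ∈ S`: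
`∑_{l ∈ S} w_l (h_il - u_i) (κ_i - κ_l) + w_b (g_i - u_i) (κ_i - κ_b) = z κ_i + μ`, and at `b`:
`∑_{l ∈ S} w_l (g_l - y) (κ_b - κ_l) = z κ_b + μ`. Put `x = κ - κ_b` and subtract:
`Kop w h u g (w b) S x i - y ∑ w_l x_l = z x_i` for `i ∈ S`. So `x = 0` on `S` by `hK`. -/
theorem goodR_insert [DecidableEq ι] {w : ι → ZMod ℓ} {h h' : ι → ι → ZMod ℓ}
    {g u u' : ι → ZMod ℓ} {S : Finset ι} {b : ι} (hb : b ∉ S) {y : ZMod ℓ}
    (hK : GoodK w h u g (w b) y S)
    (h1 : ∀ i ∈ S, ∀ l ∈ S, i ≠ l → h' i l = h i l) (h2 : ∀ i ∈ S, h' i b = g i)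
    (h3 : ∀ i ∈ S, h' b i = g i) (h4 : ∀ i ∈ S, u' i = u i) (h5 : u' b = y) :
    GoodR w h' u' (insert b S) := by
  intro κ z μ hκ
  have hbeq := hκ b (Finset.mem_insert_self b S)
  rw [Finset.sum_insert hb, sub_self, mul_zero, zero_add] at hbeq
  have hbeq2 : ∑ l ∈ S, w l * (g l - y) * (κ b - κ l) = z * κ b + μ := by
    rw [← hbeq]
    refine Finset.sum_congr rfl fun l hl => ?_
    rw [h3 l hl, h5]
  have hx : ∀ i ∈ S, (fun j => κ j - κ b) i = 0 := by
    apply hK (fun j => κ j - κ b) z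
    intro i hi
    have hieq := hκ i (Finset.mem_insert_of_mem hi)
    rw [Finset.sum_insert hb, h2 i hi, h4 i hi] at hieq
    have hieq2 : ∑ l ∈ S, w l * (h' i l - u i) * (κ i - κ l) =
        ∑ l ∈ S, w l * (h i l - u i) * (κ i - κ l) := by
      refine Finset.sum_congr rfl fun l hl => ?_
      by_cases hil : i = l
      · subst hil
        rw [sub_self, mul_zero, mul_zero]
      · rw [h1 i hi l hl hil]
    rw [hieq2] at hieq
    have e1 : ∑ l ∈ S, w l * (h i l - u i) * ((κ i - κ b) - (κ l - κ b)) =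
        ∑ l ∈ S, w l * (h i l - u i) * (κ i - κ l) := by
      refine Finset.sum_congr rfl fun l _ => ?_
      ring
    have e2 : ∑ l ∈ S, w l * g l * (κ l - κ b) - y * ∑ l ∈ S, w l * (κ l - κ b) =
        -∑ l ∈ S, w l * (g l - y) * (κ b - κ l) := by
      rw [Finset.mul_sum, ← Finset.sum_sub_distrib, ← Finset.sum_neg_distrib]
      refine Finset.sum_congr rfl fun l _ => ?_
      ring
    unfold Kop
    simp only [e1]
    linear_combination hieq + e2 - hbeq2
  intro i hi j hj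
  have hall : ∀ i ∈ insert b S, κ i = κ b := by
    intro i hi
    rcases Finset.mem_insert.1 hi with h | h
    · rw [h]
    · exact sub_eq_zero.1 (hx i h)
  rw [hall i hi, hall j hj]

end Pool.Agent.Lib.MP_89bcae_ag.Lr

end

section

namespace Pool.Agent.Lib.MP_89bcae_ag.Lr

variable {ι : Type} {ℓ : ℕ}

/-- Two more elements `b`, `b'` with the same weight `e`, for `GoodT`. Proof: let `ε, f, z` satisfy the
hypotheses on `insert b (insert b' S)`. (a) For `i ≠ j` in `S` the terms `l = b`, `l = b'` of the sum are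
zero, and the terms `l = i`, `l = j` are zero (`{i, j, i} = {i, j}` as finsets): `hT` gives `b₀` with
`ε i j = b₀ i - b₀ j` for `i ≠ j` in `S`. (b) Then the left side for `i ≠ j` in `S` is `0`, so
`z b₀ i + f i = m` for all `i ∈ S`. (c) Put `κ i = ε b i + b₀ i`, `κ' i = ε b' i + b₀ i`, `ρ = ε b b'`.
Equation for `b, i`: `∑_{l ∈ S} w_l (c {i, l} - g i) (κ i - κ l) + e (u i - g i) (κ i - κ' i - ρ) =
z κ i + (f b - m)`; for `b', i`: `∑ w_l (c {i, l} - g i) (κ' i - κ' l) + e (u i - g i) (κ' i - κ i + ρ) =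
z κ' i + (f b' - m)`; for `b, b'`: `∑_{l ∈ S} w_l (u l - y) (ρ + κ' l - κ l) = z ρ + f b - f b'`.
(d) The sum of the first two: `κ + κ'` is constant on `S` by `hR`. (e) The difference of the first two minus
the third: `x i = κ i - κ' i - ρ` satisfies `Kop w (c {·, ·}) g u (2 e) S x i - y ∑ w_l x_l = z x i`, so
`x = 0` on `S` by `hK`: `κ i - κ' i = ρ`. As `2 ≠ 0`, `κ = κ₀` and `κ' = κ₀'` are constant on `S`, with
`κ₀ - κ₀' = ρ`. (f) Take `b₀` extended by `b ↦ κ₀`, `b' ↦ κ₀'`. -/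
theorem goodT_insert₂ [DecidableEq ι] [Fact ℓ.Prime] (hℓ2 : ℓ ≠ 2) {w : ι → ZMod ℓ}
    {c c' : Finset ι → ZMod ℓ} {g u : ι → ZMod ℓ} {S : Finset ι} (hS : S.Nonempty) {b b' : ι}
    (hb : b ∉ S) (hb' : b' ∉ S) (hbb' : b ≠ b') {e y : ZMod ℓ} (hwb : w b = e) (hwb' : w b' = e)
    (hT : GoodT w c S) (hR : GoodR w (fun i l => c {i, l}) g S)
    (hK : GoodK w (fun i l => c {i, l}) g u (2 * e) y S)
    (h1 : ∀ i ∈ S, ∀ j ∈ S, ∀ l ∈ S, i ≠ j → j ≠ l → i ≠ l → c' {i, j, l} = c {i, j, l})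
    (h2 : ∀ i ∈ S, ∀ j ∈ S, i ≠ j → c' {i, j} = c {i, j})
    (h3 : ∀ i ∈ S, ∀ j ∈ S, i ≠ j → c' {b, i, j} = c {i, j})
    (h3' : ∀ i ∈ S, ∀ j ∈ S, i ≠ j → c' {b', i, j} = c {i, j})
    (h4 : ∀ i ∈ S, c' {b, i} = g i) (h4' : ∀ i ∈ S, c' {b', i} = g i)
    (h5 : ∀ i ∈ S, c' {b, b', i} = u i) (h6 : c' {b, b'} = y) :
    GoodT w c' (insert b (insert b' S)) := by
  intro ε f z hanti heq
  have hbS' : b ∉ insert b' S := by
    rw [Finset.mem_insert, not_or]; exact ⟨hbb', hb⟩
  have mS : ∀ i ∈ S, i ∈ insert b (insert b' S) := fun i hi =>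
    Finset.mem_insert_of_mem (Finset.mem_insert_of_mem hi)
  have mb : b ∈ insert b (insert b' S) := Finset.mem_insert_self _ _
  have mb' : b' ∈ insert b (insert b' S) := Finset.mem_insert_of_mem (Finset.mem_insert_self _ _)
  have nb : ∀ i ∈ S, b ≠ i := fun i hi h => hb (h ▸ hi)
  have nb' : ∀ i ∈ S, b' ≠ i := fun i hi h => hb' (h ▸ hi)
  have two_ne : (2 : ZMod ℓ) ≠ 0 := by
    intro h0
    have h1 : ((2 : ℕ) : ZMod ℓ) = 0 := by exact_mod_cast h0
    rw [ZMod.natCast_eq_zero_iff] at h1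
    exact hℓ2 ((Nat.prime_dvd_prime_iff_eq Fact.out Nat.prime_two).mp h1)
  -- finset identities
  have t1 : ∀ i j : ι, ({i, j, i} : Finset ι) = {i, j} := by
    intro i j; ext a; simp only [Finset.mem_insert, Finset.mem_singleton]; tauto
  have t2 : ∀ i j : ι, ({i, j, j} : Finset ι) = {i, j} := by
    intro i j; ext a; simp only [Finset.mem_insert, Finset.mem_singleton]; tauto
  have t3 : ∀ i j l : ι, ({i, j, l} : Finset ι) = {l, i, j} := by
    intro i j l; ext a; simp only [Finset.mem_insert, Finset.mem_singleton]; tauto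
  have t4 : ∀ i j l : ι, ({i, j, l} : Finset ι) = {i, l, j} := by
    intro i j l; ext a; simp only [Finset.mem_insert, Finset.mem_singleton]; tauto
  have t5 : ∀ i j l : ι, ({i, j, l} : Finset ι) = {j, i, l} := by
    intro i j l; ext a; simp only [Finset.mem_insert, Finset.mem_singleton]; tauto
  -- sums over the big set
  have split : ∀ F : ι → ZMod ℓ, ∑ l ∈ insert b (insert b' S), F l = F b + (F b' + ∑ l ∈ S, F l) := by
    intro F
    rw [Finset.sum_insert hbS', Finset.sum_insert hb']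
  -- (a)
  have hsub : ∀ i ∈ S, ∀ j ∈ S, i ≠ j → ∀ l ∈ S,
      w l * (c' {i, j, l} - c' {i, j}) * (ε i j + ε j l + ε l i) =
        w l * (c {i, j, l} - c {i, j}) * (ε i j + ε j l + ε l i) := by
    intro i hi j hj hij l hl
    rw [h2 i hi j hj hij]
    by_cases hil : i = l
    · subst hil
      rw [t1, h2 i hi j hj hij]
    · by_cases hjl : j = l
      · subst hjl
        rw [t2, h2 i hi j hj hij]
      · rw [h1 i hi j hj l hl hij hjl hil]
  have eqS : ∀ i ∈ S, ∀ j ∈ S, i ≠ j →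
      ∑ l ∈ S, w l * (c {i, j, l} - c {i, j}) * (ε i j + ε j l + ε l i) = z * ε i j + (f i - f j) := by
    intro i hi j hj hij
    have h := heq i (mS i hi) j (mS j hj) hij
    rw [split] at h
    rw [t3 i j b, h3 i hi j hj hij, t3 i j b', h3' i hi j hj hij, h2 i hi j hj hij] at h
    rw [sub_self, mul_zero, zero_mul, mul_zero, zero_mul, zero_add, zero_add] at h
    rw [← h]
    refine Finset.sum_congr rfl fun l hl => ?_
    have := hsub i hi j hj hij l hl
    rw [h2 i hi j hj hij] at this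
    exact this.symm
  obtain ⟨b₀, hb₀⟩ := hT ε f z (fun i hi j hj hij => hanti i (mS i hi) j (mS j hj) hij) eqS
  obtain ⟨i₀, hi₀⟩ := hS
  -- (b)
  have hm : ∀ i ∈ S, z * b₀ i + f i = z * b₀ i₀ + f i₀ := by
    intro i hi
    by_cases hii : i = i₀
    · rw [hii]
    · have h := eqS i hi i₀ hi₀ hii
      rw [hb₀ i hi i₀ hi₀ hii] at h
      have hz : ∑ l ∈ S, w l * (c {i, i₀, l} - c {i, i₀}) * (b₀ i - b₀ i₀ + ε i₀ l + ε l i) = 0 := by
        refine Finset.sum_eq_zero fun l hl => ?_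
        by_cases hil : i = l
        · subst hil
          rw [t1]; ring
        · by_cases hjl : i₀ = l
          · subst hjl
            rw [t2]; ring
          · rw [hb₀ i₀ hi₀ l hl hjl, hb₀ l hl i hi (Ne.symm hil)]; ring
      rw [hz] at h
      linear_combination -h
  set m := z * b₀ i₀ + f i₀ with hmdef
  have hanti_b : ∀ i ∈ S, ε i b = -ε b i := fun i hi => hanti b mb i (mS i hi) (nb i hi)
  have hanti_b' : ∀ i ∈ S, ε i b' = -ε b' i := fun i hi => hanti b' mb' i (mS i hi) (nb' i hi)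
  have hanti_bb : ε b' b = -ε b b' := hanti b mb b' mb' hbb'
  set κ : ι → ZMod ℓ := fun i => ε b i + b₀ i with hκ
  set κ' : ι → ZMod ℓ := fun i => ε b' i + b₀ i with hκ'
  -- (c)
  have E1 : ∀ i ∈ S, ∑ l ∈ S, w l * (c {i, l} - g i) * (κ i - κ l) +
      e * (u i - g i) * (κ i - κ' i - ε b b') = z * κ i + (f b - m) := by
    intro i hi
    have h := heq b mb i (mS i hi) (nb i hi)
    rw [split, t1, sub_self, mul_zero, zero_mul, zero_add, t4 b i b', h5 i hi, h4 i hi, hwb',
      hanti_b' i hi, hanti_bb] at h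
    have hs : ∑ l ∈ S, w l * (c' {b, i, l} - g i) * (ε b i + ε i l + ε l b) =
        ∑ l ∈ S, w l * (c {i, l} - g i) * (κ i - κ l) := by
      refine Finset.sum_congr rfl fun l hl => ?_
      by_cases hil : i = l
      · subst hil
        rw [t2, h4 i hi, sub_self, sub_self]; ring
      · rw [h3 i hi l hl hil, hanti_b l hl, hb₀ i hi l hl hil]
        simp only [hκ]; ring
    rw [hs] at h
    have hmi := hm i hi
    simp only [hκ, hκ'] at h ⊢
    linear_combination h - hmi
  have E2 : ∀ i ∈ S, ∑ l ∈ S, w l * (c {i, l} - g i) * (κ' i - κ' l) +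
      e * (u i - g i) * (κ' i - κ i + ε b b') = z * κ' i + (f b' - m) := by
    intro i hi
    have h := heq b' mb' i (mS i hi) (nb' i hi)
    rw [split, t3 b' i b, h5 i hi, h4' i hi, t1, h4' i hi, sub_self, mul_zero, zero_mul, zero_add, hwb,
      hanti_b i hi] at h
    have hs : ∑ l ∈ S, w l * (c' {b', i, l} - g i) * (ε b' i + ε i l + ε l b') =
        ∑ l ∈ S, w l * (c {i, l} - g i) * (κ' i - κ' l) := by
      refine Finset.sum_congr rfl fun l hl => ?_
      by_cases hil : i = l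
      · subst hil
        rw [t2, h4' i hi, sub_self, sub_self]; ring
      · rw [h3' i hi l hl hil, hanti_b' l hl, hb₀ i hi l hl hil]
        simp only [hκ']; ring
    rw [hs] at h
    have hmi := hm i hi
    simp only [hκ, hκ'] at h ⊢
    linear_combination h - hmi
  have E3 : ∑ l ∈ S, w l * (u l - y) * (ε b b' + κ' l - κ l) = z * ε b b' + (f b - f b') := by
    have h := heq b mb b' mb' hbb'
    rw [split, t1, sub_self, mul_zero, zero_mul, zero_add, t2, sub_self, mul_zero, zero_mul, zero_add, h6] at h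
    rw [← h]
    refine Finset.sum_congr rfl fun l hl => ?_
    rw [h5 l hl, hanti_b l hl]
    simp only [hκ, hκ']; ring
  -- (d)
  have hsum := hR (fun i => κ i + κ' i) z (f b + f b' - 2 * m) (by
    intro i hi
    have e : ∑ l ∈ S, w l * (c {i, l} - g i) * ((κ i + κ' i) - (κ l + κ' l)) =
        ∑ l ∈ S, w l * (c {i, l} - g i) * (κ i - κ l) + ∑ l ∈ S, w l * (c {i, l} - g i) * (κ' i - κ' l) := by
      rw [← Finset.sum_add_distrib]
      exact Finset.sum_congr rfl fun l hl => by ring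
    beta_reduce at e ⊢
    rw [e]
    linear_combination E1 i hi + E2 i hi)
  -- (e)
  have hx := hK (fun i => κ i - κ' i - ε b b') z (by
    intro i hi
    have e1 : ∑ l ∈ S, w l * (c {i, l} - g i) * ((κ i - κ' i - ε b b') - (κ l - κ' l - ε b b')) =
        ∑ l ∈ S, w l * (c {i, l} - g i) * (κ i - κ l) - ∑ l ∈ S, w l * (c {i, l} - g i) * (κ' i - κ' l) := by
      rw [← Finset.sum_sub_distrib]
      exact Finset.sum_congr rfl fun l hl => by ring
    have e2 : ∑ l ∈ S, w l * (u l - y) * (ε b b' + κ' l - κ l) =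
        y * ∑ l ∈ S, w l * (κ l - κ' l - ε b b') - ∑ l ∈ S, w l * u l * (κ l - κ' l - ε b b') := by
      rw [Finset.mul_sum, ← Finset.sum_sub_distrib]
      exact Finset.sum_congr rfl fun l hl => by ring
    rw [e2] at E3
    unfold Kop
    rw [e1]
    linear_combination E1 i hi - E2 i hi - E3)
  have hκc : ∀ i ∈ S, κ i = κ i₀ := by
    intro i hi
    have a1 := hsum i hi i₀ hi₀
    have a2 := hx i hi
    have a3 := hx i₀ hi₀
    beta_reduce at a1 a2 a3
    have a4 : 2 * (κ i - κ i₀) = 0 := by linear_combination a1 + a2 - a3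
    rcases mul_eq_zero.mp a4 with a5 | a5
    · exact absurd a5 two_ne
    · exact sub_eq_zero.mp a5
  have hκc' : ∀ i ∈ S, κ' i = κ' i₀ := by
    intro i hi
    have a1 := hsum i hi i₀ hi₀
    have a2 := hκc i hi
    beta_reduce at a1
    linear_combination a1 - a2
  have hρ : ε b b' = κ i₀ - κ' i₀ := by
    have a3 := hx i₀ hi₀
    beta_reduce at a3
    linear_combination -a3
  -- (f)
  refine ⟨fun i => if i = b then κ i₀ else if i = b' then κ' i₀ else b₀ i, ?_⟩
  have vb : (if b = b then κ i₀ else if b = b' then κ' i₀ else b₀ b) = κ i₀ := if_pos rfl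
  have vb' : (if b' = b then κ i₀ else if b' = b' then κ' i₀ else b₀ b') = κ' i₀ := by
    rw [if_neg (Ne.symm hbb'), if_pos rfl]
  have vS : ∀ i ∈ S, (if i = b then κ i₀ else if i = b' then κ' i₀ else b₀ i) = b₀ i := by
    intro i hi
    rw [if_neg (Ne.symm (nb i hi)), if_neg (Ne.symm (nb' i hi))]
  have qb : ∀ i ∈ S, ε b i = κ i₀ - b₀ i := by
    intro i hi
    have := hκc i hi
    rw [← this]; simp only [hκ]; ring
  have qb' : ∀ i ∈ S, ε b' i = κ' i₀ - b₀ i := by
    intro i hi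
    have := hκc' i hi
    rw [← this]; simp only [hκ']; ring
  intro i hi j hj hij
  beta_reduce
  rw [Finset.mem_insert, Finset.mem_insert] at hi hj
  rcases hi with rfl | rfl | hi
  · rcases hj with rfl | rfl | hj
    · exact absurd rfl hij
    · rw [vb, vb', hρ]
    · rw [vb, vS j hj, qb j hj]
  · rcases hj with rfl | rfl | hj
    · rw [vb, vb', hanti_bb, hρ]; ring
    · exact absurd rfl hij
    · rw [vb', vS j hj, qb' j hj]
  · rcases hj with rfl | rfl | hj
    · rw [vb, vS i hi, hanti_b i hi, qb i hi]; ring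
    · rw [vb', vS i hi, hanti_b' i hi, qb' i hi]; ring
    · rw [vS i hi, vS j hj, hb₀ i hi j hj hij]

end Pool.Agent.Lib.MP_89bcae_ag.Lr

end

section

namespace Pool.Agent.Lib.MP_89bcae_ag.Lr

variable {ι : Type} {ℓ : ℕ}

theorem pencil_aux_h20 {w : ι → ZMod ℓ} {h : ι → ι → ZMod ℓ} {P Q : ι → ZMod ℓ} {ω : ZMod ℓ}
    {S : Finset ι} [Fact ℓ.Prime] (hh : ∀ i ∈ S, ∀ l ∈ S, h i l = h l i)
    (hω : ω ≠ 0) (hs : ∑ l ∈ S, w l + ω ≠ 0) (x x' : ι → ZMod ℓ) (z s s' : ZMod ℓ)
    (hx : ∀ i ∈ S, Kop w h P Q ω S x i = z * x i + s)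
    (hx' : ∀ i ∈ S, Kop w h P Q ω S x' i = z * x' i + s') :
    s * ∑ l ∈ S, w l * x' l = s' * ∑ l ∈ S, w l * x l := by
  have key := form_symm (P := P) (Q := Q) hh hs x x'
  have e1 : ∑ i ∈ S, w i * Kop w h P Q ω S x i * x' i =
      z * ∑ i ∈ S, w i * x i * x' i + s * ∑ i ∈ S, w i * x' i := by
    rw [Finset.mul_sum, Finset.mul_sum, ← Finset.sum_add_distrib]
    refine Finset.sum_congr rfl fun i hi => ?_
    rw [hx i hi]; ring
  have e2 : ∑ i ∈ S, w i * Kop w h P Q ω S x i = z * ∑ i ∈ S, w i * x i + s * ∑ i ∈ S, w i := by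
    rw [Finset.mul_sum, Finset.mul_sum, ← Finset.sum_add_distrib]
    refine Finset.sum_congr rfl fun i hi => ?_
    rw [hx i hi]; ring
  have e3 : ∑ i ∈ S, w i * x i * Kop w h P Q ω S x' i =
      z * ∑ i ∈ S, w i * x i * x' i + s' * ∑ i ∈ S, w i * x i := by
    rw [Finset.mul_sum, Finset.mul_sum, ← Finset.sum_add_distrib]
    refine Finset.sum_congr rfl fun i hi => ?_
    rw [hx' i hi]; ring
  have e4 : ∑ i ∈ S, w i * Kop w h P Q ω S x' i = z * ∑ i ∈ S, w i * x' i + s' * ∑ i ∈ S, w i := by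
    rw [Finset.mul_sum, Finset.mul_sum, ← Finset.sum_add_distrib]
    refine Finset.sum_congr rfl fun i hi => ?_
    rw [hx' i hi]; ring
  rw [e1, e2, e3, e4] at key
  set A := ∑ i ∈ S, w i * x i * x' i
  set X := ∑ i ∈ S, w i * x i
  set X' := ∑ i ∈ S, w i * x' i
  set W := ∑ l ∈ S, w l
  have h1 : ω * (s * X' - s' * X) = 0 := by
    have h2 : (W + ω) * ((z * A + s * X') - (z * X + s * W) * X' / (W + ω)) =
        (W + ω) * ((z * A + s' * X) - X * (z * X' + s' * W) / (W + ω)) := by rw [key]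
    rw [mul_sub, mul_div_cancel₀ _ hs, mul_sub, mul_div_cancel₀ _ hs] at h2
    linear_combination h2
  rcases mul_eq_zero.mp h1 with h2 | h2
  · exact absurd h2 hω
  · exact sub_eq_zero.mp h2

/-- **The pencil lemma.** Some `y` is good. Proof: let `σ(x) = ∑ w_l x_l`, `u` the constant function `1`,
`B` the symmetric form of `form_symm`, `B(x, u) = c σ(x)` with `c = ω / (W + ω) ≠ 0`
(`∑ w_i x_i - σ(x) W / (W + ω)`). For `z : ZMod ℓ` call `y` bad at `z` if there is `x` not zero on `S` with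
`Kop x i = z x_i + y σ(x)` for all `i ∈ S` (that is the failure of `GoodK`). By `h1`, `σ(x) ≠ 0` for such
`x` (otherwise `Kop x = z x` on `S`). (a) For each `z` there is at most one bad `y`: for `x, y` and `x', y'`
(same `z`), `form_symm` gives `z B(x, x') + y σ(x) c σ(x') = z B(x, x') + y' σ(x') c σ(x)`, so `y = y'`.
(b) For the `z₀` of `h2` there is no bad `y`: with the `x₀, t` of `h2` (`σ(x₀) = 0`; `t ≠ 0` by `h1`) and a
bad `y, x`: `B(Kop x, x₀) = z₀ B(x, x₀) + y σ(x) c σ(x₀) = z₀ B(x, x₀)` and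
`B(x, Kop x₀) = z₀ B(x, x₀) + t c σ(x)`, so `t c σ(x) = 0`, a contradiction. (c) If all `y` were bad, choose
`Z y` with `y` bad at `Z y`: `Z` is injective by (a), so surjective (`Finite.injective_iff_surjective`), but
`z₀` is not in the image by (b). -/
theorem exists_goodK {w : ι → ZMod ℓ} {h : ι → ι → ZMod ℓ} {P Q : ι → ZMod ℓ} {ω : ZMod ℓ}
    {S : Finset ι} [Fact ℓ.Prime] (hh : ∀ i ∈ S, ∀ l ∈ S, h i l = h l i)
    (hω : ω ≠ 0) (hs : ∑ l ∈ S, w l + ω ≠ 0)
    (h1 : ∀ (x : ι → ZMod ℓ) (z : ZMod ℓ), ∑ l ∈ S, w l * x l = 0 →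
      (∀ i ∈ S, Kop w h P Q ω S x i = z * x i) → ∀ i ∈ S, x i = 0)
    (h2 : ∃ (x : ι → ZMod ℓ) (z t : ZMod ℓ), (∃ i ∈ S, x i ≠ 0) ∧ ∑ l ∈ S, w l * x l = 0 ∧
      ∀ i ∈ S, Kop w h P Q ω S x i = z * x i + t) :
    ∃ y, GoodK w h P Q ω y S := by
  by_contra hcon
  have hbad : ∀ y : ZMod ℓ, ∃ (x : ι → ZMod ℓ) (z : ZMod ℓ),
      (∀ i ∈ S, Kop w h P Q ω S x i = z * x i + y * ∑ l ∈ S, w l * x l) ∧ ∑ l ∈ S, w l * x l ≠ 0 := by
    intro y
    have hy : ¬ GoodK w h P Q ω y S := fun hy => hcon ⟨y, hy⟩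
    unfold GoodK at hy
    push Not at hy
    obtain ⟨x, z, hx, i, hi, hxi⟩ := hy
    have hx' : ∀ i ∈ S, Kop w h P Q ω S x i = z * x i + y * ∑ l ∈ S, w l * x l := fun i hi => by
      rw [← hx i hi]; ring
    refine ⟨x, z, hx', fun h0 => hxi (h1 x z h0 (fun i hi => ?_) i hi)⟩
    rw [hx' i hi, h0, mul_zero, add_zero]
  choose X Z hXZ hX0 using hbad
  have hinj : Function.Injective Z := by
    intro y y' hyy
    have h3 := hXZ y'
    rw [← hyy] at h3
    have h4 := pencil_aux_h20 hh hω hs (X y) (X y') (Z y) _ _ (hXZ y) h3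
    have h5 : (y - y') * ((∑ l ∈ S, w l * X y l) * ∑ l ∈ S, w l * X y' l) = 0 := by
      linear_combination h4
    rcases mul_eq_zero.mp h5 with h6 | h6
    · exact sub_eq_zero.mp h6
    · exact absurd h6 (mul_ne_zero (hX0 y) (hX0 y'))
  have hsurj : Function.Surjective Z := Finite.injective_iff_surjective.mp hinj
  obtain ⟨x₀, z₀, t, ⟨i, hi, hxi⟩, hσ, hx₀⟩ := h2
  obtain ⟨y, rfl⟩ := hsurj z₀
  have h4 := pencil_aux_h20 hh hω hs (X y) x₀ (Z y) _ _ (hXZ y) hx₀
  rw [hσ, mul_zero] at h4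
  rcases mul_eq_zero.mp h4.symm with h6 | h6
  · refine hxi (h1 x₀ (Z y) hσ (fun i hi => ?_) i hi)
    rw [hx₀ i hi, h6, add_zero]
  · exact hX0 y h6

end Pool.Agent.Lib.MP_89bcae_ag.Lr

end

section

namespace Pool.Agent.Lib.MP_89bcae_ag.Lr

variable {ι : Type} {ℓ : ℕ}

/-- **Walls.** Proof: let `g₁` be not good (`exists_not_goodR`). Consider for a finite set `T ⊆ S` the
function `g_T` equal to `g₁` on `T` and to `g` elsewhere (`T.piecewise g₁ g`); `GoodR` depends only on the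
values on `S`. `g_∅` is good, `g_S` is not. Take `T` minimal among the subsets with `g_T` not good, or do an
induction (`Finset.induction_on`: for all `T ⊆ S`, `g_T` is good, or there is a wall). For the step
`insert k T`, `k ∉ T`, `k ∈ S`: `g_{insert k T} = Function.update g_T k (g₁ k)`. -/
theorem exists_wall [DecidableEq ι] [Fact ℓ.Prime] (h2 : ℓ ≠ 2) {w : ι → ZMod ℓ} {h : ι → ι → ZMod ℓ}
    {g : ι → ZMod ℓ} {S : Finset ι} (hS : 2 ≤ S.card) (hw : ∀ i ∈ S, w i ≠ 0)
    (hs : ∑ l ∈ S, w l ≠ 0) (hg : GoodR w h g S) :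
    ∃ (g' : ι → ZMod ℓ) (k : ι) (a : ZMod ℓ), GoodR w h g' S ∧ k ∈ S ∧
      ¬ GoodR w h (Function.update g' k (g' k + a)) S := by
  obtain ⟨g₁, hg₁⟩ := exists_not_goodR h2 h hS hw hs
  by_contra hcon
  have hcon' : ∀ (g' : ι → ZMod ℓ) (k : ι) (a : ZMod ℓ), GoodR w h g' S → k ∈ S →
      GoodR w h (Function.update g' k (g' k + a)) S := by
    intro g' k a h1 h3
    by_contra h4
    exact hcon ⟨g', k, a, h1, h3, h4⟩
  have key : ∀ T : Finset ι, T ⊆ S → GoodR w h (T.piecewise g₁ g) S := by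
    intro T
    induction T using Finset.induction_on with
    | empty =>
      intro _
      rw [Finset.piecewise_empty]
      exact hg
    | insert k T hk ih =>
      intro hT
      have h1 := ih (fun x hx => hT (Finset.mem_insert_of_mem hx))
      have h3 := hcon' (T.piecewise g₁ g) k (g₁ k - (T.piecewise g₁ g) k) h1
        (hT (Finset.mem_insert_self _ _))
      rw [Finset.piecewise_insert]
      have e : (T.piecewise g₁ g) k + (g₁ k - (T.piecewise g₁ g) k) = g₁ k := by ring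
      rw [e] at h3
      exact h3
  have h3 := key S (Finset.Subset.refl _)
  apply hg₁
  intro κ z μ hκ
  apply h3 κ z μ
  intro i hi
  rw [Finset.piecewise_eq_of_mem _ _ _ hi]
  exact hκ i hi

end Pool.Agent.Lib.MP_89bcae_ag.Lr

end

section

namespace Pool.Agent.Lib.MP_89bcae_ag.Lr

variable {ι : Type} {ℓ : ℕ}

theorem Kop_formula_h46 {w : ι → ZMod ℓ} {h : ι → ι → ZMod ℓ} {P Q : ι → ZMod ℓ} {ω : ZMod ℓ}
    {S : Finset ι} {x : ι → ZMod ℓ} (hx : ∑ l ∈ S, w l * x l = 0) (i : ι) :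
    Kop w h P Q ω S x i = ∑ l ∈ S, w l * h i l * (x i - x l) - (∑ l ∈ S, w l) * P i * x i
      + ω * (Q i - P i) * x i + ∑ l ∈ S, w l * Q l * x l := by
  unfold Kop
  have h1 : ∑ l ∈ S, w l * (h i l - P i) * (x i - x l) =
      ∑ l ∈ S, w l * h i l * (x i - x l) - (∑ l ∈ S, w l) * P i * x i + P i * ∑ l ∈ S, w l * x l := by
    rw [Finset.sum_mul, Finset.sum_mul, Finset.mul_sum, ← Finset.sum_sub_distrib, ← Finset.sum_add_distrib]
    exact Finset.sum_congr rfl (fun l _ => by ring)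
  rw [h1, hx]
  ring

theorem antisymm_sum_h46 {w : ι → ZMod ℓ} {h : ι → ι → ZMod ℓ}
    {S : Finset ι} (x : ι → ZMod ℓ) (hh : ∀ i ∈ S, ∀ l ∈ S, h i l = h l i) :
    ∑ i ∈ S, w i * ∑ l ∈ S, w l * h i l * (x i - x l) = 0 := by
  have e1 : ∑ i ∈ S, w i * ∑ l ∈ S, w l * h i l * (x i - x l) =
      ∑ i ∈ S, ∑ l ∈ S, w i * w l * h i l * x i - ∑ i ∈ S, ∑ l ∈ S, w i * w l * h i l * x l := by
    rw [← Finset.sum_sub_distrib]
    refine Finset.sum_congr rfl (fun i _ => ?_)
    rw [Finset.mul_sum, ← Finset.sum_sub_distrib]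
    exact Finset.sum_congr rfl (fun l _ => by ring)
  have e2 : ∑ i ∈ S, ∑ l ∈ S, w i * w l * h i l * x l = ∑ i ∈ S, ∑ l ∈ S, w i * w l * h i l * x i := by
    rw [Finset.sum_comm]
    refine Finset.sum_congr rfl (fun i hi => Finset.sum_congr rfl (fun l hl => ?_))
    rw [hh l hl i hi]
    ring
  rw [e1, e2, sub_self]

/-- A wall gives a good pencil, first form. Proof: let `W = ∑ w_l`, `c₁ = W a / (W + ω)`, `P` the updated
function, `Q = g`; note `a ≠ 0` (otherwise the update is `g`), so `c₁ ≠ 0`. If `∑ w_l x_l = 0` then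
`Kop x i = (∑_l w_l h_il (x_i - x_l)) - W g_i x_i - [i = k] (W + ω) c₁ x_k + G`, `G = ∑ w_l g_l x_l`.
`exists_goodK`, `h1`: if moreover `Kop x i = z x_i` on `S`: multiply by `w_i` and sum over `i`: the sum of
`w_i w_l h_il (x_i - x_l)` is `0` (`h` symmetric), so
`- W G - (W + ω) c₁ w_k x_k + W G = 0`, `x_k = 0`; then
`∑_l w_l (h_il - g_i) (x_i - x_l) = z x_i - G`, so by `hg` `x` is constant on `S`, and it is zero because
`W x_i = ∑ w_l x_l = 0`. `h2`: `hbad` gives `κ, z, μ`, with the equation for the updated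
`g'_k = g_k + a`, not constant on `S`; put `x = κ - (∑ w_l κ_l) / W`: weighted sum zero, not zero on `S`
and `(∑_l w_l h_il (x_i - x_l)) - W g'_i x_i = z x_i + μ'`; as `(W + ω) c₁ = W a`,
`Kop x i = z x_i + μ' + G`. -/
theorem exists_goodK_of_wall [DecidableEq ι] [Fact ℓ.Prime] {w : ι → ZMod ℓ} {h : ι → ι → ZMod ℓ}
    {g : ι → ZMod ℓ} {S : Finset ι} {k : ι} {a ω : ZMod ℓ} (hh : ∀ i ∈ S, ∀ l ∈ S, h i l = h l i)
    (hW : ∑ l ∈ S, w l ≠ 0) (hω : ω ≠ 0) (hWω : ∑ l ∈ S, w l + ω ≠ 0) (hg : GoodR w h g S)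
    (hk : k ∈ S) (hwk : w k ≠ 0) (hbad : ¬ GoodR w h (Function.update g k (g k + a)) S) :
    ∃ y, GoodK w h (Function.update g k (g k + (∑ l ∈ S, w l) * a / (∑ l ∈ S, w l + ω))) g ω y S := by
  have ha : a ≠ 0 := by
    rintro rfl
    apply hbad
    rw [add_zero, Function.update_eq_self]
    exact hg
  set W : ZMod ℓ := ∑ l ∈ S, w l with hWdef
  set c₁ : ZMod ℓ := W * a / (W + ω) with hc₁
  have hc₁0 : c₁ ≠ 0 := div_ne_zero (mul_ne_zero hW ha) hWω
  have hc₁' : (W + ω) * c₁ = W * a := by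
    rw [hc₁]
    field_simp
  -- the formula for `Kop`
  have hK : ∀ x : ι → ZMod ℓ, ∑ l ∈ S, w l * x l = 0 → ∀ i,
      Kop w h (Function.update g k (g k + c₁)) g ω S x i =
        ∑ l ∈ S, w l * h i l * (x i - x l) - W * g i * x i - (if i = k then W * a * x i else 0)
          + ∑ l ∈ S, w l * g l * x l := by
    intro x hx i
    rw [Kop_formula_h46 hx i]
    by_cases hik : i = k
    · subst hik
      rw [if_pos rfl, Function.update_self, ← hc₁', ← hWdef]
      ring
    · rw [if_neg hik, Function.update_of_ne hik, ← hWdef]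
      ring
  refine exists_goodK hh hω hWω ?_ ?_
  · intro x z hx hKx
    have hsum : ∑ i ∈ S, w i * Kop w h (Function.update g k (g k + c₁)) g ω S x i = 0 := by
      have : ∑ i ∈ S, w i * Kop w h (Function.update g k (g k + c₁)) g ω S x i =
          z * ∑ i ∈ S, w i * x i := by
        rw [Finset.mul_sum]
        exact Finset.sum_congr rfl (fun i hi => by rw [hKx i hi]; ring)
      rw [this, hx, mul_zero]
    have hG : W * ∑ l ∈ S, w l * g l * x l = ∑ i ∈ S, w i * ∑ l ∈ S, w l * g l * x l := by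
      rw [← Finset.sum_mul]
    have hsum2 : ∑ i ∈ S, w i * Kop w h (Function.update g k (g k + c₁)) g ω S x i =
        ∑ i ∈ S, w i * ∑ l ∈ S, w l * h i l * (x i - x l) - ∑ i ∈ S, W * (w i * g i * x i)
          - ∑ i ∈ S, (if i = k then w k * (W * a * x k) else 0) + ∑ i ∈ S, w i * ∑ l ∈ S, w l * g l * x l := by
      rw [← Finset.sum_sub_distrib, ← Finset.sum_sub_distrib, ← Finset.sum_add_distrib]
      refine Finset.sum_congr rfl (fun i _ => ?_)
      rw [hK x hx i]
      by_cases hik : i = k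
      · subst hik
        rw [if_pos rfl, if_pos rfl]
        ring
      · rw [if_neg hik, if_neg hik]
        ring
    rw [← Finset.mul_sum, ← hG] at hsum2
    rw [hsum, antisymm_sum_h46 x hh, Finset.sum_ite_eq' S k (fun _ => w k * (W * a * x k)), if_pos hk] at hsum2
    have hxk : x k = 0 := by
      have h3 : w k * (W * a * x k) = 0 := by linear_combination hsum2
      rcases mul_eq_zero.mp h3 with h4 | h4
      · exact absurd h4 hwk
      · rcases mul_eq_zero.mp h4 with h5 | h5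
        · exact absurd h5 (mul_ne_zero hW ha)
        · exact h5
    have hconst := hg x z (-(∑ l ∈ S, w l * g l * x l)) (by
      intro i hi
      have h6 := hKx i hi
      rw [hK x hx i] at h6
      have h7 : (if i = k then W * a * x i else 0) = 0 := by
        split_ifs with hik
        · rw [hik, hxk, mul_zero]
        · rfl
      rw [h7] at h6
      have h8 : ∑ l ∈ S, w l * (h i l - g i) * (x i - x l) =
          ∑ l ∈ S, w l * h i l * (x i - x l) - W * g i * x i + g i * ∑ l ∈ S, w l * x l := by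
        rw [hWdef, Finset.sum_mul, Finset.sum_mul, Finset.mul_sum, ← Finset.sum_sub_distrib, ← Finset.sum_add_distrib]
        exact Finset.sum_congr rfl (fun l _ => by ring)
      rw [h8, hx]
      linear_combination h6)
    intro i hi
    have h9 : W * x i = 0 := by
      rw [← hx, hWdef, Finset.sum_mul]
      exact Finset.sum_congr rfl (fun l hl => by rw [hconst i hi l hl])
    rcases mul_eq_zero.mp h9 with h10 | h10
    · exact absurd h10 hW
    · exact h10
  · unfold GoodR at hbad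
    push Not at hbad
    obtain ⟨κ, z, μ, hκ, i₀, hi₀, j₀, hj₀, hne⟩ := hbad
    set m : ZMod ℓ := (∑ l ∈ S, w l * κ l) / W with hm
    have hx : ∑ l ∈ S, w l * (κ l - m) = 0 := by
      have : ∑ l ∈ S, w l * (κ l - m) = ∑ l ∈ S, w l * κ l - W * m := by
        rw [hWdef, Finset.sum_mul, ← Finset.sum_sub_distrib]
        exact Finset.sum_congr rfl (fun l _ => by ring)
      rw [this, hm]
      field_simp
      ring
    refine ⟨fun l => κ l - m, z, z * m + μ + ∑ l ∈ S, w l * g l * (κ l - m), ?_, hx, ?_⟩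
    · by_contra hcon
      push Not at hcon
      have e1 := hcon i₀ hi₀
      have e2 := hcon j₀ hj₀
      beta_reduce at e1 e2
      exact hne (by linear_combination e1 - e2)
    · intro i hi
      rw [hK _ hx i]
      have h1 := hκ i hi
      have h2 : ∑ l ∈ S, w l * (h i l - Function.update g k (g k + a) i) * (κ i - κ l) =
          ∑ l ∈ S, w l * h i l * ((κ i - m) - (κ l - m)) - W * Function.update g k (g k + a) i * (κ i - m)
            + Function.update g k (g k + a) i * ∑ l ∈ S, w l * (κ l - m) := by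
        rw [hWdef, Finset.sum_mul, Finset.sum_mul, Finset.mul_sum, ← Finset.sum_sub_distrib, ← Finset.sum_add_distrib]
        exact Finset.sum_congr rfl (fun l _ => by ring)
      rw [h2, hx] at h1
      by_cases hik : i = k
      · subst hik
        rw [Function.update_self] at h1
        rw [if_pos rfl]
        linear_combination h1
      · rw [Function.update_of_ne hik] at h1
        rw [if_neg hik]
        linear_combination h1

end Pool.Agent.Lib.MP_89bcae_ag.Lr

end

section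

namespace Pool.Agent.Lib.MP_89bcae_ag.Lr

variable {ι : Type} {ℓ : ℕ}

theorem Kop_formula_h78 {w : ι → ZMod ℓ} {h : ι → ι → ZMod ℓ} {P Q : ι → ZMod ℓ} {ω : ZMod ℓ}
    {S : Finset ι} {x : ι → ZMod ℓ} (hx : ∑ l ∈ S, w l * x l = 0) (i : ι) :
    Kop w h P Q ω S x i = ∑ l ∈ S, w l * h i l * (x i - x l) - (∑ l ∈ S, w l) * P i * x i
      + ω * (Q i - P i) * x i + ∑ l ∈ S, w l * Q l * x l := by
  unfold Kop
  have h1 : ∑ l ∈ S, w l * (h i l - P i) * (x i - x l) =
      ∑ l ∈ S, w l * h i l * (x i - x l) - (∑ l ∈ S, w l) * P i * x i + P i * ∑ l ∈ S, w l * x l := by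
    rw [Finset.sum_mul, Finset.sum_mul, Finset.mul_sum, ← Finset.sum_sub_distrib, ← Finset.sum_add_distrib]
    exact Finset.sum_congr rfl (fun l _ => by ring)
  rw [h1, hx]
  ring

theorem antisymm_sum_h78 {w : ι → ZMod ℓ} {h : ι → ι → ZMod ℓ}
    {S : Finset ι} (x : ι → ZMod ℓ) (hh : ∀ i ∈ S, ∀ l ∈ S, h i l = h l i) :
    ∑ i ∈ S, w i * ∑ l ∈ S, w l * h i l * (x i - x l) = 0 := by
  have e1 : ∑ i ∈ S, w i * ∑ l ∈ S, w l * h i l * (x i - x l) =
      ∑ i ∈ S, ∑ l ∈ S, w i * w l * h i l * x i - ∑ i ∈ S, ∑ l ∈ S, w i * w l * h i l * x l := by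
    rw [← Finset.sum_sub_distrib]
    refine Finset.sum_congr rfl (fun i _ => ?_)
    rw [Finset.mul_sum, ← Finset.sum_sub_distrib]
    exact Finset.sum_congr rfl (fun l _ => by ring)
  have e2 : ∑ i ∈ S, ∑ l ∈ S, w i * w l * h i l * x l = ∑ i ∈ S, ∑ l ∈ S, w i * w l * h i l * x i := by
    rw [Finset.sum_comm]
    refine Finset.sum_congr rfl (fun i hi => Finset.sum_congr rfl (fun l hl => ?_))
    rw [hh l hl i hi]
    ring
  rw [e1, e2, sub_self]

/-- A wall gives a good pencil, second form. Proof: let `W = ∑ w_l`, `c₁ = - W a / ω`, `P = g` and `Q` the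
updated function; note `a ≠ 0` (otherwise the update in `hbad` is `g`), so `c₁ ≠ 0`. If `∑ w_l x_l = 0` then
`Kop x i = (∑_l w_l h_il (x_i - x_l)) - W g_i x_i + [i = k] ω c₁ x_k + G + c₁ w_k x_k`,
`G = ∑ w_l g_l x_l`. `exists_goodK`, `h1`: if moreover `Kop x i = z x_i` on `S`: multiply by `w_i` and sum
over `i`: the sum of `w_i w_l h_il (x_i - x_l)` is `0` (`h` symmetric), so
`- W G + ω c₁ w_k x_k + W G + W c₁ w_k x_k = 0`, `(W + ω) c₁ w_k x_k = 0`, `x_k = 0`; then
`∑_l w_l (h_il - g_i) (x_i - x_l) = z x_i - G`, so by `hg` `x` is constant on `S`, and it is zero because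
`W x_i = ∑ w_l x_l = 0`. `h2`: `hbad` gives `κ, z, μ`, with the equation for the updated
`g'_k = g_k + a`, not constant on `S`; put `x = κ - (∑ w_l κ_l) / W`: weighted sum zero, not zero on `S`
and `(∑_l w_l h_il (x_i - x_l)) - W g'_i x_i = z x_i + μ'`; as `ω c₁ = - W a`,
`Kop x i = z x_i + μ' + G + c₁ w_k x_k`. -/
theorem exists_goodK_of_wall' [DecidableEq ι] [Fact ℓ.Prime] {w : ι → ZMod ℓ}
    {h : ι → ι → ZMod ℓ} {g : ι → ZMod ℓ} {S : Finset ι} {k : ι} {a ω : ZMod ℓ}
    (hh : ∀ i ∈ S, ∀ l ∈ S, h i l = h l i)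
    (hW : ∑ l ∈ S, w l ≠ 0) (hω : ω ≠ 0) (hWω : ∑ l ∈ S, w l + ω ≠ 0) (hg : GoodR w h g S)
    (hk : k ∈ S) (hwk : w k ≠ 0) (hbad : ¬ GoodR w h (Function.update g k (g k + a)) S) :
    ∃ y, GoodK w h g (Function.update g k (g k - (∑ l ∈ S, w l) * a / ω)) ω y S := by
  have ha : a ≠ 0 := by
    rintro rfl
    apply hbad
    rw [add_zero, Function.update_eq_self]
    exact hg
  set W : ZMod ℓ := ∑ l ∈ S, w l with hWdef
  obtain ⟨c₁, hc₁⟩ : ∃ c₁ : ZMod ℓ, c₁ = -(W * a / ω) := ⟨_, rfl⟩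
  have hc₁0 : c₁ ≠ 0 := by
    rw [hc₁]
    exact neg_ne_zero.mpr (div_ne_zero (mul_ne_zero hW ha) hω)
  have hc₁' : ω * c₁ = -(W * a) := by
    rw [hc₁]
    field_simp
  rw [sub_eq_add_neg, ← hc₁]
  -- the formula for `Kop`
  have hQ : ∀ x : ι → ZMod ℓ, ∑ l ∈ S, w l * Function.update g k (g k + c₁) l * x l =
      ∑ l ∈ S, w l * g l * x l + c₁ * w k * x k := by
    intro x
    have e1 : ∑ l ∈ S, w l * Function.update g k (g k + c₁) l * x l =
        ∑ l ∈ S, w l * g l * x l + ∑ l ∈ S, (if l = k then c₁ * w k * x k else 0) := by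
      rw [← Finset.sum_add_distrib]
      refine Finset.sum_congr rfl (fun l _ => ?_)
      by_cases hlk : l = k
      · subst hlk
        rw [if_pos rfl, Function.update_self]
        ring
      · rw [if_neg hlk, Function.update_of_ne hlk]
        ring
    rw [e1, Finset.sum_ite_eq' S k (fun _ => c₁ * w k * x k), if_pos hk]
  have hK : ∀ x : ι → ZMod ℓ, ∑ l ∈ S, w l * x l = 0 → ∀ i,
      Kop w h g (Function.update g k (g k + c₁)) ω S x i =
        ∑ l ∈ S, w l * h i l * (x i - x l) - W * g i * x i - (if i = k then W * a * x i else 0)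
          + (∑ l ∈ S, w l * g l * x l + c₁ * w k * x k) := by
    intro x hx i
    rw [Kop_formula_h78 hx i, hQ]
    by_cases hik : i = k
    · subst hik
      rw [if_pos rfl, Function.update_self, ← hWdef]
      linear_combination (x i) * hc₁'
    · rw [if_neg hik, Function.update_of_ne hik, ← hWdef]
      ring
  refine exists_goodK hh hω hWω ?_ ?_
  · intro x z hx hKx
    have hsum : ∑ i ∈ S, w i * Kop w h g (Function.update g k (g k + c₁)) ω S x i = 0 := by
      have : ∑ i ∈ S, w i * Kop w h g (Function.update g k (g k + c₁)) ω S x i =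
          z * ∑ i ∈ S, w i * x i := by
        rw [Finset.mul_sum]
        exact Finset.sum_congr rfl (fun i hi => by rw [hKx i hi]; ring)
      rw [this, hx, mul_zero]
    have hG : W * (∑ l ∈ S, w l * g l * x l + c₁ * w k * x k) =
        ∑ i ∈ S, w i * (∑ l ∈ S, w l * g l * x l + c₁ * w k * x k) := by
      rw [← Finset.sum_mul]
    have hsum2 : ∑ i ∈ S, w i * Kop w h g (Function.update g k (g k + c₁)) ω S x i =
        ∑ i ∈ S, w i * ∑ l ∈ S, w l * h i l * (x i - x l) - ∑ i ∈ S, W * (w i * g i * x i)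
          - ∑ i ∈ S, (if i = k then w k * (W * a * x k) else 0)
          + ∑ i ∈ S, w i * (∑ l ∈ S, w l * g l * x l + c₁ * w k * x k) := by
      rw [← Finset.sum_sub_distrib, ← Finset.sum_sub_distrib, ← Finset.sum_add_distrib]
      refine Finset.sum_congr rfl (fun i _ => ?_)
      rw [hK x hx i]
      by_cases hik : i = k
      · subst hik
        rw [if_pos rfl, if_pos rfl]
        ring
      · rw [if_neg hik, if_neg hik]
        ring
    rw [← Finset.mul_sum, ← hG] at hsum2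
    rw [hsum, antisymm_sum_h78 x hh, Finset.sum_ite_eq' S k (fun _ => w k * (W * a * x k)),
      if_pos hk] at hsum2
    have hxk : x k = 0 := by
      have h3 : (W + ω) * (c₁ * (w k * x k)) = 0 := by
        linear_combination -hsum2 + (w k * x k) * hc₁'
      rcases mul_eq_zero.mp h3 with h4 | h4
      · exact absurd h4 hWω
      · rcases mul_eq_zero.mp h4 with h5 | h5
        · exact absurd h5 hc₁0
        · rcases mul_eq_zero.mp h5 with h6 | h6
          · exact absurd h6 hwk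
          · exact h6
    have hconst := hg x z (-(∑ l ∈ S, w l * g l * x l)) (by
      intro i hi
      have h6 := hKx i hi
      rw [hK x hx i] at h6
      have h7 : (if i = k then W * a * x i else 0) = 0 := by
        split_ifs with hik
        · rw [hik, hxk, mul_zero]
        · rfl
      rw [h7, hxk] at h6
      have h8 : ∑ l ∈ S, w l * (h i l - g i) * (x i - x l) =
          ∑ l ∈ S, w l * h i l * (x i - x l) - W * g i * x i + g i * ∑ l ∈ S, w l * x l := by
        rw [hWdef, Finset.sum_mul, Finset.sum_mul, Finset.mul_sum, ← Finset.sum_sub_distrib,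
          ← Finset.sum_add_distrib]
        exact Finset.sum_congr rfl (fun l _ => by ring)
      rw [h8, hx]
      linear_combination h6)
    intro i hi
    have h9 : W * x i = 0 := by
      rw [← hx, hWdef, Finset.sum_mul]
      exact Finset.sum_congr rfl (fun l hl => by rw [hconst i hi l hl])
    rcases mul_eq_zero.mp h9 with h10 | h10
    · exact absurd h10 hW
    · exact h10
  · unfold GoodR at hbad
    push Not at hbad
    obtain ⟨κ, z, μ, hκ, i₀, hi₀, j₀, hj₀, hne⟩ := hbad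
    set m : ZMod ℓ := (∑ l ∈ S, w l * κ l) / W with hm
    have hx : ∑ l ∈ S, w l * (κ l - m) = 0 := by
      have : ∑ l ∈ S, w l * (κ l - m) = ∑ l ∈ S, w l * κ l - W * m := by
        rw [hWdef, Finset.sum_mul, ← Finset.sum_sub_distrib]
        exact Finset.sum_congr rfl (fun l _ => by ring)
      rw [this, hm]
      field_simp
      ring
    refine ⟨fun l => κ l - m, z,
      z * m + μ + (∑ l ∈ S, w l * g l * (κ l - m) + c₁ * w k * (κ k - m)), ?_, hx, ?_⟩
    · by_contra hcon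
      push Not at hcon
      have e1 := hcon i₀ hi₀
      have e2 := hcon j₀ hj₀
      beta_reduce at e1 e2
      exact hne (by linear_combination e1 - e2)
    · intro i hi
      rw [hK _ hx i]
      have h1 := hκ i hi
      have h2 : ∑ l ∈ S, w l * (h i l - Function.update g k (g k + a) i) * (κ i - κ l) =
          ∑ l ∈ S, w l * h i l * ((κ i - m) - (κ l - m)) -
            W * Function.update g k (g k + a) i * (κ i - m)
            + Function.update g k (g k + a) i * ∑ l ∈ S, w l * (κ l - m) := by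
        rw [hWdef, Finset.sum_mul, Finset.sum_mul, Finset.mul_sum, ← Finset.sum_sub_distrib,
          ← Finset.sum_add_distrib]
        exact Finset.sum_congr rfl (fun l _ => by ring)
      rw [h2, hx] at h1
      by_cases hik : i = k
      · subst hik
        rw [Function.update_self] at h1
        rw [if_pos rfl]
        linear_combination h1
      · rw [Function.update_of_ne hik] at h1
        rw [if_neg hik]
        linear_combination h1

end Pool.Agent.Lib.MP_89bcae_ag.Lr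

end

section

namespace Pool.Agent.Lib.MP_89bcae_ag.Lr

variable {ι : Type} {ℓ : ℕ}

/-- choice of the parameter -/
theorem alpha_h92 [Fact ℓ.Prime] (hℓ2 : ℓ ≠ 2) {a b c : ZMod ℓ} (hb : b ≠ 0) (hc : c ≠ 0) :
    ∃ α : ZMod ℓ, α ≠ 0 ∧ 2 * c * (a + b + c) * α - (a + c) ≠ 0 := by
  have h2 : (2 : ZMod ℓ) ≠ 0 := by
    have h2' := (ZMod.natCast_eq_zero_iff 2 ℓ).not.mpr (fun hd => hℓ2
      ((Nat.prime_dvd_prime_iff_eq (Fact.out : ℓ.Prime) Nat.prime_two).mp hd))
    exact_mod_cast h2'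
  by_cases h0 : a + b + c = 0
  · refine ⟨1, one_ne_zero, ?_⟩
    intro h
    apply hb
    linear_combination h + (1 - 2 * c) * h0
  · by_cases h1 : 2 * c * (a + b + c) * 1 - (a + c) = 0
    · refine ⟨-1, neg_ne_zero.mpr one_ne_zero, ?_⟩
      intro h
      have h3 : 2 * (2 * c * (a + b + c)) = 0 := by linear_combination h1 - h
      exact mul_ne_zero h2 (mul_ne_zero (mul_ne_zero h2 hc) h0) h3
    · exact ⟨1, one_ne_zero, h1⟩

/-- the linear algebra of hypothesis h1 of `exists_goodK` -/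
theorem lin_h92 [Fact ℓ.Prime] (hℓ2 : ℓ ≠ 2) {a b c α x₁ x₂ x₃ z : ZMod ℓ} (ha : a ≠ 0) (hb : b ≠ 0)
    (hc : c ≠ 0) (hα : α ≠ 0) (hα2 : 2 * c * (a + b + c) * α - (a + c) ≠ 0)
    (hσ : a * x₁ + (b * x₂ + c * x₃) = 0) (e1 : b * α * (x₁ - x₂) + c * α * x₃ = z * x₁)
    (e2 : a * α * (x₂ - x₁) + x₂ + c * α * x₃ = z * x₂) (e3 : (a + b + 2 * c) * α * x₃ = z * x₃) :
    x₁ = 0 ∧ x₂ = 0 ∧ x₃ = 0 := by
  have h2 : (2 : ZMod ℓ) ≠ 0 := by
    have h2' := (ZMod.natCast_eq_zero_iff 2 ℓ).not.mpr (fun hd => hℓ2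
      ((Nat.prime_dvd_prime_iff_eq (Fact.out : ℓ.Prime) Nat.prime_two).mp hd))
    exact_mod_cast h2'
  by_cases h3 : x₃ = 0
  · subst h3
    have hx2 : b * x₂ = 0 := by linear_combination a * e1 + b * e2 + z * hσ
    have hx2' : x₂ = 0 := (mul_eq_zero.mp hx2).resolve_left hb
    subst hx2'
    have hx1 : a * x₁ = 0 := by linear_combination hσ
    exact ⟨(mul_eq_zero.mp hx1).resolve_left ha, rfl, rfl⟩
  · exfalso
    have hz : (a + b + 2 * c) * α = z := mul_right_cancel₀ h3 e3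
    subst hz
    have f0 : 2 * α * ((a + c) * x₁ + b * x₂) = 0 := by linear_combination -e1 + α * hσ
    have f1 : (a + c) * x₁ + b * x₂ = 0 := (mul_eq_zero.mp f0).resolve_left (mul_ne_zero h2 hα)
    have f2 : x₂ - 2 * a * α * x₁ - 2 * (b + c) * α * x₂ = 0 := by linear_combination e2 - α * hσ
    have f3 : (2 * c * (a + b + c) * α - (a + c)) * x₁ = 0 := by
      linear_combination b * f2 - (1 - 2 * (b + c) * α) * f1
    have g1 : x₁ = 0 := (mul_eq_zero.mp f3).resolve_left hα2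
    subst g1
    have g2 : b * x₂ = 0 := by linear_combination f1
    have g2' : x₂ = 0 := (mul_eq_zero.mp g2).resolve_left hb
    subst g2'
    have g3 : c * x₃ = 0 := by linear_combination hσ
    exact h3 ((mul_eq_zero.mp g3).resolve_left hc)

/-- Four elements, for `GoodR`. Proof: let `a, b, c, d` be the weights of `s₁, s₂, s₃, s₄`,
`W = a + b + c + d`. Choose `α ≠ 0` with `2 c (a + b + c) α ≠ a + c`: if `a + b + c = 0` then
`a + c = - b ≠ 0` and `α = 1`; otherwise at most one value is excluded and `α ∈ {1, -1}` (`1 ≠ -1`).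
Let `g s₁ = 0`, `g s₂ = - 1 / W`, `g s₃ = - (a + b + c - d) α / W`. Apply `exists_goodK` to
`S₀ = {s₁, s₂, s₃}`, `P = g`, `Q s₁ = Q s₂ = 0`, `Q s₃ = α`, `ω = d`, `h` the function with `h s₁ s₂ =
h s₂ s₁ = α` and zero on the other pairs of `S₀`. For `x` with `a x₁ + b x₂ + c x₃ = 0`:
`Kop x s₁ = b α (x₁ - x₂) + c α x₃`, `Kop x s₂ = a α (x₂ - x₁) + x₂ + c α x₃`,
`Kop x s₃ = (a + b + 2 c) α x₃`. `h1`: if `Kop x = z x` and `x₃ = 0`, then `a` times the first plus `b`
times the second equation give `b x₂ = 0`, so `x = 0`; if `x₃ ≠ 0`, then `z = (a + b + 2 c) α`, and replacing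
`c x₃ = - a x₁ - b x₂` the first two equations become `(a + c) x₁ + b x₂ = 0` and
`- 2 a α x₁ - 2 (b + c) α x₂ + x₂ = 0`, hence `(2 c (a + b + c) α - (a + c)) x₁ = 0`, `x₁ = 0`, `x₂ = 0`,
`x₃ = 0`. `h2`: `x = (c, 0, - a)`, `z = (a + b) α`, `t = - 2 a c α`. Let `y` be the value given by
`exists_goodK`; `g s₄ = y` and `goodR_insert` (with `b = s₄`, `S = S₀`, `g = Q`, `u = P`). -/
theorem exists_goodR_four [DecidableEq ι] [Fact ℓ.Prime] (hℓ2 : ℓ ≠ 2) {w : ι → ZMod ℓ}
    {s₁ s₂ s₃ s₄ : ι} (h12 : s₁ ≠ s₂) (h13 : s₁ ≠ s₃) (h14 : s₁ ≠ s₄) (h23 : s₂ ≠ s₃)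
    (h24 : s₂ ≠ s₄) (h34 : s₃ ≠ s₄) (hw1 : w s₁ ≠ 0) (hw2 : w s₂ ≠ 0) (hw3 : w s₃ ≠ 0)
    (hw4 : w s₄ ≠ 0) (hW : w s₁ + w s₂ + w s₃ + w s₄ ≠ 0) :
    ∃ (α : ZMod ℓ) (g : ι → ZMod ℓ), ∀ h : ι → ι → ZMod ℓ,
      h s₁ s₂ = α → h s₂ s₁ = α → h s₃ s₄ = α → h s₄ s₃ = α → h s₁ s₃ = 0 → h s₃ s₁ = 0 →
      h s₁ s₄ = 0 → h s₄ s₁ = 0 → h s₂ s₃ = 0 → h s₃ s₂ = 0 → h s₂ s₄ = 0 → h s₄ s₂ = 0 →
      GoodR w h g {s₁, s₂, s₃, s₄} := by
  obtain ⟨α, hα, hα2⟩ := alpha_h92 hℓ2 (a := w s₁) hw2 hw3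
  obtain ⟨V, hV⟩ : ∃ V : ZMod ℓ, (w s₁ + w s₂ + w s₃ + w s₄) * V = 1 := ⟨_, mul_inv_cancel₀ hW⟩
  have hsum : ∀ f : ι → ZMod ℓ, ∑ l ∈ ({s₁, s₂, s₃} : Finset ι), f l = f s₁ + (f s₂ + f s₃) := by
    intro f
    rw [Finset.sum_insert (by simp [h12, h13]), Finset.sum_pair h23]
  obtain ⟨g0, g01, g02, g03⟩ : ∃ g0 : ι → ZMod ℓ, g0 s₁ = 0 ∧ g0 s₂ = -V ∧
      g0 s₃ = -((w s₁ + w s₂ + w s₃ - w s₄) * α * V) := by
    refine ⟨fun i => if i = s₁ then 0 else if i = s₂ then -V else
      -((w s₁ + w s₂ + w s₃ - w s₄) * α * V), ?_, ?_, ?_⟩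
    · simp
    · simp [h12.symm]
    · simp [h13.symm, h23.symm]
  obtain ⟨Q, Q1, Q2, Q3⟩ : ∃ Q : ι → ZMod ℓ, Q s₁ = 0 ∧ Q s₂ = 0 ∧ Q s₃ = α := by
    refine ⟨fun i => if i = s₃ then α else 0, ?_, ?_, ?_⟩
    · simp [h13]
    · simp [h23]
    · simp
  obtain ⟨h0, hsym, t11, t12, t13, t22, t23, t33⟩ : ∃ h0 : ι → ι → ZMod ℓ, (∀ i l, h0 i l = h0 l i) ∧
      h0 s₁ s₁ = 0 ∧ h0 s₁ s₂ = α ∧ h0 s₁ s₃ = 0 ∧ h0 s₂ s₂ = 0 ∧ h0 s₂ s₃ = 0 ∧ h0 s₃ s₃ = 0 := by
    refine ⟨fun i l => if (i = s₁ ∧ l = s₂) ∨ (i = s₂ ∧ l = s₁) then α else 0, ?_, ?_, ?_, ?_, ?_, ?_, ?_⟩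
    · intro i l
      exact if_congr (by tauto) rfl rfl
    · simp [h12]
    · simp
    · simp [h13.symm, h23.symm]
    · simp [h12.symm]
    · simp [h13.symm, h23.symm]
    · simp [h13.symm, h23.symm]
  have t21 : h0 s₂ s₁ = α := by rw [hsym, t12]
  have t31 : h0 s₃ s₁ = 0 := by rw [hsym, t13]
  have t32 : h0 s₃ s₂ = 0 := by rw [hsym, t23]
  have K1 : ∀ x : ι → ZMod ℓ, Kop w h0 g0 Q (w s₄) {s₁, s₂, s₃} x s₁ =
      w s₂ * α * (x s₁ - x s₂) + w s₃ * α * x s₃ := by
    intro x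
    unfold Kop
    rw [hsum, hsum, t11, t12, t13, g01, Q1, Q2, Q3]
    ring
  have K2 : ∀ x : ι → ZMod ℓ, w s₁ * x s₁ + (w s₂ * x s₂ + w s₃ * x s₃) = 0 →
      Kop w h0 g0 Q (w s₄) {s₁, s₂, s₃} x s₂ =
      w s₁ * α * (x s₂ - x s₁) + x s₂ + w s₃ * α * x s₃ := by
    intro x hσ
    unfold Kop
    rw [hsum, hsum, t21, t22, t23, g02, Q1, Q2, Q3]
    linear_combination x s₂ * hV - V * hσ
  have K3 : ∀ x : ι → ZMod ℓ, w s₁ * x s₁ + (w s₂ * x s₂ + w s₃ * x s₃) = 0 →
      Kop w h0 g0 Q (w s₄) {s₁, s₂, s₃} x s₃ = (w s₁ + w s₂ + 2 * w s₃) * α * x s₃ := by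
    intro x hσ
    unfold Kop
    rw [hsum, hsum, t31, t32, t33, g03, Q1, Q2, Q3]
    linear_combination (w s₁ + w s₂ + w s₃ - w s₄) * α * x s₃ * hV -
      (w s₁ + w s₂ + w s₃ - w s₄) * α * V * hσ
  have m1 : s₁ ∈ ({s₁, s₂, s₃} : Finset ι) := by simp
  have m2 : s₂ ∈ ({s₁, s₂, s₃} : Finset ι) := by simp
  have m3 : s₃ ∈ ({s₁, s₂, s₃} : Finset ι) := by simp
  have hall : ∀ p : ι → Prop, p s₁ → p s₂ → p s₃ → ∀ i ∈ ({s₁, s₂, s₃} : Finset ι), p i := by
    intro p p1 p2 p3 i hi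
    simp only [Finset.mem_insert, Finset.mem_singleton] at hi
    rcases hi with rfl | rfl | rfl
    · exact p1
    · exact p2
    · exact p3
  have hmain : ∃ y, GoodK w h0 g0 Q (w s₄) y {s₁, s₂, s₃} := by
    refine exists_goodK (fun i _ l _ => hsym i l) hw4 ?_ ?_ ?_
    · rw [hsum]
      intro h
      apply hW
      linear_combination h
    · intro x z hσ hx
      rw [hsum] at hσ
      have e1 := hx s₁ m1
      have e2 := hx s₂ m2
      have e3 := hx s₃ m3
      rw [K1] at e1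
      rw [K2 x hσ] at e2
      rw [K3 x hσ] at e3
      obtain ⟨r1, r2, r3⟩ := lin_h92 hℓ2 hw1 hw2 hw3 hα hα2 hσ e1 e2 e3
      exact hall _ r1 r2 r3
    · obtain ⟨x, x1, x2, x3⟩ : ∃ x : ι → ZMod ℓ, x s₁ = w s₃ ∧ x s₂ = 0 ∧ x s₃ = -w s₁ := by
        refine ⟨fun i => if i = s₁ then w s₃ else if i = s₂ then 0 else -w s₁, ?_, ?_, ?_⟩
        · simp
        · simp [h12.symm]
        · simp [h13.symm, h23.symm]
      have hσ : w s₁ * x s₁ + (w s₂ * x s₂ + w s₃ * x s₃) = 0 := by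
        rw [x1, x2, x3]; ring
      refine ⟨x, (w s₁ + w s₂) * α, -2 * w s₁ * w s₃ * α, ⟨s₁, m1, by rw [x1]; exact hw3⟩, ?_, ?_⟩
      · rw [hsum]; exact hσ
      · apply hall
        · rw [K1, x1, x2, x3]; ring
        · rw [K2 x hσ, x1, x2, x3]; ring
        · rw [K3 x hσ, x3]; ring
  obtain ⟨y, hy⟩ := hmain
  refine ⟨α, fun i => if i = s₄ then y else g0 i, ?_⟩
  intro h e12 e21 e34 e43 e13 e31 e14 e41 e23 e32 e24 e42
  have hset : ({s₁, s₂, s₃, s₄} : Finset ι) = insert s₄ {s₁, s₂, s₃} := by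
    ext i
    simp only [Finset.mem_insert, Finset.mem_singleton]
    tauto
  rw [hset]
  refine goodR_insert (b := s₄) (by simp [h14.symm, h24.symm, h34.symm]) hy ?_ ?_ ?_ ?_ ?_
  · apply hall
    · apply hall
      · intro hne; exact absurd rfl hne
      · intro _; rw [e12, t12]
      · intro _; rw [e13, t13]
    · apply hall
      · intro _; rw [e21, t21]
      · intro hne; exact absurd rfl hne
      · intro _; rw [e23, t23]
    · apply hall
      · intro _; rw [e31, t31]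
      · intro _; rw [e32, t32]
      · intro hne; exact absurd rfl hne
  · apply hall
    · rw [e14, Q1]
    · rw [e24, Q2]
    · rw [e34, Q3]
  · apply hall
    · rw [e41, Q1]
    · rw [e42, Q2]
    · rw [e43, Q3]
  · apply hall
    · simp [h14]
    · simp [h24]
    · simp [h34]
  · simp

end Pool.Agent.Lib.MP_89bcae_ag.Lr

end

section

/-!
# Families of polynomials whose differences have simple and distinct roots
-/

open Polynomial

open scoped Classical

namespace Pool.Agent.Lib.MP_89bcae_ag.Sup.Lns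

universe u

variable {ι : Type} [Fintype ι] [LinearOrder ι] {F : Type u} [Field F]

/-- The product of the differences `a_i - a_j`, `i < j`. -/
noncomputable def disc (a : ι → F[X]) : F[X] :=
  ∏ i, ∏ j ∈ Finset.univ.filter (fun j => i < j), (a i - a j)

/-- The roots of the differences. -/
noncomputable def SS (a : ι → F[X]) : Finset F := (disc a).roots.toFinset

/-- The differences have simple and distinct roots, and they are not constant. -/
structure AGeom (a : ι → F[X]) : Prop where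
  sep : (disc a).Separable
  pos : ∀ i j, i ≠ j → (a i - a j).natDegree ≠ 0


lemma disc_map {k : Type u} [Field k] (φ : k →+* F) (a : ι → k[X]) :
    disc (fun i => (a i).map φ) = (disc a).map φ := by
  unfold disc
  rw [Polynomial.map_prod]
  refine Finset.prod_congr rfl fun i _ => ?_
  rw [Polynomial.map_prod]
  refine Finset.prod_congr rfl fun j _ => ?_
  rw [Polynomial.map_sub]

lemma AGeom.map {k : Type u} [Field k] (φ : k →+* F) {a : ι → k[X]} (h : AGeom a) :
    AGeom (fun i => (a i).map φ) := by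
  refine ⟨?_, fun i j hij => ?_⟩
  · rw [disc_map]
    exact h.sep.map
  · rw [← Polynomial.map_sub, natDegree_map]
    exact h.pos i j hij

variable {a : ι → F[X]}

lemma dvd_disc {i j : ι} (hij : i < j) : a i - a j ∣ disc a := by
  unfold disc
  exact (Finset.dvd_prod_of_mem (fun j => a i - a j)
    (Finset.mem_filter.2 ⟨Finset.mem_univ j, hij⟩)).trans
    (Finset.dvd_prod_of_mem (fun i => ∏ j ∈ Finset.univ.filter (fun j => i < j), (a i - a j))
      (Finset.mem_univ i))

lemma mul_dvd_disc {i j k l : ι} (hij : i < j) (hkl : k < l) (hne : (i, j) ≠ (k, l)) :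
    (a i - a j) * (a k - a l) ∣ disc a := by
  have h1 : disc a = ∏ q ∈ (Finset.univ : Finset (ι × ι)).filter (fun q => q.1 < q.2),
      (a q.1 - a q.2) := by
    unfold disc
    rw [← Finset.univ_product_univ, Finset.prod_filter, Finset.prod_product]
    refine Finset.prod_congr rfl fun i _ => ?_
    rw [Finset.prod_filter]
  rw [h1]
  have h2 : (∏ q ∈ ({(i, j), (k, l)} : Finset (ι × ι)), (a q.1 - a q.2)) =
      (a i - a j) * (a k - a l) := Finset.prod_pair hne
  rw [← h2]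
  apply Finset.prod_dvd_prod_of_subset
  intro q hq
  rw [Finset.mem_insert, Finset.mem_singleton] at hq
  rw [Finset.mem_filter]
  rcases hq with rfl | rfl
  · exact ⟨Finset.mem_univ _, hij⟩
  · exact ⟨Finset.mem_univ _, hkl⟩

lemma AGeom.disc_ne (h : AGeom a) : disc a ≠ 0 := h.sep.ne_zero

lemma AGeom.ne (h : AGeom a) {i j : ι} (hij : i ≠ j) : a i - a j ≠ 0 := by
  intro h0
  apply h.pos i j hij
  rw [h0, natDegree_zero]

lemma mem_SS (h : AGeom a) {s : F} :
    s ∈ SS a ↔ ∃ i j, i ≠ j ∧ (a i).eval s = (a j).eval s := by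
  unfold SS
  rw [Multiset.mem_toFinset, mem_roots h.disc_ne, IsRoot.def]
  constructor
  · intro h0
    unfold disc at h0
    rw [eval_prod, Finset.prod_eq_zero_iff] at h0
    obtain ⟨i, -, hi⟩ := h0
    rw [eval_prod, Finset.prod_eq_zero_iff] at hi
    obtain ⟨j, hj, hij⟩ := hi
    rw [Finset.mem_filter] at hj
    rw [eval_sub, sub_eq_zero] at hij
    exact ⟨i, j, hj.2.ne, hij⟩
  · rintro ⟨i, j, hij, h1⟩
    rcases lt_or_gt_of_ne hij with h2 | h2
    · obtain ⟨q, hq⟩ := dvd_disc (a := a) h2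
      rw [hq, eval_mul, eval_sub, h1, sub_self, zero_mul]
    · obtain ⟨q, hq⟩ := dvd_disc (a := a) h2
      rw [hq, eval_mul, eval_sub, h1, sub_self, zero_mul]

lemma mem_SS_of_eq (h : AGeom a) {s : F} {i j : ι} (hij : i ≠ j)
    (hs : (a i).eval s = (a j).eval s) : s ∈ SS a := (mem_SS h).2 ⟨i, j, hij, hs⟩

private lemma ab_simple (h : AGeom a) {s : F} {i j : ι} (hij : i < j)
    (hs : (a i).eval s = (a j).eval s) : (derivative (a i - a j)).eval s ≠ 0 := by
  intro h0
  have h1 : (a i - a j).Separable := h.sep.of_dvd (dvd_disc hij)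
  obtain ⟨u, w, huw⟩ := h1
  have h2 := congrArg (eval s) huw
  rw [eval_add, eval_mul, eval_mul, h0, eval_sub, hs, sub_self, mul_zero, mul_zero, add_zero,
    eval_one] at h2
  exact zero_ne_one h2

/-- The roots of the differences are simple. -/
lemma AGeom.simple (h : AGeom a) {s : F} {i j : ι} (hij : i ≠ j)
    (hs : (a i).eval s = (a j).eval s) : (derivative (a i - a j)).eval s ≠ 0 := by
  rcases lt_or_gt_of_ne hij with h2 | h2
  · exact ab_simple h h2 hs
  · have h3 := ab_simple h h2 hs.symm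
    intro h0
    apply h3
    rw [derivative_sub, eval_sub] at h0 ⊢
    rw [← neg_sub, h0, neg_zero]

private lemma ab_pair (h : AGeom a) {s : F} {i j k l : ι} (hij : i < j) (hkl : k < l)
    (hs : (a i).eval s = (a j).eval s) (hs' : (a k).eval s = (a l).eval s) :
    (i, j) = (k, l) := by
  by_contra hne
  have h1 : ((a i - a j) * (a k - a l)).Separable := h.sep.of_dvd (mul_dvd_disc hij hkl hne)
  obtain ⟨u, w, huw⟩ := h1.isCoprime
  have h2 := congrArg (eval s) huw
  rw [eval_add, eval_mul, eval_mul, eval_sub, eval_sub, hs, hs', sub_self, sub_self, mul_zero,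
    mul_zero, add_zero, eval_one] at h2
  exact zero_ne_one h2

/-- The roots of the differences are distinct. -/
lemma AGeom.third (h : AGeom a) {s : F} {i j l : ι} (hij : i ≠ j) (hli : l ≠ i) (hlj : l ≠ j)
    (hs : (a i).eval s = (a j).eval s) : (a l).eval s ≠ (a i).eval s := by
  intro hl
  -- order the pairs `i, j` and `i, l`
  rcases lt_or_gt_of_ne hij with h1 | h1 <;> rcases lt_or_gt_of_ne hli with h2 | h2
  · have := ab_pair h h1 h2 hs hl
    rw [Prod.mk.injEq] at this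
    exact hij this.2.symm
  · have := ab_pair h h1 h2 hs hl.symm
    rw [Prod.mk.injEq] at this
    exact hlj this.2.symm
  · have := ab_pair h h1 h2 hs.symm hl
    rw [Prod.mk.injEq] at this
    exact hlj this.1.symm
  · have := ab_pair h h1 h2 hs.symm hl.symm
    rw [Prod.mk.injEq] at this
    exact hij this.1.symm

lemma AGeom.third' (h : AGeom a) {s : F} {i j l : ι} (hij : i ≠ j) (hli : l ≠ i) (hlj : l ≠ j)
    (hs : (a i).eval s = (a j).eval s) : (a l).eval s ≠ (a j).eval s := by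
  rw [← hs]
  exact h.third hij hli hlj hs

/-- Each root of the differences belongs to exactly one pair. -/
lemma AGeom.pair (h : AGeom a) {s : F} {i j k l : ι} (hij : i ≠ j) (hkl : k ≠ l)
    (hs : (a i).eval s = (a j).eval s) (hs' : (a k).eval s = (a l).eval s) :
    (k = i ∧ l = j) ∨ (k = j ∧ l = i) := by
  by_cases hki : k = i
  · left
    refine ⟨hki, ?_⟩
    by_contra hlj
    subst hki
    exact h.third hij hkl.symm hlj hs hs'.symm
  · by_cases hkj : k = j
    · right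
      refine ⟨hkj, ?_⟩
      by_contra hli
      subst hkj
      exact h.third hij hli hkl.symm hs (hs'.symm.trans hs.symm)
    · exfalso
      by_cases hli : l = i
      · subst hli
        exact h.third hij hki hkj hs hs'
      · by_cases hlj : l = j
        · subst hlj
          exact h.third hij hki hkj hs (hs'.trans hs.symm)
        · -- `i, j, k, l` distinct
          rcases lt_or_gt_of_ne hij with h1 | h1 <;> rcases lt_or_gt_of_ne hkl with h2 | h2
          · have := ab_pair h h1 h2 hs hs'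
            rw [Prod.mk.injEq] at this
            exact hki this.1.symm
          · have := ab_pair h h1 h2 hs hs'.symm
            rw [Prod.mk.injEq] at this
            exact hli this.1.symm
          · have := ab_pair h h1 h2 hs.symm hs'
            rw [Prod.mk.injEq] at this
            exact hkj this.1.symm
          · have := ab_pair h h1 h2 hs.symm hs'.symm
            rw [Prod.mk.injEq] at this
            exact hlj this.1.symm

lemma AGeom.injective (h : AGeom a) : Function.Injective a := by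
  intro i j hij
  by_contra hne
  exact h.ne hne (sub_eq_zero.2 hij)

lemma AGeom.exists_node [IsAlgClosed F] (h : AGeom a) {i j : ι} (hij : i ≠ j) :
    ∃ s, (a i).eval s = (a j).eval s := by
  have h1 : (a i - a j).degree ≠ 0 := by
    intro h0
    apply h.pos i j hij
    exact natDegree_eq_of_degree_eq_some (n := 0) h0
  obtain ⟨s, hs⟩ := IsAlgClosed.exists_root _ h1
  rw [IsRoot.def, eval_sub, sub_eq_zero] at hs
  exact ⟨s, hs⟩

/-- The factorisation of a difference. -/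
lemma AGeom.sub_eq [IsAlgClosed F] (h : AGeom a) {i j : ι} (hij : i ≠ j) :
    a i - a j = C (a i - a j).leadingCoeff *
      ∏ s ∈ (SS a).filter (fun s => (a i).eval s = (a j).eval s), (X - C s) := by
  have h0 := h.ne hij
  have hsep : (a i - a j).Separable := by
    rcases lt_or_gt_of_ne hij with h2 | h2
    · exact h.sep.of_dvd (dvd_disc h2)
    · have h3 : (a j - a i).Separable := h.sep.of_dvd (dvd_disc h2)
      have h4 : a i - a j ∣ a j - a i := ⟨-1, by ring⟩
      exact h3.of_dvd h4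
  have hnd : (a i - a j).roots.Nodup := nodup_roots hsep
  have h1 := (IsAlgClosed.splits (a i - a j)).eq_prod_roots
  have h2 : ((a i - a j).roots.map fun s => X - C s).prod =
      ∏ s ∈ (SS a).filter (fun s => (a i).eval s = (a j).eval s), (X - C s) := by
    have h3 : (SS a).filter (fun s => (a i).eval s = (a j).eval s) =
        (a i - a j).roots.toFinset := by
      ext s
      rw [Finset.mem_filter, Multiset.mem_toFinset, mem_roots h0, IsRoot.def, eval_sub,
        sub_eq_zero]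
      exact ⟨fun h => h.2, fun h' => ⟨mem_SS_of_eq h hij h', h'⟩⟩
    rw [h3, Finset.prod, Multiset.toFinset_val, hnd.dedup]
  rw [h2] at h1
  exact h1

end Pool.Agent.Lib.MP_89bcae_ag.Sup.Lns

end

section

namespace Pool.Agent.Lib.MP_89bcae_ag.Lr

variable {ι : Type} {ℓ : ℕ}

/-- Four elements. Proof: `Finset.card_eq_succ` (or `Finset.card_eq_three`, ...) gives
`S = {s₁, s₂, s₃, s₄}`; `exists_goodR_four` gives `α, g`; take
`c T = if T = {s₁, s₂} ∨ T = {s₃, s₄} then α else if T = {s₁, s₂, s₃} then g s₄ else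
if T = {s₁, s₂, s₄} then g s₃ else if T = {s₁, s₃, s₄} then g s₂ else if T = {s₂, s₃, s₄} then g s₁
else 0`; `goodT_four`. -/
theorem Ex.base [DecidableEq ι] [Fact ℓ.Prime] (hℓ2 : ℓ ≠ 2) {w : ι → ZMod ℓ} {S : Finset ι}
    (hS : S.card = 4) (hw : ∀ i ∈ S, w i ≠ 0) (hs : ∑ i ∈ S, w i ≠ 0) : Ex w S := by
  obtain ⟨s₁, S', h1, rfl, hS'⟩ := Finset.card_eq_succ.1 hS
  obtain ⟨s₂, s₃, s₄, h23, h24, h34, rfl⟩ := Finset.card_eq_three.1 hS'
  simp only [Finset.mem_insert, Finset.mem_singleton, not_or] at h1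
  obtain ⟨h12, h13, h14⟩ := h1
  have hW : w s₁ + w s₂ + w s₃ + w s₄ ≠ 0 := by
    have : ∑ i ∈ ({s₁, s₂, s₃, s₄} : Finset ι), w i = w s₁ + w s₂ + w s₃ + w s₄ := by
      rw [Finset.sum_insert (by simp [h12, h13, h14]), Finset.sum_insert (by simp [h23, h24]),
        Finset.sum_insert (by simp [h34]), Finset.sum_singleton]
      ring
    rwa [this] at hs
  obtain ⟨α, g, hg⟩ := exists_goodR_four hℓ2 h12 h13 h14 h23 h24 h34 (hw s₁ (by simp))
    (hw s₂ (by simp)) (hw s₃ (by simp)) (hw s₄ (by simp)) hW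
  let c : Finset ι → ZMod ℓ := fun T =>
    if (s₁ ∈ T ∧ s₂ ∈ T ∧ s₃ ∉ T ∧ s₄ ∉ T) ∨ (s₁ ∉ T ∧ s₂ ∉ T ∧ s₃ ∈ T ∧ s₄ ∈ T) then α
    else if s₁ ∈ T ∧ s₂ ∈ T ∧ s₃ ∈ T ∧ s₄ ∉ T then g s₄
    else if s₁ ∈ T ∧ s₂ ∈ T ∧ s₃ ∉ T ∧ s₄ ∈ T then g s₃
    else if s₁ ∈ T ∧ s₂ ∉ T ∧ s₃ ∈ T ∧ s₄ ∈ T then g s₂
    else if s₁ ∉ T ∧ s₂ ∈ T ∧ s₃ ∈ T ∧ s₄ ∈ T then g s₁
    else 0
  have hR : GoodR w (fun i l => c {i, l}) g {s₁, s₂, s₃, s₄} := by
    apply hg <;>
      simp [c, h12, h13, h14, h23, h24, h34, Ne.symm h12, Ne.symm h13, Ne.symm h14, Ne.symm h23,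
        Ne.symm h24, Ne.symm h34]
  refine ⟨c, g, ?_, hR⟩
  refine goodT_four h12 h13 h14 h23 h24 h34 (hw s₁ (by simp))
    (hw s₂ (by simp)) (hw s₃ (by simp)) (hw s₄ (by simp)) hW hR ?_ ?_ ?_ ?_ ?_ ?_ ?_ <;>
      simp [c, h12, h13, h14, h23, h24, h34, Ne.symm h12, Ne.symm h13, Ne.symm h14, Ne.symm h23,
        Ne.symm h24, Ne.symm h34]

end Pool.Agent.Lib.MP_89bcae_ag.Lr

end

section

namespace Pool.Agent.Lib.MP_89bcae_ag.Lr

variable {ι : Type} {ℓ : ℕ}

/-- One more element. Proof: `c, g` from `hE`; `exists_wall` for `h i l = c {i, l}` (symmetric: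
`Finset.pair_comm`) gives `g', k, a`; `exists_goodK_of_wall` with `ω = w b` gives `y`, with
`u = Function.update g' k (...)`. Let `c' T = if b ∈ T then (if (T.erase b).card = 1 then
∑ i ∈ T.erase b, g' i else c (T.erase b)) else c T`: `goodT_insert` (with `g'`) and `goodR_insert` (with
`g'`, `u` and `u' = Function.update u b y`). -/
theorem Ex.step [DecidableEq ι] [Fact ℓ.Prime] (hℓ2 : ℓ ≠ 2) {w : ι → ZMod ℓ} {S : Finset ι}
    (hS : 2 ≤ S.card) (hw : ∀ i ∈ S, w i ≠ 0) (hs : ∑ i ∈ S, w i ≠ 0) {b : ι} (hb : b ∉ S)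
    (hwb : w b ≠ 0) (hsb : ∑ i ∈ S, w i + w b ≠ 0) (hE : Ex w S) : Ex w (insert b S) := by
  obtain ⟨c, g, hT, hR⟩ := hE
  obtain ⟨g', k, a, hg', hk, hbad⟩ := exists_wall hℓ2 hS hw hs hR
  have hh : ∀ i ∈ S, ∀ l ∈ S, (fun i l => c {i, l}) i l = (fun i l => c {i, l}) l i := by
    intro i _ l _
    exact congrArg c (Finset.pair_comm i l)
  obtain ⟨y, hK⟩ := exists_goodK_of_wall (ω := w b) hh hs hwb hsb hg' hk (hw k hk) hbad
  have hne : S.Nonempty := ⟨k, hk⟩
  have hSb : ∀ i ∈ S, i ≠ b := fun i hi h => hb (h ▸ hi)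
  let c' : Finset ι → ZMod ℓ := fun T => if b ∈ T then
    (if (T.erase b).card = 1 then ∑ i ∈ T.erase b, g' i else c (T.erase b)) else c T
  have k1 : ∀ T : Finset ι, b ∉ T → c' T = c T := fun T hT' => if_neg hT'
  have k2 : ∀ T : Finset ι, b ∉ T → c' (insert b T) =
      if T.card = 1 then ∑ i ∈ T, g' i else c T := by
    intro T hT'
    have e : (insert b T).erase b = T := Finset.erase_insert hT'
    have : c' (insert b T) = if ((insert b T).erase b).card = 1 then
        ∑ i ∈ (insert b T).erase b, g' i else c ((insert b T).erase b) :=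
      if_pos (Finset.mem_insert_self b T)
    rw [this, e]
  have k3 : ∀ i ∈ S, c' {b, i} = g' i := by
    intro i hi
    have h1 : b ∉ ({i} : Finset ι) := by
      rw [Finset.mem_singleton]; exact fun h => hSb i hi h.symm
    rw [k2 {i} h1, if_pos (Finset.card_singleton i), Finset.sum_singleton]
  have k4 : ∀ i ∈ S, ∀ j ∈ S, b ∉ ({i, j} : Finset ι) := by
    intro i hi j hj h
    rw [Finset.mem_insert, Finset.mem_singleton] at h
    rcases h with h | h
    · exact hSb i hi h.symm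
    · exact hSb j hj h.symm
  have k5 : ∀ i ∈ S, ∀ j ∈ S, i ≠ j → c' {i, j} = c {i, j} := fun i hi j hj _ =>
    k1 _ (k4 i hi j hj)
  refine ⟨c', Function.update (Function.update g' k
    (g' k + (∑ l ∈ S, w l) * a / (∑ l ∈ S, w l + w b))) b y, ?_, ?_⟩
  · refine goodT_insert (g := g') hne hb hT hg' ?_ k5 ?_ k3
    · intro i hi j hj l hl _ _ _
      refine k1 _ ?_
      intro h
      rw [Finset.mem_insert] at h
      rcases h with h | h
      · exact hSb i hi h.symm
      · exact k4 j hj l hl h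
    · intro i hi j hj hij
      rw [k2 _ (k4 i hi j hj), if_neg]
      rw [Finset.card_pair hij]
      decide
  · refine goodR_insert hb hK k5 ?_ k3 ?_ (Function.update_self _ _ _)
    · intro i hi
      show c' {i, b} = g' i
      rw [Finset.pair_comm]
      exact k3 i hi
    · intro i hi
      exact Function.update_of_ne (hSb i hi) _ _

end Pool.Agent.Lib.MP_89bcae_ag.Lr

end

section

namespace Pool.Agent.Lib.MP_89bcae_ag.Lr

variable {ι : Type} {ℓ : ℕ}

/-- Two more elements of the same weight. Proof: `c, g` from `hE`; `exists_wall` gives `g', k, a`;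
`exists_goodK_of_wall'` with `ω = 2 * w b` gives `y`, with `u = Function.update g' k (...)`;
`exists_goodR_insert₂` for `g'` and this `y` gives `X', Y'`. Let `c'` be such that the hypotheses
`h1, ..., h6` of `goodT_insert₂` hold (with `g'` for `g`): for instance
`c' T = if b ∈ T ∧ b' ∈ T then (if T.card = 2 then y else ∑ i ∈ (T.erase b).erase b', u i) else
if b ∈ T ∨ b' ∈ T then (if T.card = 2 then ∑ i ∈ (T.erase b).erase b', g' i else
c ((T.erase b).erase b')) else c T`, and `g''` equal to `g'` on `S`, to `X'` at `b`, `Y'` at `b'`. -/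
theorem Ex.step₂ [DecidableEq ι] [Fact ℓ.Prime] (hℓ2 : ℓ ≠ 2) {w : ι → ZMod ℓ} {S : Finset ι}
    (hS : 2 ≤ S.card) (hw : ∀ i ∈ S, w i ≠ 0) (hs : ∑ i ∈ S, w i ≠ 0) {b b' : ι} (hb : b ∉ S)
    (hb' : b' ∉ S) (hbb' : b ≠ b') (hwb : w b ≠ 0) (hwb' : w b' = w b)
    (hsb : ∑ i ∈ S, w i + 2 * w b ≠ 0) (hE : Ex w S) : Ex w (insert b (insert b' S)) := by
  classical
  obtain ⟨c, g, hT, hR⟩ := hE
  have hSne : S.Nonempty := Finset.card_pos.mp (by omega)
  have h20 : (2 : ZMod ℓ) ≠ 0 := by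
    have hp : ℓ.Prime := Fact.out
    intro h
    have h' : ((2 : ℕ) : ZMod ℓ) = 0 := by exact_mod_cast h
    rw [ZMod.natCast_eq_zero_iff] at h'
    exact hℓ2 ((Nat.prime_dvd_prime_iff_eq hp Nat.prime_two).mp h')
  obtain ⟨g', k, a, hg', hk, hbad⟩ := exists_wall hℓ2 hS hw hs hR
  obtain ⟨y, hy⟩ := exists_goodK_of_wall' (ω := 2 * w b)
    (h := fun i l => c {i, l}) (fun i _ l _ => by simp only [Finset.pair_comm])
    hs (mul_ne_zero h20 hwb) hsb hg' hk (hw k hk) hbad
  set u := Function.update g' k (g' k - (∑ l ∈ S, w l) * a / (2 * w b)) with hu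
  obtain ⟨X, Y, hXY⟩ := exists_goodR_insert₂ hℓ2 hSne hb hb' hbb' rfl hwb' hs hwb hsb hg' y
  have hne : ∀ i ∈ S, i ≠ b := fun i hi h => hb (h ▸ hi)
  have hne' : ∀ i ∈ S, i ≠ b' := fun i hi h => hb' (h ▸ hi)
  let D : Finset ι → Finset ι := fun T => (T.erase b).erase b'
  let c' : Finset ι → ZMod ℓ := fun T =>
    if b ∈ T ∧ b' ∈ T then (if (D T).card = 0 then y else ∑ i ∈ D T, u i) else
    if b ∈ T ∨ b' ∈ T then (if (D T).card = 1 then ∑ i ∈ D T, g' i else c (D T)) else c T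
  have hc' : ∀ T, c' T = if b ∈ T ∧ b' ∈ T then (if (D T).card = 0 then y else ∑ i ∈ D T, u i) else
    if b ∈ T ∨ b' ∈ T then (if (D T).card = 1 then ∑ i ∈ D T, g' i else c (D T)) else c T :=
    fun T => rfl
  have hDb : ∀ T : Finset ι, b ∉ T → b' ∉ T → D (insert b T) = T := by
    intro T h1 h2
    simp only [D]
    rw [Finset.erase_insert h1, Finset.erase_eq_of_notMem h2]
  have hDb' : ∀ T : Finset ι, b ∉ T → b' ∉ T → D (insert b' T) = T := by
    intro T h1 h2
    simp only [D]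
    have h3 : b ∉ insert b' T := by simp [hbb', h1]
    rw [Finset.erase_eq_of_notMem h3, Finset.erase_insert h2]
  have hDbb : ∀ T : Finset ι, b ∉ T → b' ∉ T → D (insert b (insert b' T)) = T := by
    intro T h1 h2
    simp only [D]
    rw [Finset.erase_insert (by simp [hbb', h1]), Finset.erase_insert h2]
  have e1 : ∀ T : Finset ι, T ⊆ S → c' T = c T := by
    intro T hTS
    have h1 : b ∉ T := fun h => hb (hTS h)
    have h2 : b' ∉ T := fun h => hb' (hTS h)
    rw [hc']; simp [h1, h2]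
  have e2 : ∀ T : Finset ι, T ⊆ S → T.card ≠ 1 → c' (insert b T) = c T := by
    intro T hTS hc
    have h1 : b ∉ T := fun h => hb (hTS h)
    have h2 : b' ∉ T := fun h => hb' (hTS h)
    rw [hc', hDb T h1 h2]
    have h3 : ¬ (b ∈ insert b T ∧ b' ∈ insert b T) := by simp [h2, Ne.symm hbb']
    have h4 : b ∈ insert b T ∨ b' ∈ insert b T := Or.inl (Finset.mem_insert_self _ _)
    rw [if_neg h3, if_pos h4, if_neg hc]
  have e2' : ∀ T : Finset ι, T ⊆ S → T.card ≠ 1 → c' (insert b' T) = c T := by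
    intro T hTS hc
    have h1 : b ∉ T := fun h => hb (hTS h)
    have h2 : b' ∉ T := fun h => hb' (hTS h)
    rw [hc', hDb' T h1 h2]
    have h3 : ¬ (b ∈ insert b' T ∧ b' ∈ insert b' T) := by simp [h1, hbb']
    have h4 : b ∈ insert b' T ∨ b' ∈ insert b' T := Or.inr (Finset.mem_insert_self _ _)
    rw [if_neg h3, if_pos h4, if_neg hc]
  have e3 : ∀ i ∈ S, c' {b, i} = g' i := by
    intro i hi
    have h1 : b ∉ ({i} : Finset ι) := by simpa using (hne i hi).symm
    have h2 : b' ∉ ({i} : Finset ι) := by simpa using (hne' i hi).symm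
    have h0 : ({b, i} : Finset ι) = insert b {i} := rfl
    rw [h0, hc', hDb _ h1 h2]
    have h3 : ¬ (b ∈ insert b ({i} : Finset ι) ∧ b' ∈ insert b ({i} : Finset ι)) := by
      rintro ⟨_, h⟩
      rcases Finset.mem_insert.mp h with h | h
      · exact hbb' h.symm
      · exact h2 h
    have h4 : b ∈ insert b ({i} : Finset ι) ∨ b' ∈ insert b ({i} : Finset ι) :=
      Or.inl (Finset.mem_insert_self _ _)
    rw [if_neg h3, if_pos h4, if_pos (Finset.card_singleton i), Finset.sum_singleton]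
  have e3' : ∀ i ∈ S, c' {b', i} = g' i := by
    intro i hi
    have h1 : b ∉ ({i} : Finset ι) := by simpa using (hne i hi).symm
    have h2 : b' ∉ ({i} : Finset ι) := by simpa using (hne' i hi).symm
    have h0 : ({b', i} : Finset ι) = insert b' {i} := rfl
    rw [h0, hc', hDb' _ h1 h2]
    have h3 : ¬ (b ∈ insert b' ({i} : Finset ι) ∧ b' ∈ insert b' ({i} : Finset ι)) := by
      rintro ⟨h, _⟩
      rcases Finset.mem_insert.mp h with h | h
      · exact hbb' h
      · exact h1 h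
    have h4 : b ∈ insert b' ({i} : Finset ι) ∨ b' ∈ insert b' ({i} : Finset ι) :=
      Or.inr (Finset.mem_insert_self _ _)
    rw [if_neg h3, if_pos h4, if_pos (Finset.card_singleton i), Finset.sum_singleton]
  have e5 : ∀ i ∈ S, c' {b, b', i} = u i := by
    intro i hi
    have h1 : b ∉ ({i} : Finset ι) := by simpa using (hne i hi).symm
    have h2 : b' ∉ ({i} : Finset ι) := by simpa using (hne' i hi).symm
    have h0 : ({b, b', i} : Finset ι) = insert b (insert b' {i}) := rfl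
    rw [h0, hc', hDbb _ h1 h2]
    have h3 : b ∈ insert b (insert b' ({i} : Finset ι)) ∧ b' ∈ insert b (insert b' ({i} : Finset ι)) :=
      ⟨Finset.mem_insert_self _ _, Finset.mem_insert_of_mem (Finset.mem_insert_self _ _)⟩
    rw [if_pos h3, if_neg (by rw [Finset.card_singleton]; norm_num), Finset.sum_singleton]
  have e6 : c' {b, b'} = y := by
    have h0 : ({b, b'} : Finset ι) = insert b (insert b' ∅) := by simp
    rw [h0, hc', hDbb _ (Finset.notMem_empty _) (Finset.notMem_empty _)]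
    have h3 : b ∈ insert b (insert b' (∅ : Finset ι)) ∧ b' ∈ insert b (insert b' (∅ : Finset ι)) :=
      ⟨Finset.mem_insert_self _ _, Finset.mem_insert_of_mem (Finset.mem_insert_self _ _)⟩
    rw [if_pos h3, if_pos Finset.card_empty]
  have hpairS : ∀ i ∈ S, ∀ j ∈ S, ({i, j} : Finset ι) ⊆ S := by
    intro i hi j hj x hx
    rcases Finset.mem_insert.mp hx with h | h
    · exact h ▸ hi
    · exact (Finset.mem_singleton.mp h) ▸ hj
  have hpairc : ∀ i j : ι, i ≠ j → ({i, j} : Finset ι).card ≠ 1 := by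
    intro i j hij
    rw [Finset.card_pair hij]; norm_num
  refine ⟨c', fun x => if x = b then X else if x = b' then Y else g' x, ?_, ?_⟩
  · refine goodT_insert₂ hℓ2 hSne hb hb' hbb' (e := w b) (y := y) rfl hwb' hT hg' hy
      ?_ ?_ ?_ ?_ e3 e3' e5 e6
    · intro i hi j hj l hl _ _ _
      refine e1 _ ?_
      intro x hx
      rcases Finset.mem_insert.mp hx with h | h
      · exact h ▸ hi
      · exact hpairS j hj l hl h
    · intro i hi j hj _
      exact e1 _ (hpairS i hi j hj)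
    · intro i hi j hj hij
      exact e2 _ (hpairS i hi j hj) (hpairc i j hij)
    · intro i hi j hj hij
      exact e2' _ (hpairS i hi j hj) (hpairc i j hij)
  · refine hXY _ _ ?_ ?_ ?_ ?_ ?_ ?_ ?_ ?_ ?_ ?_
    · intro i hi l hl _
      exact e1 _ (hpairS i hi l hl)
    · intro i hi
      show c' {i, b} = g' i
      rw [Finset.pair_comm]; exact e3 i hi
    · intro i hi
      show c' {i, b'} = g' i
      rw [Finset.pair_comm]; exact e3' i hi
    · intro i hi
      exact e3 i hi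
    · intro i hi
      exact e3' i hi
    · exact e6
    · show c' {b', b} = y
      rw [Finset.pair_comm]; exact e6
    · intro i hi
      simp [hne i hi, hne' i hi]
    · simp
    · simp [Ne.symm hbb']

end Pool.Agent.Lib.MP_89bcae_ag.Lr

end

section

/-!
# Lines over a field: the arithmetic condition
-/

open Polynomial

open scoped Classical

set_option linter.unusedSectionVars false
set_option linter.unusedSimpArgs false
set_option linter.style.haveILetI false

namespace Pool.Agent.Lib.MP_89bcae_ag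

universe u

/-- A homomorphism from the multiplicative group to `ZMod ℓ`, trivial at `-1`. -/
structure Val14 (k : Type u) [Field k] (ℓ : ℕ) where
  ν : k → ZMod ℓ
  mul : ∀ x y, x ≠ 0 → y ≠ 0 → ν (x * y) = ν x + ν y
  neg_one : ν (-1) = 0

namespace Val14

variable {k : Type u} [Field k] {ℓ : ℕ} (V : Val14 k ℓ)

lemma one : V.ν 1 = 0 := by
  have h := V.mul 1 1 one_ne_zero one_ne_zero
  rw [mul_one] at h
  exact left_eq_add.1 h

lemma neg {x : k} (hx : x ≠ 0) : V.ν (-x) = V.ν x := by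
  have h2 := V.mul (-1) x (neg_ne_zero.2 one_ne_zero) hx
  rw [neg_one_mul, V.neg_one, zero_add] at h2
  exact h2

lemma inv {x : k} (hx : x ≠ 0) : V.ν x⁻¹ = -V.ν x := by
  have h := V.mul x x⁻¹ hx (inv_ne_zero hx)
  rw [mul_inv_cancel₀ hx, V.one] at h
  linear_combination -h

lemma div {x y : k} (hx : x ≠ 0) (hy : y ≠ 0) : V.ν (x / y) = V.ν x - V.ν y := by
  rw [div_eq_mul_inv, V.mul _ _ hx (inv_ne_zero hy), V.inv hy]
  ring

lemma pow {x : k} (hx : x ≠ 0) (n : ℕ) : V.ν (x ^ n) = n * V.ν x := by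
  induction n with
  | zero => simp [V.one]
  | succ n ih =>
    rw [pow_succ, V.mul _ _ (pow_ne_zero _ hx) hx, ih]
    push_cast
    ring

lemma zpow {x : k} (hx : x ≠ 0) (n : ℤ) : V.ν (x ^ n) = n * V.ν x := by
  obtain ⟨m, rfl | rfl⟩ := n.eq_nat_or_neg
  · rw [zpow_natCast, V.pow hx, Int.cast_natCast]
  · rw [zpow_neg, V.inv (zpow_ne_zero _ hx), zpow_natCast, V.pow hx]
    push_cast
    ring

lemma prod {κ : Type*} (s : Finset κ) (f : κ → k) (hf : ∀ i ∈ s, f i ≠ 0) :
    V.ν (∏ i ∈ s, f i) = ∑ i ∈ s, V.ν (f i) := by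
  induction s using Finset.induction_on with
  | empty => simp [V.one]
  | insert a s ha ih =>
    rw [Finset.prod_insert ha, Finset.sum_insert ha,
      V.mul _ _ (hf a (Finset.mem_insert_self a s))
        (Finset.prod_ne_zero_iff.2 fun i hi => hf i (Finset.mem_insert_of_mem hi)),
      ih fun i hi => hf i (Finset.mem_insert_of_mem hi)]

end Val14

section

variable {ι : Type} [Fintype ι] [LinearOrder ι] {k : Type u} [Field k]

/-- The line with intercept `v (inl i)` and slope `v (inr i)`. -/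
noncomputable def lin14 (v : ι ⊕ ι → k) (i : ι) : k[X] :=
  C (v (Sum.inl i)) + C (v (Sum.inr i)) * X

/-- No two lines are parallel and no two intersection points have the same abscissa. -/
structure Gen14 (v : ι ⊕ ι → k) : Prop where
  slope : ∀ i j, i ≠ j → v (Sum.inr i) ≠ v (Sum.inr j)
  node : ∀ i j l m, i ≠ j → l ≠ m → ¬ (l = i ∧ m = j) → ¬ (l = j ∧ m = i) →
    (v (Sum.inl i) - v (Sum.inl j)) * (v (Sum.inr l) - v (Sum.inr m)) ≠
      (v (Sum.inl l) - v (Sum.inl m)) * (v (Sum.inr i) - v (Sum.inr j))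

variable {v : ι ⊕ ι → k}

lemma lin14_sub (i j : ι) : lin14 v i - lin14 v j =
    C (v (Sum.inl i) - v (Sum.inl j)) + C (v (Sum.inr i) - v (Sum.inr j)) * X := by
  unfold lin14
  rw [C_sub, C_sub]
  ring

lemma Gen14.slope_ne (h : Gen14 v) {i j : ι} (hij : i ≠ j) :
    v (Sum.inr i) - v (Sum.inr j) ≠ 0 := sub_ne_zero.2 (h.slope i j hij)

lemma Gen14.geom (h : Gen14 v) : Sup.Lns.AGeom (lin14 v) := by
  have hlin : ∀ c d : k, d ≠ 0 → (C c + C d * X : k[X]).Separable := by
    intro c d hd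
    rw [separable_def]
    have h1 : derivative (C c + C d * X : k[X]) = C d := by simp
    rw [h1]
    exact ⟨0, C d⁻¹, by rw [zero_mul, zero_add, ← C_mul, inv_mul_cancel₀ hd, C_1]⟩
  refine ⟨?_, fun i j hij => ?_⟩
  · unfold Sup.Lns.disc
    have h1 : (∏ i, ∏ j ∈ Finset.univ.filter (fun j => i < j), (lin14 v i - lin14 v j)) =
        ∏ q ∈ (Finset.univ : Finset (ι × ι)).filter (fun q => q.1 < q.2),
        (lin14 v q.1 - lin14 v q.2) := by
      rw [← Finset.univ_product_univ, Finset.prod_filter, Finset.prod_product]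
      refine Finset.prod_congr rfl fun i _ => ?_
      rw [Finset.prod_filter]
    rw [h1]
    apply separable_prod'
    · rintro ⟨i, j⟩ hij ⟨l, m⟩ hlm hne
      rw [Finset.mem_filter] at hij hlm
      have hij' : i < j := hij.2
      have hlm' : l < m := hlm.2
      have h2 := h.node i j l m hij'.ne hlm'.ne
        (fun hh => hne (by rw [hh.1, hh.2]))
        (fun hh => by
          rw [hh.1, hh.2] at hlm'
          exact absurd hlm' hij'.asymm)
      beta_reduce
      rw [lin14_sub, lin14_sub]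
      set Δ : k := (v (Sum.inl i) - v (Sum.inl j)) * (v (Sum.inr l) - v (Sum.inr m)) -
        (v (Sum.inl l) - v (Sum.inl m)) * (v (Sum.inr i) - v (Sum.inr j)) with hΔ
      have h3 : Δ ≠ 0 := sub_ne_zero.2 h2
      refine ⟨C (Δ⁻¹ * (v (Sum.inr l) - v (Sum.inr m))),
        C (-(Δ⁻¹ * (v (Sum.inr i) - v (Sum.inr j)))), ?_⟩
      have h4 : Δ⁻¹ * ((v (Sum.inl i) - v (Sum.inl j)) * (v (Sum.inr l) - v (Sum.inr m)) -
          (v (Sum.inl l) - v (Sum.inl m)) * (v (Sum.inr i) - v (Sum.inr j))) = 1 := by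
        rw [← hΔ]
        exact inv_mul_cancel₀ h3
      have h5 := congrArg (C : k → k[X]) h4
      simp only [C_mul, C_sub, C_1, C_neg] at h5 ⊢
      linear_combination h5
    · rintro ⟨i, j⟩ hij
      rw [Finset.mem_filter] at hij
      have hij' : i < j := hij.2
      beta_reduce
      rw [lin14_sub]
      exact hlin _ _ (h.slope_ne hij'.ne)
  · rw [lin14_sub, add_comm, natDegree_add_C, natDegree_C_mul_X _ (h.slope_ne hij)]
    exact one_ne_zero

/-- The abscissa of the intersection point. -/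
noncomputable def nd14 (v : ι ⊕ ι → k) (i j : ι) : k :=
  -((v (Sum.inl i) - v (Sum.inl j)) / (v (Sum.inr i) - v (Sum.inr j)))

lemma Gen14.eval_eq (h : Gen14 v) {i j : ι} (hij : i ≠ j) (s : k) :
    (lin14 v i).eval s = (lin14 v j).eval s ↔ s = nd14 v i j := by
  rw [← sub_eq_zero, ← eval_sub, lin14_sub]
  simp only [eval_add, eval_C, eval_mul, eval_X]
  have h0 := h.slope_ne hij
  unfold nd14
  constructor
  · intro h1
    rw [← neg_div, eq_div_iff h0]
    linear_combination h1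
  · rintro rfl
    field_simp
    ring

/-- The bracket of three lines. -/
noncomputable abbrev dd14 (v : ι ⊕ ι → k) (i j l : ι) : k := brk14 v (some i) (some j) (some l)

lemma dd14_eq (i j l : ι) : dd14 v i j l =
    (v (Sum.inl i) - v (Sum.inl j)) * (v (Sum.inr i) - v (Sum.inr l)) -
      (v (Sum.inr i) - v (Sum.inr j)) * (v (Sum.inl i) - v (Sum.inl l)) := by
  unfold dd14 brk14
  simp only [pc14, pa14, pb14]
  ring

lemma Gen14.dd_ne (h : Gen14 v) {i j l : ι} (hij : i ≠ j) (hil : i ≠ l) (hjl : j ≠ l) :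
    dd14 v i j l ≠ 0 := by
  rw [dd14_eq, sub_ne_zero]
  have h1 := h.node i j i l hij hil (fun hh => hjl hh.2.symm) (fun hh => hij hh.1)
  intro h2
  apply h1
  rw [h2]
  ring

lemma Gen14.sub1 (h : Gen14 v) {i j l : ι} (hij : i ≠ j) :
    (lin14 v i).eval (nd14 v i j) - (lin14 v l).eval (nd14 v i j) =
      -(dd14 v i j l / (v (Sum.inr i) - v (Sum.inr j))) := by
  have h0 := h.slope_ne hij
  rw [← eval_sub, lin14_sub, dd14_eq]
  simp only [eval_add, eval_C, eval_mul, eval_X]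
  unfold nd14
  field_simp
  ring

lemma Gen14.sub2 (h : Gen14 v) {i j l : ι} (hij : i ≠ j) (hil : i ≠ l) :
    nd14 v i j - nd14 v i l = -(dd14 v i j l / ((v (Sum.inr i) - v (Sum.inr j)) *
      (v (Sum.inr i) - v (Sum.inr l)))) := by
  have h0 := h.slope_ne hij
  have h1 := h.slope_ne hil
  rw [dd14_eq]
  unfold nd14
  field_simp
  ring

lemma Gen14.sub3 (h : Gen14 v) {i j l : ι} (hij : i ≠ j) (hjl : j ≠ l) :
    nd14 v i j - nd14 v j l = -(dd14 v i j l / ((v (Sum.inr i) - v (Sum.inr j)) *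
      (v (Sum.inr j) - v (Sum.inr l)))) := by
  have h0 := h.slope_ne hij
  have h1 := h.slope_ne hjl
  rw [dd14_eq]
  have e1 : v (Sum.inr i) - v (Sum.inr l) =
      (v (Sum.inr i) - v (Sum.inr j)) + (v (Sum.inr j) - v (Sum.inr l)) := by ring
  have e2 : v (Sum.inl i) - v (Sum.inl l) =
      (v (Sum.inl i) - v (Sum.inl j)) + (v (Sum.inl j) - v (Sum.inl l)) := by ring
  rw [e1, e2]
  unfold nd14
  field_simp
  ring

lemma nd14_symm (i j : ι) : nd14 v j i = nd14 v i j := by
  unfold nd14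
  rw [← neg_sub (v (Sum.inl i)), ← neg_sub (v (Sum.inr i)), neg_div_neg_eq]

lemma dd14_rot (i j l : ι) : dd14 v j l i = dd14 v i j l := by
  rw [dd14_eq, dd14_eq]
  ring

lemma dd14_swap (i j l : ι) : dd14 v j i l = -dd14 v i j l := by
  rw [dd14_eq, dd14_eq]
  ring

section comb

variable {F : Type} [Field F]

lemma sum_third14 (d : ι → F) (ε : ι → ι → F) {i j l : ι} {r : F}
    (hil : i ≠ l) (hjl : j ≠ l) (h1 : d l = r)
    (h0 : ∀ l', l' ≠ i → l' ≠ j → l' ≠ l → d l' = 0) :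
    ∑ m ∈ Finset.univ.filter (fun m => m ≠ i ∧ m ≠ j),
      d m * (ε i j + ε j m + ε m i) = r * (ε i j + ε j l + ε l i) := by
  rw [Finset.sum_eq_single l]
  · rw [h1]
  · intro m hm hml
    rw [Finset.mem_filter] at hm
    rw [h0 m hm.2.1 hm.2.2 hml, zero_mul]
  · intro hl
    exact absurd (Finset.mem_filter.2 ⟨Finset.mem_univ l, hil.symm, hjl.symm⟩) hl


lemma sum_off14 (f : ι → F) {i j : ι} (hij : i ≠ j) :
    ∑ m ∈ Finset.univ.filter (fun m => m ≠ i ∧ m ≠ j), f m = ∑ m, f m - f i - f j := by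
  have h1 : (Finset.univ.filter (fun m => m ≠ i ∧ m ≠ j)) = (Finset.univ.erase i).erase j := by
    ext m
    simp only [Finset.mem_filter, Finset.mem_univ, true_and, Finset.mem_erase]
    tauto
  rw [h1, Finset.sum_erase_eq_sub (Finset.mem_erase.2 ⟨hij.symm, Finset.mem_univ j⟩),
    Finset.sum_erase_eq_sub (Finset.mem_univ i)]

end comb

/-- The hypothesis on the homomorphisms: up to a function of the form `m₀ + μ_x + μ_y + μ_z`, the value
at the bracket `[x y z]` is nonzero exactly for the triangle `i j l`. -/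
def HV14 {ℓ : ℕ} (v : ι ⊕ ι → k) (V : Val14 k ℓ) (i j l : ι) : Prop :=
  ∃ (m₀ : ZMod ℓ) (μ : Option ι → ZMod ℓ) (r : ZMod ℓ), r ≠ 0 ∧
    V.ν (brk14 v (some i) (some j) (some l)) = m₀ + μ (some i) + μ (some j) + μ (some l) + r ∧
    ∀ x y z : Option ι, x ≠ y → y ≠ z → x ≠ z →
      ¬ (x ∈ ({some i, some j, some l} : Set (Option ι)) ∧
        y ∈ ({some i, some j, some l} : Set (Option ι)) ∧
        z ∈ ({some i, some j, some l} : Set (Option ι))) →
      V.ν (brk14 v x y z) = m₀ + μ x + μ y + μ z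

/-- All the brackets of `i j l` have the same value. -/
lemma nu_perm14 {ℓ : ℕ} (h : Gen14 v) (V : Val14 k ℓ) {i j l : ι} (hij : i ≠ j) (hjl : j ≠ l)
    (hil : i ≠ l) (m : ι → ZMod ℓ) {r : ZMod ℓ}
    (h1 : V.ν (dd14 v i j l) = m i + m j + m l + r) :
    ∀ a b c, a ≠ b → b ≠ c → a ≠ c → a ∈ ({i, j, l} : Set ι) → b ∈ ({i, j, l} : Set ι) →
      c ∈ ({i, j, l} : Set ι) → V.ν (dd14 v a b c) = m a + m b + m c + r := by
  have hn : ∀ {x y z : ι}, x ≠ y → y ≠ z → x ≠ z → V.ν (dd14 v y x z) = V.ν (dd14 v x y z) := by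
    intro x y z hxy hyz hxz
    rw [dd14_swap, V.neg (h.dd_ne hxy hxz hyz)]
  have c2 : V.ν (dd14 v j l i) = m i + m j + m l + r := by rw [dd14_rot]; exact h1
  have c3 : V.ν (dd14 v l i j) = m i + m j + m l + r := by rw [dd14_rot, dd14_rot]; exact h1
  have c4 : V.ν (dd14 v j i l) = m i + m j + m l + r := by rw [hn hij hjl hil]; exact h1
  have c5 : V.ν (dd14 v l j i) = m i + m j + m l + r := by rw [hn hjl hil.symm hij.symm]; exact c2
  have c6 : V.ν (dd14 v i l j) = m i + m j + m l + r := by rw [hn hil.symm hij hjl.symm]; exact c3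
  intro a b c hab hbc hac ha hb hc
  simp only [Set.mem_insert_iff, Set.mem_singleton_iff] at ha hb hc
  rcases ha with rfl | rfl | rfl <;> rcases hb with rfl | rfl | rfl <;>
    rcases hc with rfl | rfl | rfl <;> first
    | exact absurd rfl hab
    | exact absurd rfl hbc
    | exact absurd rfl hac
    | exact h1
    | (rw [c2]; ring)
    | (rw [c3]; ring)
    | (rw [c4]; ring)
    | (rw [c5]; ring)
    | (rw [c6]; ring)

end

end Pool.Agent.Lib.MP_89bcae_ag

end

section

/-!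
# The discrete logarithm modulo `ℓ` of a prime field
-/

namespace Pool.Agent.Lib.MP_89bcae_ag.Lr

/-- two powers of a primitive root with residues as exponents -/
theorem b03_pow_val_h15 {M : Type*} [CommMonoid M] {ℓ : ℕ} [NeZero ℓ] {ζ : M} (hζ : IsPrimitiveRoot ζ ℓ)
    (i j : ZMod ℓ) : ζ ^ i.val = ζ ^ j.val ↔ i = j := by
  constructor
  · intro h
    exact ZMod.val_injective ℓ (hζ.pow_inj (ZMod.val_lt i) (ZMod.val_lt j) h)
  · rintro rfl; rfl

theorem b03_pow_add_h15 {M : Type*} [CommMonoid M] {ℓ : ℕ} [NeZero ℓ] {ζ : M} (hζ : IsPrimitiveRoot ζ ℓ)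
    (i j : ZMod ℓ) : ζ ^ (i + j).val = ζ ^ i.val * ζ ^ j.val := by
  rw [← pow_add, ZMod.val_add]
  exact (pow_eq_pow_mod (i.val + j.val) hζ.pow_eq_one).symm

/-- The `ℓ`-th power residue symbol of `ZMod q`, for `ℓ` odd. Proof: for `x ≠ 0` the element
`x ^ ((q - 1) / ℓ)` is an `ℓ`-th root of `1` (`ZMod.pow_card_sub_one_eq_one`), so it is `ζ ^ i.val` for a
unique `i : ZMod ℓ` (`IsPrimitiveRoot.eq_pow_of_pow_eq_one`, `IsPrimitiveRoot.pow_inj`); this is `V.ν x`.
`neg_one`: `ν (-1) + ν (-1) = ν 1 = 0` and `2 ≠ 0` in `ZMod ℓ`. -/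
theorem exists_val_zmod {q ℓ : ℕ} [Fact q.Prime] (hℓ : ℓ.Prime) (hℓ2 : ℓ ≠ 2) (hq : ℓ ∣ q - 1)
    {ζ : ZMod q} (hζ : IsPrimitiveRoot ζ ℓ) :
    ∃ V : Val14 (ZMod q) ℓ, ∀ (x : ZMod q) (i : ZMod ℓ), x ≠ 0 → x ^ ((q - 1) / ℓ) = ζ ^ i.val →
      V.ν x = i := by
  classical
  have : NeZero ℓ := ⟨hℓ.ne_zero⟩
  have : Fact ℓ.Prime := ⟨hℓ⟩
  have hex : ∀ x : ZMod q, x ≠ 0 → ∃ i : ZMod ℓ, x ^ ((q - 1) / ℓ) = ζ ^ i.val := by
    intro x hx
    have h1 : (x ^ ((q - 1) / ℓ)) ^ ℓ = 1 := by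
      rw [← pow_mul, Nat.div_mul_cancel hq]
      exact ZMod.pow_card_sub_one_eq_one hx
    obtain ⟨n, hn, hne⟩ := hζ.eq_pow_of_pow_eq_one h1
    refine ⟨(n : ZMod ℓ), ?_⟩
    rw [ZMod.val_natCast_of_lt hn, hne]
  let f : ZMod q → ZMod ℓ := fun x => if h : x ≠ 0 then (hex x h).choose else 0
  have hf : ∀ (x : ZMod q) (i : ZMod ℓ), x ≠ 0 → x ^ ((q - 1) / ℓ) = ζ ^ i.val → f x = i := by
    intro x i hx hi
    have h1 : f x = (hex x hx).choose := dif_pos hx
    have h2 := (hex x hx).choose_spec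
    rw [h1]
    exact (b03_pow_val_h15 hζ _ _).1 (h2.symm.trans hi)
  have hf' : ∀ x : ZMod q, x ≠ 0 → x ^ ((q - 1) / ℓ) = ζ ^ (f x).val := by
    intro x hx
    obtain ⟨i, hi⟩ := hex x hx
    rw [hf x i hx hi, hi]
  have hmul : ∀ x y, x ≠ 0 → y ≠ 0 → f (x * y) = f x + f y := by
    intro x y hx hy
    apply hf _ _ (mul_ne_zero hx hy)
    rw [mul_pow, hf' x hx, hf' y hy, b03_pow_add_h15 hζ]
  have hone : f 1 = 0 := by
    apply hf _ _ one_ne_zero
    rw [one_pow, ZMod.val_zero, pow_zero]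
  have hneg : f (-1) = 0 := by
    have h1 := hmul (-1) (-1) (neg_ne_zero.2 one_ne_zero) (neg_ne_zero.2 one_ne_zero)
    rw [neg_one_mul, neg_neg, hone] at h1
    have h2 : (2 : ZMod ℓ) * f (-1) = 0 := by rw [two_mul, ← h1]
    rcases mul_eq_zero.1 h2 with h | h
    · exfalso
      have h3 : ((2 : ℕ) : ZMod ℓ) = 0 := by exact_mod_cast h
      rw [ZMod.natCast_eq_zero_iff] at h3
      exact hℓ2 ((Nat.prime_dvd_prime_iff_eq hℓ Nat.prime_two).1 h3)
    · exact h
  exact ⟨⟨f, hmul, hneg⟩, hf⟩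

end Pool.Agent.Lib.MP_89bcae_ag.Lr

end
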