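import Mathlib
import Pool.Agent.Lib.MP_89bcae_ag.Bk.K005
import Pool.Agent.Lib.MP_89bcae_ag.Bra.Defs

namespace Pool.Agent.Lib.MP_89bcae_ag.Sup
end Pool.Agent.Lib.MP_89bcae_ag.Sup

section

/-!
# Continuous cochains of `Aut(S/K)`, `S` an algebraic closure of `K`
-/

namespace Pool.Agent.Lib.MP_89bcae_ag.Bra

section

variable {K S : Type} [Field K] [Field S] [Algebra K S]

lemma IsCts.comp {X Y : Type} {a : (S ≃ₐ[K] S) → X} (ha : IsCts a) (φ : X → Y) :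
    IsCts fun g => φ (a g) := by
  obtain ⟨T, hT⟩ := ha
  exact ⟨T, fun g g' h => congrArg φ (hT g g' h)⟩

lemma IsCts.comp₂ {X Y Z : Type} {a : (S ≃ₐ[K] S) → X} {a' : (S ≃ₐ[K] S) → Y} (ha : IsCts a)
    (ha' : IsCts a') (φ : X → Y → Z) : IsCts fun g => φ (a g) (a' g) := by
  classical
  obtain ⟨T, hT⟩ := ha
  obtain ⟨T', hT'⟩ := ha'
  refine ⟨T ∪ T', fun g g' h => ?_⟩
  show φ (a g) (a' g) = φ (a g') (a' g')
  rw [hT g g' fun x hx => h x (Finset.mem_union_left _ hx),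
    hT' g g' fun x hx => h x (Finset.mem_union_right _ hx)]

lemma IsCts.const {X : Type} (x : X) : IsCts fun _ : S ≃ₐ[K] S => x := ⟨∅, fun _ _ _ => rfl⟩

variable [IsAlgClosure K S]

/-- A finite set is contained in a finite normal extension (the splitting field of the product of the minimal
polynomials: `IntermediateField.normalClosure`, or `IntermediateField.adjoin` of the roots). -/
theorem exists_normal (T : Finset S) : ∃ E : IntermediateField K S, FiniteDimensional K E ∧ Normal K E ∧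
    ∀ x ∈ T, x ∈ E := by
  have : Algebra.IsAlgebraic K S := IsAlgClosure.isAlgebraic
  have : Normal K S := IsAlgClosure.normal K S
  have : FiniteDimensional K (IntermediateField.adjoin K (T : Set S)) :=
    IntermediateField.finiteDimensional_adjoin fun x _ => Algebra.IsIntegral.isIntegral x
  exact ⟨IntermediateField.normalClosure K (IntermediateField.adjoin K (T : Set S)) S,
    inferInstance, inferInstance, fun x hx =>
      IntermediateField.le_normalClosure _ (IntermediateField.subset_adjoin K _ hx)⟩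

/-- The restrictions to a finite set take finitely many values. -/
theorem gal_a_res (T : Finset S) : ∃ (N : Type) (_ : Finite N) (r : (S ≃ₐ[K] S) → N),
    ∀ g g' : S ≃ₐ[K] S, r g = r g' → ∀ x ∈ T, g x = g' x := by
  obtain ⟨E, h1, h2, hE⟩ := exists_normal (K := K) T
  have : Normal K S := IsAlgClosure.normal K S
  refine ⟨E ≃ₐ[K] E, inferInstance, AlgEquiv.restrictNormalHom E, fun g g' h x hx => ?_⟩
  have e1 := AlgEquiv.restrictNormal_commutes g E ⟨x, hE x hx⟩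
  have e2 := AlgEquiv.restrictNormal_commutes g' E ⟨x, hE x hx⟩
  have e3 : g.restrictNormal E = g'.restrictNormal E := h
  rw [e3] at e1
  exact e1.symm.trans e2

/-- A continuous cochain has finitely many values: `a g` depends only on the restriction of `g` to a finite set
`T`, and `g x` is a root of the minimal polynomial of `x`. -/
theorem IsCts.finite_range {X : Type} {a : (S ≃ₐ[K] S) → X} (ha : IsCts a) : (Set.range a).Finite := by
  obtain ⟨T, hT⟩ := ha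
  obtain ⟨N, hN, r, hr⟩ := gal_a_res (K := K) T
  refine (Set.finite_range fun n : N => a (Function.invFun r n)).subset ?_
  rintro _ ⟨g, rfl⟩
  exact ⟨r g, hT _ _ (hr _ _ (Function.invFun_eq ⟨g, rfl⟩))⟩

/-- The same for cochains of degree two. -/
theorem finite_range₂ {X : Type} {b : (S ≃ₐ[K] S) → (S ≃ₐ[K] S) → X}
    (hb : ∃ T : Finset S, ∀ g g' h h' : S ≃ₐ[K] S, (∀ x ∈ T, g x = g' x) → (∀ x ∈ T, h x = h' x) →
      b g h = b g' h') : (Set.range fun p : (S ≃ₐ[K] S) × (S ≃ₐ[K] S) => b p.1 p.2).Finite := by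
  obtain ⟨T, hT⟩ := hb
  obtain ⟨N, hN, r, hr⟩ := gal_a_res (K := K) T
  refine (Set.finite_range fun n : N × N =>
    b (Function.invFun r n.1) (Function.invFun r n.2)).subset ?_
  rintro _ ⟨⟨g, h⟩, rfl⟩
  exact ⟨(r g, r h), hT _ _ _ _ (hr _ _ (Function.invFun_eq ⟨g, rfl⟩))
    (hr _ _ (Function.invFun_eq ⟨h, rfl⟩))⟩

/-- Hilbert's theorem 90 for continuous cocycles. PROOF. Let `T` be a finite set such that `a g` depends only on
the restriction of `g` to `T`; let `E` be a finite normal extension of `K` in `S` which contains `T` and the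
finitely many values of `a` (`exists_normal`, `IsCts.finite_range`). As restriction to `E` is surjective
(`AlgEquiv.restrictNormalHom_surjective`), `a` comes from a cocycle of `E ≃ₐ[K] E` with values in `Eˣ`; use
`groupCohomology.isMulCoboundary₁_of_isMulCocycle₁_of_aut_to_units` (finite dimensional extensions). -/
theorem h90 (a : (S ≃ₐ[K] S) → Sˣ) (ha : IsCts a)
    (hc : ∀ g h : S ≃ₐ[K] S, (a (g * h) : S) = g (a h) * a g) :
    ∃ e : Sˣ, ∀ g : S ≃ₐ[K] S, (a g : S) * e = g e := by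
  classical
  have hnS : Normal K S := IsAlgClosure.normal K S
  have hfin := ha.finite_range
  obtain ⟨T, hT⟩ := ha
  obtain ⟨E, hE1, hE2, hE3⟩ :=
    exists_normal (K := K) (T ∪ (hfin.toFinset.image fun u : Sˣ => (u : S)))
  have hTE : ∀ x ∈ T, x ∈ E := fun x hx => hE3 x (Finset.mem_union_left _ hx)
  have haE : ∀ g, (a g : S) ∈ E := fun g => hE3 _ (Finset.mem_union_right _
    (Finset.mem_image.mpr ⟨a g, hfin.mem_toFinset.mpr ⟨g, rfl⟩, rfl⟩))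
  have hres : ∀ (g : S ≃ₐ[K] S) (x : E), ((g.restrictNormal E x : E) : S) = g x := fun g x =>
    AlgEquiv.restrictNormal_apply E g x
  have hsurj : ∀ σ : E ≃ₐ[K] E, ∃ g : S ≃ₐ[K] S, ∀ x : E, g (x : S) = ((σ x : E) : S) := by
    intro σ
    obtain ⟨g, hg⟩ := AlgEquiv.restrictNormalHom_surjective (F := K) (K₁ := E) S σ
    refine ⟨g, fun x => ?_⟩
    rw [← hres g x]
    have h1 : g.restrictNormal E = σ := hg
    rw [h1]
  choose s hs using hsurj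
  have hne : ∀ σ, (⟨(a (s σ) : S), haE _⟩ : E) ≠ 0 := by
    intro σ h
    exact (a (s σ)).ne_zero (congrArg (fun z : E => (z : S)) h)
  let f : (E ≃ₐ[K] E) → Eˣ := fun σ => Units.mk0 ⟨(a (s σ) : S), haE _⟩ (hne σ)
  have hfv : ∀ σ, (((f σ : Eˣ) : E) : S) = a (s σ) := fun σ => rfl
  have hf : groupCohomology.IsMulCocycle₁ f := by
    intro σ τ
    apply Units.ext
    apply Subtype.ext
    have h1 : a (s (σ * τ)) = a (s σ * s τ) := by
      refine hT _ _ fun x hx => ?_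
      have h2 := hs (σ * τ) ⟨x, hTE x hx⟩
      have h3 := hs τ ⟨x, hTE x hx⟩
      have h4 := hs σ (τ ⟨x, hTE x hx⟩)
      show s (σ * τ) x = s σ (s τ x)
      rw [show s τ x = _ from h3, h4]
      exact h2
    have h5 := hs σ (f τ : E)
    rw [AlgEquiv.smul_units_def]
    show ((f (σ * τ) : E) : S) = ((σ (f τ : E) : E) : S) * ((f σ : E) : S)
    rw [← h5, hfv, hfv, hfv, h1, hc]
  obtain ⟨β, hβ⟩ := groupCohomology.isMulCoboundary₁_of_isMulCocycle₁_of_aut_to_units f hf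
  have hβ0 : ((β : E) : S) ≠ 0 := by
    intro h
    exact β.ne_zero (Subtype.ext h)
  refine ⟨Units.mk0 ((β : E) : S) hβ0, fun g => ?_⟩
  have h2 : a g = a (s (g.restrictNormal E)) := by
    refine hT _ _ fun x hx => ?_
    have h3 := hs (g.restrictNormal E) ⟨x, hTE x hx⟩
    rw [hres g ⟨x, hTE x hx⟩] at h3
    exact h3.symm
  have h4 : (g.restrictNormal E) • β = f (g.restrictNormal E) * β := by
    rw [← hβ (g.restrictNormal E), div_mul_cancel]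
  rw [AlgEquiv.smul_units_def] at h4
  have h5 : (((g.restrictNormal E) (β : E) : E) : S) =
      ((f (g.restrictNormal E) : E) : S) * ((β : E) : S) :=
    congrArg (fun u : Eˣ => ((u : E) : S)) h4
  show (a g : S) * ((β : E) : S) = g ((β : E) : S)
  rw [← hres g (β : E), h5, hfv, ← h2]

/-- The fixed elements are purely inseparable over `K`. PROOF: see `exists_pow_mem_L`, `g10_pow` in
`Wl/Gen.lean` (the minimal polynomial of a fixed element has only one root). -/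
theorem exists_pow_mem (z : S) (hz : ∀ g : S ≃ₐ[K] S, g z = z) :
    ∃ (s : ℕ) (y : K), z ^ ringExpChar K ^ s = algebraMap K S y := by
  have h1 : IsAlgClosed S := IsAlgClosure.isAlgClosed K
  have h2 : Algebra.IsAlgebraic K S := IsAlgClosure.isAlgebraic
  have h3 : Normal K S := IsAlgClosure.normal K S
  have hint : IsIntegral K z := (Algebra.IsAlgebraic.isAlgebraic z).isIntegral
  have h4 : (minpoly K z).natSepDegree = 1 := by
    classical
    rw [Polynomial.natSepDegree_eq_of_isAlgClosed S, Finset.card_eq_one]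
    refine ⟨z, ?_⟩
    ext y
    rw [Multiset.mem_toFinset, Finset.mem_singleton, Polynomial.mem_aroots]
    constructor
    · rintro ⟨-, hy⟩
      have h5 : IsConjRoot K z y := (isConjRoot_iff_aeval_eq_zero hint).mpr hy
      obtain ⟨σ, hσ⟩ := isConjRoot_iff_exists_algEquiv.mp h5
      have h6 := hz σ
      exact σ.injective (hσ.trans h6.symm)
    · rintro rfl
      exact ⟨minpoly.ne_zero hint, minpoly.aeval K _⟩
  obtain ⟨s, y, hy⟩ := (minpoly.natSepDegree_eq_one_iff_pow_mem (ringExpChar K)).mp h4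
  exact ⟨s, y, hy.symm⟩

end

end Pool.Agent.Lib.MP_89bcae_ag.Bra

end

section

/-!
ROW L01 (60-120 lines). Elementary lemmas on `Val p ϖ x : ∃ s i, x ^ p ^ s = ϖ ^ i` (positive reals,
`0 < ϖ < 1`, `p ≥ 1`; `p = 1` is allowed).

PROOFS. Raise to powers of `p` to have a common exponent `s`. For `Val.of_pow`: `x ^ p^s = ϖ ^ i`,
`(x ^ m) ^ p^r = ϖ ^ (ℓ j)`; with common `s`: `ϖ ^ (m i) = ϖ ^ (ℓ j)`, so `m i = ℓ j`
(`ϖ ≠ 1`, positive), and `ℓ ∣ i` as `ℓ` and `m` are coprime. `Val.root`: `x ^ ℓ` with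
`(x ^ ℓ) ^ p^s = ϖ ^ (ℓ i)` gives `x ^ p^s = ϖ ^ i` by injectivity of `ℓ`-th powers of positive
reals. `Val.pow_dvd`: `ϖ ^ (n p^s) = ϖ ^ (ℓ i)`, `n p ^ s = ℓ i`, `ℓ` coprime to `p`.
-/

open Polynomial

open scoped Classical

namespace Pool.Agent.Lib.MP_89bcae_ag.Sup

variable {p : ℕ} {ϖ : ℝ}

private lemma L01.npow (x : ℝ) (i : ℤ) (n : ℕ) : (x ^ i) ^ n = x ^ (i * n) := by
  rw [zpow_mul, zpow_natCast]

private lemma L01.npow' (x : ℝ) (i : ℤ) (n : ℕ) : (x ^ n) ^ i = x ^ ((n : ℤ) * i) := by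
  rw [zpow_mul, zpow_natCast]

private lemma L01.zmul (x : ℝ) (a b : ℤ) : ∃ c : ℤ, x ^ a * x ^ b = x ^ c := by
  by_cases hx : x = 0
  · subst hx
    by_cases ha : a = 0
    · exact ⟨b, by rw [ha, zpow_zero, one_mul]⟩
    · refine ⟨a, ?_⟩
      rw [zero_zpow a ha, zero_mul]
  · exact ⟨a + b, (zpow_add₀ hx a b).symm⟩

private lemma L01.zinj {ϖ : ℝ} (h0 : 0 < ϖ) (h1 : ϖ < 1) {a b : ℤ} (h : ϖ ^ a = ϖ ^ b) : a = b :=
  zpow_right_injective₀ h0 h1.ne h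

lemma Val.one (p : ℕ) (ϖ : ℝ) : Val p ϖ 1 := ⟨0, 0, by simp⟩

lemma Val.mul {x y : ℝ} (hx : Val p ϖ x) (hy : Val p ϖ y) : Val p ϖ (x * y) := by
  obtain ⟨s, i, hs⟩ := hx
  obtain ⟨r, j, hr⟩ := hy
  obtain ⟨c, hc⟩ := L01.zmul ϖ (i * ((p ^ r : ℕ) : ℤ)) (j * ((p ^ s : ℕ) : ℤ))
  refine ⟨s + r, c, ?_⟩
  rw [mul_pow, ← hc, ← L01.npow, ← L01.npow, ← hs, ← hr, ← pow_mul, ← pow_mul, ← pow_add,
    ← pow_add, add_comm r s]

lemma Val.inv {x : ℝ} (hx : Val p ϖ x) : Val p ϖ x⁻¹ := by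
  obtain ⟨s, i, hs⟩ := hx
  exact ⟨s, -i, by rw [inv_pow, hs, zpow_neg]⟩

lemma Val.pow {x : ℝ} (hx : Val p ϖ x) (n : ℕ) : Val p ϖ (x ^ n) := by
  obtain ⟨s, i, hs⟩ := hx
  exact ⟨s, i * n, by rw [pow_right_comm, hs, L01.npow]⟩


lemma Val.prod {ι : Type*} (s : Finset ι) (x : ι → ℝ) (hx : ∀ i ∈ s, Val p ϖ (x i)) :
    Val p ϖ (∏ i ∈ s, x i) :=
  Finset.prod_induction x (Val p ϖ) (fun _ _ ha hb => ha.mul hb) (Val.one p ϖ) hx


lemma Val.pow_self {x : ℝ} (ℓ : ℕ) (hx : Val p ϖ x) : Val p (ϖ ^ ℓ) (x ^ ℓ) := by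
  obtain ⟨s, i, hs⟩ := hx
  exact ⟨s, i, by rw [pow_right_comm, hs, L01.npow, L01.npow', mul_comm]⟩

lemma Val.of_pow {x : ℝ} {ℓ m : ℕ} (h0 : 0 < ϖ) (h1 : ϖ < 1) (hm : m.Coprime ℓ) (hx0 : 0 < x)
    (hx : Val p ϖ x) (h : Val p (ϖ ^ ℓ) (x ^ m)) : Val p (ϖ ^ ℓ) x := by
  obtain ⟨s, i, hs⟩ := hx
  obtain ⟨r, j, hr⟩ := h
  have e1 : x ^ p ^ (s + r) = ϖ ^ (i * ((p ^ r : ℕ) : ℤ)) := by
    rw [pow_add, pow_mul, hs, L01.npow]
  have e2 : (x ^ p ^ (s + r)) ^ m = ϖ ^ ((ℓ : ℤ) * (j * ((p ^ s : ℕ) : ℤ))) := by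
    rw [pow_right_comm, add_comm s r, pow_add, pow_mul, hr, L01.npow, L01.npow']
  rw [e1, L01.npow] at e2
  have e3 := L01.zinj h0 h1 e2
  have hd : (ℓ : ℤ) ∣ (i * ((p ^ r : ℕ) : ℤ)) * (m : ℤ) := ⟨_, e3⟩
  have hco : IsCoprime (ℓ : ℤ) (m : ℤ) := (Nat.isCoprime_iff_coprime.2 hm).symm
  obtain ⟨k, hk⟩ := hco.dvd_of_dvd_mul_right hd
  exact ⟨s + r, k, by rw [e1, hk, L01.npow']⟩


lemma Val.dvd_of_zpow {ℓ : ℕ} (hp : p.Coprime ℓ) (h0 : 0 < ϖ) (h1 : ϖ < 1) (n : ℤ)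
    (h : Val p (ϖ ^ ℓ) (ϖ ^ n)) : (ℓ : ℤ) ∣ n := by
  obtain ⟨s, i, hs⟩ := h
  rw [L01.npow, L01.npow'] at hs
  have e := L01.zinj h0 h1 hs
  have hco : IsCoprime (ℓ : ℤ) ((p ^ s : ℕ) : ℤ) :=
    (Nat.isCoprime_iff_coprime.2 (Nat.Coprime.pow_left s hp)).symm
  exact hco.dvd_of_dvd_mul_right ⟨_, e⟩

end Pool.Agent.Lib.MP_89bcae_ag.Sup

end

section

/-!
ROW L02 (80-150 lines). Residues and `ℓ`-th roots of units.

PROOFS. `v_eq_one_of_residue`: ultrametric. Uniqueness of residues: a constant `c - c'` with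
`v < 1` is zero. `root_of_unit_fixed`: let `z^ℓ = w`, `σ w = w`, `v w = 1`, so `v z = 1`. Let `c` be
the residue of `z`, `c ≠ 0`. `v (σ z - c) = v (σ (z - c)) < 1`. `σ z = ξ z` with `ξ^ℓ = 1`, and `ξ` is
a constant: it is a power of `ζ`, which is in (the image of) `F`; `v (ξ z - z) < 1` so
`v (ξ - 1) < 1` and `ξ = 1`.
`root_fixed_of_val`: `(z ^ p^s / π' ^ i)` is an `ℓ`-th root of a fixed unit, where
`v (z ^ ℓ) ^ p^s = (ϖ ^ ℓ) ^ i`; so it is fixed; so `σ (z) ^ p^s = z ^ p^s`; as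
`(σ z / z)^ℓ = 1` and `p` is prime to `ℓ`, `σ z = z`.
-/

open Polynomial

open scoped Classical

namespace Pool.Agent.Lib.MP_89bcae_ag.Sup

universe u

variable {F M : Type u} [Field F] [Field M] [Algebra F M] {v : AbsoluteValue M ℝ} {a : F} {t : M}

lemma LocCtx.residue_unique (h : LocCtx v a t) {x : M} {c c' : F}
    (hc : v (x - algebraMap F M c) < 1) (hc' : v (x - algebraMap F M c') < 1) : c = c' := by
  by_contra hne
  have h1 := h.const (c - c') (sub_ne_zero.mpr hne)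
  have h2 : algebraMap F M (c - c') = (x - algebraMap F M c') + -(x - algebraMap F M c) := by
    rw [map_sub]; ring
  have h3 := h.nonarch (x - algebraMap F M c') (-(x - algebraMap F M c))
  rw [← h2, h1, v.map_neg] at h3
  exact absurd h3 (not_le.mpr (max_lt hc' hc))

lemma LocCtx.v_const_le (h : LocCtx v a t) (c : F) : v (algebraMap F M c) ≤ 1 := by
  by_cases hc : c = 0
  · rw [hc, map_zero, map_zero]
    exact zero_le_one
  · exact (h.const c hc).le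

lemma LocCtx.v_eq_one (h : LocCtx v a t) {x : M} {c : F} (hc : v (x - algebraMap F M c) < 1)
    (h0 : c ≠ 0) : v x = 1 := by
  have h1 := h.const c h0
  apply le_antisymm
  · have h2 := h.nonarch (x - algebraMap F M c) (algebraMap F M c)
    rw [sub_add_cancel, h1] at h2
    exact h2.trans (max_le hc.le le_rfl)
  · have h2 := h.nonarch x (-(x - algebraMap F M c))
    rw [v.map_neg, show x + -(x - algebraMap F M c) = algebraMap F M c by ring, h1] at h2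
    rcases le_max_iff.mp h2 with h3 | h3
    · exact h3
    · exact absurd h3 (not_le.mpr hc)

lemma LocCtx.v_le_one (h : LocCtx v a t) {x : M} {c : F} (hc : v (x - algebraMap F M c) < 1) :
    v x ≤ 1 := by
  have h2 := h.nonarch (x - algebraMap F M c) (algebraMap F M c)
  rw [sub_add_cancel] at h2
  exact h2.trans (max_le hc.le (h.v_const_le c))

/-- Residues are multiplicative. -/
lemma LocCtx.residue_mul (h : LocCtx v a t) {x y : M} {c d : F}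
    (hc : v (x - algebraMap F M c) < 1) (hd : v (y - algebraMap F M d) < 1) :
    v (x * y - algebraMap F M (c * d)) < 1 := by
  have h1 : x * y - algebraMap F M (c * d) =
      x * (y - algebraMap F M d) + algebraMap F M d * (x - algebraMap F M c) := by
    rw [map_mul]; ring
  rw [h1]
  refine (h.nonarch _ _).trans_lt (max_lt ?_ ?_)
  · rw [v.map_mul]
    exact (mul_le_of_le_one_left (v.nonneg _) (h.v_le_one hc)).trans_lt hd
  · rw [v.map_mul]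
    exact (mul_le_of_le_one_left (v.nonneg _) (h.v_const_le d)).trans_lt hc

lemma LocCtx.residue_inv (h : LocCtx v a t) {x : M} {c : F}
    (hc : v (x - algebraMap F M c) < 1) (h0 : c ≠ 0) :
    v (x⁻¹ - algebraMap F M c⁻¹) < 1 := by
  have hx1 : v x = 1 := h.v_eq_one hc h0
  have hx0 : x ≠ 0 := by
    rintro rfl
    rw [map_zero] at hx1
    exact zero_ne_one hx1
  have hc0 : algebraMap F M c ≠ 0 := by
    intro h2
    have h3 := h.const c h0
    rw [h2, map_zero] at h3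
    exact zero_ne_one h3
  have h1 : x⁻¹ - algebraMap F M c⁻¹ = -(x - algebraMap F M c) * (x⁻¹ * (algebraMap F M c)⁻¹) := by
    rw [map_inv₀]
    field_simp
    ring
  rw [h1, v.map_mul, v.map_mul, v.map_neg, map_inv₀, map_inv₀, hx1, h.const c h0]
  simpa using hc

private lemma L02_residue_pow (h : LocCtx v a t) {x : M} {c : F}
    (hc : v (x - algebraMap F M c) < 1) (n : ℕ) :
    v (x ^ n - algebraMap F M (c ^ n)) < 1 := by
  induction n with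
  | zero => simp
  | succ n ih =>
    rw [pow_succ, pow_succ]
    exact h.residue_mul ih hc

lemma LocCtx.residue_zpow (h : LocCtx v a t) {x : M} {c : F}
    (hc : v (x - algebraMap F M c) < 1) (h0 : c ≠ 0) (n : ℤ) :
    v (x ^ n - algebraMap F M (c ^ n)) < 1 := by
  rcases n with n | n
  · rw [Int.ofNat_eq_natCast, zpow_natCast, zpow_natCast]
    exact L02_residue_pow h hc n
  · rw [zpow_negSucc, zpow_negSucc]
    exact h.residue_inv (L02_residue_pow h hc (n + 1)) (pow_ne_zero _ h0)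

lemma LocCtx.residue_eval (h : LocCtx v a t) {x : M} {c : F}
    (hc : v (x - algebraMap F M c) < 1) (P : F[X]) :
    v (aeval x P - algebraMap F M (P.eval c)) < 1 := by
  induction P using Polynomial.induction_on' with
  | add p q hp hq =>
    have h1 : aeval x (p + q) - algebraMap F M ((p + q).eval c) =
        (aeval x p - algebraMap F M (p.eval c)) + (aeval x q - algebraMap F M (q.eval c)) := by
      rw [map_add, eval_add, map_add]; ring
    rw [h1]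
    exact (h.nonarch _ _).trans_lt (max_lt hp hq)
  | monomial n r =>
    rw [aeval_monomial, eval_monomial]
    refine h.residue_mul ?_ (L02_residue_pow h hc n)
    simp

lemma LocCtx.root_of_unit_fixed (h : LocCtx v a t) {ℓ : ℕ} (hℓ : ℓ ≠ 0) {ζ : F}
    (hζ : IsPrimitiveRoot ζ ℓ) (σ : M ≃+* M) (hσ : ∀ x, v (σ x) = v x)
    (hc : ∀ c : F, σ (algebraMap F M c) = algebraMap F M c) {z : M} (h1 : v z = 1)
    (hz : σ (z ^ ℓ) = z ^ ℓ) : σ z = z := by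
  have hz0 : z ≠ 0 := by
    rintro rfl
    rw [map_zero] at h1
    exact zero_ne_one h1
  obtain ⟨c, hcz⟩ := h.residue z h1.le
  have hc0 : c ≠ 0 := by
    rintro rfl
    rw [map_zero, sub_zero, h1] at hcz
    exact lt_irrefl _ hcz
  have hξ : (σ z / z) ^ ℓ = 1 := by
    rw [div_pow, ← map_pow, hz, div_self (pow_ne_zero _ hz0)]
  have : NeZero ℓ := ⟨hℓ⟩
  have hζM : IsPrimitiveRoot (algebraMap F M ζ) ℓ :=
    hζ.map_of_injective (algebraMap F M).injective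
  obtain ⟨i, -, hi⟩ := hζM.eq_pow_of_pow_eq_one hξ
  have hσz : σ z = algebraMap F M (ζ ^ i) * z := by
    rw [map_pow, hi, div_mul_cancel₀ _ hz0]
  have h2 : v (σ z - algebraMap F M c) < 1 := by
    have h3 := hσ (z - algebraMap F M c)
    rw [map_sub, hc] at h3
    rw [h3]
    exact hcz
  have h4 : v (σ z - algebraMap F M (ζ ^ i * c)) < 1 := by
    rw [hσz]
    refine h.residue_mul ?_ hcz
    simp
  have h5 : c = ζ ^ i * c := h.residue_unique h2 h4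
  have h6 : ζ ^ i = 1 := by
    have h7 : ζ ^ i * c = 1 * c := by rw [one_mul]; exact h5.symm
    exact mul_right_cancel₀ hc0 h7
  rw [hσz, h6, map_one, one_mul]

lemma LocCtx.root_fixed_of_val (h : LocCtx v a t) {ℓ p : ℕ} (hℓ : ℓ ≠ 0) (hp : p.Coprime ℓ) {ζ : F}
    (hζ : IsPrimitiveRoot ζ ℓ) (σ : M ≃+* M) (hσ : ∀ x, v (σ x) = v x)
    (hc : ∀ c : F, σ (algebraMap F M c) = algebraMap F M c) {z π' : M} (hz0 : z ≠ 0)
    (hπ0 : π' ≠ 0) (hπ : σ π' = π') (hz : σ (z ^ ℓ) = z ^ ℓ)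
    (hv : Val p (v π' ^ ℓ) (v (z ^ ℓ))) : σ z = z := by
  obtain ⟨s, i, hsi⟩ := hv
  have hπi0 : π' ^ i ≠ 0 := zpow_ne_zero _ hπ0
  have hvπ0 : v π' ≠ 0 := v.ne_zero hπ0
  have hw1 : v (z ^ p ^ s / π' ^ i) = 1 := by
    have h1 : (v (z ^ p ^ s / π' ^ i)) ^ ℓ = 1 := by
      rw [map_div₀, map_pow, map_zpow₀, div_pow]
      have h2 : (v z ^ p ^ s) ^ ℓ = (v (z ^ ℓ)) ^ p ^ s := by
        rw [map_pow, ← pow_mul, ← pow_mul, mul_comm]
      have h3 : (v π' ^ i) ^ ℓ = (v π' ^ ℓ) ^ i := by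
        rw [← zpow_natCast, ← zpow_natCast, ← zpow_mul, ← zpow_mul, mul_comm]
      rw [h2, h3, hsi]
      exact div_self (zpow_ne_zero _ (pow_ne_zero _ hvπ0))
    exact (pow_eq_one_iff_of_nonneg (v.nonneg _) hℓ).mp h1
  have hwf : σ ((z ^ p ^ s / π' ^ i) ^ ℓ) = (z ^ p ^ s / π' ^ i) ^ ℓ := by
    have h2 : (z ^ p ^ s / π' ^ i) ^ ℓ = (z ^ ℓ) ^ p ^ s / (π' ^ i) ^ ℓ := by
      rw [div_pow, ← pow_mul, ← pow_mul, mul_comm]
    rw [h2, map_div₀, map_pow, hz, map_pow, map_zpow₀, hπ]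
  have hw := h.root_of_unit_fixed hℓ hζ σ hσ hc hw1 hwf
  have hzs : σ z ^ p ^ s = z ^ p ^ s := by
    rw [map_div₀, map_zpow₀, hπ, map_pow] at hw
    exact (div_left_inj' hπi0).mp hw
  have h1 : (σ z / z) ^ p ^ s = 1 := by
    rw [div_pow, hzs, div_self (pow_ne_zero _ hz0)]
  have h2 : (σ z / z) ^ ℓ = 1 := by
    rw [div_pow, ← map_pow, hz, div_self (pow_ne_zero _ hz0)]
  have h3 : (σ z / z) ^ (Nat.gcd (p ^ s) ℓ) = 1 := pow_gcd_eq_one.mpr ⟨h1, h2⟩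
  rw [(Nat.Coprime.pow_left s hp : Nat.gcd (p ^ s) ℓ = 1), pow_one] at h3
  exact (div_eq_one_iff_eq hz0).mp h3

end Pool.Agent.Lib.MP_89bcae_ag.Sup

end

section

/-!
# Kummer characters; local fields with algebraically closed residue field
-/

open Polynomial IsDedekindDomain

open scoped Classical

namespace Pool.Agent.Lib.MP_89bcae_ag.Bra

open Pool.Agent.Lib.MP_89bcae_ag.Sup

/-- `χ g`, in `{0, …, ℓ - 1}`, gives the action of `g` on `ϖ`. -/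
structure IsChi (ℓ : ℕ) {K E : Type} [Field K] [Field E] [Algebra K E] (ζ : K) (ϖ : E)
    (χ : (E ≃ₐ[K] E) → ℕ) : Prop where
  prime : ℓ.Prime
  zeta : IsPrimitiveRoot ζ ℓ
  ne : ϖ ≠ 0
  lt : ∀ g, χ g < ℓ
  act : ∀ g, g ϖ = algebraMap K E (ζ ^ χ g) * ϖ

/-- The carry of `χ g + χ h`. -/
def ep (ℓ : ℕ) {G : Type*} (χ : G → ℕ) (g h : G) : ℕ := (χ g + χ h) / ℓ

section

variable {ℓ : ℕ} {K E : Type} [Field K] [Field E] [Algebra K E] {ζ : K} {ϖ : E}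
  {χ : (E ≃ₐ[K] E) → ℕ}

/-- `g ϖ / ϖ` is a root of unity of order dividing `ℓ`. -/
theorem exists_isChi (hℓ : ℓ.Prime) (hζ : IsPrimitiveRoot ζ ℓ) (h0 : ϖ ≠ 0)
    (h : ∃ x : K, ϖ ^ ℓ = algebraMap K E x) : ∃ χ, IsChi ℓ ζ ϖ χ := by
  have : NeZero ℓ := ⟨hℓ.ne_zero⟩
  obtain ⟨x, hx⟩ := h
  have hζE : IsPrimitiveRoot (algebraMap K E ζ) ℓ := hζ.map_of_injective (algebraMap K E).injective
  have h1 : ∀ g : E ≃ₐ[K] E, ∃ i < ℓ, (algebraMap K E ζ) ^ i = g ϖ / ϖ := by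
    intro g
    refine hζE.eq_pow_of_pow_eq_one ?_
    rw [div_pow, ← map_pow, hx, AlgEquiv.commutes, div_self]
    rw [← hx]
    exact pow_ne_zero _ h0
  choose χ hlt hχ using h1
  refine ⟨χ, hℓ, hζ, h0, hlt, fun g => ?_⟩
  rw [map_pow, hχ g, div_mul_cancel₀ _ h0]

lemma IsChi.pow_inj' (hχ : IsChi ℓ ζ ϖ χ) {i j : ℕ} (hi : i < ℓ) (hj : j < ℓ)
    (h : algebraMap K E (ζ ^ i) * ϖ = algebraMap K E (ζ ^ j) * ϖ) : i = j :=
  hχ.zeta.pow_inj hi hj ((algebraMap K E).injective (mul_right_cancel₀ hχ.ne h))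

lemma IsChi.pow_mod' (hχ : IsChi ℓ ζ ϖ χ) (n : ℕ) : ζ ^ (n % ℓ) = ζ ^ n := by
  conv_rhs => rw [← Nat.mod_add_div n ℓ, pow_add, pow_mul, hχ.zeta.pow_eq_one, one_pow, mul_one]

lemma IsChi.mul (hχ : IsChi ℓ ζ ϖ χ) (g h : E ≃ₐ[K] E) : χ (g * h) = (χ g + χ h) % ℓ := by
  refine hχ.pow_inj' (hχ.lt _) (Nat.mod_lt _ hχ.prime.pos) ?_
  rw [← hχ.act, hχ.pow_mod', AlgEquiv.mul_apply, hχ.act h, map_mul, AlgEquiv.commutes, hχ.act g,
    pow_add, map_mul]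
  ring

lemma IsChi.one (hχ : IsChi ℓ ζ ϖ χ) : χ 1 = 0 := by
  refine hχ.pow_inj' (hχ.lt _) hχ.prime.pos ?_
  rw [← hχ.act, pow_zero, map_one, one_mul, AlgEquiv.one_apply]

lemma IsChi.add_eq (hχ : IsChi ℓ ζ ϖ χ) (g h : E ≃ₐ[K] E) :
    χ g + χ h = χ (g * h) + ℓ * ep ℓ χ g h := by
  rw [hχ.mul, ep]
  exact (Nat.mod_add_div _ _).symm

lemma IsChi.ep_cocycle (hχ : IsChi ℓ ζ ϖ χ) (g h j : E ≃ₐ[K] E) :
    ep ℓ χ g h + ep ℓ χ (g * h) j = ep ℓ χ h j + ep ℓ χ g (h * j) := by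
  have h1 := hχ.add_eq g h
  have h2 := hχ.add_eq (g * h) j
  have h3 := hχ.add_eq h j
  have h4 := hχ.add_eq g (h * j)
  rw [mul_assoc] at h2
  refine Nat.eq_of_mul_eq_mul_left hχ.prime.pos ?_
  rw [mul_add, mul_add]
  omega

lemma IsChi.cts (hχ : IsChi ℓ ζ ϖ χ) : IsCts χ := by
  refine ⟨{ϖ}, fun g g' h => hχ.pow_inj' (hχ.lt _) (hχ.lt _) ?_⟩
  rw [← hχ.act, ← hχ.act]
  exact h ϖ (Finset.mem_singleton_self _)

lemma IsChi.prod_zeta (hχ : IsChi ℓ ζ ϖ χ) : ∏ i ∈ Finset.range ℓ, ζ ^ i = (-1) ^ (ℓ - 1) := by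
  rcases hχ.prime.eq_two_or_odd' with h2 | hodd
  · have hz := hχ.zeta
    rw [h2] at hz
    rw [h2, Finset.prod_range_succ, Finset.prod_range_one, pow_zero, one_mul, pow_one,
      hz.eq_neg_one_of_two_right]
    norm_num
  · obtain ⟨m, hm⟩ := hodd
    rw [Finset.prod_pow_eq_pow_sum, Finset.sum_range_id]
    have h1 : ℓ * (ℓ - 1) / 2 = ℓ * m := by
      have : ℓ * (ℓ - 1) = ℓ * m * 2 := by
        have h3 : ℓ - 1 = m * 2 := by omega
        rw [h3, mul_assoc]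
      rw [this, Nat.mul_div_cancel _ (by norm_num)]
    have h3 : ℓ - 1 = 2 * m := by omega
    rw [h1, pow_mul, hχ.zeta.pow_eq_one, one_pow, h3, pow_mul]
    norm_num

/-- The partial product of `exists_cob`. -/
private def prt (ζ : K) (ϖ c : E) (n : ℕ) : E :=
  ∏ i ∈ Finset.range n, (algebraMap K E (ζ ^ i) * (c * ϖ))

private lemma prt_add (ζ : K) (ϖ c : E) (a b : ℕ) :
    prt ζ ϖ c (a + b) = prt ζ ϖ c a *
      ∏ i ∈ Finset.range b, (algebraMap K E (ζ ^ (a + i)) * (c * ϖ)) := by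
  rw [prt, prt, Finset.prod_range_add]

private lemma prt_period (hχ : IsChi ℓ ζ ϖ χ) (c : E) (hcℓ : c ^ ℓ = (-1) ^ (ℓ - 1)) :
    prt ζ ϖ c ℓ = ϖ ^ ℓ := by
  rw [prt, Finset.prod_mul_distrib, ← map_prod, hχ.prod_zeta, Finset.prod_const, Finset.card_range,
    mul_pow, hcℓ, map_pow, map_neg, map_one, ← mul_assoc, ← mul_pow]
  norm_num

private lemma prt_add_mul (hχ : IsChi ℓ ζ ϖ χ) (c : E) (hcℓ : c ^ ℓ = (-1) ^ (ℓ - 1)) (n e : ℕ) :
    prt ζ ϖ c (n + ℓ * e) = (ϖ ^ ℓ) ^ e * prt ζ ϖ c n := by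
  induction e with
  | zero => rw [Nat.mul_zero, Nat.add_zero, pow_zero, one_mul]
  | succ e ih =>
    have h1 : n + ℓ * (e + 1) = ℓ + (n + ℓ * e) := by ring
    have h2 : ∀ i, algebraMap K E (ζ ^ (ℓ + i)) * (c * ϖ) = algebraMap K E (ζ ^ i) * (c * ϖ) := by
      intro i
      rw [pow_add, hχ.zeta.pow_eq_one, one_mul]
    rw [h1, prt_add, prt_period hχ c hcℓ, Finset.prod_congr rfl (fun i _ => h2 i)]
    have h3 : ∏ i ∈ Finset.range (n + ℓ * e), (algebraMap K E (ζ ^ i) * (c * ϖ)) =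
        prt ζ ϖ c (n + ℓ * e) := rfl
    rw [h3, ih, pow_succ]
    ring

/-- `ϖ ^ ℓ` is the norm of `c ϖ`, where `c ^ ℓ = (-1) ^ (ℓ - 1)`: `A g = ∏_{i < χ g} ζ ^ i c ϖ`. PROOF.
`g (A h) = ∏_{χ g ≤ i < χ g + χ h} ζ ^ i c ϖ`, so `g (A h) * A g = ∏_{i < χ g + χ h} ζ ^ i c ϖ`, which is `A (g h)` times
`∏_{i < ℓ} ζ ^ i c ϖ = ϖ ^ ℓ` if `χ g + χ h ≥ ℓ` (`∏_{i < ℓ} ζ ^ i = (-1) ^ (ℓ - 1)`; `ζ ^ ℓ = 1`). -/
theorem IsChi.exists_cob (hχ : IsChi ℓ ζ ϖ χ) (c : E) (hc : ∀ g : E ≃ₐ[K] E, g c = c)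
    (hcℓ : c ^ ℓ = (-1) ^ (ℓ - 1)) : ∃ A : (E ≃ₐ[K] E) → Eˣ, IsCts A ∧ ∀ g h : E ≃ₐ[K] E,
      (ϖ ^ ℓ) ^ ep ℓ χ g h * A (g * h) = g (A h) * A g := by
  have hc0 : c ≠ 0 := by
    intro h0
    rw [h0, zero_pow hχ.prime.ne_zero] at hcℓ
    exact pow_ne_zero _ (neg_ne_zero.2 one_ne_zero) hcℓ.symm
  have hne : ∀ n, prt ζ ϖ c n ≠ 0 := by
    intro n
    refine Finset.prod_ne_zero_iff.2 fun i _ => mul_ne_zero ?_ (mul_ne_zero hc0 hχ.ne)
    rw [map_pow]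
    exact pow_ne_zero _ ((map_ne_zero (algebraMap K E)).2 (hχ.zeta.ne_zero hχ.prime.ne_zero))
  refine ⟨fun g => Units.mk0 (prt ζ ϖ c (χ g)) (hne _), ?_, fun g h => ?_⟩
  · obtain ⟨T, hT⟩ := hχ.cts
    refine ⟨T, fun g g' h => ?_⟩
    have h1 := hT g g' h
    refine Units.ext ?_
    show prt ζ ϖ c (χ g) = prt ζ ϖ c (χ g')
    rw [h1]
  · show (ϖ ^ ℓ) ^ ep ℓ χ g h * prt ζ ϖ c (χ (g * h)) = g (prt ζ ϖ c (χ h)) * prt ζ ϖ c (χ g)
    have h1 : g (prt ζ ϖ c (χ h)) =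
        ∏ i ∈ Finset.range (χ h), (algebraMap K E (ζ ^ (χ g + i)) * (c * ϖ)) := by
      rw [prt, map_prod]
      refine Finset.prod_congr rfl fun i _ => ?_
      rw [map_mul, map_mul, AlgEquiv.commutes, hc, hχ.act, pow_add, map_mul]
      ring
    rw [← prt_add_mul hχ c hcℓ, ← hχ.add_eq, prt_add, h1, mul_comm]

end

/-- `K` is a local field with residue field `F`, `v` the absolute value of its algebraic closure `E`, `t - s` (with
`t` the image of `X`) a generator of the maximal ideal. -/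
structure LocF (F K : Type) {E : Type} [Field F] [Field K] [Field E] [Algebra F[X] K] [Algebra K E]
    [Algebra F E] (s : F) (v : AbsoluteValue E ℝ) : Prop where
  compat : ∀ c : F, algebraMap F E c = algebraMap K E (algebraMap F[X] K (C c))
  ctx : LocCtx v s (algebraMap K E (algebraMap F[X] K X))
  disc : ∀ x : K, x ≠ 0 → ∃ i : ℤ, v (algebraMap K E x) =
    v (algebraMap K E (algebraMap F[X] K X) - algebraMap F E s) ^ i
  inv : ∀ (σ : E ≃ₐ[K] E) (x : E), v (σ x) = v x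

section

variable {ℓ : ℕ} {F K E : Type} [Field F] [Field K] [Field E] [Algebra F[X] K] [Algebra K E]
  [Algebra F E] [IsAlgClosure K E] {s : F} {v : AbsoluteValue E ℝ} {ζ : F} {ϖ : E}
  {χ : (E ≃ₐ[K] E) → ℕ}

omit [IsAlgClosure K E] in
private lemma LocF.coprime (hℓ : ℓ.Prime) (hℓF : (ℓ : F) ≠ 0) (K : Type) [Field K] [Algebra F[X] K] :
    (ringExpChar K).Coprime ℓ := by
  have hK : (ℓ : K) ≠ 0 := by
    intro h0
    apply hℓF
    have h1 : ((algebraMap F[X] K).comp C) (ℓ : F) = 0 := by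
      rw [map_natCast]
      exact h0
    exact (map_eq_zero_iff _ (RingHom.injective _)).1 h1
  have h1 := ringExpChar.expChar K
  generalize ringExpChar K = q at h1 ⊢
  rcases h1 with _ | hq
  · exact Nat.coprime_one_left ℓ
  · rw [Nat.coprime_primes hq hℓ]
    rintro rfl
    exact hK (CharP.cast_eq_zero K _)

omit [IsAlgClosure K E] in
private lemma LocF.sub_ne (hL : LocF F K s v) :
    algebraMap K E (algebraMap F[X] K X) - algebraMap F E s ≠ 0 :=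
  sub_ne_zero.2 hL.ctx.ne

omit [IsAlgClosure K E] in
private lemma LocF.fixF (hL : LocF F K s v) (g : E ≃ₐ[K] E) (c : F) :
    g (algebraMap F E c) = algebraMap F E c := by
  rw [hL.compat, g.commutes]

omit [IsAlgClosure K E] in
private lemma LocF.fix_sub (hL : LocF F K s v) (g : E ≃ₐ[K] E) :
    g (algebraMap K E (algebraMap F[X] K X) - algebraMap F E s) =
      algebraMap K E (algebraMap F[X] K X) - algebraMap F E s := by
  rw [map_sub, hL.fixF, g.commutes]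

private lemma LocF.val (hL : LocF F K s v) (z : E) (hz : z ≠ 0) (hfix : ∀ g : E ≃ₐ[K] E, g z = z) :
    Val (ringExpChar K) (v (algebraMap K E (algebraMap F[X] K X) - algebraMap F E s)) (v z) := by
  obtain ⟨r, y, hy⟩ := exists_pow_mem z hfix
  have hy0 : y ≠ 0 := by
    rintro rfl
    rw [map_zero] at hy
    exact pow_ne_zero _ hz hy
  obtain ⟨i, hi⟩ := hL.disc y hy0
  refine ⟨r, i, ?_⟩
  rw [← map_pow, hy, hi]

omit [IsAlgClosure K E] in
private lemma LocF.act (hL : LocF F K s v) (hχ : IsChi ℓ (algebraMap F[X] K (C ζ)) ϖ χ)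
    (g : E ≃ₐ[K] E) : g ϖ = algebraMap F E ζ ^ χ g * ϖ := by
  rw [hχ.act g, map_pow, hL.compat]

/-- Kummer theory of the local field. PROOF: `la3_key` and `la3_choice` in `Wl/LA03.lean` (private; copy them). Directly:
some power `(z ^ ℓ) ^ (p ^ r)` is in `K`, `p` the exponential characteristic (`exists_pow_mem`), so by `disc`
`v z ^ (ℓ p ^ r) = v (t - s) ^ i` and `v z ^ (p ^ r) = v ϖ ^ i`; choose `w` with `w p ^ r ≡ i [ZMOD ℓ]`, `i = w p ^ r + ℓ k`.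
`z' = z ^ (p ^ r) / (ϖ ^ (w p ^ r) (t - s) ^ k)` has `v z' = 1` and `g z' / z'` is a root of unity of order dividing `ℓ`,
in `F`; as `g` acts trivially on the residue field `F` (`ctx.residue`, `inv`; different elements of `F` have different
residues by `ctx.const`) `g z' = z'`. So `(g z / z) ^ (p ^ r) = (ζ ^ (χ g * w)) ^ (p ^ r)`. -/
theorem kummer_loc (hL : LocF F K s v) (hℓF : (ℓ : F) ≠ 0) (hζ : IsPrimitiveRoot ζ ℓ)
    (hχ : IsChi ℓ (algebraMap F[X] K (C ζ)) ϖ χ)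
    (hϖ : ϖ ^ ℓ = algebraMap K E (algebraMap F[X] K X) - algebraMap F E s) (z : E) (hz : z ≠ 0)
    (hfix : ∀ g : E ≃ₐ[K] E, g (z ^ ℓ) = z ^ ℓ) :
    ∃ w : ℕ, ∀ g : E ≃ₐ[K] E, g z = algebraMap F E ζ ^ (χ g * w) * z := by
  have hℓ := hχ.prime
  have hp := LocF.coprime hℓ hℓF K
  have hϖ0 := hχ.ne
  have hts := hL.sub_ne
  have hζE : IsPrimitiveRoot (algebraMap F E ζ) ℓ :=
    hζ.map_of_injective (algebraMap F E).injective
  have hζ0 : algebraMap F E ζ ≠ 0 := hζE.ne_zero hℓ.ne_zero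
  obtain ⟨m, k, hk⟩ := hL.val (z ^ ℓ) (pow_ne_zero _ hz) hfix
  obtain ⟨u, q, huq⟩ : IsCoprime ((ringExpChar K ^ m : ℕ) : ℤ) (ℓ : ℤ) :=
    Nat.isCoprime_iff_coprime.2 (Nat.Coprime.pow_left m hp)
  have hy : 0 < v (algebraMap K E (algebraMap F[X] K X) - algebraMap F E s) := v.pos hts
  -- the exponent `k * u`
  have key : ∀ g : E ≃ₐ[K] E, g (z / ϖ ^ (k * u)) = z / ϖ ^ (k * u) := by
    intro g
    have hpow : (z / ϖ ^ (k * u)) ^ ℓ = z ^ ℓ /
        (algebraMap K E (algebraMap F[X] K X) - algebraMap F E s) ^ (k * u) := by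
      rw [div_pow, ← zpow_natCast (ϖ ^ (k * u)), ← zpow_mul, mul_comm (k * u), zpow_mul,
        zpow_natCast, hϖ]
    refine hL.ctx.root_fixed_of_val (ℓ := ℓ) (p := ringExpChar K)
      (π' := algebraMap K E (algebraMap F[X] K X) - algebraMap F E s) hℓ.ne_zero hp hζ
      (g : E ≃+* E) (fun x => hL.inv g x) (fun c => hL.fixF g c)
      (div_ne_zero hz (zpow_ne_zero _ hϖ0)) hts (hL.fix_sub g) ?_ ?_
    · show g ((z / ϖ ^ (k * u)) ^ ℓ) = (z / ϖ ^ (k * u)) ^ ℓ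
      rw [hpow, map_div₀, hfix, map_zpow₀, hL.fix_sub]
    · rw [hpow]
      refine ⟨m, k * q, ?_⟩
      rw [map_div₀, map_zpow₀, div_pow, hk,
        ← zpow_natCast (v (algebraMap K E (algebraMap F[X] K X) - algebraMap F E s) ^ (k * u)),
        ← zpow_mul, ← zpow_sub₀ hy.ne',
        ← zpow_natCast (v (algebraMap K E (algebraMap F[X] K X) - algebraMap F E s)) ℓ,
        ← zpow_mul]
      congr 1
      linear_combination (-k) * huq
  refine ⟨((k * u) % ℓ).toNat, fun g => ?_⟩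
  have hℓ0 : (ℓ : ℤ) ≠ 0 := Int.natCast_ne_zero.2 hℓ.ne_zero
  have hw : (((k * u) % ℓ).toNat : ℤ) = (k * u) % ℓ := Int.toNat_of_nonneg (Int.emod_nonneg _ hℓ0)
  have h1 : z = z / ϖ ^ (k * u) * ϖ ^ (k * u) := by
    rw [div_mul_cancel₀ _ (zpow_ne_zero _ hϖ0)]
  have h2 : g z = algebraMap F E ζ ^ ((χ g : ℤ) * (k * u)) * z := by
    conv_lhs => rw [h1]
    rw [map_mul, key g, map_zpow₀, hL.act hχ g, mul_zpow, ← zpow_natCast (algebraMap F E ζ),
      ← zpow_mul]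
    have h2 : z / ϖ ^ (k * u) * (algebraMap F E ζ ^ ((χ g : ℤ) * (k * u)) * ϖ ^ (k * u)) =
        algebraMap F E ζ ^ ((χ g : ℤ) * (k * u)) * (z / ϖ ^ (k * u) * ϖ ^ (k * u)) := by ring
    rw [h2, ← h1]
  rw [h2]
  congr 1
  have h3 : (χ g : ℤ) * (k * u) = ((χ g * ((k * u) % ℓ).toNat : ℕ) : ℤ) +
      (ℓ : ℤ) * ((χ g : ℤ) * ((k * u) / ℓ)) := by
    push_cast
    rw [hw]
    have h4 := Int.mul_ediv_add_emod (k * u) ℓ
    linear_combination (-(χ g : ℤ)) * h4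
  rw [h3, zpow_add₀ hζ0, zpow_mul, zpow_natCast, zpow_natCast, hζE.pow_eq_one, one_zpow, mul_one]

/-- `χ` is surjective. PROOF: otherwise `χ g = 0` for all `g` (the image is a subgroup), `ϖ` is fixed, `ϖ ^ (p ^ r)` is in
`K` and by `disc` `v ϖ ^ (p ^ r) = v (t - s) ^ i = v ϖ ^ (ℓ i)`, so `p ^ r = ℓ i` (`0 < v ϖ < 1`). -/
theorem exists_chi_one (hL : LocF F K s v) (hℓF : (ℓ : F) ≠ 0) (hζ : IsPrimitiveRoot ζ ℓ)
    (hχ : IsChi ℓ (algebraMap F[X] K (C ζ)) ϖ χ)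
    (hϖ : ϖ ^ ℓ = algebraMap K E (algebraMap F[X] K X) - algebraMap F E s) :
    ∃ σ : E ≃ₐ[K] E, χ σ = 1 := by
  have hℓ := hχ.prime
  have hp := LocF.coprime hℓ hℓF K
  have hϖ0 := hχ.ne
  have hvϖ : v ϖ ^ ℓ = v (algebraMap K E (algebraMap F[X] K X) - algebraMap F E s) := by
    rw [← map_pow, hϖ]
  have hv0 : 0 < v ϖ := v.pos hϖ0
  have hv1 : v ϖ < 1 := by
    by_contra hcon
    push Not at hcon
    have h1 : 1 ≤ v ϖ ^ ℓ := one_le_pow₀ hcon
    rw [hvϖ] at h1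
    exact absurd hL.ctx.lt_one (not_lt.mpr h1)
  obtain ⟨τ, hτ⟩ : ∃ τ : E ≃ₐ[K] E, χ τ ≠ 0 := by
    by_contra hcon
    push Not at hcon
    have h1 : ∀ g : E ≃ₐ[K] E, g ϖ = ϖ := by
      intro g
      rw [hL.act hχ g, hcon g, pow_zero, one_mul]
    have h3 := hL.val ϖ hϖ0 h1
    rw [← hvϖ] at h3
    have h4 := Val.dvd_of_zpow hp hv0 hv1 1 (by rw [zpow_one]; exact h3)
    have h5 : (ℓ : ℤ) ≤ 1 := Int.le_of_dvd one_pos h4
    have h6 := hℓ.one_lt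
    omega
  have hcop : Nat.Coprime (χ τ) ℓ :=
    Nat.Coprime.symm ((Nat.Prime.coprime_iff_not_dvd hℓ).mpr
      (fun h0 => absurd (Nat.le_of_dvd (Nat.pos_of_ne_zero hτ) h0) (not_le.mpr (hχ.lt τ))))
  obtain ⟨i, -, hi⟩ := Nat.exists_mul_mod_eq_one_of_coprime hcop hℓ.one_lt
  refine ⟨τ ^ i, ?_⟩
  have hpow : ∀ n : ℕ, χ (τ ^ n) = (χ τ * n) % ℓ := by
    intro n
    induction n with
    | zero => rw [pow_zero, hχ.one, mul_zero, Nat.zero_mod]
    | succ n ih => rw [pow_succ, hχ.mul, ih, Nat.mod_add_mod, mul_add, mul_one]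
  rw [hpow, hi]

omit [IsAlgClosure K E] in
lemma LocF.fix_const (hL : LocF F K s v) (c : F) (g : E ≃ₐ[K] E) :
    g (algebraMap F E c) = algebraMap F E c := by
  rw [hL.compat c, g.commutes]

lemma va_dual1 {n : ℕ} [Fact n.Prime] {B : Type} [AddCommGroup B] [Module (ZMod n) B] (x : B)
    (hx : x ≠ 0) : ∃ φ : B →+ ZMod n, φ x ≠ 0 := by
  have : Module.Projective (ZMod n) B := Module.Projective.of_free
  by_contra hcon
  refine hx ((Module.forall_dual_apply_eq_zero_iff (ZMod n) x).mp fun φ => ?_)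
  by_contra h
  exact hcon ⟨φ.toAddMonoidHom, h⟩

lemma va_dual {n : ℕ} (hn : n.Prime) {B : Type} [AddCommGroup B] (hB : ∀ x : B, n • x = 0) (x : B)
    (hx : x ≠ 0) : ∃ φ : B →+ ZMod n, φ x ≠ 0 := by
  have : Fact n.Prime := ⟨hn⟩
  let _ : Module (ZMod n) B := AddCommGroup.zmodModule hB
  exact va_dual1 x hx

lemma va_pow_mod {R : Type} [Monoid R] {x : R} {n : ℕ} (hx : x ^ n = 1) (k : ℕ) :
    x ^ (k % n) = x ^ k := by
  conv_rhs => rw [← Nat.mod_add_div k n, pow_add, pow_mul, hx, one_pow, mul_one]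

lemma va_add_hom {G A : Type} [Group G] [AddCommGroup A] (c : G → A)
    (hadd : ∀ g h, c (g * h) = c g + c h) (σ : G) (n : ℕ) : c (σ ^ n) = n • c σ := by
  have h1 : c 1 = 0 := by
    have := hadd 1 1
    rw [mul_one] at this
    exact (add_eq_left.mp this.symm)
  induction n with
  | zero => rw [pow_zero, h1, zero_smul]
  | succ n ih => rw [pow_succ, hadd, ih, succ_nsmul]

lemma IsChi.pow_eq {K E : Type} [Field K] [Field E] [Algebra K E] {ζ : K} {ϖ : E}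
    {χ : (E ≃ₐ[K] E) → ℕ} (hχ : IsChi ℓ ζ ϖ χ) {σ : E ≃ₐ[K] E} (hσ : χ σ = 1) (n : ℕ)
    (hn : n < ℓ) : χ (σ ^ n) = n := by
  induction n with
  | zero => rw [pow_zero, hχ.one]
  | succ n ih =>
    rw [pow_succ, hχ.mul, ih (by omega), hσ, Nat.mod_eq_of_lt hn]

/-- `χ g = 0` implies `c g = 0`. -/
lemma hom_chi_aux (hL : LocF F K s v) (hℓF : (ℓ : F) ≠ 0) (hζ : IsPrimitiveRoot ζ ℓ)
    (hχ : IsChi ℓ (algebraMap F[X] K (C ζ)) ϖ χ)
    (hϖ : ϖ ^ ℓ = algebraMap K E (algebraMap F[X] K X) - algebraMap F E s)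
    {A : Type} [AddCommGroup A] (c : (E ≃ₐ[K] E) → A) (hc : IsCts c)
    (hadd : ∀ g h, c (g * h) = c g + c h) (htor : ∀ g, ℓ • c g = 0) (g₀ : E ≃ₐ[K] E)
    (hg₀ : χ g₀ = 0) : c g₀ = 0 := by
  by_contra hne
  have : Fact ℓ.Prime := ⟨hχ.prime⟩
  have : NeZero ℓ := ⟨hχ.prime.ne_zero⟩
  let B : AddSubgroup A := (nsmulAddMonoidHom (α := A) ℓ).ker
  have hB : ∀ x : B, ℓ • x = 0 := by
    intro x
    have h1 : ℓ • (x : A) = 0 := x.2
    exact Subtype.ext h1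
  have hmem : ∀ g, c g ∈ B := fun g => htor g
  let c' : (E ≃ₐ[K] E) → B := fun g => ⟨c g, hmem g⟩
  have hc'add : ∀ g h, c' (g * h) = c' g + c' h := fun g h => Subtype.ext (hadd g h)
  have hc'0 : c' g₀ ≠ 0 := fun h => hne (congrArg Subtype.val h)
  obtain ⟨φ, hφ⟩ := va_dual hχ.prime hB (c' g₀) hc'0
  have hinj : Function.Injective (algebraMap F E) := (algebraMap F E).injective
  have hζ1 : (algebraMap F E ζ) ^ ℓ = 1 := by rw [← map_pow, hζ.pow_eq_one, map_one]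
  have hζ0 : algebraMap F E ζ ≠ 0 := by
    intro h
    rw [h, zero_pow hχ.prime.ne_zero] at hζ1
    exact zero_ne_one hζ1
  let a : (E ≃ₐ[K] E) → Eˣ := fun g =>
    Units.mk0 (algebraMap F E ζ ^ (φ (c' g)).val) (pow_ne_zero _ hζ0)
  have ha : IsCts a := by
    obtain ⟨T, hT⟩ := hc
    refine ⟨T, fun g g' h => ?_⟩
    have h1 : c' g = c' g' := Subtype.ext (hT g g' h)
    show Units.mk0 (algebraMap F E ζ ^ (φ (c' g)).val) _ =
      Units.mk0 (algebraMap F E ζ ^ (φ (c' g')).val) _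
    simp only [h1]
  have hcoc : ∀ g h : E ≃ₐ[K] E, (a (g * h) : E) = g (a h) * a g := by
    intro g h
    show algebraMap F E ζ ^ (φ (c' (g * h))).val =
      g (algebraMap F E ζ ^ (φ (c' h)).val) * algebraMap F E ζ ^ (φ (c' g)).val
    rw [hc'add, map_add, ZMod.val_add, va_pow_mod hζ1, pow_add, map_pow, hL.fix_const, mul_comm]
  obtain ⟨e, he⟩ := h90 a ha hcoc
  have hfix : ∀ g : E ≃ₐ[K] E, g ((e : E) ^ ℓ) = (e : E) ^ ℓ := by
    intro g
    rw [map_pow, ← he g, mul_pow]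
    have h1 : ((a g : Eˣ) : E) ^ ℓ = 1 := by
      show (algebraMap F E ζ ^ (φ (c' g)).val) ^ ℓ = 1
      rw [← pow_mul, mul_comm, pow_mul, hζ1, one_pow]
    rw [h1, one_mul]
  obtain ⟨w, hw⟩ := kummer_loc hL hℓF hζ hχ hϖ (e : E) e.ne_zero hfix
  have h1 := hw g₀
  rw [hg₀, zero_mul, pow_zero, one_mul, ← he g₀] at h1
  have h2 : ((a g₀ : Eˣ) : E) = 1 := by
    have h3 : ((a g₀ : Eˣ) : E) * e = 1 * e := by rw [h1, one_mul]
    exact mul_right_cancel₀ e.ne_zero h3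
  have h3 : algebraMap F E ζ ^ (φ (c' g₀)).val = 1 := h2
  have h4 : ζ ^ (φ (c' g₀)).val = 1 := by
    apply hinj
    rw [map_pow, h3, map_one]
  have h5 : ℓ ∣ (φ (c' g₀)).val := hζ.dvd_of_pow_eq_one _ h4
  have h6 : (φ (c' g₀)).val < ℓ := ZMod.val_lt _
  have h7 : (φ (c' g₀)).val = 0 := Nat.eq_zero_of_dvd_of_lt h5 h6
  exact hφ ((ZMod.val_eq_zero _).mp h7)

theorem hom_chi (hL : LocF F K s v) (hℓF : (ℓ : F) ≠ 0) (hζ : IsPrimitiveRoot ζ ℓ)
    (hχ : IsChi ℓ (algebraMap F[X] K (C ζ)) ϖ χ)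
    (hϖ : ϖ ^ ℓ = algebraMap K E (algebraMap F[X] K X) - algebraMap F E s)
    {A : Type} [AddCommGroup A] (c : (E ≃ₐ[K] E) → A) (hc : IsCts c)
    (hadd : ∀ g h, c (g * h) = c g + c h) (htor : ∀ g, ℓ • c g = 0) :
    ∃ a : A, ℓ • a = 0 ∧ ∀ g, c g = χ g • a := by
  obtain ⟨σ, hσ⟩ := exists_chi_one hL hℓF hζ hχ hϖ
  refine ⟨c σ, htor σ, fun g => ?_⟩
  have h1 : χ (σ ^ χ g) = χ g := hχ.pow_eq hσ _ (hχ.lt g)
  have h2 : σ ^ χ g * ((σ ^ χ g)⁻¹ * g) = g := mul_inv_cancel_left _ _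
  have h3 : χ ((σ ^ χ g)⁻¹ * g) = 0 := by
    have h4 := hχ.mul (σ ^ χ g) ((σ ^ χ g)⁻¹ * g)
    rw [h2, h1] at h4
    have h5 := hχ.lt g
    have h6 := hχ.lt ((σ ^ χ g)⁻¹ * g)
    generalize χ ((σ ^ χ g)⁻¹ * g) = y at h4 h6
    by_contra hy
    by_cases h7 : χ g + y < ℓ
    · rw [Nat.mod_eq_of_lt h7] at h4
      omega
    · rw [Nat.mod_eq_sub_mod (by omega), Nat.mod_eq_of_lt (by omega)] at h4
      omega
  have h4 := hom_chi_aux hL hℓF hζ hχ hϖ c hc hadd htor _ h3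
  rw [← h2, hadd, h4, add_zero, va_add_hom c hadd, h2]

theorem fixed_cob (hL : LocF F K s v) (hℓF : (ℓ : F) ≠ 0) (hζ : IsPrimitiveRoot ζ ℓ)
    (hχ : IsChi ℓ (algebraMap F[X] K (C ζ)) ϖ χ)
    (hϖ : ϖ ^ ℓ = algebraMap K E (algebraMap F[X] K X) - algebraMap F E s) (u : Eˣ)
    (hu : ∀ g : E ≃ₐ[K] E, g u = u) :
    ∃ A : (E ≃ₐ[K] E) → Eˣ, IsCts A ∧ ∀ g h : E ≃ₐ[K] E,
      (u : E) ^ ep ℓ χ g h * A (g * h) = g (A h) * A g := by
  have : IsAlgClosed E := IsAlgClosure.isAlgClosed K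
  have : IsAlgClosed F := hL.ctx.alg
  obtain ⟨w, hw⟩ := IsAlgClosed.exists_pow_nat_eq (u : E) hχ.prime.pos
  have hw0 : w ≠ 0 := by
    intro h
    rw [h, zero_pow hχ.prime.ne_zero] at hw
    exact u.ne_zero hw.symm
  obtain ⟨j, hj⟩ := kummer_loc hL hℓF hζ hχ hϖ w hw0 (fun g => by rw [hw, hu g])
  obtain ⟨c₀, hc₀⟩ := IsAlgClosed.exists_pow_nat_eq ((-1 : F) ^ (ℓ - 1)) hχ.prime.pos
  obtain ⟨A', hA', hcob⟩ := hχ.exists_cob (algebraMap F E c₀) (fun g => hL.fix_const c₀ g)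
    (by rw [← map_pow, hc₀, map_pow, map_neg, map_one])
  have hϖj : ϖ ^ j ≠ 0 := pow_ne_zero _ hχ.ne
  have hζ1 : (algebraMap F E ζ) ^ ℓ = 1 := by rw [← map_pow, hζ.pow_eq_one, map_one]
  have hζ0 : algebraMap F E ζ ≠ 0 := by
    intro h
    rw [h, zero_pow hχ.prime.ne_zero] at hζ1
    exact zero_ne_one hζ1
  let W : Eˣ := Units.mk0 (w / ϖ ^ j) (div_ne_zero hw0 hϖj)
  have hWfix : ∀ g : E ≃ₐ[K] E, g (W : E) = W := by
    intro g
    show g (w / ϖ ^ j) = w / ϖ ^ j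
    rw [map_div₀, map_pow, hj g, hχ.act g, mul_pow, map_pow, ← hL.compat ζ, ← pow_mul]
    exact mul_div_mul_left _ _ (pow_ne_zero _ hζ0)
  have huW : (u : E) = (W : E) ^ ℓ * (ϖ ^ ℓ) ^ j := by
    show (u : E) = (w / ϖ ^ j) ^ ℓ * (ϖ ^ ℓ) ^ j
    rw [← hw, div_pow, ← pow_mul, ← pow_mul, mul_comm j ℓ,
      div_mul_cancel₀ _ (pow_ne_zero _ hχ.ne)]
  refine ⟨fun g => W ^ χ g * A' g ^ j, hχ.cts.comp₂ hA' (fun n y => W ^ n * y ^ j), ?_⟩
  intro g h
  show (u : E) ^ ep ℓ χ g h * (((W ^ χ (g * h) * A' (g * h) ^ j : Eˣ)) : E) =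
    g ((W ^ χ h * A' h ^ j : Eˣ) : E) * ((W ^ χ g * A' g ^ j : Eˣ) : E)
  have h1 := hχ.add_eq g h
  have h2 := hcob g h
  simp only [Units.val_mul, Units.val_pow_eq_pow_val, map_mul, map_pow, hWfix g]
  calc (u : E) ^ ep ℓ χ g h * ((W : E) ^ χ (g * h) * (A' (g * h) : E) ^ j)
      = (W : E) ^ (χ (g * h) + ℓ * ep ℓ χ g h) *
        ((ϖ ^ ℓ) ^ ep ℓ χ g h * (A' (g * h) : E)) ^ j := by
        rw [huW]
        ring
    _ = (W : E) ^ (χ g + χ h) * (g (A' h : E) * (A' g : E)) ^ j := by rw [h2, h1]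
    _ = (W : E) ^ χ h * g (A' h : E) ^ j * ((W : E) ^ χ g * (A' g : E) ^ j) := by ring

end

end Pool.Agent.Lib.MP_89bcae_ag.Bra

end

section

/-!
# The fields `κ((π))`, `κ((ϖ))`, `π = ϖ ^ ℓ`, and the algebraic closure of `κ((ϖ))`
-/

open IsLocalRing

open scoped Classical

namespace Pool.Agent.Lib.MP_89bcae_ag.Bra

/-- The field `κ((π))`. -/
def Hk (_ℓ : ℕ) (κ : Type) [Field κ] : Type := LaurentSeries κ

/-- The field `κ((ϖ))`. -/
abbrev Pk (κ : Type) [Field κ] : Type := LaurentSeries κ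

/-- The algebraic closure of `κ((ϖ))`. -/
abbrev Tk (κ : Type) [Field κ] : Type := AlgebraicClosure (LaurentSeries κ)

section

variable (ℓ : ℕ) (κ : Type) [Field κ]

noncomputable instance : Field (Hk ℓ κ) := inferInstanceAs (Field (LaurentSeries κ))

noncomputable instance : Algebra (PowerSeries κ) (Hk ℓ κ) :=
  inferInstanceAs (Algebra (PowerSeries κ) (LaurentSeries κ))

instance : IsFractionRing (PowerSeries κ) (Hk ℓ κ) :=
  inferInstanceAs (IsFractionRing (PowerSeries κ) (LaurentSeries κ))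

/-- The element of `κ((π))` with the given Laurent series. -/
noncomputable def toH : LaurentSeries κ ≃+* Hk ℓ κ := RingEquiv.refl _

/-- Multiplication of the exponents by `ℓ`. -/
noncomputable def mulL [NeZero ℓ] : ℤ →+ ℤ := (AddMonoidHom.mulLeft (ℓ : ℤ))

lemma mulL_injective [NeZero ℓ] : Function.Injective (mulL ℓ) := fun a b h =>
  mul_left_cancel₀ (Nat.cast_ne_zero.mpr (NeZero.ne ℓ)) h

lemma mulL_le [NeZero ℓ] (a b : ℤ) : mulL ℓ a ≤ mulL ℓ b ↔ a ≤ b :=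
  mul_le_mul_iff_right₀ (Nat.cast_pos.mpr (Nat.pos_of_ne_zero (NeZero.ne ℓ)))

/-- The inclusion of `κ((π))` in `κ((ϖ))`, `π = ϖ ^ ℓ`. -/
noncomputable def hk [NeZero ℓ] : Hk ℓ κ →+* Pk κ :=
  (HahnSeries.embDomainRingHom (mulL ℓ) (mulL_injective ℓ) (mulL_le ℓ)).comp
    ((toH ℓ κ).symm : Hk ℓ κ →+* LaurentSeries κ)

noncomputable instance [NeZero ℓ] : Algebra (Hk ℓ κ) (Pk κ) := (hk ℓ κ).toAlgebra

lemma algebraMap_Hk [NeZero ℓ] (u : Hk ℓ κ) :
    algebraMap (Hk ℓ κ) (Tk κ) u = algebraMap (Pk κ) (Tk κ) (hk ℓ κ u) :=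
  IsScalarTower.algebraMap_apply (Hk ℓ κ) (Pk κ) (Tk κ) u

instance isAdicComplete_powerSeries :
    IsAdicComplete (maximalIdeal (PowerSeries κ)) (PowerSeries κ) := by
  rw [PowerSeries.maximalIdeal_eq_span_X]
  infer_instance

end

section

variable {ℓ : ℕ} {κ : Type} [Field κ]

/-- The leading coefficient. -/
noncomputable def lcH (u : Hk ℓ κ) : κ := HahnSeries.leadingCoeff ((toH ℓ κ).symm u)

/-- The constants. -/
noncomputable def cH (ℓ : ℕ) : κ →+* Hk ℓ κ :=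
  ((toH ℓ κ : LaurentSeries κ →+* Hk ℓ κ)).comp HahnSeries.C

/-- The element `π`. -/
noncomputable def piH (ℓ : ℕ) (κ : Type) [Field κ] : Hk ℓ κ := toH ℓ κ (HahnSeries.single 1 1)

/-- The element `ϖ`. -/
noncomputable def vpT (κ : Type) [Field κ] : Tk κ :=
  algebraMap (Pk κ) (Tk κ) (HahnSeries.single 1 1)

lemma lcH_mul (u v : Hk ℓ κ) : lcH (u * v) = lcH u * lcH v := by
  unfold lcH
  rw [map_mul]
  exact HahnSeries.leadingCoeff_mul _ _

lemma lcH_one : lcH (1 : Hk ℓ κ) = 1 := by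
  unfold lcH
  rw [map_one]
  exact HahnSeries.leadingCoeff_one


lemma vpT_ne_zero : vpT κ ≠ 0 := by
  unfold vpT
  rw [Ne, map_eq_zero_iff _ (algebraMap (Pk κ) (Tk κ)).injective]
  exact HahnSeries.single_ne_zero one_ne_zero

variable [NeZero ℓ]

lemma vb_hk_apply (u : LaurentSeries κ) : hk ℓ κ (toH ℓ κ u) =
    HahnSeries.embDomain ⟨⟨mulL ℓ, mulL_injective ℓ⟩, mulL_le ℓ _ _⟩ u := rfl

lemma vpT_pow : vpT κ ^ ℓ = algebraMap (Hk ℓ κ) (Tk κ) (piH ℓ κ) := by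
  rw [algebraMap_Hk, piH, vb_hk_apply, vpT, ← map_pow, HahnSeries.single_pow, one_pow,
    HahnSeries.embDomain_single, nsmul_eq_mul]
  rfl

lemma lc_hk (u : Hk ℓ κ) : (hk ℓ κ u).leadingCoeff = lcH u := by
  obtain ⟨u, rfl⟩ := (toH ℓ κ).surjective u
  rw [vb_hk_apply, lcH, RingEquiv.symm_apply_apply]
  by_cases hu : u = 0
  · rw [hu, HahnSeries.embDomain_zero]
  · unfold HahnSeries.leadingCoeff
    rw [HahnSeries.orderTop_embDomain, ← WithTop.coe_untop u.orderTop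
      (HahnSeries.orderTop_ne_top.2 hu), WithTop.map_coe]
    exact HahnSeries.embDomain_coeff

/-- The Laurent series `z (ζ ϖ)`. -/
def vbTw (ζ : κ) (z : LaurentSeries κ) : LaurentSeries κ where
  coeff n := ζ ^ n * z.coeff n
  isPWO_support' := z.isPWO_support'.mono fun n hn h0 => hn (by
    show ζ ^ n * z.coeff n = 0
    rw [h0, mul_zero])

lemma vbTw_coeff (ζ : κ) (z : LaurentSeries κ) (n : ℤ) : (vbTw ζ z).coeff n = ζ ^ n * z.coeff n := rfl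

lemma vbTw_support {ζ : κ} (hζ : ζ ≠ 0) (z : LaurentSeries κ) : (vbTw ζ z).support = z.support := by
  ext n
  rw [HahnSeries.mem_support, HahnSeries.mem_support, vbTw_coeff]
  exact ⟨fun h h0 => h (by rw [h0, mul_zero]), fun h => mul_ne_zero (zpow_ne_zero _ hζ) h⟩

lemma vbTw_mul {ζ : κ} (hζ : ζ ≠ 0) (z w : LaurentSeries κ) :
    vbTw ζ (z * w) = vbTw ζ z * vbTw ζ w := by
  ext n
  rw [vbTw_coeff, HahnSeries.coeff_mul_left' z.isPWO_support (vbTw_support hζ z).le,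
    HahnSeries.coeff_mul, Finset.mul_sum]
  have hs : Finset.antidiagonal z.isPWO_support (vbTw ζ w).isPWO_support n =
      Finset.antidiagonal z.isPWO_support w.isPWO_support n := by
    ext ij
    simp only [Finset.mem_antidiagonal, vbTw_support hζ]
  rw [hs]
  refine Finset.sum_congr rfl fun ij hij => ?_
  have h : ij.1 + ij.2 = n := (Finset.mem_antidiagonal.mp hij).2.2
  rw [vbTw_coeff, vbTw_coeff, ← h, zpow_add₀ hζ]
  ring

/-- The automorphism `ϖ ↦ ζ ϖ` of `κ((ϖ))`. -/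
theorem exists_tau {ζ : κ} (hζ : ζ ≠ 0) : ∃ τ : Pk κ ≃+* Pk κ, ∀ z n,
    (τ z).coeff n = ζ ^ n * z.coeff n := by
  refine ⟨{ toFun := vbTw ζ, invFun := vbTw ζ⁻¹, left_inv := ?_, right_inv := ?_,
            map_mul' := vbTw_mul hζ, map_add' := ?_ }, fun z n => rfl⟩
  · intro z
    ext n
    rw [vbTw_coeff, vbTw_coeff, inv_zpow, inv_mul_cancel_left₀ (zpow_ne_zero n hζ)]
  · intro z
    ext n
    rw [vbTw_coeff, vbTw_coeff, inv_zpow, mul_inv_cancel_left₀ (zpow_ne_zero n hζ)]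
  · intro z w
    ext n
    rw [HahnSeries.coeff_add, vbTw_coeff, vbTw_coeff, vbTw_coeff, HahnSeries.coeff_add, mul_add]

lemma b2_coeff_mul (u : Hk ℓ κ) (m : ℤ) :
    (hk ℓ κ u).coeff ((ℓ : ℤ) * m) = ((toH ℓ κ).symm u).coeff m := by
  show (HahnSeries.embDomainRingHom (mulL ℓ) (mulL_injective ℓ) (mulL_le ℓ)
    ((toH ℓ κ).symm u)).coeff ((ℓ : ℤ) * m) = _
  rw [HahnSeries.embDomainRingHom_apply]
  exact HahnSeries.embDomain_coeff (a := m)

lemma b2_coeff_not_dvd (u : Hk ℓ κ) {n : ℤ} (hn : ¬ (ℓ : ℤ) ∣ n) : (hk ℓ κ u).coeff n = 0 := by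
  show (HahnSeries.embDomainRingHom (mulL ℓ) (mulL_injective ℓ) (mulL_le ℓ)
    ((toH ℓ κ).symm u)).coeff n = _
  rw [HahnSeries.embDomainRingHom_apply]
  refine HahnSeries.embDomain_of_notMem_range ?_
  rintro ⟨m, hm⟩
  exact hn ⟨m, hm.symm⟩

/-- The `i`-th section of a Laurent series. -/
noncomputable def b2_sec (ℓ : ℕ) [NeZero ℓ] (z : Pk κ) (i : ℕ) : Hk ℓ κ :=
  toH ℓ κ (HahnSeries.ofSuppBddBelow (fun n : ℤ => z.coeff ((ℓ : ℤ) * n + i)) (by
    refine ⟨min 0 (z.order - i), ?_⟩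
    intro n hn
    rw [Function.mem_support] at hn
    by_contra hlt
    rw [not_le, lt_min_iff] at hlt
    apply hn
    apply HahnSeries.coeff_eq_zero_of_lt_order
    have h1 : (1 : ℤ) ≤ (ℓ : ℤ) := by
      exact_mod_cast Nat.pos_of_ne_zero (NeZero.ne ℓ)
    nlinarith))

lemma b2_sec_coeff (z : Pk κ) (i : ℕ) (m : ℤ) :
    (hk ℓ κ (b2_sec ℓ z i)).coeff ((ℓ : ℤ) * m) = z.coeff ((ℓ : ℤ) * m + i) := by
  rw [b2_coeff_mul, b2_sec, RingEquiv.symm_apply_apply]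
  rfl

lemma b2_sum (z : Pk κ) :
    ∑ i ∈ Finset.range ℓ, (b2_sec ℓ z i) • (HahnSeries.single (i : ℤ) (1 : κ) : Pk κ) = z := by
  have hl : (0 : ℤ) < (ℓ : ℤ) := by exact_mod_cast Nat.pos_of_ne_zero (NeZero.ne ℓ)
  ext n
  rw [HahnSeries.coeff_sum]
  have h1 : ∀ i : ℕ, ((b2_sec ℓ z i) • (HahnSeries.single (i : ℤ) (1 : κ) : Pk κ)).coeff n =
      (hk ℓ κ (b2_sec ℓ z i)).coeff (n - i) := by
    intro i
    rw [Algebra.smul_def]
    have h2 := HahnSeries.coeff_mul_single_add (r := (1 : κ)) (x := hk ℓ κ (b2_sec ℓ z i))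
      (a := n - i) (b := (i : ℤ))
    rw [sub_add_cancel, mul_one] at h2
    exact h2
  simp only [h1]
  have h3 : (0 : ℤ) ≤ n % (ℓ : ℤ) := Int.emod_nonneg n hl.ne'
  have h4 : n % (ℓ : ℤ) < ℓ := Int.emod_lt_of_pos n hl
  rw [Finset.sum_eq_single (n % (ℓ : ℤ)).toNat]
  · have h5 : ((n % (ℓ : ℤ)).toNat : ℤ) = n % (ℓ : ℤ) := Int.toNat_of_nonneg h3
    have h6 : n - ((n % (ℓ : ℤ)).toNat : ℤ) = (ℓ : ℤ) * (n / (ℓ : ℤ)) := by
      rw [h5]
      have := Int.mul_ediv_add_emod n (ℓ : ℤ)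
      linarith
    rw [h6, b2_sec_coeff, h5, Int.mul_ediv_add_emod]
  · intro i hi hne
    apply b2_coeff_not_dvd
    intro hdvd
    apply hne
    have h5 : (i : ℤ) = n % (ℓ : ℤ) := by
      have h6 : (i : ℤ) % (ℓ : ℤ) = n % (ℓ : ℤ) := Int.modEq_iff_dvd.2 hdvd
      rw [← h6]
      symm
      apply Int.emod_eq_of_lt (Int.natCast_nonneg i)
      exact_mod_cast Finset.mem_range.1 hi
    omega
  · intro hn
    exact absurd (Finset.mem_range.2 (by omega)) hn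

lemma b2_finite : Module.Finite (Hk ℓ κ) (Pk κ) := by
  refine ⟨⟨(Finset.range ℓ).image (fun i : ℕ => (HahnSeries.single (i : ℤ) (1 : κ) : Pk κ)), ?_⟩⟩
  rw [eq_top_iff]
  intro z _
  rw [← b2_sum (ℓ := ℓ) z]
  refine Submodule.sum_mem _ (fun i hi => Submodule.smul_mem _ _ (Submodule.subset_span ?_))
  exact Finset.mem_coe.2 (Finset.mem_image_of_mem _ hi)

/-- `κ((ϖ))` is algebraic over `κ((π))`: `z` is a root of `∏_{j < ℓ} (X - τ ^ j z)`, whose coefficients are fixed by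
`τ`, so are in the image of `hk` (if `ζ ^ n * z.coeff n = z.coeff n` and `ℓ ∤ n` then `z.coeff n = 0`); then
`Algebra.IsAlgebraic.trans`. (Or decompose `z = ∑_{i < ℓ} ϖ ^ i h_i`.) -/
theorem isAlgClosure_Hk {ζ : κ} (hζ : IsPrimitiveRoot ζ ℓ) : IsAlgClosure (Hk ℓ κ) (Tk κ) := by
  have := b2_finite (ℓ := ℓ) (κ := κ)
  have : Algebra.IsAlgebraic (Hk ℓ κ) (Pk κ) := Algebra.IsAlgebraic.of_finite _ _
  exact ⟨inferInstance, Algebra.IsAlgebraic.trans (Hk ℓ κ) (Pk κ) (Tk κ)⟩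

/-- The extension of `τ` to the algebraic closure (`IsAlgClosure.equivOfEquiv`); it fixes `κ((π))`. -/
theorem exists_sigma {ζ : κ} (hζ : IsPrimitiveRoot ζ ℓ) (τ : Pk κ ≃+* Pk κ)
    (hτ : ∀ z n, (τ z).coeff n = ζ ^ n * z.coeff n) :
    ∃ σ : Tk κ ≃ₐ[Hk ℓ κ] Tk κ, ∀ z : Pk κ, σ (algebraMap (Pk κ) (Tk κ) z) =
      algebraMap (Pk κ) (Tk κ) (τ z) := by
  have h1 : ∀ z : Pk κ, IsAlgClosure.equivOfEquiv (Tk κ) (Tk κ) τ (algebraMap (Pk κ) (Tk κ) z) =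
      algebraMap (Pk κ) (Tk κ) (τ z) := fun z =>
    IsAlgClosure.equivOfEquiv_algebraMap (Tk κ) (Tk κ) τ z
  refine ⟨AlgEquiv.ofRingEquiv (f := IsAlgClosure.equivOfEquiv (Tk κ) (Tk κ) τ) ?_, h1⟩
  intro u
  rw [algebraMap_Hk, h1]
  congr 1
  ext n
  rw [hτ]
  by_cases hn : (ℓ : ℤ) ∣ n
  · rw [(hζ.zpow_eq_one_iff_dvd n).2 hn, one_mul]
  · rw [b2_coeff_not_dvd u hn, mul_zero]

omit [NeZero ℓ] in
private lemma b3_coeff {ζ : κ} {τ : Pk κ ≃+* Pk κ}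
    (hτ : ∀ z n, (τ z).coeff n = ζ ^ n * z.coeff n) (j : ℕ) (z : Pk κ) (n : ℤ) :
    ((⇑τ)^[j] z).coeff n = (ζ ^ n) ^ j * z.coeff n := by
  induction j with
  | zero => rw [Function.iterate_zero, id, pow_zero, one_mul]
  | succ j ih => rw [Function.iterate_succ_apply', hτ, ih, pow_succ', mul_assoc]

omit [NeZero ℓ] in
private lemma b3_lc {ζ : κ} (h0 : ζ ≠ 0) {τ : Pk κ ≃+* Pk κ}
    (hτ : ∀ z n, (τ z).coeff n = ζ ^ n * z.coeff n) (j : ℕ) (z : Pk κ) (hz : z ≠ 0) :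
    ((⇑τ)^[j] z).leadingCoeff = (ζ ^ z.order) ^ j * z.leadingCoeff := by
  have h1 : (⇑τ)^[j] z ≠ 0 := by
    intro h
    have h2 := b3_coeff hτ j z z.order
    rw [h, HahnSeries.coeff_zero] at h2
    rcases mul_eq_zero.mp h2.symm with h3 | h3
    · exact pow_ne_zero _ (zpow_ne_zero _ h0) h3
    · exact hz (HahnSeries.coeff_order_eq_zero.mp h3)
  have h2 : ∀ n, ((⇑τ)^[j] z).coeff n ≠ 0 ↔ z.coeff n ≠ 0 := by
    intro n
    rw [b3_coeff hτ, Ne, Ne, mul_eq_zero, not_or]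
    exact ⟨fun h => h.2, fun h => ⟨pow_ne_zero _ (zpow_ne_zero _ h0), h⟩⟩
  have h3 : ((⇑τ)^[j] z).order = z.order := by
    apply le_antisymm
    · exact HahnSeries.order_le_of_coeff_ne_zero
        ((h2 _).mpr (fun h => hz (HahnSeries.coeff_order_eq_zero.mp h)))
    · exact HahnSeries.order_le_of_coeff_ne_zero
        ((h2 _).mp (fun h => h1 (HahnSeries.coeff_order_eq_zero.mp h)))
  rw [HahnSeries.leadingCoeff_eq, h3, b3_coeff hτ, HahnSeries.leadingCoeff_eq]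

omit [NeZero ℓ] in
private lemma b3_prod {ζ : κ} (hζ : IsPrimitiveRoot ζ ℓ) (hℓ : 0 < ℓ) :
    ∏ j ∈ Finset.range ℓ, ζ ^ j = (-1) ^ (ℓ - 1) := by
  rw [Finset.prod_pow_eq_pow_sum]
  have h1 := Finset.sum_range_id_mul_two ℓ
  rcases Nat.even_or_odd' ℓ with ⟨k, hk | hk⟩
  · have hk0 : 0 < k := by omega
    have h2 : ∑ i ∈ Finset.range ℓ, i = k * (ℓ - 1) := by
      have : (∑ i ∈ Finset.range ℓ, i) * 2 = k * (ℓ - 1) * 2 := by
        rw [h1]
        nth_rewrite 1 [hk]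
        ring
      omega
    have h3 : ζ ^ k = -1 := by
      have h4 : ζ ^ k * ζ ^ k = 1 := by
        rw [← pow_add, ← two_mul, ← hk, hζ.pow_eq_one]
      rcases mul_self_eq_one_iff.mp h4 with h5 | h5
      · exact absurd h5 (hζ.pow_ne_one_of_pos_of_lt (by omega) (by omega))
      · exact h5
    rw [h2, pow_mul, h3]
  · have h2 : ∑ i ∈ Finset.range ℓ, i = ℓ * k := by
      have : (∑ i ∈ Finset.range ℓ, i) * 2 = ℓ * k * 2 := by
        rw [h1]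
        have : ℓ - 1 = 2 * k := by omega
        rw [this]
        ring
      omega
    have h3 : ℓ - 1 = 2 * k := by omega
    rw [h2, pow_mul, hζ.pow_eq_one, one_pow, h3, pow_mul, neg_one_sq, one_pow]

omit [NeZero ℓ] in
private lemma b3_lc_prod (f : ℕ → Pk κ) (n : ℕ) :
    (∏ j ∈ Finset.range n, f j).leadingCoeff = ∏ j ∈ Finset.range n, (f j).leadingCoeff := by
  induction n with
  | zero => rw [Finset.prod_range_zero, Finset.prod_range_zero, HahnSeries.leadingCoeff_one]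
  | succ n ih => rw [Finset.prod_range_succ, Finset.prod_range_succ, HahnSeries.leadingCoeff_mul, ih]

omit [NeZero ℓ] in
private lemma b3_lc_pow (z : Pk κ) (n : ℕ) : (z ^ n).leadingCoeff = z.leadingCoeff ^ n := by
  induction n with
  | zero => rw [pow_zero, pow_zero, HahnSeries.leadingCoeff_one]
  | succ n ih => rw [pow_succ, pow_succ, HahnSeries.leadingCoeff_mul, ih]

/-- The leading coefficient of a norm. PROOF: `leadingCoeff (τ z) = ζ ^ (order z) * leadingCoeff z`, the orders are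
equal; `∏_{j < ℓ} ζ ^ j = (-1) ^ (ℓ - 1) = c ^ ℓ`; `w = c ^ (order z) * leadingCoeff z`. -/
theorem lc_norm {ζ : κ} (hζ : IsPrimitiveRoot ζ ℓ) (τ : Pk κ ≃+* Pk κ)
    (hτ : ∀ z n, (τ z).coeff n = ζ ^ n * z.coeff n) {c : κ} (hc : c ^ ℓ = (-1) ^ (ℓ - 1)) (z : Pk κ) :
    ∃ w : κ, (∏ j ∈ Finset.range ℓ, (⇑τ)^[j] z).leadingCoeff = w ^ ℓ := by
  have hℓ : 0 < ℓ := Nat.pos_of_ne_zero (NeZero.ne ℓ)
  by_cases hz : z = 0
  · refine ⟨0, ?_⟩
    rw [zero_pow (NeZero.ne ℓ), HahnSeries.leadingCoeff_eq_zero]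
    refine Finset.prod_eq_zero (Finset.mem_range.mpr hℓ) ?_
    rw [Function.iterate_zero, id, hz]
  · refine ⟨c ^ z.order * z.leadingCoeff, ?_⟩
    have h0 : ζ ≠ 0 := hζ.ne_zero (NeZero.ne ℓ)
    rw [b3_lc_prod, Finset.prod_congr rfl fun j _ => b3_lc h0 hτ j z hz,
      Finset.prod_mul_distrib, Finset.prod_const, Finset.card_range, mul_pow]
    congr 1
    have h1 : ∀ j ∈ Finset.range ℓ, (ζ ^ z.order) ^ j = (ζ ^ j) ^ z.order := by
      intro j _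
      rw [← zpow_natCast, ← zpow_natCast, ← zpow_mul, ← zpow_mul, mul_comm]
    rw [Finset.prod_congr rfl h1, Finset.prod_zpow, b3_prod hζ hℓ, ← hc]
    rw [← zpow_natCast, ← zpow_natCast, ← zpow_mul, ← zpow_mul, mul_comm]

omit [NeZero ℓ] in
private lemma b3_ep_zero {G : Type*} {χ : G → ℕ} {g h : G} (h1 : χ g + χ h < ℓ) :
    ep ℓ χ g h = 0 := Nat.div_eq_of_lt h1

private lemma b3_coprime {K : Type} [Field K] {ℓ : ℕ} (hℓ : ℓ.Prime) (h : (ℓ : K) ≠ 0) (q : ℕ)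
    (hq : ExpChar K q) : q.Coprime ℓ := by
  cases hq with
  | zero => exact Nat.coprime_one_left ℓ
  | prime hp =>
    rw [Nat.coprime_primes hp hℓ]
    rintro rfl
    exact h (CharP.cast_eq_zero K q)

private lemma b3_cocycle {E : Type} [Field E] {U a1 a2 e ge ghe ga2 : E}
    (h0 : U * a1 = ga2 * a2) (hge : ge ≠ 0) (hghe : ghe ≠ 0) :
    U * (a1 * e / ghe) = ga2 * ge / ghe * (a2 * e / ge) := by
  field_simp
  linear_combination e * h0

private lemma b3_single {ζ : κ} (τ : Pk κ ≃+* Pk κ)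
    (hτ : ∀ z n, (τ z).coeff n = ζ ^ n * z.coeff n) :
    τ (HahnSeries.single 1 1) = hk ℓ κ (cH ℓ ζ) * HahnSeries.single 1 1 := by
  have h1 : hk ℓ κ (cH ℓ ζ) = HahnSeries.C ζ :=
    HahnSeries.embDomainRingHom_C
  rw [h1]
  ext n
  rw [hτ, HahnSeries.C_mul_eq_smul, HahnSeries.coeff_smul, smul_eq_mul]
  by_cases hn : n = 1
  · rw [hn, zpow_one]
  · rw [HahnSeries.coeff_single_of_ne hn, mul_zero, mul_zero]

/-- A cyclic algebra split by `κ((π))`. PROOF. Write `u ^ ep(g,h) A(gh) = g A(h) A(g)`, `N` for the automorphisms over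
`κ((ϖ))` (they are over `κ((π))`: scalar tower). (1) `χ n = 0` for `n ∈ N`, so `A` is a continuous `1`-cocycle on `N`; by
`h90` (for `Tk κ` over `Pk κ`) `A n * e = n e`. `B g = A g * e / g e` satisfies the same identity, and `B n = 1`. (2) `B (g n) =
B g`, `B (n g) = n (B g)`. Let `σ` be as in `exists_sigma` (so `χ σ = 1`); `σ⁻¹ n σ ∈ N`, `n σ = σ (σ⁻¹ n σ)`, so
`n (B σ) = B σ` and by `exists_pow_mem` `(B σ) ^ (p ^ r)` is the image of some `z` in `Pk κ`. (3) `B (σ ^ (i+1)) =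
σ ^ i (B σ) * B (σ ^ i)` for `i + 1 < ℓ`, and for `i = ℓ - 1`: `u * B (σ ^ ℓ) = σ ^ (ℓ-1) (B σ) * B (σ ^ (ℓ-1))`, where
`σ ^ ℓ ∈ N` (`τ ^ ℓ = 1`), `B (σ ^ ℓ) = 1`. So `u = ∏_{j < ℓ} σ ^ j (B σ)`, `(hk u) ^ (p ^ r) = ∏_{j < ℓ} τ ^ j z` in `Pk κ`.
Conclude by `lc_norm`, `lc_hk`, with `m = p ^ r`, `p = ringExpChar`, prime to `ℓ` (`hℓκ`; see `G13_coprime` in
`Wl/Gen.lean`). -/
theorem lc_pow {ζ : κ} (hζ : IsPrimitiveRoot ζ ℓ) (hℓκ : (ℓ : κ) ≠ 0) {c : κ}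
    (hc : c ^ ℓ = (-1) ^ (ℓ - 1)) {χ : (Tk κ ≃ₐ[Hk ℓ κ] Tk κ) → ℕ}
    (hχ : IsChi ℓ (cH ℓ ζ) (vpT κ) χ) (u : Hk ℓ κ) (hu : u ≠ 0)
    (A : (Tk κ ≃ₐ[Hk ℓ κ] Tk κ) → (Tk κ)ˣ) (hA : IsCts A)
    (h : ∀ g h, algebraMap (Hk ℓ κ) (Tk κ) u ^ ep ℓ χ g h * A (g * h) = g (A h) * A g) :
    ∃ (m : ℕ) (w : κ), m.Coprime ℓ ∧ lcH u ^ m = w ^ ℓ := by
  have hp : ℓ.Prime := hχ.prime
  have hcl : IsAlgClosure (Hk ℓ κ) (Tk κ) := isAlgClosure_Hk hζ
  obtain ⟨R, hR⟩ : ∃ R : (Tk κ ≃ₐ[Pk κ] Tk κ) → (Tk κ ≃ₐ[Hk ℓ κ] Tk κ), ∀ n z, R n z = n z :=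
    ⟨fun n => n.restrictScalars (Hk ℓ κ), fun _ _ => rfl⟩
  have hRmul : ∀ n n', R (n * n') = R n * R n' := fun n n' => by
    ext z
    rw [hR, AlgEquiv.mul_apply, AlgEquiv.mul_apply, hR, hR]
  have hRsurj : ∀ g : Tk κ ≃ₐ[Hk ℓ κ] Tk κ,
      (∀ z : Pk κ, g (algebraMap (Pk κ) (Tk κ) z) = algebraMap (Pk κ) (Tk κ) z) →
        ∃ n, R n = g := fun g hg =>
    ⟨AlgEquiv.ofRingEquiv (f := (g : Tk κ ≃+* Tk κ)) hg, by
      ext z
      rw [hR]
      rfl⟩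
  have hinj : Function.Injective (fun z : κ => algebraMap (Hk ℓ κ) (Tk κ) (cH ℓ z)) :=
    (algebraMap (Hk ℓ κ) (Tk κ)).injective.comp (cH (κ := κ) ℓ).injective
  have hχR : ∀ n, χ (R n) = 0 := by
    intro n
    have h1 := hχ.act (R n)
    have h2 : R n (vpT κ) = vpT κ := by
      rw [hR]
      exact n.commutes _
    rw [h2] at h1
    have h3 : algebraMap (Hk ℓ κ) (Tk κ) (cH ℓ ζ ^ χ (R n)) = 1 :=
      mul_right_cancel₀ hχ.ne (by rw [one_mul]; exact h1.symm)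
    have h4 : ζ ^ χ (R n) = 1 := by
      apply hinj
      show algebraMap (Hk ℓ κ) (Tk κ) (cH ℓ (ζ ^ χ (R n))) = algebraMap (Hk ℓ κ) (Tk κ) (cH ℓ 1)
      rw [map_pow, h3, map_one, map_one]
    by_contra h5
    exact hζ.pow_ne_one_of_pos_of_lt h5 (hχ.lt _) h4
  have hAR : IsCts fun n => A (R n) := by
    obtain ⟨T, hT⟩ := hA
    exact ⟨T, fun g g' hg => hT _ _ fun x hx => by
      rw [hR, hR]
      exact hg x hx⟩
  obtain ⟨e, he⟩ := h90 (K := Pk κ) (S := Tk κ) (fun n => A (R n)) hAR (by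
    intro g h'
    have h1 := h (R g) (R h')
    rw [b3_ep_zero (by rw [hχR, hχR]; exact hp.pos), pow_zero, one_mul, ← hRmul] at h1
    rw [h1, hR])
  obtain ⟨B, hB⟩ : ∃ B : (Tk κ ≃ₐ[Hk ℓ κ] Tk κ) → Tk κ, ∀ g, B g = A g * e / g e :=
    ⟨_, fun _ => rfl⟩
  have hge : ∀ g : Tk κ ≃ₐ[Hk ℓ κ] Tk κ, g (e : Tk κ) ≠ 0 := fun g =>
    (map_ne_zero g).mpr e.ne_zero
  have hBmul : ∀ g g', algebraMap (Hk ℓ κ) (Tk κ) u ^ ep ℓ χ g g' * B (g * g') =
      g (B g') * B g := by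
    intro g g'
    rw [hB, hB, hB, map_div₀, map_mul]
    exact b3_cocycle (h g g') (hge g) (hge (g * g'))
  have hBR : ∀ n, B (R n) = 1 := by
    intro n
    rw [hB, he n, hR]
    exact div_self (by rw [← hR]; exact hge _)
  have hBgn : ∀ g n, B (g * R n) = B g := by
    intro g n
    have h1 := hBmul g (R n)
    rw [b3_ep_zero (by rw [hχR, add_zero]; exact hχ.lt g), pow_zero, one_mul, hBR, map_one,
      one_mul] at h1
    exact h1
  have hBng : ∀ n g, B (R n * g) = R n (B g) := by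
    intro n g
    have h1 := hBmul (R n) g
    rw [b3_ep_zero (by rw [hχR, zero_add]; exact hχ.lt g), pow_zero, one_mul, hBR,
      mul_one] at h1
    exact h1
  obtain ⟨τ, hτ⟩ := exists_tau (hζ.ne_zero (NeZero.ne ℓ))
  obtain ⟨σ, hσ⟩ := exists_sigma hζ τ hτ
  have hχσ : χ σ = 1 := by
    have h1 := hχ.act σ
    have h2 : σ (vpT κ) = algebraMap (Hk ℓ κ) (Tk κ) (cH ℓ ζ) * vpT κ := by
      show σ (algebraMap (Pk κ) (Tk κ) (HahnSeries.single 1 1)) = _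
      rw [hσ, algebraMap_Hk, b3_single (ℓ := ℓ) τ hτ, map_mul]
      rfl
    rw [h2] at h1
    have h3 := mul_right_cancel₀ hχ.ne h1
    rw [← map_pow] at h3
    have h4 : ζ = ζ ^ χ σ := hinj h3
    have h5 : ζ ^ 1 = ζ ^ χ σ := by rw [pow_one]; exact h4
    exact (hζ.pow_inj hp.one_lt (hχ.lt σ) h5).symm
  have hBσ : ∀ n : Tk κ ≃ₐ[Pk κ] Tk κ, n (B σ) = B σ := by
    intro n
    obtain ⟨n', hn'⟩ := hRsurj (σ⁻¹ * R n * σ) (by
      intro z
      rw [AlgEquiv.mul_apply, AlgEquiv.mul_apply, hσ, hR, n.commutes, ← hσ]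
      exact σ.symm_apply_apply _)
    have h1 : R n * σ = σ * R n' := by
      rw [hn']
      group
    rw [← hR, ← hBng, h1, hBgn]
  obtain ⟨r, y, hy⟩ := exists_pow_mem (K := Pk κ) (S := Tk κ) (B σ) hBσ
  have hχi : ∀ i, i < ℓ → χ (σ ^ i) = i := by
    intro i
    induction i with
    | zero => intro _; rw [pow_zero, hχ.one]
    | succ i ih =>
      intro hi
      rw [pow_succ, hχ.mul, ih (by omega), hχσ]
      exact Nat.mod_eq_of_lt hi
  have hBi : ∀ i, i < ℓ → B (σ ^ i) = ∏ j ∈ Finset.range i, (σ ^ j) (B σ) := by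
    intro i
    induction i with
    | zero =>
      intro _
      rw [pow_zero, Finset.prod_range_zero]
      have h1 : R 1 = 1 := by
        ext z
        rw [hR]
        rfl
      rw [← h1, hBR]
    | succ i ih =>
      intro hi
      have h1 := hBmul (σ ^ i) σ
      rw [b3_ep_zero (by rw [hχi i (by omega), hχσ]; exact hi), pow_zero, one_mul,
        ← pow_succ, ih (by omega)] at h1
      rw [h1, Finset.prod_range_succ, mul_comm]
  have hσj : ∀ (j : ℕ) (z : Pk κ), (σ ^ j) (algebraMap (Pk κ) (Tk κ) z) =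
      algebraMap (Pk κ) (Tk κ) ((⇑τ)^[j] z) := by
    intro j z
    induction j with
    | zero => rw [pow_zero]; rfl
    | succ j ih => rw [pow_succ', AlgEquiv.mul_apply, ih, hσ, Function.iterate_succ_apply']
  have hBℓ : B (σ ^ ℓ) = 1 := by
    obtain ⟨n, hn⟩ := hRsurj (σ ^ ℓ) (by
      intro z
      rw [hσj]
      congr 1
      ext n
      rw [b3_coeff hτ, ← zpow_natCast, ← zpow_mul, mul_comm n, zpow_mul, zpow_natCast,
        hζ.pow_eq_one, one_zpow, one_mul])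
    rw [← hn, hBR]
  have hfin : algebraMap (Hk ℓ κ) (Tk κ) u = ∏ j ∈ Finset.range ℓ, (σ ^ j) (B σ) := by
    obtain ⟨k, hk'⟩ : ∃ k, ℓ = k + 1 := ⟨ℓ - 1, by have := hp.pos; omega⟩
    have h1 := hBmul (σ ^ k) σ
    have h2 : ep ℓ χ (σ ^ k) σ = 1 := by
      unfold ep
      rw [hχi k (by omega), hχσ, ← hk']
      exact Nat.div_self hp.pos
    rw [h2, pow_one, ← pow_succ, ← hk', hBℓ, mul_one, hBi k (by omega)] at h1
    rw [h1, mul_comm, ← Finset.prod_range_succ (fun j => (σ ^ j) (B σ)) k, ← hk']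
  have hprod : hk ℓ κ u ^ (ringExpChar (Pk κ) ^ r) = ∏ j ∈ Finset.range ℓ, (⇑τ)^[j] y := by
    apply (algebraMap (Pk κ) (Tk κ)).injective
    rw [map_pow, ← algebraMap_Hk, hfin, ← Finset.prod_pow, map_prod]
    refine Finset.prod_congr rfl fun j _ => ?_
    rw [← map_pow, hy, hσj]
  obtain ⟨w, hw⟩ := lc_norm hζ τ hτ hc y
  have hne : (ℓ : Pk κ) ≠ 0 := by
    intro h0
    apply hℓκ
    have h1 : HahnSeries.C (Γ := ℤ) (ℓ : κ) = HahnSeries.C (0 : κ) := by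
      rw [map_natCast, map_zero, h0]
    exact HahnSeries.C_injective h1
  refine ⟨ringExpChar (Pk κ) ^ r, w, Nat.Coprime.pow_left r (b3_coprime hp hne _ inferInstance), ?_⟩
  rw [← lc_hk, ← b3_lc_pow, hprod, hw]

end

end Pool.Agent.Lib.MP_89bcae_ag.Bra

end
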