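import Mathlib
import Pool.Agent.Lib.MP_89bcae_ag.Bk.K015
import Pool.Agent.Lib.MP_89bcae_ag.Bk.K017
import Pool.Agent.Lib.MP_89bcae_ag.Bk.K019
import Pool.Agent.Lib.MP_89bcae_ag.Bk.K023

namespace Pool.Agent.Lib.MP_89bcae_ag.Sup
end Pool.Agent.Lib.MP_89bcae_ag.Sup
namespace Pool.Agent.Lib.MP_89bcae_ag.Sup.Lns
end Pool.Agent.Lib.MP_89bcae_ag.Sup.Lns

section

/-!
ROW L03 (100-180 lines). The roots of `g(x) = t` in `M`.

`f = d⁻¹ (g(x) - t)`, `g` monic of degree `m ≥ 1` with coefficients in `F`.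
PROOFS. (1) is a computation. (2) If `v θ > 1` the leading term dominates: `v (g(θ)) = v(θ)^m > 1`,
while `v t ≤ 1` (`t = a + (t - a)`). (8) is the same computation. (3) Let `r` be the residue of `θ`:
`g(θ) - g(r)` has `v < 1` (`LocCtx.residue_eval`) and `g(θ) - a = t - a` has `v < 1`; the residue is
unique. (4) `M` is algebraically closed and `f` is separable: `f = C d⁻¹ ∏ (X - θ)` over the finite
set of its roots (`IsAlgClosed.splits`, `nodup_roots`).
-/

open Polynomial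

open scoped Classical

namespace Pool.Agent.Lib.MP_89bcae_ag.Sup

universe u

variable {F M : Type u} [Field F] [Field M] [Algebra F M] {v : AbsoluteValue M ℝ} {a : F} {t : M}


/-- The finite set of the roots of `g(x) = t`. -/
noncomputable def rts (f : M[X]) : Finset M := f.roots.toFinset

lemma mem_rts {f : M[X]} (hf : f ≠ 0) {θ : M} : θ ∈ rts f ↔ f.eval θ = 0 := by
  unfold rts
  rw [Multiset.mem_toFinset, mem_roots hf, IsRoot.def]


end Pool.Agent.Lib.MP_89bcae_ag.Sup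

end

section

/-!
The kernel of `π = 1 - Z`: parts (B) and (C) of the explanations in R17.
-/

open Polynomial IsDedekindDomain

open scoped Classical

namespace Pool.Agent.Lib.MP_89bcae_ag.Wt

universe u

variable {N : ℕ} {E : Type u} [Field E] {f : E[X]} [hG : IsGood N f]

lemma R18_rot_ramPt (ζ : E) (hζ : ζ ^ N = 1) {θ : E} (hθ : f.eval θ = 0) :
    (ramPt hG.ne hθ : Pt N f).rot ζ hζ = ramPt hG.ne hθ := by
  ext
  · rfl
  · simp [Pt.rot, ramPt]

lemma R18_ordR_rot (ζ : E) (hζ : ζ ^ N = 1) (h0 : ζ ≠ 0) (θ : E) (h : (FunField N f)ˣ) :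
    ordR θ (rotU ζ hζ h0 h) = ordR θ h := by
  unfold ordR
  split_ifs with hθ
  · rw [ord_rotU, R18_rot_ramPt]
  · rfl

lemma R18_ordR_iter (ζ : E) (hζ : ζ ^ N = 1) (h0 : ζ ≠ 0) (θ : E) (h : (FunField N f)ˣ) (i : ℕ) :
    ordR θ ((rotU ζ hζ h0)^[i] h) = ordR θ h := by
  induction i with
  | zero => rfl
  | succ i ih => rw [Function.iterate_succ_apply', R18_ordR_rot, ih]

lemma R18_lc_iter (ζ : E) (hζ : ζ ^ N = 1) (h0 : ζ ≠ 0) {θ : E} (hθ : f.eval θ = 0)
    (h : (FunField N f)ˣ) (i : ℕ) :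
    (lc θ ((rotU ζ hζ h0)^[i] h) : E) = (ζ ^ (al N (wt f θ) * ordR θ h)) ^ i * lc θ h := by
  induction i with
  | zero => simp
  | succ i ih =>
    rw [Function.iterate_succ_apply', (lc_spec hθ).2.2.2.2.1, ih, R18_ordR_iter, pow_succ]
    ring

/-- The leading coefficient of a norm. -/
lemma R18_lc_nrm (ζ : E) (hζ : ζ ^ N = 1) (h0 : ζ ≠ 0) {θ : E} (hθ : f.eval θ = 0)
    (h : (FunField N f)ˣ) :
    (lc θ (nrm ζ hζ h0 h) : E) =
      (ζ ^ (al N (wt f θ) * ordR θ h)) ^ (∑ i ∈ Finset.range N, i) * (lc θ h : E) ^ N := by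
  rw [nrm, map_prod, Units.coe_prod, Finset.prod_congr rfl fun i _ => R18_lc_iter ζ hζ h0 hθ h i,
    Finset.prod_mul_distrib, Finset.prod_pow_eq_pow_sum, Finset.prod_const, Finset.card_range]

lemma R18_xprod_sub (D D' : Pt N f →₀ ℤ) : xprod (D - D') = xprod D / xprod D' := by
  rw [eq_div_iff_mul_eq', ← xprod_add, sub_add_cancel]

lemma R18_div_div (h h' : (FunField N f)ˣ) : div (h / h') = div h - div h' := by
  rw [div_eq_mul_inv, div_mul, div_inv, sub_eq_add_neg]

/-- Extraction of roots of constants: normalization of the norm. -/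
lemma R18_exists_normalized (ζ : E) (hζ : ζ ^ N = 1) (h0 : ζ ≠ 0) (h : (FunField N f)ˣ) (c : Eˣ)
    (g : (FunField N f)ˣ) (hn : nrm ζ hζ h0 h = cstU c * g) :
    ∃ h' : (FunField N f)ˣ, div h' = div h ∧ nrm ζ hζ h0 h' = g := by
  have := hG.alg
  obtain ⟨d, hd⟩ := IsAlgClosed.exists_pow_nat_eq (c : E) hG.pos
  have hd0 : d ≠ 0 := by
    rintro rfl
    rw [zero_pow hG.ne] at hd
    exact c.ne_zero hd.symm
  have hdc : (Units.mk0 d hd0) ^ N = c := by
    ext
    simpa using hd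
  refine ⟨h * cstU (Units.mk0 d hd0)⁻¹, ?_, ?_⟩
  · rw [div_mul, div_cstU, add_zero]
  · rw [nrm_mul, nrm_cstU, hn, inv_pow, hdc, map_inv]
    rw [mul_comm (cstU c) g, mul_inv_cancel_right]

lemma zJ_ram (ζ : E) (hζ : ζ ^ N = 1) (e : E → ℤ) : zJ ζ hζ (ram e : Jac N f) = ram e := by
  rw [ram, zJ_cl, mapDomain_rot_ramDiv]

/-- (B) -/
lemma exists_ram_of_zJ_eq (ζ : E) (hζ : IsPrimitiveRoot ζ N) (Q : Jac N f)
    (hQ : zJ ζ hζ.pow_eq_one Q = Q) : ∃ e : E → ℤ, Q = ram e := by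
  have h0 : ζ ≠ 0 := hζ.ne_zero hG.ne
  obtain ⟨D, rfl⟩ := cl_surjective Q
  rw [zJ_cl] at hQ
  have h1 : cl (D - D.mapDomain (Pt.rot ζ hζ.pow_eq_one)) = 0 := by
    rw [map_sub, hQ, sub_self]
  obtain ⟨h, hh⟩ := exists_div_of_cl_eq_zero _ h1
  obtain ⟨c, hc⟩ := exists_nrm_eq ζ hζ h0 h
  have hx : xprod (div h) = 1 := by
    rw [hh, R18_xprod_sub, xprod_rot, div_self']
  obtain ⟨h', hdiv, hn⟩ := R18_exists_normalized ζ hζ.pow_eq_one h0 h c _ hc
  rw [hx] at hn
  have hord : ∀ θ, f.eval θ = 0 → ordR θ h' = 0 := by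
    intro θ hθ
    have h2 : ord (ramPt hG.ne hθ) h' = 0 := by
      rw [← div_apply, hdiv, hh, Finsupp.sub_apply]
      nth_rw 2 [← R18_rot_ramPt ζ hζ.pow_eq_one hθ]
      rw [Finsupp.mapDomain_apply, sub_self]
      intro P P' hP
      have hx := congrArg Pt.x hP
      have hy := congrArg Pt.y hP
      simp only [Pt.rot] at hx hy
      exact Pt.ext hx (mul_left_cancel₀ h0 hy)
    rw [ordR, dif_pos hθ, h2]
  have hlc : ∀ θ, f.eval θ = 0 → ∃ n : ℤ, (lc θ h' : E) = ζ ^ n := by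
    intro θ hθ
    have h3 := R18_lc_nrm ζ hζ.pow_eq_one h0 hθ h'
    rw [hn, hord θ hθ, map_one, mul_zero, zpow_zero, one_pow, one_mul, Units.val_one] at h3
    have : NeZero N := ⟨hG.ne⟩
    obtain ⟨i, _, hi⟩ := hζ.eq_pow_of_pow_eq_one h3.symm
    exact ⟨i, by rw [← hi, zpow_natCast]⟩
  choose! n hn' using hlc
  exact ⟨_, cl_eq_ram ζ hζ h0 D h' (by rw [hdiv, hh]) hn n hn'⟩

/-- (C) -/
lemma ram_eq_zero_iff (ζ : E) (hζ : IsPrimitiveRoot ζ N) (e : E → ℤ) :
    (ram e : Jac N f) = 0 ↔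
      ∃ c : ℤ, ∀ θ, f.eval θ = 0 → (N : ℤ) ∣ e θ - c * wt f θ := by
  have h0 : ζ ≠ 0 := hζ.ne_zero hG.ne
  constructor
  · intro he
    obtain ⟨h, hh⟩ := exists_div_of_cl_eq_zero _ he
    have hu : div ((rotU ζ hζ.pow_eq_one h0).symm h / h) = 0 := by
      rw [R18_div_div, div_rotU_symm, hh, mapDomain_rot_ramDiv, sub_self]
    have hdg : dg (div ((rotU ζ hζ.pow_eq_one h0).symm h / h)) = 0 := by
      rw [hu, dg, Finsupp.sum_zero_index]
    obtain ⟨c, hc⟩ := exists_const_of_dg_eq_zero ζ hζ _ hdg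
    have hord : ∀ P, ord P ((rotU ζ hζ.pow_eq_one h0).symm h / h) = 0 := by
      intro P
      rw [← div_apply, hu, Finsupp.zero_apply]
    have hc1 : (((rotU ζ hζ.pow_eq_one h0).symm h / h : (FunField N f)ˣ) : FunField N f) = cst c := by
      rcases hc with hc | ⟨w, hw, hwd⟩
      · exact hc
      · exfalso
        have hwn : ∀ P, 0 ≤ ord P w := by
          intro P
          by_cases hc0 : c = 0
          · rw [hc0, map_zero, sub_zero] at hw
            rw [Units.ext hw, hord]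
          · have h5 := ord_add P ((rotU ζ hζ.pow_eq_one h0).symm h / h)
              (cstU (Units.mk0 (-c) (neg_ne_zero.2 hc0))) w (by
                rw [hw, cstU, Units.coe_map, Units.val_mk0, MonoidHom.coe_coe, map_neg,
                  sub_eq_add_neg])
            rw [hord, ord_cstU, min_self] at h5
            exact h5
        refine absurd hwd (not_lt.2 ?_)
        exact Finset.sum_nonneg fun P _ => hwn P
    have hc0 : c ≠ 0 := by
      rintro rfl
      rw [map_zero] at hc1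
      exact Units.ne_zero _ hc1
    have h6 : (rotU ζ hζ.pow_eq_one h0).symm h / h = cstU (Units.mk0 c hc0) := by
      ext
      rw [hc1, cstU, Units.coe_map, Units.val_mk0, MonoidHom.coe_coe]
    have h7 : h = cstU (Units.mk0 c hc0) * rotU ζ hζ.pow_eq_one h0 h := by
      have h8 := congrArg (rotU ζ hζ.pow_eq_one h0) (eq_mul_of_div_eq h6)
      rw [MulEquiv.apply_symm_apply, map_mul, rotU_cstU] at h8
      exact h8
    have h9 : ∀ θ, f.eval θ = 0 → c * ζ ^ (al N (wt f θ) * e θ) = 1 := by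
      intro θ hθ
      have h10 : ordR θ h = e θ := by
        rw [ordR, dif_pos hθ, ← div_apply, hh, ramDiv_apply, if_pos (by rfl)]
        rfl
      have h11 := congrArg (fun u => (lc θ u : E)) h7
      simp only [map_mul, Units.val_mul, (lc_spec hθ).1, (lc_spec hθ).2.2.2.2.1, Units.val_mk0,
        h10] at h11
      have h12 := (lc θ h).ne_zero
      rw [← mul_assoc] at h11
      exact (mul_eq_right₀ h12).1 h11.symm
    obtain ⟨θ₀, hθ₀⟩ := exists_root N f
    refine ⟨al N (wt f θ₀) * e θ₀, fun θ hθ => ?_⟩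
    have h15 : (N : ℤ) ∣ al N (wt f θ) * e θ - al N (wt f θ₀) * e θ₀ := by
      rw [← hζ.zpow_eq_one_iff_dvd, zpow_sub₀ h0]
      have h13 := h9 θ hθ
      have h14 := h9 θ₀ hθ₀
      rw [← h14] at h13
      rw [mul_left_cancel₀ hc0 h13, div_self (zpow_ne_zero _ h0)]
    have hw : ((al N (wt f θ) * wt f θ : ℕ) : ℤ) = ((be N (wt f θ) * N + 1 : ℕ) : ℤ) := by
      rw [al_wt (N := N) hθ]
    push_cast at hw
    have h16 : e θ - al N (wt f θ₀) * e θ₀ * wt f θ =
        wt f θ * (al N (wt f θ) * e θ - al N (wt f θ₀) * e θ₀) - N * (be N (wt f θ) * e θ) := by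
      linear_combination (-e θ) * hw
    rw [h16]
    exact dvd_sub (h15.mul_left _) (dvd_mul_right _ _)
  · rintro ⟨c, hc⟩
    rw [ram_congr e (fun θ => c * wt f θ) (fun θ hθ => hc θ hθ), ram, ramDiv_smul,
      map_zsmul, ← div_yU, cl_div, smul_zero]

lemma ram_add (e e' : E → ℤ) : (ram fun θ => e θ + e' θ : Jac N f) = ram e + ram e' := by
  rw [ram, ramDiv_add, map_add, ← ram, ← ram]

lemma ram_sub (e e' : E → ℤ) : (ram fun θ => e θ - e' θ : Jac N f) = ram e - ram e' := by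
  rw [ram, ramDiv_sub, map_sub, ← ram, ← ram]

lemma symJ_ram (σ : Sym f) (e : E → ℤ) :
    symJ σ (ram e : Jac N f) = ram fun θ => e (((σ⁻¹ : Sym f) : E ≃+* E) θ) := by
  rw [ram, symJ_cl, mapDomain_sym_ramDiv, ← ram]

lemma smul_ram (e : E → ℤ) : N • (ram e : Jac N f) = 0 := by
  have h1 : (ram (fun θ => (N : ℤ) * e θ) : Jac N f) = ram fun _ => 0 :=
    ram_congr _ _ fun θ _ => ⟨e θ, by ring⟩
  have h2 : (ram (fun _ => 0) : Jac N f) = 0 := by
    have h3 : (ramDiv (fun _ => 0) : Pt N f →₀ ℤ) = 0 := by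
      ext P
      simp
    rw [ram, h3, map_zero]
  rw [h2, ram, ramDiv_smul, map_zsmul, ← ram, natCast_zsmul] at h1
  exact h1

end Pool.Agent.Lib.MP_89bcae_ag.Wt

end

section

/-!
# The normalised exponents of the classes of ramified divisors
-/

open Polynomial IsDedekindDomain

open scoped Classical

set_option linter.style.haveILetI false

namespace Pool.Agent.Lib.MP_89bcae_ag.Wt

universe u

variable {ℓ : ℕ} {E : Type u} [Field E] {f : E[X]} [hG : IsGood ℓ f]

omit hG in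
lemma rm14_sum_wt (hG : IsGood ℓ f) : ∑ θ ∈ f.roots.toFinset, wt f θ = f.natDegree := by
  have hE : IsAlgClosed E := hG.alg
  have h1 : ∀ θ ∈ f.roots.toFinset, wt f θ = f.roots.count θ := fun θ _ => (count_roots f).symm
  rw [Finset.sum_congr rfl h1, Multiset.toFinset_sum_count_eq]
  exact (IsAlgClosed.splits f).natDegree_eq_card_roots.symm

omit hG in
lemma rm14_deg_ne (hp : ℓ.Prime) (hG : IsGood ℓ f) : (f.natDegree : ZMod ℓ) ≠ 0 := by
  intro h
  rw [ZMod.natCast_eq_zero_iff] at h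
  exact hp.one_lt.ne' (Nat.Coprime.eq_one_of_dvd hG.coprime.symm h)

omit hG in
lemma rm14_wt_ne (hp : ℓ.Prime) (hG : IsGood ℓ f) {θ : E} (hθ : f.eval θ = 0) :
    (wt f θ : ZMod ℓ) ≠ 0 := by
  intro h
  rw [ZMod.natCast_eq_zero_iff] at h
  exact hp.one_lt.ne' (Nat.Coprime.eq_one_of_dvd (hG.mult θ hθ).symm h)

omit hG in
lemma rm14_mem (hG : IsGood ℓ f) {θ : E} : θ ∈ f.roots.toFinset ↔ f.eval θ = 0 := by
  rw [Multiset.mem_toFinset, mem_roots (f_ne_zero ℓ f), IsRoot.def]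

/-- The exponents normalised by their weighted sum are unique modulo `ℓ`. -/
lemma rm14_unique (hp : ℓ.Prime) {ζ : E} (hζ : IsPrimitiveRoot ζ ℓ) (n n' : E → ℤ)
    (h : (ram (fun θ => (wt f θ : ℤ) * n θ) : Jac ℓ f) = ram (fun θ => (wt f θ : ℤ) * n' θ))
    (hs : ∑ θ ∈ f.roots.toFinset, (wt f θ : ZMod ℓ) * (n θ : ZMod ℓ) =
      ∑ θ ∈ f.roots.toFinset, (wt f θ : ZMod ℓ) * (n' θ : ZMod ℓ)) :
    ∀ θ ∈ f.roots.toFinset, (n θ : ZMod ℓ) = n' θ := by
  haveI : Fact ℓ.Prime := ⟨hp⟩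
  have h1 : (ram (fun θ => (wt f θ : ℤ) * n θ - (wt f θ : ℤ) * n' θ) : Jac ℓ f) = 0 := by
    rw [ram_sub, h, sub_self]
  obtain ⟨c, hc⟩ := (ram_eq_zero_iff ζ hζ _).1 h1
  have h2 : ∀ θ ∈ f.roots.toFinset, (n θ : ZMod ℓ) - n' θ = c := by
    intro θ hθ
    have h0 := (rm14_mem hG).1 hθ
    have h3 := (ZMod.intCast_zmod_eq_zero_iff_dvd _ ℓ).2 (hc θ h0)
    push_cast at h3
    have h4 : (wt f θ : ZMod ℓ) * ((n θ : ZMod ℓ) - n' θ - c) = 0 := by
      linear_combination h3
    have h5 := (mul_eq_zero.1 h4).resolve_left (rm14_wt_ne hp hG h0)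
    exact sub_eq_zero.1 h5
  have h4 : (f.natDegree : ZMod ℓ) * c = 0 := by
    rw [← rm14_sum_wt hG]
    push_cast
    rw [Finset.sum_mul]
    have h5 : ∀ θ ∈ f.roots.toFinset, (wt f θ : ZMod ℓ) * (c : ZMod ℓ) =
        (wt f θ : ZMod ℓ) * (n θ : ZMod ℓ) - (wt f θ : ZMod ℓ) * (n' θ : ZMod ℓ) := by
      intro θ hθ
      rw [← h2 θ hθ, mul_sub]
    rw [Finset.sum_congr rfl h5, Finset.sum_sub_distrib, hs, sub_self]
  have h5 : (c : ZMod ℓ) = 0 := (mul_eq_zero.1 h4).resolve_left (rm14_deg_ne hp hG)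
  intro θ hθ
  rw [← sub_eq_zero, h2 θ hθ, h5]

/-- Normalised exponents exist. -/
lemma rm14_exists (hp : ℓ.Prime) {ζ : E} (hζ : IsPrimitiveRoot ζ ℓ) (Q : Jac ℓ f)
    (hQ : zJ ζ hζ.pow_eq_one Q = Q) :
    ∃ n : E → ℤ, Q = ram (fun θ => (wt f θ : ℤ) * n θ) ∧
      ∑ θ ∈ f.roots.toFinset, (wt f θ : ZMod ℓ) * (n θ : ZMod ℓ) = 0 := by
  haveI : Fact ℓ.Prime := ⟨hp⟩
  obtain ⟨e, he⟩ := exists_ram_of_zJ_eq ζ hζ Q hQ
  set n₀ : E → ℤ := fun θ => al ℓ (wt f θ) * e θ with hn₀
  have h0 : Q = ram (fun θ => (wt f θ : ℤ) * n₀ θ) := by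
    rw [he]
    apply ram_congr
    intro θ hθ
    have hw : ((al ℓ (wt f θ) * wt f θ : ℕ) : ℤ) = ((be ℓ (wt f θ) * ℓ + 1 : ℕ) : ℤ) := by
      rw [al_wt (N := ℓ) hθ]
    push_cast at hw
    refine ⟨-(be ℓ (wt f θ) * e θ), ?_⟩
    rw [hn₀]
    linear_combination (-e θ) * hw
  set a : ZMod ℓ := (∑ θ ∈ f.roots.toFinset, (wt f θ : ZMod ℓ) * (n₀ θ : ZMod ℓ)) /
    (f.natDegree : ZMod ℓ) with ha
  refine ⟨fun θ => n₀ θ - (a.val : ℤ), ?_, ?_⟩
  · have h1 : (ram (fun θ => (a.val : ℤ) * wt f θ) : Jac ℓ f) = 0 :=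
      (ram_eq_zero_iff ζ hζ _).2 ⟨a.val, fun _ _ => by simp⟩
    have h2 := ram_sub (N := ℓ) (f := f) (fun θ => (wt f θ : ℤ) * n₀ θ)
      (fun θ => (a.val : ℤ) * wt f θ)
    rw [h1, sub_zero] at h2
    rw [h0, ← h2]
    congr 1
    funext θ
    ring
  · have h3 : ∀ θ ∈ f.roots.toFinset,
        (wt f θ : ZMod ℓ) * (((n₀ θ - (a.val : ℤ) : ℤ)) : ZMod ℓ) =
        (wt f θ : ZMod ℓ) * (n₀ θ : ZMod ℓ) - (wt f θ : ZMod ℓ) * a := by
      intro θ _
      rw [Int.cast_sub, Int.cast_natCast, ZMod.natCast_zmod_val, mul_sub]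
    have h4 : ∑ θ ∈ f.roots.toFinset, (wt f θ : ZMod ℓ) = (f.natDegree : ZMod ℓ) := by
      rw [← rm14_sum_wt hG]
      push_cast
      rfl
    rw [Finset.sum_congr rfl h3, Finset.sum_sub_distrib, ← Finset.sum_mul, h4, ha,
      mul_div_cancel₀ _ (rm14_deg_ne hp hG), sub_self]

end Pool.Agent.Lib.MP_89bcae_ag.Wt

end

section

/-!
THE KUMMER FORMULA.

STATEMENT. Let `Q - Z Q = cl D`. There are `z θ ≠ 0` in `E` (for the roots `θ` of `f`) with
`(z θ)^N = ε^{D(θ,0)} ∏_P (θ - x(P))^{D(P)}`, where `ε = (-1)^(N+1)` and the factor of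
`P = (θ, 0)` is replaced by `(1/f'(θ))^{D(P)}`, such that for every automorphism `σ` in `Sym f` which
fixes `ζ` and `D`: if `σ (z θ) = ζ^{n(σ θ)} z (σ θ)` for all roots `θ`, then
`σ Q - Q = ram n = ∑ n(θ) [(θ, 0)]`.
-/

open Polynomial IsDedekindDomain

open scoped Classical

namespace Pool.Agent.Lib.MP_89bcae_ag.Wt

universe u

variable {N : ℕ} {E : Type u} [Field E] {f : E[X]} [hG : IsGood N f]

/-- The value at `θ` of `∏ (x - x(P)) ^ D(P)`, regularized if `θ` is one of the `x(P)`. -/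
noncomputable def uval (D : Pt N f →₀ ℤ) (θ : E) : E :=
  D.prod fun P n => (if P.x = θ then (cof f θ ^ al N (wt f θ))⁻¹ else θ - P.x) ^ n

omit hG in
lemma R21_eval (σ : Sym f) (θ : E) :
    f.eval ((σ : E ≃+* E) θ) = (σ : E ≃+* E) (f.eval θ) := by
  have h : f.map ((σ : E ≃+* E) : E →+* E) = f := mem_Sym.1 σ.2
  refine (congrArg (fun g : E[X] => g.eval ((σ : E ≃+* E) θ)) h.symm).trans ?_
  rw [Polynomial.eval_map]
  exact Polynomial.eval₂_hom ((σ : E ≃+* E) : E →+* E) θ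

omit hG in
lemma R21_sym_injective (σ : Sym f) : Function.Injective (Pt.sym σ : Pt N f → Pt N f) := by
  intro P P' hP
  have hx := congrArg Pt.x hP
  have hy := congrArg Pt.y hP
  exact Pt.ext ((σ : E ≃+* E).injective hx) ((σ : E ≃+* E).injective hy)

omit hG in
lemma R21_sym_rot (σ : Sym f) (ζ : E) (hζ : ζ ^ N = 1) (hσ : (σ : E ≃+* E) ζ = ζ) :
    (Pt.sym σ : Pt N f → Pt N f) ∘ Pt.rot ζ hζ = Pt.rot ζ hζ ∘ Pt.sym σ := by
  funext P
  refine Pt.ext ?_ ?_
  · rfl
  · change (σ : E ≃+* E) (ζ * P.y) = ζ * (σ : E ≃+* E) P.y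
    rw [map_mul, hσ]

lemma R21_atR_sym (σ : Sym f) (D : Pt N f →₀ ℤ) {θ : E} (hθ : f.eval θ = 0) :
    atR (D.mapDomain (Pt.sym σ)) ((σ : E ≃+* E) θ) = atR D θ := by
  have hσθ : f.eval ((σ : E ≃+* E) θ) = 0 := by rw [R21_eval, hθ, map_zero]
  rw [atR, atR, dif_pos hθ, dif_pos hσθ]
  have h : (⟨(σ : E ≃+* E) θ, 0, by rw [zero_pow hG.ne, hσθ]⟩ : Pt N f) =
      Pt.sym σ ⟨θ, 0, by rw [zero_pow hG.ne, hθ]⟩ := by
    refine Pt.ext rfl ?_
    change 0 = (σ : E ≃+* E) 0
    rw [map_zero]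
  rw [h, Finsupp.mapDomain_apply (R21_sym_injective σ)]

omit hG in
lemma R21_rot_injective {ζ : E} (hζ : ζ ^ N = 1) (h0 : ζ ≠ 0) :
    Function.Injective (Pt.rot ζ hζ : Pt N f → Pt N f) := by
  intro P P' hP
  have hx := congrArg Pt.x hP
  have hy := congrArg Pt.y hP
  exact Pt.ext hx (mul_left_cancel₀ h0 hy)

lemma R21_atR_sub (D D' : Pt N f →₀ ℤ) (θ : E) : atR (D - D') θ = atR D θ - atR D' θ := by
  unfold atR
  split_ifs
  · rfl
  · rfl

lemma R21_atR_rot {ζ : E} (hζ : ζ ^ N = 1) (h0 : ζ ≠ 0) (D : Pt N f →₀ ℤ) (θ : E) :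
    atR (D.mapDomain (Pt.rot ζ hζ)) θ = atR D θ := by
  unfold atR
  split_ifs with hθ
  · have h := R18_rot_ramPt (N := N) ζ hζ hθ
    conv_lhs => rw [show (⟨θ, 0, by rw [zero_pow hG.ne, hθ]⟩ : Pt N f) =
      Pt.rot ζ hζ ⟨θ, 0, by rw [zero_pow hG.ne, hθ]⟩ from h.symm]
    rw [Finsupp.mapDomain_apply (R21_rot_injective hζ h0)]
  · rfl

lemma R21_ordR (θ : E) (h : (FunField N f)ˣ) : ordR θ h = atR (div h) θ := by
  unfold ordR atR
  split_ifs
  · rfl
  · rfl

omit hG in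
lemma R21_eps {ζ : E} (hζ : IsPrimitiveRoot ζ N) (hN : 0 < N) :
    ζ ^ (∑ i ∈ Finset.range N, i) = (-1) ^ (N + 1) := by
  have h2 := Finset.sum_range_id_mul_two N
  rcases Nat.even_or_odd N with heven | hodd
  · obtain ⟨k, hk⟩ := heven
    have h1 : ζ ^ k = -1 := by
      have h3 : IsPrimitiveRoot (ζ ^ k) 2 := hζ.pow hN (by omega)
      exact h3.eq_neg_one_of_two_right
    have h4 : ∑ i ∈ Finset.range N, i = k * (N - 1) := by
      have h5 : (∑ i ∈ Finset.range N, i) * 2 = (k * (N - 1)) * 2 := by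
        rw [h2]
        nth_rw 1 [hk]
        ring
      omega
    have h6 : N + 1 = (N - 1) + 2 := by omega
    rw [h4, pow_mul, h1, h6, pow_add]
    norm_num
  · obtain ⟨k, hk⟩ := hodd
    have h1 : ∑ i ∈ Finset.range N, i = N * k := by
      have h3 : N - 1 = 2 * k := by omega
      rw [h3] at h2
      nlinarith
    rw [h1, pow_mul, hζ.pow_eq_one, one_pow, Even.neg_one_pow]
    exact ⟨k + 1, by omega⟩

/-- The sign in the Kummer formula. -/
lemma R21_eps_al {θ : E} (hθ : f.eval θ = 0) (k : ℤ) :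
    (((-1 : E) ^ (N + 1)) ^ (al N (wt f θ) * k)) = ((-1) ^ (N + 1)) ^ k := by
  rw [zpow_mul, zpow_natCast]
  congr 1
  have h1 := al_wt (N := N) hθ
  rcases Nat.even_or_odd N with heven | hodd
  · have h2 : Odd (al N (wt f θ) * wt f θ) := by
      rw [h1]
      exact (heven.mul_left _).add_one
    have h3 : Odd (al N (wt f θ)) := (Nat.odd_mul.1 h2).1
    have h4 : Odd (N + 1) := heven.add_one
    rw [h4.neg_one_pow, h3.neg_one_pow]
  · have h4 : Even (N + 1) := hodd.add_one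
    rw [h4.neg_one_pow, one_pow]

lemma R21_lc_xprod {θ : E} (hθ : f.eval θ = 0) (D : Pt N f →₀ ℤ) :
    (lc θ (xprod D) : E) = uval D θ := by
  rw [xprod, uval, Finsupp.prod, Finsupp.prod, map_prod, Units.coe_prod]
  refine Finset.prod_congr rfl fun P _ => ?_
  rw [map_zpow, Units.val_zpow_eq_zpow_val]
  congr 1
  split_ifs with hP
  · rw [hP, (lc_spec hθ).2.2.1]
  · rw [(lc_spec hθ).2.1 P.x hP]

lemma R21_nrm_div (ζ : E) (hζ : ζ ^ N = 1) (h0 : ζ ≠ 0) (h h' : (FunField N f)ˣ) :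
    nrm ζ hζ h0 (h / h') = nrm ζ hζ h0 h / nrm ζ hζ h0 h' := by
  rw [eq_div_iff_mul_eq', ← nrm_mul, div_mul_cancel]

lemma R21_nrm_sym (σ : Sym f) (ζ : E) (hζ : ζ ^ N = 1) (h0 : ζ ≠ 0)
    (hσ : (σ : E ≃+* E) ζ = ζ) (h : (FunField N f)ˣ) :
    nrm ζ hζ h0 (symU σ h) = symU σ (nrm ζ hζ h0 h) := by
  have key : ∀ i, (rotU ζ hζ h0)^[i] (symU σ h) = symU σ ((rotU ζ hζ h0)^[i] h) := by
    intro i
    induction i with
    | zero => rfl
    | succ i ih =>
      rw [Function.iterate_succ_apply', Function.iterate_succ_apply', ih,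
        symU_rotU σ ζ hζ h0 hσ]
  rw [nrm, nrm, map_prod]
  exact Finset.prod_congr rfl fun i _ => key i

theorem kummer_formula (ζ : E) (hζ : IsPrimitiveRoot ζ N) (Q : Jac N f) (D : Pt N f →₀ ℤ)
    (hQ : Q - zJ ζ hζ.pow_eq_one Q = cl D) :
    ∃ z : E → E, (∀ θ, f.eval θ = 0 → z θ ≠ 0 ∧
      z θ ^ N = ((-1) ^ (N + 1)) ^ atR D θ * uval D θ) ∧
      ∀ (σ : Sym f), (σ : E ≃+* E) ζ = ζ → D.mapDomain (Pt.sym σ) = D → ∀ n : E → ℤ,
        (∀ θ, f.eval θ = 0 →
          (σ : E ≃+* E) (z θ) = ζ ^ n ((σ : E ≃+* E) θ) * z ((σ : E ≃+* E) θ)) →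
        symJ σ Q - Q = ram fun θ => wt f θ * n θ := by
  have h0 : ζ ≠ 0 := hζ.ne_zero hG.ne
  obtain ⟨D₁, rfl⟩ := cl_surjective Q
  rw [zJ_cl] at hQ
  have h1 : cl (D₁ - D₁.mapDomain (Pt.rot ζ hζ.pow_eq_one) - D) = 0 := by
    rw [map_sub, map_sub, hQ, sub_self]
  obtain ⟨w₀, hw₀⟩ := exists_div_of_cl_eq_zero _ h1
  obtain ⟨c, hc⟩ := exists_nrm_eq ζ hζ h0 w₀
  obtain ⟨w, hw, hn⟩ := R18_exists_normalized ζ hζ.pow_eq_one h0 w₀ c _ hc
  rw [hw₀] at hw hn
  have hx : nrm ζ hζ.pow_eq_one h0 w = (xprod D)⁻¹ := by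
    rw [hn, R18_xprod_sub, R18_xprod_sub, xprod_rot, div_self', one_div]
  have hord : ∀ θ, ordR θ w = -atR D θ := by
    intro θ
    rw [R21_ordR, hw, R21_atR_sub, R21_atR_sub, R21_atR_rot _ h0, sub_self, zero_sub]
  refine ⟨fun θ => ζ ^ (al N (wt f θ) * atR D₁ θ) * (lc θ w : E)⁻¹, fun θ hθ => ⟨?_, ?_⟩, ?_⟩
  · exact mul_ne_zero (zpow_ne_zero _ h0) (inv_ne_zero (lc θ w).ne_zero)
  · have h2 := R18_lc_nrm ζ hζ.pow_eq_one h0 hθ w
    rw [hx, map_inv, Units.val_inv_eq_inv_val, R21_lc_xprod hθ, hord, ← zpow_natCast (ζ ^ _),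
      ← zpow_mul, mul_comm ((al N (wt f θ) : ℤ) * -atR D θ), zpow_mul, zpow_natCast,
      R21_eps hζ hG.pos, R21_eps_al hθ, zpow_neg] at h2
    have h3 : (ζ ^ (al N (wt f θ) * atR D₁ θ)) ^ N = 1 := by
      rw [← zpow_natCast, ← zpow_mul, mul_comm, zpow_mul, zpow_natCast, hζ.pow_eq_one, one_zpow]
    have hε : (((-1 : E) ^ (N + 1)) ^ atR D θ) * (((-1 : E) ^ (N + 1)) ^ atR D θ) = 1 := by
      rw [← mul_zpow, ← pow_add, Even.neg_one_pow ⟨N + 1, rfl⟩, one_zpow]
    rw [mul_pow, h3, one_mul, inv_pow]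
    rw [inv_eq_iff_eq_inv, mul_inv, h2, ← mul_assoc]
    have h4 : (((-1 : E) ^ (N + 1)) ^ atR D θ)⁻¹ * (((-1 : E) ^ (N + 1)) ^ atR D θ)⁻¹ = 1 := by
      rw [← mul_inv, hε, inv_one]
    rw [h4, one_mul]
  · intro σ hσζ hσD n hzn
    have hdiv : D₁.mapDomain (Pt.sym σ) - D₁ -
        (D₁.mapDomain (Pt.sym σ) - D₁).mapDomain (Pt.rot ζ hζ.pow_eq_one) =
        div (symU σ w / w) := by
      rw [R18_div_div, div_symU, hw]
      have h5 : ∀ A B : Pt N f →₀ ℤ, ∀ g : Pt N f → Pt N f,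
          (A - B).mapDomain g = A.mapDomain g - B.mapDomain g := fun A B g =>
        map_sub (Finsupp.mapDomain.addMonoidHom g) A B
      rw [h5, h5, h5, hσD, ← Finsupp.mapDomain_comp, ← Finsupp.mapDomain_comp,
        R21_sym_rot σ ζ hζ.pow_eq_one hσζ]
      abel
    have hnh : nrm ζ hζ.pow_eq_one h0 (symU σ w / w) = 1 := by
      rw [R21_nrm_div, R21_nrm_sym σ ζ _ h0 hσζ, hx, map_inv, symU_xprod, hσD, div_self']
    have hm := cl_eq_ram ζ hζ h0 (D₁.mapDomain (Pt.sym σ) - D₁) (symU σ w / w) hdiv hnh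
      (fun θ => al N (wt f θ) * atR D₁ (((σ⁻¹ : Sym f) : E ≃+* E) θ) - n θ -
        al N (wt f θ) * atR D₁ θ) (by
        intro θ' hθ'
        obtain ⟨θ, rfl⟩ := (σ : E ≃+* E).surjective θ'
        have hθ : f.eval θ = 0 := by
          rw [R21_eval] at hθ'
          exact (map_eq_zero_iff _ (σ : E ≃+* E).injective).1 hθ'
        have h6 := hzn θ hθ
        have hwσ : wt f ((σ : E ≃+* E) θ) = wt f θ := wt_map ((σ : E ≃+* E) : E →+* E) σ.2 θ
        simp only at h6
        have h7 : (((σ⁻¹ : Sym f) : E ≃+* E)) ((σ : E ≃+* E) θ) = θ :=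
          (σ : E ≃+* E).symm_apply_apply θ
        rw [map_mul, map_zpow₀, hσζ, map_inv₀] at h6
        rw [_root_.map_div, Units.val_div_eq_div_val, (lc_spec hθ).2.2.2.2.2 σ w, h7]
        rw [hwσ] at h6 ⊢
        have h8 : ((lc ((σ : E ≃+* E) θ) w : Eˣ) : E) ≠ 0 := (lc ((σ : E ≃+* E) θ) w).ne_zero
        have h9 : (σ : E ≃+* E) (lc θ w : E) ≠ 0 :=
          (map_ne_zero_iff _ (σ : E ≃+* E).injective).2 (lc θ w).ne_zero
        have h10 : ∀ m : ℤ, ζ ^ m ≠ 0 := fun m => zpow_ne_zero m h0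
        rw [zpow_sub₀ h0, zpow_sub₀ h0]
        have h11 := h10 (n ((σ : E ≃+* E) θ))
        have h12 := h10 (al N (wt f θ) * atR D₁ ((σ : E ≃+* E) θ))
        have h13 := h10 (al N (wt f θ) * atR D₁ θ)
        generalize ζ ^ n ((σ : E ≃+* E) θ) = M at *
        generalize ζ ^ (al N (wt f θ) * atR D₁ ((σ : E ≃+* E) θ)) = A at *
        generalize ζ ^ (al N (wt f θ) * atR D₁ θ) = B at *
        generalize (σ : E ≃+* E) (lc θ w : E) = S at *
        generalize ((lc ((σ : E ≃+* E) θ) w : Eˣ) : E) = T at *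
        field_simp at h6 ⊢
        linear_combination -h6)
    rw [symJ_cl, ← map_sub, hm]
    refine ram_congr _ _ fun θ' hθ' => ?_
    obtain ⟨θ, rfl⟩ := (σ : E ≃+* E).surjective θ'
    have hθ : f.eval θ = 0 := by
      rw [R21_eval] at hθ'
      exact (map_eq_zero_iff _ (σ : E ≃+* E).injective).1 hθ'
    have hwσ : wt f ((σ : E ≃+* E) θ) = wt f θ := wt_map ((σ : E ≃+* E) : E →+* E) σ.2 θ
    have h7 : (((σ⁻¹ : Sym f) : E ≃+* E)) ((σ : E ≃+* E) θ) = θ :=
      (σ : E ≃+* E).symm_apply_apply θ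
    simp only [R21_atR_sub, R21_atR_sym σ D₁ hθ, h7, hwσ]
    have hw : ((al N (wt f θ) * wt f θ : ℕ) : ℤ) = ((be N (wt f θ) * N + 1 : ℕ) : ℤ) := by
      rw [al_wt (N := N) hθ]
    push_cast at hw
    refine ⟨-(be N (wt f θ) * (atR D₁ θ - atR D₁ ((σ : E ≃+* E) θ))), ?_⟩
    linear_combination (-(atR D₁ θ - atR D₁ ((σ : E ≃+* E) θ))) * hw

end Pool.Agent.Lib.MP_89bcae_ag.Wt

end

section

/-!
ROW U01 (60-120 lines). `uval D θ = ∏_P (θ - x(P))^{D(P)}` (regularized): equivariance, examples.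

PROOF. `Finsupp.prod_mapDomain_index` or reindexing the product over the support along the bijection
`Pt.sym σ` of the points: `(P.sym σ).x = σ P.x`, `σ (f'(θ)) = f'(σ θ)` since `σ` fixes the coefficients
of `f`, `P.x = θ ↔ (P.sym σ).x = σ θ`. For `ramDiv e` the support is in the set of the points
`(θ', 0)`, `θ'` root of `f` (`f.roots.toFinset`; the point `(θ, 0)` exists for each root).
-/

open Polynomial

open scoped Classical

namespace Pool.Agent.Lib.MP_89bcae_ag.Wt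

universe u

variable {N : ℕ} {E : Type u} [Field E] {f : E[X]} [hG : IsGood N f]

omit hG in
lemma U01_sym_inj (σ : Sym f) : Function.Injective (Pt.sym (N := N) σ) := by
  intro P Q h
  ext
  · exact (σ : E ≃+* E).injective (congrArg Pt.x h)
  · exact (σ : E ≃+* E).injective (congrArg Pt.y h)


omit hG in
lemma cof_map {E' : Type u} [Field E'] {f' : E'[X]} (σ : E →+* E') (h : f.map σ = f')
    (θ : E) : cof f' (σ θ) = σ (cof f θ) := by
  unfold cof cofP
  rw [wt_map σ h θ, ← h, ← Polynomial.map_X (f := σ), ← Polynomial.map_C, ← Polynomial.map_sub,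
    ← Polynomial.map_pow, ← Polynomial.map_divByMonic _ ((monic_X_sub_C θ).pow _),
    Polynomial.eval_map, Polynomial.eval₂_hom]

omit hG in
lemma cof_sym (σ : Sym f) (θ : E) : cof f ((σ : E ≃+* E) θ) = (σ : E ≃+* E) (cof f θ) :=
  cof_map ((σ : E ≃+* E) : E →+* E) σ.2 θ

omit hG in
lemma wt_sym (σ : Sym f) (θ : E) : wt f ((σ : E ≃+* E) θ) = wt f θ :=
  wt_map ((σ : E ≃+* E) : E →+* E) σ.2 θ

lemma uval_ne_zero (D : Pt N f →₀ ℤ) {θ : E} : uval D θ ≠ 0 := by
  unfold uval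
  rw [Finsupp.prod, Finset.prod_ne_zero_iff]
  intro P _
  apply zpow_ne_zero
  split_ifs with h
  · exact inv_ne_zero (pow_ne_zero _ (cof_ne_zero (f_ne_zero N f) θ))
  · exact sub_ne_zero.mpr (Ne.symm h)

lemma sym_uval (σ : Sym f) (D : Pt N f →₀ ℤ) (hD : D.mapDomain (Pt.sym σ) = D) (θ : E) :
    (σ : E ≃+* E) (uval D θ) = uval D ((σ : E ≃+* E) θ) := by
  conv_rhs => rw [← hD]
  unfold uval
  rw [Finsupp.prod_mapDomain_index_inj (U01_sym_inj σ), Finsupp.prod, Finsupp.prod, map_prod]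
  apply Finset.prod_congr rfl
  intro P _
  rw [map_zpow₀]
  congr 1
  have hx : (P.sym σ).x = (σ : E ≃+* E) P.x := rfl
  by_cases h : P.x = θ
  · rw [if_pos h, if_pos (by rw [hx, h]), map_inv₀, map_pow, cof_sym, wt_sym]
  · rw [if_neg h, if_neg (by
      rw [hx]
      exact fun h' => h ((σ : E ≃+* E).injective h')), map_sub, hx]


lemma atR_ramDiv (e : E → ℤ) {θ : E} (hθ : f.eval θ = 0) :
    atR (ramDiv e : Pt N f →₀ ℤ) θ = e θ := by
  unfold atR
  rw [dif_pos hθ, ramDiv_apply, if_pos rfl]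

lemma uval_ramDiv (e : E → ℤ) {θ : E} (hθ : f.eval θ = 0) :
    uval (ramDiv e : Pt N f →₀ ℤ) θ = (cof f θ ^ al N (wt f θ))⁻¹ ^ e θ *
      ∏ θ' ∈ f.roots.toFinset.erase θ, (θ - θ') ^ e θ' := by
  have hf0 : f ≠ 0 := f_ne_zero N f
  have hr : ∀ t : E, t ∈ f.roots.toFinset ↔ f.eval t = 0 := by
    intro t
    rw [Multiset.mem_toFinset, mem_roots hf0, IsRoot.def]
  let S : Finset (Pt N f) := f.roots.toFinset.attach.map
    ⟨fun t => ⟨t.1, 0, by rw [zero_pow hG.ne, (hr t.1).mp t.2]⟩,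
      fun a b h => Subtype.ext (congrArg Pt.x h)⟩
  have hS : (ramDiv e : Pt N f →₀ ℤ).support ⊆ S := by
    intro P hP
    rw [Finsupp.mem_support_iff, ramDiv_apply] at hP
    have hy : P.y = 0 := by
      by_contra h
      exact hP (if_neg h)
    have hx : f.eval P.x = 0 := by rw [← P.eq, hy, zero_pow hG.ne]
    refine Finset.mem_map.mpr ⟨⟨P.x, (hr _).mpr hx⟩, Finset.mem_attach _ _, ?_⟩
    ext
    · rfl
    · exact hy.symm
  have h1 : uval (ramDiv e : Pt N f →₀ ℤ) θ = ∏ P ∈ S,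
      (if P.x = θ then (cof f θ ^ al N (wt f θ))⁻¹ else θ - P.x) ^ ((ramDiv e : Pt N f →₀ ℤ) P) :=
    Finsupp.prod_of_support_subset _ hS _ (fun _ _ => zpow_zero _)
  rw [h1, Finset.prod_map]
  have h2 : ∀ t ∈ f.roots.toFinset.attach,
      (fun P : Pt N f => (if P.x = θ then (cof f θ ^ al N (wt f θ))⁻¹ else θ - P.x) ^
        ((ramDiv e : Pt N f →₀ ℤ) P)) (⟨t.1, 0, by
          rw [zero_pow hG.ne, (hr t.1).mp t.2]⟩ : Pt N f)
      = (fun t' : E => (if t' = θ then (cof f θ ^ al N (wt f θ))⁻¹ else θ - t') ^ e t') t.1 := by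
    intro t _
    simp
  refine (Finset.prod_congr rfl h2).trans ?_
  rw [Finset.prod_attach f.roots.toFinset
    (fun t' : E => (if t' = θ then (cof f θ ^ al N (wt f θ))⁻¹ else θ - t') ^ e t'),
    ← Finset.mul_prod_erase _ _ ((hr θ).mpr hθ)]
  rw [if_pos rfl]
  congr 1
  apply Finset.prod_congr rfl
  intro t ht
  rw [if_neg (Finset.ne_of_mem_erase ht)]

end Pool.Agent.Lib.MP_89bcae_ag.Wt

end

section

/-!
# The roots of the curve at a place and the valuations of the functions `uval`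

ROW LA01 = the lemmas of this file.
Compare `Sup/L03.lean`, `L04.lean`, `L05.lean`. All the roots `A i = aeval t (a i)` are in the image of
`F[t]`, so that `v (A i - A j) = 1` if `a_i(s) ≠ a_j(s)` (`residue_eval`).
`val_uval` (analogue of `LocCtx.val_uval` in `L05.lean`, same proof with `d = 1`): for a point `P` of the
curve, the product over the `i` with `a_i(s) = r` of
`v (if P.x = A i then (f'(A i))⁻¹ else A i - P.x)` is
`v (if 1 < v P.x then P.x else 1) ^ card * v (if v (P.x - r) < 1 ∧ P.y ≠ 0 then P.y else 1) ^ ℓ`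
(`P.y ^ ℓ = ∏ (P.x - A i)`); the products over `D` of the two functions of `P` are fixed by `Γ`, so
their values are in `ϖ ^ ℤ[1/p]`; for the first one, its `m`-th power, `m = card ι`, is an `ℓ`-th power
(`v P.x ^ m = v P.y ^ ℓ` if `1 < v P.x`) and `m` is prime to `ℓ` (`Val.of_pow`).
-/

open Polynomial

open scoped Classical

namespace Pool.Agent.Lib.MP_89bcae_ag.Wt.Lns

open Pool.Agent.Lib.MP_89bcae_ag.Sup Pool.Agent.Lib.MP_89bcae_ag.Sup.Lns

universe u

variable {ι : Type} [Fintype ι] [LinearOrder ι] {F M : Type u} [Field F] [Field M] [Algebra F M]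
  {v : AbsoluteValue M ℝ} {s : F} {t : M} {a : ι → F[X]} {w : ι → ℕ}

/-- The polynomial `∏ (x - a_i(t)) ^ w_i`. -/
noncomputable def lineW {ι : Type} [Fintype ι] {F M : Type u} [Field F] [Field M] [Algebra F M]
    (w : ι → ℕ) (a : ι → F[X]) (t : M) : M[X] :=
  ∏ i, (X - C (aeval t (a i))) ^ w i

omit [LinearOrder ι] in
lemma eval_lineW (x : M) : (lineW w a t).eval x = ∏ i, (x - aeval t (a i)) ^ w i := by
  unfold lineW
  rw [eval_prod]
  simp

omit [LinearOrder ι] in
lemma lineW_ne_zero : lineW w a t ≠ 0 := by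
  unfold lineW
  exact Finset.prod_ne_zero_iff.2 fun i _ => pow_ne_zero _ (X_sub_C_ne_zero _)

omit [LinearOrder ι] in
lemma lineW_natDegree : (lineW w a t).natDegree = ∑ i, w i := by
  unfold lineW
  rw [natDegree_prod_of_monic _ _ fun i _ => (monic_X_sub_C _).pow _]
  simp

omit [LinearOrder ι] in
lemma eval_lineW_eq_zero (hw : ∀ i, w i ≠ 0) {x : M} :
    (lineW w a t).eval x = 0 ↔ ∃ i, x = aeval t (a i) := by
  rw [eval_lineW, Finset.prod_eq_zero_iff]
  constructor
  · rintro ⟨i, -, hi⟩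
    exact ⟨i, sub_eq_zero.1 ((pow_eq_zero_iff (hw i)).1 hi)⟩
  · rintro ⟨i, hi⟩
    exact ⟨i, Finset.mem_univ i, by rw [sub_eq_zero.2 hi, zero_pow (hw i)]⟩

omit [LinearOrder ι] in
lemma root_lineW (hw : ∀ i, w i ≠ 0) (i : ι) : (lineW w a t).eval (aeval t (a i)) = 0 :=
  (eval_lineW_eq_zero hw).2 ⟨i, rfl⟩

omit [LinearOrder ι] in
lemma mem_rts_lineW (hw : ∀ i, w i ≠ 0) {x : M} :
    x ∈ rts (lineW w a t) ↔ ∃ i, x = aeval t (a i) := by
  rw [mem_rts lineW_ne_zero, eval_lineW_eq_zero hw]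

omit [LinearOrder ι] in
lemma prod_rts_lineW (hw : ∀ i, w i ≠ 0) {N : Type*} [CommMonoid N]
    (hinj : Function.Injective fun i => aeval t (a i)) (φ : M → N) :
    ∏ θ ∈ rts (lineW w a t), φ θ = ∏ i, φ (aeval t (a i)) := by
  have h1 : rts (lineW w a t) = Finset.univ.image (fun i => aeval t (a i)) := by
    ext x
    rw [mem_rts_lineW hw, Finset.mem_image]
    constructor
    · rintro ⟨i, hi⟩
      exact ⟨i, Finset.mem_univ i, hi.symm⟩
    · rintro ⟨i, -, hi⟩
      exact ⟨i, hi.symm⟩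
  rw [h1, Finset.prod_image fun i _ j _ hij => hinj hij]

omit [LinearOrder ι] in
lemma sum_rts_lineW (hw : ∀ i, w i ≠ 0) {N : Type*} [AddCommMonoid N]
    (hinj : Function.Injective fun i => aeval t (a i)) (φ : M → N) :
    ∑ θ ∈ rts (lineW w a t), φ θ = ∑ i, φ (aeval t (a i)) := by
  have h1 : rts (lineW w a t) = Finset.univ.image (fun i => aeval t (a i)) := by
    ext x
    rw [mem_rts_lineW hw, Finset.mem_image]
    constructor
    · rintro ⟨i, hi⟩
      exact ⟨i, Finset.mem_univ i, hi.symm⟩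
    · rintro ⟨i, -, hi⟩
      exact ⟨i, hi.symm⟩
  rw [h1, Finset.sum_image fun i _ j _ hij => hinj hij]

omit [LinearOrder ι] in
/-- The multiplicities of the roots. -/
lemma wt_lineW (hinj : Function.Injective fun i => aeval t (a i)) (i : ι) :
    wt (lineW w a t) (aeval t (a i)) = w i := by
  have h1 : lineW w a t = (X - C (aeval t (a i))) ^ w i *
      ∏ j ∈ Finset.univ.erase i, (X - C (aeval t (a j))) ^ w j := by
    unfold lineW
    exact (Finset.mul_prod_erase Finset.univ (fun j => (X - C (aeval t (a j))) ^ w j)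
      (Finset.mem_univ i)).symm
  have h2 : (∏ j ∈ Finset.univ.erase i, (X - C (aeval t (a j))) ^ w j).eval (aeval t (a i)) ≠ 0 := by
    rw [eval_prod, Finset.prod_ne_zero_iff]
    intro j hj
    rw [eval_pow, eval_sub, eval_X, eval_C]
    refine pow_ne_zero _ (sub_ne_zero.2 fun h0 => Finset.ne_of_mem_erase hj ?_)
    exact (hinj h0).symm
  unfold wt
  rw [h1, rootMultiplicity_mul (by rw [← h1]; exact lineW_ne_zero),
    rootMultiplicity_X_sub_C_pow, rootMultiplicity_eq_zero h2, add_zero]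

/-- The values of the cofactors. -/
lemma cof_lineW (hinj : Function.Injective fun i => aeval t (a i)) (i : ι) :
    cof (lineW w a t) (aeval t (a i)) =
      ∏ j ∈ Finset.univ.erase i, (aeval t (a i) - aeval t (a j)) ^ w j := by
  have h1 : lineW w a t = (X - C (aeval t (a i))) ^ w i *
      ∏ j ∈ Finset.univ.erase i, (X - C (aeval t (a j))) ^ w j := by
    unfold lineW
    exact (Finset.mul_prod_erase Finset.univ (fun j => (X - C (aeval t (a j))) ^ w j)
      (Finset.mem_univ i)).symm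
  have h2 : cofP (lineW w a t) (aeval t (a i)) =
      ∏ j ∈ Finset.univ.erase i, (X - C (aeval t (a j))) ^ w j := by
    have h3 := wt_mul (lineW w a t) (aeval t (a i))
    rw [wt_lineW hinj] at h3
    have h4 : (X - C (aeval t (a i))) ^ w i ≠ 0 := pow_ne_zero _ (X_sub_C_ne_zero _)
    exact mul_left_cancel₀ h4 (h3.trans h1)
  unfold cof
  rw [h2, eval_prod]
  simp

omit [Fintype ι] [LinearOrder ι] in
private lemma la01_res (h : LocCtx v s t) (i : ι) :
    v (aeval t (a i) - algebraMap F M ((a i).eval s)) < 1 :=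
  h.residue_eval h.lt_one (a i)

omit [Fintype ι] [LinearOrder ι] in
lemma v_line_le (h : LocCtx v s t) (i : ι) : v (aeval t (a i)) ≤ 1 :=
  h.v_le_one (la01_res h i)

omit [Fintype ι] [LinearOrder ι] in
lemma v_line_sub (h : LocCtx v s t) {i j : ι} (hij : (a i).eval s ≠ (a j).eval s) :
    v (aeval t (a i) - aeval t (a j)) = 1 := by
  have h1 := h.residue_eval h.lt_one (a i - a j)
  rw [map_sub (aeval (R := F) t)] at h1
  refine h.v_eq_one h1 ?_
  rw [eval_sub]
  exact sub_ne_zero.2 hij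

omit [Fintype ι] [LinearOrder ι] in
/-- At a simple root `s` of the polynomial `Q`, the residue of `Q(t) / (t - s)` is `Q'(s)`. -/
lemma residue_simple (h : LocCtx v s t) {Q : F[X]} (hQ : Q.eval s = 0) :
    v (aeval t Q / (t - algebraMap F M s) - algebraMap F M ((derivative Q).eval s)) < 1 := by
  obtain ⟨q, hq⟩ := dvd_iff_isRoot.2 hQ
  have h1 : aeval t Q / (t - algebraMap F M s) = aeval t q := by
    rw [hq, map_mul, map_sub (aeval (R := F) t), aeval_X, aeval_C,
      mul_div_cancel_left₀ _ (sub_ne_zero.2 h.ne)]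
  have h2 : (derivative Q).eval s = q.eval s := by
    rw [hq]
    simp
  rw [h1, h2]
  exact h.residue_eval h.lt_one q

omit [Fintype ι] [LinearOrder ι] in
lemma v_line_node (h : LocCtx v s t) {i j : ι} (hij : (a i).eval s = (a j).eval s)
    (hd : (derivative (a i - a j)).eval s ≠ 0) :
    v (aeval t (a i) - aeval t (a j)) = v (t - algebraMap F M s) := by
  have h1 := residue_simple h (Q := a i - a j) (by rw [eval_sub, hij, sub_self])
  have h2 := h.v_eq_one h1 hd
  have h3 : v (t - algebraMap F M s) ≠ 0 := v.ne_zero (sub_ne_zero.2 h.ne)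
  rw [map_div₀, map_sub (aeval (R := F) t), div_eq_one_iff_eq h3] at h2
  exact h2

/-! ### The valuations -/

omit [Fintype ι] [LinearOrder ι] in
private lemma la01_sub_comm (x y : M) : v (x - y) = v (y - x) := by
  rw [← neg_sub, map_neg_eq_map]

private lemma la01_sym_injective {ℓ : ℕ} {f : M[X]} (σ : Sym f) :
    Function.Injective (Pt.sym σ : Pt ℓ f → Pt ℓ f) := by
  intro P Q hPQ
  have hx : (σ : M ≃+* M) P.x = (σ : M ≃+* M) Q.x := congrArg Pt.x hPQ
  have hy : (σ : M ≃+* M) P.y = (σ : M ≃+* M) Q.y := congrArg Pt.y hPQ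
  exact Pt.ext ((σ : M ≃+* M).injective hx) ((σ : M ≃+* M).injective hy)

/-- A product over an invariant divisor of equivariant quantities is invariant. -/
private lemma la01_prod_fixed {ℓ : ℕ} {f : M[X]} (σ : Sym f) (D : Pt ℓ f →₀ ℤ)
    (hD : D.mapDomain (Pt.sym σ) = D) (φ : Pt ℓ f → M)
    (hφ : ∀ P, (σ : M ≃+* M) (φ P) = φ (P.sym σ)) :
    (σ : M ≃+* M) (D.prod fun P n => φ P ^ n) = D.prod fun P n => φ P ^ n := by
  conv_rhs => rw [← hD, Finsupp.prod_mapDomain_index_inj (la01_sym_injective σ)]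
  rw [map_finsuppProd]
  refine Finsupp.prod_congr ?_
  intro P _
  rw [map_zpow₀, hφ]

private lemma la01_prod_ne_zero {ℓ : ℕ} {f : M[X]} (D : Pt ℓ f →₀ ℤ) (φ : Pt ℓ f → M)
    (hφ : ∀ P, φ P ≠ 0) : (D.prod fun P n => φ P ^ n) ≠ 0 :=
  Finset.prod_ne_zero_iff.2 fun P _ => zpow_ne_zero _ (hφ P)

private lemma la01_v_prod {ℓ : ℕ} {f : M[X]} (D : Pt ℓ f →₀ ℤ) (φ : Pt ℓ f → M) :
    v (D.prod fun P n => φ P ^ n) = ∏ P ∈ D.support, v (φ P) ^ D P := by
  rw [Finsupp.prod, map_prod]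
  refine Finset.prod_congr rfl ?_
  intro P _
  rw [map_zpow₀]

/-- The values of `∏ φ(P) ^ D(P)` for an equivariant function `φ`. -/
private lemma la01_val {ℓ p : ℕ} {f : M[X]} {ϖ : ℝ} {Γ : Subgroup (Sym f)}
    (hΓ : LocGrp p F v t ϖ Γ) (D : Pt ℓ f →₀ ℤ) (hD : ∀ σ ∈ Γ, D.mapDomain (Pt.sym σ) = D)
    (φ : Pt ℓ f → M) (h0 : ∀ P, φ P ≠ 0)
    (hφ : ∀ σ ∈ Γ, ∀ P, (σ : M ≃+* M) (φ P) = φ (P.sym σ)) :
    Val p ϖ (∏ P ∈ D.support, v (φ P) ^ D P) := by
  rw [← la01_v_prod]
  exact hΓ.disc _ (la01_prod_ne_zero D φ h0) fun σ hσ =>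
    la01_prod_fixed σ D (hD σ hσ) φ (hφ σ hσ)

omit [LinearOrder ι] in
private lemma la01_v_eq {ℓ : ℕ} (P : Pt ℓ (lineW w a t)) :
    ∏ i, v (P.x - aeval t (a i)) ^ w i = v P.y ^ ℓ := by
  rw [← map_pow, P.eq, eval_lineW, map_prod]
  exact Finset.prod_congr rfl fun i _ => (map_pow v _ _).symm

omit [Fintype ι] [LinearOrder ι] in
/-- `v (x - A i) = v x` for `x` large. -/
private lemma la01_big (h : LocCtx v s t) {x : M} (hx : 1 < v x) (i : ι) :
    v (aeval t (a i) - x) = v x := by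
  have hθ1 := v_line_le (a := a) h i
  apply le_antisymm
  · have h2 : aeval t (a i) - x = aeval t (a i) + -x := by ring
    rw [h2]
    refine (h.nonarch _ _).trans (max_le (hθ1.trans hx.le) ?_)
    rw [map_neg_eq_map]
  · have h2 : x = -(aeval t (a i) - x) + aeval t (a i) := by ring
    have h1 := h.nonarch (-(aeval t (a i) - x)) (aeval t (a i))
    rw [← h2, map_neg_eq_map] at h1
    rcases le_max_iff.1 h1 with h3 | h3
    · exact h3
    · exact absurd (h3.trans hθ1) (not_le.2 hx)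

omit [Fintype ι] [LinearOrder ι] in
/-- `v (x - A i) = 1` if the residues are different. -/
private lemma la01_far (h : LocCtx v s t) {x : M} {r : F} (hx : v (x - algebraMap F M r) < 1)
    {i : ι} (hi : (a i).eval s ≠ r) : v (x - aeval t (a i)) = 1 := by
  have h1 := la01_res (a := a) h i
  have h2 : v (x - aeval t (a i) - algebraMap F M (r - (a i).eval s)) < 1 := by
    have h3 : x - aeval t (a i) - algebraMap F M (r - (a i).eval s) =
        (x - algebraMap F M r) + -(aeval t (a i) - algebraMap F M ((a i).eval s)) := by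
      rw [map_sub]
      ring
    rw [h3]
    refine (h.nonarch _ _).trans_lt (max_lt hx ?_)
    rw [map_neg_eq_map]
    exact h1
  exact h.v_eq_one h2 (sub_ne_zero.2 hi.symm)

/-- The part of `P` near `r`. -/
private noncomputable def la01_psi (v : AbsoluteValue M ℝ) (w : ι → ℕ) (a : ι → F[X]) (t : M)
    {ℓ : ℕ} (r : F) (P : Pt ℓ (lineW w a t)) : M :=
  if v (P.x - algebraMap F M r) < 1 then
    (if P.y ≠ 0 then P.y else (cof (lineW w a t) P.x ^ be ℓ (wt (lineW w a t) P.x))⁻¹)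
  else 1

private lemma la01_factor (h : LocCtx v s t) (hw : ∀ i, w i ≠ 0)
    (hinj : Function.Injective fun i => aeval t (a i)) {ℓ : ℕ} [hG : IsGood ℓ (lineW w a t)]
    (r : F) (P : Pt ℓ (lineW w a t)) :
    ∏ i ∈ Finset.univ.filter (fun i => (a i).eval s = r),
      v (if P.x = aeval t (a i) then (cof (lineW w a t) (aeval t (a i)) ^
          al ℓ (wt (lineW w a t) (aeval t (a i))))⁻¹
        else aeval t (a i) - P.x) ^ w i =
    v (if 1 < v P.x then P.x else 1) ^
        (∑ i ∈ Finset.univ.filter (fun i => (a i).eval s = r), w i) *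
      v (la01_psi v w a t r P) ^ ℓ := by
  unfold la01_psi
  by_cases hbig : 1 < v P.x
  · have hnr : ¬ v (P.x - algebraMap F M r) < 1 := by
      intro h1
      exact absurd hbig (not_lt.2 (h.v_le_one h1))
    rw [if_pos hbig, if_neg hnr, map_one, one_pow, mul_one, ← Finset.prod_pow_eq_pow_sum]
    refine Finset.prod_congr rfl fun i _ => ?_
    rw [if_neg, la01_big h hbig i]
    intro h1
    rw [h1] at hbig
    exact absurd hbig (not_lt.2 (v_line_le h i))
  · rw [if_neg hbig, map_one, one_pow, one_mul]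
    by_cases hr : v (P.x - algebraMap F M r) < 1
    · rw [if_pos hr]
      by_cases hy : P.y = 0
      · rw [if_neg (fun hh => hh hy)]
        have hPx : (lineW w a t).eval P.x = 0 := by
          rw [← P.eq, hy, zero_pow hG.ne]
        obtain ⟨i₀, hi₀⟩ := (eval_lineW_eq_zero hw).1 hPx
        have hi₀r : (a i₀).eval s = r := by
          rw [hi₀] at hr
          exact h.residue_unique (la01_res h i₀) hr
        have hmem : i₀ ∈ Finset.univ.filter (fun i => (a i).eval s = r) :=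
          Finset.mem_filter.2 ⟨Finset.mem_univ _, hi₀r⟩
        have hcof0 : cof (lineW w a t) (aeval t (a i₀)) ≠ 0 := cof_ne_zero lineW_ne_zero _
        rw [← Finset.mul_prod_erase _ _ hmem, if_pos hi₀, map_inv₀, hi₀]
        have e1 : ∏ i ∈ (Finset.univ.filter (fun i => (a i).eval s = r)).erase i₀,
            v (if aeval t (a i₀) = aeval t (a i) then (cof (lineW w a t) (aeval t (a i)) ^
              al ℓ (wt (lineW w a t) (aeval t (a i))))⁻¹
              else aeval t (a i) - aeval t (a i₀)) ^ w i =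
            ∏ i ∈ (Finset.univ.filter (fun i => (a i).eval s = r)).erase i₀,
              v (aeval t (a i₀) - aeval t (a i)) ^ w i := by
          refine Finset.prod_congr rfl ?_
          intro i hi
          rw [if_neg, la01_sub_comm]
          intro h1
          exact Finset.ne_of_mem_erase hi (hinj h1).symm
        have e2 : ∏ i ∈ (Finset.univ.filter (fun i => (a i).eval s = r)).erase i₀,
            v (aeval t (a i₀) - aeval t (a i)) ^ w i =
            ∏ i ∈ Finset.univ.erase i₀, v (aeval t (a i₀) - aeval t (a i)) ^ w i := by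
          apply Finset.prod_subset (Finset.erase_subset_erase _ (Finset.filter_subset _ _))
          intro i hi hn
          rw [Finset.mem_erase] at hi
          rw [v_line_sub h, one_pow]
          intro h1
          exact hn (Finset.mem_erase.2 ⟨hi.1, Finset.mem_filter.2 ⟨Finset.mem_univ _,
            h1.symm.trans hi₀r⟩⟩)
        have e3 : ∏ i ∈ Finset.univ.erase i₀, v (aeval t (a i₀) - aeval t (a i)) ^ w i =
            v (cof (lineW w a t) (aeval t (a i₀))) := by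
          rw [cof_lineW hinj, map_prod]
          exact Finset.prod_congr rfl fun i _ => (map_pow v _ _).symm
        have e4 : al ℓ (w i₀) * w i₀ = be ℓ (w i₀) * ℓ + 1 := by
          have h5 := al_wt (N := ℓ) (root_lineW (t := t) (a := a) hw i₀)
          rwa [wt_lineW hinj] at h5
        have hv0 : v (cof (lineW w a t) (aeval t (a i₀))) ≠ 0 := v.ne_zero hcof0
        rw [e1, e2, e3, wt_lineW hinj, map_pow, map_inv₀, map_pow, inv_pow, inv_pow, ← pow_mul,
          ← pow_mul, e4, pow_succ, mul_inv, mul_assoc, inv_mul_cancel₀ hv0, mul_one]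
      · rw [if_pos hy, ← la01_v_eq P]
        have hne : ∀ i, P.x ≠ aeval t (a i) := by
          intro i h1
          apply hy
          have h2 := P.eq
          rw [h1, root_lineW hw] at h2
          exact (pow_eq_zero_iff hG.ne).1 h2
        have e1 : ∏ i, v (P.x - aeval t (a i)) ^ w i =
            ∏ i ∈ Finset.univ.filter (fun i => (a i).eval s = r),
              v (P.x - aeval t (a i)) ^ w i := by
          symm
          apply Finset.prod_subset (Finset.filter_subset _ _)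
          intro i _ hn
          rw [la01_far h hr, one_pow]
          intro h1
          exact hn (Finset.mem_filter.2 ⟨Finset.mem_univ _, h1⟩)
        rw [e1]
        refine Finset.prod_congr rfl ?_
        intro i _
        rw [if_neg (hne i), la01_sub_comm]
    · rw [if_neg hr, map_one, one_pow]
      refine Finset.prod_eq_one ?_
      intro i hi
      have hir : (a i).eval s = r := (Finset.mem_filter.1 hi).2
      have hθr := la01_res (a := a) h i
      rw [hir] at hθr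
      have hθ1 := v_line_le (a := a) h i
      rw [if_neg (by intro h1; rw [h1] at hr; exact hr hθr)]
      have h5 : v (aeval t (a i) - P.x) = 1 := by
        apply le_antisymm
        · have h2 : aeval t (a i) - P.x = aeval t (a i) + -P.x := by ring
          rw [h2]
          refine (h.nonarch _ _).trans (max_le hθ1 ?_)
          rw [map_neg_eq_map]
          exact not_lt.1 hbig
        · by_contra hlt
          apply hr
          have h2 : P.x - algebraMap F M r =
              -(aeval t (a i) - P.x) + (aeval t (a i) - algebraMap F M r) := by ring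
          rw [h2]
          refine lt_of_le_of_lt (h.nonarch _ _) (max_lt ?_ hθr)
          rw [map_neg_eq_map]
          exact not_le.1 hlt
      rw [h5, one_pow]

/-- The valuations of the functions `uval D`, for an invariant divisor `D`. -/
theorem val_uval_line (h : LocCtx v s t) (hw : ∀ i, w i ≠ 0)
    (hinj : Function.Injective fun i => aeval t (a i)) {ℓ p : ℕ} [hG : IsGood ℓ (lineW w a t)]
    {ϖ : ℝ} {Γ : Subgroup (Sym (lineW w a t))}
    (hΓ : LocGrp p F v t ϖ Γ) (D : Pt ℓ (lineW w a t) →₀ ℤ)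
    (hD : ∀ σ ∈ Γ, D.mapDomain (Pt.sym σ) = D) (r : F) :
    Val p (ϖ ^ ℓ) (∏ i ∈ Finset.univ.filter (fun i => (a i).eval s = r),
      v (uval D (aeval t (a i))) ^ w i) := by
  have hsymx : ∀ (σ : Sym (lineW w a t)) (P : Pt ℓ (lineW w a t)),
      (P.sym σ).x = (σ : M ≃+* M) P.x := fun σ P => rfl
  have hsymy : ∀ (σ : Sym (lineW w a t)) (P : Pt ℓ (lineW w a t)),
      (P.sym σ).y = (σ : M ≃+* M) P.y := fun σ P => rfl
  have hprod2 : ∏ i ∈ Finset.univ.filter (fun i => (a i).eval s = r),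
      v (uval D (aeval t (a i))) ^ w i =
      (∏ P ∈ D.support, v (if 1 < v P.x then P.x else 1) ^ D P) ^
        (∑ i ∈ Finset.univ.filter (fun i => (a i).eval s = r), w i) *
      (∏ P ∈ D.support, v (la01_psi v w a t r P) ^ D P) ^ ℓ := by
    have hcomm : ∀ (y : ℝ) (n : ℤ) (m : ℕ), (y ^ n) ^ m = (y ^ m) ^ n := by
      intro y n m
      rw [← zpow_natCast, ← zpow_natCast, ← zpow_mul, ← zpow_mul, mul_comm]
    have e1 : ∀ i ∈ Finset.univ.filter (fun i => (a i).eval s = r),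
        v (uval D (aeval t (a i))) ^ w i = ∏ P ∈ D.support,
        (v (if P.x = aeval t (a i) then (cof (lineW w a t) (aeval t (a i)) ^
          al ℓ (wt (lineW w a t) (aeval t (a i))))⁻¹
          else aeval t (a i) - P.x) ^ w i) ^ D P := by
      intro i _
      unfold uval
      rw [Finsupp.prod, map_prod, ← Finset.prod_pow]
      refine Finset.prod_congr rfl ?_
      intro P _
      rw [map_zpow₀]
      exact hcomm _ _ _
    rw [Finset.prod_congr rfl e1, Finset.prod_comm, ← Finset.prod_pow, ← Finset.prod_pow,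
      ← Finset.prod_mul_distrib]
    refine Finset.prod_congr rfl ?_
    intro P _
    rw [Finset.prod_zpow, la01_factor h hw hinj r P, mul_zpow]
    congr 1
    · rw [← zpow_natCast, ← zpow_natCast, ← zpow_mul, ← zpow_mul, mul_comm]
    · rw [← zpow_natCast, ← zpow_natCast, ← zpow_mul, ← zpow_mul, mul_comm]
  rw [hprod2]
  -- the big part
  have hX : Val p ϖ (∏ P ∈ D.support, v (if 1 < v P.x then P.x else 1) ^ D P) := by
    refine la01_val hΓ D hD (fun P => if 1 < v P.x then P.x else 1) ?_ ?_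
    · intro P
      show (if 1 < v P.x then P.x else 1) ≠ 0
      split_ifs with h1
      · intro h0
        rw [h0, map_zero] at h1
        exact absurd h1 (not_lt.2 zero_le_one)
      · exact one_ne_zero
    · intro σ hσ P
      simp only [hsymx, hΓ.inv σ hσ]
      split_ifs
      · rfl
      · exact map_one _
  have hbigprod : ∀ P : Pt ℓ (lineW w a t), 1 < v P.x →
      v P.x ^ (∑ i, w i) = v P.y ^ ℓ := by
    intro P hP
    rw [← la01_v_eq P, ← Finset.prod_pow_eq_pow_sum]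
    refine Finset.prod_congr rfl fun i _ => ?_
    rw [la01_sub_comm, la01_big h hP i]
  have hX' : Val p ϖ (∏ P ∈ D.support, v (if 1 < v P.x then P.y else 1) ^ D P) := by
    refine la01_val hΓ D hD (fun P => if 1 < v P.x then P.y else 1) ?_ ?_
    · intro P
      show (if 1 < v P.x then P.y else 1) ≠ 0
      split_ifs with h1
      · intro h0
        have h2 := hbigprod P h1
        rw [h0, map_zero, zero_pow hG.ne] at h2
        have h3 : 0 < v P.x ^ (∑ i, w i) := pow_pos (zero_lt_one.trans h1) _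
        exact h3.ne' h2
      · exact one_ne_zero
    · intro σ hσ P
      simp only [hsymx, hsymy, hΓ.inv σ hσ]
      split_ifs
      · rfl
      · exact map_one _
  have hXm : (∏ P ∈ D.support, v (if 1 < v P.x then P.x else 1) ^ D P) ^ (∑ i, w i) =
      (∏ P ∈ D.support, v (if 1 < v P.x then P.y else 1) ^ D P) ^ ℓ := by
    rw [← Finset.prod_pow, ← Finset.prod_pow]
    refine Finset.prod_congr rfl ?_
    intro P _
    have e1 : ∀ (x : ℝ) (m : ℕ), (x ^ D P) ^ m = (x ^ m) ^ D P := by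
      intro x m
      rw [← zpow_natCast, ← zpow_natCast, ← zpow_mul, ← zpow_mul, mul_comm]
    rw [e1, e1]
    congr 1
    split_ifs with h1
    · exact hbigprod P h1
    · simp
  have hXpos : 0 < ∏ P ∈ D.support, v (if 1 < v P.x then P.x else 1) ^ D P := by
    refine Finset.prod_pos ?_
    intro P _
    refine zpow_pos ?_ _
    split_ifs with h1
    · exact zero_lt_one.trans h1
    · rw [map_one]; exact one_pos
  have hmℓ : (∑ i, w i).Coprime ℓ := by
    have h1 := hG.coprime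
    rwa [lineW_natDegree] at h1
  have hXval : Val p (ϖ ^ ℓ) (∏ P ∈ D.support, v (if 1 < v P.x then P.x else 1) ^ D P) := by
    refine Val.of_pow hΓ.pos hΓ.lt_one hmℓ hXpos hX ?_
    rw [hXm]
    exact Val.pow_self ℓ hX'
  -- the part near `r`
  have hB : Val p ϖ (∏ P ∈ D.support, v (la01_psi v w a t r P) ^ D P) := by
    refine la01_val hΓ D hD (fun P => la01_psi v w a t r P) ?_ ?_
    · intro P
      show la01_psi v w a t r P ≠ 0
      unfold la01_psi
      split_ifs with h1 h2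
      · exact h2
      · exact inv_ne_zero (pow_ne_zero _ (cof_ne_zero lineW_ne_zero _))
      · exact one_ne_zero
    · intro σ hσ P
      have e1 : v ((σ : M ≃+* M) P.x - algebraMap F M r) = v (P.x - algebraMap F M r) := by
        rw [← hΓ.inv σ hσ (P.x - algebraMap F M r), map_sub (σ : M ≃+* M), hΓ.fix σ hσ]
      have e2 : ((σ : M ≃+* M) P.y ≠ 0) = (P.y ≠ 0) := by
        rw [ne_eq, map_eq_zero_iff _ (σ : M ≃+* M).injective]
      unfold la01_psi
      simp only [hsymx, hsymy, e1, e2]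
      split_ifs
      · rfl
      · rw [map_inv₀, map_pow, ← cof_sym, wt_sym]
      · exact map_one _
  exact Val.mul (Val.pow hXval _) (Val.pow_self ℓ hB)

end Pool.Agent.Lib.MP_89bcae_ag.Wt.Lns

end
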