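import Mathlib
import Pool.Agent.Lib.MP_89bcae_ag.Bk.K022
import Pool.Agent.Lib.MP_89bcae_ag.Bk.K024

namespace Pool.Agent.Lib.MP_89bcae_ag.Sup
end Pool.Agent.Lib.MP_89bcae_ag.Sup
namespace Pool.Agent.Lib.MP_89bcae_ag.Sup.Lns
end Pool.Agent.Lib.MP_89bcae_ag.Sup.Lns

section

/-!
# The ramified classes, with exponents normalized by the multiplicities
-/

open Polynomial

open scoped Classical

namespace Pool.Agent.Lib.MP_89bcae_ag.Wt

universe u

variable {N : ℕ} {E : Type u} [Field E] {f : E[X]}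

section

variable [hG : IsGood N f]

/-- The class of the ramified divisor with exponents `wt θ * n θ`. -/
noncomputable def rm (n : E → ℤ) : Jac N f := ram fun θ => wt f θ * n θ

lemma rm_congr (n n' : E → ℤ) (h : ∀ θ, f.eval θ = 0 → (N : ℤ) ∣ n θ - n' θ) :
    (rm n : Jac N f) = rm n' := by
  refine ram_congr _ _ fun θ hθ => ?_
  rw [← mul_sub]
  exact (h θ hθ).mul_left _

lemma rm_add (n n' : E → ℤ) : (rm fun θ => n θ + n' θ : Jac N f) = rm n + rm n' := by
  unfold rm
  rw [← ram_add]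
  congr 1
  funext θ
  ring

lemma rm_sub (n n' : E → ℤ) : (rm fun θ => n θ - n' θ : Jac N f) = rm n - rm n' := by
  unfold rm
  rw [← ram_sub]
  congr 1
  funext θ
  ring

lemma rm_zero : (rm (fun _ => 0) : Jac N f) = 0 := by
  have h := rm_sub (N := N) (f := f) (fun _ => 0) (fun _ => 0)
  simpa only [sub_self] using h

lemma rm_neg (n : E → ℤ) : (rm (fun θ => -n θ) : Jac N f) = -rm n := by
  have h := rm_sub (N := N) (f := f) (fun _ => 0) n
  rw [rm_zero, zero_sub] at h
  rw [← h]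
  congr 1
  funext θ
  ring

lemma zJ_rm (ζ : E) (hζ : ζ ^ N = 1) (n : E → ℤ) : zJ ζ hζ (rm n : Jac N f) = rm n :=
  zJ_ram ζ hζ _

lemma smul_rm (n : E → ℤ) : N • (rm n : Jac N f) = 0 := smul_ram _

lemma symJ_rm (σ : Sym f) (n : E → ℤ) :
    symJ σ (rm n : Jac N f) = rm fun θ => n (((σ⁻¹ : Sym f) : E ≃+* E) θ) := by
  unfold rm
  rw [symJ_ram]
  congr 1
  funext θ
  rw [wt_sym]

/-- Every ramified class is of this form. -/
lemma ram_eq_rm (e : E → ℤ) : (ram e : Jac N f) = rm fun θ => al N (wt f θ) * e θ := by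
  refine ram_congr _ _ fun θ hθ => ?_
  have h1 := al_wt (N := N) hθ
  have h2 : ((al N (wt f θ) : ℤ) * wt f θ) = be N (wt f θ) * N + 1 := by exact_mod_cast h1
  refine ⟨-(be N (wt f θ) * e θ), ?_⟩
  linear_combination (-e θ) * h2

lemma exists_rm_of_zJ_eq (ζ : E) (hζ : IsPrimitiveRoot ζ N) (Q : Jac N f)
    (hQ : zJ ζ hζ.pow_eq_one Q = Q) : ∃ n : E → ℤ, Q = rm n := by
  obtain ⟨e, he⟩ := exists_ram_of_zJ_eq ζ hζ Q hQ
  exact ⟨_, he.trans (ram_eq_rm e)⟩

lemma rm_eq_zero_iff (ζ : E) (hζ : IsPrimitiveRoot ζ N) (n : E → ℤ) :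
    (rm n : Jac N f) = 0 ↔ ∃ c : ℤ, ∀ θ, f.eval θ = 0 → (N : ℤ) ∣ n θ - c := by
  unfold rm
  rw [ram_eq_zero_iff ζ hζ]
  refine exists_congr fun c => forall₂_congr fun θ hθ => ?_
  have h1 : (wt f θ : ℤ) * n θ - c * wt f θ = wt f θ * (n θ - c) := by ring
  rw [h1]
  constructor
  · intro h
    have h2 : IsCoprime (N : ℤ) (wt f θ : ℤ) :=
      (Nat.isCoprime_iff_coprime.2 (hG.mult θ hθ)).symm
    exact h2.dvd_of_dvd_mul_left h
  · intro h
    exact h.mul_left _

/-- `kummer_formula` with `rm`. -/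
theorem kummer_rm (ζ : E) (hζ : IsPrimitiveRoot ζ N) (Q : Jac N f) (D : Pt N f →₀ ℤ)
    (hQ : Q - zJ ζ hζ.pow_eq_one Q = cl D) :
    ∃ z : E → E, (∀ θ, f.eval θ = 0 → z θ ≠ 0 ∧
      z θ ^ N = ((-1) ^ (N + 1)) ^ atR D θ * uval D θ) ∧
      ∀ (σ : Sym f), (σ : E ≃+* E) ζ = ζ → D.mapDomain (Pt.sym σ) = D → ∀ n : E → ℤ,
        (∀ θ, f.eval θ = 0 →
          (σ : E ≃+* E) (z θ) = ζ ^ n ((σ : E ≃+* E) θ) * z ((σ : E ≃+* E) θ)) →
        symJ σ Q - Q = rm n :=
  kummer_formula ζ hζ Q D hQ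

/-- Image of a ramified class under a homomorphism of fields. -/
lemma jacMap_rm {E' : Type u} [Field E'] {f' : E'[X]} [hG' : IsGood N f'] (σ : E →+* E')
    (h : f.map σ = f') (e : E → ℤ) (e' : E' → ℤ) (he : ∀ θ, f.eval θ = 0 → e' (σ θ) = e θ) :
    jacMap N σ h (rm e) = rm e' := by
  unfold rm
  refine jacMap_ram σ h _ _ fun θ hθ => ?_
  rw [he θ hθ, wt_map σ h]

end

/-- The multiplicities sum up to the degree. -/
lemma sum_wt [IsAlgClosed E] (f : E[X]) : ∑ θ ∈ Sup.rts f, wt f θ = f.natDegree := by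
  unfold Sup.rts wt
  rw [← IsAlgClosed.card_roots_eq_natDegree, ← Multiset.toFinset_sum_count_eq f.roots]
  exact Finset.sum_congr rfl fun θ _ => (count_roots f).symm

end Pool.Agent.Lib.MP_89bcae_ag.Wt

end

section

/-!
# The curve `y ^ ℓ = ∏ (x - α_i(t)) ^ (W i)` over `F(t)`
-/

open Polynomial IsDedekindDomain

open scoped Classical

namespace Pool.Agent.Lib.MP_89bcae_ag.Wt.Lns

open Pool.Agent.Lib.MP_89bcae_ag.Sup Pool.Agent.Lib.MP_89bcae_ag.Sup.Lns

universe u

variable {ι : Type} [Fintype ι] [LinearOrder ι]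

section

variable {k : Type u} [Field k]

omit [LinearOrder ι] in
/-- The polynomial `∏ (x - α_i(t)) ^ (W i)`. -/
noncomputable def arr (W : ι → ℕ) (α : ι → k[X]) : k[X][X] := ∏ i, (X - C (α i)) ^ W i

/-- The hypotheses on `ℓ`, `W`, `α`, `ζ`. -/
structure AHyp (ℓ : ℕ) (W : ι → ℕ) (α : ι → k[X]) (ζ : k) : Prop where
  prime : ℓ.Prime
  ne : (ℓ : k) ≠ 0
  zeta : IsPrimitiveRoot ζ ℓ
  cop : ∀ i, (W i).Coprime ℓ
  sum : (∑ i, W i).Coprime ℓ
  geom : AGeom α

/-- The polynomials `α_i` over `F`. -/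
noncomputable def aF (F : Type u) [Field F] [Algebra k F] (α : ι → k[X]) : ι → F[X] :=
  fun i => (α i).map (algebraMap k F)

end

variable {k F L : Type u} [Field k] [Field F] [Algebra k F] [Field L] [Algebra F[X] L]
  {ℓ : ℕ} {W : ι → ℕ} {α : ι → k[X]} {ζ : k}

/-- The root `α_i(t)` in `A`. -/
noncomputable def rt (k F L A : Type u) [Field k] [Field F] [Algebra k F] [Field L]
    [Algebra F[X] L] [Field A] [Algebra L A] (α : ι → k[X]) (i : ι) : A := base k F L A (α i)

lemma AHyp.geomF (H : AHyp ℓ W α ζ) : AGeom (aF F α) := H.geom.map (algebraMap k F)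

lemma AHyp.W0 (H : AHyp ℓ W α ζ) (i : ι) : W i ≠ 0 := by
  intro h0
  have h1 := H.cop i
  rw [h0, Nat.coprime_zero_left] at h1
  exact H.prime.one_lt.ne' h1

lemma AHyp.copZ (H : AHyp ℓ W α ζ) (i : ι) : IsCoprime (ℓ : ℤ) (W i : ℤ) :=
  Nat.isCoprime_iff_coprime.2 (H.cop i).symm

lemma aeval_tA {A : Type u} [Field A] [Algebra L A] [Algebra F A] (hF : CompatF F L A)
    (p : F[X]) : aeval (tA F L A) p = algebraMap L A (algebraMap F[X] L p) := by
  induction p using Polynomial.induction_on' with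
  | add p q hp hq => rw [map_add, map_add, map_add, hp, hq]
  | monomial n a =>
    rw [← C_mul_X_pow_eq_monomial, map_mul, map_mul, map_mul, map_pow, map_pow, map_pow, aeval_C,
      aeval_X, hF a]
    rfl

lemma tA_inj [IsFractionRing F[X] L] {A : Type u} [Field A] [Algebra L A] [Algebra F A]
    (hF : CompatF F L A) {p q : F[X]} (h : aeval (tA F L A) p = aeval (tA F L A) q) : p = q := by
  rw [aeval_tA hF, aeval_tA hF] at h
  exact IsFractionRing.injective F[X] L ((algebraMap L A).injective h)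

omit [Fintype ι] [LinearOrder ι] in
lemma rt_eq {A : Type u} [Field A] [Algebra L A] [Algebra F A] (hF : CompatF F L A) (i : ι) :
    rt k F L A α i = aeval (tA F L A) (aF F α i) := by
  rw [aeval_tA hF]
  rfl

omit [LinearOrder ι] in
lemma cOver_arr {A : Type u} [Field A] [Algebra L A] [Algebra F A] (hF : CompatF F L A) :
    cOver k F L A (arr W α) = lineW W (aF F α) (tA F L A) := by
  rw [cOver_eq]
  unfold arr lineW
  rw [Polynomial.map_prod]
  refine Finset.prod_congr rfl fun i _ => ?_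
  rw [Polynomial.map_pow, Polynomial.map_sub, map_X, map_C, ← rt_eq hF]
  rfl

omit [LinearOrder ι] in
lemma arr_over {A : Type u} [Field A] [Algebra L A] :
    cOver k F L A (arr W α) = ∏ i, (X - C (rt k F L A α i)) ^ W i := by
  rw [cOver_eq]
  unfold arr
  rw [Polynomial.map_prod]
  refine Finset.prod_congr rfl fun i _ => ?_
  rw [Polynomial.map_pow, Polynomial.map_sub, map_X, map_C]
  rfl

omit [LinearOrder ι] in
lemma eval_arr {A : Type u} [Field A] [Algebra L A] (x : A) :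
    (cOver k F L A (arr W α)).eval x = ∏ i, (x - rt k F L A α i) ^ W i := by
  rw [arr_over, eval_prod]
  refine Finset.prod_congr rfl fun i _ => ?_
  rw [eval_pow, eval_sub, eval_X, eval_C]

omit [LinearOrder ι] in
lemma root_of_arr {A : Type u} [Field A] [Algebra L A] {x : A}
    (h : (cOver k F L A (arr W α)).eval x = 0) : ∃ i, x = rt k F L A α i := by
  rw [eval_arr, Finset.prod_eq_zero_iff] at h
  obtain ⟨i, -, hi⟩ := h
  exact ⟨i, sub_eq_zero.1 (eq_zero_of_pow_eq_zero hi)⟩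

lemma root_arr (H : AHyp ℓ W α ζ) {A : Type u} [Field A] [Algebra L A] {x : A} :
    (cOver k F L A (arr W α)).eval x = 0 ↔ ∃ i, x = rt k F L A α i := by
  refine ⟨root_of_arr, ?_⟩
  rintro ⟨i, hi⟩
  rw [eval_arr, Finset.prod_eq_zero_iff]
  exact ⟨i, Finset.mem_univ i, by rw [hi, sub_self, zero_pow (H.W0 i)]⟩

lemma root_rt (H : AHyp ℓ W α ζ) {A : Type u} [Field A] [Algebra L A] (i : ι) :
    (cOver k F L A (arr W α)).eval (rt k F L A α i) = 0 := (root_arr H).2 ⟨i, rfl⟩

lemma rt_injective [IsFractionRing F[X] L] (H : AHyp ℓ W α ζ) (A : Type u) [Field A]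
    [Algebra L A] : Function.Injective (rt k F L A α) := by
  intro i j hij
  have h1 : base k F L A (α i) = base k F L A (α j) := hij
  have h2 : (α i).map (algebraMap k F) = (α j).map (algebraMap k F) :=
    IsFractionRing.injective F[X] L ((algebraMap L A).injective h1)
  have h3 : α i = α j := Polynomial.map_injective _ (algebraMap k F).injective h2
  exact H.geom.injective h3

omit [LinearOrder ι] in
lemma arr_ne_zero {A : Type u} [Field A] [Algebra L A] : cOver k F L A (arr W α) ≠ 0 := by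
  rw [arr_over]
  exact Finset.prod_ne_zero_iff.2 fun i _ => pow_ne_zero _ (X_sub_C_ne_zero _)

omit [LinearOrder ι] in
private lemma ag_degree {A : Type u} [Field A] [Algebra L A] :
    (cOver k F L A (arr W α)).natDegree = ∑ i, W i := by
  rw [arr_over, natDegree_prod_of_monic _ _ fun i _ => (monic_X_sub_C _).pow _]
  simp

/-- The multiplicities of the roots. -/
lemma wt_rt [IsFractionRing F[X] L] (H : AHyp ℓ W α ζ) {A : Type u} [Field A]
    [Algebra L A] (i : ι) : wt (cOver k F L A (arr W α)) (rt k F L A α i) = W i := by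
  have h1 : cOver k F L A (arr W α) = (X - C (rt k F L A α i)) ^ W i *
      ∏ j ∈ Finset.univ.erase i, (X - C (rt k F L A α j)) ^ W j := by
    rw [arr_over]
    exact (Finset.mul_prod_erase Finset.univ (fun j => (X - C (rt k F L A α j)) ^ W j)
      (Finset.mem_univ i)).symm
  have h2 : (∏ j ∈ Finset.univ.erase i, (X - C (rt k F L A α j)) ^ W j).eval
      (rt k F L A α i) ≠ 0 := by
    rw [eval_prod]
    refine Finset.prod_ne_zero_iff.2 fun j hj => ?_
    rw [eval_pow, eval_sub, eval_X, eval_C]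
    refine pow_ne_zero _ (sub_ne_zero.2 fun h => ?_)
    exact (Finset.mem_erase.1 hj).1 (rt_injective H A h).symm
  unfold wt
  rw [h1, rootMultiplicity_mul (by rw [← h1]; exact arr_ne_zero),
    rootMultiplicity_X_sub_C_pow, rootMultiplicity_eq_zero h2, add_zero]

lemma isGood_arr [IsFractionRing F[X] L] (H : AHyp ℓ W α ζ) (A : Type u) [Field A]
    [Algebra L A] [IsAlgClosed A] : IsGood ℓ (cOver k F L A (arr W α)) := by
  refine ⟨inferInstance, H.prime.one_lt, ?_, ?_, ?_⟩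
  · have h1 : (base k F L A) (C (ℓ : k)) = (ℓ : A) := by
      rw [map_natCast C, map_natCast]
    have h2 : Function.Injective ((base k F L A).comp C) := RingHom.injective _
    intro h0
    apply H.ne
    apply h2
    rw [map_zero]
    exact h1.trans h0
  · intro θ hθ
    obtain ⟨i, rfl⟩ := root_of_arr hθ
    have h1 := wt_rt (F := F) (L := L) (A := A) H i
    unfold wt at h1
    rw [h1]
    exact H.cop i
  · rw [ag_degree]
    exact H.sum

lemma AHyp.lhyp [IsFractionRing F[X] L] (H : AHyp ℓ W α ζ) : LHyp ℓ k F L (arr W α) ζ :=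
  ⟨H.prime, H.ne, H.zeta, fun A _ _ _ => isGood_arr H A⟩

section

variable {Ω : Type u} [Field Ω] [Algebra L Ω]

omit [Fintype ι] [LinearOrder ι] in
/-- The automorphisms over `k(t)` fix the roots. -/
lemma fix_rt (γ : AutO k F L Ω) (i : ι) : (γ : Ω ≃+* Ω) (rt k F L Ω α i) = rt k F L Ω α i :=
  γ.2 (α i)

omit [LinearOrder ι] in
lemma fix_root (γ : AutO k F L Ω) {θ : Ω} (hθ : (cOver k F L Ω (arr W α)).eval θ = 0) :
    (γ : Ω ≃+* Ω) θ = θ := by
  obtain ⟨i, rfl⟩ := root_of_arr hθ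
  exact fix_rt γ i

omit [LinearOrder ι] in
/-- Functions on the set of indices give functions on `Ω`. -/
lemma exists_fun [IsFractionRing F[X] L] [LinearOrder ι] (H : AHyp ℓ W α ζ) (e : ι → ℤ) :
    ∃ n : Ω → ℤ, ∀ i, n (rt k F L Ω α i) = e i := by
  have hinj := rt_injective (F := F) (L := L) H Ω
  refine ⟨fun θ => if h : ∃ i, rt k F L Ω α i = θ then e h.choose else 0, fun i => ?_⟩
  have h : ∃ j, rt k F L Ω α j = rt k F L Ω α i := ⟨i, rfl⟩
  beta_reduce
  rw [dif_pos h, hinj h.choose_spec]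

omit [LinearOrder ι] in
lemma symJ_rm_arr [hG : IsGood ℓ (cOver k F L Ω (arr W α))] (γ : AutO k F L Ω) (n : Ω → ℤ) :
    symJ (toSym (arr W α) γ) (rm n : JacOver ℓ (curveL k F L (arr W α)) Ω) = rm n := by
  rw [symJ_rm]
  refine rm_congr _ _ fun θ hθ => ?_
  have h1 : (((toSym (arr W α) γ)⁻¹ : Sym (cOver k F L Ω (arr W α))) : Ω ≃+* Ω) θ = θ := by
    have h2 : ((toSym (arr W α) γ)⁻¹ : Sym (cOver k F L Ω (arr W α))) = toSym (arr W α) γ⁻¹ := by
      rw [map_inv]
    rw [h2]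
    exact fix_root γ⁻¹ hθ
  rw [h1, sub_self]
  exact dvd_zero _

end

end Pool.Agent.Lib.MP_89bcae_ag.Wt.Lns

end
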