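import Mathlib
import Pool.Agent.Lib.MP_89bcae_ag.Bk.K025

namespace Pool.Agent.Lib.MP_89bcae_ag.Sup
end Pool.Agent.Lib.MP_89bcae_ag.Sup
namespace Pool.Agent.Lib.MP_89bcae_ag.Sup.Lns
end Pool.Agent.Lib.MP_89bcae_ag.Sup.Lns

section

/-!
ROW R20 (100-200 lines). A class fixed by a set of automorphisms contains a divisor fixed by them.

PROOF. Every class contains an effective divisor: `-[P] = ∑_{0<i<N} [P.rot^i]` by
`cl (div (x - P.x)) = 0` and `div_xs`, so negative coefficients can be replaced by positive ones.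
Let `D` be an effective divisor of minimal degree (`dg`) in the class. It is the only one: let `D'`
be another effective divisor of the same degree in the class, `D - D' = div h` (R08). Then
`dg (div h) = 0`, so by R13 there is a constant `c` with `h = c`, whence `D = D'`, or
`w = h - c ≠ 0` with `dg (div w) < 0`; then `D' + div w` is effective: `ord_P w ≥ min (ord_P h, 0)`
(`ord_add` with `u = h`, `v = -c`; if `c = 0` then `w = h`) and
`ord_P h = D(P) - D'(P) ≥ -D'(P)`, `0 ≥ -D'(P)`; it is in the same class and has smaller degree: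
contradiction. For `σ` in `Γ`: `D.mapDomain (Pt.sym σ)` is effective of the same degree, and its
class is `symJ σ x = x`, so it is equal to `D`.
-/

open Polynomial IsDedekindDomain

open scoped Classical

namespace Pool.Agent.Lib.MP_89bcae_ag.Wt

universe u

variable {N : ℕ} {E : Type u} [Field E] {f : E[X]} [hG : IsGood N f]

omit hG in
lemma r20_dg_add (D D' : Pt N f →₀ ℤ) : dg (D + D') = dg D + dg D' :=
  Finsupp.sum_add_index' (fun _ => rfl) fun _ _ _ => rfl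

omit hG in
lemma r20_dg_nonneg (D : Pt N f →₀ ℤ) (hD : ∀ P, 0 ≤ D P) : 0 ≤ dg D :=
  Finset.sum_nonneg fun P _ => hD P

omit hG in
lemma r20_mapDomain_nonneg (D : Pt N f →₀ ℤ) (hD : ∀ P, 0 ≤ D P) (g : Pt N f → Pt N f) :
    ∀ P, 0 ≤ D.mapDomain g P := by
  intro P
  rw [Finsupp.mapDomain, Finsupp.sum_apply]
  refine Finset.sum_nonneg fun Q _ => ?_
  change 0 ≤ (Finsupp.single (g Q) (D Q) : Pt N f →₀ ℤ) P
  rw [Finsupp.single_apply]
  split_ifs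
  · exact hD Q
  · exact le_rfl

omit hG in
lemma r20_dg_mapDomain (D : Pt N f →₀ ℤ) (g : Pt N f → Pt N f) : dg (D.mapDomain g) = dg D :=
  Finsupp.sum_mapDomain_index (fun _ => rfl) fun _ _ _ => rfl

lemma r20_exists_effective (ζ : E) (hζ : IsPrimitiveRoot ζ N) (D : Pt N f →₀ ℤ) :
    ∃ D' : Pt N f →₀ ℤ, (∀ P, 0 ≤ D' P) ∧ cl D' = cl D := by
  induction D using Finsupp.induction_linear with
  | zero => exact ⟨0, fun _ => le_rfl, rfl⟩
  | add D₁ D₂ h₁ h₂ =>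
    obtain ⟨D₁', h₁, h₁'⟩ := h₁
    obtain ⟨D₂', h₂, h₂'⟩ := h₂
    refine ⟨D₁' + D₂', fun P => add_nonneg (h₁ P) (h₂ P), ?_⟩
    rw [map_add, map_add, h₁', h₂']
  | single P n =>
    rcases le_or_gt 0 n with hn | hn
    · refine ⟨Finsupp.single P n, fun Q => ?_, rfl⟩
      rw [Finsupp.single_apply]
      split_ifs
      · exact hn
      · exact le_rfl
    · refine ⟨Finsupp.single P n + (-n) • div (xs P.x : (FunField N f)ˣ), fun Q => ?_, ?_⟩
      · have hx : (Finsupp.single P 1 : Pt N f →₀ ℤ) Q ≤ div (xs P.x : (FunField N f)ˣ) Q := by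
          rw [div_xs ζ hζ P, Finsupp.finsetSum_apply]
          have h0 : 0 ∈ Finset.range N := Finset.mem_range.2 hG.pos
          refine Finset.single_le_sum (f := fun i =>
            (Finsupp.single ((Pt.rot ζ hζ.pow_eq_one)^[i] P) 1 : Pt N f →₀ ℤ) Q)
            (fun i _ => ?_) h0
          rw [Finsupp.single_apply]
          split_ifs <;> norm_num
        rw [Finsupp.add_apply, Finsupp.smul_apply, smul_eq_mul]
        have hs : (Finsupp.single P n : Pt N f →₀ ℤ) Q =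
            n * (Finsupp.single P 1 : Pt N f →₀ ℤ) Q := by
          rw [Finsupp.single_apply, Finsupp.single_apply]
          split_ifs <;> simp
        rw [hs]
        nlinarith
      · rw [map_add, map_zsmul, cl_div, smul_zero, add_zero]

lemma r20_unique (ζ : E) (hζ : IsPrimitiveRoot ζ N) (D D' : Pt N f →₀ ℤ)
    (h : ∀ P, 0 ≤ D P) (h' : ∀ P, 0 ≤ D' P) (hc : cl D = cl D') (hd : dg D = dg D')
    (hmin : ∀ D'' : Pt N f →₀ ℤ, (∀ P, 0 ≤ D'' P) → cl D'' = cl D' → dg D' ≤ dg D'') :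
    D = D' := by
  obtain ⟨u, hu⟩ := exists_div_of_cl_eq_zero (D - D') (by rw [map_sub, hc, sub_self])
  have hdg : dg (div u) = 0 := by
    have := r20_dg_add (D - D') D'
    rw [sub_add_cancel, hd] at this
    rw [hu]
    linarith
  have hord : ∀ P, ord P u = D P - D' P := fun P => by
    rw [← div_apply, hu, Finsupp.sub_apply]
  obtain ⟨c, hc' | ⟨w, hw, hwd⟩⟩ := exists_const_of_dg_eq_zero ζ hζ u hdg
  · have hc0 : c ≠ 0 := by
      rintro rfl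
      exact u.ne_zero (by rw [hc', map_zero])
    have hu' : u = cstU (Units.mk0 c hc0) := Units.ext hc'
    rw [hu', div_cstU] at hu
    exact (sub_eq_zero.1 hu.symm)
  · exfalso
    have heff : ∀ P, 0 ≤ (D' + div w) P := by
      intro P
      rw [Finsupp.add_apply, div_apply]
      by_cases hc0 : c = 0
      · have hwu : w = u := Units.ext (by rw [hw, hc0, map_zero, sub_zero])
        rw [hwu, hord]
        linarith [h P]
      · have := ord_add P u (cstU (Units.mk0 (-c) (neg_ne_zero.2 hc0))) w (by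
          rw [hw, sub_eq_add_neg, ← map_neg]
          rfl)
        rw [ord_cstU, hord] at this
        rcases min_le_iff.1 this with h1 | h1
        · linarith [h P]
        · linarith [h' P]
    have h1 := hmin (D' + div w) heff (by rw [map_add, cl_div, add_zero])
    rw [r20_dg_add] at h1
    linarith

lemma exists_stable (ζ : E) (hζ : IsPrimitiveRoot ζ N) (Γ : Set (Sym f)) (x : Jac N f)
    (hx : ∀ σ ∈ Γ, symJ σ x = x) :
    ∃ D : Pt N f →₀ ℤ, cl D = x ∧ ∀ σ ∈ Γ, D.mapDomain (Pt.sym σ) = D := by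
  obtain ⟨D₀, hD₀⟩ := cl_surjective x
  have hex : ∃ n : ℕ, ∃ D : Pt N f →₀ ℤ, (∀ P, 0 ≤ D P) ∧ cl D = x ∧ dg D = n := by
    obtain ⟨D, h1, h2⟩ := r20_exists_effective ζ hζ D₀
    exact ⟨(dg D).toNat, D, h1, h2.trans hD₀, (Int.toNat_of_nonneg (r20_dg_nonneg D h1)).symm⟩
  obtain ⟨D, h1, h2, h3⟩ := Nat.find_spec hex
  refine ⟨D, h2, fun σ hσ => ?_⟩
  refine r20_unique ζ hζ _ _ (r20_mapDomain_nonneg D h1 _) h1 ?_ (r20_dg_mapDomain _ _) ?_
  · rw [← symJ_cl, h2, hx σ hσ]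
  · intro D'' h1'' h2''
    have := Nat.find_min' hex ⟨D'', h1'', h2''.trans h2,
      (Int.toNat_of_nonneg (r20_dg_nonneg D'' h1'')).symm⟩
    have h0 := r20_dg_nonneg D'' h1''
    omega

end Pool.Agent.Lib.MP_89bcae_ag.Wt

end

section

/-!
# Local exponents of the invariant points of the Jacobian

`Γ` is a group of automorphisms which fixes the roots of `f`, `ϖ` an element (an `ℓ`-th root of `t - s`)
with `σ ϖ = ζ^j ϖ` for `σ` in `Γ`. `LE Γ ζ ϖ x w` : there is `Q` with `(1 - Z) Q = x` and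
`σ Q - Q = rm (j w)` for all `σ` in `Γ`, where `σ ϖ = ζ^j ϖ`.
-/

open Polynomial

open scoped Classical

namespace Pool.Agent.Lib.MP_89bcae_ag.Wt.Lns

open Pool.Agent.Lib.MP_89bcae_ag.Sup

universe u

variable {M : Type u} [Field M] {ℓ : ℕ} {f : M[X]} [hG : IsGood ℓ f]

/-- The assumptions on `Γ`, `ζ`, `ϖ`. -/
structure LECtx (ℓ : ℕ) {f : M[X]} (Γ : Subgroup (Sym f)) (ζ ϖ : M) : Prop where
  zeta : IsPrimitiveRoot ζ ℓ
  ne : ϖ ≠ 0
  fixζ : ∀ σ ∈ Γ, (σ : M ≃+* M) ζ = ζ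
  fixr : ∀ σ ∈ Γ, ∀ θ, f.eval θ = 0 → (σ : M ≃+* M) θ = θ
  kum : ∀ σ ∈ Γ, ∃ j : ℤ, (σ : M ≃+* M) ϖ = ζ ^ j * ϖ
  tame : ∃ σ ∈ Γ, (σ : M ≃+* M) ϖ = ζ * ϖ

/-- `w` is a local exponent of the point `x`. -/
def LE (Γ : Subgroup (Sym f)) {ζ : M} (hζ : ζ ^ ℓ = 1) (ϖ : M) (x : Jac ℓ f) (w : M → ℤ) : Prop :=
  ∃ Q : Jac ℓ f, Q - zJ ζ hζ Q = x ∧ ∀ σ ∈ Γ, ∀ j : ℤ, (σ : M ≃+* M) ϖ = ζ ^ j * ϖ →
    symJ σ Q - Q = rm fun θ => j * w θ

variable {Γ : Subgroup (Sym f)} {ζ ϖ : M} {hζ : ζ ^ ℓ = 1} {x y : Jac ℓ f} {w w' : M → ℤ}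

private lemma la02_symJ_mul (σ τ : Sym f) (Q : Jac ℓ f) :
    symJ (σ * τ) Q = symJ σ (symJ τ Q) := by
  obtain ⟨D, rfl⟩ := cl_surjective Q
  rw [symJ_cl, symJ_cl, symJ_cl, ← Finsupp.mapDomain_comp]
  rfl

private lemma la02_symJ_rm (u : Sym f)
    (hur : ∀ θ, f.eval θ = 0 → (u : M ≃+* M) θ = θ) (e : M → ℤ) :
    symJ u (rm e : Jac ℓ f) = rm e := by
  rw [symJ_rm]
  refine rm_congr _ _ fun θ hθ => ?_
  have h1 : ((u⁻¹ : Sym f) : M ≃+* M) θ = θ := by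
    have h2 : ((u⁻¹ : Sym f) : M ≃+* M) ((u : M ≃+* M) θ) = θ := by
      rw [Subgroup.coe_inv]
      exact (u : M ≃+* M).symm_apply_apply θ
    rwa [hur θ hθ] at h2
  rw [h1, sub_self]
  exact dvd_zero _

lemma LE.fixed (hc : LECtx ℓ Γ ζ ϖ) (h : LE Γ hζ ϖ x w) {σ : Sym f} (hσ : σ ∈ Γ) :
    symJ σ x = x := by
  obtain ⟨Q, hQ, hQ'⟩ := h
  obtain ⟨j, hj⟩ := hc.kum σ hσ
  have h1 := hQ' σ hσ j hj
  have h2 : symJ σ Q = Q + rm (fun θ => j * w θ) := by rw [← h1]; abel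
  rw [← hQ, map_sub, ← zJ_symJ ζ hζ σ (hc.fixζ σ hσ), h2, map_add, zJ_rm]
  abel

lemma LE.congr (h : LE Γ hζ ϖ x w) (hw : ∀ θ, f.eval θ = 0 → (ℓ : ℤ) ∣ w' θ - w θ) :
    LE Γ hζ ϖ x w' := by
  obtain ⟨Q, hQ, hQ'⟩ := h
  refine ⟨Q, hQ, fun σ hσ j hj => ?_⟩
  rw [hQ' σ hσ j hj]
  refine rm_congr _ _ fun θ hθ => ?_
  have h1 := (hw θ hθ).mul_left (-j)
  have h2 : -j * (w' θ - w θ) = j * w θ - j * w' θ := by ring
  rwa [h2] at h1

lemma LE.add (h : LE Γ hζ ϖ x w) (h' : LE Γ hζ ϖ y w') :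
    LE Γ hζ ϖ (x + y) (fun θ => w θ + w' θ) := by
  obtain ⟨Q, hQ, hQ'⟩ := h
  obtain ⟨R, hR, hR'⟩ := h'
  refine ⟨Q + R, ?_, fun σ hσ j hj => ?_⟩
  · rw [← hQ, ← hR, map_add]
    abel
  · have h1 : (fun θ => j * (w θ + w' θ)) = fun θ => j * w θ + j * w' θ := by
      funext θ
      ring
    rw [h1, rm_add, ← hQ' σ hσ j hj, ← hR' σ hσ j hj, map_add]
    abel

lemma LE.neg (h : LE Γ hζ ϖ x w) : LE Γ hζ ϖ (-x) (fun θ => -w θ) := by
  obtain ⟨Q, hQ, hQ'⟩ := h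
  refine ⟨-Q, ?_, fun σ hσ j hj => ?_⟩
  · rw [← hQ, map_neg]
    abel
  · have h1 : (fun θ => j * (-w θ)) = fun θ => -(j * w θ) := by
      funext θ
      ring
    rw [h1, rm_neg, ← hQ' σ hσ j hj, map_neg]
    abel

lemma LE.sub (h : LE Γ hζ ϖ x w) (h' : LE Γ hζ ϖ y w') :
    LE Γ hζ ϖ (x - y) (fun θ => w θ - w' θ) := by
  have h1 := h.add h'.neg
  rw [← sub_eq_add_neg] at h1
  simpa only [← sub_eq_add_neg] using h1


/-- The definition does not depend on the choice of `Q`. -/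
lemma LE.any (hc : LECtx ℓ Γ ζ ϖ) (h : LE Γ hζ ϖ x w) {Q : Jac ℓ f} (hQ : Q - zJ ζ hζ Q = x) :
    ∀ σ ∈ Γ, ∀ j : ℤ, (σ : M ≃+* M) ϖ = ζ ^ j * ϖ → symJ σ Q - Q = rm fun θ => j * w θ := by
  obtain ⟨R, hR, hR'⟩ := h
  intro σ hσ j hj
  have h1 : zJ ζ hc.zeta.pow_eq_one (Q - R) = Q - R := by
    have h2 : Q - zJ ζ hζ Q = R - zJ ζ hζ R := by rw [hQ, hR]
    have h3 : zJ ζ hζ (Q - R) = Q - R := by
      rw [map_sub]
      have h4 : zJ ζ hζ Q - zJ ζ hζ R = Q - R - ((Q - zJ ζ hζ Q) - (R - zJ ζ hζ R)) := by abel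
      rw [h4, h2, sub_self, sub_zero]
    exact h3
  obtain ⟨b, hb⟩ := exists_rm_of_zJ_eq ζ hc.zeta (Q - R) h1
  have h5 : Q = R + rm b := by rw [← hb]; abel
  rw [h5, map_add, la02_symJ_rm σ (hc.fixr σ hσ), ← hR' σ hσ j hj]
  abel

lemma LE.exists_fixed (hc : LECtx ℓ Γ ζ ϖ) (h : LE Γ hζ ϖ x w) {c : ℤ}
    (hw : ∀ θ, f.eval θ = 0 → (ℓ : ℤ) ∣ w θ - c) :
    ∃ x' : Jac ℓ f, x' - zJ ζ hζ x' = x ∧ ∀ σ ∈ Γ, symJ σ x' = x' := by
  obtain ⟨Q, hQ, hQ'⟩ := h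
  refine ⟨Q, hQ, fun σ hσ => ?_⟩
  obtain ⟨j, hj⟩ := hc.kum σ hσ
  have h1 : (rm (fun θ => j * w θ) : Jac ℓ f) = 0 := by
    rw [rm_eq_zero_iff ζ hc.zeta]
    refine ⟨j * c, fun θ hθ => ?_⟩
    rw [← mul_sub]
    exact (hw θ hθ).mul_left j
  have h2 := hQ' σ hσ j hj
  rw [h1, sub_eq_zero] at h2
  exact h2

lemma LE.unique (hc : LECtx ℓ Γ ζ ϖ) (h : LE Γ hζ ϖ x w) (h' : LE Γ hζ ϖ x w') :
    ∃ c : ℤ, ∀ θ, f.eval θ = 0 → (ℓ : ℤ) ∣ w θ - w' θ - c := by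
  obtain ⟨Q, hQ, hQ'⟩ := h
  have h1 := h'.any hc hQ
  obtain ⟨σ, hσ, hσ'⟩ := hc.tame
  have h2 : (σ : M ≃+* M) ϖ = ζ ^ (1 : ℤ) * ϖ := by rw [zpow_one, hσ']
  have h3 := (hQ' σ hσ 1 h2).symm.trans (h1 σ hσ 1 h2)
  simp only [one_mul] at h3
  have h4 : (rm (fun θ => w θ - w' θ) : Jac ℓ f) = 0 := by
    rw [rm_sub]
    exact sub_eq_zero.2 h3
  exact (rm_eq_zero_iff ζ hc.zeta _).1 h4

/-- With the normalisation that the weighted sum over the roots is divisible by `ℓ`. -/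
lemma LE.unique_sum (hc : LECtx ℓ Γ ζ ϖ) (h : LE Γ hζ ϖ x w) (h' : LE Γ hζ ϖ x w')
    (hs : (ℓ : ℤ) ∣ ∑ θ ∈ rts f, wt f θ * w θ) (hs' : (ℓ : ℤ) ∣ ∑ θ ∈ rts f, wt f θ * w' θ) :
    ∀ θ, f.eval θ = 0 → (ℓ : ℤ) ∣ w θ - w' θ := by
  obtain ⟨c, hcc⟩ := h.unique hc h'
  have hf0 : f ≠ 0 := f_ne_zero ℓ f
  have h1 : (ℓ : ℤ) ∣ ∑ θ ∈ rts f, (wt f θ * w θ - wt f θ * w' θ - wt f θ * c) := by
    refine Finset.dvd_sum fun θ hθ => ?_
    rw [← mul_sub, ← mul_sub]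
    exact (hcc θ ((mem_rts hf0).1 hθ)).mul_left _
  have := hG.alg
  have hcard : ∑ θ ∈ rts f, (wt f θ : ℤ) = f.natDegree := by
    rw [← sum_wt f]
    push_cast
    rfl
  rw [Finset.sum_sub_distrib, Finset.sum_sub_distrib, ← Finset.sum_mul, hcard] at h1
  have h2 : (ℓ : ℤ) ∣ (f.natDegree : ℤ) * c := by
    have h3 := dvd_sub (dvd_sub hs hs') h1
    rwa [sub_sub_cancel] at h3
  have h5 : IsCoprime (ℓ : ℤ) (f.natDegree : ℤ) :=
    (Nat.isCoprime_iff_coprime.mpr hG.coprime).symm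
  have h6 : (ℓ : ℤ) ∣ c := h5.dvd_of_dvd_mul_left h2
  intro θ hθ
  have h7 := dvd_add (hcc θ hθ) h6
  rwa [sub_add_cancel] at h7

lemma LE.act (hc : LECtx ℓ Γ ζ ϖ) (h : LE Γ hζ ϖ x w) (u : Sym f)
    (hu : ∀ σ ∈ Γ, u⁻¹ * σ * u ∈ Γ) (huζ : (u : M ≃+* M) ζ = ζ)
    (hur : ∀ θ, f.eval θ = 0 → (u : M ≃+* M) θ = θ)
    (huϖ : ∃ c : ℤ, (u : M ≃+* M) ϖ = ζ ^ c * ϖ) :
    LE Γ hζ ϖ (symJ u x) w := by
  obtain ⟨Q, hQ, hQ'⟩ := h
  obtain ⟨c, hcu⟩ := huϖ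
  have hz0 : ζ ≠ 0 := hc.zeta.ne_zero hG.ne
  refine ⟨symJ u Q, ?_, fun σ hσ j hj => ?_⟩
  · rw [zJ_symJ ζ hζ u huζ, ← map_sub, hQ]
  · have h1 : ((u⁻¹ * σ * u : Sym f) : M ≃+* M) ϖ = ζ ^ j * ϖ := by
      have h2 : ((u⁻¹ * σ * u : Sym f) : M ≃+* M) ϖ =
          (u : M ≃+* M).symm ((σ : M ≃+* M) ((u : M ≃+* M) ϖ)) := rfl
      rw [h2, RingEquiv.symm_apply_eq, hcu, map_mul, map_zpow₀, hc.fixζ σ hσ, hj, map_mul,
        map_zpow₀, huζ, hcu]
      ring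
    have h3 := hQ' _ (hu σ hσ) j h1
    have h4 := congrArg (symJ u) h3
    rw [la02_symJ_rm u hur, map_sub, ← la02_symJ_mul] at h4
    have h5 : u * (u⁻¹ * σ * u) = σ * u := by group
    rw [h5, la02_symJ_mul] at h4
    exact h4

end Pool.Agent.Lib.MP_89bcae_ag.Wt.Lns

end

section

/-!
# Local exponents at a place `t = s`: existence, ramification points, functions
-/

open Polynomial

open scoped Classical

namespace Pool.Agent.Lib.MP_89bcae_ag.Wt.Lns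

open Pool.Agent.Lib.MP_89bcae_ag.Sup Pool.Agent.Lib.MP_89bcae_ag.Sup.Lns

universe u

variable {ι : Type} [Fintype ι] [LinearOrder ι] {F M : Type u} [Field F] [Field M] [Algebra F M]
  {v : AbsoluteValue M ℝ} {s : F} {t : M} {a : ι → F[X]} {W : ι → ℕ} {ℓ p : ℕ}
  [hG : IsGood ℓ (lineW W a t)]
  {ζ : F} {Γ : Subgroup (Sym (lineW W a t))} {ϖ : M}

omit [Fintype ι] [LinearOrder ι] in
private lemma la3_aeval (τ : M ≃+* M) (hc : ∀ c : F, τ (algebraMap F M c) = algebraMap F M c)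
    (ht : τ t = t) (D : F[X]) : τ (aeval t D) = aeval t D := by
  have h3 : τ (aeval t D) = aeval (τ t) D := by
    rw [aeval_def, aeval_def]
    have h4 := hom_eval₂ D (algebraMap F M) (τ : M →+* M) t
    have h5 : (τ : M →+* M).comp (algebraMap F M) = algebraMap F M := RingHom.ext hc
    rw [h5] at h4
    exact h4
  rw [h3, ht]

private lemma la3_pow (τ : M ≃+* M) {δ z : M} (hτ : τ δ = z * δ) (hz : τ z = z) (n : ℕ) :
    (τ ^ n) δ = z ^ n * δ := by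
  induction n with
  | zero => simp
  | succ n ih =>
    rw [pow_succ', RingAut.mul_apply, ih, map_mul, map_pow, hz, hτ]
    ring

omit [LinearOrder ι] hG in
private lemma la3_root (hΓ : LocGrp p F v t (v (t - algebraMap F M s)) Γ)
    {σ : Sym (lineW W a t)} (hσ : σ ∈ Γ) (i : ι) :
    (σ : M ≃+* M) (aeval t (a i)) = aeval t (a i) :=
  la3_aeval _ (hΓ.fix σ hσ) (hΓ.fixt σ hσ) _

lemma line_inj (hg : AGeom a) (h : LocCtx v s t) :
    Function.Injective fun i => aeval t (a i) := by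
  intro i j hij
  by_contra hne
  have h0 : aeval t (a i) - aeval t (a j) = 0 := sub_eq_zero.2 hij
  by_cases hs : (a i).eval s = (a j).eval s
  · have h1 := v_line_node h hs (hg.simple hne hs)
    rw [h0, map_zero] at h1
    exact v.ne_zero (sub_ne_zero.2 h.ne) h1.symm
  · have h1 := v_line_sub h hs
    rw [h0, map_zero] at h1
    exact zero_ne_one h1

omit [LinearOrder ι] hG in
private lemma la3_fixr (hW : ∀ i, W i ≠ 0)
    (hΓ : LocGrp p F v t (v (t - algebraMap F M s)) Γ)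
    {σ : Sym (lineW W a t)} (hσ : σ ∈ Γ) {θ : M} (hθ : (lineW W a t).eval θ = 0) :
    (σ : M ≃+* M) θ = θ := by
  obtain ⟨i, rfl⟩ := (eval_lineW_eq_zero hW).1 hθ
  exact la3_root hΓ hσ i

/-- from a fixed quotient to the exponent -/
private lemma la3_exp (σ : M ≃+* M) {z z1 : M} (hϖ0 : ϖ ≠ 0) {j w : ℤ}
    (hσϖ : σ ϖ = z1 ^ j * ϖ) (hz : σ (z / ϖ ^ w) = z / ϖ ^ w) :
    σ z = z1 ^ (j * w) * z := by
  have h1 : z = z / ϖ ^ w * ϖ ^ w := by
    rw [div_mul_cancel₀ _ (zpow_ne_zero _ hϖ0)]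
  conv_lhs => rw [h1]
  rw [map_mul, hz, map_zpow₀, hσϖ, mul_zpow, ← zpow_mul]
  have h2 : z / ϖ ^ w * (z1 ^ (j * w) * ϖ ^ w) = z1 ^ (j * w) * (z / ϖ ^ w * ϖ ^ w) := by ring
  rw [h2, ← h1]

private lemma la3_div_pow (z : M) (w : ℤ) (ℓ : ℕ) :
    (z / ϖ ^ w) ^ ℓ = z ^ ℓ / (ϖ ^ ℓ) ^ w := by
  rw [div_pow, ← zpow_natCast (ϖ ^ w), ← zpow_mul, mul_comm w, zpow_mul, zpow_natCast]

/-- the choice of the exponent -/
private lemma la3_choice {x y : ℝ} (hp : p.Coprime ℓ) (hy : 0 < y)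
    (hx : Val p y x) : ∃ w : ℤ, Val p (y ^ ℓ) (x / y ^ w) := by
  obtain ⟨m, k, hk⟩ := hx
  have hco : IsCoprime ((p ^ m : ℕ) : ℤ) (ℓ : ℤ) :=
    Nat.isCoprime_iff_coprime.2 (Nat.Coprime.pow_left m hp)
  obtain ⟨u, q, huq⟩ := hco
  refine ⟨k * u, m, k * q, ?_⟩
  rw [div_pow, hk, ← zpow_natCast (y ^ (k * u)), ← zpow_mul, ← zpow_sub₀ hy.ne',
    ← zpow_natCast y ℓ, ← zpow_mul]
  congr 1
  linear_combination (-k) * huq

omit [LinearOrder ι] hG in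
private lemma la3_pos (h : LocCtx v s t) : 0 < v (t - algebraMap F M s) :=
  v.pos (sub_ne_zero.2 h.ne)

omit [LinearOrder ι] hG in
private lemma la3_fixts (hΓ : LocGrp p F v t (v (t - algebraMap F M s)) Γ)
    {σ : Sym (lineW W a t)} (hσ : σ ∈ Γ) :
    (σ : M ≃+* M) (t - algebraMap F M s) = t - algebraMap F M s := by
  rw [map_sub, hΓ.fixt σ hσ, hΓ.fix σ hσ]

omit [LinearOrder ι] in
/-- The exponents of an `ℓ`-th root of a fixed element. -/
private lemma la3_key (hℓ : ℓ.Prime) (h : LocCtx v s t) (hp : p.Coprime ℓ) (hζ : IsPrimitiveRoot ζ ℓ)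
    (hΓ : LocGrp p F v t (v (t - algebraMap F M s)) Γ) (hϖ : ϖ ^ ℓ = t - algebraMap F M s)
    {σ : Sym (lineW W a t)} (hσ : σ ∈ Γ) {z : M} (hz0 : z ≠ 0)
    (hz : (σ : M ≃+* M) (z ^ ℓ) = z ^ ℓ) {w : ℤ}
    (hw : Val p (v (t - algebraMap F M s) ^ ℓ) (v (z ^ ℓ) / v (t - algebraMap F M s) ^ w))
    {j : ℤ} (hj : (σ : M ≃+* M) ϖ = algebraMap F M ζ ^ j * ϖ) :
    (σ : M ≃+* M) z = algebraMap F M ζ ^ (j * w) * z := by
  have hts : t - algebraMap F M s ≠ 0 := sub_ne_zero.2 h.ne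
  have hϖ0 : ϖ ≠ 0 := by
    rintro rfl
    apply hts
    rw [← hϖ, zero_pow hℓ.ne_zero]
  refine la3_exp (σ : M ≃+* M) hϖ0 hj ?_
  refine h.root_fixed_of_val (π' := t - algebraMap F M s) hℓ.ne_zero hp hζ (σ : M ≃+* M)
    (hΓ.inv σ hσ) (hΓ.fix σ hσ) (div_ne_zero hz0 (zpow_ne_zero _ hϖ0)) hts
    (la3_fixts hΓ hσ) ?_ ?_
  · rw [la3_div_pow, hϖ, map_div₀, hz, map_zpow₀, la3_fixts hΓ hσ]
  · rw [la3_div_pow, hϖ, map_div₀, map_zpow₀]
    exact hw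

private lemma la3_sgn (n : ℤ) (ℓ : ℕ) : v (((-1 : M) ^ (ℓ + 1)) ^ n) = 1 := by
  rw [map_zpow₀, map_pow, AbsoluteValue.map_neg, map_one, one_pow, one_zpow]

/-- The local exponent from a stable divisor. -/
private lemma la3_LE (hℓ : ℓ.Prime) (hW : ∀ i, W i ≠ 0) (h : LocCtx v s t) (hp : p.Coprime ℓ) (hζ : IsPrimitiveRoot ζ ℓ)
    (hζ' : IsPrimitiveRoot (algebraMap F M ζ) ℓ)
    (hΓ : LocGrp p F v t (v (t - algebraMap F M s)) Γ) (hϖ : ϖ ^ ℓ = t - algebraMap F M s)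
    (D : Pt ℓ (lineW W a t) →₀ ℤ) (hD : ∀ σ ∈ Γ, D.mapDomain (Pt.sym σ) = D) (w : M → ℤ)
    (hw : ∀ θ, (lineW W a t).eval θ = 0 → Val p (v (t - algebraMap F M s) ^ ℓ)
      (v (uval D θ) / v (t - algebraMap F M s) ^ w θ)) :
    LE Γ hζ'.pow_eq_one ϖ (cl D) w := by
  obtain ⟨Q, hQ⟩ := exists_sub_zJ (algebraMap F M ζ) hζ' (cl D)
  obtain ⟨z, hz, hkum⟩ := kummer_rm (algebraMap F M ζ) hζ' Q D hQ
  refine ⟨Q, hQ, fun σ hσ j hj => ?_⟩
  refine hkum σ (hΓ.fix σ hσ ζ) (hD σ hσ) _ fun θ hθ => ?_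
  obtain ⟨hz0, hzℓ⟩ := hz θ hθ
  rw [la3_fixr hW hΓ hσ hθ]
  refine la3_key hℓ h hp hζ hΓ hϖ hσ hz0 ?_ ?_ hj
  · rw [hzℓ, map_mul, sym_uval σ D (hD σ hσ), la3_fixr hW hΓ hσ hθ, map_zpow₀, map_pow, map_neg,
      map_one]
  · rw [hzℓ, map_mul, la3_sgn, one_mul]
    exact hw θ hθ


private lemma la3_erase {κ N : Type*} [DecidableEq κ] [CommMonoid N] (S : Finset κ) (x : κ) (g : κ → N) :
    ∏ y ∈ S.erase x, g y = ∏ y ∈ S, if y = x then 1 else g y := by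
  rw [← Finset.prod_erase S (a := x) (f := fun y => if y = x then 1 else g y) (if_pos rfl)]
  exact Finset.prod_congr rfl fun y hy => (if_neg (Finset.ne_of_mem_erase hy)).symm

private lemma la3_prod {x : ℝ} (hx : x ≠ 0) {κ : Type*} (S : Finset κ) (g : κ → ℤ) :
    ∏ i ∈ S, x ^ g i = x ^ ∑ i ∈ S, g i := by
  induction S using Finset.induction_on with
  | empty => simp
  | insert i S hi ih => rw [Finset.prod_insert hi, Finset.sum_insert hi, zpow_add₀ hx, ih]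

lemma leCtx (hℓ : ℓ.Prime) (hW : ∀ i, W i ≠ 0) (h : LocCtx v s t) (hp : p.Coprime ℓ) (hζ : IsPrimitiveRoot ζ ℓ)
    (hζ' : IsPrimitiveRoot (algebraMap F M ζ) ℓ)
    (hΓ : LocGrp p F v t (v (t - algebraMap F M s)) Γ) (hϖ : ϖ ^ ℓ = t - algebraMap F M s) :
    LECtx ℓ Γ (algebraMap F M ζ) ϖ := by
  have hts : t - algebraMap F M s ≠ 0 := sub_ne_zero.2 h.ne
  have hϖ0 : ϖ ≠ 0 := by
    rintro rfl
    apply hts
    rw [← hϖ, zero_pow hℓ.ne_zero]
  have hvϖ : v ϖ ^ ℓ = v (t - algebraMap F M s) := by rw [← map_pow, hϖ]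
  have hv0 : 0 < v ϖ := v.pos hϖ0
  have hv1 : v ϖ < 1 := by
    by_contra hcon
    push Not at hcon
    have h1 : 1 ≤ v ϖ ^ ℓ := one_le_pow₀ hcon
    rw [hvϖ] at h1
    exact absurd h.lt_one (not_lt.mpr h1)
  have hval : ∀ τ ∈ Γ, ∃ j < ℓ, (τ : M ≃+* M) ϖ = algebraMap F M ζ ^ j * ϖ := by
    intro τ hτ
    have h1 : ((τ : M ≃+* M) ϖ) ^ ℓ = ϖ ^ ℓ := by
      rw [← map_pow, hϖ]
      exact la3_fixts hΓ hτ
    have h3 : ((τ : M ≃+* M) ϖ / ϖ) ^ ℓ = 1 := by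
      rw [div_pow, h1, div_self (pow_ne_zero ℓ hϖ0)]
    have : NeZero ℓ := ⟨hℓ.ne_zero⟩
    obtain ⟨j, hj, hj'⟩ := hζ'.eq_pow_of_pow_eq_one h3
    exact ⟨j, hj, by rw [hj', div_mul_cancel₀ _ hϖ0]⟩
  refine ⟨hζ', hϖ0, fun σ hσ => hΓ.fix σ hσ ζ, fun σ hσ θ hθ => la3_fixr hW hΓ hσ hθ,
    fun σ hσ => ?_, ?_⟩
  · obtain ⟨j, -, hj⟩ := hval σ hσ
    exact ⟨j, by rw [zpow_natCast]; exact hj⟩
  · obtain ⟨τ, hτ, j, hj, hj0, hτj⟩ : ∃ τ ∈ Γ, ∃ j < ℓ, j ≠ 0 ∧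
        (τ : M ≃+* M) ϖ = algebraMap F M ζ ^ j * ϖ := by
      by_contra hcon
      push Not at hcon
      have h1 : ∀ σ ∈ Γ, (σ : M ≃+* M) ϖ = ϖ := by
        intro σ hσ
        obtain ⟨j, hj, hj'⟩ := hval σ hσ
        by_cases hj0 : j = 0
        · rw [hj', hj0, pow_zero, one_mul]
        · exact absurd hj' (hcon σ hσ j hj hj0)
      have h3 := hΓ.disc ϖ hϖ0 h1
      rw [← hvϖ] at h3
      have h4 := Val.dvd_of_zpow hp hv0 hv1 1 (by rw [zpow_one]; exact h3)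
      have h5 : (ℓ : ℤ) ≤ 1 := Int.le_of_dvd one_pos h4
      have h6 := hℓ.one_lt
      omega
    have hcop : Nat.Coprime j ℓ :=
      Nat.Coprime.symm ((Nat.Prime.coprime_iff_not_dvd hℓ).mpr
        (fun h0 => absurd (Nat.le_of_dvd (Nat.pos_of_ne_zero hj0) h0) (not_le.mpr hj)))
    obtain ⟨i, -, hi⟩ := Nat.exists_mul_mod_eq_one_of_coprime hcop hℓ.one_lt
    refine ⟨τ ^ i, Subgroup.pow_mem _ hτ i, ?_⟩
    have h1 : ((τ ^ i : Sym (lineW W a t)) : M ≃+* M) = (τ : M ≃+* M) ^ i := rfl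
    rw [h1, la3_pow (τ : M ≃+* M) hτj (by rw [map_pow, hΓ.fix τ hτ]), ← pow_mul]
    congr 1
    rw [← Nat.div_add_mod (j * i) ℓ, hi, pow_add, pow_mul, hζ'.pow_eq_one, one_pow, one_mul,
      pow_one]

/-- Every invariant point has a local exponent, whose sum over each class of roots is divisible
by `ℓ`. -/
theorem exists_LE (hℓ : ℓ.Prime) (hW : ∀ i, W i ≠ 0) (hg : AGeom a) (h : LocCtx v s t) (hp : p.Coprime ℓ) (hζ : IsPrimitiveRoot ζ ℓ)
    (hζ' : IsPrimitiveRoot (algebraMap F M ζ) ℓ)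
    (hΓ : LocGrp p F v t (v (t - algebraMap F M s)) Γ) (hϖ : ϖ ^ ℓ = t - algebraMap F M s)
    (x : Jac ℓ (lineW W a t)) (hx : ∀ σ ∈ Γ, symJ σ x = x) :
    ∃ w : M → ℤ, LE Γ hζ'.pow_eq_one ϖ x w ∧
      ∀ r : F, (ℓ : ℤ) ∣ ∑ i ∈ Finset.univ.filter (fun i => (a i).eval s = r),
        W i * w (aeval t (a i)) := by
  have hv0 := la3_pos h
  have hv1 := h.lt_one
  obtain ⟨D, hD, hDσ⟩ := exists_stable (algebraMap F M ζ) hζ' (Γ : Set (Sym (lineW W a t))) x hx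
  have hch : ∀ θ : M, ∃ w : ℤ, (lineW W a t).eval θ = 0 →
      Val p (v (t - algebraMap F M s) ^ ℓ) (v (uval D θ) / v (t - algebraMap F M s) ^ w) := by
    intro θ
    by_cases hθ : (lineW W a t).eval θ = 0
    · have h1 := hΓ.disc (uval D θ) (uval_ne_zero D) (fun σ hσ => by
        rw [sym_uval σ D (hDσ σ hσ), la3_fixr hW hΓ hσ hθ])
      obtain ⟨w, hw⟩ := la3_choice hp hv0 h1
      exact ⟨w, fun _ => hw⟩
    · exact ⟨0, fun h0 => absurd h0 hθ⟩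
  choose w hw using hch
  refine ⟨w, ?_, fun r => ?_⟩
  · have h1 := la3_LE hℓ hW h hp hζ hζ' hΓ hϖ D hDσ w hw
    rw [hD] at h1
    exact h1
  · have h1 := val_uval_line h hW (line_inj hg h) hΓ D hDσ r
    have h2 : Val p (v (t - algebraMap F M s) ^ ℓ)
        (∏ i ∈ Finset.univ.filter (fun i => (a i).eval s = r),
          (v (uval D (aeval t (a i))) / v (t - algebraMap F M s) ^ w (aeval t (a i))) ^ W i) :=
      Val.prod _ _ fun i _ => (hw _ (root_lineW hW i)).pow _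
    have h3 := h1.mul h2.inv
    have h4 : (∏ i ∈ Finset.univ.filter (fun i => (a i).eval s = r),
        v (uval D (aeval t (a i))) ^ W i) *
        (∏ i ∈ Finset.univ.filter (fun i => (a i).eval s = r),
          (v (uval D (aeval t (a i))) / v (t - algebraMap F M s) ^ w (aeval t (a i))) ^ W i)⁻¹ =
        v (t - algebraMap F M s) ^ (∑ i ∈ Finset.univ.filter (fun i => (a i).eval s = r),
          W i * w (aeval t (a i))) := by
      rw [← Finset.prod_inv_distrib, ← Finset.prod_mul_distrib, ← la3_prod hv0.ne']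
      refine Finset.prod_congr rfl fun i _ => ?_
      have h5 : v (uval D (aeval t (a i))) ≠ 0 := v.ne_zero (uval_ne_zero D)
      rw [div_pow, inv_div, mul_div_assoc', mul_comm (v (uval D (aeval t (a i))) ^ W i),
        mul_div_cancel_right₀ _ (pow_ne_zero _ h5), mul_comm (W i : ℤ), zpow_mul, zpow_natCast]
    rw [h4] at h3
    exact Val.dvd_of_zpow hp hv0 hv1 _ h3

theorem LE.sum_dvd (hℓ : ℓ.Prime) (hW : ∀ i, W i ≠ 0) (hg : AGeom a) (h : LocCtx v s t)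
    (hp : p.Coprime ℓ) (hζ : IsPrimitiveRoot ζ ℓ)
    (hζ' : IsPrimitiveRoot (algebraMap F M ζ) ℓ)
    (hΓ : LocGrp p F v t (v (t - algebraMap F M s)) Γ) (hϖ : ϖ ^ ℓ = t - algebraMap F M s)
    {x : Jac ℓ (lineW W a t)} {w : M → ℤ} (hx : LE Γ hζ'.pow_eq_one ϖ x w)
    (hsum : (ℓ : ℤ) ∣ ∑ i, W i * w (aeval t (a i))) (r : F) :
    (ℓ : ℤ) ∣ ∑ i ∈ Finset.univ.filter (fun i => (a i).eval s = r), W i * w (aeval t (a i)) := by
  have hc := leCtx (a := a) hℓ hW h hp hζ hζ' hΓ hϖ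
  obtain ⟨w', hw', hs'⟩ := exists_LE hℓ hW hg h hp hζ hζ' hΓ hϖ x (fun σ hσ => hx.fixed hc hσ)
  obtain ⟨c, hcc⟩ := hx.unique hc hw'
  have hall : (ℓ : ℤ) ∣ ∑ i, W i * w' (aeval t (a i)) := by
    have h1 := Finset.sum_fiberwise_of_maps_to (s := (Finset.univ : Finset ι))
      (t := Finset.univ.image fun i => (a i).eval s) (g := fun i => (a i).eval s)
      (fun i hi => Finset.mem_image_of_mem _ hi) (fun i => W i * w' (aeval t (a i)))
    rw [← h1]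
    exact Finset.dvd_sum fun r _ => hs' r
  have hd : (ℓ : ℤ) ∣ ((∑ i, W i : ℕ) : ℤ) * c := by
    have h1 : (ℓ : ℤ) ∣ ∑ i, (W i * w (aeval t (a i)) - W i * w' (aeval t (a i)) - W i * c) := by
      refine Finset.dvd_sum fun i _ => ?_
      rw [← mul_sub, ← mul_sub]
      exact (hcc _ (root_lineW hW i)).mul_left _
    rw [Finset.sum_sub_distrib, Finset.sum_sub_distrib, ← Finset.sum_mul] at h1
    have h2 := dvd_sub (dvd_sub hsum hall) h1
    push_cast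
    simpa using h2
  have hc0 : (ℓ : ℤ) ∣ c := by
    have hco : IsCoprime (ℓ : ℤ) ((∑ i, W i : ℕ) : ℤ) := by
      have h1 := hG.coprime
      rw [lineW_natDegree] at h1
      exact (Nat.isCoprime_iff_coprime.2 h1).symm
    exact hco.dvd_of_dvd_mul_left hd
  have h1 : (ℓ : ℤ) ∣ ∑ i ∈ Finset.univ.filter (fun i => (a i).eval s = r),
      (W i * w (aeval t (a i)) - W i * w' (aeval t (a i))) := by
    refine Finset.dvd_sum fun i _ => ?_
    have h2 := dvd_add (hcc _ (root_lineW (a := a) (t := t) hW i)) hc0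
    rw [sub_add_cancel] at h2
    rw [← mul_sub]
    exact h2.mul_left _
  rw [Finset.sum_sub_distrib] at h1
  have h2 := dvd_add h1 (hs' r)
  rwa [sub_add_cancel] at h2

/-- The local exponents of the ramification points at a root `s` of `a_i - a_j`. -/
theorem LE_ram (hℓ : ℓ.Prime) (hW : ∀ i, W i ≠ 0) (hg : AGeom a) (h : LocCtx v s t)
    (hp : p.Coprime ℓ) (hζ : IsPrimitiveRoot ζ ℓ)
    (hζ' : IsPrimitiveRoot (algebraMap F M ζ) ℓ)
    (hΓ : LocGrp p F v t (v (t - algebraMap F M s)) Γ) (hϖ : ϖ ^ ℓ = t - algebraMap F M s)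
    {i j : ι} (hij : i ≠ j) (hs : (a i).eval s = (a j).eval s) (b w : M → ℤ)
    (hi : w (aeval t (a i)) = W j * (b (aeval t (a j)) - b (aeval t (a i))))
    (hj : w (aeval t (a j)) = W i * (b (aeval t (a i)) - b (aeval t (a j))))
    (hl : ∀ l, l ≠ i → l ≠ j → w (aeval t (a l)) = 0) :
    LE Γ hζ'.pow_eq_one ϖ (rm b) w := by
  have hv0 := la3_pos h
  have hinj := line_inj hg h
  have hD : ∀ σ ∈ Γ, (ramDiv (fun θ => wt (lineW W a t) θ * b θ) :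
      Pt ℓ (lineW W a t) →₀ ℤ).mapDomain (Pt.sym σ) =
        ramDiv (fun θ => wt (lineW W a t) θ * b θ) := by
    intro σ hσ
    rw [mapDomain_sym_ramDiv]
    refine ramDiv_congr _ _ fun θ hθ => ?_
    rw [la3_fixr hW hΓ (Γ.inv_mem hσ) hθ]
  have hal : ∀ m : ι, ((al ℓ (W m) : ℤ) * W m) = be ℓ (W m) * ℓ + 1 := by
    intro m
    have h5 := al_wt (N := ℓ) (root_lineW (t := t) (a := a) hW m)
    rw [wt_lineW hinj] at h5
    exact_mod_cast h5
  have hval : ∀ m : ι, v (uval (ramDiv (fun θ => wt (lineW W a t) θ * b θ) :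
      Pt ℓ (lineW W a t) →₀ ℤ) (aeval t (a m))) =
      ∏ l ∈ Finset.univ.erase m, v (aeval t (a m) - aeval t (a l)) ^
        (W l * (b (aeval t (a l)) - b (aeval t (a m))) -
          ℓ * (be ℓ (W m) * W l * b (aeval t (a m)))) := by
    intro m
    have hne : ∀ l ∈ Finset.univ.erase m, v (aeval t (a m) - aeval t (a l)) ≠ 0 := by
      intro l hl
      refine v.ne_zero (sub_ne_zero.2 fun h0 => (Finset.ne_of_mem_erase hl) ?_)
      exact (hinj h0).symm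
    rw [uval_ramDiv _ (root_lineW hW m), cof_lineW hinj, wt_lineW hinj, map_mul, map_zpow₀,
      map_inv₀, map_pow, map_prod]
    have h1 : ∏ θ' ∈ (lineW W a t).roots.toFinset.erase (aeval t (a m)),
        (aeval t (a m) - θ') ^ (wt (lineW W a t) θ' * b θ') = ∏ l ∈ Finset.univ.erase m,
          (aeval t (a m) - aeval t (a l)) ^ (W l * b (aeval t (a l))) := by
      have h2 := prod_rts_lineW (a := a) (t := t) hW hinj
        (fun θ' => if θ' = aeval t (a m) then 1 else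
          (aeval t (a m) - θ') ^ (wt (lineW W a t) θ' * b θ'))
      have h3 : ∏ θ' ∈ (lineW W a t).roots.toFinset.erase (aeval t (a m)),
          (aeval t (a m) - θ') ^ (wt (lineW W a t) θ' * b θ') = ∏ θ' ∈ rts (lineW W a t),
            (if θ' = aeval t (a m) then 1 else
              (aeval t (a m) - θ') ^ (wt (lineW W a t) θ' * b θ')) :=
        la3_erase _ _ _
      have h4 : ∏ l ∈ Finset.univ.erase m,
          (aeval t (a m) - aeval t (a l)) ^ (W l * b (aeval t (a l))) = ∏ l,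
            (if aeval t (a l) = aeval t (a m) then (1 : M) else
              (aeval t (a m) - aeval t (a l)) ^
                (wt (lineW W a t) (aeval t (a l)) * b (aeval t (a l)))) := by
        rw [la3_erase]
        refine Finset.prod_congr rfl fun l _ => ?_
        by_cases hlm : l = m
        · rw [if_pos hlm, if_pos (by rw [hlm])]
        · rw [if_neg hlm, if_neg fun h0 => hlm (hinj h0), wt_lineW hinj]
      rw [h3, h2, h4]
    rw [h1, map_prod, ← Finset.prod_pow, ← Finset.prod_inv_distrib, ← Finset.prod_zpow,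
      ← Finset.prod_mul_distrib]
    refine Finset.prod_congr rfl fun l hl => ?_
    rw [map_zpow₀, map_pow, ← zpow_natCast, ← zpow_natCast, ← zpow_mul, ← zpow_neg, ← zpow_mul,
      ← zpow_add₀ (hne l hl)]
    congr 1
    linear_combination (-(W l : ℤ) * b (aeval t (a m))) * hal m
  have hone : ∀ m l : ι, m ≠ l → (a m).eval s ≠ (a l).eval s → ∀ n : ℤ,
      v (aeval t (a m) - aeval t (a l)) ^ n = 1 := by
    intro m l _ hml n
    rw [v_line_sub h hml, one_zpow]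
  have hvw : ∀ m : ι, ∃ q : ℤ, v (uval (ramDiv (fun θ => wt (lineW W a t) θ * b θ) :
      Pt ℓ (lineW W a t) →₀ ℤ) (aeval t (a m))) =
      v (t - algebraMap F M s) ^ (w (aeval t (a m)) - ℓ * q) := by
    intro m
    rw [hval]
    by_cases hmi : m = i
    · subst hmi
      refine ⟨be ℓ (W m) * W j * b (aeval t (a m)), ?_⟩
      rw [Finset.prod_eq_single_of_mem j (Finset.mem_erase.2 ⟨hij.symm, Finset.mem_univ _⟩)]
      · rw [v_line_node h hs (hg.simple hij hs), hi]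
      · intro l hl hlj
        exact hone _ _ (Finset.ne_of_mem_erase hl).symm
          (hg.third hij (Finset.ne_of_mem_erase hl) hlj hs).symm _
    · by_cases hmj : m = j
      · subst hmj
        refine ⟨be ℓ (W m) * W i * b (aeval t (a m)), ?_⟩
        rw [Finset.prod_eq_single_of_mem i (Finset.mem_erase.2 ⟨hij, Finset.mem_univ _⟩)]
        · rw [v_line_node h hs.symm (hg.simple hij.symm hs.symm), hj]
        · intro l hl hli
          exact hone _ _ (Finset.ne_of_mem_erase hl).symm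
            (hg.third hij.symm (Finset.ne_of_mem_erase hl) hli hs.symm).symm _
      · refine ⟨0, ?_⟩
        rw [hl m hmi hmj, mul_zero, sub_zero, zpow_zero]
        refine Finset.prod_eq_one fun l hl' => ?_
        have hml : m ≠ l := (Finset.ne_of_mem_erase hl').symm
        refine hone _ _ hml (fun h0 => ?_) _
        rcases hg.pair hij hml hs h0 with h1 | h1
        · exact hmi h1.1
        · exact hmj h1.1
  have hfin := la3_LE hℓ hW h hp hζ hζ' hΓ hϖ (ramDiv (fun θ => wt (lineW W a t) θ * b θ)) hD w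
    (fun θ hθ => by
      obtain ⟨m, rfl⟩ := (eval_lineW_eq_zero hW).1 hθ
      obtain ⟨q, hq⟩ := hvw m
      refine ⟨0, -q, ?_⟩
      rw [hq, pow_zero, pow_one, ← zpow_sub₀ hv0.ne', ← zpow_natCast, ← zpow_mul]
      congr 1
      ring)
  exact hfin

/-- The local exponents of a point given by functions. -/
theorem LE_of_kummer (hℓ : ℓ.Prime) (h : LocCtx v s t) (hζ : IsPrimitiveRoot ζ ℓ)
    (hζ' : IsPrimitiveRoot (algebraMap F M ζ) ℓ)
    (hΓ : LocGrp p F v t (v (t - algebraMap F M s)) Γ) (hϖ : ϖ ^ ℓ = t - algebraMap F M s)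
    (Q : Jac ℓ (lineW W a t)) (z y : ι → M) (e : ι → ℤ)
    (hz : ∀ i, z i ^ ℓ = (t - algebraMap F M s) ^ e i * y i) (hy : ∀ i, v (y i) = 1)
    (hfix : ∀ σ ∈ Γ, ∀ i, (σ : M ≃+* M) (y i) = y i)
    (hQ : ∀ σ ∈ Γ, ∀ n : M → ℤ,
      (∀ i, (σ : M ≃+* M) (z i) = algebraMap F M ζ ^ n (aeval t (a i)) * z i) →
        symJ σ Q - Q = rm n)
    (w : M → ℤ) (hw : ∀ i, w (aeval t (a i)) = e i) :
    LE Γ hζ'.pow_eq_one ϖ (Q - zJ (algebraMap F M ζ) hζ'.pow_eq_one Q) w := by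
  have hts : t - algebraMap F M s ≠ 0 := sub_ne_zero.2 h.ne
  have hϖ0 : ϖ ≠ 0 := by
    rintro rfl
    apply hts
    rw [← hϖ, zero_pow hℓ.ne_zero]
  refine ⟨Q, rfl, fun σ hσ j hj => ?_⟩
  refine hQ σ hσ _ fun i => ?_
  rw [hw i]
  refine la3_exp (σ : M ≃+* M) hϖ0 hj ?_
  have h1 : (z i / ϖ ^ e i) ^ ℓ = y i := by
    rw [la3_div_pow, hϖ, hz, mul_div_cancel_left₀ _ (zpow_ne_zero _ hts)]
  refine h.root_of_unit_fixed hℓ.ne_zero hζ (σ : M ≃+* M) (hΓ.inv σ hσ) (hΓ.fix σ hσ) ?_ ?_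
  · have h2 : v (z i / ϖ ^ e i) ^ ℓ = 1 := by rw [← map_pow, h1, hy]
    exact (pow_eq_one_iff_of_nonneg (v.nonneg _) hℓ.ne_zero).mp h2
  · rw [h1, hfix σ hσ i]

end Pool.Agent.Lib.MP_89bcae_ag.Wt.Lns

end
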