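import Mathlib

section

/-!
# From density zero of the complement to density one
-/

open Filter Topology

open scoped Classical

namespace Pool.Agent.Lib.MP_89bcae_ag

/-- From density zero of the complement to density one. -/
lemma density_one8 (m : ℕ) (Good : (Fin m → ℤ) → Prop)
    (h : Tendsto (fun H : ℕ => ({a : Fin m → ℤ | (∀ i, |a i| ≤ H) ∧ ¬ Good a}.ncard : ℝ) /
      (2 * H + 1) ^ m) atTop (𝓝 0)) :
    Tendsto (fun H : ℕ => ({a : Fin m → ℤ | (∀ i, |a i| ≤ H) ∧ Good a}.ncard : ℝ) /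
      (2 * H + 1) ^ m) atTop (𝓝 1) := by
  have h1 : Tendsto (fun H : ℕ => 1 -
      ({a : Fin m → ℤ | (∀ i, |a i| ≤ H) ∧ ¬ Good a}.ncard : ℝ) / (2 * H + 1) ^ m) atTop
      (𝓝 (1 - 0)) := tendsto_const_nhds.sub h
  rw [sub_zero] at h1
  refine h1.congr fun H => ?_
  have hbox : ({a : Fin m → ℤ | ∀ i, |a i| ≤ H}) =
      ((Fintype.piFinset fun _ : Fin m => Finset.Icc (-(H : ℤ)) H : Finset (Fin m → ℤ)) :
        Set (Fin m → ℤ)) := by
    ext a
    rw [Finset.mem_coe, Fintype.mem_piFinset]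
    simp only [Set.mem_ofPred_eq, Finset.mem_Icc, abs_le]
  have hfin : ({a : Fin m → ℤ | ∀ i, |a i| ≤ H}).Finite := by
    rw [hbox]
    exact Finset.finite_toSet _
  have hcard : (({a : Fin m → ℤ | ∀ i, |a i| ≤ H}).ncard : ℝ) = (2 * H + 1) ^ m := by
    rw [hbox, Set.ncard_coe_finset, Fintype.card_piFinset, Finset.prod_const, Finset.card_univ,
      Fintype.card_fin, Int.card_Icc]
    push_cast
    congr 1
    have h3 : ((H : ℤ) + 1 - -(H : ℤ)).toNat = 2 * H + 1 := by omega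
    rw [h3]
    push_cast
    ring
  have hsplit : ({a : Fin m → ℤ | (∀ i, |a i| ≤ H) ∧ Good a}).ncard +
      ({a : Fin m → ℤ | (∀ i, |a i| ≤ H) ∧ ¬ Good a}).ncard =
      ({a : Fin m → ℤ | ∀ i, |a i| ≤ H}).ncard := by
    have hdisj : Disjoint {a : Fin m → ℤ | (∀ i, |a i| ≤ H) ∧ Good a}
        {a : Fin m → ℤ | (∀ i, |a i| ≤ H) ∧ ¬ Good a} := by
      rw [Set.disjoint_left]
      rintro a ⟨-, h3⟩ ⟨-, h4⟩
      exact h4 h3
    rw [← Set.ncard_union_eq hdisj (hfin.subset fun a ha => ha.1) (hfin.subset fun a ha => ha.1)]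
    congr 1
    ext a
    simp only [Set.mem_union, Set.mem_ofPred_eq]
    tauto
  have hpos : (0 : ℝ) < (2 * (H : ℝ) + 1) ^ m := by positivity
  rw [eq_div_iff hpos.ne', sub_mul, div_mul_cancel₀ _ hpos.ne', one_mul, ← hcard, ← hsplit]
  push_cast
  ring

end Pool.Agent.Lib.MP_89bcae_ag

end

section

/-!
# Integral vectors which avoid a positive proportion of the residue classes modulo infinitely many
primes have density zero
-/

open Filter Topology

open scoped Classical

namespace Pool.Agent.Lib.MP_89bcae_ag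

set_option linter.style.haveILetI false

/-- The number of integers in a residue class in an interval. -/
lemma card_class7 {N : ℕ} (hN : 0 < N) (H : ℕ) (v : ZMod N) :
    (((Finset.Icc (-(H : ℤ)) H).filter fun x : ℤ => (x : ZMod N) = v).card : ℝ) ≤
      (2 * H + 1) / N + 1 := by
  haveI : NeZero N := ⟨hN.ne'⟩
  have h1 : (Finset.Icc (-(H : ℤ)) H).filter (fun x : ℤ => (x : ZMod N) = v) =
      (Finset.Ico (-(H : ℤ)) (H + 1)).filter (fun x : ℤ => x ≡ (v.val : ℤ) [ZMOD (N : ℤ)]) := by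
    ext x
    rw [Finset.mem_filter, Finset.mem_filter, Finset.mem_Icc, Finset.mem_Ico,
      ← ZMod.intCast_eq_intCast_iff, Int.lt_add_one_iff]
    simp
  rw [h1]
  have h2 := Int.Ico_filter_modEq_card (-(H : ℤ)) (H + 1) (r := (N : ℤ)) (by exact_mod_cast hN)
    (v.val : ℤ)
  have h3 : (((Finset.Ico (-(H : ℤ)) (H + 1)).filter
      (fun x : ℤ => x ≡ (v.val : ℤ) [ZMOD (N : ℤ)])).card : ℤ) ≤ ⌊((2 * H + 1 : ℚ) / N + 1)⌋ := by
    rw [h2]
    apply max_le
    · rw [Int.le_floor]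
      push_cast
      have h4 := Int.ceil_lt_add_one (((H : ℚ) + 1 - v.val) / N)
      have h5 := Int.le_ceil ((-(H : ℚ) - v.val) / N)
      have h6 : (2 * (H : ℚ) + 1) / N = ((H : ℚ) + 1 - v.val) / N - (-(H : ℚ) - v.val) / N := by
        ring
      rw [h6]
      linarith
    · apply Int.floor_nonneg.mpr
      positivity
  have h4 : ((((Finset.Ico (-(H : ℤ)) (H + 1)).filter
      (fun x : ℤ => x ≡ (v.val : ℤ) [ZMOD (N : ℤ)])).card : ℤ) : ℚ) ≤ (2 * H + 1 : ℚ) / N + 1 :=
    (Int.cast_le.mpr h3).trans (Int.floor_le _)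
  have h5 : ((((((Finset.Ico (-(H : ℤ)) (H + 1)).filter
      (fun x : ℤ => x ≡ (v.val : ℤ) [ZMOD (N : ℤ)])).card : ℤ) : ℚ)) : ℝ) ≤
      (((2 * H + 1 : ℚ) / N + 1 : ℚ) : ℝ) := by exact_mod_cast h4
  push_cast at h5
  exact h5

/-- The number of integral vectors in a box whose reduction lies in a given set. -/
lemma card_box7 {N : ℕ} (hN : 0 < N) (m H : ℕ) (A : Finset (Fin m → ZMod N)) :
    (({a : Fin m → ℤ | (∀ i, |a i| ≤ H) ∧ (fun i => (a i : ZMod N)) ∈ A}.ncard : ℝ)) ≤
      A.card * ((2 * H + 1) / N + 1) ^ m := by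
  have h1 : {a : Fin m → ℤ | (∀ i, |a i| ≤ H) ∧ (fun i => (a i : ZMod N)) ∈ A} ⊆
      (A.biUnion fun v => Fintype.piFinset fun i =>
        (Finset.Icc (-(H : ℤ)) H).filter fun x : ℤ => (x : ZMod N) = v i : Finset (Fin m → ℤ)) := by
    rintro a ⟨h2, h3⟩
    rw [Finset.coe_biUnion, Set.mem_iUnion₂]
    refine ⟨_, h3, ?_⟩
    rw [Finset.mem_coe, Fintype.mem_piFinset]
    intro i
    rw [Finset.mem_filter, Finset.mem_Icc]
    exact ⟨abs_le.mp (h2 i), rfl⟩
  have h2 := Set.ncard_le_ncard h1 (Finset.finite_toSet _)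
  rw [Set.ncard_coe_finset] at h2
  have h3 : ((A.biUnion fun v => Fintype.piFinset fun i =>
        (Finset.Icc (-(H : ℤ)) H).filter fun x : ℤ => (x : ZMod N) = v i).card : ℝ) ≤
      ∑ v ∈ A, ((Fintype.piFinset fun i =>
        (Finset.Icc (-(H : ℤ)) H).filter fun x : ℤ => (x : ZMod N) = v i).card : ℝ) := by
    exact_mod_cast Finset.card_biUnion_le
  refine (by exact_mod_cast h2 : _ ≤ _).trans (h3.trans ?_)
  rw [← nsmul_eq_mul]
  apply Finset.sum_le_card_nsmul
  intro v _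
  rw [Fintype.card_piFinset]
  push_cast
  calc ∏ i, (((Finset.Icc (-(H : ℤ)) H).filter fun x : ℤ => (x : ZMod N) = v i).card : ℝ)
      ≤ ∏ _i : Fin m, ((2 * (H : ℝ) + 1) / N + 1) :=
        Finset.prod_le_prod (fun _ _ => by positivity) (fun i _ => card_class7 hN H (v i))
    _ = _ := by rw [Finset.prod_const, Finset.card_univ, Fintype.card_fin]


end Pool.Agent.Lib.MP_89bcae_ag

end

section

/-!
# Kummer classes in the span of given vectors

For `x ≠ 0` in `K` and `U` over `K` let `χ_x(U) : ZMod ℓ` be defined by `U y = ζ^{χ_x(U)} y`, `y^ℓ = x`.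
Let `G` be the matrix `(g r s)` modulo `ℓ`, as a linear map `(R → ZMod ℓ) → (T → ZMod ℓ)`; there is a linear
map `N : (T → ZMod ℓ) → (R → ZMod ℓ)` with `G N G = G`. The hypothesis says that
`χ(U) = (χ_{X s}(U))_s` is in the range of `G`, so `χ(U) = G N χ(U)`. Put
`κ r = ∏_s (X s) ^ (m r s)` with `m r s : ℤ` lifting the coefficients of `N`. Then
`X s * (∏_r κ_r ^ g r s)⁻¹` has trivial `χ(U)` for all `U` fixing `K`; an `ℓ`-th root `y` of it in `F` is fixed
by all `U` over `K`, so `y` is in `K`.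
-/

open Polynomial

namespace Pool.Agent.Lib.MP_89bcae_ag.Sup.Lns

universe u

/-- An element of the algebraic closure with `ℓ`-th power in `K` which is fixed by all
automorphisms over `K` is in `K`. -/
private lemma al02_mem_of_fixed {k F : Type u} [Field k] [Field F] [Algebra k F] [IsAlgClosure k F]
    {ℓ : ℕ} (hℓ : (ℓ : k) ≠ 0) (K : IntermediateField k F) (y : F) (hy0 : y ≠ 0)
    (hy : y ^ ℓ ∈ K) (hfix : ∀ U : F ≃ₐ[k] F, (∀ a ∈ K, U a = a) → U y = y) : y ∈ K := by
  have : IsAlgClosed F := IsAlgClosure.isAlgClosed k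
  have : Algebra.IsAlgebraic k F := IsAlgClosure.isAlgebraic
  have : Algebra.IsAlgebraic K F := Algebra.IsAlgebraic.tower_top (K := k) K
  have : IsAlgClosure K F := ⟨inferInstance, inferInstance⟩
  have : Normal K F := IsAlgClosure.normal K F
  have hℓ0 : ℓ ≠ 0 := by
    rintro rfl
    exact hℓ (by simp)
  have hsep : IsSeparable K y := by
    have h1 : (X ^ ℓ - C (⟨y ^ ℓ, hy⟩ : K)).Separable := by
      apply separable_X_pow_sub_C
      · intro h
        apply hℓ
        have h2 := congrArg (algebraMap K F) h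
        rw [map_natCast, map_zero, ← map_natCast (algebraMap k F)] at h2
        exact (map_eq_zero _).mp h2
      · intro h
        have h2 := congrArg (fun z : K => (z : F)) h
        exact hy0 ((pow_eq_zero_iff hℓ0).mp h2)
    refine Polynomial.Separable.of_dvd h1 (minpoly.dvd K y ?_)
    rw [map_sub, map_pow, aeval_X, aeval_C]
    exact sub_self _
  by_contra hyK
  have h3 : y ∉ (⊥ : Subalgebra K F) := by
    intro h
    rw [Algebra.mem_bot] at h
    obtain ⟨z, rfl⟩ := h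
    exact hyK z.2
  rw [notMem_iff_exists_ne_and_isConjRoot hsep (IsAlgClosed.splits _)] at h3
  obtain ⟨y', hne, hconj⟩ := h3
  rw [isConjRoot_iff_exists_algEquiv] at hconj
  obtain ⟨σ, hσ⟩ := hconj
  have h4 := hfix (σ.restrictScalars k).symm (by
    intro a ha
    rw [AlgEquiv.symm_apply_eq]
    exact (σ.commutes ⟨a, ha⟩).symm)
  rw [AlgEquiv.symm_apply_eq] at h4
  apply hne
  apply σ.injective
  rw [hσ]
  exact h4.symm

/-- A generalized inverse of a matrix over a field. -/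
private lemma al02_inverse {K R T : Type*} [Field K] [Fintype R] [Fintype T] (g : R → T → K) :
    ∃ m : R → T → K, ∀ b : R → K, ∀ s, ∑ r, g r s * ∑ s', m r s' * ∑ r', b r' * g r' s' =
      ∑ r, b r * g r s := by
  classical
  let G : (R → K) →ₗ[K] (T → K) :=
    { toFun := fun b s => ∑ r, b r * g r s
      map_add' := fun b b' => by
        funext s
        simp only [Pi.add_apply, add_mul, Finset.sum_add_distrib]
      map_smul' := fun c b => by
        funext s
        simp only [Pi.smul_apply, smul_eq_mul, RingHom.id_apply, Finset.mul_sum, mul_assoc] }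
  have G_apply : ∀ b s, G b s = ∑ r, b r * g r s := fun _ _ => rfl
  obtain ⟨h, hh⟩ := G.rangeRestrict.exists_rightInverse_of_surjective
    (LinearMap.range_eq_top.2 G.surjective_rangeRestrict)
  obtain ⟨N, hN⟩ := LinearMap.exists_extend h
  refine ⟨fun r s => N (Pi.single s 1) r, fun b s => ?_⟩
  have h1 : ∀ v : T → K, ∀ r, N v r = ∑ s', N (Pi.single s' 1) r * v s' := by
    intro v r
    have h2 : v = ∑ s', v s' • (Pi.single s' (1 : K) : T → K) := by
      funext s
      rw [Finset.sum_apply]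
      simp only [Pi.smul_apply, smul_eq_mul, Pi.single_apply, mul_ite, mul_one, mul_zero]
      rw [Finset.sum_ite_eq]
      simp
    conv_lhs => rw [h2]
    rw [map_sum, Finset.sum_apply]
    refine Finset.sum_congr rfl fun s' _ => ?_
    rw [map_smul, Pi.smul_apply, smul_eq_mul, mul_comm]
  have h3 : G (N (G b)) = G b := by
    have h4 : N (G b) = h ⟨G b, LinearMap.mem_range_self G b⟩ := by
      rw [← hN]
      rfl
    rw [h4]
    have h5 := LinearMap.congr_fun hh ⟨G b, LinearMap.mem_range_self G b⟩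
    exact congrArg Subtype.val h5
  have h6 := congrFun h3 s
  rw [G_apply, G_apply] at h6
  rw [← h6]
  refine Finset.sum_congr rfl fun r _ => ?_
  rw [h1, mul_comm]
  rfl

private lemma al02_prod_zpow {F ι : Type*} [Field F] {z : F} (hz : z ≠ 0) (s : Finset ι)
    (f : ι → ℤ) : ∏ i ∈ s, z ^ f i = z ^ ∑ i ∈ s, f i := by
  classical
  induction s using Finset.induction_on with
  | empty => simp
  | insert a s ha ih => rw [Finset.prod_insert ha, Finset.sum_insert ha, zpow_add₀ hz, ih]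

theorem exists_kappa {k F : Type u} [Field k] [Field F] [Algebra k F] [IsAlgClosure k F]
    {ℓ : ℕ} (hp : ℓ.Prime) (hℓ : (ℓ : k) ≠ 0) {ζ : k} (hζ : IsPrimitiveRoot ζ ℓ)
    (K : IntermediateField k F) {T R : Type*} [Finite T] [Fintype R] (X : T → F)
    (hX0 : ∀ s, X s ≠ 0) (hXK : ∀ s, X s ∈ K) (g : R → T → ℤ)
    (hU : ∀ U : F ≃ₐ[k] F, (∀ a ∈ K, U a = a) → ∃ b : R → ℤ, ∀ s, ∀ x : F, x ^ ℓ = X s →
      U x = algebraMap k F ζ ^ (∑ r, b r * g r s) * x) :
    ∃ κ : R → F, (∀ r, κ r ∈ K ∧ κ r ≠ 0) ∧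
      ∀ s, ∃ w ∈ K, w ^ ℓ = X s * (∏ r, κ r ^ g r s)⁻¹ := by
  classical
  have : Fintype T := Fintype.ofFinite T
  have : Fact ℓ.Prime := ⟨hp⟩
  have : IsAlgClosed F := IsAlgClosure.isAlgClosed k
  have hℓ0 : ℓ ≠ 0 := hp.ne_zero
  set z := algebraMap k F ζ with hz
  have hz1 : z ^ (ℓ : ℤ) = 1 := by
    rw [hz, zpow_natCast, ← map_pow, hζ.pow_eq_one, map_one]
  have hz0 : z ≠ 0 := by
    intro h
    rw [h, zpow_natCast, zero_pow hℓ0] at hz1
    exact zero_ne_one hz1
  have hzd : ∀ n : ℤ, (n : ZMod ℓ) = 0 → z ^ n = 1 := by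
    intro n hn
    obtain ⟨j, rfl⟩ := (ZMod.intCast_zmod_eq_zero_iff_dvd _ ℓ).1 hn
    rw [zpow_mul, hz1, one_zpow]
  obtain ⟨m, hm⟩ := al02_inverse (fun r s => (g r s : ZMod ℓ))
  have hx : ∀ s, ∃ x : F, x ^ ℓ = X s := fun s =>
    IsAlgClosed.exists_pow_nat_eq (X s) (Nat.pos_of_ne_zero hℓ0)
  choose x hx using hx
  have hx0 : ∀ s, x s ≠ 0 := by
    intro s h
    have h1 := hx s
    rw [h, zero_pow hℓ0] at h1
    exact hX0 s h1.symm
  refine ⟨fun r => ∏ s, X s ^ ((m r s).val : ℤ), fun r => ⟨?_, ?_⟩, fun s => ?_⟩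
  · exact prod_mem fun s _ => zpow_mem (hXK s) _
  · exact Finset.prod_ne_zero_iff.2 fun s _ => zpow_ne_zero _ (hX0 s)
  · -- the root
    set y : F := x s * (∏ r, (∏ s', x s' ^ ((m r s').val : ℤ)) ^ g r s)⁻¹ with hy
    have hprod0 : ∀ r, (∏ s', x s' ^ ((m r s').val : ℤ)) ≠ 0 := fun r =>
      Finset.prod_ne_zero_iff.2 fun s' _ => zpow_ne_zero _ (hx0 s')
    have hP0 : (∏ r, (∏ s', x s' ^ ((m r s').val : ℤ)) ^ g r s) ≠ 0 :=
      Finset.prod_ne_zero_iff.2 fun r _ => zpow_ne_zero _ (hprod0 r)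
    have hy0 : y ≠ 0 := mul_ne_zero (hx0 s) (inv_ne_zero hP0)
    have hyp : y ^ ℓ = X s * (∏ r, (∏ s', X s' ^ ((m r s').val : ℤ)) ^ g r s)⁻¹ := by
      rw [hy, mul_pow, hx, inv_pow, ← Finset.prod_pow]
      congr 2
      refine Finset.prod_congr rfl fun r _ => ?_
      rw [← zpow_natCast, ← zpow_mul, mul_comm (g r s), zpow_mul, zpow_natCast, ← Finset.prod_pow]
      congr 1
      refine Finset.prod_congr rfl fun s' _ => ?_
      have h1 : (x s' ^ ((m r s').val : ℤ)) ^ ℓ = (x s' ^ ℓ) ^ ((m r s').val : ℤ) := by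
        rw [← zpow_natCast, ← zpow_natCast, ← zpow_mul, ← zpow_mul, mul_comm]
      rw [h1, hx]
    refine ⟨y, ?_, hyp⟩
    refine al02_mem_of_fixed hℓ K y hy0 ?_ ?_
    · rw [hyp]
      exact K.mul_mem (hXK s) (K.inv_mem (prod_mem fun r _ =>
        zpow_mem (prod_mem fun s' _ => zpow_mem (hXK s') _) _))
    · intro U hUK
      obtain ⟨b, hb⟩ := hU U hUK
      have h1 : ∀ s', U (x s') = z ^ (∑ r, b r * g r s') * x s' := fun s' => hb s' (x s') (hx s')
      have h2 : ∀ r, U (∏ s', x s' ^ ((m r s').val : ℤ)) =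
          z ^ (∑ s', ((m r s').val : ℤ) * ∑ r', b r' * g r' s') *
            ∏ s', x s' ^ ((m r s').val : ℤ) := by
        intro r
        rw [map_prod, ← al02_prod_zpow hz0, ← Finset.prod_mul_distrib]
        refine Finset.prod_congr rfl fun s' _ => ?_
        rw [map_zpow₀, h1, mul_zpow, ← zpow_mul]
        congr 2
        ring
      have h3 : U (∏ r, (∏ s', x s' ^ ((m r s').val : ℤ)) ^ g r s) =
          z ^ (∑ r, g r s * ∑ s', ((m r s').val : ℤ) * ∑ r', b r' * g r' s') *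
            ∏ r, (∏ s', x s' ^ ((m r s').val : ℤ)) ^ g r s := by
        rw [map_prod, ← al02_prod_zpow hz0, ← Finset.prod_mul_distrib]
        refine Finset.prod_congr rfl fun r _ => ?_
        rw [map_zpow₀, h2, mul_zpow, ← zpow_mul]
        congr 2
        ring
      have h4 : z ^ (∑ r, b r * g r s) =
          z ^ (∑ r, g r s * ∑ s', ((m r s').val : ℤ) * ∑ r', b r' * g r' s') := by
        have h5 := hzd (∑ r, b r * g r s -
          ∑ r, g r s * ∑ s', ((m r s').val : ℤ) * ∑ r', b r' * g r' s') (by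
            have h6 := hm (fun r => (b r : ZMod ℓ)) s
            push_cast
            rw [sub_eq_zero, ← h6]
            refine Finset.sum_congr rfl fun r _ => ?_
            congr 1
            refine Finset.sum_congr rfl fun s' _ => ?_
            rw [ZMod.natCast_zmod_val])
        rw [zpow_sub₀ hz0, div_eq_one_iff_eq (zpow_ne_zero _ hz0)] at h5
        exact h5
      rw [hy, map_mul, map_inv₀, h3, h1, h4]
      have h7 : z ^ (∑ r, g r s * ∑ s', ((m r s').val : ℤ) * ∑ r', b r' * g r' s') ≠ 0 :=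
        zpow_ne_zero _ hz0
      field_simp

end Pool.Agent.Lib.MP_89bcae_ag.Sup.Lns

end

section

/-!
ROW G09 (100-200 lines). Kummer theory for a continuous character of a subgroup of `Aut(Ω/L)`.

STATEMENT. `Ω/L` normal, `ζ` a primitive `ℓ`-th root of unity fixed by `H`, `χ` a function to `ZMod ℓ`
which is additive on the subgroup `H` of `Aut(Ω/L)` and vanishes on the elements of `H` which fix a
certain finite set `S`. Then there is `z ≠ 0` with `σ z = ζ^{χ(σ)} z` for all `σ` in `H`.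

PROOF. Let `E` be the normal closure in `Ω` of `L(S)`: finite over `L`, stable under `H`. `H` acts on `E`
through a finite group `G` of automorphisms of the field `E` (the image of `H → Aut(E/L)`), and
`χ` factors through `G`. By the linear independence of characters (`linearIndependent_monoidHom`) there
is `y` in `E` with `z = ∑_{s∈G} ζ^{-χ(s)} s(y) ≠ 0`. For `σ` in `H`,
`σ z = ∑ ζ^{-χ(s)} (σ s)(y) = ζ^{χ(σ)} z`.
-/

open Polynomial

open scoped Classical

namespace Pool.Agent.Lib.MP_89bcae_ag.Sup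

theorem g09_pow_val_add {Ω : Type*} [Field Ω] {ℓ : ℕ} [Fact ℓ.Prime] {ζ : Ω} (hζ : ζ ^ ℓ = 1)
    (a b : ZMod ℓ) : ζ ^ (a + b).val = ζ ^ a.val * ζ ^ b.val := by
  rw [ZMod.val_add, ← pow_eq_pow_mod _ hζ, pow_add]

theorem exists_kummer_char {L Ω : Type*} [Field L] [Field Ω] [Algebra L Ω] [Normal L Ω] {ℓ : ℕ}
    [Fact ℓ.Prime] {ζ : Ω} (hζ : IsPrimitiveRoot ζ ℓ) (H : Subgroup (Ω ≃ₐ[L] Ω))
    (hζH : ∀ σ ∈ H, σ ζ = ζ) (χ : (Ω ≃ₐ[L] Ω) → ZMod ℓ)
    (hχ : ∀ σ ∈ H, ∀ τ ∈ H, χ (σ * τ) = χ σ + χ τ) (S : Finset Ω)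
    (hS : ∀ σ ∈ H, (∀ x ∈ S, σ x = x) → χ σ = 0) :
    ∃ z : Ω, z ≠ 0 ∧ ∀ σ ∈ H, σ z = ζ ^ (χ σ).val * z := by
  have hζℓ : ζ ^ ℓ = 1 := hζ.pow_eq_one
  have hζ0 : ζ ≠ 0 := hζ.ne_zero (Fact.out : ℓ.Prime).ne_zero
  have hfd : FiniteDimensional L (IntermediateField.adjoin L (S : Set Ω)) :=
    IntermediateField.finiteDimensional_adjoin
      (fun x _ => (Algebra.IsAlgebraic.isAlgebraic (R := L) x).isIntegral)
  let E : IntermediateField L Ω :=
    IntermediateField.normalClosure L (IntermediateField.adjoin L (S : Set Ω)) Ω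
  have hEn : Normal L E := inferInstanceAs (Normal L
    (IntermediateField.normalClosure L (IntermediateField.adjoin L (S : Set Ω)) Ω))
  have hEfd : FiniteDimensional L E := inferInstanceAs (FiniteDimensional L
    (IntermediateField.normalClosure L (IntermediateField.adjoin L (S : Set Ω)) Ω))
  have hSE : ∀ x ∈ S, x ∈ E := by
    intro x hx
    have h1 : x ∈ IntermediateField.adjoin L (S : Set Ω) :=
      IntermediateField.subset_adjoin L (S : Set Ω) hx
    exact (IntermediateField.le_normalClosure _) h1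
  let res : (Ω ≃ₐ[L] Ω) →* (E ≃ₐ[L] E) := AlgEquiv.restrictNormalHom E
  have hres : ∀ (σ : Ω ≃ₐ[L] Ω) (x : E), algebraMap E Ω (res σ x) = σ (algebraMap E Ω x) :=
    fun σ x => AlgEquiv.restrictNormal_commutes σ E x
  have hfac : ∀ σ ∈ H, ∀ τ ∈ H, res σ = res τ → χ σ = χ τ := by
    intro σ hσ τ hτ h
    have h1 : ∀ x ∈ S, (σ⁻¹ * τ) x = x := by
      intro x hx
      have h2 := hres σ ⟨x, hSE x hx⟩
      have h3 := hres τ ⟨x, hSE x hx⟩
      rw [h] at h2
      have h4 : σ x = τ x := h2.symm.trans h3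
      rw [AlgEquiv.mul_apply, ← h4, ← AlgEquiv.mul_apply, inv_mul_cancel]
      rfl
    have h5 := hS _ (H.mul_mem (H.inv_mem hσ) hτ) h1
    have h6 := hχ σ hσ _ (H.mul_mem (H.inv_mem hσ) hτ)
    rw [mul_inv_cancel_left, h5, add_zero] at h6
    exact h6.symm
  let G : Subgroup (E ≃ₐ[L] E) := H.map res
  have hG : ∀ s : G, ∃ σ ∈ H, res σ = s := by
    intro s
    obtain ⟨σ, hσ, h⟩ := s.2
    exact ⟨σ, hσ, h⟩
  choose lift hlift1 hlift2 using hG
  have hfin : Finite (E ≃ₐ[L] E) := inferInstance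
  let hft : Fintype G := Fintype.ofFinite G
  let Φ : G → (E →* Ω) := fun s =>
    ((algebraMap E Ω : E →+* Ω).comp ((s : E ≃ₐ[L] E) : E →+* E) : E →+* Ω)
  have hΦ : ∀ (s : G) (y : E), Φ s y = algebraMap E Ω ((s : E ≃ₐ[L] E) y) := fun s y => rfl
  have hΦinj : Function.Injective Φ := by
    intro s s' h
    apply Subtype.ext
    apply AlgEquiv.ext
    intro y
    have h1 := DFunLike.congr_fun h y
    rw [hΦ, hΦ] at h1
    exact (algebraMap E Ω).injective h1
  have hlin := (linearIndependent_monoidHom E Ω).comp Φ hΦinj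
  rw [Fintype.linearIndependent_iff] at hlin
  have hex : ∃ y : E, ∑ s : G, ζ ^ (-χ (lift s)).val * Φ s y ≠ 0 := by
    by_contra hcon
    push Not at hcon
    have h1 := hlin (fun s => ζ ^ (-χ (lift s)).val) (by
      funext y
      simp only [Function.comp_apply, Finset.sum_apply, Pi.smul_apply, smul_eq_mul, Pi.zero_apply]
      exact hcon y) 1
    exact pow_ne_zero _ hζ0 h1
  obtain ⟨y, hy⟩ := hex
  refine ⟨∑ s : G, ζ ^ (-χ (lift s)).val * Φ s y, hy, ?_⟩
  intro σ hσ
  have hσG : res σ ∈ G := ⟨σ, hσ, rfl⟩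
  rw [map_sum, Finset.mul_sum]
  apply Fintype.sum_equiv (Equiv.mulLeft (⟨res σ, hσG⟩ : G))
  intro s
  rw [Equiv.coe_mulLeft]
  have h1 : χ (lift (⟨res σ, hσG⟩ * s)) = χ σ + χ (lift s) := by
    rw [← hχ σ hσ _ (hlift1 s)]
    apply hfac _ (hlift1 _) _ (H.mul_mem hσ (hlift1 s))
    rw [hlift2, map_mul, hlift2]
    rfl
  have h2 : -χ (lift s) = χ σ + -χ (lift (⟨res σ, hσG⟩ * s)) := by
    rw [h1]
    ring
  have h3 : Φ (⟨res σ, hσG⟩ * s) y = σ (Φ s y) := by
    rw [hΦ, hΦ, ← hres]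
    rfl
  rw [map_mul, map_pow, hζH σ hσ, h3, h2, g09_pow_val_add hζℓ, mul_assoc]

end Pool.Agent.Lib.MP_89bcae_ag.Sup

end

section

/-!
# Integral vectors which avoid residue classes whose proportions have a divergent sum have density zero
-/

open Filter Topology

open scoped Classical

namespace Pool.Agent.Lib.MP_89bcae_ag

set_option linter.style.haveILetI false

/-- The number of the residue classes which avoid given sets modulo several coprime integers. -/
lemma card_avoidB7 (m : ℕ) (M : ℕ → ℕ) (D : ∀ p : ℕ, Set (Fin m → ZMod (M p))) (δ : ℕ → ℝ)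
    (S : Finset ℕ) (hM0 : ∀ p ∈ S, 0 < M p)
    (hcop : ∀ p ∈ S, ∀ q ∈ S, p ≠ q → Nat.Coprime (M p) (M q))
    (hD : ∀ p ∈ S, δ p * (M p : ℝ) ^ m ≤ (D p).ncard) {N : ℕ}
    (hN : N = ∏ p ∈ S, M p) :
    ∃ (A : Finset (Fin m → ZMod N)),
      (A.card : ℝ) ≤ (∏ p ∈ S, (1 - δ p)) * (N : ℝ) ^ m ∧
      ∀ a : Fin m → ℤ, (∀ p ∈ S, (fun i => (a i : ZMod (M p))) ∉ D p) →
        (fun i => (a i : ZMod N)) ∈ A := by
  haveI : ∀ p : S, NeZero (M p) := fun p => ⟨(hM0 p p.2).ne'⟩
  haveI : NeZero N := ⟨by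
    rw [hN]
    exact Finset.prod_ne_zero_iff.mpr fun p hp => (hM0 p hp).ne'⟩
  have hdvd : ∀ p : S, M p ∣ N := fun p => by
    rw [hN]
    exact Finset.dvd_prod_of_mem _ p.2
  let ψ : (Fin m → ZMod N) → ∀ p : S, (Fin m → ZMod (M p)) :=
    fun v p i => ZMod.castHom (hdvd p) (ZMod (M p)) (v i)
  have hψ : Function.Injective ψ := by
    intro v w h
    funext i
    have h1 : ∀ p : S, ZMod.castHom (hdvd p) (ZMod (M p)) (v i - w i) = 0 := by
      intro p
      rw [map_sub, sub_eq_zero]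
      exact congrFun (congrFun h p) i
    have h2 : ∀ p ∈ S, M p ∣ (v i - w i).val := by
      intro p hp
      have h3 := h1 ⟨p, hp⟩
      rw [ZMod.castHom_apply, ZMod.cast_eq_val, ZMod.natCast_eq_zero_iff] at h3
      exact h3
    have h3 : N ∣ (v i - w i).val := by
      have h5 : ∏ p ∈ S, M p ∣ (v i - w i).val := by
        apply Finset.prod_dvd_of_isRelPrime _ h2
        intro p hp q hq hpq
        exact Nat.coprime_iff_isRelPrime.mp (hcop p hp q hq hpq)
      rwa [← hN] at h5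
    have h4 : (v i - w i).val = 0 := Nat.eq_zero_of_dvd_of_lt h3 (ZMod.val_lt _)
    rw [ZMod.val_eq_zero] at h4
    exact sub_eq_zero.mp h4
  refine ⟨Finset.univ.filter fun v => ∀ p : S, ψ v p ∉ D p, ?_, ?_⟩
  · have h1 : ((Finset.univ.filter fun v => ∀ p : S, ψ v p ∉ D p).card : ℝ) ≤
        ((Fintype.piFinset fun p : S =>
          Finset.univ.filter fun w : Fin m → ZMod (M p) => w ∉ D p).card : ℝ) := by
      rw [Nat.cast_le, ← Finset.card_image_of_injective _ hψ]
      apply Finset.card_le_card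
      intro x hx
      obtain ⟨v, hv, rfl⟩ := Finset.mem_image.mp hx
      rw [Finset.mem_filter] at hv
      rw [Fintype.mem_piFinset]
      intro p
      rw [Finset.mem_filter]
      exact ⟨Finset.mem_univ _, hv.2 p⟩
    refine h1.trans ?_
    rw [Fintype.card_piFinset]
    push_cast
    have h2 : ∀ p : S, ((Finset.univ.filter fun w : Fin m → ZMod (M p) => w ∉ D p).card : ℝ) ≤
        (1 - δ p) * (M p : ℝ) ^ m := by
      intro p
      have h3 := hD p p.2
      have h4 : (D p).ncard = (Finset.univ.filter fun w : Fin m → ZMod (M p) => w ∈ D p).card := by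
        rw [← Set.ncard_coe_finset]
        congr 1
        ext w
        simp
      have h5 := Finset.card_filter_add_card_filter_not
        (s := (Finset.univ : Finset (Fin m → ZMod (M p)))) (fun w => w ∈ D p)
      rw [Finset.card_univ, Fintype.card_fun, ZMod.card, Fintype.card_fin] at h5
      have h6 : (((Finset.univ.filter fun w : Fin m → ZMod (M p) => w ∈ D p).card : ℝ)) +
          ((Finset.univ.filter fun w : Fin m → ZMod (M p) => w ∉ D p).card : ℝ) =
          (M p : ℝ) ^ m := by exact_mod_cast h5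
      rw [h4] at h3
      linarith
    calc ∏ p : S, ((Finset.univ.filter fun w : Fin m → ZMod (M p) => w ∉ D p).card : ℝ)
        ≤ ∏ p : S, ((1 - δ p) * (M p : ℝ) ^ m) :=
          Finset.prod_le_prod (fun _ _ => by positivity) (fun p _ => h2 p)
      _ = _ := by
          rw [Finset.prod_mul_distrib, Finset.prod_coe_sort S (fun p => (1 - δ p)), hN,
            Finset.prod_pow, Finset.prod_coe_sort S (fun p => (M p : ℝ))]
          push_cast
          rfl
  · intro a ha
    rw [Finset.mem_filter]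
    refine ⟨Finset.mem_univ _, fun p => ?_⟩
    have h1 : ψ (fun i => (a i : ZMod N)) p = fun i => (a i : ZMod (M p)) := by
      funext i
      exact map_intCast _ _
    rw [h1]
    exact ha p p.2

/-- **Density zero**, for residue classes modulo coprime integers whose proportions have a divergent
sum. -/
theorem density_crtB7 (m : ℕ) (M : ℕ → ℕ) (D : ∀ p : ℕ, Set (Fin m → ZMod (M p))) (δ : ℕ → ℝ)
    (P : Set ℕ) (hM0 : ∀ p ∈ P, 0 < M p)
    (hcop : ∀ p ∈ P, ∀ q ∈ P, p ≠ q → Nat.Coprime (M p) (M q))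
    (hδ : ∀ T : ℝ, ∃ S : Finset ℕ, (∀ p ∈ S, p ∈ P) ∧ T ≤ ∑ p ∈ S, δ p)
    (hD : ∀ p ∈ P, δ p * (M p : ℝ) ^ m ≤ (D p).ncard) (Good : (Fin m → ℤ) → Prop)
    (hGood : ∀ a, ∀ p ∈ P, (fun i => (a i : ZMod (M p))) ∈ D p → Good a) :
    Tendsto (fun H : ℕ => ({a : Fin m → ℤ | (∀ i, |a i| ≤ H) ∧ ¬ Good a}.ncard : ℝ) /
      (2 * H + 1) ^ m) atTop (𝓝 0) := by
  have hδ1 : ∀ p ∈ P, δ p ≤ 1 := by
    intro p hp
    haveI : NeZero (M p) := ⟨(hM0 p hp).ne'⟩
    have h1 := hD p hp
    have h2 : ((D p).ncard : ℝ) ≤ (M p : ℝ) ^ m := by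
      have h3 : (D p).ncard ≤ (Set.univ : Set (Fin m → ZMod (M p))).ncard :=
        Set.ncard_le_ncard (Set.subset_univ _)
      rw [Set.ncard_univ, Nat.card_eq_fintype_card, Fintype.card_fun, ZMod.card,
        Fintype.card_fin] at h3
      exact_mod_cast h3
    have h4 : (0 : ℝ) < (M p : ℝ) ^ m := by
      have : (0 : ℝ) < M p := by exact_mod_cast hM0 p hp
      positivity
    nlinarith
  rw [Metric.tendsto_atTop]
  intro ε hε
  obtain ⟨S, hSP, hST⟩ := hδ (- Real.log (ε / 2))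
  obtain ⟨N, hN⟩ : ∃ N, N = ∏ p ∈ S, M p := ⟨_, rfl⟩
  obtain ⟨A, hA1, hA2⟩ := card_avoidB7 m M D δ S (fun p hp => hM0 p (hSP p hp))
    (fun p hp q hq => hcop p (hSP p hp) q (hSP q hq)) (fun p hp => hD p (hSP p hp)) hN
  set t := ∏ p ∈ S, (1 - δ p) with htdef
  have ht : t < ε := by
    have h1 : t ≤ ∏ p ∈ S, Real.exp (- δ p) := by
      refine Finset.prod_le_prod (fun p hp => by linarith [hδ1 p (hSP p hp)]) fun p _ => ?_
      linarith [Real.add_one_le_exp (- δ p)]
    rw [← Real.exp_sum, Finset.sum_neg_distrib] at h1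
    have h2 : Real.exp (- ∑ p ∈ S, δ p) ≤ ε / 2 := by
      rw [← Real.le_log_iff_exp_le (by positivity)]
      linarith
    linarith
  have hN0 : 0 < N := by
    rw [hN]
    exact Finset.prod_pos fun p hp => hM0 p (hSP p hp)
  have hNR : (0 : ℝ) < N := by exact_mod_cast hN0
  have hlim : Tendsto (fun H : ℕ => t * (1 + N / (2 * (H : ℝ) + 1)) ^ m) atTop
      (𝓝 (t * (1 + 0) ^ m)) := by
    apply Tendsto.const_mul
    apply Tendsto.pow
    apply Tendsto.const_add
    apply Tendsto.div_atTop tendsto_const_nhds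
    exact tendsto_atTop_add_const_right _ _
      (Tendsto.const_mul_atTop (by norm_num) tendsto_natCast_atTop_atTop)
  rw [add_zero, one_pow, mul_one] at hlim
  obtain ⟨H0, hH0⟩ := (hlim.eventually_lt_const ht).exists_forall_of_atTop
  refine ⟨H0, fun H hH => ?_⟩
  have hpos : (0 : ℝ) < (2 * (H : ℝ) + 1) ^ m := by positivity
  rw [Real.dist_eq, sub_zero, abs_of_nonneg (by positivity), div_lt_iff₀ hpos]
  have h1 : {a : Fin m → ℤ | (∀ i, |a i| ≤ H) ∧ ¬ Good a} ⊆
      {a : Fin m → ℤ | (∀ i, |a i| ≤ H) ∧ (fun i => (a i : ZMod N)) ∈ A} := by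
    rintro a ⟨h2, h3⟩
    refine ⟨h2, hA2 a fun p hp hap => h3 (hGood a p (hSP p hp) hap)⟩
  have hfin : {a : Fin m → ℤ | (∀ i, |a i| ≤ H) ∧ (fun i => (a i : ZMod N)) ∈ A}.Finite := by
    apply Set.Finite.subset (Finset.finite_toSet
      (Fintype.piFinset fun _ : Fin m => Finset.Icc (-(H : ℤ)) H))
    rintro a ⟨h2, -⟩
    rw [Finset.mem_coe, Fintype.mem_piFinset]
    intro i
    rw [Finset.mem_Icc]
    exact abs_le.mp (h2 i)
  have h2 : (({a : Fin m → ℤ | (∀ i, |a i| ≤ H) ∧ ¬ Good a}.ncard : ℝ)) ≤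
      A.card * ((2 * H + 1) / N + 1) ^ m :=
    (by exact_mod_cast Set.ncard_le_ncard h1 hfin : _ ≤ _).trans (card_box7 hN0 m H A)
  refine lt_of_le_of_lt h2 ?_
  have h3 : (A.card : ℝ) * ((2 * H + 1) / N + 1) ^ m ≤
      (t * (1 + N / (2 * (H : ℝ) + 1)) ^ m) * (2 * (H : ℝ) + 1) ^ m := by
    have h4 : (0 : ℝ) ≤ ((2 * H + 1) / N + 1) ^ m := by positivity
    refine (mul_le_mul_of_nonneg_right hA1 h4).trans ?_
    rw [mul_assoc, mul_assoc, ← mul_pow, ← mul_pow]
    have h5 : (N : ℝ) * ((2 * H + 1) / N + 1) = (1 + N / (2 * (H : ℝ) + 1)) * (2 * H + 1) := by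
      field_simp
    rw [h5]
  exact lt_of_le_of_lt h3 (mul_lt_mul_of_pos_right (hH0 H hH) hpos)

/-- The sums of `c / p` over finite sets of large primes are unbounded. -/
theorem sum_primes_unbounded7 {c : ℝ} (hc : 0 < c) (P₀ : ℕ) (T : ℝ) :
    ∃ S : Finset ℕ, (∀ p ∈ S, p.Prime ∧ P₀ ≤ p) ∧ T ≤ ∑ p ∈ S, c / p := by
  by_contra hcon
  push Not at hcon
  apply not_summable_one_div_on_primes
  apply summable_of_sum_le (c := T / c + ∑ p ∈ Finset.range P₀, (1 : ℝ) / p)
  · intro n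
    exact Set.indicator_nonneg (fun _ _ => by positivity) n
  · intro s
    have h1 := hcon (s.filter fun p => p.Prime ∧ P₀ ≤ p) fun p hp => (Finset.mem_filter.mp hp).2
    have h2 : ∑ x ∈ s, Set.indicator {p : ℕ | p.Prime} (fun n : ℕ => (1 : ℝ) / n) x ≤
        ∑ x ∈ s.filter (fun p => p.Prime ∧ P₀ ≤ p), (1 : ℝ) / x +
          ∑ p ∈ Finset.range P₀, (1 : ℝ) / p := by
      have h3 : ∑ x ∈ s, Set.indicator {p : ℕ | p.Prime} (fun n : ℕ => (1 : ℝ) / n) x =
          ∑ x ∈ s.filter (fun p => p.Prime), (1 : ℝ) / x := by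
        rw [Finset.sum_filter]
        refine Finset.sum_congr rfl fun x _ => ?_
        rw [Set.indicator_apply]
        rfl
      rw [h3]
      have h4 : s.filter (fun p => p.Prime) ⊆
          s.filter (fun p => p.Prime ∧ P₀ ≤ p) ∪ Finset.range P₀ := by
        intro p hp
        rw [Finset.mem_filter] at hp
        rw [Finset.mem_union, Finset.mem_filter, Finset.mem_range]
        rcases le_or_gt P₀ p with h | h
        · exact Or.inl ⟨hp.1, hp.2, h⟩
        · exact Or.inr h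
      refine (Finset.sum_le_sum_of_subset_of_nonneg h4 fun _ _ _ => by positivity).trans ?_
      have h5 := Finset.sum_union_inter (s₁ := s.filter (fun p => p.Prime ∧ P₀ ≤ p))
        (s₂ := Finset.range P₀) (f := fun x : ℕ => (1 : ℝ) / x)
      have h6 : (0 : ℝ) ≤ ∑ x ∈ s.filter (fun p => p.Prime ∧ P₀ ≤ p) ∩ Finset.range P₀,
        (1 : ℝ) / x := Finset.sum_nonneg fun _ _ => by positivity
      linarith
    have h7 : ∑ x ∈ s.filter (fun p => p.Prime ∧ P₀ ≤ p), (1 : ℝ) / x ≤ T / c := by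
      rw [le_div_iff₀ hc, Finset.sum_mul]
      refine le_trans (le_of_eq ?_) h1.le
      refine Finset.sum_congr rfl fun x _ => ?_
      ring
    linarith

end Pool.Agent.Lib.MP_89bcae_ag

end

section

/-!
# Invariant classes in the `ℓ`-adic Selmer group of the Jacobian of `y ^ ℓ = ∏ (x - α_i(t))`

`k` is a field, `F` an algebraic closure of `k`, `L` the field of rational functions `F(t)` and `Ω`
an algebraic closure of `L`; the `α_i` are polynomials in `k[t]`.
-/

open Polynomial IsDedekindDomain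

open scoped Classical

namespace Pool.Agent.Lib.MP_89bcae_ag.Superelliptic

universe u


/-- The set of the roots in `F` of the differences `α_i - α_j`. -/
def nodes (k F : Type u) [Field k] [Field F] [Algebra k F] {ι : Type} (α : ι → k[X]) : Set F :=
  {s | ∃ i j, i ≠ j ∧ aeval s (α i) = aeval s (α j)}


end Pool.Agent.Lib.MP_89bcae_ag.Superelliptic

end

section

/-!
# The arithmetic condition for arrangements with weights
-/

open Polynomial IsDedekindDomain

open scoped Classical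

namespace Pool.Agent.Lib.MP_89bcae_ag.Superelliptic

universe u

/-- The arithmetic condition on the roots of the differences `α_i - α_j` for the curve
`y ^ ℓ = ∏ (x - α_i) ^ (W_i)`: let `K` be the field generated by the set `S` of these roots over `k`.
Let `e_i : S → ℤ` be functions such that, for all `s` in `S` and all `i`, the sum of the `W_j e_j(s)`
over the `j` with `α_j(s) = α_i(s)` is divisible by `ℓ`, and let `κ` and the `c_i` be elements of
`Kˣ`. If the element `κ ^ e_i(s) (c_i / c_j) ^ W_j (α_i - α_j)'(s) ^ (-(W_i + W_j) e_i(s))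
∏ (α_i(s) - α_l(s)) ^ (-W_l e_i(s)) ∏ (s - s') ^ (W_j (e_i(s') - e_j(s')))`, where `l` runs through
the indices other than `i`, `j` and `s'` through the elements of `S` other than `s`, is the `ℓ`-th
power of an element of `K` for all `i ≠ j` and all roots `s` of `α_i - α_j`, then there are integers
`b_i` with `e_i(s) ≡ W_j (b_j - b_i)` modulo `ℓ` for all `i ≠ j` and all roots `s` of
`α_i - α_j`. -/
def ArrangementIndependentW (ℓ : ℕ) (k F : Type u) [Field k] [Field F] [Algebra k F] {ι : Type}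
    [Fintype ι] (W : ι → ℕ) (α : ι → k[X]) : Prop :=
  ∀ (e : ι → F → ℤ) (κ : F) (c : ι → F), κ ≠ 0 →
    κ ∈ IntermediateField.adjoin k (nodes k F α) →
    (∀ i, c i ≠ 0 ∧ c i ∈ IntermediateField.adjoin k (nodes k F α)) →
    (∀ s ∈ nodes k F α, ∀ i,
      (ℓ : ℤ) ∣ ∑ j ∈ Finset.univ.filter fun j => aeval s (α j) = aeval s (α i),
        (W j : ℤ) * e j s) →
    (∀ i j s, i ≠ j → aeval s (α i) = aeval s (α j) →
      ∃ w ∈ IntermediateField.adjoin k (nodes k F α),
        w ^ ℓ = κ ^ e i s * (c i / c j) ^ W j *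
          aeval s (derivative (α i - α j)) ^ (-((W i : ℤ) + W j) * e i s) *
          (∏ l ∈ Finset.univ.filter fun l => l ≠ i ∧ l ≠ j,
            (aeval s (α i) - aeval s (α l)) ^ (-(W l : ℤ) * e i s)) *
          ∏ᶠ s' ∈ {s' ∈ nodes k F α | s' ≠ s}, (s - s') ^ ((W j : ℤ) * (e i s' - e j s'))) →
    ∃ b : ι → ℤ, ∀ i j s, i ≠ j → aeval s (α i) = aeval s (α j) →
      (ℓ : ℤ) ∣ e i s - W j * (b j - b i)

end Pool.Agent.Lib.MP_89bcae_ag.Superelliptic

end
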