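import Mathlib
import Pool.Agent.Lib.MP_89bcae_ag.Bk.K006
import Pool.Agent.Lib.MP_89bcae_ag.Bk.K023

section

/-!
# The inflation of cocycles of degree two, discrete groups
-/

namespace Pool.Agent.Lib.MP_89bcae_ag.Bra

section infl

variable {Q A : Type*} [Group Q] [CommGroup A] [MulDistribMulAction Q A]

/-- The cocycle `b` divided by the coboundary of `α`. -/
def infl_tr (b : Q → Q → A) (α : Q → A) : Q → Q → A :=
  fun g h => b g h * α (g * h) * (g • α h * α g)⁻¹

theorem infl_tr_spec (b : Q → Q → A) (α : Q → A) (g h : Q) :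
    b g h * α (g * h) = infl_tr b α g h * (g • α h * α g) := by
  unfold infl_tr
  rw [inv_mul_cancel_right]

theorem infl_tr_cocycle (b : Q → Q → A) (α : Q → A)
    (hb : ∀ g h j, b g h * b (g * h) j = g • b h j * b g (h * j)) (g h j : Q) :
    infl_tr b α g h * infl_tr b α (g * h) j =
      g • infl_tr b α h j * infl_tr b α g (h * j) := by
  unfold infl_tr
  simp only [smul_mul', smul_inv', mul_inv, smul_smul, mul_assoc g h j]
  have h1 := hb g h j
  have h2 : b g h * α (g * h) * ((g • α h)⁻¹ * (α g)⁻¹) *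
      (b (g * h) j * α (g * (h * j)) * (((g * h) • α j)⁻¹ * (α (g * h))⁻¹)) =
      (b g h * b (g * h) j) * (α (g * (h * j)) * ((g • α h)⁻¹ * (α g)⁻¹) *
        ((g * h) • α j)⁻¹) := by
    have h3 : α (g * h) * (α (g * h))⁻¹ = 1 := mul_inv_cancel _
    calc _ = (b g h * b (g * h) j) * (α (g * (h * j)) * ((g • α h)⁻¹ * (α g)⁻¹) *
        ((g * h) • α j)⁻¹) * (α (g * h) * (α (g * h))⁻¹) := by ac_rfl
      _ = _ := by rw [h3, mul_one]
  have h4 : g • b h j * g • α (h * j) * (((g * h) • α j)⁻¹ * (g • α h)⁻¹) *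
      (b g (h * j) * α (g * (h * j)) * ((g • α (h * j))⁻¹ * (α g)⁻¹)) =
      (g • b h j * b g (h * j)) * (α (g * (h * j)) * ((g • α h)⁻¹ * (α g)⁻¹) *
        ((g * h) • α j)⁻¹) := by
    have h3 : (g • α (h * j)) * (g • α (h * j))⁻¹ = 1 := mul_inv_cancel _
    calc _ = (g • b h j * b g (h * j)) * (α (g * (h * j)) * ((g • α h)⁻¹ * (α g)⁻¹) *
        ((g * h) • α j)⁻¹) * ((g • α (h * j)) * (g • α (h * j))⁻¹) := by ac_rfl
      _ = _ := by rw [h3, mul_one]
  rw [h2, h4, h1]

theorem infl_tr_tr (b : Q → Q → A) (α β : Q → A) :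
    infl_tr (infl_tr b α) β = infl_tr b (fun g => α g * β g) := by
  funext g h
  unfold infl_tr
  simp only [smul_mul', mul_inv]
  ac_rfl

/-- a system of representatives modulo `N` -/
theorem infl_rep (N : Subgroup Q) : ∃ r : Q → Q, (∀ g, (r g)⁻¹ * g ∈ N) ∧
    (∀ g, ∀ n ∈ N, r (g * n) = r g) ∧ ∀ n ∈ N, r n = 1 := by
  classical
  have hN : ∀ g : Q, ∀ n ∈ N, (g * n ∈ N ↔ g ∈ N) := fun g n hn =>
    ⟨fun h => by
      have := N.mul_mem h (N.inv_mem hn)
      rwa [mul_inv_cancel_right] at this, fun h => N.mul_mem h hn⟩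
  refine ⟨fun g => if g ∈ N then 1 else Quotient.out (QuotientGroup.mk g : Q ⧸ N), ?_, ?_, ?_⟩
  · intro g
    by_cases h : g ∈ N
    · simp only [if_pos h, inv_one, one_mul]
      exact h
    · simp only [if_neg h]
      have h1 : (QuotientGroup.mk (Quotient.out (QuotientGroup.mk g : Q ⧸ N)) : Q ⧸ N) =
          QuotientGroup.mk g := Quotient.out_eq' _
      exact QuotientGroup.eq.1 h1
  · intro g n hn
    have h1 : (QuotientGroup.mk (g * n) : Q ⧸ N) = QuotientGroup.mk g := by
      refine QuotientGroup.eq.2 ?_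
      have : (g * n)⁻¹ * g = n⁻¹ := by group
      rw [this]
      exact N.inv_mem hn
    simp only [hN g n hn, h1]
  · intro n hn
    simp only [if_pos hn]

theorem infl_aux (N : Subgroup Q) [N.Normal]
    (h90 : ∀ a : Q → A, (∀ g ∈ N, ∀ h ∈ N, a (g * h) = g • a h * a g) →
      ∃ e : A, ∀ g ∈ N, a g * e = g • e)
    (b : Q → Q → A) (hb : ∀ g h j, b g h * b (g * h) j = g • b h j * b g (h * j))
    (a : Q → A) (ha : ∀ g ∈ N, ∀ h ∈ N, b g h * a (g * h) = g • a h * a g) :
    ∃ α : Q → A, (∀ g h j, infl_tr b α g h * infl_tr b α (g * h) j =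
        g • infl_tr b α h j * infl_tr b α g (h * j)) ∧
      ∀ g h, ∀ n ∈ N, infl_tr b α (g * n) h = infl_tr b α g h ∧
        infl_tr b α g (h * n) = infl_tr b α g h ∧ n • infl_tr b α g h = infl_tr b α g h := by
  classical
  -- step 1
  obtain ⟨α1, h1⟩ : ∃ α1 : Q → A, ∀ g ∈ N, ∀ h ∈ N, infl_tr b α1 g h = 1 := by
    refine ⟨fun g => if g ∈ N then a g else 1, ?_⟩
    intro g hg h hh
    unfold infl_tr
    simp only [if_pos hg, if_pos hh, if_pos (N.mul_mem hg hh)]
    rw [ha g hg h hh, mul_inv_cancel]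
  obtain ⟨c1, hc1⟩ : ∃ c, c = infl_tr b α1 := ⟨_, rfl⟩
  have k1 : ∀ g h j, c1 g h * c1 (g * h) j = g • c1 h j * c1 g (h * j) := by
    rw [hc1]; exact infl_tr_cocycle b α1 hb
  rw [← hc1] at h1
  obtain ⟨r, hr1, hr2, hr3⟩ := infl_rep N
  -- step 2
  obtain ⟨α2, h2⟩ : ∃ α2 : Q → A, ∀ g, ∀ n ∈ N, infl_tr c1 α2 g n = 1 := by
    refine ⟨fun g => (c1 (r g) ((r g)⁻¹ * g))⁻¹, ?_⟩
    intro g n hn
    unfold infl_tr
    simp only [hr2 g n hn, hr3 n hn, inv_one, one_mul]
    rw [h1 1 N.one_mem n hn, inv_one, smul_one, one_mul, inv_inv]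
    have h3 := k1 (r g) ((r g)⁻¹ * g) n
    rw [h1 _ (hr1 g) n hn, smul_one, one_mul, mul_inv_cancel_left, mul_assoc] at h3
    rw [← h3, mul_inv_rev, ← mul_assoc, mul_inv_cancel, one_mul, inv_mul_cancel]
  obtain ⟨c2, hc2⟩ : ∃ c, c = infl_tr c1 α2 := ⟨_, rfl⟩
  have k2 : ∀ g h j, c2 g h * c2 (g * h) j = g • c2 h j * c2 g (h * j) := by
    rw [hc2]; exact infl_tr_cocycle c1 α2 k1
  rw [← hc2] at h2
  have hconj : ∀ n ∈ N, ∀ h : Q, h⁻¹ * n * h ∈ N := by
    intro n hn h
    have := (inferInstance : N.Normal).conj_mem n hn h⁻¹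
    rwa [inv_inv] at this
  -- general consequences
  have gen : ∀ c : Q → Q → A, (∀ g h j, c g h * c (g * h) j = g • c h j * c g (h * j)) →
      (∀ g, ∀ n ∈ N, c g n = 1) → (∀ g h, ∀ n ∈ N, c g (h * n) = c g h) ∧
      (∀ g h, ∀ n ∈ N, c (g * n) h = g • c n h * c g h) := by
    intro c hc h0
    have e1 : ∀ g h, ∀ n ∈ N, c g (h * n) = c g h := by
      intro g h n hn
      have := hc g h n
      rw [h0 (g * h) n hn, h0 h n hn, smul_one, one_mul, mul_one] at this
      exact this.symm
    refine ⟨e1, ?_⟩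
    intro g h n hn
    have h5 := hc g n h
    rw [h0 g n hn, one_mul] at h5
    have h6 : n * h = h * (h⁻¹ * n * h) := by group
    rw [h5, h6, e1 g h _ (hconj n hn h)]
  obtain ⟨m1, m2⟩ := gen c2 k2 h2
  -- step 3
  have hE : ∀ h : Q, ∃ e : A, ∀ n ∈ N, c2 n (r h) * e = n • e := by
    intro h
    refine h90 (fun n => c2 n (r h)) ?_
    intro g hg n hn
    exact m2 g (r h) n hn
  choose E hE using hE
  obtain ⟨e, he1, he2, he3⟩ : ∃ e : Q → A, (∀ h, ∀ n ∈ N, c2 n h * e h = n • e h) ∧
      (∀ h, ∀ n ∈ N, e (h * n) = e h) ∧ ∀ n ∈ N, e n = 1 := by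
    refine ⟨fun h => if h ∈ N then 1 else E (r h), ?_, ?_, ?_⟩
    · intro h n hn
      by_cases hh : h ∈ N
      · simp only [if_pos hh]
        rw [h2 n h hh, smul_one, one_mul]
      · simp only [if_neg hh]
        have h7 := hE (r h) n hn
        have h8 : c2 n (r (r h)) = c2 n h := by
          have e1 : c2 n (r (r h)) = c2 n (r h) := by
            have := m1 n (r (r h)) _ (hr1 (r h))
            rw [mul_inv_cancel_left] at this
            exact this.symm
          have e2 : c2 n (r h) = c2 n h := by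
            have := m1 n (r h) _ (hr1 h)
            rw [mul_inv_cancel_left] at this
            exact this.symm
          rw [e1, e2]
        rwa [h8] at h7
    · intro h n hn
      have hN : (h * n ∈ N ↔ h ∈ N) :=
        ⟨fun h' => by
          have := N.mul_mem h' (N.inv_mem hn)
          rwa [mul_inv_cancel_right] at this, fun h' => N.mul_mem h' hn⟩
      simp only [hN, hr2 h n hn]
    · intro n hn
      simp only [if_pos hn]
  -- step 4
  obtain ⟨c3, hc3⟩ : ∃ c, c = infl_tr c2 e := ⟨_, rfl⟩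
  have k3 : ∀ g h j, c3 g h * c3 (g * h) j = g • c3 h j * c3 g (h * j) := by
    rw [hc3]; exact infl_tr_cocycle c2 e k2
  have h3 : ∀ g, ∀ n ∈ N, c3 g n = 1 := by
    intro g n hn
    rw [hc3]
    unfold infl_tr
    rw [h2 g n hn, he2 g n hn, he3 n hn, smul_one, one_mul, mul_inv_cancel]
  have h4 : ∀ n ∈ N, ∀ h, c3 n h = 1 := by
    intro n hn h
    rw [hc3]
    unfold infl_tr
    have h6 : n * h = h * (h⁻¹ * n * h) := by group
    rw [h6, he2 h _ (hconj n hn h), he3 n hn, mul_one, he1 h n hn, mul_inv_cancel]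
  obtain ⟨p1, p2⟩ := gen c3 k3 h3
  have p3 : ∀ g h, ∀ n ∈ N, c3 (g * n) h = c3 g h := by
    intro g h n hn
    rw [p2 g h n hn, h4 n hn h, smul_one, one_mul]
  have key : infl_tr b (fun g => α1 g * α2 g * e g) = c3 := by
    rw [hc3, hc2, hc1, infl_tr_tr, infl_tr_tr]
    congr 1
    funext g
    rw [mul_assoc]
  refine ⟨fun g => α1 g * α2 g * e g, ?_, ?_⟩
  · rw [key]; exact k3
  · rw [key]
    intro g h n hn
    refine ⟨p3 g h n hn, p1 g h n hn, ?_⟩
    have h8 := k3 n g h
    rw [h4 n hn g, h4 n hn (g * h), one_mul, mul_one] at h8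
    have h6 : n * g = g * (g⁻¹ * n * g) := by group
    rw [← h8, h6, p3 g h _ (hconj n hn g)]

end infl

/-- Let the group `Q` act on the field `E` and let `N` be a normal subgroup with trivial `H¹(N, Eˣ)`. A
`2`-cocycle of `Q` whose restriction to `N` is a coboundary is cohomologous to an inflated one.

PROOF. (1) Extend `a` to `Q` by `1` and divide `b` by its coboundary: we may suppose `b n n' = 1` for `n`, `n'` in
`N`. (2) Let `s(g)` be a representative of the coset `g N`, `g = s(g) n(g)`, with `s = 1` on `N`. Divide by the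
coboundary of `g ↦ (b (s g) (n g))⁻¹`: with `β g = (b (s g) (n g))⁻¹` and `b' g h = b g h * β(gh) / (g β(h) β(g))` or its
inverse (check the sign with the cocycle identity for `(s, n, n')`: `b(s,n) b(sn,n') = s b(n,n') b(s,nn')`), one gets
`b' g n = 1` for all `g` and all `n` in `N`. (3) The cocycle identity for `(g, h, n)` gives `b' g (h n) = b' g h`; for
`(g, n, h)`, as `n h = h (h⁻¹ n h)`: `g b'(n,h) * b'(g,h) = b'(g n, h)`. So for fixed `h` the map `n ↦ b'(n,h)` is a
`1`-cocycle of `N`, which depends only on the coset `h N`: by hypothesis there is `e_h`, depending only on `h N`,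
`e_h = 1` for `h` in `N`, with `b'(n,h) = n e_h / e_h`. Divide by the coboundary of `e`: `c(g,h) = b'(g,h) e_{gh} /
(g e_h * e_g)`; then `c(n,h) = 1`, `c(g,n) = 1`, so `c(g n, h) = c(g,h)`, `c(g, h n) = c(g,h)`, and the identity for
`(n, g, h)` gives `n c(g,h) = c(n g, h) = c(g (g⁻¹ n g), h) = c(g,h)`. -/
theorem infl_discrete {Q E : Type*} [Group Q] [Field E] [MulSemiringAction Q E] (N : Subgroup Q)
    [N.Normal]
    (h90 : ∀ a : Q → Eˣ, (∀ g ∈ N, ∀ h ∈ N, (a (g * h) : E) = g • (a h : E) * a g) →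
      ∃ e : Eˣ, ∀ g ∈ N, (a g : E) * e = g • (e : E))
    (b : Q → Q → Eˣ) (hb : ∀ g h j, (b g h : E) * b (g * h) j = g • (b h j : E) * b g (h * j))
    (a : Q → Eˣ) (ha : ∀ g ∈ N, ∀ h ∈ N, (b g h : E) * a (g * h) = g • (a h : E) * a g) :
    ∃ (c : Q → Q → Eˣ) (α : Q → Eˣ),
      (∀ g h, (b g h : E) * α (g * h) = c g h * (g • (α h : E) * α g)) ∧
      (∀ g h j, (c g h : E) * c (g * h) j = g • (c h j : E) * c g (h * j)) ∧
      ∀ g h, ∀ n ∈ N, c (g * n) h = c g h ∧ c g (h * n) = c g h ∧ n • (c g h : E) = c g h := by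
  let act : MulDistribMulAction Q Eˣ :=
    { smul := fun g x => Units.map (MulDistribMulAction.toMonoidHom E g) x
      one_smul := fun x => by
        refine Units.ext ?_
        exact one_smul Q (x : E)
      mul_smul := fun g h x => by
        refine Units.ext ?_
        exact mul_smul g h (x : E)
      smul_mul := fun g x y => map_mul _ x y
      smul_one := fun g => map_one _ }
  have hact : ∀ (g : Q) (x : Eˣ), ((act.toSMul.smul g x : Eˣ) : E) = g • (x : E) := fun _ _ => rfl
  obtain ⟨α, h1, h2⟩ := @infl_aux Q Eˣ _ _ act N _ (by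
      intro a ha
      obtain ⟨e, he⟩ := h90 a (fun g hg h hh => by
        have := congrArg Units.val (ha g hg h hh)
        exact this)
      exact ⟨e, fun g hg => Units.ext (he g hg)⟩) b
    (fun g h j => Units.ext (hb g h j)) a (fun g hg h hh => Units.ext (ha g hg h hh))
  refine ⟨@infl_tr Q Eˣ _ _ act b α, α, ?_, ?_, ?_⟩
  · intro g h
    exact congrArg Units.val (@infl_tr_spec Q Eˣ _ _ act b α g h)
  · intro g h j
    exact congrArg Units.val (h1 g h j)
  · intro g h n hn
    obtain ⟨e1, e2, e3⟩ := h2 g h n hn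
    exact ⟨e1, e2, congrArg Units.val e3⟩

end Pool.Agent.Lib.MP_89bcae_ag.Bra

end

section

/-!
# Common zeros of polynomials over an algebraically closed field
-/

namespace Pool.Agent.Lib.MP_89bcae_ag.Bra.Tsn

open MvPolynomial

/-- The substitution `X i ↦ 0` for `i ∈ T`. -/
noncomputable def t1Sub {C s : Type} [Field C] [DecidableEq s] (T : Finset s) :
    MvPolynomial s C →ₐ[C] MvPolynomial s C :=
  aeval (fun i => if i ∈ T then 0 else X i)

theorem t1Sub_X {C s : Type} [Field C] [DecidableEq s] (T : Finset s) (i : s) :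
    (t1Sub T : MvPolynomial s C →ₐ[C] MvPolynomial s C) (X i) = if i ∈ T then 0 else X i := by
  rw [t1Sub, aeval_X]

theorem t1Sub_comp {C s : Type} [Field C] [DecidableEq s] (T : Finset s) (i : s) :
    (t1Sub (insert i T) : MvPolynomial s C →ₐ[C] MvPolynomial s C).comp (t1Sub T)
      = t1Sub (insert i T) := by
  apply algHom_ext
  intro j
  rw [AlgHom.comp_apply, t1Sub_X]
  by_cases hj : j ∈ T
  · rw [if_pos hj, map_zero, t1Sub_X, if_pos (Finset.mem_insert_of_mem hj)]
  · rw [if_neg hj]

theorem t1_lt {C s : Type} [Field C] [DecidableEq s] (T : Finset s) {i : s} (hi : i ∉ T) :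
    RingHom.ker (t1Sub T : MvPolynomial s C →ₐ[C] MvPolynomial s C) <
      RingHom.ker (t1Sub (insert i T) : MvPolynomial s C →ₐ[C] MvPolynomial s C) := by
  refine lt_of_le_of_ne ?_ ?_
  · intro p hp
    rw [RingHom.mem_ker] at hp ⊢
    rw [← t1Sub_comp, AlgHom.comp_apply, hp, map_zero]
  · intro h
    have h1 : (X i : MvPolynomial s C) ∈
        RingHom.ker (t1Sub (insert i T) : MvPolynomial s C →ₐ[C] MvPolynomial s C) := by
      rw [RingHom.mem_ker, t1Sub_X, if_pos (Finset.mem_insert_self i T)]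
    rw [← h, RingHom.mem_ker, t1Sub_X, if_neg hi] at h1
    exact X_ne_zero i h1

theorem t1_prime {C s : Type} [Field C] [DecidableEq s] (T : Finset s) :
    (RingHom.ker (t1Sub T : MvPolynomial s C →ₐ[C] MvPolynomial s C)).IsPrime :=
  RingHom.ker_isPrime _

theorem t1_height {C s : Type} [Field C] [DecidableEq s] (T : Finset s) :
    (T.card : ℕ∞) ≤
      (RingHom.ker (t1Sub T : MvPolynomial s C →ₐ[C] MvPolynomial s C)).height := by
  induction T using Finset.induction_on with
  | empty => exact zero_le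
  | insert i T hi ih =>
    rw [Finset.card_insert_of_notMem hi]
    have := t1_prime (C := C) T
    have := t1_prime (C := C) (insert i T)
    have h1 := Ideal.height_add_one_le_of_lt_of_isPrime (t1_lt (C := C) T hi)
    refine le_trans ?_ h1
    push_cast
    exact add_le_add_left ih 1

theorem t1_height_max {C s : Type} [Field C] [Fintype s] :
    (Fintype.card s : ℕ∞) ≤ (vanishingIdeal C {(0 : s → C)}).height := by
  classical
  refine le_trans (t1_height (C := C) (Finset.univ : Finset s)) (Ideal.height_mono ?_)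
  intro p hp
  rw [RingHom.mem_ker] at hp
  rw [mem_vanishingIdeal_singleton_iff]
  have h1 : ((aeval (0 : s → C)).comp (t1Sub Finset.univ) : MvPolynomial s C →ₐ[C] C)
      = aeval (0 : s → C) := by
    apply algHom_ext
    intro i
    rw [AlgHom.comp_apply, t1Sub_X, if_pos (Finset.mem_univ i), map_zero, aeval_X]
    rfl
  rw [← h1, AlgHom.comp_apply, hp, map_zero]

/-- Fewer polynomials than variables, vanishing at `0`, have a common zero which is not `0`.

PROOF. `A = MvPolynomial s C`, `I` the ideal generated by the `P j`, `m₀` the ideal of the polynomials which vanish at `0`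
(maximal). Suppose that `0` is the only common zero. By the Nullstellensatz
(`MvPolynomial.vanishingIdeal_zeroLocus_eq_radical` or `isMaximal_iff_eq_vanishingIdeal_singleton` and the Jacobson
property) the radical of `I` is `m₀`, so `m₀` is a minimal prime over `I`, so its height is at most the number of the
`P j` (`Ideal.height_le_spanFinrank`, `Ideal.height_le_spanRank_toENat_of_mem_minimal_primes`). But the height of `m₀`
is `card s`: `ringKrullDim A = card s` is in Mathlib (`MvPolynomial.ringKrullDim_of_isNoetherianRing`,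
`ringKrullDim_eq_zero_of_field`), it is the supremum of the heights of the maximal ideals, all of which are images of
`m₀` under translations (automorphisms); or a direct chain of primes `(X_i : i in T)`.
OTHER WAY (transcendence degree): as in `Pool/Agent/Lib/MP_2619d0_ag/Q2/TLb.lean` (quadratic forms over `ℂ`, on main), if one
can do without homogeneity. -/
theorem exists_common_zero {C s ι : Type} [Field C] [IsAlgClosed C] [Fintype s] [Fintype ι]
    (P : ι → MvPolynomial s C) (h0 : ∀ j, eval 0 (P j) = 0)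
    (hr : Fintype.card ι < Fintype.card s) : ∃ z : s → C, z ≠ 0 ∧ ∀ j, eval z (P j) = 0 := by
  classical
  by_contra hcon
  push Not at hcon
  have hz : zeroLocus C (Ideal.span (Set.range P)) = {(0 : s → C)} := by
    ext z
    rw [mem_zeroLocus_iff, Set.mem_singleton_iff]
    constructor
    · intro h
      by_contra hz
      obtain ⟨j, hj⟩ := hcon z hz
      apply hj
      have := h (P j) (Ideal.subset_span ⟨j, rfl⟩)
      rwa [← coe_aeval_eq_eval]
    · rintro rfl p hp
      have h1 : Ideal.span (Set.range P) ≤ vanishingIdeal C {(0 : s → C)} := by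
        rw [Ideal.span_le]
        rintro _ ⟨j, rfl⟩
        rw [SetLike.mem_coe, mem_vanishingIdeal_singleton_iff]
        have := h0 j
        rwa [← coe_aeval_eq_eval] at this
      exact (mem_vanishingIdeal_singleton_iff _ _).mp (h1 hp)
  have hrad := vanishingIdeal_zeroLocus_eq_radical (K := C) (Ideal.span (Set.range P))
  rw [hz] at hrad
  have hprime : (vanishingIdeal C {(0 : s → C)}).IsPrime := inferInstance
  have hmin : vanishingIdeal C {(0 : s → C)} ∈ (Ideal.span (Set.range P)).minimalPrimes := by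
    rw [← Ideal.radical_minimalPrimes, ← hrad, Ideal.minimalPrimes_eq_subsingleton_self]
    exact rfl
  have h1 := Ideal.height_le_card_of_mem_minimalPrimes_span (Set.finite_range P) hmin
  have h2 := t1_height_max (C := C) (s := s)
  have h3 : (Set.range P).ncard ≤ Fintype.card ι := by
    rw [← Set.image_univ, ← Nat.card_eq_fintype_card, ← Set.ncard_univ]
    exact Set.ncard_image_le Set.finite_univ
  have h4 : (Fintype.card s : ℕ∞) ≤ (Fintype.card ι : ℕ∞) :=
    h2.trans (h1.trans (by exact_mod_cast h3))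
  have h5 : Fintype.card s ≤ Fintype.card ι := by exact_mod_cast h4
  omega

end Pool.Agent.Lib.MP_89bcae_ag.Bra.Tsn

end

section

/-!
# Multilinear maps over the field of rational functions in one variable
-/

namespace Pool.Agent.Lib.MP_89bcae_ag.Bra.Tsn

open Module

section Generic

variable {C : Type} [Field C] {n a c s : ℕ}

/-- the polynomials with coefficients `z` -/
noncomputable def t2V (z : Fin a × Fin (s + 1) → C) (i : Fin a) : Polynomial C :=
  ∑ m : Fin (s + 1), Polynomial.monomial (m : ℕ) (z (i, m))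

/-- the generic polynomials -/
noncomputable def t2U (C : Type) [Field C] (a s : ℕ) (i : Fin a) :
    Polynomial (MvPolynomial (Fin a × Fin (s + 1)) C) :=
  ∑ m : Fin (s + 1), Polynomial.monomial (m : ℕ) (MvPolynomial.X (i, m))

/-- the form with coefficients `p` at the generic polynomials -/
noncomputable def t2F (p : (Fin n → Fin a) → Polynomial C) (s : ℕ) :
    Polynomial (MvPolynomial (Fin a × Fin (s + 1)) C) :=
  ∑ i : Fin n → Fin a, (p i).map MvPolynomial.C * ∏ j, t2U C a s (i j)

/-- the form with coefficients `p` at the polynomials with coefficients `z` -/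
noncomputable def t2G (p : (Fin n → Fin a) → Polynomial C) (z : Fin a × Fin (s + 1) → C) :
    Polynomial C :=
  ∑ i : Fin n → Fin a, p i * ∏ j, t2V z (i j)

theorem t2U_map (z : Fin a × Fin (s + 1) → C) (i : Fin a) :
    (t2U C a s i).map (MvPolynomial.eval z) = t2V z i := by
  rw [t2U, t2V, Polynomial.map_sum]
  refine Finset.sum_congr rfl fun m _ => ?_
  rw [Polynomial.map_monomial, MvPolynomial.eval_X]

theorem t2F_map (p : (Fin n → Fin a) → Polynomial C) (z : Fin a × Fin (s + 1) → C) :
    (t2F p s).map (MvPolynomial.eval z) = t2G p z := by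
  rw [t2F, t2G, Polynomial.map_sum]
  refine Finset.sum_congr rfl fun i _ => ?_
  rw [Polynomial.map_mul, Polynomial.map_prod, Polynomial.map_map]
  congr 1
  · have h : (MvPolynomial.eval z).comp (MvPolynomial.C (R := C) (σ := Fin a × Fin (s + 1))) =
        RingHom.id C := by
      ext x
      simp
    rw [h, Polynomial.map_id]
  · exact Finset.prod_congr rfl fun j _ => t2U_map z (i j)

theorem t2V_zero (i : Fin a) : t2V (0 : Fin a × Fin (s + 1) → C) i = 0 := by
  rw [t2V]
  exact Finset.sum_eq_zero fun m _ => by rw [Pi.zero_apply, Polynomial.monomial_zero_right]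

theorem t2G_zero (hn : 0 < n) (p : (Fin n → Fin a) → Polynomial C) :
    t2G p (0 : Fin a × Fin (s + 1) → C) = 0 := by
  rw [t2G]
  refine Finset.sum_eq_zero fun i _ => ?_
  have h : ∏ j, t2V (0 : Fin a × Fin (s + 1) → C) (i j) = 0 :=
    Finset.prod_eq_zero (Finset.mem_univ (⟨0, hn⟩ : Fin n)) (t2V_zero _)
  rw [h, mul_zero]

theorem t2V_natDegree (z : Fin a × Fin (s + 1) → C) (i : Fin a) : (t2V z i).natDegree ≤ s := by
  rw [t2V]
  refine Polynomial.natDegree_sum_le_of_forall_le _ _ fun m _ => ?_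
  exact (Polynomial.natDegree_monomial_le _).trans (Nat.lt_succ_iff.mp m.2)

theorem t2G_natDegree (p : (Fin n → Fin a) → Polynomial C) (z : Fin a × Fin (s + 1) → C) (D : ℕ)
    (hD : ∀ i, (p i).natDegree ≤ D) : (t2G p z).natDegree ≤ D + n * s := by
  rw [t2G]
  refine Polynomial.natDegree_sum_le_of_forall_le _ _ fun i _ => ?_
  refine Polynomial.natDegree_mul_le.trans (add_le_add (hD i) ?_)
  refine (Polynomial.natDegree_prod_le _ _).trans ?_
  refine (Finset.sum_le_sum fun j _ => t2V_natDegree z (i j)).trans ?_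
  rw [Finset.sum_const, Finset.card_univ, Fintype.card_fin, smul_eq_mul]

theorem t2V_coeff (z : Fin a × Fin (s + 1) → C) (i : Fin a) (m : Fin (s + 1)) :
    (t2V z i).coeff m = z (i, m) := by
  rw [t2V, Polynomial.finsetSum_coeff, Finset.sum_eq_single m]
  · rw [Polynomial.coeff_monomial, if_pos rfl]
  · intro b _ hb
    rw [Polynomial.coeff_monomial, if_neg fun h => hb (Fin.ext h)]
  · intro h
    exact absurd (Finset.mem_univ m) h

/-- the theorem over the polynomials -/
theorem t2_poly [IsAlgClosed C] (hn : 0 < n) (h : n * c < a)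
    (p : (Fin n → Fin a) → Fin c → Polynomial C) :
    ∃ v : Fin a → Polynomial C, v ≠ 0 ∧
      ∀ k, ∑ i : Fin n → Fin a, p i k * ∏ j, v (i j) = 0 := by
  classical
  let D : ℕ := Finset.univ.sup fun x : (Fin n → Fin a) × Fin c => (p x.1 x.2).natDegree
  have hD : ∀ i k, (p i k).natDegree ≤ D := fun i k =>
    Finset.le_sup (f := fun x : (Fin n → Fin a) × Fin c => (p x.1 x.2).natDegree)
      (Finset.mem_univ (i, k))
  let s : ℕ := c * (D + 1)
  have hcard : Fintype.card (Fin c × Fin (n * s + D + 1)) < Fintype.card (Fin a × Fin (s + 1)) := by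
    rw [Fintype.card_prod, Fintype.card_prod, Fintype.card_fin, Fintype.card_fin, Fintype.card_fin,
      Fintype.card_fin]
    calc c * (n * s + D + 1) = n * c * s + s := by
          show c * (n * s + D + 1) = n * c * s + c * (D + 1)
          ring
      _ < (n * c + 1) * (s + 1) := by
          have : (n * c + 1) * (s + 1) = n * c * s + s + (n * c + 1) := by ring
          rw [this]
          omega
      _ ≤ a * (s + 1) := Nat.mul_le_mul_right _ h
  obtain ⟨z, hz0, hz⟩ := exists_common_zero
    (fun x : Fin c × Fin (n * s + D + 1) => (t2F (fun i => p i x.1) s).coeff (x.2 : ℕ))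
    (by
      intro x
      have h1 : MvPolynomial.eval 0 ((t2F (fun i => p i x.1) s).coeff (x.2 : ℕ)) =
          ((t2F (fun i => p i x.1) s).map (MvPolynomial.eval 0)).coeff (x.2 : ℕ) := by
        rw [Polynomial.coeff_map]
      rw [h1, t2F_map, t2G_zero hn, Polynomial.coeff_zero]) hcard
  refine ⟨t2V z, ?_, fun k => ?_⟩
  · intro h0
    apply hz0
    funext ⟨i, m⟩
    rw [← t2V_coeff z i m, h0]
    rfl
  · show t2G (fun i => p i k) z = 0
    ext r
    rw [Polynomial.coeff_zero]
    by_cases hr : r < n * s + D + 1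
    · have h1 := hz (k, ⟨r, hr⟩)
      simp only at h1
      rw [← t2F_map, Polynomial.coeff_map]
      exact h1
    · apply Polynomial.coeff_eq_zero_of_natDegree_lt
      refine (t2G_natDegree _ z D fun i => hD i k).trans_lt ?_
      omega

end Generic

/-- The theorem of Tsen and Lang for the forms of degree `n` defined by multilinear maps.

PROOF. Let `e : Basis (Fin a) Q V`, `f : Basis (Fin c) Q W` (`finBasis`), `Q = RatFunc C`, `ψ_{i,k} = f.repr (Ψ (e ∘ i)) k` for
`i : Fin n → Fin a`. There are `q ≠ 0` in `C[X]` and `p_{i,k}` in `C[X]` with `q ψ_{i,k} = p_{i,k}`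
(`IsLocalization.exist_integer_multiples`), let `D` bound the degrees of the `p_{i,k}`. Let `s = c (D + 1)`. Unknowns
`X_(i,m)`, `i < a`, `m ≤ s`; `R = MvPolynomial (Fin a × Fin (s+1)) C`; `v_i = ∑_m X_(i,m) T^m` in `R[T]`,
`F_k = ∑_i p_{i,k} ∏_j v_{i j}` in `R[T]`, of degree `≤ n s + D`, `P_{k,r}` the coefficient of `T^r` in `F_k`, `r ≤ n s + D`:
`c (n s + D + 1)` polynomials in `a (s + 1)` variables, which vanish at `0` as `n > 0`; `a ≥ n c + 1` gives
`c (n s + D + 1) < a (s + 1)`. Apply `exists_common_zero`: there are `v_i` in `C[T]`, not all zero (a nonzero coefficient), with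
`∑_i p_{i,k} ∏_j v_{i j} = 0` for all `k`; then `v = ∑_i v_i e_i` (image in `Q`) is not zero and by multilinearity
(`MultilinearMap.map_sum`, `map_smul_univ`) `q Ψ(v,..,v) = 0`. (Compare `Pool/Agent/Lib/MP_2619d0_ag/Q2/TLc.lean`, `TLd.lean`
on main, the case of quadratic forms over `ℂ`.) -/
theorem tsen_lang {C V W : Type} [Field C] [IsAlgClosed C] [AddCommGroup V] [Module (RatFunc C) V]
    [FiniteDimensional (RatFunc C) V] [AddCommGroup W] [Module (RatFunc C) W]
    [FiniteDimensional (RatFunc C) W] {n : ℕ} (hn : 0 < n)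
    (Ψ : MultilinearMap (RatFunc C) (fun _ : Fin n => V) W)
    (h : n * finrank (RatFunc C) W < finrank (RatFunc C) V) :
    ∃ v : V, v ≠ 0 ∧ Ψ (fun _ => v) = 0 := by
  classical
  let e := finBasis (RatFunc C) V
  let w := finBasis (RatFunc C) W
  obtain ⟨b, hb⟩ := IsLocalization.exist_integer_multiples_of_finite
    (nonZeroDivisors (Polynomial C))
    (fun x : (Fin n → Fin (finrank (RatFunc C) V)) × Fin (finrank (RatFunc C) W) =>
      w.repr (Ψ fun j => e (x.1 j)) x.2)
  have hc : ∀ (i : Fin n → Fin (finrank (RatFunc C) V)) (k : Fin (finrank (RatFunc C) W)),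
      ∃ p : Polynomial C, algebraMap (Polynomial C) (RatFunc C) p =
        algebraMap (Polynomial C) (RatFunc C) (b : Polynomial C) *
          w.repr (Ψ fun j => e (i j)) k := by
    intro i k
    obtain ⟨p, hp⟩ := hb (i, k)
    exact ⟨p, by rw [hp, Algebra.smul_def]⟩
  choose p hp using hc
  obtain ⟨v, hv0, hv⟩ := t2_poly hn h p
  have hinj : Function.Injective (algebraMap (Polynomial C) (RatFunc C)) :=
    IsFractionRing.injective (Polynomial C) (RatFunc C)
  have hbne : algebraMap (Polynomial C) (RatFunc C) (b : Polynomial C) ≠ 0 := fun h0 =>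
    nonZeroDivisors.ne_zero b.2 (hinj (by rw [h0, map_zero]))
  refine ⟨∑ i, algebraMap (Polynomial C) (RatFunc C) (v i) • e i, ?_, ?_⟩
  · intro h0
    apply hv0
    funext i
    have h1 := Fintype.linearIndependent_iff.mp e.linearIndependent _ h0 i
    exact hinj (by rw [h1, Pi.zero_apply, map_zero])
  · apply w.repr.injective
    rw [map_zero]
    ext k
    rw [Finsupp.zero_apply]
    apply (mul_eq_zero.mp (?_ : algebraMap (Polynomial C) (RatFunc C) (b : Polynomial C) *
      w.repr (Ψ fun _ => ∑ i, algebraMap (Polynomial C) (RatFunc C) (v i) • e i) k = 0)).resolve_left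
      hbne
    have h1 : (Ψ fun _ => ∑ i, algebraMap (Polynomial C) (RatFunc C) (v i) • e i) =
        ∑ i : Fin n → Fin (finrank (RatFunc C) V),
          (∏ j, algebraMap (Polynomial C) (RatFunc C) (v (i j))) • Ψ fun j => e (i j) := by
      rw [MultilinearMap.map_sum Ψ (fun (_ : Fin n) (i : Fin (finrank (RatFunc C) V)) =>
        algebraMap (Polynomial C) (RatFunc C) (v i) • e i)]
      refine Finset.sum_congr rfl fun i _ => ?_
      exact MultilinearMap.map_smul_univ Ψ
        (fun j => algebraMap (Polynomial C) (RatFunc C) (v (i j))) (fun j => e (i j))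
    rw [h1, map_sum, Finsupp.finsetSum_apply, Finset.mul_sum]
    have h2 := congrArg (algebraMap (Polynomial C) (RatFunc C)) (hv k)
    rw [map_zero, map_sum] at h2
    rw [← h2]
    refine Finset.sum_congr rfl fun i _ => ?_
    rw [map_smul, Finsupp.smul_apply, smul_eq_mul, map_mul, map_prod, hp i k]
    ring

end Pool.Agent.Lib.MP_89bcae_ag.Bra.Tsn

end

section

/-!
# The action of a quotient group on the fixed field
-/

namespace Pool.Agent.Lib.MP_89bcae_ag.Bra.Tsn

section

variable {Q E G : Type} [Field Q] [Field E] [Algebra Q E] [Group G] [MulSemiringAction G E]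
  [SMulCommClass G Q E] (N : Subgroup G)

/-- The elements of `E` fixed by `N`. -/
abbrev Fix (Q E : Type) {G : Type} [Field Q] [Field E] [Algebra Q E] [Group G]
    [MulSemiringAction G E] [SMulCommClass G Q E] (N : Subgroup G) : IntermediateField Q E :=
  FixedPoints.intermediateField N

lemma mem_Fix {x : E} : x ∈ Fix Q E N ↔ ∀ n ∈ N, n • x = x := by
  rw [Fix, FixedPoints.mem_intermediateField_iff]
  exact ⟨fun h n hn => h ⟨n, hn⟩, fun h n => h n.1 n.2⟩

variable [N.Normal]

lemma smul_mem_Fix (g : G) {x : E} (hx : x ∈ Fix Q E N) : g • x ∈ Fix Q E N := by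
  rw [mem_Fix] at hx ⊢
  intro n hn
  have h1 : g⁻¹ * n * g ∈ N := by
    have := ‹N.Normal›.conj_mem n hn g⁻¹
    rwa [inv_inv] at this
  rw [smul_smul, show n * g = g * (g⁻¹ * n * g) by group, ← smul_smul, hx _ h1]

lemma smul_eq_of_mk_eq {g h : G} (hgh : (g : G ⧸ N) = h) {x : E} (hx : x ∈ Fix Q E N) :
    g • x = h • x := by
  rw [mem_Fix] at hx
  have h1 : g⁻¹ * h ∈ N := QuotientGroup.eq.1 hgh
  rw [show h = g * (g⁻¹ * h) by group, ← smul_smul, hx _ h1]

/-- The quotient group acts on the fixed field. -/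
noncomputable instance actFix : MulSemiringAction (G ⧸ N) (Fix Q E N) where
  smul q x := ⟨q.out • (x : E), smul_mem_Fix N _ x.2⟩
  one_smul x := by
    refine Subtype.ext ?_
    show (1 : G ⧸ N).out • (x : E) = x
    rw [smul_eq_of_mk_eq (g := (1 : G ⧸ N).out) (h := 1) N (by simp) x.2, one_smul]
  mul_smul q r x := by
    refine Subtype.ext ?_
    show (q * r).out • (x : E) = q.out • r.out • (x : E)
    rw [smul_smul]
    exact smul_eq_of_mk_eq N (by simp) x.2
  smul_zero q := Subtype.ext (smul_zero _)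
  smul_add q x y := Subtype.ext (smul_add _ _ _)
  smul_one q := Subtype.ext (smul_one _)
  smul_mul q x y := Subtype.ext (smul_mul' _ _ _)

lemma mk_smul_Fix (g : G) (x : Fix Q E N) : (((g : G ⧸ N) • x : Fix Q E N) : E) = g • (x : E) := by
  show (g : G ⧸ N).out • (x : E) = g • (x : E)
  exact smul_eq_of_mk_eq N (by simp) x.2

instance : SMulCommClass (G ⧸ N) Q (Fix Q E N) where
  smul_comm q c x := by
    refine Subtype.ext ?_
    show q.out • (c • (x : E)) = c • (q.out • (x : E))
    exact smul_comm _ _ _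

/-- An element which acts trivially on the fixed field lies in the subgroup (Artin). -/
lemma mem_of_forall_smul_Fix [Finite G] [FaithfulSMul G E] (g : G)
    (hg : ∀ x : E, (∀ n ∈ N, n • x = x) → g • x = x) : g ∈ N := by
  let σ : E ≃ₐ[FixedPoints.subfield N E] E :=
    AlgEquiv.ofRingEquiv (f := MulSemiringAction.toRingEquiv G E g) (by
      intro x
      exact hg (x : E) (fun n hn => x.2 ⟨n, hn⟩))
  obtain ⟨n, hn⟩ := FixedPoints.toAlgAut_surjective N E σ
  have h1 : g = (n : G) := by
    refine FaithfulSMul.eq_of_smul_eq_smul (fun (x : E) => ?_)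
    have h2 : (MulSemiringAction.toAlgAut N (FixedPoints.subfield N E) E n) x = σ x := by
      rw [hn]
    exact h2.symm
  rw [h1]
  exact n.2

/-- The action of the quotient group is faithful if `G` is finite and acts faithfully (Artin).

PROOF. Let `g` act trivially on `Fix N` (`mk_smul_Fix`). By Artin (`FixedPoints.toAlgAutMulEquiv` /
`FixedPoints.toAlgAut_bijective` for `N` acting on `E`, `FixedPoints.subfield N E`) the automorphism `g` of `E` over `Fix N`
is that of some `n` in `N`; as `G` acts faithfully on `E`, `g = n`. (`FaithfulSMul` from: `q` acts as `r` implies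
`q⁻¹ r` acts trivially.) -/
theorem faithful_Fix [Finite G] [FaithfulSMul G E] : FaithfulSMul (G ⧸ N) (Fix Q E N) := by
  refine ⟨fun {q r} h => ?_⟩
  induction q using QuotientGroup.induction_on with
  | H g =>
    induction r using QuotientGroup.induction_on with
    | H k =>
      rw [QuotientGroup.eq]
      refine mem_of_forall_smul_Fix (E := E) N (g⁻¹ * k) fun x hx => ?_
      have h1 := congrArg (fun y : Fix Q E N => (y : E)) (h ⟨x, (mem_Fix N).2 hx⟩)
      simp only [mk_smul_Fix] at h1
      rw [← smul_smul, ← h1, inv_smul_smul]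

end

end Pool.Agent.Lib.MP_89bcae_ag.Bra.Tsn

end

section

/-!
# Norms
-/

namespace Pool.Agent.Lib.MP_89bcae_ag.Bra.Tsn

/-- `E` is a finite extension of the field of rational functions over an algebraically closed field, `G` a
finite group of automorphisms of `E`: the fixed elements are norms.

PROOF. `Q = RatFunc C`, `E₁ = FixedPoints.intermediateField G : IntermediateField Q E`, `n = card G`, `V = E × E₁`, `W = E₁`
over `Q`. `[E : E₁] = n` (`FixedPoints.finrank_eq_card` for `FixedPoints.subfield G E`; the same underlying set), so with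
`d = [E₁ : Q]` (`Module.finrank_mul_finrank`): `dim V = n d + d > n d = n dim W`. We may suppose `u ≠ 0` (for `u = 0` take `z = 0`;
`G` is not empty). Number `G` by `Fin n` (`Fintype.equivFin`). `Ψ((z_i, w_i)_i) = π(∏_i g_i z_i) - u ∏_i w_i` with `π : E → E₁` a
`Q`-linear map which is the identity on `E₁` (`Submodule` complement / `LinearMap.exists_leftInverse_of_injective`; it is
used because the product over `G` of one `z` is in `E₁`); or use `V`, `W = E₁`, or `W = E` is NOT possible (dimension). It is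
multilinear (`MultilinearMap.mkPiAlgebra` composed with the linear maps `z ↦ g_i z`, `compLinearMap`, `LinearMap.compMultilinearMap`).
`tsen_lang` gives `(z, w) ≠ 0` with `N(z) := ∏ g z = u w ^ n`. If `w = 0` then `N(z) = 0`, so some `g z = 0`, `z = 0`, a
contradiction. So `N(z / w) = N(z) / w ^ n = u` (`w` is fixed by `G`). -/
theorem exists_norm_eq {C E G : Type} [Field C] [IsAlgClosed C] [Field E] [Algebra (RatFunc C) E]
    [FiniteDimensional (RatFunc C) E] [Group G] [Fintype G] [MulSemiringAction G E]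
    [FaithfulSMul G E] [SMulCommClass G (RatFunc C) E] (u : E) (hu : ∀ g : G, g • u = u) :
    ∃ z : E, ∏ g : G, g • z = u := by
  obtain ⟨E₁, hE₁⟩ : ∃ E₁ : IntermediateField (RatFunc C) E,
      E₁ = (FixedPoints.intermediateField G : IntermediateField (RatFunc C) E) := ⟨_, rfl⟩
  have hmem : ∀ x : E, x ∈ E₁ ↔ ∀ g : G, g • x = x := by
    intro x
    rw [hE₁]
    exact Iff.rfl
  have hfin : Module.finrank E₁ E = Fintype.card G := by
    rw [hE₁]
    exact FixedPoints.finrank_eq_card G E
  have hcard : 0 < Fintype.card G := Fintype.card_pos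
  have hdim : Module.finrank (RatFunc C) E₁ * Fintype.card G = Module.finrank (RatFunc C) E := by
    rw [← hfin]
    exact Module.finrank_mul_finrank (RatFunc C) E₁ E
  have hd : 0 < Module.finrank (RatFunc C) E₁ := Module.finrank_pos
  obtain ⟨π, hπ⟩ := LinearMap.exists_leftInverse_of_injective (E₁.val.toLinearMap)
    (LinearMap.ker_eq_bot.2 (E₁.val.toRingHom.injective))
  have hπ' : ∀ x : E₁, π (x : E) = x := fun x => LinearMap.congr_fun hπ x
  have e : Fin (Fintype.card G) ≃ G := (Fintype.equivFin G).symm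
  let A : MultilinearMap (RatFunc C) (fun _ : Fin (Fintype.card G) => E × E₁) E₁ :=
    π.compMultilinearMap ((MultilinearMap.mkPiAlgebra (RatFunc C) (Fin (Fintype.card G)) E).compLinearMap
      (fun i => (DistribSMul.toLinearMap (RatFunc C) E (e i)).comp (LinearMap.fst (RatFunc C) E E₁)))
  let B : MultilinearMap (RatFunc C) (fun _ : Fin (Fintype.card G) => E × E₁) E₁ :=
    (LinearMap.mulLeft (RatFunc C) (⟨u, (hmem u).2 hu⟩ : E₁)).compMultilinearMap
      ((MultilinearMap.mkPiAlgebra (RatFunc C) (Fin (Fintype.card G)) E₁).compLinearMap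
        (fun _ => LinearMap.snd (RatFunc C) E E₁))
  have hA : ∀ v : E × E₁, A (fun _ => v) = π (∏ i, e i • v.1) := fun v => rfl
  have hB : ∀ v : E × E₁, B (fun _ => v) = (⟨u, (hmem u).2 hu⟩ : E₁) * ∏ _i : Fin (Fintype.card G), v.2 :=
    fun v => rfl
  obtain ⟨v, hv, hΨ⟩ := tsen_lang hcard (A - B) (by
    rw [Module.finrank_prod, ← hdim, mul_comm]
    omega)
  rw [MultilinearMap.sub_apply, sub_eq_zero, hA, hB, Finset.prod_const, Finset.card_univ,
    Fintype.card_fin] at hΨ
  have hprod : ∏ i, e i • v.1 = ∏ g : G, g • v.1 := Equiv.prod_comp e (fun g => g • v.1)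
  have hfix : (∏ g : G, g • v.1) ∈ E₁ := by
    rw [hmem]
    intro h
    rw [Finset.smul_prod']
    simp only [smul_smul]
    exact Equiv.prod_comp (Equiv.mulLeft h) (fun g => g • v.1)
  rw [hprod] at hΨ
  have hN : ∏ g : G, g • v.1 = u * (v.2 : E) ^ Fintype.card G := by
    have h1 := hπ' ⟨_, hfix⟩
    rw [show ((⟨_, hfix⟩ : E₁) : E) = ∏ g : G, g • v.1 from rfl, hΨ] at h1
    have h2 := congrArg (fun x : E₁ => (x : E)) h1
    simpa using h2.symm
  have hw : (v.2 : E) ≠ 0 := by
    intro h0
    rw [h0, zero_pow hcard.ne', mul_zero, Finset.prod_eq_zero_iff] at hN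
    obtain ⟨g, _, hg⟩ := hN
    have h1 : v.1 = 0 := (smul_eq_zero_iff_eq g).1 hg
    exact hv (Prod.ext h1 (Subtype.ext h0))
  refine ⟨v.1 * (v.2 : E)⁻¹, ?_⟩
  have h3 : ∀ g : G, g • (v.1 * (v.2 : E)⁻¹) = (g • v.1) * (v.2 : E)⁻¹ := by
    intro g
    rw [smul_mul', smul_inv'', (hmem _).1 v.2.2 g]
  rw [Finset.prod_congr rfl (fun g _ => h3 g), Finset.prod_mul_distrib, hN, Finset.prod_const,
    Finset.card_univ, inv_pow, mul_inv_cancel_right₀ (pow_ne_zero _ hw)]

end Pool.Agent.Lib.MP_89bcae_ag.Bra.Tsn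

end

section

/-!
# Finite groups
-/

namespace Pool.Agent.Lib.MP_89bcae_ag.Bra.Tsn

/-- Hilbert's theorem 90 for a finite group of automorphisms. -/
theorem h90_fin {G E : Type} [Group G] [Finite G] [Field E] [MulSemiringAction G E]
    [FaithfulSMul G E] (a : G → Eˣ) (ha : ∀ g h : G, (a (g * h) : E) = g • (a h : E) * a g) :
    ∃ e : Eˣ, ∀ g : G, (a g : E) * e = g • (e : E) := by
  classical
  have := Fintype.ofFinite G
  let χ : G → (E →* E) := fun g => (MulSemiringAction.toRingHom G E g : E →* E)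
  have hχ : Function.Injective χ := by
    intro g h hgh
    exact eq_of_smul_eq_smul (α := E) fun x => DFunLike.congr_fun hgh x
  have hli : LinearIndependent E fun g : G => (χ g : E → E) :=
    (linearIndependent_monoidHom E E).comp χ hχ
  obtain ⟨z, hz⟩ : ∃ z : E, ∑ g : G, (a g : E) * g • z ≠ 0 := by
    by_contra hcon
    push Not at hcon
    have h1 := Fintype.linearIndependent_iff.1 hli (fun g => (a g : E)) (by
      funext z
      rw [Finset.sum_apply]
      exact hcon z) 1
    exact (a 1).ne_zero h1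
  have key : ∀ g : G, (a g : E) * g • (∑ h : G, (a h : E) * h • z) = ∑ h : G, (a h : E) * h • z := by
    intro g
    rw [Finset.smul_sum, Finset.mul_sum]
    refine Fintype.sum_equiv (Equiv.mulLeft g) _ _ fun h => ?_
    rw [Equiv.coe_mulLeft, ha, smul_mul', smul_smul]
    ring
  refine ⟨(Units.mk0 _ hz)⁻¹, fun g => ?_⟩
  rw [Units.val_inv_eq_inv_val, Units.val_mk0, smul_inv'']
  have h2 := key g
  have h3 : g • (∑ h : G, (a h : E) * h • z) ≠ 0 := by
    intro h
    rw [h, mul_zero] at h2
    exact hz h2.symm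
  rw [mul_inv_eq_iff_eq_mul₀ hz, eq_inv_mul_iff_mul_eq₀ h3, mul_comm]
  exact h2
/-- The case of `ℓ`-groups. -/
theorem pgroup_cob {C E : Type} [Field C] [IsAlgClosed C] [Field E] [Algebra (RatFunc C) E]
    [FiniteDimensional (RatFunc C) E] {ℓ : ℕ} (hℓ : ℓ.Prime) : ∀ (n : ℕ) (G : Type) [Group G]
    [Finite G] [MulSemiringAction G E] [FaithfulSMul G E] [SMulCommClass G (RatFunc C) E],
    Nat.card G = ℓ ^ n → ∀ b : G → G → Eˣ, DCoc b → DCob b := by
  have hF : Fact ℓ.Prime := ⟨hℓ⟩
  intro n
  induction n with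
  | zero =>
    intro G _ _ _ _ _ hn b hb
    rw [pow_zero, Nat.card_eq_one_iff_unique] at hn
    obtain ⟨hs, -⟩ := hn
    refine ⟨fun _ => b 1 1, fun g h => ?_⟩
    have hg : g = 1 := Subsingleton.elim _ _
    have hh : h = 1 := Subsingleton.elim _ _
    subst hg
    subst hh
    rw [one_smul]
  | succ n ih =>
    intro G _ _ _ _ _ hn b hb
    obtain ⟨N, hN⟩ := Sylow.exists_subgroup_card_pow_prime ℓ (n := n) (G := G)
      (by rw [hn]; exact pow_dvd_pow _ (Nat.le_succ n))
    have hind : N.index = ℓ := by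
      have h1 := N.card_mul_index
      rw [hN, hn, pow_succ] at h1
      exact Nat.eq_of_mul_eq_mul_left (pow_pos hℓ.pos n) h1
    have hnorm : N.Normal := by
      refine Subgroup.normal_of_index_eq_minFac_card ?_
      rw [hind, hn, hℓ.pow_minFac (Nat.succ_ne_zero n)]
    -- the restriction to `N`
    have h1 := ih N hN (fun g h => b g h) fun g h j => hb g h j
    obtain ⟨a, ha⟩ := h1
    classical
    let a' : G → Eˣ := fun g => if hg : g ∈ N then a ⟨g, hg⟩ else 1
    have ha' : ∀ g ∈ N, ∀ h ∈ N, (b g h : E) * a' (g * h) = g • (a' h : E) * a' g := by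
      intro g hg h hh
      have h2 := ha ⟨g, hg⟩ ⟨h, hh⟩
      simp only [a', dif_pos hg, dif_pos hh, dif_pos (N.mul_mem hg hh)]
      exact h2
    -- inflation
    obtain ⟨c, α, hc1, hc2, hc3⟩ := infl_discrete N (fun e he => by
      obtain ⟨f, hf⟩ := h90_fin (G := N) (fun g => e g) fun g h => he g g.2 h h.2
      exact ⟨f, fun g hg => hf ⟨g, hg⟩⟩) b hb a' ha'
    have hcN : ∀ g h, (c g h : E) ∈ Fix (RatFunc C) E N := fun g h =>
      (mem_Fix N).2 fun n hn => (hc3 g h n hn).2.2
    have hout : ∀ g : G, ∃ n ∈ N, (g : G ⧸ N).out = g * n := fun g => by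
      refine ⟨g⁻¹ * (g : G ⧸ N).out, ?_, by group⟩
      rw [← QuotientGroup.eq]
      simp
    have hcout : ∀ g h : G, c (g : G ⧸ N).out (h : G ⧸ N).out = c g h := by
      intro g h
      obtain ⟨n, hn, e1⟩ := hout g
      obtain ⟨n', hn', e2⟩ := hout h
      rw [e1, e2, (hc3 (g * n) h n' hn').2.1, (hc3 g h n hn).1]
    let c' : G ⧸ N → G ⧸ N → (Fix (RatFunc C) E N)ˣ := fun q r =>
      Units.mk0 ⟨c q.out r.out, hcN _ _⟩ fun h => (c q.out r.out).ne_zero (congrArg Subtype.val h)
    have hc'v : ∀ g h : G, (((c' g h : (Fix (RatFunc C) E N)ˣ) : Fix (RatFunc C) E N) : E) =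
        c g h := fun g h => by
      show (c (g : G ⧸ N).out (h : G ⧸ N).out : E) = c g h
      rw [hcout]
    have hc' : DCoc c' := by
      intro q r s
      induction q using QuotientGroup.induction_on with | _ g
      induction r using QuotientGroup.induction_on with | _ h
      induction s using QuotientGroup.induction_on with | _ j
      refine Subtype.ext ?_
      rw [← QuotientGroup.mk_mul, ← QuotientGroup.mk_mul]
      show ((c' g h : Fix (RatFunc C) E N) : E) * ((c' ((g * h : G) : G ⧸ N) j : Fix (RatFunc C) E N) : E)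
        = (((g : G ⧸ N) • (c' h j : Fix (RatFunc C) E N) : Fix (RatFunc C) E N) : E) *
          ((c' g ((h * j : G) : G ⧸ N) : Fix (RatFunc C) E N) : E)
      rw [mk_smul_Fix, hc'v, hc'v, hc'v, hc'v]
      exact hc2 g h j
    have hfaith : FaithfulSMul (G ⧸ N) (Fix (RatFunc C) E N) := faithful_Fix N
    have hcyc : IsCyclic (G ⧸ N) := isCyclic_of_prime_card (p := ℓ) (by
      rw [← hind]; rfl)
    have := Fintype.ofFinite (G ⧸ N)
    obtain ⟨β, hβ⟩ := cyclic_cob hcyc (fun u hu => exists_norm_eq (C := C) u hu) c' hc'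
    refine ⟨fun g => α g * Units.map (Fix (RatFunc C) E N).val.toMonoidHom (β g), fun g h => ?_⟩
    have h3 := congrArg Subtype.val (hβ g h)
    have h4 : (c g h : E) * ((β ((g * h : G) : G ⧸ N) : Fix (RatFunc C) E N) : E) =
        g • ((β (h : G ⧸ N) : Fix (RatFunc C) E N) : E) * ((β (g : G ⧸ N) : Fix (RatFunc C) E N) : E) := by
      rw [← hc'v, ← mk_smul_Fix N g]
      exact h3
    have h5 := hc1 g h
    show (b g h : E) * (α (g * h) * ((β ((g * h : G) : G ⧸ N) : Fix (RatFunc C) E N) : E)) =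
      g • ((α h : E) * ((β (h : G ⧸ N) : Fix (RatFunc C) E N) : E)) *
        (α g * ((β (g : G ⧸ N) : Fix (RatFunc C) E N) : E))
    rw [smul_mul']
    linear_combination ((β ((g * h : G) : G ⧸ N) : Fix (RatFunc C) E N) : E) * h5 +
      (g • (α h : E) * α g) * h4

/-- The `2`-cocycles of a finite group which acts on a finite extension of the field of rational functions are
coboundaries up to powers prime to `ℓ`. -/
theorem finite_level {C E G : Type} [Field C] [IsAlgClosed C] [Field E] [Algebra (RatFunc C) E]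
    [FiniteDimensional (RatFunc C) E] [Group G] [Finite G] [MulSemiringAction G E]
    [FaithfulSMul G E] [SMulCommClass G (RatFunc C) E] {ℓ : ℕ} (hℓ : ℓ.Prime) (b : G → G → Eˣ)
    (hb : DCoc b) : ∃ m : ℕ, m.Coprime ℓ ∧ DCob fun g h => b g h ^ m := by
  classical
  have hF : Fact ℓ.Prime := ⟨hℓ⟩
  let P : Sylow ℓ G := default
  obtain ⟨n, hn⟩ := IsPGroup.iff_card.1 P.isPGroup'
  obtain ⟨a, ha⟩ := pgroup_cob (C := C) hℓ n P hn (fun g h => b g h) fun g h j => hb g h j
  refine ⟨(P : Subgroup G).index, ?_, ?_⟩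
  · exact ((Nat.Prime.coprime_iff_not_dvd hℓ).2 P.not_dvd_index).symm
  · let a' : G → Eˣ := fun g => if hg : g ∈ (P : Subgroup G) then a ⟨g, hg⟩ else 1
    refine transfer (P : Subgroup G) b hb a' fun g hg h hh => ?_
    have h2 := ha ⟨g, hg⟩ ⟨h, hh⟩
    simp only [a', dif_pos hg, dif_pos hh, dif_pos ((P : Subgroup G).mul_mem hg hh)]
    exact h2

end Pool.Agent.Lib.MP_89bcae_ag.Bra.Tsn

end

section

/-!
# Tsen's theorem
-/

namespace Pool.Agent.Lib.MP_89bcae_ag.Bra

/-- Tsen's theorem: `E` is a function field in one variable over the algebraically closed field `C`, `S` an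
algebraic closure of `E`; a continuous `2`-cocycle of `Aut(S/E)` is trivial up to a power prime to `ℓ`.

PROOF. `b` has finitely many values (`finite_range₂`) and `b g h` depends only on the restrictions of `g`, `h` to the finite
set `T` (`hb.continuous`). By `exists_normal` there is a finite normal extension `E'` of `E` in `S` which contains `T` and the values
of `b`. `G := E' ≃ₐ[E] E'` is finite, acts faithfully on `E'` (`AlgEquiv.applyMulSemiringAction`). Let `RatFunc C` act on `E'` through
`E` (`((algebraMap E E').comp (algebraMap (RatFunc C) E)).toAlgebra`; `E'` is finite over it by transitivity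
(`FiniteDimensional.trans`, with the `IsScalarTower (RatFunc C) E E'`); `SMulCommClass G (RatFunc C) E'`). Choose lifts
`λ : G → (S ≃ₐ[E] S)` (`AlgEquiv.restrictNormalHom_surjective`; `IsAlgClosure E S` gives `Normal E S`) and put
`b' g h = b (λ g) (λ h)`, as an element of `E'ˣ`. By continuity, `b g h = b' (g|E') (h|E')` for all `g`, `h`; so `b'` is a cocycle:
`finite_level` gives `m` and `a' : G → E'ˣ`. Take `a g = a' (g|E')` in `Sˣ`; it is continuous: `g|E'` is determined by the
images of a finite set of generators (a basis) of `E'` over `E`. (`hE` is not needed.) -/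
theorem tsen {C E S : Type} [Field C] [IsAlgClosed C] [Field E] [Algebra (RatFunc C) E]
    [FiniteDimensional (RatFunc C) E] [Field S] [Algebra E S] [IsAlgClosure E S] {ℓ : ℕ}
    (hℓ : ℓ.Prime) (hE : (ℓ : E) ≠ 0) (b : (S ≃ₐ[E] S) → (S ≃ₐ[E] S) → Sˣ) (hb : IsCocycle b) :
    ∃ m : ℕ, m.Coprime ℓ ∧ IsCoboundary fun g h => b g h ^ m := by
  classical
  have hN : Normal E S := IsAlgClosure.normal E S
  obtain ⟨T, hT⟩ := hb.continuous
  have hfin : (Set.range fun p : (S ≃ₐ[E] S) × (S ≃ₐ[E] S) => b p.1 p.2).Finite :=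
    finite_range₂ hb.continuous
  obtain ⟨E', hfd, hnorm, hE'⟩ := exists_normal (K := E)
    (T ∪ hfin.toFinset.image (fun u : Sˣ => (u : S)))
  have hTE : ∀ x ∈ T, x ∈ E' := fun x hx => hE' x (Finset.mem_union_left _ hx)
  have hbE : ∀ g h, (b g h : S) ∈ E' := fun g h => hE' _ (Finset.mem_union_right _
    (Finset.mem_image.2 ⟨b g h, hfin.mem_toFinset.2 ⟨(g, h), rfl⟩, rfl⟩))
  -- the restriction map
  let ρ : (S ≃ₐ[E] S) →* (E' ≃ₐ[E] E') := AlgEquiv.restrictNormalHom E'
  have hρ : ∀ (g : S ≃ₐ[E] S) (x : E'), ((ρ g x : E') : S) = g (x : S) := fun g x =>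
    AlgEquiv.restrictNormal_commutes g E' x
  have hsurj : Function.Surjective ρ := AlgEquiv.restrictNormalHom_surjective S
  let lam : (E' ≃ₐ[E] E') → (S ≃ₐ[E] S) := Function.surjInv hsurj
  have hlam : ∀ σ, ρ (lam σ) = σ := Function.surjInv_eq hsurj
  have hagree : ∀ g g' : S ≃ₐ[E] S, ρ g = ρ g' → ∀ x ∈ T, g x = g' x := by
    intro g g' h x hx
    have h1 := hρ g ⟨x, hTE x hx⟩
    have h2 := hρ g' ⟨x, hTE x hx⟩
    rw [h] at h1
    exact h1.symm.trans h2
  have key : ∀ g h g' h', ρ g = ρ g' → ρ h = ρ h' → b g h = b g' h' := fun g h g' h' h1 h2 =>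
    hT g g' h h' (hagree g g' h1) (hagree h h' h2)
  -- the algebra structure
  let alg : Algebra (RatFunc C) E' :=
    ((algebraMap E E').comp (algebraMap (RatFunc C) E)).toAlgebra
  have tow : IsScalarTower (RatFunc C) E E' := IsScalarTower.of_algebraMap_eq' rfl
  have fd : FiniteDimensional (RatFunc C) E' := Module.Finite.trans E E'
  have comm : SMulCommClass (E' ≃ₐ[E] E') (RatFunc C) E' := by
    refine ⟨fun g q x => ?_⟩
    rw [Algebra.smul_def, Algebra.smul_def]
    show g (algebraMap E E' (algebraMap (RatFunc C) E q) * x) =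
      algebraMap E E' (algebraMap (RatFunc C) E q) * g x
    rw [map_mul, AlgEquiv.commutes]
  let b' : (E' ≃ₐ[E] E') → (E' ≃ₐ[E] E') → E'ˣ := fun σ τ =>
    Units.mk0 ⟨(b (lam σ) (lam τ) : S), hbE _ _⟩ (by
      intro h
      exact (b (lam σ) (lam τ)).ne_zero (congrArg Subtype.val h))
  have hb' : ∀ σ τ, ((b' σ τ : E') : S) = b (lam σ) (lam τ) := fun σ τ => rfl
  have hcoc : Tsn.DCoc b' := by
    intro σ τ υ
    apply Subtype.ext
    have h1 := hb.cocycle (lam σ) (lam τ) (lam υ)
    have h2 : b (lam σ * lam τ) (lam υ) = b (lam (σ * τ)) (lam υ) :=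
      key _ _ _ _ (by rw [map_mul, hlam, hlam, hlam]) rfl
    have h3 : b (lam σ) (lam τ * lam υ) = b (lam σ) (lam (τ * υ)) :=
      key _ _ _ _ rfl (by rw [map_mul, hlam, hlam, hlam])
    rw [h2, h3] at h1
    have h4 : ((σ • (b' τ υ : E') : E') : S) = lam σ (b (lam τ) (lam υ) : S) := by
      have h5 := hρ (lam σ) (b' τ υ : E')
      rw [hlam] at h5
      exact h5
    show ((b' σ τ : E') : S) * ((b' (σ * τ) υ : E') : S) =
      ((σ • (b' τ υ : E') : E') : S) * ((b' σ (τ * υ) : E') : S)
    rw [h4]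
    exact h1
  obtain ⟨m, hm, a', ha'⟩ := Tsn.finite_level (C := C) (E := E') (G := E' ≃ₐ[E] E') hℓ b' hcoc
  refine ⟨m, hm, fun g => Units.map (algebraMap E' S : E' →* S) (a' (ρ g)), ?_, ?_⟩
  · refine ⟨Finset.univ.image fun i => ((Module.finBasis E E' i : E') : S), fun g g' h => ?_⟩
    have h1 : (ρ g).toLinearMap = (ρ g').toLinearMap := by
      refine (Module.finBasis E E').ext fun i => ?_
      apply Subtype.ext
      have h2 := h _ (Finset.mem_image.2 ⟨i, Finset.mem_univ _, rfl⟩)
      show ((ρ g (Module.finBasis E E' i) : E') : S) = ((ρ g' (Module.finBasis E E' i) : E') : S)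
      rw [hρ, hρ]
      exact h2
    have h3 : ρ g = ρ g' := AlgEquiv.ext fun x => DFunLike.congr_fun h1 x
    show Units.map (algebraMap E' S : E' →* S) (a' (ρ g)) =
      Units.map (algebraMap E' S : E' →* S) (a' (ρ g'))
    rw [h3]
  · intro g h
    have h1 := congrArg (fun z : E' => (z : S)) (ha' (ρ g) (ρ h))
    have h2 : ((b' (ρ g) (ρ h) : E') : S) = b g h := by
      rw [hb', key _ _ g h (hlam _) (hlam _)]
    have h3 : ((ρ g • (a' (ρ h) : E') : E') : S) = g ((a' (ρ h) : E') : S) := hρ g _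
    have h4 : (((b' (ρ g) (ρ h) ^ m : E'ˣ) : E') : S) = ((b g h ^ m : Sˣ) : S) := by
      rw [Units.val_pow_eq_pow_val, Units.val_pow_eq_pow_val, ← h2]
      rfl
    show ((b g h ^ m : Sˣ) : S) * ((a' (ρ (g * h)) : E') : S) =
      g ((a' (ρ h) : E') : S) * ((a' (ρ g) : E') : S)
    rw [← h4, ← h3, map_mul]
    exact h1

end Pool.Agent.Lib.MP_89bcae_ag.Bra

end
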