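import Mathlib
import Pool.Agent.Lib.MP_89bcae_ag.Bk.K020
import Pool.Agent.Lib.MP_89bcae_ag.Bk.K023

namespace Pool.Agent.Lib.MP_89bcae_ag.Sup
end Pool.Agent.Lib.MP_89bcae_ag.Sup
namespace Pool.Agent.Lib.MP_89bcae_ag.Wt
end Pool.Agent.Lib.MP_89bcae_ag.Wt
namespace Pool.Agent.Lib.MP_89bcae_ag.Wt.Lns
end Pool.Agent.Lib.MP_89bcae_ag.Wt.Lns

section

/-!
# The functions on the special fibre `y ^ ℓ = g(x)`
-/

open Polynomial

open scoped Classical

namespace Pool.Agent.Lib.MP_89bcae_ag.Bra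

/-- `κ = F(x, y)` with `y ^ ℓ = g(x)`, a cyclic extension of degree `ℓ` of `F(x)`. -/
structure Fib (ℓ : ℕ) {F κ : Type} [Field F] [Field κ] [Algebra F κ] (ζ : F) (g : F[X]) (x y : κ) :
    Prop where
  inj : ∀ p : F[X], aeval x p = 0 → p = 0
  eq : y ^ ℓ = aeval x g
  ne : y ≠ 0
  rot : ∃ ρ : κ ≃ₐ[F] κ, ρ x = x ∧ ρ y = algebraMap F κ ζ * y ∧
    ∀ z, ρ z = z → ∃ p q : F[X], q ≠ 0 ∧ z = aeval x p / aeval x q

private lemma c1_intDegree_pow {F : Type} [Field F] {b : RatFunc F} (hb : b ≠ 0) (n : ℕ) :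
    (b ^ n).intDegree = n * b.intDegree := by
  induction n with
  | zero => rw [pow_zero, RatFunc.intDegree_one, Nat.cast_zero, zero_mul]
  | succ n ih =>
    rw [pow_succ, RatFunc.intDegree_mul (pow_ne_zero n hb) hb, ih]
    push_cast
    ring

private lemma c1_irreducible {F : Type} [Field F] {ℓ : ℕ} (hℓ : ℓ.Prime)
    (g : F[X]) (hg : g.natDegree.Coprime ℓ) (h0 : g ≠ 0) :
    Irreducible (X ^ ℓ - C (algebraMap F[X] (RatFunc F) g) : (RatFunc F)[X]) := by
  refine X_pow_sub_C_irreducible_of_prime hℓ fun b hb => ?_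
  have hb0 : b ≠ 0 := by
    rintro rfl
    rw [zero_pow hℓ.ne_zero] at hb
    exact h0 ((FaithfulSMul.algebraMap_injective F[X] (RatFunc F)) (by rw [← hb, map_zero]))
  have h1 := congrArg RatFunc.intDegree hb
  rw [c1_intDegree_pow hb0, RatFunc.intDegree_polynomial] at h1
  have h2 : (ℓ : ℤ) ∣ (g.natDegree : ℤ) := ⟨_, h1.symm⟩
  have h3 : ℓ ∣ g.natDegree := Int.natCast_dvd_natCast.mp h2
  exact hℓ.ne_one (Nat.Coprime.eq_one_of_dvd hg.symm h3)

private lemma c1_fixed {F : Type} [Field F] {ℓ : ℕ} {ζ : F}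
    (hζ : IsPrimitiveRoot ζ ℓ) (P : (RatFunc F)[X]) (hP : P.Monic) (hdeg : P.natDegree = ℓ)
    (r : (RatFunc F)[X]) (hr : ∀ m, ℓ ≤ m → r.coeff m = 0)
    (h : AdjoinRoot.mk P (r.comp (C (algebraMap F (RatFunc F) ζ) * X)) = AdjoinRoot.mk P r) :
    r = C (r.coeff 0) := by
  have h1 : P ∣ r.comp (C (algebraMap F (RatFunc F) ζ) * X) - r := by
    rw [← AdjoinRoot.mk_eq_zero, map_sub, h, sub_self]
  have h2 : r.comp (C (algebraMap F (RatFunc F) ζ) * X) - r = 0 := by
    refine Polynomial.eq_zero_of_dvd_of_degree_lt h1 ?_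
    rw [Polynomial.degree_eq_natDegree hP.ne_zero, hdeg, degree_lt_iff_coeff_zero]
    intro m hm
    rw [coeff_sub, comp_C_mul_X_coeff, hr m hm, zero_mul, sub_zero]
  ext n
  rw [coeff_C]
  split_ifs with hn
  · rw [hn]
  · rcases Nat.lt_or_ge n ℓ with hlt | hge
    · have h3 := congrArg (fun p => coeff p n) h2
      simp only [coeff_sub, comp_C_mul_X_coeff, coeff_zero] at h3
      have h4 : r.coeff n * ((algebraMap F (RatFunc F) ζ) ^ n - 1) = 0 := by
        rw [← h3]
        ring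
      rcases mul_eq_zero.mp h4 with h5 | h5
      · exact h5
      · exfalso
        have h6 : algebraMap F (RatFunc F) (ζ ^ n) = algebraMap F (RatFunc F) 1 := by
          rw [map_pow, map_one]
          exact sub_eq_zero.mp h5
        have h7 := (algebraMap F (RatFunc F)).injective h6
        have h8 := hζ.dvd_of_pow_eq_one n h7
        exact absurd (Nat.le_of_dvd (Nat.pos_of_ne_zero hn) h8) (not_le.mpr hlt)
    · exact hr n hge

/-- Existence. PROOF. `κ = AdjoinRoot (X ^ ℓ - C g : (RatFunc F)[X])`, a field as the polynomial is irreducible: `g` is not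
an `ℓ`-th power in `RatFunc F` (its degree is prime to `ℓ`; compare degrees, `RatFunc.intDegree`), then
`X_pow_sub_C_irreducible_of_prime`. `ρ` is the map of root `y ↦ ζ y`. Fixed elements: `z = ∑_{i < ℓ} r_i y ^ i` (power
basis), `ρ z = ∑ r_i ζ ^ i y ^ i`, so `r_i = 0` for `0 < i < ℓ`. -/
theorem exists_fib {F : Type} [Field F] {ℓ : ℕ} (hℓ : ℓ.Prime) {ζ : F} (hζ : IsPrimitiveRoot ζ ℓ)
    (g : F[X]) (hg : g.natDegree.Coprime ℓ) (h0 : g ≠ 0) :
    ∃ (κ : Type) (_ : Field κ) (_ : Algebra F κ) (x y : κ), Fib ℓ ζ g x y := by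
  obtain ⟨P, hPdef⟩ : ∃ P : (RatFunc F)[X],
      P = X ^ ℓ - C (algebraMap F[X] (RatFunc F) g) := ⟨_, rfl⟩
  have hirr : Irreducible P := by
    rw [hPdef]
    exact c1_irreducible hℓ g hg h0
  have hmonic : P.Monic := by
    rw [hPdef]
    exact monic_X_pow_sub_C _ hℓ.ne_zero
  have hdeg : P.natDegree = ℓ := by
    rw [hPdef]
    exact natDegree_X_pow_sub_C
  have _ : Fact (Irreducible P) := ⟨hirr⟩
  have hfin : FiniteDimensional (RatFunc F) (AdjoinRoot P) :=
    (AdjoinRoot.powerBasis hirr.ne_zero).finite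
  have hev : ∀ {A : Type} [CommRing A] (φ : RatFunc F →+* A) (a : A),
      P.eval₂ φ a = a ^ ℓ - φ (algebraMap F[X] (RatFunc F) g) := by
    intro A _ φ a
    rw [hPdef, eval₂_sub, eval₂_pow, eval₂_X, eval₂_C]
  have hyℓ : AdjoinRoot.root P ^ ℓ =
      algebraMap (RatFunc F) (AdjoinRoot P) (algebraMap F[X] (RatFunc F) g) := by
    have h := AdjoinRoot.eval₂_root P
    rw [hev, sub_eq_zero] at h
    exact h
  have hpoly : ∀ p : F[X], aeval (algebraMap (RatFunc F) (AdjoinRoot P) RatFunc.X) p =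
      algebraMap (RatFunc F) (AdjoinRoot P) (algebraMap F[X] (RatFunc F) p) := by
    intro p
    rw [aeval_algebraMap_apply, ← RatFunc.algebraMap_X, aeval_algebraMap_apply, aeval_X_left_apply]
  have hinj : Function.Injective (algebraMap F[X] (RatFunc F)) :=
    FaithfulSMul.algebraMap_injective F[X] (RatFunc F)
  have hinj2 : Function.Injective (algebraMap (RatFunc F) (AdjoinRoot P)) :=
    (algebraMap (RatFunc F) (AdjoinRoot P)).injective
  refine ⟨AdjoinRoot P, inferInstance, inferInstance,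
    algebraMap (RatFunc F) (AdjoinRoot P) RatFunc.X, AdjoinRoot.root P, ?_, ?_, ?_, ?_⟩
  · intro p hp
    rw [hpoly] at hp
    exact hinj (hinj2 (by rw [hp, map_zero, map_zero]))
  · rw [hpoly]
    exact hyℓ
  · intro hy
    rw [hy, zero_pow hℓ.ne_zero] at hyℓ
    exact h0 (hinj (hinj2 (by rw [← hyℓ, map_zero, map_zero])))
  · obtain ⟨ζ', hζ'⟩ : ∃ ζ' : RatFunc F, ζ' = algebraMap F (RatFunc F) ζ := ⟨_, rfl⟩
    obtain ⟨ρ, hρ⟩ : ∃ ρ : AdjoinRoot P →ₐ[RatFunc F] AdjoinRoot P,
        ρ (AdjoinRoot.root P) = algebraMap (RatFunc F) (AdjoinRoot P) ζ' * AdjoinRoot.root P := by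
      refine ⟨AdjoinRoot.liftAlgHom P (Algebra.ofId _ _)
        (algebraMap (RatFunc F) (AdjoinRoot P) ζ' * AdjoinRoot.root P) ?_,
        AdjoinRoot.liftAlgHom_root _ _ _ _⟩
      have hz : ζ' ^ ℓ = 1 := by rw [hζ', ← map_pow, hζ.pow_eq_one, map_one]
      rw [hev, mul_pow, ← map_pow, hz, map_one, one_mul, hyℓ]
      exact sub_self _
    have hρmk : ∀ r : (RatFunc F)[X], ρ (AdjoinRoot.mk P r) =
        AdjoinRoot.mk P (r.comp (C ζ' * X)) := by
      intro r
      rw [← AdjoinRoot.aeval_eq, ← aeval_algHom_apply, hρ, ← AdjoinRoot.aeval_eq, aeval_comp,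
        map_mul, aeval_C, aeval_X]
    refine ⟨(AlgEquiv.ofBijective ρ ρ.bijective).restrictScalars F, ?_, ?_, ?_⟩
    · exact ρ.commutes _
    · show ρ (AdjoinRoot.root P) = _
      rw [hρ, hζ']
      rfl
    · intro z hz
      have hz' : ρ z = z := hz
      obtain ⟨r, hr⟩ : ∃ r : (RatFunc F)[X], r = AdjoinRoot.modByMonicHom hmonic z := ⟨_, rfl⟩
      have h1 : AdjoinRoot.mk P r = z := by
        rw [hr]
        exact AdjoinRoot.mk_leftInverse hmonic z
      have h2 : ∀ m, ℓ ≤ m → r.coeff m = 0 := by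
        rw [← degree_lt_iff_coeff_zero]
        obtain ⟨f, rfl⟩ := AdjoinRoot.mk_surjective z
        rw [hr, AdjoinRoot.modByMonicHom_mk]
        refine (degree_modByMonic_lt f hmonic).trans_eq ?_
        rw [degree_eq_natDegree hmonic.ne_zero, hdeg]
      rw [← h1, hρmk, hζ'] at hz'
      have h3 := c1_fixed hζ P hmonic hdeg r h2 hz'
      refine ⟨(r.coeff 0).num, (r.coeff 0).denom, RatFunc.denom_ne_zero _, ?_⟩
      rw [hpoly, hpoly, ← map_div₀, RatFunc.num_div_denom, ← h1]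
      nth_rewrite 1 [h3]
      exact AdjoinRoot.mk_C _

/-- Kummer theory. PROOF. `w ≠ 0`; `ρ w / w` is a root of unity of order dividing `ℓ`, so `= ζ ^ c`, `0 ≤ c < ℓ`, and
`w / y ^ c` is fixed by `ρ`, `w = y ^ c * p(x) / q(x)`. So `∏ (x - r) ^ (G r) = g(x) ^ c * (p(x) / q(x)) ^ ℓ`; apply
`dvd_of_prod_eq_pow` (`Wl/Gen.lean`) with exponents `G r - c * V r`. Write `n * G r` for the exponents: the
multiplication by `n`, prime to `ℓ`, is undone at the end. -/
theorem kummer_fib {F κ : Type} [Field F] [Field κ] [Algebra F κ] {ℓ : ℕ} (hℓ : ℓ.Prime) {ζ : F}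
    (hζ : IsPrimitiveRoot ζ ℓ) (R : Finset F) (V : F → ℕ) {x y : κ}
    (h : Fib ℓ ζ (∏ r ∈ R, (X - C r) ^ V r) x y) (G : F → ℤ) (n : ℕ) (hn : n.Coprime ℓ) (w : κ)
    (hw : (∏ r ∈ R, (x - algebraMap F κ r) ^ G r) ^ n = w ^ ℓ) :
    ∃ c : ℤ, ∀ r ∈ R, (ℓ : ℤ) ∣ G r - c * V r := by
  have hℓ0 : ℓ ≠ 0 := hℓ.ne_zero
  have hinj : Function.Injective (aeval x : F[X] →ₐ[F] κ) :=
    (injective_iff_map_eq_zero _).2 h.inj
  have hx : ∀ r : F, x - algebraMap F κ r ≠ 0 := fun r h0 => by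
    have h1 : aeval x (X - C r) = 0 := by rw [map_sub, aeval_X, aeval_C, h0]
    exact X_sub_C_ne_zero r (h.inj _ h1)
  obtain ⟨ρ, hρx, hρy, hfix⟩ := h.rot
  have hP0 : (∏ r ∈ R, (x - algebraMap F κ r) ^ G r) ≠ 0 :=
    Finset.prod_ne_zero_iff.2 fun r _ => zpow_ne_zero _ (hx r)
  have hρP : ρ (∏ r ∈ R, (x - algebraMap F κ r) ^ G r) = ∏ r ∈ R, (x - algebraMap F κ r) ^ G r := by
    rw [map_prod]
    refine Finset.prod_congr rfl fun r _ => ?_
    rw [map_zpow₀, map_sub, hρx, AlgEquiv.commutes]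
  have hw0 : w ≠ 0 := by
    rintro rfl
    rw [zero_pow hℓ0] at hw
    exact pow_ne_zero _ hP0 hw
  have hρw : (ρ w) ^ ℓ = w ^ ℓ := by
    rw [← map_pow, ← hw, map_pow, hρP]
  have hζ' : IsPrimitiveRoot (algebraMap F κ ζ) ℓ := hζ.map_of_injective (algebraMap F κ).injective
  have : NeZero ℓ := ⟨hℓ0⟩
  have h1 : (ρ w / w) ^ ℓ = 1 := by
    rw [div_pow, hρw, div_self (pow_ne_zero _ hw0)]
  obtain ⟨c, -, hc⟩ := hζ'.eq_pow_of_pow_eq_one h1
  have hρw' : ρ w = algebraMap F κ ζ ^ c * w := by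
    rw [hc, div_mul_cancel₀ _ hw0]
  have hζ0 : algebraMap F κ ζ ≠ 0 := hζ'.ne_zero hℓ0
  have hy0 : y ≠ 0 := h.ne
  have hz : ρ (w / y ^ c) = w / y ^ c := by
    rw [map_div₀, map_pow, hρy, hρw', mul_pow, mul_div_mul_left _ _ (pow_ne_zero _ hζ0)]
  obtain ⟨p, q, hq, hpq⟩ := hfix _ hz
  have hw2 : w = y ^ c * (aeval x p / aeval x q) := by
    rw [← hpq, mul_div_cancel₀ _ (pow_ne_zero _ hy0)]
  have hg : aeval x (∏ r ∈ R, (X - C r) ^ V r) = ∏ r ∈ R, (x - algebraMap F κ r) ^ V r := by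
    rw [map_prod]
    refine Finset.prod_congr rfl fun r _ => ?_
    rw [map_pow, map_sub, aeval_X, aeval_C]
  have hg0 : (∏ r ∈ R, (x - algebraMap F κ r) ^ V r) ^ c ≠ 0 :=
    pow_ne_zero _ (Finset.prod_ne_zero_iff.2 fun r _ => pow_ne_zero _ (hx r))
  have key : ∏ r ∈ R, (x - algebraMap F κ r) ^ ((n : ℤ) * G r - (c : ℤ) * V r) =
      algebraMap F κ 1 * (aeval x p / aeval x q) ^ ℓ := by
    have h2 : (∏ r ∈ R, (x - algebraMap F κ r) ^ ((n : ℤ) * G r - (c : ℤ) * V r)) *
        (∏ r ∈ R, (x - algebraMap F κ r) ^ V r) ^ c = (∏ r ∈ R, (x - algebraMap F κ r) ^ G r) ^ n := by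
      rw [← Finset.prod_pow, ← Finset.prod_pow, ← Finset.prod_mul_distrib]
      refine Finset.prod_congr rfl fun r _ => ?_
      rw [← zpow_natCast, ← zpow_natCast, ← zpow_natCast, ← zpow_mul, ← zpow_mul, ← zpow_add₀ (hx r)]
      congr 1
      ring
    have h3 : w ^ ℓ = (∏ r ∈ R, (x - algebraMap F κ r) ^ V r) ^ c * (aeval x p / aeval x q) ^ ℓ := by
      rw [hw2, mul_pow, ← pow_mul, mul_comm c ℓ, pow_mul, h.eq, hg]
    rw [hw, h3] at h2
    rw [map_one, one_mul]
    exact mul_right_cancel₀ hg0 (h2.trans (mul_comm _ _))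
  have hdvd := Wt.Lns.dvd_of_prod_eq_pow hinj R (fun r => (n : ℤ) * G r - (c : ℤ) * V r) 1 one_ne_zero p q hq key
  obtain ⟨a, b, hab⟩ := (Nat.isCoprime_iff_coprime.2 hn : IsCoprime (n : ℤ) (ℓ : ℤ))
  refine ⟨a * c, fun r hr => ?_⟩
  have h4 : G r - a * c * V r = a * ((n : ℤ) * G r - (c : ℤ) * V r) + (ℓ : ℤ) * (b * G r) := by
    linear_combination (-(G r)) * hab
  rw [h4]
  exact dvd_add (Dvd.dvd.mul_left (hdvd r hr) a) (dvd_mul_right _ _)

end Pool.Agent.Lib.MP_89bcae_ag.Bra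

end

section

/-!
# Cocycles with values in the functions on the curve over an algebraic closure of `F(t)`

`F` is an algebraically closed field, `L = F(t)`, `Ω` an algebraic closure of `L`, `Γ = Aut(Ω/L)`,
`y ^ ℓ = f(x)` a curve over `L`, `f` in `L[x]`.
-/

open Polynomial IsDedekindDomain IsLocalRing

open scoped Classical

namespace Pool.Agent.Lib.MP_89bcae_ag.Bra

open Pool.Agent.Lib.MP_89bcae_ag.Wt Pool.Agent.Lib.MP_89bcae_ag.Wt.Lns

section

variable {L Ω : Type} [Field L] [Field Ω] [Algebra L Ω]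

/-- The homomorphism of `Aut(Ω/L)` in the automorphisms of `Ω` which fix the coefficients of the curve. -/
noncomputable abbrev gs (f : L[X]) : (Ω ≃ₐ[L] Ω) →* Sym (f.map (algebraMap L Ω)) :=
  galSym (f₀ := f) rfl

variable {ℓ : ℕ} {f : L[X]}

/-- The functions on the curve over `Ω` induced by those over `L`. -/
noncomputable def toO (ℓ : ℕ) (f : L[X]) (Ω : Type) [Field Ω] [Algebra L Ω] :
    FunField ℓ f →+* FunField ℓ (f.map (algebraMap L Ω)) :=
  funMap ℓ (algebraMap L Ω) rfl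

/-- The constant functions. -/
noncomputable def cO (ℓ : ℕ) (f : L[X]) (Ω : Type) [Field Ω] [Algebra L Ω] :
    Ω →+* FunField ℓ (f.map (algebraMap L Ω)) :=
  polyF.comp C

/-- A continuous cochain of degree two. -/
def ICts2 {X : Type} (b : (Ω ≃ₐ[L] Ω) → (Ω ≃ₐ[L] Ω) → X) : Prop :=
  ∃ T : Finset Ω, ∀ g g' h h' : Ω ≃ₐ[L] Ω, (∀ x ∈ T, g x = g' x) → (∀ x ∈ T, h x = h' x) →
    b g h = b g' h'

/-- `b` is split over the complete discretely valued fields `H` with valuation ring `O`, which contain the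
field of functions on the curve over `L`, with `O` containing `F` but not this field. -/
def IUnr (F : Type) [Field F] [Algebra F[X] L]
    (b : (Ω ≃ₐ[L] Ω) → (Ω ≃ₐ[L] Ω) → (FunField ℓ (f.map (algebraMap L Ω)))ˣ) : Prop :=
  ∀ (O H T : Type) [CommRing O] [IsDomain O] [IsDiscreteValuationRing O]
    [IsAdicComplete (maximalIdeal O) O] [Field H] [Algebra O H] [IsFractionRing O H]
    [Field T] [Algebra H T] [IsAlgClosure H T] (ψ : FunField ℓ (f.map (algebraMap L Ω)) →+* T),
    (∀ r : FunField ℓ f, ψ (toO ℓ f Ω r) ∈ (algebraMap H T).range) →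
    (∀ c : F, ψ (cO ℓ f Ω (algebraMap L Ω (algebraMap F[X] L (C c)))) ∈
      ((algebraMap H T).comp (algebraMap O H)).range) →
    (∃ r : FunField ℓ f, ψ (toO ℓ f Ω r) ∉ ((algebraMap H T).comp (algebraMap O H)).range) →
    ∃ a : (T ≃ₐ[H] T) → Tˣ, IsCts a ∧ ∀ (g h : T ≃ₐ[H] T) (g' h' : Ω ≃ₐ[L] Ω),
      (∀ z, ψ (cO ℓ f Ω (g' z)) = g (ψ (cO ℓ f Ω z))) →
      (∀ z, ψ (cO ℓ f Ω (h' z)) = h (ψ (cO ℓ f Ω z))) →
        ψ (b g' h' : FunField ℓ (f.map (algebraMap L Ω))) * a (g * h) = g (a h) * a g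

/-- Continuous `2`-cocycles with values in `Ωˣ` are trivial up to powers prime to `ℓ`. -/
def BrTriv (ℓ : ℕ) (L Ω : Type) [Field L] [Field Ω] [Algebra L Ω] : Prop :=
  ∀ b : (Ω ≃ₐ[L] Ω) → (Ω ≃ₐ[L] Ω) → Ωˣ, IsCocycle b →
    ∃ m : ℕ, m.Coprime ℓ ∧ IsCoboundary fun g h => b g h ^ m

section Good

variable [hG : IsGood ℓ (f.map (algebraMap L Ω))]

/-- `b` is a continuous `2`-cocycle with values in the functions. -/
structure ICoc (b : (Ω ≃ₐ[L] Ω) → (Ω ≃ₐ[L] Ω) → (FunField ℓ (f.map (algebraMap L Ω)))ˣ) : Prop where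
  cocycle : ∀ g h j : Ω ≃ₐ[L] Ω, b g h * b (g * h) j = symU (gs f g) (b h j) * b g (h * j)
  continuous : ICts2 b

/-- `b` is the coboundary of a continuous cochain. -/
def ICob (b : (Ω ≃ₐ[L] Ω) → (Ω ≃ₐ[L] Ω) → (FunField ℓ (f.map (algebraMap L Ω)))ˣ) : Prop :=
  ∃ a : (Ω ≃ₐ[L] Ω) → (FunField ℓ (f.map (algebraMap L Ω)))ˣ, IsCts a ∧
    ∀ g h, b g h * a (g * h) = symU (gs f g) (a h) * a g

/-- The divisor of `b` is the coboundary of the continuous cochain `C`. -/
structure IDiv (b : (Ω ≃ₐ[L] Ω) → (Ω ≃ₐ[L] Ω) → (FunField ℓ (f.map (algebraMap L Ω)))ˣ)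
    (C : (Ω ≃ₐ[L] Ω) → (Pt ℓ (f.map (algebraMap L Ω)) →₀ ℤ)) : Prop where
  continuous : IsCts C
  div : ∀ g h, div (b g h) + C (g * h) = (C h).mapDomain (Pt.sym (gs f g)) + C g

end Good

end

end Pool.Agent.Lib.MP_89bcae_ag.Bra

end

section

/-!
# The embedding of the functions over the local field in the functions over `κ((π))`
-/

open Polynomial IsDedekindDomain IsLocalRing

open scoped Classical

namespace Pool.Agent.Lib.MP_89bcae_ag.Bra

open Pool.Agent.Lib.MP_89bcae_ag.Sup Pool.Agent.Lib.MP_89bcae_ag.Wt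
  Pool.Agent.Lib.MP_89bcae_ag.Wt.Lns

/-- The places of `F(t)`. -/
theorem exists_eq_plc {F : Type} [Field F] [IsAlgClosed F] (v : HeightOneSpectrum F[X]) :
    ∃ s : F, v = plc s := by
  obtain ⟨p, hp⟩ : ∃ p : F[X], v.asIdeal = Ideal.span {p} :=
    (IsPrincipalIdealRing.principal v.asIdeal).principal
  have hp0 : p ≠ 0 := by
    intro h0
    apply v.ne_bot
    rw [hp, h0, Ideal.span_singleton_eq_bot]
  have hprime : Prime p := by
    rw [← Ideal.span_singleton_prime hp0, ← hp]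
    exact v.isPrime
  have hirr := hprime.irreducible
  have hdeg : p.degree ≠ 0 := fun h => hirr.not_isUnit (Polynomial.isUnit_iff_degree_eq_zero.mpr h)
  obtain ⟨s, hs⟩ := IsAlgClosed.exists_root p hdeg
  refine ⟨s, HeightOneSpectrum.ext ?_⟩
  have h1 : X - C s ∣ p := dvd_iff_isRoot.mpr hs
  have h2 : Associated (X - C s) p :=
    (prime_X_sub_C s).irreducible.associated_of_dvd hirr h1
  rw [hp]
  change _ = Ideal.span {X - C s}
  exact (Ideal.span_singleton_eq_span_singleton.mpr h2).symm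

/-- An embedding of the field `K`, in which `t` is the image of `X`, in `κ((π))`, with `t = s + π` and coefficients in
`F`. -/
structure IsEmb (ℓ : ℕ) {F K κ : Type} [Field F] [Field K] [Field κ] [Algebra F κ] [Algebra F[X] K]
    (s : F) (i : K →+* Hk ℓ κ) : Prop where
  const : ∀ c : F, i (algebraMap F[X] K (C c)) = cH ℓ (algebraMap F κ c)
  t : i (algebraMap F[X] K (X - C s)) = piH ℓ κ
  coeff : ∀ (z : K) (n : ℤ), ∃ c : F, HahnSeries.coeff ((toH ℓ κ).symm (i z)) n = algebraMap F κ c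

section D1

open WithZero

variable {F : Type} [Field F]

/-- The expansion at `t = s`. -/
noncomputable def tay8 (s : F) : F[X] →+* LaurentSeries F :=
  (algebraMap (PowerSeries F) (LaurentSeries F)).comp
    ((Polynomial.coeToPowerSeries.ringHom).comp (Polynomial.taylorAlgHom s : F[X] →+* F[X]))

lemma tay8_apply (s : F) (p : F[X]) : tay8 s p =
    algebraMap (PowerSeries F) (LaurentSeries F) ((Polynomial.taylor s p : F[X]) : PowerSeries F) :=
  rfl

lemma val_tay8 (s : F) (p : F[X]) : Valued.v (tay8 s p) = (plc s).intValuation p := by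
  by_cases hp : p = 0
  · rw [hp, map_zero, map_zero, map_zero]
  obtain ⟨q, hq, hqs⟩ := exists_eq_pow_rootMultiplicity_mul_and_not_dvd p hp s
  have e1 : (plc s).intValuation (X - C s) = WithZero.exp (-1 : ℤ) :=
    (plc s).intValuation_singleton (X_sub_C_ne_zero s) rfl
  have e2 : (plc s).intValuation q = 1 := by
    rw [HeightOneSpectrum.intValuation_eq_one_iff]
    change q ∉ Ideal.span {X - C s}
    rw [Ideal.mem_span_singleton]
    exact hqs
  have e3 : Valued.v (tay8 s (X - C s)) = WithZero.exp (-1 : ℤ) := by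
    have h1 : Polynomial.taylor s (X - C s) = (X : F[X]) := by
      rw [map_sub, taylor_X, taylor_C, add_sub_cancel_right]
    rw [tay8_apply, h1, Polynomial.coe_X, LaurentSeries.valuation_def,
      HeightOneSpectrum.valuation_of_algebraMap, PowerSeries.intValuation_X]
  have e4 : Valued.v (tay8 s q) = 1 := by
    rw [tay8_apply, LaurentSeries.valuation_def, HeightOneSpectrum.valuation_of_algebraMap,
      HeightOneSpectrum.intValuation_eq_one_iff]
    change _ ∉ Ideal.span {PowerSeries.X}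
    rw [Ideal.mem_span_singleton, PowerSeries.X_dvd_iff]
    intro h
    apply hqs
    rw [dvd_iff_isRoot, IsRoot.def, ← Polynomial.taylor_coeff_zero, ← h]
    simp
  have e5 : tay8 s p = tay8 s (X - C s) ^ (rootMultiplicity s p) * tay8 s q := by
    rw [← map_pow, ← map_mul, ← hq]
  have e6 : (plc s).intValuation p =
      (plc s).intValuation (X - C s) ^ (rootMultiplicity s p) * (plc s).intValuation q := by
    rw [← map_pow, ← map_mul, ← hq]
  rw [e5, e6, map_mul, map_pow, e1, e2, e3, e4]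

lemma tay8_injective (s : F) : Function.Injective (tay8 s) := by
  intro p q h
  have h1 : ((Polynomial.taylor s p : F[X]) : PowerSeries F) = (Polynomial.taylor s q : F[X]) :=
    IsFractionRing.injective (PowerSeries F) (LaurentSeries F) h
  exact Polynomial.taylor_injective s (Polynomial.coe_injective F h1)

/-- The expansion at `t = s`. -/
noncomputable def tayL8 {L : Type} [Field L] [Algebra F[X] L] [IsFractionRing F[X] L] (s : F) :
    L →+* LaurentSeries F := IsFractionRing.lift (tay8_injective s)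

lemma tayL8_algebraMap {L : Type} [Field L] [Algebra F[X] L] [IsFractionRing F[X] L] (s : F)
    (p : F[X]) : (tayL8 s : L →+* LaurentSeries F) (algebraMap F[X] L p) = tay8 s p :=
  IsFractionRing.lift_algebraMap _ _

lemma val_tayL8 {L : Type} [Field L] [Algebra F[X] L] [IsFractionRing F[X] L] (s : F)
    (x : L) : Valued.v ((tayL8 s : L →+* LaurentSeries F) x) = (plc s).valuation L x := by
  obtain ⟨p, q, hq, rfl⟩ := IsFractionRing.div_surjective (A := F[X]) x
  rw [map_div₀, map_div₀, map_div₀, tayL8_algebraMap, tayL8_algebraMap,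
    HeightOneSpectrum.valuation_of_algebraMap, HeightOneSpectrum.valuation_of_algebraMap,
    val_tay8, val_tay8]

lemma continuous_hom8 {A B : Type} [Field A] [Field B] {v : Valuation A (WithZero (Multiplicative ℤ))}
    [hB : Valued B (WithZero (Multiplicative ℤ))] (f : A →+* B) (h : ∀ x, Valued.v (f x) = v x)
    (hsurj : Function.Surjective v) :
    Continuous (f.comp (WithVal.equiv v : WithVal v →+* A)) := by
  apply continuous_of_continuousAt_zero (f.comp (WithVal.equiv v : WithVal v →+* A))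
  unfold ContinuousAt
  rw [map_zero, (Valued.hasBasis_nhds_zero B (WithZero (Multiplicative ℤ))).tendsto_right_iff]
  intro γ _
  set δ := MonoidWithZeroHom.ValueGroup₀.embedding γ.1 with hδ
  have hδ0 : δ ≠ 0 := by
    rw [hδ]
    simp
  obtain ⟨x₀, hx₀⟩ := hsurj δ
  have hopen := (Valued.isOpen_ball (WithVal v)
    (Valued.v.restrict (WithVal.toVal v x₀))).mem_nhds (x := 0) (by
      simp only [Set.mem_ofPred_eq, map_zero]
      refine zero_lt_iff.mpr ?_
      intro h0
      rw [Valuation.restrict_eq_zero_iff] at h0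
      rw [WithVal.valued_toVal, hx₀] at h0
      exact hδ0 h0)
  filter_upwards [hopen] with x hx
  change Valued.v.restrict _ < γ.1
  rw [Valuation.restrict_lt_iff_lt_embedding]
  have h1 : Valued.v x < Valued.v (WithVal.toVal v x₀) := (Valuation.restrict_lt_iff _).mp hx
  have h1' : v x.ofVal < v x₀ := h1
  rw [hx₀] at h1'
  have h2 : Valued.v ((f.comp (WithVal.equiv v : WithVal v →+* A)) x) = v x.ofVal := h _
  rw [h2]
  exact h1'

/-- Coefficientwise map. -/
noncomputable def mapL8 (κ : Type) [Field κ] [Algebra F κ] : LaurentSeries F →+* LaurentSeries κ where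
  toFun z := HahnSeries.map z (algebraMap F κ)
  map_one' := HahnSeries.map_one (algebraMap F κ).toMonoidWithZeroHom
  map_mul' _ _ := HahnSeries.map_mul (algebraMap F κ : F →ₙ+* κ)
  map_zero' := by
    ext n
    exact map_zero (algebraMap F κ)
  map_add' x y := by
    ext n
    exact map_add (algebraMap F κ) (HahnSeries.coeff x n) (HahnSeries.coeff y n)

lemma mapL8_coeff (κ : Type) [Field κ] [Algebra F κ] (z : LaurentSeries F) (n : ℤ) :
    (mapL8 κ z).coeff n = algebraMap F κ (z.coeff n) := rfl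

end D1

/-- The completion of `F(t)` at `t = s` is embedded in `F((π)) ⊆ κ((π))`. PROOF. The homomorphism `L → F((π))`,
`p(t) ↦ p(s + π)`, preserves the valuations (`val_X_sub_C`, `val_eq_one` in `Sup/Plc.lean`; `p = (t - s) ^ n q`, `q(s) ≠ 0`),
so it is uniformly continuous, and `F((π))` is complete (`LaurentSeries.instLaurentSeriesComplete`): it extends to the
completion (compare `exists_completion_equiv` in `Sup/Plc.lean`, `UniformSpace.Completion.extensionHom`,
`HeightOneSpectrum.adicCompletion.equiv`). Then apply `F((π)) → κ((π))`, coefficientwise (`HahnSeries.map`; it is a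
ring homomorphism). -/
theorem exists_isEmb (ℓ : ℕ) {F L κ : Type} [Field F] [Field L] [Algebra F[X] L]
    [IsFractionRing F[X] L] [Field κ] [Algebra F κ] (s : F) :
    ∃ i : (plc s).adicCompletion L →+* Hk ℓ κ, IsEmb ℓ s i := by
  have hc := continuous_hom8 (v := (plc s).valuation L) (tayL8 s : L →+* LaurentSeries F)
    (val_tayL8 s) ((plc s).valuation_surjective L)
  set j : (plc s).adicCompletion L →+* LaurentSeries F :=
    (UniformSpace.Completion.extensionHom _ hc).comp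
      ((HeightOneSpectrum.adicCompletion.equiv L (plc s)) :
        (plc s).adicCompletion L →+* ((plc s).valuation L).Completion) with hj
  have hj1 : ∀ x : L, j (algebraMap L _ x) = (tayL8 s : L →+* LaurentSeries F) x := by
    intro x
    exact UniformSpace.Completion.extensionHom_coe _ hc (WithVal.toVal ((plc s).valuation L) x)
  have hj2 : ∀ p : F[X], j (algebraMap F[X] _ p) = tay8 s p := by
    intro p
    rw [IsScalarTower.algebraMap_apply F[X] L, hj1, tayL8_algebraMap]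
  refine ⟨((toH ℓ κ : LaurentSeries κ →+* Hk ℓ κ).comp (mapL8 κ)).comp j, ?_, ?_, ?_⟩
  · intro c
    rw [RingHom.comp_apply, RingHom.comp_apply, hj2, tay8_apply, taylor_C, Polynomial.coe_C]
    have h1 : mapL8 κ (algebraMap (PowerSeries F) (LaurentSeries F) (PowerSeries.C c)) =
        HahnSeries.C (algebraMap F κ c) := by
      have h2 : algebraMap (PowerSeries F) (LaurentSeries F) (PowerSeries.C c) =
        HahnSeries.C c := PowerSeries.coe_C c
      rw [h2]
      exact HahnSeries.map_C c (algebraMap F κ)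
    rw [h1]
    rfl
  · have h1 : Polynomial.taylor s (X - C s) = (X : F[X]) := by
      rw [map_sub, taylor_X, taylor_C, add_sub_cancel_right]
    rw [RingHom.comp_apply, RingHom.comp_apply, hj2, tay8_apply, h1, Polynomial.coe_X]
    have h2 : algebraMap (PowerSeries F) (LaurentSeries F) PowerSeries.X =
        HahnSeries.single (1 : ℤ) (1 : F) := PowerSeries.coe_X
    have h3 : mapL8 κ (HahnSeries.single (1 : ℤ) (1 : F)) = HahnSeries.single (1 : ℤ) (1 : κ) := by
      ext n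
      rw [mapL8_coeff]
      by_cases hn : n = 1
      · rw [hn, HahnSeries.coeff_single_same, HahnSeries.coeff_single_same, map_one]
      · rw [HahnSeries.coeff_single_of_ne hn, HahnSeries.coeff_single_of_ne hn, map_zero]
    rw [h2, h3]
    rfl
  · intro z n
    exact ⟨(j z).coeff n, rfl⟩

section

variable {ℓ : ℕ} [NeZero ℓ] {F K κ E : Type} [Field F] [Field K] [Field κ] [Algebra F κ]
  [Algebra F[X] K] [Field E] [Algebra K E] [IsAlgClosure K E] {s : F} {i : K →+* Hk ℓ κ}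

omit [NeZero ℓ] [Algebra F κ] [Algebra F[X] K] [Field K] in
private lemma d2_coeff_mul_cH (u : Hk ℓ κ) (x : κ) (n : ℤ) :
    HahnSeries.coeff ((toH ℓ κ).symm (u * cH ℓ x)) n =
      HahnSeries.coeff ((toH ℓ κ).symm u) n * x := by
  rw [map_mul]
  exact HahnSeries.coeff_mul_single_zero

omit [NeZero ℓ] in
private lemma d2_transc (hi : IsEmb ℓ s i) {x : κ}
    (hx : ∀ p : F[X], aeval x p = 0 → p = 0) (q : K[X])
    (hq : q.eval₂ i (cH ℓ x) = 0) : q = 0 := by
  have h1 : ∀ (k : ℕ) (n : ℤ), ∃ c : F,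
      HahnSeries.coeff ((toH ℓ κ).symm (i (q.coeff k))) n = algebraMap F κ c :=
    fun k n => hi.coeff _ _
  choose c hc using h1
  ext k
  rw [coeff_zero]
  by_cases hk : k ∈ q.support
  swap
  · exact notMem_support_iff.mp hk
  apply i.injective
  rw [map_zero]
  apply (toH ℓ κ).symm.injective
  rw [map_zero]
  ext n
  rw [hc k n, HahnSeries.coeff_zero]
  have h2 : (∑ j ∈ q.support, monomial j (c j n) : F[X]) = 0 := by
    apply hx
    have h3 := congrArg (fun u => HahnSeries.coeff ((toH ℓ κ).symm u) n) hq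
    simp only [map_zero, HahnSeries.coeff_zero] at h3
    rw [eval₂_eq_sum, Polynomial.sum, map_sum, HahnSeries.coeff_sum] at h3
    rw [map_sum, ← h3]
    refine Finset.sum_congr rfl fun j _ => ?_
    rw [aeval_monomial, ← map_pow, d2_coeff_mul_cH, hc]
  have h4 := congrArg (fun p => Polynomial.coeff p k) h2
  simp only [finsetSum_coeff, coeff_monomial, coeff_zero] at h4
  rw [Finset.sum_ite_eq' q.support k, if_pos hk] at h4
  rw [h4, map_zero]

/-- `x` is transcendental over `K`, hence over `E`. PROOF. If `p(x) = 0` with `p ≠ 0` in `E[X]` then the image of `x` in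
`Tk κ` is algebraic over `E`, hence over `K` (the image of `K` in `Tk κ` by `i`): `q(x) = 0` in `Hk ℓ κ` for some
`q ≠ 0` in `K[X]`. Coefficient of `π ^ n`: `∑_k c_{k,n} x ^ k = 0` with `c_{k,n}` in `F` (`hi.coeff`), so all `c_{k,n} = 0`
(`hx`), so `q = 0` as `i` is injective. -/
theorem transc (hi : IsEmb ℓ s i) (jE : E →+* Tk κ)
    (hj : ∀ z : K, jE (algebraMap K E z) = algebraMap (Hk ℓ κ) (Tk κ) (i z)) {x : κ}
    (hx : ∀ p : F[X], aeval x p = 0 → p = 0) (p : E[X])
    (hp : p.eval₂ jE (algebraMap (Hk ℓ κ) (Tk κ) (cH ℓ x)) = 0) : p = 0 := by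
  classical
  by_contra hp0
  let _ : Algebra E (Tk κ) := jE.toAlgebra
  let _ : Algebra K (Tk κ) := (jE.comp (algebraMap K E)).toAlgebra
  have _ : IsScalarTower K E (Tk κ) := IsScalarTower.of_algebraMap_eq fun z => rfl
  have halg : Algebra.IsAlgebraic K E := IsAlgClosure.isAlgebraic
  have h1 : IsAlgebraic E (algebraMap (Hk ℓ κ) (Tk κ) (cH ℓ x)) := ⟨p, hp0, hp⟩
  have h2 : IsAlgebraic K (algebraMap (Hk ℓ κ) (Tk κ) (cH ℓ x)) := h1.restrictScalars K
  obtain ⟨q, hq0, hq⟩ := h2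
  apply hq0
  refine d2_transc hi hx q ?_
  apply (algebraMap (Hk ℓ κ) (Tk κ)).injective
  rw [map_zero, hom_eval₂, ← hq, aeval_def]
  congr 1
  ext z
  exact (hj z).symm

variable {ι : Type} [Fintype ι] [LinearOrder ι] {W : ι → ℕ} {a : ι → F[X]} {ζ : F} {x y : κ}

omit [NeZero ℓ] in

/-- The image of `p(t)` is `p(s + π)`, in `κ[[π]]`, with constant term `p(s)`. -/
theorem IsEmb.poly (hi : IsEmb ℓ s i) (p : F[X]) : ∃ q : PowerSeries κ,
    i (algebraMap F[X] K p) = algebraMap (PowerSeries κ) (Hk ℓ κ) q ∧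
      PowerSeries.constantCoeff q = algebraMap F κ (p.eval s) := by
  obtain ⟨φ, hφ⟩ : ∃ φ : F[X] →+* PowerSeries κ, φ = eval₂RingHom
      ((PowerSeries.C : κ →+* PowerSeries κ).comp (algebraMap F κ))
      (PowerSeries.C (algebraMap F κ s) + PowerSeries.X) := ⟨_, rfl⟩
  have h1 : i.comp (algebraMap F[X] K) = (algebraMap (PowerSeries κ) (Hk ℓ κ)).comp φ := by
    apply Polynomial.ringHom_ext
    · intro c
      rw [RingHom.comp_apply, RingHom.comp_apply, hi.const, hφ, coe_eval₂RingHom, eval₂_C]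
      exact (HahnSeries.ofPowerSeries_C (algebraMap F κ c)).symm
    · rw [RingHom.comp_apply, RingHom.comp_apply, hφ, coe_eval₂RingHom, eval₂_X]
      have h2 : (X : F[X]) = C s + (X - C s) := by ring
      rw [h2, map_add, map_add, hi.const, hi.t, map_add]
      have h3 : algebraMap (PowerSeries κ) (Hk ℓ κ) (PowerSeries.C (algebraMap F κ s)) =
          cH ℓ (algebraMap F κ s) := HahnSeries.ofPowerSeries_C (algebraMap F κ s)
      have h4 : algebraMap (PowerSeries κ) (Hk ℓ κ) PowerSeries.X = piH ℓ κ :=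
        HahnSeries.ofPowerSeries_X
      rw [h3, h4]
  refine ⟨φ p, RingHom.congr_fun h1 p, ?_⟩
  rw [hφ, coe_eval₂RingHom, hom_eval₂, map_add, PowerSeries.constantCoeff_C,
    PowerSeries.constantCoeff_X, add_zero, ← RingHom.comp_assoc]
  have h5 : (PowerSeries.constantCoeff (R := κ)).comp (PowerSeries.C : κ →+* PowerSeries κ) =
      RingHom.id κ := by
    ext c
    exact PowerSeries.constantCoeff_C c
  rw [h5, RingHom.id_comp, eval₂_at_apply]

omit [NeZero ℓ] in

/-- Hensel: roots in `κ[[π]]` of a power series whose constant term is an `ℓ`-th power. -/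
theorem vd3_root {κ : Type} [Field κ] {ℓ : ℕ} (hℓ : (ℓ : κ) ≠ 0) {y : κ} (hy : y ≠ 0)
    (Q : PowerSeries κ) (hQ : PowerSeries.constantCoeff Q = y ^ ℓ) :
    ∃ Z : PowerSeries κ, Z ^ ℓ = Q := by
  have hℓ0 : ℓ ≠ 0 := by
    rintro rfl
    exact hℓ Nat.cast_zero
  have hmem : ∀ p : PowerSeries κ, PowerSeries.constantCoeff p = 0 →
      p ∈ maximalIdeal (PowerSeries κ) := by
    intro p hp
    rw [mem_maximalIdeal, mem_nonunits_iff, PowerSeries.isUnit_iff_constantCoeff, hp]
    exact not_isUnit_zero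
  obtain ⟨Z, hZ, -⟩ := HenselianRing.is_henselian (R := PowerSeries κ)
    (I := maximalIdeal (PowerSeries κ)) (X ^ ℓ - C Q)
    (monic_X_pow_sub_C Q hℓ0) (PowerSeries.C y)
    (by
      apply hmem
      rw [eval_sub, eval_pow, eval_X, eval_C, map_sub, map_pow, PowerSeries.constantCoeff_C, hQ,
        sub_self])
    (by
      apply IsUnit.map
      rw [PowerSeries.isUnit_iff_constantCoeff]
      rw [derivative_sub, derivative_X_pow, derivative_C, sub_zero, eval_mul, eval_pow, eval_X,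
        eval_C, map_mul, map_pow, PowerSeries.constantCoeff_C, map_natCast]
      exact (mul_ne_zero hℓ (pow_ne_zero _ hy)).isUnit)
  refine ⟨Z, ?_⟩
  rw [IsRoot.def, eval_sub, eval_pow, eval_X, eval_C, sub_eq_zero] at hZ
  exact hZ

/-- The constants are the images of the constant power series. -/
theorem vd3_cH {ℓ : ℕ} {κ : Type} [Field κ] (x : κ) :
    cH ℓ x = algebraMap (PowerSeries κ) (Hk ℓ κ) (PowerSeries.C x) := by
  show (HahnSeries.C x : LaurentSeries κ) = algebraMap (PowerSeries κ) (LaurentSeries κ) (PowerSeries.C x)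
  exact (HahnSeries.ofPowerSeries_C x).symm

-- brv-d3: replaces exists_Y

/-- The root of `∏ (x - a_i(t)) ^ (W_i)`. PROOF. By `IsEmb.poly` the right hand side is a power series with constant term
`∏ (x - a_i(s)) ^ (W_i) = y ^ ℓ`, `y ≠ 0`; Hensel's lemma (`κ[[π]]` is complete, `isAdicComplete_powerSeries`;
`IsAdicComplete.henselianRing`, `HenselianLocalRing`) for `Y ^ ℓ = ..`, `ℓ ≠ 0` in `κ`. -/
theorem exists_Y (hi : IsEmb ℓ s i) (hℓ : (ℓ : κ) ≠ 0)
    (hF : Fib ℓ ζ (∏ i, (X - C ((a i).eval s)) ^ W i) x y) :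
    ∃ Y : Hk ℓ κ, Y ^ ℓ = ∏ j, (cH ℓ x - i (algebraMap F[X] K (a j))) ^ W j := by
  choose q hq1 hq2 using fun j : ι => hi.poly (a j)
  obtain ⟨Z, hZ⟩ := vd3_root hℓ hF.ne (∏ j, (PowerSeries.C x - q j) ^ W j) (by
    rw [hF.eq, map_prod, map_prod]
    refine Finset.prod_congr rfl fun j _ => ?_
    rw [map_pow, map_pow, map_sub, map_sub, PowerSeries.constantCoeff_C, hq2 j, aeval_X, aeval_C])
  refine ⟨algebraMap (PowerSeries κ) (Hk ℓ κ) Z, ?_⟩
  rw [← map_pow, hZ, map_prod]
  refine Finset.prod_congr rfl fun j _ => ?_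
  rw [map_pow, map_sub, vd3_cH, hq1 j]

omit [NeZero ℓ] in

/-- Leading coefficients. -/
theorem lcH_sub (hi : IsEmb ℓ s i) (hx : ∀ p : F[X], aeval x p = 0 → p = 0) (p : F[X]) :
    lcH (cH ℓ x - i (algebraMap F[X] K p)) = x - algebraMap F κ (p.eval s) := by
  obtain ⟨q, hq, hq0⟩ := hi.poly p
  have h1 : cH ℓ x - i (algebraMap F[X] K p) =
      algebraMap (PowerSeries κ) (Hk ℓ κ) (PowerSeries.C x - q) := by
    rw [hq, map_sub]
    congr 1
    exact (HahnSeries.ofPowerSeries_C x).symm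
  have h2 : PowerSeries.constantCoeff (PowerSeries.C x - q) = x - algebraMap F κ (p.eval s) := by
    rw [map_sub, hq0, PowerSeries.constantCoeff_C]
  have h3 : x - algebraMap F κ (p.eval s) ≠ 0 := by
    intro h
    have h4 : (X - C (p.eval s) : F[X]) = 0 := by
      apply hx
      rw [map_sub, aeval_X, aeval_C, h]
    exact X_sub_C_ne_zero _ h4
  rw [h1, ← h2]
  rw [← h2] at h3
  have key : ∀ r : PowerSeries κ, PowerSeries.constantCoeff r ≠ 0 →
      HahnSeries.leadingCoeff (HahnSeries.ofPowerSeries ℤ κ r) = PowerSeries.constantCoeff r := by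
    intro r hr
    have h5 : (HahnSeries.ofPowerSeries ℤ κ r).coeff 0 = PowerSeries.constantCoeff r := by
      have := HahnSeries.ofPowerSeries_apply_coeff (Γ := ℤ) r 0
      rw [Nat.cast_zero, PowerSeries.coeff_zero_eq_constantCoeff_apply] at this
      exact this
    have h6 : (HahnSeries.ofPowerSeries ℤ κ r).order ≤ 0 :=
      HahnSeries.order_le_of_coeff_ne_zero (by rw [h5]; exact hr)
    have h7 : (HahnSeries.ofPowerSeries ℤ κ r).order = 0 := by
      refine le_antisymm h6 ?_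
      by_contra hneg
      push Not at hneg
      have h8 : (HahnSeries.ofPowerSeries ℤ κ r).coeff
          (HahnSeries.ofPowerSeries ℤ κ r).order ≠ 0 := by
        intro h8
        have h0 := HahnSeries.coeff_order_eq_zero.mp h8
        rw [h0, HahnSeries.coeff_zero] at h5
        exact hr h5.symm
      apply h8
      have h9 := PowerSeries.coeff_coe (R := κ) r (HahnSeries.ofPowerSeries ℤ κ r).order
      rw [if_pos hneg] at h9
      exact h9
    rw [HahnSeries.leadingCoeff_eq, h7, h5]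
  exact key _ h3

/-- The embedding of the functions over `E` in `Tk κ`: `x ↦ x`, `y ↦ Y`. PROOF. `E[X] → Tk κ` is injective by `transc`, so
extends to `RatFunc E`; then `AdjoinRoot.lift`. -/
theorem exists_psi (hi : IsEmb ℓ s i) (jE : E →+* Tk κ)
    (hj : ∀ z : K, jE (algebraMap K E z) = algebraMap (Hk ℓ κ) (Tk κ) (i z))
    (hx : ∀ p : F[X], aeval x p = 0 → p = 0) (f : K[X]) (Y : Hk ℓ κ)
    (hY : Y ^ ℓ = f.eval₂ i (cH ℓ x)) :
    ∃ ψ : FunField ℓ (f.map (algebraMap K E)) →+* Tk κ, (∀ z, ψ (cO ℓ f E z) = jE z) ∧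
      ψ (polyF X) = algebraMap (Hk ℓ κ) (Tk κ) (cH ℓ x) ∧ ψ yF = algebraMap (Hk ℓ κ) (Tk κ) Y := by
  have hinj : Function.Injective
      (eval₂RingHom jE (algebraMap (Hk ℓ κ) (Tk κ) (cH ℓ x)) : E[X] →+* Tk κ) := by
    rw [injective_iff_map_eq_zero]
    intro p hp
    exact transc hi jE hj hx p hp
  let θ : RatFunc E →+* Tk κ := IsFractionRing.lift hinj
  have hθ : ∀ p : E[X], θ (algebraMap E[X] (RatFunc E) p) =
      p.eval₂ jE (algebraMap (Hk ℓ κ) (Tk κ) (cH ℓ x)) := fun p =>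
    IsFractionRing.lift_algebraMap hinj p
  have hf : (f.map (algebraMap K E)).eval₂ jE (algebraMap (Hk ℓ κ) (Tk κ) (cH ℓ x)) =
      algebraMap (Hk ℓ κ) (Tk κ) (Y ^ ℓ) := by
    rw [hY, Polynomial.eval₂_map, Polynomial.hom_eval₂]
    have : jE.comp (algebraMap K E) = (algebraMap (Hk ℓ κ) (Tk κ)).comp i := RingHom.ext hj
    rw [this]
  let ψ : FunField ℓ (f.map (algebraMap K E)) →+* Tk κ :=
    AdjoinRoot.lift θ (algebraMap (Hk ℓ κ) (Tk κ) Y) (by
      rw [eval₂_sub, eval₂_pow, eval₂_X, eval₂_C, hθ, hf, map_pow, sub_self])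
  have hψ : ∀ p : E[X], ψ (polyF p) = p.eval₂ jE (algebraMap (Hk ℓ κ) (Tk κ) (cH ℓ x)) := by
    intro p
    rw [polyF_eq, ← hθ p]
    exact AdjoinRoot.lift_of _
  refine ⟨ψ, fun z => ?_, ?_, AdjoinRoot.lift_root _⟩
  · change ψ (polyF (C z)) = _
    rw [hψ, eval₂_C]
  · rw [hψ, eval₂_X]

/-- The restriction of automorphisms. PROOF. The image of `E` is the algebraic closure in `Tk κ` of the image of `K`,
which is in `Hk ℓ κ`; or `AlgEquiv.restrictNormalHom`-like arguments, see `exists_restrict`, `exists_autL12` in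
`Sup/L12.lean`, for the algebra structure on `Tk κ` over `K` given by `i`. -/
theorem exists_resE (jE : E →+* Tk κ)
    (hj : ∀ z : K, jE (algebraMap K E z) = algebraMap (Hk ℓ κ) (Tk κ) (i z)) :
    ∃ r : (Tk κ ≃ₐ[Hk ℓ κ] Tk κ) →* (E ≃ₐ[K] E), ∀ g z, jE (r g z) = g (jE z) := by
  let _ : Algebra K (Tk κ) := ((algebraMap (Hk ℓ κ) (Tk κ)).comp i).toAlgebra
  let _ : Algebra E (Tk κ) := jE.toAlgebra
  have : IsScalarTower K E (Tk κ) := IsScalarTower.of_algebraMap_eq fun z => (hj z).symm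
  have : Normal K E := IsAlgClosure.normal K E
  let toK : (Tk κ ≃ₐ[Hk ℓ κ] Tk κ) →* (Tk κ ≃ₐ[K] Tk κ) :=
    { toFun := fun g => AlgEquiv.ofRingEquiv (f := (g : Tk κ ≃+* Tk κ)) fun z => by
        change g (algebraMap (Hk ℓ κ) (Tk κ) (i z)) = algebraMap (Hk ℓ κ) (Tk κ) (i z)
        exact g.commutes _
      map_one' := rfl
      map_mul' := fun _ _ => rfl }
  exact ⟨(AlgEquiv.restrictNormalHom E).comp toK, fun g z =>
    AlgEquiv.restrictNormal_commutes (toK g) E z⟩

end

/-- A homomorphism of `FunField ℓ f` has values in a subfield if those of the constants, `x` and `y` are there. -/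
theorem mem_of_gen {L T : Type} [Field L] [Field T] {ℓ : ℕ} {f : L[X]}
    (φ : FunField ℓ f →+* T) (R : Subfield T) (hc : ∀ c : L, φ (polyF (C c)) ∈ R)
    (hx : φ (polyF X) ∈ R) (hy : φ yF ∈ R) (r : FunField ℓ f) : φ r ∈ R := by
  have hpoly : ∀ p : L[X], φ (polyF p) ∈ R := by
    intro p
    induction p using Polynomial.induction_on' with
    | add p q hp hq =>
      rw [map_add, map_add]
      exact add_mem hp hq
    | monomial n c =>
      rw [← C_mul_X_pow_eq_monomial, map_mul, map_mul, map_pow, map_pow]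
      exact mul_mem (hc c) (pow_mem hx n)
  have hrat : ∀ c : RatFunc L, φ (AdjoinRoot.of _ c) ∈ R := by
    intro c
    have h1 : (φ.comp (AdjoinRoot.of _)) c = φ (AdjoinRoot.of _ c) := rfl
    have h2 : ∀ p : L[X], (φ.comp (AdjoinRoot.of _)) (algebraMap L[X] (RatFunc L) p) ∈ R := by
      intro p
      have h3 := hpoly p
      rw [polyF_eq] at h3
      exact h3
    rw [← h1, ← RatFunc.num_div_denom c, map_div₀]
    exact div_mem (h2 _) (h2 _)
  obtain ⟨P, rfl⟩ := AdjoinRoot.mk_surjective r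
  induction P using Polynomial.induction_on' with
  | add p q hp hq =>
    rw [map_add, map_add]
    exact add_mem hp hq
  | monomial n c =>
    rw [← C_mul_X_pow_eq_monomial, map_mul, map_mul, map_pow, map_pow, AdjoinRoot.mk_C,
      AdjoinRoot.mk_X]
    exact mul_mem (hrat c) (pow_mem hy n)

end Pool.Agent.Lib.MP_89bcae_ag.Bra

end
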