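import Mathlib
import Pool.Agent.Lib.MP_89bcae_ag.Bk.K025
import Pool.Agent.Lib.MP_89bcae_ag.Bk.K035
import Pool.Agent.Lib.MP_89bcae_ag.Bk.K036

namespace Pool.Agent.Lib.MP_89bcae_ag.Wt
end Pool.Agent.Lib.MP_89bcae_ag.Wt
namespace Pool.Agent.Lib.MP_89bcae_ag.Wt.Lns
end Pool.Agent.Lib.MP_89bcae_ag.Wt.Lns

section

/-!
# Models: the embedding of the functions on the curve over `Ω` in an algebraic closure of `K = F(t, x, y)`
-/

open Polynomial IsDedekindDomain IsLocalRing

open scoped Classical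

namespace Pool.Agent.Lib.MP_89bcae_ag.Bra

open Pool.Agent.Lib.MP_89bcae_ag.Wt Pool.Agent.Lib.MP_89bcae_ag.Wt.Lns

section

variable {K S : Type} [Field K] [Field S] [Algebra K S] {L Ω : Type} [Field L] [Field Ω] [Algebra L Ω]
  {ℓ : ℕ} {f : L[X]}

/-- `Φ` is an embedding over `K = F(t, x, y)` of the functions on the curve over `Ω` in `S`. -/
structure IsModel (F : Type) [Field F] [Algebra F K] [Algebra F[X] L] (t x y : K)
    (Φ : FunField ℓ (f.map (algebraMap L Ω)) →+* S) : Prop where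
  const : ∀ p : F[X], Φ (cO ℓ f Ω (algebraMap L Ω (algebraMap F[X] L p))) = algebraMap K S (aeval t p)
  fx : Φ (polyF X) = algebraMap K S x
  fy : Φ yF = algebraMap K S y
  gen : IntermediateField.adjoin F ({t, x, y} : Set K) = ⊤

variable {F : Type} [Field F] [Algebra F K] [Algebra F[X] L]

/-- `F[X][X]` in the polynomials in two variables. -/
private noncomputable def twoVar (F : Type) [Field F] : F[X][X] →+* MvPolynomial (Fin 2) F :=
  eval₂RingHom ((aeval (MvPolynomial.X 0 : MvPolynomial (Fin 2) F)).toRingHom)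
    (MvPolynomial.X 1 : MvPolynomial (Fin 2) F)

private lemma twoVar_injective (F : Type) [Field F] : Function.Injective (twoVar F) := by
  let κ : MvPolynomial (Fin 2) F →+* F[X][X] :=
    MvPolynomial.eval₂Hom (C.comp C) ![C X, X]
  have h : κ.comp (twoVar F) = RingHom.id _ := by
    refine Polynomial.ringHom_ext' (Polynomial.ringHom_ext' ?_ ?_) ?_
    · ext c
      simp [κ, twoVar]
    · simp [κ, twoVar]
    · simp [κ, twoVar]
  intro p q hpq
  have h1 := congrArg κ hpq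
  have h2 := RingHom.congr_fun h
  exact (h2 p).symm.trans (h1.trans (h2 q))

/-- Algebraically independent pairs. -/
private lemma eval₂_ne_zero {F K : Type} [Field F] [Field K] [Algebra F K] {t x : K}
    (h : AlgebraicIndependent F ![t, x]) {q : F[X][X]}
    (hq : eval₂ ((aeval t : F[X] →ₐ[F] K) : F[X] →+* K) x q = 0) : q = 0 := by
  have h1 : ((MvPolynomial.aeval ![t, x] : MvPolynomial (Fin 2) F →ₐ[F] K) :
      MvPolynomial (Fin 2) F →+* K).comp (twoVar F) =
      eval₂RingHom ((aeval t : F[X] →ₐ[F] K) : F[X] →+* K) x := by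
    refine Polynomial.ringHom_ext' (Polynomial.ringHom_ext' ?_ ?_) ?_
    · ext c
      simp [twoVar]
    · simp [twoVar]
    · simp [twoVar]
  have h2 : MvPolynomial.aeval ![t, x] (twoVar F q) = 0 := (RingHom.congr_fun h1 q).trans hq
  have h3 : twoVar F q = 0 := h (h2.trans (map_zero _).symm)
  exact twoVar_injective F (h3.trans (map_zero _).symm)

/-- Existence of a model. PROOF. `L → K` : `F[X] → K`, `p ↦ p(t)` is injective (`hK.independent`), so extends to the
field of fractions `L`. As `Ω` is algebraic over `L` and `S` is algebraically closed there is an embedding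
`j : Ω → S` over `L`. The element `x` of `S` is transcendental over `j(Ω)`: otherwise it would be algebraic over
`F(t)` (`Ω` is algebraic over `L = F(t)`), against `hK.independent`. So `Ω(x) → S` exists (`RatFunc`, from
`Ω[X] → S`, which is injective); finally `FunField ℓ f = AdjoinRoot (X ^ ℓ - f(x))` maps to `S` by `AdjoinRoot.lift`,
the root going to `y` (`hK.equation`; `curveL F F L (arr W a) = ∏ (X - C a_i) ^ W_i`, see `arr_over`, `rt_eq` in
`Wl/AGlob.lean`). -/
theorem exists_model [IsAlgClosed F] [IsAlgClosure K S] [IsFractionRing F[X] L] [IsAlgClosure L Ω]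
    {ι : Type} [Fintype ι] [LinearOrder ι] {W : ι → ℕ} {a : ι → F[X]}
    [hG : IsGood ℓ ((curveL F F L (arr W a)).map (algebraMap L Ω))] {t x y : K}
    (hK : IsFunctionField ℓ F W a t x y) :
    ∃ Φ : FunField ℓ ((curveL F F L (arr W a)).map (algebraMap L Ω)) →+* S, IsModel F t x y Φ := by
  have hS : IsAlgClosed S := IsAlgClosure.isAlgClosed K
  have hΩ : Algebra.IsAlgebraic L Ω := IsAlgClosure.isAlgebraic
  set i0 : F[X] →+* K := ((aeval t : F[X] →ₐ[F] K) : F[X] →+* K) with hi0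
  have hi0inj : Function.Injective i0 := by
    rw [injective_iff_map_eq_zero]
    intro p hp
    have h1 : eval₂ i0 x (C p) = 0 := by rw [eval₂_C, hp]
    exact C_eq_zero.1 (eval₂_ne_zero hK.independent h1)
  let i1 : L →+* K := IsFractionRing.lift hi0inj
  have hi1 : ∀ p : F[X], i1 (algebraMap F[X] L p) = aeval t p := fun p =>
    IsFractionRing.lift_algebraMap hi0inj p
  let _ : Algebra L S := ((algebraMap K S).comp i1).toAlgebra
  have hLS : ∀ z : L, algebraMap L S z = algebraMap K S (i1 z) := fun _ => rfl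
  let j : Ω →ₐ[L] S := IsAlgClosed.lift
  have hj : ∀ z : L, j (algebraMap L Ω z) = algebraMap K S (i1 z) := fun z => j.commutes z
  let _ : Algebra Ω S := j.toRingHom.toAlgebra
  have : IsScalarTower L Ω S := IsScalarTower.of_algebraMap_eq fun z => (j.commutes z).symm
  let _ : Algebra F[X] S := ((algebraMap K S).comp i0).toAlgebra
  have : IsScalarTower F[X] L S := IsScalarTower.of_algebraMap_eq fun p => by
    rw [hLS, hi1]
    rfl
  have htr : Function.Injective (eval₂RingHom (j : Ω →+* S) (algebraMap K S x)) := by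
    rw [injective_iff_map_eq_zero]
    intro p hp
    by_contra hne
    have h1 : IsAlgebraic Ω (algebraMap K S x) := ⟨p, hne, hp⟩
    have h2 : IsAlgebraic L (algebraMap K S x) := h1.restrictScalars L
    have h3 : IsAlgebraic F[X] (algebraMap K S x) := (IsFractionRing.isAlgebraic_iff F[X] L S).2 h2
    obtain ⟨q, hq, hq0⟩ := h3
    refine hq (eval₂_ne_zero hK.independent ?_)
    refine (algebraMap K S).injective ?_
    rw [Polynomial.hom_eval₂, map_zero]
    exact hq0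
  let g1 : RatFunc Ω →+* S := IsFractionRing.lift htr
  have hg1 : ∀ p : Polynomial Ω, g1 (algebraMap (Polynomial Ω) (RatFunc Ω) p) =
      eval₂ (j : Ω →+* S) (algebraMap K S x) p := fun p => IsFractionRing.lift_algebraMap htr p
  have hcurve : eval₂ (j : Ω →+* S) (algebraMap K S x)
      ((curveL F F L (arr W a)).map (algebraMap L Ω)) = algebraMap K S y ^ ℓ := by
    rw [show (curveL F F L (arr W a)).map (algebraMap L Ω) =
      ∏ i, (X - C (rt F F L Ω a i)) ^ W i from arr_over, eval₂_finsetProd, ← map_pow,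
      hK.equation, map_prod]
    refine Finset.prod_congr rfl fun i _ => ?_
    rw [eval₂_pow, eval₂_sub, eval₂_X, eval₂_C, map_pow, map_sub]
    congr 2
    exact (hj _).trans (congrArg _ (hi1 _))
  let Φ : FunField ℓ ((curveL F F L (arr W a)).map (algebraMap L Ω)) →+* S :=
    AdjoinRoot.lift g1 (algebraMap K S y) (by
      rw [eval₂_sub, eval₂_pow, eval₂_X, eval₂_C, hg1, hcurve, sub_self])
  have hΦ : ∀ p : Polynomial Ω, Φ (polyF p) = eval₂ (j : Ω →+* S) (algebraMap K S x) p := by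
    intro p
    rw [polyF_eq]
    exact (AdjoinRoot.lift_of _).trans (hg1 p)
  refine ⟨Φ, ⟨fun p => ?_, ?_, ?_, hK.generate⟩⟩
  · change Φ (polyF (C _)) = _
    rw [hΦ, eval₂_C]
    exact (hj _).trans (congrArg _ (hi1 p))
  · rw [hΦ, eval₂_X]
  · exact AdjoinRoot.lift_root _

variable [IsAlgClosed F] [IsAlgClosure K S] [IsFractionRing F[X] L] [IsAlgClosure L Ω]
  [hG : IsGood ℓ (f.map (algebraMap L Ω))] {t x y : K}
  {Φ : FunField ℓ (f.map (algebraMap L Ω)) →+* S}

/-- The image of the functions over `L` is contained in `K`. PROOF: `FunField ℓ f` is generated as a ring by the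
constants of `L`, `x`, the inverses of the polynomials in `x` and `y` (`AdjoinRoot.induction_on`, `RatFunc.induction_on`);
the constants `p / q` with `p`, `q` in `F[X]` go to `p(t) / q(t)`. -/
theorem IsModel.toO_mem (hΦ : IsModel F t x y Φ) (r : FunField ℓ f) :
    ∃ z : K, Φ (toO ℓ f Ω r) = algebraMap K S z := by
  have hc : ∀ c : L, Φ (cO ℓ f Ω (algebraMap L Ω c)) ∈ (algebraMap K S).fieldRange := by
    intro c
    obtain ⟨p, q, -, rfl⟩ := IsFractionRing.div_surjective (A := F[X]) c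
    have h1 := map_div₀ ((Φ.comp (cO ℓ f Ω)).comp (algebraMap L Ω)) (algebraMap F[X] L p)
      (algebraMap F[X] L q)
    change ((Φ.comp (cO ℓ f Ω)).comp (algebraMap L Ω))
      (algebraMap F[X] L p / algebraMap F[X] L q) ∈ _
    rw [h1]
    exact div_mem ⟨aeval t p, (hΦ.const p).symm⟩ ⟨aeval t q, (hΦ.const q).symm⟩
  have hp : ∀ p : L[X], Φ (toO ℓ f Ω (polyF p)) ∈ (algebraMap K S).fieldRange := by
    intro p
    induction p using Polynomial.induction_on' with
    | add p q hp hq =>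
      rw [map_add, map_add, map_add]
      exact add_mem hp hq
    | monomial n c =>
      rw [← C_mul_X_pow_eq_monomial, map_mul, map_mul, map_mul, map_pow, map_pow, map_pow]
      refine mul_mem ?_ (pow_mem ?_ n)
      · have h1 : toO ℓ f Ω (polyF (C c)) = cO ℓ f Ω (algebraMap L Ω c) := by
          unfold toO
          rw [funMap_polyF, map_C]
          rfl
        rw [h1]
        exact hc c
      · have h1 : toO ℓ f Ω (polyF X) = polyF X := by
          unfold toO
          rw [funMap_polyF, map_X]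
        rw [h1, hΦ.fx]
        exact ⟨x, rfl⟩
  have hr : ∀ a : RatFunc L, Φ (toO ℓ f Ω (AdjoinRoot.of _ a)) ∈ (algebraMap K S).fieldRange := by
    intro a
    obtain ⟨p, q, -, rfl⟩ := IsFractionRing.div_surjective (A := L[X]) a
    have h1 := map_div₀ ((Φ.comp (toO ℓ f Ω)).comp (AdjoinRoot.of
      (X ^ ℓ - C (algebraMap L[X] (RatFunc L) f) : (RatFunc L)[X])))
      (algebraMap L[X] (RatFunc L) p) (algebraMap L[X] (RatFunc L) q)
    have h2 : ∀ p : L[X], ((Φ.comp (toO ℓ f Ω)).comp (AdjoinRoot.of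
        (X ^ ℓ - C (algebraMap L[X] (RatFunc L) f) : (RatFunc L)[X])))
        (algebraMap L[X] (RatFunc L) p) ∈ (algebraMap K S).fieldRange := by
      intro p
      have h3 := hp p
      rw [polyF_eq] at h3
      exact h3
    change ((Φ.comp (toO ℓ f Ω)).comp (AdjoinRoot.of
      (X ^ ℓ - C (algebraMap L[X] (RatFunc L) f) : (RatFunc L)[X])))
      (algebraMap L[X] (RatFunc L) p / algebraMap L[X] (RatFunc L) q) ∈ _
    rw [h1]
    exact div_mem (h2 p) (h2 q)
  have hall : Φ (toO ℓ f Ω r) ∈ (algebraMap K S).fieldRange := by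
    obtain ⟨P, rfl⟩ := AdjoinRoot.mk_surjective r
    induction P using Polynomial.induction_on' with
    | add p q hp hq =>
      rw [map_add, map_add, map_add]
      exact add_mem hp hq
    | monomial n c =>
      rw [← C_mul_X_pow_eq_monomial, map_mul, map_mul, map_mul, map_pow, map_pow, map_pow,
        AdjoinRoot.mk_C, AdjoinRoot.mk_X]
      refine mul_mem (hr c) (pow_mem ?_ n)
      have h1 : toO ℓ f Ω (AdjoinRoot.root _) = yF := funMap_yF _ _
      rw [h1, hΦ.fy]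
      exact ⟨y, rfl⟩
  obtain ⟨z, hz⟩ := hall
  exact ⟨z, hz.symm⟩

/-- The image of the functions over `L` is `K`. PROOF: the image of `Φ ∘ toO` is a subring of `K` (previous lemma)
which contains `F`, `t`, `x`, `y` and the field `L(x)`; it is integral over the image of `L(x)` (`y` is), so it is a field
(`isField_of_isIntegral_of_isField'` or: a subalgebra of an algebraic extension is a field), so all of `K` by
`hΦ.gen`. -/
theorem IsModel.exists_toO (hΦ : IsModel F t x y Φ) (z : K) :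
    ∃ r : FunField ℓ f, Φ (toO ℓ f Ω r) = algebraMap K S z := by
  let _ : Algebra (RatFunc L) S := ((Φ.comp (toO ℓ f Ω)).comp (AdjoinRoot.of
    (X ^ ℓ - C (algebraMap L[X] (RatFunc L) f) : (RatFunc L)[X]))).toAlgebra
  let θ : FunField ℓ f →ₐ[RatFunc L] S := { Φ.comp (toO ℓ f Ω) with commutes' := fun _ => rfl }
  have hθ : ∀ r, θ r = Φ (toO ℓ f Ω r) := fun _ => rfl
  have hm : (X ^ ℓ - C (algebraMap L[X] (RatFunc L) f) : (RatFunc L)[X]).Monic :=
    monic_X_pow_sub_C _ hG.ne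
  have hfin : Module.Finite (RatFunc L) (FunField ℓ f) := hm.finite_adjoinRoot
  have hinv : ∀ w : S, w ∈ θ.range → w⁻¹ ∈ θ.range := by
    rintro w ⟨r, rfl⟩
    have h1 : IsIntegral (RatFunc L) r := Algebra.IsIntegral.isIntegral r
    exact Subalgebra.inv_mem_of_algebraic (A := θ.range) (x := ⟨θ r, r, rfl⟩)
      (h1.map θ).isAlgebraic
  let M : IntermediateField F K :=
    { carrier := {w | algebraMap K S w ∈ θ.range}
      mul_mem' := by
        intro u v hu hv
        change algebraMap K S (u * v) ∈ θ.range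
        rw [map_mul]
        exact mul_mem hu hv
      one_mem' := by
        change algebraMap K S 1 ∈ θ.range
        rw [map_one]
        exact one_mem _
      add_mem' := by
        intro u v hu hv
        change algebraMap K S (u + v) ∈ θ.range
        rw [map_add]
        exact add_mem hu hv
      zero_mem' := by
        change algebraMap K S 0 ∈ θ.range
        rw [map_zero]
        exact zero_mem _
      algebraMap_mem' := by
        intro c
        refine ⟨polyF (C (algebraMap F[X] L (C c))), ?_⟩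
        have h1 : toO ℓ f Ω (polyF (C (algebraMap F[X] L (C c)))) =
            cO ℓ f Ω (algebraMap L Ω (algebraMap F[X] L (C c))) := by
          unfold toO
          rw [funMap_polyF, map_C]
          rfl
        refine (hθ _).trans ?_
        rw [h1, hΦ.const, aeval_C]
      inv_mem' := by
        intro u hu
        change algebraMap K S u⁻¹ ∈ θ.range
        rw [map_inv₀]
        exact hinv _ hu }
  have hM : (⊤ : IntermediateField F K) ≤ M := by
    rw [← hΦ.gen, IntermediateField.adjoin_le_iff]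
    rintro w (rfl | rfl | rfl)
    · refine ⟨polyF (C (algebraMap F[X] L X)), ?_⟩
      have h1 : toO ℓ f Ω (polyF (C (algebraMap F[X] L X))) =
          cO ℓ f Ω (algebraMap L Ω (algebraMap F[X] L X)) := by
        unfold toO
        rw [funMap_polyF, map_C]
        rfl
      refine (hθ _).trans ?_
      rw [h1, hΦ.const, aeval_X]
    · refine ⟨polyF X, ?_⟩
      have h1 : toO ℓ f Ω (polyF X) = polyF X := by
        unfold toO
        rw [funMap_polyF, map_X]
      refine (hθ _).trans ?_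
      rw [h1, hΦ.fx]
    · refine ⟨yF, ?_⟩
      have h1 : toO ℓ f Ω yF = yF := funMap_yF _ _
      refine (hθ _).trans ?_
      rw [h1, hΦ.fy]
  obtain ⟨r, hr⟩ := hM (IntermediateField.mem_top (x := z))
  exact ⟨r, hr⟩

/-- Two homomorphisms of `FunField` which agree on the constants, on `x` and on `y` are equal
(`funField_hom_ext` and `Polynomial.ringHom_ext`). -/
theorem hom_ext {T : Type} [CommRing T] [IsDomain T] {φ ψ : FunField ℓ (f.map (algebraMap L Ω)) →+* T}
    (hc : ∀ z : Ω, φ (cO ℓ f Ω z) = ψ (cO ℓ f Ω z)) (hx : φ (polyF X) = ψ (polyF X))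
    (hy : φ yF = ψ yF) : φ = ψ := by
  have h1 : φ.comp polyF = ψ.comp polyF := Polynomial.ringHom_ext hc hx
  exact funField_hom_ext (fun p => RingHom.congr_fun h1 p) hy

/-- The embedding of `K` in the functions over `Ω`. -/
theorem IsModel.exists_kappa (hΦ : IsModel F t x y Φ) :
    ∃ κ : K →+* FunField ℓ (f.map (algebraMap L Ω)), ∀ z, Φ (κ z) = algebraMap K S z := by
  have hex : ∀ z : K, ∃ u : FunField ℓ (f.map (algebraMap L Ω)), Φ u = algebraMap K S z := fun z => by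
    obtain ⟨r, hr⟩ := hΦ.exists_toO z
    exact ⟨_, hr⟩
  choose κ hκ using hex
  have hinj : Function.Injective Φ := Φ.injective
  exact ⟨{ toFun := κ
           map_one' := hinj (by rw [hκ, map_one, map_one])
           map_mul' := fun a b => hinj (by rw [hκ, map_mul, map_mul, hκ, hκ])
           map_zero' := hinj (by rw [hκ, map_zero, map_zero])
           map_add' := fun a b => hinj (by rw [hκ, map_add, map_add, hκ, hκ]) }, hκ⟩

/-- Extension of isomorphisms: an automorphism `φ` of the field of functions over `Ω` which preserves the image of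
`K` extends to `S`. (`S` is algebraic over the image of `Φ` and algebraically closed; use the algebra structures
defined by `Φ` and `Φ ∘ φ`: `IsAlgClosed.lift` and the fact that an endomorphism of the algebraic closure is
bijective, or `IsAlgClosure.equivOfEquiv`.) -/
theorem exists_extension (hΦ : IsModel F t x y Φ)
    (φ : FunField ℓ (f.map (algebraMap L Ω)) ≃+* FunField ℓ (f.map (algebraMap L Ω))) :
    ∃ φ' : S ≃+* S, ∀ u, φ' (Φ u) = Φ (φ u) := by
  obtain ⟨κ, hκ⟩ := hΦ.exists_kappa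
  let _ : Algebra K (FunField ℓ (f.map (algebraMap L Ω))) := κ.toAlgebra
  let _ : Algebra (FunField ℓ (f.map (algebraMap L Ω))) S := Φ.toAlgebra
  have : IsScalarTower K (FunField ℓ (f.map (algebraMap L Ω))) S :=
    IsScalarTower.of_algebraMap_eq fun z => (hκ z).symm
  have : Algebra.IsAlgebraic (FunField ℓ (f.map (algebraMap L Ω))) S :=
    Algebra.IsAlgebraic.tower_top (K := K) _
  have : IsAlgClosure (FunField ℓ (f.map (algebraMap L Ω))) S :=
    ⟨IsAlgClosure.isAlgClosed K, inferInstance⟩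
  exact ⟨IsAlgClosure.equivOfEquiv S S φ, fun u => IsAlgClosure.equivOfEquiv_algebraMap S S φ u⟩

omit [IsAlgClosed F] [IsAlgClosure K S] [IsFractionRing F[X] L] [IsAlgClosure L Ω] hG in
theorem toO_C_eq (z : L) : toO ℓ f Ω (polyF (C z)) = cO ℓ f Ω (algebraMap L Ω z) := by
  unfold toO cO
  rw [funMap_polyF, Polynomial.map_C]
  rfl

omit [IsAlgClosed F] [IsAlgClosure K S] [IsFractionRing F[X] L] [IsAlgClosure L Ω] hG in
theorem funMap_cO (σ : Sym (f.map (algebraMap L Ω))) (z : Ω) :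
    funMap ℓ ((σ : Ω ≃+* Ω) : Ω →+* Ω) σ.2 (cO ℓ f Ω z) = cO ℓ f Ω ((σ : Ω ≃+* Ω) z) := by
  unfold cO
  rw [RingHom.comp_apply, funMap_polyF, Polynomial.map_C]
  rfl

omit [IsAlgClosed F] [IsAlgClosure K S] [IsFractionRing F[X] L] [IsAlgClosure L Ω] hG in
theorem funMap_toO (σ : Ω ≃ₐ[L] Ω) (r : FunField ℓ f) :
    funMap ℓ ((gs f σ : Ω ≃+* Ω) : Ω →+* Ω) (gs f σ).2 (toO ℓ f Ω r) = toO ℓ f Ω r := by
  have h : (funMap ℓ ((gs f σ : Ω ≃+* Ω) : Ω →+* Ω) (gs f σ).2).comp (toO ℓ f Ω) = toO ℓ f Ω := by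
    refine funField_hom_ext (fun p => ?_) ?_
    · unfold toO
      rw [RingHom.comp_apply, funMap_polyF, funMap_polyF, Polynomial.map_map]
      have h1 : ((gs f σ : Ω ≃+* Ω) : Ω →+* Ω).comp (algebraMap L Ω) = algebraMap L Ω :=
        RingHom.ext fun z => σ.commutes z
      rw [h1]
    · unfold toO
      rw [RingHom.comp_apply, funMap_yF, funMap_yF]
  exact RingHom.congr_fun h r

theorem modb_coe_symU (σ : Sym (f.map (algebraMap L Ω))) (u : FunField ℓ (f.map (algebraMap L Ω))) :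
    autF (symE ℓ σ) u = funMap ℓ ((σ : Ω ≃+* Ω) : Ω →+* Ω) σ.2 u := by
  have h : ((autF (symE ℓ σ) : FunField ℓ (f.map (algebraMap L Ω)) ≃+* _) :
      FunField ℓ (f.map (algebraMap L Ω)) →+* FunField ℓ (f.map (algebraMap L Ω))) =
      funMap ℓ ((σ : Ω ≃+* Ω) : Ω →+* Ω) σ.2 := by
    refine funField_hom_ext (fun p => ?_) ?_
    · rw [funMap_polyF]
      have h1 := autF_algebraMap (symE ℓ σ) (ofPoly p)
      rw [R07_symE_ofPoly] at h1
      exact h1
    · rw [funMap_yF]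
      have h1 := autF_algebraMap (symE ℓ σ) (yy : NRing ℓ (f.map (algebraMap L Ω)))
      rw [R07_symE_yy] at h1
      exact h1
  exact RingHom.congr_fun h u

/-- The restriction of an automorphism to the constants. -/
theorem IsModel.exists_restrict (hΦ : IsModel F t x y Φ) (g : S ≃ₐ[K] S) :
    ∃ σ : Ω ≃ₐ[L] Ω, ∀ z, Φ (cO ℓ f Ω (σ z)) = g (Φ (cO ℓ f Ω z)) := by
  let _ : Algebra Ω S := (Φ.comp (cO ℓ f Ω)).toAlgebra
  let _ : Algebra L S := ((Φ.comp (cO ℓ f Ω)).comp (algebraMap L Ω)).toAlgebra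
  have : IsScalarTower L Ω S := IsScalarTower.of_algebraMap_eq fun z => rfl
  have : Normal L Ω := IsAlgClosure.normal L Ω
  have hg : ∀ z : L, g (algebraMap L S z) = algebraMap L S z := fun z => by
    obtain ⟨w, hw⟩ := hΦ.toO_mem (polyF (C z))
    rw [toO_C_eq] at hw
    have h1 : algebraMap L S z = algebraMap K S w := hw
    rw [h1, g.commutes]
  let g' : S ≃ₐ[L] S := AlgEquiv.ofRingEquiv (f := (g : S ≃+* S)) hg
  exact ⟨g'.restrictNormal Ω, fun z => g'.restrictNormal_commutes Ω z⟩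

/-- The restriction of the automorphisms of `S` to `Ω`. PROOF. Let `g` be in `Aut(S/K)`. The image `Φ(Ω)` of the
constants is the algebraic closure of the image of `L` in `S` (it is algebraically closed and algebraic over it), and
`g` fixes the image of `L`, which is in `K`; so `g` maps `Φ(Ω)` onto itself and defines `r g`. The two sides are equal
by `hom_ext` (`g` fixes `Φ x`, `Φ y`). Surjectivity: `exists_extension` applied to the automorphism `funMap σ`
(inverse `funMap σ⁻¹`); the extension fixes `K` by `IsModel.exists_toO`. -/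
theorem exists_res (hΦ : IsModel F t x y Φ) : ∃ r : (S ≃ₐ[K] S) →* (Ω ≃ₐ[L] Ω),
    Function.Surjective r ∧ ∀ (g : S ≃ₐ[K] S) (u : FunField ℓ (f.map (algebraMap L Ω))),
      g (Φ u) = Φ (funMap ℓ ((r g : Ω ≃ₐ[L] Ω) : Ω →+* Ω) (gs f (r g)).2 u) := by
  choose r hr using hΦ.exists_restrict
  have hinj : Function.Injective (Φ.comp (cO ℓ f Ω)) := RingHom.injective _
  refine ⟨⟨⟨r, ?_⟩, ?_⟩, ?_, ?_⟩
  · refine AlgEquiv.ext fun z => hinj ?_
    show Φ (cO ℓ f Ω (r 1 z)) = Φ (cO ℓ f Ω z)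
    rw [hr]
    rfl
  · intro g h
    refine AlgEquiv.ext fun z => hinj ?_
    show Φ (cO ℓ f Ω (r (g * h) z)) = Φ (cO ℓ f Ω (r g (r h z)))
    rw [hr, hr, hr]
    rfl
  · intro σ
    obtain ⟨φ', hφ'⟩ := exists_extension hΦ (autF (symE ℓ (gs f σ)))
    have hK : ∀ z : K, φ' (algebraMap K S z) = algebraMap K S z := fun z => by
      obtain ⟨w, hw⟩ := hΦ.exists_toO z
      rw [← hw, hφ', modb_coe_symU, funMap_toO]
    refine ⟨AlgEquiv.ofRingEquiv (f := φ') hK, ?_⟩
    refine AlgEquiv.ext fun z => hinj ?_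
    show Φ (cO ℓ f Ω (r (AlgEquiv.ofRingEquiv (f := φ') hK) z)) = Φ (cO ℓ f Ω (σ z))
    rw [hr]
    show φ' (Φ (cO ℓ f Ω z)) = Φ (cO ℓ f Ω (σ z))
    rw [hφ', modb_coe_symU, funMap_cO]
    rfl
  · intro g u
    have h : ((g : S ≃+* S) : S →+* S).comp Φ =
        Φ.comp (funMap ℓ ((gs f (r g) : Ω ≃+* Ω) : Ω →+* Ω) (gs f (r g)).2) := by
      refine hom_ext (fun z => ?_) ?_ ?_
      · rw [RingHom.comp_apply, RingHom.comp_apply, funMap_cO]
        exact (hr g z).symm
      · rw [RingHom.comp_apply, RingHom.comp_apply, funMap_polyF, Polynomial.map_X, hΦ.fx]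
        exact g.commutes x
      · rw [RingHom.comp_apply, RingHom.comp_apply, funMap_yF, hΦ.fy]
        exact g.commutes y
    exact RingHom.congr_fun h u

/-- The restriction of the automorphisms of `S` to `Ω`. -/
noncomputable def res (hΦ : IsModel F t x y Φ) : (S ≃ₐ[K] S) →* (Ω ≃ₐ[L] Ω) := (exists_res hΦ).choose

theorem res_surjective (hΦ : IsModel F t x y Φ) : Function.Surjective (res hΦ) :=
  (exists_res hΦ).choose_spec.1

theorem res_spec (hΦ : IsModel F t x y Φ) (g : S ≃ₐ[K] S) (u : FunField ℓ (f.map (algebraMap L Ω))) :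
    g (Φ u) = Φ (funMap ℓ ((res hΦ g : Ω ≃ₐ[L] Ω) : Ω →+* Ω) (gs f (res hΦ g)).2 u) :=
  (exists_res hΦ).choose_spec.2 g u

/-- The same for units. (`symU σ` is the map induced by `funMap σ`: `symU`, `symE`, `autU`, `autF` in `Wt/W06.lean`,
`Wt/W07.lean`; both are ring homomorphisms which agree on the coordinate ring.) -/
theorem coe_symU (σ : Sym (f.map (algebraMap L Ω))) (u : (FunField ℓ (f.map (algebraMap L Ω)))ˣ) :
    ((symU σ u : (FunField ℓ (f.map (algebraMap L Ω)))ˣ) : FunField ℓ (f.map (algebraMap L Ω))) =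
      funMap ℓ ((σ : Ω ≃+* Ω) : Ω →+* Ω) σ.2 u := by
  have h1 : ((autU (symE ℓ σ) u : (FunField ℓ (f.map (algebraMap L Ω)))ˣ) :
      FunField ℓ (f.map (algebraMap L Ω))) = autF (symE ℓ σ) (u : FunField ℓ (f.map (algebraMap L Ω))) := rfl
  have h2 := modb_coe_symU σ (u : FunField ℓ (f.map (algebraMap L Ω)))
  rw [← h1] at h2
  exact h2

theorem res_symU (hΦ : IsModel F t x y Φ) (g : S ≃ₐ[K] S) (u : (FunField ℓ (f.map (algebraMap L Ω)))ˣ) :
    g (Φ u) = Φ (symU (gs f (res hΦ g)) u : (FunField ℓ (f.map (algebraMap L Ω)))ˣ) := by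
  rw [res_spec hΦ, coe_symU]
  rfl

/-- The kernel of the restriction. -/
theorem res_eq_one_iff (hΦ : IsModel F t x y Φ) (g : S ≃ₐ[K] S) :
    res hΦ g = 1 ↔ ∀ u, g (Φ u) = Φ u := by
  constructor
  · intro h u
    rw [res_spec hΦ]
    have h1 : (funMap ℓ ((gs f (res hΦ g) : Ω ≃+* Ω) : Ω →+* Ω) (gs f (res hΦ g)).2 :
        FunField ℓ (f.map (algebraMap L Ω)) →+* FunField ℓ (f.map (algebraMap L Ω))) =
        RingHom.id _ := by
      have h2 : ((gs f (res hΦ g) : Ω ≃+* Ω) : Ω →+* Ω) = RingHom.id Ω := by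
        refine RingHom.ext fun z => ?_
        show res hΦ g z = z
        rw [h]
        rfl
      refine funField_hom_ext (fun p => ?_) ?_
      · rw [funMap_polyF, h2, Polynomial.map_id, RingHom.id_apply]
      · rw [funMap_yF, RingHom.id_apply]
    exact congrArg Φ (RingHom.congr_fun h1 u)
  · intro h
    have hinj : Function.Injective (Φ.comp (cO ℓ f Ω)) := RingHom.injective _
    refine AlgEquiv.ext fun z => hinj ?_
    have h1 := res_spec hΦ g (cO ℓ f Ω z)
    rw [h] at h1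
    have h2 := funMap_cO (ℓ := ℓ) (gs f (res hΦ g)) z
    show Φ (cO ℓ f Ω (res hΦ g z)) = Φ (cO ℓ f Ω z)
    rw [h1]
    exact congrArg Φ h2.symm

/-- The embedding of `K` in the functions. -/
theorem modc_exists_hom (hΦ : IsModel F t x y Φ) :
    ∃ κ : K →+* FunField ℓ (f.map (algebraMap L Ω)), ∀ z, Φ (κ z) = algebraMap K S z := by
  have h1 : ∀ z : K, ∃ u : FunField ℓ (f.map (algebraMap L Ω)), Φ u = algebraMap K S z := by
    intro z
    obtain ⟨r, hr⟩ := hΦ.exists_toO z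
    exact ⟨_, hr⟩
  choose κ hκ using h1
  have hinj : Function.Injective Φ := Φ.injective
  refine ⟨{ toFun := κ
            map_one' := hinj (by rw [hκ, map_one, map_one])
            map_mul' := fun a b => hinj (by rw [hκ, map_mul, map_mul, hκ, hκ])
            map_zero' := hinj (by rw [hκ, map_zero, map_zero])
            map_add' := fun a b => hinj (by rw [hκ, map_add, map_add, hκ, hκ]) }, hκ⟩

/-- The kernel of the restriction as a group of automorphisms over the functions. -/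
theorem modc_ker (hΦ : IsModel F t x y Φ) :
    ∃ (_ : Algebra (FunField ℓ (f.map (algebraMap L Ω))) S)
      (_ : IsAlgClosure (FunField ℓ (f.map (algebraMap L Ω))) S),
      (∀ u, algebraMap (FunField ℓ (f.map (algebraMap L Ω))) S u = Φ u) ∧
      ∃ j : (S ≃ₐ[FunField ℓ (f.map (algebraMap L Ω))] S) → (S ≃ₐ[K] S),
        (∀ g z, j g z = g z) ∧ (∀ g, res hΦ (j g) = 1) ∧
        ∀ g : S ≃ₐ[K] S, res hΦ g = 1 → ∃ g', j g' = g := by
  obtain ⟨κ, hκ⟩ := modc_exists_hom hΦ
  let iA : Algebra (FunField ℓ (f.map (algebraMap L Ω))) S := Φ.toAlgebra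
  let iB : Algebra K (FunField ℓ (f.map (algebraMap L Ω))) := κ.toAlgebra
  have iT : IsScalarTower K (FunField ℓ (f.map (algebraMap L Ω))) S :=
    IsScalarTower.of_algebraMap_eq fun z => (hκ z).symm
  have iAlg : Algebra.IsAlgebraic K S := IsAlgClosure.isAlgebraic
  have iAlg' : Algebra.IsAlgebraic (FunField ℓ (f.map (algebraMap L Ω))) S :=
    Algebra.IsAlgebraic.tower_top (K := K) _
  have iCl : IsAlgClosed S := IsAlgClosure.isAlgClosed K
  refine ⟨iA, ⟨iCl, iAlg'⟩, fun u => rfl, fun g => g.restrictScalars K, fun g z => rfl, ?_, ?_⟩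
  · intro g
    rw [res_eq_one_iff]
    intro u
    exact g.commutes u
  · intro g hg
    rw [res_eq_one_iff] at hg
    refine ⟨AlgEquiv.ofRingEquiv (f := g.toRingEquiv) fun u => hg u, ?_⟩
    exact AlgEquiv.ext fun z => rfl

/-- Hilbert's theorem 90 for the kernel of the restriction. PROOF. Let `Φ.toAlgebra` make `S` an algebraic closure
of `M = FunField ..`; the kernel is the group `S ≃ₐ[M] S` (`res_eq_one_iff`; an element of `S ≃ₐ[M] S` fixes `K`, whose
image is in that of `M` by `IsModel.exists_toO`). Apply `h90`. -/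
theorem h90_ker (hΦ : IsModel F t x y Φ) (a : (S ≃ₐ[K] S) → Sˣ) (ha : IsCts a)
    (hc : ∀ g h : S ≃ₐ[K] S, res hΦ g = 1 → res hΦ h = 1 → (a (g * h) : S) = g (a h) * a g) :
    ∃ e : Sˣ, ∀ g : S ≃ₐ[K] S, res hΦ g = 1 → (a g : S) * e = g e := by
  obtain ⟨iA, iC, hA, j, hj, hj1, hj2⟩ := modc_ker hΦ
  obtain ⟨T, hT⟩ := ha
  have hjm : ∀ g h, j (g * h) = j g * j h := fun g h => AlgEquiv.ext fun z => by
    rw [hj]
    show g (h z) = j g (j h z)
    rw [hj, hj]
  obtain ⟨e, he⟩ := h90 (K := FunField ℓ (f.map (algebraMap L Ω))) (fun g => a (j g))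
    ⟨T, fun g g' h => hT _ _ fun z hz => by rw [hj, hj]; exact h z hz⟩
    (fun g h => by
      show (a (j (g * h)) : S) = g (a (j h)) * a (j g)
      rw [hjm, hc _ _ (hj1 g) (hj1 h), hj])
  refine ⟨e, fun g hg => ?_⟩
  obtain ⟨g', rfl⟩ := hj2 g hg
  rw [hj]
  exact he g'

/-- The elements fixed by the kernel of the restriction. PROOF: `exists_pow_mem` for `S ≃ₐ[M] S`, as in `h90_ker`. -/
theorem exists_pow_ker (hΦ : IsModel F t x y Φ) (z : S)
    (hz : ∀ g : S ≃ₐ[K] S, res hΦ g = 1 → g z = z) :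
    ∃ (s : ℕ) (u : FunField ℓ (f.map (algebraMap L Ω))), z ^ ringExpChar F ^ s = Φ u := by
  obtain ⟨iA, iC, hA, j, hj, hj1, hj2⟩ := modc_ker hΦ
  obtain ⟨s, u, hu⟩ := exists_pow_mem (K := FunField ℓ (f.map (algebraMap L Ω))) z
    (fun g => by rw [← hj]; exact hz _ (hj1 g))
  have hF : ringExpChar F = ringExpChar (FunField ℓ (f.map (algebraMap L Ω))) := by
    have h1 : ExpChar F (ringExpChar F) := inferInstance
    let i : F →+* FunField ℓ (f.map (algebraMap L Ω)) :=
      (cO ℓ f Ω).comp ((algebraMap L Ω).comp ((algebraMap F[X] L).comp C))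
    have h2 : ExpChar (FunField ℓ (f.map (algebraMap L Ω))) (ringExpChar F) :=
      expChar_of_injective_ringHom i.injective _
    exact (ringExpChar.eq (FunField ℓ (f.map (algebraMap L Ω))) (ringExpChar F)).symm
  refine ⟨s, u, ?_⟩
  rw [hF, hu, hA]

/-- A function involves only finitely many elements of `Ω` (`exists_den` in `Wt/W01.lean`). -/
theorem exists_support (u : FunField ℓ (f.map (algebraMap L Ω))) : ∃ T : Finset Ω,
    ∀ σ τ : Sym (f.map (algebraMap L Ω)), (∀ z ∈ T, (σ : Ω ≃+* Ω) z = (τ : Ω ≃+* Ω) z) →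
      funMap ℓ ((σ : Ω ≃+* Ω) : Ω →+* Ω) σ.2 u = funMap ℓ ((τ : Ω ≃+* Ω) : Ω →+* Ω) τ.2 u := by
  obtain ⟨p, q, hq, hu⟩ := exists_den u
  refine ⟨q.coeffs ∪ (Finset.range ℓ).biUnion fun i => (p i).coeffs, fun σ τ h => ?_⟩
  have hmap : ∀ r : Polynomial Ω, (∀ z ∈ r.coeffs, (σ : Ω ≃+* Ω) z = (τ : Ω ≃+* Ω) z) →
      r.map ((σ : Ω ≃+* Ω) : Ω →+* Ω) = r.map ((τ : Ω ≃+* Ω) : Ω →+* Ω) := by
    intro r hr
    refine Polynomial.ext fun n => ?_
    rw [coeff_map, coeff_map]
    by_cases h0 : r.coeff n = 0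
    · rw [h0, map_zero, map_zero]
    · exact hr _ (coeff_mem_coeffs h0)
  have hq' : q.map ((σ : Ω ≃+* Ω) : Ω →+* Ω) = q.map ((τ : Ω ≃+* Ω) : Ω →+* Ω) :=
    hmap q fun z hz => h z (Finset.mem_union_left _ hz)
  have hp' : ∀ i ∈ Finset.range ℓ, (p i).map ((σ : Ω ≃+* Ω) : Ω →+* Ω) =
      (p i).map ((τ : Ω ≃+* Ω) : Ω →+* Ω) := fun i hi =>
    hmap (p i) fun z hz => h z (Finset.mem_union_right _ (Finset.mem_biUnion.mpr ⟨i, hi, hz⟩))
  have key : ∀ ρ : Sym (f.map (algebraMap L Ω)),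
      polyF (q.map ((ρ : Ω ≃+* Ω) : Ω →+* Ω)) * funMap ℓ ((ρ : Ω ≃+* Ω) : Ω →+* Ω) ρ.2 u =
        ∑ i ∈ Finset.range ℓ, polyF ((p i).map ((ρ : Ω ≃+* Ω) : Ω →+* Ω)) * yF ^ i := by
    intro ρ
    have h1 := congrArg (funMap ℓ ((ρ : Ω ≃+* Ω) : Ω →+* Ω) ρ.2) hu
    rw [map_mul, funMap_polyF, map_sum] at h1
    rw [h1]
    refine Finset.sum_congr rfl fun i _ => ?_
    rw [map_mul, map_pow, funMap_polyF, funMap_yF]
  have hne : (polyF (q.map ((τ : Ω ≃+* Ω) : Ω →+* Ω)) :
      FunField ℓ (f.map (algebraMap L Ω))) ≠ 0 := by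
    intro h0
    have h1 : q.map ((τ : Ω ≃+* Ω) : Ω →+* Ω) = 0 :=
      polyF_injective (h0.trans (map_zero _).symm)
    exact hq ((Polynomial.map_eq_zero _).mp h1)
  have hσ := key σ
  have hτ := key τ
  rw [hq', Finset.sum_congr rfl fun i hi => by rw [hp' i hi], ← hτ] at hσ
  exact mul_left_cancel₀ hne hσ

/-- The restriction is an open map. PROOF. Let `E` be a finite normal extension of `K` in `S` which contains `T`,
`Q = E ≃ₐ[K] E`, `N'` the image in `Q` of the kernel of `res` (a normal subgroup) and `B` the subfield of the elements of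
`E` fixed by `N'`; `B` is generated over `K` by finitely many elements `b_i`, and `b_i ^ (p ^ s) = Φ u_i`
(`exists_pow_ker`). Let `U` be a finite set which works for all the `u_i` (`exists_support`). If `γ` fixes `U`, let `g` be
such that `res g = γ`; then `g (Φ u_i) = Φ u_i` (`res_spec`, and `funMap` of the identity), so `g b_i = b_i` (injectivity of
the `p`-th power), `g` fixes `B`, so the restriction of `g` to `E` is in `N'` (Artin:
`IntermediateField.fixingSubgroup_fixedField`, `E` is finite over `K`): it is the restriction of some `n` in the kernel of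
`res`. Take `g n⁻¹`. -/
theorem open_res (hΦ : IsModel F t x y Φ) (T : Finset S) : ∃ U : Finset Ω, ∀ γ : Ω ≃ₐ[L] Ω,
    (∀ z ∈ U, γ z = z) → ∃ g : S ≃ₐ[K] S, res hΦ g = γ ∧ ∀ z ∈ T, g z = z := by
  obtain ⟨E, hfd, hn, hE⟩ := exists_normal (K := K) T
  have hKS : Normal K S := IsAlgClosure.normal K S
  have hexp : ExpChar S (ringExpChar F) :=
    expChar_of_injective_ringHom ((algebraMap K S).comp (algebraMap F K)).injective _
  -- an element fixed by the kernel is fixed by the `g` whose restriction fixes a finite set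
  have key : ∀ b : S, (∀ g : S ≃ₐ[K] S, res hΦ g = 1 → g b = b) →
      ∃ U : Finset Ω, ∀ g : S ≃ₐ[K] S, (∀ z ∈ U, res hΦ g z = z) → g b = b := by
    intro b hb
    obtain ⟨s, u, hu⟩ := exists_pow_ker hΦ b hb
    obtain ⟨U, hU⟩ := exists_support (f := f) u
    refine ⟨U, fun g hg => ?_⟩
    have h1 : g (Φ u) = (1 : S ≃ₐ[K] S) (Φ u) := by
      rw [res_spec hΦ g u, res_spec hΦ 1 u]
      refine congrArg Φ (hU (gs f (res hΦ g)) (gs f (res hΦ 1)) fun z hz => ?_)
      show res hΦ g z = res hΦ 1 z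
      rw [hg z hz, map_one]
      rfl
    have h2 : g b ^ ringExpChar F ^ s = b ^ ringExpChar F ^ s := by
      rw [← map_pow, hu, h1]
      rfl
    exact iterateFrobenius_inj S (ringExpChar F) s
      (by rw [iterateFrobenius_def, iterateFrobenius_def, h2])
  let rE : (S ≃ₐ[K] S) →* (E ≃ₐ[K] E) := AlgEquiv.restrictNormalHom E
  have hrE : ∀ (g : S ≃ₐ[K] S) (z : E), ((rE g z : E) : S) = g z :=
    fun g z => AlgEquiv.restrictNormal_commutes g E z
  let N' : Subgroup (E ≃ₐ[K] E) := (res hΦ).ker.map rE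
  have hB : ∀ b : IntermediateField.fixedField N', ∃ U : Finset Ω, ∀ g : S ≃ₐ[K] S,
      (∀ z ∈ U, res hΦ g z = z) → g ((b : E) : S) = ((b : E) : S) := by
    intro b
    refine key _ fun g hg => ?_
    have h1 : rE g ∈ N' := ⟨g, hg, rfl⟩
    have h2 : rE g (b : E) = (b : E) := b.2 ⟨rE g, h1⟩
    rw [← hrE g (b : E), h2]
  choose Ub hUb using hB
  obtain ⟨s, hs⟩ := (inferInstance : Module.Finite K (IntermediateField.fixedField N')).fg_top
  refine ⟨s.biUnion Ub, fun γ hγ => ?_⟩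
  obtain ⟨g, rfl⟩ := res_surjective hΦ γ
  have hfix : ∀ b : IntermediateField.fixedField N', g ((b : E) : S) = ((b : E) : S) := by
    intro b
    have hb : b ∈ Submodule.span K (s : Set (IntermediateField.fixedField N')) := by
      rw [hs]
      exact Submodule.mem_top
    induction hb using Submodule.span_induction with
    | mem b hb => exact hUb b g fun z hz => hγ z (Finset.mem_biUnion.2 ⟨b, hb, hz⟩)
    | zero => exact map_zero g
    | add b c _ _ h1 h2 =>
      have e : (((b + c : IntermediateField.fixedField N') : E) : S) =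
        ((b : E) : S) + ((c : E) : S) := rfl
      rw [e, map_add, h1, h2]
    | smul k b _ h1 =>
      have e : (((k • b : IntermediateField.fixedField N') : E) : S) = k • ((b : E) : S) := rfl
      rw [e, map_smul, h1]
  have hmem : rE g ∈ N' := by
    rw [← IntermediateField.fixingSubgroup_fixedField N', IntermediateField.mem_fixingSubgroup_iff]
    intro z hz
    apply Subtype.ext
    rw [hrE]
    exact hfix ⟨z, hz⟩
  obtain ⟨n, hn1, hn2⟩ := hmem
  have hn3 : res hΦ n = 1 := hn1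
  refine ⟨g * n⁻¹, by rw [map_mul, map_inv, hn3, inv_one, mul_one], fun z hz => ?_⟩
  have h4 : rE (g * n⁻¹) = 1 := by
    rw [map_mul, map_inv, ← hn2, mul_inv_cancel]
  have h5 := hrE (g * n⁻¹) ⟨z, hE z hz⟩
  rw [h4] at h5
  exact h5.symm

theorem modd_lift (hΦ : IsModel F t x y Φ) {T : Finset S} {U : Finset Ω} (hU : ∀ γ : Ω ≃ₐ[L] Ω,
    (∀ z ∈ U, γ z = z) → ∃ g : S ≃ₐ[K] S, res hΦ g = γ ∧ ∀ z ∈ T, g z = z) {γ γ' : Ω ≃ₐ[L] Ω}
    (h : ∀ z ∈ U, γ z = γ' z) :
    ∃ g g' : S ≃ₐ[K] S, res hΦ g = γ ∧ res hΦ g' = γ' ∧ ∀ z ∈ T, g z = g' z := by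
  obtain ⟨g, hg⟩ := res_surjective hΦ γ
  obtain ⟨n, hn1, hn2⟩ := hU (γ⁻¹ * γ') fun z hz => by
    show γ.symm (γ' z) = z
    rw [← h z hz]
    exact γ.symm_apply_apply z
  refine ⟨g, g * n, hg, by rw [map_mul, hg, hn1, mul_inv_cancel_left], fun z hz => ?_⟩
  show g z = g (n z)
  rw [hn2 z hz]

/-- Continuity below. PROOF: if `γ`, `γ'` agree on the `U` of `open_res`, then `γ⁻¹ γ'` fixes `U`. -/
theorem isCts_of_res (hΦ : IsModel F t x y Φ) {X : Type} (c : (Ω ≃ₐ[L] Ω) → X)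
    (hc : IsCts fun g : S ≃ₐ[K] S => c (res hΦ g)) : IsCts c := by
  obtain ⟨T, hT⟩ := hc
  obtain ⟨U, hU⟩ := open_res hΦ T
  refine ⟨U, fun γ γ' h => ?_⟩
  obtain ⟨g, g', rfl, rfl, hg⟩ := modd_lift hΦ hU h
  exact hT g g' hg

theorem icts₂_of_res (hΦ : IsModel F t x y Φ) {X : Type} (c : (Ω ≃ₐ[L] Ω) → (Ω ≃ₐ[L] Ω) → X)
    (hc : ∃ T : Finset S, ∀ g g' h h' : S ≃ₐ[K] S, (∀ x ∈ T, g x = g' x) → (∀ x ∈ T, h x = h' x) →
      c (res hΦ g) (res hΦ h) = c (res hΦ g') (res hΦ h')) : ICts2 c := by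
  obtain ⟨T, hT⟩ := hc
  obtain ⟨U, hU⟩ := open_res hΦ T
  refine ⟨U, fun γ γ' δ δ' h1 h2 => ?_⟩
  obtain ⟨g, g', rfl, rfl, hg⟩ := modd_lift hΦ hU h1
  obtain ⟨h, h', rfl, rfl, hh⟩ := modd_lift hΦ hU h2
  exact hT g g' h h' hg hh

/-- Continuity above. PROOF: `c γ` depends only on the restriction of `γ` to `U`, and
`Φ (cO (res g z)) = g (Φ (cO z))`; take the image of `U`. -/
theorem isCts_res (hΦ : IsModel F t x y Φ) {X : Type} {c : (Ω ≃ₐ[L] Ω) → X} (hc : IsCts c) :
    IsCts fun g : S ≃ₐ[K] S => c (res hΦ g) := by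
  obtain ⟨U, hU⟩ := hc
  have h1 : ∀ (g : S ≃ₐ[K] S) (z : Ω), g (Φ (cO ℓ f Ω z)) = Φ (cO ℓ f Ω (res hΦ g z)) := by
    intro g z
    rw [res_spec hΦ]
    refine congrArg Φ ?_
    exact (funMap_polyF _ _ (C z)).trans
      (congrArg (polyF (N := ℓ) (f := f.map (algebraMap L Ω))) (Polynomial.map_C _))
  refine ⟨U.image fun z => Φ (cO ℓ f Ω z), fun g g' h => hU _ _ fun z hz => ?_⟩
  have h2 := h _ (Finset.mem_image_of_mem _ hz)
  rw [h1, h1] at h2
  exact (cO ℓ f Ω).injective (Φ.injective h2)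

end

end Pool.Agent.Lib.MP_89bcae_ag.Bra

end

section

/-!
# Comparison of the cohomology of the function field `K` with that of `Aut(Ω/L)`
-/

open Polynomial IsDedekindDomain IsLocalRing

open scoped Classical

namespace Pool.Agent.Lib.MP_89bcae_ag.Bra

open Pool.Agent.Lib.MP_89bcae_ag.Wt Pool.Agent.Lib.MP_89bcae_ag.Wt.Lns

section

variable {K S : Type} [Field K] [Field S] [Algebra K S] {L Ω : Type} [Field L] [Field Ω] [Algebra L Ω]
  {ℓ : ℕ} {f : L[X]} {F : Type} [Field F] [Algebra F K] [Algebra F[X] L]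
  [IsAlgClosed F] [IsAlgClosure K S] [IsFractionRing F[X] L] [IsAlgClosure L Ω]
  [hG : IsGood ℓ (f.map (algebraMap L Ω))] {t x y : K}
  {Φ : FunField ℓ (f.map (algebraMap L Ω)) →+* S}

/-- The inflation of a cochain of degree two. -/
noncomputable def infl (hΦ : IsModel F t x y Φ)
    (b : (Ω ≃ₐ[L] Ω) → (Ω ≃ₐ[L] Ω) → (FunField ℓ (f.map (algebraMap L Ω)))ˣ) :
    (S ≃ₐ[K] S) → (S ≃ₐ[K] S) → Sˣ :=
  fun g h => Units.map (Φ : _ →* S) (b (res hΦ g) (res hΦ h))

/-- The embedding of `K` in the functions. -/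
theorem exta_exists_hom (hΦ : IsModel F t x y Φ) :
    ∃ κ : K →+* FunField ℓ (f.map (algebraMap L Ω)), ∀ z, Φ (κ z) = algebraMap K S z := by
  have h1 : ∀ z : K, ∃ u : FunField ℓ (f.map (algebraMap L Ω)), Φ u = algebraMap K S z := by
    intro z
    obtain ⟨r, hr⟩ := hΦ.exists_toO z
    exact ⟨_, hr⟩
  choose κ hκ using h1
  have hinj : Function.Injective Φ := Φ.injective
  refine ⟨{ toFun := κ
            map_one' := hinj (by rw [hκ, map_one, map_one])
            map_mul' := fun a b => hinj (by rw [hκ, map_mul, map_mul, hκ, hκ])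
            map_zero' := hinj (by rw [hκ, map_zero, map_zero])
            map_add' := fun a b => hinj (by rw [hκ, map_add, map_add, hκ, hκ]) }, hκ⟩

/-- The kernel of the restriction as a group of automorphisms over the functions. -/
theorem exta_ker (hΦ : IsModel F t x y Φ) :
    ∃ (_ : Algebra (FunField ℓ (f.map (algebraMap L Ω))) S)
      (_ : IsAlgClosure (FunField ℓ (f.map (algebraMap L Ω))) S),
      (∀ u, algebraMap (FunField ℓ (f.map (algebraMap L Ω))) S u = Φ u) ∧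
      ∃ j : (S ≃ₐ[FunField ℓ (f.map (algebraMap L Ω))] S) → (S ≃ₐ[K] S),
        (∀ g z, j g z = g z) ∧ (∀ g, res hΦ (j g) = 1) ∧
        ∀ g : S ≃ₐ[K] S, res hΦ g = 1 → ∃ g', j g' = g := by
  obtain ⟨κ, hκ⟩ := exta_exists_hom hΦ
  let iA : Algebra (FunField ℓ (f.map (algebraMap L Ω))) S := Φ.toAlgebra
  let iB : Algebra K (FunField ℓ (f.map (algebraMap L Ω))) := κ.toAlgebra
  have iT : IsScalarTower K (FunField ℓ (f.map (algebraMap L Ω))) S :=
    IsScalarTower.of_algebraMap_eq fun z => (hκ z).symm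
  have iAlg : Algebra.IsAlgebraic K S := IsAlgClosure.isAlgebraic
  have iAlg' : Algebra.IsAlgebraic (FunField ℓ (f.map (algebraMap L Ω))) S :=
    Algebra.IsAlgebraic.tower_top (K := K) _
  have iCl : IsAlgClosed S := IsAlgClosure.isAlgClosed K
  refine ⟨iA, ⟨iCl, iAlg'⟩, fun u => rfl, fun g => g.restrictScalars K, fun g z => rfl, ?_, ?_⟩
  · intro g
    rw [res_eq_one_iff]
    intro u
    exact g.commutes u
  · intro g hg
    rw [res_eq_one_iff] at hg
    refine ⟨AlgEquiv.ofRingEquiv (f := g.toRingEquiv) fun u => hg u, ?_⟩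
    exact AlgEquiv.ext fun z => rfl

/-- Extension of a continuous cochain of a subgroup. -/
theorem exta_extend {M : Type} [Field M] [Algebra M S] (j : (S ≃ₐ[M] S) → (S ≃ₐ[K] S))
    (hj : ∀ g z, j g z = g z) (a : (S ≃ₐ[M] S) → Sˣ) (ha : IsCts a) :
    ∃ a' : (S ≃ₐ[K] S) → Sˣ, IsCts a' ∧ ∀ g, a' (j g) = a g := by
  obtain ⟨T, hT⟩ := ha
  refine ⟨fun g => if h : ∃ n : S ≃ₐ[M] S, ∀ z ∈ T, g z = n z then a h.choose else 1, ⟨T, ?_⟩, ?_⟩
  · intro g g' hgg
    show (if h : ∃ n : S ≃ₐ[M] S, ∀ z ∈ T, g z = n z then a h.choose else 1) =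
      (if h : ∃ n : S ≃ₐ[M] S, ∀ z ∈ T, g' z = n z then a h.choose else 1)
    by_cases h : ∃ n : S ≃ₐ[M] S, ∀ z ∈ T, g z = n z
    · have h' : ∃ n : S ≃ₐ[M] S, ∀ z ∈ T, g' z = n z := by
        obtain ⟨n, hn⟩ := h
        exact ⟨n, fun z hz => (hgg z hz).symm.trans (hn z hz)⟩
      rw [dif_pos h, dif_pos h']
      refine hT _ _ fun z hz => ?_
      rw [← h.choose_spec z hz, hgg z hz, ← h'.choose_spec z hz]
    · have h' : ¬ ∃ n : S ≃ₐ[M] S, ∀ z ∈ T, g' z = n z := by
        rintro ⟨n, hn⟩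
        exact h ⟨n, fun z hz => (hgg z hz).trans (hn z hz)⟩
      rw [dif_neg h, dif_neg h']
  · intro g
    have h : ∃ n : S ≃ₐ[M] S, ∀ z ∈ T, j g z = n z := ⟨g, fun z _ => hj g z⟩
    show (if h : ∃ n : S ≃ₐ[M] S, ∀ z ∈ T, j g z = n z then a h.choose else 1) = a g
    rw [dif_pos h]
    refine hT _ _ fun z hz => ?_
    rw [← h.choose_spec z hz, hj]

/-- The restriction of a class to the kernel of `res` is trivial up to a multiple prime to `ℓ`. PROOF. `Φ.toAlgebra`
makes `S` an algebraic closure of `M = FunField ..`, which is finite over `RatFunc Ω` (`finiteDimensional_funField`), and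
the kernel of `res` is `S ≃ₐ[M] S` (as in `h90_ker`). `tsen` (with `C = Ω`) gives `m` and a continuous cochain `a` of
`S ≃ₐ[M] S`; if `T` is a finite set such that `a n` depends only on the restriction of `n` to `T`, extend `a` to
`S ≃ₐ[K] S` by `a g = a n` if `g` agrees on `T` with some `n` of the kernel, and `1` otherwise. -/
theorem exists_ker (hℓ : ℓ.Prime) (hΦ : IsModel F t x y Φ) (b : (S ≃ₐ[K] S) → (S ≃ₐ[K] S) → Sˣ)
    (hb : IsCocycle b) : ∃ (m : ℕ) (a : (S ≃ₐ[K] S) → Sˣ), m.Coprime ℓ ∧ IsCts a ∧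
      ∀ g h : S ≃ₐ[K] S, res hΦ g = 1 → res hΦ h = 1 → (b g h : S) ^ m * a (g * h) = g (a h) * a g := by
  obtain ⟨iA, iC, hA, j, hj, hj1, hj2⟩ := exta_ker hΦ
  have hjm : ∀ g h, j (g * h) = j g * j h := fun g h => AlgEquiv.ext fun z => by
    rw [hj]
    show g (h z) = j g (j h z)
    rw [hj, hj]
  have hcl : IsAlgClosed Ω := hG.alg
  have hne : (ℓ : FunField ℓ (f.map (algebraMap L Ω))) ≠ 0 := by
    intro h0
    apply hG.ne_zero
    have h1 : cO ℓ f Ω (ℓ : Ω) = 0 := by rw [map_natCast, h0]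
    exact (cO ℓ f Ω).injective (h1.trans (map_zero _).symm)
  obtain ⟨hb1, T, hT⟩ := hb
  have hb' : IsCocycle (K := FunField ℓ (f.map (algebraMap L Ω))) fun g h => b (j g) (j h) := by
    refine ⟨?_, T, ?_⟩
    · intro g h k
      have h2 := hb1 (j g) (j h) (j k)
      rw [← hjm, ← hjm, hj] at h2
      exact h2
    · intro g g' h h' h1 h2
      exact hT _ _ _ _ (fun z hz => by rw [hj, hj]; exact h1 z hz)
        (fun z hz => by rw [hj, hj]; exact h2 z hz)
  obtain ⟨m, hm, a, ha, hab⟩ := tsen (C := Ω) (E := FunField ℓ (f.map (algebraMap L Ω))) (S := S)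
    hℓ hne _ hb'
  obtain ⟨a', ha', haj⟩ := exta_extend j hj a ha
  refine ⟨m, a', hm, ha', fun g h hg hh => ?_⟩
  obtain ⟨g', rfl⟩ := hj2 g hg
  obtain ⟨h', rfl⟩ := hj2 h hh
  have h3 := hab g' h'
  rw [← hjm, haj, haj, haj, hj]
  rw [Units.val_pow_eq_pow_val] at h3
  exact h3

/-- Hilbert's theorem 90 for a subgroup of the automorphism group of a finite extension. -/
theorem extb_h90 {K E : Type} [Field K] [Field E] [Algebra K E] [FiniteDimensional K E]
    (N : Subgroup (E ≃ₐ[K] E)) (a : (E ≃ₐ[K] E) → Eˣ)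
    (ha : ∀ g ∈ N, ∀ h ∈ N, (a (g * h) : E) = g • (a h : E) * a g) :
    ∃ e : Eˣ, ∀ g ∈ N, (a g : E) * e = g • (e : E) := by
  have hli : LinearIndependent E (fun φ : E ≃ₐ[K] E => (φ : E → E)) :=
    LinearIndependent.comp (ι' := E ≃ₐ[K] E) (linearIndependent_monoidHom E E) (fun f => f)
      (fun x y h => by ext; exact DFunLike.ext_iff.1 h _)
  have hex : ∃ c : E, ∑ φ ∈ (Finset.univ : Finset (E ≃ₐ[K] E)).filter (fun φ => φ ∈ N),
      (a φ : E) * φ c ≠ 0 := by
    by_contra hcon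
    push Not at hcon
    have h1 := linearIndependent_iff'.1 hli
      ((Finset.univ : Finset (E ≃ₐ[K] E)).filter (fun φ => φ ∈ N)) (fun φ => (a φ : E)) (by
        funext c
        rw [Finset.sum_apply]
        exact hcon c) 1 (Finset.mem_filter.2 ⟨Finset.mem_univ _, N.one_mem⟩)
    exact (a 1).ne_zero h1
  obtain ⟨c, hc⟩ := hex
  refine ⟨(Units.mk0 _ hc)⁻¹, ?_⟩
  intro g hg
  have h1 : (a g : E) * g (∑ φ ∈ (Finset.univ : Finset (E ≃ₐ[K] E)).filter (fun φ => φ ∈ N),
      (a φ : E) * φ c) = ∑ φ ∈ (Finset.univ : Finset (E ≃ₐ[K] E)).filter (fun φ => φ ∈ N),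
      (a φ : E) * φ c := by
    rw [map_sum, Finset.mul_sum]
    refine Finset.sum_bij' (fun φ _ => g * φ) (fun φ _ => g⁻¹ * φ) ?_ ?_ ?_ ?_ ?_
    · intro φ hφ
      exact Finset.mem_filter.2 ⟨Finset.mem_univ _, N.mul_mem hg (Finset.mem_filter.1 hφ).2⟩
    · intro φ hφ
      exact Finset.mem_filter.2 ⟨Finset.mem_univ _,
        N.mul_mem (N.inv_mem hg) (Finset.mem_filter.1 hφ).2⟩
    · intro φ _
      exact inv_mul_cancel_left g φ
    · intro φ _
      exact mul_inv_cancel_left g φ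
    · intro φ hφ
      rw [ha g hg φ (Finset.mem_filter.1 hφ).2, map_mul, AlgEquiv.smul_def, AlgEquiv.mul_apply]
      ring
  rw [AlgEquiv.smul_def, Units.val_inv_eq_inv_val, Units.val_mk0, map_inv₀]
  apply eq_inv_of_mul_eq_one_left
  rw [mul_right_comm, h1, mul_inv_cancel₀ hc]

/-- Agreement on a finite set of generators. -/
theorem extb_fin (E : IntermediateField K S) [FiniteDimensional K E] [Normal K E] :
    ∃ T : Finset S, ∀ g g' : S ≃ₐ[K] S, (∀ x ∈ T, g x = g' x) →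
      AlgEquiv.restrictNormalHom E g = AlgEquiv.restrictNormalHom E g' := by
  obtain ⟨t, ht⟩ := Module.Finite.fg_top (R := K) (M := E)
  refine ⟨t.image (fun x : E => (x : S)), ?_⟩
  intro g g' h
  have h1 : ∀ x : E, x ∈ t → AlgEquiv.restrictNormalHom E g x = AlgEquiv.restrictNormalHom E g' x := by
    intro x hx
    apply Subtype.ext
    have h2 : ((AlgEquiv.restrictNormalHom E g x : E) : S) = g x :=
      AlgEquiv.restrictNormal_commutes g E x
    have h3 : ((AlgEquiv.restrictNormalHom E g' x : E) : S) = g' x :=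
      AlgEquiv.restrictNormal_commutes g' E x
    rw [h2, h3]
    exact h x (Finset.mem_image.2 ⟨x, hx, rfl⟩)
  have h4 : (AlgEquiv.restrictNormalHom E g : E ≃ₐ[K] E).toLinearMap =
      (AlgEquiv.restrictNormalHom E g' : E ≃ₐ[K] E).toLinearMap :=
    LinearMap.ext_on ht (fun x hx => h1 x hx)
  ext x
  exact congrArg (fun φ : E →ₗ[K] E => ((φ x : E) : S)) h4

theorem exists_level (hΦ : IsModel F t x y Φ) (b : (S ≃ₐ[K] S) → (S ≃ₐ[K] S) → Sˣ)
    (hb : IsCocycle b) (a : (S ≃ₐ[K] S) → Sˣ) (ha : IsCts a)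
    (hab : ∀ g h : S ≃ₐ[K] S, res hΦ g = 1 → res hΦ h = 1 → (b g h : S) * a (g * h) = g (a h) * a g) :
    ∃ (c : (S ≃ₐ[K] S) → (S ≃ₐ[K] S) → Sˣ) (α : (S ≃ₐ[K] S) → Sˣ), IsCocycle c ∧ IsCts α ∧
      (∀ g h, (b g h : S) * α (g * h) = c g h * (g (α h) * α g)) ∧
      ∀ g h n : S ≃ₐ[K] S, res hΦ n = 1 →
        c (g * n) h = c g h ∧ c g (h * n) = c g h ∧ n (c g h) = c g h := by
  obtain ⟨Tb, hTb⟩ := hb.continuous
  obtain ⟨Ta, hTa⟩ := ha
  have hfa : (Set.range a).Finite := IsCts.finite_range ⟨Ta, hTa⟩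
  have hfb : (Set.range fun p : (S ≃ₐ[K] S) × (S ≃ₐ[K] S) => b p.1 p.2).Finite :=
    finite_range₂ ⟨Tb, hTb⟩
  obtain ⟨E, hEf, hEn, hE⟩ := exists_normal (K := K)
    (Ta ∪ Tb ∪ hfa.toFinset.image (fun u : Sˣ => (u : S)) ∪
      hfb.toFinset.image (fun u : Sˣ => (u : S)))
  haveI := hEf
  haveI := hEn
  haveI : Normal K S := IsAlgClosure.normal K S
  have hEa : ∀ g, (a g : S) ∈ E := by
    intro g
    apply hE
    refine Finset.mem_union_left _ (Finset.mem_union_right _ ?_)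
    exact Finset.mem_image.2 ⟨a g, hfa.mem_toFinset.2 ⟨g, rfl⟩, rfl⟩
  have hEb : ∀ g h, (b g h : S) ∈ E := by
    intro g h
    apply hE
    refine Finset.mem_union_right _ ?_
    exact Finset.mem_image.2 ⟨b g h, hfb.mem_toFinset.2 ⟨(g, h), rfl⟩, rfl⟩
  set r : (S ≃ₐ[K] S) →* (E ≃ₐ[K] E) := AlgEquiv.restrictNormalHom E with hr
  have hrs : Function.Surjective r := AlgEquiv.restrictNormalHom_surjective S
  have hrc : ∀ (g : S ≃ₐ[K] S) (z : E), ((r g z : E) : S) = g z := fun g z =>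
    AlgEquiv.restrictNormal_commutes g E z
  have hag : ∀ g g' : S ≃ₐ[K] S, r g = r g' → ∀ z ∈ E, g z = g' z := by
    intro g g' h z hz
    rw [← hrc g ⟨z, hz⟩, ← hrc g' ⟨z, hz⟩, h]
  have haE : ∀ g g' : S ≃ₐ[K] S, r g = r g' → a g = a g' := by
    intro g g' h
    apply hTa
    intro z hz
    exact hag g g' h z (hE z (Finset.mem_union_left _ (Finset.mem_union_left _
      (Finset.mem_union_left _ hz))))
  have hbE : ∀ g g' h h' : S ≃ₐ[K] S, r g = r g' → r h = r h' → b g h = b g' h' := by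
    intro g g' h h' h1 h2
    apply hTb
    · intro z hz
      exact hag g g' h1 z (hE z (Finset.mem_union_left _ (Finset.mem_union_left _
        (Finset.mem_union_right _ hz))))
    · intro z hz
      exact hag h h' h2 z (hE z (Finset.mem_union_left _ (Finset.mem_union_left _
        (Finset.mem_union_right _ hz))))
  obtain ⟨s, hs⟩ := hrs.hasRightInverse
  -- the finite level
  let bE : (E ≃ₐ[K] E) → (E ≃ₐ[K] E) → Eˣ := fun g h =>
    Units.mk0 (⟨b (s g) (s h), hEb _ _⟩ : E) (by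
      intro h0
      exact (b (s g) (s h)).ne_zero (congrArg Subtype.val h0))
  let aE : (E ≃ₐ[K] E) → Eˣ := fun g =>
    Units.mk0 (⟨a (s g), hEa _⟩ : E) (by
      intro h0
      exact (a (s g)).ne_zero (congrArg Subtype.val h0))
  have hbE' : ∀ g h : S ≃ₐ[K] S, ((bE (r g) (r h) : E) : S) = b g h := by
    intro g h
    show (b (s (r g)) (s (r h)) : S) = b g h
    rw [hbE (s (r g)) g (s (r h)) h (hs _) (hs _)]
  have haE' : ∀ g : S ≃ₐ[K] S, ((aE (r g) : E) : S) = a g := by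
    intro g
    show (a (s (r g)) : S) = a g
    rw [haE (s (r g)) g (hs _)]
  let N : Subgroup (E ≃ₐ[K] E) := (MonoidHom.ker (res hΦ)).map r
  haveI hN : N.Normal := Subgroup.Normal.map (MonoidHom.normal_ker _) r hrs
  obtain ⟨cE, αE, h1, h2, h3⟩ := infl_discrete N (fun a' ha' => extb_h90 N a' ha') bE
    (by
      intro g h j
      obtain ⟨g, rfl⟩ := hrs g
      obtain ⟨h, rfl⟩ := hrs h
      obtain ⟨j, rfl⟩ := hrs j
      apply Subtype.ext
      have h4 := hb.cocycle g h j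
      rw [← map_mul, ← map_mul]
      show ((bE (r g) (r h) : E) : S) * ((bE (r (g * h)) (r j) : E) : S) =
        ((r g (bE (r h) (r j) : E) : E) : S) * ((bE (r g) (r (h * j)) : E) : S)
      rw [hrc, hbE', hbE', hbE', hbE']
      exact h4) aE
    (by
      rintro g ⟨g, hg, rfl⟩ h ⟨h, hh, rfl⟩
      apply Subtype.ext
      have h4 := hab g h (MonoidHom.mem_ker.1 hg) (MonoidHom.mem_ker.1 hh)
      rw [← map_mul]
      show ((bE (r g) (r h) : E) : S) * ((aE (r (g * h)) : E) : S) =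
        ((r g (aE (r h) : E) : E) : S) * ((aE (r g) : E) : S)
      rw [hrc, hbE', haE', haE', haE']
      exact h4)
  obtain ⟨T, hT⟩ := extb_fin E
  refine ⟨fun g h => Units.map (algebraMap E S : E →* S) (cE (r g) (r h)),
    fun g => Units.map (algebraMap E S : E →* S) (αE (r g)), ⟨?_, T, ?_⟩, ⟨T, ?_⟩, ?_, ?_⟩
  · intro g h j
    have h4 := congrArg (fun z : E => (z : S)) (h2 (r g) (r h) (r j))
    rw [← map_mul, ← map_mul] at h4
    show ((cE (r g) (r h) : E) : S) * ((cE (r (g * h)) (r j) : E) : S) =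
      g ((cE (r h) (r j) : E) : S) * ((cE (r g) (r (h * j)) : E) : S)
    rw [← hrc]
    exact h4
  · intro g g' h h' h4 h5
    show Units.map (algebraMap E S : E →* S) (cE (r g) (r h)) =
      Units.map (algebraMap E S : E →* S) (cE (r g') (r h'))
    rw [hT g g' h4, hT h h' h5]
  · intro g g' h4
    show Units.map (algebraMap E S : E →* S) (αE (r g)) =
      Units.map (algebraMap E S : E →* S) (αE (r g'))
    rw [hT g g' h4]
  · intro g h
    have h4 := congrArg (fun z : E => (z : S)) (h1 (r g) (r h))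
    rw [← map_mul] at h4
    show (b g h : S) * ((αE (r (g * h)) : E) : S) = ((cE (r g) (r h) : E) : S) *
      (g ((αE (r h) : E) : S) * ((αE (r g) : E) : S))
    rw [← hrc, ← hbE' g h]
    exact h4
  · intro g h n hn
    have hnN : r n ∈ N := ⟨n, MonoidHom.mem_ker.2 hn, rfl⟩
    obtain ⟨h4, h5, h6⟩ := h3 (r g) (r h) (r n) hnN
    refine ⟨?_, ?_, ?_⟩
    · show Units.map (algebraMap E S : E →* S) (cE (r (g * n)) (r h)) = _
      rw [map_mul, h4]
    · show Units.map (algebraMap E S : E →* S) (cE (r g) (r (h * n))) = _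
      rw [map_mul, h5]
    · show n ((cE (r g) (r h) : E) : S) = ((cE (r g) (r h) : E) : S)
      rw [← hrc]
      exact congrArg (fun z : E => (z : S)) h6

omit [IsAlgClosed F] [IsFractionRing F[X] L] [IsAlgClosure L Ω] in
include hG in
/-- the characteristic exponent is prime to `ℓ` -/
lemma extc_coprime (hℓ : ℓ.Prime) : (ringExpChar F).Coprime ℓ := by
  refine G13_coprime hℓ fun h => ?_
  have h1 : (ℓ : Ω) ≠ 0 := IsGood.ne_zero (f.map (algebraMap L Ω))
  apply h1
  have h2 := congrArg (fun z : F => algebraMap L Ω (algebraMap F[X] L (C z))) h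
  simpa using h2

/-- finitely many elements fixed by the kernel: a common exponent -/
lemma extc_pow (hΦ : IsModel F t x y Φ) (c : (S ≃ₐ[K] S) → (S ≃ₐ[K] S) → Sˣ) (hc : IsCocycle c)
    (hn : ∀ g h n : S ≃ₐ[K] S, res hΦ n = 1 → n (c g h) = c g h) :
    ∃ s : ℕ, ∀ g h, ∃ u : FunField ℓ (f.map (algebraMap L Ω)),
      (c g h : S) ^ ringExpChar F ^ s = Φ u := by
  have hfin := finite_range₂ hc.continuous
  have h1 : ∀ v ∈ Set.range (fun p : (S ≃ₐ[K] S) × (S ≃ₐ[K] S) => c p.1 p.2),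
      ∃ s : ℕ, ∃ u : FunField ℓ (f.map (algebraMap L Ω)), (v : S) ^ ringExpChar F ^ s = Φ u := by
    rintro v ⟨⟨g, h⟩, rfl⟩
    exact exists_pow_ker hΦ _ fun n hn1 => hn g h n hn1
  choose! s hs using h1
  refine ⟨hfin.toFinset.sup s, fun g h => ?_⟩
  have hv : c g h ∈ Set.range (fun p : (S ≃ₐ[K] S) × (S ≃ₐ[K] S) => c p.1 p.2) := ⟨(g, h), rfl⟩
  obtain ⟨u, hu⟩ := hs _ hv
  have hle : s (c g h) ≤ hfin.toFinset.sup s := Finset.le_sup (hfin.mem_toFinset.mpr hv)
  refine ⟨u ^ ringExpChar F ^ (hfin.toFinset.sup s - s (c g h)), ?_⟩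
  rw [map_pow, ← hu, ← pow_mul, ← pow_add, Nat.add_sub_cancel' hle]

/-- From invariant cocycles to `Ω`. PROOF. The values of `c` are fixed by the kernel of `res`, and finite in number
(`finite_range₂`): by `exists_pow_ker` there are `s` and, for all `g`, `h`, a unit `u` with `c g h ^ (p ^ s) = Φ u`,
`p = ringExpChar F`, which is prime to `ℓ` (`G13_coprime` in `Wl/Gen.lean`). As `c g h` depends only on `res g`, `res h`
(`res_surjective`), this defines `b'`; it is a cocycle by `res_symU` and injectivity of `Φ`, continuous by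
`icts₂_of_res`. -/
theorem exists_descend (hℓ : ℓ.Prime) (hΦ : IsModel F t x y Φ) (c : (S ≃ₐ[K] S) → (S ≃ₐ[K] S) → Sˣ)
    (hc : IsCocycle c) (hn : ∀ g h n : S ≃ₐ[K] S, res hΦ n = 1 →
        c (g * n) h = c g h ∧ c g (h * n) = c g h ∧ n (c g h) = c g h) :
    ∃ (m : ℕ) (b' : (Ω ≃ₐ[L] Ω) → (Ω ≃ₐ[L] Ω) → (FunField ℓ (f.map (algebraMap L Ω)))ˣ),
      m.Coprime ℓ ∧ ICoc b' ∧ ∀ g h, c g h ^ m = infl hΦ b' g h := by
  obtain ⟨s, hs⟩ := extc_pow hΦ c hc fun g h n h1 => (hn g h n h1).2.2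
  have hinj : Function.Injective (Units.map (Φ : FunField ℓ (f.map (algebraMap L Ω)) →* S)) :=
    Units.map_injective Φ.injective
  have hu : ∀ g h, ∃ u : (FunField ℓ (f.map (algebraMap L Ω)))ˣ,
      c g h ^ ringExpChar F ^ s = Units.map (Φ : FunField ℓ (f.map (algebraMap L Ω)) →* S) u := by
    intro g h
    obtain ⟨u, hu⟩ := hs g h
    have hu0 : u ≠ 0 := by
      rintro rfl
      rw [map_zero] at hu
      exact pow_ne_zero _ (c g h).ne_zero hu
    refine ⟨Units.mk0 u hu0, Units.ext ?_⟩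
    rw [Units.val_pow_eq_pow_val]
    exact hu
  choose v hv using hu
  let σ : (Ω ≃ₐ[L] Ω) → (S ≃ₐ[K] S) := Function.surjInv (res_surjective hΦ)
  have hσ : ∀ γ, res hΦ (σ γ) = γ := Function.surjInv_eq (res_surjective hΦ)
  have hcr : ∀ g h, c (σ (res hΦ g)) (σ (res hΦ h)) = c g h := by
    intro g h
    have h1 : ∀ g : S ≃ₐ[K] S, ∃ n, res hΦ n = 1 ∧ σ (res hΦ g) = g * n := by
      intro g
      refine ⟨g⁻¹ * σ (res hΦ g), ?_, by rw [mul_inv_cancel_left]⟩
      rw [map_mul, map_inv, hσ, inv_mul_cancel]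
    obtain ⟨n, hn1, hn2⟩ := h1 g
    obtain ⟨n', hn1', hn2'⟩ := h1 h
    rw [hn2, hn2', (hn _ _ n hn1).1, (hn _ _ n' hn1').2.1]
  let b' : (Ω ≃ₐ[L] Ω) → (Ω ≃ₐ[L] Ω) → (FunField ℓ (f.map (algebraMap L Ω)))ˣ :=
    fun γ δ => v (σ γ) (σ δ)
  have hb' : ∀ g h, c g h ^ ringExpChar F ^ s = infl hΦ b' g h := by
    intro g h
    rw [← hcr g h]
    exact hv _ _
  refine ⟨ringExpChar F ^ s, b', Nat.Coprime.pow_left _ (extc_coprime (f := f) (Ω := Ω) hℓ), ⟨?_, ?_⟩, hb'⟩
  · intro γ δ ε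
    apply hinj
    obtain ⟨g, rfl⟩ := res_surjective hΦ γ
    obtain ⟨h, rfl⟩ := res_surjective hΦ δ
    obtain ⟨j, rfl⟩ := res_surjective hΦ ε
    have e1 := hb' g h
    have e2 := hb' (g * h) j
    have e3 := hb' g (h * j)
    have e4 := hb' h j
    unfold infl at e1 e2 e3 e4
    rw [map_mul (res hΦ)] at e2 e3
    rw [map_mul, map_mul, ← e1, ← e2, ← e3]
    apply Units.ext
    have e5 : ((Units.map (Φ : FunField ℓ (f.map (algebraMap L Ω)) →* S)
        (symU (gs f (res hΦ g)) (b' (res hΦ h) (res hΦ j))) : Sˣ) : S) =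
        g (c h j) ^ ringExpChar F ^ s := by
      have e6 := res_symU hΦ g (b' (res hΦ h) (res hΦ j))
      have e7 := congrArg (Units.val) e4
      rw [Units.val_pow_eq_pow_val] at e7
      rw [← map_pow, e7]
      exact e6.symm
    rw [Units.val_mul, Units.val_mul, e5]
    simp only [Units.val_pow_eq_pow_val]
    rw [← mul_pow, ← mul_pow, hc.cocycle g h j]
  · refine icts₂_of_res hΦ b' ?_
    obtain ⟨T, hT⟩ := hc.continuous
    refine ⟨T, fun g g' h h' h1 h2 => hinj ?_⟩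
    have e1 := hb' g h
    have e2 := hb' g' h'
    unfold infl at e1 e2
    rw [← e1, ← e2, hT g g' h h' h1 h2]

/-- Every class is, up to a multiple prime to `ℓ`, an inflated class. PROOF: `exists_ker`, `exists_level` for `b ^ m`,
`exists_descend`. -/
theorem exists_infl (hℓ : ℓ.Prime) (hΦ : IsModel F t x y Φ) (b : (S ≃ₐ[K] S) → (S ≃ₐ[K] S) → Sˣ)
    (hb : IsCocycle b) :
    ∃ (m : ℕ) (b' : (Ω ≃ₐ[L] Ω) → (Ω ≃ₐ[L] Ω) → (FunField ℓ (f.map (algebraMap L Ω)))ˣ),
      m.Coprime ℓ ∧ ICoc b' ∧ IsCoboundary fun g h => b g h ^ m / infl hΦ b' g h := by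
  obtain ⟨m, a, hm, ha, hab⟩ := exists_ker hℓ hΦ b hb
  have hb1 : IsCocycle fun g h => b g h ^ m := by
    refine ⟨fun g h j => ?_, ?_⟩
    · simp only [Units.val_pow_eq_pow_val, map_pow]
      rw [← mul_pow, ← mul_pow, hb.cocycle g h j]
    · obtain ⟨T, hT⟩ := hb.continuous
      exact ⟨T, fun g g' h h' h1 h2 => by rw [hT g g' h h' h1 h2]⟩
  obtain ⟨c, α, hc, hα, hcα, hn⟩ := exists_level hΦ (fun g h => b g h ^ m) hb1 a ha (by
    intro g h h1 h2
    rw [Units.val_pow_eq_pow_val]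
    exact hab g h h1 h2)
  obtain ⟨m', b', hm', hb', hcb⟩ := exists_descend hℓ hΦ c hc hn
  refine ⟨m * m', b', Nat.Coprime.mul_left hm hm', hb', fun g => α g ^ m', hα.comp fun z => z ^ m', ?_⟩
  intro g h
  have e1 : b g h ^ (m * m') / infl hΦ b' g h = (b g h ^ m / c g h) ^ m' := by
    rw [← hcb g h, div_pow, pow_mul]
  have e2 : ((b g h ^ m / c g h : Sˣ) : S) * α (g * h) = g (α h) * α g := by
    have h3 := hcα g h
    rw [Units.val_div_eq_div_val, div_mul_eq_mul_div, div_eq_iff (c g h).ne_zero, h3]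
    ring
  show ((b g h ^ (m * m') / infl hΦ b' g h : Sˣ) : S) * ((α (g * h) ^ m' : Sˣ) : S) =
    g ((α h ^ m' : Sˣ) : S) * ((α g ^ m' : Sˣ) : S)
  rw [e1]
  simp only [Units.val_pow_eq_pow_val, map_pow]
  rw [← mul_pow, ← mul_pow, e2]

/-- The exponential characteristic of the constants is prime to `ℓ`. -/
theorem extd_coprime {ℓ : ℕ} (hℓ : ℓ.Prime) (F L Ω : Type) [Field F] [Field L] [Field Ω]
    [Algebra F[X] L] [Algebra L Ω] (h0 : (ℓ : Ω) ≠ 0) : (ringExpChar F).Coprime ℓ := by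
  apply G13_coprime hℓ
  intro h
  apply h0
  have h1 : algebraMap L Ω (algebraMap F[X] L (C ((ℓ : ℕ) : F))) = (ℓ : Ω) := by
    rw [map_natCast, map_natCast, map_natCast]
  rw [← h1, h, map_zero, map_zero, map_zero]

/-- The cocycle identity for the inflation. -/
theorem extd_cocycle (hΦ : IsModel F t x y Φ)
    {b : (Ω ≃ₐ[L] Ω) → (Ω ≃ₐ[L] Ω) → (FunField ℓ (f.map (algebraMap L Ω)))ˣ} (hb : ICoc b)
    (g h j : S ≃ₐ[K] S) :
    (infl hΦ b g h : S) * infl hΦ b (g * h) j = g (infl hΦ b h j) * infl hΦ b g (h * j) := by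
  have h1 := congrArg (fun u : (FunField ℓ (f.map (algebraMap L Ω)))ˣ =>
    Φ (u : FunField ℓ (f.map (algebraMap L Ω)))) (hb.cocycle (res hΦ g) (res hΦ h) (res hΦ j))
  simp only [Units.val_mul, map_mul Φ] at h1
  rw [← res_symU hΦ, ← map_mul (res hΦ), ← map_mul (res hΦ)] at h1
  exact h1

/-- Powers and common exponents: a finite set of elements fixed by the kernel of `res` has a common power in the
image of `Φ`. -/
theorem extd_pow (hΦ : IsModel F t x y Φ) (A : Set S) (hA : A.Finite)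
    (hfix : ∀ z ∈ A, ∀ g : S ≃ₐ[K] S, res hΦ g = 1 → g z = z) :
    ∃ s : ℕ, ∀ z ∈ A, ∃ u : FunField ℓ (f.map (algebraMap L Ω)), z ^ ringExpChar F ^ s = Φ u := by
  have h1 : ∀ z : S, ∃ s : ℕ, z ∈ A → ∃ u : FunField ℓ (f.map (algebraMap L Ω)),
      z ^ ringExpChar F ^ s = Φ u := by
    intro z
    by_cases hz : z ∈ A
    · obtain ⟨s, u, h⟩ := exists_pow_ker hΦ z (hfix z hz)
      exact ⟨s, fun _ => ⟨u, h⟩⟩
    · exact ⟨0, fun h => absurd h hz⟩
  choose s hs using h1
  refine ⟨hA.toFinset.sup s, fun z hz => ?_⟩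
  obtain ⟨u, hu⟩ := hs z hz
  have hle : s z ≤ hA.toFinset.sup s := Finset.le_sup (hA.mem_toFinset.2 hz)
  obtain ⟨d, hd⟩ := Nat.exists_eq_add_of_le hle
  refine ⟨u ^ ringExpChar F ^ d, ?_⟩
  rw [hd, pow_add, pow_mul, hu, map_pow]

theorem icob_of_infl (hℓ : ℓ.Prime) (hΦ : IsModel F t x y Φ)
    (b : (Ω ≃ₐ[L] Ω) → (Ω ≃ₐ[L] Ω) → (FunField ℓ (f.map (algebraMap L Ω)))ˣ) (hb : ICoc b)
    (h : IsCoboundary (infl hΦ b)) : ∃ m : ℕ, m.Coprime ℓ ∧ ICob fun g h => b g h ^ m := by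
  obtain ⟨a, hac, ha⟩ := h
  set B := infl hΦ b with hB
  have hBc : ∀ g h j : S ≃ₐ[K] S, (B g h : S) * B (g * h) j = g (B h j) * B g (h * j) :=
    extd_cocycle hΦ hb
  have hBr : ∀ g g' h h' : S ≃ₐ[K] S, res hΦ g = res hΦ g' → res hΦ h = res hΦ h' →
      B g h = B g' h' := by
    intro g g' h h' h1 h2
    show infl hΦ b g h = infl hΦ b g' h'
    unfold infl
    rw [h1, h2]
  have hB0 : ∀ g h : S ≃ₐ[K] S, (B g h : S) ≠ 0 := fun g h => (B g h).ne_zero
  -- `B 1 g = B 1 1`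
  have hB1 : ∀ g : S ≃ₐ[K] S, (B 1 g : S) = B 1 1 := by
    intro g
    have h1 := hBc 1 1 g
    rw [one_mul, one_mul, AlgEquiv.one_apply] at h1
    exact (mul_right_cancel₀ (hB0 1 g) h1).symm
  -- `B g 1 = g (B 1 1)`
  have hB2 : ∀ g : S ≃ₐ[K] S, (B g 1 : S) = g (B 1 1) := by
    intro g
    have h1 := hBc g 1 1
    rw [mul_one, mul_one] at h1
    exact mul_right_cancel₀ (hB0 g 1) h1
  -- the kernel fixes the values of `B`
  have hker1 : ∀ n : S ≃ₐ[K] S, res hΦ n = 1 → n (B 1 1) = B 1 1 := by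
    intro n hn
    exact (res_eq_one_iff hΦ n).1 hn _
  have hn1 : ∀ n : S ≃ₐ[K] S, res hΦ n = 1 → res hΦ n = res hΦ 1 := by
    intro n hn
    rw [hn, map_one]
  obtain ⟨e, he⟩ := h90_ker hΦ (fun g => a g / B 1 1) (hac.comp fun u => u / B 1 1) (by
    intro g h hg hh
    have h1 := ha g h
    have h2 : (B g h : S) = B 1 1 := by
      rw [hBr g 1 h 1 (hn1 g hg) (hn1 h hh)]
    rw [h2] at h1
    have h3 : (B 1 1 : S) ≠ 0 := hB0 1 1
    rw [Units.val_div_eq_div_val, Units.val_div_eq_div_val, Units.val_div_eq_div_val, map_div₀,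
      hker1 g hg]
    field_simp
    rw [← h1]
    ring)
  -- the modified cochain
  let A : (S ≃ₐ[K] S) → Sˣ := fun g => a g * e / Units.map (g : S →* S) e
  have hAv : ∀ g, (A g : S) = a g * e / g e := by
    intro g
    show ((a g * e / Units.map (g : S →* S) e : Sˣ) : S) = _
    rw [Units.val_div_eq_div_val, Units.val_mul]
    rfl
  have he0 : (e : S) ≠ 0 := e.ne_zero
  have hge0 : ∀ g : S ≃ₐ[K] S, g e ≠ 0 := fun g => (map_ne_zero g).2 he0
  have hA0 : ∀ g, (A g : S) ≠ 0 := fun g => (A g).ne_zero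
  have hAn : ∀ n : S ≃ₐ[K] S, res hΦ n = 1 → (A n : S) = B 1 1 := by
    intro n hn
    have h1 := he n hn
    rw [Units.val_div_eq_div_val] at h1
    rw [hAv, ← h1]
    have h3 : (B 1 1 : S) ≠ 0 := hB0 1 1
    have h4 : (a n : S) ≠ 0 := (a n).ne_zero
    field_simp
  have hAc : ∀ g h : S ≃ₐ[K] S, (B g h : S) * A (g * h) = g (A h) * A g := by
    intro g h
    rw [hAv, hAv, hAv, map_div₀, map_mul]
    have h1 := ha g h
    have h2 : (g * h) (e : S) = g (h e) := rfl
    rw [h2]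
    have h3 := hge0 g
    have h4 : g (h e) ≠ 0 := (map_ne_zero g).2 (hge0 h)
    rw [← mul_div_assoc, ← mul_assoc, h1]
    field_simp
  have hActs : IsCts A := by
    obtain ⟨T, hT⟩ := hac
    refine ⟨insert (e : S) T, fun g g' hgg => ?_⟩
    have h1 : a g = a g' := hT g g' fun z hz => hgg z (Finset.mem_insert_of_mem hz)
    have h2 : g (e : S) = g' e := hgg e (Finset.mem_insert_self _ _)
    apply Units.ext
    rw [hAv, hAv, h1, h2]
  -- invariance
  have hAr : ∀ g n : S ≃ₐ[K] S, res hΦ n = 1 → (A (g * n) : S) = A g := by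
    intro g n hn
    have h1 := hAc g n
    rw [hAn n hn, hBr g g n 1 rfl (hn1 n hn), hB2] at h1
    exact mul_left_cancel₀ ((map_ne_zero g).2 (hB0 1 1)) h1
  have hAl : ∀ g n : S ≃ₐ[K] S, res hΦ n = 1 → (A (n * g) : S) = n (A g) := by
    intro g n hn
    have h1 := hAc n g
    rw [hAn n hn, hBr n 1 g g (hn1 n hn) rfl, hB1, mul_comm] at h1
    exact mul_right_cancel₀ (hB0 1 1) h1
  have hAfix : ∀ g n : S ≃ₐ[K] S, res hΦ n = 1 → n (A g) = A g := by
    intro g n hn
    rw [← hAl g n hn]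
    have h1 : n * g = g * (g⁻¹ * n * g) := by group
    rw [h1]
    apply hAr
    rw [map_mul, map_mul, hn, mul_one, map_inv, inv_mul_cancel]
  have hAres : ∀ g g' : S ≃ₐ[K] S, res hΦ g = res hΦ g' → (A g : S) = A g' := by
    intro g g' hgg
    have h1 : g' = g * (g⁻¹ * g') := by group
    rw [h1]
    refine (hAr g (g⁻¹ * g') ?_).symm
    rw [map_mul, map_inv, hgg, inv_mul_cancel]
  -- the common power
  have hfin : (Set.range fun g : S ≃ₐ[K] S => (A g : S)).Finite :=
    IsCts.finite_range (hActs.comp fun u : Sˣ => (u : S))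
  obtain ⟨s, hs⟩ := extd_pow hΦ _ hfin (by
    rintro z ⟨g, rfl⟩ n hn
    exact hAfix g n hn)
  have hW : ∀ v : S, ∃ u : (FunField ℓ (f.map (algebraMap L Ω)))ˣ,
      (v ≠ 0 ∧ v ∈ Set.range fun g : S ≃ₐ[K] S => (A g : S)) →
        Φ (u : FunField ℓ (f.map (algebraMap L Ω))) = v ^ ringExpChar F ^ s := by
    intro v
    by_cases hv : v ≠ 0 ∧ v ∈ Set.range fun g : S ≃ₐ[K] S => (A g : S)
    · obtain ⟨u, hu⟩ := hs v hv.2
      have hu0 : u ≠ 0 := by
        rintro rfl
        rw [map_zero] at hu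
        exact hv.1 (eq_zero_of_pow_eq_zero hu)
      exact ⟨Units.mk0 u hu0, fun _ => hu.symm⟩
    · exact ⟨1, fun h => absurd h hv⟩
  choose W hW using hW
  obtain ⟨sec, hsec⟩ := (res_surjective hΦ).hasRightInverse
  have hα : ∀ g : S ≃ₐ[K] S, W (A (sec (res hΦ g))) = W (A g) := by
    intro g
    rw [hAres (sec (res hΦ g)) g (hsec (res hΦ g))]
  have hWA : ∀ g : S ≃ₐ[K] S, Φ (W (A g) : FunField ℓ (f.map (algebraMap L Ω))) =
      (A g : S) ^ ringExpChar F ^ s := fun g => hW (A g) ⟨hA0 g, g, rfl⟩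
  refine ⟨ringExpChar F ^ s, Nat.Coprime.pow_left s (extd_coprime hℓ F L Ω hG.ne_zero),
    fun γ => W (A (sec γ)), ?_, ?_⟩
  · apply isCts_of_res hΦ
    obtain ⟨T, hT⟩ := hActs
    refine ⟨T, fun g g' hgg => ?_⟩
    show W (A (sec (res hΦ g))) = W (A (sec (res hΦ g')))
    rw [hα, hα, hT g g' hgg]
  · intro γ η
    obtain ⟨g, rfl⟩ := res_surjective hΦ γ
    obtain ⟨h, rfl⟩ := res_surjective hΦ η
    show b (res hΦ g) (res hΦ h) ^ ringExpChar F ^ s * W (A (sec (res hΦ g * res hΦ h))) =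
      symU (gs f (res hΦ g)) (W (A (sec (res hΦ h)))) * W (A (sec (res hΦ g)))
    rw [← map_mul, hα, hα, hα]
    apply Units.ext
    apply Φ.injective
    rw [Units.val_mul, Units.val_mul, map_mul, map_mul, ← res_symU hΦ, hWA, hWA, hWA,
      Units.val_pow_eq_pow_val, map_pow, map_pow, ← mul_pow, ← mul_pow]
    exact congrArg (fun z : S => z ^ ringExpChar F ^ s) (hAc g h)

/-- The embedding of `K` in the functions. -/
theorem exte_exists_hom (hΦ : IsModel F t x y Φ) :
    ∃ κ : K →+* FunField ℓ (f.map (algebraMap L Ω)), ∀ z, Φ (κ z) = algebraMap K S z := by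
  have h1 : ∀ z : K, ∃ u : FunField ℓ (f.map (algebraMap L Ω)), Φ u = algebraMap K S z := by
    intro z
    obtain ⟨r, hr⟩ := hΦ.exists_toO z
    exact ⟨_, hr⟩
  choose κ hκ using h1
  have hinj : Function.Injective Φ := Φ.injective
  refine ⟨{ toFun := κ
            map_one' := hinj (by rw [hκ, map_one, map_one])
            map_mul' := fun a b => hinj (by rw [hκ, map_mul, map_mul, hκ, hκ])
            map_zero' := hinj (by rw [hκ, map_zero, map_zero])
            map_add' := fun a b => hinj (by rw [hκ, map_add, map_add, hκ, hκ]) }, hκ⟩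

/-- A homomorphism with values in the range of an injective homomorphism lifts. -/
theorem exte_lift {A B C : Type} [Field A] [Field B] [Field C] (φ : A →+* C) (θ : B →+* C)
    (h : ∀ z, θ z ∈ φ.range) : ∃ i : B →+* A, ∀ z, φ (i z) = θ z := by
  have h1 : ∀ z : B, ∃ u : A, φ u = θ z := fun z => h z
  choose i hi using h1
  have hinj : Function.Injective φ := φ.injective
  refine ⟨{ toFun := i
            map_one' := hinj (by rw [hi, map_one, map_one])
            map_mul' := fun a b => hinj (by rw [hi, map_mul, map_mul, hi, hi])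
            map_zero' := hinj (by rw [hi, map_zero, map_zero])
            map_add' := fun a b => hinj (by rw [hi, map_add, map_add, hi, hi]) }, hi⟩

/-- Extension of a homomorphism to `S`. -/
theorem exte_extend {M T : Type} [Field M] [Field T] [IsAlgClosed T] (φ : M →+* S) (κ : K →+* M)
    (hκ : ∀ z, φ (κ z) = algebraMap K S z) (ψ : M →+* T) :
    ∃ j : S →+* T, ∀ u, j (φ u) = ψ u := by
  let iA : Algebra M S := φ.toAlgebra
  let iB : Algebra K M := κ.toAlgebra
  let iC : Algebra M T := ψ.toAlgebra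
  have iT : IsScalarTower K M S := IsScalarTower.of_algebraMap_eq fun z => (hκ z).symm
  have iAlg : Algebra.IsAlgebraic K S := IsAlgClosure.isAlgebraic
  have iAlg' : Algebra.IsAlgebraic M S := Algebra.IsAlgebraic.tower_top (K := K) _
  refine ⟨((IsAlgClosed.lift : S →ₐ[M] T) : S →+* T), fun u => ?_⟩
  exact (IsAlgClosed.lift : S →ₐ[M] T).commutes u

/-- Restriction of automorphisms to `S`. -/
theorem exte_restrict {H T : Type} [Field H] [Field T] [Algebra H T] (i : K →+* H) (j : S →+* T)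
    (hij : ∀ z, j (algebraMap K S z) = algebraMap H T (i z)) (g : T ≃ₐ[H] T) :
    ∃ r : S ≃ₐ[K] S, ∀ z, j (r z) = g (j z) := by
  let iA : Algebra S T := j.toAlgebra
  let iB : Algebra K T := (j.comp (algebraMap K S)).toAlgebra
  have iT : IsScalarTower K S T := IsScalarTower.of_algebraMap_eq fun z => rfl
  have iN : Normal K S := IsAlgClosure.normal K S
  have hg : ∀ z : K, g.toRingEquiv (algebraMap K T z) = algebraMap K T z := by
    intro z
    have h1 : algebraMap K T z = algebraMap H T (i z) := hij z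
    rw [h1]
    exact g.commutes (i z)
  let g' : T ≃ₐ[K] T := AlgEquiv.ofRingEquiv (f := g.toRingEquiv) hg
  exact ⟨g'.restrictNormal S, fun z => g'.restrictNormal_commutes S z⟩

/-- The image of a constant under a map of functions. -/
theorem exte_funMap_cO (σ : Sym (f.map (algebraMap L Ω))) (z : Ω) :
    funMap ℓ ((σ : Ω ≃+* Ω) : Ω →+* Ω) σ.2 (cO ℓ f Ω z) = cO ℓ f Ω ((σ : Ω ≃+* Ω) z) := by
  have h := funMap_polyF (N := ℓ) ((σ : Ω ≃+* Ω) : Ω →+* Ω) σ.2 (C z)
  rw [Polynomial.map_C] at h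
  exact h

/-- The final computation. -/
theorem exte_calc {T : Type} [Field T] {B P u v w α₁ α₂ α₃ : T} (hu : u ≠ 0) (hv : v ≠ 0)
    (hw : w ≠ 0) (h1 : B * u = P * (v * w)) (h2 : B * α₁ = α₂ * α₃) :
    P * (α₁ / u) = (α₂ / v) * (α₃ / w) := by
  rw [div_mul_div_comm, ← mul_div_assoc, div_eq_div_iff hu (mul_ne_zero hv hw)]
  linear_combination (-α₁) * h1 + u * h2

/-- Unramified classes. PROOF. Let `O`, `H`, `T`, `ψ` be as in `IUnr`. The homomorphism `i : K → H`: `Φ` is injective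
and the image of `K` is `Φ (toO (FunField ℓ f))` (`IsModel.toO_mem`, `IsModel.exists_toO`); for `z` in `K`, `z = Φ (toO r)`,
let `i z` be the element of `H` with image `ψ (toO r)`. (Define first the homomorphism `K → T`, `z ↦ ψ (Φ⁻¹ z)`, which has
values in the range of `H`, and use `RingHom.codRestrict` / the injectivity of `H → T`.) The homomorphism `j : S → T`
extending `ψ ∘ Φ⁻¹` : `S` is algebraic over the image of `Φ`, `T` is algebraically closed (`IsAlgClosed.lift` for the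
algebra structures given by `Φ` and `ψ`). `IsUnramified` gives `a`. Let `r g` be the restriction of `g` in `Aut(T/H)` to
`S` (as in `exists_res`: `j S` is the algebraic closure of `j K` in `T`; `g` fixes `j K`). If `β` is the cochain of `h`:
`b g h ^ m β(gh) = infl b' g h (g β(h) β(g))`, take `A g = a g ^ m / j (β (r g))`; the automorphism `g'` of `Ω` with
`ψ (g' z) = g (ψ z)` is `res (r g)`. -/
theorem iunr_of_unramified (hΦ : IsModel F t x y Φ) (b : (S ≃ₐ[K] S) → (S ≃ₐ[K] S) → Sˣ)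
    (hu : IsUnramified F b) (m : ℕ)
    (b' : (Ω ≃ₐ[L] Ω) → (Ω ≃ₐ[L] Ω) → (FunField ℓ (f.map (algebraMap L Ω)))ˣ)
    (h : IsCoboundary fun g h => b g h ^ m / infl hΦ b' g h) : IUnr F b' := by
  obtain ⟨κ, hκ⟩ := exte_exists_hom hΦ
  obtain ⟨β, ⟨T₁, hT₁⟩, hβ⟩ := h
  intro O H T _ _ _ _ _ _ _ _ _ _ ψ hψ1 hψ2 hψ3
  have iCl : IsAlgClosed T := IsAlgClosure.isAlgClosed H
  have hΦi : Function.Injective Φ := Φ.injective
  have hκr : ∀ z : K, ∃ r : FunField ℓ f, κ z = toO ℓ f Ω r := by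
    intro z
    obtain ⟨r, hr⟩ := hΦ.exists_toO z
    exact ⟨r, hΦi ((hκ z).trans hr.symm)⟩
  -- the homomorphism to `H`
  obtain ⟨i, hi⟩ := exte_lift (algebraMap H T) (ψ.comp κ) (by
    intro z
    obtain ⟨r, hr⟩ := hκr z
    show ψ (κ z) ∈ _
    rw [hr]
    exact hψ1 r)
  have hi' : ∀ z, algebraMap H T (i z) = ψ (κ z) := hi
  -- the homomorphism from `S`
  obtain ⟨j, hj⟩ := exte_extend (K := K) Φ κ hκ ψ
  have hij : ∀ z, j (algebraMap K S z) = algebraMap H T (i z) := by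
    intro z
    rw [← hκ z, hj, hi']
  have hinjH : Function.Injective (algebraMap H T) := (algebraMap H T).injective
  obtain ⟨a, ha, hab⟩ := hu O H T i j hij (by
    intro c
    obtain ⟨o, ho⟩ := hψ2 c
    have h1 : κ (algebraMap F K c) = cO ℓ f Ω (algebraMap L Ω (algebraMap F[X] L (C c))) := by
      apply hΦi
      rw [hκ, hΦ.const, aeval_C]
    refine ⟨o, hinjH ?_⟩
    rw [hi', h1]
    exact ho) (by
    obtain ⟨r, hr⟩ := hψ3
    obtain ⟨z, hz⟩ := hΦ.toO_mem r
    refine ⟨z, ?_⟩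
    rintro ⟨o, ho⟩
    apply hr
    refine ⟨o, ?_⟩
    have h1 : κ z = toO ℓ f Ω r := hΦi ((hκ z).trans hz.symm)
    show algebraMap H T (algebraMap O H o) = _
    rw [ho, hi', h1])
  -- restriction
  have hr : ∀ g : T ≃ₐ[H] T, ∃ r : S ≃ₐ[K] S, ∀ z, j (r z) = g (j z) :=
    fun g => exte_restrict i j hij g
  choose r hr using hr
  have hji : Function.Injective j := j.injective
  have hrm : ∀ g h, r (g * h) = r g * r h := by
    intro g h
    refine AlgEquiv.ext fun z => hji ?_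
    rw [hr]
    show g (h (j z)) = j (r g (r h z))
    rw [hr, hr]
  have hres : ∀ (g : T ≃ₐ[H] T) (g' : Ω ≃ₐ[L] Ω),
      (∀ z, ψ (cO ℓ f Ω (g' z)) = g (ψ (cO ℓ f Ω z))) → g' = res hΦ (r g) := by
    intro g g' hg
    refine AlgEquiv.ext fun z => ?_
    apply (cO ℓ f Ω).injective
    apply ψ.injective
    rw [hg, ← hj, ← hr, res_spec hΦ, hj]
    exact congrArg ψ (exte_funMap_cO (gs f (res hΦ (r g))) z)
  refine ⟨fun g => a g ^ m / Units.map (j : S →* T) (β (r g)), ?_, ?_⟩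
  · obtain ⟨T₂, hT₂⟩ := ha
    refine ⟨T₂ ∪ T₁.image j, fun g g' hgg => ?_⟩
    have h1 : a g = a g' := hT₂ g g' fun z hz => hgg z (Finset.mem_union_left _ hz)
    have h2 : β (r g) = β (r g') := by
      refine hT₁ _ _ fun z hz => hji ?_
      rw [hr, hr]
      exact hgg _ (Finset.mem_union_right _ (Finset.mem_image_of_mem _ hz))
    show a g ^ m / Units.map (j : S →* T) (β (r g)) = a g' ^ m / Units.map (j : S →* T) (β (r g'))
    rw [h1, h2]
  · intro g h g' h' hg hh
    have e1 := hab g h (r g) (r h) (hr g) (hr h)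
    have e2 := hβ (r g) (r h)
    have hg2 := hres g g' hg
    have hh2 := hres h h' hh
    have e3 : ((b (r g) (r h) ^ m / infl hΦ b' (r g) (r h) : Sˣ) : S) =
        (b (r g) (r h) : S) ^ m / Φ (b' g' h' : FunField ℓ (f.map (algebraMap L Ω))) := by
      rw [Units.val_div_eq_div_val, Units.val_pow_eq_pow_val, hg2, hh2]
      rfl
    have hne : Φ (b' g' h' : FunField ℓ (f.map (algebraMap L Ω))) ≠ 0 :=
      (map_ne_zero Φ).mpr (Units.ne_zero _)
    have e4 : (b (r g) (r h) : S) ^ m * β (r (g * h)) =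
        Φ (b' g' h' : FunField ℓ (f.map (algebraMap L Ω))) * (r g (β (r h)) * β (r g)) := by
      have e5 : ((b (r g) (r h) ^ m / infl hΦ b' (r g) (r h) : Sˣ) : S) * β (r g * r h) =
          r g (β (r h)) * β (r g) := e2
      rw [e3, ← hrm, div_mul_eq_mul_div, div_eq_iff hne] at e5
      rw [e5]
      ring
    have e6 := congrArg j e4
    rw [map_mul, map_mul, map_mul, map_pow, hj, hr] at e6
    have e7 := congrArg (fun z => z ^ m) e1
    simp only [mul_pow] at e7
    have hz1 : j (β (r (g * h)) : S) ≠ 0 := (map_ne_zero j).mpr (Units.ne_zero _)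
    have hz2 : g (j (β (r h) : S)) ≠ 0 :=
      (map_ne_zero g).mpr ((map_ne_zero j).mpr (Units.ne_zero _))
    have hz3 : j (β (r g) : S) ≠ 0 := (map_ne_zero j).mpr (Units.ne_zero _)
    have e8 := exte_calc hz1 hz2 hz3 e6 e7
    show ψ (b' g' h' : FunField ℓ (f.map (algebraMap L Ω))) *
        ((a (g * h) ^ m / Units.map (j : S →* T) (β (r (g * h))) : Tˣ) : T) =
      g ((a h ^ m / Units.map (j : S →* T) (β (r h)) : Tˣ) : T) *
        ((a g ^ m / Units.map (j : S →* T) (β (r g)) : Tˣ) : T)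
    rw [Units.val_div_eq_div_val, Units.val_div_eq_div_val, Units.val_div_eq_div_val,
      Units.val_pow_eq_pow_val, Units.val_pow_eq_pow_val, Units.val_pow_eq_pow_val, map_div₀,
      map_pow]
    exact e8

/-- `funMap σ` as an automorphism. -/
theorem extf_autF (σ : Sym (f.map (algebraMap L Ω))) (u : FunField ℓ (f.map (algebraMap L Ω))) :
    autF (symE ℓ σ) u = funMap ℓ ((σ : Ω ≃+* Ω) : Ω →+* Ω) σ.2 u := by
  have h : ((autF (symE ℓ σ) : FunField ℓ (f.map (algebraMap L Ω)) ≃+*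
      FunField ℓ (f.map (algebraMap L Ω))) : FunField ℓ (f.map (algebraMap L Ω)) →+*
      FunField ℓ (f.map (algebraMap L Ω))) = funMap ℓ ((σ : Ω ≃+* Ω) : Ω →+* Ω) σ.2 := by
    refine funField_hom_ext (fun p => ?_) ?_
    · rw [funMap_polyF]
      have h1 := autF_algebraMap (symE ℓ σ) (ofPoly p : NRing ℓ (f.map (algebraMap L Ω)))
      rw [R07_symE_ofPoly] at h1
      exact h1
    · rw [funMap_yF]
      have h1 := autF_algebraMap (symE ℓ σ) (yy : NRing ℓ (f.map (algebraMap L Ω)))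
      rw [R07_symE_yy] at h1
      exact h1
  exact RingHom.congr_fun h u

/-- The automorphisms of `Ω` which fix the coefficients of the curve and preserve `F` extend to `S`: `exists_extension`
for `funMap γ`. -/
theorem exists_lift (hΦ : IsModel F t x y Φ) (γ : Ω ≃+* Ω) (hγ : γ ∈ Sym (f.map (algebraMap L Ω)))
    (s : F ≃+* F) (hs : ∀ p : F[X], γ (algebraMap L Ω (algebraMap F[X] L p)) =
      algebraMap L Ω (algebraMap F[X] L (p.map (s : F →+* F)))) :
    ∃ γ' : S ≃+* S, (∀ u, γ' (Φ u) = Φ (funMap ℓ (γ : Ω →+* Ω) hγ u)) ∧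
      ∀ c : F, γ' (algebraMap K S (algebraMap F K c)) = algebraMap K S (algebraMap F K (s c)) := by
  obtain ⟨γ', h⟩ := exists_extension hΦ (autF (symE ℓ (⟨γ, hγ⟩ : Sym (f.map (algebraMap L Ω)))))
  have h2 : ∀ u, γ' (Φ u) = Φ (funMap ℓ (γ : Ω →+* Ω) hγ u) := fun u => by
    rw [h u, extf_autF]
  refine ⟨γ', h2, fun c => ?_⟩
  have h3 := hΦ.const (C c)
  have h4 := hΦ.const (C (s c))
  rw [aeval_C] at h3 h4
  rw [← h3, ← h4, h2]
  congr 1
  have h5 := hs (C c)
  rw [Polynomial.map_C] at h5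
  change funMap ℓ (γ : Ω →+* Ω) hγ (polyF (C _)) = polyF (C _)
  rw [funMap_polyF, Polynomial.map_C]
  congr 2

/-- `γ'` maps `K` into `K`. -/
theorem extf_mem (hΦ : IsModel F t x y Φ) (γ : Ω ≃+* Ω) (hγ : γ ∈ Sym (f.map (algebraMap L Ω)))
    (s : F ≃+* F) (hs : ∀ p : F[X], γ (algebraMap L Ω (algebraMap F[X] L p)) =
      algebraMap L Ω (algebraMap F[X] L (p.map (s : F →+* F)))) (γ' : S ≃+* S)
    (hγ' : ∀ u, γ' (Φ u) = Φ (funMap ℓ (γ : Ω →+* Ω) hγ u)) (z : K) :
    ∃ w : K, γ' (algebraMap K S z) = algebraMap K S w := by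
  have hconst : ∀ p : F[X], γ' (algebraMap K S (aeval t p)) =
      algebraMap K S (aeval t (p.map (s : F →+* F))) := by
    intro p
    rw [← hΦ.const p, ← hΦ.const, hγ']
    congr 1
    change funMap ℓ (γ : Ω →+* Ω) hγ (polyF (C _)) = polyF (C _)
    rw [funMap_polyF, Polynomial.map_C]
    congr 2
    exact hs p
  have hz : z ∈ IntermediateField.adjoin F ({t, x, y} : Set K) := by
    rw [hΦ.gen]; trivial
  induction hz using IntermediateField.adjoin_induction with
  | mem z hz =>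
    rcases hz with rfl | rfl | hz
    · have h := hconst X
      rw [Polynomial.map_X, aeval_X] at h
      exact ⟨_, h⟩
    · refine ⟨z, ?_⟩
      rw [← hΦ.fx, hγ', funMap_polyF, Polynomial.map_X]
    · rw [Set.mem_singleton_iff] at hz
      subst hz
      refine ⟨z, ?_⟩
      rw [← hΦ.fy, hγ', funMap_yF]
  | algebraMap c =>
    have h := hconst (C c)
    rw [aeval_C] at h
    exact ⟨_, h⟩
  | add a b _ _ ha hb =>
    obtain ⟨a', ha⟩ := ha
    obtain ⟨b', hb⟩ := hb
    exact ⟨a' + b', by rw [map_add, map_add, ha, hb, map_add]⟩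
  | inv a _ ha =>
    obtain ⟨a', ha⟩ := ha
    exact ⟨a'⁻¹, by rw [map_inv₀, map_inv₀, ha, map_inv₀]⟩
  | mul a b _ _ ha hb =>
    obtain ⟨a', ha⟩ := ha
    obtain ⟨b', hb⟩ := hb
    exact ⟨a' * b', by rw [map_mul, map_mul, ha, hb, map_mul]⟩

/-- Conjugation by `γ'`. -/
theorem extf_conj (γ' : S ≃+* S) (h1 : ∀ z : K, ∃ w : K, γ' (algebraMap K S z) = algebraMap K S w)
    (g : S ≃ₐ[K] S) : ∃ g0 : S ≃ₐ[K] S, ∀ z, g0 z = γ'.symm (g (γ' z)) := by
  refine ⟨AlgEquiv.ofRingEquiv (f := (γ'.trans (g : S ≃+* S)).trans γ'.symm) (fun z => ?_), fun z => rfl⟩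
  obtain ⟨w, hw⟩ := h1 z
  change γ'.symm (g (γ' (algebraMap K S z))) = algebraMap K S z
  rw [hw, g.commutes, ← hw, RingEquiv.symm_apply_apply]

/-- the conjugate of an automorphism of `Ω` -/
theorem extf_conjO (γ : Ω ≃+* Ω) (s : F ≃+* F)
    (hs : ∀ p : F[X], γ (algebraMap L Ω (algebraMap F[X] L p)) =
      algebraMap L Ω (algebraMap F[X] L (p.map (s : F →+* F)))) (g : Ω ≃ₐ[L] Ω) :
    ∃ g0 : Ω ≃ₐ[L] Ω, ∀ z, g0 z = γ.symm (g (γ z)) := by
  have h1 : ∀ z : L, ∃ w : L, γ (algebraMap L Ω z) = algebraMap L Ω w := by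
    intro z
    obtain ⟨p, q, hq, rfl⟩ := IsFractionRing.div_surjective (A := F[X]) z
    refine ⟨algebraMap F[X] L (p.map (s : F →+* F)) / algebraMap F[X] L (q.map (s : F →+* F)), ?_⟩
    rw [map_div₀, map_div₀, map_div₀, hs, hs]
  refine ⟨AlgEquiv.ofRingEquiv (f := (γ.trans (g : Ω ≃+* Ω)).trans γ.symm) (fun z => ?_), fun z => rfl⟩
  obtain ⟨w, hw⟩ := h1 z
  change γ.symm (g (γ (algebraMap L Ω z))) = algebraMap L Ω z
  rw [hw, g.commutes, ← hw, RingEquiv.symm_apply_apply]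

/-- `cO` is mapped by `funMap`. -/
theorem extf_funMap_cO (γ : Ω ≃+* Ω) (hγ : γ ∈ Sym (f.map (algebraMap L Ω))) (z : Ω) :
    funMap ℓ (γ : Ω →+* Ω) hγ (cO ℓ f Ω z) = cO ℓ f Ω (γ z) := by
  change funMap ℓ (γ : Ω →+* Ω) hγ (polyF (C _)) = polyF (C _)
  rw [funMap_polyF, Polynomial.map_C]
  rfl

/-- Conjugation commutes with restriction. -/
theorem extf_res (hΦ : IsModel F t x y Φ) (γ : Ω ≃+* Ω) (hγ : γ ∈ Sym (f.map (algebraMap L Ω)))
    (γ' : S ≃+* S) (hγ' : ∀ u, γ' (Φ u) = Φ (funMap ℓ (γ : Ω →+* Ω) hγ u))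
    (G G' : S ≃ₐ[K] S) (hG : ∀ z, γ' (G z) = G' (γ' z)) (z : Ω) :
    γ (res hΦ G z) = res hΦ G' (γ z) := by
  have h1 := res_spec hΦ G (cO ℓ f Ω z)
  have h2 := res_spec hΦ G' (cO ℓ f Ω (γ z))
  have h3 := extf_funMap_cO (ℓ := ℓ) (f := f) ((res hΦ G : Ω ≃ₐ[L] Ω) : Ω ≃+* Ω) (gs f (res hΦ G)).2 z
  have h4 := extf_funMap_cO (ℓ := ℓ) (f := f) ((res hΦ G' : Ω ≃ₐ[L] Ω) : Ω ≃+* Ω)
    (gs f (res hΦ G')).2 (γ z)
  have h5 := hγ' (cO ℓ f Ω z)
  rw [extf_funMap_cO] at h5
  have h6 : γ' (G (Φ (cO ℓ f Ω z))) = Φ (cO ℓ f Ω (γ (res hΦ G z))) := by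
    rw [h1]
    refine (congrArg (fun w => γ' (Φ w)) h3).trans ?_
    refine (hγ' _).trans ?_
    rw [extf_funMap_cO]
    rfl
  have h7 : γ' (G (Φ (cO ℓ f Ω z))) = Φ (cO ℓ f Ω (res hΦ G' (γ z))) := by
    rw [hG, h5, h2]
    exact congrArg Φ h4
  exact ((Φ.comp (cO ℓ f Ω)).injective (h6.symm.trans h7))

theorem extf_funMap_mul (α β : Sym (f.map (algebraMap L Ω))) (u : FunField ℓ (f.map (algebraMap L Ω))) :
    funMap ℓ ((α : Ω ≃+* Ω) : Ω →+* Ω) α.2 (funMap ℓ ((β : Ω ≃+* Ω) : Ω →+* Ω) β.2 u) =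
      funMap ℓ (((α * β : Sym (f.map (algebraMap L Ω))) : Ω ≃+* Ω) : Ω →+* Ω) (α * β).2 u := by
  have h : (funMap ℓ ((α : Ω ≃+* Ω) : Ω →+* Ω) α.2).comp (funMap ℓ ((β : Ω ≃+* Ω) : Ω →+* Ω) β.2) =
      funMap ℓ (((α * β : Sym (f.map (algebraMap L Ω))) : Ω ≃+* Ω) : Ω →+* Ω) (α * β).2 := by
    refine funField_hom_ext (fun p => ?_) ?_
    · rw [RingHom.comp_apply, funMap_polyF, funMap_polyF, funMap_polyF, Polynomial.map_map]
      rfl
    · rw [RingHom.comp_apply, funMap_yF, funMap_yF, funMap_yF]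
  exact RingHom.congr_fun h u

theorem extf_symU_conj (γ : Sym (f.map (algebraMap L Ω))) (σ τ : Sym (f.map (algebraMap L Ω)))
    (h : γ * σ = τ * γ) (u : (FunField ℓ (f.map (algebraMap L Ω)))ˣ) :
    symU γ (symU σ u) = symU τ (symU γ u) := by
  have key : ∀ (α β : Sym (f.map (algebraMap L Ω))) (v : (FunField ℓ (f.map (algebraMap L Ω)))ˣ),
      symU α (symU β v) = symU (α * β) v := by
    intro α β v
    apply Units.ext
    rw [coe_symU, coe_symU, coe_symU]
    exact extf_funMap_mul α β (v : FunField ℓ (f.map (algebraMap L Ω)))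
  rw [key, key, h]

theorem extf_alg {R : Type} [Field R] {P I' A' X' Y Q I A U V C' D' E' : R} (hI' : I' ≠ 0) (hI : I ≠ 0)
    (hA' : A' ≠ 0) (hX : X' ≠ 0) (hY : Y ≠ 0) (e1 : P / I' * A' = X' * Y) (e2 : Q / I * A = U * V)
    (e3 : P * C' = Q * (D' * E')) :
    I' / I * (A * C' / A') = U * D' / X' * (V * E' / Y) := by
  rw [div_mul_eq_mul_div, div_eq_iff hI'] at e1
  rw [div_mul_eq_mul_div, div_eq_iff hI] at e2
  rw [div_mul_div_comm, div_mul_div_comm, div_eq_div_iff (mul_ne_zero hI hA') (mul_ne_zero hX hY)]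
  linear_combination (-(A * C')) * e1 + (A * A') * e3 + (D' * E' * A') * e2

/-- Invariant classes. PROOF. `γ'` maps `K` onto `K` (it fixes `x`, `y` and `t`, and maps `F` onto `F` by `hs`), so
`g ↦ γ' g γ'⁻¹` is an automorphism `κ` of `Aut(S/K)`, and `res (κ g) = γ (res g) γ⁻¹`. From `hfix` and `h` the inflation of
`B g' h' = γ (b' g h) / b' g' h'` (`g = γ⁻¹ g' γ`; a cocycle `ICoc`) is a coboundary: raise `hfix` to the power `m` and use `h`
at `(g, h)` (apply `γ'`) and at `(g', h')`. Then `icob_of_infl`. -/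
theorem icob_of_fixed (hℓ : ℓ.Prime) (hΦ : IsModel F t x y Φ) (b : (S ≃ₐ[K] S) → (S ≃ₐ[K] S) → Sˣ)
    (hb : IsCocycle b) (m : ℕ)
    (b' : (Ω ≃ₐ[L] Ω) → (Ω ≃ₐ[L] Ω) → (FunField ℓ (f.map (algebraMap L Ω)))ˣ) (hb' : ICoc b')
    (h : IsCoboundary fun g h => b g h ^ m / infl hΦ b' g h)
    (γ : Ω ≃+* Ω) (hγ : γ ∈ Sym (f.map (algebraMap L Ω)))
    (s : F ≃+* F) (hs : ∀ p : F[X], γ (algebraMap L Ω (algebraMap F[X] L p)) =
      algebraMap L Ω (algebraMap F[X] L (p.map (s : F →+* F)))) (γ' : S ≃+* S)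
    (hγ' : ∀ u, γ' (Φ u) = Φ (funMap ℓ (γ : Ω →+* Ω) hγ u)) (hfix : IsFixedBy b γ') :
    ∃ m' : ℕ, m'.Coprime ℓ ∧
      ∃ a : (Ω ≃ₐ[L] Ω) → (FunField ℓ (f.map (algebraMap L Ω)))ˣ, IsCts a ∧
        ∀ g h g' h' : Ω ≃ₐ[L] Ω, (∀ z, γ (g z) = g' (γ z)) → (∀ z, γ (h z) = h' (γ z)) →
          symU ⟨γ, hγ⟩ (b' g h) ^ m' * a (g' * h') = b' g' h' ^ m' * (symU (gs f g') (a h') * a g') := by
  -- the conjugations
  choose κO hκO using extf_conjO (F := F) (L := L) (Ω := Ω) γ s hs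
  choose κ hκ using extf_conj (K := K) γ' (extf_mem hΦ γ hγ s hs γ' hγ')
  have hκO' : ∀ g z, γ (κO g z) = g (γ z) := fun g z => by
    rw [hκO, RingEquiv.apply_symm_apply]
  have hκ' : ∀ g z, γ' (κ g z) = g (γ' z) := fun g z => by
    rw [hκ, RingEquiv.apply_symm_apply]
  have hκOmul : ∀ g h, κO (g * h) = κO g * κO h := by
    intro g h
    ext z
    change κO (g * h) z = κO g (κO h z)
    rw [hκO, hκO, hκO, RingEquiv.apply_symm_apply]
    rfl
  have hκmul : ∀ g h, κ (g * h) = κ g * κ h := by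
    intro g h
    ext z
    change κ (g * h) z = κ g (κ h z)
    rw [hκ, hκ, hκ, RingEquiv.apply_symm_apply]
    rfl
  have hres : ∀ G, res hΦ (κ G) = κO (res hΦ G) := by
    intro G
    ext z
    apply γ.injective
    rw [hκO', extf_res hΦ γ hγ γ' hγ' (κ G) G (hκ' G)]
  -- the cocycle `B`
  set σ : Sym (f.map (algebraMap L Ω)) := ⟨γ, hγ⟩ with hσ
  let B : (Ω ≃ₐ[L] Ω) → (Ω ≃ₐ[L] Ω) → (FunField ℓ (f.map (algebraMap L Ω)))ˣ :=
    fun g h => symU σ (b' (κO g) (κO h)) / b' g h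
  have hconj : ∀ (g : Ω ≃ₐ[L] Ω) (u : (FunField ℓ (f.map (algebraMap L Ω)))ˣ),
      symU σ (symU (gs f (κO g)) u) = symU (gs f g) (symU σ u) := by
    intro g u
    apply extf_symU_conj
    apply Subtype.ext
    ext z
    exact hκO' g z
  have hB : ICoc B := by
    constructor
    · intro g h j
      have h1 := congrArg (symU σ) (hb'.cocycle (κO g) (κO h) (κO j))
      rw [map_mul, map_mul, hconj, ← hκOmul, ← hκOmul] at h1
      have h2 := hb'.cocycle g h j
      change symU σ (b' (κO g) (κO h)) / b' g h * (symU σ (b' (κO (g * h)) (κO j)) / b' (g * h) j) =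
        symU (gs f g) (symU σ (b' (κO h) (κO j)) / b' h j) * (symU σ (b' (κO g) (κO (h * j))) / b' g (h * j))
      rw [_root_.map_div, div_mul_div_comm, div_mul_div_comm, h1, h2]
    · obtain ⟨T, hT⟩ := hb'.continuous
      refine ⟨T ∪ T.image γ, fun g g' h h' hg hh => ?_⟩
      have e1 : b' g h = b' g' h' := hT g g' h h'
        (fun x hx => hg x (Finset.mem_union_left _ hx)) (fun x hx => hh x (Finset.mem_union_left _ hx))
      have e2 : b' (κO g) (κO h) = b' (κO g') (κO h') := by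
        apply hT
        · intro x hx
          rw [hκO, hκO, hg _ (Finset.mem_union_right _ (Finset.mem_image_of_mem _ hx))]
        · intro x hx
          rw [hκO, hκO, hh _ (Finset.mem_union_right _ (Finset.mem_image_of_mem _ hx))]
      change symU σ (b' (κO g) (κO h)) / b' g h = symU σ (b' (κO g') (κO h')) / b' g' h'
      rw [e1, e2]
  have hinfl : IsCoboundary (infl hΦ B) := by
    obtain ⟨a1, ha1, h1⟩ := h
    obtain ⟨a0, ha0, h0⟩ := hfix
    have hinj : ∀ z : Sˣ, ((Units.map (γ' : S →* S) z : Sˣ) : S) = γ' z := fun _ => rfl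
    refine ⟨fun G => a1 G * a0 G ^ m / Units.map (γ' : S →* S) (a1 (κ G)), ?_, ?_⟩
    · have ha2 : IsCts fun G => a1 (κ G) := by
        obtain ⟨T, hT⟩ := ha1
        refine ⟨T.image γ', fun g g' hg => hT _ _ fun x hx => ?_⟩
        rw [hκ, hκ, hg _ (Finset.mem_image_of_mem _ hx)]
      exact (ha1.comp₂ ha0 (fun p q => p * q ^ m)).comp₂ ha2 (fun p q => p / Units.map (γ' : S →* S) q)
    · intro G H
      have e1 := h1 (κ G) (κ H)
      have e2 := h1 G H
      have e3 := h0 (κ G) (κ H) G H (hκ' G) (hκ' H)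
      have e4 : Φ (B (res hΦ G) (res hΦ H) : FunField ℓ (f.map (algebraMap L Ω))) =
          γ' (infl hΦ b' (κ G) (κ H)) / (infl hΦ b' G H : Sˣ) := by
        change Φ ((symU σ (b' (κO (res hΦ G)) (κO (res hΦ H))) / b' (res hΦ G) (res hΦ H) :
          (FunField ℓ (f.map (algebraMap L Ω)))ˣ) : FunField ℓ (f.map (algebraMap L Ω))) = _
        rw [Units.val_div_eq_div_val, map_div₀, coe_symU]
        congr 1
        change _ = γ' (Φ (b' (res hΦ (κ G)) (res hΦ (κ H)) : FunField ℓ (f.map (algebraMap L Ω))))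
        rw [hγ', hres, hres]
      have e1' := congrArg γ' e1
      simp only [map_mul, Units.val_div_eq_div_val, Units.val_pow_eq_pow_val, map_div₀, map_pow] at e1' e2
      rw [hκ', ← hκmul] at e1'
      change Φ (B (res hΦ G) (res hΦ H) : FunField ℓ (f.map (algebraMap L Ω))) * _ = _
      rw [e4]
      simp only [Units.val_div_eq_div_val, Units.val_mul, Units.val_pow_eq_pow_val, map_div₀, map_mul,
        map_pow, hinj]
      have n1 : γ' (infl hΦ b' (κ G) (κ H)) ≠ 0 := (map_ne_zero γ').mpr (Units.ne_zero _)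
      have n2 : ((infl hΦ b' G H : Sˣ) : S) ≠ 0 := Units.ne_zero _
      have n3 : γ' (a1 (κ (G * H))) ≠ 0 := (map_ne_zero γ').mpr (Units.ne_zero _)
      have n4 : γ' (a1 (κ G)) ≠ 0 := (map_ne_zero γ').mpr (Units.ne_zero _)
      have n5 : G (γ' (a1 (κ H))) ≠ 0 := (map_ne_zero G).mpr ((map_ne_zero γ').mpr (Units.ne_zero _))
      have e3' := congrArg (fun w => w ^ m) e3
      simp only [mul_pow] at e3'
      exact extf_alg n1 n2 n3 n5 n4 e1' e2 e3'
  obtain ⟨m', hm', a, ha, hab⟩ := icob_of_infl hℓ hΦ B hB hinfl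
  refine ⟨m', hm', a, ha, fun g h g' h' hg hh => ?_⟩
  have eg : κO g' = g := by
    ext z
    apply γ.injective
    rw [hκO', hg]
  have eh : κO h' = h := by
    ext z
    apply γ.injective
    rw [hκO', hh]
  have h1 := hab g' h'
  change (symU σ (b' (κO g') (κO h')) / b' g' h') ^ m' * a (g' * h') = _ at h1
  rw [eg, eh, div_pow, div_mul_eq_mul_div, div_eq_iff_eq_mul] at h1
  rw [h1, mul_comm]

end

end Pool.Agent.Lib.MP_89bcae_ag.Bra

end

section

/-!
# Operations on cocycles and cochains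
-/

open Polynomial IsDedekindDomain IsLocalRing

open scoped Classical

namespace Pool.Agent.Lib.MP_89bcae_ag.Bra

open Pool.Agent.Lib.MP_89bcae_ag.Wt Pool.Agent.Lib.MP_89bcae_ag.Wt.Lns

section External

variable {K S : Type} [Field K] [Field S] [Algebra K S]
  {b b' : (S ≃ₐ[K] S) → (S ≃ₐ[K] S) → Sˣ}

lemma IsCoboundary.mul (h : IsCoboundary b) (h' : IsCoboundary b') :
    IsCoboundary fun g h => b g h * b' g h := by
  obtain ⟨a, ha, hab⟩ := h
  obtain ⟨a', ha', hab'⟩ := h'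
  refine ⟨fun g => a g * a' g, ha.comp₂ ha' (fun u v => u * v), ?_⟩
  intro g j
  show ((b g j * b' g j : Sˣ) : S) * ((a (g * j) * a' (g * j) : Sˣ) : S) =
    g ((a j * a' j : Sˣ) : S) * ((a g * a' g : Sˣ) : S)
  rw [Units.val_mul, Units.val_mul, Units.val_mul, Units.val_mul, map_mul,
    mul_mul_mul_comm, hab, hab', mul_mul_mul_comm]

lemma IsCoboundary.inv (h : IsCoboundary b) : IsCoboundary fun g h => (b g h)⁻¹ := by
  obtain ⟨a, ha, hab⟩ := h
  refine ⟨fun g => (a g)⁻¹, ha.comp (fun u => u⁻¹), ?_⟩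
  intro g j
  show (((b g j)⁻¹ : Sˣ) : S) * (((a (g * j))⁻¹ : Sˣ) : S) =
    g (((a j)⁻¹ : Sˣ) : S) * (((a g)⁻¹ : Sˣ) : S)
  rw [Units.val_inv_eq_inv_val, Units.val_inv_eq_inv_val, Units.val_inv_eq_inv_val,
    Units.val_inv_eq_inv_val, map_inv₀, ← mul_inv, ← mul_inv, hab]

lemma IsCoboundary.pow (h : IsCoboundary b) (n : ℕ) : IsCoboundary fun g h => b g h ^ n := by
  obtain ⟨a, ha, hab⟩ := h
  refine ⟨fun g => a g ^ n, ha.comp (fun u => u ^ n), ?_⟩
  intro g j
  show ((b g j ^ n : Sˣ) : S) * ((a (g * j) ^ n : Sˣ) : S) =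
    g ((a j ^ n : Sˣ) : S) * ((a g ^ n : Sˣ) : S)
  rw [Units.val_pow_eq_pow_val, Units.val_pow_eq_pow_val, Units.val_pow_eq_pow_val,
    Units.val_pow_eq_pow_val, map_pow, ← mul_pow, ← mul_pow, hab]

lemma IsCoboundary.opsa_zpow (h : IsCoboundary b) (n : ℤ) :
    IsCoboundary fun g h => b g h ^ n := by
  cases n with
  | ofNat n =>
    have h1 : (fun g h => b g h ^ (Int.ofNat n)) = fun g h => b g h ^ n := by
      funext g j
      exact zpow_natCast _ _
    rw [h1]
    exact h.pow n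
  | negSucc n =>
    have h1 : (fun g h => b g h ^ (Int.negSucc n)) = fun g h => (b g h ^ (n + 1))⁻¹ := by
      funext g j
      exact zpow_negSucc _ _
    rw [h1]
    exact (h.pow (n + 1)).inv

/-- The coprime case (Bezout: `u m = 1 + v n` or `u m + ... `; use `IsCoboundary.pow`, `mul`, `inv`,
`Nat.exists_mul_emod_eq_one_of_coprime` or `Int.gcd_eq_gcd_ab` with `zpow`). -/
lemma IsCoboundary.of_coprime {m n : ℕ} (hmn : m.Coprime n) (h : IsCoboundary fun g h => b g h ^ m)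
    (h' : IsCoboundary fun g h => b g h ^ n) : IsCoboundary b := by
  obtain ⟨u, v, huv⟩ := Nat.isCoprime_iff_coprime.2 hmn
  have h1 := (h.opsa_zpow u).mul (h'.opsa_zpow v)
  have h2 : (fun g h => (b g h ^ m) ^ u * (b g h ^ n) ^ v) = b := by
    funext g j
    rw [← zpow_natCast, ← zpow_natCast, ← zpow_mul, ← zpow_mul, ← zpow_add, mul_comm (m : ℤ),
      mul_comm (n : ℤ), huv, zpow_one]
  rw [h2] at h1
  exact h1

/-- PROOF: induction on `n`: `b (n+1) ^ (ℓ ^ (n+1)) = (b (n+1) ^ ℓ / b n) ^ (ℓ ^ n) * b n ^ (ℓ ^ n)`. -/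
lemma IsTateSequence.pow_coboundary {ℓ : ℕ} {b : ℕ → (S ≃ₐ[K] S) → (S ≃ₐ[K] S) → Sˣ}
    (hb : IsTateSequence ℓ b) (n : ℕ) : IsCoboundary fun g h => b n g h ^ ℓ ^ n := by
  induction n with
  | zero =>
    have h1 : (fun g h => b 0 g h ^ ℓ ^ 0) = b 0 := by
      funext g j
      rw [pow_zero, pow_one]
    rw [h1]
    exact hb.zero
  | succ n ih =>
    have h1 : (fun g h => b (n + 1) g h ^ ℓ ^ (n + 1)) =
        fun g h => (b (n + 1) g h ^ ℓ / b n g h) ^ ℓ ^ n * b n g h ^ ℓ ^ n := by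
      funext g j
      rw [← mul_pow, div_mul_cancel, ← pow_mul, pow_succ']
    rw [h1]
    exact ((hb.pow n).pow (ℓ ^ n)).mul ih

end External

section Internal

variable {L Ω : Type} [Field L] [Field Ω] [Algebra L Ω] {ℓ : ℕ} {f : L[X]}
  [hG : IsGood ℓ (f.map (algebraMap L Ω))]
  {b b' : (Ω ≃ₐ[L] Ω) → (Ω ≃ₐ[L] Ω) → (FunField ℓ (f.map (algebraMap L Ω)))ˣ}

lemma opsa_comp {L Ω : Type} [Field L] [Field Ω] [Algebra L Ω] {X Y : Type}
    {b : (Ω ≃ₐ[L] Ω) → (Ω ≃ₐ[L] Ω) → X} (h : ICts2 b) (φ : X → Y) :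
    ICts2 fun g h => φ (b g h) := by
  obtain ⟨T, hT⟩ := h
  exact ⟨T, fun g g' j j' h1 h2 => congrArg φ (hT g g' j j' h1 h2)⟩

lemma opsa_comp₂ {L Ω : Type} [Field L] [Field Ω] [Algebra L Ω] {X Y Z : Type}
    {b : (Ω ≃ₐ[L] Ω) → (Ω ≃ₐ[L] Ω) → X} {b' : (Ω ≃ₐ[L] Ω) → (Ω ≃ₐ[L] Ω) → Y} (h : ICts2 b)
    (h' : ICts2 b') (φ : X → Y → Z) : ICts2 fun g h => φ (b g h) (b' g h) := by
  obtain ⟨T, hT⟩ := h
  obtain ⟨T', hT'⟩ := h'
  refine ⟨T ∪ T', fun g g' j j' h1 h2 => ?_⟩
  show φ (b g j) (b' g j) = φ (b g' j') (b' g' j')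
  rw [hT g g' j j' (fun x hx => h1 x (Finset.mem_union_left _ hx))
      (fun x hx => h2 x (Finset.mem_union_left _ hx)),
    hT' g g' j j' (fun x hx => h1 x (Finset.mem_union_right _ hx))
      (fun x hx => h2 x (Finset.mem_union_right _ hx))]

lemma ICoc.mul (h : ICoc b) (h' : ICoc b') : ICoc fun g h => b g h * b' g h := by
  refine ⟨?_, opsa_comp₂ h.continuous h'.continuous (fun u v => u * v)⟩
  intro g j k
  show b g j * b' g j * (b (g * j) k * b' (g * j) k) =
    symU (gs f g) (b j k * b' j k) * (b g (j * k) * b' g (j * k))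
  rw [map_mul, mul_mul_mul_comm, h.cocycle, h'.cocycle, mul_mul_mul_comm]

lemma ICoc.inv (h : ICoc b) : ICoc fun g h => (b g h)⁻¹ := by
  refine ⟨?_, opsa_comp h.continuous (fun u => u⁻¹)⟩
  intro g j k
  show (b g j)⁻¹ * (b (g * j) k)⁻¹ = symU (gs f g) (b j k)⁻¹ * (b g (j * k))⁻¹
  rw [map_inv, ← mul_inv, ← mul_inv, h.cocycle]

lemma ICoc.pow (h : ICoc b) (n : ℕ) : ICoc fun g h => b g h ^ n := by
  refine ⟨?_, opsa_comp h.continuous (fun u => u ^ n)⟩
  intro g j k
  show b g j ^ n * b (g * j) k ^ n = symU (gs f g) (b j k ^ n) * b g (j * k) ^ n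
  rw [map_pow, ← mul_pow, ← mul_pow, h.cocycle]


/-- Take the power of the cochain `a` of `IUnr`. -/
lemma IUnr.pow {F : Type} [Field F] [Algebra F[X] L] (h : IUnr F b) (n : ℕ) :
    IUnr F fun g h => b g h ^ n := by
  intro O H T _ _ _ _ _ _ _ _ _ _ ψ h1 h2 h3
  obtain ⟨a, ha, hab⟩ := h O H T ψ h1 h2 h3
  refine ⟨fun g => a g ^ n, ha.comp (fun u => u ^ n), ?_⟩
  intro g j g' j' h4 h5
  show ψ ((b g' j' ^ n : (FunField ℓ (f.map (algebraMap L Ω)))ˣ) :
      FunField ℓ (f.map (algebraMap L Ω))) * ((a (g * j) ^ n : Tˣ) : T) =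
    g ((a j ^ n : Tˣ) : T) * ((a g ^ n : Tˣ) : T)
  rw [Units.val_pow_eq_pow_val, Units.val_pow_eq_pow_val, Units.val_pow_eq_pow_val,
    Units.val_pow_eq_pow_val, map_pow, map_pow, ← mul_pow, ← mul_pow, hab g j g' j' h4 h5]

variable {C C' : (Ω ≃ₐ[L] Ω) → (Pt ℓ (f.map (algebraMap L Ω)) →₀ ℤ)}

lemma IDiv.mul (h : IDiv b C) (h' : IDiv b' C') : IDiv (fun g h => b g h * b' g h) (C + C') := by
  refine ⟨h.continuous.comp₂ h'.continuous (fun u v => u + v), ?_⟩
  intro g j
  show Wt.div (b g j * b' g j) + (C (g * j) + C' (g * j)) =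
    (C j + C' j).mapDomain (Pt.sym (gs f g)) + (C g + C' g)
  rw [Wt.div_mul, Finsupp.mapDomain_add, add_add_add_comm, h.div, h'.div, add_add_add_comm]

lemma opsa_neg {A B : Type} (φ : A → B) (v : A →₀ ℤ) :
    (-v).mapDomain φ = -(v.mapDomain φ) :=
  map_neg (Finsupp.mapDomain.addMonoidHom (M := ℤ) φ) v

lemma opsa_sub {A B : Type} (φ : A → B) (v w : A →₀ ℤ) :
    (v - w).mapDomain φ = v.mapDomain φ - w.mapDomain φ :=
  map_sub (Finsupp.mapDomain.addMonoidHom (M := ℤ) φ) v w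

lemma IDiv.inv (h : IDiv b C) : IDiv (fun g h => (b g h)⁻¹) (-C) := by
  refine ⟨h.continuous.comp (fun u => -u), ?_⟩
  intro g j
  show Wt.div (b g j)⁻¹ + -(C (g * j)) = (-(C j)).mapDomain (Pt.sym (gs f g)) + -(C g)
  rw [div_inv, opsa_neg, ← neg_add, ← neg_add, h.div]

lemma IDiv.pow (h : IDiv b C) (n : ℕ) : IDiv (fun g h => b g h ^ n) (n • C) := by
  induction n with
  | zero =>
    refine ⟨⟨∅, fun g g' _ => ?_⟩, ?_⟩
    · rw [zero_nsmul]
      rfl
    · intro g j
      rw [zero_nsmul]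
      show Wt.div (b g j ^ 0) + 0 = (0 : Pt ℓ (f.map (algebraMap L Ω)) →₀ ℤ).mapDomain
        (Pt.sym (gs f g)) + 0
      rw [pow_zero, Wt.div_one, Finsupp.mapDomain_zero]
  | succ n ih =>
    have h1 : (fun g h => b g h ^ (n + 1)) = fun g h => b g h ^ n * b g h := by
      funext g j
      exact pow_succ _ _
    rw [h1, succ_nsmul]
    exact ih.mul h

/-- Adding a coboundary to `C` (`(gh) E = g (h E)`: `Pt.sym` of a product, `Finsupp.mapDomain_comp`; continuity:
`E.mapDomain (Pt.sym (gs f g))` depends only on the restriction of `g` to the coordinates of the points of the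
support of `E`). -/
lemma IDiv.add_coboundary (h : IDiv b C) (E : Pt ℓ (f.map (algebraMap L Ω)) →₀ ℤ) :
    IDiv b fun g => C g + (E.mapDomain (Pt.sym (gs f g)) - E) := by
  refine ⟨?_, ?_⟩
  · refine h.continuous.comp₂ (a' := fun g => E.mapDomain (Pt.sym (gs f g)) - E)
      ⟨E.support.image (fun P => P.x) ∪ E.support.image (fun P => P.y), ?_⟩ (fun u v => u + v)
    intro g g' hg
    have h1 : E.mapDomain (Pt.sym (gs f g)) = E.mapDomain (Pt.sym (gs f g')) := by
      refine Finsupp.mapDomain_congr ?_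
      intro P hP
      apply Pt.ext
      · exact hg P.x (Finset.mem_union_left _ (Finset.mem_image.2 ⟨P, hP, rfl⟩))
      · exact hg P.y (Finset.mem_union_right _ (Finset.mem_image.2 ⟨P, hP, rfl⟩))
    show E.mapDomain (Pt.sym (gs f g)) - E = E.mapDomain (Pt.sym (gs f g')) - E
    rw [h1]
  · intro g j
    have h1 : E.mapDomain (Pt.sym (gs f (g * j))) =
        (E.mapDomain (Pt.sym (gs f j))).mapDomain (Pt.sym (gs f g)) := by
      rw [← Finsupp.mapDomain_comp]
      rfl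
    have h2 := h.div g j
    show Wt.div (b g j) + (C (g * j) + (E.mapDomain (Pt.sym (gs f (g * j))) - E)) =
      (C j + (E.mapDomain (Pt.sym (gs f j)) - E)).mapDomain (Pt.sym (gs f g)) +
        (C g + (E.mapDomain (Pt.sym (gs f g)) - E))
    rw [h1, Finsupp.mapDomain_add, opsa_sub, ← add_assoc, h2]
    abel

/-- The class of `C` is a cocycle: apply `cl` to `IDiv.div`, `cl_div`, `symJ_cl`. -/
lemma IDiv.cl_cocycle (h : IDiv b C) (g g' : Ω ≃ₐ[L] Ω) :
    (cl (C (g * g')) : Jac ℓ (f.map (algebraMap L Ω))) = cl (C g) + symJ (gs f g) (cl (C g')) := by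
  have h1 := congrArg cl (h.div g g')
  rw [map_add, map_add, cl_div, zero_add] at h1
  rw [h1, symJ_cl, add_comm]

/-- Cocycles with values in a permutation module (values in an abelian group `A`, without support condition)
which are trivial at the fixed points are coboundaries. -/
theorem ops_shapiro {G X A : Type*} [Group G] [AddCommGroup A] (act : G → X → X)
    (h1 : ∀ x, act 1 x = x) (hm : ∀ g h x, act (g * h) x = act g (act h x)) (C : G → X → A)
    (hC : ∀ g g' x, C (g * g') x = C g' (act g⁻¹ x) + C g x)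
    (hfix : ∀ g x, act g x = x → C g x = 0) :
    ∃ E : X → A, (∀ g x, C g x = E (act g⁻¹ x) - E x) ∧ ∀ x, ∃ g, E x = -C g x := by
  let S : Setoid X :=
    { r := fun x y => ∃ g, act g x = y
      iseqv :=
        { refl := fun x => ⟨1, h1 x⟩
          symm := by
            rintro x y ⟨g, rfl⟩
            exact ⟨g⁻¹, by rw [← hm, inv_mul_cancel, h1]⟩
          trans := by
            rintro x y z ⟨g, rfl⟩ ⟨g', rfl⟩
            exact ⟨g' * g, hm g' g x⟩ } }
  have hs : ∀ x : X, ∃ g, act g (Quotient.mk S x).out = x := fun x => Quotient.mk_out (s := S) x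
  choose s hs using hs
  refine ⟨fun x => -C (s x) x, fun g x => ?_, fun x => ⟨s x, rfl⟩⟩
  have ho : (Quotient.mk S (act g⁻¹ x)).out = (Quotient.mk S x).out := by
    have h2 : Quotient.mk S (act g⁻¹ x) = Quotient.mk S x :=
      Quotient.sound (s := S) ⟨g, by rw [← hm, mul_inv_cancel, h1]⟩
    rw [h2]
  have hy := hs (act g⁻¹ x)
  have hx := hs x
  rw [ho] at hy
  have hinv : act (s x)⁻¹ x = (Quotient.mk S x).out := by
    have h2 := congrArg (act (s x)⁻¹) hx
    rw [← hm, inv_mul_cancel, h1] at h2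
    exact h2.symm
  have h3 : C ((s x)⁻¹ * (g * s (act g⁻¹ x))) (Quotient.mk S x).out = 0 := by
    apply hfix
    rw [hm, hm, hy, ← hm g, mul_inv_cancel, h1, hinv]
  have h4 := hC (s x) ((s x)⁻¹ * (g * s (act g⁻¹ x))) x
  rw [hinv, h3, zero_add, mul_inv_cancel_left, hC g (s (act g⁻¹ x)) x] at h4
  show C g x = -C (s (act g⁻¹ x)) (act g⁻¹ x) - -C (s x) x
  rw [← h4]
  abel

omit hG in
lemma ops_sym_mul (g g' : Ω ≃ₐ[L] Ω) (x : Pt ℓ (f.map (algebraMap L Ω))) :
    Pt.sym (gs f (g * g')) x = Pt.sym (gs f g) (Pt.sym (gs f g') x) := rfl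

omit hG in
lemma ops_sym_one (x : Pt ℓ (f.map (algebraMap L Ω))) :
    Pt.sym (gs f (1 : Ω ≃ₐ[L] Ω)) x = x := rfl

omit hG in
lemma ops_sym_inv (g : Ω ≃ₐ[L] Ω) (x : Pt ℓ (f.map (algebraMap L Ω))) :
    Pt.sym (gs f g) (Pt.sym (gs f g⁻¹) x) = x := by
  rw [← ops_sym_mul, mul_inv_cancel, ops_sym_one]

omit hG in
lemma ops_sym_inj (g : Ω ≃ₐ[L] Ω) :
    Function.Injective (Pt.sym (N := ℓ) (gs f g)) := by
  intro x y hxy
  have h := congrArg (Pt.sym (gs f g⁻¹)) hxy
  rwa [← ops_sym_mul, ← ops_sym_mul, inv_mul_cancel, ops_sym_one, ops_sym_one] at h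

omit hG in
lemma ops_mapDomain_apply (g : Ω ≃ₐ[L] Ω) (D : Pt ℓ (f.map (algebraMap L Ω)) →₀ ℤ)
    (x : Pt ℓ (f.map (algebraMap L Ω))) :
    D.mapDomain (Pt.sym (gs f g)) x = D (Pt.sym (gs f g⁻¹) x) := by
  conv_lhs => rw [← ops_sym_inv g x]
  exact Finsupp.mapDomain_apply (ops_sym_inj g) _ _

omit hG in
lemma ops_mapDomain_sub (g : Ω ≃ₐ[L] Ω) (D D' : Pt ℓ (f.map (algebraMap L Ω)) →₀ ℤ) :
    (D - D').mapDomain (Pt.sym (gs f g)) =
      D.mapDomain (Pt.sym (gs f g)) - D'.mapDomain (Pt.sym (gs f g)) :=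
  map_sub (Finsupp.mapDomain.addMonoidHom (Pt.sym (gs f g))) D D'

/-- The value at a fixed point. -/
lemma ops_fix [IsAlgClosure L Ω] (hC : IsCts C)
    (h : ∀ g g', C (g * g') = (C g').mapDomain (Pt.sym (gs f g)) + C g) (g : Ω ≃ₐ[L] Ω)
    (x : Pt ℓ (f.map (algebraMap L Ω))) (hx : Pt.sym (gs f g) x = x) : C g x = 0 := by
  by_contra hne
  have hx' : Pt.sym (gs f g⁻¹) x = x := by
    conv_lhs => rw [← hx]
    rw [← ops_sym_mul, inv_mul_cancel, ops_sym_one]
  have h1 : C 1 x = 0 := by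
    have h2 := DFunLike.congr_fun (h 1 1) x
    rw [Finsupp.add_apply, ops_mapDomain_apply, mul_one, inv_one, ops_sym_one] at h2
    omega
  have h2 : ∀ n : ℕ, C (g ^ n) x = n * C g x := by
    intro n
    induction n with
    | zero => rw [pow_zero, h1, Nat.cast_zero, zero_mul]
    | succ n ih =>
      have h3 := DFunLike.congr_fun (h g (g ^ n)) x
      rw [Finsupp.add_apply, ops_mapDomain_apply, hx', ih] at h3
      rw [pow_succ', h3, Nat.cast_succ]
      ring
  have h3 : (Set.range fun n : ℕ => C (g ^ n) x).Finite := by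
    refine (hC.finite_range.image fun D => D x).subset ?_
    rintro _ ⟨n, rfl⟩
    exact ⟨C (g ^ n), ⟨g ^ n, rfl⟩, rfl⟩
  refine Set.infinite_range_of_injective ?_ h3
  intro n m hnm
  have h4 : (C (g ^ n) x : ℤ) = C (g ^ m) x := hnm
  rw [h2, h2] at h4
  exact Nat.cast_injective (mul_right_cancel₀ hne h4)

/-- The first cohomology group of the divisors is trivial. PROOF. At a point `x`: `C (g g') x = C g' (g⁻¹ x) + C g x`.
If `g x = x` then `C (g ^ n) x = n * C g x`; as `Ω` is algebraic over `L`, some `g ^ n`, `n > 0`, is the identity on the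
finite set `T` of `IsCts` (the orbits of `Aut(Ω/L)` on `Ω` are finite), so `C (g ^ n) = C 1 = 0` and `C g x = 0`. In each
orbit of `Aut(Ω/L)` on the points choose a point `x0`, and for all `x` in the orbit an `s x` with `s x x0 = x`; let
`E x = - C (s x) x`. For `y = g⁻¹ x`: `g s y = s x η` with `η x0 = x0`, so `C (s y) y + C g x = C (g s y) x =
C (s x η) x = C η x0 + C (s x) x = C (s x) x`, that is `C g x = E y - E x`. `E` has finite support because `C` has finitely
many values (`IsCts.finite_range`). -/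
theorem h1div [IsAlgClosure L Ω] (hC : IsCts C)
    (h : ∀ g g', C (g * g') = (C g').mapDomain (Pt.sym (gs f g)) + C g) :
    ∃ E : Pt ℓ (f.map (algebraMap L Ω)) →₀ ℤ, ∀ g, C g = E.mapDomain (Pt.sym (gs f g)) - E := by
  obtain ⟨E, hE, hE'⟩ := ops_shapiro (fun (g : Ω ≃ₐ[L] Ω) (x : Pt ℓ (f.map (algebraMap L Ω))) =>
    Pt.sym (gs f g) x) ops_sym_one ops_sym_mul (fun g x => C g x) (fun g g' x => by
      show C (g * g') x = C g' (Pt.sym (gs f g⁻¹) x) + C g x
      rw [h g g', Finsupp.add_apply, ops_mapDomain_apply]) (fun g x hx => ops_fix hC h g x hx)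
  have hfin : (⋃ D ∈ Set.range C, (D.support : Set (Pt ℓ (f.map (algebraMap L Ω))))).Finite :=
    hC.finite_range.biUnion fun D _ => D.support.finite_toSet
  have hsub : Function.support E ⊆
      ⋃ D ∈ Set.range C, (D.support : Set (Pt ℓ (f.map (algebraMap L Ω)))) := by
    intro x hx
    obtain ⟨g, hg⟩ := hE' x
    refine Set.mem_biUnion (Set.mem_range_self g) ?_
    rw [Finset.mem_coe, Finsupp.mem_support_iff]
    intro h0
    rw [h0, neg_zero] at hg
    exact hx hg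
  refine ⟨Finsupp.ofSupportFinite E (hfin.subset hsub), fun g => ?_⟩
  ext x
  rw [Finsupp.sub_apply, ops_mapDomain_apply]
  exact hE g x

/-- If `b` is a coboundary then so is the class of `C`. PROOF: if `b g h * a (g h) = g (a h) * a g` then `C g - div (a g)`
is a cocycle (`div_mul`, `div_symU`), so `= g E - E` (`h1div`); `Q = cl E` (`cl_div`). -/
theorem cl_of_icob [IsAlgClosure L Ω] (h : IDiv b C) (hb : ICob b) :
    ∃ Q : Jac ℓ (f.map (algebraMap L Ω)), ∀ g, cl (C g) = symJ (gs f g) Q - Q := by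
  obtain ⟨a, ha, hab⟩ := hb
  obtain ⟨E, hE⟩ := h1div (C := fun g => C g - div (a g)) (h.continuous.comp₂ ha fun D u => D - div u)
    (fun g g' => by
      have h1 := h.div g g'
      have h2 := congrArg Wt.div (hab g g')
      rw [Wt.div_mul, Wt.div_mul, div_symU] at h2
      show C (g * g') - div (a (g * g')) = (C g' - div (a g')).mapDomain (Pt.sym (gs f g)) +
        (C g - div (a g))
      rw [ops_mapDomain_sub]
      have h3 : C (g * g') = (C g').mapDomain (Pt.sym (gs f g)) + C g - div (b g g') := by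
        rw [← h1]
        abel
      have h4 : div (a (g * g')) = (div (a g')).mapDomain (Pt.sym (gs f g)) + div (a g) -
          div (b g g') := by
        rw [← h2]
        abel
      rw [h3, h4]
      abel)
  refine ⟨cl E, fun g => ?_⟩
  have h1 : C g = (E.mapDomain (Pt.sym (gs f g)) - E) + div (a g) := by
    rw [← hE g]
    show C g = C g - div (a g) + div (a g)
    abel
  rw [h1, map_add, cl_div, add_zero, map_sub, symJ_cl]

private lemma opsc_aux {A : Type} [AddCommGroup A] (m : ℕ) {β γCgh γCg β' Cgh gCh Cg agh gah ag gγCh : A}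
    (H1 : β + γCgh = gγCh + γCg) (H2 : β' + Cgh = gCh + Cg)
    (H3 : m • β + agh = m • β' + (gah + ag)) :
    m • (γCgh - Cgh) - agh = (m • (gγCh - gCh) - gah) + (m • (γCg - Cg) - ag) := by
  have e1 : γCgh = gγCh + γCg - β := by rw [← H1]; abel
  have e2 : Cgh = gCh + Cg - β' := by rw [← H2]; abel
  have e3 : agh = m • β' + (gah + ag) - m • β := by rw [← H3]; abel
  rw [e1, e2, e3]
  simp only [smul_sub, smul_add]
  abel

/-- The action of an automorphism of `Ω` on the classes. PROOF. `γ` maps `L` onto `L` (`hs`; `L` is the field of fractions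
of `F[X]`), so for `g' : Ω ≃ₐ[L] Ω` there is a unique `g : Ω ≃ₐ[L] Ω` with `γ g = g' γ` (and `g'` is unique if `g` is
given). Let `Y g' = m • (γ (C g) - C g') - div (a g')` with `γ (C g) = (C g).mapDomain (Pt.sym ⟨γ, hγ⟩)`. Taking divisors in
`hab` and using `IDiv.div` for `(g, h)` and for `(g', h')` one gets `Y (g' h') = g' (Y h') + Y g'`
(`γ (g D) = g' (γ D)`); `Y` is continuous (if `C g` depends on `g|T` use `γ T`). By `h1div` `Y g' = g' E - E`;
`Q = cl E`. -/
theorem cl_of_fixed {F : Type} [Field F] [Algebra F[X] L] [IsFractionRing F[X] L] [IsAlgClosure L Ω]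
    (h : IDiv b C) (γ : Ω ≃+* Ω) (hγ : γ ∈ Sym (f.map (algebraMap L Ω)))
    (s : F ≃+* F) (hs : ∀ p : F[X], γ (algebraMap L Ω (algebraMap F[X] L p)) =
      algebraMap L Ω (algebraMap F[X] L (p.map (s : F →+* F))))
    (m : ℕ) (a : (Ω ≃ₐ[L] Ω) → (FunField ℓ (f.map (algebraMap L Ω)))ˣ) (ha : IsCts a)
    (hab : ∀ g h g' h' : Ω ≃ₐ[L] Ω, (∀ z, γ (g z) = g' (γ z)) → (∀ z, γ (h z) = h' (γ z)) →
      symU ⟨γ, hγ⟩ (b g h) ^ m * a (g' * h') = b g' h' ^ m * (symU (gs f g') (a h') * a g')) :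
    ∃ Q : Jac ℓ (f.map (algebraMap L Ω)), ∀ g g' : Ω ≃ₐ[L] Ω, (∀ z, γ (g z) = g' (γ z)) →
      m • (symJ ⟨γ, hγ⟩ (cl (C g)) - cl (C g')) = symJ (gs f g') Q - Q := by
  have hL : ∀ z : L, ∃ z' : L, γ (algebraMap L Ω z) = algebraMap L Ω z' := by
    intro z
    obtain ⟨p, q, hq, rfl⟩ := IsFractionRing.div_surjective (A := F[X]) z
    exact ⟨algebraMap F[X] L (p.map (s : F →+* F)) / algebraMap F[X] L (q.map (s : F →+* F)), by
      rw [map_div₀, map_div₀, map_div₀, hs, hs]⟩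
  obtain ⟨κ, hκ⟩ : ∃ κ : (Ω ≃ₐ[L] Ω) → (Ω ≃ₐ[L] Ω), ∀ g z, γ (κ g z) = g (γ z) := by
    have key : ∀ g : Ω ≃ₐ[L] Ω, ∃ k : Ω ≃ₐ[L] Ω, ∀ z, γ (k z) = g (γ z) := by
      intro g
      refine ⟨AlgEquiv.ofRingEquiv (f := (γ.trans (g : Ω ≃+* Ω)).trans γ.symm) ?_, ?_⟩
      · intro z
        obtain ⟨z', hz'⟩ := hL z
        show γ.symm (g (γ (algebraMap L Ω z))) = algebraMap L Ω z
        rw [hz', g.commutes, ← hz', γ.symm_apply_apply]
      · intro z
        exact γ.apply_symm_apply _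
    choose κ hκ using key
    exact ⟨κ, hκ⟩
  have huniq : ∀ g g' : Ω ≃ₐ[L] Ω, (∀ z, γ (g z) = g' (γ z)) → g = κ g' := by
    intro g g' hg
    ext z
    apply γ.injective
    rw [hg, hκ]
  have hmul : ∀ g h, κ (g * h) = κ g * κ h := by
    intro g h
    symm
    refine huniq _ _ fun z => ?_
    rw [AlgEquiv.mul_apply, hκ, hκ, AlgEquiv.mul_apply]
  have hpt : ∀ (g : Ω ≃ₐ[L] Ω) (D : Pt ℓ (f.map (algebraMap L Ω)) →₀ ℤ),
      (D.mapDomain (Pt.sym (gs f (κ g)))).mapDomain (Pt.sym ⟨γ, hγ⟩) =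
        (D.mapDomain (Pt.sym ⟨γ, hγ⟩)).mapDomain (Pt.sym (gs f g)) := by
    intro g D
    rw [← Finsupp.mapDomain_comp, ← Finsupp.mapDomain_comp]
    have e : (Pt.sym (N := ℓ) (⟨γ, hγ⟩ : Sym (f.map (algebraMap L Ω)))) ∘ Pt.sym (gs f (κ g)) =
        Pt.sym (gs f g) ∘ Pt.sym ⟨γ, hγ⟩ := by
      funext P
      exact Pt.ext (hκ g P.x) (hκ g P.y)
    rw [e]
  obtain ⟨Y, hY⟩ : ∃ Y : (Ω ≃ₐ[L] Ω) → (Pt ℓ (f.map (algebraMap L Ω)) →₀ ℤ),
      ∀ g, Y g = m • ((C (κ g)).mapDomain (Pt.sym ⟨γ, hγ⟩) - C g) - Wt.div (a g) :=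
    ⟨_, fun _ => rfl⟩
  have hYc : IsCts Y := by
    have h1 : IsCts fun g => C (κ g) := by
      obtain ⟨T, hT⟩ := h.continuous
      refine ⟨T.image γ, fun g g' hg => hT _ _ fun x hx => ?_⟩
      apply γ.injective
      rw [hκ, hκ]
      exact hg _ (Finset.mem_image_of_mem _ hx)
    have h2 := (h1.comp₂ h.continuous fun x y => m • (x.mapDomain (Pt.sym ⟨γ, hγ⟩) - y)).comp₂ ha
      fun x y => x - Wt.div y
    have h3 : Y = fun g => m • ((C (κ g)).mapDomain (Pt.sym ⟨γ, hγ⟩) - C g) - Wt.div (a g) :=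
      funext hY
    rw [h3]
    exact h2
  have hms : ∀ (σ : Sym (f.map (algebraMap L Ω))) (D D' : Pt ℓ (f.map (algebraMap L Ω)) →₀ ℤ),
      (D - D').mapDomain (Pt.sym σ) = D.mapDomain (Pt.sym σ) - D'.mapDomain (Pt.sym σ) :=
    fun σ D D' => map_sub (Finsupp.mapDomain.addMonoidHom (M := ℤ) (Pt.sym σ)) D D'
  have hmn : ∀ (σ : Sym (f.map (algebraMap L Ω))) (D : Pt ℓ (f.map (algebraMap L Ω)) →₀ ℤ),
      (m • D).mapDomain (Pt.sym σ) = m • D.mapDomain (Pt.sym σ) :=
    fun σ D => map_nsmul (Finsupp.mapDomain.addMonoidHom (M := ℤ) (Pt.sym σ)) m D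
  have hdp : ∀ (u : (FunField ℓ (f.map (algebraMap L Ω)))ˣ), Wt.div (u ^ m) = m • Wt.div u := by
    intro u
    ext P
    rw [Finsupp.smul_apply, div_apply, div_apply, ord_pow, nsmul_eq_mul]
  have hYm : ∀ g g', Y (g * g') = (Y g').mapDomain (Pt.sym (gs f g)) + Y g := by
    intro g g'
    rw [hY, hY, hY, hms, hmn, hms, ← div_symU]
    have h1 := congrArg (Finsupp.mapDomain (Pt.sym (N := ℓ) ⟨γ, hγ⟩)) (h.div (κ g) (κ g'))
    rw [Finsupp.mapDomain_add, Finsupp.mapDomain_add, ← div_symU, ← hmul, hpt] at h1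
    have h2 := h.div g g'
    have h3 := congrArg Wt.div (hab (κ g) (κ g') g g' (hκ g) (hκ g'))
    rw [Wt.div_mul, Wt.div_mul, Wt.div_mul, hdp, hdp] at h3
    exact opsc_aux m h1 h2 h3
  obtain ⟨E, hE⟩ := h1div hYc hYm
  refine ⟨cl E, fun g g' hg => ?_⟩
  rw [huniq g g' hg]
  have h1 := congrArg cl (hE g')
  rw [hY, map_sub, cl_div, sub_zero, map_sub, map_nsmul, map_sub, ← symJ_cl, ← symJ_cl] at h1
  exact h1

private lemma opsd_const {E : Type} [Field E] {N : ℕ} {f : E[X]} [hG : IsGood N f]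
    (h : (FunField N f)ˣ) (hh : div h = 0) : ∃ c : Eˣ, h = cstU c := by
  have := hG.alg
  have hne : NeZero (N : E) := ⟨hG.ne_zero⟩
  obtain ⟨ζ, hζ⟩ := HasEnoughRootsOfUnity.exists_primitiveRoot E N
  have hdg : dg (div h) = 0 := by rw [hh, dg, Finsupp.sum_zero_index]
  have hord : ∀ P, ord P h = 0 := fun P => by
    rw [← div_apply, hh]
    rfl
  obtain ⟨c, hc | ⟨w, hw, hwd⟩⟩ := exists_const_of_dg_eq_zero ζ hζ h hdg
  · have hc0 : c ≠ 0 := by
      rintro rfl
      exact h.ne_zero (by rw [hc, map_zero])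
    exact ⟨Units.mk0 c hc0, Units.ext hc⟩
  · exfalso
    have hwn : ∀ P, 0 ≤ ord P w := by
      intro P
      by_cases hc0 : c = 0
      · have hwu : w = h := Units.ext (by rw [hw, hc0, map_zero, sub_zero])
        rw [hwu, hord]
      · have h5 := ord_add P h (cstU (Units.mk0 (-c) (neg_ne_zero.2 hc0))) w (by
                rw [hw, cstU, Units.coe_map, Units.val_mk0, MonoidHom.coe_coe, map_neg,
                  sub_eq_add_neg])
        rw [hord, ord_cstU, min_self] at h5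
        exact h5
    refine absurd hwd (not_lt.2 ?_)
    exact Finset.sum_nonneg fun P _ => hwn P

private lemma opsd_cstU_inj {E : Type} [Field E] {N : ℕ} {f : E[X]} [hG : IsGood N f]
    {c d : Eˣ} (h : (cstU c : (FunField N f)ˣ) = cstU d) : c = d := by
  have h1 : (cst (c : E) : FunField N f) = cst (d : E) := congrArg Units.val h
  exact Units.ext ((cst : E →+* FunField N f).injective h1)

private lemma opsd_map {E : Type} [Field E] {f : E[X]}
    (p : E[X]) : ∃ T : Finset E, ∀ σ τ : Sym f,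
      (∀ x ∈ T, (σ : E ≃+* E) x = (τ : E ≃+* E) x) →
      p.map ((σ : E ≃+* E) : E →+* E) = p.map ((τ : E ≃+* E) : E →+* E) := by
  refine ⟨p.support.image p.coeff, fun σ τ h => ?_⟩
  ext n
  rw [coeff_map, coeff_map]
  by_cases hn : n ∈ p.support
  · exact h _ (Finset.mem_image_of_mem _ hn)
  · rw [notMem_support_iff.mp hn, map_zero, map_zero]

private lemma opsd_symE {E : Type} [Field E] {N : ℕ} {f : E[X]} [hG : IsGood N f]
    (a : NRing N f) (p : ℕ → E[X])
    (ha : a = ∑ i ∈ Finset.range N, ofPoly (p i) * yy ^ i) : ∃ T : Finset E, ∀ σ τ : Sym f,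
      (∀ x ∈ T, (σ : E ≃+* E) x = (τ : E ≃+* E) x) → symE N σ a = symE N τ a := by
  choose T hT using fun i => opsd_map (f := f) (p i)
  refine ⟨(Finset.range N).biUnion T, fun σ τ h => ?_⟩
  rw [ha, map_sum, map_sum]
  refine Finset.sum_congr rfl fun i hi => ?_
  rw [map_mul, map_mul, map_pow, map_pow, R07_symE_yy, R07_symE_yy, R07_symE_ofPoly,
    R07_symE_ofPoly, hT i σ τ fun x hx => h x (Finset.mem_biUnion.mpr ⟨i, hi, hx⟩)]

private lemma opsd_symU {E : Type} [Field E] {N : ℕ} {f : E[X]} [hG : IsGood N f]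
    (u : (FunField N f)ˣ) : ∃ T : Finset E, ∀ σ τ : Sym f,
      (∀ x ∈ T, (σ : E ≃+* E) x = (τ : E ≃+* E) x) → symU σ u = symU τ u := by
  obtain ⟨a, b, p, q, hb0, hp, hq, hab⟩ := exists_quot (u : FunField N f)
  obtain ⟨T, hT⟩ := opsd_symE a p hp
  obtain ⟨T', hT'⟩ := opsd_symE b q hq
  refine ⟨T ∪ T', fun σ τ h => ?_⟩
  have h1 := hT σ τ fun x hx => h x (Finset.mem_union_left _ hx)
  have h2 := hT' σ τ fun x hx => h x (Finset.mem_union_right _ hx)
  ext
  change autF (symE N σ) (u : FunField N f) = autF (symE N τ) (u : FunField N f)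
  rw [← hab, map_div₀, map_div₀, autF_algebraMap, autF_algebraMap, autF_algebraMap,
    autF_algebraMap, h1, h2]

private lemma opsd_symE_mul {E : Type} [Field E] {N : ℕ} {f : E[X]} [hG : IsGood N f]
    (σ τ : Sym f) (a : NRing N f) (p : ℕ → E[X])
    (ha : a = ∑ i ∈ Finset.range N, ofPoly (p i) * yy ^ i) :
    symE N (σ * τ) a = symE N σ (symE N τ a) := by
  rw [ha, map_sum, map_sum, map_sum]
  refine Finset.sum_congr rfl fun i _ => ?_
  rw [map_mul, map_mul, map_mul, map_pow, map_pow, map_pow, R07_symE_yy, R07_symE_yy,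
    R07_symE_yy, R07_symE_ofPoly, R07_symE_ofPoly, R07_symE_ofPoly, Polynomial.map_map]
  rfl

private lemma opsd_symU_mul {E : Type} [Field E] {N : ℕ} {f : E[X]} [hG : IsGood N f]
    (σ τ : Sym f) (u : (FunField N f)ˣ) : symU (σ * τ) u = symU σ (symU τ u) := by
  obtain ⟨a, b, p, q, hb0, hp, hq, hab⟩ := exists_quot (u : FunField N f)
  ext
  change autF (symE N (σ * τ)) (u : FunField N f) =
    autF (symE N σ) (autF (symE N τ) (u : FunField N f))
  rw [← hab, map_div₀, map_div₀, map_div₀, autF_algebraMap, autF_algebraMap, autF_algebraMap,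
    autF_algebraMap, autF_algebraMap, autF_algebraMap, opsd_symE_mul σ τ a p hp,
    opsd_symE_mul σ τ b q hq]

private lemma opsd_stable {L Ω : Type} [Field L] [Field Ω] [Algebra L Ω] [IsAlgClosure L Ω]
    (T : Finset Ω) : ∃ T' : Finset Ω, T ⊆ T' ∧ ∀ g : Ω ≃ₐ[L] Ω, ∀ x ∈ T', g x ∈ T' := by
  have hint : ∀ x : Ω, IsIntegral L x := fun x =>
    (IsAlgClosure.isAlgebraic.isAlgebraic x).isIntegral
  refine ⟨T.biUnion fun x => ((minpoly L x).aroots Ω).toFinset, fun x hx => ?_, fun g x hx => ?_⟩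
  · refine Finset.mem_biUnion.mpr ⟨x, hx, ?_⟩
    rw [Multiset.mem_toFinset, mem_aroots]
    exact ⟨minpoly.ne_zero (hint x), minpoly.aeval L x⟩
  · obtain ⟨y, hy, hxy⟩ := Finset.mem_biUnion.mp hx
    refine Finset.mem_biUnion.mpr ⟨y, hy, ?_⟩
    rw [Multiset.mem_toFinset, mem_aroots] at hxy ⊢
    refine ⟨hxy.1, ?_⟩
    have h1 : aeval (g x) (minpoly L y) = g (aeval x (minpoly L y)) :=
      aeval_algHom_apply (g : Ω →ₐ[L] Ω) x _
    rw [h1, hxy.2, map_zero]

private lemma opsd_cocycle {G : Type} [CommGroup G] {b1 b2 b3 b4 A B C D E F c1 c2 c3 c4 : G}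
    (H1 : b1 * B = c1 * (D * A)) (H2 : b2 * C = c2 * (E * B)) (H3 : b3 * F = c3 * (E * D))
    (H4 : b4 * C = c4 * (F * A)) (H5 : b1 * b2 = b3 * b4) : c1 * c2 = c3 * c4 := by
  refine mul_right_cancel (b := D * A * E * B * F) ?_
  calc c1 * c2 * (D * A * E * B * F) = (c1 * (D * A)) * (c2 * (E * B)) * F := by ac_rfl
    _ = (b1 * B) * (b2 * C) * F := by rw [H1, H2]
    _ = (b1 * b2) * (B * C * F) := by ac_rfl
    _ = (b3 * b4) * (B * C * F) := by rw [H5]
    _ = (b3 * F) * (b4 * C) * B := by ac_rfl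
    _ = (c3 * (E * D)) * (c4 * (F * A)) * B := by rw [H3, H4]
    _ = c3 * c4 * (D * A * E * B * F) := by ac_rfl

/-- If the class of `C` is trivial then so is the class of `b` up to a multiple prime to `ℓ`. PROOF. Let `cl E = Q`
(`cl_surjective`). By `IDiv.add_coboundary` (with `-E`) we may suppose `cl (C g) = 0` for all `g`; let `C g = div (μ (C g))`,
where `μ D` is a function chosen for all divisors `D` of class `0` (`exists_div_of_cl_eq_zero`), so `g ↦ μ (C g)` is
continuous. `β g h = b g h * μ (gh) / (g (μ h) * μ g)` has divisor `0`, so it is a constant (`div h = 0` implies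
`h = cstU c`: see `r17_cl_fixed` in `Wt/W17.lean` and `exists_const_of_dg_eq_zero` in `Wt/W13.lean`), `β` is a continuous cocycle
with values in `Ωˣ` (`cstU` is injective, `symU_cstU`); apply `hBr` and multiply by the cochain `μ ^ m`. -/
theorem icob_of_cl_strong [IsAlgClosure L Ω] (hBr : BrTriv ℓ L Ω) (hb : ICoc b) (h : IDiv b C)
    (Q : Jac ℓ (f.map (algebraMap L Ω))) (hQ : ∀ g, cl (C g) = symJ (gs f g) Q - Q) :
    ∃ (m : ℕ) (E : Pt ℓ (f.map (algebraMap L Ω)) →₀ ℤ)
      (a : (Ω ≃ₐ[L] Ω) → (FunField ℓ (f.map (algebraMap L Ω)))ˣ), m.Coprime ℓ ∧ cl E = Q ∧ IsCts a ∧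
      (∀ g h, b g h ^ m * a (g * h) = symU (gs f g) (a h) * a g) ∧
      ∀ g, div (a g) = m • (C g - (E.mapDomain (Pt.sym (gs f g)) - E)) := by
  obtain ⟨E, hE⟩ := cl_surjective Q
  have h' := h.add_coboundary (-E)
  have hcl : ∀ g, (cl (C g + ((-E).mapDomain (Pt.sym (gs f g)) - (-E))) :
      Jac ℓ (f.map (algebraMap L Ω))) = 0 := by
    intro g
    rw [map_add, map_sub, ← symJ_cl, hQ g, map_neg, hE, map_neg]
    abel
  have hμ : ∀ D : Pt ℓ (f.map (algebraMap L Ω)) →₀ ℤ,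
      ∃ u : (FunField ℓ (f.map (algebraMap L Ω)))ˣ, cl D = 0 → div u = D := by
    intro D
    by_cases hD : cl D = 0
    · obtain ⟨u, hu⟩ := exists_div_of_cl_eq_zero D hD
      exact ⟨u, fun _ => hu⟩
    · exact ⟨1, fun h => absurd h hD⟩
  choose μ hμ using hμ
  obtain ⟨a, hadef⟩ : ∃ a : (Ω ≃ₐ[L] Ω) → (FunField ℓ (f.map (algebraMap L Ω)))ˣ,
      a = fun g => μ (C g + ((-E).mapDomain (Pt.sym (gs f g)) - (-E))) := ⟨_, rfl⟩
  have ha : IsCts a := by
    rw [hadef]
    exact h'.continuous.comp μ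
  have hda : ∀ g, div (a g) = C g + ((-E).mapDomain (Pt.sym (gs f g)) - (-E)) := by
    intro g
    rw [hadef]
    exact hμ _ (hcl g)
  have hc : ∀ g h, ∃ c : Ωˣ, b g h * a (g * h) = cstU c * (symU (gs f g) (a h) * a g) := by
    intro g h
    obtain ⟨c, hc⟩ := opsd_const (b g h * a (g * h) * (symU (gs f g) (a h) * a g)⁻¹) (by
      rw [Wt.div_mul, Wt.div_inv, Wt.div_mul, Wt.div_mul, div_symU, hda h, hda g]
      have e1 := h'.div g h
      rw [← hda (g * h)] at e1
      rw [e1]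
      exact add_neg_cancel _)
    exact ⟨c, by rw [← hc, inv_mul_cancel_right]⟩
  choose c hc using hc
  have hcoc : IsCocycle c := by
    refine ⟨fun g h j => ?_, ?_⟩
    · have e3 := congrArg (symU (gs f g)) (hc h j)
      rw [map_mul, map_mul, map_mul, symU_cstU] at e3
      have e2 := hc (g * h) j
      have hgh : symU (gs f (g * h)) (a j) = symU (gs f g) (symU (gs f h) (a j)) := by
        rw [map_mul, opsd_symU_mul]
      rw [hgh, mul_assoc g h j] at e2
      have e4 := hc g (h * j)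
      have key := opsd_cocycle (hc g h) e2 e3 e4 (hb.cocycle g h j)
      rw [← map_mul, ← map_mul] at key
      have key2 := opsd_cstU_inj key
      exact congrArg Units.val key2
    · obtain ⟨Tb, hTb⟩ := hb.continuous
      obtain ⟨Ta, hTa⟩ := ha
      obtain ⟨Ta', hsub, hst⟩ := opsd_stable (L := L) Ta
      have hfin : (Set.range a).Finite := IsCts.finite_range ⟨Ta, hTa⟩
      choose Tu hTu using fun u : (FunField ℓ (f.map (algebraMap L Ω)))ˣ =>
        opsd_symU u
      refine ⟨Tb ∪ Ta' ∪ hfin.toFinset.biUnion Tu, fun g g' h h' hg hh => ?_⟩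
      have e1 : b g h = b g' h' := hTb _ _ _ _
        (fun x hx => hg x (Finset.mem_union_left _ (Finset.mem_union_left _ hx)))
        (fun x hx => hh x (Finset.mem_union_left _ (Finset.mem_union_left _ hx)))
      have hg2 : ∀ x ∈ Ta', g x = g' x := fun x hx =>
        hg x (Finset.mem_union_left _ (Finset.mem_union_right _ hx))
      have hh2 : ∀ x ∈ Ta', h x = h' x := fun x hx =>
        hh x (Finset.mem_union_left _ (Finset.mem_union_right _ hx))
      have e2 : a (g * h) = a (g' * h') := hTa _ _ fun x hx => by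
        rw [AlgEquiv.mul_apply, AlgEquiv.mul_apply, hh2 x (hsub hx)]
        exact hg2 _ (hst h' x (hsub hx))
      have e3 : a g = a g' := hTa _ _ fun x hx => hg2 x (hsub hx)
      have e4 : a h = a h' := hTa _ _ fun x hx => hh2 x (hsub hx)
      have e5 : symU (gs f g) (a h) = symU (gs f g') (a h) := by
        refine hTu (a h) _ _ fun x hx => hg x (Finset.mem_union_right _ ?_)
        exact Finset.mem_biUnion.mpr ⟨a h, hfin.mem_toFinset.mpr ⟨h, rfl⟩, hx⟩
      have h1 := hc g h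
      have h2 := hc g' h'
      rw [e1, e2, e3, e5, e4] at h1
      exact opsd_cstU_inj (mul_right_cancel (h1.symm.trans h2))
  obtain ⟨m, hm, e, he, hce⟩ := hBr c hcoc
  have hdp : ∀ u : (FunField ℓ (f.map (algebraMap L Ω)))ˣ, div (u ^ m) = m • div u := by
    intro u
    ext P
    rw [Wt.div_apply, ord_pow, Finsupp.smul_apply, Wt.div_apply, nsmul_eq_mul]
  refine ⟨m, E, fun g => cstU (e g) * a g ^ m, hm, hE, he.comp₂ ha fun x y => cstU x * y ^ m, ?_,
    fun g => by
      rw [Wt.div_mul, div_cstU, zero_add, hdp, hda g, opsa_neg]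
      congr 1
      abel⟩
  intro g h
  have h1 : c g h ^ m * e (g * h) = Units.map ((gs f g : Ω ≃+* Ω) : Ω →* Ω) (e h) * e g :=
    Units.ext (hce g h)
  have h2 : (cstU (c g h) : (FunField ℓ (f.map (algebraMap L Ω)))ˣ) ^ m * cstU (e (g * h)) =
      symU (gs f g) (cstU (e h)) * cstU (e g) := by
    rw [← map_pow, ← map_mul, h1, map_mul, symU_cstU]
  rw [map_mul, map_pow]
  calc b g h ^ m * (cstU (e (g * h)) * a (g * h) ^ m)
      = (b g h * a (g * h)) ^ m * cstU (e (g * h)) := by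
        rw [mul_pow]
        ac_rfl
    _ = (cstU (c g h) ^ m * cstU (e (g * h))) * (symU (gs f g) (a h) * a g) ^ m := by
        rw [hc g h, mul_pow]
        ac_rfl
    _ = symU (gs f g) (cstU (e h)) * symU (gs f g) (a h) ^ m * (cstU (e g) * a g ^ m) := by
        rw [h2, mul_pow]
        ac_rfl

theorem icob_of_cl [IsAlgClosure L Ω] (hBr : BrTriv ℓ L Ω) (hb : ICoc b) (h : IDiv b C)
    (Q : Jac ℓ (f.map (algebraMap L Ω))) (hQ : ∀ g, cl (C g) = symJ (gs f g) Q - Q) :
    ∃ m : ℕ, m.Coprime ℓ ∧ ICob fun g h => b g h ^ m := by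
  obtain ⟨m, E, a, hm, -, ha, hab, -⟩ := icob_of_cl_strong hBr hb h Q hQ
  exact ⟨m, hm, a, ha, hab⟩

end Internal

section Inflation

variable {K S : Type} [Field K] [Field S] [Algebra K S]
  {L Ω : Type} [Field L] [Field Ω] [Algebra L Ω] {ℓ : ℕ} {f : L[X]}
  {F : Type} [Field F] [Algebra F K] [Algebra F[X] L]
  [IsAlgClosed F] [IsAlgClosure K S] [IsFractionRing F[X] L] [IsAlgClosure L Ω]
  [hG : IsGood ℓ (f.map (algebraMap L Ω))] {t x y : K}
  {Φ : FunField ℓ (f.map (algebraMap L Ω)) →+* S}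

/-- `isCts_res`, `res_symU`, `map_mul`. -/
lemma ICob.infl {b : (Ω ≃ₐ[L] Ω) → (Ω ≃ₐ[L] Ω) → (FunField ℓ (f.map (algebraMap L Ω)))ˣ}
    (hΦ : IsModel F t x y Φ) (hb : ICob b) : IsCoboundary (Bra.infl hΦ b) := by
  obtain ⟨a, ha, hab⟩ := hb
  refine ⟨fun g => Units.map (Φ : _ →* S) (a (res hΦ g)), (isCts_res hΦ ha).comp _, ?_⟩
  intro g j
  have h1 := congrArg (fun u : (FunField ℓ (f.map (algebraMap L Ω)))ˣ =>
    Φ (u : FunField ℓ (f.map (algebraMap L Ω)))) (hab (res hΦ g) (res hΦ j))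
  have h2 := res_symU hΦ g (a (res hΦ j))
  rw [← map_mul] at h1
  show Φ (b (res hΦ g) (res hΦ j) : FunField ℓ (f.map (algebraMap L Ω))) *
      Φ (a (res hΦ (g * j)) : FunField ℓ (f.map (algebraMap L Ω))) =
    g (Φ (a (res hΦ j) : FunField ℓ (f.map (algebraMap L Ω)))) *
      Φ (a (res hΦ g) : FunField ℓ (f.map (algebraMap L Ω)))
  rw [h2, ← map_mul, ← map_mul]
  exact h1

end Inflation

end Pool.Agent.Lib.MP_89bcae_ag.Bra

end
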