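import Mathlib
import Pool.Agent.Lib.MP_89bcae_ag.Bk.K022
import Pool.Agent.Lib.MP_89bcae_ag.Bk.K036

namespace Pool.Agent.Lib.MP_89bcae_ag.Wt
end Pool.Agent.Lib.MP_89bcae_ag.Wt
namespace Pool.Agent.Lib.MP_89bcae_ag.Wt.Lns
end Pool.Agent.Lib.MP_89bcae_ag.Wt.Lns

section

/-!
ROW A02 (60-120 lines). Commuting endomorphisms `n` of a finite vector space over `ZMod ℓ` with
`n ^ ℓ = n` have a common eigenvector.

PROOF. Let `W` be a nonzero submodule stable under all the `n i`, with the smallest number of elements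
(`V` is finite). For each `i`, the polynomial `X^ℓ - X = ∏_{c} (X - c)` over `ZMod ℓ` kills `n i`, so
some `n i - c` is not injective on `W` (else the product would be injective and zero on `W ≠ 0`).
Its kernel in `W` is stable under all `n j` (they commute), nonzero, so equal to `W` by minimality:
`n i` is the scalar `c = a i` on `W`. Take any nonzero `x` in `W`.
-/

open Polynomial in
/-- the factorisation of `X^ℓ - X` -/
private lemma A02_prod (ℓ : ℕ) [Fact ℓ.Prime] :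
    (∏ c : ZMod ℓ, (X - C c) : (ZMod ℓ)[X]) = X ^ ℓ - X := by
  have hℓ : 1 < ℓ := (Fact.out : ℓ.Prime).one_lt
  have hr := FiniteField.roots_X_pow_card_sub_X (ZMod ℓ)
  rw [ZMod.card] at hr
  have hm : (X ^ ℓ - X : (ZMod ℓ)[X]).Monic :=
    monic_X_pow_sub (by rw [degree_X]; exact_mod_cast hℓ)
  have hd := FiniteField.X_pow_card_sub_X_natDegree_eq (ZMod ℓ) hℓ
  have hc : (X ^ ℓ - X : (ZMod ℓ)[X]).roots.card = (X ^ ℓ - X : (ZMod ℓ)[X]).natDegree := by
    rw [hr, hd]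
    change (Finset.univ : Finset (ZMod ℓ)).card = ℓ
    rw [Finset.card_univ, ZMod.card]
  have h := prod_multiset_X_sub_C_of_monic_of_roots_card_eq hm hc
  rw [hr] at h
  exact h

namespace Pool.Agent.Lib.MP_89bcae_ag.Sup

open Polynomial in
private lemma A02_eig {R V : Type*} [CommRing R] [AddCommGroup V] [Module R V]
    (f : V →ₗ[R] V) (W : Submodule R V) (hW : ∀ x ∈ W, f x ∈ W) (s : Finset R) :
    ∀ y ∈ W, y ≠ 0 → (aeval f (∏ c ∈ s, (X - C c : R[X]))) y = 0 →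
      ∃ c : R, ∃ z ∈ W, z ≠ 0 ∧ f z = c • z := by
  classical
  induction s using Finset.induction_on with
  | empty =>
    intro y _ hy0 h
    exfalso
    rw [Finset.prod_empty, map_one] at h
    exact hy0 h
  | insert c s hc ih =>
    intro y hy hy0 h
    rw [Finset.prod_insert hc, mul_comm, map_mul] at h
    have e : aeval f (X - C c : R[X]) y = f y - c • y := by
      rw [map_sub, aeval_X, aeval_C]
      rfl
    change aeval f (∏ c ∈ s, (X - C c : R[X])) (aeval f (X - C c : R[X]) y) = 0 at h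
    rw [e] at h
    by_cases hz : f y - c • y = 0
    · exact ⟨c, y, hy, hy0, sub_eq_zero.1 hz⟩
    · exact ih _ (W.sub_mem (hW y hy) (W.smul_mem c hy)) hz h

lemma exists_common_eigenvector {ℓ : ℕ} [Fact ℓ.Prime] {V I : Type*} [AddCommGroup V]
    [Module (ZMod ℓ) V] [Finite V] (n : I → V →ₗ[ZMod ℓ] V) (hcomm : ∀ i j, n i * n j = n j * n i)
    (hpow : ∀ i, n i ^ ℓ = n i) (hV : ∃ x : V, x ≠ 0) :
    ∃ x : V, x ≠ 0 ∧ ∃ a : I → ZMod ℓ, ∀ i, n i x = a i • x := by
  classical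
  haveI : Finite (Submodule (ZMod ℓ) V) :=
    Finite.of_injective (fun W : Submodule (ZMod ℓ) V => (W : Set V)) SetLike.coe_injective
  set S : Set (Submodule (ZMod ℓ) V) := {W | (∃ x ∈ W, x ≠ 0) ∧ ∀ i, ∀ x ∈ W, n i x ∈ W} with hS
  have hSne : S.Nonempty := by
    obtain ⟨x, hx⟩ := hV
    exact ⟨⊤, ⟨x, Submodule.mem_top, hx⟩, fun i x _ => Submodule.mem_top⟩
  obtain ⟨W, ⟨⟨x, hxW, hx0⟩, hWst⟩, hmin⟩ := (Set.toFinite S).exists_minimal hSne
  refine ⟨x, hx0, ?_⟩
  have key : ∀ i, ∃ c : ZMod ℓ, ∀ y ∈ W, n i y = c • y := by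
    intro i
    have h0 : (Polynomial.aeval (n i) (∏ c : ZMod ℓ, (Polynomial.X - Polynomial.C c))) x = 0 := by
      rw [A02_prod, map_sub, map_pow, Polynomial.aeval_X, hpow i, sub_self]
      rfl
    obtain ⟨c, z, hzW, hz0, hz⟩ := A02_eig (n i) W (hWst i) Finset.univ x hxW hx0 h0
    refine ⟨c, ?_⟩
    set W' : Submodule (ZMod ℓ) V := W ⊓ LinearMap.ker (n i - c • LinearMap.id) with hW'
    have hmem : ∀ y, y ∈ W' ↔ y ∈ W ∧ n i y = c • y := fun y => by
      rw [hW', Submodule.mem_inf, LinearMap.mem_ker]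
      simp only [LinearMap.sub_apply, LinearMap.smul_apply, LinearMap.id_apply, sub_eq_zero]
    have hW'S : W' ∈ S := by
      refine ⟨⟨z, (hmem z).2 ⟨hzW, hz⟩, hz0⟩, fun j y hy => ?_⟩
      rw [hmem] at hy ⊢
      refine ⟨hWst j y hy.1, ?_⟩
      have e1 : n i (n j y) = n j (n i y) := by
        have := LinearMap.congr_fun (hcomm i j) y
        exact this
      rw [e1, hy.2, map_smul]
    have hle : W ≤ W' := hmin hW'S inf_le_left
    intro y hy
    exact ((hmem y).1 (hle hy)).2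
  choose a ha using key
  exact ⟨a, fun i => ha i x hxW⟩

end Pool.Agent.Lib.MP_89bcae_ag.Sup

end

section

/-!
# Change of the base field in the statement on invariant classes
-/

open Polynomial IsDedekindDomain

open scoped Classical

set_option linter.unusedSimpArgs false
set_option linter.unusedVariables false
set_option linter.unusedSectionVars false
set_option linter.style.haveILetI false

namespace Pool.Agent.Lib.MP_89bcae_ag.Superelliptic

universe u


variable {k K F L Ω : Type u} [Field k] [Field K] [Field F] [Algebra k K] [Algebra K F]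
  [Algebra k F] [IsScalarTower k K F] [Field L] [Algebra F[X] L] [IsFractionRing F[X] L] [Field Ω]
  [Algebra L Ω]

lemma base_map8 {A : Type u} [Field A] [Algebra L A] (p : k[X]) :
    base K F L A (p.map (algebraMap k K)) = base k F L A p := by
  show algebraMap L A (algebraMap F[X] L ((p.map (algebraMap k K)).map (algebraMap K F))) =
    algebraMap L A (algebraMap F[X] L (p.map (algebraMap k F)))
  rw [Polynomial.map_map, ← IsScalarTower.algebraMap_eq]


/-- Every finite extension of `k` is contained in a finite extension of `K`. -/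
theorem exists_finite8 [Algebra.IsAlgebraic K F] (k' : IntermediateField k F)
    [FiniteDimensional k k'] :
    ∃ K' : IntermediateField K F, FiniteDimensional K K' ∧ ∀ x ∈ k', x ∈ K' := by
  let b := Module.finBasis k k'
  refine ⟨IntermediateField.adjoin K (Set.range fun i => ((b i : k') : F)),
    IntermediateField.finiteDimensional_adjoin fun x _ => Algebra.IsIntegral.isIntegral x,
    fun x hx => ?_⟩
  have h1 := congrArg (Subtype.val : k' → F) (b.sum_repr ⟨x, hx⟩)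
  have h2 : ((∑ i, b.repr ⟨x, hx⟩ i • b i : k') : F) =
      ∑ i, algebraMap K F (algebraMap k K (b.repr ⟨x, hx⟩ i)) * ((b i : k') : F) := by
    rw [AddSubmonoidClass.coe_finsetSum]
    refine Finset.sum_congr rfl fun i _ => ?_
    rw [← IsScalarTower.algebraMap_apply, ← Algebra.smul_def]
    rfl
  rw [h2] at h1
  have h3 : x = ∑ i, algebraMap K F (algebraMap k K (b.repr ⟨x, hx⟩ i)) * ((b i : k') : F) :=
    h1.symm
  rw [h3]
  exact sum_mem fun i _ => mul_mem (IntermediateField.algebraMap_mem _ _)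
    (IntermediateField.subset_adjoin K _ ⟨i, rfl⟩)

end Pool.Agent.Lib.MP_89bcae_ag.Superelliptic

end

section

/-!
ROW A03 (150-300 lines). The abstract eigenvector theorem.

Setting: `H` abelian group with an endomorphism `Z`, `∑_{i<ℓ} Z^i = 0`, and an action of a group `G`
commuting with `Z`; `p = 1 - Z` is injective and `⋂ p^n H = 0`; `e : H → (ι → ZMod ℓ)`, `ι` finite,
additive with kernel `p H`; `e (u • x) = e x`; each `u` has finite order on each `x`; `H ≠ 0`.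
CONCLUSION: there are `x` with `e x ≠ 0` and `a : G → ZMod ℓ` such that for all `u`:
`u • x - x = p y` implies `e y = a u • e x`.

PROOF. For `u` in `G` and `x` in `H`, `e (u x - x) = 0`, so `u x - x = p (N_u x)` for a unique
`N_u x`; `N_u` is an endomorphism of `H` commuting with `Z`.
(a) The subring `B` of `End H` generated by `Z` and `N_u` is commutative; `fst_case` in `B`
(`W = 1 + p N_u` = action of `u`, of finite order on `x`) gives `(N_u^ℓ - N_u) x ∈ p H`, so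
`e (N_u^ℓ x) = e (N_u x)`.
(b) For `u`, `u'` let `c = u u' u⁻¹ u'⁻¹` and `Y = [N_u, N_{u'}] (u' u)⁻¹` in `End H` : `p² [N_u, N_{u'}] =
u u' - u' u` (as operators) `= (c - 1) u' u`, so `c = 1 + p² Y` as an operator; `Y` commutes with
`Z`; `B` generated by `Z` and `Y`; `c` has finite order on each `x`, so `Y x = 0` by `sq_case` for
all `x`: `N_u N_{u'} = N_{u'} N_u`.
(c) `V = e(H)` (a finite `ZMod ℓ`-module, the range of `e`), `n_u : V → V` induced by `N_u`
(`N_u p H ⊆ p H`). They commute and `n_u^ℓ = n_u`. `V ≠ 0`: otherwise `H = p H`, so every element is in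
`⋂ p^n H = 0`. Apply `exists_common_eigenvector`.
-/

open Polynomial

namespace Pool.Agent.Lib.MP_89bcae_ag.Sup

section A03

variable {ℓ : ℕ} {H : Type*} [AddCommGroup H]

private lemma A03_comm {z Y : Module.End ℤ H} (hc : z * Y = Y * z) :
    ∀ a ∈ ({z, Y} : Set (Module.End ℤ H)), ∀ b ∈ ({z, Y} : Set (Module.End ℤ H)),
      a * b = b * a := by
  rintro a (rfl | rfl) b (rfl | rfl)
  · rfl
  · exact hc
  · exact hc.symm
  · rfl

private lemma A03_sq (hℓ : ℓ.Prime) (z Y : Module.End ℤ H) (hc : z * Y = Y * z)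
    (hz : ∑ i ∈ Finset.range ℓ, z ^ i = 0) (hinj : ∀ x : H, (1 - z) x = 0 → x = 0)
    (hsep : ∀ x : H, (∀ n : ℕ, ∃ y : H, x = ((1 - z) ^ n) y) → x = 0)
    (x : H) (M : ℕ) (hM : 0 < M)
    (hx : ((1 + (1 - z) ^ 2 * Y) ^ M : Module.End ℤ H) x = x) : Y x = 0 := by
  letI instB : CommRing (Algebra.adjoin ℤ ({z, Y} : Set (Module.End ℤ H))) :=
    { (inferInstance : Ring (Algebra.adjoin ℤ ({z, Y} : Set (Module.End ℤ H)))) with
      mul_comm := (Algebra.isMulCommutative_adjoin ℤ (A03_comm hc)).is_comm.comm }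
  let zB : Algebra.adjoin ℤ ({z, Y} : Set (Module.End ℤ H)) :=
    ⟨z, Algebra.subset_adjoin (Or.inl rfl)⟩
  let YB : Algebra.adjoin ℤ ({z, Y} : Set (Module.End ℤ H)) :=
    ⟨Y, Algebra.subset_adjoin (Or.inr rfl)⟩
  have hzB : ∑ i ∈ Finset.range ℓ, zB ^ i = 0 := by
    apply Subtype.ext
    push_cast
    exact hz
  exact sq_case (B := Algebra.adjoin ℤ ({z, Y} : Set (Module.End ℤ H))) (H := H) hℓ zB hzB
    (fun x hx => hinj x hx) (fun x hx => hsep x hx) YB x M hM hx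

private lemma A03_fst (hℓ : ℓ.Prime) (z N : Module.End ℤ H) (hc : z * N = N * z)
    (hz : ∑ i ∈ Finset.range ℓ, z ^ i = 0) (hinj : ∀ x : H, (1 - z) x = 0 → x = 0)
    (hsep : ∀ x : H, (∀ n : ℕ, ∃ y : H, x = ((1 - z) ^ n) y) → x = 0)
    (x : H) (M : ℕ) (hM : 0 < M)
    (hx : ((1 + (1 - z) * N) ^ M : Module.End ℤ H) x = x) :
    ∃ y : H, (N ^ ℓ - N) x = (1 - z) y := by
  letI instB : CommRing (Algebra.adjoin ℤ ({z, N} : Set (Module.End ℤ H))) :=
    { (inferInstance : Ring (Algebra.adjoin ℤ ({z, N} : Set (Module.End ℤ H)))) with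
      mul_comm := (Algebra.isMulCommutative_adjoin ℤ (A03_comm hc)).is_comm.comm }
  let zB : Algebra.adjoin ℤ ({z, N} : Set (Module.End ℤ H)) :=
    ⟨z, Algebra.subset_adjoin (Or.inl rfl)⟩
  let NB : Algebra.adjoin ℤ ({z, N} : Set (Module.End ℤ H)) :=
    ⟨N, Algebra.subset_adjoin (Or.inr rfl)⟩
  have hzB : ∑ i ∈ Finset.range ℓ, zB ^ i = 0 := by
    apply Subtype.ext
    push_cast
    exact hz
  exact fst_case (B := Algebra.adjoin ℤ ({z, N} : Set (Module.End ℤ H))) (H := H) hℓ zB hzB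
    (fun x hx => hinj x hx) (fun x hx => hsep x hx) NB x M hM hx

end A03

theorem exists_eigen {ℓ : ℕ} [Fact ℓ.Prime] {H G ι : Type*} [AddCommGroup H] [Group G]
    [DistribMulAction G H] [Finite ι] (Z : H →+ H)
    (hZ : ∀ x, ∑ i ∈ Finset.range ℓ, Z^[i] x = 0) (hZG : ∀ (u : G) x, Z (u • x) = u • Z x)
    (hinj : ∀ x, Z x = x → x = 0)
    (hsep : ∀ x : H, (∀ n : ℕ, ∃ y : H, x = (fun h => h - Z h)^[n] y) → x = 0)
    (e : H →+ (ι → ZMod ℓ)) (he : ∀ x, e x = 0 ↔ ∃ y, x = y - Z y)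
    (hGe : ∀ (u : G) x, e (u • x) = e x)
    (hfin : ∀ (u : G) (x : H), ∃ M : ℕ, 0 < M ∧ u ^ M • x = x) (hne : ∃ x : H, x ≠ 0) :
    ∃ x : H, e x ≠ 0 ∧ ∃ a : G → ZMod ℓ, ∀ u y, u • x - x = y - Z y → e y = a u • e x := by
  classical
  have hℓ : ℓ.Prime := Fact.out
  set z : Module.End ℤ H := Z.toIntLinearMap with hz_def
  have z_apply : ∀ x, z x = Z x := fun x => rfl
  have hz : ∑ i ∈ Finset.range ℓ, z ^ i = 0 := by
    ext x
    rw [LinearMap.sum_apply, LinearMap.zero_apply, ← hZ x]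
    refine Finset.sum_congr rfl fun i _ => ?_
    rw [Module.End.pow_apply]
    rfl
  have p_apply : ∀ x, (1 - z) x = x - Z x := fun x => rfl
  have hinj' : ∀ x : H, (1 - z) x = 0 → x = 0 := fun x hx => by
    rw [p_apply, sub_eq_zero] at hx
    exact hinj x hx.symm
  have hsep' : ∀ x : H, (∀ n : ℕ, ∃ y : H, x = ((1 - z) ^ n) y) → x = 0 := fun x hx => by
    refine hsep x fun n => ?_
    obtain ⟨y, hy⟩ := hx n
    refine ⟨y, ?_⟩
    rw [hy, Module.End.pow_apply]
    rfl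
  -- injectivity of p in the form of cancellation
  have pcancel : ∀ x y : H, x - Z x = y - Z y → x = y := fun x y h => by
    have : (1 - z) (x - y) = 0 := by
      rw [p_apply, map_sub]
      have : x - y - (Z x - Z y) = (x - Z x) - (y - Z y) := by abel
      rw [this, h, sub_self]
    exact sub_eq_zero.1 (hinj' _ this)
  have hex : ∀ (u : G) (x : H), ∃ y, u • x - x = y - Z y := fun u x => by
    rw [← he, map_sub, hGe, sub_self]
  choose N0 hN0 using hex
  have hN0u : ∀ (u : G) (x y : H), u • x - x = y - Z y → y = N0 u x := fun u x y h =>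
    pcancel _ _ (by rw [← h, hN0])
  let N : G → Module.End ℤ H := fun u => AddMonoidHom.toIntLinearMap
    { toFun := N0 u
      map_zero' := ((hN0u u 0 0 (by simp)).symm)
      map_add' := fun x y => (hN0u u (x + y) (N0 u x + N0 u y) (by
        rw [smul_add, map_add]
        have h1 := hN0 u x
        have h2 := hN0 u y
        have : u • x + u • y - (x + y) = (u • x - x) + (u • y - y) := by abel
        rw [this, h1, h2]
        abel)).symm }
  have N_apply : ∀ u x, u • x - x = N u x - Z (N u x) := fun u x => hN0 u x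
  have N_uniq : ∀ u x y, u • x - x = y - Z y → y = N u x := fun u x y h => hN0u u x y h
  let U : G → Module.End ℤ H := fun u => (DistribSMul.toAddMonoidHom H u).toIntLinearMap
  have U_apply : ∀ u x, U u x = u • x := fun u x => rfl
  have U_mul : ∀ u v, U (u * v) = U u * U v := fun u v => by
    ext x
    change (u * v) • x = u • (v • x)
    rw [mul_smul]
  have U_one : U 1 = 1 := by
    ext x
    change (1 : G) • x = x
    rw [one_smul]
  have U_pow : ∀ u (M : ℕ), U u ^ M = U (u ^ M) := fun u M => by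
    induction M with
    | zero => rw [pow_zero, pow_zero, U_one]
    | succ M ih => rw [pow_succ, pow_succ, U_mul, ih]
  have U_eq : ∀ u, U u = 1 + (1 - z) * N u := fun u => by
    ext x
    change u • x = x + (N u x - Z (N u x))
    rw [← N_apply]
    abel
  have zU : ∀ u, z * U u = U u * z := fun u => by
    ext x
    exact hZG u x
  have zN : ∀ u, z * N u = N u * z := fun u => by
    ext x
    change Z (N u x) = N u (Z x)
    apply N_uniq
    rw [← hZG, ← map_sub, N_apply, map_sub]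
  have hp_N : ∀ u, (1 - z) * N u = N u * (1 - z) := fun u => by
    rw [sub_mul, mul_sub, one_mul, mul_one, zN]
  have hpe : ∀ y, e ((1 - z) y) = 0 := fun y => (he _).2 ⟨y, rfl⟩
  -- (a)
  have hA : ∀ u x, e ((N u ^ ℓ) x) = e (N u x) := by
    intro u x
    obtain ⟨M, hM, hMx⟩ := hfin u x
    obtain ⟨y, hy⟩ := A03_fst hℓ z (N u) (zN u) hz hinj' hsep' x M hM (by
      rw [← U_eq, U_pow, U_apply, hMx])
    have h1 := hpe y
    rw [← hy, LinearMap.sub_apply, map_sub, sub_eq_zero] at h1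
    exact h1
  -- (b)
  have hB : ∀ u v, N u * N v = N v * N u := by
    intro u v
    set D : Module.End ℤ H := N u * N v - N v * N u with hD
    set Y : Module.End ℤ H := D * U (v * u)⁻¹ with hY
    have zD : z * D = D * z := by
      rw [hD, mul_sub, sub_mul, ← mul_assoc, ← mul_assoc, zN, zN, mul_assoc, mul_assoc, mul_assoc,
        mul_assoc, zN, zN]
    have zY : z * Y = Y * z := by
      rw [hY, ← mul_assoc, zD, mul_assoc, mul_assoc, zU]
    have hUv : U (v * u)⁻¹ * U (v * u) = 1 := by rw [← U_mul, inv_mul_cancel, U_one]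
    have hUv' : U (v * u) * U (v * u)⁻¹ = 1 := by rw [← U_mul, mul_inv_cancel, U_one]
    have h1 : (1 - z) ^ 2 * D = U (u * v) - U (v * u) := by
      have e1 : U (u * v) = (1 + (1 - z) * N u) * (1 + (1 - z) * N v) := by
        rw [U_mul, U_eq u, U_eq v]
      have e2 : U (v * u) = (1 + (1 - z) * N v) * (1 + (1 - z) * N u) := by
        rw [U_mul, U_eq u, U_eq v]
      have e3 : (1 - z) * N u * ((1 - z) * N v) = (1 - z) ^ 2 * (N u * N v) := by
        rw [mul_assoc, ← mul_assoc (N u), ← hp_N, pow_two, mul_assoc, mul_assoc]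
      have e4 : (1 - z) * N v * ((1 - z) * N u) = (1 - z) ^ 2 * (N v * N u) := by
        rw [mul_assoc, ← mul_assoc (N v), ← hp_N, pow_two, mul_assoc, mul_assoc]
      rw [e1, e2, hD, mul_sub, add_mul, add_mul, mul_add, mul_add, mul_add, mul_add, e3, e4]
      simp only [one_mul, mul_one]
      abel
    set c : G := (u * v) * (v * u)⁻¹ with hc
    have h2 : 1 + (1 - z) ^ 2 * Y = U c := by
      rw [hY, ← mul_assoc, h1, sub_mul, hUv', ← U_mul]
      abel
    have h3 : ∀ x, Y x = 0 := by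
      intro x
      obtain ⟨M, hM, hMx⟩ := hfin c x
      exact A03_sq hℓ z Y zY hz hinj' hsep' x M hM (by rw [h2, U_pow, U_apply, hMx])
    have h4 : Y = 0 := LinearMap.ext h3
    have h5 : D = 0 := by
      calc D = D * (U (v * u)⁻¹ * U (v * u)) := by rw [hUv, mul_one]
        _ = Y * U (v * u) := by rw [hY, mul_assoc]
        _ = 0 := by rw [h4, zero_mul]
    exact sub_eq_zero.1 h5
  -- (c)
  let V : Submodule (ZMod ℓ) (ι → ZMod ℓ) := AddSubgroup.toZModSubmodule ℓ e.range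
  let e' : H →+ V := e.rangeRestrict
  have he'v : ∀ x, ((e' x : V) : ι → ZMod ℓ) = e x := fun x => rfl
  have hsurj : Function.Surjective e' := e.rangeRestrict_surjective
  have hker : ∀ x, e' x = 0 ↔ e x = 0 := fun x => by
    rw [← he'v]
    exact ⟨fun h => by rw [h]; rfl, fun h => Subtype.ext h⟩
  have hwd : ∀ u, e'.ker ≤ (e'.comp (N u).toAddMonoidHom).ker := by
    intro u x hx
    rw [AddMonoidHom.mem_ker, hker, he] at hx
    obtain ⟨y, rfl⟩ := hx
    rw [AddMonoidHom.mem_ker, AddMonoidHom.comp_apply, hker]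
    have : (N u).toAddMonoidHom (y - Z y) = (1 - z) (N u y) := by
      change (N u * (1 - z)) y = ((1 - z) * N u) y
      rw [hp_N]
    rw [this]
    exact hpe _
  let n0 : G → V →+ V := fun u => (AddMonoidHom.liftOfSurjective e' hsurj) ⟨_, hwd u⟩
  have hn0 : ∀ u x, n0 u (e' x) = e' (N u x) := fun u x =>
    AddMonoidHom.liftOfRightInverse_comp_apply e' _ _ ⟨_, hwd u⟩ x
  let n : G → V →ₗ[ZMod ℓ] V := fun u => (n0 u).toZModLinearMap ℓ
  have hn : ∀ u x, n u (e' x) = e' (N u x) := fun u x => hn0 u x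
  have hncomm : ∀ u v, n u * n v = n v * n u := by
    intro u v
    ext1 w
    obtain ⟨x, rfl⟩ := hsurj w
    change n u (n v (e' x)) = n v (n u (e' x))
    rw [hn, hn, hn, hn]
    have := LinearMap.congr_fun (hB u v) x
    exact congrArg e' this
  have hnpow_apply : ∀ u (k : ℕ) x, (n u ^ k) (e' x) = e' ((N u ^ k) x) := by
    intro u k
    induction k with
    | zero => intro x; rw [pow_zero, pow_zero]; rfl
    | succ k ih =>
      intro x
      rw [pow_succ, pow_succ]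
      change (n u ^ k) (n u (e' x)) = e' ((N u ^ k) (N u x))
      rw [hn, ih]
  have hnpow : ∀ u, n u ^ ℓ = n u := by
    intro u
    ext1 w
    obtain ⟨x, rfl⟩ := hsurj w
    rw [hnpow_apply, hn]
    apply Subtype.ext
    exact hA u x
  have hVne : ∃ w : V, w ≠ 0 := by
    by_contra hcon
    push Not at hcon
    obtain ⟨x, hx⟩ := hne
    apply hx
    have hall : ∀ y : H, ∃ y', y = (1 - z) y' := fun y => (he y).1 ((hker y).1 (hcon (e' y)))
    refine hsep' x fun k => ?_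
    induction k with
    | zero => exact ⟨x, by rw [pow_zero]; rfl⟩
    | succ k ih =>
      obtain ⟨y, hy⟩ := ih
      obtain ⟨y', hy'⟩ := hall y
      refine ⟨y', ?_⟩
      rw [pow_succ]
      change x = ((1 - z) ^ k) ((1 - z) y')
      rw [← hy']
      exact hy
  obtain ⟨w, hw0, a, ha⟩ := exists_common_eigenvector n hncomm hnpow hVne
  obtain ⟨x, rfl⟩ := hsurj w
  refine ⟨x, fun h => hw0 ((hker x).2 h), a, fun u y hy => ?_⟩
  have h1 := N_uniq u x y hy
  have h2 := ha u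
  rw [hn] at h2
  have h3 := congrArg (Subtype.val) h2
  rw [h1]
  exact h3

end Pool.Agent.Lib.MP_89bcae_ag.Sup

end

section

/-!
ROW A04 (100-200 lines). The eigenvector theorem for a subquotient.

PROOF. Apply `exists_eigen` (A03) to `H = W ⧸ T` (`T.addSubgroupOf W`), with the action of `G` and the
endomorphism `Z` induced. `e` is given on `W` as a relation `E c ε` (`ε : ι → ZMod ℓ`): it is total on
`W`, additive, and `E c ε` with `c ∈ T` implies `ε = 0`; so it defines a homomorphism `W → (ι → ZMod ℓ)`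
(`ε` is unique: the difference of two values for `c` is a value for `0 ∈ T`), which factors through
`W ⧸ T`. Its kernel is `p (W ⧸ T)` by `hker` and `hZE`.
-/

namespace Pool.Agent.Lib.MP_89bcae_ag.Sup

theorem exists_eigen_sub {ℓ : ℕ} [Fact ℓ.Prime] {C G ι : Type*} [AddCommGroup C] [Group G]
    [DistribMulAction G C] [Finite ι] (W T : AddSubgroup C) (Z : C →+ C) (hTW : T ≤ W)
    (hZW : ∀ c ∈ W, Z c ∈ W) (hZT : ∀ c ∈ T, Z c ∈ T) (hGW : ∀ (u : G), ∀ c ∈ W, u • c ∈ W)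
    (hGT : ∀ (u : G), ∀ c ∈ T, u • c ∈ T)
    (hZ : ∀ c ∈ W, ∑ i ∈ Finset.range ℓ, Z^[i] c ∈ T)
    (hZG : ∀ (u : G), ∀ c ∈ W, Z (u • c) - u • Z c ∈ T)
    (hinj : ∀ c ∈ W, c - Z c ∈ T → c ∈ T)
    (hsep : ∀ c ∈ W, (∀ n : ℕ, ∃ y ∈ W, c - (fun h => h - Z h)^[n] y ∈ T) → c ∈ T)
    (E : C → (ι → ZMod ℓ) → Prop) (hE : ∀ c ∈ W, ∃ ε, E c ε)
    (hadd : ∀ c ∈ W, ∀ c' ∈ W, ∀ ε ε', E c ε → E c' ε' → E (c + c') (ε + ε'))
    (hneg : ∀ c ∈ W, ∀ ε, E c ε → E (-c) (-ε))
    (hET : ∀ c ∈ T, ∀ ε, E c ε → ε = 0)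
    (hZE : ∀ c ∈ W, ∀ ε, E c ε → E (Z c) ε)
    (hker : ∀ c ∈ W, E c 0 → ∃ y ∈ W, c - (y - Z y) ∈ T)
    (hGE : ∀ (u : G), ∀ c ∈ W, ∀ ε, E c ε → E (u • c) ε)
    (hfin : ∀ (u : G), ∀ c ∈ W, ∃ M : ℕ, 0 < M ∧ u ^ M • c - c ∈ T)
    (hne : ¬ W ≤ T) :
    ∃ c ∈ W, ∃ ε, E c ε ∧ ε ≠ 0 ∧ ∃ a : G → ZMod ℓ, ∀ u, ∀ y ∈ W, ∀ ε',
      u • c - c - (y - Z y) ∈ T → E y ε' → ε' = a u • ε := by
  classical
  -- uniqueness of values
  have huniq : ∀ c ∈ W, ∀ ε ε', E c ε → E c ε' → ε = ε' := by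
    intro c hc ε ε' h h'
    have h1 := hadd c hc (-c) (W.neg_mem hc) ε (-ε') h (hneg c hc ε' h')
    rw [add_neg_cancel] at h1
    have h2 := hET 0 T.zero_mem _ h1
    rwa [← sub_eq_add_neg, sub_eq_zero] at h2
  -- the quotient
  let T' : AddSubgroup W := T.addSubgroupOf W
  have memT' : ∀ w : W, w ∈ T' ↔ (w : C) ∈ T := fun w => AddSubgroup.mem_addSubgroupOf
  let mk : W →+ W ⧸ T' := QuotientAddGroup.mk' T'
  have mk_surj : Function.Surjective mk := QuotientAddGroup.mk'_surjective T'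
  have mk_eq : ∀ a b : W, mk a = mk b ↔ (a : C) - b ∈ T := by
    intro a b
    rw [← sub_eq_zero, ← map_sub]
    change (QuotientAddGroup.mk (a - b) : W ⧸ T') = 0 ↔ _
    rw [QuotientAddGroup.eq_zero_iff, memT']
    rfl
  -- induced endomorphism
  let ZW : W →+ W := (Z.comp W.subtype).codRestrict W fun c => hZW c c.2
  have ZW_coe : ∀ w : W, (ZW w : C) = Z w := fun w => rfl
  let Zb : W ⧸ T' →+ W ⧸ T' := QuotientAddGroup.map T' T' ZW fun w hw => by
    rw [AddSubgroup.mem_comap, memT', ZW_coe]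
    exact hZT _ ((memT' w).1 hw)
  have Zb_mk : ∀ w, Zb (mk w) = mk (ZW w) := fun w => rfl
  -- induced action
  let φ : G → W →+ W := fun u =>
    ((DistribSMul.toAddMonoidHom C u).comp W.subtype).codRestrict W fun c => hGW u c c.2
  have φ_coe : ∀ u (w : W), (φ u w : C) = u • (w : C) := fun u w => rfl
  let ψ : G → W ⧸ T' →+ W ⧸ T' := fun u => QuotientAddGroup.map T' T' (φ u) fun w hw => by
    rw [AddSubgroup.mem_comap, memT', φ_coe]
    exact hGT u _ ((memT' w).1 hw)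
  have ψ_mk : ∀ u w, ψ u (mk w) = mk (φ u w) := fun u w => rfl
  letI act : DistribMulAction G (W ⧸ T') :=
    { smul := fun u q => ψ u q
      one_smul := fun q => by
        obtain ⟨w, rfl⟩ := mk_surj q
        change ψ 1 (mk w) = mk w
        rw [ψ_mk]
        congr 1
        apply Subtype.ext
        rw [φ_coe, one_smul]
      mul_smul := fun u v q => by
        obtain ⟨w, rfl⟩ := mk_surj q
        change ψ (u * v) (mk w) = ψ u (ψ v (mk w))
        rw [ψ_mk, ψ_mk, ψ_mk]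
        congr 1
        apply Subtype.ext
        rw [φ_coe, φ_coe, φ_coe, mul_smul]
      smul_zero := fun u => map_zero (ψ u)
      smul_add := fun u x y => map_add (ψ u) x y }
  have smul_mk : ∀ (u : G) (w : W), u • (mk w) = mk (φ u w) := fun u w => rfl
  -- the homomorphism e
  have hex : ∀ w : W, ∃ ε, E w ε := fun w => hE w w.2
  choose ew hew using hex
  let eW : W →+ (ι → ZMod ℓ) :=
    { toFun := ew
      map_zero' := hET 0 T.zero_mem _ (hew 0)
      map_add' := fun a b => huniq (a + b : W) (a + b).2 _ _ (hew (a + b))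
        (hadd a a.2 b b.2 _ _ (hew a) (hew b)) }
  have eW_spec : ∀ w : W, E w (eW w) := hew
  let e : W ⧸ T' →+ (ι → ZMod ℓ) := QuotientAddGroup.lift T' eW fun w hw =>
    hET w ((memT' w).1 hw) _ (eW_spec w)
  have e_mk : ∀ w, e (mk w) = eW w := fun w => rfl
  have eW_uniq : ∀ (w : W) ε, E w ε → eW w = ε := fun w ε h => huniq w w.2 _ _ (eW_spec w) h
  -- iterates
  have it1 : ∀ (i : ℕ) (w : W), Zb^[i] (mk w) = mk (ZW^[i] w) := by
    intro i
    induction i with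
    | zero => intro w; rfl
    | succ i ih => intro w; rw [Function.iterate_succ_apply, Function.iterate_succ_apply, Zb_mk, ih]
  have it2 : ∀ (i : ℕ) (w : W), ((ZW^[i] w : W) : C) = Z^[i] (w : C) := by
    intro i
    induction i with
    | zero => intro w; rfl
    | succ i ih =>
      intro w
      rw [Function.iterate_succ_apply, Function.iterate_succ_apply, ih, ZW_coe]
  have it3 : ∀ (i : ℕ) (w : W), (fun h => h - Zb h)^[i] (mk w) = mk ((fun h => h - ZW h)^[i] w) := by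
    intro i
    induction i with
    | zero => intro w; rfl
    | succ i ih =>
      intro w
      rw [Function.iterate_succ_apply, Function.iterate_succ_apply, Zb_mk, ← map_sub, ih]
  have it4 : ∀ (i : ℕ) (w : W), (((fun h => h - ZW h)^[i] w : W) : C) =
      (fun h => h - Z h)^[i] (w : C) := by
    intro i
    induction i with
    | zero => intro w; rfl
    | succ i ih =>
      intro w
      rw [Function.iterate_succ_apply, Function.iterate_succ_apply, ih]
      rfl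
  obtain ⟨q, hq0, a, ha⟩ := exists_eigen (ℓ := ℓ) (H := W ⧸ T') (G := G) (ι := ι) Zb
    (fun q => by
      obtain ⟨w, rfl⟩ := mk_surj q
      simp only [it1]
      rw [← map_sum, ← map_zero mk, mk_eq]
      have h1 := hZ w w.2
      rw [ZeroMemClass.coe_zero, sub_zero]
      change W.subtype (∑ i ∈ Finset.range ℓ, ZW^[i] w) ∈ T
      rw [map_sum]
      simp only [AddSubgroup.subtype_apply, it2]
      exact h1)
    (fun u q => by
      obtain ⟨w, rfl⟩ := mk_surj q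
      rw [smul_mk, Zb_mk, Zb_mk, smul_mk, mk_eq, ZW_coe, φ_coe, φ_coe, ZW_coe]
      exact hZG u w w.2)
    (fun q hq => by
      obtain ⟨w, rfl⟩ := mk_surj q
      rw [Zb_mk, mk_eq, ZW_coe] at hq
      rw [← map_zero mk, mk_eq, ZeroMemClass.coe_zero, sub_zero]
      refine hinj w w.2 ?_
      have := T.neg_mem hq
      rwa [neg_sub] at this)
    (fun q hq => by
      obtain ⟨w, rfl⟩ := mk_surj q
      rw [← map_zero mk, mk_eq, ZeroMemClass.coe_zero, sub_zero]
      refine hsep w w.2 fun n => ?_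
      obtain ⟨y, hy⟩ := hq n
      obtain ⟨y', rfl⟩ := mk_surj y
      rw [it3, mk_eq, it4] at hy
      exact ⟨y', y'.2, hy⟩)
    e
    (fun q => by
      obtain ⟨w, rfl⟩ := mk_surj q
      constructor
      · intro h
        rw [e_mk] at h
        have h1 := eW_spec w
        rw [h] at h1
        obtain ⟨y, hy, hyT⟩ := hker w w.2 h1
        refine ⟨mk ⟨y, hy⟩, ?_⟩
        rw [Zb_mk, ← map_sub, mk_eq]
        exact hyT
      · rintro ⟨y, hy⟩
        obtain ⟨y', rfl⟩ := mk_surj y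
        rw [hy, map_sub, Zb_mk, e_mk, e_mk, sub_eq_zero]
        exact (eW_uniq (ZW y') _ (hZE y' y'.2 _ (eW_spec y'))).symm)
    (fun u q => by
      obtain ⟨w, rfl⟩ := mk_surj q
      rw [smul_mk, e_mk, e_mk]
      exact eW_uniq (φ u w) _ (hGE u w w.2 _ (eW_spec w)))
    (fun u q => by
      obtain ⟨w, rfl⟩ := mk_surj q
      obtain ⟨M, hM, hMT⟩ := hfin u w w.2
      refine ⟨M, hM, ?_⟩
      rw [smul_mk, mk_eq, φ_coe]
      exact hMT)
    (by
      obtain ⟨c, hcW, hcT⟩ := Set.not_subset.1 hne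
      refine ⟨mk ⟨c, hcW⟩, fun h => hcT ?_⟩
      rw [← map_zero mk, mk_eq, ZeroMemClass.coe_zero, sub_zero] at h
      exact h)
  obtain ⟨w, rfl⟩ := mk_surj q
  rw [e_mk] at hq0
  refine ⟨w, w.2, eW w, eW_spec w, hq0, a, fun u y hy ε' hyT hyE => ?_⟩
  have h1 := ha u (mk ⟨y, hy⟩) (by
    rw [smul_mk, Zb_mk, ← map_sub, ← map_sub, mk_eq]
    exact hyT)
  rw [e_mk, e_mk, eW_uniq ⟨y, hy⟩ ε' hyE] at h1
  exact h1

end Pool.Agent.Lib.MP_89bcae_ag.Sup

end

section

/-!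
# The abstract argument with exponents in any finite vector space over `ℤ/ℓ`

`exists_eigen_sub` (`Sup/A04.lean`) with the target `ι → ZMod ℓ` of the exponents replaced by any
finite `ZMod ℓ`-module `V`; it follows by choosing a basis of `V`.
-/

namespace Pool.Agent.Lib.MP_89bcae_ag.Sup.Lns

theorem exists_eigen_sub {ℓ : ℕ} [Fact ℓ.Prime] {C G V : Type*} [AddCommGroup C] [Group G]
    [DistribMulAction G C] [AddCommGroup V] [Module (ZMod ℓ) V] [Finite V]
    (W T : AddSubgroup C) (Z : C →+ C) (hTW : T ≤ W)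
    (hZW : ∀ c ∈ W, Z c ∈ W) (hZT : ∀ c ∈ T, Z c ∈ T) (hGW : ∀ (u : G), ∀ c ∈ W, u • c ∈ W)
    (hGT : ∀ (u : G), ∀ c ∈ T, u • c ∈ T)
    (hZ : ∀ c ∈ W, ∑ i ∈ Finset.range ℓ, Z^[i] c ∈ T)
    (hZG : ∀ (u : G), ∀ c ∈ W, Z (u • c) - u • Z c ∈ T)
    (hinj : ∀ c ∈ W, c - Z c ∈ T → c ∈ T)
    (hsep : ∀ c ∈ W, (∀ n : ℕ, ∃ y ∈ W, c - (fun h => h - Z h)^[n] y ∈ T) → c ∈ T)
    (E : C → V → Prop) (hE : ∀ c ∈ W, ∃ ε, E c ε)
    (hadd : ∀ c ∈ W, ∀ c' ∈ W, ∀ ε ε', E c ε → E c' ε' → E (c + c') (ε + ε'))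
    (hneg : ∀ c ∈ W, ∀ ε, E c ε → E (-c) (-ε))
    (hET : ∀ c ∈ T, ∀ ε, E c ε → ε = 0)
    (hZE : ∀ c ∈ W, ∀ ε, E c ε → E (Z c) ε)
    (hker : ∀ c ∈ W, E c 0 → ∃ y ∈ W, c - (y - Z y) ∈ T)
    (hGE : ∀ (u : G), ∀ c ∈ W, ∀ ε, E c ε → E (u • c) ε)
    (hfin : ∀ (u : G), ∀ c ∈ W, ∃ M : ℕ, 0 < M ∧ u ^ M • c - c ∈ T)
    (hne : ¬ W ≤ T) :
    ∃ c ∈ W, ∃ ε, E c ε ∧ ε ≠ 0 ∧ ∃ a : G → ZMod ℓ, ∀ u, ∀ y ∈ W, ∀ ε',
      u • c - c - (y - Z y) ∈ T → E y ε' → ε' = a u • ε := by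
  have hfd : Module.Finite (ZMod ℓ) V := Module.Finite.of_finite
  set φ : V ≃ₗ[ZMod ℓ] (Fin (Module.finrank (ZMod ℓ) V) → ZMod ℓ) :=
    (Module.finBasis (ZMod ℓ) V).equivFun with hφ
  obtain ⟨c, hc, ε, hε, hε0, a, ha⟩ := Sup.exists_eigen_sub (ℓ := ℓ) (C := C) (G := G)
    (ι := Fin (Module.finrank (ZMod ℓ) V)) W T Z hTW hZW hZT hGW hGT hZ hZG hinj hsep
    (fun c ε => E c (φ.symm ε))
    (fun c hc => by
      obtain ⟨ε, hε⟩ := hE c hc
      exact ⟨φ ε, by rw [φ.symm_apply_apply]; exact hε⟩)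
    (fun c hc c' hc' ε ε' h h' => by
      rw [map_add]
      exact hadd c hc c' hc' _ _ h h')
    (fun c hc ε h => by
      rw [map_neg]
      exact hneg c hc _ h)
    (fun c hc ε h => by
      have h1 := hET c hc _ h
      rwa [LinearEquiv.map_eq_zero_iff] at h1)
    (fun c hc ε h => hZE c hc _ h)
    (fun c hc h => hker c hc (by rwa [map_zero] at h))
    (fun u c hc ε h => hGE u c hc _ h)
    hfin hne
  refine ⟨c, hc, φ.symm ε, hε, ?_, a, fun u y hy ε' h1 h2 => ?_⟩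
  · rw [Ne, LinearEquiv.map_eq_zero_iff]
    exact hε0
  · have h3 := ha u y hy (φ ε') h1 (by rw [φ.symm_apply_apply]; exact h2)
    rw [← map_smul, ← h3, φ.symm_apply_apply]

end Pool.Agent.Lib.MP_89bcae_ag.Sup.Lns

end

section

/-!
# Change of the base field for `y ^ ℓ = ∏ (x - α_i(t)) ^ (W_i)`
-/

open Polynomial IsDedekindDomain

open scoped Classical

set_option linter.unusedSimpArgs false
set_option linter.unusedVariables false
set_option linter.unusedSectionVars false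
set_option linter.style.haveILetI false

namespace Pool.Agent.Lib.MP_89bcae_ag.Wt

universe u

/-- The statement for a polynomial `f` and a set of automorphisms, with a multiple. -/
def NTm45 (ℓ m : ℕ) {F : Type u} (L Ω : Type u) [Field F] [Field L] [Algebra F[X] L]
    [IsFractionRing F[X] L] [Field Ω] [Algebra L Ω] (f : L[X]) (Γ : Set (Ω ≃+* Ω)) : Prop :=
  ∀ c : ℕ → (Ω ≃ₐ[L] Ω) → JacOver ℓ f Ω,
    IsTateCocycle ℓ f c →
    (∀ (v : HeightOneSpectrum F[X]) (n : ℕ), IsLocallyTrivial ℓ f (c n) (v.adicCompletion L)) →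
    (∀ (γ : Ω ≃+* Ω) hγ, γ ∈ Γ → IsFixedBy ℓ f c γ hγ) →
    IsTrivial ℓ f fun n g => m • c n g

theorem NTm45.mono {ℓ m : ℕ} {F L Ω : Type u} [Field F] [Field L] [Algebra F[X] L]
    [IsFractionRing F[X] L] [Field Ω] [Algebra L Ω] {f : L[X]} {Γ Γ' : Set (Ω ≃+* Ω)}
    (h : NTm45 (F := F) ℓ m L Ω f Γ) (hle : Γ ⊆ Γ') : NTm45 (F := F) ℓ m L Ω f Γ' :=
  fun c hc hloc hfix => h c hc hloc fun γ hγ hγΓ => hfix γ hγ (hle hγΓ)

section

variable {ι : Type} [Fintype ι]

theorem tateClassesTorsionW_iff45 {ℓ : ℕ} {k F L Ω : Type u} [Field k] [Field F] [Algebra k F]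
    [Field L] [Algebra F[X] L] [IsFractionRing F[X] L] [Field Ω] [Algebra L Ω] {W : ι → ℕ}
    {α : ι → k[X]} {k' : IntermediateField k F} : TateClassesTorsionW ℓ L Ω W α k' ↔
      NTm45 (F := F) ℓ ℓ L Ω (weightedPoly k F L W α)
        {γ | ∀ p : k'[X], γ (base k' F L Ω p) = base k' F L Ω p} := Iff.rfl

variable {k K F L Ω : Type u} [Field k] [Field K] [Field F] [Algebra k K] [Algebra K F]
  [Algebra k F] [IsScalarTower k K F] [Field L] [Algebra F[X] L] [IsFractionRing F[X] L] [Field Ω]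
  [Algebra L Ω]

lemma weightedPoly_map45 (W : ι → ℕ) (α : ι → k[X]) :
    weightedPoly K F L W (fun i => (α i).map (algebraMap k K)) = weightedPoly k F L W α := by
  unfold weightedPoly
  exact Finset.prod_congr rfl fun i _ => by rw [Superelliptic.base_map8]

/-- Change of the base field. -/
theorem tateClassesTorsionW_base45 {ℓ : ℕ} {W : ι → ℕ} {α : ι → k[X]}
    {k' : IntermediateField k F} {K' : IntermediateField K F} (hle : ∀ x ∈ k', x ∈ K')
    (h : TateClassesTorsionW ℓ L Ω W (fun i => (α i).map (algebraMap k K)) K') :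
    TateClassesTorsionW ℓ L Ω W α k' := by
  rw [tateClassesTorsionW_iff45, weightedPoly_map45] at h
  rw [tateClassesTorsionW_iff45]
  refine h.mono ?_
  intro γ hγ p
  let i : k' →+* K' := (algebraMap k' F).codRestrict K'.toSubalgebra.toSubring fun x => hle x x.2
  have h1 : ∀ p : k'[X], base K' F L Ω (p.map i) = base k' F L Ω p := by
    intro p
    show algebraMap L Ω (algebraMap F[X] L ((p.map i).map (algebraMap K' F))) =
      algebraMap L Ω (algebraMap F[X] L (p.map (algebraMap k' F)))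
    rw [Polynomial.map_map]
    rfl
  rw [← h1]
  exact hγ _

end

section

variable {ι : Type} [Fintype ι] [LinearOrder ι]

/-- From the statement over the cyclotomic field to the statement over all number fields. -/
theorem tateClassesTorsionW_of_cyclotomic45 {ℓ : ℕ} (hℓ : ℓ.Prime) (F L Ω : Type) [Field F]
    [Algebra ℚ F] [IsAlgClosure ℚ F] [Field L] [Algebra F[X] L] [IsFractionRing F[X] L] [Field Ω]
    [Algebra L Ω] [IsAlgClosure L Ω] (K : Type) [Field K] [Algebra ℚ K]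
    [IsCyclotomicExtension {ℓ} ℚ K] [Algebra K F] [IsScalarTower ℚ K F]
    (W : ι → ℕ) (α : ι → ℚ[X])
    (h : ∀ (_ : IsAlgClosure K F) (_ : (ℓ : K) ≠ 0) (ζ : K) (_ : IsPrimitiveRoot ζ ℓ)
      (K' : IntermediateField K F) (_ : FiniteDimensional K K'),
      TateClassesTorsionW ℓ L Ω W (fun i => (α i).map (algebraMap ℚ K)) K')
    (k' : IntermediateField ℚ F) (hk' : FiniteDimensional ℚ k') :
    TateClassesTorsionW ℓ L Ω W α k' := by
  haveI : NeZero ℓ := ⟨hℓ.ne_zero⟩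
  have hF : IsAlgClosed F := IsAlgClosure.isAlgClosed ℚ
  have hQF : Algebra.IsAlgebraic ℚ F := IsAlgClosure.isAlgebraic
  haveI hKFa : Algebra.IsAlgebraic K F := Algebra.IsAlgebraic.tower_top (K := ℚ) K
  haveI : IsAlgClosure K F := ⟨hF, hKFa⟩
  haveI : CharZero K := algebraRat.charZero K
  have hζ : IsPrimitiveRoot (IsCyclotomicExtension.zeta ℓ ℚ K) ℓ :=
    IsCyclotomicExtension.zeta_spec ℓ ℚ K
  obtain ⟨K', hK', hle⟩ := Superelliptic.exists_finite8 (K := K) k'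
  exact tateClassesTorsionW_base45 (K := K) hle
    (h inferInstance (by exact_mod_cast hℓ.ne_zero) _ hζ K' hK')

end

end Pool.Agent.Lib.MP_89bcae_ag.Wt

end

section

/-!
# Exact sequences of cocycles; the points of the Jacobian over `L`
-/

open Polynomial IsDedekindDomain IsLocalRing

open scoped Classical

namespace Pool.Agent.Lib.MP_89bcae_ag.Bra

open Pool.Agent.Lib.MP_89bcae_ag.Wt Pool.Agent.Lib.MP_89bcae_ag.Wt.Lns

/-- The arithmetic of `exists_weights` in a quotient group. -/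
theorem mis_a_aux {ℓ : ℕ} (hℓ : ℓ.Prime) {G : Type} [AddCommGroup G]
    (β : ℕ → G) (m : ℕ → ℕ) (hm : ∀ n, (m n).Coprime ℓ)
    (h0 : ∃ u : ℕ, u.Coprime ℓ ∧ u • β 0 = 0)
    (h : ∀ n, ∃ u : ℕ, u.Coprime ℓ ∧ u • ((ℓ * m n) • β (n + 1) - m (n + 1) • β n) = 0) :
    ∃ w : ℕ → ℕ, w 0 • β 0 = 0 ∧ (∀ n, ℓ • w (n + 1) • β (n + 1) - w n • β n = 0) ∧
      ∀ n, w n * m n ≡ 1 [MOD ℓ ^ n] := by
  obtain ⟨u0, hu0, hu0'⟩ := h0
  choose u hu hu' using h
  obtain ⟨M, hM0, hM1⟩ : ∃ M : ℕ → ℕ, M 0 = u0 ∧ ∀ n, M (n + 1) = u n * m n * M n :=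
    ⟨fun n => Nat.rec u0 (fun n Mn => u n * m n * Mn) n, rfl, fun n => rfl⟩
  have hMc : ∀ n, (M n).Coprime ℓ := by
    intro n
    induction n with
    | zero => rw [hM0]; exact hu0
    | succ n ih =>
      rw [hM1]
      exact Nat.Coprime.mul_left (Nat.Coprime.mul_left (hu n) (hm n)) ih
  have hstep : ∀ n, (u n * m n * ℓ : ℕ) • β (n + 1) = (u n * m (n + 1)) • β n := by
    intro n
    have h1 := hu' n
    rw [smul_sub, sub_eq_zero, smul_smul, smul_smul] at h1
    rw [← h1]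
    congr 1
    ring
  have hMB : ∀ n, (ℓ ^ n * M n) • β n = 0 := by
    intro n
    induction n with
    | zero => rw [pow_zero, one_mul, hM0]; exact hu0'
    | succ n ih =>
      have e1 : ℓ ^ (n + 1) * M (n + 1) = (ℓ ^ n * M n) * (u n * m n * ℓ) := by
        rw [hM1]; ring
      rw [e1, mul_smul, hstep, ← mul_smul, mul_comm, mul_smul, ih, smul_zero]
  have hv : ∀ n, ∃ v : ℕ, (M n * v) * m n ≡ 1 [MOD ℓ ^ n] := by
    intro n
    rcases Nat.eq_zero_or_pos n with hn | hn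
    · refine ⟨1, ?_⟩
      rw [hn, pow_zero]
      exact Nat.modEq_one
    · have h1 : (M n * m n).Coprime (ℓ ^ n) :=
        Nat.Coprime.pow_right n (Nat.Coprime.mul_left (hMc n) (hm n))
      obtain ⟨v, -, hv⟩ := Nat.exists_mul_mod_eq_one_of_coprime h1
        (Nat.one_lt_pow hn.ne' hℓ.one_lt)
      refine ⟨v, ?_⟩
      have e1 : M n * v * m n = M n * m n * v := by ring
      rw [e1]
      unfold Nat.ModEq
      rw [hv, Nat.mod_eq_of_lt (Nat.one_lt_pow hn.ne' hℓ.one_lt)]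
  choose v hv using hv
  refine ⟨fun n => M n * v n, ?_, ?_, hv⟩
  · simp only [hM0]
    rw [mul_comm, mul_smul, hu0', smul_zero]
  · intro n
    simp only
    have hA : (ℓ ^ n) • (ℓ • (M (n + 1) * v (n + 1)) • β (n + 1) - (M n * v n) • β n) = 0 := by
      have e1 : (ℓ ^ n * (ℓ * (M (n + 1) * v (n + 1)))) = v (n + 1) * (ℓ ^ (n + 1) * M (n + 1)) := by
        ring
      have e2 : ℓ ^ n * (M n * v n) = v n * (ℓ ^ n * M n) := by ring
      rw [smul_sub, smul_smul, smul_smul, smul_smul, mul_assoc, e1, e2, mul_smul (v (n + 1)),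
        mul_smul (v n), hMB, hMB, smul_zero, smul_zero, sub_zero]
    have hB : (u n * m n * m (n + 1)) •
        (ℓ • (M (n + 1) * v (n + 1)) • β (n + 1) - (M n * v n) • β n) = 0 := by
      have e1 : u n * m n * m (n + 1) * (ℓ * (M (n + 1) * v (n + 1))) =
          (m (n + 1) * (M (n + 1) * v (n + 1))) * (u n * m n * ℓ) := by ring
      rw [smul_sub, smul_smul, smul_smul, smul_smul, mul_assoc (u n * m n * m (n + 1)) ℓ, e1,
        mul_smul, hstep, smul_smul, sub_eq_zero, nsmul_eq_nsmul_iff_modEq]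
      have h1 : addOrderOf (β n) ∣ ℓ ^ n * M n := addOrderOf_dvd_iff_nsmul_eq_zero.2 (hMB n)
      have h2 : M n * v n * m n ≡ M (n + 1) * v (n + 1) * m (n + 1) [MOD ℓ ^ n * M n] := by
        rw [← Nat.modEq_and_modEq_iff_modEq_mul ((hMc n).symm.pow_left n)]
        constructor
        · refine (hv n).trans ((hv (n + 1)).symm.of_dvd ?_)
          exact pow_dvd_pow ℓ (Nat.le_succ n)
        · refine (Nat.modEq_zero_iff_dvd.2 ?_).trans (Nat.modEq_zero_iff_dvd.2 ?_).symm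
          · exact Dvd.dvd.mul_right (Dvd.intro _ rfl) _
          · refine Dvd.dvd.mul_right (Dvd.dvd.mul_right ?_ _) _
            rw [hM1]
            exact Dvd.intro_left _ rfl
      have h3 := (h2.of_dvd h1).symm.mul_left (u n * m (n + 1))
      have e3 : m (n + 1) * (M (n + 1) * v (n + 1)) * (u n * m (n + 1)) =
          u n * m (n + 1) * (M (n + 1) * v (n + 1) * m (n + 1)) := by ring
      have e4 : u n * m n * m (n + 1) * (M n * v n) = u n * m (n + 1) * (M n * v n * m n) := by ring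
      rw [e3, e4]
      exact h3
    have hc : (ℓ ^ n).Coprime (u n * m n * m (n + 1)) :=
      ((Nat.Coprime.mul_left (Nat.Coprime.mul_left (hu n) (hm n)) (hm (n + 1))).symm).pow_left n
    have hd := Nat.dvd_gcd (addOrderOf_dvd_iff_nsmul_eq_zero.2 hA)
      (addOrderOf_dvd_iff_nsmul_eq_zero.2 hB)
    rw [hc.gcd_eq_one, Nat.dvd_one, AddMonoid.addOrderOf_eq_one_iff] at hd
    exact hd

/-- Arithmetic: choice of the multipliers. PROOF. Work modulo `B`. By induction there are `M n` prime to `ℓ` with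
`ℓ ^ n * M n • β n ∈ B` and `M n ∣ M (n+1)`: `M 0 = u`, `M (n+1) = u_n * m n * M n` (`u_n` given by `h n`). Choose `w n` with
`w n * m n ≡ 1 [MOD ℓ ^ n]` and `M n ∣ w n` (Chinese remainders, `m n` and `M n` are prime to `ℓ`). Let
`δ = ℓ w_{n+1} β_{n+1} - w_n β_n`. Then `ℓ ^ n δ ∈ B`, as `ℓ ^ (n+1) w_{n+1} β_{n+1}`, `ℓ ^ n w_n β_n ∈ B`. And
`u_n m_n m_{n+1} δ ≡ u_n m_{n+1} (w_{n+1} m_{n+1} - w_n m_n) β_n`, where `w_{n+1} m_{n+1} - w_n m_n` is divisible by `ℓ ^ n`
and by `M n`, so this is in `B`; `u_n m_n m_{n+1}` is prime to `ℓ ^ n`, so `δ ∈ B`. -/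
theorem exists_weights {ℓ : ℕ} (hℓ : ℓ.Prime) {A : Type} [AddCommGroup A] (B : AddSubgroup A)
    (β : ℕ → A) (m : ℕ → ℕ) (hm : ∀ n, (m n).Coprime ℓ)
    (h0 : ∃ u : ℕ, u.Coprime ℓ ∧ u • β 0 ∈ B)
    (h : ∀ n, ∃ u : ℕ, u.Coprime ℓ ∧ u • ((ℓ * m n) • β (n + 1) - m (n + 1) • β n) ∈ B) :
    ∃ w : ℕ → ℕ, w 0 • β 0 ∈ B ∧ (∀ n, ℓ • w (n + 1) • β (n + 1) - w n • β n ∈ B) ∧
      ∀ n, w n * m n ≡ 1 [MOD ℓ ^ n] := by
  obtain ⟨w, h1, h2, h3⟩ := mis_a_aux hℓ (G := A ⧸ B) (fun n => (β n : A ⧸ B)) m hm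
    (by
      obtain ⟨u, hu, hu'⟩ := h0
      refine ⟨u, hu, ?_⟩
      have := (QuotientAddGroup.eq_zero_iff _).2 hu'
      simpa using this)
    (by
      intro n
      obtain ⟨u, hu, hu'⟩ := h n
      refine ⟨u, hu, ?_⟩
      have := (QuotientAddGroup.eq_zero_iff _).2 hu'
      simpa using this)
  refine ⟨w, ?_, ?_, h3⟩
  · refine (QuotientAddGroup.eq_zero_iff _).1 ?_
    simpa using h1
  · intro n
    refine (QuotientAddGroup.eq_zero_iff _).1 ?_
    have := h2 n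
    simpa using this

section

variable {L Ω : Type} [Field L] [Field Ω] [Algebra L Ω] {ℓ : ℕ} {f : L[X]}
  [hG : IsGood ℓ (f.map (algebraMap L Ω))]

/-- A primitive root of unity. -/
private lemma misb_zeta {ℓ : ℕ} {E : Type} [Field E] (p : E[X]) (hp : IsGood ℓ p) :
    ∃ ζ : E, IsPrimitiveRoot ζ ℓ := by
  have h1 : IsAlgClosed E := hp.alg
  have h2 : NeZero ((ℓ : ℕ) : E) := ⟨hp.ne_zero⟩
  have hpos : 0 < ℓ := lt_trans Nat.zero_lt_one hp.one_lt
  have hdeg : (cyclotomic ℓ E).degree ≠ 0 := (degree_cyclotomic_pos ℓ E hpos).ne'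
  obtain ⟨ζ, hζ⟩ := IsAlgClosed.exists_root (cyclotomic ℓ E) hdeg
  exact ⟨ζ, isRoot_cyclotomic_iff.mp hζ⟩

/-- Exact sequences of cocycles. PROOF. `R 0 = - Q_0`; `ℓ • R (n+1) = R n - Q_n` (`exists_smul_eq` in `Wt/X1.lean`; a
primitive root `ζ` of order `ℓ` exists in `Ω` by `hG.alg`, `hG.ne_zero`), where `ℓ c_{n+1} - c_n = d Q_n`. -/
theorem exists_exact (hℓ : ℓ.Prime) (c : ℕ → (Ω ≃ₐ[L] Ω) → Jac ℓ (f.map (algebraMap L Ω)))
    (h0 : ∃ Q, ∀ g, c 0 g = symJ (gs f g) Q - Q)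
    (h : ∀ n, ∃ Q, ∀ g, ℓ • c (n + 1) g - c n g = symJ (gs f g) Q - Q) :
    ∃ R : ℕ → Jac ℓ (f.map (algebraMap L Ω)), (∀ g, c 0 g + (symJ (gs f g) (R 0) - R 0) = 0) ∧
      ∀ n g, ℓ • (c (n + 1) g + (symJ (gs f g) (R (n + 1)) - R (n + 1))) =
        c n g + (symJ (gs f g) (R n) - R n) := by
  obtain ⟨ζ, hζ⟩ := misb_zeta (f.map (algebraMap L Ω)) hG
  obtain ⟨Q0, hQ0⟩ := h0
  choose Q hQ using h
  have hdiv : ∀ X : Jac ℓ (f.map (algebraMap L Ω)), ∃ Y, ℓ • Y = X :=
    fun X => exists_smul_eq hℓ ζ hζ X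
  choose D hD using hdiv
  refine ⟨fun n => Nat.rec (-Q0) (fun n r => D (r - Q n)) n, fun g => ?_, fun n g => ?_⟩
  · show c 0 g + (symJ (gs f g) (-Q0) - (-Q0)) = 0
    rw [map_neg, hQ0]
    abel
  · set r : Jac ℓ (f.map (algebraMap L Ω)) :=
      (Nat.rec (-Q0) (fun n r => D (r - Q n)) n : Jac ℓ (f.map (algebraMap L Ω))) with hr
    show ℓ • (c (n + 1) g + (symJ (gs f g) (D (r - Q n)) - D (r - Q n))) =
      c n g + (symJ (gs f g) r - r)
    have h1 : ℓ • c (n + 1) g = c n g + (symJ (gs f g) (Q n) - Q n) := by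
      rw [← hQ n g]
      abel
    rw [smul_add, smul_sub, h1, ← map_nsmul, hD, map_sub]
    abel

end

section

variable {k F L Ω : Type} [Field k] [Field F] [Algebra k F] [IsAlgClosure k F] [Field L]
  [Algebra F[X] L] [IsFractionRing F[X] L] [Field Ω] [Algebra L Ω] [IsAlgClosure L Ω] {ℓ : ℕ}
  {f : L[X]} [hG : IsGood ℓ (f.map (algebraMap L Ω))]

variable (k F) in

/-- The automorphisms of `Ω` over `k'(t)`. -/
def AutK (L Ω : Type) [Field L] [Algebra F[X] L] [Field Ω] [Algebra L Ω] (k' : IntermediateField k F) :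
    Set (Ω ≃+* Ω) :=
  {γ | ∀ p : k'[X], γ (base k' F L Ω p) = base k' F L Ω p}

/-- The automorphisms over `k'(t)` preserve `F`. PROOF. `γ` is in `AutO k' F L Ω` (`Wl/Gen.lean`; `F` is an algebraic closure
of `k'`, the `base` of `k'` is the same): `resF_spec` (`s = resF γ`, an automorphism over `k'`). -/
theorem exists_of_mem_autK (k' : IntermediateField k F) {γ : Ω ≃+* Ω} (hγ : γ ∈ AutK k F L Ω k') :
    ∃ s : F ≃+* F, (∀ c ∈ k', s c = c) ∧ ∀ p : F[X], γ (algebraMap L Ω (algebraMap F[X] L p)) =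
      algebraMap L Ω (algebraMap F[X] L (p.map (s : F →+* F))) := by
  have hA : IsAlgClosed F := IsAlgClosure.isAlgClosed k
  have hal : Algebra.IsAlgebraic k F := IsAlgClosure.isAlgebraic
  have hal2 : Algebra.IsAlgebraic k' F := Algebra.IsAlgebraic.tower_top (K := k) k'
  have : IsAlgClosure k' F := ⟨hA, hal2⟩
  have hγ' : γ ∈ AutO k' F L Ω := hγ
  refine ⟨((resF (⟨γ, hγ'⟩ : AutO k' F L Ω) : F ≃ₐ[k'] F) : F ≃+* F), fun c hc => ?_, fun p => ?_⟩
  · exact (resF (⟨γ, hγ'⟩ : AutO k' F L Ω) : F ≃ₐ[k'] F).commutes ⟨c, hc⟩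
  · exact resF_spec (⟨γ, hγ'⟩ : AutO k' F L Ω) p

omit [IsAlgClosure k F] [IsAlgClosure L Ω] in
private lemma misc_fix (z : L) : ∃ B : Finset F, ∀ k' : IntermediateField k F,
    (∀ c ∈ B, c ∈ k') → ∀ γ ∈ AutK k F L Ω k', γ (algebraMap L Ω z) = algebraMap L Ω z := by
  obtain ⟨p, q, hq, rfl⟩ := IsFractionRing.div_surjective (A := F[X]) z
  refine ⟨p.support.image p.coeff ∪ q.support.image q.coeff, fun k' hk' γ hγ => ?_⟩
  have key : ∀ r : F[X], (∀ n ∈ r.support, r.coeff n ∈ k') →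
      γ (algebraMap L Ω (algebraMap F[X] L r)) = algebraMap L Ω (algebraMap F[X] L r) := by
    intro r hr
    have h1 : r ∈ Polynomial.lifts (algebraMap k' F) := by
      rw [Polynomial.lifts_iff_coeff_lifts]
      intro n
      by_cases hn : n ∈ r.support
      · exact ⟨⟨r.coeff n, hr n hn⟩, rfl⟩
      · exact ⟨0, by rw [map_zero, notMem_support_iff.mp hn]⟩
    obtain ⟨r', hr'⟩ := (Polynomial.mem_lifts _).mp h1
    have h2 := hγ r'
    have h3 : base k' F L Ω r' = algebraMap L Ω (algebraMap F[X] L r) := by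
      rw [← hr']
      rfl
    rwa [h3] at h2
  rw [map_div₀, map_div₀,
    key p fun n hn => hk' _ (Finset.mem_union_left _ (Finset.mem_image_of_mem _ hn)),
    key q fun n hn => hk' _ (Finset.mem_union_right _ (Finset.mem_image_of_mem _ hn))]

omit [IsAlgClosure k F] in
private lemma misc_agree (T : Finset Ω) : ∃ B : Finset F, ∀ k' : IntermediateField k F,
    (∀ c ∈ B, c ∈ k') → ∀ γ ∈ AutK k F L Ω k', ∃ σ : Ω ≃ₐ[L] Ω, ∀ x ∈ T, γ x = σ x := by
  have halg : Algebra.IsAlgebraic L Ω := IsAlgClosure.isAlgebraic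
  have hclo : IsAlgClosed Ω := IsAlgClosure.isAlgClosed L
  obtain ⟨φ, hφ⟩ : ∃ φ : MvPolynomial (T : Set Ω) L →ₐ[L] Ω,
      φ = MvPolynomial.aeval (fun x => x.1) :=
    ⟨MvPolynomial.aeval (fun x => x.1), rfl⟩
  obtain ⟨G, hG⟩ : (RingHom.ker φ).FG := IsNoetherian.noetherian _
  choose B hB using fun z : L => misc_fix (k := k) (F := F) (Ω := Ω) z
  refine ⟨(G.biUnion fun p => p.support.image fun d => MvPolynomial.coeff d p).biUnion B,
    fun k' hk' γ hγ => ?_⟩
  obtain ⟨φγ, hφγ⟩ : ∃ φγ : MvPolynomial (T : Set Ω) L →ₐ[L] Ω,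
      φγ = MvPolynomial.aeval (fun x : (T : Set Ω) => γ x.1) :=
    ⟨MvPolynomial.aeval (fun x : (T : Set Ω) => γ x.1), rfl⟩
  have hgen : ∀ p ∈ G, φγ p = 0 := by
    intro p hp
    have h0 : φ p = 0 := by
      have : p ∈ RingHom.ker φ := by
        rw [← hG]
        exact Ideal.subset_span hp
      exact this
    rw [hφ, MvPolynomial.aeval_def, MvPolynomial.eval₂_eq] at h0
    have h1 := congrArg γ h0
    rw [map_zero, map_sum] at h1
    rw [hφγ, MvPolynomial.aeval_def, MvPolynomial.eval₂_eq, ← h1]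
    refine Finset.sum_congr rfl fun d hd => ?_
    rw [map_mul, map_prod, hB (MvPolynomial.coeff d p) k' (fun c hc => hk' c ?_) γ hγ]
    · simp only [map_pow]
    · exact Finset.mem_biUnion.mpr ⟨_, Finset.mem_biUnion.mpr
        ⟨p, hp, Finset.mem_image_of_mem _ hd⟩, hc⟩
  have hker : ∀ p q, φ p = φ q → φγ p = φγ q := by
    intro p q hpq
    have h1 : p - q ∈ Ideal.span (G : Set (MvPolynomial (T : Set Ω) L)) := by
      rw [hG]
      show φ (p - q) = 0
      rw [map_sub, hpq, sub_self]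
    have h2 : Ideal.span (G : Set (MvPolynomial (T : Set Ω) L)) ≤ RingHom.ker φγ :=
      Ideal.span_le.mpr fun r hr => hgen r hr
    have h3 : φγ (p - q) = 0 := h2 h1
    rw [map_sub] at h3
    exact sub_eq_zero.mp h3
  have hsurj : ∀ e : IntermediateField.adjoin L (T : Set Ω), ∃ p, φ p = e := by
    intro e
    have h1 : (e : Ω) ∈ (IntermediateField.adjoin L (T : Set Ω)).toSubalgebra := e.2
    rw [IntermediateField.adjoin_toSubalgebra, Algebra.adjoin_eq_range, ← hφ] at h1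
    exact h1
  choose P hP using hsurj
  obtain ⟨ψ, hψ⟩ : ∃ ψ : IntermediateField.adjoin L (T : Set Ω) →ₐ[L] Ω, ∀ e, ψ e = φγ (P e) := by
    refine ⟨⟨⟨⟨⟨fun e => φγ (P e), ?_⟩, ?_⟩, ?_, ?_⟩, ?_⟩, fun _ => rfl⟩
    · rw [← map_one φγ]
      exact hker _ _ (by rw [hP, map_one]; rfl)
    · intro e e'
      rw [← map_mul]
      exact hker _ _ (by rw [hP, map_mul, hP, hP]; rfl)
    · show φγ (P 0) = 0
      rw [← map_zero φγ]
      exact hker _ _ (by rw [hP, map_zero]; rfl)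
    · intro e e'
      show φγ (P (e + e')) = φγ (P e) + φγ (P e')
      rw [← map_add]
      exact hker _ _ (by rw [hP, map_add, hP, hP]; rfl)
    · intro r
      show φγ (P (algebraMap _ _ r)) = algebraMap L Ω r
      rw [← AlgHom.commutes φγ r]
      exact hker _ _ (by rw [hP, AlgHom.commutes]; rfl)
  obtain ⟨Φ, hΦ⟩ := IsAlgClosed.surjective_domRestrict_of_isAlgebraic (K := L)
    (L := IntermediateField.adjoin L (T : Set Ω)) (M := Ω) (E := Ω) ψ
  refine ⟨AlgEquiv.ofBijective Φ (Algebra.IsAlgebraic.algHom_bijective Φ), fun x hx => ?_⟩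
  have h1 : Φ x = ψ ⟨x, IntermediateField.subset_adjoin L _ hx⟩ := by
    rw [← hΦ]
    rfl
  rw [AlgEquiv.ofBijective_apply, h1, hψ]
  have h2 : γ x = φγ (MvPolynomial.X ⟨x, hx⟩) := by
    rw [hφγ, MvPolynomial.aeval_X]
  rw [h2]
  refine hker _ _ ?_
  rw [hP, hφ, MvPolynomial.aeval_X]

/-- A point over `L` is defined over `k'(t)` for some finite `k'`. PROOF. `R = cl D`; let `T` be the finite set of the
coordinates of the points of the support of `D`. CLAIM: there is a finite `k'` such that each `γ` in `AutK k'` agrees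
on `T` with some `σ : Ω ≃ₐ[L] Ω`; then `γ R = σ R = R` (`symJ_cl`). The claim: let `q` be the exponential characteristic; for
some `s` the elements `x ^ (q ^ s)`, `x ∈ T`, are in the separable closure of `L` in `Ω` (`separableClosure.isPurelyInseparable`,
`IsPurelyInseparable.pow_mem`), so in `L[θ]` for some separable `θ` (`Field.exists_primitive_element` for the finite separable
extension generated by them; compare `exists_finset_agree` in `Cont45.lean`): `x ^ (q ^ s) = P_x(θ)`. Let `k'` be generated by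
the finitely many elements of `F` which are coefficients of numerators and denominators of the coefficients of `minpoly L θ`
and of the `P_x`. `γ` fixes these coefficients, so `γ θ` is a root of `minpoly L θ`, `γ θ = σ θ` with `σ : Ω ≃ₐ[L] Ω`
(`minpoly.exists_algEquiv_of_root'`, `Ω` is normal over `L`), and `(γ x) ^ (q ^ s) = (σ x) ^ (q ^ s)`. -/
theorem exists_fin_stab (R : Jac ℓ (f.map (algebraMap L Ω))) (hR : ∀ σ : Ω ≃ₐ[L] Ω, symJ (gs f σ) R = R) :
    ∃ k' : IntermediateField k F, FiniteDimensional k k' ∧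
      ∀ γ ∈ AutK k F L Ω k', ∀ hγ : γ ∈ Sym (f.map (algebraMap L Ω)), symJ ⟨γ, hγ⟩ R = R := by
  obtain ⟨D, rfl⟩ := cl_surjective R
  obtain ⟨B, hB⟩ := misc_agree (k := k) (F := F) (L := L)
    (D.support.image Pt.x ∪ D.support.image Pt.y)
  have halg : Algebra.IsAlgebraic k F := IsAlgClosure.isAlgebraic
  refine ⟨IntermediateField.adjoin k (B : Set F),
    IntermediateField.finiteDimensional_adjoin fun x _ => Algebra.IsIntegral.isIntegral x,
    fun γ hγ hγ' => ?_⟩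
  obtain ⟨σ, hσ⟩ := hB _ (fun c hc => IntermediateField.subset_adjoin k _ hc) γ hγ
  have h1 : D.mapDomain (Pt.sym (N := ℓ) (⟨γ, hγ'⟩ : Sym (f.map (algebraMap L Ω)))) =
      D.mapDomain (Pt.sym (gs f σ)) := by
    refine Finsupp.mapDomain_congr fun P hP => ?_
    exact Pt.ext (hσ _ (Finset.mem_union_left _ (Finset.mem_image_of_mem _ hP)))
      (hσ _ (Finset.mem_union_right _ (Finset.mem_image_of_mem _ hP)))
  rw [symJ_cl, h1, ← symJ_cl, hR σ]

variable (k) in

/-- The orbit map of a class is locally constant. -/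
private lemma misb_loc (Q : Jac ℓ (f.map (algebraMap L Ω))) :
    IsLocallyConstant fun σ : Ω ≃ₐ[L] Ω => symJ (gs f σ) Q := by
  obtain ⟨E, rfl⟩ := cl_surjective Q
  rw [IsLocallyConstant.iff_exists_open]
  intro σ₀
  let S : Set Ω := (fun P : Pt ℓ (f.map (algebraMap L Ω)) => P.x) '' (E.support : Set _) ∪
    (fun P : Pt ℓ (f.map (algebraMap L Ω)) => P.y) '' (E.support : Set _)
  have hSf : S.Finite := (E.support.finite_toSet.image _).union (E.support.finite_toSet.image _)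
  let K : IntermediateField L Ω := IntermediateField.adjoin L S
  have halg : Algebra.IsAlgebraic L Ω := IsAlgClosure.isAlgebraic
  have : FiniteDimensional L K :=
    IntermediateField.finiteDimensional_adjoin fun x _ => Algebra.IsIntegral.isIntegral x
  have hopen : IsOpen (K.fixingSubgroup : Set (Ω ≃ₐ[L] Ω)) := K.fixingSubgroup_isOpen
  refine ⟨(fun σ => σ₀⁻¹ * σ) ⁻¹' (K.fixingSubgroup : Set (Ω ≃ₐ[L] Ω)),
    hopen.preimage (continuous_const_mul σ₀⁻¹), ?_, ?_⟩
  · show σ₀⁻¹ * σ₀ ∈ K.fixingSubgroup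
    rw [inv_mul_cancel]
    exact one_mem _
  · intro σ hσ
    have hσ' : σ₀⁻¹ * σ ∈ K.fixingSubgroup := hσ
    have hS : ∀ x ∈ S, σ x = σ₀ x := by
      intro x hx
      have h1 := (IntermediateField.mem_fixingSubgroup_iff K _).mp hσ' x
        (IntermediateField.subset_adjoin L S hx)
      have h2 : σ₀ ((σ₀⁻¹ * σ) x) = σ x := σ₀.apply_symm_apply (σ x)
      rw [← h2, h1]
    show symJ (gs f σ) (cl E) = symJ (gs f σ₀) (cl E)
    rw [symJ_cl, symJ_cl]
    congr 1
    refine Finsupp.mapDomain_congr fun P hP => ?_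
    refine Pt.ext ?_ ?_
    · exact hS P.x (Or.inl ⟨P, hP, rfl⟩)
    · exact hS P.y (Or.inr ⟨P, hP, rfl⟩)

/-- Intertwining automorphisms. -/
private lemma misb_comm (γ : Ω ≃+* Ω) (hγ : γ ∈ Sym (f.map (algebraMap L Ω))) (g h : Ω ≃ₐ[L] Ω)
    (hgh : ∀ x, γ (g x) = h (γ x)) (Q : Jac ℓ (f.map (algebraMap L Ω))) :
    symJ ⟨γ, hγ⟩ (symJ (gs f g) Q) = symJ (gs f h) (symJ ⟨γ, hγ⟩ Q) := by
  rw [← symJ_mul, ← symJ_mul]
  have h1 : (⟨γ, hγ⟩ : Sym (f.map (algebraMap L Ω))) * gs f g = gs f h * ⟨γ, hγ⟩ := by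
    apply Subtype.ext
    ext x
    exact hgh x
  rw [h1]

/-- The group of the points over `L` is killed by `ℓ` modulo `ℓ ^ n`. PROOF. `R_0 = R`, `ℓ R_{n+1} = R_n`
(`exists_smul_eq`), `c_n(σ) = σ R_n - R_n` is a Tate cocycle (continuous as `R_n = cl D_n`), locally trivial (take the image of
`R_n` by `push j`), fixed by the elements `γ` of `AutK k'`, `k'` as in `exists_fin_stab`, with `m = 1` and `A = γ R_n - R_n`
(`ℓ ^ n A = γ R - R = 0`). By `hNT`: `ℓ c_n(σ) = σ A_n - A_n`, `ℓ ^ n A_n = 0`; `R' = ℓ R_n - A_n`. -/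
theorem mordell_weil (hℓ : ℓ.Prime)
    (hNT : ∀ k' : IntermediateField k F, FiniteDimensional k k' →
      NTm45 (F := F) ℓ ℓ L Ω f (AutK k F L Ω k'))
    (R : Jac ℓ (f.map (algebraMap L Ω))) (hR : ∀ σ : Ω ≃ₐ[L] Ω, symJ (gs f σ) R = R) (n : ℕ) :
    ∃ R' : Jac ℓ (f.map (algebraMap L Ω)), (∀ σ : Ω ≃ₐ[L] Ω, symJ (gs f σ) R' = R') ∧
      ℓ • R = ℓ ^ n • R' := by
  obtain ⟨ζ, hζ⟩ := misb_zeta (f.map (algebraMap L Ω)) hG
  obtain ⟨k', hk', hfix⟩ := exists_fin_stab (k := k) (F := F) R hR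
  have hdiv : ∀ X : Jac ℓ (f.map (algebraMap L Ω)), ∃ Y, ℓ • Y = X :=
    fun X => exists_smul_eq hℓ ζ hζ X
  choose D hD using hdiv
  let r : ℕ → Jac ℓ (f.map (algebraMap L Ω)) := fun n => Nat.rec R (fun _ r => D r) n
  have hr0 : r 0 = R := rfl
  have hr : ∀ n, ℓ • r (n + 1) = r n := fun n => hD (r n)
  have hrp : ∀ n, ℓ ^ n • r n = R := by
    intro n
    induction n with
    | zero => rw [pow_zero, one_smul, hr0]
    | succ n ih => rw [pow_succ, mul_smul, hr, ih]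
  let c : ℕ → (Ω ≃ₐ[L] Ω) → JacOver ℓ f Ω := fun n σ => symJ (gs f σ) (r n) - r n
  have hc : Wt.IsTateCocycle ℓ f c := by
    refine ⟨fun σ => ?_, fun n σ => ?_, fun n σ τ => ?_, fun n => ?_⟩
    · show symJ (gs f σ) (r 0) - r 0 = 0
      rw [hr0, hR, sub_self]
    · show ℓ • (symJ (gs f σ) (r (n + 1)) - r (n + 1)) = symJ (gs f σ) (r n) - r n
      rw [smul_sub, ← map_nsmul, hr]
    · show symJ (gs f (σ * τ)) (r n) - r n = (symJ (gs f σ) (r n) - r n) +
        symJ (gs f σ) (symJ (gs f τ) (r n) - r n)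
      rw [map_mul, symJ_mul, map_sub]
      abel
    · exact (misb_loc (r n)).comp (fun x => x - r n)
  have hloc : ∀ (v : HeightOneSpectrum F[X]) (n : ℕ),
      Wt.IsLocallyTrivial ℓ f (c n) (v.adicCompletion L) := by
    intro v n M _ _ _ _ _ j
    refine ⟨push ℓ f j (r n), fun g g' hg => ?_⟩
    show push ℓ f j (push ℓ f (g' : Ω →ₐ[L] Ω) (r n) - r n) =
      push ℓ f (g.restrictScalars L : M →ₐ[L] M) (push ℓ f j (r n)) - push ℓ f j (r n)
    rw [map_sub, push_push, push_push]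
    have h1 : j.comp (g' : Ω →ₐ[L] Ω) = (g.restrictScalars L : M →ₐ[L] M).comp j := by
      ext x
      exact hg x
    rw [h1]
  have hfx : ∀ (γ : Ω ≃+* Ω) hγ, γ ∈ AutK k F L Ω k' → Wt.IsFixedBy ℓ f c γ hγ := by
    intro γ hγ hγK
    have hRγ : symJ ⟨γ, hγ⟩ R = R := hfix γ hγK hγ
    refine ⟨1, Nat.one_pos, fun n => ⟨symJ ⟨γ, hγ⟩ (r n) - r n, ?_, fun g h hgh => ?_⟩⟩
    · rw [smul_sub, ← map_nsmul, hrp, hRγ, sub_self]
    · show 1 • (symJ ⟨γ, hγ⟩ (symJ (gs f g) (r n) - r n) - (symJ (gs f h) (r n) - r n)) =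
        symJ (gs f h) (symJ ⟨γ, hγ⟩ (r n) - r n) - (symJ ⟨γ, hγ⟩ (r n) - r n)
      rw [one_smul, map_sub, map_sub, misb_comm γ hγ g h hgh]
      abel
  obtain ⟨A, hA0, hA⟩ := hNT k' hk' c hc hloc hfx n
  refine ⟨ℓ • r n - A, fun σ => ?_, ?_⟩
  · have h1 : ℓ • (symJ (gs f σ) (r n) - r n) = symJ (gs f σ) A - A := hA σ
    rw [map_sub, map_nsmul]
    rw [smul_sub] at h1
    rw [sub_eq_sub_iff_add_eq_add] at h1 ⊢
    rw [h1]
    exact add_comm _ _
  · rw [smul_sub, hA0, sub_zero, smul_comm, hrp]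

/-- `γ` maps `L` onto `L`. -/
private lemma misb_range (γ : Ω ≃+* Ω) (s : F ≃+* F)
    (hs : ∀ p : F[X], γ (algebraMap L Ω (algebraMap F[X] L p)) =
      algebraMap L Ω (algebraMap F[X] L (p.map (s : F →+* F)))) (y : L) :
    ∃ z : L, γ (algebraMap L Ω y) = algebraMap L Ω z := by
  obtain ⟨p, q, hq, rfl⟩ := IsFractionRing.div_surjective (A := F[X]) y
  refine ⟨algebraMap F[X] L (p.map (s : F →+* F)) / algebraMap F[X] L (q.map (s : F →+* F)), ?_⟩
  rw [map_div₀, map_div₀, map_div₀, hs, hs]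

/-- The conjugate automorphism. -/
private lemma misb_conj (γ : Ω ≃+* Ω) (s : F ≃+* F)
    (hs : ∀ p : F[X], γ (algebraMap L Ω (algebraMap F[X] L p)) =
      algebraMap L Ω (algebraMap F[X] L (p.map (s : F →+* F)))) (g' : Ω ≃ₐ[L] Ω) :
    ∃ g : Ω ≃ₐ[L] Ω, ∀ z, γ (g z) = g' (γ z) := by
  let e : Ω ≃+* Ω := (γ.trans (g' : Ω ≃+* Ω)).trans γ.symm
  have he : ∀ z, γ (e z) = g' (γ z) := fun z => γ.apply_symm_apply _
  refine ⟨AlgEquiv.ofRingEquiv (f := e) fun y => ?_, fun z => he z⟩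
  obtain ⟨z, hz⟩ := misb_range γ s hs y
  apply γ.injective
  rw [he, hz, g'.commutes]

/-- The invariance of the cocycle, with the multiple `ℓ`. PROOF. `γ` maps `L` onto `L`, so for `g'` there is `g` with
`γ g = g' γ`. Let `δ(g') = γ c_n(g) - c_n(g')`; `ℓ ^ n δ = 0` (`hc.zero`, `hc.smul`) and `m δ = d Q`. With
`u m = 1 + v ℓ ^ n`: `δ = d (u Q)`. `R = ℓ ^ n u Q` is fixed by all `σ`; by `hMW` `ℓ R = ℓ ^ n R'`, and
`ℓ δ = d A`, `A = ℓ u Q - R'`, `ℓ ^ n A = 0`. -/
theorem isFixedBy_of {c : ℕ → (Ω ≃ₐ[L] Ω) → Jac ℓ (f.map (algebraMap L Ω))} (hℓ : ℓ.Prime)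
    (hc : Wt.IsTateCocycle ℓ f c)
    (hMW : ∀ (R : Jac ℓ (f.map (algebraMap L Ω))), (∀ σ : Ω ≃ₐ[L] Ω, symJ (gs f σ) R = R) → ∀ n : ℕ,
      ∃ R' : Jac ℓ (f.map (algebraMap L Ω)), (∀ σ : Ω ≃ₐ[L] Ω, symJ (gs f σ) R' = R') ∧
        ℓ • R = ℓ ^ n • R')
    (γ : Ω ≃+* Ω) (hγ : (f.map (algebraMap L Ω)).map (γ : Ω →+* Ω) = f.map (algebraMap L Ω))
    (s : F ≃+* F) (hs : ∀ p : F[X], γ (algebraMap L Ω (algebraMap F[X] L p)) =
      algebraMap L Ω (algebraMap F[X] L (p.map (s : F →+* F))))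
    (h : ∀ n, ∃ m : ℕ, m.Coprime ℓ ∧ ∃ Q : Jac ℓ (f.map (algebraMap L Ω)), ∀ g g' : Ω ≃ₐ[L] Ω,
      (∀ z, γ (g z) = g' (γ z)) →
        m • (symJ ⟨γ, hγ⟩ (c n g) - c n g') = symJ (gs f g') Q - Q) :
    Wt.IsFixedBy ℓ f c γ hγ := by
  refine ⟨ℓ, hℓ.pos, fun n => ?_⟩
  obtain ⟨m, hm, Q, hQ⟩ := h n
  have hc0 : ∀ n σ, ℓ ^ n • c n σ = 0 := by
    intro n σ
    induction n with
    | zero => rw [hc.zero, smul_zero]
    | succ n ih => rw [pow_succ, mul_smul, hc.smul, ih]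
  obtain ⟨u, hu⟩ : ∃ u : ℕ, u * m ≡ 1 [MOD ℓ ^ n] := by
    rcases Nat.eq_zero_or_pos n with h0 | h0
    · exact ⟨0, by rw [h0, pow_zero]; exact Nat.modEq_one⟩
    · have hk : 1 < ℓ ^ n := Nat.one_lt_pow h0.ne' hℓ.one_lt
      obtain ⟨u, -, hu⟩ := Nat.exists_mul_mod_eq_one_of_coprime (Nat.Coprime.pow_right n hm) hk
      refine ⟨u, ?_⟩
      show u * m % ℓ ^ n = 1 % ℓ ^ n
      rw [mul_comm, hu, Nat.mod_eq_of_lt hk]
  have key : ∀ X : Jac ℓ (f.map (algebraMap L Ω)), ℓ ^ n • X = 0 → (u * m) • X = X := by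
    intro X hX
    have h1 : ∀ a : ℕ, a • X = (a % ℓ ^ n) • X := by
      intro a
      conv_lhs => rw [← Nat.mod_add_div a (ℓ ^ n)]
      rw [add_smul, mul_comm (ℓ ^ n), mul_smul, hX, smul_zero, add_zero]
    rw [h1 (u * m), hu, ← h1 1, one_smul]
  have hδ : ∀ g g' : Ω ≃ₐ[L] Ω, (∀ z, γ (g z) = g' (γ z)) →
      symJ ⟨γ, hγ⟩ (c n g) - c n g' = symJ (gs f g') (u • Q) - u • Q := by
    intro g g' hgg
    have h0 : ℓ ^ n • (symJ ⟨γ, hγ⟩ (c n g) - c n g') = 0 := by
      rw [smul_sub, ← map_nsmul, hc0, hc0, map_zero, sub_zero]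
    rw [← key _ h0, mul_smul, hQ g g' hgg, map_nsmul, ← smul_sub]
  have hfix : ∀ σ : Ω ≃ₐ[L] Ω, symJ (gs f σ) (ℓ ^ n • u • Q) = ℓ ^ n • u • Q := by
    intro σ
    obtain ⟨g, hg⟩ := misb_conj γ s hs σ
    have h1 := hδ g σ hg
    have h0 : ℓ ^ n • (symJ ⟨γ, hγ⟩ (c n g) - c n σ) = 0 := by
      rw [smul_sub, ← map_nsmul, hc0, hc0, map_zero, sub_zero]
    rw [h1, smul_sub, ← map_nsmul] at h0
    exact sub_eq_zero.mp h0
  obtain ⟨R', hR', hR⟩ := hMW _ hfix n
  refine ⟨ℓ • u • Q - R', ?_, fun g g' hgg => ?_⟩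
  · rw [smul_sub, ← hR, smul_comm, sub_self]
  · show ℓ • (symJ ⟨γ, hγ⟩ (c n g) - c n g') = symJ (gs f g') (ℓ • u • Q - R') - (ℓ • u • Q - R')
    rw [hδ g g' hgg, map_sub, hR', smul_sub, ← map_nsmul]
    abel

end

end Pool.Agent.Lib.MP_89bcae_ag.Bra

end
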