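import Mathlib
import Pool.Agent.Lib.MP_89bcae_ag.Bk.K036

namespace Pool.Agent.Lib.MP_89bcae_ag.Wt
end Pool.Agent.Lib.MP_89bcae_ag.Wt
namespace Pool.Agent.Lib.MP_89bcae_ag.Wt.Lns
end Pool.Agent.Lib.MP_89bcae_ag.Wt.Lns

section

/-!
# Cocycles with values in a permutation module
-/

open scoped Classical

namespace Pool.Agent.Lib.MP_89bcae_ag.Bra

section

variable {G X : Type*} [Group G] [MulAction G X]

lemma mapDomain_smul_apply {A : Type*} [AddCommGroup A] (g : G) (c : X →₀ A) (x : X) :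
    c.mapDomain (g • ·) x = c (g⁻¹ • x) := by
  have h := Finsupp.mapDomain_apply (MulAction.injective g) c (g⁻¹ • x)
  rwa [smul_inv_smul] at h

/-- A cocycle with values in the divisors with coefficients in `A` whose components at the fixed points
vanish is a coboundary. PROOF. In each orbit choose `x₀`, and for each `x` an `s_x` with `s_x • x₀ = x`. Put
`D x = - c (s_x) x`. If `η` fixes `x₀`: `c (s_x η) x = c η x₀ + c s_x x = c s_x x`. Apply this to `g s_y = s_x η`,
`y = g⁻¹ x`: `c (g s_y) x = c s_y y + c g x`, so `c g x = c s_x x - c s_y y`. -/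
theorem shapiro {A : Type*} [AddCommGroup A] (c : G → (X →₀ A)) (Z : Finset X)
    (hZ : ∀ g, (c g).support ⊆ Z)
    (hc : ∀ g h, c (g * h) = (c h).mapDomain (g • ·) + c g)
    (h0 : ∀ (x : X) (g : G), g • x = x → c g x = 0) :
    ∃ D : X →₀ A, D.support ⊆ Z ∧ ∀ g, c g = D.mapDomain (g • ·) - D := by
  have hr : ∀ x : X, ∃ g : G,
      g • (Quotient.out (Quotient.mk (MulAction.orbitRel G X) x) : X) = x := by
    intro x
    have h1 : (MulAction.orbitRel G X).r (Quotient.out (Quotient.mk (MulAction.orbitRel G X) x)) x :=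
      Quotient.exact (Quotient.out_eq _)
    have h2 : x ∈ MulAction.orbit G (Quotient.out (Quotient.mk (MulAction.orbitRel G X) x) : X) :=
      MulAction.orbitRel_apply.1 ((MulAction.orbitRel G X).symm h1)
    exact h2
  choose s hs using hr
  have hca : ∀ g h x, c (g * h) x = c h (g⁻¹ • x) + c g x := by
    intro g h x
    rw [hc, Finsupp.add_apply, mapDomain_smul_apply]
  have hkey : ∀ g x, c (s x) x = c (s (g⁻¹ • x)) (g⁻¹ • x) + c g x := by
    intro g x
    have hq : Quotient.mk (MulAction.orbitRel G X) (g⁻¹ • x) = Quotient.mk (MulAction.orbitRel G X) x :=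
      Quotient.sound (MulAction.orbitRel_apply.2 (MulAction.mem_orbit x g⁻¹))
    have hy := hs (g⁻¹ • x)
    have hx := hs x
    rw [hq] at hy
    have hη : ((s x)⁻¹ * (g * s (g⁻¹ • x))) •
        (Quotient.out (Quotient.mk (MulAction.orbitRel G X) x) : X) =
        Quotient.out (Quotient.mk (MulAction.orbitRel G X) x) := by
      rw [mul_smul, mul_smul, hy, smul_inv_smul, inv_smul_eq_iff]
      exact hx.symm
    have h1 := hca (s x) ((s x)⁻¹ * (g * s (g⁻¹ • x))) x
    have h2 : (s x)⁻¹ • x = (Quotient.out (Quotient.mk (MulAction.orbitRel G X) x) : X) := by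
      rw [inv_smul_eq_iff]
      exact hx.symm
    rw [mul_inv_cancel_left, h2, h0 _ _ hη, zero_add] at h1
    rw [← h1, hca]
  have hD : ∀ x, -c (s x) x ≠ 0 → x ∈ Z := by
    intro x hx
    apply hZ (s x)
    rw [Finsupp.mem_support_iff]
    intro h
    apply hx
    rw [h, neg_zero]
  refine ⟨Finsupp.onFinset Z (fun x => -c (s x) x) hD, Finsupp.support_onFinset_subset, ?_⟩
  intro g
  ext x
  rw [Finsupp.sub_apply, mapDomain_smul_apply, Finsupp.onFinset_apply, Finsupp.onFinset_apply,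
    hkey g x]
  abel

/-- Every cocycle of degree two is a coboundary over the rational numbers. PROOF. `C g` is the sum of the
`B g r.out`, `r` in the finite type `G ⧸ N`, divided by the index; sum the cocycle identity over `j = r.out` and
reindex `G ⧸ N` by `h • ·` (`B g (h * r.out) = B g (h • r).out`, as the two differ by an element of `N` on the right).
The range of `C` is finite as `C g` is a function of the `B g r.out`, `r : G ⧸ N`, which are in a finite set. -/
theorem exists_rational (B : G → G → (X →₀ ℤ)) (Z : Finset X)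
    (hBZ : ∀ g h, (B g h).support ⊆ Z)
    (hB : ∀ g h j, B g h + B (g * h) j = (B h j).mapDomain (g • ·) + B g (h * j))
    (N : Subgroup G) [N.FiniteIndex] (hN : ∀ g r, ∀ k ∈ N, B g (r * k) = B g r)
    (hr : (Set.range fun p : G × G => B p.1 p.2).Finite) :
    ∃ C : G → (X →₀ ℚ), (∀ g, (C g).support ⊆ Z) ∧
      (∀ g h, (B g h).mapRange (Int.castAddHom ℚ) (map_zero _) + C (g * h) =
        (C h).mapDomain (g • ·) + C g) ∧
      (Set.range C).Finite ∧ ∀ g g', (∀ h, B g h = B g' h) → C g = C g' := by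
  have : Fintype (G ⧸ N) := Subgroup.fintypeQuotientOfFiniteIndex
  have hm : ((Fintype.card (G ⧸ N) : ℕ) : ℚ) ≠ 0 := by
    have : 0 < Fintype.card (G ⧸ N) := Fintype.card_pos
    exact_mod_cast this.ne'
  obtain ⟨S, hS⟩ : ∃ S : G → (X →₀ ℤ), S = fun g => ∑ r : G ⧸ N, B g r.out := ⟨_, rfl⟩
  have hre : ∀ g h : G, ∑ r : G ⧸ N, B g (h * r.out) = ∑ r : G ⧸ N, B g r.out := by
    intro g h
    have h1 : ∀ r : G ⧸ N, B g (h * r.out) = B g (h • r).out := by
      intro r
      have h2 : (QuotientGroup.mk (h * r.out) : G ⧸ N) = QuotientGroup.mk (h • r).out := by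
        have h3 : (QuotientGroup.mk (h • r).out : G ⧸ N) = h • r := QuotientGroup.out_eq' _
        have h4 : (QuotientGroup.mk r.out : G ⧸ N) = r := QuotientGroup.out_eq' _
        rw [h3]
        show h • (QuotientGroup.mk r.out : G ⧸ N) = h • r
        rw [h4]
      rw [QuotientGroup.eq] at h2
      have h5 := hN g (h * r.out) _ h2
      rw [mul_inv_cancel_left] at h5
      exact h5.symm
    rw [Finset.sum_congr rfl (fun r _ => h1 r)]
    exact Equiv.sum_comp (MulAction.toPerm h) (fun r : G ⧸ N => B g r.out)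
  have hSx : ∀ g x, S g x = ∑ r : G ⧸ N, B g r.out x := by
    intro g x
    rw [hS]
    exact Finsupp.finset_sum_apply _ _ _
  have hS1 : ∀ g h x, (Fintype.card (G ⧸ N) : ℤ) * B g h x + S (g * h) x = S h (g⁻¹ • x) + S g x := by
    intro g h x
    have h1 : ∑ r : G ⧸ N, (B g h x + B (g * h) r.out x) =
        ∑ r : G ⧸ N, (B h r.out (g⁻¹ • x) + B g (h * r.out) x) := by
      refine Finset.sum_congr rfl fun r _ => ?_
      have h2 := DFunLike.congr_fun (hB g h r.out) x
      rw [Finsupp.add_apply, Finsupp.add_apply, mapDomain_smul_apply] at h2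
      exact h2
    rw [Finset.sum_add_distrib, Finset.sum_add_distrib, Finset.sum_const, Finset.card_univ,
      nsmul_eq_mul] at h1
    have h3 : ∑ r : G ⧸ N, B g (h * r.out) x = ∑ r : G ⧸ N, B g r.out x := by
      have := DFunLike.congr_fun (hre g h) x
      rw [Finsupp.finset_sum_apply, Finsupp.finset_sum_apply] at this
      exact this
    rw [hSx, hSx, hSx, ← h3]
    exact h1
  obtain ⟨F, hF⟩ : ∃ F : (X →₀ ℤ) → (X →₀ ℚ), F = fun T =>
      ((Fintype.card (G ⧸ N) : ℕ) : ℚ)⁻¹ • (T.mapRange (Int.castAddHom ℚ) (map_zero _)) := ⟨_, rfl⟩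
  have hFx : ∀ T x, F T x = ((Fintype.card (G ⧸ N) : ℕ) : ℚ)⁻¹ * (T x : ℚ) := by
    intro T x
    rw [hF]
    show (((Fintype.card (G ⧸ N) : ℕ) : ℚ)⁻¹ • (T.mapRange (Int.castAddHom ℚ) (map_zero _))) x = _
    rw [Finsupp.smul_apply, Finsupp.mapRange_apply, smul_eq_mul]
    rfl
  refine ⟨fun g => F (S g), ?_, ?_, ?_, ?_⟩
  · intro g x hx
    rw [Finsupp.mem_support_iff, hFx, hSx] at hx
    by_contra hxZ
    apply hx
    have : ∑ r : G ⧸ N, B g r.out x = 0 := by
      refine Finset.sum_eq_zero fun r _ => ?_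
      by_contra h1
      exact hxZ (hBZ g r.out (Finsupp.mem_support_iff.2 h1))
    rw [this]
    simp
  · intro g h
    ext x
    rw [Finsupp.add_apply, Finsupp.add_apply, mapDomain_smul_apply, hFx, hFx, hFx,
      Finsupp.mapRange_apply]
    have h1 : ((Fintype.card (G ⧸ N) : ℕ) : ℚ) * (B g h x : ℚ) + (S (g * h) x : ℚ) =
        (S h (g⁻¹ • x) : ℚ) + (S g x : ℚ) := by exact_mod_cast hS1 g h x
    show (B g h x : ℚ) + _ = _
    rw [← mul_add, ← h1, mul_add, inv_mul_cancel_left₀ hm]
  · have hfin : (Set.range fun g : G => fun r : G ⧸ N => B g r.out).Finite := by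
      refine (Set.Finite.pi (t := fun _ : G ⧸ N => Set.range fun p : G × G => B p.1 p.2)
        (fun _ => hr)).subset ?_
      rintro _ ⟨g, rfl⟩
      intro r _
      exact ⟨(g, r.out), rfl⟩
    have h2 : (Set.range fun g => F (S g)) ⊆
        (fun f : G ⧸ N → (X →₀ ℤ) => F (∑ r, f r)) '' (Set.range fun g : G => fun r : G ⧸ N => B g r.out) := by
      rintro _ ⟨g, rfl⟩
      exact ⟨_, ⟨g, rfl⟩, by rw [hS]⟩
    exact (hfin.image _).subset h2
  · intro g g' h
    have : S g = S g' := by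
      rw [hS]
      exact Finset.sum_congr rfl fun r _ => h _
    show F (S g) = F (S g')
    rw [this]

/-- lifting a finitely supported function with values in `ℚ ⧸ ℤ` -/
lemma h1_lift (D : X →₀ (ℚ ⧸ (Int.castAddHom ℚ).range)) :
    ∃ D' : X →₀ ℚ, D'.support ⊆ D.support ∧
      ∀ x, QuotientAddGroup.mk' (Int.castAddHom ℚ).range (D' x) = D x := by
  refine ⟨D.mapRange (fun a : (ℚ ⧸ (Int.castAddHom ℚ).range) => if a = 0 then (0 : ℚ) else Quotient.out a)
      (if_pos rfl),
    Finsupp.support_mapRange, ?_⟩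
  intro x
  rw [Finsupp.mapRange_apply]
  by_cases h : D x = 0
  · rw [if_pos h, map_zero, h]
  · rw [if_neg h]
    exact QuotientAddGroup.out_eq' (D x)

lemma h1_int {v : ℚ} (h : QuotientAddGroup.mk' (Int.castAddHom ℚ).range v = 0) :
    ((⌊v⌋ : ℤ) : ℚ) = v := by
  rw [← AddMonoidHom.mem_ker, QuotientAddGroup.ker_mk'] at h
  obtain ⟨z, hz⟩ := h
  have hz' : (z : ℚ) = v := hz
  rw [← hz', Int.floor_intCast]

lemma h1_zero {v : ℚ} (h : ∃ z : ℤ, v = z) :
    QuotientAddGroup.mk' (Int.castAddHom ℚ).range v = 0 := by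
  rw [← AddMonoidHom.mem_ker, QuotientAddGroup.ker_mk']
  obtain ⟨z, hz⟩ := h
  exact ⟨z, hz.symm⟩

/-- Integrality. PROOF. `q` = the product over `Z` of the `q` of `hloc`. Apply `shapiro` with
`A = ℚ ⧸ (Int.castAddHom ℚ).range` to the class of `q • C g`: it is a cocycle because `q • B` is integral, the
components at the fixed points vanish. Lift `D` to `D' : X →₀ ℚ` with support in `Z` (`Quotient.out` for `x ∈ Z`). Then
the coefficients of `q • C g - (g D' - D')` are integers; `C' g` is their floor. Depends only on `C g` and on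
`g • x`, `x ∈ Z` (`Finsupp.mapDomain_congr`). `m = q`. -/
theorem exists_integral (ℓ : ℕ) (B : G → G → (X →₀ ℤ)) (Z : Finset X)
    (hZ : ∀ (g : G), ∀ x ∈ Z, g • x ∈ Z)
    (C : G → (X →₀ ℚ)) (hCZ : ∀ g, (C g).support ⊆ Z)
    (hC : ∀ g h, (B g h).mapRange (Int.castAddHom ℚ) (map_zero _) + C (g * h) =
        (C h).mapDomain (g • ·) + C g)
    (hloc : ∀ x ∈ Z, ∃ q : ℕ, q.Coprime ℓ ∧ ∀ g : G, g • x = x → ∃ z : ℤ, q * C g x = z) :
    ∃ (m : ℕ) (C' : G → (X →₀ ℤ)), m.Coprime ℓ ∧
      (∀ g h, m • B g h + C' (g * h) = (C' h).mapDomain (g • ·) + C' g) ∧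
      ∀ g g', C g = C g' → (∀ x ∈ Z, g • x = g' • x) → C' g = C' g' := by
  choose! q hq1 hq2 using hloc
  set m : ℕ := ∏ x ∈ Z, q x with hm
  have hmc : m.Coprime ℓ := Nat.Coprime.prod_left (fun x hx => hq1 x hx)
  have hloc' : ∀ x ∈ Z, ∀ g : G, g • x = x → ∃ z : ℤ, (m : ℚ) * C g x = z := by
    intro x hx g hg
    obtain ⟨z, hz⟩ := hq2 x hx g hg
    obtain ⟨k, hk⟩ := Finset.dvd_prod_of_mem q hx
    refine ⟨k * z, ?_⟩
    have h1 : (m : ℚ) = (q x : ℚ) * k := by
      rw [hm, hk]
      push_cast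
      ring
    rw [h1]
    push_cast
    rw [← hz]
    ring
  set ψ : ℚ →+ (ℚ ⧸ (Int.castAddHom ℚ).range) :=
    (QuotientAddGroup.mk' (Int.castAddHom ℚ).range).comp (AddMonoidHom.mulLeft (m : ℚ)) with hψ
  have hψa : ∀ v, ψ v = QuotientAddGroup.mk' (Int.castAddHom ℚ).range ((m : ℚ) * v) := fun v => rfl
  have hCx : ∀ g h x, (B g h x : ℚ) + C (g * h) x = C h (g⁻¹ • x) + C g x := by
    intro g h x
    have h1 := DFunLike.congr_fun (hC g h) x
    rw [Finsupp.add_apply, Finsupp.add_apply, mapDomain_smul_apply, Finsupp.mapRange_apply] at h1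
    exact h1
  obtain ⟨D, hDZ, hD⟩ := shapiro (fun g => (C g).mapRange ψ ψ.map_zero) Z
    (fun g => Finsupp.support_mapRange.trans (hCZ g))
    (by
      intro g h
      ext x
      rw [Finsupp.add_apply, mapDomain_smul_apply, Finsupp.mapRange_apply, Finsupp.mapRange_apply,
        Finsupp.mapRange_apply, ← map_add, ← hCx, map_add]
      have h2 : ψ (B g h x : ℚ) = 0 := by
        rw [hψa]
        refine h1_zero ⟨m * B g h x, ?_⟩
        push_cast
        rfl
      rw [h2, zero_add])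
    (by
      intro x g hg
      show (C g).mapRange ψ ψ.map_zero x = 0
      rw [Finsupp.mapRange_apply]
      by_cases hx : x ∈ Z
      · rw [hψa]
        exact h1_zero (hloc' x hx g hg)
      · have h3 : C g x = 0 := by
          by_contra h4
          exact hx (hCZ g (Finsupp.mem_support_iff.mpr h4))
        rw [h3, map_zero])
  obtain ⟨D', hD'Z, hD'⟩ := h1_lift D
  set E : G → (X →₀ ℚ) := fun g => (m : ℚ) • C g - (D'.mapDomain (g • ·) - D') with hE
  have hEx : ∀ g x, E g x = (m : ℚ) * C g x - (D' (g⁻¹ • x) - D' x) := by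
    intro g x
    rw [hE]
    show ((m : ℚ) • C g - (D'.mapDomain (g • ·) - D')) x = _
    rw [Finsupp.sub_apply, Finsupp.sub_apply, mapDomain_smul_apply, Finsupp.smul_apply, smul_eq_mul]
  have hEi : ∀ g x, ((⌊E g x⌋ : ℤ) : ℚ) = E g x := by
    intro g x
    apply h1_int
    rw [hEx, map_sub, map_sub, hD', hD', ← hψa]
    have h5 := DFunLike.congr_fun (hD g) x
    rw [Finsupp.mapRange_apply, Finsupp.sub_apply, mapDomain_smul_apply] at h5
    rw [h5, sub_self]
  refine ⟨m, fun g => (E g).mapRange (fun v => ⌊v⌋) Int.floor_zero, hmc, ?_, ?_⟩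
  · intro g h
    ext x
    rw [Finsupp.add_apply, Finsupp.add_apply, mapDomain_smul_apply, Finsupp.mapRange_apply,
      Finsupp.mapRange_apply, Finsupp.mapRange_apply, Finsupp.smul_apply]
    have h6 : (((m • B g h x + ⌊E (g * h) x⌋ : ℤ)) : ℚ) = ((⌊E h (g⁻¹ • x)⌋ + ⌊E g x⌋ : ℤ) : ℚ) := by
      rw [Int.cast_add, Int.cast_add, hEi, hEi, hEi, hEx, hEx, hEx, mul_inv_rev, mul_smul,
        nsmul_eq_mul]
      push_cast
      linear_combination (m : ℚ) * hCx g h x
    exact_mod_cast h6
  · intro g g' h1 h2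
    have h7 : E g = E g' := by
      have h8 : D'.mapDomain (g • ·) = D'.mapDomain (g' • ·) :=
        Finsupp.mapDomain_congr (fun x hx => h2 x (hDZ (hD'Z hx)))
      show (m : ℚ) • C g - (D'.mapDomain (g • ·) - D') = (m : ℚ) • C g' - (D'.mapDomain (g' • ·) - D')
      rw [h1, h8]
    show (E g).mapRange _ _ = (E g').mapRange _ _
    rw [h7]

end

end Pool.Agent.Lib.MP_89bcae_ag.Bra

end

section

/-!
# Extension and restriction of automorphisms
-/

open Polynomial

open scoped Classical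

namespace Pool.Agent.Lib.MP_89bcae_ag.Bra

/-- Restriction of automorphisms. PROOF. The image of `j` is a normal extension of the image of `L`, so is
preserved by `g` (`g (j z)` is a root of the minimal polynomial of `z`, which splits in `Ω`; the same for `g⁻¹`), or
`AlgEquiv.restrictNormal` (give `T` the `L`-algebra structure by `j` and `Algebra Ω T := j.toAlgebra`). -/
theorem exists_restrict {L Ω T : Type} [Field L] [Field Ω] [Field T] [Algebra L Ω] [Normal L Ω]
    (j : Ω →+* T) (g : T ≃+* T) (hg : ∀ z : L, g (j (algebraMap L Ω z)) = j (algebraMap L Ω z)) :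
    ∃ g' : Ω ≃ₐ[L] Ω, ∀ z, j (g' z) = g (j z) := by
  letI : Algebra Ω T := j.toAlgebra
  letI : Algebra L T := (j.comp (algebraMap L Ω)).toAlgebra
  haveI : IsScalarTower L Ω T := IsScalarTower.of_algebraMap_eq (fun _ => rfl)
  let G : T ≃ₐ[L] T := AlgEquiv.ofRingEquiv (f := g) (fun z => hg z)
  exact ⟨G.restrictNormal Ω, fun z => AlgEquiv.restrictNormal_commutes G Ω z⟩

/-- Extension of automorphisms to an algebraic closure: `IsAlgClosure.equivOfEquiv`. -/
theorem exists_extend {H E T : Type} [Field H] [Field E] [Field T] [Algebra H E] [Algebra E T]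
    [Algebra H T] [IsScalarTower H E T] [IsAlgClosure E T] (σ : E ≃+* E)
    (hσ : ∀ z : H, σ (algebraMap H E z) = algebraMap H E z) :
    ∃ τ : T ≃ₐ[H] T, ∀ z, τ (algebraMap E T z) = algebraMap E T (σ z) := by
  let τ : T ≃+* T := IsAlgClosure.equivOfEquiv T T σ
  have hτ : ∀ z, τ (algebraMap E T z) = algebraMap E T (σ z) := fun z =>
    IsAlgClosure.equivOfEquiv_algebraMap T T σ z
  refine ⟨AlgEquiv.ofRingEquiv (f := τ) (fun z => ?_), hτ⟩
  rw [IsScalarTower.algebraMap_apply H E T, hτ, hσ]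

end Pool.Agent.Lib.MP_89bcae_ag.Bra

end

section

/-!
# Finite sets stable under the automorphisms
-/

open Polynomial

open scoped Classical

namespace Pool.Agent.Lib.MP_89bcae_ag.Bra

section

variable {K S : Type} [Field K] [Field S] [Algebra K S]

/-- The automorphisms which fix the elements of the finite set `T`. -/
def fixSub (K : Type) [Field K] [Algebra K S] (T : Finset S) : Subgroup (S ≃ₐ[K] S) where
  carrier := {g | ∀ x ∈ T, g x = x}
  mul_mem' := fun {g h} hg hh x hx => by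
    change g (h x) = x
    rw [hh x hx, hg x hx]
  one_mem' := fun x _ => rfl
  inv_mem' := fun {g} hg x hx => by
    have h : g x = x := hg x hx
    calc g⁻¹ x = g⁻¹ (g x) := by rw [h]
      _ = (g⁻¹ * g) x := rfl
      _ = x := by rw [inv_mul_cancel]; rfl

lemma mem_fixSub {T : Finset S} {g : S ≃ₐ[K] S} : g ∈ fixSub K T ↔ ∀ x ∈ T, g x = x := Iff.rfl

lemma h2_root [Algebra.IsAlgebraic K S] (g : S ≃ₐ[K] S) {t x : S}
    (hx : x ∈ (minpoly K t).rootSet S) : g x ∈ (minpoly K t).rootSet S := by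
  rw [Polynomial.mem_rootSet] at hx ⊢
  refine ⟨hx.1, ?_⟩
  have h1 : aeval (g x) (minpoly K t) = g (aeval x (minpoly K t)) :=
    Polynomial.aeval_algHom_apply (g : S →ₐ[K] S) x (minpoly K t)
  rw [h1, hx.2, map_zero]

lemma h2_self [Algebra.IsAlgebraic K S] (t : S) : t ∈ (minpoly K t).rootSet S := by
  rw [Polynomial.mem_rootSet]
  exact ⟨minpoly.ne_zero (Algebra.IsIntegral.isIntegral t), minpoly.aeval K t⟩

/-- The restrictions to a finite set: `g x` is a root of the minimal polynomial of `x` (`Set.Finite.pi`). -/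
lemma finite_restrict [Algebra.IsAlgebraic K S] (T : Finset S) :
    (Set.range fun (g : S ≃ₐ[K] S) (x : T) => g (x : S)).Finite := by
  refine Set.Finite.subset (Set.Finite.pi (t := fun x : T => (minpoly K (x : S)).rootSet S)
    (fun x => Polynomial.rootSet_finite _ S)) ?_
  rintro f ⟨g, rfl⟩
  rw [Set.mem_pi]
  intro x _
  exact h2_root g (h2_self (x : S))

/-- The cosets of `fixSub K T` inject in the restrictions to `T`. -/
instance finiteIndex_fixSub [Algebra.IsAlgebraic K S] (T : Finset S) : (fixSub K T).FiniteIndex := by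
  have hfin : Finite (Set.range fun (g : S ≃ₐ[K] S) (x : T) => g (x : S)) := (finite_restrict T).to_subtype
  have hiff : ∀ g g' : S ≃ₐ[K] S, (g⁻¹ * g' ∈ fixSub K T ↔ ∀ x ∈ T, g' x = g x) := by
    intro g g'
    rw [mem_fixSub]
    constructor
    · intro h x hx
      have h1 : (g⁻¹ * g') x = x := h x hx
      calc g' x = (g * (g⁻¹ * g')) x := by rw [mul_inv_cancel_left]
        _ = g ((g⁻¹ * g') x) := rfl
        _ = g x := by rw [h1]
    · intro h x hx
      calc (g⁻¹ * g') x = g⁻¹ (g' x) := rfl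
        _ = g⁻¹ (g x) := by rw [h x hx]
        _ = (g⁻¹ * g) x := rfl
        _ = x := by rw [inv_mul_cancel]; rfl
  let F : (S ≃ₐ[K] S) ⧸ fixSub K T → Set.range fun (g : S ≃ₐ[K] S) (x : T) => g (x : S) :=
    Quotient.lift (fun g => (⟨fun x : T => g (x : S), g, rfl⟩ :
      Set.range fun (g : S ≃ₐ[K] S) (x : T) => g (x : S))) (by
      intro g g' hgg
      have h1 : g⁻¹ * g' ∈ fixSub K T := QuotientGroup.leftRel_apply.1 hgg
      apply Subtype.ext
      funext x
      exact ((hiff g g').1 h1 x x.2).symm)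
  have hF : Function.Injective F := by
    intro a b
    refine Quotient.inductionOn₂ a b ?_
    intro g g' h
    apply Quotient.sound
    apply QuotientGroup.leftRel_apply.2
    rw [hiff]
    intro x hx
    have h1 := congrFun (congrArg Subtype.val h) ⟨x, hx⟩
    exact h1.symm
  have : Finite ((S ≃ₐ[K] S) ⧸ fixSub K T) := Finite.of_injective F hF
  exact Subgroup.finiteIndex_of_finite_quotient

/-- A homomorphism to the rational numbers with finitely many values is zero: the `φ (g ^ n) = n * φ g` would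
be pairwise distinct. -/
lemma hom_eq_zero {G : Type*} [Group G] (φ : G → ℚ) (h : ∀ g g', φ (g * g') = φ g' + φ g)
    (hf : (Set.range φ).Finite) (g : G) : φ g = 0 := by
  have h1 : φ 1 = 0 := by
    have := h 1 1
    rw [mul_one] at this
    linarith
  have hpow : ∀ n : ℕ, φ (g ^ n) = n * φ g := by
    intro n
    induction n with
    | zero => rw [pow_zero, h1, Nat.cast_zero, zero_mul]
    | succ n ih =>
      rw [pow_succ, h, ih]
      push_cast
      ring
  by_contra hne
  have hinj : Function.Injective (fun n : ℕ => φ (g ^ n)) := by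
    intro a b hab
    have hab' : φ (g ^ a) = φ (g ^ b) := hab
    rw [hpow, hpow] at hab'
    exact_mod_cast mul_right_cancel₀ hne hab'
  have hinf := Set.infinite_range_of_injective hinj
  exact hinf (hf.subset (by
    rintro _ ⟨n, rfl⟩
    exact ⟨g ^ n, rfl⟩))

/-- A finite set of points is contained in a finite set stable under the automorphisms: all the roots of the
minimal polynomials of the elements of `T`. -/
lemma exists_stable [Algebra.IsAlgebraic K S] (T : Finset S) :
    ∃ T' : Finset S, T ⊆ T' ∧ ∀ (g : S ≃ₐ[K] S), ∀ x ∈ T', g x ∈ T' := by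
  refine ⟨T.biUnion (fun t => (Polynomial.rootSet_finite (minpoly K t) S).toFinset), ?_, ?_⟩
  · intro t ht
    rw [Finset.mem_biUnion]
    exact ⟨t, ht, (Set.Finite.mem_toFinset _).2 (h2_self t)⟩
  · intro g x hx
    rw [Finset.mem_biUnion] at hx ⊢
    obtain ⟨t, ht, hx⟩ := hx
    exact ⟨t, ht, (Set.Finite.mem_toFinset _).2 (h2_root g ((Set.Finite.mem_toFinset _).1 hx))⟩

end

end Pool.Agent.Lib.MP_89bcae_ag.Bra

end

section

/-!
# A cochain over a field of Laurent series

`Ω` is an algebraic closure of `L`, `A` an intermediate field, `H = A((X))`, `E = Ω((X))`, `Tb` an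
algebraic closure of `E` and `TT` the algebraic closure of `H` in `Tb`.
-/

open Polynomial

open scoped Classical

namespace Pool.Agent.Lib.MP_89bcae_ag.Bra

section

variable {L Ω : Type} [Field L] [Field Ω] [Algebra L Ω] (A : IntermediateField L Ω)

noncomputable instance algHE : Algebra (LaurentSeries A) (LaurentSeries Ω) :=
  (lm (algebraMap A Ω)).toAlgebra

lemma algHE_apply (w : LaurentSeries A) :
    algebraMap (LaurentSeries A) (LaurentSeries Ω) w = lm (algebraMap A Ω) w := rfl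

/-- The algebraic closure of the Laurent series over `Ω`. -/
abbrev Tb (Ω : Type) [Field Ω] : Type := AlgebraicClosure (LaurentSeries Ω)

/-- The algebraic closure of the Laurent series over `A`. -/
noncomputable abbrev TT : IntermediateField (LaurentSeries A) (Tb Ω) :=
  algebraicClosure (LaurentSeries A) (Tb Ω)

/-- The constants. -/
noncomputable def jb (Ω : Type) [Field Ω] : Ω →+* Tb Ω :=
  (algebraMap (LaurentSeries Ω) (Tb Ω)).comp HahnSeries.C

lemma jb_comp_eq : (algebraMap (LaurentSeries A) (Tb Ω)).comp (HahnSeries.C : A →+* LaurentSeries A) =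
    (jb Ω).comp (algebraMap A Ω) := by
  ext c
  have h : algebraMap (LaurentSeries A) (Tb Ω) (HahnSeries.C c) =
      algebraMap (LaurentSeries Ω) (Tb Ω)
        (algebraMap (LaurentSeries A) (LaurentSeries Ω) (HahnSeries.C c)) :=
    IsScalarTower.algebraMap_apply (LaurentSeries A) (LaurentSeries Ω) (Tb Ω) _
  change algebraMap (LaurentSeries A) (Tb Ω) (HahnSeries.C c) =
    algebraMap (LaurentSeries Ω) (Tb Ω) (HahnSeries.C (algebraMap A Ω c))
  rw [h, algHE_apply, lm_C]

/-- `z` is algebraic over `L`, so `jb z` is algebraic over the image of `L` and over `A((X))`; the two maps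
`L → Tb` (through the series over `A`, through `jb`) agree: `lm_C`. -/
lemma jb_mem [Algebra.IsAlgebraic L Ω] (z : Ω) : jb Ω z ∈ TT A := by
  have hz : IsAlgebraic A z := (Algebra.IsAlgebraic.isAlgebraic (R := L) z).extendScalars
    (algebraMap L A).injective
  obtain ⟨P, hP, hPz⟩ := hz
  refine mem_algebraicClosure_iff.2 ⟨P.map (HahnSeries.C : A →+* LaurentSeries A), ?_, ?_⟩
  · rwa [Polynomial.map_ne_zero_iff HahnSeries.C_injective]
  · rw [Polynomial.aeval_def, Polynomial.eval₂_map, jb_comp_eq A, ← Polynomial.hom_eval₂]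
    rw [Polynomial.aeval_def] at hPz
    rw [hPz, map_zero]

/-- The constants. -/
noncomputable def jj [Algebra.IsAlgebraic L Ω] : Ω →+* TT A where
  toFun z := ⟨jb Ω z, jb_mem A z⟩
  map_one' := Subtype.ext (map_one (jb Ω))
  map_mul' x y := Subtype.ext (map_mul (jb Ω) x y)
  map_zero' := Subtype.ext (map_zero (jb Ω))
  map_add' x y := Subtype.ext (map_add (jb Ω) x y)

/-- The subfield generated by the constants. -/
noncomputable def K1 [Algebra.IsAlgebraic L Ω] : IntermediateField (LaurentSeries A) (TT A) :=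
  IntermediateField.adjoin (LaurentSeries A) (Set.range (jj A))

variable {A}

lemma jj_coe [Algebra.IsAlgebraic L Ω] (c : A) :
    jj A (c : Ω) = algebraMap (LaurentSeries A) (TT A) (HahnSeries.C c) := by
  apply Subtype.ext
  have h := congrArg (fun f : A →+* Tb Ω => f c) (jb_comp_eq A)
  exact h.symm

lemma jj_fix [Algebra.IsAlgebraic L Ω] (g : TT A ≃ₐ[LaurentSeries A] TT A) {g' : Ω → Ω}
    (hg : ∀ z, jj A (g' z) = g (jj A z)) : ∀ z ∈ A, g' z = z := by
  intro z hz
  apply (jj A).injective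
  rw [hg z, show z = ((⟨z, hz⟩ : A) : Ω) from rfl, jj_coe, AlgEquiv.commutes]

/-- The automorphisms act on the coefficients. PROOF. Induction (`IntermediateField.adjoin_induction`): for
the constants `w = C z`, `lm_C`; for the series over `A`, `w = lm _ v` is fixed by `lm g'` (`lm_comp`; `g' z = z` for `z` in
`A` as `g` fixes the series over `A`, in particular the constants of `A`); sums, products and inverses. -/
lemma exists_coeff [Algebra.IsAlgebraic L Ω] (g : TT A ≃ₐ[LaurentSeries A] TT A) (g' : Ω ≃ₐ[L] Ω)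
    (hg : ∀ z, jj A (g' z) = g (jj A z)) {z : TT A} (hz : z ∈ K1 A) :
    ∃ w : LaurentSeries Ω, (z : Tb Ω) = algebraMap _ (Tb Ω) w ∧
      ((g z : TT A) : Tb Ω) = algebraMap _ (Tb Ω) (lm ((g' : Ω ≃+* Ω) : Ω →+* Ω) w) := by
  have hfix := jj_fix g hg
  induction hz using IntermediateField.adjoin_induction with
  | mem x hx =>
    obtain ⟨y, rfl⟩ := hx
    refine ⟨HahnSeries.C y, rfl, ?_⟩
    rw [← hg y, lm_C]
    rfl
  | algebraMap v =>
    refine ⟨lm (algebraMap A Ω) v, ?_, ?_⟩
    · rw [← algHE_apply]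
      exact IsScalarTower.algebraMap_apply (LaurentSeries A) (LaurentSeries Ω) (Tb Ω) v
    · have h1 : (((g' : Ω ≃+* Ω) : Ω →+* Ω).comp (algebraMap A Ω)) = algebraMap A Ω := by
        ext c
        exact hfix c c.2
      rw [AlgEquiv.commutes, lm_comp, h1, ← algHE_apply]
      exact IsScalarTower.algebraMap_apply (LaurentSeries A) (LaurentSeries Ω) (Tb Ω) v
  | add x y _ _ hx hy =>
    obtain ⟨w, h1, h2⟩ := hx
    obtain ⟨w', h3, h4⟩ := hy
    have e : ((g (x + y) : TT A) : Tb Ω) = (g x : TT A) + (g y : TT A) :=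
      congrArg Subtype.val (g.toRingEquiv.map_add x y)
    refine ⟨w + w', ?_, ?_⟩
    · rw [map_add, ← h1, ← h3]
      rfl
    · rw [e, h2, h4, ← map_add, ← map_add]
  | inv x _ hx =>
    obtain ⟨w, h1, h2⟩ := hx
    have e : ((g x⁻¹ : TT A) : Tb Ω) = ((g x : TT A) : Tb Ω)⁻¹ :=
      congrArg Subtype.val (map_inv₀ (g.toRingEquiv.toRingHom) x)
    refine ⟨w⁻¹, ?_, ?_⟩
    · rw [map_inv₀, ← h1]
      rfl
    · rw [e, h2, ← map_inv₀, ← map_inv₀]
  | mul x y _ _ hx hy =>
    obtain ⟨w, h1, h2⟩ := hx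
    obtain ⟨w', h3, h4⟩ := hy
    have e : ((g (x * y) : TT A) : Tb Ω) = (g x : TT A) * (g y : TT A) :=
      congrArg Subtype.val (g.toRingEquiv.map_mul x y)
    refine ⟨w * w', ?_, ?_⟩
    · rw [map_mul, ← h1, ← h3]
      rfl
    · rw [e, h2, h4, ← map_mul, ← map_mul]

/-- The restriction to the constants: `exists_restrict` for `jj A`. -/
lemma h6_exists_res [IsAlgClosure L Ω] (g : TT A ≃ₐ[LaurentSeries A] TT A) :
    ∃ g' : Ω ≃ₐ[L] Ω, (∀ z ∈ A, g' z = z) ∧ ∀ z, jj A (g' z) = g (jj A z) := by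
  obtain ⟨g', hg'⟩ := exists_restrict (L := L) (jj A) (g : TT A ≃+* TT A) (fun z => by
    change g (jj A ((algebraMap L A z : A) : Ω)) = jj A ((algebraMap L A z : A) : Ω)
    rw [jj_coe, AlgEquiv.commutes])
  exact ⟨g', jj_fix g hg', hg'⟩

/-- The automorphism of the Laurent series given by an automorphism of the coefficients. -/
noncomputable def lmEquiv (g' : Ω ≃ₐ[L] Ω) : LaurentSeries Ω ≃+* LaurentSeries Ω :=
  RingEquiv.ofRingHom (lm ((g' : Ω ≃+* Ω) : Ω →+* Ω)) (lm ((g'.symm : Ω ≃+* Ω) : Ω →+* Ω))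
    (by
      ext w n
      exact g'.apply_symm_apply _)
    (by
      ext w n
      exact g'.symm_apply_apply _)

lemma lmEquiv_apply (g' : Ω ≃ₐ[L] Ω) (w : LaurentSeries Ω) :
    lmEquiv g' w = lm ((g' : Ω ≃+* Ω) : Ω →+* Ω) w := rfl

/-- The extension of the automorphisms of the constants. PROOF. `lm g'` is an automorphism of the Laurent
series over `Ω` (inverse `lm g'⁻¹`) which fixes the series over `A`; `exists_extend` with `T = Tb Ω`; restrict the automorphism of
`Tb Ω` to `TT A` (`AlgEquiv.restrictNormal`, or: an element is algebraic over `A((X))` iff its image is). -/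
lemma exists_ext [IsAlgClosure L Ω] (g' : Ω ≃ₐ[L] Ω) (hg : ∀ z ∈ A, g' z = z) :
    ∃ g : TT A ≃ₐ[LaurentSeries A] TT A, ∀ z, jj A (g' z) = g (jj A z) := by
  have hσ : ∀ z : LaurentSeries A,
      lmEquiv g' (algebraMap (LaurentSeries A) (LaurentSeries Ω) z) =
        algebraMap (LaurentSeries A) (LaurentSeries Ω) z := by
    intro z
    ext n
    change g' ((algebraMap A Ω) (z.coeff n)) = (algebraMap A Ω) (z.coeff n)
    exact hg _ (z.coeff n).2
  obtain ⟨τ, hτ⟩ := exists_extend (T := Tb Ω) (lmEquiv g') hσ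
  refine ⟨algebraicClosure.algEquivOfAlgEquiv τ, fun z => Subtype.ext ?_⟩
  change algebraMap (LaurentSeries Ω) (Tb Ω) (HahnSeries.C (g' z)) =
    τ (algebraMap (LaurentSeries Ω) (Tb Ω) (HahnSeries.C z))
  rw [hτ, lmEquiv_apply, lm_C]
  rfl

instance isAlgClosed_TT [IsAlgClosure L Ω] : IsAlgClosed (TT A) := by
  have : IsAlgClosure (LaurentSeries A) (TT A) := inferInstance
  exact this.isAlgClosed

instance isAlgClosure_K1 [IsAlgClosure L Ω] : IsAlgClosure (K1 A) (TT A) where
  isAlgClosed := inferInstance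
  isAlgebraic := Algebra.IsAlgebraic.tower_top (K := LaurentSeries A) (K1 A)

lemma jj_mem [IsAlgClosure L Ω] (z : Ω) : jj A z ∈ K1 A :=
  IntermediateField.subset_adjoin _ _ ⟨z, rfl⟩

lemma ringExpChar_K1 [IsAlgClosure L Ω] (p : ℕ) [ExpChar Ω p] : ringExpChar (K1 A) = p := by
  have h1 : ExpChar (TT A) p := expChar_of_injective_ringHom (jj A).injective p
  have h2 : ExpChar (K1 A) p :=
    (RingHom.expChar_iff (algebraMap (K1 A) (TT A)) (algebraMap (K1 A) (TT A)).injective p).mpr h1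
  exact ringExpChar.eq (K1 A) p

/-- An automorphism which fixes the constants is an automorphism over `K1`. -/
lemma exists_over [IsAlgClosure L Ω] (g : TT A ≃ₐ[LaurentSeries A] TT A)
    (hg : ∀ z, g (jj A z) = jj A z) :
    ∃ n : TT A ≃ₐ[K1 A] TT A, ∀ z, n z = g z := by
  have h : ∀ z ∈ K1 A, g z = z := by
    intro z hz
    obtain ⟨w, hw1, hw2⟩ := exists_coeff g 1 (fun z => (hg z).symm) hz
    apply Subtype.ext
    rw [hw2, hw1]
    rfl
  exact ⟨AlgEquiv.ofRingEquiv (f := (g : TT A ≃+* TT A)) (fun z => h _ z.2), fun z => rfl⟩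

/-- Integrality of the cochain which splits the orders. -/
theorem local_integrality [IsAlgClosure L Ω] (p : ℕ) [ExpChar Ω p]
    (β : (Ω ≃ₐ[L] Ω) → (Ω ≃ₐ[L] Ω) → (LaurentSeries Ω)ˣ)
    (hβ1 : ∀ g : Ω ≃ₐ[L] Ω, (∀ z ∈ A, g z = z) →
      (β g 1 : LaurentSeries Ω) = lm ((g : Ω ≃+* Ω) : Ω →+* Ω) (β 1 1))
    (hβ2 : ∀ g : Ω ≃ₐ[L] Ω, (∀ z ∈ A, g z = z) → β 1 g = β 1 1)
    (hβK : ∀ g h, ∃ k ∈ K1 A, (k : Tb Ω) = algebraMap _ (Tb Ω) (β g h : LaurentSeries Ω))
    (a : (TT A ≃ₐ[LaurentSeries A] TT A) → (TT A)ˣ) (ha : IsCts a)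
    (hab : ∀ (g h : TT A ≃ₐ[LaurentSeries A] TT A) (g' h' : Ω ≃ₐ[L] Ω),
      (∀ z, jj A (g' z) = g (jj A z)) → (∀ z, jj A (h' z) = h (jj A z)) →
        algebraMap _ (Tb Ω) (β g' h' : LaurentSeries Ω) * ((a (g * h) : TT A) : Tb Ω) =
          ((g (a h) : TT A) : Tb Ω) * ((a g : TT A) : Tb Ω)) :
    ∃ r : ℕ, ∀ C : (Ω ≃ₐ[L] Ω) → ℚ, (Set.range C).Finite →
      (∀ g h : Ω ≃ₐ[L] Ω, (∀ z ∈ A, g z = z) → (∀ z ∈ A, h z = z) →
        ((β g h : LaurentSeries Ω).order : ℚ) + C (g * h) = C h + C g) →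
      ∀ g : Ω ≃ₐ[L] Ω, (∀ z ∈ A, g z = z) → ∃ z : ℤ, (p : ℚ) ^ r * C g = z := by
  set ι : LaurentSeries Ω →+* Tb Ω := algebraMap (LaurentSeries Ω) (Tb Ω) with hι
  have hinj : Function.Injective ι := ι.injective
  obtain ⟨b11, hb11K, hb11⟩ := hβK 1 1
  have hb0 : b11 ≠ 0 := by
    intro h
    rw [h] at hb11
    have : ι (β 1 1 : LaurentSeries Ω) = 0 := hb11.symm
    rw [map_eq_zero] at this
    exact (β 1 1).ne_zero this
  -- the restriction to the constants
  choose res hresA hres using fun g : TT A ≃ₐ[LaurentSeries A] TT A => h6_exists_res g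
  have hjj : Function.Injective (jj A) := (jj A).injective
  have hmul : ∀ g h, res (g * h) = res g * res h := by
    intro g h
    ext z
    apply hjj
    rw [hres]
    change g (h (jj A z)) = jj A (res g (res h z))
    rw [hres, hres]
  -- elements of `K1` are acted on through the coefficients
  have hover : ∀ n : TT A ≃ₐ[K1 A] TT A, ∀ z,
      jj A ((1 : Ω ≃ₐ[L] Ω) z) = (n.restrictScalars (LaurentSeries A)) (jj A z) := by
    intro n z
    change jj A z = n (jj A z)
    exact (n.commutes ⟨jj A z, jj_mem z⟩).symm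
  have hnK : ∀ (n : TT A ≃ₐ[K1 A] TT A) (z : TT A), z ∈ K1 A → n z = z := fun n z hz =>
    n.commutes ⟨z, hz⟩
  -- step one: Hilbert 90
  have key : ∃ e : (TT A)ˣ, ∀ n : TT A ≃ₐ[K1 A] TT A,
      ((a (n.restrictScalars (LaurentSeries A)) / Units.mk0 b11 hb0 : (TT A)ˣ) : TT A) * e = n e := by
    refine h90 (K := K1 A) (S := TT A)
      (fun n => a (n.restrictScalars (LaurentSeries A)) / Units.mk0 b11 hb0) ?_ ?_
    · obtain ⟨T, hT⟩ := ha
      refine ⟨T, fun g g' h => ?_⟩
      show a (g.restrictScalars (LaurentSeries A)) / _ = a (g'.restrictScalars (LaurentSeries A)) / _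
      rw [hT (g.restrictScalars (LaurentSeries A)) (g'.restrictScalars (LaurentSeries A)) h]
    · intro g h
      have h1 := hab (g.restrictScalars (LaurentSeries A)) (h.restrictScalars (LaurentSeries A)) 1 1
        (hover g) (hover h)
      have h2 : b11 * (a ((g * h).restrictScalars (LaurentSeries A)) : TT A) =
          g (a (h.restrictScalars (LaurentSeries A))) * a (g.restrictScalars (LaurentSeries A)) := by
        apply Subtype.ext
        rw [← hb11] at h1
        exact h1
      have h3 : g (b11⁻¹) = b11⁻¹ := hnK g _ (inv_mem hb11K)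
      simp only [Units.val_div_eq_div_val, Units.val_mk0, map_div₀, hnK g _ hb11K]
      rw [div_mul_div_comm, ← h2]
      field_simp
  obtain ⟨e, he⟩ := key
  have he0 : (e : TT A) ≠ 0 := e.ne_zero
  have hge0 : ∀ g : TT A ≃ₐ[LaurentSeries A] TT A, g (e : TT A) ≠ 0 := fun g =>
    (map_ne_zero g).mpr he0
  -- step two: the new cochain
  obtain ⟨A2, hA2⟩ : ∃ A2 : (TT A ≃ₐ[LaurentSeries A] TT A) → TT A,
      ∀ g, A2 g = (a g : TT A) * e * (g e)⁻¹ := ⟨_, fun g => rfl⟩
  have hA20 : ∀ g, A2 g ≠ 0 := fun g => by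
    rw [hA2]
    exact mul_ne_zero (mul_ne_zero (a g).ne_zero he0) (inv_ne_zero (hge0 g))
  have hA2n : ∀ n : TT A ≃ₐ[K1 A] TT A, A2 (n.restrictScalars (LaurentSeries A)) = b11 := by
    intro n
    have h1 := he n
    rw [hA2, Units.val_div_eq_div_val, Units.val_mk0] at *
    change (a (n.restrictScalars (LaurentSeries A)) : TT A) * e * (n e)⁻¹ = b11
    have h2 : n (e : TT A) ≠ 0 := (map_ne_zero n).mpr he0
    rw [← h1] at h2 ⊢
    have h3 : (a (n.restrictScalars (LaurentSeries A)) : TT A) ≠ 0 :=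
      (a (n.restrictScalars (LaurentSeries A))).ne_zero
    field_simp
  have hA2c : ∀ g h : TT A ≃ₐ[LaurentSeries A] TT A,
      ι (β (res g) (res h) : LaurentSeries Ω) * (A2 (g * h) : Tb Ω) =
        ((g (A2 h) : TT A) : Tb Ω) * (A2 g : Tb Ω) := by
    intro g h
    have h1 := hab g h (res g) (res h) (hres g) (hres h)
    rw [hA2, hA2, hA2]
    have h2 : (g * h) (e : TT A) = g (h (e : TT A)) := rfl
    rw [h2, map_mul, map_mul, map_inv₀]
    have h3 : g (a h : TT A) * g (e : TT A) * (g (h (e : TT A)))⁻¹ *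
        ((a g : TT A) * e * (g (e : TT A))⁻¹) =
        (g (a h : TT A) * (a g : TT A)) * (e * (g (h (e : TT A)))⁻¹) := by
      have := hge0 g
      field_simp
    have h4 : ((g (a h : TT A) * g (e : TT A) * (g (h (e : TT A)))⁻¹ : TT A) : Tb Ω) *
        (((a g : TT A) * e * (g (e : TT A))⁻¹ : TT A) : Tb Ω) =
        (((g (a h : TT A) * (a g : TT A)) * (e * (g (h (e : TT A)))⁻¹) : TT A) : Tb Ω) := by
      rw [← h3]
      rfl
    rw [h4]
    have h5 : (((a (g * h) : TT A) * e * (g (h (e : TT A)))⁻¹ : TT A) : Tb Ω) =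
        ((a (g * h) : TT A) : Tb Ω) * ((e * (g (h (e : TT A)))⁻¹ : TT A) : Tb Ω) := by
      rw [mul_assoc]
      rfl
    rw [h5, ← mul_assoc, h1]
    rfl
  have hres1 : ∀ n : TT A ≃ₐ[K1 A] TT A, res (n.restrictScalars (LaurentSeries A)) = 1 := by
    intro n
    ext z
    apply hjj
    rw [hres, ← hover]
  have hA2r : ∀ (g : TT A ≃ₐ[LaurentSeries A] TT A) (n : TT A ≃ₐ[K1 A] TT A),
      A2 (g * n.restrictScalars (LaurentSeries A)) = A2 g := by
    intro g n
    have h1 := hA2c g (n.restrictScalars (LaurentSeries A))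
    rw [hres1, hA2n] at h1
    obtain ⟨w, hw1, hw2⟩ := exists_coeff g (res g) (hres g) hb11K
    have h2 : w = (β 1 1 : LaurentSeries Ω) := hinj (by rw [← hb11, hw1])
    rw [hw2, h2, ← hβ1 _ (hresA g)] at h1
    have h3 : ι (β (res g) 1 : LaurentSeries Ω) ≠ 0 := (map_ne_zero ι).mpr (Units.ne_zero _)
    exact Subtype.ext (mul_left_cancel₀ h3 h1)
  have hA2l : ∀ (g : TT A ≃ₐ[LaurentSeries A] TT A) (n : TT A ≃ₐ[K1 A] TT A),
      A2 (n.restrictScalars (LaurentSeries A) * g) = n (A2 g) := by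
    intro g n
    have h1 := hA2c (n.restrictScalars (LaurentSeries A)) g
    rw [hres1, hA2n, hβ2 _ (hresA g), hb11, mul_comm] at h1
    have h3 : ι (β 1 1 : LaurentSeries Ω) ≠ 0 := (map_ne_zero ι).mpr (Units.ne_zero _)
    exact Subtype.ext (mul_right_cancel₀ h3 h1)
  have hfix : ∀ (g : TT A ≃ₐ[LaurentSeries A] TT A) (n : TT A ≃ₐ[K1 A] TT A), n (A2 g) = A2 g := by
    intro g n
    obtain ⟨n', hn'⟩ := exists_over (g⁻¹ * n.restrictScalars (LaurentSeries A) * g) (by
      intro z
      change g⁻¹ (n (g (jj A z))) = jj A z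
      rw [← hres, hnK n _ (jj_mem _), hres]
      exact g.symm_apply_apply _)
    have h1 : n.restrictScalars (LaurentSeries A) * g = g * n'.restrictScalars (LaurentSeries A) := by
      ext z
      congr 1
      change n (g z) = g (n' z)
      rw [hn']
      change n (g z) = g (g.symm (n (g z)))
      rw [g.apply_symm_apply]
    rw [← hA2l, h1, hA2r]
  -- step three: a power of the cochain is in `K1`
  have hpow : ∀ g, ∃ s : ℕ, A2 g ^ p ^ s ∈ K1 A := by
    intro g
    obtain ⟨s, y, hy⟩ := exists_pow_mem (K := K1 A) (S := TT A) (A2 g) (hfix g)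
    rw [ringExpChar_K1 p] at hy
    exact ⟨s, by rw [hy]; exact y.2⟩
  have hctsA2 : IsCts A2 := by
    have h1 : IsCts fun g : TT A ≃ₐ[LaurentSeries A] TT A => g (e : TT A) :=
      ⟨{(e : TT A)}, fun g g' h => h _ (Finset.mem_singleton_self _)⟩
    have h2 := ha.comp₂ h1 fun u v => (u : TT A) * e * v⁻¹
    have h3 : A2 = fun g => ((a g : TT A) * e * (g (e : TT A))⁻¹) := funext hA2
    rw [h3]
    exact h2
  have hfin : (Set.range A2).Finite := hctsA2.finite_range
  have hr : ∃ r : ℕ, ∀ g, A2 g ^ p ^ r ∈ K1 A := by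
    choose s hs using hpow
    obtain ⟨r, hr⟩ := (hfin.image fun v => if h : ∃ s : ℕ, v ^ p ^ s ∈ K1 A then Nat.find h else 0).bddAbove
    refine ⟨r, fun g => ?_⟩
    have h1 : ∃ s : ℕ, A2 g ^ p ^ s ∈ K1 A := ⟨s g, hs g⟩
    have h2 : Nat.find h1 ≤ r := by
      refine hr ⟨A2 g, ⟨g, rfl⟩, ?_⟩
      show (if h : ∃ s : ℕ, A2 g ^ p ^ s ∈ K1 A then Nat.find h else 0) = Nat.find h1
      rw [dif_pos h1]
    obtain ⟨k, hk⟩ := Nat.exists_eq_add_of_le h2
    rw [hk, pow_add, pow_mul]
    exact pow_mem (Nat.find_spec h1) _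
  obtain ⟨r, hr⟩ := hr
  -- step four: the orders
  obtain ⟨o, ho⟩ : ∃ o : Tb Ω → ℤ, ∀ w : LaurentSeries Ω, o (ι w) = w.order := by
    refine ⟨fun z => (Function.invFun ι z).order, fun w => ?_⟩
    show (Function.invFun ι (ι w)).order = w.order
    rw [Function.leftInverse_invFun hinj w]
  have hoc : ∀ g h : TT A ≃ₐ[LaurentSeries A] TT A,
      (p : ℤ) ^ r * (β (res g) (res h) : LaurentSeries Ω).order + o ((A2 (g * h) : Tb Ω) ^ p ^ r) =
        o ((A2 h : Tb Ω) ^ p ^ r) + o ((A2 g : Tb Ω) ^ p ^ r) := by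
    intro g h
    obtain ⟨wh, hwh1, hwh2⟩ := exists_coeff g (res g) (hres g) (hr h)
    obtain ⟨wg, hwg1, -⟩ := exists_coeff g (res g) (hres g) (hr g)
    obtain ⟨wk, hwk1, -⟩ := exists_coeff g (res g) (hres g) (hr (g * h))
    have e1 : (A2 h : Tb Ω) ^ p ^ r = ι wh := hwh1
    have e2 : (A2 g : Tb Ω) ^ p ^ r = ι wg := hwg1
    have e3 : (A2 (g * h) : Tb Ω) ^ p ^ r = ι wk := hwk1
    have e4 : ((g (A2 h) : TT A) : Tb Ω) ^ p ^ r = ι (lm ((res g : Ω ≃+* Ω) : Ω →+* Ω) wh) := by
      rw [map_pow] at hwh2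
      exact hwh2
    have h1 := congrArg (fun z => z ^ p ^ r) (hA2c g h)
    have h2 : ι ((β (res g) (res h) : LaurentSeries Ω) ^ p ^ r * wk) =
        ι (lm ((res g : Ω ≃+* Ω) : Ω →+* Ω) wh * wg) := by
      rw [map_mul, map_mul, map_pow, ← e2, ← e3, ← e4, ← mul_pow, ← mul_pow]
      exact h1
    have h3 := hinj h2
    have hk0 : wk ≠ 0 := by
      intro h0
      rw [h0, map_zero] at e3
      exact hA20 (g * h) (Subtype.ext (eq_zero_of_pow_eq_zero e3))
    have hh0 : wh ≠ 0 := by
      intro h0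
      rw [h0, map_zero] at e1
      exact hA20 h (Subtype.ext (eq_zero_of_pow_eq_zero e1))
    have hg0 : wg ≠ 0 := by
      intro h0
      rw [h0, map_zero] at e2
      exact hA20 g (Subtype.ext (eq_zero_of_pow_eq_zero e2))
    have h4 := congrArg HahnSeries.order h3
    rw [HahnSeries.order_mul (pow_ne_zero _ (Units.ne_zero _)) hk0,
      HahnSeries.order_mul ((_root_.map_ne_zero _).mpr hh0) hg0, HahnSeries.order_pow, order_lm] at h4
    rw [e1, e2, e3, ho, ho, ho, ← h4, nsmul_eq_mul]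
    push_cast
    ring
  refine ⟨r, fun C hC hCr g hg => ?_⟩
  obtain ⟨γ, hγ⟩ := exists_ext g hg
  have hγg : res γ = g := by
    ext z
    apply hjj
    rw [hres, hγ]
  have h0 := hom_eq_zero (fun γ : TT A ≃ₐ[LaurentSeries A] TT A =>
    (o ((A2 γ : Tb Ω) ^ p ^ r) : ℚ) - (p : ℚ) ^ r * C (res γ)) ?_ ?_ γ
  · refine ⟨o ((A2 γ : Tb Ω) ^ p ^ r), ?_⟩
    have h1 : (o ((A2 γ : Tb Ω) ^ p ^ r) : ℚ) - (p : ℚ) ^ r * C (res γ) = 0 := h0
    rw [hγg] at h1
    linarith
  · intro g h
    have h1 := hoc g h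
    have h2 := hCr (res g) (res h) (hresA g) (hresA h)
    have h3 : ((p : ℚ) ^ r * ((β (res g) (res h) : LaurentSeries Ω).order : ℚ) +
        (o ((A2 (g * h) : Tb Ω) ^ p ^ r) : ℚ)) =
        (o ((A2 h : Tb Ω) ^ p ^ r) : ℚ) + (o ((A2 g : Tb Ω) ^ p ^ r) : ℚ) := by
      exact_mod_cast h1
    show (o ((A2 (g * h) : Tb Ω) ^ p ^ r) : ℚ) - (p : ℚ) ^ r * C (res (g * h)) =
      (o ((A2 h : Tb Ω) ^ p ^ r) : ℚ) - (p : ℚ) ^ r * C (res h) +
      ((o ((A2 g : Tb Ω) ^ p ^ r) : ℚ) - (p : ℚ) ^ r * C (res g))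
    rw [hmul]
    linear_combination h3 - (p : ℚ) ^ r * h2
  · refine Set.Finite.subset ((hfin.prod hC).image fun v =>
      (o ((v.1 : Tb Ω) ^ p ^ r) : ℚ) - (p : ℚ) ^ r * v.2) ?_
    rintro _ ⟨γ, rfl⟩
    exact ⟨(A2 γ, C (res γ)), ⟨⟨γ, rfl⟩, ⟨res γ, rfl⟩⟩, rfl⟩

end

end Pool.Agent.Lib.MP_89bcae_ag.Bra

end

section

/-!
# The expansion of the functions at a point of the curve
-/

open Polynomial IsDedekindDomain

open scoped Classical

namespace Pool.Agent.Lib.MP_89bcae_ag.Bra

open Pool.Agent.Lib.MP_89bcae_ag.Wt Pool.Agent.Lib.MP_89bcae_ag.Wt.Lns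

section Series

variable {A : Type} [Field A]

theorem exists_root_series (N : ℕ) (hN : (N : A) ≠ 0) (u : PowerSeries A) (c : A) (hc : c ≠ 0)
    (h : c ^ N = PowerSeries.constantCoeff u) :
    ∃ Y : PowerSeries A, Y ^ N = u ∧ PowerSeries.constantCoeff Y = c := by
  have hN0 : N ≠ 0 := by
    rintro rfl
    simp at hN
  have hH : HenselianRing (PowerSeries A) (Ideal.span {(PowerSeries.X : PowerSeries A)}) := inferInstance
  have hmon : (X ^ N - C u : Polynomial (PowerSeries A)).Monic := monic_X_pow_sub_C u hN0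
  have hmem : ∀ w : PowerSeries A, w ∈ Ideal.span {(PowerSeries.X : PowerSeries A)} ↔
      PowerSeries.constantCoeff w = 0 := by
    intro w
    rw [Ideal.mem_span_singleton, PowerSeries.X_dvd_iff]
  obtain ⟨a, ha, ha'⟩ := hH.is_henselian (X ^ N - C u) hmon (PowerSeries.C c) (by
      rw [hmem]
      simp [h]) (by
      refine IsUnit.map _ ?_
      rw [PowerSeries.isUnit_iff_constantCoeff]
      rw [derivative_sub, derivative_C, sub_zero, derivative_X_pow]
      simp [hN, hc])
  refine ⟨a, ?_, ?_⟩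
  · have := ha
    simp only [IsRoot.def, eval_sub, eval_pow, eval_X, eval_C] at this
    exact sub_eq_zero.mp this
  · rw [hmem] at ha'
    rw [map_sub, PowerSeries.constantCoeff_C] at ha'
    exact sub_eq_zero.mp ha'

theorem exists_series_ne (N : ℕ) (hN : (N : A) ≠ 0) (f : A[X]) (x₀ y₀ : A)
    (h : y₀ ^ N = f.eval x₀) (h0 : y₀ ≠ 0) :
    ∃ Y : PowerSeries A, Y ^ N = f.eval₂ PowerSeries.C (PowerSeries.C x₀ + PowerSeries.X) ∧
      PowerSeries.constantCoeff Y = y₀ := by
  refine exists_root_series N hN _ y₀ h0 ?_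
  rw [h, Polynomial.hom_eval₂]
  have e1 : (PowerSeries.constantCoeff).comp (PowerSeries.C) = RingHom.id A := by
    ext a
    simp
  rw [e1]
  simp [eval₂_id]

theorem exists_series_eq (N : ℕ) (hN : (N : A) ≠ 0) (h1 : 1 < N) (f : A[X]) (hf : f ≠ 0) (x₀ : A)
    (h : f.eval x₀ = 0) (hw : (f.rootMultiplicity x₀).Coprime N) :
    ∃ (c : A) (Y : PowerSeries A), c ≠ 0 ∧
      Y ^ N = f.eval₂ PowerSeries.C (PowerSeries.C x₀ + PowerSeries.C c * PowerSeries.X ^ N) ∧
      ∃ Y' : PowerSeries A, Y = PowerSeries.X ^ f.rootMultiplicity x₀ * Y' ∧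
        PowerSeries.constantCoeff Y' ≠ 0 := by
  obtain ⟨g, hg, hg'⟩ := Polynomial.exists_eq_pow_rootMultiplicity_mul_and_not_dvd f hf x₀
  rw [Polynomial.dvd_iff_isRoot] at hg'
  have hc₀ : g.eval x₀ ≠ 0 := hg'
  obtain ⟨a, ha⟩ := Nat.exists_mul_mod_eq_one_of_coprime hw h1
  have hab : f.rootMultiplicity x₀ * a = N * (f.rootMultiplicity x₀ * a / N) + 1 := by
    have h2 := Nat.div_add_mod (f.rootMultiplicity x₀ * a) N
    omega
  generalize f.rootMultiplicity x₀ * a / N = b at hab
  generalize f.rootMultiplicity x₀ = w at hab hg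
  generalize hce : g.eval x₀ = c₀ at hc₀
  have hcw : (c₀⁻¹ ^ a) ^ w = (c₀⁻¹ ^ b) ^ N * c₀⁻¹ := by
    rw [← pow_mul, mul_comm a w, hab, pow_succ, mul_comm N b, pow_mul]
  have hG : PowerSeries.constantCoeff (g.eval₂ PowerSeries.C
      (PowerSeries.C x₀ + PowerSeries.C (c₀⁻¹ ^ a) * PowerSeries.X ^ N)) = c₀ := by
    rw [Polynomial.hom_eval₂]
    have h2 : (PowerSeries.constantCoeff (R := A)).comp PowerSeries.C = RingHom.id A := by
      ext z
      exact PowerSeries.constantCoeff_C z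
    rw [h2, map_add, map_mul, PowerSeries.constantCoeff_C, map_pow PowerSeries.constantCoeff
      PowerSeries.X N, PowerSeries.constantCoeff_X, zero_pow (by omega), mul_zero, add_zero, ← hce]
    rfl
  obtain ⟨V, hV, hV'⟩ := exists_root_series N hN (PowerSeries.C c₀⁻¹ * g.eval₂ PowerSeries.C
      (PowerSeries.C x₀ + PowerSeries.C (c₀⁻¹ ^ a) * PowerSeries.X ^ N)) 1 one_ne_zero (by
      rw [map_mul, hG, PowerSeries.constantCoeff_C, inv_mul_cancel₀ hc₀, one_pow])
  refine ⟨c₀⁻¹ ^ a, PowerSeries.X ^ w * (PowerSeries.C (c₀⁻¹ ^ b) * V),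
    pow_ne_zero _ (inv_ne_zero hc₀), ?_, PowerSeries.C (c₀⁻¹ ^ b) * V, rfl, ?_⟩
  · rw [hg, Polynomial.eval₂_mul, Polynomial.eval₂_pow, Polynomial.eval₂_sub, Polynomial.eval₂_X,
      Polynomial.eval₂_C, add_sub_cancel_left, mul_pow, mul_pow, hV, mul_pow, ← map_pow, ← map_pow,
      hcw, map_mul, ← pow_mul, ← pow_mul, mul_comm w N]
    ring
  · rw [map_mul, hV', mul_one, PowerSeries.constantCoeff_C]
    exact pow_ne_zero _ (inv_ne_zero hc₀)

/-- The order of a power series: the coefficients below `n` are zero, that of index `n` is not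
(`HahnSeries.order`, `LaurentSeries`, `PowerSeries.coeff_coe`, `PowerSeries.coeff_X_pow_mul'`). -/
lemma order_coe_of_eq {n : ℕ} {u v : PowerSeries A} (h : u = PowerSeries.X ^ n * v)
    (hv : PowerSeries.constantCoeff v ≠ 0) : (u : LaurentSeries A).order = n := by
  have hn : (u : LaurentSeries A).coeff (n : ℤ) ≠ 0 := by
    rw [PowerSeries.coeff_coe, if_neg (by omega), Int.natAbs_natCast, h,
      PowerSeries.coeff_X_pow_mul', if_pos le_rfl, Nat.sub_self]
    rwa [PowerSeries.coeff_zero_eq_constantCoeff_apply]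
  have hu : (u : LaurentSeries A) ≠ 0 := by
    intro h0
    rw [h0] at hn
    exact hn HahnSeries.coeff_zero
  refine le_antisymm (HahnSeries.order_le_of_coeff_ne_zero hn) ?_
  by_contra hlt
  push Not at hlt
  apply HahnSeries.coeff_order_eq_zero.not.mpr hu
  rw [PowerSeries.coeff_coe]
  by_cases hneg : (u : LaurentSeries A).order < 0
  · rw [if_pos hneg]
  · rw [if_neg hneg, h, PowerSeries.coeff_X_pow_mul', if_neg]
    rw [← h]
    omega


end Series

section Psi

variable {N : ℕ} {E : Type} [Field E] {f : E[X]} [hG : IsGood N f]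

/-- Evaluation of polynomials at a nonconstant series is injective. -/
lemma psi_eval_injective (hE : IsAlgClosed E) (X' : LaurentSeries E)
    (hX : ∀ c, X' ≠ HahnSeries.C c) :
    Function.Injective (Polynomial.eval₂RingHom (HahnSeries.C : E →+* LaurentSeries E) X') := by
  rw [injective_iff_map_eq_zero]
  intro p hp
  by_contra hp0
  have h1 : p.eval₂ (HahnSeries.C : E →+* LaurentSeries E) X' = 0 := hp
  have hroot : (p.map (HahnSeries.C : E →+* LaurentSeries E)).IsRoot X' := by
    rw [IsRoot.def, eval_map]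
    exact h1
  have hsp : p.Splits := IsAlgClosed.splits p
  rw [hsp.eq_prod_roots] at hroot
  rw [Polynomial.map_mul, Polynomial.map_C, IsRoot.def, eval_mul, eval_C] at hroot
  rcases mul_eq_zero.1 hroot with h | h
  · have h2 : p.leadingCoeff = 0 := by
      have h3 : (HahnSeries.C : E →+* LaurentSeries E) p.leadingCoeff = HahnSeries.C 0 := by
        rw [h, map_zero]
      exact HahnSeries.C_injective h3
    exact hp0 (leadingCoeff_eq_zero.1 h2)
  · rw [Polynomial.map_multiset_prod, Multiset.map_map, eval_multiset_prod, Multiset.map_map] at h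
    rw [Multiset.prod_eq_zero_iff, Multiset.mem_map] at h
    obtain ⟨c, _, hc⟩ := h
    apply hX c
    simp only [Function.comp_apply, Polynomial.map_sub, Polynomial.map_X, Polynomial.map_C,
      eval_sub, eval_X, eval_C] at hc
    exact sub_eq_zero.1 hc

theorem h4_exists_psi (X' Y : LaurentSeries E) (hX : ∀ c, X' ≠ HahnSeries.C c)
    (hXY : Y ^ N = f.eval₂ HahnSeries.C X') :
    ∃ ψ : FunField N f →+* LaurentSeries E,
      (∀ p : E[X], ψ (polyF p) = p.eval₂ HahnSeries.C X') ∧ ψ yF = Y := by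
  have hinj := psi_eval_injective hG.alg X' hX
  let φ : RatFunc E →+* LaurentSeries E := IsFractionRing.lift hinj
  have hφ : ∀ p : E[X], φ (algebraMap E[X] (RatFunc E) p) = p.eval₂ HahnSeries.C X' := by
    intro p
    exact IsFractionRing.lift_algebraMap hinj p
  refine ⟨AdjoinRoot.lift φ Y ?_, fun p => ?_, ?_⟩
  · rw [eval₂_sub, eval₂_pow, eval₂_X, eval₂_C, hφ, hXY, sub_self]
  · rw [polyF_eq, AdjoinRoot.lift_of, hφ]
  · exact AdjoinRoot.lift_root _

private lemma brh4e_nonneg (P : Pt N f) (h : (FunField N f)ˣ) :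
    0 ≤ ord P h ↔ P.hs.valuation (FunField N f) (h : FunField N f) ≤ 1 := by
  have h1 := WithZero.log_le_iff_le_exp (a := (0 : ℤ))
    ((Valuation.ne_zero_iff (P.hs.valuation (FunField N f))).mpr h.ne_zero)
  rw [WithZero.exp_zero] at h1
  rw [← h1]
  unfold ord
  omega

private lemma brh4e_poly (X' : PowerSeries E) (p : E[X]) :
    p.eval₂ HahnSeries.C (X' : LaurentSeries E) =
      ((p.eval₂ PowerSeries.C X' : PowerSeries E) : LaurentSeries E) := by
  have h1 : ((HahnSeries.ofPowerSeries ℤ E).comp PowerSeries.C : E →+* LaurentSeries E) =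
      HahnSeries.C := RingHom.ext fun c => PowerSeries.coe_C c
  have h2 := Polynomial.hom_eval₂ p (PowerSeries.C : E →+* PowerSeries E)
    (HahnSeries.ofPowerSeries ℤ E) X'
  rw [h1] at h2
  exact h2.symm

/-- The functions of the coordinate ring go to power series. -/
private lemma brh4e_exists_rho (ψ : FunField N f →+* LaurentSeries E) (X' : PowerSeries E)
    (hψ : ∀ p : E[X], ψ (polyF p) = p.eval₂ HahnSeries.C (X' : LaurentSeries E)) :
    ∃ ρ : NRing N f →+* PowerSeries E, ∀ a : NRing N f,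
      (ρ a : LaurentSeries E) = ψ (a : FunField N f) := by
  have h1 : ∀ a : NRing N f, ∃ w : PowerSeries E, (w : LaurentSeries E) = ψ (a : FunField N f) := by
    intro a
    obtain ⟨p, hp, hpa⟩ := (a.2 : IsIntegral E[X] (a : FunField N f))
    have h2 : IsIntegral (PowerSeries E) (ψ (a : FunField N f)) := by
      refine ⟨p.map (Polynomial.eval₂RingHom PowerSeries.C X'), hp.map _, ?_⟩
      rw [Polynomial.eval₂_map]
      have h3 : ((algebraMap (PowerSeries E) (LaurentSeries E)).comp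
          (Polynomial.eval₂RingHom PowerSeries.C X') : E[X] →+* LaurentSeries E) =
            ψ.comp (algebraMap E[X] (FunField N f)) := by
        refine RingHom.ext fun q => ?_
        have h4 := hψ q
        rw [brh4e_poly] at h4
        exact h4.symm
      rw [h3, ← Polynomial.hom_eval₂, hpa, map_zero]
    obtain ⟨w, hw⟩ := (IsIntegrallyClosed.isIntegral_iff (R := PowerSeries E)
      (K := LaurentSeries E)).mp h2
    exact ⟨w, hw⟩
  choose ρ hρ using h1
  have hinj : Function.Injective (HahnSeries.ofPowerSeries ℤ E) :=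
    HahnSeries.ofPowerSeries_injective
  refine ⟨{ toFun := ρ
            map_one' := hinj ?_
            map_mul' := fun a b => hinj ?_
            map_zero' := hinj ?_
            map_add' := fun a b => hinj ?_ }, fun a => hρ a⟩
  · rw [map_one]
    exact (hρ 1).trans (map_one ψ)
  · rw [map_mul]
    refine (hρ (a * b)).trans ?_
    have h2 := hρ a
    have h3 := hρ b
    rw [h2, h3]
    exact map_mul ψ _ _
  · rw [map_zero]
    exact (hρ 0).trans (map_zero ψ)
  · rw [map_add]
    refine (hρ (a + b)).trans ?_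
    have h2 := hρ a
    have h3 := hρ b
    rw [h2, h3]
    exact map_add ψ _ _

private lemma brh4e_eval (P : Pt N f) (ψ : FunField N f →+* LaurentSeries E)
    (X' Y : PowerSeries E)
    (hψ : ∀ p : E[X], ψ (polyF p) = p.eval₂ HahnSeries.C (X' : LaurentSeries E))
    (hy : ψ yF = Y) (hX : PowerSeries.constantCoeff X' = P.x)
    (hY : PowerSeries.constantCoeff Y = P.y) (ρ : NRing N f →+* PowerSeries E)
    (hρ : ∀ a : NRing N f, (ρ a : LaurentSeries E) = ψ (a : FunField N f)) (a : NRing N f) :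
    PowerSeries.constantCoeff (ρ a) = evalPt P a := by
  have hinj : Function.Injective (HahnSeries.ofPowerSeries ℤ E) :=
    HahnSeries.ofPowerSeries_injective
  have h1 : (PowerSeries.constantCoeff.comp ρ : NRing N f →+* E) = evalPt P := by
    refine hom_unique (RingHom.id E) P _ _ (fun p => ?_) ?_ (fun p => ?_) ?_
    · have h2 : ρ (ofPoly p) = p.eval₂ PowerSeries.C X' := by
        apply hinj
        refine (hρ (ofPoly p)).trans ?_
        rw [coe_ofPoly, hψ p]
        exact brh4e_poly X' p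
      rw [RingHom.comp_apply, h2, Polynomial.hom_eval₂, hX]
      have h3 : ((PowerSeries.constantCoeff : PowerSeries E →+* E).comp PowerSeries.C) =
          RingHom.id E := RingHom.ext fun c => PowerSeries.constantCoeff_C c
      rw [h3]
      rfl
    · have h2 : ρ yy = Y := by
        apply hinj
        refine (hρ yy).trans ?_
        rw [coe_yy, hy]
      rw [RingHom.comp_apply, h2, hY]
      rfl
    · rw [evalPt_ofPoly]
      rfl
    · rw [evalPt_yy]
      rfl
  exact RingHom.congr_fun h1 a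

/-- The order in the Laurent series is the order at the point. PROOF. The elements of `NRing` map to power
series `w` (integral over the image of `E[X]`, and power series are integrally closed in Laurent series), so for
`a` in `NRing` with `a(P) ≠ 0` (`evalPt`) the constant coefficient of `w` is `a(P)` (the homomorphisms
`NRing → E` given by `evalPt` and by the constant coefficient agree on `x` and `y`: `hom_unique`), not zero, the order is
zero. If `ord P v = 0` then `v = a / b` with `a`, `b` in `NRing`, both not vanishing at `P`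
(`HeightOneSpectrum.exists_primeCompl_mul_eq_of_integer`, see `exists_den`, `ord_pos_iff`, `exists_residue_pt` in `Wt/`). In
general `u = π ^ n * v`, `n = ord P u` (`ord_mul`, zpow). -/
theorem order_psi (P : Pt N f) (ψ : FunField N f →+* LaurentSeries E) (X' Y : PowerSeries E)
    (hψ : ∀ p : E[X], ψ (polyF p) = p.eval₂ HahnSeries.C (X' : LaurentSeries E))
    (hy : ψ yF = Y) (hX : PowerSeries.constantCoeff X' = P.x)
    (hY : PowerSeries.constantCoeff Y = P.y)
    (π : (FunField N f)ˣ) (hπ : ord P π = 1) (hπ' : (ψ π).order = 1) (u : (FunField N f)ˣ) :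
    (ψ u).order = ord P u := by
  obtain ⟨ρ, hρ⟩ := brh4e_exists_rho ψ X' hψ
  have hev := brh4e_eval P ψ X' Y hψ hy hX hY ρ hρ
  have hmul : ∀ v w : (FunField N f)ˣ, (ψ ((v * w : (FunField N f)ˣ) : FunField N f)).order =
      (ψ v).order + (ψ w).order := by
    intro v w
    rw [Units.val_mul, map_mul]
    exact HahnSeries.order_mul ((map_ne_zero ψ).mpr v.ne_zero) ((map_ne_zero ψ).mpr w.ne_zero)
  have hN : ∀ (a : NRing N f) (v : (FunField N f)ˣ),
      (v : FunField N f) = algebraMap (NRing N f) (FunField N f) a → evalPt P a ≠ 0 →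
        (ψ v).order = 0 := by
    intro a v hv ha
    have h1 : ψ v = (ρ a : LaurentSeries E) := by rw [hρ a, hv]; rfl
    rw [h1]
    exact order_coe_of_eq (n := 0) (u := ρ a) (v := ρ a) (by rw [pow_zero, one_mul])
      (by rw [hev a]; exact ha)
  have h0 : ∀ v : (FunField N f)ˣ, ord P v = 0 → (ψ v).order = 0 := by
    intro v hv
    have h1 : P.hs.valuation (FunField N f) (v : FunField N f) ≤ 1 :=
      (brh4e_nonneg P v).mp hv.ge
    obtain ⟨a, b, hab⟩ := HeightOneSpectrum.exists_primeCompl_mul_eq_of_integer P.hs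
      (v : FunField N f) h1
    have hb : evalPt P (b : NRing N f) ≠ 0 := fun h => b.2 ((mem_ideal P _).mpr h)
    have hb0 : algebraMap (NRing N f) (FunField N f) (b : NRing N f) ≠ 0 := by
      intro h
      have h2 : (b : NRing N f) = 0 :=
        IsFractionRing.injective (NRing N f) (FunField N f) (h.trans (map_zero _).symm)
      exact hb (by rw [h2, map_zero])
    have ha0 : algebraMap (NRing N f) (FunField N f) a ≠ 0 := by
      rw [← hab]
      exact mul_ne_zero v.ne_zero hb0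
    let ua : (FunField N f)ˣ := Units.mk0 _ ha0
    let ub : (FunField N f)ˣ := Units.mk0 _ hb0
    have huv : v * ub = ua := Units.ext hab
    have hbo : ord P ub = 0 := by
      have h2 := ord_nonneg P (b : NRing N f) ub rfl
      have h3 := (ord_pos_iff P (b : NRing N f) ub rfl).not.mpr hb
      omega
    have hao : ord P ua = 0 := by
      rw [← huv, ord_mul, hv, hbo, add_zero]
    have ha : evalPt P a ≠ 0 := by
      intro h
      have h3 := (ord_pos_iff P a ua rfl).mpr h
      omega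
    have e1 := hN a ua rfl ha
    have e2 := hN (b : NRing N f) ub rfl hb
    have e3 := hmul v ub
    rw [huv, e1, e2] at e3
    omega
  let χ : (FunField N f)ˣ →* Multiplicative ℤ :=
    { toFun := fun v => Multiplicative.ofAdd (ψ v).order
      map_one' := by
        rw [Units.val_one, map_one, HahnSeries.order_one]
        rfl
      map_mul' := fun v w => by
        rw [hmul]
        rfl }
  have hχ : ∀ v : (FunField N f)ˣ, (ψ v).order = Multiplicative.toAdd (χ v) := fun v => rfl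
  have h1 : ord P (u * π ^ (-ord P u)) = 0 := by
    rw [ord_mul, ord_zpow, hπ]
    ring
  have h2 := h0 _ h1
  rw [hχ, map_mul, map_zpow, toAdd_mul, toAdd_zpow, ← hχ, ← hχ, hπ', smul_eq_mul, mul_one] at h2
  omega

lemma es_aux {A : Type} [Field A] (σ : A →+* E) (fA : A[X]) (hf : fA.map σ = f)
    (P : Pt N f) (X' Y : PowerSeries A) (hX : ∀ c, lm σ (X' : LaurentSeries A) ≠ HahnSeries.C c)
    (hXY : Y ^ N = fA.eval₂ PowerSeries.C X') (hx : σ (PowerSeries.constantCoeff X') = P.x)
    (hy : σ (PowerSeries.constantCoeff Y) = P.y)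
    (hord : ∀ ψ : FunField N f →+* LaurentSeries E,
      (∀ p : E[X], ψ (polyF p) = p.eval₂ HahnSeries.C (lm σ (X' : LaurentSeries A))) →
      ψ yF = lm σ (Y : LaurentSeries A) →
      ∃ π : (FunField N f)ˣ, ord P π = 1 ∧ (ψ π).order = 1) :
    ∃ (X' Y : PowerSeries A) (ψ : FunField N f →+* LaurentSeries E),
      (∀ p : E[X], ψ (polyF p) = p.eval₂ HahnSeries.C (lm σ (X' : LaurentSeries A))) ∧
      ψ yF = lm σ (Y : LaurentSeries A) ∧ ∀ u : (FunField N f)ˣ, (ψ u).order = ord P u := by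
  have h1 : (lm σ (Y : LaurentSeries A)) ^ N =
      f.eval₂ HahnSeries.C (lm σ (X' : LaurentSeries A)) := by
    have h2 := congrArg (fun w : PowerSeries A => lm σ (HahnSeries.ofPowerSeries ℤ A w)) hXY
    simp only [map_pow] at h2
    have h3 : lm σ (HahnSeries.ofPowerSeries ℤ A (fA.eval₂ PowerSeries.C X')) =
        fA.eval₂ (((lm σ).comp (HahnSeries.ofPowerSeries ℤ A)).comp PowerSeries.C)
          (((lm σ).comp (HahnSeries.ofPowerSeries ℤ A)) X') := by
      rw [← Polynomial.hom_eval₂]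
      rfl
    rw [h3] at h2
    rw [← hf, Polynomial.eval₂_map]
    refine h2.trans ?_
    congr 1
    ext a : 1
    show lm σ ((PowerSeries.C a : PowerSeries A) : LaurentSeries A) = _
    rw [PowerSeries.coe_C, lm_C]
    rfl
  obtain ⟨ψ, hψ, hψy⟩ := h4_exists_psi (lm σ (X' : LaurentSeries A)) (lm σ (Y : LaurentSeries A)) hX h1
  obtain ⟨π, hπ, hπ'⟩ := hord ψ hψ hψy
  refine ⟨X', Y, ψ, hψ, hψy, fun u => ?_⟩
  refine order_psi P ψ (PowerSeries.map σ X') (PowerSeries.map σ Y) ?_ ?_ ?_ ?_ π hπ hπ' u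
  · intro p
    rw [hψ, lm_coe]
  · rw [hψy, lm_coe]
  · rw [← hx]
    rfl
  · rw [← hy]
    rfl

theorem exists_series {A : Type} [Field A] (σ : A →+* E) (fA : A[X]) (hf : fA.map σ = f)
    (P : Pt N f) (x₀ y₀ : A) (hx : σ x₀ = P.x) (hy : σ y₀ = P.y) :
    ∃ (X' Y : PowerSeries A) (ψ : FunField N f →+* LaurentSeries E),
      (∀ p : E[X], ψ (polyF p) = p.eval₂ HahnSeries.C (lm σ (X' : LaurentSeries A))) ∧
      ψ yF = lm σ (Y : LaurentSeries A) ∧ ∀ u : (FunField N f)ˣ, (ψ u).order = ord P u := by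
  have hNA : (N : A) ≠ 0 := by
    intro h
    apply hG.ne_zero
    rw [← map_natCast σ, h, map_zero]
  have hP : y₀ ^ N = fA.eval x₀ := by
    apply σ.injective
    rw [map_pow, hy, P.eq, ← hx]
    subst hf
    rw [Polynomial.eval_map, Polynomial.eval₂_hom]
  -- a series of order `n > 0` plus a constant is not a constant
  have hne : ∀ (n : ℕ) (c : A), 0 < n → c ≠ 0 → ∀ d : E,
      lm σ ((PowerSeries.C x₀ + PowerSeries.C c * PowerSeries.X ^ n : PowerSeries A) :
        LaurentSeries A) ≠ HahnSeries.C d := by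
    intro n c hn hc d h
    have h1 := congrArg (fun w : LaurentSeries E => w.coeff (n : ℤ)) h
    rw [lm_coe] at h1
    simp only [PowerSeries.coeff_coe] at h1
    rw [if_neg (by omega), Int.natAbs_natCast, PowerSeries.coeff_map, map_add,
      PowerSeries.coeff_C_mul, PowerSeries.coeff_X_pow_self, PowerSeries.coeff_C,
      if_neg hn.ne', zero_add, mul_one, HahnSeries.C_apply,
      HahnSeries.coeff_single_of_ne (by omega)] at h1
    exact hc ((map_eq_zero σ).mp h1)
  by_cases h0 : y₀ = 0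
  · subst h0
    have hPy : P.y = 0 := by rw [← hy, map_zero]
    have hfx : fA.eval x₀ = 0 := by
      rw [← hP, zero_pow hG.ne]
    have hfA : fA ≠ 0 := by
      rintro rfl
      rw [Polynomial.map_zero] at hf
      exact f_ne_zero N f hf.symm
    have hPx : f.eval P.x = 0 := by rw [← P.eq, hPy, zero_pow hG.ne]
    have hmult : fA.rootMultiplicity x₀ = f.rootMultiplicity P.x := by
      rw [← hx]
      exact (wt_map σ hf x₀).symm
    have hw : (fA.rootMultiplicity x₀).Coprime N := by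
      rw [hmult]
      exact hG.mult _ hPx
    obtain ⟨c, Y, hc, hY, Y', hYY', hY'⟩ := exists_series_eq N hNA hG.one_lt fA hfA x₀ hfx hw
    have hw0 : fA.rootMultiplicity x₀ ≠ 0 := by
      rw [← Nat.pos_iff_ne_zero, Polynomial.rootMultiplicity_pos hfA]
      exact hfx
    refine es_aux σ fA hf P _ Y (hne N c hG.pos hc) hY ?_ ?_ ?_
    · simp [hx, hG.ne]
    · rw [hYY', hPy]
      simp [hw0]
    · intro ψ hψ hψy
      refine ⟨unif P.x, ord_unif P hPy, ?_⟩
      have e1 : (ψ (xs P.x : (FunField N f)ˣ)).order = N := by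
        show (ψ (polyF (X - C P.x))).order = N
        rw [hψ, eval₂_sub, eval₂_X, eval₂_C, ← hx, ← lm_C, ← PowerSeries.coe_C, ← map_sub,
          ← PowerSeries.coe_sub, order_lm]
        refine order_coe_of_eq (v := PowerSeries.C c) ?_ ?_
        · ring
        · simpa using hc
      have e2 : (ψ (yU : (FunField N f)ˣ)).order = f.rootMultiplicity P.x := by
        show (ψ yF).order = _
        rw [hψy, order_lm, ← hmult]
        exact order_coe_of_eq hYY' hY'
      have e3 : ψ (unif P.x : (FunField N f)ˣ) =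
          ψ (yU : (FunField N f)ˣ) ^ al N (wt f P.x) *
            (ψ (xs P.x : (FunField N f)ˣ) ^ be N (wt f P.x))⁻¹ := by
        rw [unif, Units.val_mul, Units.val_pow_eq_pow_val, Units.val_inv_eq_inv_val,
          Units.val_pow_eq_pow_val, map_mul, map_inv₀, map_pow, map_pow]
      have n1 : ψ (yU : (FunField N f)ˣ) ≠ 0 := (_root_.map_ne_zero ψ).mpr (Units.ne_zero _)
      have n2 : ψ (xs P.x : (FunField N f)ˣ) ≠ 0 := (_root_.map_ne_zero ψ).mpr (Units.ne_zero _)
      have e4 : (ψ (xs P.x : (FunField N f)ˣ) ^ be N (wt f P.x))⁻¹.order =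
          -((be N (wt f P.x) * N : ℕ) : ℤ) := by
        have h1 := HahnSeries.order_mul (pow_ne_zero (be N (wt f P.x)) n2)
          (inv_ne_zero (pow_ne_zero (be N (wt f P.x)) n2))
        rw [mul_inv_cancel₀ (pow_ne_zero (be N (wt f P.x)) n2), HahnSeries.order_one,
          HahnSeries.order_pow, e1, nsmul_eq_mul] at h1
        push_cast
        linarith
      rw [e3, HahnSeries.order_mul (pow_ne_zero _ n1) (inv_ne_zero (pow_ne_zero _ n2)), e4,
        HahnSeries.order_pow, e2, nsmul_eq_mul]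
      have h5 := al_wt (N := N) hPx
      have h6 : ((al N (wt f P.x) * wt f P.x : ℕ) : ℤ) = ((be N (wt f P.x) * N + 1 : ℕ) : ℤ) := by
        rw [h5]
      push_cast at h6 ⊢
      rw [show ((f.rootMultiplicity P.x : ℕ) : ℤ) = (wt f P.x : ℤ) from rfl]
      linarith
  · obtain ⟨Y, hY, hY0⟩ := exists_series_ne N hNA fA x₀ y₀ hP h0
    have h1 : (PowerSeries.C x₀ + PowerSeries.X : PowerSeries A) =
        PowerSeries.C x₀ + PowerSeries.C 1 * PowerSeries.X ^ 1 := by
      rw [map_one, one_mul, pow_one]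
    have hPy : P.y ≠ 0 := by
      rw [← hy]
      exact (_root_.map_ne_zero σ).mpr h0
    rw [h1] at hY
    refine es_aux σ fA hf P _ Y (hne 1 1 one_pos one_ne_zero) hY ?_ ?_ ?_
    · simp [hx]
    · rw [hY0, hy]
    · intro ψ hψ hψy
      refine ⟨xs P.x, ord_xs_of_unramified P hPy, ?_⟩
      show (ψ (polyF (X - C P.x))).order = 1
      rw [hψ, eval₂_sub, eval₂_X, eval₂_C, ← hx, ← lm_C, ← PowerSeries.coe_C, ← map_sub,
        ← PowerSeries.coe_sub, order_lm]
      have h2 := order_coe_of_eq (n := 1) (v := (1 : PowerSeries A))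
        (u := PowerSeries.C x₀ + PowerSeries.C 1 * PowerSeries.X ^ 1 - PowerSeries.C x₀) (by
          rw [map_one]
          ring) (by simp)
      exact_mod_cast h2

end Psi

section

variable {L Ω : Type} [Field L] [Field Ω] [Algebra L Ω] {ℓ : ℕ} {f : L[X]}
  [hG : IsGood ℓ (f.map (algebraMap L Ω))]

/-- The functions over `L` have coefficients in `A`. PROOF. Both `ψ ∘ toO` and the image of `lm (algebraMap A Ω)`
are fields; `FunField ℓ f` is generated as a field by the polynomials and `yF`: every element is `(∑ pᵢ(x) yⁱ) / q(x)`.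
It suffices to treat `polyF p` (`ψ (polyF (p.map _)) = (p.map _).eval₂ C (lm X') = lm (p.eval₂ .. X')`) and `yF`; use the
lemmas of `Wt/` for elements of `FunField` (`exists_rep`...), `funMap` on `polyF` and `yF`. -/
theorem toO_mem (A : IntermediateField L Ω)
    (ψ : FunField ℓ (f.map (algebraMap L Ω)) →+* LaurentSeries Ω) (X' Y : LaurentSeries A)
    (hψ : ∀ p : Polynomial Ω, ψ (polyF p) = p.eval₂ HahnSeries.C (lm (algebraMap A Ω) X'))
    (hy : ψ yF = lm (algebraMap A Ω) Y) (r : FunField ℓ f) :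
    ∃ w : LaurentSeries A, ψ (toO ℓ f Ω r) = lm (algebraMap A Ω) w := by
  have key : ∀ r : FunField ℓ f, ψ (toO ℓ f Ω r) ∈ (lm (algebraMap A Ω)).fieldRange := by
    have hp : ∀ p : L[X], ψ (toO ℓ f Ω (polyF p)) ∈ (lm (algebraMap A Ω)).fieldRange := by
      intro p
      have h1 : toO ℓ f Ω (polyF p) = polyF (p.map (algebraMap L Ω)) :=
        funMap_polyF (algebraMap L Ω) rfl p
      rw [h1, hψ, Polynomial.eval₂_map, Polynomial.eval₂_eq_sum_range]
      have hX : lm (algebraMap A Ω) X' ∈ (lm (algebraMap A Ω)).fieldRange := ⟨X', rfl⟩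
      refine sum_mem fun i _ => mul_mem ?_ (pow_mem hX i)
      refine ⟨HahnSeries.C (algebraMap L A (p.coeff i)), ?_⟩
      rw [lm_C, RingHom.comp_apply, ← IsScalarTower.algebraMap_apply L A Ω]
    have hq : ∀ a : RatFunc L,
        ψ (toO ℓ f Ω (AdjoinRoot.of _ a)) ∈ (lm (algebraMap A Ω)).fieldRange := by
      intro a
      obtain ⟨p, q, hq0, rfl⟩ := IsFractionRing.div_surjective (A := L[X]) a
      have h2 : ψ (toO ℓ f Ω (AdjoinRoot.of _ (algebraMap L[X] (RatFunc L) p /
          algebraMap L[X] (RatFunc L) q))) =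
          ψ (toO ℓ f Ω (AdjoinRoot.of _ (algebraMap L[X] (RatFunc L) p))) /
          ψ (toO ℓ f Ω (AdjoinRoot.of _ (algebraMap L[X] (RatFunc L) q))) :=
        map_div₀ ((ψ.comp (toO ℓ f Ω)).comp
          (AdjoinRoot.of (X ^ ℓ - C (algebraMap L[X] (RatFunc L) f)))) _ _
      rw [h2, ← polyF_eq, ← polyF_eq]
      exact div_mem (hp p) (hp q)
    intro r
    induction r using AdjoinRoot.induction_on with
    | ih g =>
      induction g using Polynomial.induction_on' with
      | add p q hp1 hq1 =>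
        rw [map_add, map_add, map_add]
        exact add_mem hp1 hq1
      | monomial n a =>
        rw [← C_mul_X_pow_eq_monomial, map_mul, map_pow, AdjoinRoot.mk_C, AdjoinRoot.mk_X,
          map_mul, map_mul, map_pow, map_pow]
        have hY : lm (algebraMap A Ω) Y ∈ (lm (algebraMap A Ω)).fieldRange := ⟨Y, rfl⟩
        refine mul_mem (hq a) (pow_mem ?_ n)
        have h3 : toO ℓ f Ω (AdjoinRoot.root _) = yF := funMap_yF (algebraMap L Ω) rfl
        rw [h3, hy]
        exact hY
  obtain ⟨w, hw⟩ := key r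
  exact ⟨w, hw.symm⟩

/-- The action of the automorphisms on the functions is `funMap`. -/
lemma h4g_coe_symU (σ : Sym (f.map (algebraMap L Ω)))
    (u : (FunField ℓ (f.map (algebraMap L Ω)))ˣ) :
    ((symU σ u : (FunField ℓ (f.map (algebraMap L Ω)))ˣ) : FunField ℓ (f.map (algebraMap L Ω))) =
      funMap ℓ ((σ : Ω ≃+* Ω) : Ω →+* Ω) σ.2 u := by
  have h : ((autF (symE ℓ σ) : FunField ℓ (f.map (algebraMap L Ω)) ≃+*
      FunField ℓ (f.map (algebraMap L Ω))) : FunField ℓ (f.map (algebraMap L Ω)) →+*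
      FunField ℓ (f.map (algebraMap L Ω))) = funMap ℓ ((σ : Ω ≃+* Ω) : Ω →+* Ω) σ.2 := by
    refine funField_hom_ext (fun p => ?_) ?_
    · rw [funMap_polyF]
      have h1 := autF_algebraMap (symE ℓ σ) (ofPoly p)
      rw [R07_symE_ofPoly] at h1
      exact h1
    · rw [funMap_yF]
      have h1 := autF_algebraMap (symE ℓ σ) yy
      rw [R07_symE_yy] at h1
      exact h1
  exact RingHom.congr_fun h (u : FunField ℓ (f.map (algebraMap L Ω)))

/-- Compatibility with the automorphisms. PROOF. Two homomorphisms of the function field which agree on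
`polyF p` and on `yF` are equal (`funField_hom_ext`): `ψ ∘ symFF g` and `lm g ∘ ψ`, as `lm g` fixes the series with
coefficients in `A` (`lm_comp`). -/
theorem h4_psi_symU (A : IntermediateField L Ω)
    (ψ : FunField ℓ (f.map (algebraMap L Ω)) →+* LaurentSeries Ω) (X' Y : LaurentSeries A)
    (hψ : ∀ p : Polynomial Ω, ψ (polyF p) = p.eval₂ HahnSeries.C (lm (algebraMap A Ω) X'))
    (hy : ψ yF = lm (algebraMap A Ω) Y) (g : Ω ≃ₐ[L] Ω) (hg : ∀ z ∈ A, g z = z)
    (u : (FunField ℓ (f.map (algebraMap L Ω)))ˣ) :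
    ψ (symU (gs f g) u : (FunField ℓ (f.map (algebraMap L Ω)))ˣ) =
      lm ((g : Ω ≃+* Ω) : Ω →+* Ω) (ψ u) := by
  have hfix : ∀ w : LaurentSeries A, lm ((g : Ω ≃+* Ω) : Ω →+* Ω) (lm (algebraMap A Ω) w) =
      lm (algebraMap A Ω) w := by
    intro w
    ext n
    rw [coeff_lm, coeff_lm]
    exact hg _ (w.coeff n).2
  have h : ψ.comp (funMap ℓ (((gs f g : Sym (f.map (algebraMap L Ω))) : Ω ≃+* Ω) : Ω →+* Ω)
      (gs f g).2) = (lm ((g : Ω ≃+* Ω) : Ω →+* Ω)).comp ψ := by
    refine funField_hom_ext (fun p => ?_) ?_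
    · rw [RingHom.comp_apply, RingHom.comp_apply, funMap_polyF, hψ, hψ, Polynomial.eval₂_map,
        Polynomial.hom_eval₂, hfix]
      congr 1
      refine RingHom.ext fun z => ?_
      rw [RingHom.comp_apply, RingHom.comp_apply, lm_C]
      rfl
    · rw [RingHom.comp_apply, RingHom.comp_apply, funMap_yF, hy, hfix]
  rw [h4g_coe_symU]
  exact RingHom.congr_fun h (u : FunField ℓ (f.map (algebraMap L Ω)))

/-- The expansion at the point `P`. PROOF. `exists_series` for `σ = algebraMap A Ω`, `fA = f.map (algebraMap L A)`, then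
`toO_mem`, `h4_psi_symU`. For the series of negative order: `r = 1 / m(x)` with `m` in `L[X]` the minimal polynomial of
`P.x` over `L`: `m(P.x) = 0` so the order is positive (`ord_pos_iff`...). -/
theorem exists_expansion [Algebra.IsAlgebraic L Ω] (P : Pt ℓ (f.map (algebraMap L Ω)))
    (A : IntermediateField L Ω)
    (hx : P.x ∈ A) (hy : P.y ∈ A) :
    ∃ ψ : FunField ℓ (f.map (algebraMap L Ω)) →+* LaurentSeries Ω,
      (∀ z : Ω, ψ (cO ℓ f Ω z) = HahnSeries.C z) ∧
      (∀ u : (FunField ℓ (f.map (algebraMap L Ω)))ˣ, (ψ u).order = ord P u) ∧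
      (∀ r : FunField ℓ f, ∃ w : LaurentSeries A, ψ (toO ℓ f Ω r) = lm (algebraMap A Ω) w) ∧
      (∀ g : Ω ≃ₐ[L] Ω, (∀ z ∈ A, g z = z) → ∀ u : (FunField ℓ (f.map (algebraMap L Ω)))ˣ,
        ψ (symU (gs f g) u : (FunField ℓ (f.map (algebraMap L Ω)))ˣ) =
          lm ((g : Ω ≃+* Ω) : Ω →+* Ω) (ψ u)) ∧
      (∃ r : FunField ℓ f, (ψ (toO ℓ f Ω r)).order < 0) ∧
      (∃ X' Y : LaurentSeries A, ψ (polyF X) = lm (algebraMap A Ω) X' ∧
        ψ yF = lm (algebraMap A Ω) Y) := by
  have hf : (f.map (algebraMap L A)).map (algebraMap A Ω) = f.map (algebraMap L Ω) := by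
    rw [Polynomial.map_map, ← IsScalarTower.algebraMap_eq L A Ω]
  obtain ⟨X', Y, ψ, h1, h2, h3⟩ := exists_series (algebraMap A Ω) (f.map (algebraMap L A)) hf P
    ⟨P.x, hx⟩ ⟨P.y, hy⟩ rfl rfl
  refine ⟨ψ, ?_, h3, ?_, ?_, ?_, ?_⟩
  · intro z
    have h : cO ℓ f Ω z = polyF (C z) := rfl
    rw [h, h1, eval₂_C]
  · exact toO_mem A ψ X' Y h1 h2
  · exact h4_psi_symU A ψ X' Y h1 h2
  · have hm : (minpoly L P.x).map (algebraMap L Ω) ≠ 0 := by
      rw [Ne, Polynomial.map_eq_zero]
      exact minpoly.ne_zero (Algebra.IsAlgebraic.isAlgebraic P.x).isIntegral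
    obtain ⟨u, hu⟩ : ∃ u : (FunField ℓ (f.map (algebraMap L Ω)))ˣ,
        u = polyU ((minpoly L P.x).map (algebraMap L Ω)) hm := ⟨_, rfl⟩
    have hu' : (u : FunField ℓ (f.map (algebraMap L Ω))) =
        toO ℓ f Ω (polyF (minpoly L P.x)) := by
      rw [hu]
      exact (funMap_polyF (algebraMap L Ω) rfl (minpoly L P.x)).symm
    have hpos : 0 < ord P u := by
      rw [ord_pos_iff P (ofPoly ((minpoly L P.x).map (algebraMap L Ω))) u (by rw [hu]; rfl),
        evalPt_ofPoly, eval_map_algebraMap, minpoly.aeval]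
    obtain ⟨r, hr⟩ : ∃ r : FunField ℓ f, polyF (minpoly L P.x) * r = 1 := by
      refine ⟨AdjoinRoot.of _ ((algebraMap L[X] (RatFunc L) (minpoly L P.x))⁻¹), ?_⟩
      rw [polyF_eq, ← map_mul, mul_inv_cancel₀, map_one]
      intro h0
      exact minpoly.ne_zero (Algebra.IsAlgebraic.isAlgebraic P.x).isIntegral
        (IsFractionRing.injective L[X] (RatFunc L) (h0.trans (map_zero _).symm))
    refine ⟨r, ?_⟩
    have h4 := h3 u⁻¹
    have h5 : (u⁻¹ : (FunField ℓ (f.map (algebraMap L Ω)))ˣ) = toO ℓ f Ω r := by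
      apply Units.inv_eq_of_mul_eq_one_right
      rw [hu', ← map_mul, hr, map_one]
    rw [ord_inv, h5] at h4
    rw [h4]
    omega
  · refine ⟨X', Y, ?_, h2⟩
    rw [h1, eval₂_X]

end

end Pool.Agent.Lib.MP_89bcae_ag.Bra

end

section

/-!
# The closed points of the curve over `L`
-/

open Polynomial IsDedekindDomain IsLocalRing

open scoped Classical

namespace Pool.Agent.Lib.MP_89bcae_ag.Bra

open Pool.Agent.Lib.MP_89bcae_ag.Wt Pool.Agent.Lib.MP_89bcae_ag.Wt.Lns

section

variable {L Ω : Type} [Field L] [Field Ω] [Algebra L Ω] {ℓ : ℕ} {f : L[X]}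
  [hG : IsGood ℓ (f.map (algebraMap L Ω))]

/-- A subfield of the functions which contains the constants and the two coordinates is everything. -/
lemma hor_subfield (S : Subfield (FunField ℓ (f.map (algebraMap L Ω))))
    (hc : ∀ z : Ω, cO ℓ f Ω z ∈ S) (hx : polyF X ∈ S) (hy : yF ∈ S)
    (u : FunField ℓ (f.map (algebraMap L Ω))) : u ∈ S := by
  have hp : ∀ p : Polynomial Ω, (polyF p : FunField ℓ (f.map (algebraMap L Ω))) ∈ S := by
    intro p
    induction p using Polynomial.induction_on' with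
    | add p q hp1 hq1 =>
      rw [map_add]
      exact add_mem hp1 hq1
    | monomial n a =>
      rw [← C_mul_X_pow_eq_monomial, map_mul, map_pow]
      exact mul_mem (hc a) (pow_mem hx n)
  have hq : ∀ a : RatFunc Ω, (AdjoinRoot.of _ a : FunField ℓ (f.map (algebraMap L Ω))) ∈ S := by
    intro a
    obtain ⟨p, q, hq0, rfl⟩ := IsFractionRing.div_surjective (A := Polynomial Ω) a
    rw [map_div₀, ← polyF_eq, ← polyF_eq]
    exact div_mem (hp p) (hp q)
  induction u using AdjoinRoot.induction_on with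
  | ih g =>
    induction g using Polynomial.induction_on' with
    | add p q hp1 hq1 =>
      rw [map_add]
      exact add_mem hp1 hq1
    | monomial n a =>
      rw [← C_mul_X_pow_eq_monomial, map_mul, map_pow, AdjoinRoot.mk_C, AdjoinRoot.mk_X]
      exact mul_mem (hq a) (pow_mem hy n)

/-- The local computation at the point `P`. -/
theorem local_step {F : Type} [Field F] [Algebra F[X] L] [IsAlgClosure L Ω] (hℓ : ℓ.Prime)
    (b : (Ω ≃ₐ[L] Ω) → (Ω ≃ₐ[L] Ω) → (FunField ℓ (f.map (algebraMap L Ω)))ˣ) (hb : ICoc b)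
    (hu : IUnr F b) (P : Pt ℓ (f.map (algebraMap L Ω))) :
    ∃ q : ℕ, q.Coprime ℓ ∧ ∀ C : (Ω ≃ₐ[L] Ω) → ℚ, (Set.range C).Finite →
      (∀ g h : Ω ≃ₐ[L] Ω, P.sym (gs f g) = P → P.sym (gs f h) = P →
        (ord P (b g h) : ℚ) + C (g * h) = C h + C g) →
      ∀ g : Ω ≃ₐ[L] Ω, P.sym (gs f g) = P → ∃ z : ℤ, (q : ℚ) * C g = z := by
  have halg : Algebra.IsAlgebraic L Ω := IsAlgClosure.isAlgebraic
  obtain ⟨A, hAdef⟩ : ∃ A : IntermediateField L Ω, A = IntermediateField.adjoin L {P.x, P.y} :=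
    ⟨_, rfl⟩
  have hx : P.x ∈ A := hAdef ▸ IntermediateField.subset_adjoin _ _ (Set.mem_insert _ _)
  have hy : P.y ∈ A := hAdef ▸ IntermediateField.subset_adjoin _ _
    (Set.mem_insert_of_mem _ (Set.mem_singleton _))
  have hAfix : ∀ g : Ω ≃ₐ[L] Ω, P.sym (gs f g) = P ↔ ∀ z ∈ A, g z = z := by
    intro g
    constructor
    · intro hg z hz
      have h1 : g P.x = P.x := congrArg Pt.x hg
      have h2 : g P.y = P.y := congrArg Pt.y hg
      rw [hAdef] at hz
      induction hz using IntermediateField.adjoin_induction with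
      | mem x hx =>
        rcases hx with rfl | hx
        · exact h1
        · rw [Set.mem_singleton_iff] at hx
          rw [hx]
          exact h2
      | algebraMap x => exact g.commutes x
      | add x y _ _ hx hy => rw [map_add, hx, hy]
      | inv x _ hx => rw [map_inv₀, hx]
      | mul x y _ _ hx hy => rw [map_mul, hx, hy]
    · intro hg
      exact Pt.ext (hg _ hx) (hg _ hy)
  obtain ⟨ψ, hψC, hψord, hψA, hψsym, ⟨r0, hr0⟩, X', Y, hX', hY⟩ := exists_expansion P A hx hy
  set ι : LaurentSeries Ω →+* Tb Ω := algebraMap (LaurentSeries Ω) (Tb Ω) with hι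
  have hHT : ∀ w : LaurentSeries A, algebraMap (LaurentSeries A) (Tb Ω) w =
      ι (lm (algebraMap A Ω) w) := fun w => by
    rw [IsScalarTower.algebraMap_apply (LaurentSeries A) (LaurentSeries Ω) (Tb Ω), algHE_apply]
  have hK : ∀ u : FunField ℓ (f.map (algebraMap L Ω)), ∃ k ∈ K1 A, (k : Tb Ω) = ι (ψ u) := by
    let S : Subfield (FunField ℓ (f.map (algebraMap L Ω))) :=
      { carrier := {u | ∃ k ∈ K1 A, (k : Tb Ω) = ι (ψ u)}
        mul_mem' := by
          rintro a b ⟨k, hk, hk'⟩ ⟨m, hm, hm'⟩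
          exact ⟨k * m, mul_mem hk hm, by rw [map_mul, map_mul, ← hk', ← hm']; rfl⟩
        one_mem' := ⟨1, one_mem _, by rw [map_one, map_one]; rfl⟩
        add_mem' := by
          rintro a b ⟨k, hk, hk'⟩ ⟨m, hm, hm'⟩
          exact ⟨k + m, add_mem hk hm, by rw [map_add, map_add, ← hk', ← hm']; rfl⟩
        zero_mem' := ⟨0, zero_mem _, by rw [map_zero, map_zero]; rfl⟩
        neg_mem' := by
          rintro a ⟨k, hk, hk'⟩
          exact ⟨-k, neg_mem hk, by rw [map_neg, map_neg, ← hk']; rfl⟩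
        inv_mem' := by
          rintro a ⟨k, hk, hk'⟩
          exact ⟨k⁻¹, inv_mem hk, by rw [map_inv₀, map_inv₀, ← hk']; rfl⟩ }
    intro u
    refine hor_subfield S ?_ ?_ ?_ u
    · intro z
      refine ⟨jj A z, IntermediateField.subset_adjoin _ _ ⟨z, rfl⟩, ?_⟩
      rw [hψC]
      rfl
    · refine ⟨algebraMap (LaurentSeries A) (TT A) X', IntermediateField.algebraMap_mem _ _, ?_⟩
      rw [hX', ← hHT]
      rfl
    · refine ⟨algebraMap (LaurentSeries A) (TT A) Y, IntermediateField.algebraMap_mem _ _, ?_⟩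
      rw [hY, ← hHT]
      rfl
  choose kk hkK hkk using hK
  obtain ⟨ψ', hψ'⟩ : ∃ ψ' : FunField ℓ (f.map (algebraMap L Ω)) →+* TT A,
      ∀ u, (ψ' u : Tb Ω) = ι (ψ u) :=
    ⟨{ toFun := fun u => kk u
       map_one' := Subtype.ext (by rw [hkk, map_one, map_one]; rfl)
       map_mul' := fun u v => Subtype.ext (by
        rw [hkk, map_mul, map_mul, ← hkk, ← hkk]; rfl)
       map_zero' := Subtype.ext (by rw [hkk, map_zero, map_zero]; rfl)
       map_add' := fun u v => Subtype.ext (by
        rw [hkk, map_add, map_add, ← hkk, ← hkk]; rfl) }, hkk⟩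
  have hψc : ∀ z : Ω, ψ' (cO ℓ f Ω z) = jj A z := by
    intro z
    apply Subtype.ext
    rw [hψ', hψC]
    rfl
  have hadic : IsAdicComplete (maximalIdeal (PowerSeries A)) (PowerSeries A) := by
    rw [PowerSeries.maximalIdeal_eq_span_X]
    infer_instance
  have hr1 : ∀ r : FunField ℓ f, ψ' (toO ℓ f Ω r) ∈
      (algebraMap (LaurentSeries A) (TT A)).range := by
    intro r
    obtain ⟨w, hw⟩ := hψA r
    refine ⟨w, ?_⟩
    apply Subtype.ext
    rw [hψ', hw, ← hHT]
    rfl
  have hr2 : ∀ c : F, ψ' (cO ℓ f Ω (algebraMap L Ω (algebraMap F[X] L (C c)))) ∈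
      ((algebraMap (LaurentSeries A) (TT A)).comp
        (algebraMap (PowerSeries A) (LaurentSeries A))).range := by
    intro c
    refine ⟨PowerSeries.C (algebraMap L A (algebraMap F[X] L (C c))), ?_⟩
    apply Subtype.ext
    rw [hψ', hψC]
    show algebraMap (LaurentSeries A) (Tb Ω) (algebraMap (PowerSeries A) (LaurentSeries A)
      (PowerSeries.C (algebraMap L A (algebraMap F[X] L (C c))))) = _
    rw [hHT]
    congr 1
    show lm (algebraMap A Ω) ((PowerSeries.C (algebraMap L A (algebraMap F[X] L (C c))) :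
      PowerSeries A) : LaurentSeries A) = _
    rw [PowerSeries.coe_C, lm_C]
    rfl
  have hr3 : ∃ r : FunField ℓ f, ψ' (toO ℓ f Ω r) ∉
      ((algebraMap (LaurentSeries A) (TT A)).comp
        (algebraMap (PowerSeries A) (LaurentSeries A))).range := by
    refine ⟨r0, ?_⟩
    rintro ⟨v, hv⟩
    have h1 := congrArg (fun z : TT A => (z : Tb Ω)) hv
    have h2 : ι (lm (algebraMap A Ω) (v : LaurentSeries A)) = ι (ψ (toO ℓ f Ω r0)) := by
      rw [← hHT, ← hψ']
      exact h1
    rw [← ι.injective h2, order_lm] at hr0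
    have h3 : (v : LaurentSeries A) ≠ 0 := by
      intro h0
      rw [h0, HahnSeries.order_zero] at hr0
      exact lt_irrefl _ hr0
    have h4 := HahnSeries.coeff_order_eq_zero.not.mpr h3
    rw [PowerSeries.coeff_coe, if_pos hr0] at h4
    exact h4 rfl
  obtain ⟨a, ha, hab⟩ := hu (PowerSeries A) (LaurentSeries A) (TT A) ψ' hr1 hr2 hr3
  set p : ℕ := ringExpChar Ω with hp
  have : ExpChar Ω p := ringExpChar.expChar Ω
  have hpℓ : p.Coprime ℓ := G13_coprime hℓ hG.ne_zero
  have e1 : ∀ g : Ω ≃ₐ[L] Ω, (∀ z ∈ A, g z = z) →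
      (Units.map (ψ : FunField ℓ (f.map (algebraMap L Ω)) →* LaurentSeries Ω) (b g 1) :
        LaurentSeries Ω) = lm ((g : Ω ≃+* Ω) : Ω →+* Ω)
        (Units.map (ψ : FunField ℓ (f.map (algebraMap L Ω)) →* LaurentSeries Ω) (b 1 1) :
          (LaurentSeries Ω)ˣ) := by
    intro g hg
    have h1 := hb.cocycle g 1 1
    rw [mul_one, mul_one] at h1
    have h2 : b g 1 = symU (gs f g) (b 1 1) := mul_right_cancel h1
    show ψ (b g 1 : (FunField ℓ (f.map (algebraMap L Ω)))ˣ) = _
    rw [h2, hψsym g hg]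
    rfl
  have e2 : ∀ g : Ω ≃ₐ[L] Ω, (∀ z ∈ A, g z = z) →
      Units.map (ψ : FunField ℓ (f.map (algebraMap L Ω)) →* LaurentSeries Ω) (b 1 g) =
        Units.map (ψ : FunField ℓ (f.map (algebraMap L Ω)) →* LaurentSeries Ω) (b 1 1) := by
    intro g hg
    have h1 := hb.cocycle 1 1 g
    have h3 : symU (gs f (1 : Ω ≃ₐ[L] Ω)) (b 1 g) = b 1 g := by
      apply Units.ext
      apply ψ.injective
      rw [hψsym 1 (fun z _ => rfl)]
      rfl
    rw [one_mul, one_mul, h3] at h1
    rw [mul_right_cancel h1]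
  obtain ⟨r, hr⟩ := local_integrality (A := A) p
    (fun g h => Units.map (ψ : FunField ℓ (f.map (algebraMap L Ω)) →* LaurentSeries Ω) (b g h))
    e1 e2 (fun g h => ⟨kk (b g h), hkK _, hkk _⟩) a ha (by
      intro g h g' h' hg hh
      have h1 := hab g h g' h' (fun z => by rw [hψc, hψc]; exact hg z)
        (fun z => by rw [hψc, hψc]; exact hh z)
      have h2 := congrArg (fun z : TT A => (z : Tb Ω)) h1
      show ι (ψ (b g' h' : (FunField ℓ (f.map (algebraMap L Ω)))ˣ)) * _ = _
      rw [← hψ']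
      exact h2)
  refine ⟨p ^ r, Nat.Coprime.pow_left r hpℓ, fun C hC hCr g hg => ?_⟩
  obtain ⟨z, hz⟩ := hr C hC (fun g h hg hh => by
    have h1 := hCr g h ((hAfix g).mpr hg) ((hAfix h).mpr hh)
    rw [← hψord] at h1
    exact h1) g ((hAfix g).mp hg)
  exact ⟨z, by rw [← hz]; push_cast; rfl⟩

lemma hor_div_pow (u : (FunField ℓ (f.map (algebraMap L Ω)))ˣ) (m : ℕ) :
    div (u ^ m) = m • div u := by
  induction m with
  | zero => rw [pow_zero, Wt.div_one, zero_smul]
  | succ m ih => rw [pow_succ, Wt.div_mul, ih, succ_nsmul]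

end

/-- A cocycle which is split over the completions at the closed points of the curve over `L` has, up to a
power prime to `ℓ`, a divisor which is a coboundary. -/
theorem horizontal {F L Ω : Type} [Field F] [Field L] [Algebra F[X] L] [IsFractionRing F[X] L] [Field Ω]
    [Algebra L Ω] [IsAlgClosure L Ω] {ℓ : ℕ} (hℓ : ℓ.Prime) {f : L[X]}
    [hG : IsGood ℓ (f.map (algebraMap L Ω))]
    (b : (Ω ≃ₐ[L] Ω) → (Ω ≃ₐ[L] Ω) → (FunField ℓ (f.map (algebraMap L Ω)))ˣ) (hb : ICoc b)
    (hu : IUnr F b) :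
    ∃ (m : ℕ) (C : (Ω ≃ₐ[L] Ω) → (Pt ℓ (f.map (algebraMap L Ω)) →₀ ℤ)), m.Coprime ℓ ∧
      IDiv (fun g h => b g h ^ m) C := by
  have halg : Algebra.IsAlgebraic L Ω := IsAlgClosure.isAlgebraic
  let act : MulAction (Ω ≃ₐ[L] Ω) (Pt ℓ (f.map (algebraMap L Ω))) :=
    { smul := fun g P => P.sym (gs f g)
      one_smul := fun P => Pt.ext rfl rfl
      mul_smul := fun g h P => Pt.ext rfl rfl }
  have hsmul : ∀ (g : Ω ≃ₐ[L] Ω) (P : Pt ℓ (f.map (algebraMap L Ω))), g • P = P.sym (gs f g) :=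
    fun _ _ => rfl
  obtain ⟨T0, hT0⟩ := hb.continuous
  have hfin : (Set.range fun p : (Ω ≃ₐ[L] Ω) × (Ω ≃ₐ[L] Ω) => b p.1 p.2).Finite :=
    finite_range₂ hb.continuous
  obtain ⟨T2, hT2, hst⟩ := exists_stable (K := L)
    (hfin.toFinset.biUnion fun u => (div u).support.image Pt.x ∪ (div u).support.image Pt.y)
  have hinj : Function.Injective fun P : Pt ℓ (f.map (algebraMap L Ω)) => (P.x, P.y) :=
    fun P Q h => Pt.ext (congrArg Prod.fst h) (congrArg Prod.snd h)
  obtain ⟨Z, hZ⟩ : ∃ Z : Finset (Pt ℓ (f.map (algebraMap L Ω))),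
      ∀ P, P ∈ Z ↔ P.x ∈ T2 ∧ P.y ∈ T2 :=
    ⟨(T2 ×ˢ T2).preimage (fun P => (P.x, P.y)) hinj.injOn, fun P => by
      rw [Finset.mem_preimage, Finset.mem_product]⟩
  have hBZ : ∀ g h, (div (b g h)).support ⊆ Z := by
    intro g h P hP
    have h1 : b g h ∈ hfin.toFinset := by
      rw [Set.Finite.mem_toFinset]
      exact ⟨(g, h), rfl⟩
    rw [hZ]
    constructor
    · exact hT2 (Finset.mem_biUnion.mpr ⟨_, h1, Finset.mem_union_left _
        (Finset.mem_image_of_mem _ hP)⟩)
    · exact hT2 (Finset.mem_biUnion.mpr ⟨_, h1, Finset.mem_union_right _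
        (Finset.mem_image_of_mem _ hP)⟩)
  have hsZ : ∀ (g : Ω ≃ₐ[L] Ω), ∀ P ∈ Z, g • P ∈ Z := by
    intro g P hP
    rw [hZ] at hP ⊢
    exact ⟨hst g _ hP.1, hst g _ hP.2⟩
  have hB : ∀ g h j : Ω ≃ₐ[L] Ω, div (b g h) + div (b (g * h) j) =
      (div (b h j)).mapDomain (g • ·) + div (b g (h * j)) := by
    intro g h j
    have h1 := congrArg Wt.div (hb.cocycle g h j)
    rw [Wt.div_mul, Wt.div_mul, div_symU] at h1
    exact h1
  obtain ⟨C, hCZ, hC, hCfin, hCc⟩ := exists_rational (fun g h => div (b g h)) Z hBZ hB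
    (fixSub L T0) (fun g r k hk => by
      have h1 : b g (r * k) = b g r := hT0 g g _ _ (fun x _ => rfl) (fun x hx => by
        change r (k x) = r x
        rw [mem_fixSub.mp hk x hx])
      show div (b g (r * k)) = div (b g r)
      rw [h1])
    ((hfin.image Wt.div).subset (by
      rintro _ ⟨p, rfl⟩
      exact ⟨b p.1 p.2, ⟨p, rfl⟩, rfl⟩))
  obtain ⟨m, C', hm, hC', hcts⟩ := exists_integral ℓ (fun g h => div (b g h)) Z hsZ C hCZ hC (by
    intro P hP
    obtain ⟨q, hq, hq'⟩ := local_step hℓ b hb hu P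
    refine ⟨q, hq, fun g hg => ?_⟩
    refine hq' (fun g => C g P) ?_ ?_ g hg
    · exact (hCfin.image fun c => c P).subset (by
        rintro _ ⟨g, rfl⟩
        exact ⟨C g, ⟨g, rfl⟩, rfl⟩)
    · intro g h hg hh
      have h1 := DFunLike.congr_fun (hC g h) P
      rw [Finsupp.add_apply, Finsupp.add_apply, mapDomain_smul_apply, Finsupp.mapRange_apply] at h1
      have h2 : g⁻¹ • P = P := by
        rw [inv_smul_eq_iff]
        exact hg.symm
      rw [h2] at h1
      exact h1)
  refine ⟨m, C', hm, ⟨⟨T0 ∪ T2, fun g g' h => ?_⟩, fun g h => ?_⟩⟩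
  · refine hcts g g' (hCc g g' fun j => ?_) fun P hP => ?_
    · show div (b g j) = div (b g' j)
      rw [hT0 g g' j j (fun x hx => h x (Finset.mem_union_left _ hx)) (fun x _ => rfl)]
    · rw [hZ] at hP
      exact Pt.ext (h _ (Finset.mem_union_right _ hP.1)) (h _ (Finset.mem_union_right _ hP.2))
  · show div (b g h ^ m) + C' (g * h) = _
    rw [hor_div_pow]
    exact hC' g h

end Pool.Agent.Lib.MP_89bcae_ag.Bra

end
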