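import Mathlib
import Pool.Agent.Lib.MP_89bcae_ag.Bk.K037
import Pool.Agent.Lib.MP_89bcae_ag.Bk.K038
import Pool.Agent.Lib.MP_89bcae_ag.Bk.K039

namespace Pool.Agent.Lib.MP_89bcae_ag.Wt
end Pool.Agent.Lib.MP_89bcae_ag.Wt
namespace Pool.Agent.Lib.MP_89bcae_ag.Wt.Lns
end Pool.Agent.Lib.MP_89bcae_ag.Wt.Lns

/-!
# The transfer theorem
-/

open Polynomial IsDedekindDomain IsLocalRing

open scoped Classical

namespace Pool.Agent.Lib.MP_89bcae_ag.Bra

open Pool.Agent.Lib.MP_89bcae_ag.Wt Pool.Agent.Lib.MP_89bcae_ag.Wt.Lns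

section

variable {K S : Type} [Field K] [Field S] [Algebra K S]
  {L Ω : Type} [Field L] [Field Ω] [Algebra L Ω] {ℓ : ℕ} {f : L[X]}
  {F : Type} [Field F] [Algebra F K] [Algebra F[X] L]
  [IsAlgClosed F] [IsAlgClosure K S] [IsFractionRing F[X] L] [IsAlgClosure L Ω]
  [hG : IsGood ℓ (f.map (algebraMap L Ω))] {t x y : K}
  {Φ : FunField ℓ (f.map (algebraMap L Ω)) →+* S}

private lemma group_aux {G : Type*} [CommGroup G] (A B U V : G) :
    (A / U)⁻¹ * (B / V) * (A / B) = U * V⁻¹ := by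
  rw [inv_div, div_mul_div_comm, div_mul_div_comm, ← div_eq_mul_inv, div_eq_div_iff_mul_eq_mul]
  ac_rfl

/-- `b` is, up to the multiple `m`, the inflation of the unramified cocycle `b'` with divisor `d C`. -/
structure Rep (hΦ : IsModel F t x y Φ) (b : (S ≃ₐ[K] S) → (S ≃ₐ[K] S) → Sˣ) (m : ℕ)
    (b' : (Ω ≃ₐ[L] Ω) → (Ω ≃ₐ[L] Ω) → (FunField ℓ (f.map (algebraMap L Ω)))ˣ)
    (C : (Ω ≃ₐ[L] Ω) → (Pt ℓ (f.map (algebraMap L Ω)) →₀ ℤ)) : Prop where
  coprime : m.Coprime ℓ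
  cocycle : ICoc b'
  infl : IsCoboundary fun g h => b g h ^ m / infl hΦ b' g h
  unr : IUnr F b'
  div : IDiv b' C

theorem exists_rep (hℓ : ℓ.Prime) (hΦ : IsModel F t x y Φ) (b : (S ≃ₐ[K] S) → (S ≃ₐ[K] S) → Sˣ)
    (hb : IsCocycle b) (hu : IsUnramified F b) :
    ∃ (m : ℕ) (b' : (Ω ≃ₐ[L] Ω) → (Ω ≃ₐ[L] Ω) → (FunField ℓ (f.map (algebraMap L Ω)))ˣ)
      (C : (Ω ≃ₐ[L] Ω) → (Pt ℓ (f.map (algebraMap L Ω)) →₀ ℤ)), Rep hΦ b m b' C := by
  obtain ⟨m, b', hm, hb', hi⟩ := exists_infl hℓ hΦ b hb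
  have hu' : IUnr F b' := iunr_of_unramified hΦ b hu m b' hi
  obtain ⟨m', C, hm', hC⟩ := horizontal (F := F) hℓ b' hb' hu'
  refine ⟨m * m', fun g h => b' g h ^ m', C, Nat.Coprime.mul_left hm hm', hb'.pow m', ?_,
    hu'.pow m', hC⟩
  have h1 := hi.pow m'
  refine Eq.mp (congrArg IsCoboundary ?_) h1
  funext g h
  rw [div_pow, ← pow_mul]
  congr 1
  unfold infl
  rw [map_pow]

/-- Relations between representatives. -/
theorem Rep.relation (hℓ : ℓ.Prime) {hΦ : IsModel F t x y Φ}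
    {b₁ b₂ : (S ≃ₐ[K] S) → (S ≃ₐ[K] S) → Sˣ} {m₁ m₂ : ℕ}
    {b₁' b₂' : (Ω ≃ₐ[L] Ω) → (Ω ≃ₐ[L] Ω) → (FunField ℓ (f.map (algebraMap L Ω)))ˣ}
    {C₁ C₂ : (Ω ≃ₐ[L] Ω) → (Pt ℓ (f.map (algebraMap L Ω)) →₀ ℤ)} (h₁ : Rep hΦ b₁ m₁ b₁' C₁)
    (h₂ : Rep hΦ b₂ m₂ b₂' C₂) (n : ℕ) (h : IsCoboundary fun g h => b₁ g h ^ n / b₂ g h) :
    ∃ u : ℕ, u.Coprime ℓ ∧ ∃ Q : Jac ℓ (f.map (algebraMap L Ω)), ∀ g,
      u • ((n * m₂) • cl (C₁ g) - m₁ • cl (C₂ g)) = symJ (gs f g) Q - Q := by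
  have hk : IsCoboundary (Bra.infl hΦ fun g h => b₁' g h ^ (n * m₂) * (b₂' g h ^ m₁)⁻¹) := by
    have e1 := (h₁.infl.pow (n * m₂)).inv
    have e2 := h₂.infl.pow m₁
    have e3 := h.pow (m₁ * m₂)
    refine Eq.mp (congrArg IsCoboundary ?_) ((e1.mul e2).mul e3)
    funext g h
    unfold Bra.infl
    rw [map_mul, map_inv, map_pow, map_pow]
    simp only [div_pow, ← pow_mul]
    rw [show m₁ * (n * m₂) = n * (m₁ * m₂) by ring, show m₂ * m₁ = m₁ * m₂ by ring]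
    exact group_aux _ _ _ _
  have hc : ICoc fun g h => b₁' g h ^ (n * m₂) * (b₂' g h ^ m₁)⁻¹ :=
    (h₁.cocycle.pow _).mul (h₂.cocycle.pow _).inv
  obtain ⟨u, hu, hcob⟩ := icob_of_infl hℓ hΦ _ hc hk
  have hd : IDiv (fun g h => (b₁' g h ^ (n * m₂) * (b₂' g h ^ m₁)⁻¹) ^ u)
      (u • ((n * m₂) • C₁ + -(m₁ • C₂))) :=
    ((h₁.div.pow (n * m₂)).mul (h₂.div.pow m₁).inv).pow u
  obtain ⟨Q, hQ⟩ := cl_of_icob hd hcob
  refine ⟨u, hu, Q, fun g => ?_⟩
  rw [← hQ g]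
  rw [Pi.smul_apply, Pi.add_apply, Pi.neg_apply, Pi.smul_apply, Pi.smul_apply, map_nsmul, map_add,
    map_neg, map_nsmul, map_nsmul]
  exact congrArg _ (sub_eq_add_neg _ _)

omit [IsAlgClosure L Ω] in
lemma push_gs (σ : Ω ≃ₐ[L] Ω) (Q : Jac ℓ (f.map (algebraMap L Ω))) :
    push ℓ f (σ : Ω →ₐ[L] Ω) Q = symJ (gs f σ) Q := rfl

/-- Continuity for the Krull topology. -/
lemma isLocallyConstant_of_isCts {L Ω : Type} [Field L] [Field Ω] [Algebra L Ω]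
    [Algebra.IsAlgebraic L Ω] {X : Type} {a : (Ω ≃ₐ[L] Ω) → X} (ha : IsCts a) :
    IsLocallyConstant a := by
  obtain ⟨T, hT⟩ := ha
  have hfin : FiniteDimensional L (IntermediateField.adjoin L (T : Set Ω)) :=
    IntermediateField.finiteDimensional_adjoin fun x _ => Algebra.IsIntegral.isIntegral x
  rw [IsLocallyConstant.iff_exists_open]
  intro g
  refine ⟨(fun h => g⁻¹ * h) ⁻¹' ((IntermediateField.adjoin L (T : Set Ω)).fixingSubgroup :
    Set (Ω ≃ₐ[L] Ω)), (IntermediateField.fixingSubgroup_isOpen _).preimage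
      (continuous_const.mul continuous_id), ?_, ?_⟩
  · show g⁻¹ * g ∈ (IntermediateField.adjoin L (T : Set Ω)).fixingSubgroup
    rw [inv_mul_cancel]
    exact one_mem _
  intro h hh
  refine hT _ _ fun x hx => ?_
  have h1 : (g⁻¹ * h) x = x := (IntermediateField.mem_fixingSubgroup_iff _ _).mp hh x
    (IntermediateField.subset_adjoin L _ hx)
  rw [show h = g * (g⁻¹ * h) by rw [mul_inv_cancel_left], AlgEquiv.mul_apply, h1]

private lemma module_aux {A : Type*} [AddCommGroup A] {m w : ℕ} {X Y P V U R Q Q' : A}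
    (h : m • (w • X - w • Y) = w • (Q' - Q)) :
    m • (w • X + (P - V) - (w • Y + (U - R))) = w • Q' + m • (P - U) - (w • Q + m • (V - R)) := by
  have h1 : m • (w • X + (P - V) - (w • Y + (U - R))) =
      m • (w • X - w • Y) + m • (P - V - (U - R)) := by
    rw [← smul_add]
    congr 1
    abel
  rw [h1, h]
  simp only [smul_sub]
  abel

/-- The coboundaries of degree one. -/
def cob1 (f : L[X]) [IsGood ℓ (f.map (algebraMap L Ω))] :
    AddSubgroup ((Ω ≃ₐ[L] Ω) → Jac ℓ (f.map (algebraMap L Ω))) where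
  carrier := {c | ∃ Q, ∀ g, c g = symJ (gs f g) Q - Q}
  add_mem' := by
    rintro a b ⟨Q, hQ⟩ ⟨Q', hQ'⟩
    refine ⟨Q + Q', fun g => ?_⟩
    rw [Pi.add_apply, hQ g, hQ' g, map_add]
    abel
  zero_mem' := ⟨0, fun g => by rw [map_zero, sub_zero]; rfl⟩
  neg_mem' := by
    rintro a ⟨Q, hQ⟩
    refine ⟨-Q, fun g => ?_⟩
    rw [Pi.neg_apply, hQ g, map_neg]
    abel

/-- The transfer theorem. -/
theorem transfer {k : Type} [Field k] [Algebra k F] [IsAlgClosure k F] (hℓ : ℓ.Prime)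
    (hΦ : IsModel F t x y Φ) (hBr : BrTriv ℓ L Ω)
    (hV : ∀ (b : (Ω ≃ₐ[L] Ω) → (Ω ≃ₐ[L] Ω) → (FunField ℓ (f.map (algebraMap L Ω)))ˣ)
      (C : (Ω ≃ₐ[L] Ω) → (Pt ℓ (f.map (algebraMap L Ω)) →₀ ℤ)), ICoc b → IUnr F b → IDiv b C →
      (∃ n : ℕ, ∀ g, ℓ ^ n • (cl (C g) : Jac ℓ (f.map (algebraMap L Ω))) = 0) →
      ∀ v : HeightOneSpectrum F[X],
        Wt.IsLocallyTrivial ℓ f (fun g => cl (C g)) (v.adicCompletion L))
    (hNT : ∀ k' : IntermediateField k F, FiniteDimensional k k' →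
      NTm45 (F := F) ℓ ℓ L Ω f (AutK k F L Ω k'))
    (k' : IntermediateField k F) (hk' : FiniteDimensional k k') :
    BrauerInvariantsTrivial ℓ S k' t x y := by
  intro b hb hu hfix
  have hrep := fun n => exists_rep hℓ hΦ (b n) (hb.cocycle n) (hu n)
  choose m b' C hR using hrep
  have h0 : ∃ u : ℕ, u.Coprime ℓ ∧ (u • fun g => (cl (C 0 g) : Jac ℓ (f.map (algebraMap L Ω)))) ∈
      cob1 (ℓ := ℓ) (Ω := Ω) f := by
    have e1 : IsCoboundary (infl hΦ (b' 0)) := by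
      have e2 := ((hb.zero.pow (m 0)).mul (hR 0).infl.inv)
      refine Eq.mp (congrArg IsCoboundary ?_) e2
      funext g h
      rw [inv_div, mul_div_cancel]
    obtain ⟨u, hu, hcob⟩ := icob_of_infl hℓ hΦ _ (hR 0).cocycle e1
    obtain ⟨Q, hQ⟩ := cl_of_icob ((hR 0).div.pow u) hcob
    exact ⟨u, hu, Q, fun g => by rw [← hQ g, Pi.smul_apply, Pi.smul_apply, map_nsmul]⟩
  have h1 : ∀ n, ∃ u : ℕ, u.Coprime ℓ ∧
      u • ((ℓ * m n) • (fun g => (cl (C (n + 1) g) : Jac ℓ (f.map (algebraMap L Ω)))) -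
        m (n + 1) • fun g => (cl (C n g) : Jac ℓ (f.map (algebraMap L Ω)))) ∈
      cob1 (ℓ := ℓ) (Ω := Ω) f := by
    intro n
    obtain ⟨u, hu, Q, hQ⟩ := (hR (n + 1)).relation hℓ (hR n) ℓ (hb.pow n)
    exact ⟨u, hu, Q, fun g => hQ g⟩
  obtain ⟨w, hw0, hw1, hw2⟩ := exists_weights hℓ (cob1 (ℓ := ℓ) (Ω := Ω) f)
    (fun n g => cl (C n g)) m (fun n => (hR n).coprime) h0 h1
  obtain ⟨R, hR0, hR1⟩ := exists_exact hℓ (f := f)
    (fun n g => w n • (cl (C n g) : Jac ℓ (f.map (algebraMap L Ω)))) hw0 hw1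
  choose D hD using fun n => cl_surjective (N := ℓ) (f := f.map (algebraMap L Ω)) (R n)
  have hdiv : ∀ n, IDiv (fun g h => b' n g h ^ w n)
      (fun g => (w n • C n) g + ((D n).mapDomain (Pt.sym (gs f g)) - D n)) := fun n =>
    ((hR n).div.pow (w n)).add_coboundary (D n)
  set c : ℕ → (Ω ≃ₐ[L] Ω) → Jac ℓ (f.map (algebraMap L Ω)) := fun n g =>
    cl ((w n • C n) g + ((D n).mapDomain (Pt.sym (gs f g)) - D n)) with hc
  have hc' : ∀ n g, c n g = w n • cl (C n g) + (symJ (gs f g) (R n) - R n) := by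
    intro n g
    show cl ((w n • C n) g + ((D n).mapDomain (Pt.sym (gs f g)) - D n)) = _
    rw [← hD n, symJ_cl, map_add, map_sub, Pi.smul_apply, map_nsmul]
  have hT : Wt.IsTateCocycle ℓ f c := by
    refine ⟨fun σ => ?_, fun n σ => ?_, fun n σ τ => ?_, fun n => ?_⟩
    · rw [hc']
      exact hR0 σ
    · rw [hc', hc']
      exact hR1 n σ
    · rw [push_gs]
      exact (hdiv n).cl_cocycle σ τ
    · apply isLocallyConstant_of_isCts
      obtain ⟨T, hT⟩ := (hdiv n).continuous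
      exact ⟨T, fun g g' h => congrArg cl (hT g g' h)⟩
  have htor : ∀ n g, ℓ ^ n • c n g = 0 := by
    intro n g
    induction n with
    | zero => rw [hT.zero, smul_zero]
    | succ n ih => rw [pow_succ, mul_smul, hT.smul, ih]
  have hLT : ∀ (v : HeightOneSpectrum F[X]) (n : ℕ),
      Wt.IsLocallyTrivial ℓ f (c n) (v.adicCompletion L) := fun v n =>
    hV _ _ ((hR n).cocycle.pow (w n)) ((hR n).unr.pow (w n)) (hdiv n) ⟨n, htor n⟩ v
  have hMW := mordell_weil (k := k) (F := F) hℓ hNT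
  have hF : ∀ (γ : Ω ≃+* Ω) hγ, γ ∈ AutK k F L Ω k' → Wt.IsFixedBy ℓ f c γ hγ := by
    intro γ hγ hγk
    obtain ⟨s, hsk, hs⟩ := exists_of_mem_autK k' hγk
    obtain ⟨γ', hγ', hγF⟩ := exists_lift hΦ γ hγ s hs
    refine isFixedBy_of (F := F) hℓ hT hMW γ hγ s hs fun n => ?_
    have e1 : IsFixedBy (b n) γ' := by
      refine hfix γ' (fun z hz => ?_) ?_ ?_ ?_ n
      · rw [hγF, hsk z hz]
      · have e2 := hΦ.const X
        rw [aeval_X] at e2
        rw [← e2, hγ']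
        congr 1
        unfold cO
        rw [RingHom.comp_apply, funMap_polyF, map_C]
        congr 2
        have e3 := hs X
        rw [map_X] at e3
        exact e3
      · rw [← hΦ.fx, hγ', funMap_polyF, map_X]
      · rw [← hΦ.fy, hγ', funMap_yF]
    obtain ⟨m', hm', a, ha, hab⟩ := icob_of_fixed hℓ hΦ (b n) (hb.cocycle n) (m n) (b' n)
      (hR n).cocycle (hR n).infl γ hγ s hs γ' hγ' e1
    obtain ⟨Q, hQ⟩ := cl_of_fixed (F := F) (hR n).div γ hγ s hs m' a ha hab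
    refine ⟨m', hm', w n • Q + m' • (symJ ⟨γ, hγ⟩ (R n) - R n), fun g g' hg => ?_⟩
    have e2 := hQ g g' hg
    have e3 : symJ ⟨γ, hγ⟩ (symJ (gs f g) (R n)) = symJ (gs f g') (symJ ⟨γ, hγ⟩ (R n)) := by
      rw [← symJ_mul, ← symJ_mul]
      congr 1
      congr 1
      apply Subtype.ext
      apply RingEquiv.ext
      exact hg
    rw [hc', hc', map_add, map_sub, map_nsmul, e3, map_add, map_nsmul, map_nsmul, map_sub]
    have e4 : m' • (w n • symJ ⟨γ, hγ⟩ (cl (C n g)) - w n • cl (C n g')) =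
        w n • (symJ (gs f g') Q - Q) := by
      rw [← e2, smul_comm, smul_sub, smul_sub, smul_sub]
    exact module_aux e4
  have hNTk := hNT k' hk' c hT hLT hF
  -- the cocycles are trivial
  intro n
  have e1 : ∃ A : Jac ℓ (f.map (algebraMap L Ω)), ∀ g, c n g = symJ (gs f g) A - A := by
    obtain ⟨A, -, hA⟩ := hNTk (n + 1)
    exact ⟨A, fun g => by rw [← hT.smul n g]; exact hA g⟩
  obtain ⟨A, hA⟩ := e1
  obtain ⟨u, hu', hcob⟩ := icob_of_cl hBr ((hR n).cocycle.pow (w n)) (hdiv n) A hA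
  rcases Nat.eq_zero_or_pos n with rfl | hn
  · exact hb.zero
  have e2 : IsCoboundary fun g h => b n g h ^ (m n * w n * u) := by
    have e3 := (hcob.infl hΦ).mul ((hR n).infl.pow (w n * u))
    refine Eq.mp (congrArg IsCoboundary ?_) e3
    funext g h
    unfold infl
    simp only [map_pow, div_pow, ← pow_mul]
    rw [mul_div_cancel, mul_assoc]
  refine IsCoboundary.of_coprime ?_ e2 (hb.pow_coboundary n)
  have e4 : (w n * m n).Coprime ℓ := by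
    have e5 := ((hw2 n).of_dvd (dvd_pow_self ℓ hn.ne')).gcd_eq
    rw [Nat.gcd_one_left] at e5
    exact e5
  exact Nat.Coprime.pow_right n ((Nat.mul_comm (w n) (m n) ▸ e4).mul_left hu')

end

end Pool.Agent.Lib.MP_89bcae_ag.Bra
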