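import Mathlib
import Pool.Agent.Lib.MP_89bcae_ag.Bk.K030
import Pool.Agent.Lib.MP_89bcae_ag.Bk.K036

namespace Pool.Agent.Lib.MP_89bcae_ag.Sup
end Pool.Agent.Lib.MP_89bcae_ag.Sup
namespace Pool.Agent.Lib.MP_89bcae_ag.Sup.Lns
end Pool.Agent.Lib.MP_89bcae_ag.Sup.Lns
namespace Pool.Agent.Lib.MP_89bcae_ag.Wt
end Pool.Agent.Lib.MP_89bcae_ag.Wt
namespace Pool.Agent.Lib.MP_89bcae_ag.Wt.Lns
end Pool.Agent.Lib.MP_89bcae_ag.Wt.Lns

section

/-!
# Leading coefficients at the ramification points, compatibility with extensions of the field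
-/

open Polynomial IsDedekindDomain IsLocalRing

open scoped Classical

namespace Pool.Agent.Lib.MP_89bcae_ag.Bra

open Pool.Agent.Lib.MP_89bcae_ag.Wt Pool.Agent.Lib.MP_89bcae_ag.Wt.Lns

section

variable {ℓ : ℕ} {E E' : Type} [Field E] [Field E'] {f : E[X]} {f' : E'[X]} [hG : IsGood ℓ f]
  [hG' : IsGood ℓ f']

/-- the function `u` has the value `c` at `P` -/
private def Ve_res (P : Pt ℓ f) (u : FunField ℓ f) (c : E) : Prop :=
  P.hs.valuation (FunField ℓ f) (u - cst c) < 1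

private lemma Ve_val_ne_zero (P : Pt ℓ f) (h : (FunField ℓ f)ˣ) :
    P.hs.valuation (FunField ℓ f) (h : FunField ℓ f) ≠ 0 :=
  (Valuation.ne_zero_iff _).mpr h.ne_zero


private lemma Ve_ord_pos_iff (P : Pt ℓ f) (h : (FunField ℓ f)ˣ) :
    0 < ord P h ↔ P.hs.valuation (FunField ℓ f) (h : FunField ℓ f) < 1 := by
  have h1 := WithZero.log_lt_iff_lt_exp (a := (0 : ℤ)) (Ve_val_ne_zero P h)
  rw [WithZero.exp_zero] at h1
  rw [← h1]
  unfold ord
  omega

private lemma Ve_cstU_coe (c : Eˣ) : ((cstU c : (FunField ℓ f)ˣ) : FunField ℓ f) = cst (c : E) := rfl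

private lemma Ve_val_cst_le (P : Pt ℓ f) (c : E) : P.hs.valuation (FunField ℓ f) (cst c) ≤ 1 :=
  HeightOneSpectrum.valuation_le_one P.hs (ofPoly (C c))

private lemma Ve_val_cst_lt (P : Pt ℓ f) (c : E) (h : P.hs.valuation (FunField ℓ f) (cst c) < 1) :
    c = 0 := by
  by_contra hc
  have h1 := (Ve_ord_pos_iff P (cstU (Units.mk0 c hc))).mpr (by
    rw [Ve_cstU_coe, Units.val_mk0]; exact h)
  rw [ord_cstU] at h1
  exact lt_irrefl _ h1

private lemma Ve_res_le (P : Pt ℓ f) (u : FunField ℓ f) (c : E) (h : Ve_res P u c) :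
    P.hs.valuation (FunField ℓ f) u ≤ 1 := by
  have h1 : u = (u - cst c) + cst c := by ring
  rw [h1]
  exact (Valuation.map_add _ _ _).trans (max_le (le_of_lt h) (Ve_val_cst_le P c))

private lemma Ve_res_unique (P : Pt ℓ f) (u : FunField ℓ f) (c c' : E) (h : Ve_res P u c)
    (h' : Ve_res P u c') : c = c' := by
  have h1 : P.hs.valuation (FunField ℓ f) (cst (c - c')) < 1 := by
    have h2 : (cst (c - c') : FunField ℓ f) = -(u - cst c) + (u - cst c') := by
      rw [map_sub]; ring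
    rw [h2]
    refine lt_of_le_of_lt (Valuation.map_add _ _ _) (max_lt ?_ h')
    rw [Valuation.map_neg]
    exact h
  exact sub_eq_zero.mp (Ve_val_cst_lt P _ h1)

private lemma Ve_res_mul (P : Pt ℓ f) (u u' : FunField ℓ f) (c c' : E) (h : Ve_res P u c)
    (h' : Ve_res P u' c') : Ve_res P (u * u') (c * c') := by
  unfold Ve_res
  have h2 : u * u' - cst (c * c') = u * (u' - cst c') + cst c' * (u - cst c) := by
    rw [map_mul]; ring
  rw [h2]
  refine lt_of_le_of_lt (Valuation.map_add _ _ _) (max_lt ?_ ?_)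
  · rw [map_mul]
    exact (mul_le_of_le_one_left' (Ve_res_le P u c h)).trans_lt h'
  · rw [map_mul]
    exact (mul_le_of_le_one_left' (Ve_val_cst_le P c')).trans_lt h

private lemma Ve_res_cst (P : Pt ℓ f) (c : E) : Ve_res P (cst c) c := by
  unfold Ve_res
  rw [sub_self, map_zero]
  exact zero_lt_one


private lemma Ve_exists_res (P : Pt ℓ f) (u : (FunField ℓ f)ˣ) (hu : 0 ≤ ord P u) :
    ∃ c : E, Ve_res P u c := by
  obtain ⟨c, hc⟩ := exists_residue_pt P u hu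
  refine ⟨c, ?_⟩
  unfold Ve_res
  by_cases h0 : (u : FunField ℓ f) - cst c = 0
  · rw [h0, map_zero]
    exact zero_lt_one
  · have h1 := hc (Units.mk0 _ h0) rfl
    rw [Ve_ord_pos_iff, Units.val_mk0] at h1
    exact h1

private lemma Ve_res_ne_zero (P : Pt ℓ f) (u : (FunField ℓ f)ˣ) (hu : ord P u = 0) (c : E)
    (hc : Ve_res P u c) : c ≠ 0 := by
  rintro rfl
  unfold Ve_res at hc
  rw [map_zero, sub_zero, ← Ve_ord_pos_iff, hu] at hc
  exact lt_irrefl _ hc

private lemma Ve_ord_norm (P : Pt ℓ f) (hP : P.y = 0) (h : (FunField ℓ f)ˣ) :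
    ord P (h * unif P.x ^ (-ord P h)) = 0 := by
  rw [ord_mul, ord_zpow, ord_unif P hP]
  ring

private lemma Ve_exists (P : Pt ℓ f) (hP : P.y = 0) (h : (FunField ℓ f)ˣ) :
    ∃ c : Eˣ, Ve_res P ((h * unif P.x ^ (-ord P h) : (FunField ℓ f)ˣ) : FunField ℓ f) c := by
  obtain ⟨c, hc⟩ := Ve_exists_res P (h * unif P.x ^ (-ord P h)) (Ve_ord_norm P hP h).ge
  exact ⟨Units.mk0 c (Ve_res_ne_zero P _ (Ve_ord_norm P hP h) c hc), hc⟩

/-- the leading coefficient at a ramified point -/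
private noncomputable def Ve_lc (P : Pt ℓ f) (hP : P.y = 0) (h : (FunField ℓ f)ˣ) : Eˣ :=
  (Ve_exists P hP h).choose

private lemma Ve_lc_spec (P : Pt ℓ f) (hP : P.y = 0) (h : (FunField ℓ f)ˣ) :
    Ve_res P ((h * unif P.x ^ (-ord P h) : (FunField ℓ f)ˣ) : FunField ℓ f) (Ve_lc P hP h) :=
  (Ve_exists P hP h).choose_spec

private lemma Ve_lc_eq (P : Pt ℓ f) (hP : P.y = 0) (h : (FunField ℓ f)ˣ) (c : E)
    (hc : Ve_res P ((h * unif P.x ^ (-ord P h) : (FunField ℓ f)ˣ) : FunField ℓ f) c) :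
    (Ve_lc P hP h : E) = c :=
  Ve_res_unique P _ _ _ (Ve_lc_spec P hP h) hc

private lemma Ve_lc_mul (P : Pt ℓ f) (hP : P.y = 0) (h h' : (FunField ℓ f)ˣ) :
    Ve_lc P hP (h * h') = Ve_lc P hP h * Ve_lc P hP h' := by
  apply Units.ext
  rw [Units.val_mul]
  apply Ve_lc_eq
  have h1 := Ve_res_mul P _ _ _ _ (Ve_lc_spec P hP h) (Ve_lc_spec P hP h')
  have h2 : (h * h' * unif P.x ^ (-ord P (h * h')) : (FunField ℓ f)ˣ) =
      (h * unif P.x ^ (-ord P h)) * (h' * unif P.x ^ (-ord P h')) := by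
    rw [ord_mul, neg_add, zpow_add]
    exact mul_mul_mul_comm _ _ _ _
  rw [h2, Units.val_mul]
  exact h1

private noncomputable def Ve_hom (P : Pt ℓ f) (hP : P.y = 0) : (FunField ℓ f)ˣ →* Eˣ :=
  MonoidHom.mk' (Ve_lc P hP) (Ve_lc_mul P hP)


/-- The value of `u * unif ^ (- ord u)` at the ramification point `P`: the constant `c` such that the valuation at `P` of
`u * unif P.x ^ (-ord P u) - c` is `< 1`. PROOF of the existence, of the uniqueness and of `lr_mul` etc.: `R14_res`, ..,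
`R14_hom`, `R14_lc_cst` in `Wt/W14.lean` (private: copy them, `R14_lc` is the function wanted). -/
theorem exists_lr (P : Pt ℓ f) (hP : P.y = 0) : ∃ lr : (FunField ℓ f)ˣ →* Eˣ,
    ∀ u, P.hs.valuation (FunField ℓ f) (((u * unif P.x ^ (-ord P u) : (FunField ℓ f)ˣ) :
      FunField ℓ f) - cst (lr u : E)) < 1 :=
  ⟨Ve_hom P hP, fun u => Ve_lc_spec P hP u⟩

/-- The leading coefficient at a ramification point. -/
noncomputable def lr (P : Pt ℓ f) (hP : P.y = 0) : (FunField ℓ f)ˣ →* Eˣ := (exists_lr P hP).choose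

theorem lr_spec (P : Pt ℓ f) (hP : P.y = 0) (u : (FunField ℓ f)ˣ) :
    P.hs.valuation (FunField ℓ f) (((u * unif P.x ^ (-ord P u) : (FunField ℓ f)ˣ) :
      FunField ℓ f) - cst (lr P hP u : E)) < 1 :=
  (exists_lr P hP).choose_spec u

lemma lr_cstU (P : Pt ℓ f) (hP : P.y = 0) (c : Eˣ) : lr P hP (cstU c) = c := by
  apply Units.ext
  refine Ve_res_unique P _ _ _ (lr_spec P hP (cstU c)) ?_
  rw [ord_cstU, neg_zero, zpow_zero, mul_one]
  exact Ve_res_cst P _

section e2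

variable (σ : E →+* E') (h : f.map σ = f') (P : Pt ℓ f)

omit hG' in
lemma e2_eq (w : FunField ℓ f) (hw : P.hs.valuation (FunField ℓ f) w ≤ 1) :
    ∃ n d : NRing ℓ f, d ∉ P.hs.asIdeal ∧
      w * algebraMap (NRing ℓ f) (FunField ℓ f) d = algebraMap (NRing ℓ f) (FunField ℓ f) n := by
  obtain ⟨n, d, hnd⟩ := P.hs.exists_primeCompl_mul_eq_of_integer (K := FunField ℓ f) w hw
  exact ⟨n, d.1, d.2, hnd⟩

lemma e2_notMem (d : NRing ℓ f) (hd : d ∉ P.hs.asIdeal) :
    (P.map σ h).hs.valuation (FunField ℓ f')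
      (algebraMap (NRing ℓ f') (FunField ℓ f') (coordMap ℓ σ h d)) = 1 := by
  rw [HeightOneSpectrum.valuation_eq_one_iff_notMem]
  intro hm
  apply hd
  have h1 : evalPt (P.map σ h) (coordMap ℓ σ h d) = 0 := hm
  rw [evalPt_coordMap] at h1
  exact (map_eq_zero σ).mp h1

lemma e2_val_eq (w : FunField ℓ f) (n d : NRing ℓ f) (hd : d ∉ P.hs.asIdeal)
    (hnd : w * algebraMap (NRing ℓ f) (FunField ℓ f) d = algebraMap (NRing ℓ f) (FunField ℓ f) n) :
    (P.map σ h).hs.valuation (FunField ℓ f') (funMap ℓ σ h w) =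
      (P.map σ h).hs.valuation (FunField ℓ f')
        (algebraMap (NRing ℓ f') (FunField ℓ f') (coordMap ℓ σ h n)) := by
  have h1 : funMap ℓ σ h w * algebraMap (NRing ℓ f') (FunField ℓ f') (coordMap ℓ σ h d) =
      algebraMap (NRing ℓ f') (FunField ℓ f') (coordMap ℓ σ h n) := by
    have h2 := congrArg (funMap ℓ σ h) hnd
    rw [map_mul] at h2
    exact h2
  rw [← h1, map_mul, e2_notMem σ h P d hd, mul_one]

lemma e2_val_le (w : FunField ℓ f) (hw : P.hs.valuation (FunField ℓ f) w ≤ 1) :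
    (P.map σ h).hs.valuation (FunField ℓ f') (funMap ℓ σ h w) ≤ 1 := by
  obtain ⟨n, d, hd, hnd⟩ := e2_eq P w hw
  rw [e2_val_eq σ h P w n d hd hnd]
  exact HeightOneSpectrum.valuation_le_one _ _

lemma e2_val_lt (w : FunField ℓ f) (hw : P.hs.valuation (FunField ℓ f) w < 1) :
    (P.map σ h).hs.valuation (FunField ℓ f') (funMap ℓ σ h w) < 1 := by
  obtain ⟨n, d, hd, hnd⟩ := e2_eq P w hw.le
  rw [e2_val_eq σ h P w n d hd hnd, HeightOneSpectrum.valuation_lt_one_iff_mem]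
  have h1 : P.hs.valuation (FunField ℓ f) (algebraMap (NRing ℓ f) (FunField ℓ f) n) < 1 := by
    rw [← hnd, map_mul, (HeightOneSpectrum.valuation_eq_one_iff_notMem (K := FunField ℓ f) P.hs).mpr hd,
      mul_one]
    exact hw
  rw [HeightOneSpectrum.valuation_lt_one_iff_mem] at h1
  have h2 : evalPt P n = 0 := h1
  change evalPt (P.map σ h) (coordMap ℓ σ h n) = 0
  rw [evalPt_coordMap, h2, map_zero]

omit hG' in
lemma e2_val_ne_zero (u : (FunField ℓ f)ˣ) :
    P.hs.valuation (FunField ℓ f) (u : FunField ℓ f) ≠ 0 :=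
  (Valuation.ne_zero_iff _).mpr u.ne_zero

lemma e2_nonneg_iff (u : (FunField ℓ f)ˣ) :
    0 ≤ ord P u ↔ P.hs.valuation (FunField ℓ f) (u : FunField ℓ f) ≤ 1 := by
  have h1 := WithZero.log_le_iff_le_exp (a := (0 : ℤ)) (e2_val_ne_zero P u)
  rw [WithZero.exp_zero] at h1
  rw [← h1]
  unfold ord
  omega

lemma e2_nonneg (u : (FunField ℓ f)ˣ) (hu : 0 ≤ ord P u) :
    0 ≤ ord (P.map σ h) (Units.map (funMap ℓ σ h : FunField ℓ f →* FunField ℓ f') u) := by
  rw [e2_nonneg_iff] at hu ⊢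
  exact e2_val_le σ h P _ hu

lemma e2_zero (u : (FunField ℓ f)ˣ) (hu : ord P u = 0) :
    ord (P.map σ h) (Units.map (funMap ℓ σ h : FunField ℓ f →* FunField ℓ f') u) = 0 := by
  have h1 := e2_nonneg σ h P u hu.ge
  have h2 := e2_nonneg σ h P u⁻¹ (by rw [ord_inv, hu]; rfl)
  rw [map_inv, ord_inv] at h2
  omega

lemma e2_unif (θ : E) : Units.map (funMap ℓ σ h : FunField ℓ f →* FunField ℓ f') (unif θ) = unif (σ θ) :=
  Units.ext (funMap_unif σ h θ)

lemma e2_norm (hP : P.y = 0) (u : (FunField ℓ f)ˣ) : ord P (u * unif P.x ^ (-ord P u)) = 0 := by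
  rw [ord_mul, ord_zpow, ord_unif P hP]
  ring

end e2

/-- Extension of the field: the order. PROOF: `map_ideal` in `Wt/W09.lean`, `funMap_unif`; if `ord P u = 0`, `u = a / b`
with `a`, `b` in the ring and not vanishing at `P` (a discrete valuation ring is a localization), and
`evalPt (P.map σ h) (coordMap a) = σ (evalPt P a)`; in general multiply by a power of `unif`. -/
lemma ord_map (P : Pt ℓ f) (hP : P.y = 0) (σ : E →+* E') (h : f.map σ = f') (u : (FunField ℓ f)ˣ) :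
    ord (P.map σ h) (Units.map (funMap ℓ σ h : FunField ℓ f →* FunField ℓ f') u) = ord P u := by
  have hy : (P.map σ h).y = 0 := by
    change σ P.y = 0
    rw [hP, map_zero]
  have h1 := e2_zero σ h P _ (e2_norm P hP u)
  rw [map_mul, map_zpow, e2_unif σ h, ord_mul, ord_zpow] at h1
  have h2 : ord (P.map σ h) (unif (σ P.x)) = 1 := ord_unif (P.map σ h) hy
  rw [h2] at h1
  omega

lemma e2_unique (P : Pt ℓ f) (u : FunField ℓ f) (c c' : E)
    (hc : P.hs.valuation (FunField ℓ f) (u - cst c) < 1)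
    (hc' : P.hs.valuation (FunField ℓ f) (u - cst c') < 1) : c = c' := by
  have h1 : P.hs.valuation (FunField ℓ f) (cst (c - c')) < 1 := by
    have h2 : (cst (c - c') : FunField ℓ f) = -(u - cst c) + (u - cst c') := by
      rw [map_sub]; ring
    rw [h2]
    refine lt_of_le_of_lt (Valuation.map_add _ _ _) (max_lt ?_ hc')
    rw [Valuation.map_neg]
    exact hc
  have h3 : evalPt P (ofPoly (C (c - c'))) = 0 :=
    (HeightOneSpectrum.valuation_lt_one_iff_mem (K := FunField ℓ f) P.hs (ofPoly (C (c - c')))).mp h1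
  rw [evalPt_ofPoly, eval_C] at h3
  exact sub_eq_zero.mp h3

lemma e2_cst (σ : E →+* E') (h : f.map σ = f') (c : E) :
    funMap ℓ σ h (cst c : FunField ℓ f) = cst (σ c) := by
  have h1 := funMap_polyF (N := ℓ) σ h (C c)
  rw [Polynomial.map_C] at h1
  exact h1

lemma e2_coe_symU (σ : Sym f) (u : (FunField ℓ f)ˣ) :
    ((symU σ u : (FunField ℓ f)ˣ) : FunField ℓ f) =
      funMap ℓ ((σ : E ≃+* E) : E →+* E) σ.2 u := by
  have h0 : (autF (symE ℓ σ) : FunField ℓ f →+* FunField ℓ f) = 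
      funMap ℓ ((σ : E ≃+* E) : E →+* E) σ.2 := by
    refine IsLocalization.ringHom_ext (nonZeroDivisors (NRing ℓ f)) ?_
    refine RingHom.ext fun a => ?_
    exact autF_algebraMap (symE ℓ σ) a
  exact congrArg (fun φ : FunField ℓ f →+* FunField ℓ f => φ (u : FunField ℓ f)) h0

/-- Extension of the field: the leading coefficient (uniqueness of the constant in `lr_spec`). -/
theorem lr_map (P : Pt ℓ f) (hP : P.y = 0) (σ : E →+* E') (h : f.map σ = f')
    (hP' : (P.map σ h).y = 0) (u : (FunField ℓ f)ˣ) :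
    lr (P.map σ h) hP' (Units.map (funMap ℓ σ h : FunField ℓ f →* FunField ℓ f') u) =
      Units.map (σ : E →* E') (lr P hP u) := by
  apply Units.ext
  refine e2_unique (P.map σ h) _ _ _ (lr_spec (P.map σ h) hP' _) ?_
  rw [ord_map P hP σ h]
  have h1 := e2_val_lt σ h P _ (lr_spec P hP u)
  have h2 : funMap ℓ σ h (((u * unif P.x ^ (-ord P u) : (FunField ℓ f)ˣ) : FunField ℓ f)) =
      ((Units.map (funMap ℓ σ h : FunField ℓ f →* FunField ℓ f') u *
        unif (P.map σ h).x ^ (-ord P u) : (FunField ℓ f')ˣ) : FunField ℓ f') := by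
    have h3 : Units.map (funMap ℓ σ h : FunField ℓ f →* FunField ℓ f') (u * unif P.x ^ (-ord P u)) =
        Units.map (funMap ℓ σ h : FunField ℓ f →* FunField ℓ f') u *
          unif (P.map σ h).x ^ (-ord P u) := by
      rw [map_mul, map_zpow, e2_unif σ h]
      rfl
    exact congrArg Units.val h3
  rw [map_sub, h2, e2_cst σ h] at h1
  exact h1

/-- Automorphisms: a special case of `lr_map` (`symU σ` is given by `funMap σ`, see `coe_symU` in `Bra/Mod.lean`). -/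
theorem lr_symU (P : Pt ℓ f) (hP : P.y = 0) (σ : Sym f) (hσ : P.sym σ = P) (u : (FunField ℓ f)ˣ) :
    (lr P hP (symU σ u) : E) = (σ : E ≃+* E) (lr P hP u : E) := by
  have hc : ((symU σ u : (FunField ℓ f)ˣ) : FunField ℓ f) =
      funMap ℓ ((σ : E ≃+* E) : E →+* E) σ.2 u := e2_coe_symU σ u
  have hu : symU σ u =
      Units.map (funMap ℓ ((σ : E ≃+* E) : E →+* E) σ.2 : FunField ℓ f →* FunField ℓ f) u :=
    Units.ext hc
  have hP' : (P.map ((σ : E ≃+* E) : E →+* E) σ.2).y = 0 := by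
    change (σ : E ≃+* E) P.y = 0
    rw [hP, map_zero]
  have h1 := congrArg Units.val (lr_map P hP ((σ : E ≃+* E) : E →+* E) σ.2 hP' u)
  rw [← hu] at h1
  have key : ∀ (Q : Pt ℓ f) (hQ : Q.y = 0), Q = P →
      (lr Q hQ (symU σ u) : E) = lr P hP (symU σ u) := by
    intro Q hQ hQP
    subst hQP
    rfl
  rw [← key _ hP' hσ]
  exact h1

end

end Pool.Agent.Lib.MP_89bcae_ag.Bra

end

section

/-!
# Cocycles over the local field
-/

open Polynomial IsDedekindDomain IsLocalRing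

open scoped Classical

namespace Pool.Agent.Lib.MP_89bcae_ag.Bra

open Pool.Agent.Lib.MP_89bcae_ag.Sup (LocCtx)

open Pool.Agent.Lib.MP_89bcae_ag.Sup.Lns (AGeom)

open Pool.Agent.Lib.MP_89bcae_ag.Wt Pool.Agent.Lib.MP_89bcae_ag.Wt.Lns

section

variable {ℓ : ℕ} {E : Type} [Field E] {g : E[X]} [hG : IsGood ℓ g]

/-- The function `∏ (x - θ) ^ (wt θ * e θ)`. -/
noncomputable def Fe (g : E[X]) [hG : IsGood ℓ g] (e : E → ℤ) : (FunField ℓ g)ˣ :=
  ∏ θ ∈ g.roots.toFinset, xs θ ^ ((wt g θ : ℤ) * e θ)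

/-- `ord_xs_of_ramified`, `ord_xs_of_ne`. -/
lemma div_Fe (e : E → ℤ) :
    div (Fe (ℓ := ℓ) g e) = (ℓ : ℤ) • ramDiv (fun θ => (wt g θ : ℤ) * e θ) := by
  have hg0 : g ≠ 0 := f_ne_zero ℓ g
  have hprod : ∀ (P : Pt ℓ g) (s : Finset E) (h : E → (FunField ℓ g)ˣ),
      ord P (∏ θ ∈ s, h θ) = ∑ θ ∈ s, ord P (h θ) := by
    intro P s h
    induction s using Finset.induction_on with
    | empty => rw [Finset.prod_empty, Finset.sum_empty, ord_one]
    | insert a s ha ih => rw [Finset.prod_insert ha, Finset.sum_insert ha, ord_mul, ih]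
  ext P
  rw [div_apply, Finsupp.smul_apply, ramDiv_apply, Fe, hprod]
  by_cases hP : P.y = 0
  · rw [if_pos hP]
    have hroot : g.eval P.x = 0 := R15_root P hP
    have hmem : P.x ∈ g.roots.toFinset := by
      rw [Multiset.mem_toFinset, mem_roots hg0]
      exact hroot
    rw [Finset.sum_eq_single_of_mem P.x hmem]
    · rw [ord_zpow, ord_xs_of_ramified P hP, smul_eq_mul]
      ring
    · intro θ _ hθ
      rw [ord_zpow, ord_xs_of_ne P (Ne.symm hθ), mul_zero]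
  · rw [if_neg hP, smul_zero]
    refine Finset.sum_eq_zero fun θ hθ => ?_
    rw [Multiset.mem_toFinset, mem_roots hg0] at hθ
    have hne : P.x ≠ θ := by
      intro h
      apply hP
      have h1 := P.eq
      rw [h, show g.eval θ = 0 from hθ] at h1
      exact (pow_eq_zero_iff hG.ne).mp h1
    rw [ord_zpow, ord_xs_of_ne P hne, mul_zero]

lemma symU_Fe (σ : Sym g) (hσ : ∀ θ, g.eval θ = 0 → (σ : E ≃+* E) θ = θ) (e : E → ℤ) :
    symU σ (Fe (ℓ := ℓ) g e) = Fe g e := by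
  have hg0 : g ≠ 0 := f_ne_zero ℓ g
  rw [Fe, map_prod]
  refine Finset.prod_congr rfl fun θ hθ => ?_
  rw [Multiset.mem_toFinset, mem_roots hg0] at hθ
  rw [map_zpow, symU_xs, hσ θ hθ]

/-- A function without zeros and poles is constant. PROOF: see `r17_cl_fixed` in `Wt/W17.lean` and
`exists_const_of_dg_eq_zero` in `Wt/W13.lean` (`h - c` has no poles, so `dg (div (h - c)) < 0` is impossible). -/
theorem const_of_div {ζ : E} (hζ : IsPrimitiveRoot ζ ℓ) (u : (FunField ℓ g)ˣ) (hu : div u = 0) :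
    ∃ c : Eˣ, u = cstU c := by
  have hdg : dg (div u) = 0 := by
    rw [hu, dg, Finsupp.sum_zero_index]
  have hord : ∀ P, ord P u = 0 := by
    intro P
    rw [← div_apply, hu, Finsupp.zero_apply]
  obtain ⟨c, hc⟩ := exists_const_of_dg_eq_zero ζ hζ u hdg
  have hc1 : (u : FunField ℓ g) = cst c := by
    rcases hc with hc | ⟨w, hw, hwd⟩
    · exact hc
    · exfalso
      have hwn : ∀ P, 0 ≤ ord P w := by
        intro P
        by_cases hc0 : c = 0
        · rw [hc0, map_zero, sub_zero] at hw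
          rw [Units.ext hw, hord]
        · have h5 := ord_add P u (cstU (Units.mk0 (-c) (neg_ne_zero.2 hc0))) w (by
              rw [hw, cstU, Units.coe_map, Units.val_mk0, MonoidHom.coe_coe, map_neg,
                sub_eq_add_neg])
          rw [hord, ord_cstU, min_self] at h5
          exact h5
      refine absurd hwd (not_lt.2 ?_)
      exact Finset.sum_nonneg fun P _ => hwn P
  have hc0 : c ≠ 0 := by
    rintro rfl
    rw [map_zero] at hc1
    exact Units.ne_zero _ hc1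
  refine ⟨Units.mk0 c hc0, ?_⟩
  ext
  rw [hc1, cstU, Units.coe_map, Units.val_mk0, MonoidHom.coe_coe]

end

/-! ### Helper lemmas for `stepB` -/

section

variable {ℓ : ℕ} {E : Type} [Field E] {g : E[X]} [hG : IsGood ℓ g]


lemma vf_symJ_mul (σ τ : Sym g) (Q : Jac ℓ g) : symJ (σ * τ) Q = symJ σ (symJ τ Q) := by
  obtain ⟨D, rfl⟩ := cl_surjective Q
  rw [symJ_cl, symJ_cl, symJ_cl, ← Finsupp.mapDomain_comp]
  congr 2

lemma vf_div_pow (u : (FunField ℓ g)ˣ) (n : ℕ) : div (u ^ n) = n • div u := by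
  induction n with
  | zero => rw [pow_zero, Wt.div_one, zero_smul]
  | succ n ih => rw [pow_succ, Wt.div_mul, ih, succ_nsmul]

lemma vf_rm_nsmul (n : ℕ) (e : E → ℤ) : n • (rm e : Jac ℓ g) = rm fun θ => (n : ℤ) * e θ := by
  induction n with
  | zero =>
    rw [zero_smul, ← rm_zero]
    congr 1
    funext θ
    simp
  | succ n ih =>
    rw [succ_nsmul, ih, ← rm_add]
    congr 1
    funext θ
    push_cast
    ring

lemma vf_mu (P : Pt ℓ g) (hP : P.y = 0) : ∃ μ : (Pt ℓ g →₀ ℤ) → (FunField ℓ g)ˣ,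
    ∀ X, cl X = 0 → div (μ X) = X ∧ lr P hP (μ X) = 1 := by
  have h : ∀ X : Pt ℓ g →₀ ℤ, ∃ u : (FunField ℓ g)ˣ, cl X = 0 → div u = X ∧ lr P hP u = 1 := by
    intro X
    by_cases hX : cl X = 0
    · obtain ⟨u, hu⟩ := exists_div_of_cl_eq_zero X hX
      refine ⟨u * cstU (lr P hP u)⁻¹, fun _ => ⟨?_, ?_⟩⟩
      · rw [Wt.div_mul, hu, div_cstU, add_zero]
      · rw [map_mul, lr_cstU, mul_inv_cancel]
    · exact ⟨1, fun h' => absurd h' hX⟩
  choose μ hμ using h
  exact ⟨μ, hμ⟩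

/-- two functions with the same divisor and the same leading coefficient are equal -/
lemma vf_eq {ζ : E} (hζ : IsPrimitiveRoot ζ ℓ) (P : Pt ℓ g) (hP : P.y = 0)
    (u v : (FunField ℓ g)ˣ) (h1 : div u = div v) (h2 : lr P hP u = lr P hP v) : u = v := by
  have h3 : div (u * v⁻¹) = 0 := by rw [Wt.div_mul, Wt.div_inv, h1, add_neg_cancel]
  obtain ⟨c, hc⟩ := const_of_div hζ (u * v⁻¹) h3
  have h4 : c = 1 := by
    rw [← lr_cstU P hP c, ← hc, map_mul, map_inv, h2, mul_inv_cancel]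
  rw [h4, map_one] at hc
  exact mul_inv_eq_one.mp hc

end

section

variable {ℓ : ℕ} {K E : Type} [Field K] [Field E] [Algebra K E] {f : K[X]}
  [hG : IsGood ℓ (f.map (algebraMap K E))]


lemma vf_root {P : Pt ℓ (f.map (algebraMap K E))} (hP : P.y = 0) :
    (f.map (algebraMap K E)).eval P.x = 0 := by
  rw [← P.eq, hP, zero_pow hG.ne]

lemma vf_sym_ram
    (hroot : ∀ θ, (f.map (algebraMap K E)).eval θ = 0 → ∀ g : E ≃ₐ[K] E, g θ = θ)
    (g : E ≃ₐ[K] E) (P : Pt ℓ (f.map (algebraMap K E))) (hP : P.y = 0) :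
    P.sym (gs f g) = P := by
  apply Pt.ext
  · exact hroot P.x (vf_root hP) g
  · show g P.y = P.y
    rw [hP, map_zero]

lemma vf_symJ_rm
    (hroot : ∀ θ, (f.map (algebraMap K E)).eval θ = 0 → ∀ g : E ≃ₐ[K] E, g θ = θ)
    (g : E ≃ₐ[K] E) (n : E → ℤ) :
    symJ (gs f g) (rm n : Jac ℓ (f.map (algebraMap K E))) = rm n := by
  rw [symJ_rm]
  refine rm_congr _ _ fun θ hθ => ?_
  rw [← map_inv]
  have h1 : ((gs f g⁻¹ : Sym (f.map (algebraMap K E))) : E ≃+* E) θ = θ := hroot θ hθ g⁻¹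
  rw [h1, sub_self]
  exact dvd_zero _

lemma vf_mapDomain_ram
    (hroot : ∀ θ, (f.map (algebraMap K E)).eval θ = 0 → ∀ g : E ≃ₐ[K] E, g θ = θ)
    (g : E ≃ₐ[K] E) (e : E → ℤ) :
    (ramDiv e : Pt ℓ (f.map (algebraMap K E)) →₀ ℤ).mapDomain (Pt.sym (gs f g)) = ramDiv e := by
  conv_rhs => rw [← Finsupp.mapDomain_id (v := (ramDiv e : Pt ℓ (f.map (algebraMap K E)) →₀ ℤ))]
  refine Finsupp.mapDomain_congr fun P hP => ?_
  rw [id]
  refine vf_sym_ram hroot g P ?_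
  by_contra h
  rw [Finsupp.mem_support_iff, ramDiv_apply, if_neg h] at hP
  exact hP rfl

omit hG in

/-- the translates of a divisor depend only on the action on finitely many elements -/
lemma vf_cts_mapDomain (D : Pt ℓ (f.map (algebraMap K E)) →₀ ℤ) :
    IsCts fun g : E ≃ₐ[K] E => D.mapDomain (Pt.sym (gs f g)) := by
  refine ⟨D.support.image Pt.x ∪ D.support.image Pt.y, fun g g' h => ?_⟩
  refine Finsupp.mapDomain_congr fun P hP => ?_
  apply Pt.ext
  · exact h P.x (Finset.mem_union_left _ (Finset.mem_image_of_mem _ hP))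
  · exact h P.y (Finset.mem_union_right _ (Finset.mem_image_of_mem _ hP))

end

section

variable {ℓ : ℕ} {K E : Type} [Field K] [Field E] [Algebra K E] {f : K[X]}
  [hG : IsGood ℓ (f.map (algebraMap K E))] {ζ : K} {ϖ : E} {χ : (E ≃ₐ[K] E) → ℕ}
  {b : (E ≃ₐ[K] E) → (E ≃ₐ[K] E) → (FunField ℓ (f.map (algebraMap K E)))ˣ}
  {C : (E ≃ₐ[K] E) → (Pt ℓ (f.map (algebraMap K E)) →₀ ℤ)}

/-- The form of `b` if `(1 - Z) cl C` is trivial. PROOF. (1) Let `Q - Z Q = Q'` (`exists_sub_zJ`). `d g = cl (C g) - (g Q - Q)`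
is fixed by `Z` (`zJ_symJ`, `hroot`), `d g = rm n` (`exists_rm_of_zJ_eq`), so fixed by the automorphisms (`symJ_rm`,
`hroot`), and `d (g h) = d g + d h` (`IDiv.div`, `cl_div`); `ℓ • d g = 0` (`smul_rm`), `d` is continuous. By `hhom` and `hσ`,
`d g = χ g • d σ = rm (χ g * e)` where `d σ = rm e`. (2) Let `cl E = Q`, `C' g = C g - (g E - E)`,
`D = ramDiv (wt * e)`, `rm e = cl D` (`rm`, `ram`). `cl (C' g - χ g • D) = 0`, so `= div (m g)` with `m g = μ (C' g - χ g • D)`, `μ` a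
function chosen on the divisors of class `0` (`exists_div_of_cl_eq_zero`): `m` is continuous. (3) `div (b g h) = g (C' h) +
C' g - C' (g h) = div (g (m h) * m g / m (g h)) + (χ g + χ h - χ (g h)) • D` and `(χ g + χ h - χ (g h)) • D =
div (Fe e ^ ep g h)` (`div_Fe`, `IsChi.add_eq`). By `const_of_div` the quotient is a constant `a₀ g h`, a continuous
cocycle (`symU_cstU`, `symU_Fe`, `IsChi.ep_cocycle`; `cstU` is injective). -/
theorem stepB (hχ : IsChi ℓ ζ ϖ χ) (hσ : ∃ σ, χ σ = 1)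
    (hhom : ∀ (A : Type) [AddCommGroup A] (c : (E ≃ₐ[K] E) → A), IsCts c →
      (∀ g h, c (g * h) = c g + c h) → (∀ g, ℓ • c g = 0) → ∃ a : A, ℓ • a = 0 ∧ ∀ g, c g = χ g • a)
    (hroot : ∀ θ, (f.map (algebraMap K E)).eval θ = 0 → ∀ g : E ≃ₐ[K] E, g θ = θ)
    (hb : ICoc b) (hC : IDiv b C) (hz : (algebraMap K E ζ) ^ ℓ = 1)
    (Q' : Jac ℓ (f.map (algebraMap K E)))
    (hQ' : ∀ g, cl (C g) - zJ (algebraMap K E ζ) hz (cl (C g)) = symJ (gs f g) Q' - Q') :
    ∃ (e : E → ℤ) (Q : Jac ℓ (f.map (algebraMap K E)))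
      (m : (E ≃ₐ[K] E) → (FunField ℓ (f.map (algebraMap K E)))ˣ)
      (a₀ : (E ≃ₐ[K] E) → (E ≃ₐ[K] E) → Eˣ), IsCts m ∧ IsCocycle a₀ ∧
      (∀ g, cl (C g) = symJ (gs f g) Q - Q + rm fun θ => (χ g : ℤ) * e θ) ∧
      ∀ g h, b g h * m (g * h) = Fe (f.map (algebraMap K E)) e ^ ep ℓ χ g h * cstU (a₀ g h) *
        (symU (gs f g) (m h) * m g) := by
  have hζE : IsPrimitiveRoot (algebraMap K E ζ) ℓ :=
    hχ.zeta.map_of_injective (algebraMap K E).injective
  obtain ⟨θ₀, hθ₀⟩ := exists_root ℓ (f.map (algebraMap K E))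
  set P : Pt ℓ (f.map (algebraMap K E)) := ramPt hG.ne hθ₀ with hPdef
  have hP : P.y = 0 := rfl
  obtain ⟨Q, hQ⟩ := exists_sub_zJ (algebraMap K E ζ) hζE Q'
  -- the homomorphism `d`
  have hcl : ∀ g h, cl (C (g * h)) = symJ (gs f g) (cl (C h)) + cl (C g) := by
    intro g h
    have h1 := congrArg cl (hC.div g h)
    rw [map_add, map_add, cl_div, zero_add, ← symJ_cl] at h1
    exact h1
  obtain ⟨d, hd⟩ : ∃ d : (E ≃ₐ[K] E) → Jac ℓ (f.map (algebraMap K E)),
      ∀ g, d g = cl (C g) - (symJ (gs f g) Q - Q) := ⟨_, fun _ => rfl⟩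
  have hdz : ∀ g, zJ (algebraMap K E ζ) hz (d g) = d g := by
    intro g
    have h1 := hQ' g
    have h2 : zJ (algebraMap K E ζ) hz (symJ (gs f g) Q) =
        symJ (gs f g) (zJ (algebraMap K E ζ) hz Q) :=
      zJ_symJ _ hz _ (g.commutes ζ) Q
    have h3 : Q - zJ (algebraMap K E ζ) hz Q = Q' := hQ
    have h4 : symJ (gs f g) Q - symJ (gs f g) (zJ (algebraMap K E ζ) hz Q) =
        symJ (gs f g) Q' := by rw [← map_sub, h3]
    rw [hd, map_sub, map_sub, h2]
    have h5 : zJ (algebraMap K E ζ) hz (cl (C g)) = cl (C g) - (symJ (gs f g) Q' - Q') := by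
      rw [← h1]; abel
    rw [h5, ← h4, ← h3]
    abel
  have hdr : ∀ g, ∃ n : E → ℤ, d g = rm n := fun g =>
    exists_rm_of_zJ_eq (algebraMap K E ζ) hζE (d g) (hdz g)
  have hds : ∀ g h, symJ (gs f g) (d h) = d h := by
    intro g h
    obtain ⟨n, hn⟩ := hdr h
    rw [hn, vf_symJ_rm hroot]
  have hdadd : ∀ g h, d (g * h) = d g + d h := by
    intro g h
    have h1 := hds g h
    rw [hd h, map_sub, map_sub] at h1
    rw [hd (g * h), hcl, map_mul, vf_symJ_mul, ← hd h] at *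
    rw [hd g, ← h1]
    abel
  have hdtor : ∀ g, ℓ • d g = 0 := by
    intro g
    obtain ⟨n, hn⟩ := hdr g
    rw [hn, smul_rm]
  obtain ⟨E₀, hE₀⟩ := cl_surjective Q
  have hdcts : IsCts d := by
    have h1 : d = fun g => cl (C g) - (cl (E₀.mapDomain (Pt.sym (gs f g))) - Q) := by
      funext g
      rw [hd, ← symJ_cl, hE₀]
    rw [h1]
    exact hC.continuous.comp₂ (vf_cts_mapDomain E₀) (fun x y => cl x - (cl y - Q))
  obtain ⟨a, -, ha⟩ := hhom _ d hdcts hdadd hdtor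
  obtain ⟨σ, hσ⟩ := hσ
  obtain ⟨e, he⟩ := hdr σ
  have hae : a = rm e := by rw [← he, ha σ, hσ, one_smul]
  rw [hae] at ha
  obtain ⟨D, hD⟩ : ∃ D : Pt ℓ (f.map (algebraMap K E)) →₀ ℤ,
      D = ramDiv fun θ => (wt (f.map (algebraMap K E)) θ : ℤ) * e θ := ⟨_, rfl⟩
  have hclD : cl D = rm e := by rw [hD]; rfl
  have hgD : ∀ g : E ≃ₐ[K] E, D.mapDomain (Pt.sym (gs f g)) = D := by
    intro g
    rw [hD, vf_mapDomain_ram hroot]
  obtain ⟨C', hC'⟩ : ∃ C' : (E ≃ₐ[K] E) → (Pt ℓ (f.map (algebraMap K E)) →₀ ℤ),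
      ∀ g, C' g = C g - (E₀.mapDomain (Pt.sym (gs f g)) - E₀) := ⟨_, fun _ => rfl⟩
  obtain ⟨X, hX⟩ : ∃ X : (E ≃ₐ[K] E) → (Pt ℓ (f.map (algebraMap K E)) →₀ ℤ),
      ∀ g, X g = C' g - χ g • D := ⟨_, fun _ => rfl⟩
  have hclX : ∀ g, cl (X g) = 0 := by
    intro g
    have h1 := ha g
    rw [hd] at h1
    rw [hX, hC', map_sub, map_sub, map_sub, map_nsmul, hclD, ← symJ_cl, hE₀, h1, sub_self]
  obtain ⟨μ, hμ⟩ := vf_mu P hP
  have hXcts : IsCts X := by
    have h1 : X = fun g => C g - (E₀.mapDomain (Pt.sym (gs f g)) - E₀) - χ g • D := by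
      funext g
      rw [hX, hC']
    rw [h1]
    exact (hC.continuous.comp₂ (vf_cts_mapDomain E₀) (fun x y => x - (y - E₀))).comp₂ hχ.cts
      (fun x n => x - n • D)
  obtain ⟨m, hm⟩ : ∃ m : (E ≃ₐ[K] E) → (FunField ℓ (f.map (algebraMap K E)))ˣ,
      ∀ g, m g = μ (X g) := ⟨_, fun _ => rfl⟩
  have hmcts : IsCts m := by
    have h1 : m = fun g => μ (X g) := funext hm
    rw [h1]
    exact hXcts.comp μ
  have hmdiv : ∀ g, div (m g) = X g := fun g => by rw [hm]; exact (hμ _ (hclX g)).1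
  have hmlr : ∀ g, lr P hP (m g) = 1 := fun g => by rw [hm]; exact (hμ _ (hclX g)).2
  have hlrsym : ∀ (g : E ≃ₐ[K] E) (u : (FunField ℓ (f.map (algebraMap K E)))ˣ),
      (lr P hP (symU (gs f g) u) : E) = g (lr P hP u : E) := fun g u =>
    lr_symU P hP (gs f g) (vf_sym_ram hroot g P hP) u
  obtain ⟨w, hw⟩ : ∃ w : Eˣ, w = lr P hP (Fe (f.map (algebraMap K E)) e) := ⟨_, rfl⟩
  have hFe : ∀ g : E ≃ₐ[K] E, symU (gs f g) (Fe (ℓ := ℓ) (f.map (algebraMap K E)) e) =
      Fe (f.map (algebraMap K E)) e := fun g => symU_Fe (gs f g) (fun θ hθ => hroot θ hθ g) e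
  have hgw : ∀ g : E ≃ₐ[K] E, g (w : E) = w := by
    intro g
    rw [hw, ← hlrsym, hFe]
  have hgw' : ∀ (g : E ≃ₐ[K] E) (n : ℕ), g (((w ^ n)⁻¹ : Eˣ) : E) = ((w ^ n)⁻¹ : Eˣ) := by
    intro g n
    rw [Units.val_inv_eq_inv_val, Units.val_pow_eq_pow_val, map_inv₀, map_pow, hgw]
  refine ⟨e, Q, m, fun g h => lr P hP (b g h) * (w ^ ep ℓ χ g h)⁻¹, hmcts, ⟨?_, ?_⟩, ?_, ?_⟩
  · intro g h j
    have h1 := congrArg (fun u => (lr P hP u : E)) (hb.cocycle g h j)
    simp only [map_mul, Units.val_mul] at h1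
    rw [hlrsym] at h1
    have h2 : ((w ^ ep ℓ χ g h)⁻¹ : Eˣ) * (w ^ ep ℓ χ (g * h) j)⁻¹ =
        (w ^ ep ℓ χ h j)⁻¹ * (w ^ ep ℓ χ g (h * j))⁻¹ := by
      rw [← mul_inv, ← mul_inv, ← pow_add, ← pow_add, hχ.ep_cocycle]
    have h3 := congrArg (fun u : Eˣ => (u : E)) h2
    simp only [Units.val_mul] at h3
    simp only [Units.val_mul, map_mul, hgw']
    linear_combination (((w ^ ep ℓ χ g h)⁻¹ : Eˣ) : E) * (((w ^ ep ℓ χ (g * h) j)⁻¹ : Eˣ) : E) * h1
      + g (lr P hP (b h j) : E) * (lr P hP (b g (h * j)) : E) * h3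
  · obtain ⟨T, hT⟩ := hb.continuous
    obtain ⟨T', hT'⟩ := hχ.cts
    refine ⟨T ∪ T', fun g g' h h' hg hh => ?_⟩
    have h1 := hT g g' h h' (fun x hx => hg x (Finset.mem_union_left _ hx))
      (fun x hx => hh x (Finset.mem_union_left _ hx))
    have h2 := hT' g g' (fun x hx => hg x (Finset.mem_union_right _ hx))
    have h3 := hT' h h' (fun x hx => hh x (Finset.mem_union_right _ hx))
    show lr P hP (b g h) * (w ^ ep ℓ χ g h)⁻¹ = lr P hP (b g' h') * (w ^ ep ℓ χ g' h')⁻¹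
    unfold ep
    rw [h1, h2, h3]
  · intro g
    have h1 := ha g
    rw [hd, vf_rm_nsmul] at h1
    rw [← h1]
    abel
  · intro g h
    apply vf_eq hζE P hP
    · rw [Wt.div_mul, Wt.div_mul, Wt.div_mul, Wt.div_mul, div_cstU, vf_div_pow, div_Fe, div_symU, hmdiv, hmdiv,
        hmdiv, ← hD]
      have h1 := hC.div g h
      have h2 : (X h).mapDomain (Pt.sym (gs f g)) = (C h).mapDomain (Pt.sym (gs f g)) -
          (E₀.mapDomain (Pt.sym (gs f (g * h))) - E₀.mapDomain (Pt.sym (gs f g))) - χ h • D := by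
        have h3 : E₀.mapDomain (Pt.sym (gs f (g * h))) =
            (E₀.mapDomain (Pt.sym (gs f h))).mapDomain (Pt.sym (gs f g)) := by
          rw [← Finsupp.mapDomain_comp, map_mul]
          congr 1
        rw [h3, hX, hC']
        have h4 : ∀ Y Z : Pt ℓ (f.map (algebraMap K E)) →₀ ℤ,
            (Y - Z).mapDomain (Pt.sym (gs f g)) = Y.mapDomain (Pt.sym (gs f g)) -
              Z.mapDomain (Pt.sym (gs f g)) := fun Y Z =>
          map_sub (Finsupp.mapDomain.addMonoidHom (Pt.sym (gs f g))) Y Z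
        have h5 : (χ h • D).mapDomain (Pt.sym (gs f g)) = χ h • D := by
          rw [Finsupp.mapDomain_smul, hgD]
        rw [h4, h4, h4, h5]
      rw [h2, hX, hX, hC', hC']
      have h6 : χ g • D + χ h • D = χ (g * h) • D + ep ℓ χ g h • ((ℓ : ℤ) • D) := by
        rw [← add_smul, hχ.add_eq, add_smul, mul_comm ℓ, mul_smul, natCast_zsmul]
      have h7 : div (b g h) = (C h).mapDomain (Pt.sym (gs f g)) + C g - C (g * h) := by
        rw [← h1, add_sub_cancel_right]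
      rw [h7]
      have h8 : χ g • D = χ (g * h) • D + ep ℓ χ g h • ((ℓ : ℤ) • D) - χ h • D := by
        rw [← h6, add_sub_cancel_right]
      rw [h8]
      abel
    · have h1 : lr P hP (symU (gs f g) (m h)) = 1 := by
        apply Units.ext
        rw [hlrsym, hmlr, Units.val_one, map_one]
      rw [map_mul (lr P hP), map_mul (lr P hP), map_mul (lr P hP), map_mul (lr P hP), lr_cstU,
        map_pow (lr P hP), ← hw, hmlr, hmlr, h1]
      rw [mul_one, mul_one, mul_one]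
      change lr P hP (b g h) = w ^ ep ℓ χ g h * (lr P hP (b g h) * (w ^ ep ℓ χ g h)⁻¹)
      rw [mul_comm (lr P hP (b g h)), mul_inv_cancel_left]

/-- Elementary algebra for `stepC`. -/
private lemma stepC_arith {E : Type} [Field E] {B U x aGH AGH MGH ga gA gM ag AG MG : E} (hU : U ≠ 0)
    (h2 : AGH ≠ 0) (h3 : MGH ≠ 0) (h4 : gA ≠ 0) (h5 : gM ≠ 0) (h6 : AG ≠ 0)
    (h7 : MG ≠ 0) (e1 : B * aGH = ga * ag) (e2 : gA * AG = U * AGH)
    (e3 : B * MGH = U * x * (gM * MG)) :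
    x * (aGH / (AGH * MGH)) = ga / (gA * gM) * (ag / (AG * MG)) := by
  rw [div_mul_div_comm, mul_div_assoc', div_eq_div_iff (mul_ne_zero h2 h3)
    (mul_ne_zero (mul_ne_zero h4 h5) (mul_ne_zero h6 h7))]
  apply mul_left_cancel₀ hU
  linear_combination (-(aGH * gA * AG)) * e3 + (MGH * gA * AG) * e1 + (ga * ag * MGH) * e2

/-- The cocycle `a₀` is trivial up to a power prime to `ℓ`. PROOF. Apply `lr P hP` to `hm`: `lr_symU`, `lr_cstU`;
`u = lr P hP (Fe e)` is fixed (`symU_Fe`, `lr_symU`); use `hfix` for `u` and `hlc`. -/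
theorem stepC (hroot : ∀ θ, (f.map (algebraMap K E)).eval θ = 0 → ∀ g : E ≃ₐ[K] E, g θ = θ)
    (hfix : ∀ u : Eˣ, (∀ g : E ≃ₐ[K] E, g u = u) → ∃ A : (E ≃ₐ[K] E) → Eˣ, IsCts A ∧
      ∀ g h : E ≃ₐ[K] E, (u : E) ^ ep ℓ χ g h * A (g * h) = g (A h) * A g)
    (P : Pt ℓ (f.map (algebraMap K E))) (hP : P.y = 0)
    (hlc : ∃ n : ℕ, n.Coprime ℓ ∧ IsCoboundary fun g h => lr P hP (b g h) ^ n)
    {e : E → ℤ} {m : (E ≃ₐ[K] E) → (FunField ℓ (f.map (algebraMap K E)))ˣ}
    {a₀ : (E ≃ₐ[K] E) → (E ≃ₐ[K] E) → Eˣ} (hmc : IsCts m)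
    (hm : ∀ g h, b g h * m (g * h) = Fe (f.map (algebraMap K E)) e ^ ep ℓ χ g h * cstU (a₀ g h) *
      (symU (gs f g) (m h) * m g)) :
    ∃ n : ℕ, n.Coprime ℓ ∧ IsCoboundary fun g h => a₀ g h ^ n := by
  have hℓ0 : ℓ ≠ 0 := hG.ne
  have hx0 : (f.map (algebraMap K E)).eval P.x = 0 := by
    rw [← P.eq, hP, zero_pow hℓ0]
  have hsym : ∀ g : E ≃ₐ[K] E, P.sym (gs f g) = P := by
    intro g
    apply Pt.ext
    · exact hroot P.x hx0 g
    · show g P.y = P.y
      rw [hP, map_zero]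
  have hlrs : ∀ (g : E ≃ₐ[K] E) (w : (FunField ℓ (f.map (algebraMap K E)))ˣ),
      (lr P hP (symU (gs f g) w) : E) = g (lr P hP w : E) := fun g w =>
    lr_symU P hP (gs f g) (hsym g) w
  obtain ⟨u, hu⟩ : ∃ u : Eˣ, u = lr P hP (Fe (f.map (algebraMap K E)) e) := ⟨_, rfl⟩
  have hufix : ∀ g : E ≃ₐ[K] E, g (u : E) = u := by
    intro g
    rw [hu, ← hlrs g, symU_Fe (gs f g) (fun θ hθ => hroot θ hθ g) e]
  obtain ⟨A, hAc, hA⟩ := hfix u hufix
  obtain ⟨n, hn, a, hac, ha⟩ := hlc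
  have hm2 : ∀ g h, (lr P hP (b g h) : E) * (lr P hP (m (g * h)) : E) =
      (u : E) ^ ep ℓ χ g h * (a₀ g h : E) * (g (lr P hP (m h) : E) * (lr P hP (m g) : E)) := by
    intro g h
    have h1 := congrArg (fun w => ((lr P hP w : Eˣ) : E)) (hm g h)
    simp only [map_mul, map_pow, lr_cstU, Units.val_mul, Units.val_pow_eq_pow_val, hlrs] at h1
    rw [hu]
    exact h1
  refine ⟨n, hn, fun g => a g / (A g * lr P hP (m g)) ^ n,
    (hac.comp₂ (hAc.comp₂ hmc fun x y => x * lr P hP y) fun x y => x / y ^ n), fun g h => ?_⟩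
  have e1 := ha g h
  have e2 := hA g h
  have e3 := hm2 g h
  have f1 : g (A h : E) ^ n * (A g : E) ^ n =
      ((u : E) ^ ep ℓ χ g h) ^ n * (A (g * h) : E) ^ n := by
    rw [← mul_pow, ← mul_pow, e2]
  have f2 : (lr P hP (b g h) : E) ^ n * (lr P hP (m (g * h)) : E) ^ n =
      ((u : E) ^ ep ℓ χ g h) ^ n * (a₀ g h : E) ^ n *
        (g (lr P hP (m h) : E) ^ n * (lr P hP (m g) : E) ^ n) := by
    rw [← mul_pow, e3, mul_pow, mul_pow, mul_pow]
  simp only [Units.val_pow_eq_pow_val, Units.val_div_eq_div_val, Units.val_mul, map_div₀, map_pow,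
    map_mul, mul_pow] at e1 ⊢
  exact stepC_arith (pow_ne_zero n (pow_ne_zero _ (Units.ne_zero _)))
    (pow_ne_zero n (Units.ne_zero _)) (pow_ne_zero n (Units.ne_zero _))
    (pow_ne_zero n ((map_ne_zero g).2 (Units.ne_zero _)))
    (pow_ne_zero n ((map_ne_zero g).2 (Units.ne_zero _))) (pow_ne_zero n (Units.ne_zero _))
    (pow_ne_zero n (Units.ne_zero _)) e1 f1 f2

end

/-- The sums of the exponents (`LA04_node`). -/
private lemma vf4_node {ι : Type} [Fintype ι] [LinearOrder ι] {F : Type} [Field F] {s : F}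
    {a : ι → F[X]} (hg : AGeom a) {i j : ι} (hij : i ≠ j)
    (hs : (a i).eval s = (a j).eval s) (e : ι → ℤ) {m : ℤ}
    (hnode : ∀ r, m ∣ ∑ i ∈ Finset.univ.filter (fun i => (a i).eval s = r), e i) :
    m ∣ e i + e j ∧ (∀ l, l ≠ i → l ≠ j → m ∣ e l) := by
  constructor
  · have h1 := hnode ((a i).eval s)
    have h2 : Finset.univ.filter (fun l => (a l).eval s = (a i).eval s) = {i, j} := by
      ext l
      rw [Finset.mem_filter, Finset.mem_insert, Finset.mem_singleton]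
      constructor
      · rintro ⟨-, hl⟩
        by_contra hne
        push Not at hne
        exact hg.third hij hne.1 hne.2 hs hl
      · rintro (rfl | rfl)
        · exact ⟨Finset.mem_univ _, rfl⟩
        · exact ⟨Finset.mem_univ _, hs.symm⟩
    rw [h2, Finset.sum_pair hij] at h1
    exact h1
  · intro l hli hlj
    have h1 := hnode ((a l).eval s)
    have h2 : Finset.univ.filter (fun l' => (a l').eval s = (a l).eval s) = {l} := by
      ext l'
      rw [Finset.mem_filter, Finset.mem_singleton]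
      constructor
      · rintro ⟨-, hl⟩
        by_contra hne
        rcases hg.pair hij hne hs hl with ⟨-, h3⟩ | ⟨-, h3⟩
        · exact hlj h3
        · exact hli h3
      · rintro rfl
        exact ⟨Finset.mem_univ _, rfl⟩
    rw [h2, Finset.sum_singleton] at h1
    exact h1

private lemma vf4_fn {ι F M : Type} [Field F] [Field M] [Algebra F M] {t : M} {a : ι → F[X]}
    (hinj : Function.Injective fun i => aeval t (a i)) (g : ι → ℤ) :
    ∃ w : M → ℤ, ∀ i, w (aeval t (a i)) = g i :=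
  ⟨Function.extend (fun i => aeval t (a i)) g 0, fun i => hinj.extend_apply g 0 i⟩

private lemma vf4_aeval {F K E : Type} [Field F] [Field K] [Field E] [Algebra F[X] K]
    [Algebra K E] [Algebra F E]
    (hc : ∀ c : F, algebraMap F E c = algebraMap K E (algebraMap F[X] K (C c))) (p : F[X]) :
    aeval (algebraMap K E (algebraMap F[X] K X)) p = algebraMap K E (algebraMap F[X] K p) := by
  induction p using Polynomial.induction_on' with
  | add p q hp hq => rw [map_add, map_add, map_add, hp, hq]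
  | monomial n a =>
    rw [← C_mul_X_pow_eq_monomial, map_mul, map_mul, map_mul, map_pow, map_pow, map_pow, aeval_C,
      aeval_X, hc a]

private lemma vf4_cast {ℓ : ℕ} {F K : Type} [Field F] [Field K] [Algebra F[X] K]
    (h : (ℓ : F) ≠ 0) : (ℓ : K) ≠ 0 := by
  intro h0
  apply h
  have h1 : Function.Injective ((algebraMap F[X] K).comp (C : F →+* F[X])) := RingHom.injective _
  apply h1
  rw [map_natCast, h0, map_zero]

private lemma vf4_key {ℓ : ℕ} {F K E : Type} [Field F] [Field K] [Field E] [Algebra F[X] K]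
    [Algebra K E] [Algebra F E] [IsAlgClosure K E] {s : F} {v : AbsoluteValue E ℝ} {ζ : F} {ϖ : E}
    {χ : (E ≃ₐ[K] E) → ℕ} {ι : Type} [Fintype ι] [LinearOrder ι] {W : ι → ℕ} {a : ι → F[X]}
    (H : AHyp ℓ W a ζ) (hL : LocF F K s v)
    (hχ : IsChi ℓ (algebraMap F[X] K (C ζ)) ϖ χ)
    (hϖ : ϖ ^ ℓ = algebraMap K E (algebraMap F[X] K X) - algebraMap F E s) {f : K[X]} {p : E[X]}
    [hG : IsGood ℓ p]
    (hp : p = lineW W a (algebraMap K E (algebraMap F[X] K X)))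
    (hf : f.map (algebraMap K E) = p) (e : E → ℤ)
    (c : ℤ) (he : ∀ r : F, (ℓ : ℤ) ∣ ∑ i ∈ Finset.univ.filter (fun i => (a i).eval s = r),
      (W i : ℤ) * (e (algebraMap K E (algebraMap F[X] K (a i))) - c)) :
    ∃ Q : Jac ℓ p, ∀ g : E ≃ₐ[K] E,
      (rm fun θ => (χ g : ℤ) * e θ) = symJ (galSym hf g) Q - Q := by
  subst hp
  obtain ⟨t, ht⟩ : ∃ t : E, t = algebraMap K E (algebraMap F[X] K X) := ⟨_, rfl⟩
  have hζ' : IsPrimitiveRoot (algebraMap F E ζ) ℓ :=
    H.zeta.map_of_injective (algebraMap F E).injective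
  have hW : ∀ i, W i ≠ 0 := H.W0
  have hcop : ∀ (i : ι) (y : ℤ), (ℓ : ℤ) ∣ W i * y → (ℓ : ℤ) ∣ y := by
    intro i y hy
    have h2 : IsCoprime (ℓ : ℤ) (W i : ℤ) := (Nat.isCoprime_iff_coprime.2 (H.cop i)).symm
    exact h2.dvd_of_dvd_mul_left hy
  -- reduction to the existence of `w`
  suffices hmain : ∃ (Q : Jac ℓ (lineW W a (algebraMap K E (algebraMap F[X] K X)))) (w : E → ℤ),
      (∀ i, (ℓ : ℤ) ∣ w (aeval (algebraMap K E (algebraMap F[X] K X)) (a i)) -
        (e (aeval (algebraMap K E (algebraMap F[X] K X)) (a i)) - c)) ∧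
      ∀ g : E ≃ₐ[K] E, (rm fun θ => (χ g : ℤ) * w θ) = symJ (galSym hf g) Q - Q by
    obtain ⟨Q, w, hw, hQ⟩ := hmain
    refine ⟨Q, fun g => ?_⟩
    rw [← hQ g, ← sub_eq_zero, ← rm_sub, rm_eq_zero_iff _ hζ']
    refine ⟨(χ g : ℤ) * c, fun θ hθ => ?_⟩
    obtain ⟨i, rfl⟩ := (eval_lineW_eq_zero hW).1 hθ
    obtain ⟨k, hk⟩ := hw i
    exact ⟨-(χ g * k), by linear_combination (-(χ g : ℤ)) * hk⟩
  by_cases hnode : ∃ i j, i ≠ j ∧ (a i).eval s = (a j).eval s
  · obtain ⟨i, j, hij, hs⟩ := hnode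
    have hinj := line_inj H.geom hL.ctx
    obtain ⟨hn1, hn2⟩ := vf4_node H.geom hij hs
      (fun i => (W i : ℤ) * (e (algebraMap K E (algebraMap F[X] K (a i))) - c)) he
    have hFK : ∀ c : F, ∃ x : K, algebraMap K E x = algebraMap F E c :=
      fun c => ⟨_, (hL.compat c).symm⟩
    have hΓ := LocCtx.locGrp hL.ctx hf hL.inv hL.disc hFK ⟨_, rfl⟩
    have hpc : (ringExpChar K).Coprime ℓ := G13_coprime H.prime (vf4_cast H.ne)
    -- the number `β`
    obtain ⟨β, hβ⟩ : ∃ β : ℤ, (ℓ : ℤ) ∣ W i * β -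
        (e (algebraMap K E (algebraMap F[X] K (a j))) - c) := by
      have h2 : IsCoprime (ℓ : ℤ) (W i : ℤ) := (Nat.isCoprime_iff_coprime.2 (H.cop i)).symm
      obtain ⟨u, q, huq⟩ := h2
      refine ⟨q * (e (algebraMap K E (algebraMap F[X] K (a j))) - c),
        -(u * (e (algebraMap K E (algebraMap F[X] K (a j))) - c)), ?_⟩
      linear_combination (e (algebraMap K E (algebraMap F[X] K (a j))) - c) * huq
    obtain ⟨b, hb⟩ := vf4_fn hinj (fun l => if l = j then -β else 0)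
    obtain ⟨w, hw⟩ := vf4_fn hinj (fun l => if l = i then -(W j * β) else
      if l = j then W i * β else 0)
    have hbi := hb i
    have hbj := hb j
    have hwi := hw i
    have hwj := hw j
    rw [if_neg hij] at hbi
    rw [if_pos rfl] at hbj hwi
    rw [if_neg hij.symm, if_pos rfl] at hwj
    have hwl : ∀ l, l ≠ i → l ≠ j →
        w (aeval (algebraMap K E (algebraMap F[X] K X)) (a l)) = 0 := by
      intro l hli hlj
      rw [hw l, if_neg hli, if_neg hlj]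
    obtain ⟨Q, -, hQ⟩ := LE_ram H.prime hW H.geom hL.ctx hpc H.zeta hζ' hΓ hϖ hij hs b w
      (by rw [hwi, hbi, hbj]; ring) (by rw [hwj, hbi, hbj]; ring) hwl
    refine ⟨Q, w, fun l => ?_, fun g => ?_⟩
    · rw [vf4_aeval hL.compat (a l)]
      by_cases hli : l = i
      · subst hli
        rw [← vf4_aeval hL.compat (a l), hwi, vf4_aeval hL.compat (a l)]
        apply hcop l
        obtain ⟨k, hk⟩ := hn1
        obtain ⟨k', hk'⟩ := hβ
        exact ⟨-(k + W j * k'), by linear_combination (-(1 : ℤ)) * hk - (W j : ℤ) * hk'⟩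
      · by_cases hlj : l = j
        · subst hlj
          rw [← vf4_aeval hL.compat (a l), hwj, vf4_aeval hL.compat (a l)]
          exact hβ
        · rw [← vf4_aeval hL.compat (a l), hwl l hli hlj, vf4_aeval hL.compat (a l)]
          obtain ⟨k, hk⟩ := hcop l _ (hn2 l hli hlj)
          exact ⟨-k, by linear_combination (-(1 : ℤ)) * hk⟩
    · rw [hQ (galSym hf g) ⟨g, rfl⟩ (χ g : ℤ)]
      rw [galSym_apply, hχ.act g, map_pow, ← hL.compat ζ, zpow_natCast]
  · push Not at hnode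
    refine ⟨0, fun _ => 0, fun l => ?_, fun g => ?_⟩
    · have h1 := he ((a l).eval s)
      have h2 : Finset.univ.filter (fun i => (a i).eval s = (a l).eval s) = {l} := by
        ext i
        rw [Finset.mem_filter, Finset.mem_singleton]
        constructor
        · rintro ⟨-, hi⟩
          by_contra hne
          exact hnode i l hne hi
        · rintro rfl
          exact ⟨Finset.mem_univ _, rfl⟩
      rw [h2, Finset.sum_singleton] at h1
      rw [vf4_aeval hL.compat (a l)]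
      obtain ⟨k, hk⟩ := hcop l _ h1
      exact ⟨-k, by linear_combination (-(1 : ℤ)) * hk⟩
    · rw [map_zero, sub_zero]
      have h1 : (fun θ : E => (χ g : ℤ) * (fun _ : E => (0 : ℤ)) θ) = fun _ => 0 := by
        funext θ
        exact mul_zero _
      rw [h1, rm_zero]

/-- The homomorphism `g ↦ rm (χ g * e)` is trivial in the cohomology of the Jacobian if `e` satisfies the condition of the
special fibre. PROOF. Subtracting `c` from `e` (`rm_congr`, `rm` of a constant is `0`: `rm_eq_zero_iff`) we may suppose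
`c = 0`. If the `a_i(s)` are all different then `ℓ ∣ W i * e i`, `ℓ ∣ e i` and `rm (χ g * e) = 0`: `Q = 0`. Otherwise let
`i ≠ j`, `a_i(s) = a_j(s)`; for the other `l` the `a_l(s)` are different from each other and from `a_i(s)` (`LA04_node` in
`Wl/LA04.lean`, from `AGeom`, copy it), so `ℓ ∣ e l`, and `ℓ ∣ W i * e i + W j * e j`. Let `β W i ≡ e j [ZMOD ℓ]`, so
`e i ≡ - W j β`. Apply `LE_ram` with `b` the function `-β` at `a_j`, `0` elsewhere (`b (a_j) - b (a_i) = - β`), and with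
`w (a_i) = - W j β`, `w (a_j) = W i β`, `0` elsewhere (`locGrp`: `LocCtx.locGrp` in `Wl/Gen.lean`; `G13_coprime`); `LE` gives `Q` with
`g Q - Q = rm (χ g * w) = rm (χ g * e)` (`rm_congr`). -/
theorem rm_cob {ℓ : ℕ} {F K E : Type} [Field F] [Field K] [Field E] [Algebra F[X] K] [Algebra K E]
    [Algebra F E] [IsAlgClosure K E] {s : F} {v : AbsoluteValue E ℝ} {ζ : F} {ϖ : E}
    {χ : (E ≃ₐ[K] E) → ℕ} {ι : Type} [Fintype ι] [LinearOrder ι] {W : ι → ℕ} {a : ι → F[X]}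
    (H : AHyp ℓ W a ζ) (hL : LocF F K s v)
    (hχ : IsChi ℓ (algebraMap F[X] K (C ζ)) ϖ χ)
    (hϖ : ϖ ^ ℓ = algebraMap K E (algebraMap F[X] K X) - algebraMap F E s) {f : K[X]}
    [hG : IsGood ℓ (f.map (algebraMap K E))]
    (hf : f.map (algebraMap K E) = lineW W a (algebraMap K E (algebraMap F[X] K X))) (e : E → ℤ)
    (c : ℤ) (he : ∀ r : F, (ℓ : ℤ) ∣ ∑ i ∈ Finset.univ.filter (fun i => (a i).eval s = r),
      (W i : ℤ) * (e (algebraMap K E (algebraMap F[X] K (a i))) - c)) :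
    ∃ Q : Jac ℓ (f.map (algebraMap K E)), ∀ g : E ≃ₐ[K] E,
      (rm fun θ => (χ g : ℤ) * e θ) = symJ (gs f g) Q - Q :=
  vf4_key H hL hχ hϖ hf rfl e c he

end Pool.Agent.Lib.MP_89bcae_ag.Bra

end

section

/-!
# From `L = F(t)` to the local field `K`, `Ω ⊆ E`
-/

open Polynomial IsDedekindDomain IsLocalRing

open scoped Classical

namespace Pool.Agent.Lib.MP_89bcae_ag.Bra

open Pool.Agent.Lib.MP_89bcae_ag.Wt Pool.Agent.Lib.MP_89bcae_ag.Wt.Lns

section VgDiv

variable {N : ℕ} {A B : Type} [Field A] [Field B] {p : A[X]} {q : B[X]}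

/-- The homomorphism of the groups of nonzero functions induced by a homomorphism of fields. -/
noncomputable def vg2U (N : ℕ) {A B : Type} [Field A] [Field B] {p : A[X]} {q : B[X]}
    (σ : A →+* B) (h : p.map σ = q) : (FunField N p)ˣ →* (FunField N q)ˣ :=
  Units.map ((funMap N σ h : FunField N p →+* FunField N q) : FunField N p →* FunField N q)

lemma vg2_coe (σ : A →+* B) (h : p.map σ = q) (u : (FunField N p)ˣ) :
    (vg2U N σ h u : FunField N q) = funMap N σ h u := rfl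

lemma vg2_injective (σ : A →+* B) (h : p.map σ = q) :
    Function.Injective (Pt.map σ h : Pt N p → Pt N q) := by
  intro P Q hPQ
  apply Pt.ext
  · exact σ.injective (congrArg Pt.x hPQ)
  · exact σ.injective (congrArg Pt.y hPQ)

variable [hG : IsGood N p] [hG' : IsGood N q]

lemma vg2_autF_rotE (ζ : A) (hζ : ζ ^ N = 1) (h0 : ζ ≠ 0) (a : FunField N p) :
    autF (rotE ζ hζ h0) a = rotF ζ hζ a := by
  obtain ⟨x, y, _, hab⟩ := IsFractionRing.div_surjective (A := NRing N p) a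
  rw [← hab, map_div₀, map_div₀, autF_algebraMap, autF_algebraMap]
  rfl

omit hG hG' in
lemma vg2_funMap_rotF (σ : A →+* B) (h : p.map σ = q) (ζ : A) (hζ : ζ ^ N = 1)
    (hζ' : (σ ζ) ^ N = 1) (a : FunField N p) :
    funMap N σ h (rotF ζ hζ a) = rotF (σ ζ) hζ' (funMap N σ h a) := by
  have h1 : (funMap N σ h : FunField N p →+* FunField N q).comp (rotF ζ hζ) =
      (rotF (σ ζ) hζ').comp (funMap N σ h) := by
    refine funField_hom_ext (fun p => ?_) ?_
    · rw [RingHom.comp_apply, RingHom.comp_apply, rotF_polyF, funMap_polyF, rotF_polyF]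
    · rw [RingHom.comp_apply, RingHom.comp_apply, rotF_yF, map_mul, funMap_polyF, funMap_yF,
        rotF_yF, Polynomial.map_C]
  exact RingHom.congr_fun h1 a

lemma vg2_rotU (σ : A →+* B) (h : p.map σ = q) (ζ : A) (hζ : ζ ^ N = 1) (h0 : ζ ≠ 0)
    (hζ' : (σ ζ) ^ N = 1) (h0' : σ ζ ≠ 0) (u : (FunField N p)ˣ) :
    vg2U N σ h (rotU ζ hζ h0 u) = rotU (σ ζ) hζ' h0' (vg2U N σ h u) := by
  apply Units.ext
  have h1 : ((rotU ζ hζ h0 u : (FunField N p)ˣ) : FunField N p) =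
      autF (rotE ζ hζ h0) (u : FunField N p) := rfl
  have h2 : ((rotU (σ ζ) hζ' h0' (vg2U N σ h u) : (FunField N q)ˣ) : FunField N q) =
      autF (rotE (σ ζ) hζ' h0') ((vg2U N σ h u : (FunField N q)ˣ) : FunField N q) := rfl
  rw [h2, vg2_coe, vg2_coe, h1, vg2_autF_rotE, vg2_autF_rotE]
  exact vg2_funMap_rotF σ h ζ hζ hζ' _

lemma vg2_nrm (σ : A →+* B) (h : p.map σ = q) (ζ : A) (hζ : ζ ^ N = 1) (h0 : ζ ≠ 0)
    (hζ' : (σ ζ) ^ N = 1) (h0' : σ ζ ≠ 0) (u : (FunField N p)ˣ) :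
    vg2U N σ h (nrm ζ hζ h0 u) = nrm (σ ζ) hζ' h0' (vg2U N σ h u) := by
  unfold nrm
  rw [map_prod]
  have h1 : ∀ i : ℕ, vg2U N σ h ((rotU ζ hζ h0)^[i] u) =
      (rotU (σ ζ) hζ' h0')^[i] (vg2U N σ h u) := by
    intro i
    induction i with
    | zero => rfl
    | succ i ih =>
      rw [Function.iterate_succ_apply', Function.iterate_succ_apply',
        vg2_rotU σ h ζ hζ h0 hζ' h0', ih]
  exact Finset.prod_congr rfl fun i _ => h1 i

lemma vg2_xs (σ : A →+* B) (h : p.map σ = q) (a : A) :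
    vg2U N σ h (xs a) = xs (σ a) := by
  apply Units.ext
  have h1 : ((xs a : (FunField N p)ˣ) : FunField N p) = polyF (X - C a) := rfl
  have h2 : ((xs (σ a) : (FunField N q)ˣ) : FunField N q) = polyF (X - C (σ a)) := rfl
  rw [vg2_coe, h1, h2, funMap_polyF, Polynomial.map_sub, Polynomial.map_X, Polynomial.map_C]

lemma vg2_cstU (σ : A →+* B) (h : p.map σ = q) (c : Aˣ) :
    vg2U N σ h (cstU c) = cstU (Units.map (σ : A →* B) c) := by
  apply Units.ext
  have h1 : ((cstU c : (FunField N p)ˣ) : FunField N p) = polyF (C (c : A)) := rfl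
  have h2 : ((cstU (Units.map (σ : A →* B) c) : (FunField N q)ˣ) : FunField N q) =
      polyF (C (σ (c : A))) := rfl
  rw [vg2_coe, h1, h2, funMap_polyF, Polynomial.map_C]

lemma vg2_xprod (σ : A →+* B) (h : p.map σ = q) (D : Pt N p →₀ ℤ) :
    vg2U N σ h (xprod D) = xprod (D.mapDomain (Pt.map σ h)) := by
  unfold xprod
  rw [Finsupp.prod_mapDomain_index (fun _ => zpow_zero _) (fun _ _ _ => zpow_add _ _ _)]
  unfold Finsupp.prod
  rw [map_prod]
  refine Finset.prod_congr rfl fun P _ => ?_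
  rw [map_zpow, vg2_xs]
  rfl

lemma vg2_ord_xs (σ : A →+* B) (h : p.map σ = q) (P : Pt N p) (a : A) :
    ord (P.map σ h) (xs (σ a)) = ord P (xs a) := by
  have hx : (Pt.map σ h P).x = σ P.x := rfl
  have hy : (Pt.map σ h P).y = σ P.y := rfl
  by_cases hxa : P.x = a
  · subst hxa
    rw [← hx]
    by_cases hy0 : P.y = 0
    · rw [ord_xs_of_ramified P hy0, ord_xs_of_ramified (Pt.map σ h P) (by rw [hy, hy0, map_zero])]
    · rw [ord_xs_of_unramified P hy0, ord_xs_of_unramified (Pt.map σ h P) (by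
        rw [hy]
        exact (map_ne_zero σ).mpr hy0)]
  · rw [ord_xs_of_ne P hxa, ord_xs_of_ne (Pt.map σ h P) (by
      rw [hx]
      exact fun h' => hxa (σ.injective h'))]

lemma vg2_ord_xprod (σ : A →+* B) (h : p.map σ = q) (P : Pt N p) (D : Pt N p →₀ ℤ) :
    ord (P.map σ h) (xprod (D.mapDomain (Pt.map σ h))) = ord P (xprod D) := by
  unfold xprod
  rw [Finsupp.prod_mapDomain_index (fun _ => zpow_zero _) (fun _ _ _ => zpow_add _ _ _)]
  unfold Finsupp.prod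
  rw [R10_ord_prod, R10_ord_prod]
  refine Finset.sum_congr rfl fun Q _ => ?_
  rw [ord_zpow, ord_zpow]
  have hx : (Pt.map σ h Q).x = σ Q.x := rfl
  rw [hx, vg2_ord_xs]

omit hG in
lemma vg2_ord_xprod_ne (σ : A →+* B) (h : p.map σ = q) (Q : Pt N q) (hQ : ∀ a : A, Q.x ≠ σ a)
    (D : Pt N p →₀ ℤ) : ord Q (xprod (D.mapDomain (Pt.map σ h))) = 0 := by
  unfold xprod
  rw [Finsupp.prod_mapDomain_index (fun _ => zpow_zero _) (fun _ _ _ => zpow_add _ _ _)]
  unfold Finsupp.prod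
  rw [R10_ord_prod]
  refine Finset.sum_eq_zero fun R _ => ?_
  rw [ord_zpow]
  have hx : (Pt.map σ h R).x = σ R.x := rfl
  rw [hx, ord_xs_of_ne Q (hQ R.x), mul_zero]

omit hG in
lemma vg2_pow {ζ : A} (hζ : ζ ^ N = 1) (i : ℕ) : (ζ ^ i) ^ N = 1 := by
  rw [← pow_mul, mul_comm, pow_mul, hζ, one_pow]

lemma vg2_ord_nrm (ζ : A) (hζ : ζ ^ N = 1) (h0 : ζ ≠ 0) (P : Pt N p) (u : (FunField N p)ˣ) :
    ord P (nrm ζ hζ h0 u) = ∑ i ∈ Finset.range N, ord (P.rot (ζ ^ i) (vg2_pow hζ i)) u := by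
  unfold nrm
  rw [R10_ord_prod]
  exact Finset.sum_congr rfl fun i _ => R10_ord_rot_iter ζ hζ h0 P i u

/-- The order of an integral function does not decrease. -/
lemma vg2_ord_le (σ : A →+* B) (h : p.map σ = q) (P : Pt N p) (a : NRing N p)
    (u : (FunField N p)ˣ) (hu : (u : FunField N p) = algebraMap (NRing N p) (FunField N p) a) :
    ord P u ≤ ord (P.map σ h) (vg2U N σ h u) := by
  have ha : a ≠ 0 := by
    intro h0
    rw [h0, map_zero] at hu
    exact u.ne_zero hu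
  have hu' : ((vg2U N σ h u : (FunField N q)ˣ) : FunField N q) =
      algebraMap (NRing N q) (FunField N q) (coordMap N σ h a) := by
    rw [vg2_coe, hu]
    rfl
  have hb : coordMap N σ h a ≠ 0 := by
    intro h0
    rw [h0, map_zero] at hu'
    exact (vg2U N σ h u).ne_zero hu'
  have h1 : 0 ≤ ord P u := ord_nonneg P a u hu
  obtain ⟨n, hn⟩ := Int.eq_ofNat_of_zero_le h1
  have h2 : a ∈ P.ideal ^ n := by
    have h3 := P.hs.intValuation_le_pow_iff_mem a n
    have h4 : P.hs.intValuation a ≠ 0 := P.hs.intValuation_ne_zero a ha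
    have h5 : ord P u = -(WithZero.log (P.hs.intValuation a)) := by
      unfold ord
      rw [hu, HeightOneSpectrum.valuation_of_algebraMap]
    refine h3.mp ?_
    rw [← WithZero.log_le_iff_le_exp h4]
    omega
  have h6 : coordMap N σ h a ∈ (P.map σ h).ideal ^ n := by
    rw [← map_ideal σ h P, ← Ideal.map_pow]
    exact Ideal.mem_map_of_mem _ h2
  have h7 := ((P.map σ h).hs.intValuation_le_pow_iff_mem (coordMap N σ h a) n).mpr h6
  have h8 : ord (P.map σ h) (vg2U N σ h u) =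
      -(WithZero.log ((P.map σ h).hs.intValuation (coordMap N σ h a))) := by
    unfold ord
    rw [hu', HeightOneSpectrum.valuation_of_algebraMap]
  have h9 := (WithZero.log_le_iff_le_exp ((P.map σ h).hs.intValuation_ne_zero _ hb)).mpr h7
  omega

omit hG hG' in

/-- A point whose first coordinate is in the image is an image. -/
lemma vg2_exists_pt [IsAlgClosed A] (hN : N ≠ 0) {ζ : A} (hζ : IsPrimitiveRoot ζ N)
    (σ : A →+* B) (h : p.map σ = q) (Q : Pt N q) (a : A) (ha : Q.x = σ a) :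
    ∃ P : Pt N p, Q = P.map σ h := by
  have : NeZero N := ⟨hN⟩
  obtain ⟨y, hy⟩ := IsAlgClosed.exists_pow_nat_eq (p.eval a) (Nat.pos_of_ne_zero hN)
  have h1 : Q.y ^ N = (σ y) ^ N := by
    rw [Q.eq, ← map_pow, hy, ha, ← h, Polynomial.eval_map, Polynomial.eval₂_hom]
  by_cases hy0 : y = 0
  · refine ⟨⟨a, y, hy⟩, ?_⟩
    apply Pt.ext
    · exact ha
    · rw [hy0, map_zero, zero_pow hN] at h1
      have h2 : Q.y = 0 := (pow_eq_zero_iff hN).mp h1
      show Q.y = σ y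
      rw [h2, hy0, map_zero]
  · have hs : σ y ≠ 0 := (map_ne_zero σ).mpr hy0
    have h2 : (Q.y / σ y) ^ N = 1 := by
      rw [div_pow, h1, div_self (pow_ne_zero _ hs)]
    obtain ⟨i, _, hi⟩ := (hζ.map_of_injective σ.injective).eq_pow_of_pow_eq_one h2
    refine ⟨⟨a, ζ ^ i * y, by rw [mul_pow, vg2_pow hζ.pow_eq_one, one_mul, hy]⟩, ?_⟩
    apply Pt.ext
    · exact ha
    · show Q.y = σ (ζ ^ i * y)
      rw [map_mul, map_pow, hi, div_mul_cancel₀ _ hs]

/-- The divisor of an integral function. -/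
lemma vg2_div_int {ζ : A} (hζ : IsPrimitiveRoot ζ N) (σ : A →+* B) (h : p.map σ = q)
    (a : NRing N p) (u : (FunField N p)ˣ)
    (hu : (u : FunField N p) = algebraMap (NRing N p) (FunField N p) a) :
    Wt.div (vg2U N σ h u) = (Wt.div u).mapDomain (Pt.map σ h) := by
  have hN : N ≠ 0 := hG.ne
  have : IsAlgClosed A := hG.alg
  have : NeZero N := ⟨hN⟩
  have h0 : ζ ≠ 0 := hζ.ne_zero hN
  have hζ1 : ζ ^ N = 1 := hζ.pow_eq_one
  have h0' : σ ζ ≠ 0 := (map_ne_zero σ).mpr h0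
  have hζ' : (σ ζ) ^ N = 1 := by rw [← map_pow, hζ1, map_one]
  have hu' : ((vg2U N σ h u : (FunField N q)ˣ) : FunField N q) =
      algebraMap (NRing N q) (FunField N q) (coordMap N σ h a) := by
    rw [vg2_coe, hu]
    rfl
  obtain ⟨c, hc⟩ := exists_nrm_eq ζ hζ h0 u
  have key : nrm (σ ζ) hζ' h0' (vg2U N σ h u) = cstU (Units.map (σ : A →* B) c) *
      xprod ((Wt.div u).mapDomain (Pt.map σ h)) := by
    rw [← vg2_nrm σ h ζ hζ1 h0 hζ' h0', hc, map_mul, vg2_cstU, vg2_xprod]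
  have hsum : ∀ Q : Pt N q, ∑ i ∈ Finset.range N,
      ord (Q.rot (σ ζ ^ i) (vg2_pow hζ' i)) (vg2U N σ h u) =
        ord Q (xprod ((Wt.div u).mapDomain (Pt.map σ h))) := by
    intro Q
    rw [← vg2_ord_nrm (σ ζ) hζ' h0', key, ord_mul, ord_cstU, zero_add]
  have hrot : ∀ {C : Type} [Field C] {r : C[X]} (Q : Pt N r) (ξ : C) (hξ : ξ ^ N = 1),
      Q.rot (ξ ^ 0) (vg2_pow hξ 0) = Q := by
    intro C _ r Q ξ hξ
    apply Pt.ext
    · rfl
    · show ξ ^ 0 * Q.y = Q.y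
      rw [pow_zero, one_mul]
  ext Q
  rw [div_apply]
  by_cases hQ : ∃ P : Pt N p, Q = P.map σ h
  · obtain ⟨P, rfl⟩ := hQ
    rw [Finsupp.mapDomain_apply (vg2_injective σ h), div_apply]
    have h1 := hsum (P.map σ h)
    have h2 : ord P (xprod (Wt.div u)) =
        ∑ i ∈ Finset.range N, ord (P.rot (ζ ^ i) (vg2_pow hζ1 i)) u := by
      rw [← vg2_ord_nrm ζ hζ1 h0, hc, ord_mul, ord_cstU, zero_add]
    rw [vg2_ord_xprod, h2] at h1
    have h3 : ∀ i, (P.map σ h).rot (σ ζ ^ i) (vg2_pow hζ' i) =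
        (P.rot (ζ ^ i) (vg2_pow hζ1 i)).map σ h := by
      intro i
      apply Pt.ext
      · rfl
      · show σ ζ ^ i * σ P.y = σ (ζ ^ i * P.y)
        rw [map_mul, map_pow]
    have h4 : ∀ i ∈ Finset.range N, ord (P.rot (ζ ^ i) (vg2_pow hζ1 i)) u ≤
        ord ((P.map σ h).rot (σ ζ ^ i) (vg2_pow hζ' i)) (vg2U N σ h u) := by
      intro i _
      rw [h3 i]
      exact vg2_ord_le σ h _ a u hu
    have h5 := (Finset.sum_eq_sum_iff_of_le h4).mp h1.symm 0 (Finset.mem_range.mpr hG.pos)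
    rw [hrot _ _ hζ1, hrot _ _ hζ'] at h5
    exact h5.symm
  · rw [Finsupp.mapDomain_of_notMem_range _ _ (by
      rintro ⟨P, hP⟩
      exact hQ ⟨P, hP.symm⟩)]
    have hx : ∀ b : A, Q.x ≠ σ b := fun b hb => hQ (vg2_exists_pt hN hζ σ h Q b hb)
    have h1 := hsum Q
    rw [vg2_ord_xprod_ne σ h Q hx] at h1
    have h4 : ∀ i ∈ Finset.range N, 0 ≤
        ord (Q.rot (σ ζ ^ i) (vg2_pow hζ' i)) (vg2U N σ h u) :=
      fun i _ => ord_nonneg _ _ _ hu'
    have h5 := (Finset.sum_eq_zero_iff_of_nonneg h4).mp h1 0 (Finset.mem_range.mpr hG.pos)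
    rw [hrot _ _ hζ'] at h5
    exact h5

lemma vg2_exists_root (N : ℕ) {A : Type} [Field A] (p : A[X]) [hG : IsGood N p] :
    ∃ ζ : A, IsPrimitiveRoot ζ N := by
  have : IsAlgClosed A := hG.alg
  have : NeZero (N : A) := ⟨hG.ne_zero⟩
  exact HasEnoughRootsOfUnity.exists_primitiveRoot A N

/-- The divisor of the image of a function. -/
lemma vg2_div (σ : A →+* B) (h : p.map σ = q) (u : (FunField N p)ˣ) :
    Wt.div (vg2U N σ h u) = (Wt.div u).mapDomain (Pt.map σ h) := by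
  obtain ⟨ζ, hζ⟩ := vg2_exists_root N p
  obtain ⟨a, b, hb, hab⟩ := IsFractionRing.div_surjective (A := NRing N p) (u : FunField N p)
  have hb0 : algebraMap (NRing N p) (FunField N p) b ≠ 0 := by
    intro h0
    rw [h0, div_zero] at hab
    exact u.ne_zero hab.symm
  have ha0 : algebraMap (NRing N p) (FunField N p) a ≠ 0 := by
    intro h0
    rw [h0, zero_div] at hab
    exact u.ne_zero hab.symm
  set ua : (FunField N p)ˣ := Units.mk0 _ ha0 with hua
  set ub : (FunField N p)ˣ := Units.mk0 _ hb0 with hub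
  have h1 : u = ua * ub⁻¹ := by
    apply Units.ext
    rw [Units.val_mul, Units.val_inv_eq_inv_val, ← hab, div_eq_mul_inv]
    rfl
  have h2 := vg2_div_int hζ σ h a ua rfl
  have h3 := vg2_div_int hζ σ h b ub rfl
  rw [h1, map_mul, map_inv, Wt.div_mul, Wt.div_inv, Wt.div_mul, Wt.div_inv, h2, h3,
    Finsupp.mapDomain_add]
  congr 1
  exact (map_neg (Finsupp.mapDomain.addMonoidHom (Pt.map σ h : Pt N p → Pt N q)) (Wt.div ub)).symm

end VgDiv

section

variable {L Ω K E : Type} [Field L] [Field Ω] [Algebra L Ω] [Field K] [Algebra L K] [Field E]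
  [Algebra K E] [Algebra L E] [IsScalarTower L K E] {ℓ : ℕ} {f : L[X]}

lemma map_jj (f : L[X]) (K : Type) [Field K] [Algebra L K] [Algebra K E] [IsScalarTower L K E]
    (j : Ω →ₐ[L] E) : (f.map (algebraMap L Ω)).map (j : Ω →+* E) =
      (f.map (algebraMap L K)).map (algebraMap K E) := by
  rw [Polynomial.map_map, Polynomial.map_map, AlgHom.comp_algebraMap, ← IsScalarTower.algebraMap_eq]

/-- The restriction of the automorphisms of `E` to `Ω` (`exists_restrict` in `Sup/L12.lean`). -/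
theorem exists_rho [IsAlgClosure L Ω] (j : Ω →ₐ[L] E) :
    ∃ ρ : (E ≃ₐ[K] E) →* (Ω ≃ₐ[L] Ω), ∀ g z, j (ρ g z) = g (j z) := by
  have h1 : ∀ g : E ≃ₐ[K] E, ∃ g' : Ω ≃ₐ[L] Ω, ∀ z, j (g' z) = g (j z) := fun g =>
    Sup.exists_restrict j (g.restrictScalars L)
  choose ρ hρ using h1
  have hj : Function.Injective j := (j : Ω →+* E).injective
  refine ⟨{ toFun := ρ, map_one' := ?_, map_mul' := ?_ }, hρ⟩
  · ext z
    apply hj
    rw [hρ]
    rfl
  · intro g h
    ext z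
    apply hj
    rw [hρ, AlgEquiv.mul_apply, AlgEquiv.mul_apply, hρ, hρ]

/-- The image of a function. -/
noncomputable def jU (K : Type) [Field K] [Algebra L K] [Algebra K E] [IsScalarTower L K E]
    (j : Ω →ₐ[L] E) : (FunField ℓ (f.map (algebraMap L Ω)))ˣ →*
      (FunField ℓ ((f.map (algebraMap L K)).map (algebraMap K E)))ˣ :=
  Units.map ((funMap ℓ (j : Ω →+* E) (map_jj f K j) : FunField ℓ (f.map (algebraMap L Ω)) →+*
    FunField ℓ ((f.map (algebraMap L K)).map (algebraMap K E))) :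
      FunField ℓ (f.map (algebraMap L Ω)) →*
        FunField ℓ ((f.map (algebraMap L K)).map (algebraMap K E)))

lemma coe_jU (j : Ω →ₐ[L] E) (u : (FunField ℓ (f.map (algebraMap L Ω)))ˣ) :
    (jU K j u : FunField ℓ ((f.map (algebraMap L K)).map (algebraMap K E))) =
      funMap ℓ (j : Ω →+* E) (map_jj f K j) u := rfl

variable (j : Ω →ₐ[L] E) (ρ : (E ≃ₐ[K] E) →* (Ω ≃ₐ[L] Ω))

/-- The image of the cochain `b`. -/
noncomputable def bv (b : (Ω ≃ₐ[L] Ω) → (Ω ≃ₐ[L] Ω) → (FunField ℓ (f.map (algebraMap L Ω)))ˣ) :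
    (E ≃ₐ[K] E) → (E ≃ₐ[K] E) →
      (FunField ℓ ((f.map (algebraMap L K)).map (algebraMap K E)))ˣ :=
  fun g h => jU K j (b (ρ g) (ρ h))

/-- The image of the cochain `C`. -/
noncomputable def Cv (C : (Ω ≃ₐ[L] Ω) → (Pt ℓ (f.map (algebraMap L Ω)) →₀ ℤ)) :
    (E ≃ₐ[K] E) → (Pt ℓ ((f.map (algebraMap L K)).map (algebraMap K E)) →₀ ℤ) :=
  fun g => (C (ρ g)).mapDomain (Pt.map (j : Ω →+* E) (map_jj f K j))

variable [IsAlgClosure L Ω] [hG : IsGood ℓ (f.map (algebraMap L Ω))]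
  [hG' : IsGood ℓ ((f.map (algebraMap L K)).map (algebraMap K E))]
  {b : (Ω ≃ₐ[L] Ω) → (Ω ≃ₐ[L] Ω) → (FunField ℓ (f.map (algebraMap L Ω)))ˣ}
  {C : (Ω ≃ₐ[L] Ω) → (Pt ℓ (f.map (algebraMap L Ω)) →₀ ℤ)}

/-- `symU` is given by `funMap` (`coe_symU` in `Bra/Mod.lean`; same statement). -/
theorem coe_symU' {E : Type} [Field E] {g : E[X]} [IsGood ℓ g] (σ : Sym g) (u : (FunField ℓ g)ˣ) :
    ((symU σ u : (FunField ℓ g)ˣ) : FunField ℓ g) =
      funMap ℓ ((σ : E ≃+* E) : E →+* E) σ.2 u := by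
  have h1 : ((symU σ u : (FunField ℓ g)ˣ) : FunField ℓ g) = autF (symE ℓ σ) (u : FunField ℓ g) := rfl
  rw [h1]
  obtain ⟨a, b, -, hab⟩ := IsFractionRing.div_surjective (A := NRing ℓ g) (u : FunField ℓ g)
  rw [← hab, map_div₀, map_div₀, autF_algebraMap, autF_algebraMap]
  rfl

omit [IsAlgClosure L Ω] in

/-- Composition of the maps induced by homomorphisms of fields. -/
private lemma vg1_comp {ℓ : ℕ} {A B : Type} [Field A] [Field B] {f₁ : A[X]} {f₂ : B[X]}
    (φ : A →+* B) (h : f₁.map φ = f₂) (σ : A →+* A) (hσ : f₁.map σ = f₁) (τ : B →+* B)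
    (hτ : f₂.map τ = f₂) (hc : φ.comp σ = τ.comp φ) :
    (funMap ℓ φ h : FunField ℓ f₁ →+* FunField ℓ f₂).comp (funMap ℓ σ hσ) =
      (funMap ℓ τ hτ : FunField ℓ f₂ →+* FunField ℓ f₂).comp (funMap ℓ φ h) := by
  refine funField_hom_ext (fun p => ?_) ?_
  · rw [RingHom.comp_apply, RingHom.comp_apply, funMap_polyF, funMap_polyF, funMap_polyF,
      funMap_polyF, Polynomial.map_map, Polynomial.map_map, hc]
  · rw [RingHom.comp_apply, RingHom.comp_apply, funMap_yF, funMap_yF, funMap_yF]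

omit [IsAlgClosure L Ω] in
/-- Compatibility of the actions. -/
theorem map_symU (hρ : ∀ g z, j (ρ g z) = g (j z)) (g : E ≃ₐ[K] E)
    (u : (FunField ℓ (f.map (algebraMap L Ω)))ˣ) :
    jU K j (symU (gs f (ρ g)) u) = symU (gs (f.map (algebraMap L K)) g) (jU K j u) := by
  apply Units.ext
  rw [coe_jU, coe_symU', coe_symU', coe_jU]
  exact RingHom.congr_fun (vg1_comp (ℓ := ℓ) (j : Ω →+* E) (map_jj f K j)
    (((gs f (ρ g) : Wt.Sym _) : Ω ≃+* Ω) : Ω →+* Ω) (gs f (ρ g)).2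
    (((gs (f.map (algebraMap L K)) g : Wt.Sym _) : E ≃+* E) : E →+* E)
    (gs (f.map (algebraMap L K)) g).2 (RingHom.ext fun z => hρ g z))
    (u : FunField ℓ (f.map (algebraMap L Ω)))

omit [IsAlgClosure L Ω] hG hG' [Algebra L K] [IsScalarTower L K E] in
private lemma vg1_agree (hρ : ∀ g z, j (ρ g z) = g (j z)) (T : Finset Ω) {g g' : E ≃ₐ[K] E}
    (h : ∀ x ∈ T.image j, g x = g' x) : ∀ x ∈ T, ρ g x = ρ g' x := by
  intro x hx
  apply (j : Ω →+* E).injective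
  change j (ρ g x) = j (ρ g' x)
  rw [hρ, hρ, h (j x) (Finset.mem_image_of_mem _ hx)]

omit [IsAlgClosure L Ω] in
theorem ICoc.bv (hρ : ∀ g z, j (ρ g z) = g (j z)) (hb : ICoc b) : ICoc (Bra.bv (K := K) j ρ b) := by
  refine ⟨fun g h k => ?_, ?_⟩
  · change jU K j (b (ρ g) (ρ h)) * jU K j (b (ρ (g * h)) (ρ k)) =
      symU (gs (f.map (algebraMap L K)) g) (jU K j (b (ρ h) (ρ k))) *
        jU K j (b (ρ g) (ρ (h * k)))
    rw [← map_symU j ρ hρ, ← map_mul, ← map_mul, map_mul ρ g h, map_mul ρ h k, hb.cocycle]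
  · obtain ⟨T, hT⟩ := hb.continuous
    refine ⟨T.image j, fun g g' h h' hg hh => ?_⟩
    change jU K j (b (ρ g) (ρ h)) = jU K j (b (ρ g') (ρ h'))
    rw [hT (ρ g) (ρ g') (ρ h) (ρ h') (vg1_agree j ρ hρ T hg) (vg1_agree j ρ hρ T hh)]

omit [IsAlgClosure L Ω] in

/-- The divisor of the image of a function. PROOF. For a point `P` of the curve over `Ω` the orders at `P` and at its image
are equal: `map_ideal` in `Wt/W09.lean` (the ideal of `P` generates that of its image), and for `u` with `ord P u = 0`,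
`u = a / b` with `a`, `b` in `NRing` not vanishing at `P`, `evalPt (P.map σ h) (coordMap a) = σ (evalPt P a)`; in general multiply
by a power of a local parameter (`unif P.x` if `P.y = 0`, `xs P.x` otherwise). If `P'` is not an image then `P'.x` is not in
`j Ω` (otherwise `P'.y` is too, `Ω` being algebraically closed). Write `u = a / q`, `a` in `NRing`, `q` in `Ω[X]` (`exists_den` in
`Wt/W01.lean`; `exists_toN` in `Wt/WC.lean`). `q` does not vanish at `P'.x`. The product of the conjugates of `a` by `rotE` is a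
polynomial `q'` (`R10_fix` in `Wt/W10.lean`), which does not vanish at `P'.x`; the images of the conjugates are in `NRing`, so
they have orders `≥ 0` at `P'`, and the sum is `0`. -/
theorem div_map (u : (FunField ℓ (f.map (algebraMap L Ω)))ˣ) :
    Wt.div (jU K j u) = (Wt.div u).mapDomain (Pt.map (j : Ω →+* E) (map_jj f K j)) :=
  vg2_div (j : Ω →+* E) (map_jj f K j) u

omit [IsAlgClosure L Ω] in
theorem IDiv.bv (hρ : ∀ g z, j (ρ g z) = g (j z)) (hC : IDiv b C) :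
    IDiv (Bra.bv (K := K) j ρ b) (Bra.Cv (K := K) j ρ C) := by
  refine ⟨?_, fun g h => ?_⟩
  · obtain ⟨T, hT⟩ := hC.continuous
    refine ⟨T.image j, fun g g' hg => ?_⟩
    change (C (ρ g)).mapDomain _ = (C (ρ g')).mapDomain _
    rw [hT (ρ g) (ρ g') (vg1_agree j ρ hρ T hg)]
  · change Wt.div (jU K j (b (ρ g) (ρ h))) +
        (C (ρ (g * h))).mapDomain (Pt.map (j : Ω →+* E) (map_jj f K j)) =
      ((C (ρ h)).mapDomain (Pt.map (j : Ω →+* E) (map_jj f K j))).mapDomain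
        (Pt.sym (gs (f.map (algebraMap L K)) g)) +
        (C (ρ g)).mapDomain (Pt.map (j : Ω →+* E) (map_jj f K j))
    have h1 : (Pt.sym (N := ℓ) (gs (f.map (algebraMap L K)) g)) ∘
        (Pt.map (N := ℓ) (j : Ω →+* E) (map_jj f K j)) =
        (Pt.map (N := ℓ) (j : Ω →+* E) (map_jj f K j)) ∘ (Pt.sym (N := ℓ) (gs f (ρ g))) := by
      funext P
      apply Pt.ext
      · exact (hρ g P.x).symm
      · exact (hρ g P.y).symm
    rw [div_map, map_mul, ← Finsupp.mapDomain_add, hC.div, Finsupp.mapDomain_add,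
      ← Finsupp.mapDomain_comp, ← Finsupp.mapDomain_comp, h1]

omit [IsAlgClosure L Ω] in

/-- The leading coefficients. PROOF. Let `θ` be a root of `f.map ..` in `Ω` (`exists_root` in `Wt/W01.lean`), `P = (θ, 0)`;
`lr P (b g h)` is a continuous cocycle with values in `Ωˣ` (`lr_symU`, `hroot`), so by `hBr` a power `n` is a coboundary.
`P' = P.map j`; `lr_map`. -/
theorem exists_lr_bv (hρ : ∀ g z, j (ρ g z) = g (j z)) (hBr : BrTriv ℓ L Ω) (hb : ICoc b)
    (hroot : ∀ θ, (f.map (algebraMap L Ω)).eval θ = 0 → ∀ g : Ω ≃ₐ[L] Ω, g θ = θ) :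
    ∃ (P : Pt ℓ ((f.map (algebraMap L K)).map (algebraMap K E))) (hP : P.y = 0) (n : ℕ),
      n.Coprime ℓ ∧ IsCoboundary fun g h => lr P hP (Bra.bv (K := K) j ρ b g h) ^ n := by
  obtain ⟨θ, hθ⟩ := exists_root ℓ (f.map (algebraMap L Ω))
  let P : Pt ℓ (f.map (algebraMap L Ω)) := ⟨θ, 0, by rw [hθ, zero_pow hG.ne]⟩
  have hP : P.y = 0 := rfl
  have hσ : ∀ g : Ω ≃ₐ[L] Ω, P.sym (gs f g) = P := by
    intro g
    apply Pt.ext
    · exact hroot θ hθ g
    · exact map_zero _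
  have hcoc : IsCocycle (fun g h : Ω ≃ₐ[L] Ω => lr P hP (b g h)) := by
    refine ⟨fun g h k => ?_, ?_⟩
    · have h1 := congrArg (lr P hP) (hb.cocycle g h k)
      rw [map_mul, map_mul] at h1
      have h2 := congrArg Units.val h1
      rw [Units.val_mul, Units.val_mul, lr_symU P hP (gs f g) (hσ g)] at h2
      exact h2
    · obtain ⟨T, hT⟩ := hb.continuous
      exact ⟨T, fun g g' h h' h1 h2 => congrArg (lr P hP) (hT g g' h h' h1 h2)⟩
  obtain ⟨n, hn, a, ha, hab⟩ := hBr _ hcoc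
  have hP' : (P.map (j : Ω →+* E) (map_jj f K j)).y = 0 := map_zero j
  refine ⟨P.map (j : Ω →+* E) (map_jj f K j), hP', n, hn,
    fun g => Units.map (j : Ω →* E) (a (ρ g)), ?_, ?_⟩
  · obtain ⟨T, hT⟩ := ha
    refine ⟨T.image j, fun g g' h => congrArg _ (hT _ _ fun z hz => ?_)⟩
    apply (j : Ω →+* E).injective
    show j (ρ g z) = j (ρ g' z)
    rw [hρ, hρ]
    exact h _ (Finset.mem_image_of_mem _ hz)
  · intro g h
    have h1 : lr (P.map (j : Ω →+* E) (map_jj f K j)) hP' (Bra.bv (K := K) j ρ b g h) =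
        Units.map (j : Ω →* E) (lr P hP (b (ρ g) (ρ h))) :=
      lr_map P hP (j : Ω →+* E) (map_jj f K j) hP' (b (ρ g) (ρ h))
    have h2 := congrArg j (hab (ρ g) (ρ h))
    rw [map_mul, map_mul, hρ] at h2
    show ((lr (P.map (j : Ω →+* E) (map_jj f K j)) hP' (Bra.bv (K := K) j ρ b g h) ^ n : Eˣ) : E) *
        j (a (ρ (g * h)) : Ω) = g (j (a (ρ h) : Ω)) * j (a (ρ g) : Ω)
    rw [h1, ← map_pow, map_mul ρ]
    exact h2

end

section

variable {K E : Type} [Field K] [Field E] [Algebra K E] {ℓ : ℕ} [NeZero ℓ] {f : K[X]}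

/-- `b` is split over `κ((π))`, for all `κ`. -/
def LUnr (F : Type) [Field F] [Algebra F[X] K] (s : F)
    (b : (E ≃ₐ[K] E) → (E ≃ₐ[K] E) → (FunField ℓ (f.map (algebraMap K E)))ˣ) : Prop :=
  ∀ (κ : Type) [Field κ] [Algebra F κ] [IsAlgClosure (Hk ℓ κ) (Tk κ)] (i : K →+* Hk ℓ κ)
    (ψ : FunField ℓ (f.map (algebraMap K E)) →+* Tk κ)
    (r : (Tk κ ≃ₐ[Hk ℓ κ] Tk κ) →* (E ≃ₐ[K] E)), IsEmb ℓ s i →
    (∀ z : K, ψ (cO ℓ f E (algebraMap K E z)) = algebraMap (Hk ℓ κ) (Tk κ) (i z)) →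
    ψ (polyF X) ∈ (algebraMap (Hk ℓ κ) (Tk κ)).range → ψ yF ∈ (algebraMap (Hk ℓ κ) (Tk κ)).range →
    (∀ g z, ψ (cO ℓ f E (r g z)) = g (ψ (cO ℓ f E z))) →
    ∃ a : (Tk κ ≃ₐ[Hk ℓ κ] Tk κ) → (Tk κ)ˣ, IsCts a ∧ ∀ g h,
      ψ (b (r g) (r h) : FunField ℓ (f.map (algebraMap K E))) * a (g * h) = g (a h) * a g

end

section

variable {F L Ω K E : Type} [Field F] [Field L] [Algebra F[X] L] [Field Ω] [Algebra L Ω] [Field K]
  [Algebra L K] [Algebra F[X] K] [IsScalarTower F[X] L K] [Field E] [Algebra K E] [Algebra L E]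
  [IsScalarTower L K E] {ℓ : ℕ} [NeZero ℓ] {f : L[X]} (j : Ω →ₐ[L] E)
  (ρ : (E ≃ₐ[K] E) →* (Ω ≃ₐ[L] Ω))
  {b : (Ω ≃ₐ[L] Ω) → (Ω ≃ₐ[L] Ω) → (FunField ℓ (f.map (algebraMap L Ω)))ˣ}

omit [Algebra F[X] L] [Algebra F[X] K] [IsScalarTower F[X] L K] [NeZero ℓ] in
lemma g4_cO (z : Ω) : funMap ℓ (j : Ω →+* E) (map_jj f K j) (cO ℓ f Ω z) =
    cO ℓ (f.map (algebraMap L K)) E (j z) := by
  show funMap ℓ (j : Ω →+* E) (map_jj f K j) (polyF (C z)) = polyF (C (j z))
  rw [funMap_polyF, Polynomial.map_C]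
  rfl

omit [Algebra F[X] L] [Algebra F[X] K] [IsScalarTower F[X] L K] [NeZero ℓ] in
lemma g4_toO_c (c : L) : funMap ℓ (j : Ω →+* E) (map_jj f K j) (toO ℓ f Ω (polyF (C c))) =
    cO ℓ (f.map (algebraMap L K)) E (algebraMap K E (algebraMap L K c)) := by
  have h1 : toO ℓ f Ω (polyF (C c)) = cO ℓ f Ω (algebraMap L Ω c) := by
    show funMap ℓ (algebraMap L Ω) rfl (polyF (C c)) = polyF (C (algebraMap L Ω c))
    rw [funMap_polyF, Polynomial.map_C]
  rw [h1, g4_cO, AlgHom.commutes, ← IsScalarTower.algebraMap_apply L K E]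

lemma g4_C (ℓ : ℕ) {κ : Type} [Field κ] (a : κ) :
    algebraMap (PowerSeries κ) (Hk ℓ κ) (PowerSeries.C a) = cH ℓ a :=
  HahnSeries.ofPowerSeries_C (Γ := ℤ) a

lemma g4_X (ℓ : ℕ) (κ : Type) [Field κ] :
    algebraMap (PowerSeries κ) (Hk ℓ κ) PowerSeries.X = piH ℓ κ :=
  HahnSeries.ofPowerSeries_X (Γ := ℤ)

/-- PROOF. Apply `hu` to `O = PowerSeries κ`, `H = Hk ℓ κ`, `T = Tk κ` and `ψ.comp (funMap ℓ j _)`. The values on
`toO (FunField ℓ f)` are in `H` by `mem_of_gen` (`polyF (C c) ↦ algebraMap (i (algebraMap L K c))`; `x`, `y`); the constants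
of `F` are in `O` (`IsEmb.const`); the constant `(t - s)⁻¹` goes to `π⁻¹`, which is not in `O`. The automorphism `g' = ρ (r g)`
satisfies the condition. -/
theorem lunr_of_iunr (hρ : ∀ g z, j (ρ g z) = g (j z)) (s : F) (hu : IUnr F b) :
    LUnr F s (Bra.bv (K := K) j ρ b) := by
  intro κ _ _ _ i ψ r hi hψ hX hy hr
  have hval : ∀ c : L, ψ (funMap ℓ (j : Ω →+* E) (map_jj f K j) (toO ℓ f Ω (polyF (C c)))) =
      algebraMap (Hk ℓ κ) (Tk κ) (i (algebraMap L K c)) := by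
    intro c
    rw [g4_toO_c, hψ]
  obtain ⟨a, ha, hab⟩ := hu (PowerSeries κ) (Hk ℓ κ) (Tk κ)
    (ψ.comp (funMap ℓ (j : Ω →+* E) (map_jj f K j))) (by
      intro z
      have h1 := mem_of_gen ((ψ.comp (funMap ℓ (j : Ω →+* E) (map_jj f K j))).comp (toO ℓ f Ω))
        (algebraMap (Hk ℓ κ) (Tk κ)).fieldRange (fun c => ⟨i (algebraMap L K c), (hval c).symm⟩)
        (by
          show ψ (funMap ℓ (j : Ω →+* E) (map_jj f K j) (funMap ℓ (algebraMap L Ω) rfl (polyF X))) ∈ _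
          rw [funMap_polyF, Polynomial.map_X, funMap_polyF, Polynomial.map_X]
          exact hX)
        (by
          show ψ (funMap ℓ (j : Ω →+* E) (map_jj f K j) (funMap ℓ (algebraMap L Ω) rfl yF)) ∈ _
          rw [funMap_yF, funMap_yF]
          exact hy) z
      exact h1) (by
      intro c
      refine ⟨PowerSeries.C (algebraMap F κ c), ?_⟩
      show algebraMap (Hk ℓ κ) (Tk κ) (algebraMap (PowerSeries κ) (Hk ℓ κ)
        (PowerSeries.C (algebraMap F κ c))) = ψ (funMap ℓ (j : Ω →+* E) (map_jj f K j)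
          (cO ℓ f Ω (algebraMap L Ω (algebraMap F[X] L (C c)))))
      rw [g4_cO, AlgHom.commutes, IsScalarTower.algebraMap_apply L K E, hψ,
        ← IsScalarTower.algebraMap_apply F[X] L K, hi.const, g4_C]) (by
      refine ⟨polyF (C (algebraMap F[X] L (X - C s))⁻¹), ?_⟩
      rintro ⟨q, hq⟩
      have h1 : algebraMap (Hk ℓ κ) (Tk κ) (algebraMap (PowerSeries κ) (Hk ℓ κ) q) =
          algebraMap (Hk ℓ κ) (Tk κ) (i (algebraMap L K (algebraMap F[X] L (X - C s))⁻¹)) := by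
        rw [← hval]
        exact hq
      have h2 := (algebraMap (Hk ℓ κ) (Tk κ)).injective h1
      rw [map_inv₀, ← IsScalarTower.algebraMap_apply F[X] L K, map_inv₀, hi.t, ← g4_X] at h2
      have h3 : algebraMap (PowerSeries κ) (Hk ℓ κ) PowerSeries.X ≠ 0 := by
        rw [g4_X]
        exact HahnSeries.single_ne_zero one_ne_zero
      have h4 : algebraMap (PowerSeries κ) (Hk ℓ κ) (q * PowerSeries.X) =
          algebraMap (PowerSeries κ) (Hk ℓ κ) 1 := by
        rw [map_mul, h2, inv_mul_cancel₀ h3, map_one]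
      have h5 := IsFractionRing.injective (PowerSeries κ) (Hk ℓ κ) h4
      have h6 := congrArg PowerSeries.constantCoeff h5
      rw [map_mul, PowerSeries.constantCoeff_X, mul_zero, map_one] at h6
      exact zero_ne_one h6)
  refine ⟨a, ha, fun g h => ?_⟩
  have key : ∀ (g : Tk κ ≃ₐ[Hk ℓ κ] Tk κ) (z : Ω),
      ψ.comp (funMap ℓ (j : Ω →+* E) (map_jj f K j)) (cO ℓ f Ω (ρ (r g) z)) =
        g (ψ.comp (funMap ℓ (j : Ω →+* E) (map_jj f K j)) (cO ℓ f Ω z)) := by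
    intro g z
    show ψ (funMap ℓ (j : Ω →+* E) (map_jj f K j) (cO ℓ f Ω (ρ (r g) z))) =
      g (ψ (funMap ℓ (j : Ω →+* E) (map_jj f K j) (cO ℓ f Ω z)))
    rw [g4_cO, g4_cO, hρ, hr]
  exact hab g h (ρ (r g)) (ρ (r h)) (key g) (key h)

end

end Pool.Agent.Lib.MP_89bcae_ag.Bra

end

section

/-!
# The fibres `t = s`: the main step
-/

open Polynomial IsDedekindDomain IsLocalRing

open scoped Classical

namespace Pool.Agent.Lib.MP_89bcae_ag.Bra

open Pool.Agent.Lib.MP_89bcae_ag.Sup (LocCtx plc)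

open Pool.Agent.Lib.MP_89bcae_ag.Wt Pool.Agent.Lib.MP_89bcae_ag.Wt.Lns

private lemma add_aux {A : Type*} [AddCommGroup A] {n : ℕ} {p q x₁ x₂ x₃ y₁ y₂ y₃ z w₁ w₂ w₃ : A}
    (h1 : p + x₁ = x₂ + x₃) (h2 : p + y₁ = q + z + (y₂ + y₃)) (h3 : n • z + w₁ = w₂ + w₃) :
    n • q + (n • x₁ + -(n • y₁) + -w₁) =
      (n • x₂ + -(n • y₂) + -w₂) + (n • x₃ + -(n • y₃) + -w₃) := by
  have e1 : p = x₂ + x₃ - x₁ := eq_sub_of_add_eq h1
  have e2 : q = p + y₁ - z - (y₂ + y₃) := by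
    rw [h2]
    abel
  have e3 : w₁ = w₂ + w₃ - n • z := by
    rw [← h3]
    abel
  rw [e2, e1, e3]
  simp only [smul_add, smul_sub]
  abel

private lemma mul_aux {G : Type*} [CommGroup G] {n : ℕ} {p q x₁ x₂ x₃ y₁ y₂ y₃ z w₁ w₂ w₃ : G}
    (h1 : p * x₁ = x₂ * x₃) (h2 : p * y₁ = q * z * (y₂ * y₃)) (h3 : z ^ n * w₁ = w₂ * w₃) :
    q ^ n * (x₁ ^ n * (y₁ ^ n)⁻¹ * w₁⁻¹) =
      (x₂ ^ n * (y₂ ^ n)⁻¹ * w₂⁻¹) * (x₃ ^ n * (y₃ ^ n)⁻¹ * w₃⁻¹) :=
  add_aux (A := Additive G) h1 h2 h3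

/-- The leading coefficient as a homomorphism. -/
noncomputable def lcHom (ℓ : ℕ) (κ : Type) [Field κ] : Hk ℓ κ →*₀ κ where
  toFun := lcH
  map_zero' := HahnSeries.leadingCoeff_zero
  map_one' := lcH_one
  map_mul' := lcH_mul

private lemma prod_zpow_sum {κ : Type*} [Field κ] {ι : Type*} (S : Finset ι) {z : κ} (hz : z ≠ 0)
    (n : ι → ℤ) : ∏ i ∈ S, z ^ n i = z ^ ∑ i ∈ S, n i := by
  induction S using Finset.induction_on with
  | empty => simp
  | insert i S hi ih => rw [Finset.prod_insert hi, Finset.sum_insert hi, zpow_add₀ hz, ih]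

section

variable {F K E κ : Type} [Field F] [Field K] [Algebra F[X] K] [Field E] [Algebra K E] [Field κ]
  [Algebra F κ] {ℓ : ℕ} [NeZero ℓ] {s : F} {ζ : F} {ϖ : E} {χ : (E ≃ₐ[K] E) → ℕ}
  {i : K →+* Hk ℓ κ}

/-- The characters agree. PROOF: `(jE ϖ) ^ ℓ = jE (t - s) = π = vpT ^ ℓ` (`vpT_pow`), so `vpT = ζ ^ k jE ϖ`. -/
theorem isChi_comp (hχ : IsChi ℓ (algebraMap F[X] K (C ζ)) ϖ χ)
    (hϖ : ϖ ^ ℓ = algebraMap K E (algebraMap F[X] K (X - C s))) (hζ : IsPrimitiveRoot ζ ℓ)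
    (hi : IsEmb ℓ s i) (jE : E →+* Tk κ)
    (hj : ∀ z : K, jE (algebraMap K E z) = algebraMap (Hk ℓ κ) (Tk κ) (i z))
    (r : (Tk κ ≃ₐ[Hk ℓ κ] Tk κ) →* (E ≃ₐ[K] E)) (hr : ∀ g z, jE (r g z) = g (jE z)) :
    IsChi ℓ (cH ℓ (algebraMap F κ ζ)) (vpT κ) fun g => χ (r g) := by
  have hζ1 : IsPrimitiveRoot (cH ℓ (algebraMap F κ ζ)) ℓ :=
    (hζ.map_of_injective (algebraMap F κ).injective).map_of_injective (cH (κ := κ) ℓ).injective
  have hζ2 : IsPrimitiveRoot (algebraMap (Hk ℓ κ) (Tk κ) (cH ℓ (algebraMap F κ ζ))) ℓ :=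
    hζ1.map_of_injective (algebraMap (Hk ℓ κ) (Tk κ)).injective
  have h1 : (jE ϖ) ^ ℓ = vpT κ ^ ℓ := by
    rw [← map_pow, hϖ, hj, hi.t, vpT_pow]
  have h2 : jE ϖ ≠ 0 := (map_ne_zero jE).mpr hχ.ne
  have h3 : (vpT κ / jE ϖ) ^ ℓ = 1 := by
    rw [div_pow, h1, div_self (pow_ne_zero _ vpT_ne_zero)]
  obtain ⟨k, -, hk⟩ := hζ2.eq_pow_of_pow_eq_one h3
  have h4 : vpT κ = algebraMap (Hk ℓ κ) (Tk κ) (cH ℓ (algebraMap F κ ζ) ^ k) * jE ϖ := by
    rw [map_pow, hk, div_mul_cancel₀ _ h2]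
  refine ⟨hχ.prime, hζ1, vpT_ne_zero, fun g => hχ.lt (r g), fun g => ?_⟩
  have h5 : g (jE ϖ) = algebraMap (Hk ℓ κ) (Tk κ) (cH ℓ (algebraMap F κ ζ) ^ χ (r g)) * jE ϖ := by
    rw [← hr, hχ.act, map_mul, hj, map_pow i, hi.const]
  rw [h4, map_mul, AlgEquiv.commutes, h5]
  exact mul_left_comm _ _ _

/-- Pull back of cochains. PROOF: `a (r g)` depends on the restriction of `r g` to `T`, so on that of `g` to `jE T`. -/
theorem IsCts.comp_r {X : Type} {a : (E ≃ₐ[K] E) → X} (ha : IsCts a) (jE : E →+* Tk κ)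
    (r : (Tk κ ≃ₐ[Hk ℓ κ] Tk κ) →* (E ≃ₐ[K] E)) (hr : ∀ g z, jE (r g z) = g (jE z)) :
    IsCts fun g => a (r g) := by
  obtain ⟨T, hT⟩ := ha
  refine ⟨T.image jE, fun g g' h => hT _ _ fun x hx => jE.injective ?_⟩
  rw [hr, hr]
  exact h _ (Finset.mem_image_of_mem jE hx)

variable {f : K[X]} [hG : IsGood ℓ (f.map (algebraMap K E))]

/-- Equivariance of `ψ` (`coe_symU'`, `funField_hom_ext`). -/
theorem psi_symU (hi : IsEmb ℓ s i) (jE : E →+* Tk κ)
    (ψ : FunField ℓ (f.map (algebraMap K E)) →+* Tk κ) (hc : ∀ z, ψ (cO ℓ f E z) = jE z)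
    (hx : ψ (polyF X) ∈ (algebraMap (Hk ℓ κ) (Tk κ)).range)
    (hy : ψ yF ∈ (algebraMap (Hk ℓ κ) (Tk κ)).range)
    (r : (Tk κ ≃ₐ[Hk ℓ κ] Tk κ) →* (E ≃ₐ[K] E)) (hr : ∀ g z, jE (r g z) = g (jE z))
    (g : Tk κ ≃ₐ[Hk ℓ κ] Tk κ) (u : (FunField ℓ (f.map (algebraMap K E)))ˣ) :
    ψ (symU (gs f (r g)) u : (FunField ℓ (f.map (algebraMap K E)))ˣ) = g (ψ u) := by
  have hfix : ∀ z : Tk κ, z ∈ (algebraMap (Hk ℓ κ) (Tk κ)).range → g z = z := by
    rintro z ⟨w, rfl⟩
    exact g.commutes w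
  rw [coe_symU']
  have h1 : ψ.comp (funMap ℓ (((gs f (r g) : Sym (f.map (algebraMap K E))) : E ≃+* E) : E →+* E)
      (gs f (r g)).2) = ((g : Tk κ ≃+* Tk κ) : Tk κ →+* Tk κ).comp ψ := by
    apply funField_hom_ext
    · intro p
      have h2 : (ψ.comp polyF).comp (Polynomial.mapRingHom
          (((gs f (r g) : Sym (f.map (algebraMap K E))) : E ≃+* E) : E →+* E)) =
          ((g : Tk κ ≃+* Tk κ) : Tk κ →+* Tk κ).comp (ψ.comp polyF) := by
        apply Polynomial.ringHom_ext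
        · intro z
          rw [RingHom.comp_apply, coe_mapRingHom, map_C]
          have h3 : (ψ.comp polyF) (C ((((gs f (r g) : Sym (f.map (algebraMap K E))) : E ≃+* E) :
              E →+* E) z)) = jE (r g z) := hc _
          rw [h3, hr]
          exact congrArg g (hc z).symm
        · rw [RingHom.comp_apply, coe_mapRingHom, map_X]
          exact (hfix _ hx).symm
      rw [RingHom.comp_apply, funMap_polyF]
      exact RingHom.congr_fun h2 p
    · rw [RingHom.comp_apply, funMap_yF]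
      exact (hfix _ hy).symm
  exact RingHom.congr_fun h1 _

end

section

variable {F K E : Type} [Field F] [IsAlgClosed F] [Field K] [Algebra F[X] K] [Field E]
  [Algebra K E] [Algebra F E] [IsAlgClosure K E] {ℓ : ℕ} [NeZero ℓ] {s : F}
  {ι : Type} [Fintype ι] [LinearOrder ι] {W : ι → ℕ} {a : ι → F[X]} {ζ : F} {v : AbsoluteValue E ℝ}
  {f : K[X]} [hG : IsGood ℓ (f.map (algebraMap K E))]

omit [IsAlgClosed F] [IsAlgClosure K E] in
lemma LocF.aeval_eq (hL : LocF F K s v) (p : F[X]) :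
    aeval (algebraMap K E (algebraMap F[X] K X)) p = algebraMap K E (algebraMap F[X] K p) := by
  have h1 : ((aeval (algebraMap K E (algebraMap F[X] K X)) : F[X] →ₐ[F] E) : F[X] →+* E) =
      (algebraMap K E).comp (algebraMap F[X] K) := by
    apply Polynomial.ringHom_ext
    · intro c
      rw [RingHom.coe_coe, aeval_C, hL.compat]
      rfl
    · rw [RingHom.coe_coe, aeval_X]
      rfl
  exact congrArg (fun φ => φ p) h1

omit [IsAlgClosed F] [IsAlgClosure K E] [NeZero ℓ] hG [LinearOrder ι] in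
lemma LocF.map_eq (hL : LocF F K s v) (hf : f = ∏ i, (X - C (algebraMap F[X] K (a i))) ^ W i) :
    f.map (algebraMap K E) = lineW W a (algebraMap K E (algebraMap F[X] K X)) := by
  rw [hf, Polynomial.map_prod]
  unfold lineW
  refine Finset.prod_congr rfl fun i _ => ?_
  rw [Polynomial.map_pow, Polynomial.map_sub, map_X, map_C, hL.aeval_eq]

omit [IsAlgClosed F] [Algebra F E] [IsAlgClosure K E] [NeZero ℓ] hG [LinearOrder ι] in
lemma root_fixed (hf : f = ∏ i, (X - C (algebraMap F[X] K (a i))) ^ W i) (θ : E)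
    (hθ : (f.map (algebraMap K E)).eval θ = 0) :
    ∃ i, θ = algebraMap K E (algebraMap F[X] K (a i)) := by
  rw [hf, Polynomial.map_prod, eval_prod, Finset.prod_eq_zero_iff] at hθ
  obtain ⟨i, -, hi⟩ := hθ
  rw [Polynomial.map_pow, Polynomial.map_sub, map_X, map_C, eval_pow, eval_sub, eval_X, eval_C] at hi
  exact ⟨i, sub_eq_zero.mp (eq_zero_of_pow_eq_zero hi)⟩

omit [IsAlgClosed F] [IsAlgClosure K E] [NeZero ℓ] hG in

/-- Products over the roots. -/
lemma prod_roots (H : AHyp ℓ W a ζ) (hL : LocF F K s v)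
    (hf : f = ∏ i, (X - C (algebraMap F[X] K (a i))) ^ W i)
    (hinj : Function.Injective fun i => algebraMap F[X] K (a i)) {N : Type*} [CommMonoid N]
    (φ : E → N) : ∏ θ ∈ (f.map (algebraMap K E)).roots.toFinset, φ θ =
      ∏ i, φ (algebraMap K E (algebraMap F[X] K (a i))) := by
  have h1 : Function.Injective fun i => aeval (algebraMap K E (algebraMap F[X] K X)) (a i) := by
    intro i j h
    simp only [hL.aeval_eq] at h
    exact hinj ((algebraMap K E).injective h)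
  have h2 := prod_rts_lineW (w := W) (a := a)
    (t := algebraMap K E (algebraMap F[X] K X)) H.W0 h1 φ
  simp only [hL.aeval_eq] at h2
  rw [hL.map_eq hf]
  exact h2

/-- The condition of the special fibre. -/
theorem exists_cond (H : AHyp ℓ W a ζ) (hL : LocF F K s v)
    (hemb : ∀ (κ : Type) [Field κ] [Algebra F κ], ∃ i : K →+* Hk ℓ κ, IsEmb ℓ s i)
    {ϖ : E} {χ : (E ≃ₐ[K] E) → ℕ} (hχ : IsChi ℓ (algebraMap F[X] K (C ζ)) ϖ χ)
    (hϖ : ϖ ^ ℓ = algebraMap K E (algebraMap F[X] K X) - algebraMap F E s)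
    (hf : f = ∏ i, (X - C (algebraMap F[X] K (a i))) ^ W i)
    (hinj : Function.Injective fun i => algebraMap F[X] K (a i))
    {b : (E ≃ₐ[K] E) → (E ≃ₐ[K] E) → (FunField ℓ (f.map (algebraMap K E)))ˣ} (hu : LUnr F s b)
    {e : E → ℤ} {m : (E ≃ₐ[K] E) → (FunField ℓ (f.map (algebraMap K E)))ˣ}
    {a₀ : (E ≃ₐ[K] E) → (E ≃ₐ[K] E) → Eˣ} (hmc : IsCts m)
    (hm : ∀ g h, b g h * m (g * h) = Fe (f.map (algebraMap K E)) e ^ ep ℓ χ g h * cstU (a₀ g h) *
      (symU (gs f g) (m h) * m g))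
    (ha₀ : ∃ n : ℕ, n.Coprime ℓ ∧ IsCoboundary fun g h => a₀ g h ^ n) :
    ∃ c : ℤ, ∀ r : F, (ℓ : ℤ) ∣ ∑ i ∈ Finset.univ.filter (fun i => (a i).eval s = r),
      (W i : ℤ) * (e (algebraMap K E (algebraMap F[X] K (a i))) - c) := by
  have hℓ := H.prime
  -- the special fibre
  set R : Finset F := Finset.univ.image fun i => (a i).eval s with hR
  set V : F → ℕ := fun r => ∑ i ∈ Finset.univ.filter (fun i => (a i).eval s = r), W i with hV
  have hg : ∏ r ∈ R, (X - C r) ^ V r = ∏ i, (X - C ((a i).eval s)) ^ W i := by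
    rw [← Finset.prod_fiberwise_of_maps_to (g := fun i => (a i).eval s) (t := R)
      (fun i _ => Finset.mem_image_of_mem _ (Finset.mem_univ i))]
    refine Finset.prod_congr rfl fun r _ => ?_
    rw [← Finset.prod_pow_eq_pow_sum]
    refine Finset.prod_congr rfl fun i hi => ?_
    rw [(Finset.mem_filter.mp hi).2]
  have hdeg : (∏ i, (X - C ((a i).eval s)) ^ W i : F[X]).natDegree = ∑ i, W i := by
    rw [natDegree_prod _ _ fun i _ => pow_ne_zero _ (X_sub_C_ne_zero _)]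
    refine Finset.sum_congr rfl fun i _ => ?_
    rw [natDegree_pow, natDegree_X_sub_C, mul_one]
  obtain ⟨κ, _, _, x, y, hF⟩ := exists_fib hℓ H.zeta (∏ i, (X - C ((a i).eval s)) ^ W i)
    (by rw [hdeg]; exact H.sum)
    (Finset.prod_ne_zero_iff.mpr fun i _ => pow_ne_zero _ (X_sub_C_ne_zero _))
  have hℓκ : (ℓ : κ) ≠ 0 := by
    rw [← map_natCast (algebraMap F κ)]
    exact (_root_.map_ne_zero _).mpr H.ne
  have hζκ : IsPrimitiveRoot (algebraMap F κ ζ) ℓ :=
    H.zeta.map_of_injective (algebraMap F κ).injective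
  have hcl : IsAlgClosure (Hk ℓ κ) (Tk κ) := isAlgClosure_Hk hζκ
  obtain ⟨i, hi⟩ := hemb κ
  obtain ⟨jE, hj⟩ : ∃ jE : E →+* Tk κ,
      ∀ z : K, jE (algebraMap K E z) = algebraMap (Hk ℓ κ) (Tk κ) (i z) := by
    letI : Algebra K (Tk κ) := ((algebraMap (Hk ℓ κ) (Tk κ)).comp i).toAlgebra
    have hKE : Algebra.IsAlgebraic K E := IsAlgClosure.isAlgebraic
    exact ⟨((IsAlgClosed.lift : E →ₐ[K] Tk κ) : E →+* Tk κ), fun z =>
      (IsAlgClosed.lift : E →ₐ[K] Tk κ).commutes z⟩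
  obtain ⟨Y, hY⟩ := exists_Y hi hℓκ hF
  have hY' : Y ^ ℓ = f.eval₂ i (cH ℓ x) := by
    rw [hY, hf, eval₂_finsetProd]
    refine Finset.prod_congr rfl fun k _ => ?_
    rw [eval₂_pow, eval₂_sub, eval₂_X, eval₂_C]
  obtain ⟨ψ, hψc, hψx, hψy⟩ := exists_psi hi jE hj hF.inj f Y hY'
  obtain ⟨r, hr⟩ := exists_resE (i := i) jE hj
  obtain ⟨A₀, hA₀c, hA₀⟩ := hu κ i ψ r hi (fun z => by rw [hψc, hj]) ⟨_, hψx.symm⟩ ⟨_, hψy.symm⟩
    (fun g z => by rw [hψc, hψc, hr])
  have hsym := psi_symU (f := f) hi jE ψ hψc ⟨_, hψx.symm⟩ ⟨_, hψy.symm⟩ r hr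
  obtain ⟨n, hn, β, hβc, hβ⟩ := ha₀
  have hχ' := isChi_comp hχ (by rw [hϖ, hL.compat, map_sub, map_sub]) H.zeta hi jE hj r hr
  -- the function `Fe`
  set uH : Hk ℓ κ := ∏ k, (cH ℓ x - i (algebraMap F[X] K (a k))) ^
    ((W k : ℤ) * e (algebraMap K E (algebraMap F[X] K (a k)))) with huH
  have hfac : ∀ k, cH ℓ x - i (algebraMap F[X] K (a k)) ≠ 0 := by
    intro k h0
    have h1 := lcH_sub (ℓ := ℓ) hi hF.inj (a k)
    rw [h0] at h1
    have h2 : lcH (0 : Hk ℓ κ) = 0 := HahnSeries.leadingCoeff_zero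
    rw [h2] at h1
    have h3 := hF.inj (X - C ((a k).eval s)) (by rw [map_sub, aeval_X, aeval_C, ← h1])
    exact X_sub_C_ne_zero _ h3
  have huH0 : uH ≠ 0 := Finset.prod_ne_zero_iff.mpr fun k _ => zpow_ne_zero _ (hfac k)
  have hFe : ψ (Fe (ℓ := ℓ) (f.map (algebraMap K E)) e : (FunField ℓ (f.map (algebraMap K E)))ˣ) =
      algebraMap (Hk ℓ κ) (Tk κ) uH := by
    have h1 : Function.Injective fun k => aeval (algebraMap K E (algebraMap F[X] K X)) (a k) := by
      intro k l h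
      simp only [hL.aeval_eq] at h
      exact hinj ((algebraMap K E).injective h)
    have hwt : ∀ k, wt (f.map (algebraMap K E)) (algebraMap K E (algebraMap F[X] K (a k))) = W k := by
      intro k
      have h2 := wt_lineW (w := W) h1 k
      rw [hL.aeval_eq] at h2
      rw [hL.map_eq hf]
      exact h2
    have hxs : ∀ θ : E, ψ ((xs θ : (FunField ℓ (f.map (algebraMap K E)))ˣ) :
        FunField ℓ (f.map (algebraMap K E))) = algebraMap (Hk ℓ κ) (Tk κ) (cH ℓ x) - jE θ := by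
      intro θ
      have h3 : ((xs θ : (FunField ℓ (f.map (algebraMap K E)))ˣ) :
          FunField ℓ (f.map (algebraMap K E))) = polyF (X - C θ) := coe_ofPoly _
      rw [h3, map_sub, map_sub, hψx]
      exact congrArg _ (hψc θ)
    unfold Fe
    rw [prod_roots H hL hf hinj, Units.coe_prod, map_prod, huH, map_prod]
    refine Finset.prod_congr rfl fun k _ => ?_
    rw [Units.val_zpow_eq_zpow_val, map_zpow₀, map_zpow₀, hwt, hxs, map_sub, hj]
  -- the cochain
  set Ψ : (FunField ℓ (f.map (algebraMap K E)))ˣ →* (Tk κ)ˣ :=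
    Units.map (ψ : FunField ℓ (f.map (algebraMap K E)) →* Tk κ) with hΨ
  set J : Eˣ →* (Tk κ)ˣ := Units.map (jE : E →* Tk κ) with hJ
  set A : (Tk κ ≃ₐ[Hk ℓ κ] Tk κ) → (Tk κ)ˣ := fun g =>
    A₀ g ^ n * (Ψ (m (r g)) ^ n)⁻¹ * (J (β (r g)))⁻¹ with hAdef
  have hAc : IsCts A := (hA₀c.comp₂ (hmc.comp_r jE r hr) fun u w => u ^ n * (Ψ w ^ n)⁻¹).comp₂
    (hβc.comp_r jE r hr) fun u w => u * (J w)⁻¹
  have hA : ∀ g h, algebraMap (Hk ℓ κ) (Tk κ) (uH ^ n) ^ ep ℓ (fun g => χ (r g)) g h * A (g * h) =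
      g (A h) * A g := by
    intro g h
    set γ : (Tk κ)ˣ →* (Tk κ)ˣ := Units.map ((g : Tk κ →ₐ[Hk ℓ κ] Tk κ) : Tk κ →* Tk κ) with hγ
    have h1 : Ψ (b (r g) (r h)) * A₀ (g * h) = γ (A₀ h) * A₀ g := Units.ext (hA₀ g h)
    have h2 : Ψ (b (r g) (r h)) * Ψ (m (r (g * h))) =
        Ψ (Fe (ℓ := ℓ) (f.map (algebraMap K E)) e) ^ ep ℓ χ (r g) (r h) *
          J (a₀ (r g) (r h)) * (γ (Ψ (m (r h))) * Ψ (m (r g))) := by
      have e1 := congrArg Ψ (hm (r g) (r h))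
      have e2 : Ψ (cstU (a₀ (r g) (r h))) = J (a₀ (r g) (r h)) := Units.ext (hψc _)
      have e3 : Ψ (symU (gs f (r g)) (m (r h))) = γ (Ψ (m (r h))) := Units.ext (hsym g _)
      rw [map_mul, map_mul, map_mul, map_mul, map_pow, e2, e3, ← map_mul r] at e1
      exact e1
    have h3 : J (a₀ (r g) (r h)) ^ n * J (β (r (g * h))) = γ (J (β (r h))) * J (β (r g)) := by
      have e1 := congrArg jE (hβ (r g) (r h))
      apply Units.ext
      rw [map_mul, map_mul, hr, Units.val_pow_eq_pow_val, map_pow, ← map_mul r] at e1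
      rw [Units.val_mul, Units.val_pow_eq_pow_val, Units.val_mul]
      exact e1
    have key := mul_aux (n := n) h1 h2 h3
    have e4 : γ (A h) * A g = (γ (A₀ h) ^ n * (γ (Ψ (m (r h))) ^ n)⁻¹ * (γ (J (β (r h))))⁻¹) *
        (A₀ g ^ n * (Ψ (m (r g)) ^ n)⁻¹ * (J (β (r g)))⁻¹) := by
      rw [hAdef, map_mul, map_mul, map_inv, map_inv, map_pow, map_pow]
    have e5 : ((Ψ (Fe (ℓ := ℓ) (f.map (algebraMap K E)) e) ^ ep ℓ χ (r g) (r h)) ^ n * A (g * h) :
        (Tk κ)ˣ) = γ (A h) * A g := by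
      rw [e4, ← key]
    have e6 := congrArg Units.val e5
    rw [Units.val_mul, Units.val_mul, Units.val_pow_eq_pow_val, Units.val_pow_eq_pow_val] at e6
    rw [map_pow, ← hFe, ← pow_mul, mul_comm n, pow_mul]
    exact e6
  obtain ⟨c₀, hc₀⟩ := IsAlgClosed.exists_pow_nat_eq ((-1 : F) ^ (ℓ - 1)) hℓ.pos
  obtain ⟨m', w, hm', hw⟩ := lc_pow hζκ hℓκ (c := algebraMap F κ c₀)
    (by rw [← map_pow, hc₀, map_pow, map_neg, map_one]) hχ' (uH ^ n) (pow_ne_zero _ huH0) A hAc hA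
  -- the leading coefficient
  have hx0 : ∀ t : F, x - algebraMap F κ t ≠ 0 := by
    intro t h0
    have h3 := hF.inj (X - C t) (by rw [map_sub, aeval_X, aeval_C, h0])
    exact X_sub_C_ne_zero _ h3
  set G : F → ℤ := fun t => ∑ k ∈ Finset.univ.filter (fun k => (a k).eval s = t),
    ((W k : ℤ) * e (algebraMap K E (algebraMap F[X] K (a k)))) with hG'
  have hlc : lcH uH = ∏ t ∈ R, (x - algebraMap F κ t) ^ G t := by
    have h1 : lcHom ℓ κ uH = ∏ k, (x - algebraMap F κ ((a k).eval s)) ^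
        ((W k : ℤ) * e (algebraMap K E (algebraMap F[X] K (a k)))) := by
      rw [huH, map_prod]
      refine Finset.prod_congr rfl fun k _ => ?_
      rw [map_zpow₀]
      exact congrArg (· ^ _) (lcH_sub hi hF.inj (a k))
    have h2 : lcH uH = lcHom ℓ κ uH := rfl
    rw [h2, h1, ← Finset.prod_fiberwise_of_maps_to (g := fun k => (a k).eval s) (t := R)
      (fun k _ => Finset.mem_image_of_mem _ (Finset.mem_univ k))]
    refine Finset.prod_congr rfl fun t _ => ?_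
    rw [hG', ← prod_zpow_sum _ (hx0 t)]
    refine Finset.prod_congr rfl fun k hk => ?_
    rw [(Finset.mem_filter.mp hk).2]
  rw [← hg] at hF
  obtain ⟨c, hc⟩ := kummer_fib hℓ H.zeta R V hF G (n * m') (hn.mul_left hm') w (by
    rw [← hw, ← hlc, pow_mul]
    have h1 : lcH (uH ^ n) = lcH uH ^ n := map_pow (lcHom ℓ κ) uH n
    rw [h1])
  refine ⟨c, fun t => ?_⟩
  by_cases ht : t ∈ R
  · have h1 : ∑ k ∈ Finset.univ.filter (fun k => (a k).eval s = t),
        (W k : ℤ) * (e (algebraMap K E (algebraMap F[X] K (a k))) - c) = G t - c * V t := by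
      rw [hG', hV]
      push_cast
      rw [Finset.mul_sum, ← Finset.sum_sub_distrib]
      refine Finset.sum_congr rfl fun k _ => ?_
      ring
    rw [h1]
    exact hc t ht
  · have h1 : Finset.univ.filter (fun k => (a k).eval s = t) = ∅ := by
      refine Finset.filter_eq_empty_iff.mpr fun k _ hk => ht ?_
      rw [← hk]
      exact Finset.mem_image_of_mem _ (Finset.mem_univ k)
    rw [h1, Finset.sum_empty]
    exact dvd_zero _

/-- The main step. -/
theorem base_case (H : AHyp ℓ W a ζ) (hL : LocF F K s v)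
    (hemb : ∀ (κ : Type) [Field κ] [Algebra F κ], ∃ i : K →+* Hk ℓ κ, IsEmb ℓ s i)
    (hf : f = ∏ i, (X - C (algebraMap F[X] K (a i))) ^ W i)
    (hinj : Function.Injective fun i => algebraMap F[X] K (a i))
    {b : (E ≃ₐ[K] E) → (E ≃ₐ[K] E) → (FunField ℓ (f.map (algebraMap K E)))ˣ}
    {C : (E ≃ₐ[K] E) → (Pt ℓ (f.map (algebraMap K E)) →₀ ℤ)} (hb : ICoc b) (hC : IDiv b C)
    (hu : LUnr F s b)
    (hlc : ∃ (P : Pt ℓ (f.map (algebraMap K E))) (hP : P.y = 0) (n : ℕ), n.Coprime ℓ ∧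
      IsCoboundary fun g h => lr P hP (b g h) ^ n)
    (hz : (algebraMap F E ζ) ^ ℓ = 1) (Q' : Jac ℓ (f.map (algebraMap K E)))
    (hQ' : ∀ g, cl (C g) - zJ (algebraMap F E ζ) hz (cl (C g)) = symJ (gs f g) Q' - Q') :
    ∃ Q : Jac ℓ (f.map (algebraMap K E)), ∀ g, cl (C g) = symJ (gs f g) Q - Q := by
  have hℓ := H.prime
  have hEc : IsAlgClosed E := IsAlgClosure.isAlgClosed K
  obtain ⟨ϖ, hϖ⟩ := IsAlgClosed.exists_pow_nat_eq
    (algebraMap K E (algebraMap F[X] K X) - algebraMap F E s) hℓ.pos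
  have hϖ0 : ϖ ≠ 0 := by
    rintro rfl
    rw [zero_pow hℓ.ne_zero] at hϖ
    exact hL.ctx.ne (sub_eq_zero.mp hϖ.symm)
  have hzK : IsPrimitiveRoot (algebraMap F[X] K (Polynomial.C ζ)) ℓ :=
    H.zeta.map_of_injective (f := (algebraMap F[X] K).comp Polynomial.C) (RingHom.injective _)
  have hϖK : ϖ ^ ℓ = algebraMap K E (algebraMap F[X] K (X - Polynomial.C s)) := by
    rw [hϖ, hL.compat, map_sub, map_sub]
  obtain ⟨χ, hχ⟩ := exists_isChi hℓ hzK hϖ0 ⟨_, hϖK⟩
  have hσ := exists_chi_one hL H.ne H.zeta hχ hϖ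
  have hroot : ∀ θ, (f.map (algebraMap K E)).eval θ = 0 → ∀ g : E ≃ₐ[K] E, g θ = θ := by
    intro θ hθ g
    obtain ⟨i, rfl⟩ := root_fixed hf θ hθ
    exact g.commutes _
  have hz' : (algebraMap K E (algebraMap F[X] K (Polynomial.C ζ))) ^ ℓ = 1 := by
    rw [← hL.compat]
    exact hz
  obtain ⟨e, Q, m, a₀, hmc, -, hcl, hm⟩ := stepB hχ hσ
    (fun A _ c => hom_chi hL H.ne H.zeta hχ hϖ c) hroot hb hC hz' Q' (by
      intro g
      rw [G04_zJ_congr (hL.compat ζ).symm hz' hz]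
      exact hQ' g)
  obtain ⟨P, hP, hlc'⟩ := hlc
  have ha₀' := stepC (χ := χ) hroot (fun u hu => fixed_cob hL H.ne H.zeta hχ hϖ u hu) P hP hlc'
    hmc hm
  obtain ⟨c, hc⟩ := exists_cond H hL hemb hχ hϖ hf hinj hu hmc hm ha₀'
  obtain ⟨Q₂, hQ₂⟩ := rm_cob H hL hχ hϖ (hL.map_eq hf) e c hc
  refine ⟨Q + Q₂, fun g => ?_⟩
  rw [hcl, hQ₂ g, map_add]
  abel

end

end Pool.Agent.Lib.MP_89bcae_ag.Bra

end
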