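import Mathlib
import Pool.Agent.Lib.MP_89bcae_ag.Bk.K037
import Pool.Agent.Lib.MP_89bcae_ag.Bk.K041

namespace Pool.Agent.Lib.MP_89bcae_ag.Sup
end Pool.Agent.Lib.MP_89bcae_ag.Sup
namespace Pool.Agent.Lib.MP_89bcae_ag.Wt
end Pool.Agent.Lib.MP_89bcae_ag.Wt
namespace Pool.Agent.Lib.MP_89bcae_ag.Wt.Lns
end Pool.Agent.Lib.MP_89bcae_ag.Wt.Lns

section

/-!
# The rotation
-/

open Polynomial IsDedekindDomain IsLocalRing

open scoped Classical

namespace Pool.Agent.Lib.MP_89bcae_ag.Bra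

open Pool.Agent.Lib.MP_89bcae_ag.Wt Pool.Agent.Lib.MP_89bcae_ag.Wt.Lns

section

variable {L Ω : Type} [Field L] [Field Ω] [Algebra L Ω] {ℓ : ℕ} {f : L[X]}
  [hG : IsGood ℓ (f.map (algebraMap L Ω))]
  {b b' : (Ω ≃ₐ[L] Ω) → (Ω ≃ₐ[L] Ω) → (FunField ℓ (f.map (algebraMap L Ω)))ˣ}
  {C : (Ω ≃ₐ[L] Ω) → (Pt ℓ (f.map (algebraMap L Ω)) →₀ ℤ)}

lemma IUnr.mul {F : Type} [Field F] [Algebra F[X] L] (h : IUnr F b) (h' : IUnr F b') :
    IUnr F fun g h => b g h * b' g h := by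
  intro O H T _ _ _ _ _ _ _ _ _ _ ψ h1 h2 h3
  obtain ⟨a, ha, hab⟩ := h O H T ψ h1 h2 h3
  obtain ⟨a', ha', hab'⟩ := h' O H T ψ h1 h2 h3
  refine ⟨fun g => a g * a' g, ha.comp₂ ha' (fun u v => u * v), ?_⟩
  intro g j g' j' h4 h5
  show ψ ((b g' j' * b' g' j' : (FunField ℓ (f.map (algebraMap L Ω)))ˣ) :
      FunField ℓ (f.map (algebraMap L Ω))) * ((a (g * j) * a' (g * j) : Tˣ) : T) =
    g ((a j * a' j : Tˣ) : T) * ((a g * a' g : Tˣ) : T)
  rw [Units.val_mul, Units.val_mul, Units.val_mul, Units.val_mul, map_mul, map_mul,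
    mul_mul_mul_comm, hab g j g' j' h4 h5, hab' g j g' j' h4 h5, mul_mul_mul_comm]

lemma IUnr.inv {F : Type} [Field F] [Algebra F[X] L] (h : IUnr F b) :
    IUnr F fun g h => (b g h)⁻¹ := by
  intro O H T _ _ _ _ _ _ _ _ _ _ ψ h1 h2 h3
  obtain ⟨a, ha, hab⟩ := h O H T ψ h1 h2 h3
  refine ⟨fun g => (a g)⁻¹, ha.comp (fun u => u⁻¹), ?_⟩
  intro g j g' j' h4 h5
  show ψ (((b g' j')⁻¹ : (FunField ℓ (f.map (algebraMap L Ω)))ˣ) :
      FunField ℓ (f.map (algebraMap L Ω))) * (((a (g * j))⁻¹ : Tˣ) : T) =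
    g (((a j)⁻¹ : Tˣ) : T) * (((a g)⁻¹ : Tˣ) : T)
  rw [Units.val_inv_eq_inv_val, Units.val_inv_eq_inv_val, Units.val_inv_eq_inv_val,
    Units.val_inv_eq_inv_val, map_inv₀, map_inv₀, ← mul_inv, ← mul_inv, hab g j g' j' h4 h5]

/-- The rotation and the action of `Aut(Ω/L)`, `ζ` in `L` (`symU_rotU`). -/
lemma ICoc.rot (h : ICoc b) {ζ : L} (hz : (algebraMap L Ω ζ) ^ ℓ = 1) (h0 : algebraMap L Ω ζ ≠ 0) :
    ICoc fun g g' => (rotU (algebraMap L Ω ζ) hz h0).symm (b g g') := by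
  refine ⟨?_, opsa_comp h.continuous (fun u => (rotU (algebraMap L Ω ζ) hz h0).symm u)⟩
  intro g j k
  show (rotU (algebraMap L Ω ζ) hz h0).symm (b g j) *
      (rotU (algebraMap L Ω ζ) hz h0).symm (b (g * j) k) =
    symU (gs f g) ((rotU (algebraMap L Ω ζ) hz h0).symm (b j k)) *
      (rotU (algebraMap L Ω ζ) hz h0).symm (b g (j * k))
  have hσ : ((gs f g : Sym (f.map (algebraMap L Ω))) : Ω ≃+* Ω) (algebraMap L Ω ζ) =
      algebraMap L Ω ζ := g.commutes ζ
  have h1 : symU (gs f g) ((rotU (algebraMap L Ω ζ) hz h0).symm (b j k)) =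
      (rotU (algebraMap L Ω ζ) hz h0).symm (symU (gs f g) (b j k)) := by
    rw [MulEquiv.eq_symm_apply, ← symU_rotU (gs f g) (algebraMap L Ω ζ) hz h0 hσ,
      MulEquiv.apply_symm_apply]
  rw [h1, ← map_mul, ← map_mul, h.cocycle]

private lemma vj_autF_rotE {A : Type} [Field A] {N : ℕ} {p : A[X]} [IsGood N p] (ζ : A)
    (hζ : ζ ^ N = 1) (h0 : ζ ≠ 0) (a : FunField N p) :
    autF (rotE ζ hζ h0) a = rotF ζ hζ a := by
  obtain ⟨x, y, _, hab⟩ := IsFractionRing.div_surjective (A := NRing N p) a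
  rw [← hab, map_div₀, map_div₀, autF_algebraMap, autF_algebraMap]
  rfl

private lemma vj_funMap_rotF {A B : Type} [Field A] [Field B] {N : ℕ} {p : A[X]} {q : B[X]}
    (σ : A →+* B) (h : p.map σ = q) (ζ : A) (hζ : ζ ^ N = 1)
    (hζ' : (σ ζ) ^ N = 1) (a : FunField N p) :
    funMap N σ h (rotF ζ hζ a) = rotF (σ ζ) hζ' (funMap N σ h a) := by
  have h1 : (funMap N σ h : FunField N p →+* FunField N q).comp (rotF ζ hζ) =
      (rotF (σ ζ) hζ').comp (funMap N σ h) := by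
    refine funField_hom_ext (fun p => ?_) ?_
    · rw [RingHom.comp_apply, RingHom.comp_apply, rotF_polyF, funMap_polyF, rotF_polyF]
    · rw [RingHom.comp_apply, RingHom.comp_apply, rotF_yF, map_mul, funMap_polyF, funMap_yF,
        rotF_yF, Polynomial.map_C]
  exact RingHom.congr_fun h1 a

private lemma vj_symm {ζ : L} (hz : (algebraMap L Ω ζ) ^ ℓ = 1) (h0 : algebraMap L Ω ζ ≠ 0)
    (hz' : (algebraMap L Ω ζ⁻¹) ^ ℓ = 1) (u : (FunField ℓ (f.map (algebraMap L Ω)))ˣ) :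
    (((rotU (algebraMap L Ω ζ) hz h0).symm u : (FunField ℓ (f.map (algebraMap L Ω)))ˣ) :
      FunField ℓ (f.map (algebraMap L Ω))) = rotF (algebraMap L Ω ζ⁻¹) hz' u := by
  obtain ⟨v, rfl⟩ := (rotU (algebraMap L Ω ζ) hz h0).surjective u
  rw [MulEquiv.symm_apply_apply]
  have h1 : ((rotU (algebraMap L Ω ζ) hz h0 v : (FunField ℓ (f.map (algebraMap L Ω)))ˣ) :
      FunField ℓ (f.map (algebraMap L Ω))) = autF (rotE (algebraMap L Ω ζ) hz h0)
        (v : FunField ℓ (f.map (algebraMap L Ω))) := rfl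
  have h2 : algebraMap L Ω ζ⁻¹ * algebraMap L Ω ζ = 1 := by
    rw [map_inv₀, inv_mul_cancel₀ h0]
  rw [h1, vj_autF_rotE]
  exact (RingHom.congr_fun (R07_rotF_comp (algebraMap L Ω ζ⁻¹) (algebraMap L Ω ζ) hz' hz h2)
    (v : FunField ℓ (f.map (algebraMap L Ω)))).symm

/-- Apply `IUnr` to `ψ.comp (rotF ζ⁻¹)`; `rotF ζ⁻¹ (toO r) = toO (rotF ζ⁻¹ r)`, and for the third condition
`toO r = rotF ζ⁻¹ (toO (rotF ζ r))`. -/
lemma IUnr.rot {F : Type} [Field F] [Algebra F[X] L] (h : IUnr F b) {ζ : L}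
    (hz : (algebraMap L Ω ζ) ^ ℓ = 1) (h0 : algebraMap L Ω ζ ≠ 0) :
    IUnr F fun g g' => (rotU (algebraMap L Ω ζ) hz h0).symm (b g g') := by
  have hz0 : ζ ^ ℓ = 1 := by
    apply (algebraMap L Ω).injective
    rw [map_pow, hz, map_one]
  have hζ0 : ζ ≠ 0 := fun h => h0 (by rw [h, map_zero])
  have hz1 : (ζ⁻¹) ^ ℓ = 1 := by rw [inv_pow, hz0, inv_one]
  have hz' : (algebraMap L Ω ζ⁻¹) ^ ℓ = 1 := by rw [← map_pow, hz1, map_one]
  have key : ∀ r : FunField ℓ f, rotF (algebraMap L Ω ζ⁻¹) hz' (toO ℓ f Ω r) =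
      toO ℓ f Ω (rotF ζ⁻¹ hz1 r) := fun r =>
    (vj_funMap_rotF (algebraMap L Ω) rfl ζ⁻¹ hz1 hz' r).symm
  have key2 : ∀ z : Ω, rotF (algebraMap L Ω ζ⁻¹) hz' (cO ℓ f Ω z) = cO ℓ f Ω z := fun z =>
    rotF_polyF _ _ _
  intro O H T _ _ _ _ _ _ _ _ _ _ ψ h1 h2 h3
  obtain ⟨a, ha, hab⟩ := h O H T (ψ.comp (rotF (algebraMap L Ω ζ⁻¹) hz'))
    (fun r => by
      rw [RingHom.comp_apply, key]
      exact h1 _)
    (fun c => by
      rw [RingHom.comp_apply, key2]
      exact h2 c)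
    (by
      obtain ⟨r, hr⟩ := h3
      refine ⟨rotF ζ hz0 r, ?_⟩
      rw [RingHom.comp_apply, key]
      have h4 : rotF ζ⁻¹ hz1 (rotF ζ hz0 r) = r :=
        RingHom.congr_fun (R07_rotF_comp ζ⁻¹ ζ hz1 hz0 (inv_mul_cancel₀ hζ0)) r
      rw [h4]
      exact hr)
  refine ⟨a, ha, ?_⟩
  intro g j g' j' h4 h5
  have h6 := hab g j g' j'
    (fun z => by
      rw [RingHom.comp_apply, RingHom.comp_apply, key2, key2]
      exact h4 z)
    (fun z => by
      rw [RingHom.comp_apply, RingHom.comp_apply, key2, key2]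
      exact h5 z)
  rw [RingHom.comp_apply, ← vj_symm hz h0 hz'] at h6
  exact h6

/-- `div_rotU_symm`. -/
lemma IDiv.rot (h : IDiv b C) {ζ : L} (hz : (algebraMap L Ω ζ) ^ ℓ = 1)
    (h0 : algebraMap L Ω ζ ≠ 0) :
    IDiv (fun g g' => (rotU (algebraMap L Ω ζ) hz h0).symm (b g g'))
      fun g => (C g).mapDomain (Pt.rot (algebraMap L Ω ζ) hz) := by
  refine ⟨h.continuous.comp (fun D => D.mapDomain (Pt.rot (algebraMap L Ω ζ) hz)), ?_⟩
  intro g j
  show Wt.div ((rotU (algebraMap L Ω ζ) hz h0).symm (b g j)) +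
      (C (g * j)).mapDomain (Pt.rot (algebraMap L Ω ζ) hz) =
    ((C j).mapDomain (Pt.rot (algebraMap L Ω ζ) hz)).mapDomain (Pt.sym (gs f g)) +
      (C g).mapDomain (Pt.rot (algebraMap L Ω ζ) hz)
  have hσ : ((gs f g : Sym (f.map (algebraMap L Ω))) : Ω ≃+* Ω) (algebraMap L Ω ζ) =
      algebraMap L Ω ζ := g.commutes ζ
  have h1 : ((C j).mapDomain (Pt.rot (algebraMap L Ω ζ) hz)).mapDomain (Pt.sym (gs f g)) =
      ((C j).mapDomain (Pt.sym (gs f g))).mapDomain (Pt.rot (algebraMap L Ω ζ) hz) := by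
    rw [← Finsupp.mapDomain_comp, ← Finsupp.mapDomain_comp]
    congr 1
    funext P
    apply Pt.ext
    · rfl
    · show ((gs f g : Sym (f.map (algebraMap L Ω))) : Ω ≃+* Ω) (algebraMap L Ω ζ * P.y) =
        algebraMap L Ω ζ * ((gs f g : Sym (f.map (algebraMap L Ω))) : Ω ≃+* Ω) P.y
      rw [map_mul, hσ]
  rw [Wt.div_rotU_symm, h1, ← Finsupp.mapDomain_add, h.div, Finsupp.mapDomain_add]

end

section

variable {L Ω K E : Type} [Field L] [Field Ω] [Algebra L Ω] [Field K] [Algebra L K] [Field E]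
  [Algebra K E] [Algebra L E] [IsScalarTower L K E] {ℓ : ℕ} {f : L[X]}
  (j : Ω →ₐ[L] E) (ρ : (E ≃ₐ[K] E) →* (Ω ≃ₐ[L] Ω)) [hG : IsGood ℓ (f.map (algebraMap L Ω))]
  [hG' : IsGood ℓ ((f.map (algebraMap L K)).map (algebraMap K E))]
  {C : (Ω ≃ₐ[L] Ω) → (Pt ℓ (f.map (algebraMap L Ω)) →₀ ℤ)}

lemma cl_Cv (g : E ≃ₐ[K] E) : (cl (Cv (K := K) j ρ C g) :
    Jac ℓ ((f.map (algebraMap L K)).map (algebraMap K E))) =
      jacMap ℓ (j : Ω →+* E) (map_jj f K j) (cl (C (ρ g))) :=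
  (jacMap_cl _ _ _).symm

end

end Pool.Agent.Lib.MP_89bcae_ag.Bra

end

section

/-!
# The fibres `t = s`
-/

open Polynomial IsDedekindDomain IsLocalRing

open scoped Classical

namespace Pool.Agent.Lib.MP_89bcae_ag.Bra

open Pool.Agent.Lib.MP_89bcae_ag.Sup (LocCtx plc exists_locCtx)

open Pool.Agent.Lib.MP_89bcae_ag.Wt Pool.Agent.Lib.MP_89bcae_ag.Wt.Lns

section

variable {L Ω K E : Type} [Field L] [Field Ω] [Algebra L Ω] [Field K] [Algebra L K] [Field E]
  [Algebra K E] [Algebra L E] [IsScalarTower L K E] {ℓ : ℕ} {f : L[X]}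
  (j : Ω →ₐ[L] E) (ρ : (E ≃ₐ[K] E) →* (Ω ≃ₐ[L] Ω)) [hG : IsGood ℓ (f.map (algebraMap L Ω))]
  [hG' : IsGood ℓ ((f.map (algebraMap L K)).map (algebraMap K E))]
  {C : (Ω ≃ₐ[L] Ω) → (Pt ℓ (f.map (algebraMap L Ω)) →₀ ℤ)}

/-- The class of the rotated cochain. -/
lemma cl_Cv_rot {ζ : L} (hz : (algebraMap L Ω ζ) ^ ℓ = 1) (hz' : (algebraMap L E ζ) ^ ℓ = 1)
    (g : E ≃ₐ[K] E) :
    (cl (Cv (K := K) j ρ (fun g => C g + -((C g).mapDomain (Pt.rot (algebraMap L Ω ζ) hz))) g) :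
      Jac ℓ ((f.map (algebraMap L K)).map (algebraMap K E))) =
    cl (Cv (K := K) j ρ C g) - zJ (algebraMap L E ζ) hz' (cl (Cv (K := K) j ρ C g)) := by
  have hj : (j : Ω →+* E) (algebraMap L Ω ζ) = algebraMap L E ζ := j.commutes ζ
  have hz'' : ((j : Ω →+* E) (algebraMap L Ω ζ)) ^ ℓ = 1 := by rw [hj]; exact hz'
  rw [cl_Cv, cl_Cv, map_add, map_neg, ← zJ_cl, map_add, map_neg,
    ← G04_zJ_congr hj hz'' hz', zJ_jacMap _ _ _ hz hz'']
  exact (sub_eq_add_neg _ _).symm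

end

/-- The curve over the local field. -/
lemma curveL_map {F L K : Type} [Field F] [Field L] [Algebra F[X] L] [Field K] [Algebra L K]
    [Algebra F[X] K] [IsScalarTower F[X] L K] {ι : Type} [Fintype ι] (W : ι → ℕ) (a : ι → F[X]) :
    (curveL F F L (arr W a)).map (algebraMap L K) =
      ∏ i, (X - C (algebraMap F[X] K (a i))) ^ W i := by
  unfold curveL arr
  rw [Polynomial.map_prod, Polynomial.map_prod]
  refine Finset.prod_congr rfl fun i _ => ?_
  rw [Polynomial.map_pow, Polynomial.map_pow, Polynomial.map_sub, Polynomial.map_sub, map_X, map_X,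
    map_C, map_C, IsScalarTower.algebraMap_apply F[X] L K]
  congr 3
  show algebraMap L K (algebraMap F[X] L ((a i).map (algebraMap F F))) = _
  rw [Algebra.algebraMap_self, Polynomial.map_id]

/-- If `b` is split over the completion at the fibre `t = s`, with `div b = d C`, then the class of
`cl C` is trivial over the completion of `L` at `t = s`. -/
theorem vertical {F L Ω : Type} [Field F] [IsAlgClosed F] [Field L] [Algebra F[X] L]
    [IsFractionRing F[X] L] [Field Ω] [Algebra L Ω] [IsAlgClosure L Ω] {ι : Type} [Fintype ι]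
    [LinearOrder ι] {ℓ : ℕ} {W : ι → ℕ} {a : ι → F[X]} {ζ : F} (H : AHyp ℓ W a ζ)
    [hG : IsGood ℓ ((curveL F F L (arr W a)).map (algebraMap L Ω))]
    (hBr : BrTriv ℓ L Ω)
    (b : (Ω ≃ₐ[L] Ω) → (Ω ≃ₐ[L] Ω) →
      (FunField ℓ ((curveL F F L (arr W a)).map (algebraMap L Ω)))ˣ) (hb : ICoc b)
    (hu : IUnr F b) (C : (Ω ≃ₐ[L] Ω) → (Pt ℓ ((curveL F F L (arr W a)).map (algebraMap L Ω)) →₀ ℤ))
    (hC : IDiv b C) (hn : ∃ n : ℕ, ∀ g, ℓ ^ n • (cl (C g) :
      Jac ℓ ((curveL F F L (arr W a)).map (algebraMap L Ω))) = 0)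
    (v : HeightOneSpectrum F[X]) :
    Wt.IsLocallyTrivial ℓ (curveL F F L (arr W a)) (fun g => cl (C g)) (v.adicCompletion L) := by
  obtain ⟨s, rfl⟩ := exists_eq_plc v
  intro E _ _ _ _ _ j
  have hNZ : NeZero ℓ := ⟨H.prime.ne_zero⟩
  let _ : Algebra F E := ((algebraMap ((plc s).adicCompletion L) E).comp
    ((algebraMap F[X] ((plc s).adicCompletion L)).comp Polynomial.C)).toAlgebra
  obtain ⟨v, hv, hval, hinv, -⟩ := exists_locCtx (L := L) (M := E) s (fun _ => rfl)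
  have hL : LocF F ((plc s).adicCompletion L) s v := ⟨fun _ => rfl, hv, hval, hinv⟩
  have hEc : IsAlgClosed E := IsAlgClosure.isAlgClosed ((plc s).adicCompletion L)
  have hf : (curveL F F L (arr W a)).map (algebraMap L ((plc s).adicCompletion L)) =
      ∏ i, (X - Polynomial.C (algebraMap F[X] ((plc s).adicCompletion L) (a i))) ^ W i :=
    curveL_map W a
  have hmap : ((curveL F F L (arr W a)).map (algebraMap L ((plc s).adicCompletion L))).map
      (algebraMap ((plc s).adicCompletion L) E) =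
        (curveL F F L (arr W a)).map (algebraMap L E) := by
    rw [Polynomial.map_map, ← IsScalarTower.algebraMap_eq]
  have hGE : IsGood ℓ (((curveL F F L (arr W a)).map
      (algebraMap L ((plc s).adicCompletion L))).map (algebraMap ((plc s).adicCompletion L) E)) := by
    rw [hmap]
    exact isGood_arr H E
  have hGE' : IsGood ℓ ((curveL F F L (arr W a)).map (algebraMap L E)) := isGood_arr H E
  have hinj : Function.Injective fun i => algebraMap F[X] ((plc s).adicCompletion L) (a i) := by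
    intro i j h
    have h1 : Function.Injective (algebraMap F[X] ((plc s).adicCompletion L)) := by
      rw [IsScalarTower.algebraMap_eq F[X] L ((plc s).adicCompletion L)]
      exact (algebraMap L _).injective.comp (IsFractionRing.injective F[X] L)
    by_contra hne
    apply H.geom.pos i j hne
    rw [h1 h, sub_self, natDegree_zero]
  obtain ⟨ρ, hρ⟩ := exists_rho (K := (plc s).adicCompletion L) j
  -- the root of unity
  set ζL : L := algebraMap F[X] L (Polynomial.C ζ) with hζL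
  have hzL : IsPrimitiveRoot ζL ℓ :=
    H.zeta.map_of_injective (f := (algebraMap F[X] L).comp Polynomial.C) (RingHom.injective _)
  have hzΩ : IsPrimitiveRoot (algebraMap L Ω ζL) ℓ :=
    hzL.map_of_injective (algebraMap L Ω).injective
  have hzE : IsPrimitiveRoot (algebraMap L E ζL) ℓ :=
    hzL.map_of_injective (algebraMap L E).injective
  have hzF : algebraMap F E ζ = algebraMap L E ζL := by
    rw [hL.compat, IsScalarTower.algebraMap_apply F[X] L ((plc s).adicCompletion L),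
      ← IsScalarTower.algebraMap_apply L ((plc s).adicCompletion L) E]
  have h0 : algebraMap L Ω ζL ≠ 0 := hzΩ.ne_zero H.prime.ne_zero
  have hfL : curveL F F L (arr W a) =
      ∏ i, (X - Polynomial.C (algebraMap F[X] L (a i))) ^ W i := by
    have h1 := curveL_map (F := F) (L := L) (K := L) W a
    rwa [Algebra.algebraMap_self, Polynomial.map_id] at h1
  -- the induction
  have key : ∀ (n : ℕ) (b : (Ω ≃ₐ[L] Ω) → (Ω ≃ₐ[L] Ω) →
      (FunField ℓ ((curveL F F L (arr W a)).map (algebraMap L Ω)))ˣ)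
      (C : (Ω ≃ₐ[L] Ω) → (Pt ℓ ((curveL F F L (arr W a)).map (algebraMap L Ω)) →₀ ℤ)),
      ICoc b → IUnr F b → IDiv b C →
      (∃ Q : Jac ℓ (((curveL F F L (arr W a)).map (algebraMap L ((plc s).adicCompletion L))).map
        (algebraMap ((plc s).adicCompletion L) E)), ∀ g : E ≃ₐ[(plc s).adicCompletion L] E,
        (fun x => x - zJ (algebraMap L E ζL) hzE.pow_eq_one x)^[n] (cl (Cv j ρ C g)) =
          symJ (gs _ g) Q - Q) →
      ∃ Q : Jac ℓ (((curveL F F L (arr W a)).map (algebraMap L ((plc s).adicCompletion L))).map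
        (algebraMap ((plc s).adicCompletion L) E)), ∀ g : E ≃ₐ[(plc s).adicCompletion L] E,
        cl (Cv j ρ C g) = symJ (gs _ g) Q - Q := by
    intro n
    induction n with
    | zero => exact fun b C _ _ _ h => h
    | succ n ih =>
      intro b C hb hu hC ⟨Q, hQ⟩
      obtain ⟨Q', hQ'⟩ := ih _ _ (hb.mul (hb.rot hzΩ.pow_eq_one h0).inv)
        (hu.mul (hu.rot hzΩ.pow_eq_one h0).inv) (hC.mul (hC.rot hzΩ.pow_eq_one h0).inv)
        ⟨Q, fun g => by
          rw [← hQ g, Function.iterate_succ_apply]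
          congr 1
          exact cl_Cv_rot j ρ hzΩ.pow_eq_one hzE.pow_eq_one g⟩
      refine base_case H hL (fun κ _ _ => exists_isEmb ℓ s) hf hinj (hb.bv j ρ hρ) (hC.bv j ρ hρ)
        (lunr_of_iunr j ρ hρ s hu) ?_ (by rw [hzF]; exact hzE.pow_eq_one) Q' ?_
      · refine exists_lr_bv j ρ hρ hBr hb fun θ hθ g => ?_
        obtain ⟨i, rfl⟩ := root_fixed (K := L) (E := Ω) (f := curveL F F L (arr W a)) (a := a)
          (W := W) hfL θ hθ
        exact g.commutes _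
      · intro g
        have h1 := cl_Cv_rot (C := C) j ρ hzΩ.pow_eq_one hzE.pow_eq_one g
        rw [G04_zJ_congr hzF (by rw [hzF]; exact hzE.pow_eq_one) hzE.pow_eq_one, ← h1]
        exact hQ' g
  obtain ⟨n, hn⟩ := hn
  obtain ⟨Q, hQ⟩ := key ((ℓ - 1) * n) b C hb hu hC ⟨0, fun g => by
    rw [map_zero, sub_zero]
    refine iterate_eq_zero_of_smul H.prime _ hzE n _ ?_
    rw [cl_Cv, ← map_nsmul, hn, map_zero]⟩
  -- back to `f.map (algebraMap L E)`
  have hid : (((curveL F F L (arr W a)).map (algebraMap L ((plc s).adicCompletion L))).map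
      (algebraMap ((plc s).adicCompletion L) E)).map (RingHom.id E) =
        (curveL F F L (arr W a)).map (algebraMap L E) := by
    rw [Polynomial.map_id, hmap]
  refine ⟨jacMap ℓ (RingHom.id E) hid Q, fun g g' hg => ?_⟩
  have hgg : g' = ρ g := by
    ext z
    apply (j : Ω →+* E).injective
    show j (g' z) = j (ρ g z)
    rw [hg, hρ]
  subst hgg
  have h1 := congrArg (jacMap ℓ (RingHom.id E) hid) (hQ g)
  rw [map_sub, cl_Cv, jacMap_jacMap ℓ _ _ _ _ (by rw [RingHom.id_comp, ← hmap]; exact map_jj _ _ j)]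
    at h1
  have h2 : jacMap ℓ (RingHom.id E) hid (symJ (gs _ g) Q) =
      push ℓ (curveL F F L (arr W a)) (g.restrictScalars L : E →ₐ[L] E)
        (jacMap ℓ (RingHom.id E) hid Q) := by
    unfold push symJ
    rw [jacMap_jacMap ℓ _ _ _ _ (by
        rw [RingHom.id_comp, ← hid, Polynomial.map_id]
        exact (gs _ g).2),
      jacMap_jacMap ℓ _ _ _ _ (by
        rw [RingHom.comp_id, ← hid, Polynomial.map_id]
        exact (gs _ g).2)]
    apply G13_jacMap_congr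
    ext z
    rfl
  rw [h2] at h1
  rw [← h1]
  unfold push
  apply G13_jacMap_congr
  ext z
  rfl

end Pool.Agent.Lib.MP_89bcae_ag.Bra

end
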