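import Mathlib
import Pool.Agent.Lib.MP_89bcae_ag.Bk.K040
import Pool.Agent.Lib.MP_89bcae_ag.Bk.K042

namespace Pool.Agent.Lib.MP_89bcae_ag.Wt
end Pool.Agent.Lib.MP_89bcae_ag.Wt
namespace Pool.Agent.Lib.MP_89bcae_ag.Wt.Lns
end Pool.Agent.Lib.MP_89bcae_ag.Wt.Lns

/-!
# The theorem on the Brauer group of the cyclic coverings branched along graphs
-/

open Polynomial IsDedekindDomain

open scoped Classical

namespace Pool.Agent.Lib.MP_89bcae_ag.Bra

open Pool.Agent.Lib.MP_89bcae_ag.Wt Pool.Agent.Lib.MP_89bcae_ag.Wt.Lns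

lemma curveL_arr {k F L : Type} [Field k] [Field F] [Algebra k F] [Field L] [Algebra F[X] L]
    [IsFractionRing F[X] L] {Ω : Type} [Field Ω] [Algebra L Ω]
    {ι : Type} [Fintype ι] [LinearOrder ι] (W : ι → ℕ) (α : ι → k[X]) :
    curveL F F L (arr W fun i => (α i).map (algebraMap k F)) = weightedPoly k F L W α := by
  rw [← weightedPoly_map45 (K := F)]
  unfold curveL arr weightedPoly
  rw [Polynomial.map_prod]
  refine Finset.prod_congr rfl fun i _ => ?_
  rw [Polynomial.map_pow, Polynomial.map_sub, map_X, map_C]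

theorem brauer_arrangement {ℓ : ℕ} (hℓ : ℓ.Prime) {k F K S : Type} [Field k] [Field F] [Algebra k F]
    [IsAlgClosure k F] [Field K] [Algebra F K] [Field S] [Algebra K S] [IsAlgClosure K S]
    (hk : (ℓ : k) ≠ 0) {ι : Type} [Fintype ι] [LinearOrder ι] (W : ι → ℕ)
    (hW : ∀ i, (W i).Coprime ℓ) (hsum : (∑ i, W i).Coprime ℓ) (α : ι → k[X])
    (hα : Superelliptic.IsArrangement α)
    (hT : ∀ (L Ω : Type) [Field L] [Algebra F[X] L] [IsFractionRing F[X] L] [Field Ω] [Algebra L Ω]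
      [IsAlgClosure L Ω] (k' : IntermediateField k F), FiniteDimensional k k' →
      Wt.TateClassesTorsionW ℓ L Ω W α k')
    {t x y : K} (hK : IsFunctionField ℓ F W α t x y) (k' : IntermediateField k F)
    (hk' : FiniteDimensional k k') : BrauerInvariantsTrivial ℓ S k' t x y := by
  have hFa : IsAlgClosed F := IsAlgClosure.isAlgClosed k
  have hF0 : (ℓ : F) ≠ 0 := by
    rw [← map_natCast (algebraMap k F)]
    exact (_root_.map_ne_zero _).mpr hk
  have : NeZero (ℓ : F) := ⟨hF0⟩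
  have : NeZero ℓ := ⟨hℓ.ne_zero⟩
  obtain ⟨ζ, hζ⟩ : ∃ ζ : F, IsPrimitiveRoot ζ ℓ :=
    HasEnoughRootsOfUnity.exists_primitiveRoot F ℓ
  have hg : Sup.Lns.AGeom α := ⟨hα.separable, hα.natDegree_ne_zero⟩
  have H0 : AHyp ℓ W (fun i => (α i).map (algebraMap k F)) ζ :=
    ⟨hℓ, hF0, hζ, hW, hsum, hg.map (algebraMap k F)⟩
  have hG : IsGood ℓ ((curveL F F (RatFunc F) (arr W fun i => (α i).map (algebraMap k F))).map
      (algebraMap (RatFunc F) (AlgebraicClosure (RatFunc F)))) :=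
    isGood_arr (L := RatFunc F) H0 (AlgebraicClosure (RatFunc F))
  have hK' : IsFunctionField ℓ F W (fun i => (α i).map (algebraMap k F)) t x y := by
    refine ⟨hK.independent, ?_, hK.generate⟩
    rw [hK.equation]
    refine Finset.prod_congr rfl fun i _ => ?_
    rw [Algebra.algebraMap_self, Polynomial.map_id]
  obtain ⟨Φ, hΦ⟩ := exists_model (S := S) (L := RatFunc F) (Ω := AlgebraicClosure (RatFunc F)) hK'
  have hBr : BrTriv ℓ (RatFunc F) (AlgebraicClosure (RatFunc F)) := by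
    intro b hb
    refine tsen (C := F) hℓ ?_ b hb
    rw [← map_natCast (algebraMap F (RatFunc F))]
    exact (_root_.map_ne_zero _).mpr hF0
  refine transfer (k := k) hℓ hΦ hBr (fun b C hb hu hC hn v => vertical H0 hBr b hb hu C hC hn v) ?_
    k' hk'
  intro k'' hk''
  have h1 := hT (RatFunc F) (AlgebraicClosure (RatFunc F)) k'' hk''
  rw [tateClassesTorsionW_iff45] at h1
  rw [curveL_arr (Ω := AlgebraicClosure (RatFunc F))]
  exact h1

end Pool.Agent.Lib.MP_89bcae_ag.Bra
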