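import Mathlib

/-!
# The affine coordinate ring of the generic fibre
-/

open Polynomial

open scoped Classical

namespace Pool.Agent.Lib.MP_89bcae_ag.Bra

section

variable {F K : Type} [Field F] [Field K] [Algebra F K]

/-- The ring `F(t)[x]`. -/
noncomputable abbrev Rx (F : Type) {K : Type} [Field F] [Field K] [Algebra F K] (t x : K) :
    Subalgebra (IntermediateField.adjoin F {t}) K :=
  Algebra.adjoin (IntermediateField.adjoin F {t}) {x}

/-- The integral closure of `F(t)[x]` in `K`. -/
noncomputable abbrev Ax (F : Type) {K : Type} [Field F] [Field K] [Algebra F K] (t x : K) :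
    Subalgebra (Rx F t x) K :=
  integralClosure (Rx F t x) K


lemma isPrincipalIdealRing_Rx {t x : K} : IsPrincipalIdealRing (Rx F t x) := by
  have h1 : Rx F t x = (aeval x : (IntermediateField.adjoin F {t})[X] →ₐ[_] K).range :=
    Algebra.adjoin_singleton_eq_range_aeval _ x
  rw [h1]
  exact IsPrincipalIdealRing.of_surjective
    (aeval x : (IntermediateField.adjoin F {t})[X] →ₐ[_] K).rangeRestrict
    (AlgHom.rangeRestrict_surjective _)

lemma generate_of_mem {t x y : K} (hg : IntermediateField.adjoin F {t, x, y} = ⊤) (M : Subfield K)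
    (hM : ∀ r ∈ Rx F t x, r ∈ M) (hy : y ∈ M) (z : K) : z ∈ M := by
  let M' : IntermediateField F K := { M with
    algebraMap_mem' := fun c => hM _ (by
      exact Subalgebra.algebraMap_mem (Rx F t x)
        (algebraMap F (IntermediateField.adjoin F {t}) c)) }
  have h1 : IntermediateField.adjoin F {t, x, y} ≤ M' := by
    rw [IntermediateField.adjoin_le_iff]
    intro w hw
    rw [Set.mem_insert_iff, Set.mem_insert_iff, Set.mem_singleton_iff] at hw
    rcases hw with rfl | rfl | rfl
    · exact hM _ (Subalgebra.algebraMap_mem (Rx F w x)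
        (⟨w, IntermediateField.mem_adjoin_simple_self F w⟩ : IntermediateField.adjoin F {w}))
    · exact hM _ (Algebra.subset_adjoin rfl)
    · exact hy
  rw [hg] at h1
  exact h1 IntermediateField.mem_top

/-- The integral closure is a Dedekind domain, with field of fractions `K`. -/
theorem isDedekindDomain_Ax {ℓ : ℕ} (hℓ : ℓ ≠ 0) (hF : (ℓ : F) ≠ 0) {t x y : K} (hy0 : y ≠ 0)
    (hy : y ^ ℓ ∈ Rx F t x) (hg : IntermediateField.adjoin F {t, x, y} = ⊤) :
    IsDedekindDomain (Ax F t x) ∧ IsFractionRing (Ax F t x) K := by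
  have hp : IsPrincipalIdealRing (Rx F t x) := isPrincipalIdealRing_Rx
  let K₀ := FractionRing (Rx F t x)
  let _ : Algebra K₀ K := FractionRing.liftAlgebra (Rx F t x) K
  have : IsScalarTower (Rx F t x) K₀ K := FractionRing.isScalarTower_liftAlgebra (Rx F t x) K
  have hint : IsIntegral K₀ y := by
    refine ⟨X ^ ℓ - C (algebraMap (Rx F t x) K₀ ⟨y ^ ℓ, hy⟩), monic_X_pow_sub_C _ hℓ, ?_⟩
    rw [eval₂_sub, eval₂_pow, eval₂_X, eval₂_C, ← IsScalarTower.algebraMap_apply]
    exact sub_self _
  have htop : IntermediateField.adjoin K₀ {y} = ⊤ := by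
    rw [eq_top_iff]
    intro z _
    refine generate_of_mem hg (IntermediateField.adjoin K₀ {y}).toSubfield (fun r hr => ?_)
      (IntermediateField.mem_adjoin_simple_self K₀ y) z
    have h1 := (IntermediateField.adjoin K₀ {y}).algebraMap_mem
      (algebraMap (Rx F t x) K₀ ⟨r, hr⟩)
    rw [← IsScalarTower.algebraMap_apply] at h1
    exact h1
  have hfin : FiniteDimensional K₀ K := by
    have h1 : FiniteDimensional K₀ (IntermediateField.adjoin K₀ {y}) :=
      IntermediateField.adjoin.finiteDimensional hint
    rw [htop] at h1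
    exact Module.Finite.equiv IntermediateField.topEquiv.toLinearEquiv
  have hsepy : IsSeparable K₀ y := by
    have h1 : (X ^ ℓ - C (algebraMap (Rx F t x) K₀ ⟨y ^ ℓ, hy⟩) : K₀[X]).Separable := by
      refine separable_X_pow_sub_C _ ?_ ?_
      · intro h0
        apply hF
        have h2 := congrArg (algebraMap K₀ K) h0
        rw [map_natCast, map_zero] at h2
        have h3 : algebraMap F K (ℓ : F) = 0 := by
          rw [map_natCast]
          exact h2
        exact (_root_.map_eq_zero _).1 h3
      · intro h0
        have h2 := congrArg (algebraMap K₀ K) h0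
        rw [← IsScalarTower.algebraMap_apply, map_zero] at h2
        exact pow_ne_zero ℓ hy0 h2
    refine h1.of_dvd (minpoly.dvd _ _ ?_)
    rw [map_sub, map_pow, aeval_X, aeval_C, ← IsScalarTower.algebraMap_apply]
    exact sub_self _
  have hsep : Algebra.IsSeparable K₀ K := by
    have h1 : Algebra.IsSeparable K₀ (IntermediateField.adjoin K₀ {y}) :=
      (IntermediateField.isSeparable_adjoin_simple_iff_isSeparable K₀ K).2 hsepy
    rw [htop] at h1
    exact Algebra.IsSeparable.of_algHom _ _ (IntermediateField.topEquiv.symm.toAlgHom)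
  exact ⟨integralClosure.isDedekindDomain (Rx F t x) K₀ K,
    integralClosure.isFractionRing_of_finite_extension K₀ K⟩

end

end Pool.Agent.Lib.MP_89bcae_ag.Bra
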