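import Mathlib
import Pool.Agent.Lib.MP_89bcae_ag.Bk.K037

namespace Pool.Agent.Lib.MP_89bcae_ag.Wt
end Pool.Agent.Lib.MP_89bcae_ag.Wt
namespace Pool.Agent.Lib.MP_89bcae_ag.Wt.Lns
end Pool.Agent.Lib.MP_89bcae_ag.Wt.Lns

/-!
# Descent of invariant classes
-/

open Polynomial IsDedekindDomain IsLocalRing

open scoped Classical

namespace Pool.Agent.Lib.MP_89bcae_ag.Bra

open Pool.Agent.Lib.MP_89bcae_ag.Wt Pool.Agent.Lib.MP_89bcae_ag.Wt.Lns

section

variable {K S : Type} [Field K] [Field S] [Algebra K S]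
  {L Ω : Type} [Field L] [Field Ω] [Algebra L Ω] {ℓ : ℕ} {f : L[X]}
  {F : Type} [Field F] [Algebra F K] [Algebra F[X] L]
  [IsAlgClosed F] [IsAlgClosure K S] [IsFractionRing F[X] L] [IsAlgClosure L Ω]
  [hG : IsGood ℓ (f.map (algebraMap L Ω))] {t x y : K}
  {Φ : FunField ℓ (f.map (algebraMap L Ω)) →+* S}

/-- Hilbert 90 for the functions on the curve, up to powers of the characteristic. -/
theorem h90_fun (hΦ : IsModel F t x y Φ)
    (a : (Ω ≃ₐ[L] Ω) → (FunField ℓ (f.map (algebraMap L Ω)))ˣ) (ha : IsCts a)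
    (hc : ∀ g h, a (g * h) = symU (gs f g) (a h) * a g) :
    ∃ (s : ℕ) (w : (FunField ℓ (f.map (algebraMap L Ω)))ˣ),
      ∀ g, a g ^ ringExpChar F ^ s * w = symU (gs f g) w := by
  have h0 : ∀ g h : S ≃ₐ[K] S,
      ((Units.map (Φ : _ →* S) (a (res hΦ (g * h))) : Sˣ) : S) =
        g ((Units.map (Φ : _ →* S) (a (res hΦ h)) : Sˣ) : S) *
          ((Units.map (Φ : _ →* S) (a (res hΦ g)) : Sˣ) : S) := by
    intro g h
    rw [map_mul, hc]
    have h2 := res_symU hΦ g (a (res hΦ h))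
    show Φ ((symU (gs f (res hΦ g)) (a (res hΦ h)) * a (res hΦ g) :
      (FunField ℓ (f.map (algebraMap L Ω)))ˣ) : FunField ℓ (f.map (algebraMap L Ω))) =
      g (Φ (a (res hΦ h) : FunField ℓ (f.map (algebraMap L Ω)))) *
        Φ (a (res hΦ g) : FunField ℓ (f.map (algebraMap L Ω)))
    rw [h2, ← map_mul, Units.val_mul]
  obtain ⟨e, he⟩ := h90 (fun g : S ≃ₐ[K] S => Units.map (Φ : _ →* S) (a (res hΦ g)))
    ((isCts_res hΦ ha).comp _) h0
  have ha1 : a 1 = 1 := by
    have h1 := hc 1 1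
    have h2 : symU (gs f (1 : Ω ≃ₐ[L] Ω)) (a 1) = a 1 := by
      apply Units.ext
      rw [coe_symU]
      have h3 := hom_ext (φ := funMap ℓ ((gs f (1 : Ω ≃ₐ[L] Ω) : Ω ≃+* Ω) : Ω →+* Ω)
        (gs f (1 : Ω ≃ₐ[L] Ω)).2) (ψ := RingHom.id (FunField ℓ (f.map (algebraMap L Ω))))
        (fun z => by rw [funMap_cO]; rfl)
        (by rw [funMap_polyF, Polynomial.map_X]; rfl) (by rw [funMap_yF]; rfl)
      rw [h3]
      rfl
    rw [mul_one, h2] at h1
    exact (mul_eq_left.1 h1.symm)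
  have hker : ∀ g : S ≃ₐ[K] S, res hΦ g = 1 → g (e : S) = e := by
    intro g hg
    have h1 := he g
    rw [hg, ha1, map_one, Units.val_one, one_mul] at h1
    exact h1.symm
  obtain ⟨s, w, hw⟩ := exists_pow_ker hΦ (e : S) hker
  have hw0 : w ≠ 0 := by
    rintro rfl
    rw [map_zero] at hw
    exact pow_ne_zero _ e.ne_zero hw
  refine ⟨s, Units.mk0 w hw0, fun g => ?_⟩
  obtain ⟨g', rfl⟩ := res_surjective hΦ g
  apply Units.ext
  apply Φ.injective
  have h1 := congrArg (fun z : S => z ^ ringExpChar F ^ s) (he g')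
  have h2 : (((Units.map (Φ : _ →* S) (a (res hΦ g')) : Sˣ) : S)) =
      Φ (a (res hΦ g') : FunField ℓ (f.map (algebraMap L Ω))) := rfl
  rw [mul_pow, h2, ← map_pow g', hw, ← map_pow, ← map_mul] at h1
  have h3 := res_symU hΦ g' (Units.mk0 w hw0)
  rw [Units.val_mul, Units.val_pow_eq_pow_val, Units.val_mk0, ← h3, Units.val_mk0]
  exact h1

/-- The invariant functions, up to powers of the characteristic. -/
theorem invariant_fun (hΦ : IsModel F t x y Φ) {κ : K →+* FunField ℓ (f.map (algebraMap L Ω))}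
    (hκ : ∀ z, Φ (κ z) = algebraMap K S z) (w : (FunField ℓ (f.map (algebraMap L Ω)))ˣ)
    (hw : ∀ g : Ω ≃ₐ[L] Ω, symU (gs f g) w = w) :
    ∃ (s : ℕ) (z : Kˣ), w ^ ringExpChar F ^ s = Units.map (κ : K →* _) z := by
  have h1 : ∀ g : S ≃ₐ[K] S, g (Φ (w : FunField ℓ (f.map (algebraMap L Ω)))) =
      Φ (w : FunField ℓ (f.map (algebraMap L Ω))) := by
    intro g
    rw [res_symU hΦ g w, hw]
  obtain ⟨s, z, hz⟩ := exists_pow_mem (K := K) _ h1
  have hq : ringExpChar K = ringExpChar F := by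
    have h2 : ExpChar K (ringExpChar F) := expChar_of_injective_algebraMap
      (algebraMap F K).injective (ringExpChar F)
    exact ringExpChar.eq K (ringExpChar F)
  rw [hq, ← hκ, ← map_pow] at hz
  have hz' := Φ.injective hz
  have hz0 : z ≠ 0 := by
    rintro rfl
    rw [map_zero] at hz'
    exact pow_ne_zero _ w.ne_zero hz'
  refine ⟨s, Units.mk0 z hz0, Units.ext ?_⟩
  rw [Units.val_pow_eq_pow_val]
  exact hz'

omit [IsAlgClosed F] [IsAlgClosure K S] [IsFractionRing F[X] L] [IsAlgClosure L Ω] [Field F]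
  [Algebra F K] [Algebra F[X] L] [Field K] [Field S] [Algebra K S] in
/-- A function without zeros and poles is constant. -/
lemma pic_const {E : Type} [Field E] {N : ℕ} {f : E[X]} [hG : IsGood N f]
    (h : (FunField N f)ˣ) (hh : div h = 0) : ∃ c : Eˣ, h = cstU c := by
  have := hG.alg
  have hne : NeZero (N : E) := ⟨hG.ne_zero⟩
  obtain ⟨ζ, hζ⟩ := HasEnoughRootsOfUnity.exists_primitiveRoot E N
  have hdg : dg (div h) = 0 := by rw [hh, dg, Finsupp.sum_zero_index]
  have hord : ∀ P, ord P h = 0 := fun P => by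
    rw [← div_apply, hh]
    rfl
  obtain ⟨c, hc | ⟨w, hw, hwd⟩⟩ := exists_const_of_dg_eq_zero ζ hζ h hdg
  · have hc0 : c ≠ 0 := by
      rintro rfl
      exact h.ne_zero (by rw [hc, map_zero])
    exact ⟨Units.mk0 c hc0, Units.ext hc⟩
  · exfalso
    have hwn : ∀ P, 0 ≤ ord P w := by
      intro P
      by_cases hc0 : c = 0
      · have hwu : w = h := Units.ext (by rw [hw, hc0, map_zero, sub_zero])
        rw [hwu, hord]
      · have h5 := ord_add P h (cstU (Units.mk0 (-c) (neg_ne_zero.2 hc0))) w (by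
                rw [hw, cstU, Units.coe_map, Units.val_mk0, MonoidHom.coe_coe, map_neg,
                  sub_eq_add_neg])
        rw [hord, ord_cstU, min_self] at h5
        exact h5
    refine absurd hwd (not_lt.2 ?_)
    exact Finset.sum_nonneg fun P _ => hwn P

/-- Hilbert 90 for the constants: a function whose divisor is invariant is, up to a constant, invariant. -/
theorem adjust_fun (w : (FunField ℓ (f.map (algebraMap L Ω)))ˣ)
    (hw : ∀ g : Ω ≃ₐ[L] Ω, (div w).mapDomain (Pt.sym (gs f g)) = div w) :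
    ∃ w' : (FunField ℓ (f.map (algebraMap L Ω)))ˣ, div w' = div w ∧
      ∀ g : Ω ≃ₐ[L] Ω, symU (gs f g) w' = w' := by
  have h1 : ∀ g : Ω ≃ₐ[L] Ω, ∃ c : Ωˣ, symU (gs f g) w = cstU c * w := by
    intro g
    obtain ⟨c, hc⟩ := pic_const (symU (gs f g) w * w⁻¹) (by
      rw [Wt.div_mul, Wt.div_inv, div_symU, hw g, add_neg_cancel])
    exact ⟨c, by rw [← hc, inv_mul_cancel_right]⟩
  choose c hc using h1
  have hinj : ∀ a b : Ωˣ, (cstU a : (FunField ℓ (f.map (algebraMap L Ω)))ˣ) = cstU b → a = b := by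
    intro a b hab
    apply Units.ext
    exact (cst : Ω →+* FunField ℓ (f.map (algebraMap L Ω))).injective (congrArg Units.val hab)
  have hcoc : ∀ g h : Ω ≃ₐ[L] Ω, (c (g * h) : Ω) = g (c h) * c g := by
    intro g h
    have h2 := congrArg (symU (gs f g)) (hc h)
    have h3 : symU (gs f (g * h)) w = symU (gs f g) (symU (gs f h) w) := by
      apply Units.ext
      rw [coe_symU, coe_symU, coe_symU, extf_funMap_mul, map_mul]
    rw [← h3, hc, map_mul, symU_cstU, hc g, ← mul_assoc] at h2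
    have h4 : c (g * h) = Units.map ((gs f g : Ω ≃+* Ω) : Ω →* Ω) (c h) * c g :=
      hinj _ _ (by rw [map_mul]; exact mul_right_cancel h2)
    exact congrArg Units.val h4
  have hcts : IsCts c := by
    obtain ⟨T, hT⟩ := exists_support (w : FunField ℓ (f.map (algebraMap L Ω)))
    refine ⟨T, fun g g' hgg => hinj _ _ ?_⟩
    have h5 : symU (gs f g) w = symU (gs f g') w := by
      apply Units.ext
      rw [coe_symU, coe_symU]
      exact hT _ _ hgg
    rw [hc, hc] at h5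
    exact mul_right_cancel h5
  obtain ⟨e, he⟩ := h90 c hcts hcoc
  refine ⟨w * (cstU e)⁻¹, by rw [Wt.div_mul, Wt.div_inv, div_cstU, neg_zero, add_zero], fun g => ?_⟩
  rw [map_mul, map_inv, symU_cstU, hc]
  have h6 : Units.map ((gs f g : Ω ≃+* Ω) : Ω →* Ω) e = c g * e := by
    apply Units.ext
    exact (he g).symm
  rw [h6, map_mul, mul_inv]
  rw [mul_comm (cstU (c g)) w, mul_assoc, mul_inv_cancel_left]

/-- An invariant class is, up to a multiple prime to `ℓ`, the class of an invariant divisor. -/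
theorem descend (hℓ : ℓ.Prime) (hΦ : IsModel F t x y Φ) (hBr : BrTriv ℓ L Ω)
    (R : Jac ℓ (f.map (algebraMap L Ω))) (hR : ∀ g : Ω ≃ₐ[L] Ω, symJ (gs f g) R = R) :
    ∃ (m : ℕ) (D : Pt ℓ (f.map (algebraMap L Ω)) →₀ ℤ), m.Coprime ℓ ∧
      (∀ g : Ω ≃ₐ[L] Ω, D.mapDomain (Pt.sym (gs f g)) = D) ∧ cl D = m • R := by
  have hb : ICoc (fun _ _ => 1 : (Ω ≃ₐ[L] Ω) → (Ω ≃ₐ[L] Ω) →
      (FunField ℓ (f.map (algebraMap L Ω)))ˣ) :=
    ⟨fun _ _ _ => by rw [map_one], ⟨∅, fun _ _ _ _ _ _ => rfl⟩⟩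
  have hd : IDiv (fun _ _ => 1 : (Ω ≃ₐ[L] Ω) → (Ω ≃ₐ[L] Ω) →
      (FunField ℓ (f.map (algebraMap L Ω)))ˣ) (fun _ => 0) :=
    ⟨IsCts.const 0, fun _ _ => by rw [Wt.div_one, Finsupp.mapDomain_zero]⟩
  obtain ⟨m, E, a, hm, hE, ha, hab, hda⟩ := icob_of_cl_strong hBr hb hd R
    (fun g => by rw [map_zero, hR g, sub_self])
  obtain ⟨s, w, hw⟩ := h90_fun hΦ a ha (fun g h => by
    have h1 := hab g h
    rw [one_pow, one_mul] at h1
    exact h1)
  have hq : (ringExpChar F).Coprime ℓ := extc_coprime (L := L) (Ω := Ω) (f := f) hℓ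
  have hdp : ∀ (u : (FunField ℓ (f.map (algebraMap L Ω)))ˣ) (n : ℕ), div (u ^ n) = n • div u := by
    intro u n
    ext P
    rw [Wt.div_apply, ord_pow, Finsupp.smul_apply, Wt.div_apply, nsmul_eq_mul]
  refine ⟨ringExpChar F ^ s * m, (ringExpChar F ^ s * m) • E + div w,
    Nat.Coprime.mul_left (Nat.Coprime.pow_left s hq) hm, fun g => ?_, ?_⟩
  · have h2 := congrArg Wt.div (hw g)
    rw [Wt.div_mul, hdp, hda, div_symU] at h2
    rw [Finsupp.mapDomain_add, ← h2, Finsupp.mapDomain_smul, mul_smul, mul_smul]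
    rw [zero_sub, smul_neg, smul_neg, smul_sub, smul_sub]
    abel
  · rw [map_add, map_nsmul, hE]
    rw [cl_div, add_zero]

end

end Pool.Agent.Lib.MP_89bcae_ag.Bra
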