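import Mathlib
import Pool.Agent.Lib.MP_89bcae_ag.Bk.K007
import Pool.Agent.Lib.MP_89bcae_ag.Bk.K037

namespace Pool.Agent.Lib.MP_89bcae_ag.Wt
end Pool.Agent.Lib.MP_89bcae_ag.Wt
namespace Pool.Agent.Lib.MP_89bcae_ag.Wt.Lns
end Pool.Agent.Lib.MP_89bcae_ag.Wt.Lns

section

/-!
# Classes of ideals of Dedekind domains
-/

open IsDedekindDomain FractionalIdeal WithZero

open scoped nonZeroDivisors Classical

namespace Pool.Agent.Lib.MP_89bcae_ag.Bra

section

variable {A K : Type} [CommRing A] [IsDomain A] [IsDedekindDomain A] [Field K] [Algebra A K]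
  [IsFractionRing A K]

/-- Two nonzero fractional ideals with the same exponents are equal. -/
lemma pic_ext {I J : FractionalIdeal A⁰ K} (hI : I ≠ 0) (hJ : J ≠ 0)
    (h : ∀ v : HeightOneSpectrum A, count K v I = count K v J) : I = J := by
  rw [← finprod_heightOneSpectrum_factorization' K hI,
    ← finprod_heightOneSpectrum_factorization' K hJ]
  exact finprod_congr fun v => by rw [h v]

/-- A nonzero fractional ideal with given exponents. -/
lemma pic_exists (e : HeightOneSpectrum A → ℤ) (he : ∀ᶠ v in Filter.cofinite, e v = 0) :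
    ∃ J : FractionalIdeal A⁰ K, J ≠ 0 ∧ ∀ v, count K v J = e v := by
  refine ⟨∏ᶠ v : HeightOneSpectrum A, (v.asIdeal : FractionalIdeal A⁰ K) ^ e v, ?_,
    fun v => count_finprod K v e he⟩
  rw [finprod_def]
  split_ifs with h
  · exact Finset.prod_ne_zero_iff.2 fun v _ => zpow_ne_zero _ (coeIdeal_ne_zero.2 v.ne_bot)
  · exact one_ne_zero

/-- If the exponents of `I ^ M` and of the principal ideal `(z)` agree modulo `N`, then the class of `I ^ M`
is an `N`-th power. -/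
theorem pic_class_pow (I : (Ideal A)⁰) (z : Kˣ) (M N : ℕ)
    (h : ∀ v : HeightOneSpectrum A, (N : ℤ) ∣ M * count K v ((I : Ideal A) : FractionalIdeal A⁰ K) -
      count K v (spanSingleton A⁰ (z : K))) :
    ∃ Q : ClassGroup A, ClassGroup.mk0 I ^ M = Q ^ N := by
  rcases Nat.eq_zero_or_pos N with rfl | hN
  · -- then the ideal `I ^ M` is principal
    have h0 : ((I : Ideal A) : FractionalIdeal A⁰ K) ≠ 0 :=
      coeIdeal_ne_zero.2 (nonZeroDivisors.coe_ne_zero I)
    have hz : spanSingleton A⁰ (z : K) ≠ 0 := spanSingleton_ne_zero_iff.2 z.ne_zero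
    have h1 : ((I : Ideal A) : FractionalIdeal A⁰ K) ^ M = spanSingleton A⁰ (z : K) := by
      refine pic_ext (pow_ne_zero _ h0) hz fun v => ?_
      have h2 := h v
      rw [Nat.cast_zero, zero_dvd_iff, sub_eq_zero] at h2
      rw [count_pow, h2]
    refine ⟨1, ?_⟩
    rw [pow_zero, ← ClassGroup.mk_mk0 K, ← map_pow, ClassGroup.mk_eq_one_iff]
    refine ⟨⟨(z : K), ?_⟩⟩
    have h3 : (((FractionalIdeal.mk0 K I ^ M : (FractionalIdeal A⁰ K)ˣ)) : FractionalIdeal A⁰ K) =
        spanSingleton A⁰ (z : K) := by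
      rw [Units.val_pow_eq_pow_val]
      exact h1
    rw [h3, coe_spanSingleton]
  · choose e he using h
    have h0 : ((I : Ideal A) : FractionalIdeal A⁰ K) ≠ 0 :=
      coeIdeal_ne_zero.2 (nonZeroDivisors.coe_ne_zero I)
    have hz : spanSingleton A⁰ (z : K) ≠ 0 := spanSingleton_ne_zero_iff.2 z.ne_zero
    have hN0 : (N : ℤ) ≠ 0 := Int.natCast_ne_zero.2 hN.ne'
    have hfin : ∀ᶠ v in Filter.cofinite, e v = 0 := by
      filter_upwards [finite_factors ((I : Ideal A) : FractionalIdeal A⁰ K),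
        finite_factors (spanSingleton A⁰ (z : K))] with v hv1 hv2
      have h2 := he v
      rw [hv1, hv2, mul_zero, sub_zero, eq_comm, mul_eq_zero] at h2
      exact h2.resolve_left hN0
    obtain ⟨J, hJ0, hJ⟩ := pic_exists (K := K) e hfin
    have h1 : ((I : Ideal A) : FractionalIdeal A⁰ K) ^ M = spanSingleton A⁰ (z : K) * J ^ N := by
      refine pic_ext (pow_ne_zero _ h0) (mul_ne_zero hz (pow_ne_zero _ hJ0)) fun v => ?_
      rw [count_pow, count_mul K v hz (pow_ne_zero _ hJ0), count_pow, hJ, ← he v]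
      ring
    refine ⟨ClassGroup.mk K (Units.mk0 J hJ0), ?_⟩
    rw [← ClassGroup.mk_mk0 K, ← map_pow]
    have h2 : FractionalIdeal.mk0 K I ^ M =
        toPrincipalIdeal A K z * Units.mk0 J hJ0 ^ N := by
      apply Units.ext
      rw [Units.val_pow_eq_pow_val, Units.val_mul, Units.val_pow_eq_pow_val, coe_toPrincipalIdeal,
        Units.val_mk0]
      exact h1
    rw [h2, map_mul, map_pow]
    have h3 : ClassGroup.mk K (toPrincipalIdeal A K z) = 1 := by
      rw [ClassGroup.mk_eq_one_iff]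
      refine ⟨⟨(z : K), ?_⟩⟩
      rw [coe_toPrincipalIdeal, coe_spanSingleton]
    rw [h3, one_mul]

/-- The exponents of principal ideals, and the valuations. -/
lemma pic_count (v : HeightOneSpectrum A) (z : Kˣ) :
    count K v (spanSingleton A⁰ (z : K)) = -log (v.valuation K (z : K)) := by
  obtain ⟨a, b, hb, hab⟩ := IsFractionRing.div_surjective (A := A) (z : K)
  have hb0 : (b : A) ≠ 0 := nonZeroDivisors.ne_zero hb
  have ha0 : a ≠ 0 := by
    rintro rfl
    rw [map_zero, zero_div] at hab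
    exact z.ne_zero hab.symm
  have hc : ∀ c : A, c ≠ 0 → count K v (spanSingleton A⁰ (algebraMap A K c)) =
      -log (v.valuation K (algebraMap A K c)) := by
    intro c hc
    rw [← coeIdeal_span_singleton, count_coe K v (by
      rw [Ne, Submodule.zero_eq_bot, Ideal.span_singleton_eq_bot]; exact hc),
      HeightOneSpectrum.valuation_of_algebraMap, HeightOneSpectrum.intValuation_if_neg _ hc,
      log_exp, neg_neg]
  have hK : ∀ c : A, c ≠ 0 → algebraMap A K c ≠ 0 := fun c hc =>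
    (map_ne_zero_iff _ (IsFractionRing.injective A K)).2 hc
  have h1 : spanSingleton A⁰ (algebraMap A K a) =
      spanSingleton A⁰ (z : K) * spanSingleton A⁰ (algebraMap A K b) := by
    rw [spanSingleton_mul_spanSingleton, ← hab, div_mul_cancel₀ _ (hK b hb0)]
  have h2 := congrArg (count K v) h1
  rw [count_mul K v (spanSingleton_ne_zero_iff.2 z.ne_zero)
    (spanSingleton_ne_zero_iff.2 (hK b hb0)), hc a ha0, hc b hb0] at h2
  have h3 : v.valuation K (algebraMap A K a) =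
      v.valuation K (z : K) * v.valuation K (algebraMap A K b) := by
    rw [← map_mul, ← hab, div_mul_cancel₀ _ (hK b hb0)]
  rw [h3, log_mul ((Valuation.ne_zero_iff _).2 z.ne_zero)
    ((Valuation.ne_zero_iff _).2 (hK b hb0))] at h2
  linarith

/-- A homomorphism to the integers which is nonnegative on `A` and zero at the elements which are not in the
prime `v` is a multiple of the valuation. -/
theorem pic_ord (v : HeightOneSpectrum A) (o : Kˣ → ℤ) (hmul : ∀ a b, o (a * b) = o a + o b)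
    (hunit : ∀ (a : A) (u : Kˣ), (u : K) = algebraMap A K a → a ∉ v.asIdeal → o u = 0)
    (hpos : ∀ (a : A) (u : Kˣ), (u : K) = algebraMap A K a → 0 ≤ o u) :
    ∃ e : ℤ, ∀ z : Kˣ, o z = e * count K v (spanSingleton A⁰ (z : K)) := by
  have hone : o 1 = 0 := by
    have h := hmul 1 1
    rw [mul_one] at h
    linarith
  have hinv : ∀ a, o a⁻¹ = -o a := by
    intro a
    have h := hmul a a⁻¹
    rw [mul_inv_cancel, hone] at h
    linarith
  have hle : ∀ z : Kˣ, v.valuation K (z : K) ≤ 1 → 0 ≤ o z := by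
    intro z hz
    obtain ⟨n, d, hnd⟩ := v.exists_primeCompl_mul_eq_of_integer (z : K) hz
    have hd0 : (d : A) ≠ 0 := fun h0 => d.2 (h0 ▸ v.asIdeal.zero_mem)
    have hdK : algebraMap A K d ≠ 0 := (map_ne_zero_iff _ (IsFractionRing.injective A K)).2 hd0
    have h1 := hpos n (z * Units.mk0 _ hdK) (by rw [Units.val_mul, Units.val_mk0, hnd])
    rw [hmul, hunit d (Units.mk0 _ hdK) rfl d.2, add_zero] at h1
    exact h1
  have heq : ∀ z : Kˣ, v.valuation K (z : K) = 1 → o z = 0 := by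
    intro z hz
    refine le_antisymm ?_ (hle z hz.le)
    have h1 := hle z⁻¹ (by rw [Units.val_inv_eq_inv_val, map_inv₀, hz, inv_one])
    rw [hinv] at h1
    linarith
  obtain ⟨π, hπ⟩ := v.valuation_exists_uniformizer K
  have hπ0 : π ≠ 0 := by
    rintro rfl
    rw [map_zero] at hπ
    exact exp_ne_zero hπ.symm
  let ϖ : Kˣ := Units.mk0 π hπ0
  have hzpow : ∀ (n : ℤ), o (ϖ ^ n) = n * o ϖ := by
    let φ : Kˣ →* Multiplicative ℤ :=
      { toFun := fun u => Multiplicative.ofAdd (o u)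
        map_one' := by rw [hone]; rfl
        map_mul' := fun a b => by rw [hmul]; rfl }
    intro n
    have h1 := map_zpow φ ϖ n
    have h2 := congrArg Multiplicative.toAdd h1
    rw [toAdd_zpow] at h2
    exact h2
  refine ⟨o ϖ, fun z => ?_⟩
  rw [pic_count]
  set n := -log (v.valuation K (z : K)) with hn
  have hz0 : v.valuation K (z : K) ≠ 0 := (Valuation.ne_zero_iff _).2 z.ne_zero
  have h1 : v.valuation K ((z * (ϖ ^ n)⁻¹ : Kˣ) : K) = 1 := by
    rw [Units.val_mul, map_mul, Units.val_inv_eq_inv_val, map_inv₀, Units.val_zpow_eq_zpow_val,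
      map_zpow₀, Units.val_mk0, hπ, ← exp_zsmul, hn, smul_eq_mul]
    rw [show (-log (v.valuation K (z : K))) * (-1 : ℤ) = log (v.valuation K (z : K)) by ring,
      exp_log hz0, mul_inv_cancel₀ hz0]
  have h2 := heq _ h1
  rw [hmul, hinv, hzpow] at h2
  linarith

end

/-- The power prime to `ℓ` is removed. -/
theorem pic_coprime {G : Type} [CommGroup G] {ℓ m n : ℕ} (hm : m.Coprime ℓ) {P Q : G}
    (h : P ^ (ℓ * m) = Q ^ ℓ ^ n) : ∃ R : G, P ^ ℓ = R ^ ℓ ^ n := by
  obtain ⟨a, b, hab⟩ : ∃ a b : ℤ, (m : ℤ) * a + (ℓ ^ n : ℕ) * b = 1 := by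
    have h1 : Nat.Coprime m (ℓ ^ n) := Nat.Coprime.pow_right n hm
    exact Int.isCoprime_iff_gcd_eq_one.2 (by rw [Int.gcd_natCast_natCast]; exact h1) |>.elim
      fun a h => h.elim fun b h => ⟨a, b, by rw [mul_comm, mul_comm ((ℓ ^ n : ℕ) : ℤ)]; exact h⟩
  refine ⟨Q ^ a * (P ^ ℓ) ^ b, ?_⟩
  calc P ^ ℓ = (P ^ ℓ) ^ ((m : ℤ) * a + (ℓ ^ n : ℕ) * b) := by rw [hab, zpow_one]
    _ = ((P ^ (ℓ * m)) ^ a) * ((P ^ ℓ) ^ b) ^ ℓ ^ n := by
      rw [zpow_add, zpow_mul, zpow_natCast, ← pow_mul, mul_comm ((ℓ ^ n : ℕ) : ℤ) b, zpow_mul,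
        zpow_natCast]
    _ = (Q ^ a * (P ^ ℓ) ^ b) ^ ℓ ^ n := by
      rw [h, mul_pow, ← zpow_natCast (Q ^ a), ← zpow_mul, mul_comm a, zpow_mul, zpow_natCast]

end Pool.Agent.Lib.MP_89bcae_ag.Bra

end

section

/-!
# The classes of ideals of the affine coordinate ring of the generic fibre
-/

open Polynomial IsDedekindDomain IsLocalRing FractionalIdeal

open scoped Classical nonZeroDivisors

namespace Pool.Agent.Lib.MP_89bcae_ag.Bra

open Pool.Agent.Lib.MP_89bcae_ag.Wt Pool.Agent.Lib.MP_89bcae_ag.Wt.Lns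

section

variable {K : Type} [Field K]
  {L Ω : Type} [Field L] [Field Ω] [Algebra L Ω] {ℓ : ℕ} {f : L[X]} [IsAlgClosure L Ω]
  [hG : IsGood ℓ (f.map (algebraMap L Ω))] {κ : K →+* FunField ℓ (f.map (algebraMap L Ω))}
  {A : Type} [CommRing A] [IsDomain A] [IsDedekindDomain A] [Algebra A K] [IsFractionRing A K]

/-- The embedding of the units. -/
noncomputable abbrev kU (κ : K →+* FunField ℓ (f.map (algebraMap L Ω))) :
    Kˣ →* (FunField ℓ (f.map (algebraMap L Ω)))ˣ := Units.map (κ : K →* _)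

/-- The prime below a point and the ramification index. -/
lemma pic_below (θ : A →+* NRing ℓ (f.map (algebraMap L Ω)))
    (hθ : ∀ a, algebraMap (NRing ℓ (f.map (algebraMap L Ω))) (FunField ℓ (f.map (algebraMap L Ω)))
      (θ a) = κ (algebraMap A K a))
    (hint : ∀ b, θ.IsIntegralElem b) (P : Pt ℓ (f.map (algebraMap L Ω))) :
    ∃ (v : HeightOneSpectrum A) (e : ℤ), v.asIdeal = P.ideal.comap θ ∧
      ∀ z : Kˣ, ord P (kU κ z) = e * count K v (spanSingleton A⁰ (z : K)) := by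
  have hp := P.ideal_isMaximal.isPrime
  let v : HeightOneSpectrum A := ⟨P.ideal.comap θ, Ideal.comap_isPrime θ P.ideal,
    comap_ne_bot θ hint P⟩
  have hu : ∀ (a : A) (u : Kˣ), (u : K) = algebraMap A K a →
      ((kU κ u : (FunField ℓ (f.map (algebraMap L Ω)))ˣ) : FunField ℓ (f.map (algebraMap L Ω))) =
        algebraMap (NRing ℓ (f.map (algebraMap L Ω))) (FunField ℓ (f.map (algebraMap L Ω))) (θ a) := by
    intro a u h
    rw [hθ, ← h]
    rfl
  obtain ⟨e, he⟩ := pic_ord v (fun z => ord P (kU κ z)) (fun a b => by rw [map_mul, ord_mul])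
    (fun a u h ha => by
      have h1 := ord_nonneg P (θ a) (kU κ u) (hu a u h)
      have h2 := (ord_pos_iff P (θ a) (kU κ u) (hu a u h)).not
      have h3 : ¬ 0 < ord P (kU κ u) := h2.2 ha
      exact le_antisymm (not_lt.1 h3) h1)
    (fun a u h => ord_nonneg P (θ a) (kU κ u) (hu a u h))
  exact ⟨v, e, rfl, he⟩

omit [IsAlgClosure L Ω] hG in
lemma pic_exists_one (v : HeightOneSpectrum A) :
    ∃ z : Kˣ, count K v (spanSingleton A⁰ (z : K)) = 1 := by
  obtain ⟨π, hπ⟩ := v.valuation_exists_uniformizer K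
  have hπ0 : π ≠ 0 := by
    rintro rfl
    rw [map_zero] at hπ
    exact WithZero.exp_ne_zero hπ.symm
  refine ⟨Units.mk0 π hπ0, ?_⟩
  rw [pic_count, Units.val_mk0, hπ, WithZero.log_exp, neg_neg]

lemma pic_invariant (hinv : ∀ (g : Ω ≃ₐ[L] Ω) (z : Kˣ), symU (gs f g) (kU κ z) = kU κ z)
    (g : Ω ≃ₐ[L] Ω) (P : Pt ℓ (f.map (algebraMap L Ω))) (z : Kˣ) :
    ord (Pt.sym (gs f g) P) (kU κ z) = ord P (kU κ z) := by
  have h1 := congrArg (fun D => D (Pt.sym (gs f g) P)) (div_symU (gs f g) (kU κ z))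
  rw [hinv] at h1
  rw [Finsupp.mapDomain_apply (ops_sym_inj g), Wt.div_apply, Wt.div_apply] at h1
  exact h1

theorem pic_main (hℓ : ℓ.Prime) (θ : A →+* NRing ℓ (f.map (algebraMap L Ω)))
    (hθ : ∀ a, algebraMap (NRing ℓ (f.map (algebraMap L Ω))) (FunField ℓ (f.map (algebraMap L Ω)))
      (θ a) = κ (algebraMap A K a))
    (hint : ∀ b, θ.IsIntegralElem b)
    (hinv : ∀ (g : Ω ≃ₐ[L] Ω) (z : Kˣ), symU (gs f g) (kU κ z) = kU κ z)
    (hcop : ∀ P : Pt ℓ (f.map (algebraMap L Ω)), ∃ z : Kˣ, (ord P (kU κ z)).natAbs.Coprime ℓ)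
    (hMW : ∀ (R : Jac ℓ (f.map (algebraMap L Ω))), (∀ σ : Ω ≃ₐ[L] Ω, symJ (gs f σ) R = R) → ∀ n : ℕ,
      ∃ R' : Jac ℓ (f.map (algebraMap L Ω)), (∀ σ : Ω ≃ₐ[L] Ω, symJ (gs f σ) R' = R') ∧
        ℓ • R = ℓ ^ n • R')
    (hdesc : ∀ (R : Jac ℓ (f.map (algebraMap L Ω))), (∀ g : Ω ≃ₐ[L] Ω, symJ (gs f g) R = R) →
      ∃ (m : ℕ) (D : Pt ℓ (f.map (algebraMap L Ω)) →₀ ℤ), m.Coprime ℓ ∧
        (∀ g : Ω ≃ₐ[L] Ω, D.mapDomain (Pt.sym (gs f g)) = D) ∧ cl D = m • R)
    (hfun : ∀ (w : (FunField ℓ (f.map (algebraMap L Ω)))ˣ),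
      (∀ g : Ω ≃ₐ[L] Ω, (Wt.div w).mapDomain (Pt.sym (gs f g)) = Wt.div w) →
      ∃ (s : ℕ) (z : Kˣ), s.Coprime ℓ ∧ Wt.div (kU κ z) = s • Wt.div w)
    (n : ℕ) (I : (Ideal A)⁰) : ∃ Q : ClassGroup A, ClassGroup.mk0 I ^ ℓ = Q ^ ℓ ^ n := by
  choose v e hv he using fun P => pic_below (K := K) θ hθ hint P
  have hcope : ∀ P, IsCoprime ((ℓ ^ n : ℕ) : ℤ) (e P) := by
    intro P
    obtain ⟨z, hz⟩ := hcop P
    rw [he] at hz
    have h1 : (e P).natAbs.Coprime ℓ := Nat.Coprime.coprime_dvd_left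
      (by rw [Int.natAbs_mul]; exact dvd_mul_right _ _) hz
    rw [Int.isCoprime_iff_gcd_eq_one, Int.gcd_eq_natAbs, Int.natAbs_natCast]
    exact (Nat.Coprime.pow_right n h1).symm
  have hsame : ∀ P Q, (∀ z : Kˣ, ord P (kU κ z) = ord Q (kU κ z)) → v P = v Q ∧ e P = e Q := by
    intro P Q hPQ
    have h1 : v P = v Q := by
      apply HeightOneSpectrum.ext
      rw [hv, hv]
      ext a
      rcases eq_or_ne a 0 with rfl | ha
      · exact ⟨fun _ => Ideal.zero_mem _, fun _ => Ideal.zero_mem _⟩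
      · have ha' : algebraMap A K a ≠ 0 := (map_ne_zero_iff _ (IsFractionRing.injective A K)).2 ha
        have h2 : ((kU κ (Units.mk0 _ ha') : (FunField ℓ (f.map (algebraMap L Ω)))ˣ) :
            FunField ℓ (f.map (algebraMap L Ω))) =
            algebraMap (NRing ℓ (f.map (algebraMap L Ω)))
              (FunField ℓ (f.map (algebraMap L Ω))) (θ a) := by
          rw [hθ]
          rfl
        have h3 := ord_pos_iff P (θ a) (kU κ (Units.mk0 _ ha')) h2
        have h4 := ord_pos_iff Q (θ a) (kU κ (Units.mk0 _ ha')) h2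
        rw [hPQ] at h3
        exact h3.symm.trans h4
    obtain ⟨z, hz⟩ := pic_exists_one (K := K) (v P)
    have h5 := hPQ z
    rw [he, he, ← h1, hz, mul_one, mul_one] at h5
    exact ⟨h1, h5⟩
  let c : HeightOneSpectrum A → ℤ := fun w => count K w ((I : Ideal A) : FractionalIdeal A⁰ K)
  have hfin : (Function.support fun P => e P * c (v P)).Finite := by
    have hI0 : (I : Ideal A) ≠ ⊥ := nonZeroDivisors.coe_ne_zero I
    obtain ⟨a, haI, ha⟩ := Submodule.exists_mem_ne_zero_of_ne_bot hI0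
    have ha' : algebraMap A K a ≠ 0 := (map_ne_zero_iff _ (IsFractionRing.injective A K)).2 ha
    refine (ord_finite (kU κ (Units.mk0 _ ha'))).subset fun P hP h0 => hP ?_
    have h1 := he P (Units.mk0 _ ha')
    have h0' : ord P (kU κ (Units.mk0 _ ha')) = 0 := h0
    rw [h0', Units.val_mk0] at h1
    rcases mul_eq_zero.1 h1.symm with h2 | h2
    · show e P * c (v P) = 0
      rw [h2, zero_mul]
    · have h3 : c (v P) ≤ count K (v P) (spanSingleton A⁰ (algebraMap A K a)) := by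
        rw [← coeIdeal_span_singleton]
        refine count_mono K (v P) (coeIdeal_ne_zero.2 ?_) (coeIdeal_le_coeIdeal _ |>.2 ?_)
        · rw [Ne, Ideal.span_singleton_eq_bot]
          exact ha
        · rw [Ideal.span_singleton_le_iff_mem]
          exact haI
      have h4 : 0 ≤ c (v P) := count_coe_nonneg K (v P) (I : Ideal A)
      have h5 : c (v P) = 0 := by
        rw [h2] at h3
        exact le_antisymm h3 h4
      show e P * c (v P) = 0
      rw [h5, mul_zero]
  let D : Pt ℓ (f.map (algebraMap L Ω)) →₀ ℤ := Finsupp.ofSupportFinite _ hfin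
  have hD : ∀ P, D P = e P * c (v P) := fun P => rfl
  have hDinv : ∀ g : Ω ≃ₐ[L] Ω, D.mapDomain (Pt.sym (gs f g)) = D := by
    intro g
    ext P
    rw [ops_mapDomain_apply, hD, hD]
    obtain ⟨h1, h2⟩ := hsame (Pt.sym (gs f g⁻¹) P) P fun z => pic_invariant hinv g⁻¹ P z
    rw [h1, h2]
  have hR : ∀ σ : Ω ≃ₐ[L] Ω, symJ (gs f σ) (cl D) = cl D := fun σ => by rw [symJ_cl, hDinv]
  obtain ⟨R', hR', hRR⟩ := hMW (cl D) hR n
  obtain ⟨m, D', hm, hD', hcl⟩ := hdesc R' hR'
  have hE : cl ((ℓ * m) • D - ℓ ^ n • D') = (0 : Jac ℓ (f.map (algebraMap L Ω))) := by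
    rw [map_sub, map_nsmul, map_nsmul, hcl, mul_comm, mul_smul, hRR, smul_comm, sub_self]
  obtain ⟨w, hw⟩ := exists_div_of_cl_eq_zero _ hE
  obtain ⟨s, z, hs, hz⟩ := hfun w (fun g => by
    rw [hw, opsa_sub, Finsupp.mapDomain_smul, Finsupp.mapDomain_smul, hDinv, hD'])
  have hkey : ∀ P, ((ℓ ^ n : ℕ) : ℤ) ∣ (s * (ℓ * m) : ℕ) * c (v P) -
      count K (v P) (spanSingleton A⁰ (z : K)) := by
    intro P
    have h1 := congrArg (fun D => D P) hz
    rw [Wt.div_apply, he, hw, Finsupp.smul_apply, Finsupp.sub_apply, Finsupp.smul_apply,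
      Finsupp.smul_apply, hD] at h1
    refine (hcope P).dvd_of_dvd_mul_left ⟨s * D' P, ?_⟩
    rw [nsmul_eq_mul, nsmul_eq_mul, nsmul_eq_mul] at h1
    push_cast at h1 ⊢
    linear_combination -h1
  have hall : ∀ w' : HeightOneSpectrum A, ((ℓ ^ n : ℕ) : ℤ) ∣ (s * (ℓ * m) : ℕ) * c w' -
      count K w' (spanSingleton A⁰ (z : K)) := by
    intro w'
    obtain ⟨P, hP⟩ := exists_pt_over θ hint (fun a b hab => by
      have h1 := congrArg (algebraMap (NRing ℓ (f.map (algebraMap L Ω)))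
        (FunField ℓ (f.map (algebraMap L Ω)))) hab
      rw [hθ, hθ] at h1
      exact IsFractionRing.injective A K (κ.injective h1)) w'.asIdeal w'.isMaximal w'.ne_bot
    have h2 : v P = w' := HeightOneSpectrum.ext (by rw [hv, hP])
    rw [← h2]
    exact hkey P
  obtain ⟨Q, hQ⟩ := pic_class_pow (K := K) I z (s * (ℓ * m)) (ℓ ^ n) hall
  refine pic_coprime (m := s * m) (Nat.Coprime.mul_left hs hm) (Q := Q) ?_
  rw [← hQ]
  congr 1
  ring

end

end Pool.Agent.Lib.MP_89bcae_ag.Bra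

end
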