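import Mathlib
import Pool.Agent.Lib.MP_89bcae_ag.Bk.K045
import Pool.Agent.Lib.MP_89bcae_ag.Bk.K046
import Pool.Agent.Lib.MP_89bcae_ag.Bk.K047

namespace Pool.Agent.Lib.MP_89bcae_ag.Wt
end Pool.Agent.Lib.MP_89bcae_ag.Wt
namespace Pool.Agent.Lib.MP_89bcae_ag.Wt.Lns
end Pool.Agent.Lib.MP_89bcae_ag.Wt.Lns

section

/-!
# Ramification indices, invariant functions
-/

open Polynomial IsDedekindDomain IsLocalRing FractionalIdeal

open scoped Classical nonZeroDivisors

namespace Pool.Agent.Lib.MP_89bcae_ag.Bra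

open Pool.Agent.Lib.MP_89bcae_ag.Wt Pool.Agent.Lib.MP_89bcae_ag.Wt.Lns

section

variable {L Ω : Type} [Field L] [Field Ω] [Algebra L Ω] {ℓ : ℕ} {f : L[X]} [IsAlgClosure L Ω]
  [hG : IsGood ℓ (f.map (algebraMap L Ω))]

/-- For an unramified point there is a polynomial with coefficients in `L` whose order at the point is a
power of the characteristic exponent. -/
theorem exists_poly_ord (P : Pt ℓ (f.map (algebraMap L Ω))) (hP : P.y ≠ 0) :
    ∃ (p : L[X]) (hp : p.map (algebraMap L Ω) ≠ 0) (n : ℕ),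
      ord P (polyU (p.map (algebraMap L Ω)) hp) = (ringExpChar L : ℤ) ^ n := by
  let q := ringExpChar L
  have hqΩ : ExpChar Ω q := expChar_of_injective_algebraMap (algebraMap L Ω).injective q
  have halg : Algebra.IsAlgebraic L Ω := IsAlgClosure.isAlgebraic
  obtain ⟨n, hn⟩ := (isPurelyInseparable_iff_pow_mem (separableClosure L Ω) q).1
    (separableClosure.isPurelyInseparable L Ω) P.x
  obtain ⟨β, hβ⟩ := hn
  have hβs : IsSeparable L (β : Ω) := mem_separableClosure_iff.1 β.2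
  have hβx : (β : Ω) = P.x ^ q ^ n := hβ
  have hg0 : minpoly L (β : Ω) ≠ 0 := minpoly.ne_zero (halg.isAlgebraic (β : Ω)).isIntegral
  have hroot : ((minpoly L (β : Ω)).map (algebraMap L Ω)).eval (β : Ω) = 0 := by
    rw [eval_map_algebraMap, minpoly.aeval]
  obtain ⟨g₁, hg₁⟩ := dvd_iff_isRoot.2 hroot
  have hsep : ((minpoly L (β : Ω)).map (algebraMap L Ω)).Separable :=
    Polynomial.Separable.map hβs
  have hg₁β : g₁.eval (β : Ω) ≠ 0 := by
    intro h0
    obtain ⟨g₂, hg₂⟩ := dvd_iff_isRoot.2 h0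
    rw [hg₂, ← mul_assoc] at hg₁
    have h1 : IsUnit (X - C (β : Ω)) := hsep.squarefree (X - C (β : Ω)) ⟨g₂, hg₁⟩
    exact (Polynomial.not_isUnit_X_sub_C _) h1
  have hqn : 0 < q ^ n := pow_pos (expChar_pos L q) n
  have hexp : (expand L (q ^ n) (minpoly L (β : Ω))).map (algebraMap L Ω) =
      (X - C P.x) ^ q ^ n * expand Ω (q ^ n) g₁ := by
    rw [map_expand, hg₁, map_mul, map_sub, expand_X, expand_C, hβx, C_pow,
      ← sub_pow_expChar_pow]
  have h1 : expand Ω (q ^ n) g₁ ≠ 0 := by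
    intro h0
    rw [(expand_eq_zero hqn).1 h0, eval_zero] at hg₁β
    exact hg₁β rfl
  have h2 : (X - C P.x : (Polynomial Ω)) ^ q ^ n ≠ 0 := pow_ne_zero _ (X_sub_C_ne_zero _)
  have h3 : (expand L (q ^ n) (minpoly L (β : Ω))).map (algebraMap L Ω) ≠ 0 := by
    rw [hexp]
    exact mul_ne_zero h2 h1
  refine ⟨expand L (q ^ n) (minpoly L (β : Ω)), h3, n, ?_⟩
  have h4 : (polyU _ h3 : (FunField ℓ (f.map (algebraMap L Ω)))ˣ) =
      xs P.x ^ q ^ n * polyU _ h1 := by
    apply Units.ext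
    show algebraMap (NRing ℓ (f.map (algebraMap L Ω))) (FunField ℓ (f.map (algebraMap L Ω)))
      (ofPoly ((expand L (q ^ n) (minpoly L (β : Ω))).map (algebraMap L Ω))) =
      (algebraMap (NRing ℓ (f.map (algebraMap L Ω))) (FunField ℓ (f.map (algebraMap L Ω)))
        (ofPoly (X - C P.x))) ^ q ^ n *
      algebraMap (NRing ℓ (f.map (algebraMap L Ω))) (FunField ℓ (f.map (algebraMap L Ω)))
        (ofPoly (expand Ω (q ^ n) g₁))
    rw [hexp, map_mul, map_mul, map_pow, map_pow]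
  rw [h4, ord_mul, ord_pow, ord_xs_of_unramified P hP, ord_polyU_of_ne P h1 (by
    rw [expand_eval, ← hβx]
    exact hg₁β), add_zero, mul_one]
  push_cast
  rfl

end

section

variable {K S : Type} [Field K] [Field S] [Algebra K S]
  {L Ω : Type} [Field L] [Field Ω] [Algebra L Ω] {ℓ : ℕ} {f : L[X]}
  {F : Type} [Field F] [Algebra F K] [Algebra F[X] L]
  [IsAlgClosed F] [IsAlgClosure K S] [IsFractionRing F[X] L] [IsAlgClosure L Ω]
  [hG : IsGood ℓ (f.map (algebraMap L Ω))] {t x y : K}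
  {Φ : FunField ℓ (f.map (algebraMap L Ω)) →+* S}
  {κ : K →+* FunField ℓ (f.map (algebraMap L Ω))}

lemma kappa_poly (hΦ : IsModel F t x y Φ) (hκ : ∀ z, Φ (κ z) = algebraMap K S z) (p : F[X]) :
    κ (aeval t p) = cO ℓ f Ω (algebraMap L Ω (algebraMap F[X] L p)) := by
  apply Φ.injective
  rw [hκ, hΦ.const]

lemma kappa_const (hΦ : IsModel F t x y Φ) (hκ : ∀ z, Φ (κ z) = algebraMap K S z) (c : F) :
    κ (algebraMap F K c) = cO ℓ f Ω (algebraMap L Ω (algebraMap F[X] L (C c))) := by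
  rw [← kappa_poly hΦ hκ, aeval_C]

lemma kappa_x (hΦ : IsModel F t x y Φ) (hκ : ∀ z, Φ (κ z) = algebraMap K S z) :
    κ x = polyF X := by
  apply Φ.injective
  rw [hκ, hΦ.fx]

lemma kappa_y (hΦ : IsModel F t x y Φ) (hκ : ∀ z, Φ (κ z) = algebraMap K S z) :
    κ y = yF := by
  apply Φ.injective
  rw [hκ, hΦ.fy]

lemma kappa_inv (hΦ : IsModel F t x y Φ) (hκ : ∀ z, Φ (κ z) = algebraMap K S z)
    (g : Ω ≃ₐ[L] Ω) (z : Kˣ) : symU (gs f g) (kU κ z) = kU κ z := by
  obtain ⟨r, hr⟩ := hΦ.exists_toO (z : K)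
  rw [← hκ] at hr
  have h1 := Φ.injective hr
  apply Units.ext
  rw [coe_symU]
  show funMap ℓ ((gs f g : Ω ≃+* Ω) : Ω →+* Ω) (gs f g).2 (κ (z : K)) = κ (z : K)
  rw [← h1, funMap_toO]

/-- The functions with invariant divisor. -/
theorem pic_fun (hℓ : ℓ.Prime) (hΦ : IsModel F t x y Φ) (hκ : ∀ z, Φ (κ z) = algebraMap K S z)
    (w : (FunField ℓ (f.map (algebraMap L Ω)))ˣ)
    (hw : ∀ g : Ω ≃ₐ[L] Ω, (Wt.div w).mapDomain (Pt.sym (gs f g)) = Wt.div w) :
    ∃ (s : ℕ) (z : Kˣ), s.Coprime ℓ ∧ Wt.div (kU κ z) = s • Wt.div w := by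
  obtain ⟨w', h1, h2⟩ := adjust_fun w hw
  obtain ⟨s, z, hz⟩ := invariant_fun hΦ hκ w' h2
  have hq : (ringExpChar F).Coprime ℓ := extc_coprime (L := L) (Ω := Ω) (f := f) hℓ
  refine ⟨ringExpChar F ^ s, z, Nat.Coprime.pow_left s hq, ?_⟩
  rw [← h1, ← hz]
  ext P
  rw [Wt.div_apply, ord_pow, Finsupp.smul_apply, Wt.div_apply, nsmul_eq_mul]

end

end Pool.Agent.Lib.MP_89bcae_ag.Bra

end

section

/-!
# The Picard group of the affine coordinate ring of the generic fibre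
-/

open Polynomial IsDedekindDomain IsLocalRing FractionalIdeal

open scoped Classical nonZeroDivisors

namespace Pool.Agent.Lib.MP_89bcae_ag.Bra

open Pool.Agent.Lib.MP_89bcae_ag.Wt Pool.Agent.Lib.MP_89bcae_ag.Wt.Lns

section

variable {K S : Type} [Field K] [Field S] [Algebra K S]
  {L Ω : Type} [Field L] [Field Ω] [Algebra L Ω] {ℓ : ℕ} {f : L[X]}
  {F : Type} [Field F] [Algebra F K] [Algebra F[X] L]
  [IsAlgClosed F] [IsAlgClosure K S] [IsFractionRing F[X] L] [IsAlgClosure L Ω]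
  [hG : IsGood ℓ (f.map (algebraMap L Ω))] {t x y : K}
  {Φ : FunField ℓ (f.map (algebraMap L Ω)) →+* S}
  {κ : K →+* FunField ℓ (f.map (algebraMap L Ω))}

lemma kappa_Ft (hΦ : IsModel F t x y Φ) (hκ : ∀ z, Φ (κ z) = algebraMap K S z) {c : K}
    (hc : c ∈ IntermediateField.adjoin F {t}) : ∃ l : L, κ c = cO ℓ f Ω (algebraMap L Ω l) := by
  let M : IntermediateField F K :=
    { ((cO ℓ f Ω).comp (algebraMap L Ω)).fieldRange.comap κ with
      algebraMap_mem' := fun r => ⟨algebraMap F[X] L (C r), (kappa_const hΦ hκ r).symm⟩ }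
  have h1 : IntermediateField.adjoin F {t} ≤ M := by
    rw [IntermediateField.adjoin_le_iff]
    intro w hw
    rw [Set.mem_singleton_iff] at hw
    rw [hw]
    refine ⟨algebraMap F[X] L X, ?_⟩
    have h2 := kappa_poly hΦ hκ X
    rw [aeval_X] at h2
    exact h2.symm
  obtain ⟨l, hl⟩ := h1 hc
  exact ⟨l, hl.symm⟩

lemma exists_Ft (hΦ : IsModel F t x y Φ) (hκ : ∀ z, Φ (κ z) = algebraMap K S z) (l : L) :
    ∃ c ∈ IntermediateField.adjoin F {t}, κ c = cO ℓ f Ω (algebraMap L Ω l) := by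
  obtain ⟨p, q, hq, rfl⟩ := IsFractionRing.div_surjective (A := F[X]) l
  have hmem : ∀ p : F[X], aeval t p ∈ IntermediateField.adjoin F {t} := fun p => by
    have h1 := Subalgebra.aeval_coe (IntermediateField.adjoin F {t}).toSubalgebra
      ⟨t, IntermediateField.mem_adjoin_simple_self F t⟩ p
    rw [h1]
    exact Subtype.mem _
  refine ⟨aeval t p / aeval t q, div_mem (hmem p) (hmem q), ?_⟩
  rw [map_div₀, kappa_poly hΦ hκ, kappa_poly hΦ hκ, map_div₀, map_div₀]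

lemma kappa_Rx (hΦ : IsModel F t x y Φ) (hκ : ∀ z, Φ (κ z) = algebraMap K S z) (r : K)
    (hr : r ∈ Rx F t x) : ∃ p : L[X], κ r = polyF (p.map (algebraMap L Ω)) := by
  induction hr using Algebra.adjoin_induction with
  | mem w hw =>
    rw [Set.mem_singleton_iff] at hw
    exact ⟨X, by rw [hw, kappa_x hΦ hκ, Polynomial.map_X]⟩
  | algebraMap c =>
    obtain ⟨l, hl⟩ := kappa_Ft hΦ hκ c.2
    exact ⟨C l, by rw [Polynomial.map_C]; exact hl⟩
  | add a b _ _ ha hb =>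
    obtain ⟨p, hp⟩ := ha
    obtain ⟨q, hq⟩ := hb
    exact ⟨p + q, by rw [map_add, hp, hq, Polynomial.map_add, map_add]⟩
  | mul a b _ _ ha hb =>
    obtain ⟨p, hp⟩ := ha
    obtain ⟨q, hq⟩ := hb
    exact ⟨p * q, by rw [map_mul, hp, hq, Polynomial.map_mul, map_mul]⟩

lemma exists_Rx (hΦ : IsModel F t x y Φ) (hκ : ∀ z, Φ (κ z) = algebraMap K S z) (p : L[X]) :
    ∃ r ∈ Rx F t x, κ r = polyF (p.map (algebraMap L Ω)) := by
  have hx : x ∈ Rx F t x := Algebra.subset_adjoin (Set.mem_singleton x)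
  induction p using Polynomial.induction_on' with
  | add p q hp hq =>
    obtain ⟨a, ha, hp⟩ := hp
    obtain ⟨b, hb, hq⟩ := hq
    exact ⟨a + b, add_mem ha hb, by
      rw [map_add, hp, hq, Polynomial.map_add, map_add]⟩
  | monomial n l =>
    obtain ⟨c, hc, hcl⟩ := exists_Ft hΦ hκ l
    have hc' : c ∈ Rx F t x :=
      Subalgebra.algebraMap_mem (Rx F t x) (⟨c, hc⟩ : IntermediateField.adjoin F {t})
    have hxn : x ^ n ∈ Rx F t x := pow_mem hx n
    refine ⟨c * x ^ n, mul_mem hc' hxn, ?_⟩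
    rw [map_mul, map_pow, hcl, kappa_x hΦ hκ, Polynomial.map_monomial, ← C_mul_X_pow_eq_monomial,
      map_mul, map_pow]
    rfl

/-- The Picard group of the integral closure of a ring `R` which corresponds to `L[X]`. -/
theorem pic_R (hℓ : ℓ.Prime) (hΦ : IsModel F t x y Φ) (hκ : ∀ z, Φ (κ z) = algebraMap K S z)
    (hBr : BrTriv ℓ L Ω)
    (hMW : ∀ (R : Jac ℓ (f.map (algebraMap L Ω))), (∀ σ : Ω ≃ₐ[L] Ω, symJ (gs f σ) R = R) → ∀ n : ℕ,
      ∃ R' : Jac ℓ (f.map (algebraMap L Ω)), (∀ σ : Ω ≃ₐ[L] Ω, symJ (gs f σ) R' = R') ∧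
        ℓ • R = ℓ ^ n • R')
    {R : Type} [CommRing R] [Algebra R K]
    (h1 : ∀ r : R, ∃ p : L[X], κ (algebraMap R K r) = polyF (p.map (algebraMap L Ω)))
    (h2 : ∀ p : L[X], ∃ r : R, κ (algebraMap R K r) = polyF (p.map (algebraMap L Ω)))
    (hD : IsDedekindDomain (integralClosure R K)) (hF : IsFractionRing (integralClosure R K) K)
    (n : ℕ) (P : CommRing.Pic (integralClosure R K)) :
    ∃ Q : CommRing.Pic (integralClosure R K), P ^ ℓ = Q ^ ℓ ^ n := by
  have hint : ∀ b, (kapA h1).IsIntegralElem b := by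
    refine isIntegralElem_of (kapA h1) fun p => ?_
    obtain ⟨r, hr⟩ := h2 p
    exact ⟨algebraMap R (integralClosure R K) r, Subtype.ext hr⟩
  have hqL : (ringExpChar L).Coprime ℓ := by
    have h3 : ExpChar L (ringExpChar F) := expChar_of_injective_ringHom
      ((algebraMap F[X] L).comp (C : F →+* F[X])).injective (ringExpChar F)
    rw [ringExpChar.eq L (ringExpChar F)]
    exact extc_coprime (L := L) (Ω := Ω) (f := f) hℓ
  have hcop : ∀ P : Pt ℓ (f.map (algebraMap L Ω)), ∃ z : Kˣ, (ord P (kU κ z)).natAbs.Coprime ℓ := by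
    intro P
    by_cases hP : P.y = 0
    · have hy0 : y ≠ 0 := by
        rintro rfl
        have h3 := kappa_y hΦ hκ
        rw [map_zero] at h3
        exact yF_ne_zero h3.symm
      refine ⟨Units.mk0 y hy0, ?_⟩
      have h4 : kU κ (Units.mk0 y hy0) = (yU : (FunField ℓ (f.map (algebraMap L Ω)))ˣ) :=
        Units.ext (kappa_y hΦ hκ)
      rw [h4, ord_yU_of_ramified P hP, Int.natAbs_natCast]
      exact hG.mult P.x (eval_of_y_eq_zero P hP)
    · obtain ⟨p, hp, m, hord⟩ := exists_poly_ord P hP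
      obtain ⟨r, hr⟩ := h2 p
      have hr0 : algebraMap R K r ≠ 0 := by
        intro h0
        rw [h0, map_zero] at hr
        exact polyF_ne_zero hp hr.symm
      refine ⟨Units.mk0 _ hr0, ?_⟩
      have h4 : kU κ (Units.mk0 _ hr0) = (polyU _ hp : (FunField ℓ (f.map (algebraMap L Ω)))ˣ) :=
        Units.ext hr
      rw [h4, hord, Int.natAbs_pow, Int.natAbs_natCast]
      exact Nat.Coprime.pow_left m hqL
  obtain ⟨I, hI⟩ := ClassGroup.mk0_surjective ((ClassGroup.equivPic (integralClosure R K)).symm P)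
  obtain ⟨Q, hQ⟩ := pic_main (K := K) hℓ (kapA h1) (coe_kapA h1) hint (kappa_inv hΦ hκ) hcop hMW
    (descend hℓ hΦ hBr) (pic_fun hℓ hΦ hκ) n I
  refine ⟨ClassGroup.equivPic (integralClosure R K) Q, ?_⟩
  rw [hI] at hQ
  have h5 := congrArg (ClassGroup.equivPic (integralClosure R K)) hQ
  rw [map_pow, map_pow, MulEquiv.apply_symm_apply] at h5
  exact h5

end

end Pool.Agent.Lib.MP_89bcae_ag.Bra

end
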