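import Mathlib
import Pool.Agent.Lib.MP_89bcae_ag.Bk.K044
import Pool.Agent.Lib.MP_89bcae_ag.Bk.K048
import Pool.Agent.Lib.MP_89bcae_ag.Bra.DefsL

namespace Pool.Agent.Lib.MP_89bcae_ag.Superelliptic
end Pool.Agent.Lib.MP_89bcae_ag.Superelliptic
namespace Pool.Agent.Lib.MP_89bcae_ag.Wt
end Pool.Agent.Lib.MP_89bcae_ag.Wt
namespace Pool.Agent.Lib.MP_89bcae_ag.Wt.Lns
end Pool.Agent.Lib.MP_89bcae_ag.Wt.Lns

section

/-!
# The Picard group of the affine coordinate ring of the generic fibre: the theorem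
-/

open Polynomial IsDedekindDomain

open scoped Classical

namespace Pool.Agent.Lib.MP_89bcae_ag.Bra

open Pool.Agent.Lib.MP_89bcae_ag.Wt Pool.Agent.Lib.MP_89bcae_ag.Wt.Lns

theorem picard_arrangement {ℓ : ℕ} (hℓ : ℓ.Prime) {k F K : Type} [Field k] [Field F] [Algebra k F]
    [IsAlgClosure k F] [Field K] [Algebra F K]
    (hk : (ℓ : k) ≠ 0) {ι : Type} [Fintype ι] [LinearOrder ι] (W : ι → ℕ)
    (hW : ∀ i, (W i).Coprime ℓ) (hsum : (∑ i, W i).Coprime ℓ) (α : ι → k[X])
    (hα : Superelliptic.IsArrangement α)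
    (hT : ∀ (L Ω : Type) [Field L] [Algebra F[X] L] [IsFractionRing F[X] L] [Field Ω] [Algebra L Ω]
      [IsAlgClosure L Ω] (k' : IntermediateField k F), FiniteDimensional k k' →
      Wt.TateClassesTorsionW ℓ L Ω W α k')
    {t x y : K} (hK : IsFunctionField ℓ F W α t x y) (n : ℕ)
    (P : CommRing.Pic (integralClosure
      (Algebra.adjoin (IntermediateField.adjoin F ({t} : Set K)) ({x} : Set K)) K)) :
    ∃ Q : CommRing.Pic (integralClosure
      (Algebra.adjoin (IntermediateField.adjoin F ({t} : Set K)) ({x} : Set K)) K),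
      P ^ ℓ = Q ^ ℓ ^ n := by
  have hFa : IsAlgClosed F := IsAlgClosure.isAlgClosed k
  have hF0 : (ℓ : F) ≠ 0 := by
    rw [← map_natCast (algebraMap k F)]
    exact (_root_.map_ne_zero _).mpr hk
  have : NeZero (ℓ : F) := ⟨hF0⟩
  have : NeZero ℓ := ⟨hℓ.ne_zero⟩
  obtain ⟨ζ, hζ⟩ : ∃ ζ : F, IsPrimitiveRoot ζ ℓ :=
    HasEnoughRootsOfUnity.exists_primitiveRoot F ℓ
  have hg : Sup.Lns.AGeom α := ⟨hα.separable, hα.natDegree_ne_zero⟩
  have H0 : AHyp ℓ W (fun i => (α i).map (algebraMap k F)) ζ :=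
    ⟨hℓ, hF0, hζ, hW, hsum, hg.map (algebraMap k F)⟩
  have hG : IsGood ℓ ((curveL F F (RatFunc F) (arr W fun i => (α i).map (algebraMap k F))).map
      (algebraMap (RatFunc F) (AlgebraicClosure (RatFunc F)))) :=
    isGood_arr (L := RatFunc F) H0 (AlgebraicClosure (RatFunc F))
  have hK' : IsFunctionField ℓ F W (fun i => (α i).map (algebraMap k F)) t x y := by
    refine ⟨hK.independent, ?_, hK.generate⟩
    rw [hK.equation]
    refine Finset.prod_congr rfl fun i _ => ?_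
    rw [Algebra.algebraMap_self, Polynomial.map_id]
  obtain ⟨Φ, hΦ⟩ := exists_model (S := AlgebraicClosure K) (L := RatFunc F)
    (Ω := AlgebraicClosure (RatFunc F)) hK'
  have hBr : BrTriv ℓ (RatFunc F) (AlgebraicClosure (RatFunc F)) := by
    intro b hb
    refine tsen (C := F) hℓ ?_ b hb
    rw [← map_natCast (algebraMap F (RatFunc F))]
    exact (_root_.map_ne_zero _).mpr hF0
  obtain ⟨κ, hκ⟩ := hΦ.exists_kappa
  have hNT : ∀ k' : IntermediateField k F, FiniteDimensional k k' →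
      NTm45 (F := F) ℓ ℓ (RatFunc F) (AlgebraicClosure (RatFunc F))
        (curveL F F (RatFunc F) (arr W fun i => (α i).map (algebraMap k F)))
        (AutK k F (RatFunc F) (AlgebraicClosure (RatFunc F)) k') := by
    intro k' hk'
    have h1 := hT (RatFunc F) (AlgebraicClosure (RatFunc F)) k' hk'
    rw [tateClassesTorsionW_iff45] at h1
    rw [curveL_arr (Ω := AlgebraicClosure (RatFunc F))]
    exact h1
  have hyR : y ^ ℓ ∈ Rx F t x := by
    rw [hK.equation]
    have hx : x ∈ Rx F t x := Algebra.subset_adjoin (Set.mem_singleton x)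
    refine prod_mem fun i _ => pow_mem (sub_mem hx ?_) _
    have h1 := Subalgebra.aeval_coe (IntermediateField.adjoin F {t}).toSubalgebra
      ⟨t, IntermediateField.mem_adjoin_simple_self F t⟩ ((α i).map (algebraMap k F))
    have h2 : aeval t ((α i).map (algebraMap k F)) ∈ IntermediateField.adjoin F {t} := by
      rw [h1]
      exact Subtype.mem _
    exact Subalgebra.algebraMap_mem (Rx F t x) (⟨_, h2⟩ : IntermediateField.adjoin F {t})
  have hy0 : y ≠ 0 := by
    rintro rfl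
    have h3 := kappa_y hΦ hκ
    rw [map_zero] at h3
    exact yF_ne_zero h3.symm
  obtain ⟨hD, hFr⟩ := isDedekindDomain_Ax hℓ.ne_zero hF0 hy0 hyR hK.generate
  exact pic_R hℓ hΦ hκ hBr (mordell_weil hℓ hNT) (fun r => kappa_Rx hΦ hκ r.1 r.2)
    (fun p => by
      obtain ⟨r, hr, hrp⟩ := exists_Rx hΦ hκ p
      exact ⟨⟨r, hr⟩, hrp⟩) hD hFr n P

end Pool.Agent.Lib.MP_89bcae_ag.Bra

end

section

/-!
# The theorem on the coverings branched along graphs, from the theorem on Selmer groups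
-/

open Polynomial Filter Topology

open scoped Classical

namespace Pool.Agent.Lib.MP_89bcae_ag.Bra

open Superelliptic

theorem graphTate {ℓ : ℕ} (hℓ : ℓ.Prime) {k : Type} [Field k] (hk : (ℓ : k) ≠ 0) {ι : Type}
    [LinearOrder ι] {n : ℕ} {v : ι × Fin (n + 1) → ℤ} {I : Finset ι} {W : I → ℕ}
    (hW : ∀ i, (W i).Coprime ℓ) (hs : (∑ i, W i).Coprime ℓ)
    (h : Graph.HasNoTateClasses ℓ k v I W) : GraphTate ℓ k v I W := by
  refine ⟨h.1, ?_, ?_⟩
  · intro F K S _ _ _ _ _ _ _ _ t x y hK k' hk'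
    refine brauer_arrangement hℓ hk W hW hs _ h.1 ?_ hK k' hk'
    intro L Ω _ _ _ _ _ _ k'' hk''
    exact tateClassesTorsionN8' (h.2 F L Ω k'' hk'')
  · intro F K _ _ _ _ _ t x y hK n P
    refine picard_arrangement hℓ hk W hW hs _ h.1 ?_ hK n P
    intro L Ω _ _ _ _ _ _ k'' hk''
    exact tateClassesTorsionN8' (h.2 F L Ω k'' hk'')

theorem natCast_zmod_ne_zero {ℓ q : ℕ} (hℓ : ℓ.Prime) [Fact q.Prime] (h : ℓ < q) :
    (ℓ : ZMod q) ≠ 0 := by
  rw [Ne, ZMod.natCast_eq_zero_iff]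
  intro h1
  exact absurd (Nat.le_of_dvd hℓ.pos h1) (by omega)

end Pool.Agent.Lib.MP_89bcae_ag.Bra

end
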