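import Mathlib
import Pool.Agent.Lib.MP_89bcae_ag.DefsN8

/-!
# Families of lines of the projective plane with integral coefficients, over a field `k`
-/

open Polynomial

namespace Pool.Agent.Lib.MP_89bcae_ag.Superelliptic.Over

variable {k : Type} [Field k]

/-- For a family `v` of lines `v(i, 0) X + v(i, 1) Y + v(i, 2) Z = 0` of the projective plane over `k`:
the coefficients of the line `i` in the coordinates `x`, `t`, `z` with `(X, Y, Z) = g (x, t, z)`. -/
noncomputable def lineCoeff {ι : Type} (v : ι × Fin 3 → ℤ) (g : Matrix (Fin 3) (Fin 3) k) (i : ι)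
    (j : Fin 3) : k :=
  ∑ l, (v (i, l) : k) * g l j

/-- `x`, `t` (with `z = 1`) are affine coordinates of the plane over `k` such that the line `i₀` is the
line at infinity `z = 0`, and the lines `i` in `I` are not of the form `t = constant`. -/
structure IsChart {ι : Type} (v : ι × Fin 3 → ℤ) (g : Matrix (Fin 3) (Fin 3) k) (i₀ : ι)
    (I : Finset ι) : Prop where
  det_ne_zero : g.det ≠ 0
  at_infinity : lineCoeff v g i₀ 0 = 0 ∧ lineCoeff v g i₀ 1 = 0
  ne_zero : ∀ i ∈ I, lineCoeff v g i 0 ≠ 0

/-- The polynomial `α` such that the line `i` is `x = α(t)`. -/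
noncomputable def linePoly {ι : Type} (v : ι × Fin 3 → ℤ) (g : Matrix (Fin 3) (Fin 3) k) (i : ι) :
    k[X] :=
  C (-(lineCoeff v g i 2 / lineCoeff v g i 0)) + C (-(lineCoeff v g i 1 / lineCoeff v g i 0)) * X

/-- There are affine coordinates `x`, `t` of the plane over `k` such that the line `i₀` is the line at
infinity and the lines `i` in `I` are the lines `x = α_i(t)`, the `α_i - α_j` being nonconstant with
separable product; and for all such coordinates and all finite extensions `k'` of `k` in an algebraic
closure `F` of `k`, every class of the `ℓ`-adic Selmer group over `F(t)` of the Jacobian of the smooth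
projective model of the curve `y ^ ℓ = ∏ (x - α_i(t)) ^ W_i` which is fixed (up to torsion) by the
automorphisms over `k'(t)` is killed by `ℓ`. -/
def HasNoTateClasses (ℓ : ℕ) (k : Type) [Field k] {ι : Type} [LinearOrder ι] (v : ι × Fin 3 → ℤ)
    (i₀ : ι) (I : Finset ι) (W : I → ℕ) : Prop :=
  (∃ g : Matrix (Fin 3) (Fin 3) k, IsChart v g i₀ I ∧
    IsArrangement fun i : I => linePoly v g i) ∧
  ∀ (F L Ω : Type) [Field F] [Algebra k F] [IsAlgClosure k F] [Field L] [Algebra F[X] L]
    [IsFractionRing F[X] L] [Field Ω] [Algebra L Ω] [IsAlgClosure L Ω]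
    (g : Matrix (Fin 3) (Fin 3) k), IsChart v g i₀ I →
    (IsArrangement fun i : I => linePoly v g i) →
    ∀ k' : IntermediateField k F, FiniteDimensional k k' →
      Nrm.TateClassesTorsionW ℓ L Ω W (fun i : I => linePoly v g i) k'

end Pool.Agent.Lib.MP_89bcae_ag.Superelliptic.Over
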