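import Mathlib
import Pool.Agent.Lib.MP_89bcae_ag.Bk.K006
import Pool.Agent.Lib.MP_89bcae_ag.Bk.K051
import Pool.Agent.Lib.MP_89bcae_ag.DefsM8

namespace Pool.Agent.Lib.MP_89bcae_ag.Sup.Lns
end Pool.Agent.Lib.MP_89bcae_ag.Sup.Lns
namespace Pool.Agent.Lib.MP_89bcae_ag.Superelliptic
end Pool.Agent.Lib.MP_89bcae_ag.Superelliptic

section

/-!
# Families of lines of the projective plane with integral coefficients
-/

open Polynomial

namespace Pool.Agent.Lib.MP_89bcae_ag.Superelliptic

/-- For a family `v` of lines `v(i, 0) X + v(i, 1) Y + v(i, 2) Z = 0` of the projective plane: the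
coefficients of the line `i` in the coordinates `x`, `t`, `z` with `(X, Y, Z) = g (x, t, z)`. -/
noncomputable def lineCoeff {ι : Type} (v : ι × Fin 3 → ℤ) (g : Matrix (Fin 3) (Fin 3) ℚ) (i : ι)
    (j : Fin 3) : ℚ :=
  ∑ l, (v (i, l) : ℚ) * g l j

/-- `x`, `t` (with `z = 1`) are affine coordinates of the plane such that the line `i₀` is the line at
infinity `z = 0`, and the lines `i` in `I` are not of the form `t = constant`. -/
structure IsChart {ι : Type} (v : ι × Fin 3 → ℤ) (g : Matrix (Fin 3) (Fin 3) ℚ) (i₀ : ι)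
    (I : Finset ι) : Prop where
  det_ne_zero : g.det ≠ 0
  at_infinity : lineCoeff v g i₀ 0 = 0 ∧ lineCoeff v g i₀ 1 = 0
  ne_zero : ∀ i ∈ I, lineCoeff v g i 0 ≠ 0

/-- The polynomial `α` such that the line `i` is `x = α(t)`. -/
noncomputable def linePoly {ι : Type} (v : ι × Fin 3 → ℤ) (g : Matrix (Fin 3) (Fin 3) ℚ) (i : ι) :
    ℚ[X] :=
  C (-(lineCoeff v g i 2 / lineCoeff v g i 0)) + C (-(lineCoeff v g i 1 / lineCoeff v g i 0)) * X

end Pool.Agent.Lib.MP_89bcae_ag.Superelliptic

end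

section

/-!
# Antisymmetric functions on pairs: a criterion to be a coboundary
-/

open scoped Classical

set_option linter.unusedSimpArgs false

namespace Pool.Agent.Lib.MP_89bcae_ag

variable {ι : Type} {F : Type} [Field F]

/-- The antisymmetric function of the oriented triangle `i j l` with weights: its value on an edge is
the weight of the opposite vertex. -/
noncomputable def triw14 (w : ι → F) (i j l a b : ι) : F :=
  (if a = i ∧ b = j then w l else 0) + (if a = j ∧ b = l then w i else 0) +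
    (if a = l ∧ b = i then w j else 0) - (if b = i ∧ a = j then w l else 0) -
    (if b = j ∧ a = l then w i else 0) - (if b = l ∧ a = i then w j else 0)

/-- If the sums over all the triangles vanish the function is a coboundary. -/
lemma cut_of_zero14 [Nonempty ι] (ε : ι → ι → F) (hε : ∀ i j, i ≠ j → ε j i = - ε i j)
    (h : ∀ i j l, i ≠ j → j ≠ l → i ≠ l → ε i j + ε j l + ε l i = 0) :
    ∃ a : ι → F, ∀ i j, i ≠ j → ε i j = a j - a i := by
  obtain ⟨o⟩ := ‹Nonempty ι›
  refine ⟨fun j => if j = o then 0 else ε o j, fun i j hij => ?_⟩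
  beta_reduce
  by_cases hi : i = o
  · subst hi
    rw [if_pos rfl, if_neg (Ne.symm hij), sub_zero]
  · by_cases hj : j = o
    · subst hj
      rw [if_pos rfl, if_neg hi, zero_sub, hε i j hij, neg_neg]
    · rw [if_neg hi, if_neg hj]
      have h1 := h o i j (Ne.symm hi) hij (Ne.symm hj)
      have h2 := hε o j (Ne.symm hj)
      rw [h2] at h1
      linear_combination h1

/-- The criterion. -/
theorem cut_of_triw14 [Fintype ι] (hm : 4 ≤ Fintype.card ι) (w : ι → F) (hw : ∀ i, w i ≠ 0)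
    (hs : ∑ i, w i ≠ 0) (h2 : (2 : F) = 0 → ∀ i, w i = 1) (ε : ι → ι → F)
    (hε : ∀ i j, i ≠ j → ε j i = - ε i j)
    (H : ∀ i j l, i ≠ j → j ≠ l → i ≠ l → ∃ (k : F) (γ : ι → F), ∀ a b, a ≠ b →
      k * ε a b + γ a - γ b = (ε i j + ε j l + ε l i) * triw14 w i j l a b) :
    ∃ a : ι → F, ∀ i j, i ≠ j → ε i j = a j - a i := by
  have : Nonempty ι := by
    rw [← Fintype.card_pos_iff]
    omega
  apply cut_of_zero14 ε hε
  by_contra hcon
  push Not at hcon
  obtain ⟨i, j, l, hij, hjl, hil, hne⟩ := hcon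
  -- the general identity
  have key : ∀ i j l, i ≠ j → j ≠ l → i ≠ l → ∃ k : F, ∀ a b c, a ≠ b → b ≠ c → a ≠ c →
      k * (ε a b + ε b c + ε c a) = (ε i j + ε j l + ε l i) *
        (triw14 w i j l a b + triw14 w i j l b c + triw14 w i j l c a) := by
    intro i j l hij hjl hil
    obtain ⟨k, γ, hk⟩ := H i j l hij hjl hil
    refine ⟨k, fun a b c hab hbc hac => ?_⟩
    linear_combination hk a b hab + hk b c hbc + hk c a (Ne.symm hac)
  have hk3 : ∀ i j l, i ≠ j → j ≠ l → i ≠ l → ε i j + ε j l + ε l i ≠ 0 →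
      ∀ a b c, a ≠ b → b ≠ c → a ≠ c →
      (w i + w j + w l) * (ε a b + ε b c + ε c a) = (ε i j + ε j l + ε l i) *
        (triw14 w i j l a b + triw14 w i j l b c + triw14 w i j l c a) := by
    intro i j l hij hjl hil hne
    obtain ⟨k, hk⟩ := key i j l hij hjl hil
    have h1 := hk i j l hij hjl hil
    have e1 : triw14 w i j l i j = w l := by
      simp [triw14, hij, hij.symm, hjl, hjl.symm, hil, hil.symm]
    have e2 : triw14 w i j l j l = w i := by
      simp [triw14, hij, hij.symm, hjl, hjl.symm, hil, hil.symm]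
    have e3 : triw14 w i j l l i = w j := by
      simp [triw14, hij, hij.symm, hjl, hjl.symm, hil, hil.symm]
    rw [e1, e2, e3] at h1
    have h2 : k = w i + w j + w l := by
      apply mul_right_cancel₀ hne
      rw [h1]
      ring
    rw [h2] at hk
    exact hk
  -- one step: a fourth index `d` and the edge `i j`
  have step : ∀ i j l d, i ≠ j → j ≠ l → i ≠ l → d ≠ i → d ≠ j → d ≠ l →
      ε i j + ε j l + ε l i ≠ 0 → ε i j + ε j d + ε d i ≠ 0 ∧
        (w i + w j) * (w i + w j + w l + w d) = 0 := by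
    intro i j l d hij hjl hil hdi hdj hdl hne
    have h1 := hk3 i j l hij hjl hil hne i j d hij (Ne.symm hdj) (Ne.symm hdi)
    have e1 : triw14 w i j l i j = w l := by
      simp [triw14, hij, hij.symm, hjl, hjl.symm, hil, hil.symm]
    have e2 : triw14 w i j l j d = 0 := by
      simp [triw14, hij, hij.symm, hjl, hjl.symm, hil, hil.symm, hdi, hdj, hdl, Ne.symm hdi,
        Ne.symm hdj, Ne.symm hdl]
    have e3 : triw14 w i j l d i = 0 := by
      simp [triw14, hij, hij.symm, hjl, hjl.symm, hil, hil.symm, hdi, hdj, hdl, Ne.symm hdi,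
        Ne.symm hdj, Ne.symm hdl]
    rw [e1, e2, e3, add_zero, add_zero] at h1
    have hne' : ε i j + ε j d + ε d i ≠ 0 := by
      intro h0
      rw [h0, mul_zero] at h1
      exact mul_ne_zero hne (hw l) h1.symm
    refine ⟨hne', ?_⟩
    have h2 := hk3 i j d hij (Ne.symm hdj) (Ne.symm hdi) hne' i j l hij hjl hil
    have e4 : triw14 w i j d i j = w d := by
      simp [triw14, hij, hij.symm, hdi, hdj, Ne.symm hdi, Ne.symm hdj]
    have e5 : triw14 w i j d j l = 0 := by
      simp [triw14, hij, hij.symm, hjl, hjl.symm, hil, hil.symm, hdi, hdj, hdl, Ne.symm hdi,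
        Ne.symm hdj, Ne.symm hdl]
    have e6 : triw14 w i j d l i = 0 := by
      simp [triw14, hij, hij.symm, hjl, hjl.symm, hil, hil.symm, hdi, hdj, hdl, Ne.symm hdi,
        Ne.symm hdj, Ne.symm hdl]
    rw [e4, e5, e6, add_zero, add_zero] at h2
    have h3 : (ε i j + ε j l + ε l i) * ((w i + w j) * (w i + w j + w l + w d)) = 0 := by
      linear_combination (w d) * h1 + (w i + w j + w l) * h2
    exact (mul_eq_zero.1 h3).resolve_left hne
  -- the sum of four weights vanishes
  have sum4 : ∀ i j l d, i ≠ j → j ≠ l → i ≠ l → d ≠ i → d ≠ j → d ≠ l →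
      ε i j + ε j l + ε l i ≠ 0 → w i + w j + w l + w d = 0 := by
    intro i j l d hij hjl hil hdi hdj hdl hne
    by_contra hS
    have a1 := (step i j l d hij hjl hil hdi hdj hdl hne).2
    have a2 := (step j l i d hjl hil.symm hij.symm hdj hdl hdi
      (fun h => hne (by linear_combination h))).2
    have a3 := (step l i j d hil.symm hij hjl.symm hdl hdi hdj
      (fun h => hne (by linear_combination h))).2
    have b1 := (mul_eq_zero.1 a1).resolve_right hS
    have b2 := (mul_eq_zero.1 a2).resolve_right (by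
      intro h
      apply hS
      linear_combination h)
    have b3 := (mul_eq_zero.1 a3).resolve_right (by
      intro h
      apply hS
      linear_combination h)
    have b4 : (2 : F) * w i = 0 := by linear_combination b1 + b3 - b2
    rcases mul_eq_zero.1 b4 with h | h
    · apply hS
      rw [h2 h i, h2 h j, h2 h l, h2 h d]
      linear_combination 2 * h
    · exact hw i h
  -- a fourth index
  obtain ⟨d, hd⟩ : ∃ d, d ∉ ({i, j, l} : Finset ι) := by
    by_contra h
    push Not at h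
    have h1 : Fintype.card ι ≤ ({i, j, l} : Finset ι).card := by
      rw [← Finset.card_univ]
      exact Finset.card_le_card fun x _ => h x
    have h2 : ({i, j, l} : Finset ι).card ≤ 3 := Finset.card_le_three
    omega
  simp only [Finset.mem_insert, Finset.mem_singleton, not_or] at hd
  obtain ⟨hdi, hdj, hdl⟩ := hd
  have h4 := sum4 i j l d hij hjl hil hdi hdj hdl hne
  by_cases h5 : ∃ f, f ∉ ({i, j, l, d} : Finset ι)
  · obtain ⟨f, hf⟩ := h5
    simp only [Finset.mem_insert, Finset.mem_singleton, not_or] at hf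
    obtain ⟨hfi, hfj, hfl, hfd⟩ := hf
    have h4' := sum4 i j l f hij hjl hil hfi hfj hfl hne
    have hne' := (step i j l d hij hjl hil hdi hdj hdl hne).1
    have hA := hk3 i j l hij hjl hil hne i d f (Ne.symm hdi) (Ne.symm hfd) (Ne.symm hfi)
    have hB := hk3 i j d hij (Ne.symm hdj) (Ne.symm hdi) hne' i d f (Ne.symm hdi) (Ne.symm hfd)
      (Ne.symm hfi)
    have e1 : triw14 w i j l i d = 0 := by
      simp [triw14, hij, hij.symm, hjl, hjl.symm, hil, hil.symm, hdi, hdj, hdl, Ne.symm hdi,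
        Ne.symm hdj, Ne.symm hdl]
    have e2 : triw14 w i j l d f = 0 := by
      simp [triw14, hij, hij.symm, hjl, hjl.symm, hil, hil.symm, hdi, hdj, hdl, Ne.symm hdi,
        Ne.symm hdj, Ne.symm hdl, hfi, hfj, hfl, hfd]
    have e3 : triw14 w i j l f i = 0 := by
      simp [triw14, hij, hij.symm, hjl, hjl.symm, hil, hil.symm, hfi, hfj, hfl, Ne.symm hfi,
        Ne.symm hfj, Ne.symm hfl]
    have e4 : triw14 w i j d i d = -w j := by
      simp [triw14, hij, hij.symm, hdi, hdj, Ne.symm hdi, Ne.symm hdj]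
    have e5 : triw14 w i j d d f = 0 := by
      simp [triw14, hij, hij.symm, hdi, hdj, Ne.symm hdi, Ne.symm hdj, hfi, hfj, hfd, Ne.symm hfd]
    have e6 : triw14 w i j d f i = 0 := by
      simp [triw14, hij, hij.symm, hdi, hdj, Ne.symm hdi, Ne.symm hdj, hfi, hfj, hfd, Ne.symm hfd,
        Ne.symm hfi, Ne.symm hfj]
    rw [e1, e2, e3, add_zero, add_zero, mul_zero] at hA
    rw [e4, e5, e6, add_zero, add_zero] at hB
    have hW : w i + w j + w l ≠ 0 := by
      intro h0
      apply hw d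
      linear_combination h4 - h0
    have h0 := (mul_eq_zero.1 hA).resolve_left hW
    rw [h0, mul_zero] at hB
    exact mul_ne_zero hne' (neg_ne_zero.2 (hw j)) hB.symm
  · push Not at h5
    apply hs
    have h6 : (Finset.univ : Finset ι) = {i, j, l, d} := by
      ext x
      exact ⟨fun _ => h5 x, fun _ => Finset.mem_univ x⟩
    rw [h6, Finset.sum_insert (by simp [hij, hil, Ne.symm hdi]),
      Finset.sum_insert (by simp [hjl, Ne.symm hdj]), Finset.sum_pair (Ne.symm hdl)]
    linear_combination h4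

end Pool.Agent.Lib.MP_89bcae_ag

end

section

/-!
# Lines over a field: the arithmetic condition, second part
-/

open Polynomial

open scoped Classical

set_option linter.unusedSectionVars false
set_option linter.unusedSimpArgs false
set_option linter.style.haveILetI false

namespace Pool.Agent.Lib.MP_89bcae_ag

universe u

open Sup.Lns (SS mem_SS AGeom)

variable {ι : Type} [Fintype ι] [LinearOrder ι] {k : Type u} [Field k] {v : ι ⊕ ι → k}

lemma Gen14.nd_mem (h : Gen14 v) {i j : ι} (hij : i ≠ j) : nd14 v i j ∈ SS (lin14 v) :=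
  (mem_SS h.geom).2 ⟨i, j, hij, (h.eval_eq hij _).2 rfl⟩

lemma Gen14.mem_SS_iff (h : Gen14 v) {s : k} :
    s ∈ SS (lin14 v) ↔ ∃ i j, i ≠ j ∧ s = nd14 v i j := by
  rw [mem_SS h.geom]
  constructor
  · rintro ⟨i, j, hij, hs⟩
    exact ⟨i, j, hij, (h.eval_eq hij s).1 hs⟩
  · rintro ⟨i, j, hij, hs⟩
    exact ⟨i, j, hij, (h.eval_eq hij s).2 hs⟩

lemma Gen14.nd_inj (h : Gen14 v) {i j a b : ι} (hij : i ≠ j) (hab : a ≠ b)
    (he : nd14 v i j = nd14 v a b) : (a = i ∧ b = j) ∨ (a = j ∧ b = i) :=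
  h.geom.pair hij hab ((h.eval_eq hij _).2 rfl) ((h.eval_eq hab _).2 he)

/-- The sum over the nodes of the line `i`. -/
lemma Gen14.sum_nodes (h : Gen14 v) {F : Type} [Field F] (i j : ι) (hij : i ≠ j) (f : k → F)
    (hf : ∀ a b, a ≠ b → a ≠ i → b ≠ i → f (nd14 v a b) = 0) (g : k → F) :
    ∑ s ∈ (SS (lin14 v)).erase (nd14 v i j), f s * g s =
      ∑ l ∈ Finset.univ.filter (fun l => l ≠ i ∧ l ≠ j), f (nd14 v i l) * g (nd14 v i l) := by
  have hinj : ∀ l ∈ Finset.univ.filter (fun l => l ≠ i ∧ l ≠ j), ∀ l' ∈ Finset.univ.filter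
      (fun l => l ≠ i ∧ l ≠ j), nd14 v i l = nd14 v i l' → l = l' := by
    intro l hl l' hl' he
    rw [Finset.mem_filter] at hl hl'
    rcases h.nd_inj hl.2.1.symm hl'.2.1.symm he with hh | hh
    · exact hh.2.symm
    · exact absurd hh.2 hl'.2.1
  rw [← Finset.sum_image (f := fun s => f s * g s) hinj]
  symm
  apply Finset.sum_subset
  · intro s hs
    obtain ⟨l, hl, rfl⟩ := Finset.mem_image.1 hs
    rw [Finset.mem_filter] at hl
    refine Finset.mem_erase.2 ⟨fun he => ?_, h.nd_mem hl.2.1.symm⟩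
    rcases h.nd_inj hij hl.2.1.symm he.symm with hh | hh
    · exact hl.2.2 hh.2
    · exact hij hh.1
  · intro s hs hs'
    rw [Finset.mem_erase, h.mem_SS_iff] at hs
    obtain ⟨hne, a, b, hab, rfl⟩ := hs
    rw [hf a b hab, zero_mul]
    · rintro rfl
      apply hs'
      refine Finset.mem_image.2 ⟨b, Finset.mem_filter.2 ⟨Finset.mem_univ b, hab.symm, ?_⟩, rfl⟩
      rintro rfl
      exact hne rfl
    · rintro rfl
      apply hs'
      refine Finset.mem_image.2 ⟨a, Finset.mem_filter.2 ⟨Finset.mem_univ a, hab, ?_⟩,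
        nd14_symm _ _⟩
      rintro rfl
      exact hne (nd14_symm _ _)


end Pool.Agent.Lib.MP_89bcae_ag

end

section

/-!
# Lines over a field: `ArrangementIndependent` and `IsArrangement`
-/

open Polynomial

open scoped Classical

set_option linter.unusedSectionVars false
set_option linter.unusedSimpArgs false
set_option linter.style.haveILetI false

namespace Pool.Agent.Lib.MP_89bcae_ag

universe u

open Sup.Lns (SS mem_SS AGeom)

variable {ι : Type} [Fintype ι] [LinearOrder ι] {k : Type u} [Field k] {v : ι ⊕ ι → k}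

lemma Gen14.isArrangement (h : Gen14 v) : Superelliptic.IsArrangement (lin14 v) :=
  ⟨h.geom.sep, h.geom.pos⟩

lemma aeval_map14 {F : Type u} [Field F] [Algebra k F] (x : k) (p : k[X]) :
    aeval (algebraMap k F x) p = algebraMap k F (p.eval x) := by
  rw [aeval_algebraMap_apply, coe_aeval_eq_eval]

lemma Gen14.aeval_eq (h : Gen14 v) {F : Type u} [Field F] [Algebra k F] {i j : ι} (hij : i ≠ j)
    (s : F) : aeval s (lin14 v i) = aeval s (lin14 v j) ↔ s = algebraMap k F (nd14 v i j) := by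
  constructor
  · intro hs
    rw [← sub_eq_zero, ← map_sub, lin14_sub] at hs
    simp only [map_add, aeval_C, map_mul, aeval_X] at hs
    have h0 := h.slope_ne hij
    have h1 : algebraMap k F (v (Sum.inr i) - v (Sum.inr j)) ≠ 0 :=
      (map_ne_zero_iff _ (algebraMap k F).injective).2 h0
    unfold nd14
    rw [← neg_div, map_div₀, map_neg, eq_div_iff h1]
    linear_combination hs
  · rintro rfl
    rw [aeval_map14, aeval_map14, (h.eval_eq hij _).2 rfl]

lemma Gen14.nodes_eq (h : Gen14 v) (F : Type u) [Field F] [Algebra k F] :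
    Superelliptic.nodes k F (lin14 v) = algebraMap k F '' (SS (lin14 v) : Set k) := by
  ext s
  constructor
  · rintro ⟨i, j, hij, hs⟩
    exact ⟨nd14 v i j, h.nd_mem hij, ((h.aeval_eq hij s).1 hs).symm⟩
  · rintro ⟨x, hx, rfl⟩
    obtain ⟨i, j, hij, rfl⟩ := h.mem_SS_iff.1 hx
    exact ⟨i, j, hij, (h.aeval_eq hij _).2 rfl⟩


end Pool.Agent.Lib.MP_89bcae_ag

end

section

/-!
# Lines over a field with weights: the arithmetic condition
-/

open Polynomial

open scoped Classical

set_option linter.unusedSectionVars false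
set_option linter.unusedSimpArgs false
set_option linter.style.haveILetI false

namespace Pool.Agent.Lib.MP_89bcae_ag

universe u

lemma zmod_two14 : ∀ x : ZMod 2, x ≠ 0 → x = 1 := by decide

variable {ι : Type} [Fintype ι] [LinearOrder ι]

section comb

variable {F : Type} [Field F]

/-- If only the triangle `i j l` counts, with weights. -/
lemma tri14w_value (w : ι → F) (d : ι → ι → ι → F) (r : F) (ε : ι → ι → F)
    (hε : ∀ i j, i ≠ j → ε j i = -ε i j) {i j l : ι} (hij : i ≠ j) (hjl : j ≠ l) (hil : i ≠ l)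
    (h1 : ∀ a b c, a ≠ b → b ≠ c → a ≠ c → a ∈ ({i, j, l} : Set ι) → b ∈ ({i, j, l} : Set ι) →
      c ∈ ({i, j, l} : Set ι) → d a b c = r)
    (h0 : ∀ a b c, a ≠ b → b ≠ c → a ≠ c →
      ¬ (a ∈ ({i, j, l} : Set ι) ∧ b ∈ ({i, j, l} : Set ι) ∧ c ∈ ({i, j, l} : Set ι)) →
        d a b c = 0) {a b : ι} (hab : a ≠ b) :
    ∑ m ∈ Finset.univ.filter (fun m => m ≠ a ∧ m ≠ b),
      w m * d a b m * (ε a b + ε b m + ε m a) =
        r * ((ε i j + ε j l + ε l i) * triw14 w i j l a b) := by
  have hz : ∀ {a b c : ι}, a ≠ b → (∀ l', l' ≠ a → l' ≠ b → l' ≠ c → l' ∉ ({i, j, l} : Set ι)) →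
      ∀ l', l' ≠ a → l' ≠ b → l' ≠ c → w l' * d a b l' = 0 := by
    intro a b c hab hc l' hla hlb hlc
    rw [h0 a b l' hab hlb.symm hla.symm fun hh => hc l' hla hlb hlc hh.2.2, mul_zero]
  have e1 := hε i j hij
  have e2 := hε j l hjl
  have e3 := hε l i hil.symm
  by_cases ha : a ∈ ({i, j, l} : Set ι)
  swap
  · rw [Finset.sum_eq_zero]
    · have : triw14 w i j l a b = 0 := by
        simp only [Set.mem_insert_iff, Set.mem_singleton_iff, not_or] at ha
        simp [triw14, ha.1, ha.2.1, ha.2.2]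
      rw [this, mul_zero, mul_zero]
    · intro m hm
      rw [Finset.mem_filter] at hm
      rw [h0 a b m hab hm.2.2.symm hm.2.1.symm fun hh => ha hh.1, mul_zero, zero_mul]
  by_cases hb : b ∈ ({i, j, l} : Set ι)
  swap
  · rw [Finset.sum_eq_zero]
    · have : triw14 w i j l a b = 0 := by
        simp only [Set.mem_insert_iff, Set.mem_singleton_iff, not_or] at hb
        simp [triw14, hb.1, hb.2.1, hb.2.2]
      rw [this, mul_zero, mul_zero]
    · intro m hm
      rw [Finset.mem_filter] at hm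
      rw [h0 a b m hab hm.2.2.symm hm.2.1.symm fun hh => hb hh.2.1, mul_zero, zero_mul]
  have hd : ∀ c, a ≠ c → b ≠ c → c ∈ ({i, j, l} : Set ι) → w c * d a b c = w c * r := by
    intro c hac hbc hc
    rw [h1 a b c hab hbc hac ha hb hc]
  simp only [Set.mem_insert_iff, Set.mem_singleton_iff] at ha hb
  rcases ha with rfl | rfl | rfl <;> rcases hb with rfl | rfl | rfl
  · exact absurd rfl hab
  · rw [sum_third14 (fun m => w m * d a b m) ε hil hjl (hd l hil hjl (by simp))
      (hz hij (by simp; tauto))]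
    have : triw14 w a b l a b = w l := by
      simp [triw14, hij, hij.symm, hjl, hjl.symm, hil, hil.symm]
    rw [this]
    ring
  · rw [sum_third14 (fun m => w m * d a b m) ε hij hjl.symm (hd j hij hjl.symm (by simp))
      (hz hil (by simp; tauto))]
    have : triw14 w a j b a b = -w j := by
      simp [triw14, hij, hij.symm, hjl, hjl.symm, hil, hil.symm]
    rw [this]
    linear_combination w j * r * (e1 + e2 + e3)
  · rw [sum_third14 (fun m => w m * d a b m) ε hjl hil (hd l hjl hil (by simp))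
      (hz hij.symm (by simp; tauto))]
    have : triw14 w b a l a b = -w l := by
      simp [triw14, hij, hij.symm, hjl, hjl.symm, hil, hil.symm]
    rw [this]
    linear_combination w l * r * (e1 + e2 + e3)
  · exact absurd rfl hab
  · rw [sum_third14 (fun m => w m * d a b m) ε hij.symm hil.symm
      (hd i hij.symm hil.symm (by simp)) (hz hjl (by simp; tauto))]
    have : triw14 w i a b a b = w i := by
      simp [triw14, hij, hij.symm, hjl, hjl.symm, hil, hil.symm]
    rw [this]
    ring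
  · rw [sum_third14 (fun m => w m * d a b m) ε hjl.symm hij (hd j hjl.symm hij (by simp))
      (hz hil.symm (by simp; tauto))]
    have : triw14 w b j a a b = w j := by
      simp [triw14, hij, hij.symm, hjl, hjl.symm, hil, hil.symm]
    rw [this]
    ring
  · rw [sum_third14 (fun m => w m * d a b m) ε hil.symm hij.symm
      (hd i hil.symm hij.symm (by simp)) (hz hjl.symm (by simp; tauto))]
    have : triw14 w i b a a b = -w i := by
      simp [triw14, hij, hij.symm, hjl, hjl.symm, hil, hil.symm]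
    rw [this]
    linear_combination w i * r * (e1 + e2 + e3)
  · exact absurd rfl hab

end comb

variable {k : Type u} [Field k] {v : ι ⊕ ι → k}

open Sup.Lns (SS mem_SS AGeom)

/-- **The criterion over `k` with weights, in terms of the homomorphisms to `ZMod ℓ`.** -/
theorem Gen14.cut_kw (h : Gen14 v) {ℓ : ℕ} [Fact ℓ.Prime] (hm : 4 ≤ Fintype.card ι)
    (w : ι → ZMod ℓ) (hw : ∀ i, w i ≠ 0) (hws : ∑ i, w i ≠ 0)
    (HV : ∀ i j l, i ≠ j → j ≠ l → i ≠ l → ∃ V : Val14 k ℓ, HV14 v V i j l)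
    (ε : ι → ι → ZMod ℓ) (hε : ∀ i j, i ≠ j → ε j i = -ε i j) (κ : k) (c : ι → k)
    (hpow : ∀ V : Val14 k ℓ, ∀ i j, i ≠ j →
      ε i j * V.ν κ + (V.ν (c i) - V.ν (c j)) -
        (w i + w j) * ε i j * V.ν (v (Sum.inr i) - v (Sum.inr j)) -
        ε i j * ∑ l ∈ Finset.univ.filter (fun l => l ≠ i ∧ l ≠ j),
          w l * V.ν ((lin14 v i).eval (nd14 v i j) - (lin14 v l).eval (nd14 v i j)) +
        (∑ l ∈ Finset.univ.filter (fun l => l ≠ i ∧ l ≠ j),
            w l * ε i l * V.ν (nd14 v i j - nd14 v i l) -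
          ∑ l ∈ Finset.univ.filter (fun l => l ≠ i ∧ l ≠ j),
            w l * ε j l * V.ν (nd14 v i j - nd14 v j l)) = 0) :
    ∃ b : ι → ZMod ℓ, ∀ i j, i ≠ j → ε i j = b j - b i := by
  have hℓ : ℓ.Prime := Fact.out
  have h2 : (2 : ZMod ℓ) = 0 → ∀ i, w i = 1 := by
    intro h2 i
    have h3 : ℓ ∣ 2 := by
      rw [← ZMod.natCast_eq_zero_iff]
      exact_mod_cast h2
    have h4 : ℓ = 2 := (Nat.prime_dvd_prime_iff_eq hℓ Nat.prime_two).1 h3
    subst h4
    exact zmod_two14 _ (hw i)
  refine cut_of_triw14 hm w hw hws h2 ε hε ?_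
  intro i₀ j₀ l₀ hij₀ hjl₀ hil₀
  obtain ⟨V, m₀, μ, r, hr, hV1, hV0⟩ := HV i₀ j₀ l₀ hij₀ hjl₀ hil₀
  have hslope : ∀ i j, i ≠ j → V.ν (v (Sum.inr i) - v (Sum.inr j)) =
      m₀ + μ (some i) + μ (some j) + μ none := by
    intro i j hij
    rw [← brk14_none]
    refine hV0 (some i) (some j) none (by simpa using hij) (by simp) (by simp) ?_
    rintro ⟨-, -, hh⟩
    simp at hh
  -- the brackets
  set δ : ι → ι → ι → ZMod ℓ := fun a b m =>
    V.ν (dd14 v a b m) - (m₀ + μ (some a) + μ (some b) + μ (some m)) with hδ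
  have hδ1 : ∀ a b m, a ≠ b → b ≠ m → a ≠ m → a ∈ ({i₀, j₀, l₀} : Set ι) →
      b ∈ ({i₀, j₀, l₀} : Set ι) → m ∈ ({i₀, j₀, l₀} : Set ι) → δ a b m = r := by
    intro a b m hab hbm ham ha hb hm
    have h1 := nu_perm14 h V hij₀ hjl₀ hil₀ (fun x => μ (some x)) (r := m₀ + r) (by
      rw [hV1]
      ring) a b m hab hbm ham ha hb hm
    rw [hδ]
    beta_reduce
    rw [h1]
    ring
  have hδ0 : ∀ a b m, a ≠ b → b ≠ m → a ≠ m →
      ¬ (a ∈ ({i₀, j₀, l₀} : Set ι) ∧ b ∈ ({i₀, j₀, l₀} : Set ι) ∧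
        m ∈ ({i₀, j₀, l₀} : Set ι)) → δ a b m = 0 := by
    intro a b m hab hbm ham hno
    rw [hδ]
    beta_reduce
    rw [sub_eq_zero]
    refine hV0 (some a) (some b) (some m) (by simpa using hab) (by simpa using hbm)
      (by simpa using ham) fun hh => hno ?_
    simpa using hh
  set E : ι → ZMod ℓ := fun i => ∑ l, w l * ε i l - w i * ε i i with hE
  set M : ZMod ℓ := ∑ l, w l * μ (some l) with hM
  set W : ZMod ℓ := ∑ l, w l with hW
  refine ⟨(V.ν κ - M + W * μ none) / r,
    fun i => (V.ν (c i) - E i * (m₀ + μ (some i) + 2 * μ none)) / r, fun i j hij => ?_⟩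
  -- the equation for `i, j`
  have hval := tri14w_value w δ r ε hε hij₀ hjl₀ hil₀ hδ1 hδ0 hij
  have hν := hpow V i j hij
  set s := nd14 v i j with hs
  set P := Finset.univ.filter (fun l => l ≠ i ∧ l ≠ j) with hP
  have hβ := hslope i j hij
  have hβ0 := h.slope_ne hij
  rw [hβ] at hν
  -- the first sum
  have hS1 : ∑ l ∈ P, w l * V.ν ((lin14 v i).eval s - (lin14 v l).eval s) =
      ∑ l ∈ P, w l * (δ i j l + μ (some l) - μ none) := by
    refine Finset.sum_congr rfl fun l hl => ?_
    have hl' := hl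
    rw [hP, Finset.mem_filter] at hl'
    have h1 := h.dd_ne hij hl'.2.1.symm hl'.2.2.symm
    rw [h.sub1 hij, V.neg (div_ne_zero h1 hβ0), V.div h1 hβ0, hβ, hδ]
    ring
  -- the second sum
  have hS2 : ∑ l ∈ P, w l * ε i l * V.ν (s - nd14 v i l) =
      ∑ l ∈ P, w l * ε i l * (δ i j l - m₀ - μ (some i) - 2 * μ none) := by
    refine Finset.sum_congr rfl fun l hl => ?_
    have hl' := hl
    rw [hP, Finset.mem_filter] at hl'
    have h4 := h.dd_ne hij hl'.2.1.symm hl'.2.2.symm
    have h5 := h.slope_ne hl'.2.1.symm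
    rw [hs, h.sub2 hij hl'.2.1.symm, V.neg (div_ne_zero h4 (mul_ne_zero hβ0 h5)),
      V.div h4 (mul_ne_zero hβ0 h5), V.mul _ _ hβ0 h5, hβ, hslope i l hl'.2.1.symm, hδ]
    ring
  have hS3 : ∑ l ∈ P, w l * ε j l * V.ν (s - nd14 v j l) =
      ∑ l ∈ P, w l * ε j l * (δ i j l - m₀ - μ (some j) - 2 * μ none) := by
    refine Finset.sum_congr rfl fun l hl => ?_
    have hl' := hl
    rw [hP, Finset.mem_filter] at hl'
    have h4 := h.dd_ne hij hl'.2.1.symm hl'.2.2.symm
    have h5 := h.slope_ne hl'.2.2.symm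
    rw [hs, h.sub3 hij hl'.2.2.symm, V.neg (div_ne_zero h4 (mul_ne_zero hβ0 h5)),
      V.div h4 (mul_ne_zero hβ0 h5), V.mul _ _ hβ0 h5, hβ, hslope j l hl'.2.2.symm, hδ]
    ring
  -- the sums over `P`
  have hT1 : ∑ l ∈ P, w l * (δ i j l + μ (some l) - μ none) = ∑ l ∈ P, w l * δ i j l +
      (M - w i * μ (some i) - w j * μ (some j)) - (W - w i - w j) * μ none := by
    have h1 : ∀ l ∈ P, w l * (δ i j l + μ (some l) - μ none) =
        w l * δ i j l + w l * μ (some l) - w l * μ none := fun l _ => by ring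
    rw [Finset.sum_congr rfl h1, Finset.sum_sub_distrib, Finset.sum_add_distrib,
      sum_off14 (fun l => w l * μ (some l)) hij, ← Finset.sum_mul, sum_off14 w hij]
  have hT2 : ∑ l ∈ P, w l * ε i l * (δ i j l - m₀ - μ (some i) - 2 * μ none) =
      ∑ l ∈ P, w l * ε i l * δ i j l - (E i - w j * ε i j) * (m₀ + μ (some i) + 2 * μ none) := by
    have h1 : ∀ l ∈ P, w l * ε i l * (δ i j l - m₀ - μ (some i) - 2 * μ none) =
        w l * ε i l * δ i j l - w l * ε i l * (m₀ + μ (some i) + 2 * μ none) := fun l _ => by ring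
    rw [Finset.sum_congr rfl h1, Finset.sum_sub_distrib, ← Finset.sum_mul,
      sum_off14 (fun l => w l * ε i l) hij]
  have hT3 : ∑ l ∈ P, w l * ε j l * (δ i j l - m₀ - μ (some j) - 2 * μ none) =
      ∑ l ∈ P, w l * ε j l * δ i j l - (E j - w i * ε j i) * (m₀ + μ (some j) + 2 * μ none) := by
    have h1 : ∀ l ∈ P, w l * ε j l * (δ i j l - m₀ - μ (some j) - 2 * μ none) =
        w l * ε j l * δ i j l - w l * ε j l * (m₀ + μ (some j) + 2 * μ none) := fun l _ => by ring
    rw [Finset.sum_congr rfl h1, Finset.sum_sub_distrib, ← Finset.sum_mul,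
      sum_off14 (fun l => w l * ε j l) hij]
    ring
  have hT4 : ∑ m ∈ P, w m * δ i j m * (ε i j + ε j m + ε m i) =
      ε i j * ∑ l ∈ P, w l * δ i j l + ∑ l ∈ P, w l * ε j l * δ i j l -
        ∑ l ∈ P, w l * ε i l * δ i j l := by
    rw [Finset.mul_sum, ← Finset.sum_add_distrib, ← Finset.sum_sub_distrib]
    refine Finset.sum_congr rfl fun l hl => ?_
    rw [hP, Finset.mem_filter] at hl
    rw [hε i l hl.2.1.symm]
    ring
  rw [hT4] at hval
  rw [hS1, hS2, hS3, hT1, hT2, hT3] at hν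
  have hj := hε i j hij
  have hfin : (V.ν κ - M + W * μ none) * ε i j +
      (V.ν (c i) - E i * (m₀ + μ (some i) + 2 * μ none)) -
      (V.ν (c j) - E j * (m₀ + μ (some j) + 2 * μ none)) =
      r * ((ε i₀ j₀ + ε j₀ l₀ + ε l₀ i₀) * triw14 w i₀ j₀ l₀ i j) := by
    linear_combination hval + hν + w i * (m₀ + μ (some j) + 2 * μ none) * hj
  rw [div_mul_eq_mul_div, ← add_div, ← sub_div, div_eq_iff hr, hfin]
  ring

end Pool.Agent.Lib.MP_89bcae_ag

end

section

/-!
# Lines over a field with one homomorphism to `ZMod ℓ`: the linear algebra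
-/

open Polynomial

open scoped Classical

namespace Pool.Agent.Lib.MP_89bcae_ag

universe u

variable {ι : Type} [Fintype ι] [LinearOrder ι] {k : Type u} [Field k] {v : ι ⊕ ι → k}

/-- **The criterion over `k` with one homomorphism `V` to `ZMod ℓ`.** `c₀` are the symbols of the brackets
of the lines and the line at infinity, up to `m₀` and the `μ`. Proof: as `Gen14.cut_kw` (the same
computation with `V.ν (dd14 v i j l) = c₀ {i, j, l} + m₀ + μ_i + μ_j + μ_l`). With
`δ_ijl = c₀ {i, j, l} - c₀ {i, j}` and `φ_ijl = ε i j + ε j l + ε l i` the equation `hpow` is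
`∑_{l ≠ i, j} w_l δ_ijl φ_ijl = z ε i j + f i - f j` where `z = ν(κ) - M + W μ₀`, `M = ∑ w_l μ_l`,
`W = ∑ w_l`, `μ₀ = μ none`, `f i = ν(c i) - C_i - E_i (m₀ + μ_i + 2 μ₀)`, `E_i = ∑_{l ≠ i} w_l ε i l`,
`C_i = ∑_{l ≠ i} w_l c₀ {i, l} ε i l` (checked: `V.ν (nd - nd') ` of `Gen14.sub2` is
`ν(dd) - ν(slope ij) - ν(slope il) = δ_ijl - c₀ {i, l} - m₀ - μ_i - 2 μ₀`, etc.). In `GoodT` the terms
`l = i`, `l = j` are zero because `{i, j, i} = {i, j}`. `hT` gives `ε i j = b i - b j`; take `- b`. -/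
theorem Gen14.cut_good (h : Gen14 v) {ℓ : ℕ} [Fact ℓ.Prime] (w : ι → ZMod ℓ) (V : Val14 k ℓ)
    (c₀ : Finset ι → ZMod ℓ) (m₀ : ZMod ℓ) (μ : Option ι → ZMod ℓ)
    (hV : ∀ i j l, i ≠ j → j ≠ l → i ≠ l →
      V.ν (dd14 v i j l) = c₀ {i, j, l} + m₀ + μ (some i) + μ (some j) + μ (some l))
    (hV0 : ∀ i j, i ≠ j →
      V.ν (v (Sum.inr i) - v (Sum.inr j)) = c₀ {i, j} + m₀ + μ (some i) + μ (some j) + μ none)
    (hT : Lr.GoodT w c₀ Finset.univ)
    (ε : ι → ι → ZMod ℓ) (hε : ∀ i j, i ≠ j → ε j i = -ε i j) (κ : k) (c : ι → k)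
    (hpow : ∀ i j, i ≠ j →
      ε i j * V.ν κ + (V.ν (c i) - V.ν (c j)) -
        (w i + w j) * ε i j * V.ν (v (Sum.inr i) - v (Sum.inr j)) -
        ε i j * ∑ l ∈ Finset.univ.filter (fun l => l ≠ i ∧ l ≠ j),
          w l * V.ν ((lin14 v i).eval (nd14 v i j) - (lin14 v l).eval (nd14 v i j)) +
        (∑ l ∈ Finset.univ.filter (fun l => l ≠ i ∧ l ≠ j),
            w l * ε i l * V.ν (nd14 v i j - nd14 v i l) -
          ∑ l ∈ Finset.univ.filter (fun l => l ≠ i ∧ l ≠ j),
            w l * ε j l * V.ν (nd14 v i j - nd14 v j l)) = 0) :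
    ∃ b : ι → ZMod ℓ, ∀ i j, i ≠ j → ε i j = b j - b i := by
  set E : ι → ZMod ℓ := fun i => ∑ l, w l * ε i l - w i * ε i i with hE
  set Cc : ι → ZMod ℓ := fun i => ∑ l, w l * c₀ {i, l} * ε i l - w i * c₀ {i, i} * ε i i with hCc
  set M : ZMod ℓ := ∑ l, w l * μ (some l) with hM
  set W : ZMod ℓ := ∑ l, w l with hW
  obtain ⟨b, hb⟩ := hT ε (fun i => V.ν (c i) - Cc i - E i * (m₀ + μ (some i) + 2 * μ none))
    (V.ν κ - M + W * μ none) (fun i _ j _ hij => hε i j hij) (by
    intro i _ j _ hij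
    have hν := hpow i j hij
    set s := nd14 v i j with hs
    set P := Finset.univ.filter (fun l => l ≠ i ∧ l ≠ j) with hP
    have hβ := hV0 i j hij
    have hβ0 := h.slope_ne hij
    rw [hβ] at hν
    set δ : ι → ZMod ℓ := fun l => c₀ {i, j, l} - c₀ {i, j} with hδ
    -- the left side
    have hL : ∑ l, w l * (c₀ {i, j, l} - c₀ {i, j}) * (ε i j + ε j l + ε l i) =
        ∑ l ∈ P, w l * δ l * (ε i j + ε j l + ε l i) := by
      rw [hP, Finset.sum_filter]
      refine Finset.sum_congr rfl fun l _ => ?_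
      split_ifs with hl
      · rfl
      · have h0 : c₀ {i, j, l} - c₀ {i, j} = 0 := by
          rw [sub_eq_zero]
          congr 1
          rw [not_and_or, not_not, not_not] at hl
          rcases hl with rfl | rfl
          · ext x
            simp only [Finset.mem_insert, Finset.mem_singleton]
            tauto
          · ext x
            simp only [Finset.mem_insert, Finset.mem_singleton]
            tauto
        rw [h0, mul_zero, zero_mul]
    -- the first sum
    have hS1 : ∑ l ∈ P, w l * V.ν ((lin14 v i).eval s - (lin14 v l).eval s) =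
        ∑ l ∈ P, w l * (δ l + μ (some l) - μ none) := by
      refine Finset.sum_congr rfl fun l hl => ?_
      rw [hP, Finset.mem_filter] at hl
      have h1 := h.dd_ne hij hl.2.1.symm hl.2.2.symm
      rw [h.sub1 hij, V.neg (div_ne_zero h1 hβ0), V.div h1 hβ0, hβ,
        hV i j l hij hl.2.2.symm hl.2.1.symm, hδ]
      ring
    -- the second sum
    have hS2 : ∑ l ∈ P, w l * ε i l * V.ν (s - nd14 v i l) =
        ∑ l ∈ P, w l * ε i l * (δ l - c₀ {i, l} - m₀ - μ (some i) - 2 * μ none) := by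
      refine Finset.sum_congr rfl fun l hl => ?_
      rw [hP, Finset.mem_filter] at hl
      have h4 := h.dd_ne hij hl.2.1.symm hl.2.2.symm
      have h5 := h.slope_ne hl.2.1.symm
      rw [hs, h.sub2 hij hl.2.1.symm, V.neg (div_ne_zero h4 (mul_ne_zero hβ0 h5)),
        V.div h4 (mul_ne_zero hβ0 h5), V.mul _ _ hβ0 h5, hβ, hV0 i l hl.2.1.symm,
        hV i j l hij hl.2.2.symm hl.2.1.symm, hδ]
      ring
    have hS3 : ∑ l ∈ P, w l * ε j l * V.ν (s - nd14 v j l) =
        ∑ l ∈ P, w l * ε j l * (δ l - c₀ {j, l} - m₀ - μ (some j) - 2 * μ none) := by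
      refine Finset.sum_congr rfl fun l hl => ?_
      rw [hP, Finset.mem_filter] at hl
      have h4 := h.dd_ne hij hl.2.1.symm hl.2.2.symm
      have h5 := h.slope_ne hl.2.2.symm
      rw [hs, h.sub3 hij hl.2.2.symm, V.neg (div_ne_zero h4 (mul_ne_zero hβ0 h5)),
        V.div h4 (mul_ne_zero hβ0 h5), V.mul _ _ hβ0 h5, hβ, hV0 j l hl.2.2.symm,
        hV i j l hij hl.2.2.symm hl.2.1.symm, hδ]
      ring
    -- the sums over `P`
    have hT1 : ∑ l ∈ P, w l * (δ l + μ (some l) - μ none) = ∑ l ∈ P, w l * δ l +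
        (M - w i * μ (some i) - w j * μ (some j)) - (W - w i - w j) * μ none := by
      have h1 : ∀ l ∈ P, w l * (δ l + μ (some l) - μ none) =
          w l * δ l + w l * μ (some l) - w l * μ none := fun l _ => by ring
      rw [Finset.sum_congr rfl h1, Finset.sum_sub_distrib, Finset.sum_add_distrib,
        sum_off14 (fun l => w l * μ (some l)) hij, ← Finset.sum_mul, sum_off14 w hij]
    have hT2 : ∑ l ∈ P, w l * ε i l * (δ l - c₀ {i, l} - m₀ - μ (some i) - 2 * μ none) =
        ∑ l ∈ P, w l * ε i l * δ l - (Cc i - w j * c₀ {i, j} * ε i j) -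
          (E i - w j * ε i j) * (m₀ + μ (some i) + 2 * μ none) := by
      have h1 : ∀ l ∈ P, w l * ε i l * (δ l - c₀ {i, l} - m₀ - μ (some i) - 2 * μ none) =
          w l * ε i l * δ l - w l * c₀ {i, l} * ε i l -
            w l * ε i l * (m₀ + μ (some i) + 2 * μ none) := fun l _ => by ring
      rw [Finset.sum_congr rfl h1, Finset.sum_sub_distrib, Finset.sum_sub_distrib,
        ← Finset.sum_mul, sum_off14 (fun l => w l * ε i l) hij,
        sum_off14 (fun l => w l * c₀ {i, l} * ε i l) hij]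
    have hT3 : ∑ l ∈ P, w l * ε j l * (δ l - c₀ {j, l} - m₀ - μ (some j) - 2 * μ none) =
        ∑ l ∈ P, w l * ε j l * δ l - (Cc j - w i * c₀ {i, j} * ε j i) -
          (E j - w i * ε j i) * (m₀ + μ (some j) + 2 * μ none) := by
      have h1 : ∀ l ∈ P, w l * ε j l * (δ l - c₀ {j, l} - m₀ - μ (some j) - 2 * μ none) =
          w l * ε j l * δ l - w l * c₀ {j, l} * ε j l -
            w l * ε j l * (m₀ + μ (some j) + 2 * μ none) := fun l _ => by ring
      rw [Finset.sum_congr rfl h1, Finset.sum_sub_distrib, Finset.sum_sub_distrib,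
        ← Finset.sum_mul, sum_off14 (fun l => w l * ε j l) hij,
        sum_off14 (fun l => w l * c₀ {j, l} * ε j l) hij, Finset.pair_comm i j]
      ring
    have hT4 : ∑ l ∈ P, w l * δ l * (ε i j + ε j l + ε l i) =
        ε i j * ∑ l ∈ P, w l * δ l + ∑ l ∈ P, w l * ε j l * δ l -
          ∑ l ∈ P, w l * ε i l * δ l := by
      rw [Finset.mul_sum, ← Finset.sum_add_distrib, ← Finset.sum_sub_distrib]
      refine Finset.sum_congr rfl fun l hl => ?_
      rw [hP, Finset.mem_filter] at hl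
      rw [hε i l hl.2.1.symm]
      ring
    rw [hL, hT4]
    rw [hS1, hS2, hS3, hT1, hT2, hT3] at hν
    have hj := hε i j hij
    linear_combination -hν - w i * (c₀ {i, j} + m₀ + μ (some j) + 2 * μ none) * hj)
  refine ⟨fun i => -b i, fun i j hij => ?_⟩
  rw [hb i (Finset.mem_univ i) j (Finset.mem_univ j) hij]
  ring

end Pool.Agent.Lib.MP_89bcae_ag

end

section

/-!
# Lines over a field with weights: `ArrangementIndependentW`
-/

open Polynomial

open scoped Classical

set_option linter.unusedSectionVars false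
set_option linter.unusedSimpArgs false
set_option linter.style.haveILetI false

namespace Pool.Agent.Lib.MP_89bcae_ag

universe u

open Sup.Lns (SS mem_SS AGeom)

variable {ι : Type} [Fintype ι] [LinearOrder ι] {k : Type u} [Field k] {v : ι ⊕ ι → k}

/-- **The criterion over `k` with weights.** -/
theorem Gen14.indepW_k (h : Gen14 v) {ℓ : ℕ} [Fact ℓ.Prime] (hm : 4 ≤ Fintype.card ι)
    (W : ι → ℕ) (hW : ∀ i, (W i).Coprime ℓ) (hcop : (∑ i, W i).Coprime ℓ)
    (HV : ∀ i j l, i ≠ j → j ≠ l → i ≠ l → ∃ V : Val14 k ℓ, HV14 v V i j l)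
    (e : ι → k → ℤ) (κ : k) (c : ι → k) (hκ : κ ≠ 0) (hc : ∀ i, c i ≠ 0)
    (hsum : ∀ i j l, i ≠ j → (ℓ : ℤ) ∣ ∑ m ∈ Finset.univ.filter
      (fun m => (lin14 v m).eval (nd14 v i j) = (lin14 v l).eval (nd14 v i j)),
        (W m : ℤ) * e m (nd14 v i j))
    (hpow : ∀ i j, i ≠ j → ∃ w : k, w ^ ℓ = κ ^ e i (nd14 v i j) * (c i / c j) ^ W j *
      (derivative (lin14 v i - lin14 v j)).eval (nd14 v i j) ^
        (-((W i : ℤ) + W j) * e i (nd14 v i j)) *
      (∏ l ∈ Finset.univ.filter (fun l => l ≠ i ∧ l ≠ j),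
        ((lin14 v i).eval (nd14 v i j) - (lin14 v l).eval (nd14 v i j)) ^
          (-(W l : ℤ) * e i (nd14 v i j))) *
      ∏ s' ∈ (SS (lin14 v)).erase (nd14 v i j),
        (nd14 v i j - s') ^ ((W j : ℤ) * (e i s' - e j s'))) :
    ∃ b : ι → ℤ, ∀ i j, i ≠ j → (ℓ : ℤ) ∣ e i (nd14 v i j) - W j * (b j - b i) := by
  have hℓ : ℓ.Prime := Fact.out
  have hcast : ∀ n : ℕ, n.Coprime ℓ → (n : ZMod ℓ) ≠ 0 := by
    intro n hn h0
    rw [ZMod.natCast_eq_zero_iff] at h0
    exact hℓ.one_lt.ne' (Nat.Coprime.eq_one_of_dvd hn.symm h0)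
  have hw : ∀ i, (W i : ZMod ℓ) ≠ 0 := fun i => hcast _ (hW i)
  have hws : ∑ i, (W i : ZMod ℓ) ≠ 0 := by
    have := hcast _ hcop
    push_cast at this
    exact this
  -- the values modulo `ℓ`
  have hpair : ∀ i j, i ≠ j → (W i : ZMod ℓ) * ((e i (nd14 v i j) : ℤ) : ZMod ℓ) +
      (W j : ZMod ℓ) * (e j (nd14 v i j) : ℤ) = 0 := by
    intro i j hij
    have h1 := hsum i j i hij
    have h2 : Finset.univ.filter
        (fun m => (lin14 v m).eval (nd14 v i j) = (lin14 v i).eval (nd14 v i j)) = {i, j} := by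
      ext m
      rw [Finset.mem_filter, Finset.mem_insert, Finset.mem_singleton]
      constructor
      · rintro ⟨-, hm⟩
        by_cases hmi : m = i
        · exact Or.inl hmi
        · rcases h.nd_inj hij hmi ((h.eval_eq hmi _).1 hm) with hh | hh
          · exact Or.inl hh.1
          · exact Or.inr hh.1
      · rintro (rfl | rfl)
        · exact ⟨Finset.mem_univ _, rfl⟩
        · exact ⟨Finset.mem_univ _, ((h.eval_eq hij _).2 rfl).symm⟩
    rw [h2, Finset.sum_pair hij, ← ZMod.intCast_zmod_eq_zero_iff_dvd] at h1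
    push_cast at h1
    exact h1
  have hoff : ∀ i a b, a ≠ b → a ≠ i → b ≠ i → ((e i (nd14 v a b) : ℤ) : ZMod ℓ) = 0 := by
    intro i a b hab hai hbi
    have h1 := hsum a b i hab
    have h2 : Finset.univ.filter
        (fun m => (lin14 v m).eval (nd14 v a b) = (lin14 v i).eval (nd14 v a b)) = {i} := by
      ext m
      rw [Finset.mem_filter, Finset.mem_singleton]
      constructor
      · rintro ⟨-, hm⟩
        by_contra hmi
        rcases h.nd_inj hab hmi ((h.eval_eq hmi _).1 hm) with hh | hh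
        · exact hbi hh.2.symm
        · exact hai hh.2.symm
      · rintro rfl
        exact ⟨Finset.mem_univ _, rfl⟩
    rw [h2, Finset.sum_singleton, ← ZMod.intCast_zmod_eq_zero_iff_dvd] at h1
    push_cast at h1
    exact (mul_eq_zero.1 h1).resolve_left (hw i)
  set ε : ι → ι → ZMod ℓ := fun i j => ((e i (nd14 v i j) : ℤ) : ZMod ℓ) / (W j : ZMod ℓ)
    with hεdef
  have hWε : ∀ i j, (W j : ZMod ℓ) * ε i j = ((e i (nd14 v i j) : ℤ) : ZMod ℓ) := by
    intro i j
    rw [hεdef]
    beta_reduce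
    rw [mul_div_cancel₀ _ (hw j)]
  have hε : ∀ i j, i ≠ j → ε j i = -ε i j := by
    intro i j hij
    have h1 := hpair i j hij
    have h2 := hWε i j
    have h3 := hWε j i
    rw [nd14_symm i j] at h3
    rw [← h2, ← h3] at h1
    have h4 : (W i : ZMod ℓ) * (W j : ZMod ℓ) * (ε j i + ε i j) = 0 := by
      linear_combination h1
    have h5 := (mul_eq_zero.1 h4).resolve_left (mul_ne_zero (hw i) (hw j))
    linear_combination h5
  obtain ⟨b, hb⟩ := h.cut_kw hm (fun i => (W i : ZMod ℓ)) hw hws HV ε hε κ c (by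
    intro V i j hij
    obtain ⟨w, hw'⟩ := hpow i j hij
    have hβ0 := h.slope_ne hij
    set s := nd14 v i j with hs
    set P := Finset.univ.filter (fun l => l ≠ i ∧ l ≠ j) with hP
    -- the factors are not zero
    have hder : (derivative (lin14 v i - lin14 v j)).eval s = v (Sum.inr i) - v (Sum.inr j) := by
      rw [lin14_sub]
      simp
    have hf0 : ∀ l ∈ P, (lin14 v i).eval s - (lin14 v l).eval s ≠ 0 := by
      intro l hl
      rw [hP, Finset.mem_filter] at hl
      rw [h.sub1 hij]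
      exact neg_ne_zero.2 (div_ne_zero (h.dd_ne hij hl.2.1.symm hl.2.2.symm) hβ0)
    have hf1 : ∀ l ∈ P, ((lin14 v i).eval s - (lin14 v l).eval s) ^ (-(W l : ℤ) * e i s) ≠ 0 :=
      fun l hl => zpow_ne_zero _ (hf0 l hl)
    have hf2 : ∀ s' ∈ (SS (lin14 v)).erase s,
        (s - s') ^ ((W j : ℤ) * (e i s' - e j s')) ≠ 0 := by
      intro s' hs'
      apply zpow_ne_zero
      rw [Finset.mem_erase] at hs'
      exact sub_ne_zero.2 hs'.1.symm
    rw [hder] at hw'
    have hA : κ ^ e i s ≠ 0 := zpow_ne_zero _ hκ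
    have hB0 : c i / c j ≠ 0 := div_ne_zero (hc i) (hc j)
    have hB : (c i / c j) ^ W j ≠ 0 := pow_ne_zero _ hB0
    have hC : (v (Sum.inr i) - v (Sum.inr j)) ^ (-((W i : ℤ) + W j) * e i s) ≠ 0 :=
      zpow_ne_zero _ hβ0
    have hD := Finset.prod_ne_zero_iff.2 hf1
    have hE' := Finset.prod_ne_zero_iff.2 hf2
    have hw0 : w ≠ 0 := by
      rintro rfl
      rw [zero_pow hℓ.ne_zero] at hw'
      exact (mul_ne_zero (mul_ne_zero (mul_ne_zero (mul_ne_zero hA hB) hC) hD) hE') hw'.symm
    have hν := congrArg V.ν hw'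
    rw [V.pow hw0, V.mul _ _ (mul_ne_zero (mul_ne_zero (mul_ne_zero hA hB) hC) hD) hE',
      V.mul _ _ (mul_ne_zero (mul_ne_zero hA hB) hC) hD, V.mul _ _ (mul_ne_zero hA hB) hC,
      V.mul _ _ hA hB, V.zpow hκ, V.pow hB0, V.div (hc i) (hc j), V.zpow hβ0, V.prod _ _ hf1,
      V.prod _ _ hf2] at hν
    -- the first sum
    have hS1 : ∑ l ∈ P, V.ν (((lin14 v i).eval s - (lin14 v l).eval s) ^
        (-(W l : ℤ) * e i s)) = -((W j : ZMod ℓ) * ε i j) *
        ∑ l ∈ P, (W l : ZMod ℓ) * V.ν ((lin14 v i).eval s - (lin14 v l).eval s) := by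
      rw [Finset.mul_sum]
      refine Finset.sum_congr rfl fun l hl => ?_
      rw [V.zpow (hf0 l hl), hWε i j]
      push_cast
      ring
    -- the second sum
    have hS2 : ∑ s' ∈ (SS (lin14 v)).erase s, V.ν ((s - s') ^ ((W j : ℤ) * (e i s' - e j s'))) =
        (W j : ZMod ℓ) * (∑ l ∈ P, (W l : ZMod ℓ) * ε i l * V.ν (s - nd14 v i l) -
          ∑ l ∈ P, (W l : ZMod ℓ) * ε j l * V.ν (s - nd14 v j l)) := by
      have h1 : ∀ s' ∈ (SS (lin14 v)).erase s,
          V.ν ((s - s') ^ ((W j : ℤ) * (e i s' - e j s'))) =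
          (W j : ZMod ℓ) * (((e i s' : ℤ) : ZMod ℓ) * V.ν (s - s') -
            ((e j s' : ℤ) : ZMod ℓ) * V.ν (s - s')) := by
        intro s' hs'
        rw [Finset.mem_erase] at hs'
        rw [V.zpow (sub_ne_zero.2 hs'.1.symm)]
        push_cast
        ring
      have h2 := h.sum_nodes i j hij (fun x => ((e i x : ℤ) : ZMod ℓ)) (hoff i)
        (fun x => V.ν (s - x))
      have h3 := h.sum_nodes j i hij.symm (fun x => ((e j x : ℤ) : ZMod ℓ)) (hoff j)
        (fun x => V.ν (s - x))
      rw [nd14_symm i j] at h3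
      have hPP : Finset.univ.filter (fun l => l ≠ j ∧ l ≠ i) = P := by
        rw [hP]
        ext l
        simp only [Finset.mem_filter, Finset.mem_univ, true_and]
        exact and_comm
      rw [Finset.sum_congr rfl h1, ← Finset.mul_sum, Finset.sum_sub_distrib, h2, h3, hPP]
      congr 2
      · refine Finset.sum_congr rfl fun l _ => ?_
        rw [hWε i l]
      · refine Finset.sum_congr rfl fun l _ => ?_
        rw [hWε j l]
    rw [hS1, hS2, ZMod.natCast_self, zero_mul] at hν
    have hκε : ((e i s : ℤ) : ZMod ℓ) = (W j : ZMod ℓ) * ε i j := (hWε i j).symm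
    have hexp : (((-((W i : ℤ) + W j) * e i s : ℤ)) : ZMod ℓ) =
        -((W i : ZMod ℓ) + W j) * ((W j : ZMod ℓ) * ε i j) := by
      push_cast
      rw [hκε]
    rw [hexp, hκε] at hν
    apply mul_left_cancel₀ (hw j)
    rw [mul_zero]
    linear_combination -hν)
  refine ⟨fun i => ((b i).val : ℤ), fun i j hij => ?_⟩
  rw [← ZMod.intCast_zmod_eq_zero_iff_dvd]
  push_cast
  rw [ZMod.natCast_zmod_val, ZMod.natCast_zmod_val, ← hb i j hij, hWε i j, sub_self]

/-- **The criterion for lines with weights.** -/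
theorem Gen14.indepW (h : Gen14 v) {ℓ : ℕ} (hℓ : ℓ.Prime) (hm : 4 ≤ Fintype.card ι)
    (W : ι → ℕ) (hW : ∀ i, (W i).Coprime ℓ) (hcop : (∑ i, W i).Coprime ℓ)
    (HV : ∀ i j l, i ≠ j → j ≠ l → i ≠ l → ∃ V : Val14 k ℓ, HV14 v V i j l)
    (F : Type u) [Field F] [Algebra k F] :
    Superelliptic.ArrangementIndependentW ℓ k F W (lin14 v) := by
  haveI : Fact ℓ.Prime := ⟨hℓ⟩
  intro e κ c hκ hκm hc hsum hpow
  have hinj : Function.Injective (algebraMap k F) := (algebraMap k F).injective
  have hbot : IntermediateField.adjoin k (Superelliptic.nodes k F (lin14 v)) = ⊥ := by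
    rw [IntermediateField.adjoin_eq_bot_iff, h.nodes_eq F]
    rintro _ ⟨x, -, rfl⟩
    exact IntermediateField.algebraMap_mem _ x
  rw [hbot] at hκm hc hpow
  obtain ⟨κ', rfl⟩ := IntermediateField.mem_bot.1 hκm
  choose c' hc' using fun i => IntermediateField.mem_bot.1 (hc i).2
  have hκ' : κ' ≠ 0 := by
    rintro rfl
    exact hκ (map_zero _)
  have hc0 : ∀ i, c' i ≠ 0 := by
    intro i h0
    apply (hc i).1
    rw [← hc' i, h0, map_zero]
  obtain ⟨b, hb⟩ := h.indepW_k hm W hW hcop HV (fun i x => e i (algebraMap k F x)) κ' c' hκ' hc0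
    (by
      intro i j l hij
      have h1 := hsum (algebraMap k F (nd14 v i j))
        ⟨i, j, hij, (h.aeval_eq hij _).2 rfl⟩ l
      have h2 : Finset.univ.filter (fun m => aeval (algebraMap k F (nd14 v i j)) (lin14 v m) =
          aeval (algebraMap k F (nd14 v i j)) (lin14 v l)) = Finset.univ.filter
          (fun m => (lin14 v m).eval (nd14 v i j) = (lin14 v l).eval (nd14 v i j)) := by
        ext m
        rw [Finset.mem_filter, Finset.mem_filter, aeval_map14, aeval_map14, hinj.eq_iff]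
      rw [h2] at h1
      exact h1)
    (by
      intro i j hij
      obtain ⟨w, hw, hwe⟩ := hpow i j (algebraMap k F (nd14 v i j)) hij
        ((h.aeval_eq hij _).2 rfl)
      obtain ⟨w', rfl⟩ := IntermediateField.mem_bot.1 hw
      refine ⟨w', hinj ?_⟩
      rw [map_pow, hwe]
      have hset : {s' ∈ Superelliptic.nodes k F (lin14 v) | s' ≠ algebraMap k F (nd14 v i j)} =
          ((((SS (lin14 v)).erase (nd14 v i j)).image (algebraMap k F) : Finset F) : Set F) := by
        ext s'
        rw [Finset.coe_image, Finset.coe_erase, Set.mem_ofPred_eq, h.nodes_eq F]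
        constructor
        · rintro ⟨⟨x, hx, rfl⟩, hne⟩
          exact ⟨x, ⟨hx, fun he => hne (by rw [he])⟩, rfl⟩
        · rintro ⟨x, ⟨hx, hne⟩, rfl⟩
          exact ⟨⟨x, hx, rfl⟩, fun he => hne (hinj he)⟩
      have hP : ∀ P : Finset ι, (∀ l, l ∈ P ↔ l ≠ i ∧ l ≠ j) →
          ∏ l ∈ P, (aeval (algebraMap k F (nd14 v i j)) (lin14 v i) -
            aeval (algebraMap k F (nd14 v i j)) (lin14 v l)) ^
              (-(W l : ℤ) * e i (algebraMap k F (nd14 v i j))) =
          ∏ l ∈ Finset.univ.filter (fun l => l ≠ i ∧ l ≠ j),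
            (algebraMap k F ((lin14 v i).eval (nd14 v i j)) -
              algebraMap k F ((lin14 v l).eval (nd14 v i j))) ^
              (-(W l : ℤ) * e i (algebraMap k F (nd14 v i j))) := by
        intro P hP
        refine Finset.prod_congr ?_ fun l _ => ?_
        · ext l
          rw [hP, Finset.mem_filter]
          exact ⟨fun hh => ⟨Finset.mem_univ l, hh⟩, fun hh => hh.2⟩
        · rw [aeval_map14, aeval_map14]
      rw [hset, finprod_mem_coe_finset, Finset.prod_image fun x _ y _ hxy => hinj hxy,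
        hP, aeval_map14]
      · simp only [map_mul, map_prod, map_zpow₀, map_pow, map_div₀, map_sub, hc']
      · intro l
        simp)
  refine ⟨b, fun i j s hij hs => ?_⟩
  rw [(h.aeval_eq hij s).1 hs]
  exact hb i j hij


end Pool.Agent.Lib.MP_89bcae_ag

end

section

/-!
# Lines of the projective plane: the arithmetic condition in all the charts
-/

open Polynomial

open scoped Classical

set_option linter.unusedSectionVars false
set_option linter.unusedSimpArgs false
set_option linter.style.haveILetI false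

namespace Pool.Agent.Lib.MP_89bcae_ag

open Superelliptic

section chart

variable {K : Type} [Field K] {J : Type}

/-- The determinant of three rows. -/
def dt14 {R : Type} [CommRing R] (a b c : Fin 3 → R) : R :=
  a 0 * (b 1 * c 2 - b 2 * c 1) - a 1 * (b 0 * c 2 - b 2 * c 0) + a 2 * (b 0 * c 1 - b 1 * c 0)

lemma dt14_mul {R : Type} [CommRing R] (a b c : Fin 3 → R) (g : Matrix (Fin 3) (Fin 3) R) :
    dt14 (fun j => ∑ l, a l * g l j) (fun j => ∑ l, b l * g l j) (fun j => ∑ l, c l * g l j) =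
      g.det * dt14 a b c := by
  unfold dt14
  rw [Matrix.det_fin_three]
  simp only [Fin.sum_univ_three]
  ring

/-- The affine coefficients of the lines, from their coefficients in the chart. -/
noncomputable def aff14 (cr : Option J → Fin 3 → K) : J ⊕ J → K
  | Sum.inl i => -(cr (some i) 2 / cr (some i) 0)
  | Sum.inr i => -(cr (some i) 1 / cr (some i) 0)

/-- The scaling factors. -/
def scl14 (cr : Option J → Fin 3 → K) : Option J → K
  | none => -cr none 2
  | some i => cr (some i) 0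

lemma brk_chart14 (cr : Option J → Fin 3 → K) (h0 : cr none 0 = 0) (h1 : cr none 1 = 0)
    (hs : ∀ x, scl14 cr x ≠ 0) (x y z : Option J) :
    brk14 (aff14 cr) x y z * (scl14 cr x * scl14 cr y * scl14 cr z) =
      -dt14 (cr x) (cr y) (cr z) := by
  have hc : ∀ x : Option J, pc14 K x * scl14 cr x = cr x 0 := by
    rintro (_ | i)
    · rw [h0]
      exact zero_mul _
    · exact one_mul _
  have ha : ∀ x : Option J, pa14 (aff14 cr) x * scl14 cr x = -cr x 2 := by
    rintro (_ | i)
    · exact one_mul _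
    · have h2 := hs (some i)
      change cr (some i) 0 ≠ 0 at h2
      change -(cr (some i) 2 / cr (some i) 0) * cr (some i) 0 = -cr (some i) 2
      rw [neg_mul, div_mul_cancel₀ _ h2]
  have hb : ∀ x : Option J, pb14 (aff14 cr) x * scl14 cr x = -cr x 1 := by
    rintro (_ | i)
    · rw [h1, neg_zero]
      exact zero_mul _
    · have h2 := hs (some i)
      change cr (some i) 0 ≠ 0 at h2
      change -(cr (some i) 1 / cr (some i) 0) * cr (some i) 0 = -cr (some i) 1
      rw [neg_mul, div_mul_cancel₀ _ h2]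
  have e : brk14 (aff14 cr) x y z * (scl14 cr x * scl14 cr y * scl14 cr z) =
      (pc14 K x * scl14 cr x) * ((pa14 (aff14 cr) y * scl14 cr y) * (pb14 (aff14 cr) z *
        scl14 cr z) - (pb14 (aff14 cr) y * scl14 cr y) * (pa14 (aff14 cr) z * scl14 cr z)) -
      (pa14 (aff14 cr) x * scl14 cr x) * ((pc14 K y * scl14 cr y) * (pb14 (aff14 cr) z *
        scl14 cr z) - (pb14 (aff14 cr) y * scl14 cr y) * (pc14 K z * scl14 cr z)) +
      (pb14 (aff14 cr) x * scl14 cr x) * ((pc14 K y * scl14 cr y) * (pa14 (aff14 cr) z *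
        scl14 cr z) - (pa14 (aff14 cr) y * scl14 cr y) * (pc14 K z * scl14 cr z)) := by
    unfold brk14
    ring
  rw [e, hc, hc, hc, ha, ha, ha, hb, hb, hb]
  unfold dt14
  ring

/-- The hypothesis on the homomorphism in the chart. -/
lemma hv_chart14 {ℓ : ℕ} (V : Val14 K ℓ) (cr : Option J → Fin 3 → K) (h0 : cr none 0 = 0)
    (h1 : cr none 1 = 0) (hs : ∀ x, scl14 cr x ≠ 0) (D : K) (hD : D ≠ 0)
    (B : Option J → Option J → Option J → K)
    (hB : ∀ x y z, dt14 (cr x) (cr y) (cr z) = D * B x y z) {i j l : J} {r : ZMod ℓ} (hr : r ≠ 0)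
    (hB1 : B (some i) (some j) (some l) ≠ 0) (hV1 : V.ν (B (some i) (some j) (some l)) = r)
    (hV0 : ∀ x y z : Option J, x ≠ y → y ≠ z → x ≠ z →
      ¬ (x ∈ ({some i, some j, some l} : Set (Option J)) ∧
        y ∈ ({some i, some j, some l} : Set (Option J)) ∧
        z ∈ ({some i, some j, some l} : Set (Option J))) →
      B x y z ≠ 0 ∧ V.ν (B x y z) = 0) :
    HV14 (aff14 cr) V i j l := by
  have key : ∀ x y z : Option J, B x y z ≠ 0 →
      V.ν (brk14 (aff14 cr) x y z) = V.ν D + (-V.ν (scl14 cr x)) + (-V.ν (scl14 cr y)) +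
        (-V.ν (scl14 cr z)) + V.ν (B x y z) := by
    intro x y z hne
    have h2 := brk_chart14 cr h0 h1 hs x y z
    rw [hB] at h2
    have hS : scl14 cr x * scl14 cr y * scl14 cr z ≠ 0 :=
      mul_ne_zero (mul_ne_zero (hs x) (hs y)) (hs z)
    have hDB : D * B x y z ≠ 0 := mul_ne_zero hD hne
    have hb : brk14 (aff14 cr) x y z ≠ 0 := by
      intro h3
      rw [h3, zero_mul] at h2
      exact neg_ne_zero.2 hDB h2.symm
    have h3 := congrArg V.ν h2
    rw [V.mul _ _ hb hS, V.neg hDB, V.mul _ _ hD hne,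
      V.mul _ _ (mul_ne_zero (hs x) (hs y)) (hs z), V.mul _ _ (hs x) (hs y)] at h3
    linear_combination h3
  refine ⟨V.ν D, fun x => -V.ν (scl14 cr x), r, hr, ?_, ?_⟩
  · rw [key _ _ _ hB1, hV1]
  · intro x y z hxy hyz hxz hno
    obtain ⟨h2, h3⟩ := hV0 x y z hxy hyz hxz hno
    rw [key _ _ _ h2, h3, add_zero]

end chart

section gen

variable {K : Type} [Field K] {J : Type} [Fintype J] [LinearOrder J]

/-- An arrangement of lines is generic. -/
lemma gen_of_isArrangement14 {v : J ⊕ J → K} (h : IsArrangement (lin14 v)) : Gen14 v := by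
  have hslope : ∀ i j, i ≠ j → v (Sum.inr i) ≠ v (Sum.inr j) := by
    intro i j hij he
    apply h.natDegree_ne_zero i j hij
    rw [lin14_sub, he, sub_self, C_0, zero_mul, add_zero, natDegree_C]
  refine ⟨hslope, ?_⟩
  -- two different factors are coprime
  have hprod : (∏ q ∈ (Finset.univ : Finset (J × J)).filter (fun q => q.1 < q.2),
      (lin14 v q.1 - lin14 v q.2)).Separable := by
    have h1 : (∏ i, ∏ j ∈ Finset.univ.filter (fun j => i < j), (lin14 v i - lin14 v j)) =
        ∏ q ∈ (Finset.univ : Finset (J × J)).filter (fun q => q.1 < q.2),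
        (lin14 v q.1 - lin14 v q.2) := by
      rw [← Finset.univ_product_univ, Finset.prod_filter, Finset.prod_product]
      refine Finset.prod_congr rfl fun i _ => ?_
      rw [Finset.prod_filter]
    rw [← h1]
    exact h.separable
  have hcop : ∀ q q' : J × J, q.1 < q.2 → q'.1 < q'.2 → q ≠ q' →
      IsCoprime (lin14 v q.1 - lin14 v q.2) (lin14 v q'.1 - lin14 v q'.2) := by
    intro q q' hq hq' hne
    have hm : q ∈ (Finset.univ : Finset (J × J)).filter (fun q => q.1 < q.2) :=
      Finset.mem_filter.2 ⟨Finset.mem_univ q, hq⟩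
    have hm' : q' ∈ ((Finset.univ : Finset (J × J)).filter (fun q => q.1 < q.2)).erase q :=
      Finset.mem_erase.2 ⟨hne.symm, Finset.mem_filter.2 ⟨Finset.mem_univ q', hq'⟩⟩
    rw [← Finset.mul_prod_erase _ _ hm] at hprod
    have h2 := hprod.isCoprime
    exact h2.of_isCoprime_of_dvd_right (Finset.dvd_prod_of_mem _ hm')
  have main : ∀ i j l m, i < j → l < m → (i, j) ≠ (l, m) →
      (v (Sum.inl i) - v (Sum.inl j)) * (v (Sum.inr l) - v (Sum.inr m)) ≠
      (v (Sum.inl l) - v (Sum.inl m)) * (v (Sum.inr i) - v (Sum.inr j)) := by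
    intro i j l m hij hlm hne he
    obtain ⟨a, b, hab⟩ := hcop (i, j) (l, m) hij hlm hne
    have h0 := sub_ne_zero.2 (hslope i j hij.ne)
    have e1 : (lin14 v i - lin14 v j).eval (nd14 v i j) = 0 := by
      rw [lin14_sub]
      simp only [eval_add, eval_C, eval_mul, eval_X]
      unfold nd14
      field_simp
      ring
    have e2 : (lin14 v l - lin14 v m).eval (nd14 v i j) = 0 := by
      rw [lin14_sub]
      simp only [eval_add, eval_C, eval_mul, eval_X]
      unfold nd14
      field_simp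
      linear_combination -he
    have h2 := congrArg (eval (nd14 v i j)) hab
    simp only [eval_add, eval_mul] at h2
    rw [e1, e2, mul_zero, mul_zero, add_zero, eval_one] at h2
    exact zero_ne_one h2
  intro i j l m hij hlm h1 h2 he
  rcases lt_or_gt_of_ne hij with hij' | hij' <;> rcases lt_or_gt_of_ne hlm with hlm' | hlm'
  · exact main i j l m hij' hlm' (fun h => h1 ⟨(Prod.mk.inj h).1.symm, (Prod.mk.inj h).2.symm⟩) he
  · exact main i j m l hij' hlm' (fun h => h2 ⟨(Prod.mk.inj h).2.symm, (Prod.mk.inj h).1.symm⟩)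
      (by linear_combination -he)
  · exact main j i l m hij' hlm' (fun h => h2 ⟨(Prod.mk.inj h).1.symm, (Prod.mk.inj h).2.symm⟩)
      (by linear_combination -he)
  · exact main j i m l hij' hlm' (fun h => h1 ⟨(Prod.mk.inj h).2.symm, (Prod.mk.inj h).1.symm⟩)
      (by linear_combination he)

end gen

section final

variable {ι : Type} [Fintype ι] [LinearOrder ι]

/-- The family with the line at infinity. -/
def opt14 (i₀ : ι) (I : Finset ι) : Option I → ι
  | none => i₀
  | some i => i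

omit [Fintype ι] [LinearOrder ι] in
lemma opt14_injective {i₀ : ι} {I : Finset ι} (h : i₀ ∉ I) : Function.Injective (opt14 i₀ I) := by
  rintro (_ | i) (_ | j) hij
  · rfl
  · exfalso
    apply h
    have h1 : i₀ = (j : ι) := hij
    rw [h1]
    exact j.2
  · exfalso
    apply h
    have h1 : (i : ι) = i₀ := hij
    rw [← h1]
    exact i.2
  · have h1 : (i : ι) = j := hij
    rw [Subtype.ext h1]


end final

end Pool.Agent.Lib.MP_89bcae_ag

end

section

/-!
# Lines of the projective plane: existence of charts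
-/

open Polynomial

open scoped Classical

set_option linter.unusedSectionVars false
set_option linter.unusedSimpArgs false
set_option linter.style.haveILetI false

namespace Pool.Agent.Lib.MP_89bcae_ag

open Superelliptic

/-- Finitely many nonzero affine functions have a common nonzero. -/
lemma exists_affine14 {κ : Type} [Finite κ] (a b : κ → ℚ) (h : ∀ k, a k ≠ 0 ∨ b k ≠ 0) :
    ∃ s : ℚ, ∀ k, a k + s * b k ≠ 0 := by
  have hfin : (⋃ k, {s : ℚ | a k + s * b k = 0}).Finite := by
    apply Set.finite_iUnion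
    intro k
    apply Set.Subsingleton.finite
    intro s hs t ht
    rw [Set.mem_ofPred_eq] at hs ht
    have h1 : (s - t) * b k = 0 := by linear_combination hs - ht
    rcases mul_eq_zero.1 h1 with h2 | h2
    · exact sub_eq_zero.1 h2
    · rw [h2, mul_zero, add_zero] at hs
      exact absurd h2 ((h k).resolve_left (fun h3 => h3 hs))
  obtain ⟨s, hs⟩ := hfin.exists_notMem
  refine ⟨s, fun k hk => hs ?_⟩
  exact Set.mem_iUnion.2 ⟨k, hk⟩

/-- Coordinates with a given line at infinity. -/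
lemma exists_basis14 (a : Fin 3 → ℚ) (ha : a ≠ 0) : ∃ g : Matrix (Fin 3) (Fin 3) ℚ, g.det ≠ 0 ∧
    ∑ l, a l * g l 0 = 0 ∧ ∑ l, a l * g l 1 = 0 := by
  by_cases h2 : a 2 = 0
  · by_cases h1 : a 1 = 0
    · have h0 : a 0 ≠ 0 := by
        intro h0
        apply ha
        funext i
        fin_cases i
        · exact h0
        · exact h1
        · exact h2
      refine ⟨!![0, 0, 1; 1, 0, 0; 0, 1, 0], ?_, ?_, ?_⟩
      · rw [Matrix.det_fin_three]
        simp
      · simp [Fin.sum_univ_three, h1]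
      · simp [Fin.sum_univ_three, h2]
    · refine ⟨!![a 1, 0, 0; -a 0, 0, 1; 0, 1, 0], ?_, ?_, ?_⟩
      · rw [Matrix.det_fin_three]
        simp [h1]
      · simp [Fin.sum_univ_three, h2]
        ring
      · simp [Fin.sum_univ_three, h2]
  · refine ⟨!![a 2, 0, 0; 0, a 2, 0; -a 0, -a 1, 1], ?_, ?_, ?_⟩
    · rw [Matrix.det_fin_three]
      simp [h2]
    · simp [Fin.sum_univ_three]
      ring
    · simp [Fin.sum_univ_three]
      ring

variable {ι : Type} [Fintype ι] [LinearOrder ι]

omit [Fintype ι] [LinearOrder ι] in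
lemma dt_lineCoeff14 (v : ι × Fin 3 → ℤ) (g : Matrix (Fin 3) (Fin 3) ℚ) (x y z : ι) :
    dt14 (lineCoeff v g x) (lineCoeff v g y) (lineCoeff v g z) = g.det * ((pbr14 v x y z : ℤ) : ℚ) := by
  have h1 := dt14_mul (fun l => (v (x, l) : ℚ)) (fun l => (v (y, l) : ℚ))
    (fun l => (v (z, l) : ℚ)) g
  have h2 : dt14 (fun l => (v (x, l) : ℚ)) (fun l => (v (y, l) : ℚ)) (fun l => (v (z, l) : ℚ)) =
      ((pbr14 v x y z : ℤ) : ℚ) := by
    unfold dt14 pbr14
    push_cast
    ring
  rw [h2] at h1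
  exact h1

/-- **Existence of charts.** -/
theorem exists_chart14 {v : ι × Fin 3 → ℤ} (h : ∀ x y z : ι, x ≠ y → y ≠ z → x ≠ z →
    pbr14 v x y z ≠ 0) (hc : 3 ≤ Fintype.card ι) (i₀ : ι) :
    ∃ g : Matrix (Fin 3) (Fin 3) ℚ, IsChart v g i₀ (Finset.univ.erase i₀) ∧
      IsArrangement (fun i : (Finset.univ.erase i₀ : Finset ι) => linePoly v g i) := by
  -- two other lines for each line
  have hthird : ∀ i j : ι, ∃ l, l ≠ i ∧ l ≠ j := by
    intro i j
    by_contra hcon
    push Not at hcon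
    have h1 : (Finset.univ : Finset ι) ⊆ {i, j} := by
      intro l _
      rw [Finset.mem_insert, Finset.mem_singleton]
      by_cases hl : l = i
      · exact Or.inl hl
      · exact Or.inr (hcon l hl)
    have h2 := Finset.card_le_card h1
    rw [Finset.card_univ] at h2
    have h3 : ({i, j} : Finset ι).card ≤ 2 := Finset.card_le_two
    omega
  have ha : (fun l => (v (i₀, l) : ℚ)) ≠ 0 := by
    intro h0
    obtain ⟨j, hj, -⟩ := hthird i₀ i₀
    obtain ⟨l, hl, hlj⟩ := hthird i₀ j
    apply h i₀ j l hj.symm hlj.symm hl.symm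
    have e : ∀ r : Fin 3, v (i₀, r) = 0 := by
      intro r
      have := congrFun h0 r
      simpa using this
    unfold pbr14
    rw [e, e, e]
    ring
  obtain ⟨G, hG, hG0, hG1⟩ := exists_basis14 _ ha
  set u : ι → ℚ := fun i => lineCoeff v G i 0 with hu
  set w : ι → ℚ := fun i => lineCoeff v G i 1 with hw
  set e : ι → ℚ := fun i => lineCoeff v G i 2 with he
  have hu0 : u i₀ = 0 := hG0
  have hw0 : w i₀ = 0 := hG1
  have hdt : ∀ x y z, u x * (w y * e z - e y * w z) - w x * (u y * e z - e y * u z) +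
      e x * (u y * w z - w y * u z) = G.det * ((pbr14 v x y z : ℤ) : ℚ) := by
    intro x y z
    rw [← dt_lineCoeff14]
    rfl
  have hbr : ∀ x y z, x ≠ y → y ≠ z → x ≠ z → G.det * ((pbr14 v x y z : ℤ) : ℚ) ≠ 0 := fun x y z a b c =>
    mul_ne_zero hG (Int.cast_ne_zero.2 (h x y z a b c))
  have hΔ : ∀ i j, i ≠ j → i ≠ i₀ → j ≠ i₀ → w i * u j - w j * u i ≠ 0 := by
    intro i j hij hi hj h0
    have h1 := hdt i j i₀
    rw [hu0, hw0] at h1
    apply hbr i j i₀ hij hj hi
    rw [← h1]
    linear_combination -(e i₀) * h0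
  -- the conditions
  let κ := {i : ι // i ≠ i₀} ⊕ {q : ι × ι × ι × ι // q.1 ≠ q.2.1 ∧ q.2.2.1 ≠ q.2.2.2 ∧
    ¬ (q.2.2.1 = q.1 ∧ q.2.2.2 = q.2.1) ∧ ¬ (q.2.2.1 = q.2.1 ∧ q.2.2.2 = q.1) ∧
    q.1 ≠ i₀ ∧ q.2.1 ≠ i₀ ∧ q.2.2.1 ≠ i₀ ∧ q.2.2.2 ≠ i₀}
  let Δ : ι → ι → ℚ := fun i j => w i * u j - w j * u i
  let R : ι → ι → ℚ := fun i j => e i * u j - e j * u i
  let S : ι → ι → ℚ := fun i j => e i * w j - e j * w i
  let A : κ → ℚ := Sum.elim (fun i => u i) (fun q =>
    R q.1.1 q.1.2.1 * Δ q.1.2.2.1 q.1.2.2.2 - R q.1.2.2.1 q.1.2.2.2 * Δ q.1.1 q.1.2.1)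
  let B : κ → ℚ := Sum.elim (fun i => w i) (fun q =>
    S q.1.1 q.1.2.1 * Δ q.1.2.2.1 q.1.2.2.2 - S q.1.2.2.1 q.1.2.2.2 * Δ q.1.1 q.1.2.1)
  obtain ⟨s, hs⟩ := exists_affine14 A B (by
    rintro (⟨i, hi⟩ | ⟨⟨i, j, l, m⟩, hij, hlm, h1, h2, hi, hj, hl, hm⟩)
    · change u i ≠ 0 ∨ w i ≠ 0
      by_contra hcon
      push Not at hcon
      obtain ⟨j, hj, hj0⟩ := hthird i i₀
      apply hΔ i j hj.symm hi hj0
      rw [hcon.1, hcon.2]
      ring
    · change R i j * Δ l m - R l m * Δ i j ≠ 0 ∨ S i j * Δ l m - S l m * Δ i j ≠ 0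
      simp only at hij hlm h1 h2 hi hj hl hm
      by_contra hcon
      push Not at hcon
      obtain ⟨c1, c2⟩ := hcon
      -- a line through the two points
      have key : ∀ r, r = l ∨ r = m → r = i ∨ r = j := by
        intro r hr
        by_contra hcon
        push Not at hcon
        have h3 := hdt r i j
        apply hbr r i j hcon.1 hij hcon.2
        have h4 : Δ l m * (u r * (w i * e j - e i * w j) - w r * (u i * e j - e i * u j) +
            e r * (u i * w j - w i * u j)) = 0 := by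
          have h5 : Δ l m * (u r * (w i * e j - e i * w j) - w r * (u i * e j - e i * u j) +
            e r * (u i * w j - w i * u j)) = Δ i j * (-(u r * S l m) + w r * R l m - e r * Δ l m) +
              w r * (R i j * Δ l m - R l m * Δ i j) - u r * (S i j * Δ l m - S l m * Δ i j) := by
            simp only [Δ, R, S]
            ring
          have h6 : -(u r * S l m) + w r * R l m - e r * Δ l m = 0 := by
            rcases hr with rfl | rfl
            · simp only [Δ, R, S]
              ring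
            · simp only [Δ, R, S]
              ring
          rw [h5, h6, c1, c2]
          ring
        rw [← h3]
        exact (mul_eq_zero.1 h4).resolve_left (hΔ l m hlm hl hm)
      rcases key l (Or.inl rfl) with a | a <;> rcases key m (Or.inr rfl) with b | b
      · exact hlm (a.trans b.symm)
      · exact h1 ⟨a, b⟩
      · exact h2 ⟨a, b⟩
      · exact hlm (a.trans b.symm))
  -- the chart
  set g : Matrix (Fin 3) (Fin 3) ℚ := fun l j => if j = 0 then G l 0 + s * G l 1 else G l j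
    with hg
  have hc0 : ∀ i, lineCoeff v g i 0 = u i + s * w i := by
    intro i
    change ∑ l, (v (i, l) : ℚ) * (G l 0 + s * G l 1) =
      ∑ l, (v (i, l) : ℚ) * G l 0 + s * ∑ l, (v (i, l) : ℚ) * G l 1
    rw [Finset.mul_sum, ← Finset.sum_add_distrib]
    exact Finset.sum_congr rfl fun l _ => by ring
  have hc1 : ∀ i, lineCoeff v g i 1 = w i := fun i => rfl
  have hc2 : ∀ i, lineCoeff v g i 2 = e i := fun i => rfl
  have hdet : g.det = G.det := by
    rw [Matrix.det_fin_three, Matrix.det_fin_three]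
    have e0 : ∀ l, g l 0 = G l 0 + s * G l 1 := fun l => rfl
    have e1 : ∀ l, g l 1 = G l 1 := fun l => rfl
    have e2 : ∀ l, g l 2 = G l 2 := fun l => rfl
    rw [e0, e0, e0, e1, e1, e1, e2, e2, e2]
    ring
  have hp : ∀ i, i ≠ i₀ → lineCoeff v g i 0 ≠ 0 := by
    intro i hi
    rw [hc0]
    exact hs (Sum.inl ⟨i, hi⟩)
  refine ⟨g, ⟨by rw [hdet]; exact hG, ⟨?_, ?_⟩, fun i hi => hp i (Finset.ne_of_mem_erase hi)⟩, ?_⟩
  · rw [hc0, hu0, hw0]
    ring
  · rw [hc1, hw0]
  -- the arrangement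
  set v' : (Finset.univ.erase i₀ : Finset ι) ⊕ (Finset.univ.erase i₀ : Finset ι) → ℚ :=
    Sum.elim (fun i => -(lineCoeff v g i 2 / lineCoeff v g i 0))
      (fun i => -(lineCoeff v g i 1 / lineCoeff v g i 0)) with hv'
  have hlin : (fun i : (Finset.univ.erase i₀ : Finset ι) => linePoly v g i) = lin14 v' := rfl
  rw [hlin]
  apply Gen14.isArrangement
  have hne : ∀ i : (Finset.univ.erase i₀ : Finset ι), (i : ι) ≠ i₀ :=
    fun i => Finset.ne_of_mem_erase i.2
  have hsl : ∀ i j : (Finset.univ.erase i₀ : Finset ι), (v' (Sum.inr i) - v' (Sum.inr j)) *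
      (lineCoeff v g i 0 * lineCoeff v g j 0) = -Δ i j := by
    intro i j
    have a1 := hp i (hne i)
    have a2 := hp j (hne j)
    change (-(lineCoeff v g i 1 / lineCoeff v g i 0) - -(lineCoeff v g j 1 / lineCoeff v g j 0)) *
      (lineCoeff v g i 0 * lineCoeff v g j 0) = _
    field_simp
    rw [hc0, hc0, hc1, hc1]
    simp only [Δ]
    ring
  have hin : ∀ i j : (Finset.univ.erase i₀ : Finset ι), (v' (Sum.inl i) - v' (Sum.inl j)) *
      (lineCoeff v g i 0 * lineCoeff v g j 0) = -(R i j + s * S i j) := by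
    intro i j
    have a1 := hp i (hne i)
    have a2 := hp j (hne j)
    change (-(lineCoeff v g i 2 / lineCoeff v g i 0) - -(lineCoeff v g j 2 / lineCoeff v g j 0)) *
      (lineCoeff v g i 0 * lineCoeff v g j 0) = _
    field_simp
    rw [hc0, hc0, hc2, hc2]
    simp only [R, S]
    ring
  refine ⟨fun i j hij he => ?_, fun i j l m hij hlm h1 h2 he => ?_⟩
  · have h3 := hsl i j
    rw [he, sub_self, zero_mul] at h3
    exact hΔ i j (fun hh => hij (Subtype.ext hh)) (hne i) (hne j) (neg_eq_zero.1 h3.symm)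
  · have h3 := hs (Sum.inr ⟨(i, j, l, m), fun hh => hij (Subtype.ext hh),
      fun hh => hlm (Subtype.ext hh), fun hh => h1 ⟨Subtype.ext hh.1, Subtype.ext hh.2⟩,
      fun hh => h2 ⟨Subtype.ext hh.1, Subtype.ext hh.2⟩, hne i, hne j, hne l, hne m⟩)
    apply h3
    change R i j * Δ l m - R l m * Δ i j + s * (S i j * Δ l m - S l m * Δ i j) = 0
    have e1 := hin i j
    have e2 := hin l m
    have e3 := hsl i j
    have e4 := hsl l m
    linear_combination (Δ l m) * e1 - (v' (Sum.inl i) - v' (Sum.inl j)) *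
      (lineCoeff v g i 0 * lineCoeff v g j 0) * e4 - Δ i j * e2 +
      (v' (Sum.inl l) - v' (Sum.inl m)) * (lineCoeff v g l 0 * lineCoeff v g m 0) * e3 +
      (lineCoeff v g i 0 * lineCoeff v g j 0) * (lineCoeff v g l 0 * lineCoeff v g m 0) * he

end Pool.Agent.Lib.MP_89bcae_ag

end

section

/-!
# Lines of the projective plane: the arithmetic condition in all the charts, for all primes `ℓ`

The homomorphism is the opposite of the `p`-adic valuation of the norm from `K = ℚ(ζ_ℓ)` to `ℚ`; as the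
degree is `ℓ - 1`, it extends the `p`-adic valuation of `ℚ` modulo `ℓ`.
-/

open Polynomial

open scoped Classical

set_option linter.unusedSectionVars false
set_option linter.unusedSimpArgs false
set_option linter.style.haveILetI false

namespace Pool.Agent.Lib.MP_89bcae_ag

open Superelliptic

/-- The opposite of the `p`-adic valuation of the norm, modulo `ℓ`. -/
noncomputable def normVal14 (K : Type) [Field K] [Algebra ℚ K] (p : ℕ) [Fact p.Prime] (ℓ : ℕ)
    [NeZero ℓ] [IsCyclotomicExtension {ℓ} ℚ K] : Val14 K ℓ where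
  ν x := -((padicValRat p (Algebra.norm ℚ x) : ℤ) : ZMod ℓ)
  mul x y hx hy := by
    haveI : FiniteDimensional ℚ K := IsCyclotomicExtension.finiteDimensional {ℓ} ℚ K
    have hx' : Algebra.norm ℚ x ≠ 0 := Algebra.norm_ne_zero_iff.2 hx
    have hy' : Algebra.norm ℚ y ≠ 0 := Algebra.norm_ne_zero_iff.2 hy
    rw [map_mul, padicValRat.mul hx' hy']
    push_cast
    ring
  neg_one := by
    have h1 : (-1 : K) = algebraMap ℚ K (-1) := by rw [map_neg, map_one]
    have h2 : padicValRat p ((-1 : ℚ) ^ Module.finrank ℚ K) = 0 := by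
      rw [padicValRat.pow, padicValRat.neg, padicValRat.one, mul_zero]
    rw [h1, Algebra.norm_algebraMap, h2, Int.cast_zero, neg_zero]

lemma normVal14_int {K : Type} [Field K] [Algebra ℚ K] {p : ℕ} [Fact p.Prime] {ℓ : ℕ}
    (hℓ : ℓ.Prime) [NeZero ℓ] [IsCyclotomicExtension {ℓ} ℚ K] (z : ℤ) :
    (normVal14 K p ℓ).ν (z : K) = ((padicValInt p z : ℕ) : ZMod ℓ) := by
  change -((padicValRat p (Algebra.norm ℚ (z : K)) : ℤ) : ZMod ℓ) = _
  by_cases hz : z = 0
  · subst hz
    haveI : FiniteDimensional ℚ K := IsCyclotomicExtension.finiteDimensional {ℓ} ℚ K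
    simp
  · have h1 : (z : K) = algebraMap ℚ K (z : ℚ) := by rw [map_intCast]
    have hz' : (z : ℚ) ≠ 0 := Int.cast_ne_zero.2 hz
    rw [h1, Algebra.norm_algebraMap, padicValRat.pow, padicValRat.of_int,
      IsCyclotomicExtension.finrank K (cyclotomic.irreducible_rat hℓ.pos), Nat.totient_prime hℓ]
    push_cast [Nat.cast_sub hℓ.one_le]
    rw [ZMod.natCast_self]
    ring

section final

variable {ι : Type} [Fintype ι] [LinearOrder ι]

/-- **The arithmetic condition in the charts**, for every prime `ℓ`. -/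
theorem prjIndepN14 {ℓ : ℕ} (hℓ : ℓ.Prime) {v : ι × Fin 3 → ℤ}
    (hp : ∀ x y z : ι, x ≠ y → y ≠ z → x ≠ z →
      ∃ p : ℕ, p.Prime ∧ OnlyPbr14 p x y z v)
    {g : Matrix (Fin 3) (Fin 3) ℚ} {i₀ : ι} {I : Finset ι} (hi₀ : i₀ ∉ I) (hI : 4 ≤ I.card)
    (hg : IsChart v g i₀ I) (W : I → ℕ) (hW : ∀ i, (W i).Coprime ℓ) (hcop : (∑ i, W i).Coprime ℓ)
    (harr : IsArrangement fun i : I => linePoly v g i)
    (K F : Type) [Field K] [Algebra ℚ K] [IsCyclotomicExtension {ℓ} ℚ K] [Field F]
    [Algebra K F] :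
    IsArrangement (fun i : I => (linePoly v g i).map (algebraMap ℚ K)) ∧
      ArrangementIndependentW ℓ K F W
        (fun i : I => (linePoly v g i).map (algebraMap ℚ K)) := by
  haveI : Fact ℓ.Prime := ⟨hℓ⟩
  haveI : NeZero ℓ := ⟨hℓ.ne_zero⟩
  haveI : CharZero K := charZero_of_injective_algebraMap (algebraMap ℚ K).injective
  -- the coefficients in the chart
  set cr : Option I → Fin 3 → K := fun x j => algebraMap ℚ K (lineCoeff v g (opt14 i₀ I x) j)
    with hcr
  set gK : Matrix (Fin 3) (Fin 3) K := fun l j => algebraMap ℚ K (g l j) with hgK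
  have hdet : gK.det = algebraMap ℚ K g.det := by
    rw [RingHom.map_det]
    rfl
  have hdet0 : gK.det ≠ 0 := by
    rw [hdet]
    exact (map_ne_zero_iff _ (algebraMap ℚ K).injective).2 hg.det_ne_zero
  have hcrs : ∀ x, cr x = fun j => ∑ l, ((v (opt14 i₀ I x, l) : ℤ) : K) * gK l j := by
    intro x
    funext j
    rw [hcr, hgK]
    beta_reduce
    unfold lineCoeff
    rw [map_sum]
    refine Finset.sum_congr rfl fun l _ => ?_
    rw [map_mul, map_intCast]
  set B : Option I → Option I → Option I → K := fun x y z =>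
    ((pbr14 v (opt14 i₀ I x) (opt14 i₀ I y) (opt14 i₀ I z) : ℤ) : K) with hBdef
  have hB : ∀ x y z, dt14 (cr x) (cr y) (cr z) = gK.det * B x y z := by
    intro x y z
    rw [hcrs x, hcrs y, hcrs z, dt14_mul, hBdef]
    beta_reduce
    congr 1
    unfold dt14 pbr14
    push_cast
    ring
  have h0 : cr none 0 = 0 := by
    change algebraMap ℚ K (lineCoeff v g i₀ 0) = 0
    rw [hg.at_infinity.1, map_zero]
  have h1 : cr none 1 = 0 := by
    change algebraMap ℚ K (lineCoeff v g i₀ 1) = 0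
    rw [hg.at_infinity.2, map_zero]
  -- all the brackets are not zero
  have hpb : ∀ x y z : ι, x ≠ y → y ≠ z → x ≠ z → pbr14 v x y z ≠ 0 := by
    intro x y z hxy hyz hxz h2
    obtain ⟨p, -, -, h3, -⟩ := hp x y z hxy hyz hxz
    apply h3
    rw [h2]
    exact dvd_zero _
  have hs : ∀ x, scl14 cr x ≠ 0 := by
    rintro (_ | i)
    · change -cr none 2 ≠ 0
      rw [neg_ne_zero]
      intro h2
      -- the line `i₀` would vanish
      obtain ⟨x, hx, y, hy, hxy⟩ := Finset.one_lt_card.1 (show 1 < I.card by omega)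
      have h3 := hB none (some ⟨x, hx⟩) (some ⟨y, hy⟩)
      have h4 : dt14 (cr none) (cr (some ⟨x, hx⟩)) (cr (some ⟨y, hy⟩)) = 0 := by
        unfold dt14
        rw [h0, h1, h2]
        ring
      rw [h4] at h3
      have h5 := (mul_eq_zero.1 h3.symm).resolve_left hdet0
      have h6 : pbr14 v i₀ x y = 0 := Int.cast_eq_zero.1 h5
      exact hpb i₀ x y (fun h => hi₀ (h ▸ hx)) hxy (fun h => hi₀ (h ▸ hy)) h6
    · change algebraMap ℚ K (lineCoeff v g i 0) ≠ 0
      exact (map_ne_zero_iff _ (algebraMap ℚ K).injective).2 (hg.ne_zero i i.2)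
  have hlin : (fun i : I => (linePoly v g i).map (algebraMap ℚ K)) = lin14 (aff14 cr) := by
    funext i
    unfold linePoly lin14
    rw [Polynomial.map_add, Polynomial.map_mul, map_C, map_C, map_X]
    have e1 : algebraMap ℚ K (-(lineCoeff v g i 2 / lineCoeff v g i 0)) =
        aff14 cr (Sum.inl i) := by
      rw [map_neg, map_div₀]
      rfl
    have e2 : algebraMap ℚ K (-(lineCoeff v g i 1 / lineCoeff v g i 0)) =
        aff14 cr (Sum.inr i) := by
      rw [map_neg, map_div₀]
      rfl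
    rw [e1, e2]
  -- the arrangement over `K`
  have harrK : IsArrangement (lin14 (aff14 cr)) := by
    rw [← hlin]
    refine ⟨?_, fun i j hij => ?_⟩
    · have h2 := harr.separable
      have h3 : (∏ i : I, ∏ j ∈ Finset.univ.filter fun j => i < j,
          ((linePoly v g i).map (algebraMap ℚ K) - (linePoly v g j).map (algebraMap ℚ K))) =
          (∏ i : I, ∏ j ∈ Finset.univ.filter fun j => i < j,
            (linePoly v g i - linePoly v g j)).map (algebraMap ℚ K) := by
        rw [Polynomial.map_prod]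
        refine Finset.prod_congr rfl fun i _ => ?_
        rw [Polynomial.map_prod]
        refine Finset.prod_congr rfl fun j _ => ?_
        rw [Polynomial.map_sub]
      rw [h3, Polynomial.separable_map]
      exact h2
    · rw [← Polynomial.map_sub, natDegree_map]
      exact harr.natDegree_ne_zero i j hij
  rw [hlin]
  refine ⟨harrK, (gen_of_isArrangement14 harrK).indepW hℓ
    (by rw [Fintype.card_coe]; exact hI) W hW hcop ?_ F⟩
  intro i j l hij hjl hil
  have hne : ∀ {i j : I}, i ≠ j → (i : ι) ≠ j := fun h h' => h (Subtype.ext h')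
  obtain ⟨p, hpp, hd1, hd2, hd3⟩ := hp i j l (hne hij) (hne hjl) (hne hil)
  haveI : Fact p.Prime := ⟨hpp⟩
  refine ⟨normVal14 K p ℓ, hv_chart14 (normVal14 K p ℓ) cr h0 h1 hs gK.det hdet0 B hB
    (r := 1) one_ne_zero ?_ ?_ ?_⟩
  · exact Int.cast_ne_zero.2 (hpb i j l (hne hij) (hne hjl) (hne hil))
  · rw [hBdef]
    beta_reduce
    rw [normVal14_int hℓ]
    have h5 := (padicValInt_dvd_iff (p := p) 1 (pbr14 v i j l)).1 (by rwa [pow_one])
    have h6 : ¬ 2 ≤ padicValInt p (pbr14 v i j l) := fun h6 =>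
      hd2 ((padicValInt_dvd_iff (p := p) 2 _).2 (Or.inr h6))
    have h4 : padicValInt p (pbr14 v i j l) = 1 := by
      rcases h5 with h5 | h5
      · exact absurd h5 (hpb i j l (hne hij) (hne hjl) (hne hil))
      · omega
    have h7 : pbr14 v (opt14 i₀ I (some i)) (opt14 i₀ I (some j)) (opt14 i₀ I (some l)) =
        pbr14 v i j l := rfl
    rw [h7, h4]
    simp
  · intro x y z hxy hyz hxz hno
    have hinj := opt14_injective hi₀
    have hx' : opt14 i₀ I x ≠ opt14 i₀ I y := fun h => hxy (hinj h)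
    have hy' : opt14 i₀ I y ≠ opt14 i₀ I z := fun h => hyz (hinj h)
    have hz' : opt14 i₀ I x ≠ opt14 i₀ I z := fun h => hxz (hinj h)
    have hmem : ∀ w : Option I, opt14 i₀ I w ∈ ({(i : ι), (j : ι), (l : ι)} : Set ι) →
        w ∈ ({some i, some j, some l} : Set (Option I)) := by
      intro w hw
      simp only [Set.mem_insert_iff, Set.mem_singleton_iff] at hw ⊢
      rcases hw with hw | hw | hw
      · exact Or.inl (hinj hw)
      · exact Or.inr (Or.inl (hinj hw))
      · exact Or.inr (Or.inr (hinj hw))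
    refine ⟨?_, ?_⟩
    · exact Int.cast_ne_zero.2 (hpb _ _ _ hx' hy' hz')
    · rw [hBdef]
      beta_reduce
      rw [normVal14_int hℓ, padicValInt.eq_zero_of_not_dvd (hd3 _ _ _ hx' hy' hz'
        fun hh => hno ⟨hmem x hh.1, hmem y hh.2.1, hmem z hh.2.2⟩)]
      simp

end final

end Pool.Agent.Lib.MP_89bcae_ag

end

section

/-!
# Lines over a field with one homomorphism to `ZMod ℓ`: `ArrangementIndependentW`
-/

open Polynomial

open scoped Classical

set_option linter.unusedSectionVars false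
set_option linter.unusedSimpArgs false
set_option linter.style.haveILetI false

namespace Pool.Agent.Lib.MP_89bcae_ag

universe u

open Sup.Lns (SS mem_SS AGeom)

variable {ι : Type} [Fintype ι] [LinearOrder ι] {k : Type u} [Field k] {v : ι ⊕ ι → k}

/-- The criterion over `k` with one homomorphism. -/
theorem Gen14.indepW_good_k (h : Gen14 v) {ℓ : ℕ} [Fact ℓ.Prime]
    (W : ι → ℕ) (hW : ∀ i, (W i).Coprime ℓ) (V : Val14 k ℓ)
    (c₀ : Finset ι → ZMod ℓ) (m₀ : ZMod ℓ) (μ : Option ι → ZMod ℓ)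
    (hV : ∀ i j l, i ≠ j → j ≠ l → i ≠ l →
      V.ν (dd14 v i j l) = c₀ {i, j, l} + m₀ + μ (some i) + μ (some j) + μ (some l))
    (hV0 : ∀ i j, i ≠ j →
      V.ν (v (Sum.inr i) - v (Sum.inr j)) = c₀ {i, j} + m₀ + μ (some i) + μ (some j) + μ none)
    (hT : Lr.GoodT (fun i => (W i : ZMod ℓ)) c₀ Finset.univ)
    (e : ι → k → ℤ) (κ : k) (c : ι → k) (hκ : κ ≠ 0) (hc : ∀ i, c i ≠ 0)
    (hsum : ∀ i j l, i ≠ j → (ℓ : ℤ) ∣ ∑ m ∈ Finset.univ.filter
      (fun m => (lin14 v m).eval (nd14 v i j) = (lin14 v l).eval (nd14 v i j)),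
        (W m : ℤ) * e m (nd14 v i j))
    (hpow : ∀ i j, i ≠ j → ∃ w : k, w ^ ℓ = κ ^ e i (nd14 v i j) * (c i / c j) ^ W j *
      (derivative (lin14 v i - lin14 v j)).eval (nd14 v i j) ^
        (-((W i : ℤ) + W j) * e i (nd14 v i j)) *
      (∏ l ∈ Finset.univ.filter (fun l => l ≠ i ∧ l ≠ j),
        ((lin14 v i).eval (nd14 v i j) - (lin14 v l).eval (nd14 v i j)) ^
          (-(W l : ℤ) * e i (nd14 v i j))) *
      ∏ s' ∈ (SS (lin14 v)).erase (nd14 v i j),
        (nd14 v i j - s') ^ ((W j : ℤ) * (e i s' - e j s'))) :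
    ∃ b : ι → ℤ, ∀ i j, i ≠ j → (ℓ : ℤ) ∣ e i (nd14 v i j) - W j * (b j - b i) := by
  have hℓ : ℓ.Prime := Fact.out
  have hcast : ∀ n : ℕ, n.Coprime ℓ → (n : ZMod ℓ) ≠ 0 := by
    intro n hn h0
    rw [ZMod.natCast_eq_zero_iff] at h0
    exact hℓ.one_lt.ne' (Nat.Coprime.eq_one_of_dvd hn.symm h0)
  have hw : ∀ i, (W i : ZMod ℓ) ≠ 0 := fun i => hcast _ (hW i)
  -- the values modulo `ℓ`
  have hpair : ∀ i j, i ≠ j → (W i : ZMod ℓ) * ((e i (nd14 v i j) : ℤ) : ZMod ℓ) +
      (W j : ZMod ℓ) * (e j (nd14 v i j) : ℤ) = 0 := by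
    intro i j hij
    have h1 := hsum i j i hij
    have h2 : Finset.univ.filter
        (fun m => (lin14 v m).eval (nd14 v i j) = (lin14 v i).eval (nd14 v i j)) = {i, j} := by
      ext m
      rw [Finset.mem_filter, Finset.mem_insert, Finset.mem_singleton]
      constructor
      · rintro ⟨-, hm⟩
        by_cases hmi : m = i
        · exact Or.inl hmi
        · rcases h.nd_inj hij hmi ((h.eval_eq hmi _).1 hm) with hh | hh
          · exact Or.inl hh.1
          · exact Or.inr hh.1
      · rintro (rfl | rfl)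
        · exact ⟨Finset.mem_univ _, rfl⟩
        · exact ⟨Finset.mem_univ _, ((h.eval_eq hij _).2 rfl).symm⟩
    rw [h2, Finset.sum_pair hij, ← ZMod.intCast_zmod_eq_zero_iff_dvd] at h1
    push_cast at h1
    exact h1
  have hoff : ∀ i a b, a ≠ b → a ≠ i → b ≠ i → ((e i (nd14 v a b) : ℤ) : ZMod ℓ) = 0 := by
    intro i a b hab hai hbi
    have h1 := hsum a b i hab
    have h2 : Finset.univ.filter
        (fun m => (lin14 v m).eval (nd14 v a b) = (lin14 v i).eval (nd14 v a b)) = {i} := by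
      ext m
      rw [Finset.mem_filter, Finset.mem_singleton]
      constructor
      · rintro ⟨-, hm⟩
        by_contra hmi
        rcases h.nd_inj hab hmi ((h.eval_eq hmi _).1 hm) with hh | hh
        · exact hbi hh.2.symm
        · exact hai hh.2.symm
      · rintro rfl
        exact ⟨Finset.mem_univ _, rfl⟩
    rw [h2, Finset.sum_singleton, ← ZMod.intCast_zmod_eq_zero_iff_dvd] at h1
    push_cast at h1
    exact (mul_eq_zero.1 h1).resolve_left (hw i)
  set ε : ι → ι → ZMod ℓ := fun i j => ((e i (nd14 v i j) : ℤ) : ZMod ℓ) / (W j : ZMod ℓ)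
    with hεdef
  have hWε : ∀ i j, (W j : ZMod ℓ) * ε i j = ((e i (nd14 v i j) : ℤ) : ZMod ℓ) := by
    intro i j
    rw [hεdef]
    beta_reduce
    rw [mul_div_cancel₀ _ (hw j)]
  have hε : ∀ i j, i ≠ j → ε j i = -ε i j := by
    intro i j hij
    have h1 := hpair i j hij
    have h2 := hWε i j
    have h3 := hWε j i
    rw [nd14_symm i j] at h3
    rw [← h2, ← h3] at h1
    have h4 : (W i : ZMod ℓ) * (W j : ZMod ℓ) * (ε j i + ε i j) = 0 := by
      linear_combination h1
    have h5 := (mul_eq_zero.1 h4).resolve_left (mul_ne_zero (hw i) (hw j))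
    linear_combination h5
  obtain ⟨b, hb⟩ := h.cut_good (fun i => (W i : ZMod ℓ)) V c₀ m₀ μ hV hV0 hT ε hε κ c (by
    intro i j hij
    obtain ⟨w, hw'⟩ := hpow i j hij
    have hβ0 := h.slope_ne hij
    set s := nd14 v i j with hs
    set P := Finset.univ.filter (fun l => l ≠ i ∧ l ≠ j) with hP
    -- the factors are not zero
    have hder : (derivative (lin14 v i - lin14 v j)).eval s = v (Sum.inr i) - v (Sum.inr j) := by
      rw [lin14_sub]
      simp
    have hf0 : ∀ l ∈ P, (lin14 v i).eval s - (lin14 v l).eval s ≠ 0 := by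
      intro l hl
      rw [hP, Finset.mem_filter] at hl
      rw [h.sub1 hij]
      exact neg_ne_zero.2 (div_ne_zero (h.dd_ne hij hl.2.1.symm hl.2.2.symm) hβ0)
    have hf1 : ∀ l ∈ P, ((lin14 v i).eval s - (lin14 v l).eval s) ^ (-(W l : ℤ) * e i s) ≠ 0 :=
      fun l hl => zpow_ne_zero _ (hf0 l hl)
    have hf2 : ∀ s' ∈ (SS (lin14 v)).erase s,
        (s - s') ^ ((W j : ℤ) * (e i s' - e j s')) ≠ 0 := by
      intro s' hs'
      apply zpow_ne_zero
      rw [Finset.mem_erase] at hs'
      exact sub_ne_zero.2 hs'.1.symm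
    rw [hder] at hw'
    have hA : κ ^ e i s ≠ 0 := zpow_ne_zero _ hκ
    have hB0 : c i / c j ≠ 0 := div_ne_zero (hc i) (hc j)
    have hB : (c i / c j) ^ W j ≠ 0 := pow_ne_zero _ hB0
    have hC : (v (Sum.inr i) - v (Sum.inr j)) ^ (-((W i : ℤ) + W j) * e i s) ≠ 0 :=
      zpow_ne_zero _ hβ0
    have hD := Finset.prod_ne_zero_iff.2 hf1
    have hE' := Finset.prod_ne_zero_iff.2 hf2
    have hw0 : w ≠ 0 := by
      rintro rfl
      rw [zero_pow hℓ.ne_zero] at hw'
      exact (mul_ne_zero (mul_ne_zero (mul_ne_zero (mul_ne_zero hA hB) hC) hD) hE') hw'.symm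
    have hν := congrArg V.ν hw'
    rw [V.pow hw0, V.mul _ _ (mul_ne_zero (mul_ne_zero (mul_ne_zero hA hB) hC) hD) hE',
      V.mul _ _ (mul_ne_zero (mul_ne_zero hA hB) hC) hD, V.mul _ _ (mul_ne_zero hA hB) hC,
      V.mul _ _ hA hB, V.zpow hκ, V.pow hB0, V.div (hc i) (hc j), V.zpow hβ0, V.prod _ _ hf1,
      V.prod _ _ hf2] at hν
    -- the first sum
    have hS1 : ∑ l ∈ P, V.ν (((lin14 v i).eval s - (lin14 v l).eval s) ^
        (-(W l : ℤ) * e i s)) = -((W j : ZMod ℓ) * ε i j) *
        ∑ l ∈ P, (W l : ZMod ℓ) * V.ν ((lin14 v i).eval s - (lin14 v l).eval s) := by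
      rw [Finset.mul_sum]
      refine Finset.sum_congr rfl fun l hl => ?_
      rw [V.zpow (hf0 l hl), hWε i j]
      push_cast
      ring
    -- the second sum
    have hS2 : ∑ s' ∈ (SS (lin14 v)).erase s, V.ν ((s - s') ^ ((W j : ℤ) * (e i s' - e j s'))) =
        (W j : ZMod ℓ) * (∑ l ∈ P, (W l : ZMod ℓ) * ε i l * V.ν (s - nd14 v i l) -
          ∑ l ∈ P, (W l : ZMod ℓ) * ε j l * V.ν (s - nd14 v j l)) := by
      have h1 : ∀ s' ∈ (SS (lin14 v)).erase s,
          V.ν ((s - s') ^ ((W j : ℤ) * (e i s' - e j s'))) =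
          (W j : ZMod ℓ) * (((e i s' : ℤ) : ZMod ℓ) * V.ν (s - s') -
            ((e j s' : ℤ) : ZMod ℓ) * V.ν (s - s')) := by
        intro s' hs'
        rw [Finset.mem_erase] at hs'
        rw [V.zpow (sub_ne_zero.2 hs'.1.symm)]
        push_cast
        ring
      have h2 := h.sum_nodes i j hij (fun x => ((e i x : ℤ) : ZMod ℓ)) (hoff i)
        (fun x => V.ν (s - x))
      have h3 := h.sum_nodes j i hij.symm (fun x => ((e j x : ℤ) : ZMod ℓ)) (hoff j)
        (fun x => V.ν (s - x))
      rw [nd14_symm i j] at h3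
      have hPP : Finset.univ.filter (fun l => l ≠ j ∧ l ≠ i) = P := by
        rw [hP]
        ext l
        simp only [Finset.mem_filter, Finset.mem_univ, true_and]
        exact and_comm
      rw [Finset.sum_congr rfl h1, ← Finset.mul_sum, Finset.sum_sub_distrib, h2, h3, hPP]
      congr 2
      · refine Finset.sum_congr rfl fun l _ => ?_
        rw [hWε i l]
      · refine Finset.sum_congr rfl fun l _ => ?_
        rw [hWε j l]
    rw [hS1, hS2, ZMod.natCast_self, zero_mul] at hν
    have hκε : ((e i s : ℤ) : ZMod ℓ) = (W j : ZMod ℓ) * ε i j := (hWε i j).symm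
    have hexp : (((-((W i : ℤ) + W j) * e i s : ℤ)) : ZMod ℓ) =
        -((W i : ZMod ℓ) + W j) * ((W j : ZMod ℓ) * ε i j) := by
      push_cast
      rw [hκε]
    rw [hexp, hκε] at hν
    apply mul_left_cancel₀ (hw j)
    rw [mul_zero]
    linear_combination -hν)
  refine ⟨fun i => ((b i).val : ℤ), fun i j hij => ?_⟩
  rw [← ZMod.intCast_zmod_eq_zero_iff_dvd]
  push_cast
  rw [ZMod.natCast_zmod_val, ZMod.natCast_zmod_val, ← hb i j hij, hWε i j, sub_self]

/-- **The criterion with one homomorphism.** Proof: copy `Gen14.indepW_k` and `Gen14.indepW`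
(`LIndX14.lean`): in `Gen14.indepW_k` the step `h.cut_kw hm _ hw hws HV ε hε κ c (by intro V i j hij ...)`
becomes `h.cut_good _ V c₀ m₀ μ hV hV0 hT ε hε κ c (by intro i j hij ...)` with the same proof for the given
`V`. -/
theorem Gen14.indepW_good (h : Gen14 v) {ℓ : ℕ} (hℓ : ℓ.Prime) (W : ι → ℕ)
    (hW : ∀ i, (W i).Coprime ℓ) (V : Val14 k ℓ)
    (c₀ : Finset ι → ZMod ℓ) (m₀ : ZMod ℓ) (μ : Option ι → ZMod ℓ)
    (hV : ∀ i j l, i ≠ j → j ≠ l → i ≠ l →
      V.ν (dd14 v i j l) = c₀ {i, j, l} + m₀ + μ (some i) + μ (some j) + μ (some l))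
    (hV0 : ∀ i j, i ≠ j →
      V.ν (v (Sum.inr i) - v (Sum.inr j)) = c₀ {i, j} + m₀ + μ (some i) + μ (some j) + μ none)
    (hT : Lr.GoodT (fun i => (W i : ZMod ℓ)) c₀ Finset.univ)
    (F : Type u) [Field F] [Algebra k F] :
    Superelliptic.ArrangementIndependentW ℓ k F W (lin14 v) := by
  haveI : Fact ℓ.Prime := ⟨hℓ⟩
  intro e κ c hκ hκm hc hsum hpow
  have hinj : Function.Injective (algebraMap k F) := (algebraMap k F).injective
  have hbot : IntermediateField.adjoin k (Superelliptic.nodes k F (lin14 v)) = ⊥ := by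
    rw [IntermediateField.adjoin_eq_bot_iff, h.nodes_eq F]
    rintro _ ⟨x, -, rfl⟩
    exact IntermediateField.algebraMap_mem _ x
  rw [hbot] at hκm hc hpow
  obtain ⟨κ', rfl⟩ := IntermediateField.mem_bot.1 hκm
  choose c' hc' using fun i => IntermediateField.mem_bot.1 (hc i).2
  have hκ' : κ' ≠ 0 := by
    rintro rfl
    exact hκ (map_zero _)
  have hc0 : ∀ i, c' i ≠ 0 := by
    intro i h0
    apply (hc i).1
    rw [← hc' i, h0, map_zero]
  obtain ⟨b, hb⟩ := h.indepW_good_k W hW V c₀ m₀ μ hV hV0 hT (fun i x => e i (algebraMap k F x)) κ' c' hκ' hc0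
    (by
      intro i j l hij
      have h1 := hsum (algebraMap k F (nd14 v i j))
        ⟨i, j, hij, (h.aeval_eq hij _).2 rfl⟩ l
      have h2 : Finset.univ.filter (fun m => aeval (algebraMap k F (nd14 v i j)) (lin14 v m) =
          aeval (algebraMap k F (nd14 v i j)) (lin14 v l)) = Finset.univ.filter
          (fun m => (lin14 v m).eval (nd14 v i j) = (lin14 v l).eval (nd14 v i j)) := by
        ext m
        rw [Finset.mem_filter, Finset.mem_filter, aeval_map14, aeval_map14, hinj.eq_iff]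
      rw [h2] at h1
      exact h1)
    (by
      intro i j hij
      obtain ⟨w, hw, hwe⟩ := hpow i j (algebraMap k F (nd14 v i j)) hij
        ((h.aeval_eq hij _).2 rfl)
      obtain ⟨w', rfl⟩ := IntermediateField.mem_bot.1 hw
      refine ⟨w', hinj ?_⟩
      rw [map_pow, hwe]
      have hset : {s' ∈ Superelliptic.nodes k F (lin14 v) | s' ≠ algebraMap k F (nd14 v i j)} =
          ((((SS (lin14 v)).erase (nd14 v i j)).image (algebraMap k F) : Finset F) : Set F) := by
        ext s'
        rw [Finset.coe_image, Finset.coe_erase, Set.mem_ofPred_eq, h.nodes_eq F]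
        constructor
        · rintro ⟨⟨x, hx, rfl⟩, hne⟩
          exact ⟨x, ⟨hx, fun he => hne (by rw [he])⟩, rfl⟩
        · rintro ⟨x, ⟨hx, hne⟩, rfl⟩
          exact ⟨⟨x, hx, rfl⟩, fun he => hne (hinj he)⟩
      have hP : ∀ P : Finset ι, (∀ l, l ∈ P ↔ l ≠ i ∧ l ≠ j) →
          ∏ l ∈ P, (aeval (algebraMap k F (nd14 v i j)) (lin14 v i) -
            aeval (algebraMap k F (nd14 v i j)) (lin14 v l)) ^
              (-(W l : ℤ) * e i (algebraMap k F (nd14 v i j))) =
          ∏ l ∈ Finset.univ.filter (fun l => l ≠ i ∧ l ≠ j),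
            (algebraMap k F ((lin14 v i).eval (nd14 v i j)) -
              algebraMap k F ((lin14 v l).eval (nd14 v i j))) ^
              (-(W l : ℤ) * e i (algebraMap k F (nd14 v i j))) := by
        intro P hP
        refine Finset.prod_congr ?_ fun l _ => ?_
        · ext l
          rw [hP, Finset.mem_filter]
          exact ⟨fun hh => ⟨Finset.mem_univ l, hh⟩, fun hh => hh.2⟩
        · rw [aeval_map14, aeval_map14]
      rw [hset, finprod_mem_coe_finset, Finset.prod_image fun x _ y _ hxy => hinj hxy,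
        hP, aeval_map14]
      · simp only [map_mul, map_prod, map_zpow₀, map_pow, map_div₀, map_sub, hc']
      · intro l
        simp)
  refine ⟨b, fun i j s hij hs => ?_⟩
  rw [(h.aeval_eq hij s).1 hs]
  exact hb i j hij

end Pool.Agent.Lib.MP_89bcae_ag

end

section

/-!
# An automorphism with given symbols of the brackets
-/

namespace Pool.Agent.Lib.MP_89bcae_ag.Lr

open Superelliptic

theorem valOne_h33 {p : ℕ} (hp : p.Prime) {z : ℤ} (h1 : (p : ℤ) ∣ z) (h2 : ¬ (p : ℤ) ^ 2 ∣ z) :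
    padicValInt p z = 1 := by
  have : Fact p.Prime := ⟨hp⟩
  have h5 := (padicValInt_dvd_iff (p := p) 1 z).1 (by rwa [pow_one])
  have h6 : ¬ 2 ≤ padicValInt p z := fun h6 => h2 ((padicValInt_dvd_iff (p := p) 2 _).2 (Or.inr h6))
  rcases h5 with h5 | h5
  · exact absurd (h5 ▸ dvd_zero _) h2
  · omega

theorem bracketPerm_h33 {ι : Type} [DecidableEq ι] (v : ι × Fin 3 → ℤ) {i j l x y z : ι}
    (hij : i ≠ j) (hjl : j ≠ l) (hil : i ≠ l) (h : ({i, j, l} : Finset ι) = {x, y, z}) :
    bracket v i j l = bracket v x y z ∨ bracket v i j l = -bracket v x y z := by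
  have hi : i = x ∨ i = y ∨ i = z := by
    have : i ∈ ({x, y, z} : Finset ι) := h ▸ (by simp)
    simpa using this
  have hj : j = x ∨ j = y ∨ j = z := by
    have : j ∈ ({x, y, z} : Finset ι) := h ▸ (by simp)
    simpa using this
  have hl : l = x ∨ l = y ∨ l = z := by
    have : l ∈ ({x, y, z} : Finset ι) := h ▸ (by simp)
    simpa using this
  clear h
  unfold bracket
  rw [Matrix.det_fin_three, Matrix.det_fin_three]
  rcases hi with rfl | rfl | rfl <;> rcases hj with rfl | rfl | rfl <;>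
    rcases hl with rfl | rfl | rfl <;>
    first
      | exact absurd rfl hij
      | exact absurd rfl hjl
      | exact absurd rfl hil
      | (left; simp; ring1)
      | (right; simp; ring1)
      | (left; simp)

theorem exists_prime_h33 {ι : Type} [DecidableEq ι] {v : ι × Fin 3 → ℤ}
    (hv : HasPrivatePrimes v) (T : {T : Finset ι // T.card = 3}) :
    ∃ p : ℕ, p.Prime ∧ ∀ i j l : ι, i ≠ j → j ≠ l → i ≠ l →
      padicValInt p (bracket v i j l) = if ({i, j, l} : Finset ι) = T.1 then 1 else 0 := by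
  obtain ⟨T, hT⟩ := T
  obtain ⟨x, y, z, hxy, hxz, hyz, rfl⟩ := Finset.card_eq_three.1 hT
  obtain ⟨p, hp, h1, h2, h3⟩ := hv x y z hxy hyz hxz
  refine ⟨p, hp, fun i j l hij hjl hil => ?_⟩
  split_ifs with h
  · apply valOne_h33 hp
    · rcases bracketPerm_h33 v hij hjl hil h with h4 | h4
      · rw [h4]; exact h1
      · rw [h4]; exact (dvd_neg).2 h1
    · rcases bracketPerm_h33 v hij hjl hil h with h4 | h4
      · rw [h4]; exact h2
      · rw [h4, dvd_neg]; exact h2
  · apply padicValInt.eq_zero_of_not_dvd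
    apply h3 i j l hij hjl hil
    intro h4
    apply h
    apply Finset.coe_injective
    push_cast
    exact h4

/-- Proof: for `T : Finset ι` of the form `{i, j, l}` (three different elements) let `p T` be the private
prime of `bracket v i j l` (`hasPrivatePrimes_iff8`, `OnlyPbr14`). `Sup.exists_U_of_lam` for `k := K`,
`K := ⊥`, `lam x = ∑ T ∈ Finset.univ.filter (·.card = 3), C T * (normVal14 K (p T) ℓ).ν x'` where
`x = algebraMap K F x'` (`Function.invFun`, or `IntermediateField.mem_bot`), and `T` the image of the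
brackets. By `normVal14_int` the value at `bracket v i j l` is
`∑ T, C T * padicValInt (p T) (bracket v i j l)`, which is `C {i, j, l}` because
`padicValInt (p T) (bracket v i j l)` is `1` for `T = {i, j, l}` and `0` otherwise (see the end of
`prjIndepN14` in `LPrjN14.lean` for the same computation). -/
theorem exists_U_lines {ι : Type} [Fintype ι] [LinearOrder ι] {v : ι × Fin 3 → ℤ}
    (hv : HasPrivatePrimes v) {ℓ : ℕ} (hℓ : ℓ.Prime) (K F : Type) [Field K] [Algebra ℚ K]
    [IsCyclotomicExtension {ℓ} ℚ K] [Field F] [Algebra K F] [IsAlgClosure K F] {ζ : K}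
    (hζ : IsPrimitiveRoot ζ ℓ) (C : Finset ι → ZMod ℓ) :
    ∃ U : F ≃ₐ[K] F, ∀ i j l : ι, i ≠ j → j ≠ l → i ≠ l →
      Sup.kap ℓ (algebraMap K F ζ) U (algebraMap K F (bracket v i j l : K)) = C {i, j, l} := by
  classical
  have : NeZero ℓ := ⟨hℓ.ne_zero⟩
  have : CharZero K := charZero_of_injective_algebraMap (algebraMap ℚ K).injective
  have : IsAlgClosed F := IsAlgClosure.isAlgClosed K
  have : Algebra.IsAlgebraic K F := IsAlgClosure.isAlgebraic
  choose p hp hpv using exists_prime_h33 hv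
  have hpf : ∀ T, Fact (p T).Prime := fun T => ⟨hp T⟩
  have hinj : Function.Injective (algebraMap K F) := (algebraMap K F).injective
  set lam : F → ZMod ℓ := fun x => ∑ T : {T : Finset ι // T.card = 3},
    C T.1 * (normVal14 K (p T) ℓ).ν (Function.invFun (algebraMap K F) x) with hlam
  have hlamK : ∀ y : K, lam (algebraMap K F y) = ∑ T : {T : Finset ι // T.card = 3},
      C T.1 * (normVal14 K (p T) ℓ).ν y := by
    intro y
    simp only [hlam]
    rw [Function.leftInverse_invFun hinj y]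
  have hbne : ∀ i j l : ι, i ≠ j → j ≠ l → i ≠ l → bracket v i j l ≠ 0 := by
    intro i j l hij hjl hil h
    obtain ⟨q, -, -, h2, -⟩ := hv i j l hij hjl hil
    apply h2
    rw [h]
    exact dvd_zero _
  set TT : Finset F := ((Finset.univ : Finset (ι × ι × ι)).filter
    (fun t => t.1 ≠ t.2.1 ∧ t.2.1 ≠ t.2.2 ∧ t.1 ≠ t.2.2)).image
    (fun t => algebraMap K F (bracket v t.1 t.2.1 t.2.2 : K)) with hTT
  obtain ⟨U, -, hU⟩ := Sup.exists_U_of_lam (k := K) (F := F) hℓ
    (Nat.cast_ne_zero.2 hℓ.ne_zero) hζ ⊥ lam (by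
      intro x hx y hy hx0 hy0
      obtain ⟨x', rfl⟩ := IntermediateField.mem_bot.1 hx
      obtain ⟨y', rfl⟩ := IntermediateField.mem_bot.1 hy
      have hx' : x' ≠ 0 := fun h => hx0 (by rw [h, map_zero])
      have hy' : y' ≠ 0 := fun h => hy0 (by rw [h, map_zero])
      rw [← map_mul, hlamK, hlamK, hlamK, ← Finset.sum_add_distrib]
      refine Finset.sum_congr rfl fun T _ => ?_
      rw [(normVal14 K (p T) ℓ).mul x' y' hx' hy', mul_add]) TT (by
      intro x hx
      rw [hTT, Finset.mem_image] at hx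
      obtain ⟨t, ht, rfl⟩ := hx
      rw [Finset.mem_filter] at ht
      refine ⟨IntermediateField.mem_bot.2 ⟨_, rfl⟩, ?_⟩
      rw [map_ne_zero_iff _ hinj]
      exact Int.cast_ne_zero.2 (hbne _ _ _ ht.2.1 ht.2.2.1 ht.2.2.2))
  refine ⟨U, fun i j l hij hjl hil => ?_⟩
  rw [hU _ (by
    rw [hTT, Finset.mem_image]
    exact ⟨(i, j, l), Finset.mem_filter.2 ⟨Finset.mem_univ _, hij, hjl, hil⟩, rfl⟩), hlamK]
  have hcard : ({i, j, l} : Finset ι).card = 3 := Finset.card_eq_three.2 ⟨i, j, l, hij, hil, hjl, rfl⟩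
  rw [Finset.sum_eq_single (⟨{i, j, l}, hcard⟩ : {T : Finset ι // T.card = 3})]
  · rw [normVal14_int hℓ, hpv _ i j l hij hjl hil, if_pos rfl]
    simp
  · intro T _ hT
    rw [normVal14_int hℓ, hpv _ i j l hij hjl hil, if_neg]
    · simp
    · intro h
      apply hT
      exact Subtype.ext h.symm
  · intro h
    exact absurd (Finset.mem_univ _) h

end Pool.Agent.Lib.MP_89bcae_ag.Lr

end
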