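import Mathlib
import Pool.Agent.Lib.MP_89bcae_ag.Bra.DefsL

namespace Pool.Agent.Lib.MP_89bcae_ag.Superelliptic
end Pool.Agent.Lib.MP_89bcae_ag.Superelliptic

section

/-!
# The coverings of the plane branched along lines, in the coordinates of a chart
-/

open Polynomial Filter Topology

open scoped Classical

namespace Pool.Agent.Lib.MP_89bcae_ag.Bra

open Superelliptic

/-- Two elements over which `K` is algebraic are algebraically independent, if the transcendence degree of
`K` is at least two. -/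
lemma algebraicIndependent_of_generate {F K : Type} [Field F] [Field K] [Algebra F K] {a b c d y : K}
    (h : AlgebraicIndependent F ![a, b]) {n : ℕ} (hn : n ≠ 0)
    (hy : y ^ n ∈ Algebra.adjoin F (Set.range ![c, d]))
    (hg : IntermediateField.adjoin F {c, d, y} = ⊤) : AlgebraicIndependent F ![c, d] := by
  let R : Subalgebra F K := Algebra.adjoin F (Set.range ![c, d])
  let E : IntermediateField F K :=
    { (Subalgebra.algebraicClosure R K).restrictScalars F with
      inv_mem' := fun x hx => IsAlgebraic.inv_iff.2 hx }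
  have hE : ∀ x : K, x ∈ E ↔ IsAlgebraic R x := fun x => Iff.rfl
  have hR : ∀ x : K, x ∈ R → IsAlgebraic R x := fun x hx => isAlgebraic_algebraMap (⟨x, hx⟩ : R)
  have hc : c ∈ R := Algebra.subset_adjoin ⟨0, rfl⟩
  have hd : d ∈ R := Algebra.subset_adjoin ⟨1, rfl⟩
  have htop : E = ⊤ := by
    rw [eq_top_iff, ← hg, IntermediateField.adjoin_le_iff]
    intro x hx
    rw [Set.mem_insert_iff, Set.mem_insert_iff, Set.mem_singleton_iff] at hx
    rcases hx with rfl | rfl | rfl
    · exact (hE _).2 (hR _ hc)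
    · exact (hE _).2 (hR _ hd)
    · refine (hE _).2 ?_
      exact IsAlgebraic.of_pow (Nat.pos_of_ne_zero hn) (hR _ hy)
  have halg : Algebra.IsAlgebraic R K :=
    ⟨fun x => (hE x).1 (htop ▸ IntermediateField.mem_top)⟩
  have hle : Cardinal.mk (Fin 2) ≤ Algebra.trdeg F K := h.cardinalMk_le_trdeg
  exact (Algebra.IsAlgebraic.isTranscendenceBasis_of_le_trdeg_of_finite F ![c, d] hle).1

/-- A linear form in two algebraically independent elements is not zero. -/
lemma linear_ne_zero {F K : Type} [Field F] [Field K] [Algebra F K] {X Y : K}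
    (h : AlgebraicIndependent F ![X, Y]) {a b c : F} (h0 : a ≠ 0 ∨ b ≠ 0 ∨ c ≠ 0) :
    algebraMap F K a * X + algebraMap F K b * Y + algebraMap F K c ≠ 0 := by
  intro h1
  have h2 : MvPolynomial.aeval ![X, Y]
      (MvPolynomial.C a * MvPolynomial.X 0 + MvPolynomial.C b * MvPolynomial.X 1 +
        MvPolynomial.C c : MvPolynomial (Fin 2) F) = 0 := by
    rw [map_add, map_add, map_mul, map_mul, MvPolynomial.aeval_X, MvPolynomial.aeval_X,
      MvPolynomial.aeval_C, MvPolynomial.aeval_C, MvPolynomial.aeval_C]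
    exact h1
  have h3 := (injective_iff_map_eq_zero _).1 h _ h2
  have h00 : ∀ v : Fin 2 → F, a * v 0 + b * v 1 + c = 0 := by
    intro v
    have h4 := congrArg (MvPolynomial.eval v) h3
    rw [map_add, map_add, map_mul, map_mul, MvPolynomial.eval_X, MvPolynomial.eval_X,
      MvPolynomial.eval_C, MvPolynomial.eval_C, MvPolynomial.eval_C, map_zero] at h4
    exact h4
  have hc : c = 0 := by
    have h5 : a * 0 + b * 0 + c = 0 := h00 ![0, 0]
    rw [mul_zero, mul_zero, zero_add, zero_add] at h5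
    exact h5
  have ha : a = 0 := by
    have h5 : a * 1 + b * 0 + c = 0 := h00 ![1, 0]
    rw [mul_one, mul_zero, add_zero, hc, add_zero] at h5
    exact h5
  have hb : b = 0 := by
    have h5 : a * 0 + b * 1 + c = 0 := h00 ![0, 1]
    rw [mul_one, mul_zero, zero_add, hc, add_zero] at h5
    exact h5
  rcases h0 with h0 | h0 | h0
  · exact h0 ha
  · exact h0 hb
  · exact h0 hc

/-- The triviality of the invariants follows if the automorphisms fixing one system of generators fix the
other one. -/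
lemma BrauerInvariantsTrivial.of_fixes {ℓ : ℕ} {k F K S : Type} [Field k] [Field F] [Algebra k F]
    [Field K] [Algebra F K] [Field S] [Algebra K S] {k' k'' : IntermediateField k F} {t x y X Y z : K}
    (h : BrauerInvariantsTrivial ℓ S k'' t x y)
    (hfix : ∀ γ : S ≃+* S, (∀ c : F, c ∈ k'' → γ (algebraMap K S (algebraMap F K c)) =
        algebraMap K S (algebraMap F K c)) →
      γ (algebraMap K S t) = algebraMap K S t → γ (algebraMap K S x) = algebraMap K S x →
      γ (algebraMap K S y) = algebraMap K S y →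
      (∀ c : F, c ∈ k' → γ (algebraMap K S (algebraMap F K c)) =
        algebraMap K S (algebraMap F K c)) ∧
      γ (algebraMap K S X) = algebraMap K S X ∧ γ (algebraMap K S Y) = algebraMap K S Y ∧
      γ (algebraMap K S z) = algebraMap K S z) :
    BrauerInvariantsTrivial ℓ S k' X Y z := by
  intro b hb hu hf
  refine h b hb hu fun γ h1 h2 h3 h4 n => ?_
  obtain ⟨h5, h6, h7, h8⟩ := hfix γ h1 h2 h3 h4
  exact hf γ h5 h6 h7 h8 n

end Pool.Agent.Lib.MP_89bcae_ag.Bra

end

section

/-!
# The coordinates of a chart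
-/

open Polynomial Filter Topology

open scoped Classical

namespace Pool.Agent.Lib.MP_89bcae_ag.Bra

open Superelliptic

section

variable {k F K : Type} [Field k] [Field F] [Algebra k F] [Field K] [Algebra F K]

/-- The embedding of `k` in `K`. -/
noncomputable def phi (k F K : Type) [Field k] [Field F] [Algebra k F] [Field K] [Algebra F K] :
    k →+* K :=
  (algebraMap F K).comp (algebraMap k F)

/-- The homogeneous coordinates `x`, `t`, `z` of the point `(X, Y, 1)`. -/
noncomputable def coordQ (F : Type) {k K : Type} [Field k] [Field F] [Algebra k F] [Field K]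
    [Algebra F K] (g : Matrix (Fin 3) (Fin 3) k) (X Y : K) (j : Fin 3) : K :=
  phi k F K (g⁻¹ j 0) * X + phi k F K (g⁻¹ j 1) * Y + phi k F K (g⁻¹ j 2)

variable {g : Matrix (Fin 3) (Fin 3) k}

lemma coordQ_eq (hg : g.det ≠ 0) (X Y : K) (i : Fin 3) :
    phi k F K (g i 0) * coordQ F g X Y 0 + phi k F K (g i 1) * coordQ F g X Y 1 +
      phi k F K (g i 2) * coordQ F g X Y 2 = ![X, Y, 1] i := by
  have hu : IsUnit g.det := isUnit_iff_ne_zero.2 hg
  have h1 : g * g⁻¹ = 1 := Matrix.mul_nonsing_inv g hu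
  have h2 : ∀ j : Fin 3, phi k F K (g i 0) * phi k F K (g⁻¹ 0 j) +
      phi k F K (g i 1) * phi k F K (g⁻¹ 1 j) + phi k F K (g i 2) * phi k F K (g⁻¹ 2 j) =
        if i = j then 1 else 0 := by
    intro j
    have h3 := congrFun (congrFun h1 i) j
    rw [Matrix.mul_apply, Fin.sum_univ_three] at h3
    rw [← map_mul, ← map_mul, ← map_mul, ← map_add, ← map_add, h3, Matrix.one_apply]
    split_ifs
    · exact map_one _
    · exact map_zero _
  have e0 := h2 0
  have e1 := h2 1
  have e2 := h2 2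
  have h4 : phi k F K (g i 0) * coordQ F g X Y 0 + phi k F K (g i 1) * coordQ F g X Y 1 +
      phi k F K (g i 2) * coordQ F g X Y 2 =
      (if i = 0 then 1 else 0) * X + (if i = 1 then 1 else 0) * Y + (if i = 2 then 1 else 0) := by
    rw [← e0, ← e1, ← e2]
    unfold coordQ
    ring
  rw [h4]
  fin_cases i
  · simp
  · simp
  · simp

/-- The coordinates are determined up to a common factor. -/
lemma coord_unique (hg : g.det ≠ 0) {X Y t x z : K}
    (h : ∀ i : Fin 3, algebraMap F K (algebraMap k F (g i 0)) * x +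
      algebraMap F K (algebraMap k F (g i 1)) * t + algebraMap F K (algebraMap k F (g i 2)) =
        z * ![X, Y, 1] i) :
    x = z * coordQ F g X Y 0 ∧ t = z * coordQ F g X Y 1 ∧ 1 = z * coordQ F g X Y 2 := by
  have hu : IsUnit g.det := isUnit_iff_ne_zero.2 hg
  have h1 : g⁻¹ * g = 1 := Matrix.nonsing_inv_mul g hu
  have h2 : ∀ i j : Fin 3, phi k F K (g⁻¹ i 0) * phi k F K (g 0 j) +
      phi k F K (g⁻¹ i 1) * phi k F K (g 1 j) + phi k F K (g⁻¹ i 2) * phi k F K (g 2 j) =
        if i = j then 1 else 0 := by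
    intro i j
    have h3 := congrFun (congrFun h1 i) j
    rw [Matrix.mul_apply, Fin.sum_univ_three] at h3
    rw [← map_mul, ← map_mul, ← map_mul, ← map_add, ← map_add, h3, Matrix.one_apply]
    split_ifs
    · exact map_one _
    · exact map_zero _
  have h' : ∀ i : Fin 3, phi k F K (g i 0) * x + phi k F K (g i 1) * t + phi k F K (g i 2) =
      z * ![X, Y, 1] i := h
  have e0 : phi k F K (g 0 0) * x + phi k F K (g 0 1) * t + phi k F K (g 0 2) = z * X := h' 0
  have e1 : phi k F K (g 1 0) * x + phi k F K (g 1 1) * t + phi k F K (g 1 2) = z * Y := h' 1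
  have e2 : phi k F K (g 2 0) * x + phi k F K (g 2 1) * t + phi k F K (g 2 2) = z * 1 := h' 2
  have key : ∀ i : Fin 3, (if i = 0 then 1 else 0) * x + (if i = 1 then 1 else 0) * t +
      (if i = 2 then 1 else 0) = z * coordQ F g X Y i := by
    intro i
    rw [← h2 i 0, ← h2 i 1, ← h2 i 2]
    unfold coordQ
    linear_combination phi k F K (g⁻¹ i 0) * e0 + phi k F K (g⁻¹ i 1) * e1 +
      phi k F K (g⁻¹ i 2) * e2
  refine ⟨?_, ?_, ?_⟩
  · have h3 := key 0
    rw [if_pos rfl, if_neg (by decide), if_neg (by decide), one_mul, zero_mul, add_zero,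
      add_zero] at h3
    exact h3
  · have h3 := key 1
    rw [if_neg (by decide), if_pos rfl, if_neg (by decide), one_mul, zero_mul, zero_add,
      add_zero] at h3
    exact h3
  · have h3 := key 2
    rw [if_neg (by decide), if_neg (by decide), if_pos rfl, zero_mul, zero_mul, zero_add,
      zero_add] at h3
    exact h3

lemma coordQ_two_ne_zero (hg : g.det ≠ 0) {X Y : K} (h : AlgebraicIndependent F ![X, Y]) :
    coordQ F g X Y 2 ≠ 0 := by
  refine linear_ne_zero h ?_
  by_contra hcon
  push_neg at hcon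
  obtain ⟨h0, h1, h2⟩ := hcon
  have hz : ∀ j : Fin 3, g⁻¹ 2 j = 0 := by
    intro j
    fin_cases j
    · exact (_root_.map_eq_zero _).1 h0
    · exact (_root_.map_eq_zero _).1 h1
    · exact (_root_.map_eq_zero _).1 h2
  have hu : IsUnit g.det := isUnit_iff_ne_zero.2 hg
  have h3 : g⁻¹ * g = 1 := Matrix.nonsing_inv_mul g hu
  have h4 := congrFun (congrFun h3 2) 2
  rw [Matrix.mul_apply, Fin.sum_univ_three, hz, hz, hz, zero_mul, zero_mul, zero_mul, add_zero,
    add_zero, Matrix.one_apply_eq] at h4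
  exact zero_ne_one h4

/-- The linear form of the line `i`. -/
noncomputable def lineForm (F : Type) {k K : Type} [Field k] [Field F] [Algebra k F] [Field K]
    [Algebra F K] {ι : Type} (v : ι × Fin 3 → k) (X Y : K) (i : ι) : K :=
  phi k F K (v (i, 0)) * X + phi k F K (v (i, 1)) * Y + phi k F K (v (i, 2))

lemma lineForm_eq {ι : Type} (hg : g.det ≠ 0) (v : ι × Fin 3 → k) (X Y : K) (i : ι) :
    lineForm F v X Y i = phi k F K (coeffIn v g i 0) * coordQ F g X Y 0 +
      phi k F K (coeffIn v g i 1) * coordQ F g X Y 1 +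
      phi k F K (coeffIn v g i 2) * coordQ F g X Y 2 := by
  have h0 := coordQ_eq (F := F) hg X Y 0
  have h1 := coordQ_eq (F := F) hg X Y 1
  have h2 := coordQ_eq (F := F) hg X Y 2
  have e0 : (![X, Y, 1] : Fin 3 → K) 0 = X := rfl
  have e1 : (![X, Y, 1] : Fin 3 → K) 1 = Y := rfl
  have e2 : (![X, Y, 1] : Fin 3 → K) 2 = 1 := rfl
  rw [e0] at h0
  rw [e1] at h1
  rw [e2] at h2
  have hc : ∀ j, phi k F K (coeffIn v g i j) = phi k F K (v (i, 0)) * phi k F K (g 0 j) +
      phi k F K (v (i, 1)) * phi k F K (g 1 j) + phi k F K (v (i, 2)) * phi k F K (g 2 j) := by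
    intro j
    unfold coeffIn
    rw [Fin.sum_univ_three, map_add, map_add, map_mul, map_mul, map_mul]
  rw [hc, hc, hc]
  unfold lineForm
  linear_combination (-phi k F K (v (i, 0))) * h0 + (-phi k F K (v (i, 1))) * h1 +
    (-phi k F K (v (i, 2))) * h2

/-- A subfield which contains `k` and the coordinates `x`, `t` of the chart contains the elements `z`, `X`
and `Y`. -/
lemma mem_of_chart (hg : g.det ≠ 0) {X Y : K} (hz : coordQ F g X Y 2 ≠ 0) (M : Subfield K)
    (hk : ∀ a : k, phi k F K a ∈ M) (hx : coordQ F g X Y 0 / coordQ F g X Y 2 ∈ M)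
    (ht : coordQ F g X Y 1 / coordQ F g X Y 2 ∈ M) : coordQ F g X Y 2 ∈ M ∧ X ∈ M ∧ Y ∈ M := by
  have hu : ∀ i : Fin 3, phi k F K (g i 0) * (coordQ F g X Y 0 / coordQ F g X Y 2) +
      phi k F K (g i 1) * (coordQ F g X Y 1 / coordQ F g X Y 2) + phi k F K (g i 2) ∈ M := fun i =>
    M.add_mem (M.add_mem (M.mul_mem (hk _) hx) (M.mul_mem (hk _) ht)) (hk _)
  have he : ∀ i : Fin 3, (phi k F K (g i 0) * (coordQ F g X Y 0 / coordQ F g X Y 2) +
      phi k F K (g i 1) * (coordQ F g X Y 1 / coordQ F g X Y 2) + phi k F K (g i 2)) *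
        coordQ F g X Y 2 = ![X, Y, 1] i := by
    intro i
    rw [← coordQ_eq (F := F) hg X Y i]
    field_simp
  have hzM : coordQ F g X Y 2 ∈ M := by
    have h2 : (phi k F K (g 2 0) * (coordQ F g X Y 0 / coordQ F g X Y 2) +
      phi k F K (g 2 1) * (coordQ F g X Y 1 / coordQ F g X Y 2) + phi k F K (g 2 2)) *
        coordQ F g X Y 2 = 1 := he 2
    rw [eq_inv_of_mul_eq_one_right h2]
    exact M.inv_mem (hu 2)
  refine ⟨hzM, ?_, ?_⟩
  · have h0 : _ = X := he 0
    rw [← h0]
    exact M.mul_mem (hu 0) hzM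
  · have h0 : _ = Y := he 1
    rw [← h0]
    exact M.mul_mem (hu 1) hzM

lemma lineForm_mem {ι : Type} (v : ι × Fin 3 → k) {X Y : K} (M : Subfield K)
    (hk : ∀ a : k, phi k F K a ∈ M) (hX : X ∈ M) (hY : Y ∈ M) (i : ι) : lineForm F v X Y i ∈ M :=
  M.add_mem (M.add_mem (M.mul_mem (hk _) hX) (M.mul_mem (hk _) hY)) (hk _)

/-- The line at infinity. -/
lemma lineForm_infinity {ι : Type} {v : ι × Fin 3 → k} {i₀ : ι} (hg : g.det ≠ 0)
    (hinf : coeffIn v g i₀ 0 = 0 ∧ coeffIn v g i₀ 1 = 0) {X Y : K} (hz : coordQ F g X Y 2 ≠ 0) :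
    lineForm F v X Y i₀ / coordQ F g X Y 2 = phi k F K (coeffIn v g i₀ 2) := by
  rw [lineForm_eq (F := F) hg, hinf.1, hinf.2, map_zero, zero_mul,
    zero_mul, zero_add, zero_add, mul_div_assoc, div_self hz, mul_one]

/-- The lines of the chart. -/
lemma lineForm_chart {ι : Type} {v : ι × Fin 3 → k} (hg : g.det ≠ 0) {X Y : K}
    (hz : coordQ F g X Y 2 ≠ 0) {i : ι} (hi : coeffIn v g i 0 ≠ 0) :
    lineForm F v X Y i / coordQ F g X Y 2 = phi k F K (coeffIn v g i 0) *
      (coordQ F g X Y 0 / coordQ F g X Y 2 -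
        aeval (coordQ F g X Y 1 / coordQ F g X Y 2) ((polyIn v g i).map (algebraMap k F))) := by
  have h0 : phi k F K (coeffIn v g i 0) ≠ 0 := (_root_.map_ne_zero _).2 hi
  have h1 : aeval (coordQ F g X Y 1 / coordQ F g X Y 2)
      ((polyIn v g i).map (algebraMap k F)) =
        -(phi k F K (coeffIn v g i 2) / phi k F K (coeffIn v g i 0)) +
        -(phi k F K (coeffIn v g i 1) / phi k F K (coeffIn v g i 0)) *
          (coordQ F g X Y 1 / coordQ F g X Y 2) := by
    unfold polyIn
    rw [Polynomial.map_add, Polynomial.map_mul, map_C, map_C, map_X, map_add, map_mul, aeval_C,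
      aeval_C, aeval_X, ← map_div₀, ← map_div₀, ← map_neg, ← map_neg]
    rfl
  rw [h1, lineForm_eq (F := F) hg]
  field_simp
  ring

end

end Pool.Agent.Lib.MP_89bcae_ag.Bra

end
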