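import Mathlib
import Pool.Agent.Lib.MP_89bcae_ag.Bk.K053
import Pool.Agent.Lib.MP_89bcae_ag.Bra.DefsL

namespace Pool.Agent.Lib.MP_89bcae_ag.Lr
end Pool.Agent.Lib.MP_89bcae_ag.Lr
namespace Pool.Agent.Lib.MP_89bcae_ag.Superelliptic
end Pool.Agent.Lib.MP_89bcae_ag.Superelliptic

section

/-!
# Lines over a field: existence of charts
-/

open Polynomial

open scoped Classical

set_option linter.unusedSectionVars false
set_option linter.unusedSimpArgs false
set_option linter.style.haveILetI false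

namespace Pool.Agent.Lib.MP_89bcae_ag.Bra

open Superelliptic Lr

variable {ι : Type} {k : Type} [Field k]

lemma bracketOver_eq (v : ι × Fin 3 → k) (x y z : ι) : bracketOver v x y z =
    dt14 (fun c => v (x, c)) (fun c => v (y, c)) (fun c => v (z, c)) := by
  unfold bracketOver dt14
  rw [Matrix.det_fin_three]
  simp only [Matrix.of_apply, Matrix.cons_val_zero, Matrix.cons_val_one, Matrix.cons_val_two,
    Matrix.head_cons, Matrix.tail_cons, Matrix.cons_val]
  ring

lemma bracketOver_intCast (v : ι × Fin 3 → ℤ) (x y z : ι) :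
    bracketOver (fun p => (v p : k)) x y z = ((bracket v x y z : ℤ) : k) := by
  rw [bracketOver_eq, bracket_eq8]
  unfold dt14 pbr14
  push_cast
  ring

lemma dt_coeffIn (v : ι × Fin 3 → k) (g : Matrix (Fin 3) (Fin 3) k) (x y z : ι) :
    dt14 (coeffIn v g x) (coeffIn v g y) (coeffIn v g z) = g.det * bracketOver v x y z := by
  have h1 := dt14_mul (fun l => v (x, l)) (fun l => v (y, l)) (fun l => v (z, l)) g
  rw [← bracketOver_eq] at h1
  exact h1

lemma mem_branchLines [Fintype ι] {ℓ : ℕ} {W : ι → ℕ} {i₀ i : ι} :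
    i ∈ branchLines ℓ W i₀ ↔ i ≠ i₀ ∧ ¬ ℓ ∣ W i := by
  unfold branchLines
  rw [Finset.mem_filter]
  exact and_iff_right (Finset.mem_univ i)

variable [Fintype ι] [LinearOrder ι]

/-- **Existence of charts over a field with enough elements.** -/
theorem exists_chart {v : ι × Fin 3 → k}
    (h : ∀ x y z : ι, x ≠ y → y ≠ z → x ≠ z → bracketOver v x y z ≠ 0)
    (hc : 3 ≤ Fintype.card ι) (i₀ : ι)
    (hk : ∀ S : Finset k, S.card ≤ Fintype.card ι + Fintype.card ι ^ 4 → ∃ s, s ∉ S) :
    ∃ g : Matrix (Fin 3) (Fin 3) k, (g.det ≠ 0 ∧ (coeffIn v g i₀ 0 = 0 ∧ coeffIn v g i₀ 1 = 0) ∧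
        ∀ i ∈ Finset.univ.erase i₀, coeffIn v g i 0 ≠ 0) ∧
      IsArrangement (fun i : (Finset.univ.erase i₀ : Finset ι) => polyIn v g i) := by
  -- two other lines for each line
  have hthird : ∀ i j : ι, ∃ l, l ≠ i ∧ l ≠ j := by
    intro i j
    by_contra hcon
    push Not at hcon
    have h1 : (Finset.univ : Finset ι) ⊆ {i, j} := by
      intro l _
      rw [Finset.mem_insert, Finset.mem_singleton]
      by_cases hl : l = i
      · exact Or.inl hl
      · exact Or.inr (hcon l hl)
    have h2 := Finset.card_le_card h1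
    rw [Finset.card_univ] at h2
    have h3 : ({i, j} : Finset ι).card ≤ 2 := Finset.card_le_two
    omega
  have ha : (fun l => v (i₀, l)) ≠ 0 := by
    intro h0
    obtain ⟨j, hj, -⟩ := hthird i₀ i₀
    obtain ⟨l, hl, hlj⟩ := hthird i₀ j
    apply h i₀ j l hj.symm hlj.symm hl.symm
    have e : ∀ r : Fin 3, v (i₀, r) = 0 := by
      intro r
      exact congrFun h0 r
    rw [bracketOver_eq]
    unfold dt14
    beta_reduce
    rw [e, e, e]
    ring
  obtain ⟨G, hG, hG0, hG1⟩ := exists_basis_h61 _ ha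
  set u : ι → k := fun i => coeffIn v G i 0 with hu
  set w : ι → k := fun i => coeffIn v G i 1 with hw
  set e : ι → k := fun i => coeffIn v G i 2 with he
  have hu0 : u i₀ = 0 := hG0
  have hw0 : w i₀ = 0 := hG1
  have hdt : ∀ x y z, u x * (w y * e z - e y * w z) - w x * (u y * e z - e y * u z) +
      e x * (u y * w z - w y * u z) = G.det * bracketOver v x y z := by
    intro x y z
    rw [← dt_coeffIn]
    rfl
  have hbr : ∀ x y z, x ≠ y → y ≠ z → x ≠ z → G.det * bracketOver v x y z ≠ 0 := fun x y z a b c =>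
    mul_ne_zero hG (h x y z a b c)
  have hΔ : ∀ i j, i ≠ j → i ≠ i₀ → j ≠ i₀ → w i * u j - w j * u i ≠ 0 := by
    intro i j hij hi hj h0
    have h1 := hdt i j i₀
    rw [hu0, hw0] at h1
    apply hbr i j i₀ hij hj hi
    rw [← h1]
    linear_combination -(e i₀) * h0
  -- the conditions
  let κ := {i : ι // i ≠ i₀} ⊕ {q : ι × ι × ι × ι // q.1 ≠ q.2.1 ∧ q.2.2.1 ≠ q.2.2.2 ∧
    ¬ (q.2.2.1 = q.1 ∧ q.2.2.2 = q.2.1) ∧ ¬ (q.2.2.1 = q.2.1 ∧ q.2.2.2 = q.1) ∧
    q.1 ≠ i₀ ∧ q.2.1 ≠ i₀ ∧ q.2.2.1 ≠ i₀ ∧ q.2.2.2 ≠ i₀}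
  let Δ : ι → ι → k := fun i j => w i * u j - w j * u i
  let R : ι → ι → k := fun i j => e i * u j - e j * u i
  let S : ι → ι → k := fun i j => e i * w j - e j * w i
  let A : κ → k := Sum.elim (fun i => u i) (fun q =>
    R q.1.1 q.1.2.1 * Δ q.1.2.2.1 q.1.2.2.2 - R q.1.2.2.1 q.1.2.2.2 * Δ q.1.1 q.1.2.1)
  let B : κ → k := Sum.elim (fun i => w i) (fun q =>
    S q.1.1 q.1.2.1 * Δ q.1.2.2.1 q.1.2.2.2 - S q.1.2.2.1 q.1.2.2.2 * Δ q.1.1 q.1.2.1)
  have hN : Fintype.card κ ≤ Fintype.card ι + Fintype.card ι ^ 4 := by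
    rw [Fintype.card_sum]
    refine Nat.add_le_add (Fintype.card_subtype_le _) ((Fintype.card_subtype_le _).trans ?_)
    rw [Fintype.card_prod, Fintype.card_prod, Fintype.card_prod]
    exact le_of_eq (by ring)
  obtain ⟨s, hs⟩ := exists_affine_h61 A B (by
    rintro (⟨i, hi⟩ | ⟨⟨i, j, l, m⟩, hij, hlm, h1, h2, hi, hj, hl, hm⟩)
    · change u i ≠ 0 ∨ w i ≠ 0
      by_contra hcon
      push Not at hcon
      obtain ⟨j, hj, hj0⟩ := hthird i i₀
      apply hΔ i j hj.symm hi hj0
      rw [hcon.1, hcon.2]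
      ring
    · change R i j * Δ l m - R l m * Δ i j ≠ 0 ∨ S i j * Δ l m - S l m * Δ i j ≠ 0
      simp only at hij hlm h1 h2 hi hj hl hm
      by_contra hcon
      push Not at hcon
      obtain ⟨c1, c2⟩ := hcon
      -- a line through the two points
      have key : ∀ r, r = l ∨ r = m → r = i ∨ r = j := by
        intro r hr
        by_contra hcon
        push Not at hcon
        have h3 := hdt r i j
        apply hbr r i j hcon.1 hij hcon.2
        have h4 : Δ l m * (u r * (w i * e j - e i * w j) - w r * (u i * e j - e i * u j) +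
            e r * (u i * w j - w i * u j)) = 0 := by
          have h5 : Δ l m * (u r * (w i * e j - e i * w j) - w r * (u i * e j - e i * u j) +
            e r * (u i * w j - w i * u j)) = Δ i j * (-(u r * S l m) + w r * R l m - e r * Δ l m) +
              w r * (R i j * Δ l m - R l m * Δ i j) - u r * (S i j * Δ l m - S l m * Δ i j) := by
            simp only [Δ, R, S]
            ring
          have h6 : -(u r * S l m) + w r * R l m - e r * Δ l m = 0 := by
            rcases hr with rfl | rfl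
            · simp only [Δ, R, S]
              ring
            · simp only [Δ, R, S]
              ring
          rw [h5, h6, c1, c2]
          ring
        rw [← h3]
        exact (mul_eq_zero.1 h4).resolve_left (hΔ l m hlm hl hm)
      rcases key l (Or.inl rfl) with a | a <;> rcases key m (Or.inr rfl) with b | b
      · exact hlm (a.trans b.symm)
      · exact h1 ⟨a, b⟩
      · exact h2 ⟨a, b⟩
      · exact hlm (a.trans b.symm)) hN hk
  -- the chart
  set g : Matrix (Fin 3) (Fin 3) k := fun l j => if j = 0 then G l 0 + s * G l 1 else G l j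
    with hg
  have hc0 : ∀ i, coeffIn v g i 0 = u i + s * w i := by
    intro i
    change ∑ l, v (i, l) * (G l 0 + s * G l 1) =
      ∑ l, v (i, l) * G l 0 + s * ∑ l, v (i, l) * G l 1
    rw [Finset.mul_sum, ← Finset.sum_add_distrib]
    exact Finset.sum_congr rfl fun l _ => by ring
  have hc1 : ∀ i, coeffIn v g i 1 = w i := fun i => rfl
  have hc2 : ∀ i, coeffIn v g i 2 = e i := fun i => rfl
  have hdet : g.det = G.det := by
    rw [Matrix.det_fin_three, Matrix.det_fin_three]
    have e0 : ∀ l, g l 0 = G l 0 + s * G l 1 := fun l => rfl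
    have e1 : ∀ l, g l 1 = G l 1 := fun l => rfl
    have e2 : ∀ l, g l 2 = G l 2 := fun l => rfl
    rw [e0, e0, e0, e1, e1, e1, e2, e2, e2]
    ring
  have hp : ∀ i, i ≠ i₀ → coeffIn v g i 0 ≠ 0 := by
    intro i hi
    rw [hc0]
    exact hs (Sum.inl ⟨i, hi⟩)
  refine ⟨g, ⟨by rw [hdet]; exact hG, ⟨?_, ?_⟩, fun i hi => hp i (Finset.ne_of_mem_erase hi)⟩, ?_⟩
  · rw [hc0, hu0, hw0]
    ring
  · rw [hc1, hw0]
  -- the arrangement
  set v' : (Finset.univ.erase i₀ : Finset ι) ⊕ (Finset.univ.erase i₀ : Finset ι) → k :=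
    Sum.elim (fun i => -(coeffIn v g i 2 / coeffIn v g i 0))
      (fun i => -(coeffIn v g i 1 / coeffIn v g i 0)) with hv'
  have hlin : (fun i : (Finset.univ.erase i₀ : Finset ι) => polyIn v g i) = lin14 v' := rfl
  rw [hlin]
  apply Gen14.isArrangement
  have hne : ∀ i : (Finset.univ.erase i₀ : Finset ι), (i : ι) ≠ i₀ :=
    fun i => Finset.ne_of_mem_erase i.2
  have hsl : ∀ i j : (Finset.univ.erase i₀ : Finset ι), (v' (Sum.inr i) - v' (Sum.inr j)) *
      (coeffIn v g i 0 * coeffIn v g j 0) = -Δ i j := by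
    intro i j
    have a1 := hp i (hne i)
    have a2 := hp j (hne j)
    change (-(coeffIn v g i 1 / coeffIn v g i 0) - -(coeffIn v g j 1 / coeffIn v g j 0)) *
      (coeffIn v g i 0 * coeffIn v g j 0) = _
    field_simp
    rw [hc0, hc0, hc1, hc1]
    simp only [Δ]
    ring
  have hin : ∀ i j : (Finset.univ.erase i₀ : Finset ι), (v' (Sum.inl i) - v' (Sum.inl j)) *
      (coeffIn v g i 0 * coeffIn v g j 0) = -(R i j + s * S i j) := by
    intro i j
    have a1 := hp i (hne i)
    have a2 := hp j (hne j)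
    change (-(coeffIn v g i 2 / coeffIn v g i 0) - -(coeffIn v g j 2 / coeffIn v g j 0)) *
      (coeffIn v g i 0 * coeffIn v g j 0) = _
    field_simp
    rw [hc0, hc0, hc2, hc2]
    simp only [R, S]
    ring
  refine ⟨fun i j hij he => ?_, fun i j l m hij hlm h1 h2 he => ?_⟩
  · have h3 := hsl i j
    rw [he, sub_self, zero_mul] at h3
    exact hΔ i j (fun hh => hij (Subtype.ext hh)) (hne i) (hne j) (neg_eq_zero.1 h3.symm)
  · have h3 := hs (Sum.inr ⟨(i, j, l, m), fun hh => hij (Subtype.ext hh),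
      fun hh => hlm (Subtype.ext hh), fun hh => h1 ⟨Subtype.ext hh.1, Subtype.ext hh.2⟩,
      fun hh => h2 ⟨Subtype.ext hh.1, Subtype.ext hh.2⟩, hne i, hne j, hne l, hne m⟩)
    apply h3
    change R i j * Δ l m - R l m * Δ i j + s * (S i j * Δ l m - S l m * Δ i j) = 0
    have e1 := hin i j
    have e2 := hin l m
    have e3 := hsl i j
    have e4 := hsl l m
    linear_combination (Δ l m) * e1 - (v' (Sum.inl i) - v' (Sum.inl j)) *
      (coeffIn v g i 0 * coeffIn v g j 0) * e4 - Δ i j * e2 +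
      (v' (Sum.inl l) - v' (Sum.inl m)) * (coeffIn v g l 0 * coeffIn v g m 0) * e3 +
      (coeffIn v g i 0 * coeffIn v g j 0) * (coeffIn v g l 0 * coeffIn v g m 0) * he


/-- The charts for the branch lines. -/
theorem exists_goodChart {ℓ : ℕ} {v : ι × Fin 3 → k}
    (h : ∀ x y z : ι, x ≠ y → y ≠ z → x ≠ z → bracketOver v x y z ≠ 0)
    (hc : 3 ≤ Fintype.card ι) (W : ι → ℕ) (i₀ : ι)
    (hk : ∀ S : Finset k, S.card ≤ Fintype.card ι + Fintype.card ι ^ 4 → ∃ s, s ∉ S) :
    ∃ g : Matrix (Fin 3) (Fin 3) k, IsGoodChart ℓ v W i₀ g := by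
  obtain ⟨g, ⟨hg1, hg2, hg3⟩, harr⟩ := exists_chart h hc i₀ hk
  have hsub : ∀ i ∈ branchLines ℓ W i₀, i ∈ (Finset.univ.erase i₀ : Finset ι) := fun i hi =>
    Finset.mem_erase.2 ⟨(mem_branchLines.1 hi).1, Finset.mem_univ i⟩
  refine ⟨g, ⟨hg1, hg2, fun i hi => hg3 i (hsub i hi), ?_, ?_⟩⟩
  · refine harr.separable.of_dvd ?_
    exact dvd_pairs_h16
      (fun i : branchLines ℓ W i₀ => (⟨i.1, hsub i.1 i.2⟩ : (Finset.univ.erase i₀ : Finset ι)))
      (fun i j hij => hij) (fun i j => polyIn v g i - polyIn v g j)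
  · intro i j hij
    exact harr.natDegree_ne_zero ⟨i.1, hsub i.1 i.2⟩ ⟨j.1, hsub j.1 j.2⟩
      (fun he => hij (Subtype.ext (Subtype.mk.inj he)))

end Pool.Agent.Lib.MP_89bcae_ag.Bra

end

section

/-!
# The arithmetic condition in the charts for lines with independent brackets
-/

open Polynomial

open scoped Classical

set_option linter.unusedSectionVars false
set_option linter.style.haveILetI false

namespace Pool.Agent.Lib.MP_89bcae_ag.Bra

open Superelliptic Lr

section sorted

variable {k : Type} [Field k] {ι : Type}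

lemma bracketOver_swap (v : ι × Fin 3 → k) (x y z : ι) :
    bracketOver v y x z = -bracketOver v x y z := by
  rw [bracketOver_eq, bracketOver_eq]
  unfold dt14
  ring

lemma bracketOver_swap' (v : ι × Fin 3 → k) (x y z : ι) :
    bracketOver v x z y = -bracketOver v x y z := by
  rw [bracketOver_eq, bracketOver_eq]
  unfold dt14
  ring

variable [LinearOrder ι]

lemma set_swap (x y z : ι) : ({y, x, z} : Set ι) = {x, y, z} := Set.insert_comm y x {z}

lemma set_swap' (x y z : ι) : ({x, z, y} : Set ι) = {x, y, z} := by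
  rw [Set.pair_comm z y]

/-- Every bracket of three different lines is up to the sign one of those with increasing indices. -/
lemma exists_sorted (v : ι × Fin 3 → k) {x y z : ι} (hxy : x ≠ y) (hyz : y ≠ z) (hxz : x ≠ z) :
    ∃ i j l : ι, i < j ∧ j < l ∧ ({i, j, l} : Set ι) = {x, y, z} ∧
      (bracketOver v x y z = bracketOver v i j l ∨ bracketOver v x y z = -bracketOver v i j l) := by
  rcases lt_or_gt_of_ne hxy with h1 | h1 <;> rcases lt_or_gt_of_ne hyz with h2 | h2 <;>
    rcases lt_or_gt_of_ne hxz with h3 | h3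
  · exact ⟨x, y, z, h1, h2, rfl, Or.inl rfl⟩
  · exact absurd (h1.trans h2) (not_lt.2 h3.le)
  · refine ⟨x, z, y, h3, h2, set_swap' x y z, Or.inr ?_⟩
    rw [bracketOver_swap' v x y z, neg_neg]
  · refine ⟨z, x, y, h3, h1, ?_, Or.inl ?_⟩
    · rw [set_swap x z y, set_swap' x y z]
    · rw [bracketOver_swap v x z y, bracketOver_swap' v x y z, neg_neg]
  · refine ⟨y, x, z, h1, h3, set_swap x y z, Or.inr ?_⟩
    rw [bracketOver_swap v x y z, neg_neg]
  · refine ⟨y, z, x, h2, h3, ?_, Or.inl ?_⟩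
    · rw [set_swap' y x z, set_swap x y z]
    · rw [bracketOver_swap' v y x z, bracketOver_swap v x y z, neg_neg]
  · exact absurd (h2.trans h1) (not_lt.2 h3.le)
  · refine ⟨z, y, x, h2, h1, ?_, Or.inr ?_⟩
    · rw [set_swap y z x, set_swap' y x z, set_swap x y z]
    · rw [bracketOver_swap v y z x, bracketOver_swap' v y x z, bracketOver_swap v x y z, neg_neg,
        neg_neg]

/-- The sorted triples. -/
abbrev Trip (ι : Type) [LinearOrder ι] := {p : ι × ι × ι // p.1 < p.2.1 ∧ p.2.1 < p.2.2}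

/-- Sorted triples with the same set are equal. -/
lemma sorted_unique {i j l a b c : ι} (h1 : i < j) (h2 : j < l) (h3 : a < b) (h4 : b < c)
    (h : ({i, j, l} : Set ι) = {a, b, c}) : i = a ∧ j = b ∧ l = c := by
  have hi : i ∈ ({a, b, c} : Set ι) := h ▸ Or.inl rfl
  have hj : j ∈ ({a, b, c} : Set ι) := h ▸ Or.inr (Or.inl rfl)
  have hl : l ∈ ({a, b, c} : Set ι) := h ▸ Or.inr (Or.inr rfl)
  have ha : a ∈ ({i, j, l} : Set ι) := h.symm ▸ Or.inl rfl
  have hb : b ∈ ({i, j, l} : Set ι) := h.symm ▸ Or.inr (Or.inl rfl)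
  have hc : c ∈ ({i, j, l} : Set ι) := h.symm ▸ Or.inr (Or.inr rfl)
  have hia : i = a := by
    rcases hi with rfl | rfl | hi
    · rfl
    · rcases ha with rfl | rfl | ha
      · rfl
      · exact absurd (h1.trans h3) (lt_irrefl _)
      · rw [Set.mem_singleton_iff] at ha
        subst ha
        exact absurd ((h1.trans h2).trans h3) (lt_irrefl _)
    · rw [Set.mem_singleton_iff] at hi
      subst hi
      rcases ha with rfl | rfl | ha
      · rfl
      · exact absurd ((h1.trans h3).trans h4) (lt_irrefl _)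
      · rw [Set.mem_singleton_iff] at ha
        subst ha
        exact absurd (((h1.trans h2).trans h3).trans h4) (lt_irrefl _)
  have hlc : l = c := by
    rcases hl with rfl | rfl | hl
    · exact absurd (h1.trans h2) (not_lt.2 hia.ge)
    · rcases hc with rfl | rfl | hc
      · exact absurd ((h3.trans h4)) (not_lt.2 hia.le)
      · exact absurd (h2.trans h4) (lt_irrefl _)
      · exact (Set.mem_singleton_iff.1 hc).symm
    · exact Set.mem_singleton_iff.1 hl
  have hjb : j = b := by
    rcases hj with rfl | rfl | hj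
    · exact absurd h1 (not_lt.2 hia.ge)
    · rfl
    · rw [Set.mem_singleton_iff] at hj
      subst hj
      exact absurd h2 (not_lt.2 hlc.le)
  exact ⟨hia, hjb, hlc⟩

end sorted

section separate

variable {k : Type} [Field k] {ℓ : ℕ} {ι : Type} [Fintype ι] [LinearOrder ι]

lemma HasIndependentBrackets.bracket_ne_zero {v : ι × Fin 3 → k} (h : HasIndependentBrackets ℓ v)
    {x y z : ι} (hxy : x ≠ y) (hyz : y ≠ z) (hxz : x ≠ z) : bracketOver v x y z ≠ 0 := by
  obtain ⟨i, j, l, hij, hjl, -, h1 | h1⟩ := exists_sorted v hxy hyz hxz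
  · rw [h1]
    exact h.ne_zero i j l hij hjl
  · rw [h1]
    exact neg_ne_zero.2 (h.ne_zero i j l hij hjl)

/-- The brackets of the sets of three lines are separated by homomorphisms. -/
def SeparatesBrackets (ℓ : ℕ) {k : Type} [Field k] {ι : Type} (v : ι × Fin 3 → k) : Prop :=
  ∀ i j l : ι, i ≠ j → j ≠ l → i ≠ l → ∃ V : Val14 k ℓ, V.ν (bracketOver v i j l) = 1 ∧
    ∀ a b c : ι, a ≠ b → b ≠ c → a ≠ c → ({a, b, c} : Set ι) ≠ {i, j, l} →
      V.ν (bracketOver v a b c) = 0

theorem HasIndependentBrackets.separates {v : ι × Fin 3 → k} (hℓ : ℓ.Prime)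
    (h : HasIndependentBrackets ℓ v) : SeparatesBrackets ℓ v := by
  intro x y z hxy hyz hxz
  obtain ⟨i, j, l, hij, hjl, hset, hsgn⟩ := exists_sorted v hxy hyz hxz
  let b : Trip ι → kˣ := fun p =>
    Units.mk0 (bracketOver v p.1.1 p.1.2.1 p.1.2.2) (h.ne_zero _ _ _ p.2.1 p.2.2)
  obtain ⟨V, hV⟩ := exists_val hℓ b (by
    rintro e ⟨ε, w, hε, hw⟩ p
    let e' : ι × ι × ι → ℕ := fun p =>
      if hp : p.1 < p.2.1 ∧ p.2.1 < p.2.2 then e ⟨p, hp⟩ else 0
    have h1 : ∏ p ∈ Finset.univ.filter (fun p : ι × ι × ι => p.1 < p.2.1 ∧ p.2.1 < p.2.2),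
        bracketOver v p.1 p.2.1 p.2.2 ^ e' p = (ε : k) * (w : k) ^ ℓ := by
      have h2 := congrArg (Units.val) hw
      rw [Units.val_mul, Units.val_pow_eq_pow_val, Units.coe_prod] at h2
      rw [← h2]
      rw [Finset.prod_subtype (Finset.univ.filter
        (fun p : ι × ι × ι => p.1 < p.2.1 ∧ p.2.1 < p.2.2))
        (p := fun p : ι × ι × ι => p.1 < p.2.1 ∧ p.2.1 < p.2.2) (by
          intro p
          rw [Finset.mem_filter]
          exact and_iff_right (Finset.mem_univ p))]
      refine Finset.prod_congr rfl fun p _ => ?_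
      rw [Units.val_pow_eq_pow_val]
      change bracketOver v p.1.1 p.1.2.1 p.1.2.2 ^ e' p.1 =
        bracketOver v p.1.1 p.1.2.1 p.1.2.2 ^ e p
      have h3 : e' p.1 = e p := dif_pos p.2
      rw [h3]
    have h4 := h.independent e' (w : k) (ε : k) (by
      rw [← Units.val_pow_eq_pow_val, hε, Units.val_one]) h1 p.1.1 p.1.2.1 p.1.2.2 p.2.1 p.2.2
    have h5 : e' (p.1.1, p.1.2.1, p.1.2.2) = e p := dif_pos p.2
    rw [h5] at h4
    exact h4) ⟨(i, j, l), hij, hjl⟩
  have hone : V.ν (bracketOver v i j l) = 1 := by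
    have h1 := hV ⟨(i, j, l), hij, hjl⟩
    rw [if_pos rfl] at h1
    exact h1
  refine ⟨V, ?_, ?_⟩
  · rcases hsgn with h1 | h1
    · rw [h1, hone]
    · rw [h1, V.neg (h.ne_zero i j l hij hjl), hone]
  · intro a b' c hab hbc hac hne
    obtain ⟨i', j', l', hij', hjl', hset', hsgn'⟩ := exists_sorted v hab hbc hac
    have h2 : V.ν (bracketOver v i' j' l') = 0 := by
      have h1 := hV ⟨(i', j', l'), hij', hjl'⟩
      rw [if_neg] at h1
      · exact h1
      · intro h3
        apply hne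
        rw [← hset', ← hset]
        have h4 := congrArg Subtype.val h3
        rw [Prod.mk.injEq, Prod.mk.injEq] at h4
        obtain ⟨rfl, rfl, rfl⟩ := h4
        rfl
    rcases hsgn' with h1 | h1
    · rw [h1, h2]
    · rw [h1, V.neg (h.ne_zero i' j' l' hij' hjl'), h2]

end separate

end Pool.Agent.Lib.MP_89bcae_ag.Bra

end

section

/-!
# The arithmetic condition in the charts for lines with independent brackets
-/

open Polynomial

open scoped Classical

set_option linter.unusedSectionVars false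
set_option linter.unusedSimpArgs false
set_option linter.style.haveILetI false

namespace Pool.Agent.Lib.MP_89bcae_ag.Bra

open Superelliptic Lr

variable {k : Type} [Field k] {ℓ : ℕ} {ι : Type} [Fintype ι] [LinearOrder ι]

/-- **The arithmetic condition in the charts**, over a field. -/
theorem indep_chart (hℓ : ℓ.Prime) {v : ι × Fin 3 → k}
    (hb : ∀ x y z : ι, x ≠ y → y ≠ z → x ≠ z → bracketOver v x y z ≠ 0)
    (hsep : SeparatesBrackets ℓ v)
    {g : Matrix (Fin 3) (Fin 3) k} {i₀ : ι} {I : Finset ι} (hi₀ : i₀ ∉ I) (hI : 4 ≤ I.card)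
    (hdet : g.det ≠ 0) (hinf : coeffIn v g i₀ 0 = 0 ∧ coeffIn v g i₀ 1 = 0)
    (hne0 : ∀ i ∈ I, coeffIn v g i 0 ≠ 0) (W : I → ℕ) (hW : ∀ i, (W i).Coprime ℓ)
    (hcop : (∑ i, W i).Coprime ℓ) (harr : IsArrangement fun i : I => polyIn v g i)
    (K F : Type) [Field K] [Algebra k K] [Field F] [Algebra K F]
    (hd : ((Module.finrank k K : ℕ) : ZMod ℓ) ≠ 0) :
    IsArrangement (fun i : I => (polyIn v g i).map (algebraMap k K)) ∧
      ArrangementIndependentW ℓ K F W (fun i : I => (polyIn v g i).map (algebraMap k K)) := by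
  haveI : Fact ℓ.Prime := ⟨hℓ⟩
  have hinj : Function.Injective (algebraMap k K) := (algebraMap k K).injective
  -- the coefficients in the chart
  set cr : Option I → Fin 3 → K := fun x j => algebraMap k K (coeffIn v g (opt14 i₀ I x) j)
    with hcr
  have hdet0 : algebraMap k K g.det ≠ 0 := (map_ne_zero_iff _ hinj).2 hdet
  set B : Option I → Option I → Option I → K := fun x y z =>
    algebraMap k K (bracketOver v (opt14 i₀ I x) (opt14 i₀ I y) (opt14 i₀ I z)) with hBdef
  have hB : ∀ x y z, dt14 (cr x) (cr y) (cr z) = algebraMap k K g.det * B x y z := by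
    intro x y z
    rw [hBdef]
    beta_reduce
    rw [← map_mul, ← dt_coeffIn]
    unfold dt14
    rw [hcr]
    beta_reduce
    simp only [map_add, map_sub, map_mul]
  have h0 : cr none 0 = 0 := by
    change algebraMap k K (coeffIn v g i₀ 0) = 0
    rw [hinf.1, map_zero]
  have h1 : cr none 1 = 0 := by
    change algebraMap k K (coeffIn v g i₀ 1) = 0
    rw [hinf.2, map_zero]
  have hBne : ∀ x y z : Option I, opt14 i₀ I x ≠ opt14 i₀ I y → opt14 i₀ I y ≠ opt14 i₀ I z →
      opt14 i₀ I x ≠ opt14 i₀ I z → B x y z ≠ 0 := fun x y z h2 h3 h4 =>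
    (map_ne_zero_iff _ hinj).2 (hb _ _ _ h2 h3 h4)
  have hs : ∀ x, scl14 cr x ≠ 0 := by
    rintro (_ | i)
    · change -cr none 2 ≠ 0
      rw [neg_ne_zero]
      intro h2
      -- the line `i₀` would vanish
      obtain ⟨x, hx, y, hy, hxy⟩ := Finset.one_lt_card.1 (show 1 < I.card by omega)
      have h3 := hB none (some ⟨x, hx⟩) (some ⟨y, hy⟩)
      have h4 : dt14 (cr none) (cr (some ⟨x, hx⟩)) (cr (some ⟨y, hy⟩)) = 0 := by
        unfold dt14
        rw [h0, h1, h2]
        ring
      rw [h4] at h3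
      have h5 := (mul_eq_zero.1 h3.symm).resolve_left hdet0
      exact hBne none (some ⟨x, hx⟩) (some ⟨y, hy⟩) (fun h => hi₀ ((show i₀ = x from h) ▸ hx)) hxy
        (fun h => hi₀ ((show i₀ = y from h) ▸ hy)) h5
    · change algebraMap k K (coeffIn v g i 0) ≠ 0
      exact (map_ne_zero_iff _ hinj).2 (hne0 i i.2)
  have hlin : (fun i : I => (polyIn v g i).map (algebraMap k K)) = lin14 (aff14 cr) := by
    funext i
    unfold polyIn lin14
    rw [Polynomial.map_add, Polynomial.map_mul, map_C, map_C, map_X]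
    have e1 : algebraMap k K (-(coeffIn v g i 2 / coeffIn v g i 0)) =
        aff14 cr (Sum.inl i) := by
      rw [map_neg, map_div₀]
      rfl
    have e2 : algebraMap k K (-(coeffIn v g i 1 / coeffIn v g i 0)) =
        aff14 cr (Sum.inr i) := by
      rw [map_neg, map_div₀]
      rfl
    rw [e1, e2]
  -- the arrangement over `K`
  have harrK : IsArrangement (lin14 (aff14 cr)) := by
    rw [← hlin]
    refine ⟨?_, fun i j hij => ?_⟩
    · have h2 := harr.separable
      have h3 : (∏ i : I, ∏ j ∈ Finset.univ.filter fun j => i < j,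
          ((polyIn v g i).map (algebraMap k K) - (polyIn v g j).map (algebraMap k K))) =
          (∏ i : I, ∏ j ∈ Finset.univ.filter fun j => i < j,
            (polyIn v g i - polyIn v g j)).map (algebraMap k K) := by
        rw [Polynomial.map_prod]
        refine Finset.prod_congr rfl fun i _ => ?_
        rw [Polynomial.map_prod]
        refine Finset.prod_congr rfl fun j _ => ?_
        rw [Polynomial.map_sub]
      rw [h3, Polynomial.separable_map]
      exact h2
    · rw [← Polynomial.map_sub, natDegree_map]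
      exact harr.natDegree_ne_zero i j hij
  rw [hlin]
  refine ⟨harrK, (gen_of_isArrangement14 harrK).indepW hℓ
    (by rw [Fintype.card_coe]; exact hI) W hW hcop ?_ F⟩
  intro i j l hij hjl hil
  have hne : ∀ {i j : I}, i ≠ j → (i : ι) ≠ j := fun h h' => h (Subtype.ext h')
  obtain ⟨V, hV1, hV0⟩ := hsep i j l (hne hij) (hne hjl) (hne hil)
  obtain ⟨V', hV'⟩ := exists_val_extend (K := K) hℓ hd V
  refine ⟨V', hv_chart14 V' cr h0 h1 hs (algebraMap k K g.det) hdet0 B hB
    (r := 1) one_ne_zero ?_ ?_ ?_⟩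
  · exact (map_ne_zero_iff _ hinj).2 (hb i j l (hne hij) (hne hjl) (hne hil))
  · rw [hBdef]
    beta_reduce
    rw [hV']
    · exact hV1
    · exact hb i j l (hne hij) (hne hjl) (hne hil)
  · intro x y z hxy hyz hxz hno
    have hinj' := opt14_injective hi₀
    have hx' : opt14 i₀ I x ≠ opt14 i₀ I y := fun h => hxy (hinj' h)
    have hy' : opt14 i₀ I y ≠ opt14 i₀ I z := fun h => hyz (hinj' h)
    have hz' : opt14 i₀ I x ≠ opt14 i₀ I z := fun h => hxz (hinj' h)
    have hmem : ∀ w : Option I, opt14 i₀ I w ∈ ({(i : ι), (j : ι), (l : ι)} : Set ι) →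
        w ∈ ({some i, some j, some l} : Set (Option I)) := by
      intro w hw
      simp only [Set.mem_insert_iff, Set.mem_singleton_iff] at hw ⊢
      rcases hw with hw | hw | hw
      · exact Or.inl (hinj' hw)
      · exact Or.inr (Or.inl (hinj' hw))
      · exact Or.inr (Or.inr (hinj' hw))
    refine ⟨hBne _ _ _ hx' hy' hz', ?_⟩
    rw [hBdef]
    beta_reduce
    rw [hV' _ (hb _ _ _ hx' hy' hz')]
    refine hV0 _ _ _ hx' hy' hz' fun hh => hno ?_
    have hm : ∀ w : ι, w ∈ ({opt14 i₀ I x, opt14 i₀ I y, opt14 i₀ I z} : Set ι) →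
        w ∈ ({(i : ι), (j : ι), (l : ι)} : Set ι) := fun w hw => hh ▸ hw
    exact ⟨hmem x (hm _ (Or.inl rfl)), hmem y (hm _ (Or.inr (Or.inl rfl))),
      hmem z (hm _ (Or.inr (Or.inr rfl)))⟩

end Pool.Agent.Lib.MP_89bcae_ag.Bra

end
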