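import Mathlib
import Pool.Agent.Lib.MP_89bcae_ag.Bk.K053

namespace Pool.Agent.Lib.MP_89bcae_ag.Superelliptic
end Pool.Agent.Lib.MP_89bcae_ag.Superelliptic

section

namespace Pool.Agent.Lib.MP_89bcae_ag.Lr

variable {ι : Type} {ℓ : ℕ}

/-- The symbols are not all zero. Proof: let `s₁, s₂, s₃` be different elements of `S`
(`Finset.two_lt_card`). If all `c {i, j, l}` and `c {i, j}` for `i, j, l` different elements of `S` are
zero, then the hypotheses of `hT` hold for `f = 0`, `z = 0` and `ε` with `ε s₁ s₂ = 1`, `ε s₂ s₁ = -1`,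
zero elsewhere: in the sum the terms `l = i`, `l = j` are zero (`{i, j, i} = {i, j}`), the others by
assumption. So `ε i j = b i - b j`: `b s₁ = b s₃ = b s₂`, but `ε s₁ s₂ = 1`, a contradiction. -/
theorem GoodT.exists_ne [DecidableEq ι] [Fact ℓ.Prime] {w : ι → ZMod ℓ} {c : Finset ι → ZMod ℓ}
    {S : Finset ι} (hT : GoodT w c S) (hS : 3 ≤ S.card) :
    (∃ i ∈ S, ∃ j ∈ S, ∃ l ∈ S, i ≠ j ∧ j ≠ l ∧ i ≠ l ∧ c {i, j, l} ≠ 0) ∨
      ∃ i ∈ S, ∃ j ∈ S, i ≠ j ∧ c {i, j} ≠ 0 := by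
  by_contra hcon
  push Not at hcon
  obtain ⟨h1, h2⟩ := hcon
  obtain ⟨s1, m1, s2, m2, s3, m3, n12, n13, n23⟩ := Finset.two_lt_card.1 (show 2 < S.card by omega)
  obtain ⟨b, hb⟩ := hT (fun i j => if i = s1 ∧ j = s2 then 1 else if i = s2 ∧ j = s1 then -1 else 0)
    (fun _ => 0) 0 (by
      intro i _ j _ hij
      by_cases a1 : i = s1 ∧ j = s2
      · obtain ⟨rfl, rfl⟩ := a1
        simp [hij, hij.symm]
      · by_cases a2 : i = s2 ∧ j = s1
        · obtain ⟨rfl, rfl⟩ := a2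
          simp [hij, hij.symm]
        · have a3 : ¬ (j = s1 ∧ i = s2) := fun h => a2 ⟨h.2, h.1⟩
          have a4 : ¬ (j = s2 ∧ i = s1) := fun h => a1 ⟨h.2, h.1⟩
          simp only [if_neg a1, if_neg a2, if_neg a3, if_neg a4, neg_zero]) (by
      intro i hi j hj hij
      rw [zero_mul, sub_zero, add_zero]
      apply Finset.sum_eq_zero
      intro l hl
      have h0 : c {i, j, l} - c {i, j} = 0 := by
        by_cases a1 : l = i
        · subst a1
          have : ({l, j, l} : Finset ι) = {l, j} := by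
            ext x
            simp only [Finset.mem_insert, Finset.mem_singleton]
            tauto
          rw [this, sub_self]
        · by_cases a2 : l = j
          · subst a2
            have : ({i, l, l} : Finset ι) = {i, l} := by
              ext x
              simp only [Finset.mem_insert, Finset.mem_singleton]
              tauto
            rw [this, sub_self]
          · rw [h1 i hi j hj l hl hij (Ne.symm a2) (Ne.symm a1), h2 i hi j hj hij, sub_zero]
      rw [h0, mul_zero, zero_mul])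
  have e1 := hb s1 m1 s2 m2 n12
  have e2 := hb s1 m1 s3 m3 n13
  have e3 := hb s2 m2 s3 m3 n23
  have f2 : ¬ (s1 = s1 ∧ s3 = s2) := fun h => n23 h.2.symm
  have f2' : ¬ (s1 = s2 ∧ s3 = s1) := fun h => n12 h.1
  have f3 : ¬ (s2 = s1 ∧ s3 = s2) := fun h => n12 h.1.symm
  have f3' : ¬ (s2 = s2 ∧ s3 = s1) := fun h => n13 h.2.symm
  rw [if_pos ⟨rfl, rfl⟩] at e1
  rw [if_neg f2, if_neg f2'] at e2
  rw [if_neg f3, if_neg f3'] at e3
  have e4 : (1 : ZMod ℓ) = 0 := by
    rw [e1]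
    have : b s1 - b s2 = (b s1 - b s3) - (b s2 - b s3) := by ring
    rw [this, ← e2, ← e3, sub_zero]
  exact one_ne_zero e4

end Pool.Agent.Lib.MP_89bcae_ag.Lr

end

section

/-!
# Symbols for the lines of the projective plane
-/

open scoped Classical

set_option linter.unusedSectionVars false

namespace Pool.Agent.Lib.MP_89bcae_ag.Lr

variable {ι : Type} [Fintype ι] [LinearOrder ι]

/-- Symbols for the lines. Proof: `exists_good` for the type `I`, `S = Finset.univ`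
(`∑ i, (W i : ZMod ℓ) ≠ 0`, `(W i : ZMod ℓ) ≠ 0` from the coprimality) gives `c` and `GoodT w c univ`.
Take `C T = c ((T.erase i₀).subtype (· ∈ I))`. Then `C {i, j, l} = c {i, j, l}` for `i, j, l : I` and
`C {i, j, i₀} = c {i, j}` for `i ≠ j` (`i₀ ∉ I`). The last statement from `GoodT.exists_ne`. -/
theorem exists_symbols {ℓ : ℕ} (hℓ : ℓ.Prime) (hℓ2 : ℓ ≠ 2) {i₀ : ι} {I : Finset ι} (hi₀ : i₀ ∉ I)
    (hI : 4 ≤ I.card) (W : I → ℕ) (hW : ∀ i, (W i).Coprime ℓ) (hs : (∑ i, W i).Coprime ℓ) :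
    ∃ (C : Finset ι → ZMod ℓ) (c : Finset I → ZMod ℓ),
      GoodT (fun i => (W i : ZMod ℓ)) c Finset.univ ∧
      (∀ i j l : I, i ≠ j → j ≠ l → i ≠ l → C {(i : ι), (j : ι), (l : ι)} = c {i, j, l}) ∧
      (∀ i j : I, i ≠ j → C {(i : ι), (j : ι), i₀} = c {i, j}) ∧
      ∃ i j l : ι, i ≠ j ∧ j ≠ l ∧ i ≠ l ∧ C {i, j, l} ≠ 0 := by
  have : Fact ℓ.Prime := ⟨hℓ⟩
  have hne : ∀ n : ℕ, n.Coprime ℓ → (n : ZMod ℓ) ≠ 0 := by
    intro n hn h0
    rw [ZMod.natCast_eq_zero_iff] at h0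
    have := Nat.Coprime.symm hn
    exact hℓ.one_lt.ne' (Nat.Coprime.eq_one_of_dvd this h0)
  have hcard : 4 ≤ (Finset.univ : Finset I).card := by
    rw [Finset.card_univ, Fintype.card_coe]
    exact hI
  have hex := exists_good (ι := I) (ℓ := ℓ) hℓ2 (w := fun i => (W i : ZMod ℓ)) Finset.univ hcard
    (fun i _ => hne _ (hW i)) (by
      have h := hne _ hs
      rw [Nat.cast_sum] at h
      exact h)
  obtain ⟨c, g, hT, hR⟩ := hex
  have hi : ∀ i : I, (i : ι) ≠ i₀ := fun i h => hi₀ (h ▸ i.2)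
  have h1 : ∀ i j l : I, c ((({(i : ι), (j : ι), (l : ι)} : Finset ι).erase i₀).subtype (· ∈ I)) = c {i, j, l} := by
    intro i j l
    congr 1
    ext x
    simp only [Finset.mem_subtype, Finset.mem_erase, Finset.mem_insert, Finset.mem_singleton, Subtype.ext_iff]
    exact ⟨fun h => h.2, fun h => ⟨hi x, h⟩⟩
  have h2 : ∀ i j : I, c ((({(i : ι), (j : ι), i₀} : Finset ι).erase i₀).subtype (· ∈ I)) = c {i, j} := by
    intro i j
    congr 1
    ext x
    simp only [Finset.mem_subtype, Finset.mem_erase, Finset.mem_insert, Finset.mem_singleton, Subtype.ext_iff]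
    constructor
    · rintro ⟨-, h | h | h⟩
      · exact Or.inl h
      · exact Or.inr h
      · exact absurd h (hi x)
    · rintro (h | h)
      · exact ⟨hi x, Or.inl h⟩
      · exact ⟨hi x, Or.inr (Or.inl h)⟩
  refine ⟨fun T => c ((T.erase i₀).subtype (· ∈ I)), c, hT, fun i j l _ _ _ => h1 i j l,
    fun i j _ => h2 i j, ?_⟩
  rcases hT.exists_ne (by omega) with ⟨i, -, j, -, l, -, hij, hjl, hil, hc⟩ | ⟨i, -, j, -, hij, hc⟩
  · refine ⟨i, j, l, fun h => hij (Subtype.ext h), fun h => hjl (Subtype.ext h), fun h => hil (Subtype.ext h), ?_⟩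
    rw [← h1 i j l] at hc
    exact hc
  · refine ⟨i, j, i₀, fun h => hij (Subtype.ext h), hi j, hi i, ?_⟩
    rw [← h2 i j] at hc
    exact hc

end Pool.Agent.Lib.MP_89bcae_ag.Lr

end

section

/-!
# Lines of the projective plane over a field: the arithmetic condition in the charts
-/

open Polynomial

open scoped Classical

set_option linter.unusedSectionVars false
set_option linter.unusedSimpArgs false
set_option linter.style.haveILetI false

namespace Pool.Agent.Lib.MP_89bcae_ag.Lr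

open Superelliptic

variable {ι : Type} [Fintype ι] [LinearOrder ι] {k : Type} [Field k]

/-- **The arithmetic condition in the charts, with one homomorphism.** Proof: as `prjIndepN14`
(`LPrjN14.lean`), directly over `k`: `cr : Option I → Fin 3 → k`, `cr x j = Over.lineCoeff v g (opt14 i₀ I x) j`,
`dt14 (cr x) (cr y) (cr z) = g.det * (pbr14 v _ _ _ : k)` (`dt14_mul`, `bracket_eq8`), all `scl14 cr x ≠ 0`,
`Over.linePoly v g i = lin14 (aff14 cr) i` by definition, `gen_of_isArrangement14`. As in `hv_chart14`, for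
different `x, y, z : Option I`:
`V.ν (brk14 (aff14 cr) x y z) = V.ν g.det - V.ν (scl14 cr x) - V.ν (scl14 cr y) - V.ν (scl14 cr z) +
V.ν (bracket ..)`. `Gen14.indepW_good` with `m₀ = V.ν g.det`, `μ x = - V.ν (scl14 cr x)`: `hV` is the case
`some i, some j, some l` (`brk14` is `dd14`, see `cut_kw`), `hV0` the case `some i, some j, none`
(`brk14_none`). -/
theorem indepW_lines {ℓ : ℕ} (hℓ : ℓ.Prime) {v : ι × Fin 3 → ℤ}
    (hb : ∀ x y z : ι, x ≠ y → y ≠ z → x ≠ z → ((bracket v x y z : ℤ) : k) ≠ 0)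
    {g : Matrix (Fin 3) (Fin 3) k} {i₀ : ι} {I : Finset ι} (hi₀ : i₀ ∉ I) (hI : 2 ≤ I.card)
    (hg : Over.IsChart v g i₀ I) (W : I → ℕ) (hW : ∀ i, (W i).Coprime ℓ)
    (harr : IsArrangement fun i : I => Over.linePoly v g i)
    (V : Val14 k ℓ) (c₀ : Finset I → ZMod ℓ)
    (hV : ∀ i j l : I, i ≠ j → j ≠ l → i ≠ l →
      V.ν ((bracket v i j l : ℤ) : k) = c₀ {i, j, l})
    (hV0 : ∀ i j : I, i ≠ j → V.ν ((bracket v i j i₀ : ℤ) : k) = c₀ {i, j})
    (hT : GoodT (fun i => (W i : ZMod ℓ)) c₀ Finset.univ) (F : Type) [Field F] [Algebra k F] :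
    ArrangementIndependentW ℓ k F W (fun i : I => Over.linePoly v g i) := by
  haveI : Fact ℓ.Prime := ⟨hℓ⟩
  -- the coefficients in the chart
  set cr : Option I → Fin 3 → k := fun x j => Over.lineCoeff v g (opt14 i₀ I x) j with hcr
  have hcrs : ∀ x, cr x = fun j => ∑ l, ((v (opt14 i₀ I x, l) : ℤ) : k) * g l j := by
    intro x
    rfl
  set B : Option I → Option I → Option I → k := fun x y z =>
    ((bracket v (opt14 i₀ I x) (opt14 i₀ I y) (opt14 i₀ I z) : ℤ) : k) with hBdef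
  have hB : ∀ x y z, dt14 (cr x) (cr y) (cr z) = g.det * B x y z := by
    intro x y z
    rw [hcrs x, hcrs y, hcrs z, dt14_mul, hBdef]
    beta_reduce
    rw [bracket_eq8]
    congr 1
    unfold dt14 pbr14
    push_cast
    ring
  have h0 : cr none 0 = 0 := hg.at_infinity.1
  have h1 : cr none 1 = 0 := hg.at_infinity.2
  have hdet0 : g.det ≠ 0 := hg.det_ne_zero
  have hs : ∀ x, scl14 cr x ≠ 0 := by
    rintro (_ | i)
    · change -cr none 2 ≠ 0
      rw [neg_ne_zero]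
      intro h2
      obtain ⟨x, hx, y, hy, hxy⟩ := Finset.one_lt_card.1 (show 1 < I.card by omega)
      have h3 := hB none (some ⟨x, hx⟩) (some ⟨y, hy⟩)
      have h4 : dt14 (cr none) (cr (some ⟨x, hx⟩)) (cr (some ⟨y, hy⟩)) = 0 := by
        unfold dt14
        rw [h0, h1, h2]
        ring
      rw [h4] at h3
      have h5 := (mul_eq_zero.1 h3.symm).resolve_left hdet0
      exact hb i₀ x y (fun h => hi₀ (h ▸ hx)) hxy (fun h => hi₀ (h ▸ hy)) h5
    · exact hg.ne_zero i i.2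
  have hinj := opt14_injective hi₀
  have hBne : ∀ x y z : Option I, x ≠ y → y ≠ z → x ≠ z → B x y z ≠ 0 := by
    intro x y z hxy hyz hxz
    exact hb _ _ _ (fun h => hxy (hinj h)) (fun h => hyz (hinj h)) (fun h => hxz (hinj h))
  have key : ∀ x y z : Option I, x ≠ y → y ≠ z → x ≠ z →
      V.ν (brk14 (aff14 cr) x y z) = V.ν (B x y z) + V.ν g.det + (-V.ν (scl14 cr x)) +
        (-V.ν (scl14 cr y)) + (-V.ν (scl14 cr z)) := by
    intro x y z hxy hyz hxz
    have hne := hBne x y z hxy hyz hxz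
    have h2 := brk_chart14 cr h0 h1 hs x y z
    rw [hB] at h2
    have hS : scl14 cr x * scl14 cr y * scl14 cr z ≠ 0 :=
      mul_ne_zero (mul_ne_zero (hs x) (hs y)) (hs z)
    have hDB : g.det * B x y z ≠ 0 := mul_ne_zero hdet0 hne
    have hb' : brk14 (aff14 cr) x y z ≠ 0 := by
      intro h3
      rw [h3, zero_mul] at h2
      exact neg_ne_zero.2 hDB h2.symm
    have h3 := congrArg V.ν h2
    rw [V.mul _ _ hb' hS, V.neg hDB, V.mul _ _ hdet0 hne,
      V.mul _ _ (mul_ne_zero (hs x) (hs y)) (hs z), V.mul _ _ (hs x) (hs y)] at h3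
    linear_combination h3
  have harr' : IsArrangement (lin14 (aff14 cr)) := harr
  have hsome : ∀ {i j : I}, i ≠ j → (some i : Option I) ≠ some j := fun h h' => h (Option.some_injective _ h')
  have main := (gen_of_isArrangement14 harr').indepW_good hℓ W hW V c₀ (V.ν g.det)
    (fun x => -V.ν (scl14 cr x)) ?_ ?_ hT F
  · exact main
  · intro i j l hij hjl hil
    have h2 := key (some i) (some j) (some l) (hsome hij) (hsome hjl) (hsome hil)
    have h3 : V.ν (B (some i) (some j) (some l)) = c₀ {i, j, l} := hV i j l hij hjl hil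
    rw [h3] at h2
    exact h2
  · intro i j hij
    have h2 := key (some i) (some j) none (hsome hij) (by simp) (by simp)
    have h3 : V.ν (B (some i) (some j) none) = c₀ {i, j} := hV0 i j hij
    rw [h3, brk14_none] at h2
    exact h2

end Pool.Agent.Lib.MP_89bcae_ag.Lr

end

section

/-!
# Prime fields in which the brackets have given symbols
-/

namespace Pool.Agent.Lib.MP_89bcae_ag.Lr

open Superelliptic

/-- **Primes with given symbols of the brackets.** Proof: `K = CyclotomicField ℓ ℚ` (a number field),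
`F = AlgebraicClosure K`, `ζ` a primitive root in `K`, `U` from `exists_U_lines`; `Re.exists_reduction` for
`T` the finite set of the `(bracket v i j l : K)` (all `i, j, l` different); `hT` from `hC`. It gives `q`,
`A`, `Φ`, `c ≠ 0`; let `ζ' = (Φ ζ) ^ c.val`, a primitive root of order `ℓ` (`IsPrimitiveRoot.pow_of_coprime`).
For `z = (bracket v i j l : K)`: `Φ z = (bracket v i j l : ZMod q)` (`map_intCast`, the subring `A` contains
the integers) is not zero and its power is `(Φ ζ) ^ (c * C {i, j, l}).val = ζ' ^ (C {i, j, l}).val`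
(exponents modulo `ℓ`: `pow_eq_pow_mod`/`IsPrimitiveRoot.pow_eq_one`; `ZMod.val_mul`). Then `V` is that of
`exists_val_zmod` for `ζ'`. -/
theorem exists_prime_lines {ι : Type} [Fintype ι] [LinearOrder ι] {v : ι × Fin 3 → ℤ}
    (hv : HasPrivatePrimes v) {ℓ : ℕ} (hℓ : ℓ.Prime) (hℓ2 : ℓ ≠ 2) (C : Finset ι → ZMod ℓ)
    (hC : ∃ i j l : ι, i ≠ j ∧ j ≠ l ∧ i ≠ l ∧ C {i, j, l} ≠ 0) (N : ℕ) :
    ∃ (q : ℕ) (_ : Fact q.Prime) (ζ : ZMod q) (V : Val14 (ZMod q) ℓ), N < q ∧
      IsPrimitiveRoot ζ ℓ ∧ ∀ i j l : ι, i ≠ j → j ≠ l → i ≠ l →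
        ((bracket v i j l : ℤ) : ZMod q) ≠ 0 ∧
          V.ν ((bracket v i j l : ℤ) : ZMod q) = C {i, j, l} := by
  classical
  have : Fact ℓ.Prime := ⟨hℓ⟩
  have : NeZero ℓ := ⟨hℓ.ne_zero⟩
  have : IsCyclotomicExtension {ℓ} ℚ (CyclotomicField ℓ ℚ) :=
    CyclotomicField.isCyclotomicExtension ℓ ℚ
  have hζ : IsPrimitiveRoot (IsCyclotomicExtension.zeta ℓ ℚ (CyclotomicField ℓ ℚ)) ℓ :=
    IsCyclotomicExtension.zeta_spec ℓ ℚ (CyclotomicField ℓ ℚ)
  generalize IsCyclotomicExtension.zeta ℓ ℚ (CyclotomicField ℓ ℚ) = ζ at hζ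
  obtain ⟨U, hU⟩ := exists_U_lines hv hℓ (CyclotomicField ℓ ℚ)
    (AlgebraicClosure (CyclotomicField ℓ ℚ)) hζ C
  have hne : ∀ i j l : ι, i ≠ j → j ≠ l → i ≠ l → bracket v i j l ≠ 0 := by
    intro i j l h1 h2 h3 h0
    obtain ⟨p, -, -, hp2, -⟩ := hv i j l h1 h2 h3
    exact hp2 (h0 ▸ dvd_zero _)
  have hneK : ∀ i j l : ι, i ≠ j → j ≠ l → i ≠ l →
      ((bracket v i j l : ℤ) : CyclotomicField ℓ ℚ) ≠ 0 :=
    fun i j l h1 h2 h3 => Int.cast_ne_zero.2 (hne i j l h1 h2 h3)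
  let T : Finset (CyclotomicField ℓ ℚ) :=
    ((Finset.univ : Finset (ι × ι × ι)).filter
      (fun t => t.1 ≠ t.2.1 ∧ t.2.1 ≠ t.2.2 ∧ t.1 ≠ t.2.2)).image
      (fun t => ((bracket v t.1 t.2.1 t.2.2 : ℤ) : CyclotomicField ℓ ℚ))
  have hmem : ∀ i j l : ι, i ≠ j → j ≠ l → i ≠ l →
      ((bracket v i j l : ℤ) : CyclotomicField ℓ ℚ) ∈ T := by
    intro i j l h1 h2 h3
    exact Finset.mem_image.2 ⟨(i, j, l), by simp [h1, h2, h3], rfl⟩
  obtain ⟨i₀, j₀, l₀, h1, h2, h3, h4⟩ := hC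
  obtain ⟨q, hq, A, Φ, c, hζA, hNq, hdvd, hc, hprim, hT⟩ :=
    Re.exists_reduction hℓ (CyclotomicField ℓ ℚ) (AlgebraicClosure (CyclotomicField ℓ ℚ)) hζ U T
      ⟨_, hmem i₀ j₀ l₀ h1 h2 h3, hneK i₀ j₀ l₀ h1 h2 h3, by rw [hU i₀ j₀ l₀ h1 h2 h3]; exact h4⟩ N
  have hcop : Nat.Coprime c.val ℓ := by
    refine ((Nat.Prime.coprime_iff_not_dvd hℓ).2 ?_).symm
    intro hd
    apply hc
    have h5 : c.val = 0 := Nat.eq_zero_of_dvd_of_lt hd (ZMod.val_lt c)
    exact (ZMod.val_eq_zero c).1 h5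
  have hζ' : IsPrimitiveRoot ((Φ ⟨ζ, hζA⟩) ^ c.val) ℓ := hprim.pow_of_coprime c.val hcop
  obtain ⟨V, hV⟩ := exists_val_zmod hℓ hℓ2 hdvd hζ'
  refine ⟨q, hq, (Φ ⟨ζ, hζA⟩) ^ c.val, V, hNq, hζ', ?_⟩
  intro i j l h1 h2 h3
  obtain ⟨hz, hrest⟩ := hT _ (hmem i j l h1 h2 h3)
  obtain ⟨h0, hpow⟩ := hrest (hneK i j l h1 h2 h3)
  have hΦ : Φ ⟨((bracket v i j l : ℤ) : CyclotomicField ℓ ℚ), hz⟩ =
      ((bracket v i j l : ℤ) : ZMod q) := by
    have h5 : (⟨((bracket v i j l : ℤ) : CyclotomicField ℓ ℚ), hz⟩ : A) =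
        ((bracket v i j l : ℤ) : A) := Subtype.ext (by push_cast; rfl)
    rw [h5, map_intCast]
  rw [hΦ] at h0 hpow
  refine ⟨h0, hV _ _ h0 ?_⟩
  rw [hpow, hU i j l h1 h2 h3, ZMod.val_mul, ← pow_mul]
  exact (pow_eq_pow_mod _ hprim.pow_eq_one).symm

end Pool.Agent.Lib.MP_89bcae_ag.Lr

end

section

/-!
# Lines of the projective plane: the finite fields without Tate classes
-/

open Polynomial

open scoped Classical

set_option linter.unusedSectionVars false
set_option linter.style.haveILetI false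

namespace Pool.Agent.Lib.MP_89bcae_ag.Lr

open Superelliptic

variable {ι : Type} [Fintype ι] [LinearOrder ι]

/-- **Finite fields without Tate classes.** Proof: `C, c` from `exists_symbols`; `exists_prime_lines` for
`C` and the bound `max N (max ℓ (card ι + card ι ^ 4))` gives `q, ζ, V`. The charts: `exists_chart_subset`
(a finset of `ZMod q` with less than `q` elements is not everything: `ZMod.card`,
`Finset.exists_mem_notMem_of_card_lt_card`). The second part: `indepW_lines`, `Wt.Lns.arrangementW`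
(`(ℓ : ZMod q) ≠ 0` because `0 < ℓ < q`) and `tateClassesTorsionN8`. -/
theorem exists_prime_hasNoTateClasses {ℓ : ℕ} (hℓ : ℓ.Prime) (hℓ2 : ℓ ≠ 2) {v : ι × Fin 3 → ℤ}
    (hv : HasPrivatePrimes v) {i₀ : ι} {I : Finset ι} (hi₀ : i₀ ∉ I) (hI : 4 ≤ I.card)
    (W : I → ℕ) (hW : ∀ i, (W i).Coprime ℓ) (hs : (∑ i, W i).Coprime ℓ) (N : ℕ) :
    ∃ (q : ℕ) (_ : Fact q.Prime), N < q ∧ Over.HasNoTateClasses ℓ (ZMod q) v i₀ I W := by
  obtain ⟨C, c, hT, hC1, hC2, hC3⟩ := exists_symbols hℓ hℓ2 hi₀ hI W hW hs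
  obtain ⟨q, hq, ζ, V, hqN, hζ, hV⟩ := exists_prime_lines hv hℓ hℓ2 C hC3
    (max N (max ℓ (Fintype.card ι + Fintype.card ι ^ 4)))
  have hNq : N < q := lt_of_le_of_lt (le_max_left _ _) hqN
  have hℓq : ℓ < q := lt_of_le_of_lt ((le_max_left _ _).trans (le_max_right _ _)) hqN
  have hιq : Fintype.card ι + Fintype.card ι ^ 4 < q :=
    lt_of_le_of_lt ((le_max_right _ _).trans (le_max_right _ _)) hqN
  have hb : ∀ x y z : ι, x ≠ y → y ≠ z → x ≠ z → ((bracket v x y z : ℤ) : ZMod q) ≠ 0 :=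
    fun x y z h1 h2 h3 => (hV x y z h1 h2 h3).1
  have hcard : 3 ≤ Fintype.card ι := by
    have h := Finset.card_le_univ I
    omega
  have hℓ0 : (ℓ : ZMod q) ≠ 0 := by
    intro h
    rw [ZMod.natCast_eq_zero_iff] at h
    exact absurd (Nat.le_of_dvd hℓ.pos h) (not_le.mpr hℓq)
  refine ⟨q, hq, hNq, ?_, ?_⟩
  · refine exists_chart_subset hb hcard (fun S hS => ?_) hi₀
    have h1 : S.card < (Finset.univ : Finset (ZMod q)).card := by
      rw [Finset.card_univ, ZMod.card]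
      exact lt_of_le_of_lt hS hιq
    obtain ⟨s, -, hs'⟩ := Finset.exists_mem_notMem_of_card_lt_card h1
    exact ⟨s, hs'⟩
  · intro F L Ω _ _ _ _ _ _ _ _ _ g hg harr k' hk'
    haveI := hk'
    have hind : ArrangementIndependentW ℓ (ZMod q) F W (fun i : I => Over.linePoly v g i) := by
      refine indepW_lines hℓ hb hi₀ (le_trans (by norm_num) hI) hg W hW harr V c ?_ ?_ hT F
      · intro i j l h1 h2 h3
        exact (hV i j l (Subtype.coe_injective.ne h1) (Subtype.coe_injective.ne h2)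
          (Subtype.coe_injective.ne h3)).2.trans (hC1 i j l h1 h2 h3)
      · intro i j h1
        have hi : (i : ι) ≠ i₀ := fun h => hi₀ (h ▸ i.2)
        have hj : (j : ι) ≠ i₀ := fun h => hi₀ (h ▸ j.2)
        exact (hV i j i₀ (Subtype.coe_injective.ne h1) hj hi).2.trans (hC2 i j h1)
    exact tateClassesTorsionN8
      (Wt.Lns.arrangementW F L Ω hℓ hℓ0 hζ W hW hs _ harr hind k')

end Pool.Agent.Lib.MP_89bcae_ag.Lr

end

section

/-!
# The final theorem
-/

open Polynomial Filter Topology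

open scoped Classical

set_option linter.unusedSectionVars false
set_option linter.style.haveILetI false

namespace Pool.Agent.Lib.MP_89bcae_ag.Lr

open Superelliptic

/-- Over `ℚ` the two definitions agree. -/
theorem isChart_over_iff {ι : Type} (v : ι × Fin 3 → ℤ) (g : Matrix (Fin 3) (Fin 3) ℚ) (i₀ : ι)
    (I : Finset ι) : Over.IsChart v g i₀ I ↔ IsChart v g i₀ I :=
  ⟨fun h => ⟨h.det_ne_zero, h.at_infinity, h.ne_zero⟩,
    fun h => ⟨h.det_ne_zero, h.at_infinity, h.ne_zero⟩⟩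


theorem bracket_ne_zero {ι : Type} {v : ι × Fin 3 → ℤ} (hv : HasPrivatePrimes v) {x y z : ι}
    (hxy : x ≠ y) (hyz : y ≠ z) (hxz : x ≠ z) : bracket v x y z ≠ 0 := by
  obtain ⟨p, -, -, h, -⟩ := hv x y z hxy hyz hxz
  intro h0
  apply h
  rw [h0]
  exact dvd_zero _

/-- **The criterion at all primes and the density one theorem.** -/
theorem lineCoversR (m : ℕ) :
    (∀ v : Fin m × Fin 3 → ℤ, HasPrivatePrimes v → ∀ ℓ : ℕ, ℓ.Prime →
      ∀ (i₀ : Fin m) (I : Finset (Fin m)), i₀ ∉ I → 4 ≤ I.card →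
      ∀ W : I → ℕ, (∀ i, (W i).Coprime ℓ) → (∑ i, W i).Coprime ℓ →
        Over.HasNoTateClasses ℓ ℚ v i₀ I W ∧
        (ℓ ≠ 2 → ∀ N : ℕ, ∃ (q : ℕ) (_ : Fact q.Prime), N < q ∧
          Over.HasNoTateClasses ℓ (ZMod q) v i₀ I W)) ∧
    Tendsto (fun H : ℕ => ({v : Fin m × Fin 3 → ℤ | (∀ i, |v i| ≤ H) ∧
      HasPrivatePrimes v}.ncard : ℝ) / (2 * H + 1) ^ (3 * m)) atTop (𝓝 1) := by
  refine ⟨fun v hv ℓ hℓ i₀ I hi₀ hI W hW hs => ⟨⟨?_, ?_⟩, fun hℓ2 N => ?_⟩, ?_⟩
  · -- charts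
    have hc : 3 ≤ Fintype.card (Fin m) := by
      have h1 := Finset.card_le_univ I
      omega
    exact exists_chart_subset (k := ℚ) (fun x y z hxy hyz hxz =>
      Int.cast_ne_zero.2 (bracket_ne_zero hv hxy hyz hxz)) hc
      (fun S _ => Infinite.exists_notMem_finset S) hi₀
  · intro F L Ω _ _ _ _ _ _ _ _ _ g hg harr k' hk'
    have hm : 3 ≤ m := by
      have h1 := Finset.card_le_univ I
      rw [Fintype.card_fin] at h1
      omega
    exact ((lineCovers8 F L Ω m hm).1 v hv).2 ℓ hℓ i₀ g I ((isChart_over_iff v g i₀ I).1 hg)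
      harr hI W hW hs k' hk'
  · exact exists_prime_hasNoTateClasses hℓ hℓ2 hv hi₀ hI W hW hs N
  · have hcard : Fintype.card (Fin m × Fin 3) = 3 * m := by
      rw [Fintype.card_prod, Fintype.card_fin, Fintype.card_fin, mul_comm]
    have hd := prjDensity14 (ι := Fin m) 1 0
    rw [hcard] at hd
    refine density_monoN14 (3 * m) hcard (fun v hv => ?_) hd
    rw [hasPrivatePrimes_iff8]
    intro x y z hxy hyz hxz
    obtain ⟨p, hp, -, -, hpo⟩ := hv x y z hxy hyz hxz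
    exact ⟨p, hp, hpo⟩

end Pool.Agent.Lib.MP_89bcae_ag.Lr

end
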