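import Mathlib
import Pool.Agent.Lib.MP_89bcae_ag.Bk.K049
import Pool.Agent.Lib.MP_89bcae_ag.Bk.K054
import Pool.Agent.Lib.MP_89bcae_ag.Bk.K055
import Pool.Agent.Lib.MP_89bcae_ag.Bk.K056

namespace Pool.Agent.Lib.MP_89bcae_ag.Lr
end Pool.Agent.Lib.MP_89bcae_ag.Lr
namespace Pool.Agent.Lib.MP_89bcae_ag.Superelliptic
end Pool.Agent.Lib.MP_89bcae_ag.Superelliptic

section

/-!
# Lines with independent brackets over a field: the Selmer groups in the charts
-/

open Polynomial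

open scoped Classical

set_option linter.unusedSectionVars false
set_option linter.style.haveILetI false

namespace Pool.Agent.Lib.MP_89bcae_ag.Bra

open Superelliptic Lr

section infinite

variable {k : Type} [Field k] {ℓ : ℕ}

/-- A field with two separated elements is infinite. -/
lemma infinite_of_val (hℓ : ℓ.Prime) {a b : k} (ha : a ≠ 0) (hb : b ≠ 0) (V V' : Val14 k ℓ)
    (h1 : V.ν a = 1) (h2 : V.ν b = 0) (h3 : V'.ν b = 1) : Infinite k := by
  haveI : Fact ℓ.Prime := ⟨hℓ⟩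
  by_contra hcon
  haveI : Finite k := not_infinite_iff_finite.1 hcon
  obtain ⟨ζ, hζ⟩ := IsCyclic.exists_generator (α := kˣ)
  obtain ⟨m, hm⟩ := hζ (Units.mk0 a ha)
  obtain ⟨n, hn⟩ := hζ (Units.mk0 b hb)
  have hm' : (ζ : k) ^ m = a := by
    have h := congrArg Units.val hm
    rw [Units.val_mk0] at h
    rw [← h]
    exact (Units.val_zpow_eq_zpow_val ζ m).symm
  have hn' : (ζ : k) ^ n = b := by
    have h := congrArg Units.val hn
    rw [Units.val_mk0] at h
    rw [← h]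
    exact (Units.val_zpow_eq_zpow_val ζ n).symm
  have e1 : (m : ZMod ℓ) * V.ν (ζ : k) = 1 := by rw [← V.zpow ζ.ne_zero, hm', h1]
  have e2 : (n : ZMod ℓ) * V.ν (ζ : k) = 0 := by rw [← V.zpow ζ.ne_zero, hn', h2]
  have e3 : (n : ZMod ℓ) * V'.ν (ζ : k) = 1 := by rw [← V'.zpow ζ.ne_zero, hn', h3]
  have e4 : V.ν (ζ : k) ≠ 0 := by
    intro h
    rw [h, mul_zero] at e1
    exact zero_ne_one e1
  have e5 : (n : ZMod ℓ) = 0 := (mul_eq_zero.1 e2).resolve_right e4
  rw [e5, zero_mul] at e3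
  exact zero_ne_one e3

end infinite

/-- In all the charts, the classes of the `ℓ`-adic Selmer group fixed by the automorphisms over a finite
extension are killed by `ℓ`. -/
def ChartTate (ℓ : ℕ) {k : Type} [Field k] {ι : Type} [Fintype ι] [LinearOrder ι]
    (v : ι × Fin 3 → k) (W : ι → ℕ) (i₀ : ι) : Prop :=
  ∀ (F : Type) [Field F] [Algebra k F] [IsAlgClosure k F] (g : Matrix (Fin 3) (Fin 3) k),
    IsGoodChart ℓ v W i₀ g → ∀ (L Ω : Type) [Field L] [Algebra F[X] L] [IsFractionRing F[X] L]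
    [Field Ω] [Algebra L Ω] [IsAlgClosure L Ω] (k' : IntermediateField k F),
    FiniteDimensional k k' → Wt.TateClassesTorsionW ℓ L Ω (fun i : branchLines ℓ W i₀ => W i)
      (fun i : branchLines ℓ W i₀ => polyIn v g i) k'

section

variable {k : Type} [Field k] {ℓ : ℕ} {ι : Type} [Fintype ι] [LinearOrder ι]

theorem chartTate (hℓ : ℓ.Prime) (hk : (ℓ : k) ≠ 0) {v : ι × Fin 3 → k}
    (h : HasIndependentBrackets ℓ v) {W : ι → ℕ} {i₀ : ι}
    (hI : 4 ≤ (branchLines ℓ W i₀).card)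
    (hW : ∀ i : branchLines ℓ W i₀, (W i).Coprime ℓ)
    (hs : (∑ i : branchLines ℓ W i₀, W i).Coprime ℓ) : ChartTate ℓ v W i₀ := by
  intro F _ _ _ g hg L Ω _ _ _ _ _ _ k' hk'
  have hF : IsAlgClosed F := IsAlgClosure.isAlgClosed k
  have hFa : Algebra.IsAlgebraic k F := IsAlgClosure.isAlgebraic
  haveI : NeZero ℓ := ⟨hℓ.ne_zero⟩
  haveI : NeZero (ℓ : k) := ⟨hk⟩
  let K := CyclotomicField ℓ k
  haveI : IsCyclotomicExtension {ℓ} k K := inferInstance
  haveI hfin : FiniteDimensional k K := IsCyclotomicExtension.finiteDimensional {ℓ} k K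
  let e : K →ₐ[k] F := IsAlgClosed.lift
  letI : Algebra K F := e.toRingHom.toAlgebra
  haveI : IsScalarTower k K F := IsScalarTower.of_algebraMap_eq fun x => (e.commutes x).symm
  haveI hKFa : Algebra.IsAlgebraic K F := Algebra.IsAlgebraic.tower_top (K := k) K
  haveI : IsAlgClosure K F := ⟨hF, hKFa⟩
  have hζ : IsPrimitiveRoot (IsCyclotomicExtension.zeta ℓ k K) ℓ :=
    IsCyclotomicExtension.zeta_spec ℓ k K
  have hK0 : (ℓ : K) ≠ 0 := by
    rw [← map_natCast (algebraMap k K)]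
    exact (_root_.map_ne_zero _).2 hk
  obtain ⟨K', hK', hle⟩ := Superelliptic.exists_finite8 (K := K) k'
  have hnm : i₀ ∉ branchLines ℓ W i₀ := fun h => (mem_branchLines.1 h).1 rfl
  obtain ⟨h1, h2⟩ := indep_chart hℓ (fun x y z => h.bracket_ne_zero) (h.separates hℓ) hnm hI
    hg.det_ne_zero hg.at_infinity hg.ne_zero (fun i => W i) hW hs hg.arrangement K F
    (finrank_cyclotomic_ne_zero K hℓ)
  exact Wt.tateClassesTorsionW_base45 (K := K) hle
    (Wt.Lns.arrangementW F L Ω hℓ hK0 hζ (fun i : branchLines ℓ W i₀ => W i) hW hs _ h1 h2 K')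

/-- The charts exist. -/
theorem exists_goodChart_of_independent (hℓ : ℓ.Prime) {v : ι × Fin 3 → k}
    (h : HasIndependentBrackets ℓ v) {W : ι → ℕ} {i₀ : ι} (hc : 4 ≤ Fintype.card ι) :
    ∃ g : Matrix (Fin 3) (Fin 3) k, IsGoodChart ℓ v W i₀ g := by
  have hsep := h.separates hℓ
  -- four different lines
  obtain ⟨s, -, hs⟩ := Finset.exists_subset_card_eq
    (show 4 ≤ (Finset.univ : Finset ι).card from hc)
  obtain ⟨f⟩ : Nonempty (Fin 4 ≃ s) := by
    rw [← Fintype.card_eq, Fintype.card_fin, Fintype.card_coe, hs]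
  have hf : ∀ a b : Fin 4, a ≠ b → (f a : ι) ≠ f b := fun a b hab h =>
    hab (f.injective (Subtype.ext h))
  have h01 := hf 0 1 (by decide)
  have h02 := hf 0 2 (by decide)
  have h03 := hf 0 3 (by decide)
  have h12 := hf 1 2 (by decide)
  have h13 := hf 1 3 (by decide)
  have h23 := hf 2 3 (by decide)
  obtain ⟨V, hV1, hV0⟩ := hsep _ _ _ h01 h12 h02
  obtain ⟨V', hV1', -⟩ := hsep _ _ _ h01 h13 h03
  have hne : ({(f 0 : ι), (f 1 : ι), (f 3 : ι)} : Set ι) ≠ {(f 0 : ι), (f 1 : ι), (f 2 : ι)} := by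
    intro he
    have h3 : (f 3 : ι) ∈ ({(f 0 : ι), (f 1 : ι), (f 2 : ι)} : Set ι) :=
      he ▸ Or.inr (Or.inr rfl)
    rcases h3 with h3 | h3 | h3
    · exact h03 h3.symm
    · exact h13 h3.symm
    · exact h23 h3.symm
  haveI : Infinite k := infinite_of_val hℓ (h.bracket_ne_zero h01 h12 h02)
    (h.bracket_ne_zero h01 h13 h03) V V' hV1 (hV0 _ _ _ h01 h13 h03 hne) hV1'
  exact exists_goodChart (fun x y z => h.bracket_ne_zero) (by omega) W i₀
    fun S _ => Infinite.exists_notMem_finset S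

end

end Pool.Agent.Lib.MP_89bcae_ag.Bra

end

section

/-!
# The coverings of the plane branched along lines
-/

open Polynomial Filter Topology

open scoped Classical

namespace Pool.Agent.Lib.MP_89bcae_ag.Bra

open Superelliptic

/-- The lines which are not branch lines. -/
noncomputable def otherSet {ι : Type} [Fintype ι] (ℓ : ℕ) (W : ι → ℕ) (i₀ : ι) : Finset ι :=
  (Finset.univ.erase i₀).filter fun i => ℓ ∣ W i

lemma branchLines_eq {ι : Type} [Fintype ι] (ℓ : ℕ) (W : ι → ℕ) (i₀ : ι) :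
    branchLines ℓ W i₀ = (Finset.univ.erase i₀).filter fun i => ¬ ℓ ∣ W i := by
  ext i
  simp only [branchLines, Finset.mem_filter, Finset.mem_erase, Finset.mem_univ, and_true, true_and]

lemma prod_split {ι : Type} [Fintype ι] (ℓ : ℕ) (W : ι → ℕ) (i₀ : ι) {M : Type} [CommMonoid M]
    (f : ι → M) : ∏ i, f i = f i₀ * ((∏ i ∈ otherSet ℓ W i₀, f i) * ∏ i ∈ branchLines ℓ W i₀, f i) := by
  rw [otherSet, branchLines_eq, Finset.prod_filter_mul_prod_filter_not,
    Finset.mul_prod_erase _ _ (Finset.mem_univ i₀)]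

lemma sum_split {ι : Type} [Fintype ι] (ℓ : ℕ) (W : ι → ℕ) (i₀ : ι) (f : ι → ℕ) :
    ∑ i, f i = f i₀ + ((∑ i ∈ otherSet ℓ W i₀, f i) + ∑ i ∈ branchLines ℓ W i₀, f i) := by
  rw [otherSet, branchLines_eq, Finset.sum_filter_add_sum_filter_not,
    Finset.add_sum_erase _ _ (Finset.mem_univ i₀)]

lemma sum_branch_coprime {ι : Type} [Fintype ι] {ℓ : ℕ} (hℓ : ℓ.Prime) {W : ι → ℕ} {i₀ : ι}
    (h0 : ¬ ℓ ∣ W i₀) (hs : ℓ ∣ ∑ i, W i) :
    (∑ i : branchLines ℓ W i₀, W i).Coprime ℓ := by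
  have h1 : ∑ i : branchLines ℓ W i₀, W i = ∑ i ∈ branchLines ℓ W i₀, W i :=
    Finset.sum_coe_sort (branchLines ℓ W i₀) W
  rw [h1, Nat.coprime_comm, hℓ.coprime_iff_not_dvd]
  intro h2
  have h3 : ℓ ∣ ∑ i ∈ otherSet ℓ W i₀, W i :=
    Finset.dvd_sum fun i hi => (Finset.mem_filter.1 hi).2
  rw [sum_split ℓ W i₀] at hs
  exact h0 ((Nat.dvd_add_left (dvd_add h3 h2)).1 hs)

lemma branch_coprime {ι : Type} [Fintype ι] {ℓ : ℕ} (hℓ : ℓ.Prime) {W : ι → ℕ} {i₀ : ι}
    (i : branchLines ℓ W i₀) : (W i).Coprime ℓ := by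
  rw [Nat.coprime_comm, hℓ.coprime_iff_not_dvd]
  exact (Finset.mem_filter.1 i.2).2.2

lemma notMem_branchLines {ι : Type} [Fintype ι] (ℓ : ℕ) (W : ι → ℕ) (i₀ : ι) :
    i₀ ∉ branchLines ℓ W i₀ := fun h => (Finset.mem_filter.1 h).2.1 rfl

lemma card_branchLines {ι : Type} [Fintype ι] {ℓ : ℕ} {W : ι → ℕ} {i₀ : ι} (h0 : ¬ ℓ ∣ W i₀) :
    (branchLines ℓ W i₀).card + 1 = (Finset.univ.filter fun i => ¬ ℓ ∣ W i).card := by
  have h1 : branchLines ℓ W i₀ = (Finset.univ.filter fun i => ¬ ℓ ∣ W i).erase i₀ := by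
    ext i
    simp only [branchLines, Finset.mem_filter, Finset.mem_erase, Finset.mem_univ, true_and]
  have h2 : i₀ ∈ Finset.univ.filter fun i => ¬ ℓ ∣ W i :=
    Finset.mem_filter.2 ⟨Finset.mem_univ _, h0⟩
  rw [h1, Finset.card_erase_add_one h2]

/-- The coordinates of a chart. -/
theorem exists_chart_cover {ℓ : ℕ} (hℓ : ℓ.Prime) {k F K : Type} [Field k] [Field F] [Algebra k F]
    [IsAlgClosed F] [Field K] [Algebra F K] {ι : Type} [Fintype ι] [LinearOrder ι]
    {v : ι × Fin 3 → k} (hv : ∀ i, ∃ j, v (i, j) ≠ 0) {W : ι → ℕ} (hs : ℓ ∣ ∑ i, W i) {i₀ : ι}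
    {X Y y : K} (hK : IsPlaneCover ℓ F W v X Y y) {g : Matrix (Fin 3) (Fin 3) k}
    (hg : g.det ≠ 0) (hc1 : coeffIn v g i₀ 0 = 0 ∧ coeffIn v g i₀ 1 = 0)
    (hc2 : ∀ i ∈ branchLines ℓ W i₀, coeffIn v g i 0 ≠ 0) :
    ∃ (d : F) (D : K), D ≠ 0 ∧
      IsFunctionField ℓ F (fun i : branchLines ℓ W i₀ => W i)
        (fun i : branchLines ℓ W i₀ => polyIn v g i)
        (coordQ F g X Y 1 / coordQ F g X Y 2) (coordQ F g X Y 0 / coordQ F g X Y 2) (y / D) ∧
      ∀ M : Subfield K, (∀ a : k, phi k F K a ∈ M) → algebraMap F K d ∈ M →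
        coordQ F g X Y 0 / coordQ F g X Y 2 ∈ M → coordQ F g X Y 1 / coordQ F g X Y 2 ∈ M →
          X ∈ M ∧ Y ∈ M ∧ D ∈ M := by
  have hz : coordQ F g X Y 2 ≠ 0 := coordQ_two_ne_zero hg hK.independent
  have hL : ∀ i, lineForm F v X Y i ≠ 0 := by
    intro i
    obtain ⟨j, hj⟩ := hv i
    have h1 : lineForm F v X Y i = algebraMap F K (algebraMap k F (v (i, 0))) * X +
        algebraMap F K (algebraMap k F (v (i, 1))) * Y +
          algebraMap F K (algebraMap k F (v (i, 2))) := rfl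
    have h2 : algebraMap k F (v (i, j)) ≠ 0 := (_root_.map_ne_zero _).2 hj
    rw [h1]
    refine linear_ne_zero hK.independent ?_
    fin_cases j
    · exact Or.inl h2
    · exact Or.inr (Or.inl h2)
    · exact Or.inr (Or.inr h2)
  -- the constants
  have hinf : coeffIn v g i₀ 2 ≠ 0 := by
    intro h1
    have h2 := lineForm_infinity (F := F) (K := K) hg hc1 hz
    rw [h1, map_zero, div_eq_zero_iff] at h2
    rcases h2 with h2 | h2
    · exact hL i₀ h2
    · exact hz h2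
  let c : k := coeffIn v g i₀ 2 ^ W i₀ * ∏ i ∈ branchLines ℓ W i₀, coeffIn v g i 0 ^ W i
  have hc0 : c ≠ 0 := mul_ne_zero (pow_ne_zero _ hinf)
    (Finset.prod_ne_zero_iff.2 fun i hi => pow_ne_zero _ (hc2 i hi))
  obtain ⟨d, hd⟩ : ∃ d : F, d ^ ℓ = algebraMap k F c :=
    IsAlgClosed.exists_pow_nat_eq _ hℓ.pos
  have hd0 : d ≠ 0 := by
    rintro rfl
    rw [zero_pow hℓ.ne_zero] at hd
    exact hc0 ((_root_.map_eq_zero _).1 hd.symm)
  -- the new coordinates
  let z := coordQ F g X Y 2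
  let x := coordQ F g X Y 0 / coordQ F g X Y 2
  let t := coordQ F g X Y 1 / coordQ F g X Y 2
  let D : K := z ^ ((∑ i, W i) / ℓ) * algebraMap F K d *
    ∏ i ∈ otherSet ℓ W i₀, (lineForm F v X Y i / z) ^ (W i / ℓ)
  have hD0 : D ≠ 0 := mul_ne_zero (mul_ne_zero (pow_ne_zero _ hz) ((_root_.map_ne_zero _).2 hd0))
    (Finset.prod_ne_zero_iff.2 fun i _ => pow_ne_zero _ (div_ne_zero (hL i) hz))
  have hDpow : D ^ ℓ = z ^ (∑ i, W i) * phi k F K c *
      ∏ i ∈ otherSet ℓ W i₀, (lineForm F v X Y i / z) ^ W i := by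
    have e1 : (z ^ ((∑ i, W i) / ℓ)) ^ ℓ = z ^ (∑ i, W i) := by
      rw [← pow_mul, Nat.div_mul_cancel hs]
    have e2 : (algebraMap F K d) ^ ℓ = phi k F K c := by
      rw [← map_pow, hd]
      rfl
    have e3 : (∏ i ∈ otherSet ℓ W i₀, (lineForm F v X Y i / z) ^ (W i / ℓ)) ^ ℓ =
        ∏ i ∈ otherSet ℓ W i₀, (lineForm F v X Y i / z) ^ W i := by
      rw [← Finset.prod_pow]
      refine Finset.prod_congr rfl fun i hi => ?_
      rw [← pow_mul, Nat.div_mul_cancel (Finset.mem_filter.1 hi).2]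
    change (z ^ ((∑ i, W i) / ℓ) * algebraMap F K d *
      ∏ i ∈ otherSet ℓ W i₀, (lineForm F v X Y i / z) ^ (W i / ℓ)) ^ ℓ = _
    rw [mul_pow, mul_pow, e1, e2, e3]
  have hy : y ^ ℓ = ∏ i, lineForm F v X Y i ^ W i := hK.equation
  have heq : (y / D) ^ ℓ = ∏ i : branchLines ℓ W i₀,
      (x - aeval t ((polyIn v g i).map (algebraMap k F))) ^ W i := by
    have e4 : ∏ i : branchLines ℓ W i₀,
        (x - aeval t ((polyIn v g i).map (algebraMap k F))) ^ W i =
        ∏ i ∈ branchLines ℓ W i₀,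
          (x - aeval t ((polyIn v g i).map (algebraMap k F))) ^ W i :=
      Finset.prod_coe_sort (branchLines ℓ W i₀)
        (fun i => (x - aeval t ((polyIn v g i).map (algebraMap k F))) ^ W i)
    have e5 : ∏ i, (lineForm F v X Y i / z) ^ W i = phi k F K (coeffIn v g i₀ 2) ^ W i₀ *
        ((∏ i ∈ otherSet ℓ W i₀, (lineForm F v X Y i / z) ^ W i) *
          ((∏ i ∈ branchLines ℓ W i₀, phi k F K (coeffIn v g i 0) ^ W i) *
            ∏ i ∈ branchLines ℓ W i₀,
              (x - aeval t ((polyIn v g i).map (algebraMap k F))) ^ W i)) := by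
      rw [prod_split ℓ W i₀, ← Finset.prod_mul_distrib, lineForm_infinity (F := F) (K := K) hg hc1 hz]
      congr 2
      refine Finset.prod_congr rfl fun i hi => ?_
      rw [lineForm_chart (F := F) (K := K) hg hz (hc2 i hi), mul_pow]
    have e6 : ∏ i, lineForm F v X Y i ^ W i = z ^ (∑ i, W i) * ∏ i, (lineForm F v X Y i / z) ^ W i := by
      rw [← Finset.prod_pow_eq_pow_sum, ← Finset.prod_mul_distrib]
      refine Finset.prod_congr rfl fun i _ => ?_
      rw [← mul_pow, mul_div_cancel₀ _ hz]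
    have e7 : phi k F K c = phi k F K (coeffIn v g i₀ 2) ^ W i₀ *
        ∏ i ∈ branchLines ℓ W i₀, phi k F K (coeffIn v g i 0) ^ W i := by
      rw [map_mul, map_pow, map_prod]
      congr 1
      exact Finset.prod_congr rfl fun i _ => map_pow _ _ _
    rw [e4, div_pow, div_eq_iff (pow_ne_zero _ hD0), hy, e6, e5, hDpow, e7]
    ring
  -- the field generated by the new coordinates
  have hmem : ∀ M : Subfield K, (∀ a : k, phi k F K a ∈ M) → algebraMap F K d ∈ M → x ∈ M →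
      t ∈ M → X ∈ M ∧ Y ∈ M ∧ D ∈ M := by
    intro M hkM hdM hx ht
    obtain ⟨hzM, hX, hY⟩ := mem_of_chart hg hz M hkM hx ht
    refine ⟨hX, hY, ?_⟩
    exact M.mul_mem (M.mul_mem (M.pow_mem hzM _) hdM)
      (M.prod_mem fun i _ => M.pow_mem (M.div_mem (lineForm_mem v M hkM hX hY i) hzM) _)
  have hgen : IntermediateField.adjoin F {t, x, y / D} = ⊤ := by
    rw [eq_top_iff, ← hK.generate, IntermediateField.adjoin_le_iff]
    have ht : t ∈ IntermediateField.adjoin F {t, x, y / D} :=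
      IntermediateField.subset_adjoin F _ (by simp)
    have hx : x ∈ IntermediateField.adjoin F {t, x, y / D} :=
      IntermediateField.subset_adjoin F _ (by simp)
    have hyD : y / D ∈ IntermediateField.adjoin F {t, x, y / D} :=
      IntermediateField.subset_adjoin F _ (by simp)
    obtain ⟨hX, hY, hDM⟩ := hmem (IntermediateField.adjoin F {t, x, y / D}).toSubfield
      (fun a => IntermediateField.algebraMap_mem _ _) (IntermediateField.algebraMap_mem _ _) hx ht
    intro w hw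
    rw [Set.mem_insert_iff, Set.mem_insert_iff, Set.mem_singleton_iff] at hw
    rcases hw with rfl | rfl | rfl
    · exact hX
    · exact hY
    · have h1 := mul_mem hyD hDM
      rw [div_mul_cancel₀ _ hD0] at h1
      exact h1
  have hind : AlgebraicIndependent F ![t, x] := by
    refine algebraicIndependent_of_generate hK.independent hℓ.ne_zero ?_ hgen
    rw [heq]
    refine Subalgebra.prod_mem _ fun i _ => Subalgebra.pow_mem _ (Subalgebra.sub_mem _ ?_ ?_) _
    · exact Algebra.subset_adjoin ⟨1, rfl⟩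
    · have h1 : t ∈ Algebra.adjoin F (Set.range ![t, x]) := Algebra.subset_adjoin ⟨0, rfl⟩
      have h2 := Subalgebra.aeval_coe (Algebra.adjoin F (Set.range ![t, x])) ⟨t, h1⟩
        ((polyIn v g i).map (algebraMap k F))
      rw [h2]
      exact Subtype.mem _
  exact ⟨d, D, hD0, ⟨hind, heq, hgen⟩, hmem⟩

theorem planeCoverTate {ℓ : ℕ} (hℓ : ℓ.Prime) {k : Type} [Field k] (hk : (ℓ : k) ≠ 0) {ι : Type}
    [Fintype ι] [LinearOrder ι] {v : ι × Fin 3 → k} (hv : ∀ i, ∃ j, v (i, j) ≠ 0) {W : ι → ℕ}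
    (hs : ℓ ∣ ∑ i, W i) {i₀ : ι} (h0 : ¬ ℓ ∣ W i₀)
    (hch : ∃ g : Matrix (Fin 3) (Fin 3) k, IsGoodChart ℓ v W i₀ g) (hT : ChartTate ℓ v W i₀) :
    PlaneCoverTate ℓ v W i₀ := by
  obtain ⟨g₀, hc₀⟩ := hch
  refine ⟨?_, ⟨g₀, hc₀⟩, ?_⟩
  · intro F K S _ _ _ _ _ _ _ _ X Y y hK k' hk'
    have hFa : IsAlgClosed F := IsAlgClosure.isAlgClosed k
    obtain ⟨d, D, hD0, hFF, hmem⟩ := exists_chart_cover hℓ hv hs hK hc₀.det_ne_zero
      hc₀.at_infinity hc₀.ne_zero
    -- the extension of the field of constants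
    let k'' : IntermediateField k F := k' ⊔ IntermediateField.adjoin k {d}
    have hk'' : FiniteDimensional k k'' := by
      have : FiniteDimensional k (IntermediateField.adjoin k {d}) :=
        IntermediateField.adjoin.finiteDimensional
          (IsAlgClosure.isAlgebraic.isAlgebraic d : IsAlgebraic k d).isIntegral
      exact IntermediateField.finiteDimensional_sup k' (IntermediateField.adjoin k {d})
    have hmain : BrauerInvariantsTrivial ℓ S k'' (coordQ F g₀ X Y 1 / coordQ F g₀ X Y 2)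
        (coordQ F g₀ X Y 0 / coordQ F g₀ X Y 2) (y / D) := by
      refine brauer_arrangement hℓ hk _ (branch_coprime hℓ) (sum_branch_coprime hℓ h0 hs) _
        hc₀.arrangement ?_
        hFF k'' hk''
      intro L Ω _ _ _ _ _ _ k₁ hk₁
      exact hT F g₀ hc₀ L Ω k₁ hk₁
    refine hmain.of_fixes fun γ h1 h2 h3 h4 => ?_
    refine ⟨fun c hc => h1 c ((le_sup_left : k' ≤ k'') hc), ?_⟩
    let M : Subfield K := (γ.toRingHom.comp (algebraMap K S)).eqLocusField (algebraMap K S)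
    have hM : ∀ a : K, a ∈ M ↔ γ (algebraMap K S a) = algebraMap K S a := fun a => Iff.rfl
    obtain ⟨hX, hY, hDM⟩ := hmem M
      (fun a => (hM _).2 (h1 _ (IntermediateField.algebraMap_mem _ _)))
      ((hM _).2 (h1 _ ((le_sup_right : IntermediateField.adjoin k {d} ≤ k'')
        (IntermediateField.mem_adjoin_simple_self k d)))) ((hM _).2 h3) ((hM _).2 h2)
    refine ⟨(hM _).1 hX, (hM _).1 hY, ?_⟩
    have h5 := M.mul_mem ((hM _).2 h4) hDM
    rw [div_mul_cancel₀ _ hD0] at h5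
    exact (hM _).1 h5
  · intro F K _ _ _ _ _ X Y y hK g hg t x z htx
    have hFa : IsAlgClosed F := IsAlgClosure.isAlgClosed k
    obtain ⟨d, D, hD0, hFF, -⟩ := exists_chart_cover hℓ hv hs hK hg.det_ne_zero hg.at_infinity
      hg.ne_zero
    have hdet := hg.det_ne_zero
    have hQ2 : coordQ F g X Y 2 ≠ 0 := coordQ_two_ne_zero hdet hK.independent
    obtain ⟨h0', h1', h2'⟩ := coord_unique hdet htx
    have hz0 : z ≠ 0 := by
      rintro rfl
      rw [zero_mul] at h2'
      exact one_ne_zero h2'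
    have hx : x = coordQ F g X Y 0 / coordQ F g X Y 2 := by
      rw [eq_div_iff hQ2]
      apply mul_left_cancel₀ hz0
      linear_combination (-x) * h2' + h0'
    have ht : t = coordQ F g X Y 1 / coordQ F g X Y 2 := by
      rw [eq_div_iff hQ2]
      apply mul_left_cancel₀ hz0
      linear_combination (-t) * h2' + h1'
    rw [hx, ht]
    intro n P
    refine picard_arrangement hℓ hk _ (branch_coprime hℓ) (sum_branch_coprime hℓ h0 hs) _
      hg.arrangement ?_ hFF n P
    intro L Ω _ _ _ _ _ _ k₁ hk₁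
    exact hT F g hg L Ω k₁ hk₁

end Pool.Agent.Lib.MP_89bcae_ag.Bra

end

section

/-!
# The Brauer group of the coverings of the plane branched along lines: the criterion over a field, the
criterion over the rational numbers and the density one theorem
-/

open Polynomial Filter Topology

open scoped Classical

set_option linter.unusedVariables false

namespace Pool.Agent.Lib.MP_89bcae_ag.Bra

open Superelliptic

/-- A line whose brackets with two others do not vanish is not zero. -/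
lemma exists_coeff_ne_zero {ι : Type} [Fintype ι] [LinearOrder ι] {k : Type} [Field k]
    {v : ι × Fin 3 → k} (hm : 3 ≤ Fintype.card ι)
    (hb : ∀ x y z : ι, x ≠ y → y ≠ z → x ≠ z → bracketOver v x y z ≠ 0) (i : ι) :
    ∃ j, v (i, j) ≠ 0 := by
  have h1 : 1 < (Finset.univ.erase i : Finset ι).card := by
    rw [Finset.card_erase_of_mem (Finset.mem_univ i), Finset.card_univ]
    omega
  obtain ⟨y, hy, z, hz, hyz⟩ := Finset.one_lt_card.1 h1
  have hy' : y ≠ i := (Finset.mem_erase.1 hy).1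
  have hz' : z ≠ i := (Finset.mem_erase.1 hz).1
  by_contra hcon
  push Not at hcon
  refine hb i y z hy'.symm hyz hz'.symm ?_
  rw [bracketOver_eq]
  unfold dt14
  beta_reduce
  rw [hcon 0, hcon 1, hcon 2]
  ring

lemma exists_bound {α : Type} [Fintype α] (f : α → ℕ) : ∃ B : ℕ, ∀ p, f p ≤ B :=
  ⟨∑ p, f p, fun p => Finset.single_le_sum (fun _ _ => Nat.zero_le _) (Finset.mem_univ p)⟩

lemma IsAdmissible.four_le {ι : Type} [Fintype ι] {ℓ : ℕ} {W : ι → ℕ} {i₀ : ι}
    (h : IsAdmissible ℓ W i₀) : 4 ≤ (branchLines ℓ W i₀).card := by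
  have h5 := h.five_le
  rw [← card_branchLines h.not_dvd] at h5
  exact Nat.le_of_succ_le_succ h5

lemma IsAdmissible.four_le_card {ι : Type} [Fintype ι] {ℓ : ℕ} {W : ι → ℕ} {i₀ : ι}
    (h : IsAdmissible ℓ W i₀) : 4 ≤ Fintype.card ι :=
  h.four_le.trans (Finset.card_le_univ _)

/-- **The criterion over a field.** -/
theorem planeCoverTate_of_independent {ι : Type} [Fintype ι] [LinearOrder ι] {ℓ : ℕ} (hℓ : ℓ.Prime)
    {k : Type} [Field k] (hk : (ℓ : k) ≠ 0) {v : ι × Fin 3 → k} (hv : HasIndependentBrackets ℓ v)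
    {W : ι → ℕ} {i₀ : ι} (hW : IsAdmissible ℓ W i₀) : PlaneCoverTate ℓ v W i₀ :=
  planeCoverTate hℓ hk (exists_coeff_ne_zero (le_trans (by decide) hW.four_le_card)
      fun x y z => hv.bracket_ne_zero) hW.dvd_sum hW.not_dvd
    (exists_goodChart_of_independent hℓ hv hW.four_le_card)
    (chartTate hℓ hk hv hW.four_le (branch_coprime hℓ) (sum_branch_coprime hℓ hW.not_dvd hW.dvd_sum))

/-- Private primes: the brackets are independent over the rational numbers. -/
theorem independent_of_private {ι : Type} [Fintype ι] [LinearOrder ι] {v : ι × Fin 3 → ℤ}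
    (hv : HasPrivatePrimes v) {ℓ : ℕ} (hℓ : ℓ.Prime) :
    HasIndependentBrackets ℓ (fun p => (v p : ℚ)) := by
  have hbr : ∀ i j l : ι, bracketOver (fun p => (v p : ℚ)) i j l = ((bracket v i j l : ℤ) : ℚ) :=
    bracketOver_intCast v
  refine ⟨fun i j l hij hjl => ?_, fun e w ε hε hprod i j l hij hjl => ?_⟩
  · rw [hbr]
    exact Int.cast_ne_zero.2 (Lr.bracket_ne_zero hv hij.ne hjl.ne (hij.trans hjl).ne)
  · obtain ⟨p, hp, hdvd, hndvd, hpriv⟩ := hv i j l hij.ne hjl.ne (hij.trans hjl).ne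
    haveI : Fact p.Prime := ⟨hp⟩
    have hne : ∀ q ∈ Finset.univ.filter (fun q : ι × ι × ι => q.1 < q.2.1 ∧ q.2.1 < q.2.2),
        bracketOver (fun p => (v p : ℚ)) q.1 q.2.1 q.2.2 ^ e q ≠ 0 := by
      intro q hq
      rw [Finset.mem_filter] at hq
      rw [hbr]
      exact pow_ne_zero _ (Int.cast_ne_zero.2
        (Lr.bracket_ne_zero hv hq.2.1.ne hq.2.2.ne (hq.2.1.trans hq.2.2).ne))
    have hval : ∀ q ∈ Finset.univ.filter (fun q : ι × ι × ι => q.1 < q.2.1 ∧ q.2.1 < q.2.2),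
        padicValRat p (bracketOver (fun p => (v p : ℚ)) q.1 q.2.1 q.2.2 ^ e q) =
          if q = (i, j, l) then (e (i, j, l) : ℤ) else 0 := by
      intro q hq
      rw [Finset.mem_filter] at hq
      rw [hbr, padicValRat.pow, padicValRat.of_int]
      split_ifs with h
      · subst h
        have h5 := (padicValInt_dvd_iff (p := p) 1 (bracket v i j l)).1 (by rwa [pow_one])
        have h6 : ¬ 2 ≤ padicValInt p (bracket v i j l) := fun h6 =>
          hndvd ((padicValInt_dvd_iff (p := p) 2 _).2 (Or.inr h6))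
        have h4 : padicValInt p (bracket v i j l) = 1 := by
          rcases h5 with h5 | h5
          · exact absurd h5 (Lr.bracket_ne_zero hv hij.ne hjl.ne (hij.trans hjl).ne)
          · omega
        change (e (i, j, l) : ℤ) * ((padicValInt p (bracket v i j l) : ℕ) : ℤ) = e (i, j, l)
        rw [h4, Nat.cast_one, mul_one]
      · have h7 : padicValInt p (bracket v q.1 q.2.1 q.2.2) = 0 := by
          refine padicValInt.eq_zero_of_not_dvd (hpriv _ _ _ hq.2.1.ne hq.2.2.ne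
            (hq.2.1.trans hq.2.2).ne fun hset => h ?_)
          obtain ⟨h1, h2, h3⟩ := sorted_unique hq.2.1 hq.2.2 hij hjl hset
          exact Prod.ext h1 (Prod.ext h2 h3)
        rw [h7, Nat.cast_zero, mul_zero]
    have hsum : ∀ s : Finset (ι × ι × ι), (∀ q ∈ s,
        bracketOver (fun p => (v p : ℚ)) q.1 q.2.1 q.2.2 ^ e q ≠ 0) →
        padicValRat p (∏ q ∈ s, bracketOver (fun p => (v p : ℚ)) q.1 q.2.1 q.2.2 ^ e q) =
          ∑ q ∈ s, padicValRat p (bracketOver (fun p => (v p : ℚ)) q.1 q.2.1 q.2.2 ^ e q) := by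
      intro s
      induction s using Finset.induction_on with
      | empty => intro _; rw [Finset.prod_empty, Finset.sum_empty, padicValRat.one]
      | insert a s ha ih =>
        intro hs
        rw [Finset.prod_insert ha, Finset.sum_insert ha, padicValRat.mul
          (hs a (Finset.mem_insert_self a s)) (Finset.prod_ne_zero_iff.2 fun q hq =>
            hs q (Finset.mem_insert_of_mem hq)), ih fun q hq => hs q (Finset.mem_insert_of_mem hq)]
    have hw0 : ε * w ^ ℓ ≠ 0 := by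
      rw [← hprod]
      exact Finset.prod_ne_zero_iff.2 hne
    have hε0 : ε ≠ 0 := left_ne_zero_of_mul hw0
    have hw : w ≠ 0 := by
      rintro rfl
      rw [zero_pow hℓ.ne_zero, mul_zero] at hw0
      exact hw0 rfl
    have h1 := congrArg (padicValRat p) hprod
    rw [hsum _ hne, Finset.sum_congr rfl hval, Finset.sum_ite_eq', if_pos (Finset.mem_filter.2
      ⟨Finset.mem_univ _, hij, hjl⟩), padicValRat.mul hε0 (pow_ne_zero _ hw), padicValRat.pow] at h1
    have h2 : padicValRat p ε = 0 := by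
      have h3 := congrArg (padicValRat p) hε
      rw [padicValRat.pow, padicValRat.one] at h3
      have h4 : ((2 : ℕ) : ℤ) ≠ 0 := by norm_num
      exact (mul_eq_zero.1 h3).resolve_left h4
    rw [h2, zero_add] at h1
    exact Int.natCast_dvd_natCast.1 ⟨_, h1⟩

/-- From the old definitions, for lines with integral coefficients. -/
theorem planeCoverTate_intCast {m : ℕ} {ℓ : ℕ} (hℓ : ℓ.Prime) {k : Type} [Field k]
    (hk : (ℓ : k) ≠ 0) {v : Fin m × Fin 3 → ℤ} (hm : 3 ≤ m)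
    (hb : ∀ x y z : Fin m, x ≠ y → y ≠ z → x ≠ z → ((bracket v x y z : ℤ) : k) ≠ 0)
    {W : Fin m → ℕ} {i₀ : Fin m} (hW : IsAdmissible ℓ W i₀)
    (h : Over.HasNoTateClasses ℓ k v i₀ (branchLines ℓ W i₀) (fun i => W i)) :
    PlaneCoverTate ℓ (fun p => (v p : k)) W i₀ := by
  obtain ⟨⟨g₀, hc₀, harr₀⟩, hT⟩ := h
  refine planeCoverTate hℓ hk (exists_coeff_ne_zero (by rw [Fintype.card_fin]; exact hm)
    fun x y z h1 h2 h3 => by rw [bracketOver_intCast]; exact hb x y z h1 h2 h3) hW.dvd_sum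
    hW.not_dvd ⟨g₀, hc₀.det_ne_zero, hc₀.at_infinity, hc₀.ne_zero, harr₀⟩ ?_
  intro F _ _ _ g hg L Ω _ _ _ _ _ _ k' hk'
  exact tateClassesTorsionN8' (hT F L Ω g ⟨hg.det_ne_zero, hg.at_infinity, hg.ne_zero⟩
    hg.arrangement k' hk')

/-- **The criterion over a field, the criterion at all primes and the density one theorem.** -/
theorem linesBrauer (m : ℕ) :
    (∀ ℓ : ℕ, ℓ.Prime → ∀ (k : Type) [Field k], (ℓ : k) ≠ 0 → ∀ v : Fin m × Fin 3 → k,
      HasIndependentBrackets ℓ v → ∀ (W : Fin m → ℕ) (i₀ : Fin m), IsAdmissible ℓ W i₀ →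
        PlaneCoverTate ℓ v W i₀) ∧
    (∀ v : Fin m × Fin 3 → ℤ, HasPrivatePrimes v → ∀ ℓ : ℕ, ℓ.Prime →
      HasIndependentBrackets ℓ (fun p => (v p : ℚ)) ∧
      (ℓ ≠ 2 → ∀ (W : Fin m → ℕ) (i₀ : Fin m), IsAdmissible ℓ W i₀ → ∀ N : ℕ,
        ∃ (q : ℕ) (_ : Fact q.Prime), N < q ∧ PlaneCoverTate ℓ (fun p => (v p : ZMod q)) W i₀)) ∧
    Tendsto (fun H : ℕ => ({v : Fin m × Fin 3 → ℤ | (∀ i, |v i| ≤ H) ∧
      HasPrivatePrimes v}.ncard : ℝ) / (2 * H + 1) ^ (3 * m)) atTop (𝓝 1) := by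
  refine ⟨fun ℓ hℓ k _ hk v hv W i₀ hW => planeCoverTate_of_independent hℓ hk hv hW,
    fun v hv ℓ hℓ => ⟨independent_of_private hv hℓ, fun hℓ2 W i₀ hW N => ?_⟩,
    (Lr.lineCoversR m).2⟩
  have hm : 3 ≤ m := by
    have h1 := hW.four_le_card
    rw [Fintype.card_fin] at h1
    omega
  have hmain := (Lr.lineCoversR m).1 v hv ℓ hℓ i₀ (branchLines ℓ W i₀) (notMem_branchLines ℓ W i₀)
    hW.four_le (fun i => W i) (branch_coprime hℓ) (sum_branch_coprime hℓ hW.not_dvd hW.dvd_sum)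
  -- a bound for the brackets
  obtain ⟨B, hB⟩ := exists_bound fun p : Fin m × Fin m × Fin m =>
    (bracket v p.1 p.2.1 p.2.2).natAbs
  obtain ⟨q, hqp, hNq, h⟩ := hmain.2 hℓ2 (max N (max ℓ B))
  have h1 : N < q := lt_of_le_of_lt (le_max_left _ _) hNq
  have h2 : ℓ < q := lt_of_le_of_lt ((le_max_left _ _).trans (le_max_right _ _)) hNq
  have h3 : B < q := lt_of_le_of_lt ((le_max_right _ _).trans (le_max_right _ _)) hNq
  have hb : ∀ x y z : Fin m, x ≠ y → y ≠ z → x ≠ z → ((bracket v x y z : ℤ) : ZMod q) ≠ 0 := by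
    intro x y z hxy hyz hxz
    rw [Ne, ZMod.intCast_zmod_eq_zero_iff_dvd]
    intro h4
    have h5 := Int.natAbs_dvd_natAbs.2 h4
    rw [Int.natAbs_natCast] at h5
    have h6 := Nat.le_of_dvd (Int.natAbs_pos.2 (Lr.bracket_ne_zero hv hxy hyz hxz)) h5
    exact absurd (h6.trans (hB (x, y, z))) (Nat.not_le.2 h3)
  exact ⟨q, hqp, h1, planeCoverTate_intCast hℓ (natCast_zmod_ne_zero hℓ h2) hm hb hW h⟩

end Pool.Agent.Lib.MP_89bcae_ag.Bra

end
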