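import Mathlib
import Pool.Agent.Lib.MP_89bcae_ag.Bk.K032
import Pool.Agent.Lib.MP_89bcae_ag.DefsN8

namespace Pool.Agent.Lib.MP_89bcae_ag.Superelliptic
end Pool.Agent.Lib.MP_89bcae_ag.Superelliptic

section

/-!
# The number of the polynomials with a simple collision modulo `p ^ 2`
-/

open Polynomial

open scoped Classical

set_option linter.unusedSimpArgs false
set_option linter.unusedVariables false
set_option linter.unusedSectionVars false

namespace Pool.Agent.Lib.MP_89bcae_ag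

/-- The polynomial with the given coefficients. -/
noncomputable def polyOf8 {R : Type*} [CommRing R] {n : ℕ} (v : Fin (n + 1) → R) : R[X] :=
  ∑ i : Fin (n + 1), C (v i) * X ^ (i : ℕ)


section Crit

variable {K : Type*} [Field K]


end Crit

section Count

variable {p : ℕ} [Fact p.Prime]


end Count


end Pool.Agent.Lib.MP_89bcae_ag

end

section

/-!
# The family of the monic `D` of degree `n` with `D(g(x))` irreducible
-/

open Polynomial

namespace Pool.Agent.Lib.MP_89bcae_ag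

universe u

/-- The monic polynomials `D` of degree `n` for which `D(g(x))` is irreducible. -/
def family {k : Type u} [Field k] (g : k[X]) (n : ℕ) : Set k[X] :=
  {D | D.Monic ∧ D.natDegree = n ∧ Irreducible (D.comp g)}

end Pool.Agent.Lib.MP_89bcae_ag

end

section

/-!
# The polynomials `H_i` and their special roots
-/

namespace Pool.Agent.Lib.MP_89bcae_ag.Frob14

open Polynomial Finset

variable (k F : Type*) [Field k] [Fintype k] [Field F] [Algebra k F]

/-- the elements with `x ^ (q ^ i) = x`, `q = |k|` -/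
noncomputable def fixS (i : ℕ) : Finset F := by
  classical
  exact (X ^ (Fintype.card k ^ i) - X : F[X]).roots.toFinset

variable {k F}

theorem one_lt_q_pow {i : ℕ} (hi : 0 < i) : 1 < Fintype.card k ^ i :=
  Nat.one_lt_pow (by omega) Fintype.one_lt_card

omit [Algebra k F] in
theorem mem_fixS {i : ℕ} (hi : 0 < i) {x : F} : x ∈ fixS k F i ↔ x ^ (Fintype.card k ^ i) = x := by
  classical
  rw [fixS, Multiset.mem_toFinset, mem_roots (FiniteField.X_pow_card_sub_X_ne_zero F
    (one_lt_q_pow hi)), IsRoot.def, eval_sub, eval_pow, eval_X, sub_eq_zero]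

theorem card_fixS [IsAlgClosed F] {i : ℕ} (hi : 0 < i) :
    (fixS k F i).card = Fintype.card k ^ i := by
  classical
  have hsep : (X ^ (Fintype.card k ^ i) - X : F[X]).Separable := by
    obtain ⟨p, hp⟩ := CharP.exists k
    have : Fact p.Prime := ⟨CharP.char_is_prime k p⟩
    have : CharP F p := charP_of_injective_algebraMap (algebraMap k F).injective p
    apply galois_poly_separable p
    obtain ⟨n, hn, hq⟩ := FiniteField.card k p
    rw [hq]
    exact dvd_pow (dvd_pow_self p n.2.ne') hi.ne'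
  rw [fixS, Multiset.toFinset_card_of_nodup (nodup_roots hsep),
    ← (IsAlgClosed.splits _).natDegree_eq_card_roots,
    FiniteField.X_pow_card_sub_X_natDegree_eq F (one_lt_q_pow hi)]

omit [Field k] [Algebra k F] in
theorem frob_iterate (i : ℕ) (x : F) :
    (fun y : F => y ^ Fintype.card k)^[i] x = x ^ (Fintype.card k ^ i) := by
  rw [pow_iterate]


end Pool.Agent.Lib.MP_89bcae_ag.Frob14

end

section

/-!
# Frobenius orbits
-/

open Polynomial IntermediateField

namespace Pool.Agent.Lib.MP_89bcae_ag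

variable {k F : Type*} [Field k] [Fintype k] [Field F] [Algebra k F] [Algebra.IsAlgebraic k F]

variable (k F) in
/-- The Frobenius automorphism. -/
noncomputable def frob8 : F ≃ₐ[k] F := FiniteField.frobeniusAlgEquivOfAlgebraic k F

lemma frob8_apply (x : F) : frob8 k F x = x ^ Fintype.card k := rfl

lemma frob8_pow_apply (i : ℕ) (x : F) : (frob8 k F ^ i) x = x ^ (Fintype.card k ^ i) := by
  induction i generalizing x with
  | zero => simp
  | succ i ih => rw [pow_succ, AlgEquiv.mul_apply, frob8_apply, ih, ← pow_mul, pow_succ, mul_comm]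


/-- The Frobenius orbit of an element has the degree of its minimal polynomial as length. -/
lemma frob8_pow_eq_iff (x : F) (i : ℕ) :
    (frob8 k F ^ i) x = x ↔ (minpoly k x).natDegree ∣ i := by
  have hint : IsIntegral k x := Algebra.IsIntegral.isIntegral x
  have : FiniteDimensional k k⟮x⟯ := adjoin.finiteDimensional hint
  have : Finite k⟮x⟯ := Module.finite_of_finite k
  rw [← adjoin.finrank hint, ← FiniteField.orderOf_frobeniusAlgEquivOfAlgebraic k k⟮x⟯,
    orderOf_dvd_iff_pow_eq_one]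
  have key : ∀ y : k⟮x⟯, (((FiniteField.frobeniusAlgEquivOfAlgebraic k k⟮x⟯ ^ i) y : k⟮x⟯) : F) =
      (frob8 k F ^ i) (y : F) := by
    intro y
    rw [frob8_pow_apply, AlgEquiv.coe_pow, FiniteField.coe_frobeniusAlgEquivOfAlgebraic_iterate]
    rfl
  constructor
  · intro h
    ext y
    rw [key]
    change (frob8 k F ^ i) (y : F) = y
    have h1 : k⟮x⟯ ≤ IntermediateField.fixedField (Subgroup.zpowers (frob8 k F ^ i)) := by
      rw [adjoin_simple_le_iff, IntermediateField.mem_fixedField_iff]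
      intro τ hτ
      obtain ⟨m, rfl⟩ := Subgroup.mem_zpowers_iff.mp hτ
      exact (MulAction.stabilizer (F ≃ₐ[k] F) x).zpow_mem
        (show frob8 k F ^ i ∈ MulAction.stabilizer (F ≃ₐ[k] F) x from h) m
    exact (IntermediateField.mem_fixedField_iff _ _).mp (h1 y.2) _ (Subgroup.mem_zpowers _)
  · intro h
    have h1 := key (AdjoinSimple.gen k x)
    rw [h] at h1
    exact h1.symm

/-- The roots of an irreducible polynomial form a Frobenius orbit. -/
lemma exists_frob8_pow [IsAlgClosed F] {p : k[X]} (hp : Irreducible p) {x y : F}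
    (hx : aeval x p = 0) (hy : aeval y p = 0) : ∃ i < p.natDegree, y = (frob8 k F ^ i) x := by
  classical
  have hsep : p.Separable := PerfectField.separable_of_irreducible hp
  have hdeg : (minpoly k x).natDegree = p.natDegree := by
    have h1 := minpoly.eq_of_irreducible hp hx
    rw [← h1, natDegree_mul_leadingCoeff_inv _ hp.ne_zero]
  have hcard : (p.rootSet F).ncard = p.natDegree := by
    rw [← Nat.card_coe_set_eq, Nat.card_eq_fintype_card]
    exact card_rootSet_eq_natDegree hsep (IsAlgClosed.splits _)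
  let f : ℕ → F := fun i => (frob8 k F ^ i) x
  have hinj : Set.InjOn f (Finset.range p.natDegree : Set ℕ) := by
    intro a ha b hb hab
    rw [Finset.mem_coe, Finset.mem_range] at ha hb
    wlog hle : a ≤ b generalizing a b
    · exact (this hb ha hab.symm (by omega)).symm
    have h1 : (frob8 k F ^ (b - a)) x = x := by
      apply (frob8 k F ^ a).injective
      rw [← AlgEquiv.mul_apply, ← pow_add, Nat.add_sub_cancel' hle]
      exact hab.symm
    rw [frob8_pow_eq_iff, hdeg] at h1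
    have := Nat.eq_zero_of_dvd_of_lt h1 (by omega)
    omega
  have hsub : ((Finset.range p.natDegree).image f : Set F) ⊆ p.rootSet F := by
    intro z hz
    rw [Finset.mem_coe, Finset.mem_image] at hz
    obtain ⟨i, -, rfl⟩ := hz
    rw [mem_rootSet]
    refine ⟨hp.ne_zero, ?_⟩
    change aeval ((frob8 k F ^ i : F ≃ₐ[k] F) x) p = 0
    rw [← AlgEquiv.coe_toAlgHom (frob8 k F ^ i), aeval_algHom_apply, hx, map_zero]
  have heq : ((Finset.range p.natDegree).image f : Set F) = p.rootSet F := by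
    apply Set.eq_of_subset_of_ncard_le hsub _ (rootSet_finite _ _)
    rw [hcard, Set.ncard_coe_finset, Finset.card_image_of_injOn hinj, Finset.card_range]
  have hy' : y ∈ p.rootSet F := mem_rootSet.mpr ⟨hp.ne_zero, hy⟩
  rw [← heq, Finset.mem_coe, Finset.mem_image] at hy'
  obtain ⟨i, hi, rfl⟩ := hy'
  exact ⟨i, Finset.mem_range.mp hi, rfl⟩

end Pool.Agent.Lib.MP_89bcae_ag

end

section

/-!
# The linear algebra of the criterion for graphs of polynomials

`N i j` is the set of the roots of `α_i - α_j`. For every triple `i, j, l` and all `r ∈ N i j`,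
`r' ∈ N j l`, `r'' ∈ N i l` there is a valuation at which exactly these three roots collide; it gives
the linear relations (1)-(4) below (`v` is the value of `κ` and `γ_i` that of `c_i`). Write
`τ = x_ij(r) + x_jl(r') - x_il(r'')`.

Proof. (1) + (2) - (3) gives `v τ = h (w_i + w_j + w_l) τ`.
* If `τ = 0` for all triples and all `r, r', r''`: `x_ij(r)` does not depend on `r` and is a cocycle,
  hence the coboundary of `b_i := x_{0i}`.
* Suppose `τ ≠ 0` for some triple. If `v = 0`, take `s ∈ N i j` different from `r`: (4) gives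
  `γ_i = γ_j` and (1) gives `w_l h τ = 0`, a contradiction. So `v ≠ 0`. Choose `r₁' ∈ N j l`,
  `r₁'' ∈ N i l` different from `r'`, `r''`. By (1) and (4),
  `v (x_ij(r) + x_jl(r₁') - x_il(r₁'')) = w_l h τ ≠ 0`. So the same holds for `(r, r₁', r₁'')`, with
  `v₁ ≠ 0`, `γ₁`. If there is `s ∈ N i l` different from `r''`, `r₁''`: (4) for both valuations gives
  `x_il(s) = -(γ_i - γ_l) / v = -(γ₁_i - γ₁_l) / v₁`, and (4) for the second one at `r''` gives
  `x_il(r'') = -(γ₁_i - γ₁_l) / v₁`; so `v x_il(r'') + γ_i - γ_l = 0`, and (3) gives `w_j h τ = 0`, a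
  contradiction. If there is a fourth index `m`, take `s ∈ N i m`, `s' ∈ N m l` instead of `s` and
  `x_im(s) + x_ml(s')` instead of `x_il(s)`.
-/

open scoped Classical

namespace Pool.Agent.Lib.MP_89bcae_ag

/-- The linear relations given by the valuation at which `r`, `r'`, `r''` collide. -/
structure RelG {A ι σ : Type*} [Field A] (N : ι → ι → Set σ) (x : ι → ι → σ → A) (w : ι → A)
    (i j l : ι) (r r' r'' : σ) (v h : A) (γ : ι → A) : Prop where
  h_ne : h ≠ 0
  rel₁ : v * x i j r + γ i - γ j = w l * h * (x i j r + x j l r' - x i l r'')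
  rel₂ : v * x j l r' + γ j - γ l = w i * h * (x i j r + x j l r' - x i l r'')
  rel₃ : v * x i l r'' + γ i - γ l = -(w j * h * (x i j r + x j l r' - x i l r''))
  rel₄ : ∀ a b s, a ≠ b → s ∈ N a b → s ≠ r → s ≠ r' → s ≠ r'' → v * x a b s + γ a - γ b = 0

theorem core_graph {A ι σ : Type*} [Field A] [Fintype ι] (hι : 3 ≤ Fintype.card ι)
    (N : ι → ι → Set σ) (hsymm : ∀ i j, N j i = N i j)
    (hdisj : ∀ a b c d s, a ≠ b → c ≠ d → s ∈ N a b → s ∈ N c d → ({a, b} : Set ι) = {c, d})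
    (hN : (∀ i j, i ≠ j → ∀ r r', ∃ s ∈ N i j, s ≠ r ∧ s ≠ r') ∨
      (4 ≤ Fintype.card ι ∧ ∀ i j, i ≠ j → ∀ r, ∃ s ∈ N i j, s ≠ r))
    (x : ι → ι → σ → A) (hx : ∀ i j s, i ≠ j → s ∈ N i j → x j i s = -x i j s)
    (w : ι → A) (hw : ∀ i, w i ≠ 0)
    (H : ∀ i j l, i ≠ j → j ≠ l → i ≠ l → ∀ r ∈ N i j, ∀ r' ∈ N j l, ∀ r'' ∈ N i l,
      ∃ (v h : A) (γ : ι → A), RelG N x w i j l r r' r'' v h γ) :
    ∃ b : ι → A, ∀ i j s, i ≠ j → s ∈ N i j → x i j s = b j - b i := by
  -- nonemptiness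
  have hne1 : ∀ i j, i ≠ j → ∀ r, ∃ s ∈ N i j, s ≠ r := by
    intro i j hij r
    rcases hN with h | h
    · obtain ⟨s, hs, h1, -⟩ := h i j hij r r
      exact ⟨s, hs, h1⟩
    · exact h.2 i j hij r
  have hne0 : ∀ i j, i ≠ j → ∀ r : σ, ∃ s, s ∈ N i j := by
    intro i j hij r
    obtain ⟨s, hs, -⟩ := hne1 i j hij r
    exact ⟨s, hs⟩
  -- elements of different sets are different
  have hdiff : ∀ a b c d s t, a ≠ b → c ≠ d → s ∈ N a b → t ∈ N c d → ({a, b} : Set ι) ≠ {c, d} →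
      s ≠ t := by
    rintro a b c d s t hab hcd hs ht hne rfl
    exact hne (hdisj a b c d s hab hcd hs ht)
  -- the main alternative
  have key : ∀ i j l, i ≠ j → j ≠ l → i ≠ l → ∀ r ∈ N i j, ∀ r' ∈ N j l, ∀ r'' ∈ N i l,
      x i j r + x j l r' - x i l r'' = 0 := by
    intro i j l hij hjl hil r hr r' hr' r'' hr''
    by_contra hτ
    have e1 : ({i, j} : Set ι) ≠ {j, l} := by
      intro h
      have h1 : i ∈ ({j, l} : Set ι) := by rw [← h]; exact Set.mem_insert _ _
      rcases h1 with h1 | h1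
      · exact hij h1
      · exact hil h1
    have e2 : ({i, j} : Set ι) ≠ {i, l} := by
      intro h
      have h1 : j ∈ ({i, l} : Set ι) := by rw [← h]; exact Set.mem_insert_of_mem _ rfl
      rcases h1 with h1 | h1
      · exact hij h1.symm
      · exact hjl h1
    have e3 : ({j, l} : Set ι) ≠ {i, l} := by
      intro h
      have h1 : j ∈ ({i, l} : Set ι) := by rw [← h]; exact Set.mem_insert _ _
      rcases h1 with h1 | h1
      · exact hij h1.symm
      · exact hjl h1
    -- `v` is not zero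
    have hv : ∀ (r : σ) (_ : r ∈ N i j) (r' : σ) (_ : r' ∈ N j l) (r'' : σ) (_ : r'' ∈ N i l)
        (v h : A) (γ : ι → A), RelG N x w i j l r r' r'' v h γ →
        x i j r + x j l r' - x i l r'' ≠ 0 → v ≠ 0 := by
      intro r hr r' hr' r'' hr'' v h γ H hτ hv
      obtain ⟨s, hs, hsr⟩ := hne1 i j hij r
      have h1 := H.rel₄ i j s hij hs hsr (hdiff _ _ _ _ _ _ hij hjl hs hr' e1)
        (hdiff _ _ _ _ _ _ hij hil hs hr'' e2)
      have h2 := H.rel₁
      rw [hv] at h1 h2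
      have h3 : w l * h * (x i j r + x j l r' - x i l r'') = 0 := by
        linear_combination h1 - h2
      exact mul_ne_zero (mul_ne_zero (hw l) H.h_ne) hτ h3
    obtain ⟨v, h, γ, H⟩ := H i j l hij hjl hil r hr r' hr' r'' hr''
    have hv0 := hv r hr r' hr' r'' hr'' v h γ H hτ
    -- the second triple
    obtain ⟨r₁', hr₁', hn'⟩ := hne1 j l hjl r'
    obtain ⟨r₁'', hr₁'', hn''⟩ := hne1 i l hil r''
    obtain ⟨v₁, h₁, γ₁, H₁⟩ := ‹∀ i j l, i ≠ j → j ≠ l → i ≠ l → ∀ r ∈ N i j, ∀ r' ∈ N j l,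
      ∀ r'' ∈ N i l, ∃ (v h : A) (γ : ι → A), RelG N x w i j l r r' r'' v h γ› i j l hij hjl hil r hr
        r₁' hr₁' r₁'' hr₁''
    have f1 := H.rel₄ j l r₁' hjl hr₁' (hdiff _ _ _ _ _ _ hjl hij hr₁' hr e1.symm) hn'
      (hdiff _ _ _ _ _ _ hjl hil hr₁' hr'' e3)
    have f2 := H.rel₄ i l r₁'' hil hr₁'' (hdiff _ _ _ _ _ _ hil hij hr₁'' hr e2.symm)
      (hdiff _ _ _ _ _ _ hil hjl hr₁'' hr' e3.symm) hn''
    have hτ₁ : x i j r + x j l r₁' - x i l r₁'' ≠ 0 := by
      intro h0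
      have h3 : w l * h * (x i j r + x j l r' - x i l r'') = 0 := by
        have h4 := H.rel₁
        linear_combination v * h0 - f1 + f2 - h4
      exact mul_ne_zero (mul_ne_zero (hw l) H.h_ne) hτ h3
    have hv₁ := hv r hr r₁' hr₁' r₁'' hr₁'' v₁ h₁ γ₁ H₁ hτ₁
    have f3 := H₁.rel₄ i l r'' hil hr'' (hdiff _ _ _ _ _ _ hil hij hr'' hr e2.symm)
      (hdiff _ _ _ _ _ _ hil hjl hr'' hr₁' e3.symm) (Ne.symm hn'')
    -- a common value
    have hy : ∃ y : A, v * y + γ i - γ l = 0 ∧ v₁ * y + γ₁ i - γ₁ l = 0 := by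
      rcases hN with hN | hN
      · obtain ⟨s, hs, hs1, hs2⟩ := hN i l hil r'' r₁''
        exact ⟨x i l s, H.rel₄ i l s hil hs (hdiff _ _ _ _ _ _ hil hij hs hr e2.symm)
          (hdiff _ _ _ _ _ _ hil hjl hs hr' e3.symm) hs1,
          H₁.rel₄ i l s hil hs (hdiff _ _ _ _ _ _ hil hij hs hr e2.symm)
          (hdiff _ _ _ _ _ _ hil hjl hs hr₁' e3.symm) hs2⟩
      · obtain ⟨m, hm⟩ : ∃ m, m ∉ ({i, j, l} : Finset ι) := by
          by_contra hcon
          push Not at hcon
          have h5 : (Finset.univ : Finset ι) ⊆ {i, j, l} := fun m _ => hcon m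
          have h6 := Finset.card_le_card h5
          rw [Finset.card_univ] at h6
          have h7 : ({i, j, l} : Finset ι).card ≤ 3 := Finset.card_le_three
          omega
        simp only [Finset.mem_insert, Finset.mem_singleton, not_or] at hm
        obtain ⟨hmi, hmj, hml⟩ := hm
        obtain ⟨s, hs⟩ := hne0 i m (Ne.symm hmi) r
        obtain ⟨t, ht⟩ := hne0 m l hml r
        have g : ∀ a b c d : ι, (m = a ∨ m = b) → c ≠ m → d ≠ m → ({a, b} : Set ι) ≠ {c, d} := by
          intro a b c d hm1 hc hd he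
          have : m ∈ ({c, d} : Set ι) := by
            rw [← he]
            rcases hm1 with rfl | rfl
            · exact Set.mem_insert _ _
            · exact Set.mem_insert_of_mem _ rfl
          rcases this with h | h
          · exact hc h.symm
          · exact hd h.symm
        have hi := Ne.symm hmi
        have hj := Ne.symm hmj
        have hl := Ne.symm hml
        have k1 := H.rel₄ i m s hi hs (hdiff _ _ _ _ _ _ hi hij hs hr (g _ _ _ _ (Or.inr rfl) hi hj))
          (hdiff _ _ _ _ _ _ hi hjl hs hr' (g _ _ _ _ (Or.inr rfl) hj hl))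
          (hdiff _ _ _ _ _ _ hi hil hs hr'' (g _ _ _ _ (Or.inr rfl) hi hl))
        have k2 := H.rel₄ m l t hml ht (hdiff _ _ _ _ _ _ hml hij ht hr (g _ _ _ _ (Or.inl rfl) hi hj))
          (hdiff _ _ _ _ _ _ hml hjl ht hr' (g _ _ _ _ (Or.inl rfl) hj hl))
          (hdiff _ _ _ _ _ _ hml hil ht hr'' (g _ _ _ _ (Or.inl rfl) hi hl))
        have k3 := H₁.rel₄ i m s hi hs (hdiff _ _ _ _ _ _ hi hij hs hr (g _ _ _ _ (Or.inr rfl) hi hj))
          (hdiff _ _ _ _ _ _ hi hjl hs hr₁' (g _ _ _ _ (Or.inr rfl) hj hl))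
          (hdiff _ _ _ _ _ _ hi hil hs hr₁'' (g _ _ _ _ (Or.inr rfl) hi hl))
        have k4 := H₁.rel₄ m l t hml ht (hdiff _ _ _ _ _ _ hml hij ht hr (g _ _ _ _ (Or.inl rfl) hi hj))
          (hdiff _ _ _ _ _ _ hml hjl ht hr₁' (g _ _ _ _ (Or.inl rfl) hj hl))
          (hdiff _ _ _ _ _ _ hml hil ht hr₁'' (g _ _ _ _ (Or.inl rfl) hi hl))
        exact ⟨x i m s + x m l t, by linear_combination k1 + k2, by linear_combination k3 + k4⟩
    obtain ⟨y, hy1, hy2⟩ := hy
    have h8 : x i l r'' = y := by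
      have h9 : v₁ * (x i l r'' - y) = 0 := by linear_combination f3 - hy2
      exact sub_eq_zero.1 ((mul_eq_zero.1 h9).resolve_left hv₁)
    have h10 : w j * h * (x i j r + x j l r' - x i l r'') = 0 := by
      have h11 := H.rel₃
      linear_combination h11 - hy1 - v * h8
    exact mul_ne_zero (mul_ne_zero (hw j) H.h_ne) hτ h10
  -- independence of the root
  have hcard1 : ∀ i j : ι, i ≠ j → ∃ l : ι, l ≠ i ∧ l ≠ j := by
    intro i j hij
    by_contra hcon
    push Not at hcon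
    have h5 : (Finset.univ : Finset ι) ⊆ {i, j} := by
      intro m _
      by_cases hm : m = i
      · rw [hm]; exact Finset.mem_insert_self _ _
      · rw [hcon m hm]
        exact Finset.mem_insert_of_mem (Finset.mem_singleton_self _)
    have h6 := Finset.card_le_card h5
    rw [Finset.card_univ] at h6
    have h7 : ({i, j} : Finset ι).card ≤ 2 := Finset.card_le_two
    omega
  have hind : ∀ i j, i ≠ j → ∀ r ∈ N i j, ∀ s ∈ N i j, x i j r = x i j s := by
    intro i j hij r hr s hs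
    obtain ⟨l, hli, hlj⟩ := hcard1 i j hij
    obtain ⟨r', hr'⟩ := hne0 j l hlj.symm r
    obtain ⟨r'', hr''⟩ := hne0 i l hli.symm r
    have h1 := key i j l hij hlj.symm hli.symm r hr r' hr' r'' hr''
    have h2 := key i j l hij hlj.symm hli.symm s hs r' hr' r'' hr''
    linear_combination h1 - h2
  -- the coboundary
  haveI : Nonempty ι := Fintype.card_pos_iff.1 (by omega)
  obtain ⟨o⟩ := ‹Nonempty ι›
  by_cases hσ : Nonempty σ
  · obtain ⟨r₀⟩ := hσ
    choose f hf using fun (i : {i : ι // i ≠ o}) => hne0 o i (Ne.symm i.2) r₀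
    refine ⟨fun i => if h : i = o then 0 else x o i (f ⟨i, h⟩), fun i j s hij hs => ?_⟩
    beta_reduce
    by_cases hi : i = o
    · subst hi
      have hj : j ≠ i := Ne.symm hij
      rw [dif_pos rfl, dif_neg hj, sub_zero]
      exact hind i j hij s hs _ (hf ⟨j, hj⟩)
    · by_cases hj : j = o
      · subst hj
        rw [dif_pos rfl, dif_neg hi, zero_sub]
        have h1 : s ∈ N j i := by rw [hsymm]; exact hs
        have h2 := hx j i s (Ne.symm hij) h1
        rw [h2, hind j i (Ne.symm hij) s h1 _ (hf ⟨i, hi⟩)]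
      · rw [dif_neg hi, dif_neg hj]
        have h1 := key o i j (Ne.symm hi) hij (Ne.symm hj) _ (hf ⟨i, hi⟩) s hs _ (hf ⟨j, hj⟩)
        linear_combination h1
  · exact ⟨fun _ => 0, fun i j s _ _ => absurd ⟨s⟩ hσ⟩

end Pool.Agent.Lib.MP_89bcae_ag

end

section

/-!
# The ramification index is at most the order of the inertia group
-/

open Algebra MulAction

open scoped Pointwise

namespace Pool.Agent.Lib.MP_89bcae_ag

attribute [local instance] Ideal.Quotient.field in
/-- In a finite Galois extension the ramification index is at most the order of the inertia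
group. -/
theorem ramificationIdx_le_card_inertia7 {R S G : Type*} [CommRing R] [CommRing S] [Algebra R S]
    [Group G] [MulSemiringAction G S] [IsGaloisGroup G R S] [Finite G] [IsDomain R] [IsDomain S]
    [Module.Finite R S] [Module.Flat R S] (p : Ideal R) (P : Ideal S) [P.LiesOver p] [p.IsMaximal]
    [P.IsMaximal] : P.ramificationIdx R ≤ Nat.card (P.inertia G) := by
  have hdeg : P.inertiaDeg R = Module.finrank (R ⧸ p) (S ⧸ P) :=
    Ideal.inertiaDeg_eq_of_isMaximal p P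
  have hpos : 0 < P.inertiaDeg R := P.inertiaDeg_pos R
  have hfin : FiniteDimensional (R ⧸ p) (S ⧸ P) := by
    apply Module.finite_of_finrank_pos
    rw [← hdeg]
    exact hpos
  have h1 : ((P.inertia G).subgroupOf (stabilizer G P)).index ≤ P.inertiaDeg R := by
    have h2 : (P.inertia (stabilizer G P)).index = _ := Nat.card_congr
      (Ideal.Quotient.stabilizerQuotientInertiaEquiv G p P).toEquiv
    rw [AddSubgroup.subgroupOf_inertia, h2, hdeg, Nat.card_eq_fintype_card]
    exact AlgEquiv.card_le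
  have h3 : Nat.card (stabilizer G P) = Nat.card (P.inertia G) *
      ((P.inertia G).subgroupOf (stabilizer G P)).index := by
    rw [← ((P.inertia G).subgroupOf (stabilizer G P)).card_mul_index,
      Nat.card_congr (Subgroup.subgroupOfEquivOfLe (Ideal.inertia_le_stabilizer (M := G) P)).toEquiv]
  have h4 : (p.primesOver S).ncard * Nat.card (stabilizer G P) = Nat.card G := by
    rw [← IsInvariant.orbit_eq_primesOver R S G p P]
    simpa using Nat.card_congr (MulAction.orbitProdStabilizerEquivGroup G P)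
  have h5 := Ideal.ncard_primesOver_mul_ramificationIdxIn_mul_inertiaDegIn p S G
  rw [Ideal.ramificationIdxIn_eq_ramificationIdx p P G, Ideal.inertiaDegIn_eq_inertiaDeg p P G] at h5
  have h6 : (p.primesOver S).ncard ≠ 0 := by
    intro h
    rw [h, zero_mul] at h4
    exact Nat.card_pos.ne h4
  have h7 : P.ramificationIdx R * P.inertiaDeg R = Nat.card (stabilizer G P) :=
    Nat.eq_of_mul_eq_mul_left (Nat.pos_of_ne_zero h6) (h5.trans h4.symm)
  rw [h3] at h7
  have h8 : P.ramificationIdx R * P.inertiaDeg R ≤ Nat.card (P.inertia G) * P.inertiaDeg R := by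
    rw [h7]
    exact Nat.mul_le_mul_left _ h1
  exact Nat.le_of_mul_le_mul_right h8 hpos

end Pool.Agent.Lib.MP_89bcae_ag

end

section

/-!
# Lifting the Frobenius automorphism of a finite residue field
-/

open Polynomial

namespace Pool.Agent.Lib.MP_89bcae_ag

set_option linter.unusedSectionVars false
set_option linter.style.haveILetI false

section Red

variable {R F κ Fκ : Type*} [CommRing R] [IsDomain R] [Field F] [Algebra R F] [FaithfulSMul R F]
  [Field κ] [Field Fκ] [Algebra κ Fκ] [IsAlgClosed Fκ]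

/-- Extension of the reduction to the integral closure. -/
lemma exists_red14 (π : R →+* κ) (hπ : Function.Surjective π) :
    ∃ ρ : integralClosure R F →+* Fκ,
      ∀ r, ρ (algebraMap R (integralClosure R F) r) = algebraMap κ Fκ (π r) := by
  set O := integralClosure R F with hO
  have hmax : (RingHom.ker π).IsMaximal := RingHom.ker_isMaximal_of_surjective π hπ
  have hinj : Function.Injective (algebraMap R O) := FaithfulSMul.algebraMap_injective R O
  obtain ⟨Q, hQ, hQ'⟩ := Ideal.exists_ideal_over_maximal_of_isIntegral (S := O) (RingHom.ker π) (by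
    rw [(RingHom.injective_iff_ker_eq_bot _).mp hinj]
    exact bot_le)
  letI := Ideal.Quotient.field Q
  -- the map from `κ`
  let e : κ →+* O ⧸ Q := (RingHom.liftOfRightInverse π _ (Function.rightInverse_surjInv hπ))
    ⟨(Ideal.Quotient.mk Q).comp (algebraMap R O), by
      intro x hx
      rw [RingHom.mem_ker, RingHom.comp_apply, Ideal.Quotient.eq_zero_iff_mem, ← Ideal.mem_comap, hQ']
      exact hx⟩
  have he : ∀ r, e (π r) = Ideal.Quotient.mk Q (algebraMap R O r) := fun r =>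
    RingHom.liftOfRightInverse_comp_apply π _ _ _ r
  letI : Algebra κ (O ⧸ Q) := e.toAlgebra
  have halg : Algebra.IsAlgebraic κ (O ⧸ Q) := by
    refine ⟨fun x => ?_⟩
    obtain ⟨x, rfl⟩ := Ideal.Quotient.mk_surjective x
    have hx : IsIntegral R x := Algebra.IsIntegral.isIntegral x
    obtain ⟨p, hp, hpx⟩ := hx
    apply IsIntegral.isAlgebraic
    refine ⟨p.map π, hp.map π, ?_⟩
    rw [eval₂_map]
    have h1 : (algebraMap κ (O ⧸ Q)).comp π = (Ideal.Quotient.mk Q).comp (algebraMap R O) :=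
      RingHom.ext he
    rw [h1, ← hom_eval₂, hpx, map_zero]
  let f : (O ⧸ Q) →ₐ[κ] Fκ := IsAlgClosed.lift
  refine ⟨(f : (O ⧸ Q) →+* Fκ).comp (Ideal.Quotient.mk Q), fun r => ?_⟩
  rw [RingHom.comp_apply, ← he]
  exact f.commutes (π r)

end Red

section Frob

variable {R K F κ Fκ : Type*} [CommRing R] [IsDomain R] [IsIntegrallyClosed R] [Field K]
  [Algebra R K] [IsFractionRing R K] [Field F] [Algebra K F] [Algebra R F] [IsScalarTower R K F]
  [Field κ] [Field Fκ] [Algebra κ Fκ]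

attribute [local instance] Ideal.Quotient.field in
/-- The Frobenius element of a finite Galois extension. -/
lemma exists_sigma14 [Finite κ] (π : R →+* κ) (hπ : Function.Surjective π)
    (ρ : integralClosure R F →+* Fκ)
    (hρ : ∀ r, ρ (algebraMap R (integralClosure R F) r) = algebraMap κ Fκ (π r))
    (M : IntermediateField K F) [FiniteDimensional K M] [IsGalois K M] :
    ∃ σ : M ≃ₐ[K] M, ∀ (x : M) (hx : IsIntegral R (x : F)),
      ∃ hx' : IsIntegral R ((σ x : M) : F), ρ ⟨(σ x : M), hx'⟩ = ρ ⟨x, hx⟩ ^ Nat.card κ := by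
  have hRM : IsScalarTower R M F := IsScalarTower.of_algebraMap_eq fun r => by
    rw [IsScalarTower.algebraMap_apply R K F, IsScalarTower.algebraMap_apply R K M]
    rfl
  set B := integralClosure R M with hB
  have hBF : ∀ x : B, IsIntegral R (((x : M) : F)) := fun x =>
    (x.2 : IsIntegral R (x : M)).map (IsScalarTower.toAlgHom R M F)
  let ι : B →+* integralClosure R F :=
    { toFun := fun x => ⟨((x : M) : F), hBF x⟩
      map_one' := rfl
      map_mul' := fun _ _ => rfl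
      map_zero' := rfl
      map_add' := fun _ _ => rfl }
  set Q : Ideal B := RingHom.ker (ρ.comp ι) with hQ
  have hQp : Q.IsPrime := RingHom.ker_isPrime _
  have hfr : IsFractionRing B M := integralClosure.isFractionRing_of_finite_extension K M
  have hinv : Algebra.IsInvariant R B (B ≃ₐ[R] B) := Algebra.isInvariant_of_isGalois' R K M B
  have hfinG : Finite (B ≃ₐ[R] B) := Finite.of_equiv _ (galRestrict R K M B).toEquiv
  -- the prime below
  have hP : Q.under R = RingHom.ker π := by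
    ext r
    rw [Ideal.under_def, Ideal.mem_comap, hQ, RingHom.mem_ker, RingHom.mem_ker, RingHom.comp_apply]
    have h1 : ι (algebraMap R B r) = algebraMap R (integralClosure R F) r := by
      apply Subtype.ext
      change ((algebraMap R M r : M) : F) = algebraMap R F r
      exact (IsScalarTower.algebraMap_apply R M F r).symm
    rw [h1, hρ, FaithfulSMul.algebraMap_eq_zero_iff]
  have hPm : (Q.under R).IsMaximal := by
    rw [hP]
    exact RingHom.ker_isMaximal_of_surjective π hπ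
  have hint : Algebra.IsIntegral R B := inferInstance
  have hQm : Q.IsMaximal := Ideal.isMaximal_of_isIntegral_of_isMaximal_comap Q hPm
  have hequiv : (R ⧸ Q.under R) ≃ κ := by
    rw [hP]
    exact (RingHom.quotientKerEquivOfSurjective hπ).toEquiv
  have hfin : Finite (R ⧸ Q.under R) := Finite.of_equiv _ hequiv.symm
  have hsep : Algebra.IsSeparable (R ⧸ Q.under R) (B ⧸ Q) := by
    have h0 : Algebra.IsIntegral (R ⧸ Q.under R) (B ⧸ Q) := inferInstance
    have h1 : Algebra.IsAlgebraic (R ⧸ Q.under R) (B ⧸ Q) :=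
      ⟨fun x => (h0.isIntegral x).isAlgebraic⟩
    exact Algebra.IsAlgebraic.isSeparable_of_perfectField
  have hmf : Module.Finite (R ⧸ Q.under R) (B ⧸ Q) :=
    Ideal.Quotient.finite_of_isInvariant (B ≃ₐ[R] B) (Q.under R) Q
  have hfinB : Finite (B ⧸ Q) := Module.finite_of_finite (R ⧸ Q.under R)
  obtain ⟨τ, hτ⟩ := IsArithFrobAt.exists_of_isInvariant R (B ≃ₐ[R] B) Q
  refine ⟨(galRestrict R K M B).symm τ, fun x hx => ?_⟩
  have hxM : IsIntegral R x := by
    rwa [← isIntegral_algebraMap_iff (A := M) (B := F) (algebraMap M F).injective]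
  set y : B := ⟨x, hxM⟩ with hy
  have h2 : (((galRestrict R K M B).symm τ) x : M) = (τ y : B) := by
    have h3 := algebraMap_galRestrict_apply R (B := B) ((galRestrict R K M B).symm τ) y
    rw [MulEquiv.apply_symm_apply] at h3
    exact h3.symm
  have hx' : IsIntegral R ((((galRestrict R K M B).symm τ) x : M) : F) := by
    rw [h2]
    exact hBF _
  refine ⟨hx', ?_⟩
  have h4 := hτ y
  rw [hQ, RingHom.mem_ker, map_sub, map_pow, sub_eq_zero] at h4
  have h5 : ρ ⟨(((galRestrict R K M B).symm τ) x : M), hx'⟩ = (ρ.comp ι) (τ y) := by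
    rw [RingHom.comp_apply]
    congr 1
    apply Subtype.ext
    exact congrArg (fun z : M => (z : F)) h2
  rw [h5]
  have h6 : Nat.card κ = Nat.card (R ⧸ Q.under R) := (Nat.card_congr hequiv).symm
  rw [h6]
  exact h4

/-- **Lifting Frobenius.** -/
theorem exists_frob_lift14 [Finite κ] [IsAlgClosed F] [Algebra.IsAlgebraic K F] (π : R →+* κ)
    (hπ : Function.Surjective π) (ρ : integralClosure R F →+* Fκ)
    (hρ : ∀ r, ρ (algebraMap R (integralClosure R F) r) = algebraMap κ Fκ (π r))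
    (S : Finset F) (hS : ∀ x ∈ S, IsSeparable K x) :
    ∃ (φ : F ≃ₐ[K] F) (M : Set F), (∀ x ∈ S, x ∈ M) ∧ ∀ x ∈ M, φ x ∈ M ∧
      ∀ hx : IsIntegral R x, ∃ hx' : IsIntegral R (φ x),
        ρ ⟨φ x, hx'⟩ = ρ ⟨x, hx⟩ ^ Nat.card κ := by
  classical
  have hcl : IsAlgClosure K F := ⟨inferInstance, inferInstance⟩
  have hnF : Normal K F := IsAlgClosure.normal K F
  set M₀ : IntermediateField K F := IntermediateField.adjoin K (S : Set F) with hM₀
  have hfd : FiniteDimensional K M₀ :=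
    IntermediateField.finiteDimensional_adjoin fun x _ => Algebra.IsIntegral.isIntegral x
  have hsep₀ : Algebra.IsSeparable K M₀ :=
    (IntermediateField.isSeparable_adjoin_iff_isSeparable (F := K) (E := F)).mpr hS
  set M : IntermediateField K F := IntermediateField.normalClosure K M₀ F with hM
  have hMn : Normal K M := normalClosure.normal K M₀ F
  have hMfd : FiniteDimensional K M := normalClosure.is_finiteDimensional K M₀ F
  have hMs : Algebra.IsSeparable K M := by
    rw [← le_separableClosure_iff, hM, normalClosure_le_iff]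
    intro f
    have : Algebra.IsSeparable K f.fieldRange :=
      AlgEquiv.Algebra.isSeparable (AlgEquiv.ofInjectiveField f)
    exact le_separableClosure K F _
  have hMG : IsGalois K M := ⟨⟩
  obtain ⟨σ, hσ⟩ := exists_sigma14 π hπ ρ hρ M
  refine ⟨σ.liftNormal F, (M : Set F), fun x hx => ?_, fun x hx => ?_⟩
  · exact (IntermediateField.le_normalClosure M₀) (IntermediateField.subset_adjoin K _ hx)
  · have h1 : (σ.liftNormal F) x = ((σ ⟨x, hx⟩ : M) : F) := σ.liftNormal_commutes F ⟨x, hx⟩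
    rw [h1]
    exact ⟨(σ ⟨x, hx⟩).2, fun hi => hσ ⟨x, hx⟩ hi⟩

end Frob

end Pool.Agent.Lib.MP_89bcae_ag

end

section

/-!
# Counting the exceptional elements
-/

namespace Pool.Agent.Lib.MP_89bcae_ag.Frob14

open Polynomial Finset

open scoped Classical

section fix

variable (k F : Type*) [Field k] [Fintype k] [Field F] [Algebra k F]


variable {k F}


theorem two_mul_sum_pow_le {q : ℕ} (hq : 3 ≤ q) (m : ℕ) :
    2 * ∑ d ∈ Icc 1 m, q ^ d ≤ 3 * q ^ m := by
  induction m with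
  | zero => simp
  | succ m ih =>
    have e : Icc 1 (m + 1) = insert (m + 1) (Icc 1 m) := by
      ext a
      simp only [mem_insert, mem_Icc]
      omega
    rw [e, sum_insert (by simp), pow_succ]
    nlinarith [pow_pos (show 0 < q by omega) m]

theorem small_card [IsAlgClosed F] (i : ℕ) (hi : 0 < i) :
    {v ∈ fixS k F i | ∃ j, 0 < j ∧ j < i ∧ v ^ (Fintype.card k ^ j) = v}.card ≤
      ∑ d ∈ Icc 1 (i / 2), Fintype.card k ^ d := by
  have hsub : {v ∈ fixS k F i | ∃ j, 0 < j ∧ j < i ∧ v ^ (Fintype.card k ^ j) = v} ⊆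
      (Icc 1 (i / 2)).biUnion fun d => fixS k F d := by
    intro v hv
    rw [mem_filter, mem_fixS hi] at hv
    obtain ⟨hvi, j, hj0, hji, hvj⟩ := hv
    set f : F → F := fun y => y ^ Fintype.card k with hf
    have hpi : Function.IsPeriodicPt f i v := by
      rw [Function.IsPeriodicPt, Function.IsFixedPt, hf, frob_iterate]; exact hvi
    have hpj : Function.IsPeriodicPt f j v := by
      rw [Function.IsPeriodicPt, Function.IsFixedPt, hf, frob_iterate]; exact hvj
    have hdi := hpi.minimalPeriod_dvd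
    have hdj := Nat.le_of_dvd hj0 hpj.minimalPeriod_dvd
    have hd0 := hpi.minimalPeriod_pos hi
    rw [mem_biUnion]
    refine ⟨Function.minimalPeriod f v, ?_, ?_⟩
    · rw [mem_Icc]
      refine ⟨hd0, ?_⟩
      obtain ⟨m, hm⟩ := hdi
      have hm2 : 2 ≤ m := by
        by_contra h
        have h' : m ≤ 1 := by omega
        have : Function.minimalPeriod f v * m ≤ Function.minimalPeriod f v * 1 :=
          Nat.mul_le_mul_left _ h'
        omega
      rw [Nat.le_div_iff_mul_le (by norm_num)]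
      conv_rhs => rw [hm]
      exact Nat.mul_le_mul_left _ hm2
    · rw [mem_fixS hd0]
      have := Function.isPeriodicPt_minimalPeriod f v
      rw [Function.IsPeriodicPt, Function.IsFixedPt, hf, frob_iterate] at this
      exact this
  refine (card_le_card hsub).trans (card_biUnion_le.trans (le_of_eq ?_))
  refine sum_congr rfl fun d hd => ?_
  rw [mem_Icc] at hd
  exact card_fixS (by omega)


end fix

end Pool.Agent.Lib.MP_89bcae_ag.Frob14

end

section

/-!
# Discrete valuation rings over a prime number in the field of the `ℓ`-th roots of unity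
-/

open Polynomial

open scoped Classical

set_option linter.unusedSimpArgs false
set_option linter.unusedVariables false
set_option linter.unusedSectionVars false
set_option linter.style.haveILetI false

namespace Pool.Agent.Lib.MP_89bcae_ag

/-- The localisation of the integers at a prime number. -/
theorem exists_dvrZ8 {p : ℕ} (hp : p.Prime) :
    ∃ (R : Type) (_ : CommRing R) (_ : IsDomain R) (_ : IsDiscreteValuationRing R)
      (_ : Algebra R ℚ) (_ : IsFractionRing R ℚ),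
      ∀ (z : ℤ) (n : ℕ), (z : R) ∈ IsLocalRing.maximalIdeal R ^ n ↔ (p : ℤ) ^ n ∣ z := by
  have hpZ : Prime (p : ℤ) := Nat.prime_iff_prime_int.mp hp
  have hP : (Ideal.span {(p : ℤ)}).IsPrime :=
    (Ideal.span_singleton_prime hpZ.ne_zero).mpr hpZ
  have hP0 : Ideal.span {(p : ℤ)} ≠ ⊥ := by
    rw [Ne, Ideal.span_singleton_eq_bot]
    exact hpZ.ne_zero
  let R := Localization.AtPrime (Ideal.span {(p : ℤ)})
  have hDVR : IsDiscreteValuationRing R :=
    IsLocalization.AtPrime.isDiscreteValuationRing_of_dedekind_domain ℤ hP0 _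
  letI hA : Algebra R ℚ :=
    IsLocalization.localizationAlgebraOfSubmonoidLe _ ℚ
      (Ideal.span {(p : ℤ)}).primeCompl (nonZeroDivisors ℤ)
      (Ideal.span {(p : ℤ)}).primeCompl_le_nonZeroDivisors
  have hst := IsLocalization.localization_isScalarTower_of_submonoid_le
    R ℚ
    (Ideal.span {(p : ℤ)}).primeCompl (nonZeroDivisors ℤ)
    (Ideal.span {(p : ℤ)}).primeCompl_le_nonZeroDivisors
  have hfr : IsFractionRing R ℚ :=
    @IsFractionRing.isFractionRing_of_isDomain_of_isLocalization ℤ _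
      (Ideal.span {(p : ℤ)}).primeCompl _ R ℚ _ _ _ _ _
      hst _ _
  have hmax : IsLocalRing.maximalIdeal R = Ideal.span {(algebraMap ℤ R p)} := by
    rw [← IsLocalization.AtPrime.map_eq_maximalIdeal (Ideal.span {(p : ℤ)}) R, Ideal.map_span,
      Set.image_singleton]
  refine ⟨R, inferInstance, inferInstance, hDVR, inferInstance, hfr, fun z n => ?_⟩
  have hz : (z : R) = algebraMap ℤ R z := by simp
  rw [hz, hmax, Ideal.span_singleton_pow, Ideal.mem_span_singleton]
  constructor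
  · rintro ⟨q, hq⟩
    obtain ⟨⟨x, s⟩, hxs⟩ := IsLocalization.surj (Ideal.span {(p : ℤ)}).primeCompl q
    have hinj : Function.Injective (algebraMap ℤ R) :=
      IsLocalization.injective R (Ideal.primeCompl_le_nonZeroDivisors (Ideal.span {(p : ℤ)}))
    have h1 : z * s = (p : ℤ) ^ n * x := by
      apply hinj
      rw [map_mul, map_mul, map_pow, hq, ← hxs]
      ring
    have h3 : IsCoprime ((p : ℤ) ^ n) (s : ℤ) := by
      apply IsCoprime.pow_left
      rw [Prime.coprime_iff_not_dvd (Nat.prime_iff_prime_int.mp hp)]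
      intro h4
      exact s.2 (Ideal.mem_span_singleton.mpr h4)
    exact h3.dvd_of_dvd_mul_right ⟨x, h1⟩
  · rintro ⟨q, hq⟩
    exact ⟨algebraMap ℤ R q, by rw [hq, map_mul, map_pow]⟩


end Pool.Agent.Lib.MP_89bcae_ag

end

section

/-!
# The family of the monic `D` of degree `n` with `D(g(x))` irreducible: elementary lemmas
-/

open Polynomial IntermediateField

namespace Pool.Agent.Lib.MP_89bcae_ag

universe u

section Basic

variable {k : Type u} [Field k]

lemma family_finite8 [Finite k] (g : k[X]) (n : ℕ) : (family g n).Finite := by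
  have hinj : Set.InjOn (fun D : k[X] => fun i : Fin (n + 1) => D.coeff i) (family g n) := by
    rintro D ⟨-, h1, -⟩ D' ⟨-, h1', -⟩ h
    ext i
    by_cases hi : i < n + 1
    · exact congrFun h ⟨i, hi⟩
    · rw [coeff_eq_zero_of_natDegree_lt (by omega), coeff_eq_zero_of_natDegree_lt (by omega)]
  exact Set.Finite.of_finite_image (Set.toFinite _) hinj


end Basic


open scoped Classical in
/-- The roots of the polynomials of a finite set of monic irreducible polynomials of degree `n`. -/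
lemma exists_roots_card8 {k F : Type u} [Field k] [Fintype k] [Field F] [Algebra k F]
    [IsAlgClosure k F] (n : ℕ) (S : Finset k[X])
    (hS : ∀ D ∈ S, D.Monic ∧ D.natDegree = n ∧ Irreducible D) :
    ∃ A : Finset F, (∀ a, a ∈ A ↔ minpoly k a ∈ S) ∧ A.card = n * S.card := by
  have hF : IsAlgClosed F := IsAlgClosure.isAlgClosed k
  have hkF : Algebra.IsAlgebraic k F := IsAlgClosure.isAlgebraic
  have key : ∀ D ∈ S, ∀ a : F, a ∈ (D.aroots F).toFinset ↔ minpoly k a = D := by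
    intro D hD a
    obtain ⟨h1, -, h3⟩ := hS D hD
    rw [Multiset.mem_toFinset, mem_aroots]
    constructor
    · rintro ⟨-, h4⟩
      exact (minpoly.eq_of_irreducible_of_monic h3 h4 h1).symm
    · intro h4
      exact ⟨h3.ne_zero, by rw [← h4, minpoly.aeval]⟩
  refine ⟨S.biUnion fun D => (D.aroots F).toFinset, fun a => ?_, ?_⟩
  · rw [Finset.mem_biUnion]
    constructor
    · rintro ⟨D, hD, h⟩
      rw [(key D hD a).mp h]
      exact hD
    · intro h
      exact ⟨_, h, (key _ h a).mpr rfl⟩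
  · rw [Finset.card_biUnion]
    · rw [Finset.sum_const_nat (m := n), mul_comm]
      intro D hD
      obtain ⟨h1, h2, h3⟩ := hS D hD
      have hsep : D.Separable := PerfectField.separable_of_irreducible h3
      have h4 : (D.aroots F).Nodup := nodup_roots hsep.map
      rw [Multiset.toFinset_card_of_nodup h4, aroots_def,
        ← (IsAlgClosed.splits (D.map (algebraMap k F))).natDegree_eq_card_roots, natDegree_map, h2]
    · intro D hD D' hD' hne
      rw [Function.onFun, Finset.disjoint_left]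
      intro a ha ha'
      exact hne (((key D hD a).mp ha).symm.trans ((key D' hD' a).mp ha'))


end Pool.Agent.Lib.MP_89bcae_ag

end

section

/-!
# An automorphism which acts on the roots of a polynomial as Frobenius on the roots of its reduction
-/

open Polynomial

namespace Pool.Agent.Lib.MP_89bcae_ag

set_option linter.unusedSectionVars false
set_option linter.style.haveILetI false

variable {R K F κ Fκ : Type*} [CommRing R] [IsDomain R] [IsIntegrallyClosed R] [Field K]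
  [Algebra R K] [IsFractionRing R K] [Field F] [Algebra K F] [Algebra R F] [IsScalarTower R K F]
  [IsAlgClosed F] [Algebra.IsAlgebraic K F]
  [Field κ] [Fintype κ] [Field Fκ] [Algebra κ Fκ] [Algebra.IsAlgebraic κ Fκ] [IsAlgClosed Fκ]

/-- A root of a polynomial with invertible leading coefficient is integral. -/
lemma integral_root14 {f : R[X]} (hu : IsUnit f.leadingCoeff) {x : F} (hx : aeval x f = 0) :
    IsIntegral R x := by
  obtain ⟨u, hu⟩ := hu
  refine ⟨C (↑u⁻¹ : R) * f, ?_, ?_⟩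
  · rw [Monic, leadingCoeff_mul, leadingCoeff_C, ← hu]
    exact u.inv_mul
  · rw [eval₂_mul]
    change _ * aeval x f = 0
    rw [hx, mul_zero]

/-- The reduction of a root is a root. -/
lemma red_root14 {π : R →+* κ} {ρ : integralClosure R F →+* Fκ}
    (hρ : ∀ r, ρ (algebraMap R (integralClosure R F) r) = algebraMap κ Fκ (π r))
    {f : R[X]} {x : F} (hi : IsIntegral R x) (hx : aeval x f = 0) :
    aeval (ρ ⟨x, hi⟩) (f.map π) = 0 := by
  have h1 : aeval (⟨x, hi⟩ : integralClosure R F) f = 0 := by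
    apply Subtype.ext
    have h2 : ((aeval (⟨x, hi⟩ : integralClosure R F) f : integralClosure R F) : F) = aeval x f := by
      rw [← Subalgebra.coe_val, ← aeval_algHom_apply]
      rfl
    rw [h2, hx]
    rfl
  rw [aeval_def, eval₂_map]
  have h2 : (algebraMap κ Fκ).comp π = ρ.comp (algebraMap R (integralClosure R F)) :=
    RingHom.ext fun r => (hρ r).symm
  rw [h2, ← hom_eval₂]
  change ρ (aeval (⟨x, hi⟩ : integralClosure R F) f) = 0
  rw [h1, map_zero]

variable (F) in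
/-- The polynomial is separable if its reduction is. -/
lemma separable_of_red14 [FaithfulSMul R F] {π : R →+* κ} (hπ : Function.Surjective π) {f : R[X]}
    (hu : IsUnit f.leadingCoeff) (hs : (f.map π).Separable) :
    (f.map (algebraMap R K)).Separable := by
  obtain ⟨ρ, hρ⟩ := exists_red14 (F := F) (Fκ := AlgebraicClosure κ) π hπ
  rw [← separable_map (algebraMap K F), Polynomial.map_map, ← IsScalarTower.algebraMap_eq,
    Polynomial.Separable, isCoprime_iff_aeval_ne_zero_of_isAlgClosed (k := F) F]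
  intro a
  by_contra hcon
  push Not at hcon
  obtain ⟨h1, h2⟩ := hcon
  rw [← eval_map_algebraMap, Polynomial.map_map, Algebra.algebraMap_self, RingHom.id_comp,
    eval_map_algebraMap] at h1
  rw [derivative_map, ← eval_map_algebraMap, Polynomial.map_map, Algebra.algebraMap_self,
    RingHom.id_comp, eval_map_algebraMap] at h2
  have hi := integral_root14 hu h1
  have h3 := red_root14 hρ hi h1
  have h4 := red_root14 hρ hi h2
  rw [← derivative_map] at h4
  obtain ⟨a', b', hab⟩ := hs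
  have h5 := congrArg (aeval (ρ ⟨a, hi⟩)) hab
  rw [map_add, map_mul, map_mul, h3, h4, mul_zero, mul_zero, add_zero, map_one] at h5
  exact zero_ne_one h5


end Pool.Agent.Lib.MP_89bcae_ag

end

section

/-!
# Frobenius elements and the action of the Galois group on the pairs of roots
-/

open Polynomial

namespace Pool.Agent.Lib.MP_89bcae_ag

set_option linter.unusedSectionVars false
set_option linter.style.haveILetI false

section Lift

variable {R K F κ Fκ : Type*} [CommRing R] [IsDomain R] [IsIntegrallyClosed R] [Field K]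
  [Algebra R K] [IsFractionRing R K] [Field F] [Algebra K F] [Algebra R F] [IsScalarTower R K F]
  [IsAlgClosed F] [Algebra.IsAlgebraic K F]
  [Field κ] [Fintype κ] [Field Fκ] [Algebra κ Fκ] [Algebra.IsAlgebraic κ Fκ] [IsAlgClosed Fκ]

/-- Two roots with the same reduction, which is a simple root of the reduced polynomial, are
equal. -/
lemma eq_of_red14 {π : R →+* κ} {ρ : integralClosure R F →+* Fκ}
    (hρ : ∀ r, ρ (algebraMap R (integralClosure R F) r) = algebraMap κ Fκ (π r))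
    {f : R[X]} {x y : F} (hx : IsIntegral R x) (hy : IsIntegral R y) (hfx : aeval x f = 0)
    (hfy : aeval y f = 0) (hxy : ρ ⟨x, hx⟩ = ρ ⟨y, hy⟩)
    (hs : aeval (ρ ⟨x, hx⟩) (derivative (f.map π)) ≠ 0) : x = y := by
  by_contra hne
  apply hs
  have hev : ∀ z : integralClosure R F, ((aeval z f : integralClosure R F) : F) =
      aeval (z : F) f := by
    intro z
    rw [← Subalgebra.coe_val, ← aeval_algHom_apply]
  have h1 : (f.map (algebraMap R (integralClosure R F))).IsRoot ⟨x, hx⟩ := by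
    rw [IsRoot.def, eval_map_algebraMap]
    exact Subtype.ext ((hev _).trans hfx)
  have h2 : (f.map (algebraMap R (integralClosure R F))).eval ⟨y, hy⟩ = 0 := by
    rw [eval_map_algebraMap]
    exact Subtype.ext ((hev _).trans hfy)
  obtain ⟨q, hq⟩ := dvd_iff_isRoot.mpr h1
  have h3 : q.eval ⟨y, hy⟩ = 0 := by
    rw [hq, eval_mul, eval_sub, eval_X, eval_C] at h2
    rcases mul_eq_zero.mp h2 with h | h
    · exact absurd (congrArg Subtype.val (sub_eq_zero.mp h)).symm hne
    · exact h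
  have hcomp : (algebraMap κ Fκ).comp π = ρ.comp (algebraMap R (integralClosure R F)) :=
    RingHom.ext fun r => (hρ r).symm
  have h4 : (f.map π).map (algebraMap κ Fκ) = (X - C (ρ ⟨x, hx⟩)) * q.map ρ := by
    rw [Polynomial.map_map, hcomp, ← Polynomial.map_map, hq, Polynomial.map_mul,
      Polynomial.map_sub, map_X, map_C]
  rw [← eval_map_algebraMap, ← derivative_map, h4, derivative_mul, derivative_sub, derivative_X,
    derivative_C, sub_zero, one_mul, eval_add, eval_mul, eval_sub, eval_X, eval_C, sub_self,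
    zero_mul, add_zero, hxy, eval_map, eval₂_at_apply, h3, map_zero]

/-- Every root of the reduced polynomial is the reduction of a root. -/
lemma exists_lift_root14 [FaithfulSMul R F] {π : R →+* κ} {ρ : integralClosure R F →+* Fκ}
    (hρ : ∀ r, ρ (algebraMap R (integralClosure R F) r) = algebraMap κ Fκ (π r))
    {f : R[X]} (hu : IsUnit f.leadingCoeff) {β : Fκ} (hβ : aeval β (f.map π) = 0) :
    ∃ (x : F) (hx : IsIntegral R x), aeval x f = 0 ∧ ρ ⟨x, hx⟩ = β := by
  classical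
  have hinjR : Function.Injective (algebraMap R F) := FaithfulSMul.algebraMap_injective R F
  have hf0 : f ≠ 0 := by
    rintro rfl
    rw [leadingCoeff_zero] at hu
    exact not_isUnit_zero hu
  have hfF0 : f.map (algebraMap R F) ≠ 0 := (Polynomial.map_ne_zero_iff hinjR).mpr hf0
  have hroot : ∀ x ∈ (f.map (algebraMap R F)).roots, aeval x f = 0 := by
    intro x hx
    rw [mem_roots hfF0, IsRoot.def, eval_map_algebraMap] at hx
    exact hx
  obtain ⟨s, hs⟩ : ∃ s : Multiset (integralClosure R F),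
      s.map (fun z : integralClosure R F => (z : F)) = (f.map (algebraMap R F)).roots := by
    refine ⟨(f.map (algebraMap R F)).roots.attach.map fun x =>
      ⟨x.1, integral_root14 hu (hroot x.1 x.2)⟩, ?_⟩
    rw [Multiset.map_map]
    exact Multiset.attach_map_val _
  have h1 : f.map (algebraMap R (integralClosure R F)) =
      C (algebraMap R (integralClosure R F) f.leadingCoeff) * (s.map fun z => X - C z).prod := by
    apply Polynomial.map_injective (algebraMap (integralClosure R F) F)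
      (FaithfulSMul.algebraMap_injective _ _)
    rw [Polynomial.map_map, ← IsScalarTower.algebraMap_eq R (integralClosure R F) F,
      Polynomial.map_mul, map_C, ← IsScalarTower.algebraMap_apply R (integralClosure R F) F]
    have h2 := (IsAlgClosed.splits (f.map (algebraMap R F))).eq_prod_roots
    rw [leadingCoeff_map_of_injective hinjR] at h2
    rw [Polynomial.map_multiset_prod, Multiset.map_map]
    conv_lhs => rw [h2, ← hs, Multiset.map_map]
    congr 3
    funext z
    simp only [Function.comp_apply, Polynomial.map_sub, map_X, map_C]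
    rfl
  have hcomp : (algebraMap κ Fκ).comp π = ρ.comp (algebraMap R (integralClosure R F)) :=
    RingHom.ext fun r => (hρ r).symm
  have h3 : (f.map π).map (algebraMap κ Fκ) =
      C (ρ (algebraMap R (integralClosure R F) f.leadingCoeff)) *
        (s.map fun z => X - C (ρ z)).prod := by
    rw [Polynomial.map_map, hcomp, ← Polynomial.map_map, h1, Polynomial.map_mul, map_C,
      Polynomial.map_multiset_prod, Multiset.map_map]
    congr 3
    funext z
    simp only [Function.comp_apply, Polynomial.map_sub, map_X, map_C]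
  have h4 : (s.map fun z => β - ρ z).prod = 0 := by
    rw [← eval_map_algebraMap, h3, eval_mul, eval_C, eval_multiset_prod, Multiset.map_map] at hβ
    rcases mul_eq_zero.mp hβ with h | h
    · rw [hρ, map_eq_zero] at h
      exact absurd h (hu.map π).ne_zero
    · rw [← h]
      congr 2
      funext z
      simp
  rw [Multiset.prod_eq_zero_iff, Multiset.mem_map] at h4
  obtain ⟨z, hz, hz0⟩ := h4
  refine ⟨z, z.2, ?_, (sub_eq_zero.mp hz0).symm⟩
  apply hroot
  rw [← hs]
  exact Multiset.mem_map_of_mem _ hz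

/-- **The Frobenius element.** -/
theorem exists_frob_roots14 {π : R →+* κ} (hπ : Function.Surjective π) {f : R[X]}
    (hu : IsUnit f.leadingCoeff) (hsep : (f.map (algebraMap R K)).Separable) :
    ∃ (ρ : integralClosure R F →+* Fκ) (φ : F ≃ₐ[K] F),
      (∀ r, ρ (algebraMap R (integralClosure R F) r) = algebraMap κ Fκ (π r)) ∧
      ∀ (i : ℕ) (x : F), aeval x f = 0 → ∀ hx : IsIntegral R x, aeval ((φ ^ i) x) f = 0 ∧
        ∃ hx' : IsIntegral R ((φ ^ i) x), ρ ⟨(φ ^ i) x, hx'⟩ = (frob8 κ Fκ ^ i) (ρ ⟨x, hx⟩) := by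
  classical
  have hinjR : Function.Injective (algebraMap R F) := by
    rw [IsScalarTower.algebraMap_eq R K F]
    exact (algebraMap K F).injective.comp (IsFractionRing.injective R K)
  have hfaith : FaithfulSMul R F := (faithfulSMul_iff_algebraMap_injective R F).mpr hinjR
  obtain ⟨ρ, hρ⟩ := exists_red14 (F := F) (Fκ := Fκ) π hπ
  have hf0 : f ≠ 0 := by
    rintro rfl
    rw [leadingCoeff_zero] at hu
    exact not_isUnit_zero hu
  have hfF0 : f.map (algebraMap R F) ≠ 0 := (Polynomial.map_ne_zero_iff hinjR).mpr hf0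
  set B : Finset F := (f.map (algebraMap R F)).roots.toFinset with hB
  have hmemB : ∀ γ, γ ∈ B ↔ aeval γ f = 0 := by
    intro γ
    rw [hB, Multiset.mem_toFinset, mem_roots hfF0, IsRoot.def, eval_map_algebraMap]
  obtain ⟨φ, M, hSM, hM⟩ := exists_frob_lift14 (κ := κ) π hπ ρ hρ B (by
    intro γ hγ
    apply Separable.of_dvd hsep
    apply minpoly.dvd
    rw [aeval_map_algebraMap]
    exact (hmemB γ).mp hγ)
  have hMi : ∀ (i : ℕ) (x : F), x ∈ M → ∀ hx : IsIntegral R x, (φ ^ i) x ∈ M ∧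
      ∃ hx' : IsIntegral R ((φ ^ i) x), ρ ⟨(φ ^ i) x, hx'⟩ = (frob8 κ Fκ ^ i) (ρ ⟨x, hx⟩) := by
    intro i
    induction i with
    | zero => exact fun x hxM hx => ⟨hxM, hx, rfl⟩
    | succ i ih =>
      intro x hxM hx
      obtain ⟨h3, h4, h5⟩ := ih x hxM hx
      obtain ⟨h6, h7⟩ := hM _ h3
      obtain ⟨h8, h9⟩ := h7 h4
      have h10 : (φ ^ (i + 1)) x = φ ((φ ^ i) x) := by rw [pow_succ', AlgEquiv.mul_apply]
      refine ⟨by rw [h10]; exact h6, by rw [h10]; exact h8, ?_⟩
      have h11 : ρ ⟨(φ ^ (i + 1)) x, by rw [h10]; exact h8⟩ = ρ ⟨φ ((φ ^ i) x), h8⟩ := by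
        congr 1
        exact Subtype.ext h10
      rw [h11, h9, h5, pow_succ' (frob8 κ Fκ), AlgEquiv.mul_apply, frob8_apply,
        Nat.card_eq_fintype_card]
  refine ⟨ρ, φ, hρ, fun i x hx hi => ⟨?_, (hMi i x (hSM x ((hmemB x).mpr hx)) hi).2⟩⟩
  have h3 : aeval ((φ ^ i) x) (f.map (algebraMap R K)) = 0 := by
    rw [← AlgEquiv.coe_toAlgHom (φ ^ i), aeval_algHom_apply, aeval_map_algebraMap, hx, map_zero]
  rwa [aeval_map_algebraMap] at h3

end Lift

section Types

variable {R K F κ : Type*} [CommRing R] [IsDomain R] [IsIntegrallyClosed R] [Field K]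
  [Algebra R K] [IsFractionRing R K] [Field F] [Algebra K F] [Algebra R F] [IsScalarTower R K F]
  [IsAlgClosed F] [Algebra.IsAlgebraic K F]
  [Field κ] [Fintype κ]

variable (K F) in
/-- **Type A.** -/
theorem frob_typeA14 {π : R →+* κ} (hπ : Function.Surjective π) {f : R[X]}
    (hu : IsUnit f.leadingCoeff) (hsep : (f.map (algebraMap R K)).Separable)
    (hirr : Irreducible (f.map π)) :
    ∃ φ : F ≃ₐ[K] F, ∀ x y : F, aeval x f = 0 → aeval y f = 0 → ∃ i : ℕ, (φ ^ i) x = y := by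
  obtain ⟨ρ, φ, hρ, hφ⟩ := exists_frob_roots14 (F := F) (Fκ := AlgebraicClosure κ) hπ hu hsep
  refine ⟨φ, fun x y hx hy => ?_⟩
  have hix := integral_root14 hu hx
  have hiy := integral_root14 hu hy
  obtain ⟨i, -, hi⟩ := exists_frob8_pow hirr (red_root14 hρ hix hx) (red_root14 hρ hiy hy)
  obtain ⟨h1, h2, h3⟩ := hφ i x hx hix
  refine ⟨i, eq_of_red14 hρ h2 hiy h1 hy (by rw [h3, hi]) ?_⟩
  have hsepκ : (f.map π).Separable := PerfectField.separable_of_irreducible hirr
  intro h4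
  obtain ⟨a', b', hab⟩ := hsepκ
  have h5 := congrArg (aeval (ρ ⟨(φ ^ i) x, h2⟩)) hab
  rw [map_add, map_mul, map_mul, red_root14 hρ h2 h1, h4, mul_zero, mul_zero, add_zero,
    map_one] at h5
  exact zero_ne_one h5


end Types


end Pool.Agent.Lib.MP_89bcae_ag

end

section

/-!
# Integral polynomials whose reductions modulo two primes are of types A and B
-/

open Polynomial

namespace Pool.Agent.Lib.MP_89bcae_ag

set_option linter.unusedSectionVars false
set_option linter.style.haveILetI false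


/-- The local ring `ℤ_(p)` with its residue map. -/
lemma exists_local_ring14 {p : ℕ} (hp : p.Prime) :
    ∃ (R : Type) (_ : CommRing R) (_ : IsDomain R) (_ : IsIntegrallyClosed R)
      (_ : Algebra R ℚ) (_ : IsFractionRing R ℚ) (π : R →+* ZMod p),
      Function.Surjective π ∧
      ∀ z : ℤ, (z : ZMod p) ≠ 0 → IsUnit (Int.castRingHom R z) := by
  haveI : Fact p.Prime := ⟨hp⟩
  have hpi : Prime (p : ℤ) := Nat.prime_iff_prime_int.mp hp
  haveI hP : (Ideal.span {(p : ℤ)}).IsPrime :=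
    (Ideal.span_singleton_prime hpi.ne_zero).mpr hpi
  have hmem : ∀ z : ℤ, z ∈ (Ideal.span {(p : ℤ)}).primeCompl ↔ (z : ZMod p) ≠ 0 := by
    intro z
    rw [Ideal.mem_primeCompl_iff, Ideal.mem_span_singleton, Ne,
      ZMod.intCast_zmod_eq_zero_iff_dvd]
  let R := Localization.AtPrime (Ideal.span {(p : ℤ)})
  have hle : (Ideal.span {(p : ℤ)}).primeCompl ≤ nonZeroDivisors ℤ :=
    Ideal.primeCompl_le_nonZeroDivisors _
  let e : R →+* ℚ := IsLocalization.lift (M := (Ideal.span {(p : ℤ)}).primeCompl)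
    (g := algebraMap ℤ ℚ) (by
      intro y
      rw [isUnit_iff_ne_zero]
      exact (map_ne_zero_iff _ (algebraMap ℤ ℚ).injective_int).mpr
        (nonZeroDivisors.ne_zero (hle y.2)))
  letI : Algebra R ℚ := e.toAlgebra
  have hst := IsScalarTower.of_algebraMap_eq (R := ℤ) (S := R) (A := ℚ) fun r =>
    (IsLocalization.lift_eq _ r).symm
  haveI := hst
  have hfr : IsFractionRing R ℚ :=
    IsFractionRing.isFractionRing_of_isDomain_of_isLocalization
      (Ideal.span {(p : ℤ)}).primeCompl R ℚ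
  have hdom : IsDomain R := inferInstance
  have hic : IsIntegrallyClosed R := inferInstance
  let π : R →+* ZMod p := IsLocalization.lift (M := (Ideal.span {(p : ℤ)}).primeCompl)
    (g := Int.castRingHom (ZMod p)) (by
      intro y
      rw [isUnit_iff_ne_zero]
      exact (hmem y).mp y.2)
  have hπ : ∀ z : ℤ, π (algebraMap ℤ R z) = z := fun z => IsLocalization.lift_eq _ z
  refine ⟨R, inferInstance, hdom, hic, inferInstance, hfr, π, fun x => ?_, fun z hz => ?_⟩
  · obtain ⟨z, hz⟩ := ZMod.intCast_surjective x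
    exact ⟨algebraMap ℤ R z, by rw [hπ, hz]⟩
  · have h1 := IsLocalization.map_units R
      (⟨z, (hmem z).mpr hz⟩ : (Ideal.span {(p : ℤ)}).primeCompl)
    have h2 : algebraMap ℤ R = Int.castRingHom R := RingHom.ext_int _ _
    rw [h2] at h1
    exact h1

section

variable {F : Type*} [Field F] [Algebra ℚ F] [IsAlgClosed F] [Algebra.IsAlgebraic ℚ F]


end

end Pool.Agent.Lib.MP_89bcae_ag

end

section

/-!
# Families of polynomials with integral coefficients: the conditions at the primes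
-/

open Polynomial

open scoped Classical

namespace Pool.Agent.Lib.MP_89bcae_ag

open Superelliptic

universe u

section

variable {ι : Type} {n : ℕ}

/-- The polynomials of degree at most `n` with coefficients `v`. -/
noncomputable def gpol {R : Type*} [CommRing R] (v : ι × Fin (n + 1) → R) (i : ι) : R[X] :=
  ∑ j : Fin (n + 1), C (v (i, j)) * X ^ (j : ℕ)

/-- The difference of two of the polynomials. -/
noncomputable def gdif {R : Type*} [CommRing R] (v : ι × Fin (n + 1) → R) (a b : ι) : R[X] :=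
  gpol v a - gpol v b

lemma gpol_map {R S : Type*} [CommRing R] [CommRing S] (φ : R →+* S) (v : ι × Fin (n + 1) → R)
    (i : ι) : (gpol v i).map φ = gpol (fun x => φ (v x)) i := by
  unfold gpol
  rw [Polynomial.map_sum]
  refine Finset.sum_congr rfl fun j _ => ?_
  rw [Polynomial.map_mul, map_C, Polynomial.map_pow, map_X]

lemma gdif_map {R S : Type*} [CommRing R] [CommRing S] (φ : R →+* S) (v : ι × Fin (n + 1) → R)
    (a b : ι) : (gdif v a b).map φ = gdif (fun x => φ (v x)) a b := by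
  unfold gdif
  rw [Polynomial.map_sub, gpol_map, gpol_map]

lemma gpol_coeff {R : Type*} [CommRing R] (v : ι × Fin (n + 1) → R) (i : ι) (j : Fin (n + 1)) :
    (gpol v i).coeff j = v (i, j) := by
  unfold gpol
  rw [finset_sum_coeff, Finset.sum_eq_single j]
  · rw [coeff_C_mul_X_pow, if_pos rfl]
  · intro k _ hk
    rw [coeff_C_mul_X_pow, if_neg]
    intro h
    exact hk (Fin.ext h.symm)
  · intro h
    exact absurd (Finset.mem_univ j) h

lemma gpol_natDegree_le {R : Type*} [CommRing R] (v : ι × Fin (n + 1) → R) (i : ι) :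
    (gpol v i).natDegree ≤ n := by
  unfold gpol
  refine natDegree_sum_le_of_forall_le _ _ fun j _ => ?_
  exact (natDegree_C_mul_X_pow_le _ _).trans (by omega)

lemma gdif_natDegree_le {R : Type*} [CommRing R] (v : ι × Fin (n + 1) → R) (a b : ι) :
    (gdif v a b).natDegree ≤ n :=
  (natDegree_sub_le _ _).trans (max_le (gpol_natDegree_le v a) (gpol_natDegree_le v b))

lemma gdif_coeff {R : Type*} [CommRing R] (v : ι × Fin (n + 1) → R) (a b : ι) (j : Fin (n + 1)) :
    (gdif v a b).coeff j = v (a, j) - v (b, j) := by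
  unfold gdif
  rw [coeff_sub, gpol_coeff, gpol_coeff]

lemma gdif_add {R : Type*} [CommRing R] (v : ι × Fin (n + 1) → R) (a b c : ι) :
    gdif v a b + gdif v b c = gdif v a c := by
  unfold gdif
  ring

lemma gdif_swap {R : Type*} [CommRing R] (v : ι × Fin (n + 1) → R) (a b : ι) :
    gdif v b a = -gdif v a b := by
  unfold gdif
  ring

/-- The polynomials with rational coefficients. -/
noncomputable def gpolQ (v : ι × Fin (n + 1) → ℤ) (i : ι) : ℚ[X] :=
  gpol (fun x => (v x : ℚ)) i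

/-- The difference modulo `p`. -/
noncomputable def gred (p : ℕ) (v : ι × Fin (n + 1) → ℤ) (a b : ι) : (ZMod p)[X] :=
  (gdif v a b).map (Int.castRingHom (ZMod p))

/-- The leading coefficients of the differences are prime to `p`. -/
def LeadG (p : ℕ) (v : ι × Fin (n + 1) → ℤ) : Prop :=
  ∀ a b, a ≠ b → ¬ (p : ℤ) ∣ v (a, Fin.last n) - v (b, Fin.last n)

/-- `α_a - α_b` is irreducible modulo `p`. -/
structure TypeI (p : ℕ) (a b : ι) (v : ι × Fin (n + 1) → ℤ) : Prop where
  lead : ¬ (p : ℤ) ∣ v (a, Fin.last n) - v (b, Fin.last n)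
  irr : Irreducible (gred p v a b)

/-- `α_a - α_b` is modulo `p` the product of a linear and of an irreducible factor. -/
structure TypeL (p : ℕ) (a b : ι) (v : ι × Fin (n + 1) → ℤ) : Prop where
  lead : ¬ (p : ℤ) ∣ v (a, Fin.last n) - v (b, Fin.last n)
  irr : ∃ (z : ZMod p) (g : (ZMod p)[X]), Irreducible g ∧ g.eval z ≠ 0 ∧
    gred p v a b = (X - C z) * g

/-- Exactly one simple triple collision modulo `p`: the graphs of `α_i`, `α_j`, `α_l`. -/
structure TypeB (p : ℕ) (i j l : ι) (v : ι × Fin (n + 1) → ℤ) : Prop where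
  lead : LeadG p v
  sep : ∀ a b, a ≠ b → (gred p v a b).Separable
  cop : ∀ a b c d, a ≠ b → c ≠ d → ({a, b} : Set ι) ≠ {c, d} →
    ¬ ({a, b, c, d} : Set ι) ⊆ {i, j, l} → IsCoprime (gred p v a b) (gred p v c d)
  col : ∃ z : ℤ, (p : ℤ) ^ 2 ∣ (gdif v i j).eval z ∧ (p : ℤ) ∣ (gdif v j l).eval z ∧
    ¬ (p : ℤ) ^ 2 ∣ (gdif v j l).eval z ∧ ∃ g h : (ZMod p)[X],
      gred p v i j = (X - C (z : ZMod p)) * g ∧ gred p v j l = (X - C (z : ZMod p)) * h ∧
        IsCoprime g h

/-- Exactly one double root modulo `p`: a root of `α_a - α_b`. -/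
structure TypeD (p : ℕ) (a b : ι) (v : ι × Fin (n + 1) → ℤ) : Prop where
  lead : LeadG p v
  sep : ∀ c d, c ≠ d → ({c, d} : Set ι) ≠ {a, b} → (gred p v c d).Separable
  cop : ∀ a' b' c d, a' ≠ b' → c ≠ d → ({a', b'} : Set ι) ≠ {c, d} →
    IsCoprime (gred p v a' b') (gred p v c d)
  dbl : ∃ z : ℤ, (p : ℤ) ∣ (gdif v a b).eval z ∧ ¬ (p : ℤ) ^ 2 ∣ (gdif v a b).eval z ∧
    ∃ g : (ZMod p)[X], gred p v a b = (X - C (z : ZMod p)) ^ 2 * g ∧
      g.eval (z : ZMod p) ≠ 0 ∧ g.Separable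

/-- The arithmetic condition on the family. -/
structure GoodG (v : ι × Fin (n + 1) → ℤ) : Prop where
  typeI : ∀ a b, a ≠ b → ∃ p : ℕ, p.Prime ∧ TypeI p a b v
  typeL : ∀ a b, a ≠ b → ∃ p : ℕ, p.Prime ∧ TypeL p a b v
  typeD : ∀ a b, a ≠ b → ∃ p : ℕ, p.Prime ∧ TypeD p a b v
  typeB : ∀ i j l, i ≠ j → j ≠ l → i ≠ l → ∃ p : ℕ, p.Prime ∧ TypeB p i j l v

end

section Val

variable {F : Type u} [Field F]

/-- A homomorphism from the multiplicative group of a subfield to `A`, trivial at `-1`. -/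
structure IsVal {A : Type*} [AddCommGroup A] (K : Subfield F) (ν : F → A) : Prop where
  mul : ∀ x ∈ K, ∀ y ∈ K, x ≠ 0 → y ≠ 0 → ν (x * y) = ν x + ν y
  neg_one : ν (-1) = 0

/-- The values of the homomorphism `ν` at the nodes of the arrangement `α`: it is `h` at the
differences of the elements of the collision `r`, `r'`, `r''` (of the graphs of the `α_i`, `α_j`,
`α_l`), and `0` at the other ones. -/
structure TripleV {A : Type*} [AddCommGroup A] {k : Type u} [Field k] [Algebra k F] {ι : Type}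
    (ν : F → A) (α : ι → k[X]) (h : A) (i j l : ι) (r r' r'' : F) : Prop where
  dif : ∀ s ∈ nodes k F α, ∀ s' ∈ nodes k F α, s ≠ s' →
    ν (s - s') = if s ∈ ({r, r', r''} : Set F) ∧ s' ∈ ({r, r', r''} : Set F) then h else 0
  der : ∀ a b s, a ≠ b → aeval s (α a) = aeval s (α b) →
    ν (aeval s (derivative (α a - α b))) = 0
  val : ∀ a b c s, a ≠ b → aeval s (α a) = aeval s (α b) → c ≠ a → c ≠ b →
    ν (aeval s (α a) - aeval s (α c)) =
      if s ∈ ({r, r', r''} : Set F) ∧ c ∈ ({i, j, l} : Set ι) then h else 0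

end Val

end Pool.Agent.Lib.MP_89bcae_ag

end

section

/-!
# Generic conditions on the coefficients

A condition on points `u` with coordinates in a field is generic if it is implied by the nonvanishing
of a nonzero polynomial with integral coefficients.
-/

open Polynomial

open scoped Classical

namespace Pool.Agent.Lib.MP_89bcae_ag

section

variable {κ : Type}

/-- A condition which is implied by the nonvanishing of a nonzero polynomial with integral
coefficients. -/
def IsGeneric (C : ∀ (K : Type) [Field K], (κ → K) → Prop) : Prop :=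
  ∃ Δ : MvPolynomial κ ℤ, Δ ≠ 0 ∧ ∀ (K : Type) [Field K] (u : κ → K),
    MvPolynomial.aeval u Δ ≠ 0 → C K u

theorem IsGeneric.true : IsGeneric (fun (K : Type) [Field K] (_ : κ → K) => True) :=
  ⟨1, one_ne_zero, fun _ _ _ _ => trivial⟩

theorem IsGeneric.mono {C C' : ∀ (K : Type) [Field K], (κ → K) → Prop} (h : IsGeneric C)
    (hCC : ∀ (K : Type) [Field K] (u : κ → K), C K u → C' K u) : IsGeneric C' := by
  obtain ⟨Δ, h0, h1⟩ := h
  exact ⟨Δ, h0, fun K _ u hu => hCC K u (h1 K u hu)⟩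

theorem IsGeneric.and {C C' : ∀ (K : Type) [Field K], (κ → K) → Prop} (h : IsGeneric C)
    (h' : IsGeneric C') :
    IsGeneric (fun (K : Type) [Field K] (u : κ → K) => C K u ∧ C' K u) := by
  obtain ⟨Δ, h0, h1⟩ := h
  obtain ⟨Δ', h0', h1'⟩ := h'
  refine ⟨Δ * Δ', mul_ne_zero h0 h0', fun K _ u hu => ?_⟩
  rw [map_mul] at hu
  exact ⟨h1 K u (left_ne_zero_of_mul hu), h1' K u (right_ne_zero_of_mul hu)⟩

/-- Finite conjunctions (the product of the polynomials). -/
theorem IsGeneric.all {T : Type} [Finite T] {C : T → ∀ (K : Type) [Field K], (κ → K) → Prop}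
    (h : ∀ t, IsGeneric (C t)) :
    IsGeneric (fun (K : Type) [Field K] (u : κ → K) => ∀ t, C t K u) := by
  have := Fintype.ofFinite T
  choose Δ h0 h1 using h
  refine ⟨∏ t, Δ t, Finset.prod_ne_zero_iff.mpr fun t _ => h0 t, fun K _ u hu t => ?_⟩
  refine h1 t K u fun ht => hu ?_
  rw [map_prod]
  exact Finset.prod_eq_zero (Finset.mem_univ t) ht

/-- A polynomial which does not vanish at one point. -/
theorem isGeneric_ne (Δ : MvPolynomial κ ℤ) (h : ∃ u : κ → ℚ, MvPolynomial.aeval u Δ ≠ 0) :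
    IsGeneric (fun (K : Type) [Field K] (u : κ → K) => MvPolynomial.aeval u Δ ≠ 0) := by
  obtain ⟨u, hu⟩ := h
  refine ⟨Δ, fun h0 => hu ?_, fun K _ v hv => hv⟩
  rw [h0, map_zero]

/-- The value of a polynomial with coefficients in `ℤ[κ]` at the point `u`. -/
noncomputable def spec {K : Type} [Field K] (u : κ → K) (f : (MvPolynomial κ ℤ)[X]) : K[X] :=
  f.map (MvPolynomial.aeval (R := ℤ) u).toRingHom

theorem resultant_ne_zero_iff_h21 {K : Type} [Field K] {F G : K[X]} {m n : ℕ}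
    (hF : F.natDegree ≤ m) (hG : G.natDegree ≤ n) (h : F.coeff m ≠ 0) :
    resultant F G m n ≠ 0 ↔ IsCoprime F G := by
  have hm : F.natDegree = m := le_antisymm hF (le_natDegree_of_ne_zero h)
  have hF0 : F ≠ 0 := by
    rintro rfl
    exact h (coeff_zero m)
  obtain ⟨k, rfl⟩ := Nat.exists_eq_add_of_le hG
  rw [resultant_add_right_deg _ _ _ _ _ le_rfl, mul_ne_zero_iff]
  subst hm
  rw [Ne, Ne, resultant_eq_zero_iff]
  constructor
  · rintro ⟨_, h2⟩
    by_contra hc
    exact h2 ⟨Or.inl hF0, hc⟩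
  · intro hc
    exact ⟨pow_ne_zero _ h, fun h2 => h2.2 hc⟩

/-- **Coprimality is a generic condition** if it holds at one point. `Δ` is the product of the leading
coefficient `f.coeff m` and of the resultant `Polynomial.resultant f g m n` (formal degrees `m` and
`n`); `Polynomial.resultant_map_map`, `Polynomial.resultant_eq_zero_iff` (over a field),
`Polynomial.resultant_add_right_deg` (to pass from the degree of `g_u` to `n`, the leading coefficient
of `f_u` not being zero). If one of `f_u`, `g_u` is zero treat it separately (`m = 0`: `f_u` is a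
nonzero constant). -/
theorem isGeneric_isCoprime (f g : (MvPolynomial κ ℤ)[X]) (m n : ℕ) (hf : f.natDegree ≤ m)
    (hg : g.natDegree ≤ n) (u₀ : κ → ℚ) (h1 : (spec u₀ f).coeff m ≠ 0)
    (h2 : IsCoprime (spec u₀ f) (spec u₀ g)) :
    IsGeneric (fun (K : Type) [Field K] (u : κ → K) =>
      (spec u f).coeff m ≠ 0 ∧ IsCoprime (spec u f) (spec u g)) := by
  have key : ∀ (K : Type) [Field K] (u : κ → K),
      MvPolynomial.aeval u (f.coeff m * resultant f g m n) =
        (spec u f).coeff m * resultant (spec u f) (spec u g) m n := by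
    intro K _ u
    rw [map_mul, spec, spec, resultant_map_map, coeff_map]
    rfl
  refine ⟨f.coeff m * resultant f g m n, ?_, ?_⟩
  · intro h0
    have h3 := key ℚ u₀
    rw [h0, map_zero] at h3
    refine mul_ne_zero h1 ?_ h3.symm
    exact (resultant_ne_zero_iff_h21 (natDegree_map_le.trans hf) (natDegree_map_le.trans hg) h1).2 h2
  · intro K _ u hu
    rw [key K u] at hu
    have h3 := left_ne_zero_of_mul hu
    exact ⟨h3, (resultant_ne_zero_iff_h21 (natDegree_map_le.trans hf)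
      (natDegree_map_le.trans hg) h3).1 (right_ne_zero_of_mul hu)⟩

/-- Separability is a generic condition if it holds at one point. -/
theorem isGeneric_separable (f : (MvPolynomial κ ℤ)[X]) (m : ℕ) (hf : f.natDegree ≤ m)
    (u₀ : κ → ℚ) (h1 : (spec u₀ f).coeff m ≠ 0) (h2 : (spec u₀ f).Separable) :
    IsGeneric (fun (K : Type) [Field K] (u : κ → K) =>
      (spec u f).coeff m ≠ 0 ∧ (spec u f).Separable) := by
  have hd : ∀ (K : Type) [Field K] (u : κ → K),
      spec u (derivative f) = derivative (spec u f) := by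
    intro K _ u
    rw [spec, spec, derivative_map]
  obtain ⟨Δ, hΔ, h⟩ := isGeneric_isCoprime f (derivative f) m m hf
    ((natDegree_derivative_le f).trans ((Nat.sub_le _ _).trans hf)) u₀ h1 (by
      rw [hd]
      exact h2)
  refine ⟨Δ, hΔ, fun K _ u hu => ?_⟩
  have h3 : (spec u f).coeff m ≠ 0 ∧ IsCoprime (spec u f) (spec u (derivative f)) := h K u hu
  rw [hd] at h3
  exact h3

end

section

variable {κ : Type} [Fintype κ]

/-- **Schwartz-Zippel**, for all large primes (`Δ` is not zero modulo the primes which do not divide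
one fixed nonzero coefficient; `MvPolynomial.schwartz_zippel_totalDegree` with
`S = Finset.univ`; rename `κ` to `Fin (card κ)`). -/
theorem count_zeros (Δ : MvPolynomial κ ℤ) (hΔ : Δ ≠ 0) :
    ∃ P₀ D : ℕ, ∀ p : ℕ, p.Prime → P₀ ≤ p →
      ({u : κ → ZMod p | MvPolynomial.aeval u Δ = 0}).ncard * p ≤ D * p ^ Fintype.card κ := by
  obtain ⟨s, hs⟩ := MvPolynomial.ne_zero_iff.1 hΔ
  refine ⟨(Δ.coeff s).natAbs + 1, Δ.totalDegree, ?_⟩
  intro p hp hle
  have : Fact p.Prime := ⟨hp⟩
  set n := Fintype.card κ with hn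
  let e : κ ≃ Fin n := Fintype.equivFin κ
  set g : MvPolynomial κ (ZMod p) := MvPolynomial.map (Int.castRingHom (ZMod p)) Δ with hg
  set q : MvPolynomial (Fin n) (ZMod p) := MvPolynomial.rename e g with hq
  have hg0 : g ≠ 0 := by
    rw [MvPolynomial.ne_zero_iff]
    refine ⟨s, ?_⟩
    rw [hg, MvPolynomial.coeff_map, eq_intCast, Ne, ZMod.intCast_zmod_eq_zero_iff_dvd]
    intro hdvd
    have h1 : p ∣ (Δ.coeff s).natAbs := Int.natCast_dvd.1 hdvd
    have h2 := Nat.le_of_dvd (Int.natAbs_pos.2 hs) h1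
    omega
  have hq0 : q ≠ 0 := by
    intro h
    apply hg0
    apply MvPolynomial.rename_injective e e.injective
    rw [map_zero]
    exact h
  have hdeg : q.totalDegree ≤ Δ.totalDegree := by
    refine (MvPolynomial.totalDegree_rename_le e g).trans ?_
    rw [hg]
    apply Finset.sup_mono
    exact MvPolynomial.support_map_subset _ _
  have heval : ∀ f : Fin n → ZMod p, MvPolynomial.eval f q = MvPolynomial.aeval (f ∘ e) Δ := by
    intro f
    rw [hq, MvPolynomial.eval_rename, hg, MvPolynomial.eval_map, MvPolynomial.aeval_def,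
      algebraMap_int_eq]
  have hset : {u : κ → ZMod p | MvPolynomial.aeval u Δ = 0} =
      (fun f : Fin n → ZMod p => f ∘ e) '' {f | MvPolynomial.eval f q = 0} := by
    ext u
    constructor
    · intro hu
      refine ⟨u ∘ e.symm, ?_, ?_⟩
      · show MvPolynomial.eval (u ∘ e.symm) q = 0
        rw [heval]
        have : (u ∘ e.symm) ∘ e = u := by
          ext c
          simp
        rw [this]
        exact hu
      · ext c
        simp
    · rintro ⟨f, hf, rfl⟩
      show MvPolynomial.aeval (f ∘ e) Δ = 0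
      rw [← heval]
      exact hf
  have hinj : Function.Injective (fun f : Fin n → ZMod p => f ∘ e) := by
    intro f f' h
    ext i
    have := congrFun h (e.symm i)
    simpa using this
  rw [hset, Set.ncard_image_of_injective _ hinj]
  have hfin : {f : Fin n → ZMod p | MvPolynomial.eval f q = 0} =
      (((Fintype.piFinset fun _ : Fin n => (Finset.univ : Finset (ZMod p))).filter
        (fun f => MvPolynomial.eval f q = 0) : Finset (Fin n → ZMod p)) : Set (Fin n → ZMod p)) := by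
    ext f
    simp
  rw [hfin, Set.ncard_coe_finset]
  have hsz := MvPolynomial.schwartz_zippel_totalDegree hq0 (Finset.univ : Finset (ZMod p))
  rw [Finset.card_univ, ZMod.card] at hsz
  have hp0 : (0 : ℚ≥0) < p := by exact_mod_cast hp.pos
  rw [div_le_div_iff₀ (by positivity) hp0] at hsz
  have h1 : ((Fintype.piFinset fun _ : Fin n => (Finset.univ : Finset (ZMod p))).filter
      (fun f => MvPolynomial.eval f q = 0)).card * p ≤ q.totalDegree * p ^ n := by
    exact_mod_cast hsz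
  exact h1.trans (Nat.mul_le_mul_right _ hdeg)

/-- The polynomial vectors with the values of `u` at the places `s c`. -/
theorem count_collapse {p : ℕ} [Fact p.Prime] (s : κ → κ) (c₁ c₂ : κ)
    (hs : ∀ c, s (s c) = s c) (hs' : ∀ c, c ≠ c₁ → c ≠ c₂ → s c = c)
    (P : (κ → ZMod p) → Prop) :
    ({u : κ → ZMod p | P (u ∘ s)}).ncard ≤
      p ^ 2 * ({u : κ → ZMod p | u ∘ s = u ∧ P u}).ncard := by
  have h1 : ((Set.univ : Set (ZMod p × ZMod p)) ×ˢ
      ({u : κ → ZMod p | u ∘ s = u ∧ P u})).ncard =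
      p ^ 2 * ({u : κ → ZMod p | u ∘ s = u ∧ P u}).ncard := by
    rw [Set.ncard_prod, Set.ncard_univ, Nat.card_prod, Nat.card_zmod, pow_two]
  rw [← h1]
  refine Set.ncard_le_ncard_of_injOn (fun u => ((u c₁, u c₂), u ∘ s)) ?_ ?_ (Set.toFinite _)
  · intro u hu
    refine ⟨Set.mem_univ _, ?_, hu⟩
    funext c
    simp only [Function.comp_apply]
    rw [hs c]
  · intro u _ u' _ h
    have h2 : u c₁ = u' c₁ := congrArg (fun t => t.1.1) h
    have h3 : u c₂ = u' c₂ := congrArg (fun t => t.1.2) h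
    have h4 : u ∘ s = u' ∘ s := congrArg (fun t => t.2) h
    funext c
    by_cases hc1 : c = c₁
    · rw [hc1]
      exact h2
    · by_cases hc2 : c = c₂
      · rw [hc2]
        exact h3
      · have h5 := congrFun h4 c
        simp only [Function.comp_apply] at h5
        rwa [hs' c hc1 hc2] at h5

/-- Reduction of vectors modulo `p`. -/
def redp (p : ℕ) (w : κ → ZMod (p ^ 2)) : κ → ZMod p :=
  fun c => ZMod.castHom (dvd_pow_self p two_ne_zero) (ZMod p) (w c)

/-- The number of the lifts to `ZMod (p ^ 2)`. -/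
theorem card_lift_h16 {p : ℕ} (hp : p.Prime) (S : Set (κ → ZMod p)) :
    S.ncard * p ^ Fintype.card κ ≤ ({w : κ → ZMod (p ^ 2) | redp p w ∈ S}).ncard := by
  have : NeZero p := ⟨hp.ne_zero⟩
  have : NeZero (p ^ 2) := ⟨pow_ne_zero 2 hp.ne_zero⟩
  have h1 : (S ×ˢ (Set.univ : Set (κ → Fin p))).ncard = S.ncard * p ^ Fintype.card κ := by
    rw [Set.ncard_prod, Set.ncard_univ, Nat.card_eq_fintype_card, Fintype.card_fun,
      Fintype.card_fin]
  rw [← h1]
  have hlt : ∀ (a : ZMod p) (c : Fin p), a.val + p * (c : ℕ) < p ^ 2 := by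
    intro a c
    have h2 := ZMod.val_lt a
    have h3 := c.2
    nlinarith
  refine Set.ncard_le_ncard_of_injOn
    (fun v i => (((v.1 i).val + p * (v.2 i : ℕ) : ℕ) : ZMod (p ^ 2))) ?_ ?_ (Set.toFinite _)
  · rintro ⟨s, c⟩ ⟨hs, -⟩
    have h2 : redp p (fun i => ((((s i).val + p * (c i : ℕ) : ℕ) : ZMod (p ^ 2)))) = s := by
      funext i
      unfold redp
      rw [map_natCast]
      push_cast
      rw [ZMod.natCast_self, zero_mul, add_zero, ZMod.natCast_val, ZMod.cast_id]
    change redp p (fun i => ((((s i).val + p * (c i : ℕ) : ℕ) : ZMod (p ^ 2)))) ∈ S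
    rw [h2]
    exact hs
  · rintro ⟨s, c⟩ - ⟨s', c'⟩ - h
    have h2 : ∀ i, (s i).val + p * (c i : ℕ) = (s' i).val + p * (c' i : ℕ) := by
      intro i
      have h3 := congrFun h i
      simp only at h3
      rw [ZMod.natCast_eq_natCast_iff'] at h3
      rwa [Nat.mod_eq_of_lt (hlt _ _), Nat.mod_eq_of_lt (hlt _ _)] at h3
    have h4 : ∀ i, s i = s' i := by
      intro i
      have h5 := congrArg (· % p) (h2 i)
      simp only [Nat.add_mul_mod_self_left] at h5
      rw [Nat.mod_eq_of_lt (ZMod.val_lt _), Nat.mod_eq_of_lt (ZMod.val_lt _)] at h5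
      exact ZMod.val_injective p h5
    have h6 : ∀ i, c i = c' i := by
      intro i
      have h7 := h2 i
      rw [h4 i, Nat.add_left_cancel_iff] at h7
      exact Fin.ext (Nat.eq_of_mul_eq_mul_left hp.pos h7)
    simp only [Prod.mk.injEq]
    exact ⟨funext h4, funext h6⟩

/-- Half of the lifts are good, if every bad lift becomes good when `p` is added to a coordinate `c`
(`card_lift14` in LDenA14.lean or SDenA14.lean; see the proof of `count_typeP14` in LPrjA14.lean). -/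
theorem half_lift {p : ℕ} (hp : p.Prime) (S : Set (κ → ZMod p)) (c : κ)
    (G : Set (κ → ZMod (p ^ 2)))
    (hG : ∀ w, redp p w ∈ S → w ∉ G → Function.update w c (w c + (p : ZMod (p ^ 2))) ∈ G) :
    S.ncard * p ^ Fintype.card κ ≤ 2 * G.ncard := by
  have : NeZero (p ^ 2) := ⟨pow_ne_zero 2 hp.ne_zero⟩
  have h2 := card_lift_h16 hp S
  have h4 : ({w : κ → ZMod (p ^ 2) | redp p w ∈ S} \ G).ncard ≤ G.ncard := by
    refine Set.ncard_le_ncard_of_injOn
      (fun w => Function.update w c (w c + (p : ZMod (p ^ 2)))) ?_ ?_ (Set.toFinite _)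
    · rintro w ⟨hwX, hwG⟩
      exact hG w hwX hwG
    · intro w _ w' _ h
      funext i
      have h5 := congrFun h i
      simp only at h5
      by_cases hi : i = c
      · subst hi
        rwa [Function.update_self, Function.update_self, add_left_inj] at h5
      · rwa [Function.update_of_ne hi, Function.update_of_ne hi] at h5
  have h5 : ({w : κ → ZMod (p ^ 2) | redp p w ∈ S}).ncard ≤
      ({w : κ → ZMod (p ^ 2) | redp p w ∈ S} \ G).ncard + G.ncard := by
    have h6 : {w : κ → ZMod (p ^ 2) | redp p w ∈ S} ⊆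
        ({w : κ → ZMod (p ^ 2) | redp p w ∈ S} \ G) ∪ G := fun w hw => by
      by_cases h : w ∈ G
      · exact Or.inr h
      · exact Or.inl ⟨hw, h⟩
    exact (Set.ncard_le_ncard h6 (Set.toFinite _)).trans (Set.ncard_union_le _ _)
  omega

end

end Pool.Agent.Lib.MP_89bcae_ag

end

section

/-!
# The roots of the differences
-/

open Polynomial

open scoped Classical

namespace Pool.Agent.Lib.MP_89bcae_ag

open Superelliptic

variable {ι : Type} {n : ℕ} {F : Type} [Field F] [Algebra ℚ F]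

/-- (`natDegree_eq_of_le_of_coeff_ne_zero`, `gdif_coeff`.) -/
theorem gdif_natDegree {v : ι × Fin (n + 1) → ℤ} {a b : ι}
    (h : v (a, Fin.last n) ≠ v (b, Fin.last n)) : (gdif v a b).natDegree = n := by
  refine natDegree_eq_of_le_of_coeff_ne_zero (gdif_natDegree_le v a b) ?_
  have h1 := gdif_coeff v a b (Fin.last n)
  rw [Fin.val_last] at h1
  rw [h1]
  exact sub_ne_zero.mpr h

theorem gdif_leadingCoeff {v : ι × Fin (n + 1) → ℤ} {a b : ι}
    (h : v (a, Fin.last n) ≠ v (b, Fin.last n)) :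
    (gdif v a b).leadingCoeff = v (a, Fin.last n) - v (b, Fin.last n) := by
  have h1 := gdif_coeff v a b (Fin.last n)
  rw [Fin.val_last] at h1
  rw [leadingCoeff, gdif_natDegree h, h1]

theorem gdif_map_rat (v : ι × Fin (n + 1) → ℤ) (a b : ι) :
    (gdif v a b).map (Int.castRingHom ℚ) = gpolQ v a - gpolQ v b := by
  rw [gdif_map]
  rfl

theorem aeval_gdif (v : ι × Fin (n + 1) → ℤ) (a b : ι) (s : F) :
    aeval s (gdif v a b) = aeval s (gpolQ v a) - aeval s (gpolQ v b) := by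
  rw [← map_sub, ← gdif_map_rat, ← algebraMap_int_eq, aeval_map_algebraMap]

theorem aeval_derivative_gdif (v : ι × Fin (n + 1) → ℤ) (a b : ι) (s : F) :
    aeval s (derivative (gdif v a b)) = aeval s (derivative (gpolQ v a - gpolQ v b)) := by
  rw [← gdif_map_rat, derivative_map, ← algebraMap_int_eq, aeval_map_algebraMap]

/-- A polynomial with integral coefficients whose leading coefficient is prime to `p`, and a
polynomial prime to it modulo `p`, are coprime over `ℚ`: the resultant is not divisible by `p`. -/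
private theorem isCoprime_of_red_h71 {p : ℕ} (hp : p.Prime) {f g : ℤ[X]}
    (hf : ¬ (p : ℤ) ∣ f.leadingCoeff)
    (hc : IsCoprime (f.map (Int.castRingHom (ZMod p))) (g.map (Int.castRingHom (ZMod p)))) :
    IsCoprime (f.map (Int.castRingHom ℚ)) (g.map (Int.castRingHom ℚ)) := by
  have : Fact p.Prime := ⟨hp⟩
  set φ := Int.castRingHom (ZMod p) with hφ
  have hlc : φ f.leadingCoeff ≠ 0 := by
    intro h0
    apply hf
    exact (ZMod.intCast_zmod_eq_zero_iff_dvd _ _).1 h0
  have hdf : (f.map φ).natDegree = f.natDegree :=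
    natDegree_map_of_leadingCoeff_ne_zero φ hlc
  have hf0 : f ≠ 0 := by
    rintro rfl
    exact hf (by rw [leadingCoeff_zero]; exact dvd_zero _)
  -- the resultant is not zero modulo `p`
  have hr : resultant f g ≠ 0 := by
    intro h0
    have h1 : resultant (f.map φ) (g.map φ) f.natDegree g.natDegree = 0 := by
      rw [resultant_map_map]
      have h2 : resultant f g f.natDegree g.natDegree = 0 := h0
      rw [h2, map_zero]
    obtain ⟨k, hk⟩ := Nat.exists_eq_add_of_le (natDegree_map_le (f := φ) (p := g))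
    rw [hk, resultant_add_right_deg _ _ _ _ k le_rfl, coeff_map] at h1
    rcases mul_eq_zero.1 h1 with h2 | h2
    · exact pow_ne_zero k hlc h2
    · rw [← hdf] at h2
      exact resultant_ne_zero _ _ hc h2
  have hQ : resultant (f.map (Int.castRingHom ℚ)) (g.map (Int.castRingHom ℚ)) ≠ 0 := by
    have hinj : Function.Injective (Int.castRingHom ℚ) := RingHom.injective_int _
    have h1 : resultant (f.map (Int.castRingHom ℚ)) (g.map (Int.castRingHom ℚ)) =
        Int.castRingHom ℚ (resultant f g) := by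
      rw [← resultant_map_map]
      rw [natDegree_map_eq_of_injective hinj, natDegree_map_eq_of_injective hinj]
    rw [h1]
    intro h2
    exact hr (hinj (by rw [h2, map_zero]))
  by_contra hcon
  apply hQ
  rw [resultant_eq_zero_iff]
  refine ⟨Or.inl ?_, hcon⟩
  intro h1
  apply hf0
  exact (Polynomial.map_eq_zero_iff (RingHom.injective_int _)).1 h1

private theorem gdif_leadingCoeff_h71 {v : ι × Fin (n + 1) → ℤ} {p : ℕ} {a b : ι}
    (h : ¬ (p : ℤ) ∣ v (a, Fin.last n) - v (b, Fin.last n)) :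
    ¬ (p : ℤ) ∣ (gdif v a b).leadingCoeff := by
  have h1 : (gdif v a b).coeff n = v (a, Fin.last n) - v (b, Fin.last n) :=
    gdif_coeff v a b (Fin.last n)
  have h2 : (gdif v a b).natDegree = n := by
    refine natDegree_eq_of_le_of_coeff_ne_zero (gdif_natDegree_le v a b) ?_
    rw [h1]
    intro h3
    exact h (by rw [h3]; exact dvd_zero _)
  rw [← coeff_natDegree, h2, h1]
  exact h

private theorem gdif_map_rat_h71 (v : ι × Fin (n + 1) → ℤ) (a b : ι) :
    (gdif v a b).map (Int.castRingHom ℚ) = gpolQ v a - gpolQ v b := by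
  rw [gdif_map]
  rfl

/-- (From modulo `p` to `ℚ`: the discriminant, `Polynomial.resultant`, or a Bezout relation; see
`separable_of_red14` in SpecB14.lean or TypA14.lean.) -/
theorem separable_of_gred {v : ι × Fin (n + 1) → ℤ} {p : ℕ} (hp : p.Prime) {a b : ι}
    (h : ¬ (p : ℤ) ∣ v (a, Fin.last n) - v (b, Fin.last n)) (hs : (gred p v a b).Separable) :
    (gpolQ v a - gpolQ v b).Separable := by
  rw [← gdif_map_rat_h71, Polynomial.Separable, derivative_map]
  refine isCoprime_of_red_h71 hp (gdif_leadingCoeff_h71 h) ?_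
  rw [← derivative_map]
  exact hs

/-- (A common root in `F` of two polynomials whose leading coefficients are prime to `p` gives a
common factor modulo `p`; or `Polynomial.resultant_map_map` and `Polynomial.resultant_eq_zero_iff`.) -/
theorem isCoprime_of_gred {v : ι × Fin (n + 1) → ℤ} {p : ℕ} (hp : p.Prime) {a b c d : ι}
    (h : ¬ (p : ℤ) ∣ v (a, Fin.last n) - v (b, Fin.last n))
    (h' : ¬ (p : ℤ) ∣ v (c, Fin.last n) - v (d, Fin.last n))
    (hs : IsCoprime (gred p v a b) (gred p v c d)) :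
    IsCoprime (gpolQ v a - gpolQ v b) (gpolQ v c - gpolQ v d) := by
  rw [← gdif_map_rat_h71, ← gdif_map_rat_h71]
  exact isCoprime_of_red_h71 hp (gdif_leadingCoeff_h71 h) hs

/-- The set of the roots of a separable difference. -/
theorem exists_roots [IsAlgClosure ℚ F] {v : ι × Fin (n + 1) → ℤ} {a b : ι}
    (hsep : (gpolQ v a - gpolQ v b).Separable) :
    ∃ R : Finset F, (∀ s, s ∈ R ↔ aeval s (gpolQ v a) = aeval s (gpolQ v b)) ∧
      (gdif v a b).map (algebraMap ℤ F) =
        C (algebraMap ℤ F (gdif v a b).leadingCoeff) * ∏ s ∈ R, (X - C s) := by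
  have _ : IsAlgClosed F := IsAlgClosure.isAlgClosed ℚ
  have _ : CharZero F := algebraRat.charZero F
  set f := gpolQ v a - gpolQ v b with hf
  have hf0 : f ≠ 0 := hsep.ne_zero
  have hm0 : f.map (algebraMap ℚ F) ≠ 0 := by
    rw [Polynomial.map_ne_zero_iff (algebraMap ℚ F).injective]
    exact hf0
  have hnd : (f.map (algebraMap ℚ F)).roots.Nodup := nodup_roots hsep.map
  have hmap : (gdif v a b).map (algebraMap ℤ F) = f.map (algebraMap ℚ F) := by
    rw [hf, ← gdif_map_rat, Polynomial.map_map, ← algebraMap_int_eq,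
      ← IsScalarTower.algebraMap_eq]
  refine ⟨(f.map (algebraMap ℚ F)).roots.toFinset, ?_, ?_⟩
  · intro s
    rw [Multiset.mem_toFinset, mem_roots hm0, IsRoot.def, eval_map_algebraMap, hf, map_sub,
      sub_eq_zero]
  · have hsplit : (f.map (algebraMap ℚ F)).Splits := IsAlgClosed.splits _
    have h1 := hsplit.eq_prod_roots
    have h2 : (f.map (algebraMap ℚ F)).leadingCoeff =
        algebraMap ℤ F (gdif v a b).leadingCoeff := by
      rw [← hmap, leadingCoeff_map_of_injective]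
      exact (algebraMap ℤ F).injective_int
    rw [hmap]
    conv_lhs => rw [h1]
    rw [h2, Finset.prod_multiset_map_count]
    congr 1
    refine Finset.prod_congr rfl fun s hs => ?_
    rw [Multiset.mem_toFinset] at hs
    rw [Multiset.count_eq_one_of_mem hnd hs, pow_one]

theorem nodes_gpolQ_finite [Finite ι] {v : ι × Fin (n + 1) → ℤ}
    (h : ∀ a b, a ≠ b → gpolQ v a ≠ gpolQ v b) : (nodes ℚ F (gpolQ v)).Finite := by
  have h1 : nodes ℚ F (gpolQ v) ⊆ ⋃ x : {x : ι × ι // x.1 ≠ x.2},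
      ((gpolQ v x.1.1 - gpolQ v x.1.2).rootSet F) := by
    rintro s ⟨a, b, hab, hs⟩
    rw [Set.mem_iUnion]
    refine ⟨⟨(a, b), hab⟩, ?_⟩
    rw [mem_rootSet]
    refine ⟨sub_ne_zero.mpr (h a b hab), ?_⟩
    rw [map_sub, sub_eq_zero]
    exact hs
  exact (Set.finite_iUnion fun x => rootSet_finite _ F).subset h1

theorem nodes_stable (α : ι → ℚ[X]) (σ : F ≃ₐ[ℚ] F) : ∀ s ∈ nodes ℚ F α, σ s ∈ nodes ℚ F α := by
  rintro s ⟨a, b, hab, hs⟩
  refine ⟨a, b, hab, ?_⟩
  have h1 : ∀ p : ℚ[X], aeval (σ s) p = σ (aeval s p) := fun p =>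
    aeval_algHom_apply (σ : F →ₐ[ℚ] F) s p
  rw [h1, h1, hs]

end Pool.Agent.Lib.MP_89bcae_ag

end

section

/-!
# Copies with couplings

`GoodW`: the operator of the families of `n` copies of an arrangement with different symbols `c a` of the
triples, the same symbols `β` of the pairs, and couplings `δ` of the parallel nodes has no eigenvector.
-/

open Polynomial

open scoped Classical

namespace Pool.Agent.Lib.MP_89bcae_ag

open Superelliptic

universe u

section

variable {ι : Type}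

/-- The set of two elements (with the classical decidability of equality: no instance arguments). -/
noncomputable def pr (i j : ι) : Finset ι := {i, j}

/-- The set of three elements. -/
noncomputable def tr (i j l : ι) : Finset ι := {i, j, l}

theorem mem_pr {i j x : ι} : x ∈ pr i j ↔ x = i ∨ x = j := by simp [pr]

theorem mem_tr {i j l x : ι} : x ∈ tr i j l ↔ x = i ∨ x = j ∨ x = l := by simp [tr]

/-- For every instance of `DecidableEq`. -/
theorem pr_eq [DecidableEq ι] (i j : ι) : pr i j = {i, j} := by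
  ext x
  rw [mem_pr]
  simp


theorem pr_comm (i j : ι) : pr i j = pr j i := by
  ext x
  rw [mem_pr, mem_pr, or_comm]

theorem pr_eq_pr {i j i' j' : ι} :
    pr i j = pr i' j' ↔ (i = i' ∧ j = j') ∨ (i = j' ∧ j = i') := by
  constructor
  · intro h
    have h1 : i ∈ pr i' j' := h ▸ mem_pr.2 (Or.inl rfl)
    have h2 : j ∈ pr i' j' := h ▸ mem_pr.2 (Or.inr rfl)
    have h3 : i' ∈ pr i j := h ▸ mem_pr.2 (Or.inl rfl)
    have h4 : j' ∈ pr i j := h ▸ mem_pr.2 (Or.inr rfl)
    rw [mem_pr] at h1 h2 h3 h4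
    rcases h1 with h1 | h1 <;> rcases h2 with h2 | h2 <;> rcases h3 with h3 | h3 <;>
      rcases h4 with h4 | h4 <;> subst_vars <;> simp
  · rintro (⟨rfl, rfl⟩ | ⟨rfl, rfl⟩)
    · rfl
    · exact pr_comm _ _

theorem tr_comm (i j l : ι) : tr i j l = tr j i l := by
  ext x
  rw [mem_tr, mem_tr, or_left_comm]


theorem card_pr {i j : ι} (h : i ≠ j) : (pr i j).card = 2 := Finset.card_pair h

theorem card_tr {i j l : ι} (hij : i ≠ j) (hil : i ≠ l) (hjl : j ≠ l) : (tr i j l).card = 3 :=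
  Finset.card_eq_three.2 ⟨i, j, l, hij, hil, hjl, rfl⟩

end

/-- The values of `ν` at the leading coefficients and at the differences of the nodes: copies with
couplings `δ`. -/
structure CopyW {A : Type*} [AddCommGroup A] {k F : Type u} [Field k] [Field F] [Algebra k F]
    {ι : Type} {n : ℕ} (ν : F → A) (α : ι → k[X]) (nd : ι → ι → Fin n → F) (β : Finset ι → A)
    (c : Fin n → Finset ι → A) (δ : Finset ι → Fin n → Fin n → A) : Prop where
  lead : ∀ i j, i ≠ j → ν (algebraMap k F (α i - α j).leadingCoeff) = β (pr i j)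
  par : ∀ i j, i ≠ j → ∀ a b, a ≠ b → ν (nd i j a - nd i j b) = δ (pr i j) a b
  adj : ∀ i j l, i ≠ j → j ≠ l → i ≠ l → ∀ a b, ν (nd i j a - nd i l b) =
    if a = b then c a (tr i j l) - β (pr i j) - β (pr i l) else 0

/-- The operator of the copies with couplings has no eigenvector modulo gradients. -/
def GoodW {ℓ : ℕ} {ι : Type} [Fintype ι] {n : ℕ} (w : ι → ZMod ℓ)
    (β : Finset ι → ZMod ℓ) (c : Fin n → Finset ι → ZMod ℓ)
    (δ : Finset ι → Fin n → Fin n → ZMod ℓ) : Prop :=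
  ∀ (x : Fin n → ι → ι → ZMod ℓ) (z : ZMod ℓ) (γ : ι → ZMod ℓ),
    (∀ a i j, i ≠ j → x a j i = -x a i j) →
    (∀ a i j, i ≠ j →
      (w i + w j) * (β (pr i j) * x a i j +
          ∑ b ∈ Finset.univ.filter (fun b => b ≠ a), δ (pr i j) a b * (x a i j - x b i j)) +
        ∑ l ∈ Finset.univ.filter (fun l => l ≠ i ∧ l ≠ j),
          w l * ((c a (tr i j l) - β (pr i j)) * x a i j -
            (c a (tr i j l) - β (pr i j) - β (pr i l)) * x a i l +
            (c a (tr i j l) - β (pr i j) - β (pr j l)) * x a j l) = z * x a i j + (γ i - γ j)) →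
    ∃ b : ι → ZMod ℓ, ∀ a i j, i ≠ j → x a i j = b i - b j

namespace Tri

variable {R : Type} [Field R]

/-- The sum of the coordinates. -/
def phi (X : Fin 3 → R) : R := X 0 + X 1 + X 2

/-- The operator of one triangle: the coordinates are those of the pairs `1 2`, `2 3`, `3 1`; `x`, `y` are
the symbols of the pairs `1 2`, `2 3` (that of `3 1` is zero), `c` that of the triangle. -/
def Tc (w₁ w₂ w₃ x y c : R) (X : Fin 3 → R) : Fin 3 → R :=
  ![(w₁ + w₂) * x * X 0 + w₃ * (c - x) * phi X - w₃ * y * X 1,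
    (w₂ + w₃) * y * X 1 + w₁ * (c - y) * phi X - w₁ * x * X 0,
    w₂ * c * phi X - w₂ * x * X 0 - w₂ * y * X 1]

/-- The polynomial of the operator on the gradients, at `z`. -/
def Lz (w₁ w₂ w₃ x y z : R) : R :=
  (z - (w₁ + w₂) * x) * (z - (w₂ + w₃) * y) - w₁ * w₃ * x * y

/-- The first coordinate vector. -/
def e0 : Fin 3 → R := ![1, 0, 0]

/-- The symmetric form. -/
def bf (w₁ w₂ w₃ : R) (X Y : Fin 3 → R) : R :=
  w₁ * w₂ * X 0 * Y 0 + w₂ * w₃ * X 1 * Y 1 + w₁ * w₃ * X 2 * Y 2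

/-- There are symbols `c a` and couplings `δ` of the first coordinates such that the operator of the copies
indexed by `κ` has no eigenvector. -/
def PW (κ : Type) [Fintype κ] (w₁ w₂ w₃ x y : R) : Prop :=
  ∃ (c : κ → R) (δ : κ → κ → R), (∀ a b, δ a b = δ b a) ∧ ∀ (X : κ → Fin 3 → R) (z : R),
    (∀ a, Tc w₁ w₂ w₃ x y (c a) (X a) + ((w₁ + w₂) * ∑ b, δ a b * (X a 0 - X b 0)) • e0 =
      z • X a) → ∀ a, X a = 0

end Tri

end Pool.Agent.Lib.MP_89bcae_ag

end

section

/-!
# Translations `t ↦ t + z` of the families of polynomials, and the scheme of the counting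
-/

open Polynomial

open scoped Classical

namespace Pool.Agent.Lib.MP_89bcae_ag

section

variable {ι : Type} {n : ℕ} {R : Type*} [CommRing R]

/-- The coefficients of the `α_i(t + z)`. -/
noncomputable def shift (z : R) (u : ι × Fin (n + 1) → R) : ι × Fin (n + 1) → R :=
  fun x => ((gpol u x.1).comp (X + C z)).coeff x.2

/-- (`natDegree_comp_le`, `gpol_natDegree_le`; `Polynomial.as_sum_range'`.) -/
theorem gpol_shift (z : R) (u : ι × Fin (n + 1) → R) (i : ι) :
    gpol (shift z u) i = (gpol u i).comp (X + C z) := by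
  have hdeg : ((gpol u i).comp (X + C z)).natDegree < n + 1 := by
    refine Nat.lt_succ_of_le (natDegree_comp_le.trans ?_)
    have h1 : (X + C z : R[X]).natDegree ≤ 1 := by
      refine (natDegree_add_le _ _).trans ?_
      rw [natDegree_C]
      exact max_le natDegree_X_le (Nat.zero_le _)
    calc (gpol u i).natDegree * (X + C z : R[X]).natDegree ≤ n * 1 :=
          Nat.mul_le_mul (gpol_natDegree_le u i) h1
      _ = n := mul_one n
  rw [Polynomial.as_sum_range' _ (n + 1) hdeg, Finset.sum_range]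
  unfold gpol shift
  refine Finset.sum_congr rfl fun j _ => ?_
  rw [C_mul_X_pow_eq_monomial]
  rfl

theorem gdif_shift (z : R) (u : ι × Fin (n + 1) → R) (a b : ι) :
    gdif (shift z u) a b = (gdif u a b).comp (X + C z) := by
  unfold gdif
  rw [gpol_shift, gpol_shift, sub_comp]

theorem shift_shift (z z' : R) (u : ι × Fin (n + 1) → R) : shift z (shift z' u) = shift (z + z') u := by
  funext x
  unfold shift
  rw [show gpol (fun x : ι × Fin (n + 1) => ((gpol u x.1).comp (X + C z')).coeff x.2) x.1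
    = (gpol u x.1).comp (X + C z') from gpol_shift z' u x.1, comp_assoc]
  congr 2
  rw [add_comp, X_comp, C_comp, add_assoc, ← C_add]

theorem shift_zero (u : ι × Fin (n + 1) → R) : shift 0 u = u := by
  funext x
  unfold shift
  rw [C_0, add_zero, comp_X, gpol_coeff]

end

section

variable {K : Type} [Field K]

theorem isCoprime_comp_iff (f g : K[X]) (z : K) :
    IsCoprime (f.comp (X + C z)) (g.comp (X + C z)) ↔ IsCoprime f g := by
  have key : ∀ (f g : K[X]) (z : K), IsCoprime f g →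
      IsCoprime (f.comp (X + C z)) (g.comp (X + C z)) := by
    rintro f g z ⟨a, b, h⟩
    refine ⟨a.comp (X + C z), b.comp (X + C z), ?_⟩
    rw [← mul_comp, ← mul_comp, ← add_comp, h, one_comp]
  refine ⟨fun h => ?_, key f g z⟩
  have h1 := key _ _ (-z) h
  have e : (X + C z : K[X]).comp (X + C (-z)) = X := by
    rw [add_comp, X_comp, C_comp, add_assoc, ← C_add, neg_add_cancel, C_0, add_zero]
  rwa [comp_assoc, comp_assoc, e, comp_X, comp_X] at h1

theorem separable_comp_iff (f : K[X]) (z : K) :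
    (f.comp (X + C z)).Separable ↔ f.Separable := by
  have e : derivative (f.comp (X + C z)) = (derivative f).comp (X + C z) := by
    rw [derivative_comp, derivative_add, derivative_X, derivative_C, add_zero, one_mul]
  rw [Polynomial.Separable, Polynomial.Separable, e]
  exact isCoprime_comp_iff f (derivative f) z

end

section

variable {ι : Type} [Fintype ι] {n : ℕ}

/-- The families with a point `z`: `p` times the number of those with the point `0`
(`(z, u) ↦ shift (-z) u` is a bijection from `ZMod p × {u | Gen u 0}` onto the set). -/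
theorem count_trans {p : ℕ} [Fact p.Prime]
    (Gen : (ι × Fin (n + 1) → ZMod p) → ZMod p → Prop)
    (hT : ∀ u z, Gen u z ↔ Gen (shift z u) 0) (hU : ∀ u z z', Gen u z → Gen u z' → z = z') :
    ({u | ∃ z, Gen u z}).ncard = p * ({u | Gen u 0}).ncard := by
  have hss : ∀ (z : ZMod p) (u : ι × Fin (n + 1) → ZMod p), shift z (shift (-z) u) = u := by
    intro z u
    rw [shift_shift, add_neg_cancel, shift_zero]
  have hGen : ∀ (z : ZMod p) (u : ι × Fin (n + 1) → ZMod p), Gen u 0 → Gen (shift (-z) u) z := by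
    intro z u hu
    rw [hT, hss]
    exact hu
  have himg : ({u | ∃ z, Gen u z} : Set (ι × Fin (n + 1) → ZMod p)) =
      (fun x : ZMod p × (ι × Fin (n + 1) → ZMod p) => shift (-x.1) x.2) ''
        ((Set.univ : Set (ZMod p)) ×ˢ {u | Gen u 0}) := by
    ext u
    constructor
    · rintro ⟨z, hz⟩
      refine ⟨(z, shift z u), ⟨Set.mem_univ _, (hT u z).mp hz⟩, ?_⟩
      change shift (-z) (shift z u) = u
      rw [shift_shift, neg_add_cancel, shift_zero]
    · rintro ⟨⟨z, u'⟩, ⟨-, hu'⟩, rfl⟩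
      exact ⟨z, hGen z u' hu'⟩
  have hinj : Set.InjOn (fun x : ZMod p × (ι × Fin (n + 1) → ZMod p) => shift (-x.1) x.2)
      ((Set.univ : Set (ZMod p)) ×ˢ {u | Gen u 0}) := by
    rintro ⟨z, u⟩ ⟨-, hu⟩ ⟨z', u'⟩ ⟨-, hu'⟩ hxy
    have hxy' : shift (-z) u = shift (-z') u' := hxy
    have h1 : Gen (shift (-z) u) z := hGen z u hu
    have h2 : Gen (shift (-z) u) z' := by
      rw [hxy']
      exact hGen z' u' hu'
    have h3 : z = z' := hU _ _ _ h1 h2
    subst h3
    have h4 := congrArg (shift z) hxy'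
    rw [hss, hss] at h4
    rw [h4]
  rw [himg, hinj.ncard_image, Set.ncard_prod, Set.ncard_univ, Nat.card_eq_fintype_card,
    ZMod.card]

/-- **The scheme of the counting.** With `N = card (ι × Fin (n + 1))`: `count_zeros` gives
`#{u | Δ(u) ≠ 0} ≥ p ^ N - D p ^ (N - 1)`; by `count_collapse` (with `P u = Gen p u 0`)
`#{u | Gen p u 0} p ^ 2 ≥ #{u | Δ(u) ≠ 0}`; by `count_trans` `#{u | ∃ z, Gen p u z} = p #{u | Gen p u 0}`;
by `half_lift` `2 #G ≥ #{u | ∃ z, Gen p u z} p ^ N`. Together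
`2 p #G ≥ p ^ N (p ^ N - D p ^ (N - 1)) ≥ p ^ (2 N) / 2` for `p ≥ 2 D`. -/
theorem count_scheme (s : ι × Fin (n + 1) → ι × Fin (n + 1)) (c₁ c₂ c : ι × Fin (n + 1))
    (hs : ∀ c, s (s c) = s c) (hs' : ∀ c, c ≠ c₁ → c ≠ c₂ → s c = c)
    (Δ : MvPolynomial (ι × Fin (n + 1)) ℤ) (hΔ : Δ ≠ 0)
    (Gen : ∀ p : ℕ, (ι × Fin (n + 1) → ZMod p) → ZMod p → Prop)
    (hT : ∀ p : ℕ, p.Prime → ∀ u z, Gen p u z ↔ Gen p (shift z u) 0)
    (hU : ∀ p : ℕ, p.Prime → ∀ u z z', Gen p u z → Gen p u z' → z = z')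
    (h0 : ∀ p : ℕ, p.Prime → ∀ u : ι × Fin (n + 1) → ZMod p,
      MvPolynomial.aeval u Δ ≠ 0 → Gen p (u ∘ s) 0)
    (G : ∀ p : ℕ, Set (ι × Fin (n + 1) → ZMod (p ^ 2)))
    (hG : ∀ p : ℕ, p.Prime → ∀ w, (∃ z, Gen p (redp p w) z) → w ∉ G p →
      Function.update w c (w c + (p : ZMod (p ^ 2))) ∈ G p) :
    ∃ P₀ : ℕ, ∀ p : ℕ, p.Prime → P₀ ≤ p →
      (1 / 4 : ℝ) / p * ((p ^ 2 : ℕ) : ℝ) ^ Fintype.card (ι × Fin (n + 1)) ≤ (G p).ncard := by
  obtain ⟨P₁, D, hD⟩ := count_zeros Δ hΔ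
  refine ⟨max P₁ (2 * D), fun p hp hpP => ?_⟩
  haveI : Fact p.Prime := ⟨hp⟩
  have hpos : 0 < p := hp.pos
  set N := Fintype.card (ι × Fin (n + 1)) with hN
  -- the nonzeros of the polynomial
  set Z : Set (ι × Fin (n + 1) → ZMod p) := {u | MvPolynomial.aeval u Δ = 0} with hZ
  set A : Set (ι × Fin (n + 1) → ZMod p) := {u | Gen p (u ∘ s) 0} with hA
  set B : Set (ι × Fin (n + 1) → ZMod p) := {u | Gen p u 0} with hB
  set E : Set (ι × Fin (n + 1) → ZMod p) := {u | ∃ z, Gen p u z} with hE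
  have h1 : Z.ncard * p ≤ D * p ^ N := hD p hp ((le_max_left _ _).trans hpP)
  have h2 : Zᶜ.ncard + Z.ncard = p ^ N := by
    rw [add_comm, Set.ncard_add_ncard_compl, Nat.card_eq_fintype_card, Fintype.card_fun,
      ZMod.card]
  have h3 : Zᶜ.ncard ≤ A.ncard := Set.ncard_le_ncard (fun u hu => h0 p hp u hu) (Set.toFinite _)
  have h4 : A.ncard ≤ p ^ 2 * B.ncard :=
    (count_collapse s c₁ c₂ hs hs' (fun u => Gen p u 0)).trans
      (Nat.mul_le_mul_left _ (Set.ncard_le_ncard (fun u hu => hu.2) (Set.toFinite _)))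
  have h5 : E.ncard = p * B.ncard := count_trans (Gen p) (hT p hp) (hU p hp)
  have h6 : E.ncard * p ^ N ≤ 2 * (G p).ncard :=
    half_lift hp E c (G p) (fun w hw hwG => by
      have h := hG p hp w hw hwG
      have e : ∀ (d1 d2 : DecidableEq (ι × Fin (n + 1))),
          @Function.update _ _ d1 w c (w c + (p : ZMod (p ^ 2))) =
            @Function.update _ _ d2 w c (w c + (p : ZMod (p ^ 2))) := fun d1 d2 => by
        rw [Subsingleton.elim d1 d2]
      exact (e _ _) ▸ h)
  -- the estimates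
  have hp2D : 2 * D ≤ p := (le_max_right _ _).trans hpP
  have hpR : (0 : ℝ) < p := by exact_mod_cast hpos
  have h1' : (Z.ncard : ℝ) * p ≤ D * (p : ℝ) ^ N := by exact_mod_cast h1
  have h2' : (Zᶜ.ncard : ℝ) + Z.ncard = (p : ℝ) ^ N := by exact_mod_cast h2
  have h34 : (Zᶜ.ncard : ℝ) ≤ (p : ℝ) ^ 2 * B.ncard := by exact_mod_cast h3.trans h4
  have h5' : (E.ncard : ℝ) = p * B.ncard := by exact_mod_cast h5
  have h6' : (E.ncard : ℝ) * (p : ℝ) ^ N ≤ 2 * (G p).ncard := by exact_mod_cast h6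
  have hD' : 2 * (D : ℝ) ≤ p := by exact_mod_cast hp2D
  have hpN : (0 : ℝ) < (p : ℝ) ^ N := pow_pos hpR N
  -- `2 #Z ≤ p ^ N`
  have h7 : 2 * (Z.ncard : ℝ) ≤ (p : ℝ) ^ N := by
    have h8 : 2 * (Z.ncard : ℝ) * p ≤ (p : ℝ) ^ N * p := by
      calc 2 * (Z.ncard : ℝ) * p = 2 * ((Z.ncard : ℝ) * p) := by ring
        _ ≤ 2 * (D * (p : ℝ) ^ N) := by linarith
        _ = (2 * (D : ℝ)) * (p : ℝ) ^ N := by ring
        _ ≤ p * (p : ℝ) ^ N := mul_le_mul_of_nonneg_right hD' hpN.le
        _ = (p : ℝ) ^ N * p := by ring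
    exact le_of_mul_le_mul_right h8 hpR
  -- `p ^ N ≤ 2 p ^ 2 #B`
  have h9 : (p : ℝ) ^ N ≤ 2 * ((p : ℝ) ^ 2 * B.ncard) := by linarith
  have h10 : (p : ℝ) ^ N * (p : ℝ) ^ N ≤ 4 * (p * (G p).ncard) := by
    calc (p : ℝ) ^ N * (p : ℝ) ^ N ≤ 2 * ((p : ℝ) ^ 2 * B.ncard) * (p : ℝ) ^ N :=
          mul_le_mul_of_nonneg_right h9 hpN.le
      _ = 2 * p * ((p * B.ncard) * (p : ℝ) ^ N) := by ring
      _ = 2 * p * ((E.ncard : ℝ) * (p : ℝ) ^ N) := by rw [h5']
      _ ≤ 2 * p * (2 * (G p).ncard) := mul_le_mul_of_nonneg_left h6' (by positivity)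
      _ = 4 * (p * (G p).ncard) := by ring
  have h11 : (((p ^ 2 : ℕ) : ℝ)) ^ N = (p : ℝ) ^ N * (p : ℝ) ^ N := by
    push_cast
    rw [← pow_mul, mul_comm 2 N, pow_mul, sq]
  rw [h11]
  calc (1 / 4 : ℝ) / p * ((p : ℝ) ^ N * (p : ℝ) ^ N)
      ≤ (1 / 4 : ℝ) / p * (4 * (p * (G p).ncard)) :=
        mul_le_mul_of_nonneg_left h10 (by positivity)
    _ = (G p).ncard := by field_simp

end

end Pool.Agent.Lib.MP_89bcae_ag

end

section

namespace Pool.Agent.Lib.MP_89bcae_ag.Tri

/-- **The pencil lemma.** Proof: call `y` bad at `z` if there is `x ≠ 0` with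
`T x + (y * B x u) • u = z • x`. By `h1`, `B x u ≠ 0` for such `x`. (a) For each `z` at most one `y` is bad: for
`x, y` and `x', y'` with the same `z`, `B (T x) x' = z B x x' - y (B x u) (B u x')` and
`B x (T x') = z B x x' - y' (B x' u) (B x u)` are equal (`hT`), `B u x' = B x' u`, so `y = y'`. (b) For the
`z₀, x₀, τ` of `h2` no `y` is bad: `B (T x) x₀ = z₀ B x x₀ - y (B x u) (B u x₀) = z₀ B x x₀` and
`B x (T x₀) = z₀ B x x₀ + τ B x u`, so `τ = 0` and `T x₀ = z₀ x₀`, contradiction to `h1`. (c) If all `y` were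
bad, at `Z y`, then `Z` is injective by (a), so surjective (`Finite.injective_iff_surjective`), but `z₀` is
not in the image. -/
theorem pencil {ℓ : ℕ} [Fact ℓ.Prime] {V : Type} [AddCommGroup V] [Module (ZMod ℓ) V] (T : V → V)
    (B : LinearMap.BilinForm (ZMod ℓ) V) (hB : ∀ x y, B x y = B y x)
    (hT : ∀ x y, B (T x) y = B x (T y)) (u : V)
    (h1 : ∀ (x : V) (z : ZMod ℓ), T x = z • x → B x u = 0 → x = 0)
    (h2 : ∃ (x : V) (z τ : ZMod ℓ), x ≠ 0 ∧ T x = z • x + τ • u ∧ B x u = 0) :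
    ∃ y : ZMod ℓ, ∀ (x : V) (z : ZMod ℓ), T x + (y * B x u) • u = z • x → x = 0 := by
  by_contra hcon
  push Not at hcon
  choose X Z hXZ hX0 using hcon
  -- nonvanishing of the coupling coordinate
  have hne : ∀ y, B (X y) u ≠ 0 := by
    intro y hy
    apply hX0 y
    refine h1 (X y) (Z y) ?_ hy
    have h := hXZ y
    rw [hy, mul_zero, zero_smul, add_zero] at h
    exact h
  have hT' : ∀ y, T (X y) = Z y • X y - (y * B (X y) u) • u := by
    intro y
    exact eq_sub_of_add_eq (hXZ y)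
  -- (a) injectivity
  have hinj : Function.Injective Z := by
    intro y y' hyy
    have h := hT (X y) (X y')
    rw [hT' y, hT' y', ← hyy] at h
    simp only [map_sub, map_smul, LinearMap.sub_apply, LinearMap.smul_apply, smul_eq_mul] at h
    rw [hB u (X y')] at h
    have h3 : (y - y') * (B (X y) u * B (X y') u) = 0 := by linear_combination -h
    rcases mul_eq_zero.1 h3 with h4 | h4
    · exact sub_eq_zero.1 h4
    · rcases mul_eq_zero.1 h4 with h5 | h5
      · exact absurd h5 (hne y)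
      · exact absurd h5 (hne y')
  -- (b) the value of `h2` is not attained
  obtain ⟨x₀, z₀, τ, hx0, hTx, hBx⟩ := h2
  have hsurj : Function.Surjective Z := Finite.injective_iff_surjective.1 hinj
  obtain ⟨y, hy⟩ := hsurj z₀
  have h := hT (X y) x₀
  rw [hT' y, hTx, hy] at h
  simp only [map_sub, map_add, map_smul, LinearMap.sub_apply, LinearMap.smul_apply, smul_eq_mul] at h
  rw [hB u x₀, hBx] at h
  have h3 : τ * B (X y) u = 0 := by linear_combination -h
  rcases mul_eq_zero.1 h3 with h4 | h4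
  · apply hx0
    refine h1 x₀ z₀ ?_ hBx
    rw [hTx, h4, zero_smul, add_zero]
  · exact hne y h4

end Pool.Agent.Lib.MP_89bcae_ag.Tri

end

section

namespace Pool.Agent.Lib.MP_89bcae_ag.Tri

variable {R : Type} [Field R] {w₁ w₂ w₃ x y : R}

/-- The value at `phi`: `t = (w₁ + w₂ + w₃) c - w₃ x - w₁ y`. (`simp [phi, Tc]; ring`.) -/
theorem phi_Tc (c : R) (X : Fin 3 → R) : phi (Tc w₁ w₂ w₃ x y c X) =
    ((w₁ + w₂ + w₃) * c - w₃ * x - w₁ * y) * phi X := by
  simp only [phi, Tc, Matrix.cons_val_zero, Matrix.cons_val_one, Matrix.cons_val]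
  ring

/-- Selfadjoint. -/
theorem bf_Tc (c : R) (X Y : Fin 3 → R) :
    bf w₁ w₂ w₃ (Tc w₁ w₂ w₃ x y c X) Y = bf w₁ w₂ w₃ X (Tc w₁ w₂ w₃ x y c Y) := by
  simp only [phi, Tc, bf, Matrix.cons_val_zero, Matrix.cons_val_one, Matrix.cons_val]
  ring

/-- No eigenvector of sum zero. Proof: `phi X = 0`, so the first two coordinates give
`(z - (w₁ + w₂) x) X₀ + w₃ y X₁ = 0`, `(z - (w₂ + w₃) y) X₁ + w₁ x X₀ = 0`; the determinant is `Lz`, so
`Lz X₀ = 0`, `Lz X₁ = 0`, and `X₂ = - X₀ - X₁`. -/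
theorem eq_zero_of_phi {c z : R} (hL : Lz w₁ w₂ w₃ x y z ≠ 0) {X : Fin 3 → R}
    (h : Tc w₁ w₂ w₃ x y c X = z • X) (h0 : phi X = 0) : X = 0 := by
  have e1 := congrFun h 0
  have e2 := congrFun h 1
  simp only [Tc, h0, Pi.smul_apply, smul_eq_mul, Matrix.cons_val_zero, Matrix.cons_val_one,
    Matrix.cons_val] at e1 e2
  have h1 : Lz w₁ w₂ w₃ x y z * X 0 = 0 := by
    unfold Lz
    linear_combination (-(z - (w₂ + w₃) * y)) * e1 + (w₃ * y) * e2
  have h2 : Lz w₁ w₂ w₃ x y z * X 1 = 0 := by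
    unfold Lz
    linear_combination (w₁ * x) * e1 - (z - (w₁ + w₂) * x) * e2
  have h3 : X 0 = 0 := (mul_eq_zero.1 h1).resolve_left hL
  have h4 : X 1 = 0 := (mul_eq_zero.1 h2).resolve_left hL
  have h5 : X 2 = 0 := by
    unfold phi at h0
    linear_combination h0 - h3 - h4
  funext i
  fin_cases i
  · exact h3
  · exact h4
  · exact h5

/-- The eigenvectors. Proof: `τ = ![w₃, w₁, w₂]` satisfies `Tc τ = t τ` and `phi τ = W`. Let
`Tc X = z X`; by `phi_Tc`, `(z - t) phi X = 0`. If `phi X = 0` then `X = 0` by `eq_zero_of_phi`, fine. Otherwise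
`z = t` and `X - (phi X / W) τ` is an eigenvector of sum zero, so it is `0`. -/
theorem eigenvector {c z : R} (hW : w₁ + w₂ + w₃ ≠ 0) (hL : Lz w₁ w₂ w₃ x y z ≠ 0)
    {X : Fin 3 → R} (h : Tc w₁ w₂ w₃ x y c X = z • X) :
    X = 0 ∨ z = (w₁ + w₂ + w₃) * c - w₃ * x - w₁ * y ∧
      X = (phi X / (w₁ + w₂ + w₃)) • ![w₃, w₁, w₂] := by
  by_cases h0 : phi X = 0
  · exact Or.inl (eq_zero_of_phi hL h h0)
  right
  have hz : z = (w₁ + w₂ + w₃) * c - w₃ * x - w₁ * y := by
    have e := phi_Tc (w₁ := w₁) (w₂ := w₂) (w₃ := w₃) (x := x) (y := y) c X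
    rw [h] at e
    have e' : phi (z • X) = z * phi X := by
      simp only [phi, Pi.smul_apply, smul_eq_mul]
      ring
    rw [e'] at e
    exact mul_right_cancel₀ h0 e
  refine ⟨hz, ?_⟩
  have hY : X - (phi X / (w₁ + w₂ + w₃)) • ![w₃, w₁, w₂] = 0 := by
    refine eq_zero_of_phi (c := c) hL ?_ ?_
    · have e1 := congrFun h 0
      have e2 := congrFun h 1
      have e3 := congrFun h 2
      set f := phi X / (w₁ + w₂ + w₃) with hf
      have hfX : phi X = f * (w₁ + w₂ + w₃) := by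
        rw [hf]
        field_simp
      have hP : phi (X - f • ![w₃, w₁, w₂]) = 0 := by
        have : phi (X - f • ![w₃, w₁, w₂]) = phi X - f * (w₁ + w₂ + w₃) := by
          simp only [phi, Pi.sub_apply, Pi.smul_apply, smul_eq_mul, Matrix.cons_val_zero,
            Matrix.cons_val_one, Matrix.cons_val]
          ring
        rw [this, hfX]
        ring
      simp only [Tc, hfX, Pi.smul_apply, smul_eq_mul, Matrix.cons_val_zero, Matrix.cons_val_one,
        Matrix.cons_val] at e1 e2 e3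
      funext i
      fin_cases i
      · simp only [Tc, hP, Pi.sub_apply, Pi.smul_apply, smul_eq_mul, Matrix.cons_val_zero,
          Matrix.cons_val_one, Matrix.cons_val, Fin.zero_eta]
        rw [hz] at e1 ⊢
        linear_combination e1
      · simp only [Tc, hP, Pi.sub_apply, Pi.smul_apply, smul_eq_mul, Matrix.cons_val_zero,
          Matrix.cons_val_one, Matrix.cons_val, Fin.mk_one]
        rw [hz] at e2 ⊢
        linear_combination e2
      · simp only [Tc, hP, Pi.sub_apply, Pi.smul_apply, smul_eq_mul, Matrix.cons_val_zero,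
          Matrix.cons_val_one, Matrix.cons_val, Fin.reduceFinMk]
        rw [hz] at e3 ⊢
        linear_combination e3
    · simp only [phi, Pi.sub_apply, Pi.smul_apply, smul_eq_mul, Matrix.cons_val_zero,
        Matrix.cons_val_one, Matrix.cons_val]
      field_simp
      ring
  exact sub_eq_zero.1 hY

/-- The solution of `(z₀ - T) X = s e0` for the `z₀` where the resolvent has a simple form. With
`z₀ = (w₂ + w₃) y - w₁ w₃ y / (w₁ + w₂)` and `t = W c - w₃ x - w₁ y ≠ z₀` there is `X` with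
`Tc X + s e0 = z₀ X` and `X₀ = (w₃ / W) s / (z₀ - t)`. Proof: `phi X = f := s / (z₀ - t)`, `X₀ = (w₃ / W) f`,
`X₁ = (w₁ (c - y) f - w₁ x X₀) / (z₀ - (w₂ + w₃) y)` (the denominator is `- w₁ w₃ y / (w₁ + w₂) ≠ 0`),
`X₂ = f - X₀ - X₁`; the second equation is the definition of `X₁`, the third follows from the other two and
`phi_Tc`; the first one: multiply by `z₀ - (w₂ + w₃) y`; `field_simp; ring` with
`c = (t + w₃ x + w₁ y) / W` (checked by computer). -/
theorem exists_resolvent {c s z₀ t : R} (h1 : w₁ ≠ 0) (h3 : w₃ ≠ 0) (h12 : w₁ + w₂ ≠ 0)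
    (hW : w₁ + w₂ + w₃ ≠ 0) (hy : y ≠ 0)
    (hz : z₀ = (w₂ + w₃) * y - w₁ * w₃ * y / (w₁ + w₂))
    (ht : t = (w₁ + w₂ + w₃) * c - w₃ * x - w₁ * y) (htz : z₀ ≠ t) :
    ∃ X : Fin 3 → R, Tc w₁ w₂ w₃ x y c X + s • e0 = z₀ • X ∧
      X 0 = w₃ / (w₁ + w₂ + w₃) * s / (z₀ - t) := by
  have hz' : (w₁ + w₂) * z₀ = w₂ * (w₁ + w₂ + w₃) * y := by
    rw [hz]
    field_simp
    ring
  obtain ⟨f, hf⟩ : ∃ f, (z₀ - t) * f = s :=
    ⟨s / (z₀ - t), mul_div_cancel₀ _ (sub_ne_zero.2 htz)⟩
  obtain ⟨A, hA⟩ : ∃ A, (w₁ + w₂ + w₃) * A = w₃ * f :=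
    ⟨w₃ * f / (w₁ + w₂ + w₃), mul_div_cancel₀ _ hW⟩
  obtain ⟨B, hB⟩ : ∃ B, w₃ * y * B = -((w₁ + w₂) * ((c - y) * f - x * A)) :=
    ⟨-((w₁ + w₂) * ((c - y) * f - x * A)) / (w₃ * y), mul_div_cancel₀ _ (mul_ne_zero h3 hy)⟩
  have e1 : (w₁ + w₂) * x * A + w₃ * (c - x) * f - w₃ * y * B + s = z₀ * A := by
    apply mul_left_cancel₀ hW
    subst ht
    linear_combination (-(w₁ + w₂ + w₃)) * hB - (w₁ + w₂ + w₃) * hf - z₀ * hA + f * hz'
  have e2 : (w₂ + w₃) * y * B + w₁ * (c - y) * f - w₁ * x * A = z₀ * B := by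
    apply mul_left_cancel₀ h12
    linear_combination w₁ * hB - B * hz'
  have e3 : w₂ * c * f - w₂ * x * A - w₂ * y * B = z₀ * (f - A - B) := by
    subst ht
    linear_combination -hf - e1 - e2
  have hphi : phi ![A, B, f - A - B] = f := by
    simp [phi]
  refine ⟨![A, B, f - A - B], ?_, ?_⟩
  · ext i
    fin_cases i
    · simpa [Tc, hphi, e0] using e1
    · simpa [Tc, hphi, e0] using e2
    · simpa [Tc, hphi, e0] using e3
  · have hne : z₀ - t ≠ 0 := sub_ne_zero.2 htz
    have : f = s / (z₀ - t) := by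
      rw [← hf, mul_div_cancel_left₀ _ hne]
    have h2 : A = w₃ * f / (w₁ + w₂ + w₃) := by
      rw [← hA, mul_div_cancel_left₀ _ hW]
    show A = _
    rw [h2, this]
    ring

end Pool.Agent.Lib.MP_89bcae_ag.Tri

end

section

namespace Pool.Agent.Lib.MP_89bcae_ag.Tri

/-- A form `m ^ 2 + D y ^ 2` with `D ≠ 0` has a nonsquare value. -/
theorem exists_nonsq_h72 {ℓ : ℕ} [Fact ℓ.Prime] (hℓ2 : ℓ ≠ 2) {D : ZMod ℓ} (hD : D ≠ 0) :
    ∃ m y : ZMod ℓ, ∀ s : ZMod ℓ, s ^ 2 ≠ m ^ 2 + D * y ^ 2 := by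
  by_cases hs : IsSquare D
  · obtain ⟨d, hd⟩ := hs
    have hd0 : d ≠ 0 := by
      intro h
      apply hD
      rw [hd, h, mul_zero]
    have hchar : ringChar (ZMod ℓ) ≠ 2 := by
      rw [ZMod.ringChar_zmod_n]
      exact hℓ2
    obtain ⟨r, hr⟩ := FiniteField.exists_nonsquare (F := ZMod ℓ) hchar
    obtain ⟨a, b, hab⟩ := ZMod.sq_add_sq ℓ r
    refine ⟨a, b / d, fun s hs => hr ⟨s, ?_⟩⟩
    have h1 : D * (b / d) ^ 2 = b ^ 2 := by
      rw [hd]
      field_simp
    rw [h1, hab] at hs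
    rw [← hs, sq]
  · refine ⟨0, 1, fun s h => hs ⟨s, ?_⟩⟩
    have h1 : (0 : ZMod ℓ) ^ 2 + D * 1 ^ 2 = D := by ring
    rw [h1] at h
    rw [← h, sq]

/-- Symbols of the pairs without eigenvectors on the gradients. Proof: with `A = w₁ + w₂`, `C = w₂ + w₃`,
`W = w₁ + w₂ + w₃`, `A C - w₁ w₃ = w₂ W`, `Lz = z ^ 2 - (A x + C y) z + w₂ W x y`. The discriminant is
`(A x + C y) ^ 2 - 4 w₂ W x y = m ^ 2 + D y ^ 2` where `m = A x + (C - 2 w₂ W / A) y` and
`D = 4 w₁ w₂ w₃ W / A ^ 2 ≠ 0`. There are `m, y` with `m ^ 2 + D y ^ 2` not a square: let `r` be a nonsquare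
(`FiniteField.exists_nonsquare`); if `D` is not a square take `m = 0`, `y = 1`; if `D = d ^ 2`,
`ZMod.sq_add_sq` gives `a ^ 2 + b ^ 2 = r`, take `m = a`, `y = b / d`. Then `x = (m - (C - 2 w₂ W / A) y) / A`.
A root `z` of `Lz` would give `(2 z - (A x + C y)) ^ 2 =` the discriminant. (`x ≠ 0` and `y ≠ 0` follow:
otherwise `Lz` has a root.) -/
theorem exists_xy {ℓ : ℕ} [Fact ℓ.Prime] (hℓ2 : ℓ ≠ 2) {w₁ w₂ w₃ : ZMod ℓ} (h1 : w₁ ≠ 0)
    (h2 : w₂ ≠ 0) (h3 : w₃ ≠ 0) (h12 : w₁ + w₂ ≠ 0) (hW : w₁ + w₂ + w₃ ≠ 0) :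
    ∃ x y : ZMod ℓ, x ≠ 0 ∧ y ≠ 0 ∧ ∀ z, Lz w₁ w₂ w₃ x y z ≠ 0 := by
  have h2' : (2 : ZMod ℓ) ≠ 0 := by
    intro h
    have h3 : ((2 : ℕ) : ZMod ℓ) = 0 := by exact_mod_cast h
    rw [ZMod.natCast_eq_zero_iff] at h3
    exact hℓ2 ((Nat.prime_dvd_prime_iff_eq Fact.out Nat.prime_two).1 h3)
  obtain ⟨A, hA⟩ : ∃ A, A = w₁ + w₂ := ⟨_, rfl⟩
  have hA0 : A ≠ 0 := by rw [hA]; exact h12
  have hD : (4 * w₁ * w₂ * w₃ * (w₁ + w₂ + w₃) / A ^ 2 : ZMod ℓ) ≠ 0 := by
    apply div_ne_zero _ (pow_ne_zero _ hA0)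
    have h4 : (4 : ZMod ℓ) ≠ 0 := by
      have : (4 : ZMod ℓ) = 2 * 2 := by norm_num
      rw [this]
      exact mul_ne_zero h2' h2'
    exact mul_ne_zero (mul_ne_zero (mul_ne_zero (mul_ne_zero h4 h1) h2) h3) hW
  obtain ⟨m, y, hmy⟩ := exists_nonsq_h72 hℓ2 hD
  obtain ⟨x, hx⟩ : ∃ x, x = (m - ((w₂ + w₃) - 2 * w₂ * (w₁ + w₂ + w₃) / A) * y) / A := ⟨_, rfl⟩
  have hm : m = A * x + ((w₂ + w₃) - 2 * w₂ * (w₁ + w₂ + w₃) / A) * y := by
    rw [hx]
    field_simp
    ring
  have key : ∀ z, Lz w₁ w₂ w₃ x y z ≠ 0 := by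
    intro z hz
    apply hmy (2 * z - (A * x + (w₂ + w₃) * y))
    have hz' : (z - A * x) * (z - (w₂ + w₃) * y) - w₁ * w₃ * x * y = 0 := by
      rw [hA]
      exact hz
    have e1 : (2 * z - (A * x + (w₂ + w₃) * y)) ^ 2 =
        (A * x - (w₂ + w₃) * y) ^ 2 + 4 * (w₁ * w₃ * x * y) := by
      linear_combination 4 * hz'
    have e2 : m ^ 2 + (4 * w₁ * w₂ * w₃ * (w₁ + w₂ + w₃) / A ^ 2) * y ^ 2 =
        (A * x - (w₂ + w₃) * y) ^ 2 + 4 * (w₁ * w₃ * x * y) := by
      rw [hm]
      have hw1 : w₁ = A - w₂ := by rw [hA]; ring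
      rw [hw1]
      field_simp
      ring
    rw [e1, e2]
  refine ⟨x, y, ?_, ?_, key⟩
  · intro h
    apply key 0
    rw [h]
    simp [Lz]
  · intro h
    apply key 0
    rw [h]
    simp [Lz]

end Pool.Agent.Lib.MP_89bcae_ag.Tri

end

section

/-!
# The number of the families of type B modulo `p ^ 2`
-/

open Polynomial

open scoped Classical

namespace Pool.Agent.Lib.MP_89bcae_ag

section

variable {ι : Type} {n : ℕ} {K : Type}

/-- Exactly one simple triple collision, at `z`: the conditions over a field. -/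
structure GenB [CommRing K] (i j l : ι) (u : ι × Fin (n + 1) → K) (z : K) : Prop where
  lead : ∀ a b, a ≠ b → u (a, Fin.last n) ≠ u (b, Fin.last n)
  sep : ∀ a b, a ≠ b → (gdif u a b).Separable
  cop : ∀ a b c d, a ≠ b → c ≠ d → ({a, b} : Set ι) ≠ {c, d} →
    ¬ ({a, b, c, d} : Set ι) ⊆ {i, j, l} → IsCoprime (gdif u a b) (gdif u c d)
  col : ∃ g h : K[X], gdif u i j = (X - C z) * g ∧ gdif u j l = (X - C z) * h ∧ IsCoprime g h

/-- The leading coefficients do not change. -/
theorem shift_last_h83 [Field K] (y : K) (u : ι × Fin (n + 1) → K) (a : ι) :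
    shift y u (a, Fin.last n) = u (a, Fin.last n) := by
  have h1 : shift y u (a, Fin.last n) = ((gpol u a).comp (X + C y)).coeff n := rfl
  have h2 : (gpol u a).coeff n = u (a, Fin.last n) := gpol_coeff u a (Fin.last n)
  rw [h1, ← h2, ← taylor_apply]
  rcases (gpol_natDegree_le u a).lt_or_eq with h | h
  · rw [coeff_eq_zero_of_natDegree_lt h, coeff_eq_zero_of_natDegree_lt]
    rw [natDegree_taylor]
    exact h
  · have h3 := coeff_taylor_natDegree (r := y) (f := gpol u a)
    rw [h] at h3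
    rw [h3, leadingCoeff, h]

/-- The conditions are transported by the translations. -/
theorem GenB.shift_h83 [Field K] {i j l : ι} {u : ι × Fin (n + 1) → K} {z : K} (y : K)
    (h : GenB i j l u z) : GenB i j l (shift y u) (z - y) := by
  refine ⟨fun a b hab => ?_, fun a b hab => ?_, fun a b c d hab hcd hne hss => ?_, ?_⟩
  · rw [shift_last_h83, shift_last_h83]
    exact h.lead a b hab
  · rw [gdif_shift, separable_comp_iff]
    exact h.sep a b hab
  · rw [gdif_shift, gdif_shift, isCoprime_comp_iff]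
    exact h.cop a b c d hab hcd hne hss
  · obtain ⟨g, k, hg, hk, hgk⟩ := h.col
    refine ⟨g.comp (X + C y), k.comp (X + C y), ?_, ?_, (isCoprime_comp_iff g k y).2 hgk⟩
    · rw [gdif_shift, hg, mul_comp, sub_comp, X_comp, C_comp, C_sub]
      ring
    · rw [gdif_shift, hk, mul_comp, sub_comp, X_comp, C_comp, C_sub]
      ring

/-- (`gdif_shift`; the leading coefficients do not change; `(X - C z).comp (X + C z) = X`.) -/
theorem GenB.shift_iff [Field K] (i j l : ι) (u : ι × Fin (n + 1) → K) (z : K) :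
    GenB i j l u z ↔ GenB i j l (shift z u) 0 := by
  constructor
  · intro h
    have h' := h.shift_h83 z
    rwa [sub_self] at h'
  · intro h
    have h' := h.shift_h83 (-z)
    rwa [shift_shift, neg_add_cancel, shift_zero, zero_sub, neg_neg] at h'

/-- (`z'` is a root of `gdif u i j` and `gdif u j l`; if `z' ≠ z`, of the coprime `g`, `h`.) -/
theorem GenB.unique [Field K] {i j l : ι} {u : ι × Fin (n + 1) → K} {z z' : K} (h : GenB i j l u z)
    (h' : GenB i j l u z') : z = z' := by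
  obtain ⟨g, k, hg, hk, a, b, hab⟩ := h.col
  obtain ⟨g', k', hg', hk', -⟩ := h'.col
  by_contra hne
  have hzz : z' - z ≠ 0 := sub_ne_zero.2 (Ne.symm hne)
  have h1 : (z' - z) * g.eval z' = 0 := by
    have := congrArg (fun q : K[X] => q.eval z') (hg.symm.trans hg')
    simpa using this
  have h2 : (z' - z) * k.eval z' = 0 := by
    have := congrArg (fun q : K[X] => q.eval z') (hk.symm.trans hk')
    simpa using this
  have h3 : g.eval z' = 0 := (mul_eq_zero.1 h1).resolve_left hzz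
  have h4 : k.eval z' = 0 := (mul_eq_zero.1 h2).resolve_left hzz
  have h5 := congrArg (fun q : K[X] => q.eval z') hab
  simp [h3, h4] at h5

end

section

variable {ι : Type} {n : ℕ}

/-- The constant coefficients of `α_j` and `α_l` are replaced by that of `α_i`. -/
noncomputable def colB (i j l : ι) : ι × Fin (n + 1) → ι × Fin (n + 1) :=
  fun c => if c = (j, 0) ∨ c = (l, 0) then (i, 0) else c

lemma spec_gdif_h95 {K : Type} [Field K] (s : ι × Fin (n + 1) → ι × Fin (n + 1))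
    (u : ι × Fin (n + 1) → K) (a b : ι) :
    spec u (gdif (fun c => (MvPolynomial.X (s c) : MvPolynomial (ι × Fin (n + 1)) ℤ)) a b) =
      gdif (u ∘ s) a b := by
  unfold spec
  rw [gdif_map]
  congr 1
  funext c
  exact MvPolynomial.aeval_X u (s c)

lemma spec_divX_h95 {κ K : Type} [Field K] (u : κ → K) (f : (MvPolynomial κ ℤ)[X]) :
    spec u (divX f) = divX (spec u f) := by
  unfold spec
  ext k
  rw [coeff_map, coeff_divX, coeff_divX, coeff_map]

lemma divX_X_mul_h95 (g : ℚ[X]) : divX (X * g) = g := by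
  ext k
  rw [coeff_divX, coeff_X_mul]

/-- the point given by a family of polynomials -/
noncomputable def ptp_h95 (n : ℕ) (f : ι → ℚ[X]) : ι × Fin (n + 1) → ℚ :=
  fun x => (f x.1).coeff (x.2 : ℕ)

lemma gpol_ptp_h95 (f : ι → ℚ[X]) (hf : ∀ y, (f y).natDegree ≤ n) (y : ι) :
    gpol (ptp_h95 n f) y = f y := by
  ext k
  by_cases hk : k < n + 1
  · exact gpol_coeff (n := n) (ptp_h95 n f) y ⟨k, hk⟩
  · rw [coeff_eq_zero_of_natDegree_lt, coeff_eq_zero_of_natDegree_lt]
    · exact lt_of_le_of_lt (hf y) (by omega)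
    · exact lt_of_le_of_lt (gpol_natDegree_le _ _) (by omega)

lemma ptp_colB_h95 (f : ι → ℚ[X]) {i j l : ι} (h1 : (f j).coeff 0 = (f i).coeff 0)
    (h2 : (f l).coeff 0 = (f i).coeff 0) : ptp_h95 n f ∘ colB i j l = ptp_h95 n f := by
  funext c
  simp only [Function.comp, colB]
  split_ifs with hc
  · rcases hc with rfl | rfl
    · simp [ptp_h95, h1]
    · simp [ptp_h95, h2]
  · rfl

lemma spec_ptp_h95 (f : ι → ℚ[X]) (hf : ∀ y, (f y).natDegree ≤ n) {i j l : ι}
    (h1 : (f j).coeff 0 = (f i).coeff 0) (h2 : (f l).coeff 0 = (f i).coeff 0) (a b : ι) :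
    spec (ptp_h95 n f) (gdif (fun c => (MvPolynomial.X (colB i j l c) :
      MvPolynomial (ι × Fin (n + 1)) ℤ)) a b) = f a - f b := by
  rw [spec_gdif_h95, ptp_colB_h95 f h1 h2]
  unfold gdif
  rw [gpol_ptp_h95 f hf, gpol_ptp_h95 f hf]

lemma cop_lin_h95 (m : ℕ) (A B A' B' : ℚ) (hD : A * B' - A' * B ≠ 0) :
    IsCoprime (C A * X ^ m + C B) (C A' * X ^ m + C B') := by
  refine ⟨C (-A' / (A * B' - A' * B)), C (A / (A * B' - A' * B)), ?_⟩
  have h1 : -A' / (A * B' - A' * B) * A + A / (A * B' - A' * B) * A' = 0 := by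
    field_simp
    ring
  have h2 : -A' / (A * B' - A' * B) * B + A / (A * B' - A' * B) * B' = 1 := by
    field_simp
    ring
  calc _ = C (-A' / (A * B' - A' * B) * A + A / (A * B' - A' * B) * A') * X ^ m +
        C (-A' / (A * B' - A' * B) * B + A / (A * B' - A' * B) * B') := by
        simp only [C_add, C_mul]
        ring
    _ = 1 := by
        rw [h1, h2]
        simp

lemma sep_h95 (hn : 2 ≤ n) (c : ℚ) (hc : c ≠ 0) : (C c * (X ^ n - X) : ℚ[X]).Separable := by
  obtain ⟨k, rfl⟩ : ∃ k, n = k + 2 := ⟨n - 2, by omega⟩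
  have hk : ((k : ℚ) + 1) ≠ 0 := by positivity
  have hd : derivative (C c * (X ^ (k + 2) - X) : ℚ[X]) =
      C c * (C ((k : ℚ) + 2) * X ^ (k + 1) - 1) := by
    rw [derivative_C_mul, derivative_sub, derivative_X_pow, derivative_X]
    congr 2
    · push_cast
      rfl
  unfold Separable
  rw [hd]
  refine ⟨C (1 / c * (-(((k : ℚ) + 2) ^ 2 / (k + 1)))) * X ^ k,
    C (1 / c) * (C (((k : ℚ) + 2) / (k + 1)) * X ^ (k + 1) - 1), ?_⟩
  have h1 : (C (1 / c) * C c : ℚ[X]) = 1 := by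
    rw [← C_mul, one_div_mul_cancel hc, C_1]
  have h2 : (C (-(((k : ℚ) + 2) ^ 2 / (k + 1))) + C ((k : ℚ) + 2) * C (((k : ℚ) + 2) / (k + 1)) :
      ℚ[X]) = 0 := by
    rw [← C_mul, ← C_add, ← C_0]
    congr 1
    field_simp
    ring
  have h3 : (-C (-(((k : ℚ) + 2) ^ 2 / (k + 1))) - C (((k : ℚ) + 2) / (k + 1)) -
      C ((k : ℚ) + 2) : ℚ[X]) = 0 := by
    rw [← C_neg, ← C_sub, ← C_sub, ← C_0]
    congr 1
    field_simp
    ring
  rw [C_mul]
  have e1 : (X : ℚ[X]) ^ (k + 2) = X ^ k * X ^ 2 := by rw [pow_add]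
  have e2 : (X : ℚ[X]) ^ (k + 1) = X ^ k * X := by rw [pow_succ]
  rw [e1, e2]
  linear_combination (X ^ k * X ^ k * X ^ 2 * (C (1 / c) * C c)) * h2 +
    (X ^ k * X * (C (1 / c) * C c)) * h3 + h1

lemma natDegree_f_h95 (m : ℕ) (A B : ℚ) : (C A * X ^ m + C B : ℚ[X]).natDegree ≤ m := by
  refine (natDegree_add_le _ _).trans (max_le (natDegree_C_mul_X_pow_le _ _) ?_)
  rw [natDegree_C]
  exact Nat.zero_le _

lemma gen_lead_h95 [Fintype ι] (hn : 2 ≤ n) (i j l : ι) :
    IsGeneric (fun (K : Type) [Field K] (u : ι × Fin (n + 1) → K) =>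
      ∀ t : ι × ι, t.1 ≠ t.2 → (u ∘ colB i j l) (t.1, Fin.last n) ≠
        (u ∘ colB i j l) (t.2, Fin.last n)) := by
  have hlast : ∀ a : ι, colB i j l (a, Fin.last n) = (a, Fin.last n) := by
    intro a
    unfold colB
    rw [if_neg]
    have h0 : Fin.last n ≠ 0 := by
      intro h
      have := congrArg Fin.val h
      simp at this
      omega
    rintro (h | h)
    · exact h0 (congrArg Prod.snd h)
    · exact h0 (congrArg Prod.snd h)
  refine IsGeneric.all (C := fun (t : ι × ι) (K : Type) [Field K] (u : ι × Fin (n + 1) → K) =>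
    t.1 ≠ t.2 → (u ∘ colB i j l) (t.1, Fin.last n) ≠ (u ∘ colB i j l) (t.2, Fin.last n)) ?_
  intro t
  by_cases ht : t.1 = t.2
  · exact IsGeneric.true.mono fun K _ u _ h => absurd ht h
  · refine (isGeneric_ne (MvPolynomial.X (t.1, Fin.last n) - MvPolynomial.X (t.2, Fin.last n))
      ⟨fun c => if c.1 = t.1 then 1 else 0, ?_⟩).mono ?_
    · rw [map_sub, MvPolynomial.aeval_X, MvPolynomial.aeval_X]
      simp [Ne.symm ht]
    · intro K _ u h _ h'
      apply h
      rw [map_sub, MvPolynomial.aeval_X, MvPolynomial.aeval_X]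
      simp only [Function.comp, hlast] at h'
      rw [h', sub_self]

lemma gen_sep_h95 [Fintype ι] (hn : 2 ≤ n) (i j l : ι) :
    IsGeneric (fun (K : Type) [Field K] (u : ι × Fin (n + 1) → K) =>
      ∀ t : ι × ι, t.1 ≠ t.2 → (gdif (u ∘ colB i j l) t.1 t.2).Separable) := by
  refine IsGeneric.all (C := fun (t : ι × ι) (K : Type) [Field K] (u : ι × Fin (n + 1) → K) =>
    t.1 ≠ t.2 → (gdif (u ∘ colB i j l) t.1 t.2).Separable) ?_
  intro t
  by_cases ht : t.1 = t.2
  · exact IsGeneric.true.mono fun K _ u _ h => absurd ht h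
  · set lam : ι → ℚ := fun y => if y = t.1 then 1 else 0 with hlam
    have hc : lam t.1 - lam t.2 ≠ 0 := by
      simp [hlam, Ne.symm ht]
    set f : ι → ℚ[X] := fun y => C (lam y) * (X ^ n - X) with hf
    have hdeg : ∀ y, (f y).natDegree ≤ n := by
      intro y
      refine (natDegree_C_mul_le _ _).trans ((natDegree_sub_le _ _).trans (max_le ?_ ?_))
      · rw [natDegree_X_pow]
      · rw [natDegree_X]
        omega
    have h0 : ∀ y, (f y).coeff 0 = 0 := by
      intro y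
      simp only [hf, coeff_C_mul, coeff_sub, coeff_X_zero, coeff_X_pow]
      rw [if_neg (by omega)]
      simp
    have hsp : spec (ptp_h95 n f) (gdif (fun c => (MvPolynomial.X (colB i j l c) :
        MvPolynomial (ι × Fin (n + 1)) ℤ)) t.1 t.2) = C (lam t.1 - lam t.2) * (X ^ n - X) := by
      rw [spec_ptp_h95 f hdeg (by rw [h0, h0]) (by rw [h0, h0])]
      simp only [hf, C_sub]
      ring
    refine (isGeneric_separable (gdif (fun c => (MvPolynomial.X (colB i j l c) :
        MvPolynomial (ι × Fin (n + 1)) ℤ)) t.1 t.2) n (gdif_natDegree_le _ _ _)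
        (ptp_h95 n f) ?_ ?_).mono ?_
    · rw [hsp, coeff_C_mul, coeff_sub, coeff_X_pow, if_pos rfl, coeff_X, if_neg (by omega),
        sub_zero, mul_one]
      exact hc
    · rw [hsp]
      exact sep_h95 hn _ hc
    · intro K _ u h _
      rw [← spec_gdif_h95]
      exact h.2

lemma gen_col_h95 [Fintype ι] (hn : 2 ≤ n) {i j l : ι} (hij : i ≠ j) (hjl : j ≠ l) (hil : i ≠ l) :
    IsGeneric (fun (K : Type) [Field K] (u : ι × Fin (n + 1) → K) =>
      IsCoprime (divX (gdif (u ∘ colB i j l) i j)) (divX (gdif (u ∘ colB i j l) j l))) := by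
  obtain ⟨m, rfl⟩ : ∃ m, n = m + 1 := ⟨n - 1, by omega⟩
  set f : ι → ℚ[X] := fun y => if y = i then X ^ (m + 1) else if y = l then -(X ^ (m + 1)) - X
    else 0 with hf
  have hdeg : ∀ y, (f y).natDegree ≤ m + 1 := by
    intro y
    simp only [hf]
    split_ifs
    · rw [natDegree_X_pow]
    · refine (natDegree_sub_le _ _).trans (max_le ?_ ?_)
      · rw [natDegree_neg, natDegree_X_pow]
      · rw [natDegree_X]
        omega
    · simp
  have h0 : ∀ y, (f y).coeff 0 = 0 := by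
    intro y
    simp only [hf]
    split_ifs
    · simp [coeff_X_pow]
    · simp [coeff_X_pow]
    · simp
  have hfi : f i = X * X ^ m := by
    simp only [hf, if_pos]
    rw [pow_succ]
    ring
  have hfj : f j = 0 := by
    simp only [hf, if_neg hij.symm, if_neg hjl]
  have hfl : f l = -(X * (X ^ m + 1)) := by
    simp only [hf, if_neg hil.symm, if_pos]
    rw [pow_succ]
    ring
  have hsp : ∀ a b, spec (ptp_h95 (m + 1) f) (gdif (fun c => (MvPolynomial.X (colB i j l c) :
        MvPolynomial (ι × Fin (m + 1 + 1)) ℤ)) a b) = f a - f b := fun a b =>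
    spec_ptp_h95 f hdeg (by rw [h0, h0]) (by rw [h0, h0]) a b
  have hs1 : spec (ptp_h95 (m + 1) f) (divX (gdif (fun c => (MvPolynomial.X (colB i j l c) :
        MvPolynomial (ι × Fin (m + 1 + 1)) ℤ)) i j)) = X ^ m := by
    rw [spec_divX_h95, hsp, hfi, hfj, sub_zero, divX_X_mul_h95]
  have hs2 : spec (ptp_h95 (m + 1) f) (divX (gdif (fun c => (MvPolynomial.X (colB i j l c) :
        MvPolynomial (ι × Fin (m + 1 + 1)) ℤ)) j l)) = X ^ m + 1 := by
    rw [spec_divX_h95, hsp, hfj, hfl, zero_sub, neg_neg, divX_X_mul_h95]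
  refine (isGeneric_isCoprime (divX (gdif (fun c => (MvPolynomial.X (colB i j l c) :
        MvPolynomial (ι × Fin (m + 1 + 1)) ℤ)) i j)) (divX (gdif (fun c =>
        (MvPolynomial.X (colB i j l c) : MvPolynomial (ι × Fin (m + 1 + 1)) ℤ)) j l)) m m ?_ ?_
        (ptp_h95 (m + 1) f) ?_ ?_).mono ?_
  · rw [natDegree_divX_eq_natDegree_tsub_one]
    have := gdif_natDegree_le (n := m + 1) (fun c => (MvPolynomial.X (colB i j l c) :
        MvPolynomial (ι × Fin (m + 1 + 1)) ℤ)) i j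
    omega
  · rw [natDegree_divX_eq_natDegree_tsub_one]
    have := gdif_natDegree_le (n := m + 1) (fun c => (MvPolynomial.X (colB i j l c) :
        MvPolynomial (ι × Fin (m + 1 + 1)) ℤ)) j l
    omega
  · rw [hs1, coeff_X_pow, if_pos rfl]
    exact one_ne_zero
  · rw [hs1, hs2]
    exact ⟨-1, 1, by ring⟩
  · intro K _ u h
    rw [← spec_gdif_h95, ← spec_gdif_h95, ← spec_divX_h95, ← spec_divX_h95]
    exact h.2

lemma cop_num_h95 (lam : ι → ℚ) (hlam : Function.Injective lam) {a b c d x : ι} (hab : a ≠ b)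
    (hcd : c ≠ d) (hne : ({a, b} : Set ι) ≠ {c, d}) (hx : x = a ∨ x = b ∨ x = c ∨ x = d) :
    (lam a - lam b) * ((if c = x then 1 else 0) - (if d = x then 1 else 0)) -
      (lam c - lam d) * ((if a = x then 1 else 0) - (if b = x then 1 else 0)) ≠ (0 : ℚ) := by
  have h1 : lam a - lam b ≠ 0 := fun h => hab (hlam (sub_eq_zero.1 h))
  have h2 : lam c - lam d ≠ 0 := fun h => hcd (hlam (sub_eq_zero.1 h))
  by_cases ha : a = x
  · have hb : ¬ b = x := fun h => hab (ha.trans h.symm)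
    rw [if_pos ha, if_neg hb]
    by_cases hc : c = x
    · have hd : ¬ d = x := fun h => hcd (hc.trans h.symm)
      rw [if_pos hc, if_neg hd]
      intro h
      have hbd : b = d := by
        apply hlam
        rw [ha, hc] at h
        linarith
      apply hne
      rw [ha, hc, hbd]
    · by_cases hd : d = x
      · rw [if_neg hc, if_pos hd]
        intro h
        have hbc : b = c := by
          apply hlam
          rw [ha, hd] at h
          linarith
        apply hne
        rw [ha, hd, hbc, Set.pair_comm]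
      · rw [if_neg hc, if_neg hd]
        intro h
        apply h2
        linarith
  · by_cases hb : b = x
    · rw [if_neg ha, if_pos hb]
      by_cases hc : c = x
      · have hd : ¬ d = x := fun h => hcd (hc.trans h.symm)
        rw [if_pos hc, if_neg hd]
        intro h
        have had : a = d := by
          apply hlam
          rw [hb, hc] at h
          linarith
        apply hne
        rw [hb, hc, had, Set.pair_comm]
      · by_cases hd : d = x
        · rw [if_neg hc, if_pos hd]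
          intro h
          have hac : a = c := by
            apply hlam
            rw [hb, hd] at h
            linarith
          apply hne
          rw [hb, hd, hac]
        · rw [if_neg hc, if_neg hd]
          intro h
          apply h2
          linarith
    · rw [if_neg ha, if_neg hb]
      have hcd' : x = c ∨ x = d := by
        rcases hx with h | h | h | h
        · exact absurd h.symm ha
        · exact absurd h.symm hb
        · exact Or.inl h
        · exact Or.inr h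
      rcases hcd' with h | h
      · have hd : ¬ d = x := fun h' => hcd (h.symm.trans h'.symm)
        rw [if_pos h.symm, if_neg hd]
        intro h'
        apply h1
        linarith
      · have hc : ¬ c = x := fun h' => hcd (h'.trans h)
        rw [if_neg hc, if_pos h.symm]
        intro h'
        apply h1
        linarith

lemma gen_cop_h95 [Fintype ι] (hn : 2 ≤ n) (i j l : ι) :
    IsGeneric (fun (K : Type) [Field K] (u : ι × Fin (n + 1) → K) =>
      ∀ t : (ι × ι) × (ι × ι), t.1.1 ≠ t.1.2 → t.2.1 ≠ t.2.2 →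
        ({t.1.1, t.1.2} : Set ι) ≠ {t.2.1, t.2.2} →
        ¬ ({t.1.1, t.1.2, t.2.1, t.2.2} : Set ι) ⊆ {i, j, l} →
        IsCoprime (gdif (u ∘ colB i j l) t.1.1 t.1.2) (gdif (u ∘ colB i j l) t.2.1 t.2.2)) := by
  refine IsGeneric.all (C := fun (t : (ι × ι) × (ι × ι)) (K : Type) [Field K]
    (u : ι × Fin (n + 1) → K) => t.1.1 ≠ t.1.2 → t.2.1 ≠ t.2.2 →
        ({t.1.1, t.1.2} : Set ι) ≠ {t.2.1, t.2.2} →
        ¬ ({t.1.1, t.1.2, t.2.1, t.2.2} : Set ι) ⊆ {i, j, l} →
        IsCoprime (gdif (u ∘ colB i j l) t.1.1 t.1.2) (gdif (u ∘ colB i j l) t.2.1 t.2.2)) ?_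
  rintro ⟨⟨a, b⟩, ⟨c, d⟩⟩
  by_cases hyp : a ≠ b ∧ c ≠ d ∧ ({a, b} : Set ι) ≠ {c, d} ∧
      ¬ ({a, b, c, d} : Set ι) ⊆ {i, j, l}
  swap
  · exact IsGeneric.true.mono fun K _ u _ h1 h2 h3 h4 => absurd ⟨h1, h2, h3, h4⟩ hyp
  obtain ⟨hab, hcd, hne, hsub⟩ := hyp
  obtain ⟨x, hx, hxn⟩ := Set.not_subset.1 hsub
  have hx' : x = a ∨ x = b ∨ x = c ∨ x = d := by simpa using hx
  have hxi : ¬ i = x := by
    rintro rfl
    exact hxn (by simp)
  have hxj : ¬ j = x := by
    rintro rfl
    exact hxn (by simp)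
  have hxl : ¬ l = x := by
    rintro rfl
    exact hxn (by simp)
  obtain ⟨lam, hlam⟩ : ∃ lam : ι → ℚ, Function.Injective lam := by
    refine ⟨fun y => (((Fintype.equivFin ι y : Fin (Fintype.card ι)) : ℕ) : ℚ), ?_⟩
    intro y y' h
    apply (Fintype.equivFin ι).injective
    apply Fin.ext
    exact Nat.cast_injective (R := ℚ) h
  set f : ι → ℚ[X] := fun y => C (lam y) * X ^ n + C (if y = x then 1 else 0) with hf
  have hdeg : ∀ y, (f y).natDegree ≤ n := fun y => natDegree_f_h95 n _ _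
  have h0 : ∀ y, ¬ y = x → (f y).coeff 0 = 0 := by
    intro y hy
    simp only [hf, if_neg hy, coeff_add, coeff_C_mul, coeff_X_pow, C_0, coeff_zero]
    rw [if_neg (by omega)]
    simp
  have hsp : ∀ y z, spec (ptp_h95 n f) (gdif (fun c => (MvPolynomial.X (colB i j l c) :
        MvPolynomial (ι × Fin (n + 1)) ℤ)) y z) = C (lam y - lam z) * X ^ n +
        C ((if y = x then 1 else 0) - (if z = x then 1 else 0)) := by
    intro y z
    rw [spec_ptp_h95 f hdeg (by rw [h0 j hxj, h0 i hxi]) (by rw [h0 l hxl, h0 i hxi])]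
    simp only [hf, C_sub]
    ring
  refine (isGeneric_isCoprime (gdif (fun c => (MvPolynomial.X (colB i j l c) :
        MvPolynomial (ι × Fin (n + 1)) ℤ)) a b) (gdif (fun c => (MvPolynomial.X (colB i j l c) :
        MvPolynomial (ι × Fin (n + 1)) ℤ)) c d) n n (gdif_natDegree_le _ _ _)
        (gdif_natDegree_le _ _ _) (ptp_h95 n f) ?_ ?_).mono ?_
  · rw [hsp, coeff_add, coeff_C_mul, coeff_X_pow, if_pos rfl, coeff_C, if_neg (by omega), add_zero,
      mul_one]
    exact fun h => hab (hlam (sub_eq_zero.1 h))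
  · rw [hsp, hsp]
    exact cop_lin_h95 n _ _ _ _ (cop_num_h95 lam hlam hab hcd hne hx')
  · intro K _ u h _ _ _ _
    rw [← spec_gdif_h95, ← spec_gdif_h95]
    exact h.2

/-- The generic condition. By `IsGeneric.all`, `IsGeneric.and`: (lead) the polynomial
`X_(a,n) - X_(b,n)`. For the other ones, the polynomials are `gdif (MvPolynomial.X ∘ s) a b` over
`MvPolynomial κ ℤ` (`gdif_map`: their values at `u` are the `gdif (u ∘ s) a b`), and it is enough to
find for every condition one rational point `u₀` with `u₀ ∘ s = u₀` where it holds. (sep): all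
`α_y = λ_y (X ^ n - X)` with an injective `λ : ι → ℚ`. (cop): there is `x ∉ {i, j, l}` with
`x ∈ {a, b, c, d}`: take `α_y = λ_y X ^ n` for `y ≠ x` and `α_x = λ_x X ^ n + 1`; two differences
`A X ^ n + B` and `A' X ^ n + B'` with `A ≠ 0` and `A B' ≠ A' B` are coprime, and
`A B' - A' B = ± (λ - λ')` for two different indices. (col): `α_i = X ^ n`, `α_j = 0`,
`α_l = -X ^ n - X` (and anything for the others): `gdif i j = X * X ^ (n - 1)`,
`gdif j l = X * (X ^ (n - 1) + 1)`; use `divX` (`Polynomial.divX`) for the quotients by `X`, the constant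
coefficients being zero. -/
theorem isGeneric_genB [Fintype ι] (hn : 2 ≤ n) {i j l : ι} (hij : i ≠ j) (hjl : j ≠ l)
    (hil : i ≠ l) :
    IsGeneric (fun (K : Type) [Field K] (u : ι × Fin (n + 1) → K) =>
      GenB i j l (u ∘ colB i j l) 0) := by
  refine ((gen_lead_h95 hn i j l).and ((gen_sep_h95 hn i j l).and ((gen_cop_h95 hn i j l).and
    (gen_col_h95 hn hij hjl hil)))).mono ?_
  rintro K _ u ⟨h1, h2, h3, h4⟩
  have hj0 : colB i j l (j, (0 : Fin (n + 1))) = (i, 0) := by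
    unfold colB
    rw [if_pos (Or.inl rfl)]
  have hl0 : colB i j l (l, (0 : Fin (n + 1))) = (i, 0) := by
    unfold colB
    rw [if_pos (Or.inr rfl)]
  have hi0 : colB i j l (i, (0 : Fin (n + 1))) = (i, 0) := by
    unfold colB
    rw [if_neg]
    rintro (h | h)
    · exact hij (congrArg Prod.fst h)
    · exact hil (congrArg Prod.fst h)
  have hdiv : ∀ g : K[X], g.coeff 0 = 0 → g = (X - C 0) * divX g := by
    intro g hg
    have h5 := divX_mul_X_add g
    rw [hg, C_0, add_zero] at h5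
    rw [C_0, sub_zero, mul_comm]
    exact h5.symm
  refine ⟨fun a b hab => h1 (a, b) hab, fun a b hab => h2 (a, b) hab,
    fun a b c d hab hcd h5 h6 => h3 ((a, b), (c, d)) hab hcd h5 h6,
    divX (gdif (u ∘ colB i j l) i j), divX (gdif (u ∘ colB i j l) j l), ?_, ?_, h4⟩
  · apply hdiv
    have h5 := gdif_coeff (u ∘ colB i j l) i j 0
    rw [Fin.val_zero] at h5
    rw [h5]
    simp only [Function.comp, hi0, hj0, sub_self]
  · apply hdiv
    have h5 := gdif_coeff (u ∘ colB i j l) j l 0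
    rw [Fin.val_zero] at h5
    rw [h5]
    simp only [Function.comp, hl0, hj0, sub_self]

/-- The families of type B modulo `p ^ 2`. -/
def TypeBz (p : ℕ) (i j l : ι) (w : ι × Fin (n + 1) → ZMod (p ^ 2)) : Prop :=
  ∃ z : ZMod (p ^ 2),
    GenB i j l (redp p w) (ZMod.castHom (dvd_pow_self p two_ne_zero) (ZMod p) z) ∧
      (gdif w i j).eval z = 0 ∧ (gdif w j l).eval z ≠ 0

lemma redp_intCast_h95 {κ : Type} {p : ℕ} (v : κ → ℤ) :
    redp p (fun c => (v c : ZMod (p ^ 2))) = fun c => ((v c : ℤ) : ZMod p) := by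
  funext c
  simp only [redp, map_intCast]

lemma gred_eq_h95 {p : ℕ} (v : ι × Fin (n + 1) → ℤ) (a b : ι) :
    gred p v a b = gdif (redp p (fun c => (v c : ZMod (p ^ 2)))) a b := by
  rw [redp_intCast_h95]
  unfold gred
  rw [gdif_map]
  rfl

lemma gdif_redp_h95 {p : ℕ} (w : ι × Fin (n + 1) → ZMod (p ^ 2)) (a b : ι) :
    (gdif w a b).map (ZMod.castHom (dvd_pow_self p two_ne_zero) (ZMod p)) =
      gdif (redp p w) a b := by
  rw [gdif_map]
  rfl

lemma castHom_sq_h95 {p : ℕ} (x : ZMod (p ^ 2))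
    (hx : ZMod.castHom (dvd_pow_self p two_ne_zero) (ZMod p) x = 0) : x ^ 2 = 0 := by
  obtain ⟨y, rfl⟩ := ZMod.intCast_surjective x
  rw [map_intCast, ZMod.intCast_zmod_eq_zero_iff_dvd] at hx
  have h1 : ((p ^ 2 : ℕ) : ℤ) ∣ y ^ 2 := by
    push_cast
    exact pow_dvd_pow_of_dvd hx 2
  have h2 := (ZMod.intCast_zmod_eq_zero_iff_dvd (y ^ 2) (p ^ 2)).2 h1
  push_cast at h2
  exact h2

lemma castHom_isUnit_h95 {p : ℕ} (hp : p.Prime) (x : ZMod (p ^ 2))
    (hx : ZMod.castHom (dvd_pow_self p two_ne_zero) (ZMod p) x ≠ 0) : IsUnit x := by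
  obtain ⟨y, rfl⟩ := ZMod.intCast_surjective x
  rw [map_intCast, Ne, ZMod.intCast_zmod_eq_zero_iff_dvd] at hx
  rw [ZMod.coe_int_isUnit_iff_isCoprime]
  push_cast
  apply IsCoprime.pow_left
  exact (Prime.coprime_iff_not_dvd (Nat.prime_iff_prime_int.1 hp)).2 hx

/-- The root of a simple root modulo `p` modulo `p ^ 2`. -/
lemma hensel_h95 {p : ℕ} (hp : p.Prime) (f : (ZMod (p ^ 2))[X]) (z₀ : ZMod (p ^ 2))
    (h0 : ZMod.castHom (dvd_pow_self p two_ne_zero) (ZMod p) (f.eval z₀) = 0)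
    (h1 : ZMod.castHom (dvd_pow_self p two_ne_zero) (ZMod p) (f.derivative.eval z₀) ≠ 0) :
    ∃ z, f.eval z = 0 ∧ ZMod.castHom (dvd_pow_self p two_ne_zero) (ZMod p) z =
      ZMod.castHom (dvd_pow_self p two_ne_zero) (ZMod p) z₀ := by
  obtain ⟨y, hy⟩ := (castHom_isUnit_h95 hp _ h1).exists_right_inv
  refine ⟨z₀ + (-(f.eval z₀) * y), ?_, ?_⟩
  · obtain ⟨k, hk⟩ := f.binomExpansion z₀ (-(f.eval z₀) * y)
    have h2 : (f.eval z₀) ^ 2 = 0 := castHom_sq_h95 _ h0
    rw [hk]
    calc f.eval z₀ + f.derivative.eval z₀ * (-(f.eval z₀) * y) + k * (-(f.eval z₀) * y) ^ 2 =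
        f.eval z₀ * (1 - f.derivative.eval z₀ * y) + k * y ^ 2 * (f.eval z₀) ^ 2 := by ring
      _ = 0 := by rw [hy, h2]; ring
  · rw [map_add, map_mul, map_neg, h0]
    simp

/-- If `w` lifts a good family modulo `p` but is not of type B, then `w + p` at the constant
coefficient of `α_l` is: by Hensel's lemma (`f'(z) ≠ 0` modulo `p` since `gdif i j` is separable:
replace a lift `z` by `z - f(z) / f'(z)`), there is a lift `z` with `(gdif w i j).eval z = 0`; as `w` is
not of type B, `(gdif w j l).eval z = 0`; adding `p` to the constant coefficient of `α_l` does not change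
`gdif w i j` and subtracts `p ≠ 0` from `(gdif w j l).eval z`. -/
theorem TypeBz.flip {p : ℕ} (hp : p.Prime) {i j l : ι} (hij : i ≠ j) (hjl : j ≠ l) (hil : i ≠ l)
    (w : ι × Fin (n + 1) → ZMod (p ^ 2)) (h : ∃ z, GenB i j l (redp p w) z)
    (hw : ¬ TypeBz p i j l w) :
    TypeBz p i j l (Function.update w (l, 0) (w (l, 0) + (p : ZMod (p ^ 2)))) := by
  have : Fact p.Prime := ⟨hp⟩
  obtain ⟨zb, hz⟩ := h
  set φ := ZMod.castHom (dvd_pow_self p two_ne_zero) (ZMod p) with hφ
  obtain ⟨z₀, hz₀⟩ := ZMod.castHom_surjective (dvd_pow_self p two_ne_zero) zb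
  obtain ⟨g, h, hg, hh, hgh⟩ := hz.col
  have hsep := hz.sep i j hij
  have hev : ∀ (f : (ZMod (p ^ 2))[X]) (z : ZMod (p ^ 2)), φ (f.eval z) = (f.map φ).eval (φ z) := by
    intro f z
    rw [Polynomial.eval_map, Polynomial.eval₂_at_apply]
  have h0 : φ ((gdif w i j).eval z₀) = 0 := by
    rw [hev, gdif_redp_h95, hφ, hz₀, hg]
    simp
  have h1 : φ ((gdif w i j).derivative.eval z₀) ≠ 0 := by
    rw [hev, ← Polynomial.derivative_map, gdif_redp_h95, hφ, hz₀]
    intro h2
    have h3 : (gdif (redp p w) i j).eval zb = 0 := by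
      rw [hg]
      simp
    obtain ⟨a, b, hab⟩ := hsep
    have h4 := congrArg (Polynomial.eval zb) hab
    rw [eval_add, eval_mul, eval_mul, h2, h3, eval_one, mul_zero, mul_zero, add_zero] at h4
    exact zero_ne_one h4
  obtain ⟨z, hz1, hz2⟩ := hensel_h95 hp (gdif w i j) z₀ h0 h1
  rw [hz₀] at hz2
  have hB : GenB i j l (redp p w) (φ z) := by
    rw [hφ, hz2]
    exact hz
  have hjl0 : (gdif w j l).eval z = 0 := by
    by_contra hne
    exact hw ⟨z, hB, hz1, hne⟩
  have hred : redp p (Function.update w (l, 0) (w (l, 0) + (p : ZMod (p ^ 2)))) = redp p w := by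
    funext c
    by_cases hc : c = (l, 0)
    · subst hc
      simp only [redp, Function.update_self, map_add, map_natCast, CharP.cast_eq_zero, add_zero]
    · simp only [redp, Function.update_of_ne hc]
  have hpol : ∀ a, a ≠ l → gpol (Function.update w (l, 0) (w (l, 0) + (p : ZMod (p ^ 2)))) a =
      gpol w a := by
    intro a ha
    unfold gpol
    refine Finset.sum_congr rfl fun k _ => ?_
    rw [Function.update_of_ne]
    intro hk
    exact ha (congrArg Prod.fst hk)
  have hpoll : gpol (Function.update w (l, 0) (w (l, 0) + (p : ZMod (p ^ 2)))) l =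
      gpol w l + C (p : ZMod (p ^ 2)) := by
    unfold gpol
    rw [Fin.sum_univ_succ, Fin.sum_univ_succ, Function.update_self]
    have h2 : ∀ k : Fin n, Function.update w (l, (0 : Fin (n + 1))) (w (l, 0) + (p : ZMod (p ^ 2)))
        (l, k.succ) = w (l, k.succ) := by
      intro k
      rw [Function.update_of_ne]
      intro hk
      exact (Fin.succ_ne_zero k) (congrArg Prod.snd hk)
    simp only [h2, Fin.val_zero, pow_zero, mul_one, C_add]
    ring
  refine ⟨z, ?_, ?_, ?_⟩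
  · rw [hred]
    exact hB
  · unfold gdif
    rw [hpol i hil, hpol j hjl]
    exact hz1
  · unfold gdif
    rw [hpol j hjl, hpoll, ← sub_sub]
    change ((gdif w j l) - C (p : ZMod (p ^ 2))).eval z ≠ 0
    rw [eval_sub, hjl0, eval_C, zero_sub, neg_ne_zero]
    intro h2
    rw [ZMod.natCast_eq_zero_iff] at h2
    have h3 := Nat.le_of_dvd hp.pos h2
    have h4 : p * 1 < p * p := Nat.mul_lt_mul_of_pos_left hp.one_lt hp.pos
    rw [pow_two] at h3
    omega

/-- From the residues modulo `p ^ 2` to the integers. -/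
theorem TypeB.of_z {p : ℕ} (hp : p.Prime) {i j l : ι} {v : ι × Fin (n + 1) → ℤ}
    (h : TypeBz p i j l (fun c => (v c : ZMod (p ^ 2)))) : TypeB p i j l v := by
  obtain ⟨z, hB, h1, h2⟩ := h
  have hgred : ∀ a b, gred p v a b = gdif (redp p (fun c => (v c : ZMod (p ^ 2)))) a b :=
    fun a b => gred_eq_h95 v a b
  obtain ⟨y, rfl⟩ := ZMod.intCast_surjective z
  have hev : ∀ a b, (gdif (fun c => ((v c : ℤ) : ZMod (p ^ 2))) a b).eval ((y : ℤ) : ZMod (p ^ 2)) =
      (((gdif v a b).eval y : ℤ) : ZMod (p ^ 2)) := by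
    intro a b
    have h3 := gdif_map (Int.castRingHom (ZMod (p ^ 2))) v a b
    have h4 : (gdif (fun c => ((v c : ℤ) : ZMod (p ^ 2))) a b) =
        (gdif v a b).map (Int.castRingHom (ZMod (p ^ 2))) := h3.symm
    rw [h4, Polynomial.eval_map]
    exact Polynomial.eval₂_at_apply (Int.castRingHom (ZMod (p ^ 2))) y
  have hpp : ((p ^ 2 : ℕ) : ℤ) = (p : ℤ) ^ 2 := by push_cast; ring
  obtain ⟨g, h, hg, hh, hgh⟩ := hB.col
  rw [map_intCast] at hg hh
  refine ⟨?_, ?_, ?_, y, ?_, ?_, ?_, g, h, ?_, ?_, hgh⟩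
  · intro a b hab hdvd
    apply hB.lead a b hab
    rw [redp_intCast_h95]
    have h3 := (ZMod.intCast_zmod_eq_zero_iff_dvd _ p).2 hdvd
    push_cast at h3
    exact sub_eq_zero.1 h3
  · intro a b hab
    rw [hgred]
    exact hB.sep a b hab
  · intro a b c d hab hcd h3 h4
    rw [hgred, hgred]
    exact hB.cop a b c d hab hcd h3 h4
  · rw [hev] at h1
    rw [← hpp]
    exact (ZMod.intCast_zmod_eq_zero_iff_dvd _ _).1 h1
  · rw [← ZMod.intCast_zmod_eq_zero_iff_dvd]
    have h3 : (((gdif v j l).eval y : ℤ) : ZMod p) = (gred p v j l).eval ((y : ℤ) : ZMod p) := by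
      unfold gred
      rw [Polynomial.eval_map]
      exact (Polynomial.eval₂_at_apply (Int.castRingHom (ZMod p)) y).symm
    rw [h3, hgred, hh]
    simp
  · intro hdvd
    apply h2
    rw [hev]
    apply (ZMod.intCast_zmod_eq_zero_iff_dvd _ _).2
    rw [hpp]
    exact hdvd
  · rw [hgred]
    exact hg
  · rw [hgred]
    exact hh

/-- The count (`count_scheme`). -/
theorem count_typeB [Fintype ι] (hn : 2 ≤ n) {i j l : ι} (hij : i ≠ j) (hjl : j ≠ l)
    (hil : i ≠ l) :
    ∃ P₀ : ℕ, ∀ p : ℕ, p.Prime → P₀ ≤ p →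
      (1 / 4 : ℝ) / p * ((p ^ 2 : ℕ) : ℝ) ^ Fintype.card (ι × Fin (n + 1)) ≤
        ({w : ι × Fin (n + 1) → ZMod (p ^ 2) | TypeBz p i j l w}).ncard := by
  obtain ⟨Δ, hΔ, hgen⟩ := isGeneric_genB (n := n) hn hij hjl hil
  have hl0 : ∀ c : ι × Fin (n + 1), colB i j l (colB i j l c) = colB i j l c := by
    intro c
    unfold colB
    by_cases hc : c = (j, 0) ∨ c = (l, 0)
    · rw [if_pos hc, if_neg]
      rintro (h | h)
      · exact hij (congrArg Prod.fst h)
      · exact hil (congrArg Prod.fst h)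
    · rw [if_neg hc, if_neg hc]
  refine count_scheme (colB i j l) (j, 0) (l, 0) (l, 0) hl0 ?_ Δ hΔ
    (fun p u z => GenB i j l u z) ?_ ?_ ?_ (fun p => {w | TypeBz p i j l w}) ?_
  · intro c h1 h2
    unfold colB
    rw [if_neg]
    rintro (h | h)
    · exact h1 h
    · exact h2 h
  · intro p hp u z
    have : Fact p.Prime := ⟨hp⟩
    exact GenB.shift_iff i j l u z
  · intro p hp u z z' h h'
    have : Fact p.Prime := ⟨hp⟩
    exact GenB.unique h h'
  · intro p hp u hu
    have : Fact p.Prime := ⟨hp⟩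
    exact hgen (ZMod p) u hu
  · intro p hp w h hw
    exact TypeBz.flip hp hij hjl hil w h hw

end

end Pool.Agent.Lib.MP_89bcae_ag

end

section

/-!
# Places of the field generated by the nodes
-/

open Polynomial WithZero IsDedekindDomain

open scoped Classical Pointwise

namespace Pool.Agent.Lib.MP_89bcae_ag

open Superelliptic

variable {F : Type} [Field F] [Algebra ℚ F]

/-- A discrete valuation `ord` of the subfield `K₀` above the prime `p`, with ramification index `e`,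
its ring `O` and the reduction `red`. -/
structure Place (p : ℕ) (K₀ : Subfield F) where
  O : Subring F
  κ : Type
  [field : Field κ]
  red : O →+* κ
  ord : F → ℤ
  e : ℕ
  isVal : IsVal K₀ ord
  mem_O : ∀ x, x ∈ O ↔ x ∈ K₀ ∧ (x = 0 ∨ 0 ≤ ord x)
  red_eq_zero : ∀ (x : F) (hx : x ∈ O), x ≠ 0 → (red ⟨x, hx⟩ = 0 ↔ 0 < ord x)
  e_pos : 0 < e
  rat : ∀ z : ℤ, z ≠ 0 → ord (z : F) = e * padicValInt p z

attribute [instance] Place.field

/-- The valuation of a finite Galois extension of `ℚ` above `p`. -/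
theorem place_aux_h74 (K : Type) [Field K] [Algebra ℚ K] [FiniteDimensional ℚ K] [IsGalois ℚ K]
    {p : ℕ} (hp : p.Prime) :
    ∃ (w : Valuation K (WithZero (Multiplicative ℤ))) (e : ℕ), 0 < e ∧
      (∀ z : ℤ, z ≠ 0 → w (z : K) = exp (-((e * padicValInt p z : ℕ) : ℤ))) ∧
      (2 ≤ e → ∃ σ : K ≃ₐ[ℚ] K, σ ≠ 1 ∧ ∀ y, w y ≤ 1 → w (σ y) ≤ 1 ∧ w (σ y - y) < 1) := by
  obtain ⟨R₀, i1, i2, i3, i4, i5, hR₀⟩ := exists_dvrZ8 hp
  let : Algebra R₀ K := ((algebraMap ℚ K).comp (algebraMap R₀ ℚ)).toAlgebra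
  have : IsScalarTower R₀ ℚ K := IsScalarTower.of_algebraMap_eq fun r => rfl
  let B := integralClosure R₀ K
  have : IsDedekindDomain B := integralClosure.isDedekindDomain R₀ ℚ K
  have : Module.Finite R₀ B := IsIntegralClosure.finite R₀ ℚ K B
  have : IsFractionRing B K := integralClosure.isFractionRing_of_finite_extension ℚ K
  have : SMulCommClass (K ≃ₐ[ℚ] K) R₀ K := ⟨fun σ r x => by
    rw [AlgEquiv.smul_def, AlgEquiv.smul_def, Algebra.smul_def, Algebra.smul_def, map_mul,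
      IsScalarTower.algebraMap_apply R₀ ℚ K, AlgEquiv.commutes]⟩
  have : IsGaloisGroup (K ≃ₐ[ℚ] K) R₀ B := IsGaloisGroup.of_isFractionRing _ _ _ ℚ K
  have hinjK : Function.Injective (algebraMap R₀ K) := by
    rw [IsScalarTower.algebraMap_eq R₀ ℚ K]
    exact (algebraMap ℚ K).injective.comp (IsFractionRing.injective R₀ ℚ)
  have hinjB : Function.Injective (algebraMap B K) := Subtype.val_injective
  have : FaithfulSMul R₀ B := by
    rw [faithfulSMul_iff_algebraMap_injective]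
    intro x y hxy
    exact hinjK (congrArg (algebraMap B K) hxy)
  have : Module.IsTorsionFree R₀ B := inferInstance
  have : Module.Flat R₀ B := inferInstance
  let v : HeightOneSpectrum R₀ := IsDiscreteValuationRing.maximalIdeal R₀
  have hvmax : v.asIdeal.IsMaximal := v.isMaximal
  obtain ⟨P, hPmax, hPv⟩ := Ideal.exists_maximal_ideal_liesOver_of_isIntegral (S := B) v.asIdeal
  have hP0 : P ≠ ⊥ := Ideal.ne_bot_of_liesOver_of_ne_bot v.ne_bot P
  let w : HeightOneSpectrum B := ⟨P, hPmax.isPrime, hP0⟩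
  have hwv : w.asIdeal.LiesOver v.asIdeal := hPv
  have hmP : ∀ r : R₀, algebraMap R₀ B r ∈ P ↔ r ∈ IsLocalRing.maximalIdeal R₀ := by
    intro r
    have h1 : r ∈ Ideal.comap (algebraMap R₀ B) P ↔ r ∈ v.asIdeal := by
      rw [← Ideal.under_def, ← hPv.over]
    exact h1
  set e := v.asIdeal.ramificationIdx' w.asIdeal with hedef
  have hWk : ∀ r : R₀, w.intValuation (algebraMap R₀ B r) = v.intValuation r ^ e := by
    intro r
    have h1 := HeightOneSpectrum.valuation_liesOver K v w (algebraMap R₀ ℚ r)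
    rw [← IsScalarTower.algebraMap_apply] at h1
    have h2 : w.intValuation (algebraMap R₀ B r) = w.valuation K (algebraMap R₀ K r) := by
      rw [← w.valuation_of_algebraMap (K := K)]
      rfl
    rw [h2, ← h1]
    congr 1
    exact HeightOneSpectrum.valuation_of_algebraMap (K := ℚ) v r
  have he1 : 0 < e := by
    rcases Nat.eq_zero_or_pos e with h0 | h0
    · exfalso
      obtain ⟨ϖ, hϖ⟩ := v.intValuation_exists_uniformizer
      have h1 : ϖ ∈ IsLocalRing.maximalIdeal R₀ := by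
        have h2 : v.intValuation ϖ ≤ exp (-((1 : ℕ) : ℤ)) := by rw [hϖ]; simp
        have h3 := (v.intValuation_le_pow_iff_mem ϖ 1).mp h2
        rw [pow_one] at h3
        exact h3
      have h2 : w.intValuation (algebraMap R₀ B ϖ) < 1 :=
        (w.intValuation_lt_one_iff_mem _).mpr ((hmP ϖ).mpr h1)
      rw [hWk, h0, pow_zero] at h2
      exact lt_irrefl _ h2
    · exact h0
  refine ⟨w.valuation K, e, he1, ?_, ?_⟩
  · intro z hz
    have hz0 : (z : R₀) ≠ 0 := by
      intro h0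
      have h1 : algebraMap R₀ K (z : R₀) = 0 := by rw [h0, map_zero]
      rw [map_intCast] at h1
      have : CharZero K := charZero_of_injective_algebraMap (algebraMap ℚ K).injective
      exact hz (by exact_mod_cast h1)
    have h1 : v.intValuation (z : R₀) = exp (-((padicValInt p z : ℕ) : ℤ)) := by
      apply le_antisymm
      · refine (v.intValuation_le_pow_iff_mem (z : R₀) (padicValInt p z)).mpr ?_
        refine (hR₀ z _).mpr ?_
        exact padicValInt_dvd z
      · by_contra hlt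
        rw [not_le] at hlt
        have h2 : v.intValuation (z : R₀) ≤ exp (-((padicValInt p z + 1 : ℕ) : ℤ)) := by
          obtain ⟨m, hm⟩ : ∃ m : ℤ, v.intValuation (z : R₀) = exp m := by
            refine ⟨log (v.intValuation (z : R₀)), (exp_log ?_).symm⟩
            exact v.intValuation_ne_zero _ hz0
          rw [hm] at hlt ⊢
          rw [exp_lt_exp] at hlt
          rw [exp_le_exp]
          push_cast
          omega
        have h3 := (v.intValuation_le_pow_iff_mem (z : R₀) _).mp h2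
        have h4 := (hR₀ z _).mp h3
        have := Fact.mk hp
        rw [padicValInt_dvd_iff] at h4
        rcases h4 with h4 | h4
        · exact hz h4
        · omega
    have h2 : (z : K) = algebraMap B K (algebraMap R₀ B (z : R₀)) := by
      rw [map_intCast, map_intCast]
    rw [h2, HeightOneSpectrum.valuation_of_algebraMap, hWk, h1, ← exp_nsmul]
    congr 1
    push_cast
    rw [nsmul_eq_mul]
    ring
  · intro he2
    let : Field (B ⧸ P) := Ideal.Quotient.field P
    have h1 : e ≤ Nat.card (P.inertia (K ≃ₐ[ℚ] K)) := by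
      rw [hedef, Ideal.ramificationIdx'_eq_ramificationIdx v.asIdeal w.asIdeal v.ne_bot]
      exact ramificationIdx_le_card_inertia7 v.asIdeal P
    have h2 : 1 < Nat.card (P.inertia (K ≃ₐ[ℚ] K)) := lt_of_lt_of_le (by omega) h1
    obtain ⟨σ, hσP, hσ1⟩ : ∃ σ : K ≃ₐ[ℚ] K, σ ∈ P.inertia (K ≃ₐ[ℚ] K) ∧ σ ≠ 1 := by
      by_contra hcon
      push Not at hcon
      have : Subsingleton (P.inertia (K ≃ₐ[ℚ] K)) :=
        ⟨fun σ τ => Subtype.ext ((hcon σ σ.2).trans (hcon τ τ.2).symm)⟩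
      have := Finite.card_le_one_iff_subsingleton.mpr this
      omega
    refine ⟨σ, hσ1, fun y hy => ?_⟩
    obtain ⟨b, c, hbc⟩ := w.exists_primeCompl_mul_eq_of_integer y hy
    have hσB : ∀ x : B, σ (algebraMap B K x) = algebraMap B K (σ • x) := fun x => rfl
    have hin : ∀ x : B, σ • x - x ∈ P := fun x => hσP x
    have hc1 : w.intValuation (c : B) = 1 := by
      rw [w.intValuation_eq_one_iff_mem_primeCompl]
      exact c.2
    have hσc : w.intValuation (σ • (c : B)) = 1 := by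
      rw [w.intValuation_eq_one_iff_mem_primeCompl]
      intro h
      apply c.2
      have h3 := P.sub_mem h (hin c)
      rwa [sub_sub_cancel] at h3
    have hσy : σ y * algebraMap B K (σ • (c : B)) = algebraMap B K (σ • b) := by
      rw [← hσB, ← hσB, ← map_mul, hbc]
    constructor
    · have h3 := congrArg (w.valuation K) hσy
      rw [map_mul, HeightOneSpectrum.valuation_of_algebraMap, hσc, mul_one,
        HeightOneSpectrum.valuation_of_algebraMap] at h3
      rw [h3]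
      exact w.intValuation_le_one _
    · have h3 : (σ y - y) * algebraMap B K ((σ • (c : B)) * (c : B)) =
          algebraMap B K ((σ • b - b) * (c : B) - b * (σ • (c : B) - (c : B))) := by
        simp only [map_sub, map_mul]
        linear_combination (algebraMap B K (c : B)) * hσy - (algebraMap B K (σ • (c : B))) * hbc
      have h4 := congrArg (w.valuation K) h3
      rw [map_mul, HeightOneSpectrum.valuation_of_algebraMap, map_mul, hσc, hc1, mul_one, mul_one,
        HeightOneSpectrum.valuation_of_algebraMap] at h4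
      rw [h4, w.intValuation_lt_one_iff_mem]
      exact P.sub_mem (P.mul_mem_right _ (hin b)) (P.mul_mem_left _ (hin c))

section

attribute [-instance] DivisionRing.toRatAlgebra

/-- A field automorphism which fixes a generating set is the identity. -/
lemma fix_adjoin_h74 {S : Set F} (σ : IntermediateField.adjoin ℚ S ≃ₐ[ℚ] IntermediateField.adjoin ℚ S)
    (h : ∀ (s : F) (hs : s ∈ S), σ ⟨s, IntermediateField.subset_adjoin ℚ S hs⟩ =
      ⟨s, IntermediateField.subset_adjoin ℚ S hs⟩) : σ = 1 := by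
  have h1 : (IntermediateField.val (IntermediateField.adjoin ℚ S)).comp (σ : _ →ₐ[ℚ] _) =
      IntermediateField.val (IntermediateField.adjoin ℚ S) := by
    apply IntermediateField.algHom_ext_of_eq_adjoin ℚ rfl
    intro s hs
    exact congrArg Subtype.val (h s hs)
  ext x
  have h3 := DFunLike.congr_fun h1 x
  exact h3

/-- **Existence of a place**, and of a nontrivial element of the inertia group if it is ramified.
`S` is a finite set of algebraic numbers, stable under the automorphisms of `F`; `K₀ = ℚ(S)` is a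
finite Galois extension of `ℚ`. Copy the construction in the proof of `exists_unramified8` (UnrS8.lean)
with `R₀` the discrete valuation ring of `exists_dvrZ8` (fraction field `ℚ`): `B` the integral closure
of `R₀` in `K₀`, `P` a maximal ideal of `B` over that of `R₀`, `w` the `HeightOneSpectrum` of `B` given by
`P`; `κ = B ⧸ P` if one takes for `O` the localisation (the valuation ring `w.valuation K₀ ≤ 1`, whose
residue field is `κ`; `Subring.map` to `F`); `ord x = - log (w.valuation x)` (`WithZero.log`, or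
`WithZero.unzero` and `Multiplicative.toAdd`), `e = v.asIdeal.ramificationIdx' w.asIdeal`. If `e ≥ 2`,
`ramificationIdx_le_card_inertia7` gives an element `σ ≠ 1` of `P.inertia (K₀ ≃ₐ[ℚ] K₀)`; it moves an
element of `S`, as `S` generates `K₀`; extend it to `F` (`AlgEquiv.liftNormal` or
`IsAlgClosure`/`IsAlgClosed.lift`). For `x ∈ O` write `x = b / c` with `b, c ∈ B`, `c ∉ P`; `σ` maps `P` to
`P`, and `σ b - b`, `σ c - c ∈ P`. -/
theorem exists_place [IsAlgClosure ℚ F] {p : ℕ} (hp : p.Prime) (S : Set F) (hS : S.Finite)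
    (hσ : ∀ (σ : F ≃ₐ[ℚ] F), ∀ s ∈ S, σ s ∈ S) :
    ∃ P : Place p (IntermediateField.adjoin ℚ S).toSubfield, 2 ≤ P.e →
      ∃ σ : F ≃ₐ[ℚ] F, (∃ s ∈ S, σ s ≠ s) ∧ ∀ (x : F) (hx : x ∈ P.O),
        ∃ hx' : σ x ∈ P.O, P.red ⟨σ x, hx'⟩ = P.red ⟨x, hx⟩ := by
  have halg : Algebra.IsAlgebraic ℚ F := IsAlgClosure.isAlgebraic
  have hnF : Normal ℚ F := IsAlgClosure.normal ℚ F
  set K : IntermediateField ℚ F := IntermediateField.adjoin ℚ S with hKdef
  have hSfin : Finite S := hS.to_subtype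
  have hfd : FiniteDimensional ℚ K :=
    IntermediateField.finiteDimensional_adjoin fun x _ => (halg.isAlgebraic x).isIntegral
  have hnK : Normal ℚ K := by
    rw [IntermediateField.normal_iff_forall_map_le']
    intro σ
    rw [hKdef, IntermediateField.adjoin_map, IntermediateField.adjoin_le_iff]
    rintro _ ⟨s, hs, rfl⟩
    exact IntermediateField.subset_adjoin ℚ S (hσ σ s hs)
  have hgal : IsGalois ℚ K := ⟨⟩
  obtain ⟨w, e, he, hrat, hin⟩ := place_aux_h74 K hp
  let V : ValuationSubring K := w.valuationSubring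
  have hinj : Function.Injective (algebraMap K F) := (algebraMap K F).injective
  let O : Subring F := V.toSubring.map (algebraMap K F)
  let ε : V.toSubring ≃+* O := V.toSubring.equivMapOfInjective (algebraMap K F) hinj
  let red : O →+* IsLocalRing.ResidueField V := (IsLocalRing.residue V).comp ε.symm.toRingHom
  let ord : F → ℤ := fun x => if h : x ∈ K then -(log (w ⟨x, h⟩)) else 0
  have hord : ∀ y : K, ord (y : F) = -(log (w y)) := fun y => dif_pos y.2
  have hred : ∀ (y : K) (hy : y ∈ V) (hO : (y : F) ∈ O), red ⟨y, hO⟩ = IsLocalRing.residue V ⟨y, hy⟩ := by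
    intro y hy hO
    have h1 : ε.symm ⟨(y : F), hO⟩ = ⟨y, hy⟩ := by
      rw [RingEquiv.symm_apply_eq]
      rfl
    show IsLocalRing.residue V (ε.symm ⟨(y : F), hO⟩) = _
    rw [h1]
  have hOmem : ∀ x : F, x ∈ O ↔ ∃ y : K, w y ≤ 1 ∧ (y : F) = x := fun x => Iff.rfl
  have hle : ∀ y : K, y ≠ 0 → (w y ≤ 1 ↔ 0 ≤ -(log (w y))) := by
    intro y hy
    have h1 : w y ≠ 0 := (Valuation.ne_zero_iff w).mpr hy
    have h2 : (0 : ℤ) ≤ -(log (w y)) ↔ log (w y) ≤ 0 := by omega
    rw [h2, log_le_iff_le_exp h1, exp_zero]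
  have hlt : ∀ y : K, y ≠ 0 → (w y < 1 ↔ 0 < -(log (w y))) := by
    intro y hy
    have h1 : w y ≠ 0 := (Valuation.ne_zero_iff w).mpr hy
    have h2 : (0 : ℤ) < -(log (w y)) ↔ log (w y) < 0 := by omega
    rw [h2, log_lt_iff_lt_exp h1, exp_zero]
  have hres : ∀ (y : K) (hy : y ∈ V), IsLocalRing.residue V ⟨y, hy⟩ = 0 ↔ w y < 1 := by
    intro y hy
    rw [IsLocalRing.residue_eq_zero_iff]
    exact Valuation.mem_maximalIdeal_iff _ _
  let P : Place p K.toSubfield :=
    { O := O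
      κ := IsLocalRing.ResidueField V
      red := red
      ord := ord
      e := e
      isVal := by
        refine ⟨?_, ?_⟩
        · intro x hx y hy hx0 hy0
          have h1 := hord ⟨x, hx⟩
          have h2 := hord ⟨y, hy⟩
          have h3 := hord (⟨x, hx⟩ * ⟨y, hy⟩)
          have h4 : w (⟨x, hx⟩ : K) ≠ 0 := (Valuation.ne_zero_iff w).mpr fun h => hx0 (congrArg Subtype.val h)
          have h5 : w (⟨y, hy⟩ : K) ≠ 0 := (Valuation.ne_zero_iff w).mpr fun h => hy0 (congrArg Subtype.val h)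
          rw [map_mul, log_mul h4 h5] at h3
          change ord (x * y) = ord x + ord y
          change ord x = _ at h1
          change ord y = _ at h2
          change ord (x * y) = _ at h3
          rw [h3, h1, h2]
          ring
        · have h1 := hord (-1)
          rw [Valuation.map_neg, map_one, log_one, neg_zero] at h1
          simpa using h1
      mem_O := by
        intro x
        rw [hOmem]
        constructor
        · rintro ⟨y, hy, rfl⟩
          refine ⟨y.2, ?_⟩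
          by_cases h0 : y = 0
          · left
            rw [h0]
            rfl
          · right
            rw [hord]
            exact (hle y h0).mp hy
        · rintro ⟨hx, h1⟩
          refine ⟨⟨x, hx⟩, ?_, rfl⟩
          rcases h1 with h1 | h1
          · have h2 : (⟨x, hx⟩ : K) = 0 := Subtype.ext h1
            rw [h2, map_zero]
            exact zero_le
          · by_cases h0 : (⟨x, hx⟩ : K) = 0
            · rw [h0, map_zero]
              exact zero_le
            · have h2 := hord ⟨x, hx⟩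
              change ord x = _ at h2
              rw [h2] at h1
              exact (hle _ h0).mpr h1
      red_eq_zero := by
        intro x hx hx0
        obtain ⟨y, hy, rfl⟩ := (hOmem x).mp hx
        have h0 : y ≠ 0 := fun h => hx0 (by rw [h]; rfl)
        rw [hred y hy hx, hord]
        exact (hres y hy).trans (hlt y h0)
      e_pos := he
      rat := by
        intro z hz
        have h1 := hord (z : K)
        rw [hrat z hz, log_exp, neg_neg] at h1
        have h2 : ((z : K) : F) = (z : F) := by push_cast; rfl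
        rw [h2] at h1
        rw [h1]
        push_cast
        ring }
  refine ⟨P, fun h2e => ?_⟩
  obtain ⟨σ, hσ1, hσ2⟩ := hin h2e
  have hcomm : ∀ y : K, (σ.liftNormal F) (y : F) = (σ y : F) := fun y => σ.liftNormal_commutes F y
  refine ⟨σ.liftNormal F, ?_, ?_⟩
  · by_contra hcon
    push Not at hcon
    apply hσ1
    apply fix_adjoin_h74
    intro s hs
    apply Subtype.ext
    have h1 := hcomm ⟨s, IntermediateField.subset_adjoin ℚ S hs⟩
    rw [← h1]
    exact hcon s hs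
  · intro x hx
    obtain ⟨y, hy, rfl⟩ := (hOmem x).mp hx
    obtain ⟨h1, h2⟩ := hσ2 y hy
    have hmem : (σ.liftNormal F) (y : F) ∈ O := by
      rw [hcomm]
      exact (hOmem _).mpr ⟨σ y, h1, rfl⟩
    refine ⟨hmem, ?_⟩
    have hmem' : ((σ y : K) : F) ∈ O := (hOmem _).mpr ⟨σ y, h1, rfl⟩
    have h3 : (⟨(σ.liftNormal F) (y : F), hmem⟩ : O) = ⟨((σ y : K) : F), hmem'⟩ := Subtype.ext (hcomm y)
    show red ⟨(σ.liftNormal F) (y : F), hmem⟩ = red ⟨(y : F), hx⟩
    rw [h3, hred (σ y) h1 hmem', hred y hy hx, ← sub_eq_zero, ← map_sub]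
    have h4 : (⟨σ y, h1⟩ - ⟨y, hy⟩ : V) = ⟨σ y - y, h2.le⟩ := rfl
    rw [h4]
    exact (hres _ _).mpr h2

end

section

variable {p : ℕ} {K₀ : Subfield F} (P : Place p K₀)

/-- The reduction of an integer. -/
theorem Place.charP (hp : p.Prime) : CharP P.κ p := by
  haveI : CharZero F := algebraRat.charZero F
  haveI : Fact p.Prime := ⟨hp⟩
  refine ⟨fun n => ?_⟩
  by_cases hn : n = 0
  · simp [hn]
  have hnZ : (n : ℤ) ≠ 0 := by exact_mod_cast hn
  have hnF : ((n : ℤ) : F) ≠ 0 := by exact_mod_cast hn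
  have h1 : P.red ⟨((n : ℤ) : F), intCast_mem P.O (n : ℤ)⟩ = (n : P.κ) := by
    have h2 : (⟨((n : ℤ) : F), intCast_mem P.O (n : ℤ)⟩ : P.O) = (n : P.O) :=
      Subtype.ext (by push_cast; rfl)
    rw [h2, map_natCast]
  rw [← h1, P.red_eq_zero _ _ hnF, P.rat _ hnZ, padicValInt.of_nat,
    dvd_iff_padicValNat_ne_zero hn]
  have he : (0 : ℤ) < P.e := by exact_mod_cast P.e_pos
  constructor
  · intro h h0
    rw [h0] at h
    simp at h
  · intro h
    have h3 : (0 : ℤ) < (padicValNat p n : ℤ) := by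
      exact_mod_cast Nat.pos_of_ne_zero h
    exact mul_pos he h3

theorem Place.int_mem (z : ℤ) : (z : F) ∈ P.O := by
  exact intCast_mem P.O z

/-- The reduction `ℤ[X] → κ[X]` factors through `(ZMod p)[X]`. -/
noncomputable def Place.redp (hp : p.Prime) : ZMod p →+* P.κ :=
  haveI := P.charP hp
  ZMod.castHom (dvd_refl p) P.κ

/-- Auxiliary form of the reduction of a value (h64). -/
theorem Place.red_aeval_h64 (hp : p.Prime) (f : ℤ[X]) {s : F} (hs : s ∈ P.O) :
    ∃ h : aeval s f ∈ P.O, P.red ⟨aeval s f, h⟩ =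
      ((f.map (Int.castRingHom (ZMod p))).map (P.redp hp)).eval (P.red ⟨s, hs⟩) := by
  have h1 : aeval s f = P.O.subtype (eval₂ (Int.castRingHom P.O) ⟨s, hs⟩ f) := by
    rw [hom_eval₂, aeval_def]
    have h0 : algebraMap ℤ F = P.O.subtype.comp (Int.castRingHom P.O) := RingHom.ext_int _ _
    rw [h0]
    rfl
  have hm : aeval s f ∈ P.O := by
    rw [h1]
    exact Subtype.prop _
  refine ⟨hm, ?_⟩
  have h2 : (⟨aeval s f, hm⟩ : P.O) = eval₂ (Int.castRingHom P.O) ⟨s, hs⟩ f := Subtype.ext h1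
  have h3 : P.red.comp (Int.castRingHom P.O) =
      (P.redp hp).comp (Int.castRingHom (ZMod p)) := RingHom.ext_int _ _
  rw [h2, hom_eval₂, Polynomial.map_map, eval_map, h3]

theorem Place.inv_h64 {s : F} (hs : s ∈ K₀) (hO : s ∉ P.O) :
    s ≠ 0 ∧ ∃ h : s⁻¹ ∈ P.O, P.red ⟨s⁻¹, h⟩ = 0 := by
  have hs0 : s ≠ 0 := by
    intro h
    exact hO (by rw [h]; exact zero_mem P.O)
  have hneg : P.ord s < 0 := by
    by_contra h
    exact hO ((P.mem_O s).2 ⟨hs, Or.inr (by omega)⟩)
  have hi : s⁻¹ ∈ K₀ := inv_mem hs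
  have hi0 : s⁻¹ ≠ 0 := inv_ne_zero hs0
  have h1 : P.ord (s * s⁻¹) = P.ord s + P.ord s⁻¹ := P.isVal.mul s hs _ hi hs0 hi0
  have h2 : P.ord (1 : F) = 0 := by
    have := P.isVal.mul 1 (one_mem _) 1 (one_mem _) one_ne_zero one_ne_zero
    rw [mul_one] at this
    omega
  rw [mul_inv_cancel₀ hs0, h2] at h1
  have h3 : 0 < P.ord s⁻¹ := by omega
  have hm : s⁻¹ ∈ P.O := (P.mem_O _).2 ⟨hi, Or.inr h3.le⟩
  exact ⟨hs0, hm, (P.red_eq_zero _ hm hi0).2 h3⟩

/-- A root in `K₀` of a polynomial with leading coefficient prime to `p` is in `O` (if `ord s < 0`,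
then the term of highest degree has a strictly smaller value than the other ones; or: `O` is
integrally closed in `K₀` since `x ∉ O` implies `x⁻¹ ∈ O` and `red x⁻¹ = 0`). -/
theorem Place.root_mem (hp : p.Prime) {f : ℤ[X]} (hf : ¬ (p : ℤ) ∣ f.leadingCoeff) {s : F}
    (hs : s ∈ K₀) (h0 : aeval s f = 0) : s ∈ P.O := by
  by_contra hO
  obtain ⟨hs0, hm, hr⟩ := P.inv_h64 hs hO
  letI : Invertible s := invertibleOfNonzero hs0
  have h1 : aeval s⁻¹ (reverse f) = 0 := by
    have h2 := (eval₂_reverse_eq_zero_iff (algebraMap ℤ F) s f).2 h0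
    rw [invOf_eq_inv] at h2
    exact h2
  obtain ⟨h, h3⟩ := P.red_aeval_h64 hp (reverse f) hm
  have h4 : P.red ⟨aeval s⁻¹ (reverse f), h⟩ = 0 := by
    have h5 : (⟨aeval s⁻¹ (reverse f), h⟩ : P.O) = 0 := Subtype.ext h1
    rw [h5, map_zero]
  rw [h4, hr, Polynomial.map_map, ← coeff_zero_eq_eval_zero, coeff_map, coeff_zero_reverse] at h3
  haveI := P.charP hp
  have h6 : ((P.redp hp).comp (Int.castRingHom (ZMod p))) = Int.castRingHom P.κ :=
    RingHom.ext_int _ _
  rw [h6] at h3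
  exact hf ((CharP.intCast_eq_zero_iff P.κ p f.leadingCoeff).1 h3.symm)

/-- The reduction of the value of a polynomial. -/
theorem Place.red_aeval (hp : p.Prime) (f : ℤ[X]) {s : F} (hs : s ∈ P.O) :
    ∃ h : aeval s f ∈ P.O, P.red ⟨aeval s f, h⟩ =
      ((f.map (Int.castRingHom (ZMod p))).map (P.redp hp)).eval (P.red ⟨s, hs⟩) := by
  exact P.red_aeval_h64 hp f hs

theorem inj_red_h57 {O κ : Type*} [CommRing O] [IsDomain O] [Field κ] (q : O →+* κ) {G : O[X]}
    (hs : (G.map q).Separable) {x y : O} (hx : G.eval x = 0) (hy : G.eval y = 0)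
    (hxy : q x = q y) : x = y := by
  by_contra hne
  obtain ⟨H, hH⟩ := dvd_iff_isRoot.mpr hx
  rw [hH, eval_mul, eval_sub, eval_X, eval_C] at hy
  have h1 : H.IsRoot y := (mul_eq_zero.mp hy).resolve_left fun h => hne (sub_eq_zero.mp h).symm
  obtain ⟨H', hH'⟩ := dvd_iff_isRoot.mpr h1
  have h2 : G.map q = (X - C (q x)) * ((X - C (q x)) * H'.map q) := by
    conv_lhs => rw [hH, hH']
    rw [Polynomial.map_mul, Polynomial.map_mul, Polynomial.map_sub, Polynomial.map_sub, map_X,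
      map_C, map_C, hxy]
  rw [h2] at hs
  have h3 : (X - C (q x)) * (X - C (q x)) ∣ (X - C (q x)) * ((X - C (q x)) * H'.map q) := by
    rw [← mul_assoc]
    exact Dvd.intro _ rfl
  exact not_isUnit_X_sub_C _ (hs.squarefree _ h3)

theorem eval_sub_h57 (f : ℤ[X]) {s : F} (hs : s ∈ P.O) :
    (((f.map (Int.castRingHom P.O)).eval ⟨s, hs⟩ : P.O) : F) = aeval s f := by
  rw [aeval_def, eval_map]
  have h1 := hom_eval₂ f (Int.castRingHom P.O) P.O.subtype ⟨s, hs⟩
  have h2 : P.O.subtype.comp (Int.castRingHom P.O) = algebraMap ℤ F := RingHom.ext_int _ _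
  rw [h2] at h1
  exact h1

theorem ord_one_h57 : P.ord 1 = 0 := by
  have h := P.isVal.mul 1 (one_mem _) 1 (one_mem _) one_ne_zero one_ne_zero
  rw [mul_one] at h
  omega

theorem ord_prod_h57 (R : Finset F) (g : F → F) (hK : ∀ s ∈ R, g s ∈ K₀) (h0 : ∀ s ∈ R, g s ≠ 0) :
    P.ord (∏ s ∈ R, g s) = ∑ s ∈ R, P.ord (g s) := by
  induction R using Finset.induction_on with
  | empty => simpa using ord_one_h57 P
  | insert a R ha ih =>
    rw [Finset.prod_insert ha, Finset.sum_insert ha, P.isVal.mul, ih]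
    · exact fun s hs => hK s (Finset.mem_insert_of_mem hs)
    · exact fun s hs => h0 s (Finset.mem_insert_of_mem hs)
    · exact hK a (Finset.mem_insert_self _ _)
    · exact prod_mem fun s hs => hK s (Finset.mem_insert_of_mem hs)
    · exact h0 a (Finset.mem_insert_self _ _)
    · exact Finset.prod_ne_zero_iff.2 fun s hs => h0 s (Finset.mem_insert_of_mem hs)

theorem ord_lc_mul_h57 {c : ℤ} (hc : ¬ (p : ℤ) ∣ c) (R : Finset F) (g : F → F)
    (hK : ∀ s ∈ R, g s ∈ K₀) (h0 : ∀ s ∈ R, g s ≠ 0) :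
    P.ord ((c : F) * ∏ s ∈ R, g s) = ∑ s ∈ R, P.ord (g s) := by
  have hc0 : c ≠ 0 := by
    rintro rfl
    exact hc (dvd_zero _)
  haveI : CharZero F := algebraRat.charZero F
  have hcF : (c : F) ≠ 0 := Int.cast_ne_zero.2 hc0
  rw [P.isVal.mul _ (intCast_mem K₀ c) _ (prod_mem hK) hcF (Finset.prod_ne_zero_iff.2 h0),
    ord_prod_h57 P R g hK h0, P.rat c hc0, padicValInt.eq_zero_of_not_dvd hc]
  simp

/-- Distinct roots of a polynomial with separable reduction have distinct reductions (`inj_red8` in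
CycS8.lean, with `O := P.O`). -/
theorem Place.red_ne_of_separable (hp : p.Prime) {f : ℤ[X]}
    (hsep : (f.map (Int.castRingHom (ZMod p))).Separable) {s s' : F} (hs : s ∈ P.O) (hs' : s' ∈ P.O)
    (h0 : aeval s f = 0) (h0' : aeval s' f = 0) (hne : s ≠ s') :
    P.red ⟨s, hs⟩ ≠ P.red ⟨s', hs'⟩ := by
  intro h
  have e : (f.map (Int.castRingHom P.O)).map P.red =
      (f.map (Int.castRingHom (ZMod p))).map (P.redp hp) := by
    rw [Polynomial.map_map, Polynomial.map_map]
    congr 1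
    exact RingHom.ext_int _ _
  have hs1 : ((f.map (Int.castRingHom P.O)).map P.red).Separable := by
    rw [e]
    exact hsep.map
  have h1 : (f.map (Int.castRingHom P.O)).eval ⟨s, hs⟩ = 0 := by
    apply Subtype.ext
    rw [eval_sub_h57 P f hs, h0]
    rfl
  have h2 : (f.map (Int.castRingHom P.O)).eval ⟨s', hs'⟩ = 0 := by
    apply Subtype.ext
    rw [eval_sub_h57 P f hs', h0']
    rfl
  exact hne (congrArg Subtype.val (inj_red_h57 P.red hs1 h1 h2 h))

/-- Roots of polynomials with coprime reductions have distinct reductions. -/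
theorem Place.red_ne_of_isCoprime (hp : p.Prime) {f g : ℤ[X]}
    (hco : IsCoprime (f.map (Int.castRingHom (ZMod p))) (g.map (Int.castRingHom (ZMod p))))
    {s s' : F} (hs : s ∈ P.O) (hs' : s' ∈ P.O) (h0 : aeval s f = 0) (h0' : aeval s' g = 0) :
    P.red ⟨s, hs⟩ ≠ P.red ⟨s', hs'⟩ := by
  intro h
  obtain ⟨m1, e1⟩ := P.red_aeval hp f hs
  obtain ⟨m2, e2⟩ := P.red_aeval hp g hs'
  have z1 : P.red ⟨aeval s f, m1⟩ = 0 := by
    have : (⟨aeval s f, m1⟩ : P.O) = 0 := Subtype.ext h0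
    rw [this, map_zero]
  have z2 : P.red ⟨aeval s' g, m2⟩ = 0 := by
    have : (⟨aeval s' g, m2⟩ : P.O) = 0 := Subtype.ext h0'
    rw [this, map_zero]
  rw [z1] at e1
  rw [z2, ← h] at e2
  have hco2 := hco.map (mapRingHom (P.redp hp))
  obtain ⟨u, v, huv⟩ := hco2
  have h3 := congrArg (eval (P.red ⟨s, hs⟩)) huv
  rw [eval_add, eval_mul, eval_mul, eval_one, coe_mapRingHom, ← e1, ← e2] at h3
  simp at h3

/-- `ord (x - y) = 0` if the reductions are different. -/
theorem Place.ord_sub_eq_zero {x y : F} (hx : x ∈ P.O) (hy : y ∈ P.O)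
    (hne : P.red ⟨x, hx⟩ ≠ P.red ⟨y, hy⟩) : P.ord (x - y) = 0 := by
  have hm : x - y ∈ P.O := sub_mem hx hy
  have hr : P.red ⟨x - y, hm⟩ = P.red ⟨x, hx⟩ - P.red ⟨y, hy⟩ := by
    rw [← map_sub]
    rfl
  have h0 : x - y ≠ 0 := by
    intro h
    apply hne
    have hxy : x = y := sub_eq_zero.1 h
    subst hxy
    rfl
  have h1 : ¬ 0 < P.ord (x - y) := by
    rw [← P.red_eq_zero _ hm h0, hr]
    exact sub_ne_zero.2 hne
  have h2 := ((P.mem_O _).1 hm).2
  rcases h2 with h2 | h2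
  · exact absurd h2 h0
  · omega

/-- `ord (x - y) > 0` if the reductions are equal. -/
theorem Place.ord_sub_pos {x y : F} (hx : x ∈ P.O) (hy : y ∈ P.O) (hxy : x ≠ y)
    (h : P.red ⟨x, hx⟩ = P.red ⟨y, hy⟩) : 0 < P.ord (x - y) := by
  have hm : x - y ∈ P.O := sub_mem hx hy
  have hr : P.red ⟨x - y, hm⟩ = P.red ⟨x, hx⟩ - P.red ⟨y, hy⟩ := by
    rw [← map_sub]
    rfl
  rw [← P.red_eq_zero _ hm (sub_ne_zero.2 hxy), hr, h, sub_self]

/-- If `ord x ≥ a` and `ord y > a`... : the value of a sum of two elements of different values. -/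
theorem Place.ord_add {x y : F} (hx : x ∈ K₀) (hy : y ∈ K₀) (hx0 : x ≠ 0) (hy0 : y ≠ 0)
    (h : P.ord x < P.ord y) : x + y ≠ 0 ∧ P.ord (x + y) = P.ord x := by
  have hu : y * x⁻¹ ∈ K₀ := mul_mem hy (inv_mem hx)
  have hu0 : y * x⁻¹ ≠ 0 := mul_ne_zero hy0 (inv_ne_zero hx0)
  have h1 : P.ord (y * x⁻¹ * x) = P.ord (y * x⁻¹) + P.ord x := P.isVal.mul _ hu x hx hu0 hx0
  have h2 : y * x⁻¹ * x = y := by
    rw [mul_assoc, inv_mul_cancel₀ hx0, mul_one]
  rw [h2] at h1
  have h3 : 0 < P.ord (y * x⁻¹) := by omega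
  have hm : y * x⁻¹ ∈ P.O := (P.mem_O _).2 ⟨hu, Or.inr h3.le⟩
  have hr : P.red ⟨y * x⁻¹, hm⟩ = 0 := (P.red_eq_zero _ hm hu0).2 h3
  have hm1 : 1 + y * x⁻¹ ∈ P.O := add_mem (one_mem _) hm
  have hr1 : P.red ⟨1 + y * x⁻¹, hm1⟩ = 1 := by
    have h4 : (⟨1 + y * x⁻¹, hm1⟩ : P.O) = 1 + ⟨y * x⁻¹, hm⟩ := rfl
    rw [h4, map_add, map_one, hr, add_zero]
  have h10 : 1 + y * x⁻¹ ≠ 0 := by
    intro h5
    have h6 : (⟨1 + y * x⁻¹, hm1⟩ : P.O) = 0 := Subtype.ext h5
    rw [h6, map_zero] at hr1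
    exact zero_ne_one hr1
  have h7 : P.ord (1 + y * x⁻¹) = 0 := by
    have h8 : ¬ 0 < P.ord (1 + y * x⁻¹) := by
      rw [← P.red_eq_zero _ hm1 h10, hr1]
      exact one_ne_zero
    rcases ((P.mem_O _).1 hm1).2 with h9 | h9
    · exact absurd h9 h10
    · omega
  have h11 : x + y = (1 + y * x⁻¹) * x := by
    rw [add_mul, one_mul, h2]
  have h12 : 1 + y * x⁻¹ ∈ K₀ := ((P.mem_O _).1 hm1).1
  rw [h11]
  refine ⟨mul_ne_zero h10 hx0, ?_⟩
  rw [P.isVal.mul _ h12 x hx h10 hx0, h7, zero_add]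

/-- The value of `f` at `x ∈ K₀`, `f = lc ∏ (X - s)` with all its roots in `K₀` and simple. -/
theorem Place.ord_aeval (hp : p.Prime) {f : ℤ[X]} (hf : ¬ (p : ℤ) ∣ f.leadingCoeff)
    (R : Finset F) (hR : ∀ s ∈ R, s ∈ K₀)
    (hfR : f.map (algebraMap ℤ F) = C (algebraMap ℤ F f.leadingCoeff) * ∏ s ∈ R, (X - C s))
    {x : F} (hx : x ∈ K₀) (hxR : x ∉ R) :
    P.ord (aeval x f) = ∑ s ∈ R, P.ord (x - s) := by
  have h1 : aeval x f = (f.leadingCoeff : F) * ∏ s ∈ R, (x - s) := by
    rw [aeval_def, ← eval_map, hfR, eval_mul, eval_C, eval_prod]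
    simp
  rw [h1]
  refine ord_lc_mul_h57 P hf R (fun s => x - s) (fun s hs => sub_mem hx (hR s hs)) fun s hs h => ?_
  exact hxR ((sub_eq_zero.1 h) ▸ hs)

/-- The value of the derivative at a root. -/
theorem Place.ord_derivative (hp : p.Prime) {f : ℤ[X]} (hf : ¬ (p : ℤ) ∣ f.leadingCoeff)
    (R : Finset F) (hR : ∀ s ∈ R, s ∈ K₀)
    (hfR : f.map (algebraMap ℤ F) = C (algebraMap ℤ F f.leadingCoeff) * ∏ s ∈ R, (X - C s))
    {x : F} (hxR : x ∈ R) :
    P.ord (aeval x (derivative f)) = ∑ s ∈ R.erase x, P.ord (x - s) := by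
  have h1 : aeval x (derivative f) = (f.leadingCoeff : F) * ∏ s ∈ R.erase x, (x - s) := by
    rw [aeval_def, ← eval_map, ← derivative_map, hfR, ← Finset.mul_prod_erase R _ hxR,
      derivative_mul, derivative_mul, derivative_C, derivative_sub, derivative_X, derivative_C]
    simp only [eval_add, eval_mul, eval_sub, eval_zero, eval_C, eval_X, eval_one, eval_prod]
    simp
  rw [h1]
  refine ord_lc_mul_h57 P hf (R.erase x) (fun s => x - s)
    (fun s hs => sub_mem (hR x hxR) (hR s (Finset.mem_of_mem_erase hs))) fun s hs h => ?_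
  exact (Finset.ne_of_mem_erase hs) (sub_eq_zero.1 h).symm

end

end Pool.Agent.Lib.MP_89bcae_ag

end

section

/-!
# The scheme of the counting with one collapsed coordinate
-/

open Polynomial

open scoped Classical

namespace Pool.Agent.Lib.MP_89bcae_ag

section

variable {κ : Type} [Fintype κ]

/-- As `count_collapse`, with one collapsed coordinate: `u ↦ (u c₁, u ∘ s)` is injective. -/
theorem count_collapse1 {p : ℕ} [Fact p.Prime] (s : κ → κ) (c₁ : κ)
    (hs' : ∀ c, c ≠ c₁ → s c = c) (P : (κ → ZMod p) → Prop) :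
    ({u : κ → ZMod p | P (u ∘ s)}).ncard ≤ p * ({u : κ → ZMod p | P u}).ncard := by
  have h1 : ((Set.univ : Set (ZMod p)) ×ˢ ({u : κ → ZMod p | P u})).ncard =
      p * ({u : κ → ZMod p | P u}).ncard := by
    rw [Set.ncard_prod, Set.ncard_univ, Nat.card_zmod]
  rw [← h1]
  refine Set.ncard_le_ncard_of_injOn (fun u => (u c₁, u ∘ s)) ?_ ?_ (Set.toFinite _)
  · intro u hu
    exact ⟨Set.mem_univ _, hu⟩
  · intro u _ u' _ h
    have h2 : u c₁ = u' c₁ := congrArg (fun t => t.1) h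
    have h4 : u ∘ s = u' ∘ s := congrArg (fun t => t.2) h
    funext c
    by_cases hc1 : c = c₁
    · rw [hc1]
      exact h2
    · have h5 := congrFun h4 c
      simp only [Function.comp_apply] at h5
      rwa [hs' c hc1] at h5

/-- **The scheme of the counting, with one collapsed coordinate.** With `N = card κ`: `count_zeros`
gives `#{u | Δ(u) ≠ 0} ≥ p ^ N - D p ^ (N - 1)`; by `count_collapse1` `p #{u | Gen p u} ≥
#{u | Δ(u) ≠ 0}`; by `half_lift` `2 #G ≥ #{u | Gen p u} p ^ N`. Together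
`2 p #G ≥ p ^ N (p ^ N - D p ^ (N - 1)) ≥ p ^ (2 N) / 2` for `p ≥ 2 D`. -/
theorem count_scheme1 (s : κ → κ) (c₁ c : κ)
    (hs' : ∀ c, c ≠ c₁ → s c = c)
    (Δ : MvPolynomial κ ℤ) (hΔ : Δ ≠ 0)
    (Gen : ∀ p : ℕ, (κ → ZMod p) → Prop)
    (h0 : ∀ p : ℕ, p.Prime → ∀ u : κ → ZMod p, MvPolynomial.aeval u Δ ≠ 0 → Gen p (u ∘ s))
    (G : ∀ p : ℕ, Set (κ → ZMod (p ^ 2)))
    (hG : ∀ p : ℕ, p.Prime → ∀ w, Gen p (redp p w) → w ∉ G p →
      Function.update w c (w c + (p : ZMod (p ^ 2))) ∈ G p) :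
    ∃ P₀ : ℕ, ∀ p : ℕ, p.Prime → P₀ ≤ p →
      (1 / 4 : ℝ) / p * ((p ^ 2 : ℕ) : ℝ) ^ Fintype.card κ ≤ (G p).ncard := by
  obtain ⟨P₁, D, hD⟩ := count_zeros Δ hΔ
  refine ⟨max P₁ (2 * D), fun p hp hpP => ?_⟩
  have : Fact p.Prime := ⟨hp⟩
  have hpos : 0 < p := hp.pos
  set N := Fintype.card κ with hN
  -- the nonzeros of the polynomial
  set Z : Set (κ → ZMod p) := {u | MvPolynomial.aeval u Δ = 0} with hZ
  set A : Set (κ → ZMod p) := {u | Gen p (u ∘ s)} with hA
  set B : Set (κ → ZMod p) := {u | Gen p u} with hB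
  have h1 : Z.ncard * p ≤ D * p ^ N := hD p hp ((le_max_left _ _).trans hpP)
  have h2 : Zᶜ.ncard + Z.ncard = p ^ N := by
    rw [add_comm, Set.ncard_add_ncard_compl, Nat.card_eq_fintype_card, Fintype.card_fun,
      ZMod.card]
  have h3 : Zᶜ.ncard ≤ A.ncard := Set.ncard_le_ncard (fun u hu => h0 p hp u hu) (Set.toFinite _)
  have h4 : A.ncard ≤ p * B.ncard := count_collapse1 s c₁ hs' (fun u => Gen p u)
  have h6 : B.ncard * p ^ N ≤ 2 * (G p).ncard :=
    half_lift hp B c (G p) (fun w hw hwG => by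
      have h := hG p hp w hw hwG
      have e : ∀ (d1 d2 : DecidableEq κ),
          @Function.update _ _ d1 w c (w c + (p : ZMod (p ^ 2))) =
            @Function.update _ _ d2 w c (w c + (p : ZMod (p ^ 2))) := fun d1 d2 => by
        rw [Subsingleton.elim d1 d2]
      exact (e _ _) ▸ h)
  -- the estimates
  have hp2D : 2 * D ≤ p := (le_max_right _ _).trans hpP
  have hpR : (0 : ℝ) < p := by exact_mod_cast hpos
  have h1' : (Z.ncard : ℝ) * p ≤ D * (p : ℝ) ^ N := by exact_mod_cast h1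
  have h2' : (Zᶜ.ncard : ℝ) + Z.ncard = (p : ℝ) ^ N := by exact_mod_cast h2
  have h34 : (Zᶜ.ncard : ℝ) ≤ (p : ℝ) * B.ncard := by exact_mod_cast h3.trans h4
  have h6' : (B.ncard : ℝ) * (p : ℝ) ^ N ≤ 2 * (G p).ncard := by exact_mod_cast h6
  have hD' : 2 * (D : ℝ) ≤ p := by exact_mod_cast hp2D
  have hpN : (0 : ℝ) < (p : ℝ) ^ N := pow_pos hpR N
  -- `2 #Z ≤ p ^ N`
  have h7 : 2 * (Z.ncard : ℝ) ≤ (p : ℝ) ^ N := by
    have h8 : 2 * (Z.ncard : ℝ) * p ≤ (p : ℝ) ^ N * p := by
      calc 2 * (Z.ncard : ℝ) * p = 2 * ((Z.ncard : ℝ) * p) := by ring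
        _ ≤ 2 * (D * (p : ℝ) ^ N) := by linarith
        _ = (2 * (D : ℝ)) * (p : ℝ) ^ N := by ring
        _ ≤ p * (p : ℝ) ^ N := mul_le_mul_of_nonneg_right hD' hpN.le
        _ = (p : ℝ) ^ N * p := by ring
    exact le_of_mul_le_mul_right h8 hpR
  -- `p ^ N ≤ 2 p #B`
  have h9 : (p : ℝ) ^ N ≤ 2 * ((p : ℝ) * B.ncard) := by linarith
  have h10 : (p : ℝ) ^ N * (p : ℝ) ^ N ≤ 4 * (p * (G p).ncard) := by
    calc (p : ℝ) ^ N * (p : ℝ) ^ N ≤ 2 * ((p : ℝ) * B.ncard) * (p : ℝ) ^ N :=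
          mul_le_mul_of_nonneg_right h9 hpN.le
      _ = 2 * p * ((B.ncard : ℝ) * (p : ℝ) ^ N) := by ring
      _ ≤ 2 * p * (2 * (G p).ncard) := mul_le_mul_of_nonneg_left h6' (by positivity)
      _ = 4 * (p * (G p).ncard) := by ring
  have h11 : (((p ^ 2 : ℕ) : ℝ)) ^ N = (p : ℝ) ^ N * (p : ℝ) ^ N := by
    push_cast
    rw [← pow_mul, mul_comm 2 N, pow_mul, sq]
  rw [h11]
  calc (1 / 4 : ℝ) / p * ((p : ℝ) ^ N * (p : ℝ) ^ N)
      ≤ (1 / 4 : ℝ) / p * (4 * (p * (G p).ncard)) :=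
        mul_le_mul_of_nonneg_left h10 (by positivity)
    _ = (G p).ncard := by field_simp

end

end Pool.Agent.Lib.MP_89bcae_ag

end

section

namespace Pool.Agent.Lib.MP_89bcae_ag.Tri

variable {ℓ : ℕ} [Fact ℓ.Prime] {w₁ w₂ w₃ x y : ZMod ℓ}

/-- The sum of the two forms. -/
private noncomputable def B2_h13 (w₁ w₂ w₃ : ZMod ℓ) :
    LinearMap.BilinForm (ZMod ℓ) ((Fin 3 → ZMod ℓ) × (Fin 3 → ZMod ℓ)) :=
  LinearMap.mk₂ (ZMod ℓ) (fun P Q => bf w₁ w₂ w₃ P.1 Q.1 + bf w₁ w₂ w₃ P.2 Q.2)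
    (by intro a b c; simp only [bf, Prod.fst_add, Prod.snd_add, Pi.add_apply]; ring)
    (by intro a b c; simp only [bf, Prod.smul_fst, Prod.smul_snd, Pi.smul_apply, smul_eq_mul]; ring)
    (by intro a b c; simp only [bf, Prod.fst_add, Prod.snd_add, Pi.add_apply]; ring)
    (by intro a b c; simp only [bf, Prod.smul_fst, Prod.smul_snd, Pi.smul_apply, smul_eq_mul]; ring)

private theorem B2_apply_h13 (w₁ w₂ w₃ : ZMod ℓ) (P Q : (Fin 3 → ZMod ℓ) × (Fin 3 → ZMod ℓ)) :
    B2_h13 w₁ w₂ w₃ P Q = bf w₁ w₂ w₃ P.1 Q.1 + bf w₁ w₂ w₃ P.2 Q.2 := rfl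

private theorem bf_symm_h13 (w₁ w₂ w₃ : ZMod ℓ) (X Y : Fin 3 → ZMod ℓ) :
    bf w₁ w₂ w₃ X Y = bf w₁ w₂ w₃ Y X := by
  unfold bf
  ring

private theorem e0_zero_h13 : (e0 : Fin 3 → ZMod ℓ) 0 = 1 := rfl
private theorem e0_one_h13 : (e0 : Fin 3 → ZMod ℓ) 1 = 0 := rfl
private theorem e0_two_h13 : (e0 : Fin 3 → ZMod ℓ) 2 = 0 := rfl

private theorem B2_u_h13 (w₁ w₂ w₃ : ZMod ℓ) (P : (Fin 3 → ZMod ℓ) × (Fin 3 → ZMod ℓ)) :
    B2_h13 w₁ w₂ w₃ P (e0, -e0) = w₁ * w₂ * (P.1 0 - P.2 0) := by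
  rw [B2_apply_h13]
  simp only [bf, Pi.neg_apply, e0_zero_h13, e0_one_h13, e0_two_h13]
  ring

/-- **Two copies.** `c₁`, `c₂` are such that `t₁ = z₀ - 1`, `t₂ = z₀ + 1`. Proof: `pencil` for
`V = (Fin 3 → ZMod ℓ) × (Fin 3 → ZMod ℓ)`, `T (X, Y) = (Tc c₁ X, Tc c₂ Y)`, `B` the sum of the two forms `bf`,
`u = (e0, - e0)`; `B (X, Y) u = w₁ w₂ (X₀ - Y₀)`; take `D = w₁ w₂ y'` for the `y'` of `pencil`. `h1`: if
`T (X, Y) = z (X, Y)` then by `eigenvector` `X = 0` or `z = t₁`, `X = m τ`, and `Y = 0` or `z = t₂`, `Y = m' τ`;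
`t₁ ≠ t₂` (`2 ≠ 0`), so one of them is `0`, and `X₀ = Y₀` gives `m w₃ = 0` (or `m' w₃ = 0`), so both are `0`.
`h2`: `exists_resolvent` for `c₁`, `s = 1` gives `X` with `X₀ = (w₃ / W) / (z₀ - t₁) = w₃ / W`, and for `c₂`,
`s = -1` it gives `Y` with `Y₀ = - (w₃ / W) / (z₀ - t₂) = w₃ / W`; so `T (X, Y) = z₀ (X, Y) - u` and
`B (X, Y) u = 0`; `(X, Y) ≠ 0` since `X₀ ≠ 0`. -/
theorem exists_two (hℓ2 : ℓ ≠ 2) (h1 : w₁ ≠ 0) (h2 : w₂ ≠ 0) (h3 : w₃ ≠ 0) (h12 : w₁ + w₂ ≠ 0)
    (hW : w₁ + w₂ + w₃ ≠ 0) (hy : y ≠ 0) (hL : ∀ z, Lz w₁ w₂ w₃ x y z ≠ 0) {z₀ c₁ c₂ : ZMod ℓ}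
    (hz : z₀ = (w₂ + w₃) * y - w₁ * w₃ * y / (w₁ + w₂))
    (ht₁ : (w₁ + w₂ + w₃) * c₁ - w₃ * x - w₁ * y = z₀ - 1)
    (ht₂ : (w₁ + w₂ + w₃) * c₂ - w₃ * x - w₁ * y = z₀ + 1) :
    ∃ D : ZMod ℓ, ∀ (X Y : Fin 3 → ZMod ℓ) (z : ZMod ℓ),
      Tc w₁ w₂ w₃ x y c₁ X + (D * (X 0 - Y 0)) • e0 = z • X →
      Tc w₁ w₂ w₃ x y c₂ Y + (D * (Y 0 - X 0)) • e0 = z • Y → X = 0 ∧ Y = 0 := by
  have h20 : (2 : ZMod ℓ) ≠ 0 := by
    intro h
    have h' : ((2 : ℕ) : ZMod ℓ) = 0 := by exact_mod_cast h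
    rw [ZMod.natCast_eq_zero_iff] at h'
    exact hℓ2 ((Nat.prime_dvd_prime_iff_eq (Fact.out : ℓ.Prime) Nat.prime_two).1 h')
  have hw12 : w₁ * w₂ ≠ 0 := mul_ne_zero h1 h2
  have htau : ∀ (m : ZMod ℓ) (Z : Fin 3 → ZMod ℓ), Z = m • ![w₃, w₁, w₂] → Z 0 = 0 → Z = 0 := by
    intro m Z hZ h0
    rw [hZ] at h0
    simp only [Pi.smul_apply, Matrix.cons_val_zero, smul_eq_mul] at h0
    have hm : m = 0 := (mul_eq_zero.1 h0).resolve_right h3
    rw [hZ, hm, zero_smul]
  obtain ⟨y', hy'⟩ := pencil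
    (fun P : (Fin 3 → ZMod ℓ) × (Fin 3 → ZMod ℓ) => (Tc w₁ w₂ w₃ x y c₁ P.1, Tc w₁ w₂ w₃ x y c₂ P.2))
    (B2_h13 w₁ w₂ w₃) (by
      intro P Q
      rw [B2_apply_h13, B2_apply_h13, bf_symm_h13 _ _ _ P.1, bf_symm_h13 _ _ _ P.2]) (by
      intro P Q
      rw [B2_apply_h13, B2_apply_h13]
      simp only
      rw [bf_Tc, bf_Tc]) (e0, -e0) (by
      intro P z hT hB
      rw [B2_u_h13] at hB
      have h0 : P.1 0 = P.2 0 := sub_eq_zero.1 ((mul_eq_zero.1 hB).resolve_left hw12)
      have e1 : Tc w₁ w₂ w₃ x y c₁ P.1 = z • P.1 := congrArg Prod.fst hT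
      have e2 : Tc w₁ w₂ w₃ x y c₂ P.2 = z • P.2 := congrArg Prod.snd hT
      rcases eigenvector hW (hL z) e1 with a1 | ⟨a1, a1'⟩
      · rcases eigenvector hW (hL z) e2 with a2 | ⟨a2, a2'⟩
        · exact Prod.ext a1 a2
        · refine Prod.ext a1 (htau _ _ a2' ?_)
          rw [← h0, a1]
          rfl
      · rcases eigenvector hW (hL z) e2 with a2 | ⟨a2, a2'⟩
        · refine Prod.ext (htau _ _ a1' ?_) a2
          rw [h0, a2]
          rfl
        · exfalso
          apply h20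
          rw [ht₁] at a1
          rw [ht₂] at a2
          linear_combination a1 - a2) (by
      obtain ⟨X, hX, hX0⟩ := exists_resolvent (x := x) (c := c₁) (s := 1) (t := z₀ - 1) h1 h3 h12 hW hy hz ht₁.symm
        (by intro h; exact one_ne_zero (α := ZMod ℓ) (by linear_combination h))
      obtain ⟨Y, hY, hY0⟩ := exists_resolvent (x := x) (c := c₂) (s := -1) (t := z₀ + 1) h1 h3 h12 hW hy hz ht₂.symm
        (by intro h; exact one_ne_zero (α := ZMod ℓ) (by linear_combination -h))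
      have e1 : X 0 = w₃ / (w₁ + w₂ + w₃) := by
        rw [hX0, sub_sub_cancel, div_one, mul_one]
      have e2 : Y 0 = w₃ / (w₁ + w₂ + w₃) := by
        rw [hY0, sub_add_cancel_left, mul_neg, mul_one, neg_div_neg_eq, div_one]
      refine ⟨(X, Y), z₀, -1, ?_, ?_, ?_⟩
      · intro h
        have h' : X = 0 := congrArg Prod.fst h
        rw [h'] at e1
        exact div_ne_zero h3 hW e1.symm
      · refine Prod.ext ?_ ?_
        · simp only [Prod.fst_add, Prod.smul_fst]
          rw [← hX]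
          module
        · simp only [Prod.snd_add, Prod.smul_snd]
          rw [← hY]
          module
      · rw [B2_u_h13]
        simp only
        rw [e1, e2, sub_self, mul_zero])
  refine ⟨w₁ * w₂ * y', fun X Y z hX hY => ?_⟩
  have key := hy' (X, Y) z (by
    refine Prod.ext ?_ ?_
    · simp only [Prod.fst_add, Prod.smul_fst]
      rw [← hX, B2_u_h13]
      simp only
      module
    · simp only [Prod.snd_add, Prod.smul_snd]
      rw [← hY, B2_u_h13]
      simp only
      module)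
  exact ⟨congrArg Prod.fst key, congrArg Prod.snd key⟩

end Pool.Agent.Lib.MP_89bcae_ag.Tri

end

section

/-!
# The valuation at a prime of type B

`F` is an algebraic closure of `ℚ`. Let `P` be the place of `exists_place` with `S` the set of the
nodes (finite, stable; `Roots.lean`). All `α_a - α_b` are separable over `ℚ` (`separable_of_gred`); let
`R a b` be the set of roots (`exists_roots`), `f_ab = gdif v a b`.
(a) All nodes are in `P.O` (`Place.root_mem`).
(b) Two roots of the same `f_ab` have different reductions (`sep`, `Place.red_ne_of_separable`). Hence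
the place is not ramified, `P.e = 1`: otherwise there is `σ` as in `exists_place`; it maps a root of
`f_ab` to a root of `f_ab` with the same reduction, hence fixes all nodes, a contradiction. So
`P.ord z = v_p(z)` for `z ∈ ℤ`.
(c) A root of `f_ab` and a root of `f_cd`, for different pairs, have different reductions if the pairs
are not both in the triple (`cop`, `Place.red_ne_of_isCoprime`). If they are both in the triple
`i, j, l` and have the same reduction `x`, then `x` is a root of two, hence (`f_ij + f_jl = f_il`) of all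
three reduced polynomials, so of `(X - z) g` and `(X - z) h` (`col`) with `g`, `h` coprime: `x = z`.
(d) By `Place.ord_aeval`, `P.ord (f_ij(z)) = ∑_{s ∈ R i j} P.ord (z - s)`, which is `≥ 2` (or `f_ij(z) = 0`
and `z ∈ R i j`, put `r = z`). By (b) at most one term is not zero: there is exactly one `r ∈ R i j` with
reduction `z`, and `P.ord (z - r) ≥ 2` (or `r = z`). In the same way there is exactly one `r' ∈ R j l`
with reduction `z`, `P.ord (z - r') = 1`, and exactly one `r'' ∈ R i l` with reduction `z`, and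
`P.ord (z - r'') = 1`, since `p` divides `f_jl(z)` and `f_il(z) = f_ij(z) + f_jl(z)` exactly once. Hence
(`Place.ord_add`) `P.ord (r - r') = P.ord (r - r'') = 1`. Moreover `f_il(r') = f_ij(r')` (since
`f_jl(r') = 0`), so `P.ord (r' - r'') = P.ord (f_il(r')) = P.ord (f_ij(r')) = P.ord (r' - r) = 1`
(`Place.ord_aeval`, the other terms are `0`).
(e) `ν = P.ord`, `h = 1`: the differences of nodes have value `0` except the three above; the derivatives
by `Place.ord_derivative` and (b); `α_a(s) - α_c(s) = f_ac(s)` by `Place.ord_aeval`.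
-/

open Polynomial

open scoped Classical

namespace Pool.Agent.Lib.MP_89bcae_ag

open Superelliptic

variable {ι : Type} [Fintype ι] {n : ℕ} {F : Type} [Field F] [Algebra ℚ F] [IsAlgClosure ℚ F]

section h61

variable {p : ℕ} {K₀ : Subfield F} (P : Place p K₀)

/-- The reduction, as a function on `F`. -/
noncomputable def rd_h61 (x : F) : P.κ := if h : x ∈ P.O then P.red ⟨x, h⟩ else 0

omit [Algebra ℚ F] [IsAlgClosure ℚ F] in
lemma rd_eq_h61 {x : F} (hx : x ∈ P.O) : rd_h61 P x = P.red ⟨x, hx⟩ := dif_pos hx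

omit [Algebra ℚ F] [IsAlgClosure ℚ F] in
lemma memK_h61 {x : F} (hx : x ∈ P.O) : x ∈ K₀ := ((P.mem_O x).1 hx).1

omit [Algebra ℚ F] [IsAlgClosure ℚ F] in
lemma ord_neg_h61 {x : F} (hx : x ∈ K₀) : P.ord (-x) = P.ord x := by
  by_cases h0 : x = 0
  · rw [h0, neg_zero]
  · have := P.isVal.mul (-1) (K₀.neg_mem K₀.one_mem) x hx (by simp) h0
    rw [P.isVal.neg_one, zero_add, neg_one_mul] at this
    exact this

omit [Algebra ℚ F] [IsAlgClosure ℚ F] in
lemma ord_comm_h61 {x y : F} (hx : x ∈ P.O) (hy : y ∈ P.O) : P.ord (x - y) = P.ord (y - x) := by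
  rw [← neg_sub y x, ord_neg_h61 P (K₀.sub_mem (memK_h61 P hy) (memK_h61 P hx))]

omit [IsAlgClosure ℚ F] in
lemma ord_zero_h61 {x y : F} (hx : x ∈ P.O) (hy : y ∈ P.O) (h : rd_h61 P x ≠ rd_h61 P y) :
    P.ord (x - y) = 0 := by
  rw [rd_eq_h61 P hx, rd_eq_h61 P hy] at h
  exact P.ord_sub_eq_zero hx hy h

omit [IsAlgClosure ℚ F] in
lemma rd_int_h61 (hp : p.Prime) (z : ℤ) : rd_h61 P (z : F) = P.redp hp (z : ZMod p) := by
  rw [rd_eq_h61 P (P.int_mem z), map_intCast]
  have : (⟨(z : F), P.int_mem z⟩ : P.O) = ((z : ℤ) : P.O) := Subtype.ext (by simp)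
  rw [this, map_intCast]

omit [IsAlgClosure ℚ F] in
lemma rd_root_h61 (hp : p.Prime) {f : ℤ[X]} {s : F} (hs : s ∈ P.O) (h0 : aeval s f = 0) :
    ((f.map (Int.castRingHom (ZMod p))).map (P.redp hp)).eval (rd_h61 P s) = 0 := by
  obtain ⟨h1, h2⟩ := P.red_aeval hp f hs
  rw [rd_eq_h61 P hs, ← h2]
  have : (⟨aeval s f, h1⟩ : P.O) = 0 := Subtype.ext h0
  rw [this, map_zero]

/-- The properties of the set of roots of one difference. -/
structure GoodR_h61 (f : ℤ[X]) (R : Finset F) : Prop where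
  lc : ¬ (p : ℤ) ∣ f.leadingCoeff
  O : ∀ s ∈ R, s ∈ P.O
  root : ∀ s, s ∈ R ↔ aeval s f = 0
  fac : f.map (algebraMap ℤ F) = C (algebraMap ℤ F f.leadingCoeff) * ∏ s ∈ R, (X - C s)
  red : ∀ s s', s ∈ R → s' ∈ R → rd_h61 P s = rd_h61 P s' → s = s'

omit [IsAlgClosure ℚ F] in
lemma val_one_h61 (hp : p.Prime) {f : ℤ[X]} {R : Finset F} (H : GoodR_h61 P f R) {x r : F}
    (hx : x ∈ P.O) (hxR : x ∉ R) (hr : r ∈ R) (h : rd_h61 P r = rd_h61 P x) :
    P.ord (aeval x f) = P.ord (x - r) := by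
  rw [P.ord_aeval hp H.lc R (fun s hs => memK_h61 P (H.O s hs)) H.fac (memK_h61 P hx) hxR]
  rw [Finset.sum_eq_single r]
  · intro s hs hsr
    apply ord_zero_h61 P hx (H.O s hs)
    intro h2
    exact hsr (H.red s r hs hr (h2.symm.trans h.symm))
  · intro h
    exact absurd hr h

omit [IsAlgClosure ℚ F] in
lemma ex_root_h61 (hp : p.Prime) {f : ℤ[X]} {R : Finset F} (H : GoodR_h61 P f R) {x : F}
    (hx : x ∈ P.O) (hxR : x ∉ R) (hpos : 0 < P.ord (aeval x f)) :
    ∃ r ∈ R, rd_h61 P r = rd_h61 P x := by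
  by_contra hcon
  push Not at hcon
  rw [P.ord_aeval hp H.lc R (fun s hs => memK_h61 P (H.O s hs)) H.fac (memK_h61 P hx) hxR,
    Finset.sum_eq_zero] at hpos
  · exact lt_irrefl _ hpos
  · intro s hs
    exact ord_zero_h61 P hx (H.O s hs) (fun h => hcon s hs h.symm)

omit [IsAlgClosure ℚ F] in
lemma claim_h61 (hp : p.Prime) (he : P.e = 1) {f : ℤ[X]} {R : Finset F} (H : GoodR_h61 P f R)
    (z : ℤ) (hz : (p : ℤ) ∣ f.eval z) :
    ∃ r ∈ R, rd_h61 P r = rd_h61 P (z : F) ∧ ((z : F) = r ∨ ((z : F) ≠ r ∧ f.eval z ≠ 0 ∧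
      P.ord ((z : F) - r) = padicValInt p (f.eval z))) := by
  have haev : aeval (z : F) f = ((f.eval z : ℤ) : F) := by
    rw [aeval_def, eval₂_at_intCast]
    simp
  by_cases hzR : (z : F) ∈ R
  · exact ⟨z, hzR, rfl, Or.inl rfl⟩
  · have hne : f.eval z ≠ 0 := by
      intro h
      apply hzR
      rw [H.root, haev, h, Int.cast_zero]
    have hord : P.ord (aeval (z : F) f) = padicValInt p (f.eval z) := by
      rw [haev, P.rat _ hne, he]
      simp
    have hpos : 0 < padicValInt p (f.eval z) := by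
      have : Fact p.Prime := ⟨hp⟩
      have h1 := (padicValInt_dvd_iff (p := p) 1 (f.eval z)).1 (by simpa using hz)
      rcases h1 with h1 | h1
      · exact absurd h1 hne
      · omega
    have hpos' : 0 < P.ord (aeval (z : F) f) := by
      rw [hord]
      exact_mod_cast hpos
    obtain ⟨r, hr, hrz⟩ := ex_root_h61 P hp H (P.int_mem z) hzR hpos'
    refine ⟨r, hr, hrz, Or.inr ⟨fun h => hzR (h ▸ hr), hne, ?_⟩⟩
    rw [← hord]
    exact (val_one_h61 P hp H (P.int_mem z) hzR hr hrz).symm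

end h61

/-- Parts (a)-(d). -/
theorem place_typeB (v : ι × Fin (n + 1) → ℤ) {p : ℕ} (hp : p.Prime) {i j l : ι}
    (hij : i ≠ j) (hjl : j ≠ l) (hil : i ≠ l) (h : TypeB p i j l v) :
    ∃ (P : Place p (IntermediateField.adjoin ℚ (nodes ℚ F (gpolQ v))).toSubfield)
      (r r' r'' : F), aeval r (gpolQ v i) = aeval r (gpolQ v j) ∧
      aeval r' (gpolQ v j) = aeval r' (gpolQ v l) ∧ aeval r'' (gpolQ v i) = aeval r'' (gpolQ v l) ∧
      (∀ s ∈ nodes ℚ F (gpolQ v), s ∈ P.O) ∧ r ≠ r' ∧ r ≠ r'' ∧ r' ≠ r'' ∧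
      P.ord (r - r') = 1 ∧ P.ord (r - r'') = 1 ∧ P.ord (r' - r'') = 1 ∧
      ∀ s ∈ nodes ℚ F (gpolQ v), ∀ s' ∈ nodes ℚ F (gpolQ v), s ≠ s' →
        ¬ (s ∈ ({r, r', r''} : Set F) ∧ s' ∈ ({r, r', r''} : Set F)) → P.ord (s - s') = 0 := by
  have : Fact p.Prime := ⟨hp⟩
  have : CharZero F := algebraRat.charZero F
  have hQ : ∀ a b, a ≠ b → (gpolQ v a - gpolQ v b).Separable := fun a b hab =>
    separable_of_gred hp (h.lead a b hab) (h.sep a b hab)
  have hne : ∀ a b, a ≠ b → gpolQ v a ≠ gpolQ v b := fun a b hab he =>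
    (hQ a b hab).ne_zero (sub_eq_zero.2 he)
  have hlne : ∀ a b, a ≠ b → v (a, Fin.last n) ≠ v (b, Fin.last n) := by
    intro a b hab he
    apply h.lead a b hab
    rw [he, sub_self]
    exact dvd_zero _
  have hlc : ∀ a b, a ≠ b → ¬ (p : ℤ) ∣ (gdif v a b).leadingCoeff := by
    intro a b hab
    rw [gdif_leadingCoeff (hlne a b hab)]
    exact h.lead a b hab
  obtain ⟨P, hram⟩ := exists_place (F := F) hp (nodes ℚ F (gpolQ v)) (nodes_gpolQ_finite hne)
    (fun σ => nodes_stable _ σ)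
  have hK : ∀ s ∈ nodes ℚ F (gpolQ v),
      s ∈ (IntermediateField.adjoin ℚ (nodes ℚ F (gpolQ v))).toSubfield :=
    fun s hs => IntermediateField.subset_adjoin ℚ _ hs
  have hroot : ∀ a b (s : F), aeval s (gdif v a b) = 0 ↔
      aeval s (gpolQ v a) = aeval s (gpolQ v b) := by
    intro a b s
    rw [aeval_gdif, sub_eq_zero]
  have hO : ∀ s ∈ nodes ℚ F (gpolQ v), s ∈ P.O := by
    intro s hs
    obtain ⟨a, b, hab, hs'⟩ := id hs
    exact P.root_mem hp (hlc a b hab) (hK s hs) ((hroot a b s).2 hs')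
  have hOab : ∀ a b, a ≠ b → ∀ s, aeval s (gpolQ v a) = aeval s (gpolQ v b) → s ∈ P.O :=
    fun a b hab s hs => hO s ⟨a, b, hab, hs⟩
  have hsame : ∀ a b, a ≠ b → ∀ s s', aeval s (gpolQ v a) = aeval s (gpolQ v b) →
      aeval s' (gpolQ v a) = aeval s' (gpolQ v b) → rd_h61 P s = rd_h61 P s' → s = s' := by
    intro a b hab s s' hs hs' he
    by_contra hc
    have h1 := hOab a b hab s hs
    have h2 := hOab a b hab s' hs'
    rw [rd_eq_h61 P h1, rd_eq_h61 P h2] at he
    exact P.red_ne_of_separable hp (h.sep a b hab) h1 h2 ((hroot a b s).2 hs)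
      ((hroot a b s').2 hs') hc he
  -- not ramified
  have he1 : P.e = 1 := by
    have h0 := P.e_pos
    by_contra hc
    obtain ⟨σ, ⟨s, hs, hσs⟩, hσ⟩ := hram (by omega)
    obtain ⟨a, b, hab, hs'⟩ := id hs
    have hσs' : aeval (σ s) (gpolQ v a) = aeval (σ s) (gpolQ v b) := by
      have e1 := congrArg σ hs'
      have e2 : ∀ q : ℚ[X], σ (aeval s q) = aeval (σ s) q := fun q =>
        (aeval_algHom_apply (σ : F →ₐ[ℚ] F) s q).symm
      rw [e2, e2] at e1
      exact e1
    obtain ⟨hx', hx''⟩ := hσ s (hO s hs)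
    apply hσs
    apply hsame a b hab _ _ hσs' hs'
    rw [rd_eq_h61 P hx', rd_eq_h61 P (hO s hs)]
    exact hx''
  -- the sets of roots
  have hR : ∀ a b, a ≠ b → ∃ R : Finset F, GoodR_h61 P (gdif v a b) R := by
    intro a b hab
    obtain ⟨R, hR1, hR2⟩ := exists_roots (F := F) (hQ a b hab)
    exact ⟨R, hlc a b hab, fun s hs => hOab a b hab s ((hR1 s).1 hs),
      fun s => (hR1 s).trans (hroot a b s).symm, hR2,
      fun s s' hs hs' => hsame a b hab s s' ((hR1 s).1 hs) ((hR1 s').1 hs')⟩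
  obtain ⟨Rij, Hij⟩ := hR i j hij
  obtain ⟨Rjl, Hjl⟩ := hR j l hjl
  obtain ⟨Ril, Hil⟩ := hR i l hil
  obtain ⟨z, hz1, hz2, hz3, g, h', hg, hh, hco⟩ := h.col
  have hsum : (gdif v i l).eval z = (gdif v i j).eval z + (gdif v j l).eval z := by
    rw [← gdif_add v i j l, eval_add]
  have hpp : (p : ℤ) ∣ (p : ℤ) ^ 2 := dvd_pow_self _ (by norm_num)
  have hz4 : (p : ℤ) ∣ (gdif v i l).eval z := by
    rw [hsum]
    exact dvd_add (hpp.trans hz1) hz2
  have hz5 : ¬ (p : ℤ) ^ 2 ∣ (gdif v i l).eval z := by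
    rw [hsum]
    intro hc
    exact hz3 ((dvd_add_right hz1).1 hc)
  have hval1 : ∀ y : ℤ, (p : ℤ) ∣ y → ¬ (p : ℤ) ^ 2 ∣ y → padicValInt p y = 1 := by
    intro y h1 h2
    have e1 := (padicValInt_dvd_iff (p := p) 1 y).1 (by simpa using h1)
    rw [padicValInt_dvd_iff] at h2
    push Not at h2
    rcases e1 with e1 | e1
    · exact absurd e1 h2.1
    · omega
  obtain ⟨r, hr, hrz, hr2⟩ := claim_h61 P hp he1 Hij z (hpp.trans hz1)
  obtain ⟨r', hr', hrz', hr2'⟩ := claim_h61 P hp he1 Hjl z hz2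
  obtain ⟨r'', hr'', hrz'', hr2''⟩ := claim_h61 P hp he1 Hil z hz4
  have hzO : (z : F) ∈ P.O := P.int_mem z
  have hzr' : (z : F) ≠ r' ∧ P.ord ((z : F) - r') = 1 := by
    rcases hr2' with e | e
    · exfalso
      have e1 : aeval (z : F) (gdif v j l) = 0 := (Hjl.root _).1 (e ▸ hr')
      rw [aeval_def, eval₂_at_intCast] at e1
      have e2 : (gdif v j l).eval z = 0 := by
        have e3 : (((gdif v j l).eval z : ℤ) : F) = 0 := by simpa using e1
        exact_mod_cast e3
      exact hz3 (e2 ▸ dvd_zero _)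
    · exact ⟨e.1, by rw [e.2.2, hval1 _ hz2 hz3]; simp⟩
  have hzr'' : (z : F) ≠ r'' ∧ P.ord ((z : F) - r'') = 1 := by
    rcases hr2'' with e | e
    · exfalso
      have e1 : aeval (z : F) (gdif v i l) = 0 := (Hil.root _).1 (e ▸ hr'')
      rw [aeval_def, eval₂_at_intCast] at e1
      have e2 : (gdif v i l).eval z = 0 := by
        have e3 : (((gdif v i l).eval z : ℤ) : F) = 0 := by simpa using e1
        exact_mod_cast e3
      exact hz5 (e2 ▸ dvd_zero _)
    · exact ⟨e.1, by rw [e.2.2, hval1 _ hz4 hz5]; simp⟩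
  have hrO := Hij.O r hr
  have hrO' := Hjl.O r' hr'
  have hrO'' := Hil.O r'' hr''
  -- the value of `r - t` for `t` with `ord (z - t) = 1`
  have hkey : ∀ t, t ∈ P.O → (z : F) ≠ t → P.ord ((z : F) - t) = 1 →
      r ≠ t ∧ P.ord (r - t) = 1 := by
    intro t ht hzt hord
    rcases hr2 with e | e
    · rw [← e]
      exact ⟨hzt, hord⟩
    · have h2 : 2 ≤ padicValInt p ((gdif v i j).eval z) := by
        rcases (padicValInt_dvd_iff (p := p) 2 _).1 hz1 with e3 | e3
        · exact absurd e3 e.2.1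
        · exact e3
      have h3 : P.ord (r - z) = padicValInt p ((gdif v i j).eval z) := by
        rw [ord_comm_h61 P hrO hzO, e.2.2]
      have h4 := P.ord_add (x := (z : F) - t) (y := r - z)
        (Subfield.sub_mem _ (memK_h61 P hzO) (memK_h61 P ht))
        (Subfield.sub_mem _ (memK_h61 P hrO) (memK_h61 P hzO)) (sub_ne_zero.2 hzt)
        (sub_ne_zero.2 (Ne.symm e.1)) (by rw [hord, h3]; exact_mod_cast h2)
      have h5 : (z : F) - t + (r - z) = r - t := by ring
      rw [h5, hord] at h4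
      exact ⟨sub_ne_zero.1 h4.1, h4.2⟩
  obtain ⟨hrr', hord1⟩ := hkey r' hrO' hzr'.1 hzr'.2
  obtain ⟨hrr'', hord2⟩ := hkey r'' hrO'' hzr''.1 hzr''.2
  have hadd : ∀ s : F, aeval s (gdif v i l) = aeval s (gdif v i j) + aeval s (gdif v j l) := by
    intro s
    rw [← gdif_add v i j l, map_add]
  have hr'ij : r' ∉ Rij := by
    intro hc
    exact hrr' (Hij.red r r' hr hc (hrz.trans hrz'.symm))
  have hr'il : r' ∉ Ril := by
    intro hc
    apply hr'ij
    rw [Hij.root]
    have e1 := hadd r'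
    rw [(Hil.root r').1 hc, (Hjl.root r').1 hr', add_zero] at e1
    exact e1.symm
  have hr'r'' : r' ≠ r'' := fun hc => hr'il (hc ▸ hr'')
  have hord3 : P.ord (r' - r'') = 1 := by
    rw [← val_one_h61 P hp Hil hrO' hr'il hr'' (hrz''.trans hrz'.symm), hadd,
      (Hjl.root r').1 hr', add_zero,
      val_one_h61 P hp Hij hrO' hr'ij hr (hrz.trans hrz'.symm), ord_comm_h61 P hrO' hrO]
    exact hord1
  refine ⟨P, r, r', r'', (hroot i j r).1 ((Hij.root r).1 hr), (hroot j l r').1 ((Hjl.root r').1 hr'),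
    (hroot i l r'').1 ((Hil.root r'').1 hr''), hO, hrr', hrr'', hr'r'', hord1, hord2, hord3, ?_⟩
  intro s hs s' hs' hss' hnot
  by_contra hord0
  have hrd : rd_h61 P s = rd_h61 P s' := by
    by_contra hc
    exact hord0 (ord_zero_h61 P (hO s hs) (hO s' hs') hc)
  obtain ⟨a, b, hab, hsab⟩ := id hs
  obtain ⟨c, d, hcd, hscd⟩ := id hs'
  -- the pairs are different
  have hpair : ({a, b} : Set ι) ≠ {c, d} := by
    intro hc
    have h1 : (a = c ∧ b = d) ∨ (a = d ∧ b = c) := by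
      exact Set.pair_eq_pair_iff.1 hc
    rcases h1 with ⟨rfl, rfl⟩ | ⟨rfl, rfl⟩
    · exact hss' (hsame a b hab s s' hsab hscd hrd)
    · exact hss' (hsame a b hab s s' hsab hscd.symm hrd)
  -- they are in the triple
  have htri : ({a, b, c, d} : Set ι) ⊆ {i, j, l} := by
    by_contra hc
    have h1 := P.red_ne_of_isCoprime hp (h.cop a b c d hab hcd hpair hc) (hO s hs) (hO s' hs')
      ((hroot a b s).2 hsab) ((hroot c d s').2 hscd)
    rw [rd_eq_h61 P (hO s hs), rd_eq_h61 P (hO s' hs')] at hrd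
    exact h1 hrd
  have ha : a = i ∨ a = j ∨ a = l := htri (by simp)
  have hb : b = i ∨ b = j ∨ b = l := htri (by simp)
  have hc : c = i ∨ c = j ∨ c = l := htri (by simp)
  have hd : d = i ∨ d = j ∨ d = l := htri (by simp)
  set x := rd_h61 P s with hx
  set y : ι → P.κ := fun a => (((gpol v a).map (Int.castRingHom (ZMod p))).map (P.redp hp)).eval x
    with hy
  have hyab : ∀ a b (t : F), t ∈ P.O → aeval t (gpolQ v a) = aeval t (gpolQ v b) →
      rd_h61 P t = x → y a = y b := by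
    intro a b t ht htab htx
    have h1 := rd_root_h61 P hp ht ((hroot a b t).2 htab)
    rw [gdif, Polynomial.map_sub, Polynomial.map_sub, eval_sub, htx, sub_eq_zero] at h1
    exact h1
  have h1 : y a = y b := hyab a b s (hO s hs) hsab rfl
  have h2 : y c = y d := hyab c d s' (hO s' hs') hscd hrd.symm
  have hcase : ∀ a b, a ≠ b → (a = i ∨ a = j ∨ a = l) → (b = i ∨ b = j ∨ b = l) → y a = y b →
      (({a, b} : Set ι) = {i, j} ∧ y i = y j) ∨ (({a, b} : Set ι) = {j, l} ∧ y j = y l) ∨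
        (({a, b} : Set ι) = {i, l} ∧ y i = y l) := by
    intro a b hab ha hb hyy
    rcases ha with ha | ha | ha <;> rcases hb with hb | hb | hb <;> rw [ha, hb] at hab hyy <;>
      rw [ha, hb]
    · exact absurd rfl hab
    · exact Or.inl ⟨rfl, hyy⟩
    · exact Or.inr (Or.inr ⟨rfl, hyy⟩)
    · exact Or.inl ⟨Set.pair_comm _ _, hyy.symm⟩
    · exact absurd rfl hab
    · exact Or.inr (Or.inl ⟨rfl, hyy⟩)
    · exact Or.inr (Or.inr ⟨Set.pair_comm _ _, hyy.symm⟩)
    · exact Or.inr (Or.inl ⟨Set.pair_comm _ _, hyy.symm⟩)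
    · exact absurd rfl hab
  have h3 : y i = y j ∧ y j = y l := by
    rcases hcase a b hab ha hb h1 with ⟨e1, f1⟩ | ⟨e1, f1⟩ | ⟨e1, f1⟩ <;>
      rcases hcase c d hcd hc hd h2 with ⟨e2, f2⟩ | ⟨e2, f2⟩ | ⟨e2, f2⟩
    · exact absurd (e1.trans e2.symm) hpair
    · exact ⟨f1, f2⟩
    · exact ⟨f1, f1.symm.trans f2⟩
    · exact ⟨f2, f1⟩
    · exact absurd (e1.trans e2.symm) hpair
    · exact ⟨f2.trans f1.symm, f1⟩
    · exact ⟨f2, f2.symm.trans f1⟩
    · exact ⟨f1.trans f2.symm, f2⟩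
    · exact absurd (e1.trans e2.symm) hpair
  -- `x` is the reduction of `z`
  have hxz : x = rd_h61 P (z : F) := by
    rw [rd_int_h61 P hp]
    by_contra hxne
    have e1 : ((gred p v i j).map (P.redp hp)).eval x = 0 := by
      rw [gred, gdif, Polynomial.map_sub, Polynomial.map_sub, eval_sub, sub_eq_zero]
      exact h3.1
    have e2 : ((gred p v j l).map (P.redp hp)).eval x = 0 := by
      rw [gred, gdif, Polynomial.map_sub, Polynomial.map_sub, eval_sub, sub_eq_zero]
      exact h3.2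
    rw [hg, Polynomial.map_mul, Polynomial.map_sub, map_X, map_C, eval_mul, eval_sub, eval_X,
      eval_C] at e1
    rw [hh, Polynomial.map_mul, Polynomial.map_sub, map_X, map_C, eval_mul, eval_sub, eval_X,
      eval_C] at e2
    have e3 := (mul_eq_zero.1 e1).resolve_left (sub_ne_zero.2 hxne)
    have e4 := (mul_eq_zero.1 e2).resolve_left (sub_ne_zero.2 hxne)
    obtain ⟨A, B, hAB⟩ := hco
    have e5 := congrArg (fun q => (q.map (P.redp hp)).eval x) hAB
    simp only [Polynomial.map_add, Polynomial.map_mul, eval_add, eval_mul, e3, e4, mul_zero,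
      add_zero, Polynomial.map_one, eval_one] at e5
    exact zero_ne_one e5
  -- the elements with this reduction
  have hmem : ∀ a b (t : F), a ≠ b → (a = i ∨ a = j ∨ a = l) → (b = i ∨ b = j ∨ b = l) →
      aeval t (gpolQ v a) = aeval t (gpolQ v b) → rd_h61 P t = rd_h61 P (z : F) →
      t ∈ ({r, r', r''} : Set F) := by
    intro a b t hab ha hb htab htz
    have f1 : ∀ (htij : aeval t (gpolQ v i) = aeval t (gpolQ v j)), t ∈ ({r, r', r''} : Set F) := by
      intro htij
      have : t = r := Hij.red t r ((Hij.root t).2 ((hroot i j t).2 htij)) hr (htz.trans hrz.symm)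
      simp [this]
    have f2 : ∀ (htij : aeval t (gpolQ v j) = aeval t (gpolQ v l)), t ∈ ({r, r', r''} : Set F) := by
      intro htij
      have : t = r' := Hjl.red t r' ((Hjl.root t).2 ((hroot j l t).2 htij)) hr' (htz.trans hrz'.symm)
      simp [this]
    have f3 : ∀ (htij : aeval t (gpolQ v i) = aeval t (gpolQ v l)), t ∈ ({r, r', r''} : Set F) := by
      intro htij
      have : t = r'' :=
        Hil.red t r'' ((Hil.root t).2 ((hroot i l t).2 htij)) hr'' (htz.trans hrz''.symm)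
      simp [this]
    rcases ha with ha | ha | ha <;> rcases hb with hb | hb | hb <;> rw [ha, hb] at htab
    · exact absurd (ha.trans hb.symm) hab
    · exact f1 htab
    · exact f3 htab
    · exact f1 htab.symm
    · exact absurd (ha.trans hb.symm) hab
    · exact f2 htab
    · exact f3 htab.symm
    · exact f2 htab.symm
    · exact absurd (ha.trans hb.symm) hab
  exact hnot ⟨hmem a b s hab ha hb hsab hxz, hmem c d s' hcd hc hd hscd (hrd.symm.trans hxz)⟩

/-- Part (e), from `place_typeB`. (The elements of `{r, r', r''}` are roots of exactly one difference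
each, so that at most one of them is a root of a given `f_ab`.) -/
theorem exists_val_typeB (v : ι × Fin (n + 1) → ℤ) {p : ℕ} (hp : p.Prime) {i j l : ι}
    (hij : i ≠ j) (hjl : j ≠ l) (hil : i ≠ l) (h : TypeB p i j l v) :
    ∃ (ν : F → ℤ) (r r' r'' : F), aeval r (gpolQ v i) = aeval r (gpolQ v j) ∧
      aeval r' (gpolQ v j) = aeval r' (gpolQ v l) ∧ aeval r'' (gpolQ v i) = aeval r'' (gpolQ v l) ∧
      IsVal (IntermediateField.adjoin ℚ (nodes ℚ F (gpolQ v))).toSubfield ν ∧
      TripleV ν (gpolQ v) 1 i j l r r' r'' := by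
  obtain ⟨P, r, r', r'', hr, hr', hr'', hO, n1, n2, n3, o1, o2, o3, hz⟩ :=
    place_typeB (F := F) v hp hij hjl hil h
  have hK : ∀ s ∈ nodes ℚ F (gpolQ v), s ∈ (IntermediateField.adjoin ℚ (nodes ℚ F (gpolQ v))).toSubfield :=
    fun s hs => IntermediateField.subset_adjoin ℚ _ hs
  have hnode : ∀ (a b : ι) (s : F), a ≠ b → aeval s (gpolQ v a) = aeval s (gpolQ v b) →
      s ∈ nodes ℚ F (gpolQ v) := fun a b s hab hs => ⟨a, b, hab, hs⟩
  have hneg : ∀ x ∈ nodes ℚ F (gpolQ v), ∀ y ∈ nodes ℚ F (gpolQ v), x ≠ y →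
      P.ord (y - x) = P.ord (x - y) := by
    intro x hx y hy hxy
    have h1 := P.isVal.mul (-1) (neg_mem (one_mem _)) (x - y) (sub_mem (hK x hx) (hK y hy))
      (neg_ne_zero.2 one_ne_zero) (sub_ne_zero.2 hxy)
    rw [P.isVal.neg_one, zero_add] at h1
    rw [← h1]
    congr 1
    ring
  have hN : r ∈ nodes ℚ F (gpolQ v) := hnode i j r hij hr
  have hN' : r' ∈ nodes ℚ F (gpolQ v) := hnode j l r' hjl hr'
  have hN'' : r'' ∈ nodes ℚ F (gpolQ v) := hnode i l r'' hil hr''
  -- F1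
  have F1 : ∀ s ∈ ({r, r', r''} : Set F), ∀ t ∈ ({r, r', r''} : Set F), s ≠ t → P.ord (s - t) = 1 := by
    intro s hs t ht hst
    simp only [Set.mem_insert_iff, Set.mem_singleton_iff] at hs ht
    rcases hs with rfl | rfl | rfl <;> rcases ht with rfl | rfl | rfl
    · exact absurd rfl hst
    · exact o1
    · exact o2
    · rw [hneg _ hN _ hN' n1]; exact o1
    · exact absurd rfl hst
    · exact o3
    · rw [hneg _ hN _ hN'' n2]; exact o2
    · rw [hneg _ hN' _ hN'' n3]; exact o3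
    · exact absurd rfl hst
  have hz0 : ∀ (a b : ι) (s : F), aeval s (gpolQ v a) = aeval s (gpolQ v b) → aeval s (gdif v a b) = 0 := by
    intro a b s hs
    rw [aeval_gdif, hs, sub_self]
  -- F3
  have F3' : ∀ (a b : ι) (s t : F) (hs : s ∈ P.O) (ht : t ∈ P.O), a ≠ b → aeval s (gpolQ v a) = aeval s (gpolQ v b) →
      aeval t (gpolQ v a) = aeval t (gpolQ v b) → s ≠ t → P.red ⟨s, hs⟩ ≠ P.red ⟨t, ht⟩ :=
    fun a b s t hs ht hab h1 h2 hst => P.red_ne_of_separable hp (h.sep a b hab) hs ht (hz0 a b s h1) (hz0 a b t h2) hst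
  have F3 : ∀ (a b : ι) (s t : F), a ≠ b → aeval s (gpolQ v a) = aeval s (gpolQ v b) →
      aeval t (gpolQ v a) = aeval t (gpolQ v b) → s ≠ t → P.ord (s - t) = 0 := by
    intro a b s t hab h1 h2 hst
    have hs := hO s (hnode a b s hab h1)
    have ht := hO t (hnode a b t hab h2)
    exact P.ord_sub_eq_zero hs ht (F3' a b s t hs ht hab h1 h2 hst)
  -- coprime reductions
  have Fc : ∀ (a b c d : ι) (s : F), a ≠ b → c ≠ d → aeval s (gpolQ v a) = aeval s (gpolQ v b) →
      aeval s (gpolQ v c) = aeval s (gpolQ v d) → ({a, b} : Set ι) ≠ {c, d} →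
      ({a, b, c, d} : Set ι) ⊆ {i, j, l} := by
    intro a b c d s hab hcd h1 h2 hne
    by_contra hcon
    have hs := hO s (hnode a b s hab h1)
    exact P.red_ne_of_isCoprime hp (h.cop a b c d hab hcd hne hcon) hs hs (hz0 a b s h1) (hz0 c d s h2) rfl
  -- common roots modulo p
  obtain ⟨z, _, _, _, g, g', hg, hg', hgg⟩ := h.col
  have FC : ∀ (s t : F) (hs : s ∈ P.O) (ht : t ∈ P.O), aeval s (gpolQ v i) = aeval s (gpolQ v j) →
      aeval t (gpolQ v j) = aeval t (gpolQ v l) → P.red ⟨s, hs⟩ = P.red ⟨t, ht⟩ →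
      P.red ⟨s, hs⟩ = P.redp hp (z : ZMod p) := by
    intro s t hs ht h1 h2 hst
    obtain ⟨m1, e1⟩ := P.red_aeval hp (gdif v i j) hs
    obtain ⟨m2, e2⟩ := P.red_aeval hp (gdif v j l) ht
    have q1 : P.red ⟨aeval s (gdif v i j), m1⟩ = 0 := by
      have : (⟨aeval s (gdif v i j), m1⟩ : P.O) = 0 := Subtype.ext (hz0 i j s h1)
      rw [this, map_zero]
    have q2 : P.red ⟨aeval t (gdif v j l), m2⟩ = 0 := by
      have : (⟨aeval t (gdif v j l), m2⟩ : P.O) = 0 := Subtype.ext (hz0 j l t h2)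
      rw [this, map_zero]
    have hg1 : (gdif v i j).map (Int.castRingHom (ZMod p)) = (X - C (z : ZMod p)) * g := hg
    have hg2 : (gdif v j l).map (Int.castRingHom (ZMod p)) = (X - C (z : ZMod p)) * g' := hg'
    rw [q1, hg1, Polynomial.map_mul, eval_mul, Polynomial.map_sub, map_X, map_C, eval_sub, eval_X, eval_C] at e1
    rw [q2, hg2, Polynomial.map_mul, eval_mul, Polynomial.map_sub, map_X, map_C, eval_sub, eval_X, eval_C, ← hst] at e2
    by_contra hcon
    have hx : P.red ⟨s, hs⟩ - P.redp hp (z : ZMod p) ≠ 0 := sub_ne_zero.2 hcon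
    have k1 : (g.map (P.redp hp)).eval (P.red ⟨s, hs⟩) = 0 := (mul_eq_zero.1 e1.symm).resolve_left hx
    have k2 : (g'.map (P.redp hp)).eval (P.red ⟨s, hs⟩) = 0 := (mul_eq_zero.1 e2.symm).resolve_left hx
    obtain ⟨u, w, huw⟩ := hgg
    have k3 := congrArg (fun f : (ZMod p)[X] => (f.map (P.redp hp)).eval (P.red ⟨s, hs⟩)) huw
    simp only [Polynomial.map_add, Polynomial.map_mul, eval_add, eval_mul, k1, k2, mul_zero, add_zero,
      Polynomial.map_one, eval_one] at k3
    exact zero_ne_one k3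
  have hred : P.red ⟨r, hO r hN⟩ = P.red ⟨r', hO r' hN'⟩ := by
    by_contra hcon
    have := P.ord_sub_eq_zero (hO r hN) (hO r' hN') hcon
    omega
  -- no point on the three graphs
  have FT : ∀ s : F, aeval s (gpolQ v i) = aeval s (gpolQ v j) → aeval s (gpolQ v j) = aeval s (gpolQ v l) →
      False := by
    intro s h1 h2
    have hs := hO s (hnode i j s hij h1)
    have c1 := FC s s hs hs h1 h2 rfl
    have c2 := FC r r' (hO r hN) (hO r' hN') hr hr' hred
    have d1 : s = r := by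
      by_contra hne
      exact F3' i j s r hs (hO r hN) hij h1 hr hne (c1.trans c2.symm)
    have d2 : s = r' := by
      by_contra hne
      exact F3' j l s r' hs (hO r' hN') hjl h2 hr' hne ((c1.trans c2.symm).trans hred)
    exact n1 (d1.symm.trans d2)
  -- F4
  have F4 : ∀ (a b c : ι) (s : F), a ≠ b → c ≠ a → c ≠ b → aeval s (gpolQ v a) = aeval s (gpolQ v b) →
      aeval s (gpolQ v a) ≠ aeval s (gpolQ v c) := by
    intro a b c s hab hca hcb h1 h2
    have hne : ({a, b} : Set ι) ≠ {a, c} := by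
      intro he
      have : c ∈ ({a, b} : Set ι) := by rw [he]; simp
      simp only [Set.mem_insert_iff, Set.mem_singleton_iff] at this
      rcases this with h3 | h3
      · exact hca h3
      · exact hcb h3
    have hsub := Fc a b a c s hab (Ne.symm hca) h1 h2 hne
    have ha : a ∈ ({i, j, l} : Set ι) := hsub (by simp)
    have hb : b ∈ ({i, j, l} : Set ι) := hsub (by simp)
    have hc : c ∈ ({i, j, l} : Set ι) := hsub (by simp)
    simp only [Set.mem_insert_iff, Set.mem_singleton_iff] at ha hb hc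
    have h3 := h1.symm.trans h2
    rcases ha with rfl | rfl | rfl <;> rcases hb with rfl | rfl | rfl <;> rcases hc with rfl | rfl | rfl <;>
      first
        | exact absurd rfl hab
        | exact absurd rfl hca
        | exact absurd rfl hcb
        | exact FT s h1 h3
        | exact FT s h2 h3.symm
        | exact FT s h1.symm h2
        | exact FT s h2.symm h1
        | exact FT s h3 h2.symm
        | exact FT s h3.symm h1.symm
  -- F5
  have F5 : ∀ (a b : ι) (s : F), s ∈ ({r, r', r''} : Set F) → a ≠ b → aeval s (gpolQ v a) = aeval s (gpolQ v b) →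
      a ∈ ({i, j, l} : Set ι) ∧ b ∈ ({i, j, l} : Set ι) := by
    intro a b s hs hab h1
    have key : ∀ c d : ι, c ≠ d → c ∈ ({i, j, l} : Set ι) → d ∈ ({i, j, l} : Set ι) →
        aeval s (gpolQ v c) = aeval s (gpolQ v d) → a ∈ ({i, j, l} : Set ι) ∧ b ∈ ({i, j, l} : Set ι) := by
      intro c d hcd hc hd h2
      by_cases he : ({a, b} : Set ι) = {c, d}
      · have ha : a ∈ ({c, d} : Set ι) := by rw [← he]; simp
        have hb : b ∈ ({c, d} : Set ι) := by rw [← he]; simp
        simp only [Set.mem_insert_iff, Set.mem_singleton_iff] at ha hb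
        constructor
        · rcases ha with rfl | rfl
          · exact hc
          · exact hd
        · rcases hb with rfl | rfl
          · exact hc
          · exact hd
      · have hsub := Fc a b c d s hab hcd h1 h2 he
        exact ⟨hsub (by simp), hsub (by simp)⟩
    simp only [Set.mem_insert_iff, Set.mem_singleton_iff] at hs
    rcases hs with rfl | rfl | rfl
    · exact key i j hij (by simp) (by simp) hr
    · exact key j l hjl (by simp) (by simp) hr'
    · exact key i l hil (by simp) (by simp) hr''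
  -- F6
  have F6 : ∀ a c : ι, a ∈ ({i, j, l} : Set ι) → c ∈ ({i, j, l} : Set ι) → a ≠ c →
      ∃ t ∈ ({r, r', r''} : Set F), aeval t (gpolQ v a) = aeval t (gpolQ v c) := by
    intro a c ha hc hac
    simp only [Set.mem_insert_iff, Set.mem_singleton_iff] at ha hc
    rcases ha with rfl | rfl | rfl <;> rcases hc with rfl | rfl | rfl
    · exact absurd rfl hac
    · exact ⟨r, by simp, hr⟩
    · exact ⟨r'', by simp, hr''⟩
    · exact ⟨r, by simp, hr.symm⟩
    · exact absurd rfl hac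
    · exact ⟨r', by simp, hr'⟩
    · exact ⟨r'', by simp, hr''.symm⟩
    · exact ⟨r', by simp, hr'.symm⟩
    · exact absurd rfl hac
  -- the roots
  have hlead : ∀ a b, a ≠ b → ¬ (p : ℤ) ∣ (gdif v a b).leadingCoeff := by
    intro a b hab
    have h1 := h.lead a b hab
    rw [gdif_leadingCoeff]
    · exact h1
    · intro h2
      apply h1
      rw [h2, sub_self]
      exact dvd_zero _
  have hroots : ∀ a b, a ≠ b → ∃ R : Finset F, (∀ s, s ∈ R ↔ aeval s (gpolQ v a) = aeval s (gpolQ v b)) ∧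
      (gdif v a b).map (algebraMap ℤ F) =
        C (algebraMap ℤ F (gdif v a b).leadingCoeff) * ∏ s ∈ R, (X - C s) :=
    fun a b hab => exists_roots (separable_of_gred hp (h.lead a b hab) (h.sep a b hab))
  refine ⟨P.ord, r, r', r'', hr, hr', hr'', P.isVal, ?_, ?_, ?_⟩
  · intro s hs s' hs' hss
    split_ifs with hc
    · exact F1 s hc.1 s' hc.2 hss
    · exact hz s hs s' hs' hss hc
  · intro a b s hab hs
    obtain ⟨R, hR, hfR⟩ := hroots a b hab
    have h1 := P.ord_derivative hp (hlead a b hab) R (fun t ht => hK t (hnode a b t hab ((hR t).1 ht))) hfR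
      ((hR s).2 hs)
    rw [aeval_derivative_gdif] at h1
    rw [h1]
    refine Finset.sum_eq_zero fun t ht => ?_
    rw [Finset.mem_erase] at ht
    exact F3 a b s t hab hs ((hR t).1 ht.2) (Ne.symm ht.1)
  · intro a b c s hab hs hca hcb
    obtain ⟨R, hR, hfR⟩ := hroots a c (Ne.symm hca)
    have hsn := hnode a b s hab hs
    have hsR : s ∉ R := fun hm => F4 a b c s hab hca hcb hs ((hR s).1 hm)
    have h1 := P.ord_aeval hp (hlead a c (Ne.symm hca)) R
      (fun t ht => hK t (hnode a c t (Ne.symm hca) ((hR t).1 ht))) hfR (hK s hsn) hsR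
    rw [aeval_gdif] at h1
    rw [h1]
    split_ifs with hc
    · obtain ⟨hsT, hcI⟩ := hc
      obtain ⟨t, ht, hta⟩ := F6 a c (F5 a b s hsT hab hs).1 hcI (Ne.symm hca)
      have htR : t ∈ R := (hR t).2 hta
      have hst : s ≠ t := fun he => hsR (he ▸ htR)
      rw [Finset.sum_eq_single t]
      · exact F1 s hsT t ht hst
      · intro t' ht' htt
        have ha' := (hR t').1 ht'
        refine hz s hsn t' (hnode a c t' (Ne.symm hca) ha') (fun he => hsR (he ▸ ht')) ?_
        rintro ⟨_, hT'⟩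
        have g1 := F1 t ht t' hT' (Ne.symm htt)
        have g2 := F3 a c t t' (Ne.symm hca) hta ha' (Ne.symm htt)
        omega
      · intro hn
        exact absurd htR hn
    · refine Finset.sum_eq_zero fun t ht => ?_
      have hta := (hR t).1 ht
      refine hz s hsn t (hnode a c t (Ne.symm hca) hta) (fun he => hsR (he ▸ ht)) ?_
      rintro ⟨hsT, htT⟩
      exact hc ⟨hsT, (F5 a c t htT (Ne.symm hca) hta).2⟩

end Pool.Agent.Lib.MP_89bcae_ag

end

section

namespace Pool.Agent.Lib.MP_89bcae_ag.Tri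

variable {ℓ : ℕ} [Fact ℓ.Prime] {w₁ w₂ w₃ x y : ZMod ℓ}

/-- auxiliary: the sum of the three forms. -/
noncomputable def B3_h4 (w₁ w₂ w₃ : ZMod ℓ) : LinearMap.BilinForm (ZMod ℓ)
    ((Fin 3 → ZMod ℓ) × (Fin 3 → ZMod ℓ) × (Fin 3 → ZMod ℓ)) :=
  LinearMap.mk₂ (ZMod ℓ)
    (fun P Q => bf w₁ w₂ w₃ P.1 Q.1 + bf w₁ w₂ w₃ P.2.1 Q.2.1 + bf w₁ w₂ w₃ P.2.2 Q.2.2)
    (by intro P P' Q; simp only [bf, Prod.fst_add, Prod.snd_add, Pi.add_apply]; ring)
    (by intro a P Q; simp only [bf, Prod.smul_fst, Prod.smul_snd, Pi.smul_apply, smul_eq_mul]; ring)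
    (by intro P Q Q'; simp only [bf, Prod.fst_add, Prod.snd_add, Pi.add_apply]; ring)
    (by intro a P Q; simp only [bf, Prod.smul_fst, Prod.smul_snd, Pi.smul_apply, smul_eq_mul]; ring)

/-- auxiliary: both cases at once (`(α, β) = (1, 0)` or `(0, 1)`), by `pencil`. -/
theorem three_aux_h4 (h1 : w₁ ≠ 0) (h2 : w₂ ≠ 0) (h3 : w₃ ≠ 0)
    (hW : w₁ + w₂ + w₃ ≠ 0) (hL : ∀ z, Lz w₁ w₂ w₃ x y z ≠ 0) {c₁ c₂ c₃ D α β : ZMod ℓ}
    (hD : ∀ (X Y : Fin 3 → ZMod ℓ) (z : ZMod ℓ),
      Tc w₁ w₂ w₃ x y c₁ X + (D * (X 0 - Y 0)) • e0 = z • X →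
      Tc w₁ w₂ w₃ x y c₂ Y + (D * (Y 0 - X 0)) • e0 = z • Y → X = 0 ∧ Y = 0)
    (hex : ∃ (X Y Z : Fin 3 → ZMod ℓ) (z τ : ZMod ℓ), (X ≠ 0 ∨ Y ≠ 0) ∧
      Tc w₁ w₂ w₃ x y c₁ X + (D * (X 0 - Y 0)) • e0 = z • X + (τ * α) • e0 ∧
      Tc w₁ w₂ w₃ x y c₂ Y + (D * (Y 0 - X 0)) • e0 = z • Y + (τ * β) • e0 ∧
      Tc w₁ w₂ w₃ x y c₃ Z = z • Z - τ • e0 ∧ α * X 0 + β * Y 0 - Z 0 = 0) :
    ∃ D' : ZMod ℓ, ∀ (X Y Z : Fin 3 → ZMod ℓ) (z : ZMod ℓ),
      Tc w₁ w₂ w₃ x y c₁ X + (D * (X 0 - Y 0)) • e0 +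
        (D' * (α * X 0 + β * Y 0 - Z 0) * α) • e0 = z • X →
      Tc w₁ w₂ w₃ x y c₂ Y + (D * (Y 0 - X 0)) • e0 +
        (D' * (α * X 0 + β * Y 0 - Z 0) * β) • e0 = z • Y →
      Tc w₁ w₂ w₃ x y c₃ Z - (D' * (α * X 0 + β * Y 0 - Z 0)) • e0 = z • Z →
        X = 0 ∧ Y = 0 ∧ Z = 0 := by
  let V := (Fin 3 → ZMod ℓ) × (Fin 3 → ZMod ℓ) × (Fin 3 → ZMod ℓ)
  let B : LinearMap.BilinForm (ZMod ℓ) V := B3_h4 w₁ w₂ w₃
  have hBa : ∀ P Q : V, B P Q = bf w₁ w₂ w₃ P.1 Q.1 + bf w₁ w₂ w₃ P.2.1 Q.2.1 +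
      bf w₁ w₂ w₃ P.2.2 Q.2.2 := fun _ _ => rfl
  let T : V → V := fun P => (Tc w₁ w₂ w₃ x y c₁ P.1 + (D * (P.1 0 - P.2.1 0)) • e0,
    Tc w₁ w₂ w₃ x y c₂ P.2.1 + (D * (P.2.1 0 - P.1 0)) • e0, Tc w₁ w₂ w₃ x y c₃ P.2.2)
  let u : V := (α • e0, β • e0, - e0)
  have hbe : ∀ (X : Fin 3 → ZMod ℓ) (a : ZMod ℓ), bf w₁ w₂ w₃ X (a • e0) = w₁ * w₂ * a * X 0 := by
    intro X a
    simp [bf, e0]
    ring
  have hbe' : ∀ (X : Fin 3 → ZMod ℓ), bf w₁ w₂ w₃ X (- e0) = - (w₁ * w₂ * X 0) := by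
    intro X
    simp [bf, e0]
  have hbl : ∀ (X Y : Fin 3 → ZMod ℓ) (a : ZMod ℓ), bf w₁ w₂ w₃ (X + a • e0) Y =
      bf w₁ w₂ w₃ X Y + w₁ * w₂ * a * Y 0 := by
    intro X Y a
    simp [bf, e0]
    ring
  have hbr : ∀ (X Y : Fin 3 → ZMod ℓ) (a : ZMod ℓ), bf w₁ w₂ w₃ X (Y + a • e0) =
      bf w₁ w₂ w₃ X Y + w₁ * w₂ * a * X 0 := by
    intro X Y a
    simp [bf, e0]
    ring
  have hBu : ∀ P : V, B P u = w₁ * w₂ * (α * P.1 0 + β * P.2.1 0 - P.2.2 0) := by
    intro P
    rw [hBa]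
    show bf w₁ w₂ w₃ P.1 (α • e0) + bf w₁ w₂ w₃ P.2.1 (β • e0) + bf w₁ w₂ w₃ P.2.2 (- e0) = _
    rw [hbe, hbe, hbe']
    ring
  have hBs : ∀ P Q : V, B P Q = B Q P := by
    intro P Q
    rw [hBa, hBa]
    simp only [bf]
    ring
  have hTs : ∀ P Q : V, B (T P) Q = B P (T Q) := by
    intro P Q
    rw [hBa, hBa]
    show bf w₁ w₂ w₃ (Tc w₁ w₂ w₃ x y c₁ P.1 + (D * (P.1 0 - P.2.1 0)) • e0) Q.1 +
      bf w₁ w₂ w₃ (Tc w₁ w₂ w₃ x y c₂ P.2.1 + (D * (P.2.1 0 - P.1 0)) • e0) Q.2.1 +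
      bf w₁ w₂ w₃ (Tc w₁ w₂ w₃ x y c₃ P.2.2) Q.2.2 =
      bf w₁ w₂ w₃ P.1 (Tc w₁ w₂ w₃ x y c₁ Q.1 + (D * (Q.1 0 - Q.2.1 0)) • e0) +
      bf w₁ w₂ w₃ P.2.1 (Tc w₁ w₂ w₃ x y c₂ Q.2.1 + (D * (Q.2.1 0 - Q.1 0)) • e0) +
      bf w₁ w₂ w₃ P.2.2 (Tc w₁ w₂ w₃ x y c₃ Q.2.2)
    rw [hbl, hbl, hbr, hbr, bf_Tc, bf_Tc, bf_Tc]
    ring
  have hw : w₁ * w₂ ≠ 0 := mul_ne_zero h1 h2
  obtain ⟨y', hy'⟩ := pencil T B hBs hTs u (by
      rintro ⟨X, Y, Z⟩ z hT hu
      rw [hBu] at hu
      have hu' : α * X 0 + β * Y 0 - Z 0 = 0 := (mul_eq_zero.1 hu).resolve_left hw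
      have e1 : Tc w₁ w₂ w₃ x y c₁ X + (D * (X 0 - Y 0)) • e0 = z • X := congrArg Prod.fst hT
      have e2 : Tc w₁ w₂ w₃ x y c₂ Y + (D * (Y 0 - X 0)) • e0 = z • Y :=
        congrArg (fun P : V => P.2.1) hT
      have e3 : Tc w₁ w₂ w₃ x y c₃ Z = z • Z := congrArg (fun P : V => P.2.2) hT
      obtain ⟨rfl, rfl⟩ := hD X Y z e1 e2
      have hZ0 : Z 0 = 0 := by
        have : α * (0 : ZMod ℓ) + β * 0 - Z 0 = 0 := hu'
        linear_combination -this
      have hZ : Z = 0 := by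
        rcases eigenvector hW (hL z) e3 with hZ | ⟨-, hZ⟩
        · exact hZ
        · have h5 : phi Z / (w₁ + w₂ + w₃) * w₃ = 0 := by
            have := congrFun hZ 0
            rw [hZ0] at this
            simpa using this.symm
          have h6 := (mul_eq_zero.1 h5).resolve_right h3
          rw [hZ, h6, zero_smul]
      rw [hZ]
      rfl) (by
      obtain ⟨X, Y, Z, z, τ, hne, e1, e2, e3, e4⟩ := hex
      refine ⟨(X, Y, Z), z, τ, ?_, ?_, ?_⟩
      · intro h0
        have hX : X = 0 := congrArg Prod.fst h0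
        have hY : Y = 0 := congrArg (fun P : V => P.2.1) h0
        rcases hne with h | h
        · exact h hX
        · exact h hY
      · refine Prod.ext ?_ (Prod.ext ?_ ?_)
        · show Tc w₁ w₂ w₃ x y c₁ X + (D * (X 0 - Y 0)) • e0 = z • X + τ • (α • e0)
          rw [e1, smul_smul]
        · show Tc w₁ w₂ w₃ x y c₂ Y + (D * (Y 0 - X 0)) • e0 = z • Y + τ • (β • e0)
          rw [e2, smul_smul]
        · show Tc w₁ w₂ w₃ x y c₃ Z = z • Z + τ • (- e0)
          rw [e3, smul_neg, sub_eq_add_neg]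
      · rw [hBu]
        show w₁ * w₂ * (α * X 0 + β * Y 0 - Z 0) = 0
        rw [e4, mul_zero])
  refine ⟨y' * (w₁ * w₂), fun X Y Z z e1 e2 e3 => ?_⟩
  have h5 := hy' (X, Y, Z) z (by
    rw [hBu]
    refine Prod.ext ?_ (Prod.ext ?_ ?_)
    · show Tc w₁ w₂ w₃ x y c₁ X + (D * (X 0 - Y 0)) • e0 +
        (y' * (w₁ * w₂ * (α * X 0 + β * Y 0 - Z 0))) • (α • e0) = z • X
      rw [← e1, smul_smul]
      congr 2
      ring
    · show Tc w₁ w₂ w₃ x y c₂ Y + (D * (Y 0 - X 0)) • e0 +
        (y' * (w₁ * w₂ * (α * X 0 + β * Y 0 - Z 0))) • (β • e0) = z • Y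
      rw [← e2, smul_smul]
      congr 2
      ring
    · show Tc w₁ w₂ w₃ x y c₃ Z +
        (y' * (w₁ * w₂ * (α * X 0 + β * Y 0 - Z 0))) • (- e0) = z • Z
      rw [← e3, smul_neg, mul_assoc y', ← sub_eq_add_neg])
  exact ⟨congrArg Prod.fst h5, congrArg (fun P : V => P.2.1) h5, congrArg (fun P : V => P.2.2) h5⟩

/-- **Three copies**, the third one coupled to the first one, if `1 + D w₃ / W ≠ 0`. Proof: let
`κ' = w₃ / W`, `t₃ = z₀ + 1 / (1 + D κ')` and `c₃` with `W c₃ - w₃ x - w₁ y = t₃`. `pencil` for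
`V = (Fin 3 → ZMod ℓ) × (Fin 3 → ZMod ℓ) × (Fin 3 → ZMod ℓ)`,
`T (X, Y, Z) = (Tc c₁ X + D (X₀ - Y₀) e0, Tc c₂ Y + D (Y₀ - X₀) e0, Tc c₃ Z)` (selfadjoint for the sum of the
forms: `bf e0 X' = w₁ w₂ X'₀`), `u = (e0, 0, - e0)`, `D' = w₁ w₂ y'`. `h1`: an eigenvector has `X = Y = 0` by
`hD`, and `Z = 0` or `Z = m τ` (`eigenvector`), and `B (0, 0, Z) u = - w₁ w₂ Z₀ = 0` gives `Z = 0`. `h2`:
`exists_resolvent` for `c₁` and `s = 1 + D κ'` gives `X` with `X₀ = κ' (1 + D κ')`; for `c₂` and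
`s = - D κ'` it gives `Y` with `Y₀ = D κ' κ'`; so `X₀ - Y₀ = κ'` and the first two components of
`T (X, Y, Z)` are `z₀ X - e0`, `z₀ Y`; for `c₃` and `s = -1` it gives `Z` with
`Z₀ = - κ' / (z₀ - t₃) = κ' (1 + D κ') = X₀`. So `T (X, Y, Z) = z₀ (X, Y, Z) - u` and `B (X, Y, Z) u = 0`. -/
theorem exists_three (h1 : w₁ ≠ 0) (h2 : w₂ ≠ 0) (h3 : w₃ ≠ 0) (h12 : w₁ + w₂ ≠ 0)
    (hW : w₁ + w₂ + w₃ ≠ 0) (hy : y ≠ 0) (hL : ∀ z, Lz w₁ w₂ w₃ x y z ≠ 0) {z₀ c₁ c₂ D : ZMod ℓ}
    (hz : z₀ = (w₂ + w₃) * y - w₁ * w₃ * y / (w₁ + w₂))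
    (ht₁ : (w₁ + w₂ + w₃) * c₁ - w₃ * x - w₁ * y = z₀ - 1)
    (ht₂ : (w₁ + w₂ + w₃) * c₂ - w₃ * x - w₁ * y = z₀ + 1)
    (hD : ∀ (X Y : Fin 3 → ZMod ℓ) (z : ZMod ℓ),
      Tc w₁ w₂ w₃ x y c₁ X + (D * (X 0 - Y 0)) • e0 = z • X →
      Tc w₁ w₂ w₃ x y c₂ Y + (D * (Y 0 - X 0)) • e0 = z • Y → X = 0 ∧ Y = 0)
    (hk : 1 + D * (w₃ / (w₁ + w₂ + w₃)) ≠ 0) :
    ∃ c₃ D' : ZMod ℓ, ∀ (X Y Z : Fin 3 → ZMod ℓ) (z : ZMod ℓ),
      Tc w₁ w₂ w₃ x y c₁ X + (D * (X 0 - Y 0) + D' * (X 0 - Z 0)) • e0 = z • X →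
      Tc w₁ w₂ w₃ x y c₂ Y + (D * (Y 0 - X 0)) • e0 = z • Y →
      Tc w₁ w₂ w₃ x y c₃ Z + (D' * (Z 0 - X 0)) • e0 = z • Z → X = 0 ∧ Y = 0 ∧ Z = 0 := by
  set W := w₁ + w₂ + w₃ with hWd
  set κ := w₃ / W with hκ
  have hκ0 : κ ≠ 0 := div_ne_zero h3 hW
  have hk0 : 1 + D * κ ≠ 0 := hk
  obtain ⟨c₃, hc₃⟩ : ∃ c₃ : ZMod ℓ, W * c₃ - w₃ * x - w₁ * y = z₀ + 1 / (1 + D * κ) :=
    ⟨(z₀ + 1 / (1 + D * κ) + w₃ * x + w₁ * y) / W, by
      rw [mul_div_cancel₀ _ hW]; ring⟩
  obtain ⟨X, hX, hX0⟩ := exists_resolvent (s := 1 + D * κ) (t := z₀ - 1) (c := c₁) h1 h3 h12 hW hy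
    hz ht₁.symm (by intro h; exact one_ne_zero (α := ZMod ℓ) (by linear_combination h))
  obtain ⟨Y, hY, hY0⟩ := exists_resolvent (s := -(D * κ)) (t := z₀ + 1) (c := c₂) h1 h3 h12 hW hy
    hz ht₂.symm (by intro h; exact one_ne_zero (α := ZMod ℓ) (by linear_combination -h))
  obtain ⟨Z, hZ, hZ0⟩ := exists_resolvent (s := -1) (t := z₀ + 1 / (1 + D * κ)) (c := c₃) h1 h3 h12
    hW hy hz hc₃.symm (by
      intro h
      have : 1 / (1 + D * κ) = 0 := by linear_combination -h
      exact one_div_ne_zero hk0 this)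
  have kX : X 0 = κ * (1 + D * κ) := by
    rw [hX0, show z₀ - (z₀ - 1) = 1 by ring, div_one]
  have kY : Y 0 = κ * (D * κ) := by
    rw [hY0, show z₀ - (z₀ + 1) = -1 by ring, div_neg, div_one]
    ring
  have kZ : Z 0 = κ * (1 + D * κ) := by
    rw [hZ0, show z₀ - (z₀ + 1 / (1 + D * κ)) = -(1 / (1 + D * κ)) by ring, div_neg, div_div_eq_mul_div,
      div_one]
    ring
  obtain ⟨D', hD'⟩ := three_aux_h4 (c₃ := c₃) (α := 1) (β := 0) h1 h2 h3 hW hL hD
    ⟨X, Y, Z, z₀, -1, Or.inl (by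
        intro h
        rw [h] at kX
        exact mul_ne_zero hκ0 hk0 kX.symm), by
        have e : X 0 - Y 0 = κ := by rw [kX, kY]; ring
        have e2 : Tc w₁ w₂ w₃ x y c₁ X = z₀ • X - (1 + D * κ) • e0 := eq_sub_of_add_eq hX
        rw [e, e2]; module, by
        have e : Y 0 - X 0 = -κ := by rw [kX, kY]; ring
        have e2 : Tc w₁ w₂ w₃ x y c₂ Y = z₀ • Y - (-(D * κ)) • e0 := eq_sub_of_add_eq hY
        rw [e, e2]; module, by
        have e2 : Tc w₁ w₂ w₃ x y c₃ Z = z₀ • Z - (-1 : ZMod ℓ) • e0 := eq_sub_of_add_eq hZ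
        exact e2, by
        rw [kX, kZ]; ring⟩
  refine ⟨c₃, D', fun X Y Z z e1 e2 e3 => hD' X Y Z z ?_ ?_ ?_⟩
  · rw [← e1]; module
  · rw [← e2]; module
  · rw [← e3]; module

/-- **Three copies**, the third one coupled to the second one, if `1 + D w₃ / W = 0`. Proof: the same with
`u = (0, e0, - e0)`, `D κ' = -1`, `t₃ = z₀ - 1 / 2` (`1 - D κ' = 2`). `h2`: `exists_resolvent` for `c₂` and
`s = 1 - D κ' = 2` gives `Y` with `Y₀ = 2 κ' / (z₀ - t₂) = - 2 κ'`; for `c₁` and `s = D κ' = -1` it gives `X` with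
`X₀ = - κ' / (z₀ - t₁) = - κ'`; so `Y₀ - X₀ = - κ'`, `D (Y₀ - X₀) = 1`, `D (X₀ - Y₀) = -1`: the first two
components of `T (X, Y, Z)` are `z₀ X` and `z₀ Y - 2 e0 + e0 = z₀ Y - e0`; for `c₃` and `s = -1` it gives `Z`
with `Z₀ = - κ' / (z₀ - t₃) = - 2 κ' = Y₀`. -/
theorem exists_three' (hℓ2 : ℓ ≠ 2) (h1 : w₁ ≠ 0) (h2 : w₂ ≠ 0) (h3 : w₃ ≠ 0)
    (h12 : w₁ + w₂ ≠ 0) (hW : w₁ + w₂ + w₃ ≠ 0) (hy : y ≠ 0) (hL : ∀ z, Lz w₁ w₂ w₃ x y z ≠ 0)
    {z₀ c₁ c₂ D : ZMod ℓ}
    (hz : z₀ = (w₂ + w₃) * y - w₁ * w₃ * y / (w₁ + w₂))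
    (ht₁ : (w₁ + w₂ + w₃) * c₁ - w₃ * x - w₁ * y = z₀ - 1)
    (ht₂ : (w₁ + w₂ + w₃) * c₂ - w₃ * x - w₁ * y = z₀ + 1)
    (hD : ∀ (X Y : Fin 3 → ZMod ℓ) (z : ZMod ℓ),
      Tc w₁ w₂ w₃ x y c₁ X + (D * (X 0 - Y 0)) • e0 = z • X →
      Tc w₁ w₂ w₃ x y c₂ Y + (D * (Y 0 - X 0)) • e0 = z • Y → X = 0 ∧ Y = 0)
    (hk : 1 + D * (w₃ / (w₁ + w₂ + w₃)) = 0) :
    ∃ c₃ D' : ZMod ℓ, ∀ (X Y Z : Fin 3 → ZMod ℓ) (z : ZMod ℓ),
      Tc w₁ w₂ w₃ x y c₁ X + (D * (X 0 - Y 0)) • e0 = z • X →
      Tc w₁ w₂ w₃ x y c₂ Y + (D * (Y 0 - X 0) + D' * (Y 0 - Z 0)) • e0 = z • Y →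
      Tc w₁ w₂ w₃ x y c₃ Z + (D' * (Z 0 - Y 0)) • e0 = z • Z → X = 0 ∧ Y = 0 ∧ Z = 0 := by
  set W := w₁ + w₂ + w₃ with hWd
  set κ := w₃ / W with hκ
  have hκ0 : κ ≠ 0 := div_ne_zero h3 hW
  have hDk : D * κ = -1 := by linear_combination hk
  have h20 : (2 : ZMod ℓ) ≠ 0 := by
    intro h
    have h4 : ((2 : ℕ) : ZMod ℓ) = 0 := by exact_mod_cast h
    rw [ZMod.natCast_eq_zero_iff] at h4
    have h5 := (Nat.prime_dvd_prime_iff_eq (Fact.out : ℓ.Prime) Nat.prime_two).1 h4
    exact hℓ2 h5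
  obtain ⟨c₃, hc₃⟩ : ∃ c₃ : ZMod ℓ, W * c₃ - w₃ * x - w₁ * y = z₀ - 1 / 2 :=
    ⟨(z₀ - 1 / 2 + w₃ * x + w₁ * y) / W, by
      rw [mul_div_cancel₀ _ hW]; ring⟩
  obtain ⟨X, hX, hX0⟩ := exists_resolvent (s := -1) (t := z₀ - 1) (c := c₁) h1 h3 h12 hW hy
    hz ht₁.symm (by intro h; exact one_ne_zero (α := ZMod ℓ) (by linear_combination h))
  obtain ⟨Y, hY, hY0⟩ := exists_resolvent (s := 2) (t := z₀ + 1) (c := c₂) h1 h3 h12 hW hy
    hz ht₂.symm (by intro h; exact one_ne_zero (α := ZMod ℓ) (by linear_combination -h))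
  obtain ⟨Z, hZ, hZ0⟩ := exists_resolvent (s := -1) (t := z₀ - 1 / 2) (c := c₃) h1 h3 h12
    hW hy hz hc₃.symm (by
      intro h
      have : (1 : ZMod ℓ) / 2 = 0 := by linear_combination h
      exact one_div_ne_zero h20 this)
  have kX : X 0 = -κ := by
    rw [hX0, show z₀ - (z₀ - 1) = 1 by ring, div_one]
    ring
  have kY : Y 0 = -(2 * κ) := by
    rw [hY0, show z₀ - (z₀ + 1) = -1 by ring, div_neg, div_one]
    ring
  have kZ : Z 0 = -(2 * κ) := by
    rw [hZ0, show z₀ - (z₀ - 1 / 2) = 1 / 2 by ring, div_div_eq_mul_div, div_one]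
    ring
  obtain ⟨D', hD'⟩ := three_aux_h4 (c₃ := c₃) (α := 0) (β := 1) h1 h2 h3 hW hL hD
    ⟨X, Y, Z, z₀, -1, Or.inl (by
        intro h
        rw [h] at kX
        exact hκ0 (by
          have : (0 : ZMod ℓ) = -κ := kX
          linear_combination this)), by
        have e : X 0 - Y 0 = κ := by rw [kX, kY]; ring
        have e2 : Tc w₁ w₂ w₃ x y c₁ X = z₀ • X - (-1 : ZMod ℓ) • e0 := eq_sub_of_add_eq hX
        rw [e, e2, hDk]; module, by
        have e : D * (Y 0 - X 0) = 1 := by rw [kX, kY]; linear_combination -hDk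
        have e2 : Tc w₁ w₂ w₃ x y c₂ Y = z₀ • Y - (2 : ZMod ℓ) • e0 := eq_sub_of_add_eq hY
        rw [e, e2]; module, by
        have e2 : Tc w₁ w₂ w₃ x y c₃ Z = z₀ • Z - (-1 : ZMod ℓ) • e0 := eq_sub_of_add_eq hZ
        exact e2, by
        rw [kY, kZ]; ring⟩
  refine ⟨c₃, D', fun X Y Z z e1 e2 e3 => hD' X Y Z z ?_ ?_ ?_⟩
  · rw [← e1]; module
  · rw [← e2]; module
  · rw [← e3]; module

end Pool.Agent.Lib.MP_89bcae_ag.Tri

end

section

/-!
# The Galois group is transitive on the pairs of roots of `α_a - α_b`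

As in TypA14.lean and TypB14.lean (there for the composition with a cubic polynomial). Let `f` be the
image of `gdif v a b` in `R[X]`, `R` and `π : R →+* ZMod p` as in `exists_local_ring14`; its leading
coefficient is a unit. Type I: `frob_typeA14` gives `φ` whose powers map any root of `f` to any other
root (this gives also that `f` is irreducible, hence separable, over `ℚ`:
`Polynomial.IsPrimitive`/`separable_of_red14`). Type L (another prime): `exists_frob_roots14` gives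
`ρ` and `φ` compatible with the Frobenius map; let `z̃` be the root which reduces to `z`
(`exists_lift_root14`); `φ z̃` is a root with the same reduction `z` (`z ∈ 𝔽_p` is fixed by
Frobenius), so `φ z̃ = z̃` (`eq_of_red14`; the reduced polynomial is separable: `g` is irreducible over a
finite field and `g(z) ≠ 0`); the other roots reduce to the roots of `g`, on which the powers of
Frobenius are transitive (`exists_frob8_pow`). Then as in `pairTransitive14`.
-/

open Polynomial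

open scoped Classical

namespace Pool.Agent.Lib.MP_89bcae_ag

open Superelliptic

set_option linter.unusedSectionVars false
set_option linter.style.haveILetI false

section Aux_h38

variable {R K F κ : Type*} [CommRing R] [IsDomain R] [IsIntegrallyClosed R] [Field K]
  [Algebra R K] [IsFractionRing R K] [Field F] [Algebra K F] [Algebra R F] [IsScalarTower R K F]
  [IsAlgClosed F] [Algebra.IsAlgebraic K F]
  [Field κ] [Fintype κ]

variable (K F) in
/-- **Type L.** -/
theorem frob_typeL_h38 {π : R →+* κ} (hπ : Function.Surjective π) {f : R[X]}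
    (hu : IsUnit f.leadingCoeff) (hsep : (f.map (algebraMap R K)).Separable)
    {b : κ} {g : κ[X]} (hf : f.map π = (X - C b) * g) (hb : g.eval b ≠ 0)
    (hirr : Irreducible g) :
    ∃ (φ : F ≃ₐ[K] F) (z : F), aeval z f = 0 ∧ φ z = z ∧
      ∀ x y : F, aeval x f = 0 → aeval y f = 0 → x ≠ z → y ≠ z → ∃ i : ℕ, (φ ^ i) x = y := by
  have hinjR : Function.Injective (algebraMap R F) := by
    rw [IsScalarTower.algebraMap_eq R K F]
    exact (algebraMap K F).injective.comp (IsFractionRing.injective R K)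
  have hfaith : FaithfulSMul R F := (faithfulSMul_iff_algebraMap_injective R F).mpr hinjR
  obtain ⟨ρ, φ, hρ, hφ⟩ := exists_frob_roots14 (F := F) (Fκ := AlgebraicClosure κ) hπ hu hsep
  set Fκ := AlgebraicClosure κ with hFκ
  set β : Fκ := algebraMap κ Fκ b with hβ
  have hgβ : aeval β g ≠ 0 := by
    rw [hβ, aeval_algebraMap_apply, coe_aeval_eq_eval]
    exact (_root_.map_ne_zero _).mpr hb
  obtain ⟨z, hz, hzr, hzβ⟩ := exists_lift_root14 hρ hu (β := β) (by
    rw [hf, map_mul, map_sub, aeval_X, aeval_C, ← hβ, sub_self, zero_mul])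
  have hsimple : aeval β (derivative (f.map π)) ≠ 0 := by
    rw [hf, derivative_mul, derivative_sub, derivative_X, derivative_C, sub_zero, one_mul,
      map_add, map_mul, map_sub, aeval_X, aeval_C, ← hβ, sub_self, zero_mul, add_zero]
    exact hgβ
  have hint : ∀ x : F, aeval x f = 0 → IsIntegral R x := fun x hx => integral_root14 hu hx
  -- a root different from `z` reduces to a root of `g`
  have hkey : ∀ (x : F) (hx : aeval x f = 0), x ≠ z → aeval (ρ ⟨x, hint x hx⟩) g = 0 := by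
    intro x hx hne
    have h1 := red_root14 hρ (hint x hx) hx
    rw [hf, map_mul] at h1
    rcases mul_eq_zero.mp h1 with h2 | h2
    · exfalso
      apply hne
      rw [map_sub, aeval_X, aeval_C, sub_eq_zero, ← hβ] at h2
      exact eq_of_red14 hρ (f := f) (hint x hx) hz hx hzr (by rw [h2, hzβ])
        (by rw [h2]; exact hsimple)
    · exact h2
  refine ⟨φ, z, hzr, ?_, ?_⟩
  · obtain ⟨h1, h2, h3⟩ := hφ 1 z hzr hz
    rw [pow_one] at h1 h2
    simp only [pow_one] at h3
    have h4 : frob8 κ Fκ β = β := by rw [hβ, AlgEquiv.commutes]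
    refine eq_of_red14 hρ h2 hz h1 hzr (by rw [h3, hzβ, h4]) (by rw [h3, hzβ, h4]; exact hsimple)
  · intro x y hx hy hxz hyz
    obtain ⟨i, -, hi⟩ := exists_frob8_pow hirr (hkey x hx hxz) (hkey y hy hyz)
    obtain ⟨h1, h2, h3⟩ := hφ i x hx (hint x hx)
    refine ⟨i, eq_of_red14 hρ h2 (hint y hy) h1 hy (by rw [h3, hi]) ?_⟩
    have hsepκ : g.Separable := PerfectField.separable_of_irreducible hirr
    have hr : aeval (ρ ⟨(φ ^ i) x, h2⟩) g = 0 := by
      rw [h3, ← hi]
      exact hkey y hy hyz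
    have hder : aeval (ρ ⟨(φ ^ i) x, h2⟩) (derivative g) ≠ 0 := by
      intro h4
      obtain ⟨a', b', hab⟩ := hsepκ
      have h5 := congrArg (aeval (ρ ⟨(φ ^ i) x, h2⟩)) hab
      rw [map_add, map_mul, map_mul, hr, h4, mul_zero, mul_zero, add_zero, map_one] at h5
      exact zero_ne_one h5
    rw [hf, derivative_mul, map_add, map_mul, map_mul, hr, mul_zero, zero_add]
    apply mul_ne_zero _ hder
    rw [map_sub, aeval_X, aeval_C, sub_ne_zero, ← hβ]
    intro h4
    apply hgβ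
    rw [← h4]
    exact hr

end Aux_h38

variable {ι : Type} [Fintype ι] {n : ℕ} {F : Type} [Field F] [Algebra ℚ F] [IsAlgClosure ℚ F]

lemma gdif_lead_h38 (v : ι × Fin (n + 1) → ℤ) {p : ℕ} {a b : ι}
    (h : ¬ (p : ℤ) ∣ v (a, Fin.last n) - v (b, Fin.last n)) :
    (((gdif v a b).leadingCoeff : ℤ) : ZMod p) ≠ 0 := by
  have h1 : (gdif v a b).coeff n = v (a, Fin.last n) - v (b, Fin.last n) := by
    have := gdif_coeff v a b (Fin.last n)
    rwa [Fin.val_last] at this
  have h2 : (gdif v a b).coeff n ≠ 0 := by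
    rw [h1]
    intro h0
    exact h (h0 ▸ dvd_zero _)
  have h3 : (gdif v a b).natDegree = n :=
    le_antisymm (gdif_natDegree_le v a b) (le_natDegree_of_ne_zero h2)
  rw [leadingCoeff, h3, h1]
  intro h0
  exact h ((ZMod.intCast_zmod_eq_zero_iff_dvd _ _).mp h0)

lemma gdif_mapQ_h38 (v : ι × Fin (n + 1) → ℤ) (a b : ι) :
    (gdif v a b).map (algebraMap ℤ ℚ) = gpolQ v a - gpolQ v b := by
  rw [gdif_map]
  rfl

lemma aeval_gdif_h38 (v : ι × Fin (n + 1) → ℤ) (a b : ι) (x : F) :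
    aeval x ((gdif v a b).map (algebraMap ℤ ℚ)) = 0 ↔
      aeval x (gpolQ v a) = aeval x (gpolQ v b) := by
  rw [gdif_mapQ_h38, map_sub, sub_eq_zero]

/-- The conclusion for type I. -/
lemma typeI_h38 (v : ι × Fin (n + 1) → ℤ) {p : ℕ} (hp : p.Prime) {a b : ι}
    (h : TypeI p a b v) (F : Type) [Field F] [Algebra ℚ F] [IsAlgClosure ℚ F] :
    (gpolQ v a - gpolQ v b).Separable ∧
    ∃ φ : F ≃ₐ[ℚ] F, ∀ x y : F, aeval x (gpolQ v a) = aeval x (gpolQ v b) →
      aeval y (gpolQ v a) = aeval y (gpolQ v b) → ∃ i : ℕ, (φ ^ i) x = y := by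
  haveI : Fact p.Prime := ⟨hp⟩
  haveI : IsAlgClosed F := IsAlgClosure.isAlgClosed ℚ
  haveI : Algebra.IsAlgebraic ℚ F := IsAlgClosure.isAlgebraic
  obtain ⟨R, _, _, _, _, _, π, hπ, hπu⟩ := exists_local_ring14 hp
  letI : Algebra R F := ((algebraMap ℚ F).comp (algebraMap R ℚ)).toAlgebra
  haveI : IsScalarTower R ℚ F := IsScalarTower.of_algebraMap_eq fun _ => rfl
  have hRQ : (algebraMap R ℚ).comp (Int.castRingHom R) = algebraMap ℤ ℚ := RingHom.ext_int _ _
  have hinjZ : Function.Injective (Int.castRingHom R) := by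
    have h1 : Function.Injective ((algebraMap R ℚ).comp (Int.castRingHom R)) := by
      rw [hRQ]
      exact (algebraMap ℤ ℚ).injective_int
    exact Function.Injective.of_comp h1
  haveI hfaith : FaithfulSMul R F := (faithfulSMul_iff_algebraMap_injective R F).mpr
    ((algebraMap ℚ F).injective.comp (IsFractionRing.injective R ℚ))
  have hcomp : π.comp (Int.castRingHom R) = Int.castRingHom (ZMod p) := RingHom.ext_int _ _
  have hu' : IsUnit ((gdif v a b).map (Int.castRingHom R)).leadingCoeff := by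
    rw [leadingCoeff_map_of_injective hinjZ]
    exact hπu _ (gdif_lead_h38 v h.lead)
  have hirr : Irreducible (((gdif v a b).map (Int.castRingHom R)).map π) := by
    rw [Polynomial.map_map, hcomp]
    exact h.irr
  have hQ : ((gdif v a b).map (Int.castRingHom R)).map (algebraMap R ℚ) =
      (gdif v a b).map (algebraMap ℤ ℚ) := by
    rw [Polynomial.map_map, hRQ]
  have hsepκ : (((gdif v a b).map (Int.castRingHom R)).map π).Separable :=
    PerfectField.separable_of_irreducible hirr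
  have hsep := separable_of_red14 (K := ℚ) F hπ hu' hsepκ
  obtain ⟨φ, hφ⟩ := frob_typeA14 ℚ F hπ hu' hsep hirr
  rw [hQ, gdif_mapQ_h38] at hsep
  refine ⟨hsep, φ, fun x y hx hy => hφ x y ?_ ?_⟩
  · rw [← aeval_map_algebraMap ℚ, hQ]
    exact (aeval_gdif_h38 v a b x).mpr hx
  · rw [← aeval_map_algebraMap ℚ, hQ]
    exact (aeval_gdif_h38 v a b y).mpr hy

theorem separable_of_typeI (v : ι × Fin (n + 1) → ℤ) {p : ℕ} (hp : p.Prime) {a b : ι}
    (h : TypeI p a b v) : (gpolQ v a - gpolQ v b).Separable := by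
  letI : Algebra ℚ (AlgebraicClosure ℚ) := AlgebraicClosure.instAlgebra ℚ
  haveI : IsAlgClosure ℚ (AlgebraicClosure ℚ) := inferInstance
  exact (typeI_h38 v hp h (AlgebraicClosure ℚ)).1

theorem exists_cycle_typeI (v : ι × Fin (n + 1) → ℤ) {p : ℕ} (hp : p.Prime) {a b : ι}
    (h : TypeI p a b v) : ∃ φ : F ≃ₐ[ℚ] F, ∀ x y : F, aeval x (gpolQ v a) = aeval x (gpolQ v b) →
      aeval y (gpolQ v a) = aeval y (gpolQ v b) → ∃ i : ℕ, (φ ^ i) x = y :=
  (typeI_h38 v hp h F).2

theorem exists_cycle_typeL (v : ι × Fin (n + 1) → ℤ) {p : ℕ} (hp : p.Prime) {a b : ι}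
    (h : TypeL p a b v) (hsep : (gpolQ v a - gpolQ v b).Separable) :
    ∃ (φ : F ≃ₐ[ℚ] F) (z : F), aeval z (gpolQ v a) = aeval z (gpolQ v b) ∧ φ z = z ∧
      ∀ x y : F, aeval x (gpolQ v a) = aeval x (gpolQ v b) →
        aeval y (gpolQ v a) = aeval y (gpolQ v b) → x ≠ z → y ≠ z → ∃ i : ℕ, (φ ^ i) x = y := by
  haveI : Fact p.Prime := ⟨hp⟩
  haveI : IsAlgClosed F := IsAlgClosure.isAlgClosed ℚ
  haveI : Algebra.IsAlgebraic ℚ F := IsAlgClosure.isAlgebraic
  obtain ⟨R, _, _, _, _, _, π, hπ, hπu⟩ := exists_local_ring14 hp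
  letI : Algebra R F := ((algebraMap ℚ F).comp (algebraMap R ℚ)).toAlgebra
  haveI : IsScalarTower R ℚ F := IsScalarTower.of_algebraMap_eq fun _ => rfl
  have hRQ : (algebraMap R ℚ).comp (Int.castRingHom R) = algebraMap ℤ ℚ := RingHom.ext_int _ _
  have hinjZ : Function.Injective (Int.castRingHom R) := by
    have h1 : Function.Injective ((algebraMap R ℚ).comp (Int.castRingHom R)) := by
      rw [hRQ]
      exact (algebraMap ℤ ℚ).injective_int
    exact Function.Injective.of_comp h1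
  haveI hfaith : FaithfulSMul R F := (faithfulSMul_iff_algebraMap_injective R F).mpr
    ((algebraMap ℚ F).injective.comp (IsFractionRing.injective R ℚ))
  have hcomp : π.comp (Int.castRingHom R) = Int.castRingHom (ZMod p) := RingHom.ext_int _ _
  have hu' : IsUnit ((gdif v a b).map (Int.castRingHom R)).leadingCoeff := by
    rw [leadingCoeff_map_of_injective hinjZ]
    exact hπu _ (gdif_lead_h38 v h.lead)
  have hQ : ((gdif v a b).map (Int.castRingHom R)).map (algebraMap R ℚ) =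
      (gdif v a b).map (algebraMap ℤ ℚ) := by
    rw [Polynomial.map_map, hRQ]
  have hsep' : (((gdif v a b).map (Int.castRingHom R)).map (algebraMap R ℚ)).Separable := by
    rw [hQ, gdif_mapQ_h38]
    exact hsep
  obtain ⟨b₀, g, hg, hgb, hf⟩ := h.irr
  have hf' : ((gdif v a b).map (Int.castRingHom R)).map π = (X - C b₀) * g := by
    rw [Polynomial.map_map, hcomp]
    exact hf
  obtain ⟨φ, z, hz, hzz, hφ⟩ := frob_typeL_h38 ℚ F hπ hu' hsep' hf' hgb hg
  have hc : ∀ x : F, aeval x ((gdif v a b).map (Int.castRingHom R)) = 0 ↔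
      aeval x (gpolQ v a) = aeval x (gpolQ v b) := by
    intro x
    rw [← aeval_map_algebraMap ℚ, hQ]
    exact aeval_gdif_h38 v a b x
  exact ⟨φ, z, (hc z).mp hz, hzz, fun x y hx hy hxz hyz =>
    hφ x y ((hc x).mpr hx) ((hc y).mpr hy) hxz hyz⟩

theorem pairTransitive_gpol (v : ι × Fin (n + 1) → ℤ) {a b : ι}
    (hI : ∃ p : ℕ, p.Prime ∧ TypeI p a b v) (hL : ∃ p : ℕ, p.Prime ∧ TypeL p a b v)
    (u w u' w' : F) (hu : aeval u (gpolQ v a) = aeval u (gpolQ v b))
    (hw : aeval w (gpolQ v a) = aeval w (gpolQ v b))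
    (hu' : aeval u' (gpolQ v a) = aeval u' (gpolQ v b))
    (hw' : aeval w' (gpolQ v a) = aeval w' (gpolQ v b)) (huw : u ≠ w) (huw' : u' ≠ w') :
    ∃ σ : F ≃ₐ[ℚ] F, σ u = u' ∧ σ w = w' := by
  obtain ⟨p, hp, hpI⟩ := hI
  obtain ⟨q, hq, hqL⟩ := hL
  obtain ⟨φ, hφ⟩ := exists_cycle_typeI (F := F) v hp hpI
  obtain ⟨ψ, z, hz, hzz, hψ⟩ := exists_cycle_typeL (F := F) v hq hqL (separable_of_typeI v hp hpI)
  have hroot : ∀ (σ : F ≃ₐ[ℚ] F) (x : F), aeval x (gpolQ v a) = aeval x (gpolQ v b) →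
      aeval (σ x) (gpolQ v a) = aeval (σ x) (gpolQ v b) := by
    intro σ x hx
    rw [← AlgEquiv.coe_toAlgHom σ, aeval_algHom_apply, aeval_algHom_apply, hx]
  obtain ⟨i, hi⟩ := hφ u z hu hz
  obtain ⟨j, hj⟩ := hφ u' z hu' hz
  obtain ⟨m, hm⟩ := hψ ((φ ^ i) w) ((φ ^ j) w') (hroot _ _ hw) (hroot _ _ hw') (by
    rw [← hi]
    exact fun h => huw ((φ ^ i).injective h).symm) (by
    rw [← hj]
    exact fun h => huw' ((φ ^ j).injective h).symm)
  have hzm : ∀ m : ℕ, (ψ ^ m) z = z := by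
    intro m
    induction m with
    | zero => rfl
    | succ m ih => rw [pow_succ', AlgEquiv.mul_apply, ih, hzz]
  refine ⟨(φ ^ j)⁻¹ * ψ ^ m * φ ^ i, ?_, ?_⟩
  · rw [AlgEquiv.mul_apply, AlgEquiv.mul_apply, hi, hzm, ← hj]
    change ((φ ^ j)⁻¹ * (φ ^ j)) u' = u'
    rw [inv_mul_cancel]
    rfl
  · rw [AlgEquiv.mul_apply, AlgEquiv.mul_apply, hm]
    change ((φ ^ j)⁻¹ * (φ ^ j)) w' = w'
    rw [inv_mul_cancel]
    rfl

end Pool.Agent.Lib.MP_89bcae_ag

end

section

namespace Pool.Agent.Lib.MP_89bcae_ag.Tri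

/-- Transport. -/
theorem PW.equiv {R : Type} [Field R] {κ κ' : Type} [Fintype κ] [Fintype κ'] (e : κ ≃ κ')
    {w₁ w₂ w₃ x y : R} (h : PW κ w₁ w₂ w₃ x y) : PW κ' w₁ w₂ w₃ x y := by
  obtain ⟨c, δ, hs, hX⟩ := h
  refine ⟨fun a => c (e.symm a), fun a b => δ (e.symm a) (e.symm b), fun a b => hs _ _,
    fun X z h a => ?_⟩
  have h1 : ∀ a, X (e a) = 0 := by
    refine hX (fun a => X (e a)) z fun a => ?_
    have h2 := h (e a)
    simp only [e.symm_apply_apply] at h2
    have h3 : ∑ b, δ a (e.symm b) * (X (e a) 0 - X b 0) =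
        ∑ b, δ a b * (X (e a) 0 - X (e b) 0) := by
      rw [← e.sum_comp]
      exact Finset.sum_congr rfl fun b _ => by rw [e.symm_apply_apply]
    rw [h3] at h2
    exact h2
  have h4 := h1 (e.symm a)
  rwa [e.apply_symm_apply] at h4

/-- Disjoint union. (`c = Sum.elim c c'`, `δ = 0` between the two parts; `Fintype.sum_sum_type`.) -/
theorem PW.sum {R : Type} [Field R] {κ κ' : Type} [Fintype κ] [Fintype κ']
    {w₁ w₂ w₃ x y : R} (h : PW κ w₁ w₂ w₃ x y) (h' : PW κ' w₁ w₂ w₃ x y) :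
    PW (κ ⊕ κ') w₁ w₂ w₃ x y := by
  obtain ⟨c, δ, hs, hX⟩ := h
  obtain ⟨c', δ', hs', hX'⟩ := h'
  refine ⟨Sum.elim c c', fun a b => Sum.elim (fun a => Sum.elim (fun b => δ a b) (fun _ => 0) b)
    (fun a => Sum.elim (fun _ => 0) (fun b => δ' a b) b) a, ?_, fun X z h => ?_⟩
  · rintro (a | a) (b | b)
    · exact hs a b
    · rfl
    · rfl
    · exact hs' a b
  · have h1 : ∀ a, X (Sum.inl a) = 0 := by
      refine hX (fun a => X (Sum.inl a)) z fun a => ?_
      have h2 := h (Sum.inl a)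
      rw [Fintype.sum_sum_type] at h2
      simp only [Sum.elim_inl, Sum.elim_inr, zero_mul, Finset.sum_const_zero, add_zero] at h2
      exact h2
    have h2 : ∀ a, X (Sum.inr a) = 0 := by
      refine hX' (fun a => X (Sum.inr a)) z fun a => ?_
      have h2 := h (Sum.inr a)
      rw [Fintype.sum_sum_type] at h2
      simp only [Sum.elim_inl, Sum.elim_inr, zero_mul, Finset.sum_const_zero, zero_add] at h2
      exact h2
    rintro (a | a)
    · exact h1 a
    · exact h2 a

variable {ℓ : ℕ} [Fact ℓ.Prime] {w₁ w₂ w₃ x y : ZMod ℓ}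

/-- Two copies: `exists_two` with `δ 0 1 = δ 1 0 = D / (w₁ + w₂)`, `δ 0 0 = δ 1 1 = 0`. -/
theorem PW.two (hℓ2 : ℓ ≠ 2) (h1 : w₁ ≠ 0) (h2 : w₂ ≠ 0) (h3 : w₃ ≠ 0) (h12 : w₁ + w₂ ≠ 0)
    (hW : w₁ + w₂ + w₃ ≠ 0) (hy : y ≠ 0) (hL : ∀ z, Lz w₁ w₂ w₃ x y z ≠ 0) :
    PW (Fin 2) w₁ w₂ w₃ x y := by
  obtain ⟨z₀, hz⟩ : ∃ z₀, z₀ = (w₂ + w₃) * y - w₁ * w₃ * y / (w₁ + w₂) := ⟨_, rfl⟩
  obtain ⟨c₁, hc₁⟩ : ∃ c₁, (w₁ + w₂ + w₃) * c₁ - w₃ * x - w₁ * y = z₀ - 1 :=
    ⟨(z₀ - 1 + w₃ * x + w₁ * y) / (w₁ + w₂ + w₃), by rw [mul_div_cancel₀ _ hW]; ring⟩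
  obtain ⟨c₂, hc₂⟩ : ∃ c₂, (w₁ + w₂ + w₃) * c₂ - w₃ * x - w₁ * y = z₀ + 1 :=
    ⟨(z₀ + 1 + w₃ * x + w₁ * y) / (w₁ + w₂ + w₃), by rw [mul_div_cancel₀ _ hW]; ring⟩
  obtain ⟨D, hD⟩ := exists_two hℓ2 h1 h2 h3 h12 hW hy hL hz hc₁ hc₂
  obtain ⟨d, hd⟩ : ∃ d, (w₁ + w₂) * d = D := ⟨D / (w₁ + w₂), mul_div_cancel₀ _ h12⟩
  refine ⟨![c₁, c₂], ![![0, d], ![d, 0]], ?_, ?_⟩
  · intro a b
    fin_cases a <;> fin_cases b <;> rfl
  · intro X z h
    have k0 := h 0
    have k1 := h 1
    rw [Fin.sum_univ_two] at k0 k1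
    have e0' : (w₁ + w₂) * (![![0, d], ![d, 0]] 0 0 * (X 0 0 - X 0 0) +
        ![![0, d], ![d, 0]] 0 1 * (X 0 0 - X 1 0)) = D * (X 0 0 - X 1 0) := by
      change (w₁ + w₂) * (0 * (X 0 0 - X 0 0) + d * (X 0 0 - X 1 0)) = D * (X 0 0 - X 1 0)
      rw [← hd]
      ring
    have e1' : (w₁ + w₂) * (![![0, d], ![d, 0]] 1 0 * (X 1 0 - X 0 0) +
        ![![0, d], ![d, 0]] 1 1 * (X 1 0 - X 1 0)) = D * (X 1 0 - X 0 0) := by
      change (w₁ + w₂) * (d * (X 1 0 - X 0 0) + 0 * (X 1 0 - X 1 0)) = D * (X 1 0 - X 0 0)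
      rw [← hd]
      ring
    rw [e0'] at k0
    rw [e1'] at k1
    obtain ⟨r0, r1⟩ := hD (X 0) (X 1) z k0 k1
    intro a
    fin_cases a
    · exact r0
    · exact r1

/-- Three copies: `exists_two`, then `exists_three` (coupling of `0` and `2`) or `exists_three'` (coupling of
`1` and `2`), with `δ 0 1 = D / (w₁ + w₂)`, and `δ = D' / (w₁ + w₂)` for the other coupling. -/
theorem PW.three (hℓ2 : ℓ ≠ 2) (h1 : w₁ ≠ 0) (h2 : w₂ ≠ 0) (h3 : w₃ ≠ 0) (h12 : w₁ + w₂ ≠ 0)
    (hW : w₁ + w₂ + w₃ ≠ 0) (hy : y ≠ 0) (hL : ∀ z, Lz w₁ w₂ w₃ x y z ≠ 0) :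
    PW (Fin 3) w₁ w₂ w₃ x y := by
  obtain ⟨z₀, hz⟩ : ∃ z₀, z₀ = (w₂ + w₃) * y - w₁ * w₃ * y / (w₁ + w₂) := ⟨_, rfl⟩
  obtain ⟨c₁, hc₁⟩ : ∃ c₁, (w₁ + w₂ + w₃) * c₁ - w₃ * x - w₁ * y = z₀ - 1 :=
    ⟨(z₀ - 1 + w₃ * x + w₁ * y) / (w₁ + w₂ + w₃), by rw [mul_div_cancel₀ _ hW]; ring⟩
  obtain ⟨c₂, hc₂⟩ : ∃ c₂, (w₁ + w₂ + w₃) * c₂ - w₃ * x - w₁ * y = z₀ + 1 :=
    ⟨(z₀ + 1 + w₃ * x + w₁ * y) / (w₁ + w₂ + w₃), by rw [mul_div_cancel₀ _ hW]; ring⟩
  obtain ⟨D, hD⟩ := exists_two hℓ2 h1 h2 h3 h12 hW hy hL hz hc₁ hc₂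
  obtain ⟨d, hd⟩ : ∃ d, (w₁ + w₂) * d = D := ⟨D / (w₁ + w₂), mul_div_cancel₀ _ h12⟩
  -- the general case of couplings `d` of 0 1, `p` of 0 2, `q` of 1 2
  have key : ∀ (c₃ p q : ZMod ℓ),
      (∀ (X Y Z : Fin 3 → ZMod ℓ) (z : ZMod ℓ),
        Tc w₁ w₂ w₃ x y c₁ X + (D * (X 0 - Y 0) + (w₁ + w₂) * p * (X 0 - Z 0)) • e0 = z • X →
        Tc w₁ w₂ w₃ x y c₂ Y + (D * (Y 0 - X 0) + (w₁ + w₂) * q * (Y 0 - Z 0)) • e0 = z • Y →
        Tc w₁ w₂ w₃ x y c₃ Z + ((w₁ + w₂) * p * (Z 0 - X 0) + (w₁ + w₂) * q * (Z 0 - Y 0)) • e0 =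
          z • Z → X = 0 ∧ Y = 0 ∧ Z = 0) → PW (Fin 3) w₁ w₂ w₃ x y := by
    intro c₃ p q hk
    refine ⟨![c₁, c₂, c₃], ![![0, d, p], ![d, 0, q], ![p, q, 0]], ?_, ?_⟩
    · intro a b
      fin_cases a <;> fin_cases b <;> rfl
    · intro X z h
      have k0 := h 0
      have k1 := h 1
      have k2 := h 2
      rw [Fin.sum_univ_three] at k0 k1 k2
      have e0' : (w₁ + w₂) * (![![0, d, p], ![d, 0, q], ![p, q, 0]] 0 0 * (X 0 0 - X 0 0) +
          ![![0, d, p], ![d, 0, q], ![p, q, 0]] 0 1 * (X 0 0 - X 1 0) +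
          ![![0, d, p], ![d, 0, q], ![p, q, 0]] 0 2 * (X 0 0 - X 2 0)) =
          D * (X 0 0 - X 1 0) + (w₁ + w₂) * p * (X 0 0 - X 2 0) := by
        change (w₁ + w₂) * (0 * (X 0 0 - X 0 0) + d * (X 0 0 - X 1 0) + p * (X 0 0 - X 2 0)) = _
        rw [← hd]
        ring
      have e1' : (w₁ + w₂) * (![![0, d, p], ![d, 0, q], ![p, q, 0]] 1 0 * (X 1 0 - X 0 0) +
          ![![0, d, p], ![d, 0, q], ![p, q, 0]] 1 1 * (X 1 0 - X 1 0) +
          ![![0, d, p], ![d, 0, q], ![p, q, 0]] 1 2 * (X 1 0 - X 2 0)) =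
          D * (X 1 0 - X 0 0) + (w₁ + w₂) * q * (X 1 0 - X 2 0) := by
        change (w₁ + w₂) * (d * (X 1 0 - X 0 0) + 0 * (X 1 0 - X 1 0) + q * (X 1 0 - X 2 0)) = _
        rw [← hd]
        ring
      have e2' : (w₁ + w₂) * (![![0, d, p], ![d, 0, q], ![p, q, 0]] 2 0 * (X 2 0 - X 0 0) +
          ![![0, d, p], ![d, 0, q], ![p, q, 0]] 2 1 * (X 2 0 - X 1 0) +
          ![![0, d, p], ![d, 0, q], ![p, q, 0]] 2 2 * (X 2 0 - X 2 0)) =
          (w₁ + w₂) * p * (X 2 0 - X 0 0) + (w₁ + w₂) * q * (X 2 0 - X 1 0) := by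
        change (w₁ + w₂) * (p * (X 2 0 - X 0 0) + q * (X 2 0 - X 1 0) + 0 * (X 2 0 - X 2 0)) = _
        ring
      rw [e0'] at k0
      rw [e1'] at k1
      rw [e2'] at k2
      obtain ⟨r0, r1, r2⟩ := hk (X 0) (X 1) (X 2) z k0 k1 k2
      intro a
      fin_cases a
      · exact r0
      · exact r1
      · exact r2
  by_cases hk : 1 + D * (w₃ / (w₁ + w₂ + w₃)) = 0
  · obtain ⟨c₃, D', hD'⟩ := exists_three' hℓ2 h1 h2 h3 h12 hW hy hL hz hc₁ hc₂ hD hk
    refine key c₃ 0 (D' / (w₁ + w₂)) ?_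
    intro X Y Z z e1 e2 e3
    rw [mul_div_cancel₀ _ h12] at e2 e3
    rw [mul_zero, zero_mul, add_zero] at e1
    rw [mul_zero, zero_mul, zero_add] at e3
    exact hD' X Y Z z e1 e2 e3
  · obtain ⟨c₃, D', hD'⟩ := exists_three h1 h2 h3 h12 hW hy hL hz hc₁ hc₂ hD hk
    refine key c₃ (D' / (w₁ + w₂)) 0 ?_
    intro X Y Z z e1 e2 e3
    rw [mul_div_cancel₀ _ h12] at e1 e3
    rw [mul_zero, zero_mul, add_zero] at e2
    rw [mul_zero, zero_mul, add_zero] at e3
    exact hD' X Y Z z e1 e2 e3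

/-- All numbers of copies `n ≥ 2`. Proof: strong induction: `n = 2`, `n = 3`, and `n = m + 2`
(`PW.sum` for `Fin m ⊕ Fin 2`, `finSumFinEquiv`). -/
theorem PW.all (hℓ2 : ℓ ≠ 2) (h1 : w₁ ≠ 0) (h2 : w₂ ≠ 0) (h3 : w₃ ≠ 0) (h12 : w₁ + w₂ ≠ 0)
    (hW : w₁ + w₂ + w₃ ≠ 0) (hy : y ≠ 0) (hL : ∀ z, Lz w₁ w₂ w₃ x y z ≠ 0) {n : ℕ} (hn : 2 ≤ n) :
    PW (Fin n) w₁ w₂ w₃ x y := by
  have h2' := PW.two hℓ2 h1 h2 h3 h12 hW hy hL
  have h3' := PW.three hℓ2 h1 h2 h3 h12 hW hy hL
  have key : ∀ m : ℕ, PW (Fin (m + 2)) w₁ w₂ w₃ x y ∧ PW (Fin (m + 3)) w₁ w₂ w₃ x y := by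
    intro m
    induction m with
    | zero => exact ⟨h2', h3'⟩
    | succ m ih =>
      have h4 : PW (Fin (m + 2 + 2)) w₁ w₂ w₃ x y := PW.equiv finSumFinEquiv (PW.sum ih.1 h2')
      exact ⟨ih.2, h4⟩
  obtain ⟨m, rfl⟩ := Nat.exists_eq_add_of_le hn
  rw [add_comm]
  exact (key m).1

end Pool.Agent.Lib.MP_89bcae_ag.Tri

end

section

/-!
# Good families are arrangements

`α_a - α_b` is separable (`separable_of_typeI`), of degree `n` (`gdif_natDegree`). For different pairs
`α_a - α_b` and `α_c - α_d` are coprime over `ℚ`: they are coprime modulo the prime of type D of some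
pair (`isCoprime_of_gred`). For the product over `i < j`: `Polynomial.separable_prod'` or
`Finset.prod` with `Polynomial.Separable.mul` (pairwise coprime and separable).
-/

open Polynomial

open scoped Classical

namespace Pool.Agent.Lib.MP_89bcae_ag

open Superelliptic

section

variable {ι : Type} {n : ℕ}

lemma coe_pair_ne_h30 {I : Finset ι} {a b c d : I} (h : ({a, b} : Set I) ≠ {c, d}) :
    ({(a : ι), (b : ι)} : Set ι) ≠ {(c : ι), (d : ι)} := by
  intro hcon
  apply h
  apply Set.image_injective.2 (Subtype.coe_injective (p := fun x => x ∈ I))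
  rw [Set.image_pair, Set.image_pair]
  exact hcon

/-- Restriction of a good family to a set of indices. -/
theorem GoodG.restrict {v : ι × Fin (n + 1) → ℤ} (h : GoodG v) (I : Finset ι) :
    GoodG (fun x : I × Fin (n + 1) => v (x.1, x.2)) := by
  have hc : ∀ {a b : I}, a ≠ b → (a : ι) ≠ (b : ι) := fun hab hcon => hab (Subtype.ext hcon)
  refine ⟨?_, ?_, ?_, ?_⟩
  · intro a b hab
    obtain ⟨p, hp, hI⟩ := h.typeI a b (hc hab)
    exact ⟨p, hp, ⟨hI.lead, hI.irr⟩⟩
  · intro a b hab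
    obtain ⟨p, hp, hL⟩ := h.typeL a b (hc hab)
    exact ⟨p, hp, ⟨hL.lead, hL.irr⟩⟩
  · intro a b hab
    obtain ⟨p, hp, hD⟩ := h.typeD a b (hc hab)
    refine ⟨p, hp, ⟨?_, ?_, ?_, hD.dbl⟩⟩
    · intro c d hcd
      exact hD.lead c d (hc hcd)
    · intro c d hcd hne
      exact hD.sep c d (hc hcd) (coe_pair_ne_h30 hne)
    · intro a' b' c d hab' hcd hne
      exact hD.cop a' b' c d (hc hab') (hc hcd) (coe_pair_ne_h30 hne)
  · intro i j l hij hjl hil
    obtain ⟨p, hp, hB⟩ := h.typeB i j l (hc hij) (hc hjl) (hc hil)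
    refine ⟨p, hp, ⟨?_, ?_, ?_, hB.col⟩⟩
    · intro c d hcd
      exact hB.lead c d (hc hcd)
    · intro c d hcd
      exact hB.sep c d (hc hcd)
    · intro a b c d hab hcd hne hsub
      refine hB.cop a b c d (hc hab) (hc hcd) (coe_pair_ne_h30 hne) ?_
      intro hcon
      apply hsub
      have key : ∀ x : I, (x : ι) ∈ ({(i : ι), (j : ι), (l : ι)} : Set ι) →
          x ∈ ({i, j, l} : Set I) := by
        intro x hx
        simp only [Set.mem_insert_iff, Set.mem_singleton_iff] at hx ⊢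
        rcases hx with hx | hx | hx
        · exact Or.inl (Subtype.ext hx)
        · exact Or.inr (Or.inl (Subtype.ext hx))
        · exact Or.inr (Or.inr (Subtype.ext hx))
      intro x hx
      apply key
      apply hcon
      simp only [Set.mem_insert_iff, Set.mem_singleton_iff] at hx ⊢
      rcases hx with hx | hx | hx | hx
      · exact Or.inl (congrArg _ hx)
      · exact Or.inr (Or.inl (congrArg _ hx))
      · exact Or.inr (Or.inr (Or.inl (congrArg _ hx)))
      · exact Or.inr (Or.inr (Or.inr (congrArg _ hx)))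

variable {F : Type} [Field F] [Algebra ℚ F] [IsAlgClosure ℚ F]

theorem GoodG.natDegree {v : ι × Fin (n + 1) → ℤ} (h : GoodG v) {a b : ι} (hab : a ≠ b) :
    (gpolQ v a - gpolQ v b).natDegree = n := by
  obtain ⟨p, hp, hI⟩ := h.typeI a b hab
  have hne : v (a, Fin.last n) ≠ v (b, Fin.last n) := by
    intro hcon
    apply hI.lead
    rw [hcon, sub_self]
    exact dvd_zero _
  rw [← gdif_map_rat, natDegree_map_eq_of_injective (RingHom.injective_int (Int.castRingHom ℚ))]
  exact gdif_natDegree hne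

theorem GoodG.isCoprime {v : ι × Fin (n + 1) → ℤ} (h : GoodG v) {a b c d : ι} (hab : a ≠ b)
    (hcd : c ≠ d) (hne : ({a, b} : Set ι) ≠ {c, d}) :
    IsCoprime (gpolQ v a - gpolQ v b) (gpolQ v c - gpolQ v d) := by
  obtain ⟨p, hp, hD⟩ := h.typeD a b hab
  exact isCoprime_of_gred hp (hD.lead a b hab) (hD.lead c d hcd) (hD.cop a b c d hab hcd hne)

theorem GoodG.isArrangement [Fintype ι] [LinearOrder ι] (hn : n ≠ 0) {v : ι × Fin (n + 1) → ℤ}
    (h : GoodG v) (k : Type) [Field k] [Algebra ℚ k] :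
    IsArrangement fun i => (gpolQ v i).map (algebraMap ℚ k) := by
  refine ⟨?_, ?_⟩
  · have h1 : (∏ i, ∏ j ∈ Finset.univ.filter fun j => i < j,
        (gpolQ v i - gpolQ v j)).Separable := by
      rw [Finset.prod_sigma']
      apply separable_prod'
      · rintro ⟨a, b⟩ hx ⟨c, d⟩ hy hxy
        simp only [Finset.mem_sigma, Finset.mem_univ, Finset.mem_filter, true_and] at hx hy
        refine h.isCoprime hx.ne hy.ne ?_
        intro hcon
        rw [Set.pair_eq_pair_iff] at hcon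
        rcases hcon with ⟨h2, h3⟩ | ⟨h2, h3⟩
        · have h2' : a = c := h2
          have h3' : b = d := h3
          exact hxy (by rw [h2', h3'])
        · have h2' : a = d := h2
          have h3' : b = c := h3
          rw [h2', h3'] at hx
          exact absurd hx (not_lt.2 hy.le)
      · rintro ⟨a, b⟩ hx
        simp only [Finset.mem_sigma, Finset.mem_univ, Finset.mem_filter, true_and] at hx
        obtain ⟨p, hp, hI⟩ := h.typeI a b hx.ne
        exact separable_of_typeI v hp hI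
    have h2 := h1.map (f := algebraMap ℚ k)
    rw [Polynomial.map_prod] at h2
    have h3 : (∏ i, ∏ j ∈ Finset.univ.filter fun j => i < j,
        ((gpolQ v i).map (algebraMap ℚ k) - (gpolQ v j).map (algebraMap ℚ k))) =
        ∏ i, Polynomial.map (algebraMap ℚ k) (∏ j ∈ Finset.univ.filter fun j => i < j,
          (gpolQ v i - gpolQ v j)) := by
      refine Finset.prod_congr rfl fun i _ => ?_
      rw [Polynomial.map_prod]
      refine Finset.prod_congr rfl fun j _ => ?_
      rw [Polynomial.map_sub]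
    rw [h3]
    exact h2
  · intro i j hij
    rw [← Polynomial.map_sub, natDegree_map, h.natDegree hij]
    exact hn

end

end Pool.Agent.Lib.MP_89bcae_ag

end

section

open scoped Classical

namespace Pool.Agent.Lib.MP_89bcae_ag.Tri

variable {ℓ : ℕ} [Fact ℓ.Prime]

theorem P07a_sum_h75 {ι : Type} [Fintype ι] {R : Type} [AddCommMonoid R] {i j l : ι}
    (hil : l ≠ i) (hjl : l ≠ j) (hun : ∀ t, t = i ∨ t = j ∨ t = l) (f : ι → R) :
    ∑ t ∈ Finset.univ.filter (fun t => t ≠ i ∧ t ≠ j), f t = f l := by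
  refine Finset.sum_eq_single l ?_ ?_
  · intro t ht htl
    rw [Finset.mem_filter] at ht
    rcases hun t with h | h | h
    · exact absurd h ht.2.1
    · exact absurd h ht.2.2
    · exact absurd h htl
  · intro h
    exact absurd (Finset.mem_filter.2 ⟨Finset.mem_univ _, hil, hjl⟩) h

theorem P07a_filt_h75 {n : ℕ} {R : Type} [Ring R] (a : Fin n) (d X : Fin n → R) :
    ∑ b ∈ Finset.univ.filter (fun b => b ≠ a), d b * (X a - X b) = ∑ b, d b * (X a - X b) := by
  refine Finset.sum_subset (Finset.filter_subset _ _) ?_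
  intro b _ hb
  rw [Finset.mem_filter, not_and, not_not] at hb
  rw [hb (Finset.mem_univ _), sub_self, mul_zero]

theorem P07a_ext_h75 {R : Type} {X Y : Fin 3 → R} (h0 : X 0 = Y 0) (h1 : X 1 = Y 1)
    (h2 : X 2 = Y 2) : X = Y := by
  funext i
  fin_cases i
  · exact h0
  · exact h1
  · exact h2

/-- From the coordinates to `GoodW`. Proof: let `w₁ = w s₁`, ...; given `x a i j`, `z`, `γ` put
`X a = ![x a s₁ s₂, x a s₂ s₃, x a s₃ s₁]` and `G = ![γ s₁ - γ s₂, γ s₂ - γ s₃, γ s₃ - γ s₁]`. The equations for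
the pairs `(s₁, s₂)`, `(s₂, s₃)`, `(s₃, s₁)` are
`Tc (c₀ a) (X a) + ((w₁ + w₂) ∑ b, δ₀ a b (X a 0 - X b 0)) e0 = z X a + G` (the sum over `l` has one term, the
third element; the term `b = a` is zero; `pr_eq_pr`). As `Lz ≠ 0` there is `Y` with `phi Y = 0` and
`(z - (w₁ + w₂) X) Y₀ + w₃ y Y₁ = - G₀`, `w₁ x Y₀ + (z - (w₂ + w₃) y) Y₁ = - G₁` (Cramer), that is
`Tc c Y = z Y + G` for all `c`. The `X a - Y` satisfy the hypothesis of `h`, so `X a = Y` for all `a`. Take
`b s₁ = Y₀ + Y₁`, `b s₂ = Y₁`, `b s₃ = 0`. -/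
theorem goodW_of_PW {ι : Type} [Fintype ι] {s₁ s₂ s₃ : ι} (h12 : s₁ ≠ s₂)
    (h23 : s₂ ≠ s₃) (h13 : s₁ ≠ s₃) (hun : ∀ i, i = s₁ ∨ i = s₂ ∨ i = s₃) {w : ι → ZMod ℓ} {n : ℕ}
    {x y : ZMod ℓ} (hL : ∀ z, Lz (w s₁) (w s₂) (w s₃) x y z ≠ 0) (c₀ : Fin n → ZMod ℓ)
    (δ₀ : Fin n → Fin n → ZMod ℓ)
    (h : ∀ (X : Fin n → Fin 3 → ZMod ℓ) (z : ZMod ℓ),
      (∀ a, Tc (w s₁) (w s₂) (w s₃) x y (c₀ a) (X a) +
        ((w s₁ + w s₂) * ∑ b, δ₀ a b * (X a 0 - X b 0)) • e0 = z • X a) → ∀ a, X a = 0) :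
    GoodW w (fun T => if T = pr s₁ s₂ then x else if T = pr s₂ s₃ then y else 0)
      (fun a _ => c₀ a) (fun T a b => if T = pr s₁ s₂ then δ₀ a b else 0) := by
  intro xx z γ hanti heq
  have hb12 : (fun T => if T = pr s₁ s₂ then x else if T = pr s₂ s₃ then y else 0) (pr s₁ s₂) = x :=
    if_pos rfl
  have hn1 : pr s₂ s₃ ≠ pr s₁ s₂ := by
    intro h'
    rcases pr_eq_pr.1 h' with ⟨h1, _⟩ | ⟨_, h1⟩
    · exact h12 h1.symm
    · exact h13 h1.symm
  have hn2 : pr s₃ s₁ ≠ pr s₁ s₂ := by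
    intro h'
    rcases pr_eq_pr.1 h' with ⟨h1, _⟩ | ⟨h1, _⟩
    · exact h13 h1.symm
    · exact h23 h1.symm
  have hn3 : pr s₃ s₁ ≠ pr s₂ s₃ := by
    intro h'
    rcases pr_eq_pr.1 h' with ⟨h1, _⟩ | ⟨_, h1⟩
    · exact h23 h1.symm
    · exact h12 h1
  -- the equations of the three pairs
  have E1 : ∀ a, (w s₁ + w s₂) * (x * xx a s₁ s₂ + ∑ b, δ₀ a b * (xx a s₁ s₂ - xx b s₁ s₂)) +
      w s₃ * ((c₀ a - x) * xx a s₁ s₂ - (c₀ a - x - 0) * xx a s₁ s₃ +
        (c₀ a - x - y) * xx a s₂ s₃) = z * xx a s₁ s₂ + (γ s₁ - γ s₂) := by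
    intro a
    have h1 := heq a s₁ s₂ h12
    rw [P07a_sum_h75 h13.symm h23.symm hun] at h1
    simp only [if_true, if_neg hn1, pr_comm s₁ s₃, if_neg hn2, if_neg hn3] at h1
    rw [P07a_filt_h75 a (fun b => δ₀ a b) (fun b => xx b s₁ s₂)] at h1
    exact h1
  have E2 : ∀ a, (w s₂ + w s₃) * (y * xx a s₂ s₃) +
      w s₁ * ((c₀ a - y) * xx a s₂ s₃ - (c₀ a - y - x) * xx a s₂ s₁ +
        (c₀ a - y - 0) * xx a s₃ s₁) = z * xx a s₂ s₃ + (γ s₂ - γ s₃) := by
    intro a
    have h1 := heq a s₂ s₃ h23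
    rw [P07a_sum_h75 h12 h13 (fun t => by
      rcases hun t with h | h | h
      · exact Or.inr (Or.inr h)
      · exact Or.inl h
      · exact Or.inr (Or.inl h))] at h1
    simp only [if_true, if_neg hn1, pr_comm s₂ s₁, if_neg hn2, if_neg hn3, zero_mul,
      Finset.sum_const_zero, add_zero] at h1
    exact h1
  have E3 : ∀ a, w s₂ * ((c₀ a - 0) * xx a s₃ s₁ - (c₀ a - 0 - y) * xx a s₃ s₂ +
        (c₀ a - 0 - x) * xx a s₁ s₂) = z * xx a s₃ s₁ + (γ s₃ - γ s₁) := by
    intro a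
    have h1 := heq a s₃ s₁ h13.symm
    rw [P07a_sum_h75 h23 h12.symm (fun t => by
      rcases hun t with h | h | h
      · exact Or.inr (Or.inl h)
      · exact Or.inr (Or.inr h)
      · exact Or.inl h)] at h1
    simp only [if_true, if_neg hn1, pr_comm s₃ s₂, if_neg hn2, if_neg hn3, zero_mul,
      Finset.sum_const_zero, add_zero, mul_zero, zero_add] at h1
    simp only [sub_zero]
    simp only [sub_zero] at h1
    exact h1
  -- the solution of the equation with the gradient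
  have hD := hL z
  set D : ZMod ℓ := Lz (w s₁) (w s₂) (w s₃) x y z with hDdef
  set G0 : ZMod ℓ := γ s₁ - γ s₂ with hG0
  set G1 : ZMod ℓ := γ s₂ - γ s₃ with hG1
  obtain ⟨Y0, Y1, hY0, hY1⟩ : ∃ Y0 Y1 : ZMod ℓ,
      (z - (w s₁ + w s₂) * x) * Y0 + w s₃ * y * Y1 = -G0 ∧
      w s₁ * x * Y0 + (z - (w s₂ + w s₃) * y) * Y1 = -G1 := by
    refine ⟨(-G0 * (z - (w s₂ + w s₃) * y) + G1 * (w s₃ * y)) / D,
      (-G1 * (z - (w s₁ + w s₂) * x) + G0 * (w s₁ * x)) / D, ?_, ?_⟩
    · rw [mul_div_assoc', mul_div_assoc', ← add_div, div_eq_iff hD, hDdef, Lz]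
      ring
    · rw [mul_div_assoc', mul_div_assoc', ← add_div, div_eq_iff hD, hDdef, Lz]
      ring
  have key : ∀ a, (![xx a s₁ s₂ - Y0, xx a s₂ s₃ - Y1, xx a s₃ s₁ - (-Y0 - Y1)] :
      Fin 3 → ZMod ℓ) = 0 := by
    refine h (fun a => ![xx a s₁ s₂ - Y0, xx a s₂ s₃ - Y1, xx a s₃ s₁ - (-Y0 - Y1)]) z ?_
    intro a
    have e1 := E1 a
    have e2 := E2 a
    have e3 := E3 a
    rw [hanti a s₃ s₁ h13.symm] at e1
    rw [hanti a s₁ s₂ h12] at e2
    rw [hanti a s₂ s₃ h23] at e3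
    refine P07a_ext_h75 ?_ ?_ ?_
    · have hsum : ∑ b, δ₀ a b * ((xx a s₁ s₂ - Y0) - (xx b s₁ s₂ - Y0)) =
          ∑ b, δ₀ a b * (xx a s₁ s₂ - xx b s₁ s₂) :=
        Finset.sum_congr rfl fun b _ => by ring
      simp only [Tc, e0, phi, Pi.add_apply, Pi.smul_apply, smul_eq_mul, Matrix.cons_val_zero,
        Matrix.cons_val_one, Matrix.cons_val, hsum]
      linear_combination e1 + hY0
    · simp only [Tc, e0, phi, Pi.add_apply, Pi.smul_apply, smul_eq_mul, Matrix.cons_val_zero,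
        Matrix.cons_val_one, Matrix.cons_val]
      linear_combination e2 + hY1
    · simp only [Tc, e0, phi, Pi.add_apply, Pi.smul_apply, smul_eq_mul, Matrix.cons_val_zero,
        Matrix.cons_val_one, Matrix.cons_val]
      have hG2 : γ s₃ - γ s₁ = -G0 - G1 := by rw [hG0, hG1]; ring
      rw [hG2] at e3
      linear_combination e3 - hY0 - hY1
  have k0 : ∀ a, xx a s₁ s₂ = Y0 := fun a => by
    have := congrFun (key a) 0
    simpa [sub_eq_zero] using this
  have k1 : ∀ a, xx a s₂ s₃ = Y1 := fun a => by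
    have := congrFun (key a) 1
    simpa [sub_eq_zero] using this
  have k2 : ∀ a, xx a s₃ s₁ = -Y0 - Y1 := fun a => by
    have := congrFun (key a) 2
    simp only [Matrix.cons_val, Pi.zero_apply] at this
    exact sub_eq_zero.1 this
  obtain ⟨bb, b1, b2, b3⟩ : ∃ bb : ι → ZMod ℓ, bb s₁ = Y0 + Y1 ∧ bb s₂ = Y1 ∧ bb s₃ = 0 :=
    ⟨fun i => if i = s₁ then Y0 + Y1 else if i = s₂ then Y1 else 0, if_pos rfl,
      (if_neg h12.symm).trans (if_pos rfl), (if_neg h13.symm).trans (if_neg h23.symm)⟩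
  refine ⟨bb, fun a i j hij => ?_⟩
  rcases hun i with h1 | h1 | h1 <;> rcases hun j with h2 | h2 | h2
  · exact absurd (h1.trans h2.symm) hij
  · rw [h1, h2, b1, b2, k0]; ring
  · rw [h1, h2, b1, b3, hanti a _ _ h13.symm, k2]; ring
  · rw [h1, h2, b1, b2, hanti a _ _ h12, k0]; ring
  · exact absurd (h1.trans h2.symm) hij
  · rw [h1, h2, b2, b3, k1]; ring
  · rw [h1, h2, b1, b3, k2]; ring
  · rw [h1, h2, b2, b3, hanti a _ _ h23, k1]; ring
  · exact absurd (h1.trans h2.symm) hij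

/-- The three elements, named so that the sum of the first two weights is not zero. -/
theorem exists_labels_h54 (hℓ2 : ℓ ≠ 2) {ι : Type} [Fintype ι]
    (hι : Fintype.card ι = 3) {w : ι → ZMod ℓ} (hw : ∀ i, w i ≠ 0) :
    ∃ s₁ s₂ s₃ : ι, s₁ ≠ s₂ ∧ s₂ ≠ s₃ ∧ s₁ ≠ s₃ ∧ (∀ i, i = s₁ ∨ i = s₂ ∨ i = s₃) ∧
      w s₁ + w s₂ ≠ 0 := by
  have h2 : (2 : ZMod ℓ) ≠ 0 := by
    intro h
    have h' : ((2 : ℕ) : ZMod ℓ) = 0 := by exact_mod_cast h
    rw [ZMod.natCast_eq_zero_iff] at h'
    exact hℓ2 ((Nat.prime_dvd_prime_iff_eq Fact.out Nat.prime_two).1 h')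
  rw [← Finset.card_univ, Finset.card_eq_three] at hι
  obtain ⟨a, b, c, hab, hac, hbc, hu⟩ := hι
  have hun : ∀ i, i = a ∨ i = b ∨ i = c := by
    intro i
    have := Finset.mem_univ i
    rw [hu] at this
    simpa using this
  by_cases h1 : w a + w b = 0
  · by_cases h3 : w b + w c = 0
    · by_cases h4 : w a + w c = 0
      · exfalso
        have : 2 * w a = 0 := by linear_combination h1 + h4 - h3
        rcases mul_eq_zero.1 this with h | h
        · exact h2 h
        · exact hw a h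
      · exact ⟨a, c, b, hac, hbc.symm, hab, fun i => by
          rcases hun i with h | h | h
          · exact Or.inl h
          · exact Or.inr (Or.inr h)
          · exact Or.inr (Or.inl h), h4⟩
    · exact ⟨b, c, a, hbc, hac.symm, hab.symm, fun i => by
          rcases hun i with h | h | h
          · exact Or.inr (Or.inr h)
          · exact Or.inl h
          · exact Or.inr (Or.inl h), h3⟩
  · exact ⟨a, b, c, hab, hbc, hac, hun, h1⟩

/-- **Existence.** Proof: `ι = {s₁, s₂, s₃}` with `w s₁ + w s₂ ≠ 0` (if all the sums of two weights were zero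
then `2 w i = 0`; rename the elements); `exists_xy`, `PW.all`, `goodW_of_PW`. -/
theorem exists_goodW (hℓ2 : ℓ ≠ 2) {ι : Type} [Fintype ι]
    (hι : Fintype.card ι = 3) {w : ι → ZMod ℓ} (hw : ∀ i, w i ≠ 0) (hs : ∑ i, w i ≠ 0) {n : ℕ}
    (hn : 2 ≤ n) :
    ∃ (β : Finset ι → ZMod ℓ) (c : Fin n → Finset ι → ZMod ℓ)
      (δ : Finset ι → Fin n → Fin n → ZMod ℓ), (∀ T a b, δ T a b = δ T b a) ∧
      GoodW w β c δ ∧ ∃ i j, i ≠ j ∧ β (pr i j) ≠ 0 := by
  obtain ⟨s₁, s₂, s₃, h12, h23, h13, hun, hw12⟩ := exists_labels_h54 hℓ2 hι hw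
  have hsum : ∑ i, w i = w s₁ + w s₂ + w s₃ := by
    have hu : (Finset.univ : Finset ι) = {s₁, s₂, s₃} := by
      ext i
      simpa using hun i
    rw [hu, Finset.sum_insert, Finset.sum_insert, Finset.sum_singleton, add_assoc]
    · simpa using h23
    · simpa using ⟨h12, h13⟩
  rw [hsum] at hs
  obtain ⟨x, y, hx, hy, hL⟩ := exists_xy hℓ2 (hw s₁) (hw s₂) (hw s₃) hw12 hs
  obtain ⟨c₀, δ₀, hsym, h⟩ := PW.all (x := x) (y := y) hℓ2 (hw s₁) (hw s₂) (hw s₃) hw12 hs hy hL hn
  refine ⟨_, _, _, ?_, goodW_of_PW h12 h23 h13 hun hL c₀ δ₀ h, s₁, s₂, h12, ?_⟩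
  · intro T a b
    by_cases hT : T = pr s₁ s₂
    · rw [if_pos hT, if_pos hT, hsym]
    · rw [if_neg hT, if_neg hT]
  · rw [if_pos rfl]
    exact hx

end Pool.Agent.Lib.MP_89bcae_ag.Tri

end
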