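import Mathlib
import Pool.Agent.Lib.MP_89bcae_ag.Bk.K006
import Pool.Agent.Lib.MP_89bcae_ag.Bk.K021
import Pool.Agent.Lib.MP_89bcae_ag.Bk.K058

namespace Pool.Agent.Lib.MP_89bcae_ag.Superelliptic
end Pool.Agent.Lib.MP_89bcae_ag.Superelliptic

section

/-!
# Disjoint copies of an arrangement of lines: the linear algebra
-/

namespace Pool.Agent.Lib.MP_89bcae_ag.Lr

variable {ι κ : Type} {ℓ : ℕ}

/-- **Copies.** Proof: for every `k`, `hT` for `ε k` and
`f i = γ i - ∑ l, w l * (c {i, l} - g i) * ε k i l` gives `b k` with `ε k i j = b k i - b k j` for `i ≠ j`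
(also for `i = j`, `hε0`). The left side of `heq` is then zero for the terms `l ≠ i, j`, and for `l = i`,
`l = j` (`{i, j, i} = {i, j}`), so
`z * b k i + γ i - ∑ l, w l * (c {i, l} - g i) * (b k i - b k l)` does not depend on `i`: it is `m k`
(take `m k` its value at some `i₀`; nothing to prove if `ι` is empty). For `k, k'` the difference
`κ = b k - b k'` satisfies `∑ l, w l * (c {i, l} - g i) * (κ i - κ l) = z * κ i + (m k' - m k)`, so it is
constant by `hR`, and `ε k = ε k'`. Take `b k₀` for some `k₀` (or `0` if there is no `k₀`). -/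
theorem core_copies [Fintype ι] [DecidableEq ι] [Fact ℓ.Prime] {w : ι → ZMod ℓ}
    {c : Finset ι → ZMod ℓ} {g : ι → ZMod ℓ} (hT : GoodT w c Finset.univ)
    (hR : GoodR w (fun i l => c {i, l}) g Finset.univ) (ε : κ → ι → ι → ZMod ℓ)
    (hε : ∀ k i j, i ≠ j → ε k j i = -ε k i j) (hε0 : ∀ k i, ε k i i = 0) (z : ZMod ℓ)
    (γ : ι → ZMod ℓ)
    (heq : ∀ k i j, i ≠ j →
      ∑ l, w l * (c {i, j, l} - c {i, j}) * (ε k i j + ε k j l + ε k l i) =
        z * ε k i j + ((γ i - ∑ l, w l * (c {i, l} - g i) * ε k i l) -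
          (γ j - ∑ l, w l * (c {j, l} - g j) * ε k j l))) :
    ∃ b : ι → ZMod ℓ, ∀ k i j, i ≠ j → ε k i j = b i - b j := by
  classical
  have hb : ∀ k, ∃ b : ι → ZMod ℓ, ∀ i j, ε k i j = b i - b j := by
    intro k
    obtain ⟨b, hb⟩ := hT (ε k) (fun i => γ i - ∑ l, w l * (c {i, l} - g i) * ε k i l) z
      (fun i _ j _ hij => hε k i j hij) (fun i _ j _ hij => heq k i j hij)
    refine ⟨b, fun i j => ?_⟩
    by_cases hij : i = j
    · subst hij
      rw [hε0, sub_self]
    · exact hb i (Finset.mem_univ i) j (Finset.mem_univ j) hij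
  choose b hb using hb
  have hF : ∀ k i j, z * b k i + (γ i - ∑ l, w l * (c {i, l} - g i) * (b k i - b k l)) =
      z * b k j + (γ j - ∑ l, w l * (c {j, l} - g j) * (b k j - b k l)) := by
    intro k i j
    by_cases hij : i = j
    · rw [hij]
    · have h := heq k i j hij
      have h0 : ∑ l, w l * (c {i, j, l} - c {i, j}) * (ε k i j + ε k j l + ε k l i) = 0 := by
        refine Finset.sum_eq_zero fun l _ => ?_
        rw [hb k i j, hb k j l, hb k l i]
        ring
      rw [h0] at h
      simp only [hb] at h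
      linear_combination -h
  have hκ : ∀ k k' i j, b k i - b k' i = b k j - b k' j := by
    intro k k' i j
    refine hR (fun i => b k i - b k' i) z
      ((z * b k' i + (γ i - ∑ l, w l * (c {i, l} - g i) * (b k' i - b k' l))) -
        (z * b k i + (γ i - ∑ l, w l * (c {i, l} - g i) * (b k i - b k l))))
      (fun m _ => ?_) i (Finset.mem_univ i) j (Finset.mem_univ j)
    rw [hF k i m, hF k' i m]
    have e : ∑ l, w l * (c {m, l} - g m) * (b k m - b k' m - (b k l - b k' l)) =
        ∑ l, w l * (c {m, l} - g m) * (b k m - b k l) -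
          ∑ l, w l * (c {m, l} - g m) * (b k' m - b k' l) := by
      rw [← Finset.sum_sub_distrib]
      exact Finset.sum_congr rfl fun l _ => by ring
    simp only [e]
    ring
  by_cases hk : Nonempty κ
  · obtain ⟨k₀⟩ := hk
    refine ⟨b k₀, fun k i j _ => ?_⟩
    rw [hb k i j]
    linear_combination hκ k k₀ i j
  · exact ⟨fun _ => 0, fun k => (hk ⟨k⟩).elim⟩

/-- The symbols `c - ∑ g` are not all zero. Proof: otherwise `c {i, j} = g i + g j` for `i ≠ j` and
`c {i, j, l} = g i + g j + g l` for different `i, j, l`, so `c {i, j, l} - c {i, j} = g l`. For every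
antisymmetric `ε` (with `ε i i = 0`), the sum in `GoodT` is
`∑_{l ≠ i, j} w l g l (ε i j + ε j l + ε l i)`, and the terms `l = i`, `l = j` of
`∑ l, w l g l (ε i j + ε j l + ε l i)` are zero too; so it is
`(∑ w l g l) ε i j + f i - f j` with `f i = - ∑ l, w l g l ε i l`. So `hT` applies to every antisymmetric
`ε`, for instance with `ε s₁ s₂ = 1`, `ε s₂ s₁ = -1`, zero elsewhere, which is not of the form
`b i - b j` (three different elements `s₁, s₂, s₃`; see `GoodT.exists_ne` in `Lr/B06.lean`). -/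
theorem GoodT.exists_ne_gauge [Fintype ι] [DecidableEq ι] [Fact ℓ.Prime] {w : ι → ZMod ℓ}
    {c : Finset ι → ZMod ℓ} (hT : GoodT w c Finset.univ) (g : ι → ZMod ℓ)
    (hS : 3 ≤ Fintype.card ι) :
    (∃ i j l : ι, i ≠ j ∧ j ≠ l ∧ i ≠ l ∧ c {i, j, l} - ∑ m ∈ {i, j, l}, g m ≠ 0) ∨
      ∃ i j : ι, i ≠ j ∧ c {i, j} - ∑ m ∈ {i, j}, g m ≠ 0 := by
  by_contra hcon
  push Not at hcon
  obtain ⟨H3, H2⟩ := hcon
  obtain ⟨s₁, s₂, s₃, h12, h13, h23⟩ := Fintype.two_lt_card_iff.mp (show 2 < Fintype.card ι by omega)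
  set ε : ι → ι → ZMod ℓ := fun i j =>
    (if i = s₁ ∧ j = s₂ then 1 else 0) - (if i = s₂ ∧ j = s₁ then 1 else 0) with hε
  have hanti : ∀ i j, ε j i = -ε i j := by
    intro i j
    simp only [hε]
    rw [neg_sub]
    congr 1
    · exact if_congr and_comm rfl rfl
    · exact if_congr and_comm rfl rfl
  have hdiag : ∀ i, ε i i = 0 := by
    intro i
    simp only [hε]
    rw [if_neg (fun h => h12 (h.1.symm.trans h.2)), if_neg (fun h => h12 (h.2.symm.trans h.1)), sub_zero]
  have hdiff : ∀ i j l, i ≠ j → l ≠ i → l ≠ j → c {i, j, l} - c {i, j} = g l := by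
    intro i j l hij hli hlj
    have e3 := H3 i j l hij hlj.symm hli.symm
    have e2 := H2 i j hij
    rw [sub_eq_zero] at e3 e2
    rw [e3, e2, Finset.sum_pair hij, Finset.sum_insert (by simp [hij, hli.symm]), Finset.sum_pair hlj.symm]
    ring
  obtain ⟨b, hb⟩ := hT ε (fun i => -∑ l, w l * g l * ε i l) (∑ l, w l * g l) (fun i _ j _ _ => hanti i j) (by
    intro i _ j _ hij
    have h1 : ∀ l, w l * (c {i, j, l} - c {i, j}) * (ε i j + ε j l + ε l i) =
        w l * g l * ε i j + w l * g l * ε j l - w l * g l * ε i l := by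
      intro l
      rw [hanti i l]
      by_cases hli : l = i
      · subst hli
        have e : c {l, j, l} = c {l, j} := by
          congr 1
          ext x
          simp only [Finset.mem_insert, Finset.mem_singleton]
          tauto
        rw [e, hdiag, hanti l j]
        ring
      · by_cases hlj : l = j
        · subst hlj
          have e : c {i, l, l} = c {i, l} := by
            congr 1
            ext x
            simp only [Finset.mem_insert, Finset.mem_singleton]
            tauto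
          rw [e, hdiag]
          ring
        · rw [hdiff i j l hij hli hlj]
          ring
    rw [Finset.sum_congr rfl (fun l _ => h1 l), Finset.sum_sub_distrib, Finset.sum_add_distrib, ← Finset.sum_mul]
    ring)
  have e12 := hb s₁ (Finset.mem_univ _) s₂ (Finset.mem_univ _) h12
  have e13 := hb s₁ (Finset.mem_univ _) s₃ (Finset.mem_univ _) h13
  have e23 := hb s₂ (Finset.mem_univ _) s₃ (Finset.mem_univ _) h23
  have v12 : ε s₁ s₂ = 1 := by
    show (if s₁ = s₁ ∧ s₂ = s₂ then (1 : ZMod ℓ) else 0) - (if s₁ = s₂ ∧ s₂ = s₁ then 1 else 0) = 1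
    rw [if_pos ⟨rfl, rfl⟩, if_neg (fun h => h12 h.1), sub_zero]
  have v13 : ε s₁ s₃ = 0 := by
    show (if s₁ = s₁ ∧ s₃ = s₂ then (1 : ZMod ℓ) else 0) - (if s₁ = s₂ ∧ s₃ = s₁ then 1 else 0) = 0
    rw [if_neg (fun h => h23 h.2.symm), if_neg (fun h => h12 h.1), sub_zero]
  have v23 : ε s₂ s₃ = 0 := by
    show (if s₂ = s₁ ∧ s₃ = s₂ then (1 : ZMod ℓ) else 0) - (if s₂ = s₂ ∧ s₃ = s₁ then 1 else 0) = 0
    rw [if_neg (fun h => h12 h.1.symm), if_neg (fun h => h13 h.2.symm), sub_zero]
  rw [v12] at e12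
  rw [v13] at e13
  rw [v23] at e23
  have : (1 : ZMod ℓ) = 0 := by linear_combination e12 - e13 + e23
  exact one_ne_zero this

end Pool.Agent.Lib.MP_89bcae_ag.Lr

end

section

/-!
# The value of the product in the arithmetic condition

`ν` is a homomorphism from `Kˣ` to `ZMod ℓ` with `ν(-1) = 0`, `K = k(nodes)`. All factors of the
product lie in `K` and are not zero; `ν (w ^ ℓ) = ℓ ν(w) = 0`; `ν (x ^ z) = z ν(x)` for `z ∈ ℤ`. The
set of the nodes is finite (the `α_i - α_j` are not zero), so that the `finprod` is a `Finset.prod`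
(see LIndX14.lean, LIndD14.lean and `Sup/Lns` for the case of lines).
-/

open Polynomial

open scoped Classical

namespace Pool.Agent.Lib.MP_89bcae_ag

open Superelliptic

universe u

section

variable {F : Type u} [Field F] {K : Subfield F}

lemma IsVal.one {A : Type*} [AddCommGroup A] {ν : F → A} (h : IsVal K ν) : ν 1 = 0 := by
  have h1 := h.mul 1 K.one_mem 1 K.one_mem one_ne_zero one_ne_zero
  rw [one_mul] at h1
  exact left_eq_add.1 h1


lemma IsVal.div {A : Type*} [AddCommGroup A] {ν : F → A} (h : IsVal K ν) {x y : F} (hx : x ∈ K)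
    (hy : y ∈ K) (h0 : x ≠ 0) (h1 : y ≠ 0) : ν (x / y) = ν x - ν y := by
  have h2 := h.mul (x / y) (K.div_mem hx hy) y hy (div_ne_zero h0 h1) h1
  rw [div_mul_cancel₀ x h1] at h2
  rw [h2, add_sub_cancel_right]

lemma IsVal.zpow {A : Type*} [AddCommGroup A] {ν : F → A} (h : IsVal K ν) {x : F} (hx : x ∈ K)
    (h0 : x ≠ 0) (z : ℤ) : ν (x ^ z) = z • ν x := by
  induction z using Int.induction_on with
  | zero => rw [zpow_zero, zero_smul, h.one]
  | succ n ih =>
    rw [zpow_add_one₀ h0, h.mul _ (K.zpow_mem hx _) x hx (zpow_ne_zero _ h0) h0, ih, add_smul,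
      one_smul]
  | pred n ih =>
    have h2 := h.mul (x ^ (-(n : ℤ) - 1)) (K.zpow_mem hx _) x hx (zpow_ne_zero _ h0) h0
    rw [← zpow_add_one₀ h0, sub_add_cancel, ih] at h2
    rw [sub_smul, one_smul, h2, add_sub_cancel_right]

lemma IsVal.prod {A : Type*} [AddCommGroup A] {ν : F → A} (h : IsVal K ν) {κ : Type*}
    (s : Finset κ) (f : κ → F) (hf : ∀ i ∈ s, f i ∈ K) (h0 : ∀ i ∈ s, f i ≠ 0) :
    ν (∏ i ∈ s, f i) = ∑ i ∈ s, ν (f i) := by
  induction s using Finset.induction_on with
  | empty => rw [Finset.prod_empty, Finset.sum_empty, h.one]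
  | insert a s ha ih =>
    have hf' : ∀ i ∈ s, f i ∈ K := fun i hi => hf i (Finset.mem_insert_of_mem hi)
    have h0' : ∀ i ∈ s, f i ≠ 0 := fun i hi => h0 i (Finset.mem_insert_of_mem hi)
    rw [Finset.prod_insert ha, Finset.sum_insert ha,
      h.mul _ (hf a (Finset.mem_insert_self a s)) _ (prod_mem hf')
        (h0 a (Finset.mem_insert_self a s)) (Finset.prod_ne_zero_iff.2 h0'), ih hf' h0']

end

section

variable {k F : Type u} [Field k] [Field F] [Algebra k F] {ι : Type} [Fintype ι] [LinearOrder ι]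

/-- The set of the nodes is finite. -/
lemma finite_nodes (α : ι → k[X]) (hα : IsArrangement α) : (nodes k F α).Finite := by
  have h1 : nodes k F α ⊆ ⋃ x : ι × ι, (α x.1 - α x.2).rootSet F := by
    rintro s ⟨i, j, hij, hs⟩
    rw [Set.mem_iUnion]
    refine ⟨(i, j), ?_⟩
    rw [mem_rootSet]
    refine ⟨fun h0 => ?_, ?_⟩
    · apply hα.natDegree_ne_zero i j hij
      rw [h0, natDegree_zero]
    · rw [map_sub, hs, sub_self]
  exact (Set.finite_iUnion fun x => rootSet_finite _ _).subset h1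

/-- ordered pairs -/
lemma nodes_pair_h12 (α : ι → k[X]) (hα : IsArrangement α) {a b c d : ι} {s : F} (hab : a < b)
    (hcd : c < d) (h : aeval s (α a) = aeval s (α b)) (h' : aeval s (α c) = aeval s (α d)) :
    a = c ∧ b = d := by
  by_contra hne
  have hsep := hα.separable
  rw [Finset.prod_sigma'] at hsep
  have hm1 : (⟨a, b⟩ : (_ : ι) × ι) ∈
      (Finset.univ : Finset ι).sigma fun i => Finset.univ.filter fun j => i < j := by
    rw [Finset.mem_sigma]
    exact ⟨Finset.mem_univ _, Finset.mem_filter.2 ⟨Finset.mem_univ _, hab⟩⟩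
  have hm2 : (⟨c, d⟩ : (_ : ι) × ι) ∈
      ((Finset.univ : Finset ι).sigma fun i => Finset.univ.filter fun j => i < j).erase
        ⟨a, b⟩ := by
    rw [Finset.mem_erase, Finset.mem_sigma]
    refine ⟨fun he => ?_, Finset.mem_univ _, Finset.mem_filter.2 ⟨Finset.mem_univ _, hcd⟩⟩
    rw [Sigma.mk.injEq] at he
    exact hne ⟨he.1.symm, (eq_of_heq he.2).symm⟩
  rw [← Finset.mul_prod_erase _ _ hm1] at hsep
  have hco := hsep.isCoprime.of_isCoprime_of_dvd_right (Finset.dvd_prod_of_mem _ hm2)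
  obtain ⟨u, v, huv⟩ := hco
  have h1 := congrArg (aeval s) huv
  simp only [map_add, map_mul, map_sub, map_one] at h1
  rw [h, h', sub_self, sub_self, mul_zero, mul_zero, add_zero] at h1
  exact zero_ne_one h1

/-- A node lies on exactly two of the graphs. -/
lemma nodes_pair (α : ι → k[X]) (hα : IsArrangement α) {a b c d : ι} {s : F} (hab : a ≠ b)
    (hcd : c ≠ d) (h : aeval s (α a) = aeval s (α b)) (h' : aeval s (α c) = aeval s (α d)) :
    ({a, b} : Set ι) = {c, d} := by
  rcases lt_or_gt_of_ne hab with h1 | h1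
  · rcases lt_or_gt_of_ne hcd with h2 | h2
    · obtain ⟨rfl, rfl⟩ := nodes_pair_h12 α hα h1 h2 h h'
      rfl
    · obtain ⟨rfl, rfl⟩ := nodes_pair_h12 α hα h1 h2 h h'.symm
      exact Set.pair_comm _ _
  · rcases lt_or_gt_of_ne hcd with h2 | h2
    · obtain ⟨rfl, rfl⟩ := nodes_pair_h12 α hα h1 h2 h.symm h'
      exact Set.pair_comm _ _
    · obtain ⟨rfl, rfl⟩ := nodes_pair_h12 α hα h1 h2 h.symm h'.symm
      rfl

omit [Fintype ι] [LinearOrder ι] in
lemma aeval_mem_h92 (α : ι → k[X]) {s : F} (hs : s ∈ nodes k F α) (p : k[X]) :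
    aeval s p ∈ (IntermediateField.adjoin k (nodes k F α)).toSubfield := by
  have h1 : aeval s p ∈ Algebra.adjoin k ({s} : Set F) := aeval_mem_adjoin_singleton k s
  have h2 : Algebra.adjoin k ({s} : Set F) ≤
      (IntermediateField.adjoin k (nodes k F α)).toSubalgebra := by
    refine Algebra.adjoin_le ?_
    rintro x rfl
    exact IntermediateField.subset_adjoin k _ hs
  exact h2 h1

lemma derivative_ne_zero_h92 (α : ι → k[X]) (hα : IsArrangement α) {i j : ι} {s : F} (hij : i ≠ j)
    (hs : aeval s (α i) = aeval s (α j)) : aeval s (derivative (α i - α j)) ≠ 0 := by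
  have key : ∀ a b : ι, a < b → aeval s (α a) = aeval s (α b) →
      aeval s (derivative (α a - α b)) ≠ 0 := by
    intro a b hab h
    have hsep : (α a - α b).Separable := by
      refine hα.separable.of_dvd ?_
      refine dvd_trans ?_ (Finset.dvd_prod_of_mem _ (Finset.mem_univ a))
      exact Finset.dvd_prod_of_mem (fun j => α a - α j) (by simp [hab])
    exact hsep.aeval_derivative_ne_zero (by rw [map_sub, h, sub_self])
  rcases lt_or_gt_of_ne hij with h | h
  · exact key i j h hs
  · have h1 := key j i h hs.symm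
    intro h2
    apply h1
    have h3 : derivative (α j - α i) = -derivative (α i - α j) := by
      rw [← derivative_neg, neg_sub]
    rw [h3, map_neg, h2, neg_zero]

/-- The relation given by the homomorphism `ν` at the node `s`. -/
theorem val_eqn {ℓ : ℕ} [Fact ℓ.Prime] (α : ι → k[X]) (hα : IsArrangement α) (W : ι → ℕ)
    (ν : F → ZMod ℓ) (hν : IsVal (IntermediateField.adjoin k (nodes k F α)).toSubfield ν)
    (e : ι → F → ℤ) (κ : F) (c : ι → F) (hκ : κ ≠ 0)
    (hκK : κ ∈ IntermediateField.adjoin k (nodes k F α))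
    (hc : ∀ i, c i ≠ 0 ∧ c i ∈ IntermediateField.adjoin k (nodes k F α))
    {i j : ι} {s : F} (hij : i ≠ j) (hs : aeval s (α i) = aeval s (α j))
    (hw : ∃ w ∈ IntermediateField.adjoin k (nodes k F α),
        w ^ ℓ = κ ^ e i s * (c i / c j) ^ W j *
          aeval s (derivative (α i - α j)) ^ (-((W i : ℤ) + W j) * e i s) *
          (∏ l ∈ Finset.univ.filter fun l => l ≠ i ∧ l ≠ j,
            (aeval s (α i) - aeval s (α l)) ^ (-(W l : ℤ) * e i s)) *
          ∏ᶠ s' ∈ {s' ∈ nodes k F α | s' ≠ s}, (s - s') ^ ((W j : ℤ) * (e i s' - e j s'))) :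
    (e i s : ZMod ℓ) * ν κ + W j * (ν (c i) - ν (c j)) -
      ((W i : ZMod ℓ) + W j) * e i s * ν (aeval s (derivative (α i - α j))) -
      (∑ l ∈ Finset.univ.filter fun l => l ≠ i ∧ l ≠ j,
        (W l : ZMod ℓ) * e i s * ν (aeval s (α i) - aeval s (α l))) +
      ∑ s' ∈ (finite_nodes (F := F) α hα).toFinset.erase s,
        (W j : ZMod ℓ) * (e i s' - e j s') * ν (s - s') = 0 := by
  obtain ⟨w, hwK, hw⟩ := hw
  set K := (IntermediateField.adjoin k (nodes k F α)).toSubfield with hK
  have hsn : s ∈ nodes k F α := ⟨i, j, hij, hs⟩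
  have hsK : s ∈ K := by
    have := aeval_mem_h92 α hsn (X : k[X])
    rwa [aeval_X] at this
  have hnK : ∀ s' ∈ nodes k F α, s' ∈ K := by
    intro s' hs'
    have := aeval_mem_h92 α hs' (X : k[X])
    rwa [aeval_X] at this
  have hder : aeval s (derivative (α i - α j)) ≠ 0 := derivative_ne_zero_h92 α hα hij hs
  have hderK : aeval s (derivative (α i - α j)) ∈ K := aeval_mem_h92 α hsn _
  have hval : ∀ l, l ≠ i → l ≠ j → aeval s (α i) - aeval s (α l) ≠ 0 := by
    intro l hli hlj h
    have h1 := nodes_pair α hα hij (Ne.symm hli) hs (sub_eq_zero.mp h)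
    have h2 : l ∈ ({i, j} : Set ι) := by rw [h1]; simp
    rcases h2 with h2 | h2
    · exact hli h2
    · exact hlj h2
  have hvalK : ∀ l, aeval s (α i) - aeval s (α l) ∈ K := fun l =>
    sub_mem (aeval_mem_h92 α hsn _) (aeval_mem_h92 α hsn _)
  have hset : {s' ∈ nodes k F α | s' ≠ s} =
      (((finite_nodes (F := F) α hα).toFinset.erase s : Finset F) : Set F) := by
    ext x
    simp [and_comm]
  rw [hset, finprod_mem_coe_finset] at hw
  set N := (finite_nodes (F := F) α hα).toFinset.erase s with hN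
  have hNmem : ∀ s' ∈ N, s' ∈ nodes k F α ∧ s' ≠ s := by
    intro s' hs'
    rw [hN, Finset.mem_erase] at hs'
    exact ⟨(Set.Finite.mem_toFinset _).1 hs'.2, hs'.1⟩
  -- the five factors
  have f1 : κ ^ e i s ≠ 0 := zpow_ne_zero _ hκ
  have f1K : κ ^ e i s ∈ K := zpow_mem hκK _
  have f2b : c i / c j ≠ 0 := div_ne_zero (hc i).1 (hc j).1
  have f2bK : c i / c j ∈ K := div_mem (hc i).2 (hc j).2
  have f2 : (c i / c j) ^ W j ≠ 0 := pow_ne_zero _ f2b
  have f2K : (c i / c j) ^ W j ∈ K := pow_mem f2bK _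
  have f3 : aeval s (derivative (α i - α j)) ^ (-((W i : ℤ) + W j) * e i s) ≠ 0 :=
    zpow_ne_zero _ hder
  have f3K : aeval s (derivative (α i - α j)) ^ (-((W i : ℤ) + W j) * e i s) ∈ K :=
    zpow_mem hderK _
  have g4 : ∀ l ∈ Finset.univ.filter fun l => l ≠ i ∧ l ≠ j,
      (aeval s (α i) - aeval s (α l)) ^ (-(W l : ℤ) * e i s) ≠ 0 := by
    intro l hl
    rw [Finset.mem_filter] at hl
    exact zpow_ne_zero _ (hval l hl.2.1 hl.2.2)
  have g4K : ∀ l ∈ Finset.univ.filter fun l => l ≠ i ∧ l ≠ j,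
      (aeval s (α i) - aeval s (α l)) ^ (-(W l : ℤ) * e i s) ∈ K :=
    fun l _ => zpow_mem (hvalK l) _
  have f4 := Finset.prod_ne_zero_iff.2 g4
  have f4K := prod_mem g4K
  have g5 : ∀ s' ∈ N, (s - s') ^ ((W j : ℤ) * (e i s' - e j s')) ≠ 0 := by
    intro s' hs'
    exact zpow_ne_zero _ (sub_ne_zero.2 (Ne.symm (hNmem s' hs').2))
  have g5K : ∀ s' ∈ N, (s - s') ^ ((W j : ℤ) * (e i s' - e j s')) ∈ K := by
    intro s' hs'
    exact zpow_mem (sub_mem hsK (hnK s' (hNmem s' hs').1)) _
  have f5 := Finset.prod_ne_zero_iff.2 g5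
  have f5K := prod_mem g5K
  have m2 := mul_ne_zero f1 f2
  have m2K := mul_mem f1K f2K
  have m3 := mul_ne_zero m2 f3
  have m3K := mul_mem m2K f3K
  have m4 := mul_ne_zero m3 f4
  have m4K := mul_mem m3K f4K
  have m5 := mul_ne_zero m4 f5
  have hw0 : w ≠ 0 := by
    rintro rfl
    apply m5
    rw [← hw, zero_pow (Fact.out : ℓ.Prime).ne_zero]
  have hpow : ν (w ^ ℓ) = 0 := by
    have h1 := hν.zpow hwK hw0 (ℓ : ℤ)
    rw [zpow_natCast] at h1
    rw [h1]
    simp
  rw [hw, hν.mul _ m4K _ f5K m4 f5, hν.mul _ m3K _ f4K m3 f4, hν.mul _ m2K _ f3K m2 f3,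
    hν.mul _ f1K _ f2K f1 f2, hν.prod _ _ g4K g4, hν.prod _ _ g5K g5, hν.zpow hκK hκ,
    hν.zpow hderK hder] at hpow
  have h2 : ν ((c i / c j) ^ W j) = (W j : ZMod ℓ) * (ν (c i) - ν (c j)) := by
    rw [← zpow_natCast, hν.zpow f2bK f2b, hν.div (hc i).2 (hc j).2 (hc i).1 (hc j).1,
      zsmul_eq_mul]
    simp
  have h4 : ∑ l ∈ Finset.univ.filter (fun l => l ≠ i ∧ l ≠ j),
      ν ((aeval s (α i) - aeval s (α l)) ^ (-(W l : ℤ) * e i s)) =
      -∑ l ∈ Finset.univ.filter (fun l => l ≠ i ∧ l ≠ j),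
        (W l : ZMod ℓ) * e i s * ν (aeval s (α i) - aeval s (α l)) := by
    rw [← Finset.sum_neg_distrib]
    refine Finset.sum_congr rfl fun l hl => ?_
    rw [Finset.mem_filter] at hl
    rw [hν.zpow (hvalK l) (hval l hl.2.1 hl.2.2), zsmul_eq_mul]
    push_cast
    ring
  have h5 : ∑ s' ∈ N, ν ((s - s') ^ ((W j : ℤ) * (e i s' - e j s'))) =
      ∑ s' ∈ N, (W j : ZMod ℓ) * (e i s' - e j s') * ν (s - s') := by
    refine Finset.sum_congr rfl fun s' hs' => ?_
    rw [hν.zpow (sub_mem hsK (hnK s' (hNmem s' hs').1))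
      (sub_ne_zero.2 (Ne.symm (hNmem s' hs').2)), zsmul_eq_mul]
    push_cast
    ring
  rw [h2, h4, h5, zsmul_eq_mul, zsmul_eq_mul] at hpow
  push_cast at hpow
  linear_combination hpow

end

end Pool.Agent.Lib.MP_89bcae_ag

end

section

/-!
# Extension of the homomorphisms to the field generated by the `ℓ`-th roots of unity

Let `K₀ = ℚ(S)` and `E = ℚ(ζ_ℓ)(S)` in `F`, where `S` is a finite set of algebraic elements. Then
`E = K₀(ζ_ℓ)` is a finite extension of `K₀` of degree `d ≤ ℓ - 1` (the degree of the minimal polynomial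
of `ζ_ℓ` over `K₀`, which divides the cyclotomic polynomial of degree `ℓ - 1`), hence `d` is prime to
`ℓ`. Put `ν(x) = d⁻¹ ν₀(N(x))` for `x ∈ Eˣ`, where `N` is the norm of `E` over `K₀`
(`Algebra.norm_algebraMap`: `N(x) = x ^ d` for `x ∈ K₀`; `ν₀((±1)) = 0`).
-/

open Polynomial

open scoped Classical

namespace Pool.Agent.Lib.MP_89bcae_ag

universe u

theorem isVal_one_h65 {F : Type u} [Field F] {A : Type*} [AddCommGroup A] {K₀ : Subfield F}
    {ν₀ : F → A} (h₀ : IsVal K₀ ν₀) : ν₀ 1 = 0 := by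
  have h := h₀.mul 1 K₀.one_mem 1 K₀.one_mem one_ne_zero one_ne_zero
  rw [mul_one] at h
  exact left_eq_add.1 h

theorem isVal_pow_h65 {F : Type u} [Field F] {A : Type*} [AddCommGroup A] {K₀ : Subfield F}
    {ν₀ : F → A} (h₀ : IsVal K₀ ν₀) {x : F} (hx : x ∈ K₀) (hx0 : x ≠ 0) (d : ℕ) :
    ν₀ (x ^ d) = d • ν₀ x := by
  induction d with
  | zero => rw [pow_zero, zero_smul, isVal_one_h65 h₀]
  | succ d ih =>
    rw [pow_succ, h₀.mul _ (K₀.pow_mem hx d) _ hx (pow_ne_zero d hx0) hx0, ih, succ_nsmul]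

/-- The general statement: an extension of degree prime to `ℓ`. -/
theorem extend_val_of_finrank {F : Type u} [Field F] {ℓ : ℕ} [Fact ℓ.Prime] (K₀ : Subfield F)
    (E : IntermediateField K₀ F) [FiniteDimensional K₀ E]
    (hd : (Module.finrank K₀ E).Coprime ℓ) (ν₀ : F → ZMod ℓ) (h₀ : IsVal K₀ ν₀) :
    ∃ ν : F → ZMod ℓ, IsVal E.toSubfield ν ∧ ∀ x ∈ K₀, ν x = ν₀ x := by
  have hd0 : ((Module.finrank K₀ E : ℕ) : ZMod ℓ) ≠ 0 := by
    intro h
    rw [ZMod.natCast_eq_zero_iff] at h
    have h1 := Nat.dvd_gcd h (dvd_refl ℓ)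
    rw [hd] at h1
    exact (Fact.out : ℓ.Prime).one_lt.ne' (Nat.dvd_one.1 h1)
  have hN : ∀ x : E, x ≠ 0 → ((Algebra.norm K₀ x : K₀) : F) ≠ 0 := by
    intro x hx h
    have h2 : (Algebra.norm K₀ x : K₀) = 0 := Subtype.ext h
    exact hx (Algebra.norm_eq_zero_iff.1 h2)
  refine ⟨fun x => if x = 0 then ν₀ 0 else if h : x ∈ E then
    ((Module.finrank K₀ E : ℕ) : ZMod ℓ)⁻¹ * ν₀ ((Algebra.norm K₀ (⟨x, h⟩ : E) : K₀) : F) else 0,
    ⟨?_, ?_⟩, ?_⟩
  · intro x hx y hy hx0 hy0
    have hx' : x ∈ E := hx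
    have hy' : y ∈ E := hy
    have hxy' : x * y ∈ E := E.mul_mem hx' hy'
    have hxE : (⟨x, hx'⟩ : E) ≠ 0 := fun h => hx0 (congrArg Subtype.val h)
    have hyE : (⟨y, hy'⟩ : E) ≠ 0 := fun h => hy0 (congrArg Subtype.val h)
    have h3 : (⟨x * y, hxy'⟩ : E) = ⟨x, hx'⟩ * ⟨y, hy'⟩ := rfl
    have h4 : ((Algebra.norm K₀ (⟨x * y, hxy'⟩ : E) : K₀) : F) =
        ((Algebra.norm K₀ (⟨x, hx'⟩ : E) : K₀) : F) * ((Algebra.norm K₀ (⟨y, hy'⟩ : E) : K₀) : F) := by
      rw [h3, map_mul]
      rfl
    show (if x * y = 0 then ν₀ 0 else _) = (if x = 0 then ν₀ 0 else _) + (if y = 0 then ν₀ 0 else _)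
    rw [if_neg (mul_ne_zero hx0 hy0), if_neg hx0, if_neg hy0, dif_pos hxy', dif_pos hx',
      dif_pos hy', h4, h₀.mul _ (SetLike.coe_mem _) _ (SetLike.coe_mem _) (hN _ hxE) (hN _ hyE),
      mul_add]
  · have h1 : (-1 : F) ≠ 0 := neg_ne_zero.2 one_ne_zero
    have h2 : (-1 : F) ∈ E := E.neg_mem E.one_mem
    have h3 : (⟨-1, h2⟩ : E) = algebraMap K₀ E (-1) := by
      rw [map_neg, map_one]
      rfl
    show (if (-1 : F) = 0 then ν₀ 0 else _) = 0
    rw [if_neg h1, dif_pos h2, h3, Algebra.norm_algebraMap]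
    have h4 : ν₀ ((((-1 : K₀) ^ Module.finrank K₀ E : K₀)) : F) = 0 := by
      rcases neg_one_pow_eq_or K₀ (Module.finrank K₀ E) with h | h
      · rw [h]
        exact isVal_one_h65 h₀
      · rw [h]
        exact h₀.neg_one
    rw [h4, mul_zero]
  · intro x hx
    by_cases hx0 : x = 0
    · subst hx0
      show (if (0 : F) = 0 then ν₀ 0 else _) = ν₀ 0
      rw [if_pos rfl]
    · have hx' : x ∈ E := E.algebraMap_mem (⟨x, hx⟩ : K₀)
      have h3 : (⟨x, hx'⟩ : E) = algebraMap K₀ E ⟨x, hx⟩ := rfl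
      show (if x = 0 then ν₀ 0 else _) = ν₀ x
      rw [if_neg hx0, dif_pos hx', h3, Algebra.norm_algebraMap]
      have h5 : ((((⟨x, hx⟩ : K₀) ^ Module.finrank K₀ E : K₀)) : F) =
          x ^ Module.finrank K₀ E := rfl
      rw [h5, isVal_pow_h65 h₀ hx hx0, nsmul_eq_mul, ← mul_assoc, inv_mul_cancel₀ hd0, one_mul]

theorem exists_extend_val {ℓ : ℕ} (hℓ : ℓ.Prime) (K F : Type u) [Field K] [Algebra ℚ K]
    [IsCyclotomicExtension {ℓ} ℚ K] [Field F] [Algebra K F] [Algebra ℚ F] [IsScalarTower ℚ K F]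
    (S : Set F) (hS : S.Finite) (hint : ∀ s ∈ S, IsIntegral ℚ s)
    (ν₀ : F → ZMod ℓ) (h₀ : IsVal (IntermediateField.adjoin ℚ S).toSubfield ν₀) :
    ∃ ν : F → ZMod ℓ, IsVal (IntermediateField.adjoin K S).toSubfield ν ∧
      ∀ x ∈ IntermediateField.adjoin ℚ S, ν x = ν₀ x := by
  have hF : Fact ℓ.Prime := ⟨hℓ⟩
  have hne : NeZero ℓ := ⟨hℓ.ne_zero⟩
  obtain ⟨z, hz⟩ := IsCyclotomicExtension.exists_isPrimitiveRoot (S := {ℓ}) ℚ K
    (Set.mem_singleton ℓ) hℓ.ne_zero
  let K₀ : Subfield F := (IntermediateField.adjoin ℚ S).toSubfield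
  let ζ : F := algebraMap K F z
  have hζ : IsPrimitiveRoot ζ ℓ := hz.map_of_injective (algebraMap K F).injective
  have hroot : aeval ζ (cyclotomic ℓ K₀) = 0 := by
    have h1 := hζ.isRoot_cyclotomic hℓ.pos
    rw [IsRoot.def, ← map_cyclotomic ℓ (algebraMap K₀ F), eval_map_algebraMap] at h1
    exact h1
  have hintζ : IsIntegral K₀ ζ := ⟨cyclotomic ℓ K₀, cyclotomic.monic ℓ K₀, hroot⟩
  let E : IntermediateField K₀ F := IntermediateField.adjoin K₀ {ζ}
  have hfd : FiniteDimensional K₀ E := IntermediateField.adjoin.finiteDimensional hintζ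
  have hfin : (Module.finrank K₀ E).Coprime ℓ := by
    have h1 : Module.finrank K₀ E = (minpoly K₀ ζ).natDegree :=
      IntermediateField.adjoin.finrank hintζ
    have h2 : (minpoly K₀ ζ).natDegree ≤ ℓ - 1 := by
      have h3 := natDegree_le_of_dvd (minpoly.dvd K₀ ζ hroot) (cyclotomic_ne_zero ℓ K₀)
      rwa [natDegree_cyclotomic, Nat.totient_prime hℓ] at h3
    have h4 : 0 < (minpoly K₀ ζ).natDegree := minpoly.natDegree_pos hintζ
    have h5 := hℓ.two_le
    rw [h1, Nat.coprime_comm]
    exact (Nat.Prime.coprime_iff_not_dvd hℓ).2 fun hd => by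
      have := Nat.le_of_dvd h4 hd
      omega
  obtain ⟨ν, hν, hν'⟩ := extend_val_of_finrank K₀ E hfin ν₀ h₀
  have hK₀E : ∀ x ∈ K₀, x ∈ E := fun x hx => E.algebraMap_mem ⟨x, hx⟩
  have hζE : ζ ∈ E := IntermediateField.mem_adjoin_simple_self K₀ ζ
  have hSK₀ : ∀ x ∈ S, x ∈ K₀ := fun x hx => IntermediateField.subset_adjoin ℚ S hx
  have hQ : ∀ (q : ℚ), algebraMap ℚ F q ∈ E := fun q =>
    hK₀E _ ((IntermediateField.adjoin ℚ S).algebraMap_mem q)
  have hKE : ∀ x : K, algebraMap K F x ∈ E := by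
    intro x
    have hx : x ∈ Algebra.adjoin ℚ ({z} : Set K) := by
      rw [IsCyclotomicExtension.adjoin_primitive_root_eq_top hz]
      exact Algebra.mem_top
    induction hx using Algebra.adjoin_induction with
    | mem y hy =>
      rw [Set.mem_singleton_iff] at hy
      rw [hy]
      exact hζE
    | algebraMap q =>
      rw [← IsScalarTower.algebraMap_apply ℚ K F]
      exact hQ q
    | add a b _ _ ha hb => rw [map_add]; exact E.add_mem ha hb
    | mul a b _ _ ha hb => rw [map_mul]; exact E.mul_mem ha hb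
  have hle1 : ∀ x ∈ IntermediateField.adjoin K S, x ∈ E := by
    intro x hx
    induction hx using IntermediateField.adjoin_induction with
    | mem y hy => exact hK₀E y (hSK₀ y hy)
    | algebraMap y => exact hKE y
    | add a b _ _ ha hb => exact E.add_mem ha hb
    | inv a _ ha => exact E.inv_mem ha
    | mul a b _ _ ha hb => exact E.mul_mem ha hb
  have hval : IsVal (IntermediateField.adjoin K S).toSubfield ν :=
    ⟨fun x hx y hy hx0 hy0 => hν.mul x (hle1 x hx) y (hle1 y hy) hx0 hy0, hν.neg_one⟩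
  exact ⟨ν, hval, hν'⟩

end Pool.Agent.Lib.MP_89bcae_ag

end

section

/-!
# Families of polynomials with integral coefficients: all the conditions at the primes

`CopyV`: the values of a homomorphism at the nodes, for the configuration of `n` disjoint copies of an
arrangement of lines.
-/

open Polynomial

open scoped Classical

namespace Pool.Agent.Lib.MP_89bcae_ag

open Superelliptic

universe u

section

variable {ι : Type} {n : ℕ}

/-- Exactly one root of one of the differences, `α_a - α_b`, goes to infinity modulo `p`. -/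
structure TypeK (p : ℕ) (a b : ι) (v : ι × Fin (n + 1) → ℤ) : Prop where
  lead : ∀ c d, c ≠ d → ({c, d} : Set ι) ≠ {a, b} →
    ¬ (p : ℤ) ∣ v (c, Fin.last n) - v (d, Fin.last n)
  dvd : (p : ℤ) ∣ v (a, Fin.last n) - v (b, Fin.last n)
  ndvd : ¬ (p : ℤ) ^ 2 ∣ v (a, Fin.last n) - v (b, Fin.last n)
  deg : (gred p v a b).natDegree + 1 = n
  sep : ∀ c d, c ≠ d → (gred p v c d).Separable
  cop : ∀ a' b' c d, a' ≠ b' → c ≠ d → ({a', b'} : Set ι) ≠ {c, d} →
    IsCoprime (gred p v a' b') (gred p v c d)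

/-- The arithmetic condition on the family. -/
structure GoodH (v : ι × Fin (n + 1) → ℤ) : Prop where
  good : GoodG v
  typeD : ∀ a b, a ≠ b → ∃ p : ℕ, p.Prime ∧ p ≠ 2 ∧ TypeD p a b v
  typeK : ∀ a b, a ≠ b → ∃ p : ℕ, p.Prime ∧ TypeK p a b v

end

section Val

variable {k F : Type u} [Field k] [Field F] [Algebra k F] {ι : Type} {n : ℕ}

/-- A numbering of the nodes: `nd i j` lists the common values of `α_i` and `α_j`. -/
structure Nodes (α : ι → k[X]) (nd : ι → ι → Fin n → F) : Prop where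
  symm : ∀ i j a, nd i j a = nd j i a
  inj : ∀ i j, i ≠ j → Function.Injective (nd i j)
  mem : ∀ i j, i ≠ j → ∀ s : F, aeval s (α i) = aeval s (α j) ↔ ∃ a, nd i j a = s
  lead : ∀ i j, i ≠ j → (α i - α j).natDegree = n

/-- The values of the homomorphism `ν` at the differences of the nodes and at the leading coefficients
of the `α_i - α_j`. -/
structure DifV {A : Type*} [AddCommGroup A] (ν : F → A) (α : ι → k[X]) (h : F → F → A)
    (b : ι → ι → A) : Prop where
  dif : ∀ s ∈ nodes k F α, ∀ s' ∈ nodes k F α, s ≠ s' → ν (s - s') = h s s'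
  lead : ∀ i j, i ≠ j → ν (algebraMap k F (α i - α j).leadingCoeff) = b i j

/-- The homomorphism `ν` takes the value `B {i, j}` at the leading coefficient of `α_i - α_j`, and at the
differences of the nodes the values of `n` disjoint copies of an arrangement of lines with symbols `B`. -/
structure CopyV {A : Type*} [AddCommGroup A] (ν : F → A) (α : ι → k[X]) (nd : ι → ι → Fin n → F)
    (B : Finset ι → A) : Prop where
  lead : ∀ i j, i ≠ j → ν (algebraMap k F (α i - α j).leadingCoeff) = B {i, j}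
  par : ∀ i j, i ≠ j → ∀ a b, a ≠ b → ν (nd i j a - nd i j b) = 0
  adj : ∀ i j l, i ≠ j → j ≠ l → i ≠ l → ∀ a b, ν (nd i j a - nd i l b) =
    if a = b then B {i, j, l} - B {i, j} - B {i, l} else 0

end Val

end Pool.Agent.Lib.MP_89bcae_ag

end

section

/-!
# The number of the families of type D modulo `p ^ 2`
-/

open Polynomial

open scoped Classical

namespace Pool.Agent.Lib.MP_89bcae_ag

section

variable {ι : Type} {n : ℕ} {K : Type}

/-- Exactly one double root, at `z`, of `α_a - α_b`: the conditions over a field. -/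
structure GenD [CommRing K] (a b : ι) (u : ι × Fin (n + 1) → K) (z : K) : Prop where
  lead : ∀ a b, a ≠ b → u (a, Fin.last n) ≠ u (b, Fin.last n)
  sep : ∀ c d, c ≠ d → ({c, d} : Set ι) ≠ {a, b} → (gdif u c d).Separable
  cop : ∀ a' b' c d, a' ≠ b' → c ≠ d → ({a', b'} : Set ι) ≠ {c, d} →
    IsCoprime (gdif u a' b') (gdif u c d)
  dbl : ∃ g : K[X], gdif u a b = (X - C z) ^ 2 * g ∧ g.eval z ≠ 0 ∧ g.Separable

theorem cd1_coeff_h40 [Field K] (f : K[X]) (n : ℕ) (hf : f.natDegree ≤ n) (z : K) :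
    (f.comp (X + C z)).coeff n = f.coeff n := by
  rw [← Polynomial.taylor_apply]
  rcases hf.lt_or_eq with h | h
  · rw [Polynomial.coeff_eq_zero_of_natDegree_lt h, Polynomial.coeff_eq_zero_of_natDegree_lt]
    rw [Polynomial.natDegree_taylor]
    exact h
  · rw [← h, Polynomial.coeff_taylor_natDegree]
    rfl

theorem cd1_lead_h40 [Field K] (u : ι × Fin (n + 1) → K) (z : K) (a : ι) :
    shift z u (a, Fin.last n) = u (a, Fin.last n) := by
  have h1 : shift z u (a, Fin.last n) = ((gpol u a).comp (X + C z)).coeff n := rfl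
  rw [h1, cd1_coeff_h40 _ n (gpol_natDegree_le u a)]
  have h2 := gpol_coeff u a (Fin.last n)
  rw [Fin.val_last] at h2
  exact h2

/-- (`gdif_shift`; the leading coefficients do not change; `(X - C z).comp (X + C z) = X`.) -/
theorem GenD.shift_iff [Field K] (a b : ι) (u : ι × Fin (n + 1) → K) (z : K) :
    GenD a b u z ↔ GenD a b (shift z u) 0 := by
  constructor
  · intro h
    refine ⟨?_, ?_, ?_, ?_⟩
    · intro c d hcd
      rw [cd1_lead_h40, cd1_lead_h40]
      exact h.lead c d hcd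
    · intro c d hcd hne
      rw [gdif_shift, separable_comp_iff]
      exact h.sep c d hcd hne
    · intro a' b' c d h1 h2 h3
      rw [gdif_shift, gdif_shift, isCoprime_comp_iff]
      exact h.cop a' b' c d h1 h2 h3
    · obtain ⟨g, hg, hg0, hgs⟩ := h.dbl
      refine ⟨g.comp (X + C z), ?_, ?_, ?_⟩
      · rw [gdif_shift, hg, mul_comp, pow_comp, sub_comp, X_comp, C_comp, map_zero, sub_zero,
          add_sub_cancel_right]
      · rw [eval_comp, eval_add, eval_X, eval_C, zero_add]
        exact hg0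
      · rw [separable_comp_iff]
        exact hgs
  · intro h
    refine ⟨?_, ?_, ?_, ?_⟩
    · intro c d hcd
      have h1 := h.lead c d hcd
      rw [cd1_lead_h40, cd1_lead_h40] at h1
      exact h1
    · intro c d hcd hne
      have h1 := h.sep c d hcd hne
      rw [gdif_shift, separable_comp_iff] at h1
      exact h1
    · intro a' b' c d h1 h2 h3
      have h4 := h.cop a' b' c d h1 h2 h3
      rw [gdif_shift, gdif_shift, isCoprime_comp_iff] at h4
      exact h4
    · obtain ⟨g, hg, hg0, hgs⟩ := h.dbl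
      rw [gdif_shift, map_zero, sub_zero] at hg
      have h1 : (X + C z : K[X]).comp (X + C (-z)) = X := by
        rw [add_comp, X_comp, C_comp, map_neg, neg_add_cancel_right]
      refine ⟨g.comp (X + C (-z)), ?_, ?_, ?_⟩
      · have h2 := congrArg (fun f : K[X] => f.comp (X + C (-z))) hg
        simp only [mul_comp, pow_comp, X_comp] at h2
        rw [comp_assoc, h1, comp_X] at h2
        rw [h2, map_neg, sub_eq_add_neg]
      · rw [eval_comp, eval_add, eval_X, eval_C, add_neg_cancel]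
        exact hg0
      · rw [separable_comp_iff]
        exact hgs

/-- (If `z' ≠ z`, then `(X - z') ^ 2` divides `g`, which is separable.) -/
theorem GenD.unique [Field K] {a b : ι} {u : ι × Fin (n + 1) → K} {z z' : K} (h : GenD a b u z)
    (h' : GenD a b u z') : z = z' := by
  by_contra hne
  obtain ⟨g, hg, hg0, hgs⟩ := h.dbl
  obtain ⟨g', hg', -, -⟩ := h'.dbl
  have h1 : IsCoprime ((X - C z') ^ 2 : K[X]) ((X - C z) ^ 2) :=
    (isCoprime_X_sub_C_of_isUnit_sub (sub_ne_zero.2 (Ne.symm hne)).isUnit).pow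
  have h2 : ((X - C z') ^ 2 : K[X]) ∣ (X - C z) ^ 2 * g := by
    rw [← hg, hg']
    exact dvd_mul_right _ _
  have h3 := h1.dvd_of_dvd_mul_left h2
  have h4 : (X - C z' : K[X]) * (X - C z') ∣ g := by
    rw [← sq]
    exact h3
  exact not_isUnit_X_sub_C z' (hgs.squarefree _ h4)

end

section

variable {ι : Type} {n : ℕ}

/-- The coefficients of degree `0` and `1` of `α_b` are replaced by those of `α_a`. -/
noncomputable def colD (a b : ι) : ι × Fin (n + 1) → ι × Fin (n + 1) :=
  fun c => if c = (b, 0) then (a, 0) else if c = (b, 1) then (a, 1) else c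

lemma isGeneric_imp_h13 {κ : Type} {P : Prop} {C : ∀ (K : Type) [Field K], (κ → K) → Prop}
    (h : P → IsGeneric C) :
    IsGeneric (fun (K : Type) [Field K] (u : κ → K) => P → C K u) := by
  by_cases hP : P
  · exact (h hP).mono fun K _ u hu _ => hu
  · exact IsGeneric.true.mono fun K _ u _ hP' => absurd hP' hP

lemma colD_of_two_le_h13 (a b c : ι) (j : Fin (n + 1)) (hj : 2 ≤ (j : ℕ)) :
    colD a b (c, j) = (c, j) := by
  unfold colD
  rw [if_neg, if_neg]
  · intro h
    have h1 : j = 1 := congrArg Prod.snd h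
    have h2 : (j : ℕ) = 1 % (n + 1) := by rw [h1, Fin.val_one']
    have h3 := Nat.mod_le 1 (n + 1)
    omega
  · intro h
    have h1 : j = 0 := congrArg Prod.snd h
    have h2 : (j : ℕ) = 0 := by rw [h1, Fin.val_zero]
    omega

lemma colD_last_h13 (hn : 2 ≤ n) (a b c : ι) : colD a b (c, Fin.last n) = (c, Fin.last n) :=
  colD_of_two_le_h13 a b c _ (by rw [Fin.val_last]; exact hn)

lemma colD_left_h13 {a b : ι} (hab : a ≠ b) (j : Fin (n + 1)) : colD a b (a, j) = (a, j) := by
  unfold colD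
  rw [if_neg, if_neg]
  · intro h
    exact hab (congrArg Prod.fst h)
  · intro h
    exact hab (congrArg Prod.fst h)

lemma colD_zero_h13 (a b : ι) : colD a b (b, (0 : Fin (n + 1))) = (a, 0) := by
  unfold colD
  rw [if_pos rfl]

lemma colD_one_h13 (hn : 2 ≤ n) (a b : ι) : colD a b (b, (1 : Fin (n + 1))) = (a, 1) := by
  unfold colD
  rw [if_neg, if_pos rfl]
  intro h
  have h1 : (1 : Fin (n + 1)) = 0 := congrArg Prod.snd h
  have h2 : ((1 : Fin (n + 1)) : ℕ) = 0 := by rw [h1, Fin.val_zero]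
  rw [Fin.val_one', Nat.mod_eq_of_lt (by omega)] at h2
  omega

/-- The difference of two of the generic polynomials, after the collapse `s`. -/
noncomputable def genF_h13 (s : ι × Fin (n + 1) → ι × Fin (n + 1)) (c d : ι) :
    (MvPolynomial (ι × Fin (n + 1)) ℤ)[X] :=
  gdif (fun x => MvPolynomial.X (s x)) c d

lemma spec_genF_h13 {K : Type} [Field K] (s : ι × Fin (n + 1) → ι × Fin (n + 1))
    (u : ι × Fin (n + 1) → K) (c d : ι) : spec u (genF_h13 s c d) = gdif (u ∘ s) c d := by
  unfold spec genF_h13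
  rw [gdif_map]
  congr 1
  funext x
  simp

lemma genF_natDegree_h13 (s : ι × Fin (n + 1) → ι × Fin (n + 1)) (c d : ι) :
    (genF_h13 s c d).natDegree ≤ n := gdif_natDegree_le _ _ _

lemma gdif_coeff_last_h13 {R : Type*} [CommRing R] (v : ι × Fin (n + 1) → R) (a b : ι) :
    (gdif v a b).coeff n = v (a, Fin.last n) - v (b, Fin.last n) := by
  have h := gdif_coeff v a b (Fin.last n)
  rwa [Fin.val_last] at h

lemma gpol_eq_of_coeff_h13 {R : Type*} [CommRing R] (v : ι × Fin (n + 1) → R) (i : ι) (p : R[X])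
    (hp : p.natDegree ≤ n) (h : ∀ j : Fin (n + 1), p.coeff j = v (i, j)) : gpol v i = p := by
  ext k
  by_cases hk : k < n + 1
  · have h1 := gpol_coeff v i ⟨k, hk⟩
    have h2 := h ⟨k, hk⟩
    simp only at h1 h2
    rw [h1, h2]
  · rw [coeff_eq_zero_of_natDegree_lt (lt_of_le_of_lt (gpol_natDegree_le v i) (by omega)),
      coeff_eq_zero_of_natDegree_lt (lt_of_le_of_lt hp (by omega))]

/-- The family `lam_y X ^ n`, with `1` added at the index `x`. -/
noncomputable def ptx_h13 (lam : ι → ℚ) (x : ι) : ι × Fin (n + 1) → ℚ :=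
  fun y => if y.2 = Fin.last n then lam y.1 else if y.1 = x ∧ y.2 = 0 then 1 else 0

lemma ptx_comp_h13 (hn : 2 ≤ n) (lam : ι → ℚ) {a b x : ι} (hxa : x ≠ a) (hxb : x ≠ b) :
    (ptx_h13 lam x : ι × Fin (n + 1) → ℚ) ∘ colD a b = ptx_h13 lam x := by
  have h0 : (0 : Fin (n + 1)) ≠ Fin.last n := by
    intro h
    have h2 := congrArg Fin.val h
    rw [Fin.val_last, Fin.val_zero] at h2
    omega
  have h1 : (1 : Fin (n + 1)) ≠ Fin.last n := by
    intro h
    have h2 := congrArg Fin.val h
    rw [Fin.val_last, Fin.val_one', Nat.mod_eq_of_lt (by omega)] at h2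
    omega
  have key : ∀ (y : ι) (j : Fin (n + 1)), x ≠ y → j ≠ Fin.last n →
      (ptx_h13 lam x : ι × Fin (n + 1) → ℚ) (y, j) = 0 := by
    intro y j hy hj
    unfold ptx_h13
    rw [if_neg hj, if_neg]
    rintro ⟨h, _⟩
    exact hy h.symm
  funext ⟨y, j⟩
  rw [Function.comp_apply]
  unfold colD
  split_ifs with h2 h3
  · rw [h2, key a 0 hxa h0, key b 0 hxb h0]
  · rw [h3, key a 1 hxa h1, key b 1 hxb h1]
  · rfl

lemma gpol_ptx_h13 (hn : 2 ≤ n) (lam : ι → ℚ) (x y : ι) :
    gpol (ptx_h13 lam x : ι × Fin (n + 1) → ℚ) y =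
      C (lam y) * X ^ n + C (if y = x then 1 else 0) := by
  apply gpol_eq_of_coeff_h13
  · refine (natDegree_add_le _ _).trans (max_le (natDegree_C_mul_X_pow_le _ _) ?_)
    rw [natDegree_C]
    omega
  · intro j
    rw [coeff_add, coeff_C_mul_X_pow, coeff_C]
    unfold ptx_h13
    simp only
    by_cases hj : j = Fin.last n
    · have h1 : (j : ℕ) = n := by rw [hj, Fin.val_last]
      rw [if_pos h1, if_pos hj, if_neg (by omega), add_zero]
    · have h1 : (j : ℕ) ≠ n := by
        intro h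
        exact hj (Fin.ext (by rw [h, Fin.val_last]))
      rw [if_neg h1, if_neg hj, zero_add]
      by_cases h0 : (j : ℕ) = 0
      · have h2 : j = 0 := Fin.ext (by rw [h0, Fin.val_zero])
        rw [if_pos h0]
        by_cases hy : y = x
        · rw [if_pos hy, if_pos ⟨hy, h2⟩]
        · rw [if_neg hy, if_neg fun h => hy h.1]
      · rw [if_neg h0, if_neg]
        rintro ⟨_, h2⟩
        exact h0 (by rw [h2, Fin.val_zero])

lemma gdif_ptx_h13 (hn : 2 ≤ n) (lam : ι → ℚ) (x c d : ι) :
    gdif (ptx_h13 lam x : ι × Fin (n + 1) → ℚ) c d =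
      C (lam c - lam d) * X ^ n + C ((if c = x then 1 else 0) - (if d = x then 1 else 0)) := by
  unfold gdif
  rw [gpol_ptx_h13 hn, gpol_ptx_h13 hn, C_sub, C_sub]
  ring

lemma isCoprime_bin_h13 {A B A' B' : ℚ} (m : ℕ) (h : A * B' - A' * B ≠ 0) :
    IsCoprime (C A * X ^ m + C B) (C A' * X ^ m + C B') := by
  refine ⟨C (-A' / (A * B' - A' * B)), C (A / (A * B' - A' * B)), ?_⟩
  have h1 : C (-A' / (A * B' - A' * B)) * (C A * X ^ m + C B) +
      C (A / (A * B' - A' * B)) * (C A' * X ^ m + C B') =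
      C (-A' / (A * B' - A' * B) * A + A / (A * B' - A' * B) * A') * X ^ m +
        C (-A' / (A * B' - A' * B) * B + A / (A * B' - A' * B) * B') := by
    simp only [C_add, C_mul]
    ring
  have h2 : -A' / (A * B' - A' * B) * A + A / (A * B' - A' * B) * A' = 0 := by ring
  have h3 : -A' / (A * B' - A' * B) * B + A / (A * B' - A' * B) * B' = 1 := by
    field_simp
    ring
  rw [h1, h2, h3, C_0, zero_mul, zero_add, C_1]

lemma separable_bin_h13 {A B : ℚ} (m : ℕ) (hA : A ≠ 0) (hB : B ≠ 0) (hAB : m = 0 → A + B ≠ 0) :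
    (C A * X ^ m + C B).Separable := by
  rcases Nat.eq_zero_or_pos m with hm | hm
  · subst hm
    rw [pow_zero, mul_one, ← C_add]
    exact (separable_C _).2 (isUnit_iff_ne_zero.2 (hAB rfl))
  · have h1 : (C A * X ^ m + C B : ℚ[X]) = C A * (X ^ m - C (-B / A)) := by
      rw [mul_sub, ← C_mul]
      have : A * (-B / A) = -B := by field_simp
      rw [this, C_neg, sub_neg_eq_add]
    rw [h1]
    exact Separable.unit_mul (isUnit_C.2 (isUnit_iff_ne_zero.2 hA))
      (separable_X_pow_sub_C _ (by exact_mod_cast hm.ne') (div_ne_zero (neg_ne_zero.2 hB) hA))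

lemma det_h13 (lam : ι → ℚ) (hlam : Function.Injective lam) {a b c d x : ι} (hab : a ≠ b)
    (hcd : c ≠ d) (hne : ({a, b} : Set ι) ≠ {c, d}) (hx : (x = a ∨ x = b) ∨ (x = c ∨ x = d)) :
    (lam a - lam b) * ((if c = x then 1 else 0) - (if d = x then 1 else 0)) -
      (lam c - lam d) * ((if a = x then 1 else 0) - (if b = x then 1 else 0)) ≠ 0 := by
  have inj : ∀ i j, i ≠ j → lam i - lam j ≠ 0 := fun i j h => sub_ne_zero.2 fun h' => h (hlam h')
  have n1 : a = c → b ≠ d := fun h h' => hne (by rw [h, h'])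
  have n2 : a = d → b ≠ c := fun h h' => hne (by rw [h, h', Set.pair_comm])
  have hab1 := inj a b hab
  have hcd1 := inj c d hcd
  by_cases ha : a = x
  · have hb : b ≠ x := fun h => hab (ha.trans h.symm)
    by_cases hc : c = x
    · have hd : d ≠ x := fun h => hcd (hc.trans h.symm)
      have h1 := inj b d (n1 (ha.trans hc.symm))
      rw [if_pos ha, if_neg hb, if_pos hc, if_neg hd, ha, hc]
      intro h
      apply h1
      linarith
    · by_cases hd : d = x
      · have h1 := inj b c (n2 (ha.trans hd.symm))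
        rw [if_pos ha, if_neg hb, if_neg hc, if_pos hd, ha, hd]
        intro h
        apply h1
        linarith
      · rw [if_pos ha, if_neg hb, if_neg hc, if_neg hd]
        intro h
        apply hcd1
        linarith
  · by_cases hb : b = x
    · by_cases hc : c = x
      · have hd : d ≠ x := fun h => hcd (hc.trans h.symm)
        have h1 := inj a d fun h => n2 h (hb.trans hc.symm)
        rw [if_neg ha, if_pos hb, if_pos hc, if_neg hd, hb, hc]
        intro h
        apply h1
        linarith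
      · by_cases hd : d = x
        · have h1 := inj a c fun h => n1 h (hb.trans hd.symm)
          rw [if_neg ha, if_pos hb, if_neg hc, if_pos hd, hb, hd]
          intro h
          apply h1
          linarith
        · rw [if_neg ha, if_pos hb, if_neg hc, if_neg hd]
          intro h
          apply hcd1
          linarith
    · by_cases hc : c = x
      · have hd : d ≠ x := fun h => hcd (hc.trans h.symm)
        rw [if_neg ha, if_neg hb, if_pos hc, if_neg hd]
        intro h
        apply hab1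
        linarith
      · by_cases hd : d = x
        · rw [if_neg ha, if_neg hb, if_neg hc, if_pos hd]
          intro h
          apply hab1
          linarith
        · exfalso
          rcases hx with (h | h) | (h | h)
          · exact ha h.symm
          · exact hb h.symm
          · exact hc h.symm
          · exact hd h.symm

/-- The quotient of the difference of the generic `α_a` and `α_b` by `X ^ 2`. -/
noncomputable def genG_h13 (a b : ι) : (MvPolynomial (ι × Fin (n + 1)) ℤ)[X] :=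
  (genF_h13 (colD a b) a b).divX.divX

lemma genF_eq_h13 (hn : 2 ≤ n) {a b : ι} (hab : a ≠ b) :
    genF_h13 (n := n) (colD a b) a b = X ^ 2 * genG_h13 a b := by
  have h0 : (genF_h13 (n := n) (colD a b) a b).coeff 0 = 0 := by
    have h := gdif_coeff (fun x : ι × Fin (n + 1) => MvPolynomial.X (R := ℤ) (colD a b x)) a b 0
    rw [Fin.val_zero, colD_left_h13 hab, colD_zero_h13, sub_self] at h
    exact h
  have h1 : (genF_h13 (n := n) (colD a b) a b).coeff 1 = 0 := by
    have h := gdif_coeff (fun x : ι × Fin (n + 1) => MvPolynomial.X (R := ℤ) (colD a b x)) a b 1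
    rw [Fin.val_one', Nat.mod_eq_of_lt (by omega), colD_left_h13 hab, colD_one_h13 hn, sub_self] at h
    exact h
  have e1 := divX_mul_X_add (genF_h13 (n := n) (colD a b) a b)
  have e2 := divX_mul_X_add (genF_h13 (n := n) (colD a b) a b).divX
  rw [h0, C_0, add_zero] at e1
  rw [coeff_divX, zero_add, h1, C_0, add_zero] at e2
  unfold genG_h13
  calc genF_h13 (n := n) (colD a b) a b = (genF_h13 (n := n) (colD a b) a b).divX * X := e1.symm
    _ = (genF_h13 (n := n) (colD a b) a b).divX.divX * X * X := by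
        rw [show (genF_h13 (n := n) (colD a b) a b).divX.divX * X =
          (genF_h13 (n := n) (colD a b) a b).divX from e2]
    _ = _ := by ring

lemma genG_natDegree_h13 (a b : ι) : (genG_h13 (n := n) a b).natDegree ≤ n - 2 := by
  unfold genG_h13
  rw [natDegree_divX_eq_natDegree_tsub_one, natDegree_divX_eq_natDegree_tsub_one]
  have := genF_natDegree_h13 (n := n) (colD a b) a b
  omega

lemma genG_coeff_h13 (a b : ι) (k : ℕ) :
    (genG_h13 (n := n) a b).coeff k = (genF_h13 (n := n) (colD a b) a b).coeff (k + 2) := by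
  unfold genG_h13
  rw [coeff_divX, coeff_divX]

/-- The family `α_a = X ^ n + X ^ 2`, the other polynomials being zero. -/
noncomputable def pta_h13 (a : ι) : ι × Fin (n + 1) → ℚ :=
  fun y => if y.1 = a then (if (y.2 : ℕ) = n then 1 else 0) + (if (y.2 : ℕ) = 2 then 1 else 0) else 0

lemma spec_coeff_h13 {κ : Type} {K : Type} [Field K] (u : κ → K) (f : (MvPolynomial κ ℤ)[X])
    (k : ℕ) : (spec u f).coeff k = MvPolynomial.aeval u (f.coeff k) := by
  unfold spec
  rw [coeff_map]
  rfl

lemma spec_genG_h13 (hn : 2 ≤ n) {a b : ι} (hab : a ≠ b) :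
    spec (pta_h13 a) (genG_h13 (n := n) a b) = C 1 * X ^ (n - 2) + C 1 := by
  ext k
  rw [spec_coeff_h13, genG_coeff_h13, ← spec_coeff_h13, spec_genF_h13, coeff_add, coeff_C_mul_X_pow,
    coeff_C]
  by_cases hk : k + 2 < n + 1
  · have h := gdif_coeff ((pta_h13 a : ι × Fin (n + 1) → ℚ) ∘ colD a b) a b ⟨k + 2, hk⟩
    simp only [Function.comp_apply] at h
    rw [colD_left_h13 hab, colD_of_two_le_h13 a b b ⟨k + 2, hk⟩ (by simp)] at h
    rw [h]
    unfold pta_h13
    simp only
    rw [if_neg hab.symm, if_pos trivial, sub_zero]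
    congr 1
    · by_cases h1 : k + 2 = n
      · rw [if_pos h1, if_pos (by omega)]
      · rw [if_neg h1, if_neg (by omega)]
    · by_cases h1 : k = 0
      · rw [if_pos (by omega), if_pos h1]
      · rw [if_neg (by omega), if_neg h1]
  · rw [coeff_eq_zero_of_natDegree_lt (lt_of_le_of_lt (gdif_natDegree_le _ _ _) (by omega)),
      if_neg (by omega), if_neg (by omega), add_zero]

/-- The generic condition. By `IsGeneric.all`, `IsGeneric.and`: (lead) the polynomial
`X_(a,n) - X_(b,n)`. For the other ones, the polynomials are `gdif (MvPolynomial.X ∘ s) a b` over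
`MvPolynomial κ ℤ` (`gdif_map`: their values at `u` are the `gdif (u ∘ s) a b`), and it is enough to
find for every condition one rational point `u₀` with `u₀ ∘ s = u₀` where it holds. (cop): there is
`x ∉ {a, b}` in one of the two pairs: take `α_y = λ_y X ^ n` for `y ≠ x` and `α_x = λ_x X ^ n + 1`, with
an injective `λ : ι → ℚ`; two differences `A X ^ n + B` and `A' X ^ n + B'` with `A ≠ 0` and
`A B' ≠ A' B` are coprime, and `A B' - A' B = ± (λ - λ')` for two different indices. (sep): the same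
family, `x ∈ {c, d}`, `x ∉ {a, b}`: `A X ^ n ± 1` is separable. (dbl): `α_a = X ^ n + X ^ 2`, `α_b = 0`:
`g = X ^ (n - 2) + 1` (`g = 2` if `n = 2`), `g(0) ≠ 0`; use `divX` twice for the quotient by `X ^ 2`. -/
theorem isGeneric_genD [Fintype ι] (hn : 2 ≤ n) {a b : ι} (hab : a ≠ b) :
    IsGeneric (fun (K : Type) [Field K] (u : ι × Fin (n + 1) → K) =>
      GenD a b (u ∘ colD a b) 0) := by
  obtain ⟨lam, hlam⟩ : ∃ lam : ι → ℚ, Function.Injective lam :=
    ⟨fun i => ((Fintype.equivFin ι i : ℕ) : ℚ), fun i j h => by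
      have h0 : ((Fintype.equivFin ι i : ℕ) : ℚ) = ((Fintype.equivFin ι j : ℕ) : ℚ) := h
      have h1 : (Fintype.equivFin ι i : ℕ) = (Fintype.equivFin ι j : ℕ) := by exact_mod_cast h0
      exact (Fintype.equivFin ι).injective (Fin.ext h1)⟩
  -- the leading coefficients
  have G1 : IsGeneric (fun (K : Type) [Field K] (u : ι × Fin (n + 1) → K) =>
      ∀ t : ι × ι, t.1 ≠ t.2 → (u ∘ colD a b) (t.1, Fin.last n) ≠ (u ∘ colD a b) (t.2, Fin.last n)) := by
    apply IsGeneric.all
    intro t
    apply isGeneric_imp_h13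
    intro ht
    have h := isGeneric_ne (κ := ι × Fin (n + 1))
      (MvPolynomial.X (t.1, Fin.last n) - MvPolynomial.X (t.2, Fin.last n))
      ⟨ptx_h13 lam a, by
        rw [map_sub, MvPolynomial.aeval_X, MvPolynomial.aeval_X]
        unfold ptx_h13
        simp only [if_true]
        exact sub_ne_zero.2 fun h => ht (hlam h)⟩
    refine h.mono fun K _ u hu => ?_
    rw [map_sub, MvPolynomial.aeval_X, MvPolynomial.aeval_X] at hu
    rw [Function.comp_apply, Function.comp_apply, colD_last_h13 hn, colD_last_h13 hn]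
    exact sub_ne_zero.1 hu
  -- the value of the leading coefficient at the points
  have hlead : ∀ x c d : ι, x ≠ a → x ≠ b → c ≠ d →
      (spec (ptx_h13 lam x) (genF_h13 (n := n) (colD a b) c d)).coeff n ≠ 0 := by
    intro x c d hxa hxb hcd
    rw [spec_genF_h13, ptx_comp_h13 hn lam hxa hxb, gdif_ptx_h13 hn, coeff_add, coeff_C_mul_X_pow,
      if_pos rfl, coeff_C, if_neg (by omega), add_zero]
    exact sub_ne_zero.2 fun h => hcd (hlam h)
  have hmem : ∀ c d : ι, c ≠ d → ({c, d} : Set ι) ≠ {a, b} → ∃ x, (x = c ∨ x = d) ∧ x ≠ a ∧ x ≠ b := by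
    intro c d hcd h
    by_contra hc
    push Not at hc
    apply h
    have h1 := hc c (Or.inl rfl)
    have h2 := hc d (Or.inr rfl)
    by_cases hca : c = a
    · have hda : d ≠ a := fun h3 => hcd (hca.trans h3.symm)
      rw [hca, h2 hda]
    · have hcb := h1 hca
      by_cases hda : d = a
      · rw [hcb, hda, Set.pair_comm]
      · exact absurd (hcb.trans (h2 hda).symm) hcd
  -- separability
  have G2 : IsGeneric (fun (K : Type) [Field K] (u : ι × Fin (n + 1) → K) =>
      ∀ t : ι × ι, (t.1 ≠ t.2 ∧ ({t.1, t.2} : Set ι) ≠ {a, b}) →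
        (gdif (u ∘ colD a b) t.1 t.2).Separable) := by
    apply IsGeneric.all
    rintro ⟨c, d⟩
    apply isGeneric_imp_h13
    rintro ⟨hcd, hcd'⟩
    simp only at hcd hcd' ⊢
    obtain ⟨x, hx, hxa, hxb⟩ := hmem c d hcd hcd'
    have h := isGeneric_separable (genF_h13 (n := n) (colD a b) c d) n (genF_natDegree_h13 _ _ _)
      (ptx_h13 lam x) (hlead x c d hxa hxb hcd) (by
        rw [spec_genF_h13, ptx_comp_h13 hn lam hxa hxb, gdif_ptx_h13 hn]
        have h1 : lam c - lam d ≠ 0 := sub_ne_zero.2 fun h => hcd (hlam h)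
        refine separable_bin_h13 n h1 ?_ (fun h => absurd h (by omega))
        rcases hx with h2 | h2
        · have h3 : d ≠ x := fun h => hcd (h2.symm.trans h.symm)
          rw [if_pos h2.symm, if_neg h3]
          norm_num
        · have h3 : c ≠ x := fun h => hcd (h.trans h2)
          rw [if_neg h3, if_pos h2.symm]
          norm_num)
    refine h.mono fun K _ u hu => ?_
    have := hu.2
    rwa [spec_genF_h13] at this
  -- coprimality
  have G3 : IsGeneric (fun (K : Type) [Field K] (u : ι × Fin (n + 1) → K) =>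
      ∀ t : (ι × ι) × (ι × ι), (t.1.1 ≠ t.1.2 ∧ t.2.1 ≠ t.2.2 ∧
        ({t.1.1, t.1.2} : Set ι) ≠ {t.2.1, t.2.2}) →
        IsCoprime (gdif (u ∘ colD a b) t.1.1 t.1.2) (gdif (u ∘ colD a b) t.2.1 t.2.2)) := by
    apply IsGeneric.all
    rintro ⟨⟨a', b'⟩, ⟨c, d⟩⟩
    apply isGeneric_imp_h13
    rintro ⟨hab', hcd, hne⟩
    simp only at hab' hcd hne ⊢
    obtain ⟨x, hx, hxa, hxb⟩ : ∃ x, ((x = a' ∨ x = b') ∨ (x = c ∨ x = d)) ∧ x ≠ a ∧ x ≠ b := by
      by_cases h1 : ({a', b'} : Set ι) = {a, b}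
      · obtain ⟨x, hx, h2⟩ := hmem c d hcd fun h => hne (h1.trans h.symm)
        exact ⟨x, Or.inr hx, h2⟩
      · obtain ⟨x, hx, h2⟩ := hmem a' b' hab' h1
        exact ⟨x, Or.inl hx, h2⟩
    have h := isGeneric_isCoprime (genF_h13 (n := n) (colD a b) a' b')
      (genF_h13 (n := n) (colD a b) c d) n n (genF_natDegree_h13 _ _ _) (genF_natDegree_h13 _ _ _)
      (ptx_h13 lam x) (hlead x a' b' hxa hxb hab') (by
        rw [spec_genF_h13, spec_genF_h13, ptx_comp_h13 hn lam hxa hxb, gdif_ptx_h13 hn,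
          gdif_ptx_h13 hn]
        apply isCoprime_bin_h13
        exact det_h13 lam hlam hab' hcd hne hx)
    refine h.mono fun K _ u hu => ?_
    have := hu.2
    rwa [spec_genF_h13, spec_genF_h13] at this
  -- the double root
  have G4 : IsGeneric (fun (K : Type) [Field K] (u : ι × Fin (n + 1) → K) =>
      (spec u (genG_h13 (n := n) a b)).Separable) := by
    have h := isGeneric_separable (genG_h13 (n := n) a b) (n - 2) (genG_natDegree_h13 _ _)
      (pta_h13 a) (by
        rw [spec_genG_h13 hn hab, coeff_add, coeff_C_mul_X_pow, if_pos rfl, coeff_C]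
        split_ifs <;> norm_num) (by
        rw [spec_genG_h13 hn hab]
        exact separable_bin_h13 _ one_ne_zero one_ne_zero (fun _ => by norm_num))
    exact h.mono fun K _ u hu => hu.2
  have G5 : IsGeneric (fun (K : Type) [Field K] (u : ι × Fin (n + 1) → K) =>
      (spec u (genG_h13 (n := n) a b)).coeff 0 ≠ 0) := by
    have h := isGeneric_ne ((genG_h13 (n := n) a b).coeff 0) ⟨pta_h13 a, by
      rw [← spec_coeff_h13, spec_genG_h13 hn hab, coeff_add, coeff_C_mul_X_pow, coeff_C, if_pos rfl]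
      split_ifs <;> norm_num⟩
    refine h.mono fun K _ u hu => ?_
    rw [spec_coeff_h13]
    exact hu
  refine (((G1.and G2).and G3).and (G4.and G5)).mono fun K _ u hu => ?_
  obtain ⟨⟨⟨h1, h2⟩, h3⟩, h4, h5⟩ := hu
  refine ⟨fun c d hcd => h1 (c, d) hcd, fun c d hcd hcd' => h2 (c, d) ⟨hcd, hcd'⟩,
    fun a' b' c d hab' hcd hne => h3 ((a', b'), (c, d)) ⟨hab', hcd, hne⟩,
    ⟨spec u (genG_h13 (n := n) a b), ?_, ?_, h4⟩⟩
  · rw [← spec_genF_h13, genF_eq_h13 hn hab, C_0, sub_zero]
    unfold spec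
    rw [Polynomial.map_mul, Polynomial.map_pow, map_X]
  · rwa [← coeff_zero_eq_eval_zero]

/-- The families of type D modulo `p ^ 2`. -/
def TypeDz (p : ℕ) (a b : ι) (w : ι × Fin (n + 1) → ZMod (p ^ 2)) : Prop :=
  ∃ z : ZMod (p ^ 2),
    GenD a b (redp p w) (ZMod.castHom (dvd_pow_self p two_ne_zero) (ZMod p) z) ∧
      (gdif w a b).eval z ≠ 0

theorem redp_update_h21 {p : ℕ} {κ : Type} [DecidableEq κ] (w : κ → ZMod (p ^ 2)) (c : κ) :
    redp p (Function.update w c (w c + (p : ZMod (p ^ 2)))) = redp p w := by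
  funext d
  unfold redp
  by_cases h : d = c
  · subst h
    rw [Function.update_self, map_add, map_natCast, ZMod.natCast_self, add_zero]
  · rw [Function.update_of_ne h]

theorem gdif_update_h21 {R : Type} [CommRing R] (w : ι × Fin (n + 1) → R) {a b : ι} (hab : a ≠ b)
    (y : R) : gdif (Function.update w (a, 0) (w (a, 0) + y)) a b = gdif w a b + C y := by
  have ha : gpol (Function.update w (a, 0) (w (a, 0) + y)) a = gpol w a + C y := by
    unfold gpol
    rw [← Finset.add_sum_erase _ _ (Finset.mem_univ (0 : Fin (n + 1))),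
      ← Finset.add_sum_erase (s := Finset.univ) (a := (0 : Fin (n + 1)))
        (f := fun j : Fin (n + 1) => C (w (a, j)) * X ^ (j : ℕ)) (h := Finset.mem_univ _)]
    have h1 : ∑ x ∈ Finset.univ.erase (0 : Fin (n + 1)),
        C (Function.update w (a, 0) (w (a, 0) + y) (a, x)) * X ^ (x : ℕ) =
        ∑ x ∈ Finset.univ.erase (0 : Fin (n + 1)), C (w (a, x)) * X ^ (x : ℕ) := by
      refine Finset.sum_congr rfl fun x hx => ?_
      rw [Function.update_of_ne]
      intro h
      exact (Finset.mem_erase.1 hx).1 (congrArg Prod.snd h)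
    rw [h1, Function.update_self, Fin.val_zero, pow_zero, mul_one, mul_one, C_add]
    ring
  have hb : gpol (Function.update w (a, 0) (w (a, 0) + y)) b = gpol w b := by
    unfold gpol
    refine Finset.sum_congr rfl fun x _ => ?_
    rw [Function.update_of_ne]
    intro h
    exact hab (congrArg Prod.fst h).symm
  unfold gdif
  rw [ha, hb]
  ring

theorem colD_colD_h21 {a b : ι} (hab : a ≠ b) (c : ι × Fin (n + 1)) :
    colD a b (colD a b c) = colD a b c := by
  have h : ∀ j : Fin (n + 1), colD a b (a, j) = (a, j) := by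
    intro j
    unfold colD
    rw [if_neg (fun h => hab (congrArg Prod.fst h)), if_neg (fun h => hab (congrArg Prod.fst h))]
  by_cases h1 : c = (b, 0)
  · have : colD a b c = (a, 0) := by
      unfold colD
      rw [if_pos h1]
    rw [this, h]
  · by_cases h2 : c = (b, 1)
    · have : colD a b c = (a, 1) := by
        unfold colD
        rw [if_neg h1, if_pos h2]
      rw [this, h]
    · have : colD a b c = c := by
        unfold colD
        rw [if_neg h1, if_neg h2]
      rw [this, this]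

/-- If `w` lifts a good family modulo `p` but is not of type D, then `w + p` at the constant
coefficient of `α_a` is: take any lift `z`; `(gdif w a b).eval z = 0`, and it becomes `p ≠ 0`. -/
theorem TypeDz.flip {p : ℕ} (hp : p.Prime) {a b : ι} (hab : a ≠ b)
    (w : ι × Fin (n + 1) → ZMod (p ^ 2)) (h : ∃ z, GenD a b (redp p w) z)
    (hw : ¬ TypeDz p a b w) :
    TypeDz p a b (Function.update w (a, 0) (w (a, 0) + (p : ZMod (p ^ 2)))) := by
  obtain ⟨z, hz⟩ := h
  obtain ⟨y, rfl⟩ := ZMod.castHom_surjective (dvd_pow_self p two_ne_zero) z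
  have h0 : (gdif w a b).eval y = 0 := by
    by_contra hne
    exact hw ⟨y, hz, hne⟩
  refine ⟨y, ?_, ?_⟩
  · rw [redp_update_h21]
    exact hz
  · rw [gdif_update_h21 w hab, eval_add, eval_C, h0, zero_add]
    intro h1
    have h2 : p ^ 2 ∣ p := (ZMod.natCast_eq_zero_iff p (p ^ 2)).1 h1
    have h3 := Nat.le_of_dvd hp.pos h2
    have h4 := hp.two_le
    nlinarith

/-- From the residues modulo `p ^ 2` to the integers. -/
theorem TypeD.of_z {p : ℕ} (hp : p.Prime) {a b : ι} {v : ι × Fin (n + 1) → ℤ}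
    (h : TypeDz p a b (fun c => (v c : ZMod (p ^ 2)))) : TypeD p a b v := by
  obtain ⟨y, hy, hy2⟩ := h
  have hred : redp p (fun c => (v c : ZMod (p ^ 2))) = fun c => (v c : ZMod p) := by
    funext c
    exact map_intCast _ _
  rw [hred] at hy
  have hg : ∀ c d, gdif (fun c => (v c : ZMod p)) c d = gred p v c d := by
    intro c d
    exact (gdif_map (Int.castRingHom (ZMod p)) v c d).symm
  have hg2 : gdif (fun c => (v c : ZMod (p ^ 2))) a b =
      (gdif v a b).map (Int.castRingHom (ZMod (p ^ 2))) :=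
    (gdif_map (Int.castRingHom (ZMod (p ^ 2))) v a b).symm
  obtain ⟨m, rfl⟩ := ZMod.intCast_surjective y
  have hm : (ZMod.castHom (dvd_pow_self p two_ne_zero) (ZMod p)) (m : ZMod (p ^ 2)) =
      (m : ZMod p) := map_intCast _ _
  rw [hm] at hy
  refine ⟨?_, ?_, ?_, ?_⟩
  · intro c d hcd hdvd
    apply hy.lead c d hcd
    have h1 := (ZMod.intCast_zmod_eq_zero_iff_dvd _ p).2 hdvd
    rw [Int.cast_sub, sub_eq_zero] at h1
    exact h1
  · intro c d hcd hne
    rw [← hg]
    exact hy.sep c d hcd hne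
  · intro a' b' c d h1 h2 h3
    rw [← hg, ← hg]
    exact hy.cop a' b' c d h1 h2 h3
  · obtain ⟨g, hg1, hg3, hg4⟩ := hy.dbl
    rw [hg] at hg1
    refine ⟨m, ?_, ?_, g, hg1, hg3, hg4⟩
    · rw [← ZMod.intCast_zmod_eq_zero_iff_dvd]
      have h1 : (gred p v a b).eval (m : ZMod p) = (((gdif v a b).eval m : ℤ) : ZMod p) := by
        rw [gred, eval_intCast_map]
        rfl
      rw [← h1, hg1, eval_mul, eval_pow, eval_sub, eval_X, eval_C, sub_self]
      ring
    · intro hdvd
      apply hy2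
      have h1 : ((p ^ 2 : ℕ) : ℤ) ∣ (gdif v a b).eval m := by
        rw [Nat.cast_pow]
        exact hdvd
      rw [← ZMod.intCast_zmod_eq_zero_iff_dvd] at h1
      rw [hg2, eval_intCast_map]
      exact h1

/-- The count (`count_scheme`). -/
theorem count_typeD [Fintype ι] (hn : 2 ≤ n) {a b : ι} (hab : a ≠ b) :
    ∃ P₀ : ℕ, ∀ p : ℕ, p.Prime → P₀ ≤ p →
      (1 / 4 : ℝ) / p * ((p ^ 2 : ℕ) : ℝ) ^ Fintype.card (ι × Fin (n + 1)) ≤
        ({w : ι × Fin (n + 1) → ZMod (p ^ 2) | TypeDz p a b w}).ncard := by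
  obtain ⟨Δ, hΔ, h0⟩ := isGeneric_genD (ι := ι) (n := n) hn hab
  refine count_scheme (colD a b) (b, 0) (b, 1) (a, 0) (colD_colD_h21 hab) ?_ Δ hΔ
    (fun p u z => GenD a b u z) ?_ ?_ ?_ (fun p => {w | TypeDz p a b w}) ?_
  · intro c h1 h2
    unfold colD
    rw [if_neg h1, if_neg h2]
  · intro p hp u z
    haveI : Fact p.Prime := ⟨hp⟩
    exact GenD.shift_iff a b u z
  · intro p hp u z z' h h'
    haveI : Fact p.Prime := ⟨hp⟩
    exact h.unique h'
  · intro p hp u hu
    haveI : Fact p.Prime := ⟨hp⟩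
    exact h0 (ZMod p) u hu
  · intro p hp w hz hw
    exact TypeDz.flip hp hab w hz hw

end

end Pool.Agent.Lib.MP_89bcae_ag

end

section

/-!
# The criterion for graphs of polynomials

Let `x_ij(s) = e_i(s) / W_j` in `ZMod ℓ` for `s` in the set `N i j` of the roots of `α_i - α_j`. The
condition on the sums gives `e_l(s) = 0` for `l ≠ i, j` and `W_i e_i(s) + W_j e_j(s) = 0`, that is
`x_ji = -x_ij`. For a triple `i, j, l` and `r ∈ N i j`, `r' ∈ N j l`, `r'' ∈ N i l`, the homomorphism
`ν` of the hypothesis (`TripleV`, value `h`) gives, by `val_eqn` at `r` divided by `W_j`, with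
`v = ν(κ)`, `γ_i = ν(c_i)`:
`v x_ij(r) + γ_i - γ_j - W_l h x_ij(r) + (e_i(r'') - e_j(r'')) h + (e_i(r') - e_j(r')) h = 0`, where
`e_i(r'') = W_l x_il(r'')`, `e_j(r'') = 0`, `e_i(r') = 0`, `e_j(r') = W_l x_jl(r')`; this is (1) of
`RelG`. (2) and (3) are the same relation at `r'` and `r''` (the sign: at `r''`,
`v x_il(r'') + γ_i - γ_l - W_j h x_il(r'') + W_j x_ij(r) h + W_j x_jl(r') h = 0`, since
`e_i(r) = W_j x_ij(r)`, `-e_l(r') = -W_j x_lj(r') = W_j x_jl(r')`). (4) is the relation at the other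
nodes. Conclude with `core_graph`; choose integers `b_i` with the given classes modulo `ℓ`.
The number of the roots of `α_i - α_j` is its degree (`α_i - α_j` is separable by `hα`, and splits in
the algebraically closed field `F`).
-/

open Polynomial

open scoped Classical

namespace Pool.Agent.Lib.MP_89bcae_ag

open Superelliptic

universe u

variable {k F : Type u} [Field k] [Field F] [Algebra k F] [IsAlgClosed F] {ι : Type} [Fintype ι]
  [LinearOrder ι]

omit [IsAlgClosed F] in
lemma sep_h96 (α : ι → k[X]) (hα : IsArrangement α) {i j : ι} (hij : i ≠ j) :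
    (α i - α j).Separable := by
  have h1 : ∀ a b : ι, a < b → (α a - α b).Separable := by
    intro a b hab
    refine hα.separable.of_dvd ?_
    have h2 : (α a - α b) ∣ ∏ j ∈ Finset.univ.filter fun j => a < j, (α a - α j) :=
      Finset.dvd_prod_of_mem (fun j => α a - α j)
        (Finset.mem_filter.mpr ⟨Finset.mem_univ _, hab⟩)
    exact h2.trans (Finset.dvd_prod_of_mem
      (fun i => ∏ j ∈ Finset.univ.filter fun j => i < j, (α i - α j)) (Finset.mem_univ a))
  rcases lt_or_gt_of_ne hij with h | h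
  · exact h1 i j h
  · exact (h1 j i h).of_dvd ⟨-1, by ring⟩

lemma roots_h96 (α : ι → k[X]) (hα : IsArrangement α) {i j : ι} (hij : i ≠ j) (T : Finset F)
    (hT : T.card < (α i - α j).natDegree) :
    ∃ s : F, aeval s (α i) = aeval s (α j) ∧ s ∉ T := by
  have hsep := sep_h96 α hα hij
  have hc : ((α i - α j).aroots F).toFinset.card = (α i - α j).natDegree := by
    have hsplit : ((α i - α j).map (algebraMap k F)).Splits := IsAlgClosed.splits _
    rw [Multiset.toFinset_card_of_nodup (nodup_roots hsep.map), ← hsplit.natDegree_eq_card_roots,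
      natDegree_map]
  rw [← hc] at hT
  obtain ⟨s, hs, hsT⟩ := Finset.exists_mem_notMem_of_card_lt_card hT
  refine ⟨s, ?_, hsT⟩
  rw [Multiset.mem_toFinset, mem_aroots] at hs
  have h1 := hs.2
  rw [map_sub] at h1
  exact sub_eq_zero.mp h1

/-- the relation at a node of the collision -/
lemma rel_h96 {ℓ : ℕ} [Fact ℓ.Prime] (α : ι → k[X]) (hα : IsArrangement α) (W : ι → ℕ)
    (ν : F → ZMod ℓ) (hν : IsVal (IntermediateField.adjoin k (nodes k F α)).toSubfield ν)
    (e : ι → F → ℤ) (κ : F) (c : ι → F) (hκ : κ ≠ 0)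
    (hκK : κ ∈ IntermediateField.adjoin k (nodes k F α))
    (hc : ∀ i, c i ≠ 0 ∧ c i ∈ IntermediateField.adjoin k (nodes k F α))
    {a b d : ι} {s t u : F} (hab : a ≠ b) (hs : aeval s (α a) = aeval s (α b))
    (hw : ∃ w ∈ IntermediateField.adjoin k (nodes k F α),
        w ^ ℓ = κ ^ e a s * (c a / c b) ^ W b *
          aeval s (derivative (α a - α b)) ^ (-((W a : ℤ) + W b) * e a s) *
          (∏ l ∈ Finset.univ.filter fun l => l ≠ a ∧ l ≠ b,
            (aeval s (α a) - aeval s (α l)) ^ (-(W l : ℤ) * e a s)) *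
          ∏ᶠ s' ∈ {s' ∈ nodes k F α | s' ≠ s}, (s - s') ^ ((W b : ℤ) * (e a s' - e b s')))
    (hda : d ≠ a) (hdb : d ≠ b) (ht : t ∈ nodes k F α) (hu : u ∈ nodes k F α) (hts : t ≠ s)
    (hus : u ≠ s) (htu : t ≠ u) (h : ZMod ℓ)
    (hder : ν (aeval s (derivative (α a - α b))) = 0)
    (hval : ∀ l, l ≠ a → l ≠ b → ν (aeval s (α a) - aeval s (α l)) = if l = d then h else 0)
    (hdif : ∀ s' ∈ nodes k F α, s' ≠ s → ν (s - s') = if s' = t ∨ s' = u then h else 0) :
    (e a s : ZMod ℓ) * ν κ + W b * (ν (c a) - ν (c b)) - W d * e a s * h +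
      W b * (((e a t : ZMod ℓ) - e b t) + ((e a u : ZMod ℓ) - e b u)) * h = 0 := by
  have key := val_eqn α hα W ν hν e κ c hκ hκK hc hab hs hw
  have h1 : (∑ l ∈ Finset.univ.filter fun l => l ≠ a ∧ l ≠ b,
      (W l : ZMod ℓ) * e a s * ν (aeval s (α a) - aeval s (α l))) = W d * e a s * h := by
    rw [Finset.sum_eq_single d]
    · rw [hval d hda hdb, if_pos rfl]
    · intro l hl hld
      rw [Finset.mem_filter] at hl
      rw [hval l hl.2.1 hl.2.2, if_neg hld, mul_zero]
    · intro hd
      exact absurd (Finset.mem_filter.mpr ⟨Finset.mem_univ _, hda, hdb⟩) hd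
  have h2 : ∑ s' ∈ (finite_nodes (F := F) α hα).toFinset.erase s,
        (W b : ZMod ℓ) * (e a s' - e b s') * ν (s - s') =
      W b * (((e a t : ZMod ℓ) - e b t) + ((e a u : ZMod ℓ) - e b u)) * h := by
    have hsub : ({t, u} : Finset F) ⊆ (finite_nodes (F := F) α hα).toFinset.erase s := by
      intro x hx
      rw [Finset.mem_insert, Finset.mem_singleton] at hx
      rw [Finset.mem_erase, Set.Finite.mem_toFinset]
      rcases hx with rfl | rfl
      · exact ⟨hts, ht⟩
      · exact ⟨hus, hu⟩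
    rw [← Finset.sum_subset hsub, Finset.sum_pair htu, hdif t ht hts, hdif u hu hus,
      if_pos (Or.inl rfl), if_pos (Or.inr rfl)]
    · ring
    · intro x hx hx2
      rw [Finset.mem_erase, Set.Finite.mem_toFinset] at hx
      rw [Finset.mem_insert, Finset.mem_singleton] at hx2
      rw [hdif x hx.2 hx.1, if_neg hx2, mul_zero]
  rw [hder, h1, h2] at key
  linear_combination key

/-- the relation at the other nodes -/
lemma rel0_h96 {ℓ : ℕ} [Fact ℓ.Prime] (α : ι → k[X]) (hα : IsArrangement α) (W : ι → ℕ)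
    (ν : F → ZMod ℓ) (hν : IsVal (IntermediateField.adjoin k (nodes k F α)).toSubfield ν)
    (e : ι → F → ℤ) (κ : F) (c : ι → F) (hκ : κ ≠ 0)
    (hκK : κ ∈ IntermediateField.adjoin k (nodes k F α))
    (hc : ∀ i, c i ≠ 0 ∧ c i ∈ IntermediateField.adjoin k (nodes k F α))
    {a b : ι} {s : F} (hab : a ≠ b) (hs : aeval s (α a) = aeval s (α b))
    (hw : ∃ w ∈ IntermediateField.adjoin k (nodes k F α),
        w ^ ℓ = κ ^ e a s * (c a / c b) ^ W b *
          aeval s (derivative (α a - α b)) ^ (-((W a : ℤ) + W b) * e a s) *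
          (∏ l ∈ Finset.univ.filter fun l => l ≠ a ∧ l ≠ b,
            (aeval s (α a) - aeval s (α l)) ^ (-(W l : ℤ) * e a s)) *
          ∏ᶠ s' ∈ {s' ∈ nodes k F α | s' ≠ s}, (s - s') ^ ((W b : ℤ) * (e a s' - e b s')))
    (hder : ν (aeval s (derivative (α a - α b))) = 0)
    (hval : ∀ l, l ≠ a → l ≠ b → ν (aeval s (α a) - aeval s (α l)) = 0)
    (hdif : ∀ s' ∈ nodes k F α, s' ≠ s → ν (s - s') = 0) :
    (e a s : ZMod ℓ) * ν κ + W b * (ν (c a) - ν (c b)) = 0 := by
  have key := val_eqn α hα W ν hν e κ c hκ hκK hc hab hs hw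
  have h1 : (∑ l ∈ Finset.univ.filter fun l => l ≠ a ∧ l ≠ b,
      (W l : ZMod ℓ) * e a s * ν (aeval s (α a) - aeval s (α l))) = 0 := by
    apply Finset.sum_eq_zero
    intro l hl
    rw [Finset.mem_filter] at hl
    rw [hval l hl.2.1 hl.2.2, mul_zero]
  have h2 : ∑ s' ∈ (finite_nodes (F := F) α hα).toFinset.erase s,
        (W b : ZMod ℓ) * (e a s' - e b s') * ν (s - s') = 0 := by
    apply Finset.sum_eq_zero
    intro x hx
    rw [Finset.mem_erase, Set.Finite.mem_toFinset] at hx
    rw [hdif x hx.2 hx.1, mul_zero]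
  rw [hder, h1, h2] at key
  linear_combination key

theorem indepW_of_tripleV {ℓ : ℕ} (hℓ : ℓ.Prime) (α : ι → k[X]) (hα : IsArrangement α)
    (hι : 3 ≤ Fintype.card ι)
    (hdeg : (∀ i j, i ≠ j → 3 ≤ (α i - α j).natDegree) ∨
      (4 ≤ Fintype.card ι ∧ ∀ i j, i ≠ j → 2 ≤ (α i - α j).natDegree))
    (W : ι → ℕ) (hW : ∀ i, (W i).Coprime ℓ)
    (hV : ∀ i j l, i ≠ j → j ≠ l → i ≠ l → ∀ r r' r'' : F, aeval r (α i) = aeval r (α j) →
      aeval r' (α j) = aeval r' (α l) → aeval r'' (α i) = aeval r'' (α l) →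
      ∃ (ν : F → ZMod ℓ) (h : ZMod ℓ),
        IsVal (IntermediateField.adjoin k (nodes k F α)).toSubfield ν ∧ h ≠ 0 ∧
          TripleV ν α h i j l r r' r'') :
    ArrangementIndependentW ℓ k F W α := by
  have : Fact ℓ.Prime := ⟨hℓ⟩
  intro e κ c hκ hκK hc hsum hpow0
  have hpow : ∀ (i j : ι) (s : F), i ≠ j → aeval s (α i) = aeval s (α j) →
      ∃ w ∈ IntermediateField.adjoin k (nodes k F α),
        w ^ ℓ = κ ^ e i s * (c i / c j) ^ W j *
          aeval s (derivative (α i - α j)) ^ (-((W i : ℤ) + W j) * e i s) *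
          (∏ l ∈ Finset.univ.filter fun l => l ≠ i ∧ l ≠ j,
            (aeval s (α i) - aeval s (α l)) ^ (-(W l : ℤ) * e i s)) *
          ∏ᶠ s' ∈ {s' ∈ nodes k F α | s' ≠ s}, (s - s') ^ ((W j : ℤ) * (e i s' - e j s')) := by
    intro i j s hij hs
    obtain ⟨w, hw1, hw2⟩ := hpow0 i j s hij hs
    refine ⟨w, hw1, hw2.trans ?_⟩
    congr 2
    apply Finset.prod_congr _ (fun _ _ => rfl)
    ext l
    simp only [Finset.mem_filter]
  have hw : ∀ i, (W i : ZMod ℓ) ≠ 0 := by
    intro i h0
    rw [ZMod.natCast_eq_zero_iff] at h0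
    exact (hℓ.coprime_iff_not_dvd.mp (hW i).symm) h0
  -- the sets
  have hnode : ∀ {a b : ι} {s : F}, a ≠ b → aeval s (α a) = aeval s (α b) → s ∈ nodes k F α :=
    fun hab hs => ⟨_, _, hab, hs⟩
  -- the values of `e` at the nodes
  have e0 : ∀ a b d : ι, ∀ s : F, a ≠ b → aeval s (α a) = aeval s (α b) → d ≠ a → d ≠ b →
      (e d s : ZMod ℓ) = 0 := by
    intro a b d s hab hs hda hdb
    have h1 := hsum s (hnode hab hs) d
    have h2 : (Finset.univ.filter fun j => aeval s (α j) = aeval s (α d)) = {d} := by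
      ext j
      rw [Finset.mem_filter, Finset.mem_singleton]
      constructor
      · rintro ⟨-, hj⟩
        by_contra hjd
        have h3 := nodes_pair α hα hab hjd hs hj
        have h4 : d ∈ ({a, b} : Set ι) := by
          rw [h3]
          exact Set.mem_insert_of_mem _ rfl
        rcases h4 with h4 | h4
        · exact hda h4
        · exact hdb h4
      · rintro rfl
        exact ⟨Finset.mem_univ _, rfl⟩
    rw [h2, Finset.sum_singleton] at h1
    have h3 : (((W d : ℤ) * e d s : ℤ) : ZMod ℓ) = 0 := (ZMod.intCast_zmod_eq_zero_iff_dvd _ _).mpr h1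
    push_cast at h3
    exact (mul_eq_zero.mp h3).resolve_left (hw d)
  have e1 : ∀ a b : ι, ∀ s : F, a ≠ b → aeval s (α a) = aeval s (α b) →
      (W a : ZMod ℓ) * e a s + W b * e b s = 0 := by
    intro a b s hab hs
    have h1 := hsum s (hnode hab hs) a
    have h2 : (Finset.univ.filter fun j => aeval s (α j) = aeval s (α a)) = {a, b} := by
      ext j
      rw [Finset.mem_filter, Finset.mem_insert, Finset.mem_singleton]
      constructor
      · rintro ⟨-, hj⟩
        by_contra hjd
        rw [not_or] at hjd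
        have h3 := nodes_pair α hα hab hjd.1 hs hj
        have h4 : j ∈ ({a, b} : Set ι) := by
          rw [h3]
          exact Set.mem_insert _ _
        rcases h4 with h4 | h4
        · exact hjd.1 h4
        · exact hjd.2 h4
      · rintro (rfl | rfl)
        · exact ⟨Finset.mem_univ _, rfl⟩
        · exact ⟨Finset.mem_univ _, hs.symm⟩
    rw [h2, Finset.sum_pair hab] at h1
    have h3 : (((W a : ℤ) * e a s + (W b : ℤ) * e b s : ℤ) : ZMod ℓ) = 0 :=
      (ZMod.intCast_zmod_eq_zero_iff_dvd _ _).mpr h1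
    push_cast at h3
    exact h3
  have hpair : ∀ {a b c d : ι} {s t : F}, a ≠ b → c ≠ d → aeval s (α a) = aeval s (α b) →
      aeval t (α c) = aeval t (α d) → ({a, b} : Set ι) ≠ {c, d} → s ≠ t := by
    rintro a b c d s t hab hcd hs ht hne rfl
    exact hne (nodes_pair α hα hab hcd hs ht)
  obtain ⟨b, hb⟩ := core_graph (A := ZMod ℓ) hι
    (fun i j => {s : F | aeval s (α i) = aeval s (α j)})
    (fun i j => by
      ext s
      exact eq_comm)
    (fun a b c d s hab hcd hs hs' => nodes_pair α hα hab hcd hs hs')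
    (by
      rcases hdeg with hd | ⟨hd4, hd⟩
      · left
        intro i j hij r r'
        obtain ⟨s, hs, hsT⟩ := roots_h96 α hα hij ({r, r'} : Finset F)
          (lt_of_le_of_lt Finset.card_le_two (by have := hd i j hij; omega))
        rw [Finset.mem_insert, Finset.mem_singleton, not_or] at hsT
        exact ⟨s, hs, hsT.1, hsT.2⟩
      · right
        refine ⟨hd4, fun i j hij r => ?_⟩
        obtain ⟨s, hs, hsT⟩ := roots_h96 α hα hij ({r} : Finset F)
          (by rw [Finset.card_singleton]; have := hd i j hij; omega)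
        rw [Finset.mem_singleton] at hsT
        exact ⟨s, hs, hsT⟩)
    (fun i j s => (e i s : ZMod ℓ) / W j)
    (fun i j s hij hs => by
      have h1 := e1 i j s hij hs
      have h2 := hw i
      have h3 := hw j
      field_simp
      linear_combination h1)
    (fun i => (W i : ZMod ℓ)) hw
    (by
      intro i j l hij hjl hil r hr r' hr' r'' hr''
      obtain ⟨ν, h, hν, hh, hT⟩ := hV i j l hij hjl hil r r' r'' hr hr' hr''
      have hr0 : aeval r (α i) = aeval r (α j) := hr
      have hr0' : aeval r' (α j) = aeval r' (α l) := hr'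
      have hr0'' : aeval r'' (α i) = aeval r'' (α l) := hr''
      have q1 : ({i, j} : Set ι) ≠ {j, l} := by
        intro h
        have h1 : i ∈ ({j, l} : Set ι) := by rw [← h]; exact Set.mem_insert _ _
        rcases h1 with h1 | h1
        · exact hij h1
        · exact hil h1
      have q2 : ({i, j} : Set ι) ≠ {i, l} := by
        intro h
        have h1 : j ∈ ({i, l} : Set ι) := by rw [← h]; exact Set.mem_insert_of_mem _ rfl
        rcases h1 with h1 | h1
        · exact hij h1.symm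
        · exact hjl h1
      have q3 : ({j, l} : Set ι) ≠ {i, l} := by
        intro h
        have h1 : j ∈ ({i, l} : Set ι) := by rw [← h]; exact Set.mem_insert _ _
        rcases h1 with h1 | h1
        · exact hij h1.symm
        · exact hjl h1
      have n1 : r ≠ r' := hpair hij hjl hr0 hr0' q1
      have n2 : r ≠ r'' := hpair hij hil hr0 hr0'' q2
      have n3 : r' ≠ r'' := hpair hjl hil hr0' hr0'' q3
      have m1 : r ∈ nodes k F α := hnode hij hr0
      have m2 : r' ∈ nodes k F α := hnode hjl hr0'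
      have m3 : r'' ∈ nodes k F α := hnode hil hr0''
      -- relations
      have R1 := rel_h96 α hα W ν hν e κ c hκ hκK hc (d := l) (t := r') (u := r'') hij hr0
        (hpow i j r hij hr0) hil.symm hjl.symm m2 m3 n1.symm n2.symm n3 h
        (hT.der i j r hij hr0)
        (fun d hda hdb => by
          rw [hT.val i j d r hij hr0 hda hdb]
          congr 1
          apply propext
          constructor
          · rintro ⟨-, h1⟩
            rcases h1 with h1 | h1 | h1
            · exact absurd h1 hda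
            · exact absurd h1 hdb
            · exact h1
          · rintro rfl
            exact ⟨Or.inl rfl, Or.inr (Or.inr rfl)⟩)
        (fun s' hs' hne => by
          rw [hT.dif r m1 s' hs' hne.symm]
          congr 1
          apply propext
          constructor
          · rintro ⟨-, h1⟩
            rcases h1 with h1 | h1 | h1
            · exact absurd h1 hne
            · exact Or.inl h1
            · exact Or.inr h1
          · rintro (rfl | rfl)
            · exact ⟨Or.inl rfl, Or.inr (Or.inl rfl)⟩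
            · exact ⟨Or.inl rfl, Or.inr (Or.inr rfl)⟩)
      have R2 := rel_h96 α hα W ν hν e κ c hκ hκK hc (d := i) (t := r) (u := r'') hjl hr0'
        (hpow j l r' hjl hr0') hij hil m1 m3 n1 n3.symm n2 h
        (hT.der j l r' hjl hr0')
        (fun d hda hdb => by
          rw [hT.val j l d r' hjl hr0' hda hdb]
          congr 1
          apply propext
          constructor
          · rintro ⟨-, h1⟩
            rcases h1 with h1 | h1 | h1
            · exact h1
            · exact absurd h1 hda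
            · exact absurd h1 hdb
          · rintro rfl
            exact ⟨Or.inr (Or.inl rfl), Or.inl rfl⟩)
        (fun s' hs' hne => by
          rw [hT.dif r' m2 s' hs' hne.symm]
          congr 1
          apply propext
          constructor
          · rintro ⟨-, h1⟩
            rcases h1 with h1 | h1 | h1
            · exact Or.inl h1
            · exact absurd h1 hne
            · exact Or.inr h1
          · rintro (rfl | rfl)
            · exact ⟨Or.inr (Or.inl rfl), Or.inl rfl⟩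
            · exact ⟨Or.inr (Or.inl rfl), Or.inr (Or.inr rfl)⟩)
      have R3 := rel_h96 α hα W ν hν e κ c hκ hκK hc (d := j) (t := r) (u := r') hil hr0''
        (hpow i l r'' hil hr0'') hij.symm hjl m1 m2 n2 n3 n1 h
        (hT.der i l r'' hil hr0'')
        (fun d hda hdb => by
          rw [hT.val i l d r'' hil hr0'' hda hdb]
          congr 1
          apply propext
          constructor
          · rintro ⟨-, h1⟩
            rcases h1 with h1 | h1 | h1
            · exact absurd h1 hda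
            · exact h1
            · exact absurd h1 hdb
          · rintro rfl
            exact ⟨Or.inr (Or.inr rfl), Or.inr (Or.inl rfl)⟩)
        (fun s' hs' hne => by
          rw [hT.dif r'' m3 s' hs' hne.symm]
          congr 1
          apply propext
          constructor
          · rintro ⟨-, h1⟩
            rcases h1 with h1 | h1 | h1
            · exact Or.inl h1
            · exact Or.inr h1
            · exact absurd h1 hne
          · rintro (rfl | rfl)
            · exact ⟨Or.inr (Or.inr rfl), Or.inl rfl⟩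
            · exact ⟨Or.inr (Or.inr rfl), Or.inr (Or.inl rfl)⟩)
      have wi := hw i
      have wj := hw j
      have wl := hw l
      have z1 := e0 j l i r' hjl hr0' hij hil
      have z2 := e0 i l j r'' hil hr0'' hij.symm hjl
      have z3 := e0 i j l r hij hr0 hil.symm hjl.symm
      have y1 := e1 i j r hij hr0
      have y2 := e1 j l r' hjl hr0'
      have y3 := e1 i l r'' hil hr0''
      obtain ⟨X1, hX1⟩ : ∃ X, (e i r : ZMod ℓ) = W j * X :=
        ⟨(e i r : ZMod ℓ) / W j, (mul_div_cancel₀ _ wj).symm⟩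
      obtain ⟨X2, hX2⟩ : ∃ X, (e j r' : ZMod ℓ) = W l * X :=
        ⟨(e j r' : ZMod ℓ) / W l, (mul_div_cancel₀ _ wl).symm⟩
      obtain ⟨X3, hX3⟩ : ∃ X, (e i r'' : ZMod ℓ) = W l * X :=
        ⟨(e i r'' : ZMod ℓ) / W l, (mul_div_cancel₀ _ wl).symm⟩
      have hY1 : (e j r : ZMod ℓ) = -(W i * X1) := by
        apply mul_left_cancel₀ wj
        rw [hX1] at y1
        linear_combination y1
      have hY2 : (e l r' : ZMod ℓ) = -(W j * X2) := by
        apply mul_left_cancel₀ wl
        rw [hX2] at y2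
        linear_combination y2
      have hY3 : (e l r'' : ZMod ℓ) = -(W i * X3) := by
        apply mul_left_cancel₀ wl
        rw [hX3] at y3
        linear_combination y3
      rw [hX1, z1, hX2, hX3, z2] at R1
      rw [hX2, hY1, z3, z2, hY3] at R2
      rw [hX3, hX1, z3, z1, hY2] at R3
      have d1 : (e i r : ZMod ℓ) / W j = X1 := by rw [hX1, mul_div_cancel_left₀ _ wj]
      have d2 : (e j r' : ZMod ℓ) / W l = X2 := by rw [hX2, mul_div_cancel_left₀ _ wl]
      have d3 : (e i r'' : ZMod ℓ) / W l = X3 := by rw [hX3, mul_div_cancel_left₀ _ wl]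
      refine ⟨ν κ, h, fun a => ν (c a), hh, ?_, ?_, ?_, ?_⟩
      · show ν κ * ((e i r : ZMod ℓ) / W j) + ν (c i) - ν (c j) =
          (W l : ZMod ℓ) * h * ((e i r : ZMod ℓ) / W j + (e j r' : ZMod ℓ) / W l -
            (e i r'' : ZMod ℓ) / W l)
        rw [d1, d2, d3]
        apply mul_left_cancel₀ wj
        linear_combination R1
      · show ν κ * ((e j r' : ZMod ℓ) / W l) + ν (c j) - ν (c l) =
          (W i : ZMod ℓ) * h * ((e i r : ZMod ℓ) / W j + (e j r' : ZMod ℓ) / W l -
            (e i r'' : ZMod ℓ) / W l)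
        rw [d1, d2, d3]
        apply mul_left_cancel₀ wl
        linear_combination R2
      · show ν κ * ((e i r'' : ZMod ℓ) / W l) + ν (c i) - ν (c l) =
          -((W j : ZMod ℓ) * h * ((e i r : ZMod ℓ) / W j + (e j r' : ZMod ℓ) / W l -
            (e i r'' : ZMod ℓ) / W l))
        rw [d1, d2, d3]
        apply mul_left_cancel₀ wl
        linear_combination R3
      · intro a b s hab hs h1 h2 h3
        have hs0 : aeval s (α a) = aeval s (α b) := hs
        have hns : s ∉ ({r, r', r''} : Set F) := by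
          rintro (h4 | h4 | h4)
          · exact h1 h4
          · exact h2 h4
          · exact h3 h4
        have R4 := rel0_h96 α hα W ν hν e κ c hκ hκK hc hab hs0 (hpow a b s hab hs0)
          (hT.der a b s hab hs0)
          (fun d hda hdb => by
            rw [hT.val a b d s hab hs0 hda hdb, if_neg (fun h5 => hns h5.1)])
          (fun s' hs' hne => by
            rw [hT.dif s (hnode hab hs0) s' hs' hne.symm, if_neg (fun h5 => hns h5.1)])
        have wb := hw b
        show ν κ * ((e a s : ZMod ℓ) / W b) + ν (c a) - ν (c b) = 0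
        field_simp
        linear_combination R4)
  refine ⟨fun i => ((b i).val : ℤ), fun i j s hij hs => ?_⟩
  have h1 := hb i j s hij hs
  rw [← ZMod.intCast_zmod_eq_zero_iff_dvd]
  have h2 : ∀ a : ι, (((b a).val : ℤ) : ZMod ℓ) = b a := by
    intro a
    rw [Int.cast_natCast, ZMod.natCast_zmod_val]
  push_cast
  have h3 : ∀ a : ι, (((b a).val : ℕ) : ZMod ℓ) = b a := fun a => ZMod.natCast_zmod_val _
  rw [h3, h3]
  have h4 : (e i s : ZMod ℓ) / W j = b j - b i := h1
  have h5 : (e i s : ZMod ℓ) = W j * (b j - b i) := by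
    rw [← h4]
    have := hw j
    field_simp
  rw [h5, sub_self]

end Pool.Agent.Lib.MP_89bcae_ag

end

section

/-!
# The generic condition of type K
-/

open Polynomial

open scoped Classical

namespace Pool.Agent.Lib.MP_89bcae_ag

section

variable {ι : Type} {n : ℕ} {K : Type}

/-- Exactly one root of `α_a - α_b` at infinity: the conditions over a field. -/
structure GenK [CommRing K] (a b : ι) (u : ι × Fin (n + 1) → K) : Prop where
  lead : ∀ c d, c ≠ d → ({c, d} : Set ι) ≠ {a, b} → u (c, Fin.last n) ≠ u (d, Fin.last n)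
  eq : u (a, Fin.last n) = u (b, Fin.last n)
  deg : (gdif u a b).natDegree + 1 = n
  sep : ∀ c d, c ≠ d → (gdif u c d).Separable
  cop : ∀ a' b' c d, a' ≠ b' → c ≠ d → ({a', b'} : Set ι) ≠ {c, d} →
    IsCoprime (gdif u a' b') (gdif u c d)

/-- The coefficient of degree `n` of `α_b` is replaced by that of `α_a`. -/
noncomputable def colK (a b : ι) : ι × Fin (n + 1) → ι × Fin (n + 1) :=
  fun c => if c = (b, Fin.last n) then (a, Fin.last n) else c

lemma colK_last_h45 (a b : ι) : colK a b (b, Fin.last n) = (a, Fin.last n) := by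
  unfold colK
  rw [if_pos rfl]

lemma colK_of_ne_h45 (a b : ι) {c : ι × Fin (n + 1)} (hc : c ≠ (b, Fin.last n)) :
    colK a b c = c := by
  unfold colK
  rw [if_neg hc]

lemma colK_left_h45 {a b : ι} (hab : a ≠ b) (j : Fin (n + 1)) : colK a b (a, j) = (a, j) :=
  colK_of_ne_h45 a b fun h => hab (congrArg Prod.fst h)


/-- The points with equal coordinates at `(a, n)` and `(b, n)` are fixed. -/
lemma comp_colK_h45 {a b : ι} (u : ι × Fin (n + 1) → K)
    (h : u (a, Fin.last n) = u (b, Fin.last n)) : u ∘ colK a b = u := by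
  funext c
  rw [Function.comp_apply]
  by_cases hc : c = (b, Fin.last n)
  · rw [hc, colK_last_h45, h]
  · rw [colK_of_ne_h45 a b hc]

/-- The pairs: if `{c, d} ≠ {a, b}` then the indices `c`, `d` remain different when `b` is
replaced by `a`. -/
lemma pair_ne_h45 {a b c d : ι} (hcd : c ≠ d) (h : ({c, d} : Set ι) ≠ {a, b}) :
    (if c = b then a else c) ≠ (if d = b then a else d) := by
  by_cases h1 : c = b
  · rw [if_pos h1]
    have h2 : d ≠ b := fun h3 => hcd (h1.trans h3.symm)
    rw [if_neg h2]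
    intro h3
    apply h
    rw [h1, ← h3, Set.pair_comm]
  · rw [if_neg h1]
    by_cases h2 : d = b
    · rw [if_pos h2]
      intro h3
      apply h
      rw [h2, h3]
    · rw [if_neg h2]
      exact hcd

/-- The family `α_a = X ^ (n - 1) + 1`, the other polynomials being zero. -/
noncomputable def ptk_h45 (a : ι) : ι × Fin (n + 1) → ℚ :=
  fun y => if y.1 = a then (if (y.2 : ℕ) + 1 = n then 1 else 0) + (if (y.2 : ℕ) = 0 then 1 else 0)
    else 0

lemma gdif_ptk_h45 (hn : 2 ≤ n) {a b : ι} (hab : a ≠ b) :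
    gdif (ptk_h45 a : ι × Fin (n + 1) → ℚ) a b = C 1 * X ^ (n - 1) + C 1 := by
  have h1 : gpol (ptk_h45 a : ι × Fin (n + 1) → ℚ) a = C 1 * X ^ (n - 1) + C 1 := by
    apply gpol_eq_of_coeff_h13
    · refine (natDegree_add_le _ _).trans (max_le ((natDegree_C_mul_X_pow_le _ _).trans ?_) ?_)
      · omega
      · rw [natDegree_C]
        omega
    · intro j
      rw [coeff_add, coeff_C_mul_X_pow, coeff_C]
      unfold ptk_h45
      simp only
      rw [if_pos trivial]
      congr 1
      by_cases h : (j : ℕ) = n - 1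
      · rw [if_pos h, if_pos (by omega)]
      · rw [if_neg h, if_neg (by omega)]
  have h2 : gpol (ptk_h45 a : ι × Fin (n + 1) → ℚ) b = 0 := by
    apply gpol_eq_of_coeff_h13
    · rw [natDegree_zero]
      exact Nat.zero_le _
    · intro j
      unfold ptk_h45
      rw [if_neg (fun h => hab h.symm), coeff_zero]
  rw [gdif, h1, h2, sub_zero]

lemma genF_colK_natDegree_h45 {a b : ι} (hab : a ≠ b) :
    (genF_h13 (n := n) (colK a b) a b).natDegree ≤ n - 1 := by
  rw [natDegree_le_iff_coeff_eq_zero]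
  intro N hN
  by_cases h : N = n
  · subst h
    have h := gdif_coeff_last_h13 (fun x : ι × Fin (N + 1) => MvPolynomial.X (R := ℤ) (colK a b x)) a b
    rw [colK_left_h45 hab, colK_last_h45, sub_self] at h
    exact h
  · exact coeff_eq_zero_of_natDegree_lt
      (lt_of_le_of_lt (genF_natDegree_h13 (n := n) (colK a b) a b) (by omega))

/-- The generic condition. By `IsGeneric.all`, `IsGeneric.and`. (lead) `X_(c',n) - X_(d',n)`, `c'`, `d'`
the indices after the replacement of `b` by `a`. (deg) and (sep) for `{a, b}`: the polynomial has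
formal degree `n - 1`; the point `α_a = X ^ (n - 1) + 1`. (sep) for `{c, d} ≠ {a, b}`: the point
`α_y = λ_y X ^ n` and `α_c = λ_c X ^ n + 1` with `λ_a = λ_b`. (cop) by symmetry
`{a', b'} ≠ {a, b}`; there is `x ∈ {c, d}` not in `{a', b'}`: the point `α_x = λ_x X ^ n + 1`,
`α_y = λ_y X ^ n` for `y ≠ x`: `A X ^ n` and `A' X ^ n ± 1` are coprime. -/
theorem isGeneric_genK [Fintype ι] (hn : 2 ≤ n) {a b : ι} (hab : a ≠ b) :
    IsGeneric (fun (K : Type) [Field K] (u : ι × Fin (n + 1) → K) =>
      GenK a b (u ∘ colK a b)) := by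
  obtain ⟨lam₀, hlam₀⟩ : ∃ lam : ι → ℚ, Function.Injective lam :=
    ⟨fun i => ((Fintype.equivFin ι i : ℕ) : ℚ), fun i j h => by
      have h0 : ((Fintype.equivFin ι i : ℕ) : ℚ) = ((Fintype.equivFin ι j : ℕ) : ℚ) := h
      have h1 : (Fintype.equivFin ι i : ℕ) = (Fintype.equivFin ι j : ℕ) := by exact_mod_cast h0
      exact (Fintype.equivFin ι).injective (Fin.ext h1)⟩
  obtain ⟨lam, hlamab, hlam⟩ : ∃ lam : ι → ℚ, lam a = lam b ∧ ∀ c d, c ≠ d →
      ({c, d} : Set ι) ≠ {a, b} → lam c - lam d ≠ 0 := by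
    refine ⟨fun i => lam₀ (if i = b then a else i), ?_, ?_⟩
    · beta_reduce
      rw [if_neg hab, if_pos rfl]
    · intro c d hcd h h0
      exact pair_ne_h45 hcd h (hlam₀ (sub_eq_zero.1 h0))
  -- the points
  have hpt : ∀ x : ι, (ptx_h13 lam x : ι × Fin (n + 1) → ℚ) ∘ colK a b = ptx_h13 lam x := by
    intro x
    apply comp_colK_h45
    unfold ptx_h13
    rw [if_pos rfl, if_pos rfl]
    exact hlamab
  -- the leading coefficients
  have G1 : IsGeneric (fun (K : Type) [Field K] (u : ι × Fin (n + 1) → K) =>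
      ∀ t : ι × ι, (t.1 ≠ t.2 ∧ ({t.1, t.2} : Set ι) ≠ {a, b}) →
        (u ∘ colK a b) (t.1, Fin.last n) ≠ (u ∘ colK a b) (t.2, Fin.last n)) := by
    apply IsGeneric.all
    intro t
    apply isGeneric_imp_h13
    rintro ⟨ht, ht'⟩
    have h := isGeneric_ne (κ := ι × Fin (n + 1))
      (MvPolynomial.X (colK a b (t.1, Fin.last n)) - MvPolynomial.X (colK a b (t.2, Fin.last n)))
      ⟨ptx_h13 lam a, by
        rw [map_sub, MvPolynomial.aeval_X, MvPolynomial.aeval_X]
        have h1 := congrFun (hpt a) (t.1, Fin.last n)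
        have h2 := congrFun (hpt a) (t.2, Fin.last n)
        rw [Function.comp_apply] at h1 h2
        rw [h1, h2]
        unfold ptx_h13
        rw [if_pos rfl, if_pos rfl]
        exact hlam _ _ ht ht'⟩
    refine h.mono fun K _ u hu => ?_
    rw [map_sub, MvPolynomial.aeval_X, MvPolynomial.aeval_X] at hu
    exact sub_ne_zero.1 hu
  -- the value of the leading coefficient at the points
  have hlead : ∀ x c d : ι, c ≠ d → ({c, d} : Set ι) ≠ {a, b} →
      (spec (ptx_h13 lam x) (genF_h13 (n := n) (colK a b) c d)).coeff n ≠ 0 := by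
    intro x c d hcd h
    rw [spec_genF_h13, hpt, gdif_ptx_h13 hn, coeff_add, coeff_C_mul_X_pow,
      if_pos rfl, coeff_C, if_neg (by omega), add_zero]
    exact hlam c d hcd h
  -- separability
  have G2 : IsGeneric (fun (K : Type) [Field K] (u : ι × Fin (n + 1) → K) =>
      ∀ t : ι × ι, (t.1 ≠ t.2 ∧ ({t.1, t.2} : Set ι) ≠ {a, b}) →
        (gdif (u ∘ colK a b) t.1 t.2).Separable) := by
    apply IsGeneric.all
    rintro ⟨c, d⟩
    apply isGeneric_imp_h13
    rintro ⟨hcd, hcd'⟩
    simp only at hcd hcd' ⊢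
    have h := isGeneric_separable (genF_h13 (n := n) (colK a b) c d) n (genF_natDegree_h13 _ _ _)
      (ptx_h13 lam c) (hlead c c d hcd hcd') (by
        rw [spec_genF_h13, hpt, gdif_ptx_h13 hn, if_pos rfl, if_neg hcd.symm, sub_zero]
        exact separable_bin_h13 n (hlam c d hcd hcd') one_ne_zero (fun h => absurd h (by omega)))
    refine h.mono fun K _ u hu => ?_
    have := hu.2
    rwa [spec_genF_h13] at this
  -- the pair `a`, `b`
  have G3 : IsGeneric (fun (K : Type) [Field K] (u : ι × Fin (n + 1) → K) =>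
      (gdif (u ∘ colK a b) a b).coeff (n - 1) ≠ 0 ∧ (gdif (u ∘ colK a b) a b).Separable) := by
    have hp : (ptk_h45 a : ι × Fin (n + 1) → ℚ) ∘ colK a b = ptk_h45 a := by
      apply comp_colK_h45
      unfold ptk_h45
      simp only [Fin.val_last]
      rw [if_neg (show b ≠ a from fun h => hab h.symm), if_pos trivial, if_neg (by omega),
        if_neg (by omega), add_zero]
    have h := isGeneric_separable (genF_h13 (n := n) (colK a b) a b) (n - 1)
      (genF_colK_natDegree_h45 hab) (ptk_h45 a) (by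
        rw [spec_genF_h13, hp, gdif_ptk_h45 hn hab, coeff_add, coeff_C_mul_X_pow, if_pos rfl,
          coeff_C, if_neg (by omega), add_zero]
        exact one_ne_zero) (by
        rw [spec_genF_h13, hp, gdif_ptk_h45 hn hab]
        exact separable_bin_h13 _ one_ne_zero one_ne_zero (fun h => absurd h (by omega)))
    refine h.mono fun K _ u hu => ?_
    rwa [spec_genF_h13] at hu
  -- coprimality
  have G4 : IsGeneric (fun (K : Type) [Field K] (u : ι × Fin (n + 1) → K) =>
      ∀ t : (ι × ι) × (ι × ι), (t.1.1 ≠ t.1.2 ∧ t.2.1 ≠ t.2.2 ∧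
        ({t.1.1, t.1.2} : Set ι) ≠ {t.2.1, t.2.2} ∧ ({t.1.1, t.1.2} : Set ι) ≠ {a, b}) →
        IsCoprime (gdif (u ∘ colK a b) t.1.1 t.1.2) (gdif (u ∘ colK a b) t.2.1 t.2.2)) := by
    apply IsGeneric.all
    rintro ⟨⟨a', b'⟩, ⟨c, d⟩⟩
    apply isGeneric_imp_h13
    rintro ⟨hab', hcd, hne, hne'⟩
    simp only at hab' hcd hne hne' ⊢
    -- an index of the second pair which is not in the first one
    obtain ⟨x, hx, hxa, hxb⟩ : ∃ x, (x = c ∨ x = d) ∧ x ≠ a' ∧ x ≠ b' := by
      by_contra hcon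
      push Not at hcon
      apply hne
      have h1 := hcon c (Or.inl rfl)
      have h2 := hcon d (Or.inr rfl)
      by_cases hca : c = a'
      · have hda : d ≠ a' := fun h3 => hcd (hca.trans h3.symm)
        rw [hca, h2 hda]
      · have hcb := h1 hca
        by_cases hda : d = a'
        · rw [hcb, hda, Set.pair_comm]
        · exact absurd (hcb.trans (h2 hda).symm) hcd
    have h := isGeneric_isCoprime (genF_h13 (n := n) (colK a b) a' b')
      (genF_h13 (n := n) (colK a b) c d) n n (genF_natDegree_h13 _ _ _) (genF_natDegree_h13 _ _ _)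
      (ptx_h13 lam x) (hlead x a' b' hab' hne') (by
        rw [spec_genF_h13, spec_genF_h13, hpt, gdif_ptx_h13 hn, gdif_ptx_h13 hn]
        apply isCoprime_bin_h13
        rw [if_neg hxa.symm, if_neg hxb.symm, sub_self, mul_zero, sub_zero]
        refine mul_ne_zero (hlam a' b' hab' hne') ?_
        rcases hx with h2 | h2
        · have h3 : d ≠ x := fun h => hcd (h2.symm.trans h.symm)
          rw [if_pos h2.symm, if_neg h3]
          norm_num
        · have h3 : c ≠ x := fun h => hcd (h.trans h2)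
          rw [if_neg h3, if_pos h2.symm]
          norm_num)
    refine h.mono fun K _ u hu => ?_
    have := hu.2
    rwa [spec_genF_h13, spec_genF_h13] at this
  refine (((G1.and G2).and G3).and G4).mono fun K _ u hu => ?_
  obtain ⟨⟨⟨h1, h2⟩, h3, h4⟩, h5⟩ := hu
  have hlast : (u ∘ colK a b) (a, Fin.last n) = (u ∘ colK a b) (b, Fin.last n) := by
    rw [Function.comp_apply, Function.comp_apply, colK_left_h45 hab, colK_last_h45]
  have hsym : ∀ (w : ι × Fin (n + 1) → K) (c d : ι), (gdif w c d).Separable →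
      (gdif w d c).Separable := by
    intro w c d h
    have h6 : gdif w d c = C (-1) * gdif w c d := by
      rw [gdif_swap w c d]
      simp
    rw [h6]
    exact Separable.unit_mul (isUnit_C.2 (by simp)) h
  refine ⟨fun c d hcd hcd' => h1 (c, d) ⟨hcd, hcd'⟩, hlast, ?_, ?_, ?_⟩
  · have h6 : (gdif (u ∘ colK a b) a b).natDegree ≤ n - 1 := by
      rw [natDegree_le_iff_coeff_eq_zero]
      intro N hN
      by_cases h : N = n
      · subst h
        rw [gdif_coeff_last_h13, hlast, sub_self]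
      · exact coeff_eq_zero_of_natDegree_lt (lt_of_le_of_lt (gdif_natDegree_le _ _ _) (by omega))
    have h7 := le_natDegree_of_ne_zero h3
    omega
  · intro c d hcd
    by_cases hcd' : ({c, d} : Set ι) = {a, b}
    · rcases Set.pair_eq_pair_iff.1 hcd' with ⟨rfl, rfl⟩ | ⟨rfl, rfl⟩
      · exact h4
      · exact hsym _ _ _ h4
    · exact h2 (c, d) ⟨hcd, hcd'⟩
  · intro a' b' c d hab' hcd hne
    by_cases h6 : ({a', b'} : Set ι) = {a, b}
    · refine (h5 ((c, d), (a', b')) ⟨hcd, hab', hne.symm, fun h7 => hne (h6.trans h7.symm)⟩).symm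
    · exact h5 ((a', b'), (c, d)) ⟨hab', hcd, hne, h6⟩

end

end Pool.Agent.Lib.MP_89bcae_ag

end

section

/-!
# Counting the polynomials of types A and B modulo a prime
-/

open Polynomial

namespace Pool.Agent.Lib.MP_89bcae_ag

set_option linter.unusedSectionVars false
set_option linter.style.haveILetI false
set_option linter.unusedVariables false


section Coeff

variable {k : Type} [Field k] [Fintype k]

/-- The coefficient vector. -/
def coeffs14 (n : ℕ) (f : k[X]) : Fin (n + 1) → k := fun i => f.coeff i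

omit [Fintype k] in
lemma coeffs_inj14 {n : ℕ} {f f' : k[X]} (hf : f.natDegree ≤ n) (hf' : f'.natDegree ≤ n)
    (h : coeffs14 n f = coeffs14 n f') : f = f' := by
  ext i
  by_cases hi : i < n + 1
  · exact congrFun h ⟨i, hi⟩
  · rw [coeff_eq_zero_of_natDegree_lt (by omega), coeff_eq_zero_of_natDegree_lt (by omega)]

lemma ncard_ne_zero14 : ({u : k | u ≠ 0}).ncard = Fintype.card k - 1 := by
  classical
  have h1 : {u : k | u ≠ 0} = ((Finset.univ.erase (0 : k) : Finset k) : Set k) := by
    ext u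
    simp
  rw [h1, Set.ncard_coe_finset, Finset.card_erase_of_mem (Finset.mem_univ _), Finset.card_univ]

/-- The number of the polynomials of type A. -/
lemma count_A14 (g : k[X]) (n : ℕ) :
    (Fintype.card k - 1) * (family g n).ncard ≤
      ({v : Fin (n + 1) → k | ∃ f : k[X], coeffs14 n f = v ∧ f.natDegree = n ∧
        Irreducible (f.comp g)}).ncard := by
  rw [← ncard_ne_zero14, ← Set.ncard_prod]
  apply Set.ncard_le_ncard_of_injOn (fun x : k × k[X] => coeffs14 n (C x.1 * x.2))
  · rintro ⟨u, D⟩ ⟨hu, h1, h2, h3⟩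
    refine ⟨_, rfl, ?_, ?_⟩
    · rw [natDegree_C_mul hu, h2]
    · rw [mul_comp, C_comp]
      have hu' : IsUnit (C u : k[X]) := isUnit_C.mpr (isUnit_iff_ne_zero.mpr hu)
      rw [irreducible_isUnit_mul hu']
      exact h3
  · rintro ⟨u, D⟩ ⟨hu, h1, h2, h3⟩ ⟨u', D'⟩ ⟨hu', h1', h2', h3'⟩ h
    simp only at hu hu' h1 h2 h3 h1' h2' h3' h
    have h4 := coeffs_inj14 (by rw [natDegree_C_mul hu, h2]) (by rw [natDegree_C_mul hu', h2']) h
    have h5 := congrArg leadingCoeff h4
    rw [leadingCoeff_mul, leadingCoeff_C, h1.leadingCoeff, mul_one, leadingCoeff_mul,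
      leadingCoeff_C, h1'.leadingCoeff, mul_one] at h5
    subst h5
    rw [Prod.mk.injEq]
    exact ⟨rfl, mul_left_cancel₀ (C_ne_zero.mpr hu) h4⟩


end Coeff

end Pool.Agent.Lib.MP_89bcae_ag

end

section

/-!
# A transposition from a prime of type D

`F` is an algebraic closure of `ℚ`. Let `P` be the place of `exists_place` with `S` the set of the
nodes (finite, stable; `Roots.lean`). All `α_c - α_d` are separable over `ℚ` (`separable_of_gred`, `hsep`);
let `R` be the set of the roots of `f = gdif v a b` (`exists_roots`).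
(a) All nodes are in `P.O` (`Place.root_mem`). For `{c, d} ≠ {a, b}` the roots of `α_c - α_d` have
different reductions (`sep`).
(b) The reduction of `f` is `lc ∏_{s ∈ R} (X - red s) = (X - z) ^ 2 g` with `g(z) ≠ 0` and `g` separable:
exactly two elements `u ≠ w` of `R` reduce to `z`, and the other ones have different reductions,
different from `z`.
(c) By `Place.ord_aeval`, `P.e = P.ord (f(z)) = ∑_{s ∈ R} P.ord (z - s) ≥ P.ord (z - u) + P.ord (z - w) ≥ 2`
(`p` divides `f(z)` exactly once; in particular `z ∉ R`). Let `σ` be as in `exists_place`: it maps a node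
to a node (of the same pair) with the same reduction, hence it fixes all the roots of `α_c - α_d` for
`{c, d} ≠ {a, b}` and all the elements of `R` except `u`, `w`, and it permutes `u` and `w`; since it moves
some node, `σ(u) = w` and `σ(w) = u`.
-/

open Polynomial

open scoped Classical

namespace Pool.Agent.Lib.MP_89bcae_ag

open Superelliptic

variable {ι : Type} [Fintype ι] {n : ℕ} {F : Type} [Field F] [Algebra ℚ F] [IsAlgClosure ℚ F]

/-- the reduction, extended by zero -/
noncomputable def swRd_h70 {p : ℕ} {K₀ : Subfield F} (P : Place p K₀) (s : F) : P.κ :=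
  if hs : s ∈ P.O then P.red ⟨s, hs⟩ else 0

omit [Algebra ℚ F] [IsAlgClosure ℚ F] in
lemma swRd_eq_h70 {p : ℕ} {K₀ : Subfield F} (P : Place p K₀) {s : F} (hs : s ∈ P.O) :
    swRd_h70 P s = P.red ⟨s, hs⟩ := by
  unfold swRd_h70
  rw [dif_pos hs]

/-- the reduction of a product of linear factors -/
lemma swRed_h70 {p : ℕ} (hp : p.Prime) {K₀ : Subfield F} (P : Place p K₀) (f : ℤ[X])
    (R : Finset F) (hRO : ∀ s ∈ R, s ∈ P.O)
    (hfR : f.map (algebraMap ℤ F) = C (algebraMap ℤ F f.leadingCoeff) * ∏ s ∈ R, (X - C s)) :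
    ∃ c : P.κ, (f.map (Int.castRingHom (ZMod p))).map (P.redp hp) =
      C c * ∏ s ∈ R, (X - C (swRd_h70 P s)) := by
  have h1 : f.map (Int.castRingHom P.O) =
      C (Int.castRingHom P.O f.leadingCoeff) *
        ∏ s ∈ R.attach, (X - C (⟨s.1, hRO s.1 s.2⟩ : P.O)) := by
    apply Polynomial.map_injective P.O.subtype Subtype.val_injective
    rw [Polynomial.map_map, Polynomial.map_mul, Polynomial.map_prod, map_C]
    have e1 : P.O.subtype.comp (Int.castRingHom P.O) = algebraMap ℤ F := RingHom.ext_int _ _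
    rw [e1, hfR]
    have e2 : P.O.subtype ((Int.castRingHom P.O) f.leadingCoeff) =
        algebraMap ℤ F f.leadingCoeff := by
      rw [← e1]
      rfl
    rw [e2, ← Finset.prod_attach]
    congr 1
    refine Finset.prod_congr rfl fun s _ => ?_
    rw [Polynomial.map_sub, map_X, map_C]
    rfl
  refine ⟨P.red (Int.castRingHom P.O f.leadingCoeff), ?_⟩
  have h2 := congrArg (Polynomial.map P.red) h1
  rw [Polynomial.map_map, Polynomial.map_mul, Polynomial.map_prod, map_C] at h2
  have e1 : P.red.comp (Int.castRingHom P.O) =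
      (P.redp hp).comp (Int.castRingHom (ZMod p)) := RingHom.ext_int _ _
  rw [e1] at h2
  rw [Polynomial.map_map, h2]
  congr 1
  rw [← Finset.prod_attach R (fun s => X - C (swRd_h70 P s))]
  refine Finset.prod_congr rfl fun s _ => ?_
  rw [Polynomial.map_sub, map_X, map_C, swRd_eq_h70 P (hRO s.1 s.2)]

/-- counting in the fibres of a map -/
lemma swCount_h70 {A B : Type} (R : Finset A) (r : A → B) (t : B) :
    (R.filter (fun s => t = r s)).card = (R.val.map r).count t := by
  rw [Multiset.count_map]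
  rfl

theorem exists_swap_typeD (v : ι × Fin (n + 1) → ℤ) {p : ℕ} (hp : p.Prime) {a b : ι}
    (hab : a ≠ b) (h : TypeD p a b v) (hsep : (gpolQ v a - gpolQ v b).Separable) :
    ∃ (σ : F ≃ₐ[ℚ] F) (u w : F), u ≠ w ∧ aeval u (gpolQ v a) = aeval u (gpolQ v b) ∧
      aeval w (gpolQ v a) = aeval w (gpolQ v b) ∧ σ u = w ∧ σ w = u ∧
      ∀ s ∈ nodes ℚ F (gpolQ v), s ≠ u → s ≠ w → σ s = s := by
  have : Fact p.Prime := ⟨hp⟩
  have hlead : ∀ c d, c ≠ d → v (c, Fin.last n) ≠ v (d, Fin.last n) := by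
    intro c d hcd he
    apply h.lead c d hcd
    rw [he, sub_self]
    exact dvd_zero _
  have hlc : ∀ c d, c ≠ d → ¬ (p : ℤ) ∣ (gdif v c d).leadingCoeff := by
    intro c d hcd
    rw [gdif_leadingCoeff (hlead c d hcd)]
    exact h.lead c d hcd
  have hne : ∀ c d, c ≠ d → gpolQ v c ≠ gpolQ v d := by
    intro c d hcd he
    have h1 := gdif_map_rat v c d
    rw [he, sub_self] at h1
    have h2 : gdif v c d = 0 :=
      (Polynomial.map_eq_zero_iff (Int.castRingHom ℚ).injective_int).1 h1
    apply hlc c d hcd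
    rw [h2, leadingCoeff_zero]
    exact dvd_zero _
  obtain ⟨P, hP⟩ := exists_place (F := F) hp (nodes ℚ F (gpolQ v)) (nodes_gpolQ_finite hne)
    (nodes_stable (gpolQ v))
  have hzero : ∀ (c d : ι) (s : F), aeval s (gpolQ v c) = aeval s (gpolQ v d) →
      aeval s (gdif v c d) = 0 := by
    intro c d s hs
    rw [aeval_gdif, hs, sub_self]
  have hSK : ∀ s ∈ nodes ℚ F (gpolQ v),
      s ∈ (IntermediateField.adjoin ℚ (nodes ℚ F (gpolQ v))).toSubfield := fun s hs =>
    IntermediateField.subset_adjoin ℚ _ hs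
  have hSO : ∀ s ∈ nodes ℚ F (gpolQ v), s ∈ P.O := by
    intro s hs
    obtain ⟨c, d, hcd, hs2⟩ := id hs
    exact P.root_mem hp (hlc c d hcd) (hSK s hs) (hzero c d s hs2)
  obtain ⟨R, hR, hfR⟩ := exists_roots (F := F) hsep
  have hRS : ∀ s ∈ R, s ∈ nodes ℚ F (gpolQ v) := fun s hs => ⟨a, b, hab, (hR s).1 hs⟩
  have hRO : ∀ s ∈ R, s ∈ P.O := fun s hs => hSO s (hRS s hs)
  obtain ⟨z, hz1, hz2, g, hg, hgz, hgs⟩ := h.dbl
  obtain ⟨c, hc⟩ := swRed_h70 hp P (gdif v a b) R hRO hfR
  set zb : P.κ := P.redp hp (z : ZMod p) with hzb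
  set gb : P.κ[X] := g.map (P.redp hp) with hgb
  have hfb : (gred p v a b).map (P.redp hp) = (X - C zb) ^ 2 * gb := by
    rw [hg, Polynomial.map_mul, Polynomial.map_pow, Polynomial.map_sub, map_X, map_C]
  have hgbz : gb.eval zb ≠ 0 := by
    rw [hgb, hzb, eval_map, eval₂_at_apply]
    exact fun h0 => hgz ((map_eq_zero (P.redp hp)).1 h0)
  have hgb0 : gb ≠ 0 := by
    intro h0
    apply hgbz
    rw [h0, eval_zero]
  have hgbs : gb.Separable := hgs.map
  have hfb0 : (X - C zb) ^ 2 * gb ≠ 0 := mul_ne_zero (pow_ne_zero _ (X_sub_C_ne_zero _)) hgb0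
  have hprod : C c * ∏ s ∈ R, (X - C (swRd_h70 P s)) = (X - C zb) ^ 2 * gb := by
    rw [← hfb, ← hc]
    rfl
  have hc0 : c ≠ 0 := by
    intro h0
    rw [h0, C_0, zero_mul] at hprod
    exact hfb0 hprod.symm
  have hroots : R.val.map (swRd_h70 P) = 2 • {zb} + gb.roots := by
    have h1 := congrArg Polynomial.roots hprod
    rw [roots_C_mul _ hc0, roots_mul hfb0, roots_pow, roots_X_sub_C] at h1
    rw [← h1]
    have h2 := Polynomial.roots_multiset_prod_X_sub_C (R.val.map (swRd_h70 P))
    rw [Multiset.map_map] at h2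
    exact h2.symm
  have hcz : (R.filter (fun s => zb = swRd_h70 P s)).card = 2 := by
    rw [swCount_h70, hroots, Multiset.count_add, Multiset.count_nsmul, Multiset.count_singleton_self]
    have h1 : gb.roots.count zb = 0 := by
      rw [Multiset.count_eq_zero]
      intro h2
      exact hgbz ((mem_roots hgb0).1 h2)
    rw [h1]
  have hct : ∀ t, t ≠ zb → (R.filter (fun s => t = swRd_h70 P s)).card ≤ 1 := by
    intro t ht
    rw [swCount_h70, hroots, Multiset.count_add, Multiset.count_nsmul,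
      Multiset.count_singleton, if_neg ht, mul_zero, zero_add]
    exact Multiset.nodup_iff_count_le_one.1 (nodup_roots hgbs) t
  obtain ⟨u, w, huw, hfil⟩ := Finset.card_eq_two.1 hcz
  have hu : u ∈ R ∧ zb = swRd_h70 P u := by
    have : u ∈ R.filter (fun s => zb = swRd_h70 P s) := by rw [hfil]; simp
    exact Finset.mem_filter.1 this
  have hw : w ∈ R ∧ zb = swRd_h70 P w := by
    have : w ∈ R.filter (fun s => zb = swRd_h70 P s) := by rw [hfil]; simp
    exact Finset.mem_filter.1 this
  have huwR : ∀ s ∈ R, swRd_h70 P s = zb → s = u ∨ s = w := by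
    intro s hs hs2
    have : s ∈ R.filter (fun s => zb = swRd_h70 P s) := Finset.mem_filter.2 ⟨hs, hs2.symm⟩
    rw [hfil] at this
    simpa using this
  -- the ramification
  have hzO : ((z : ℤ) : F) ∈ P.O := P.int_mem z
  have hzrd : swRd_h70 P ((z : ℤ) : F) = zb := by
    rw [swRd_eq_h70 P hzO]
    have e1 : (⟨((z : ℤ) : F), hzO⟩ : P.O) = ((z : ℤ) : P.O) := Subtype.ext (by simp)
    rw [e1, map_intCast, hzb, map_intCast]
  have hfz0 : (gdif v a b).eval z ≠ 0 := by
    intro h0
    apply hz2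
    rw [h0]
    exact dvd_zero _
  have haev : aeval ((z : ℤ) : F) (gdif v a b) = (((gdif v a b).eval z : ℤ) : F) := by
    have e1 : ((z : ℤ) : F) = algebraMap ℤ F z := (eq_intCast (algebraMap ℤ F) z).symm
    rw [e1, aeval_algebraMap_apply, coe_aeval_eq_eval]
    exact eq_intCast (algebraMap ℤ F) _
  have : CharZero F := algebraRat.charZero F
  have hzR : ((z : ℤ) : F) ∉ R := by
    intro h0
    have h1 := hzero a b _ ((hR _).1 h0)
    rw [haev] at h1
    exact hfz0 (by exact_mod_cast h1)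
  have hzK : ((z : ℤ) : F) ∈ (IntermediateField.adjoin ℚ (nodes ℚ F (gpolQ v))).toSubfield :=
    intCast_mem _ z
  have hord := P.ord_aeval hp (hlc a b hab) R (fun s hs => hSK s (hRS s hs)) hfR hzK hzR
  rw [haev, P.rat _ hfz0] at hord
  have hval : padicValInt p ((gdif v a b).eval z) = 1 := by
    have h1 : 1 ≤ padicValInt p ((gdif v a b).eval z) := by
      have := (padicValInt_dvd_iff (p := p) 1 ((gdif v a b).eval z)).1 (by rwa [pow_one])
      exact this.resolve_left hfz0
    have h2 : ¬ 2 ≤ padicValInt p ((gdif v a b).eval z) := fun h3 =>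
      hz2 ((padicValInt_dvd_iff (p := p) 2 ((gdif v a b).eval z)).2 (Or.inr h3))
    omega
  have hnn : ∀ s ∈ R, 0 ≤ P.ord (((z : ℤ) : F) - s) := by
    intro s hs
    have h1 : ((z : ℤ) : F) - s ∈ P.O := P.O.sub_mem hzO (hRO s hs)
    rcases ((P.mem_O _).1 h1).2 with h2 | h2
    · exact absurd (sub_eq_zero.1 h2) (fun h3 => hzR (h3 ▸ hs))
    · exact h2
  have hpos : ∀ s ∈ R, swRd_h70 P s = zb → 0 < P.ord (((z : ℤ) : F) - s) := by
    intro s hs hs2
    refine P.ord_sub_pos hzO (hRO s hs) (fun h3 => hzR (h3 ▸ hs)) ?_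
    rw [← swRd_eq_h70 P hzO, ← swRd_eq_h70 P (hRO s hs), hzrd, hs2]
  have hsum : P.ord (((z : ℤ) : F) - u) + P.ord (((z : ℤ) : F) - w) ≤
      ∑ s ∈ R, P.ord (((z : ℤ) : F) - s) := by
    have e1 : P.ord (((z : ℤ) : F) - u) + P.ord (((z : ℤ) : F) - w) =
        ∑ s ∈ ({u, w} : Finset F), P.ord (((z : ℤ) : F) - s) :=
      (Finset.sum_pair (f := fun s => P.ord (((z : ℤ) : F) - s)) huw).symm
    rw [e1]
    refine Finset.sum_le_sum_of_subset_of_nonneg ?_ (fun s hs _ => hnn s hs)
    intro s hs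
    rcases Finset.mem_insert.1 hs with h1 | h1
    · rw [h1]; exact hu.1
    · rw [Finset.mem_singleton.1 h1]; exact hw.1
  have he : 2 ≤ P.e := by
    have h1 := hpos u hu.1 hu.2.symm
    have h2 := hpos w hw.1 hw.2.symm
    rw [hval] at hord
    have h3 : (2 : ℤ) ≤ P.e := by
      push_cast at hord
      linarith
    exact_mod_cast h3
  obtain ⟨σ, ⟨s₀, hs₀, hs₀ne⟩, hσ⟩ := hP he
  have hσrd : ∀ x ∈ P.O, swRd_h70 P (σ x) = swRd_h70 P x := by
    intro x hx
    obtain ⟨h1, h2⟩ := hσ x hx
    rw [swRd_eq_h70 P h1, swRd_eq_h70 P hx, h2]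
  have hσroot : ∀ (c d : ι) (s : F), aeval s (gpolQ v c) = aeval s (gpolQ v d) →
      aeval (σ s) (gpolQ v c) = aeval (σ s) (gpolQ v d) := by
    intro c d s hs
    have e1 : ∀ q : ℚ[X], aeval (σ s) q = σ (aeval s q) := fun q =>
      (Polynomial.aeval_algHom_apply (σ : F →ₐ[ℚ] F) s q)
    rw [e1, e1, hs]
  have hσR : ∀ s ∈ R, σ s ∈ R := fun s hs => (hR _).2 (hσroot a b s ((hR s).1 hs))
  -- `σ` fixes the other nodes
  have hfix : ∀ s ∈ nodes ℚ F (gpolQ v), s ≠ u → s ≠ w → σ s = s := by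
    intro s hs hsu hsw
    by_cases hsR : s ∈ R
    · have ht : swRd_h70 P s ≠ zb := by
        intro h1
        rcases huwR s hsR h1 with h2 | h2
        · exact hsu h2
        · exact hsw h2
      have h1 := hct _ ht
      rw [Finset.card_le_one] at h1
      exact h1 (σ s) (Finset.mem_filter.2 ⟨hσR s hsR, (hσrd s (hSO s hs)).symm⟩) s
        (Finset.mem_filter.2 ⟨hsR, rfl⟩)
    · obtain ⟨c, d, hcd, hs2⟩ := id hs
      have hset : ({c, d} : Set ι) ≠ {a, b} := by
        intro h1
        apply hsR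
        rw [hR]
        rcases Set.pair_eq_pair_iff.1 h1 with ⟨h2, h3⟩ | ⟨h2, h3⟩
        · rw [← h2, ← h3]; exact hs2
        · rw [← h2, ← h3]; exact hs2.symm
      by_contra hcon
      have hσO : σ s ∈ P.O := (hσ s (hSO s hs)).1
      have h2 := P.red_ne_of_separable hp (f := gdif v c d) (h.sep c d hcd hset) hσO (hSO s hs)
        (hzero c d _ (hσroot c d s hs2)) (hzero c d s hs2) hcon
      apply h2
      rw [← swRd_eq_h70 P hσO, ← swRd_eq_h70 P (hSO s hs)]
      exact hσrd s (hSO s hs)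
  have hσu : σ u = u ∨ σ u = w :=
    huwR _ (hσR u hu.1) (by rw [hσrd u (hRO u hu.1)]; exact hu.2.symm)
  have hσw : σ w = u ∨ σ w = w :=
    huwR _ (hσR w hw.1) (by rw [hσrd w (hRO w hw.1)]; exact hw.2.symm)
  have hσu' : σ u = w := by
    rcases hσu with h1 | h1
    · exfalso
      have h2 : σ w = w := by
        rcases hσw with h3 | h3
        · exact absurd (σ.injective (h1.trans h3.symm)) huw
        · exact h3
      apply hs₀ne
      by_cases h3 : s₀ = u
      · rw [h3, h1]
      · by_cases h4 : s₀ = w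
        · rw [h4, h2]
        · exact hfix s₀ hs₀ h3 h4
    · exact h1
  have hσw' : σ w = u := by
    rcases hσw with h1 | h1
    · exact h1
    · exact absurd (σ.injective (hσu'.trans h1.symm)) huw
  exact ⟨σ, u, w, huw, (hR u).1 hu.1, (hR w).1 hw.1, hσu', hσw', hfix⟩

end Pool.Agent.Lib.MP_89bcae_ag

end

section

/-!
# The values of a homomorphism of type `CopyV`, and the criterion
-/

open Polynomial

open scoped Classical

namespace Pool.Agent.Lib.MP_89bcae_ag

open Superelliptic

universe u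

variable {k F : Type u} [Field k] [Field F] [Algebra k F] {ι : Type} [Fintype ι] [LinearOrder ι]
  {n : ℕ}

omit [Fintype ι] [LinearOrder ι] in
/-- The factorisation. (`nd i j` gives `n` different roots and the degree is `n`.) -/
theorem Nodes.prod_eq {α : ι → k[X]} {nd : ι → ι → Fin n → F} (h : Nodes α nd) {i j : ι}
    (hij : i ≠ j) (hne : α i ≠ α j) :
    (α i - α j).map (algebraMap k F) =
      C (algebraMap k F (α i - α j).leadingCoeff) * ∏ a, (X - C (nd i j a)) := by
  have hf0 : (α i - α j).map (algebraMap k F) ≠ 0 := by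
    rw [Polynomial.map_ne_zero_iff (algebraMap k F).injective]
    exact sub_ne_zero.2 hne
  have hnd : ((Finset.univ : Finset (Fin n)).val.map (nd i j)).Nodup :=
    Finset.univ.nodup.map (h.inj i j hij)
  have hle : (Finset.univ : Finset (Fin n)).val.map (nd i j) ≤
      ((α i - α j).map (algebraMap k F)).roots := by
    rw [Multiset.le_iff_subset hnd]
    intro s hs
    obtain ⟨a, -, rfl⟩ := Multiset.mem_map.1 hs
    rw [mem_roots hf0, IsRoot, eval_map, ← aeval_def, map_sub, sub_eq_zero]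
    exact (h.mem i j hij _).2 ⟨a, rfl⟩
  have hcard : ((Finset.univ : Finset (Fin n)).val.map (nd i j)).card = n := by
    rw [Multiset.card_map]
    exact Finset.card_fin n
  have hdeg : ((α i - α j).map (algebraMap k F)).natDegree = n := by
    rw [natDegree_map]
    exact h.lead i j hij
  have heq : (Finset.univ : Finset (Fin n)).val.map (nd i j) =
      ((α i - α j).map (algebraMap k F)).roots := by
    refine Multiset.eq_of_le_of_card_le hle ?_
    rw [hcard, ← hdeg]
    exact card_roots' _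
  have h1 := C_leadingCoeff_mul_prod_multiset_X_sub_C
    (p := (α i - α j).map (algebraMap k F)) (by rw [← heq, hcard, hdeg])
  rw [← heq, Multiset.map_map, leadingCoeff_map] at h1
  exact h1.symm

/-- The leading coefficient is not zero (h45). -/
theorem lc_ne_zero_h45 {α : ι → k[X]} (hα : IsArrangement α) {i j : ι} (hij : i ≠ j) :
    algebraMap k F (α i - α j).leadingCoeff ≠ 0 := by
  rw [map_ne_zero_iff _ (algebraMap k F).injective, leadingCoeff_ne_zero]
  intro h0
  apply hα.natDegree_ne_zero i j hij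
  rw [h0, natDegree_zero]

/-- The value at `α_i(s) - α_l(s)`, `s = nd i j a`: it is
`ν(lc) + ∑_b ν(nd i j a - nd i l b) = B {i, l} + (B {i, j, l} - B {i, j} - B {i, l})`
(`Nodes.prod_eq` for `i, l`, evaluated at `s`; `IsVal.prod`, `IsVal.mul` in `K = ℚ(nodes)`, which contains
`k` and the nodes; the differences are not zero because `s` is not a root of `α_i - α_l`, `nodes_pair`). -/
theorem CopyV.val_eq {A : Type*} [AddCommGroup A] {ν : F → A} {α : ι → k[X]}
    {nd : ι → ι → Fin n → F} {B : Finset ι → A} (h : CopyV ν α nd B) (hN : Nodes α nd)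
    (hα : IsArrangement α)
    (hν : IsVal (IntermediateField.adjoin k (nodes k F α)).toSubfield ν) {i j l : ι} (hij : i ≠ j)
    (hjl : j ≠ l) (hil : i ≠ l) (a : Fin n) :
    ν (aeval (nd i j a) (α i) - aeval (nd i j a) (α l)) = B {i, j, l} - B {i, j} := by
  have hne : α i ≠ α l := by
    intro h0
    apply hα.natDegree_ne_zero i l hil
    rw [h0, sub_self, natDegree_zero]
  have hs := (hN.mem i j hij (nd i j a)).2 ⟨a, rfl⟩
  have hK : ∀ x ∈ nodes k F α, x ∈ (IntermediateField.adjoin k (nodes k F α)).toSubfield :=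
    fun x hx => IntermediateField.subset_adjoin k _ hx
  have hsK : nd i j a ∈ (IntermediateField.adjoin k (nodes k F α)).toSubfield :=
    hK _ ⟨i, j, hij, hs⟩
  have htK : ∀ b, nd i l b ∈ (IntermediateField.adjoin k (nodes k F α)).toSubfield :=
    fun b => hK _ ⟨i, l, hil, (hN.mem i l hil (nd i l b)).2 ⟨b, rfl⟩⟩
  have hlcK : algebraMap k F (α i - α l).leadingCoeff ∈
      (IntermediateField.adjoin k (nodes k F α)).toSubfield :=
    (IntermediateField.adjoin k (nodes k F α)).algebraMap_mem _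
  have hst : ∀ b, nd i j a - nd i l b ≠ 0 := by
    intro b hb
    have h1 := (hN.mem i l hil (nd i l b)).2 ⟨b, rfl⟩
    rw [← sub_eq_zero.1 hb] at h1
    have h2 := nodes_pair α hα hij hil hs h1
    have h3 : j ∈ ({i, l} : Set ι) := h2 ▸ (by simp)
    rcases h3 with h3 | h3
    · exact hij h3.symm
    · exact hjl h3
  have h1 : aeval (nd i j a) (α i) - aeval (nd i j a) (α l) =
      algebraMap k F (α i - α l).leadingCoeff * ∏ b, (nd i j a - nd i l b) := by
    rw [← map_sub, aeval_def, ← eval_map, hN.prod_eq hil hne, eval_mul, eval_C, eval_prod]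
    simp
  rw [h1, hν.mul _ hlcK _ (prod_mem fun b _ => sub_mem hsK (htK b)) (lc_ne_zero_h45 hα hil)
    (Finset.prod_ne_zero_iff.2 fun b _ => hst b),
    hν.prod _ _ (fun b _ => sub_mem hsK (htK b)) (fun b _ => hst b), h.lead i l hil]
  have h2 : ∑ b, ν (nd i j a - nd i l b) = B {i, j, l} - B {i, j} - B {i, l} := by
    rw [Finset.sum_congr rfl fun b _ => h.adj i j l hij hjl hil a b, Finset.sum_ite_eq,
      if_pos (Finset.mem_univ a)]
    congr <;> exact Subsingleton.elim _ _
  have h3 : ∀ x y z : A, y + (x - z - y) = x - z := fun x y z => by abel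
  rw [h2]
  refine Eq.trans ?_ (h3 _ (B {i, l}) _)
  congr
  exact Subsingleton.elim _ _

/-- The value at the derivative: `ν(lc) + ∑_{b ≠ a} ν(nd i j a - nd i j b) = B {i, j}`
(the derivative at the root `nd i j a` of `Nodes.prod_eq`: `Polynomial.derivative_prod` or
`eval_derivative` of `C lc * (X - C s) * ∏_{b ≠ a}`). -/
theorem CopyV.der_eq {A : Type*} [AddCommGroup A] {ν : F → A} {α : ι → k[X]}
    {nd : ι → ι → Fin n → F} {B : Finset ι → A} (h : CopyV ν α nd B) (hN : Nodes α nd)
    (hα : IsArrangement α)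
    (hν : IsVal (IntermediateField.adjoin k (nodes k F α)).toSubfield ν) {i j : ι} (hij : i ≠ j)
    (a : Fin n) :
    ν (aeval (nd i j a) (derivative (α i - α j))) = B {i, j} := by
  have hne : α i ≠ α j := by
    intro h0
    apply hα.natDegree_ne_zero i j hij
    rw [h0, sub_self, natDegree_zero]
  have hK : ∀ x ∈ nodes k F α, x ∈ (IntermediateField.adjoin k (nodes k F α)).toSubfield :=
    fun x hx => IntermediateField.subset_adjoin k _ hx
  have htK : ∀ b, nd i j b ∈ (IntermediateField.adjoin k (nodes k F α)).toSubfield :=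
    fun b => hK _ ⟨i, j, hij, (hN.mem i j hij (nd i j b)).2 ⟨b, rfl⟩⟩
  have hlcK : algebraMap k F (α i - α j).leadingCoeff ∈
      (IntermediateField.adjoin k (nodes k F α)).toSubfield :=
    (IntermediateField.adjoin k (nodes k F α)).algebraMap_mem _
  have hst : ∀ b ∈ Finset.univ.erase a, nd i j a - nd i j b ≠ 0 := by
    intro b hb h0
    exact (Finset.mem_erase.1 hb).1 (hN.inj i j hij (sub_eq_zero.1 h0)).symm
  have h1 : aeval (nd i j a) (derivative (α i - α j)) =
      algebraMap k F (α i - α j).leadingCoeff *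
        ∏ b ∈ Finset.univ.erase a, (nd i j a - nd i j b) := by
    rw [aeval_def, ← eval_map, ← derivative_map, hN.prod_eq hij hne,
      ← Finset.mul_prod_erase Finset.univ (fun b => X - C (nd i j b)) (Finset.mem_univ a),
      derivative_mul, derivative_mul, derivative_C, derivative_sub, derivative_X, derivative_C]
    simp only [eval_add, eval_mul, eval_sub, eval_zero, eval_C, eval_X, eval_one, eval_prod]
    simp
  rw [h1, hν.mul _ hlcK _ (prod_mem fun b _ => sub_mem (htK a) (htK b)) (lc_ne_zero_h45 hα hij)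
    (Finset.prod_ne_zero_iff.2 hst),
    hν.prod _ _ (fun b _ => sub_mem (htK a) (htK b)) hst, h.lead i j hij]
  rw [Finset.sum_eq_zero, add_zero]
  · congr
    exact Subsingleton.elim _ _
  · intro b hb
    exact h.par i j hij a b (Ne.symm (Finset.mem_erase.1 hb).1)

end Pool.Agent.Lib.MP_89bcae_ag

end

section

/-!
# A place with an estimate of the ramification index by the inertia group
-/

open Polynomial WithZero IsDedekindDomain

open scoped Classical Pointwise

namespace Pool.Agent.Lib.MP_89bcae_ag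

open Superelliptic

variable {F : Type} [Field F] [Algebra ℚ F]

/-- `σ` is in the inertia group of the place. -/
def Place.Inert {p : ℕ} {K₀ : Subfield F} (P : Place p K₀) (σ : F ≃ₐ[ℚ] F) : Prop :=
  ∀ (x : F) (hx : x ∈ P.O), ∃ hx' : σ x ∈ P.O, P.red ⟨σ x, hx'⟩ = P.red ⟨x, hx⟩

/-- The valuation of a finite Galois extension of `ℚ` above `p`. Proof: `place_aux_h74` with the last part
for three elements: `ramificationIdx_le_card_inertia7` gives `e ≤ #inertia`, so if `3 ≤ e` there are two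
different elements `σ, τ ≠ 1` of the inertia group. -/
theorem exists_place_aux_three (K : Type) [Field K] [Algebra ℚ K] [FiniteDimensional ℚ K]
    [IsGalois ℚ K] {p : ℕ} (hp : p.Prime) :
    ∃ (w : Valuation K (WithZero (Multiplicative ℤ))) (e : ℕ), 0 < e ∧
      (∀ z : ℤ, z ≠ 0 → w (z : K) = WithZero.exp (-((e * padicValInt p z : ℕ) : ℤ))) ∧
      (2 ≤ e → ∃ σ : K ≃ₐ[ℚ] K, σ ≠ 1 ∧ ∀ y, w y ≤ 1 → w (σ y) ≤ 1 ∧ w (σ y - y) < 1) ∧
      (3 ≤ e → ∃ σ τ : K ≃ₐ[ℚ] K, σ ≠ 1 ∧ τ ≠ 1 ∧ σ ≠ τ ∧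
        (∀ y, w y ≤ 1 → w (σ y) ≤ 1 ∧ w (σ y - y) < 1) ∧
        (∀ y, w y ≤ 1 → w (τ y) ≤ 1 ∧ w (τ y - y) < 1)) := by
  obtain ⟨R₀, i1, i2, i3, i4, i5, hR₀⟩ := exists_dvrZ8 hp
  let : Algebra R₀ K := ((algebraMap ℚ K).comp (algebraMap R₀ ℚ)).toAlgebra
  have : IsScalarTower R₀ ℚ K := IsScalarTower.of_algebraMap_eq fun r => rfl
  let B := integralClosure R₀ K
  have : IsDedekindDomain B := integralClosure.isDedekindDomain R₀ ℚ K
  have : Module.Finite R₀ B := IsIntegralClosure.finite R₀ ℚ K B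
  have : IsFractionRing B K := integralClosure.isFractionRing_of_finite_extension ℚ K
  have : SMulCommClass (K ≃ₐ[ℚ] K) R₀ K := ⟨fun σ r x => by
    rw [AlgEquiv.smul_def, AlgEquiv.smul_def, Algebra.smul_def, Algebra.smul_def, map_mul,
      IsScalarTower.algebraMap_apply R₀ ℚ K, AlgEquiv.commutes]⟩
  have : IsGaloisGroup (K ≃ₐ[ℚ] K) R₀ B := IsGaloisGroup.of_isFractionRing _ _ _ ℚ K
  have hinjK : Function.Injective (algebraMap R₀ K) := by
    rw [IsScalarTower.algebraMap_eq R₀ ℚ K]
    exact (algebraMap ℚ K).injective.comp (IsFractionRing.injective R₀ ℚ)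
  have hinjB : Function.Injective (algebraMap B K) := Subtype.val_injective
  have : FaithfulSMul R₀ B := by
    rw [faithfulSMul_iff_algebraMap_injective]
    intro x y hxy
    exact hinjK (congrArg (algebraMap B K) hxy)
  have : Module.IsTorsionFree R₀ B := inferInstance
  have : Module.Flat R₀ B := inferInstance
  let v : HeightOneSpectrum R₀ := IsDiscreteValuationRing.maximalIdeal R₀
  have hvmax : v.asIdeal.IsMaximal := v.isMaximal
  obtain ⟨P, hPmax, hPv⟩ := Ideal.exists_maximal_ideal_liesOver_of_isIntegral (S := B) v.asIdeal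
  have hP0 : P ≠ ⊥ := Ideal.ne_bot_of_liesOver_of_ne_bot v.ne_bot P
  let w : HeightOneSpectrum B := ⟨P, hPmax.isPrime, hP0⟩
  have hwv : w.asIdeal.LiesOver v.asIdeal := hPv
  have hmP : ∀ r : R₀, algebraMap R₀ B r ∈ P ↔ r ∈ IsLocalRing.maximalIdeal R₀ := by
    intro r
    have h1 : r ∈ Ideal.comap (algebraMap R₀ B) P ↔ r ∈ v.asIdeal := by
      rw [← Ideal.under_def, ← hPv.over]
    exact h1
  set e := v.asIdeal.ramificationIdx' w.asIdeal with hedef
  have hWk : ∀ r : R₀, w.intValuation (algebraMap R₀ B r) = v.intValuation r ^ e := by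
    intro r
    have h1 := HeightOneSpectrum.valuation_liesOver K v w (algebraMap R₀ ℚ r)
    rw [← IsScalarTower.algebraMap_apply] at h1
    have h2 : w.intValuation (algebraMap R₀ B r) = w.valuation K (algebraMap R₀ K r) := by
      rw [← w.valuation_of_algebraMap (K := K)]
      rfl
    rw [h2, ← h1]
    congr 1
    exact HeightOneSpectrum.valuation_of_algebraMap (K := ℚ) v r
  have he1 : 0 < e := by
    rcases Nat.eq_zero_or_pos e with h0 | h0
    · exfalso
      obtain ⟨ϖ, hϖ⟩ := v.intValuation_exists_uniformizer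
      have h1 : ϖ ∈ IsLocalRing.maximalIdeal R₀ := by
        have h2 : v.intValuation ϖ ≤ exp (-((1 : ℕ) : ℤ)) := by rw [hϖ]; simp
        have h3 := (v.intValuation_le_pow_iff_mem ϖ 1).mp h2
        rw [pow_one] at h3
        exact h3
      have h2 : w.intValuation (algebraMap R₀ B ϖ) < 1 :=
        (w.intValuation_lt_one_iff_mem _).mpr ((hmP ϖ).mpr h1)
      rw [hWk, h0, pow_zero] at h2
      exact lt_irrefl _ h2
    · exact h0
  have hinert : ∀ σ : K ≃ₐ[ℚ] K, σ ∈ P.inertia (K ≃ₐ[ℚ] K) → ∀ y, w.valuation K y ≤ 1 →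
      w.valuation K (σ y) ≤ 1 ∧ w.valuation K (σ y - y) < 1 := by
    intro σ hσP y hy
    obtain ⟨b, c, hbc⟩ := w.exists_primeCompl_mul_eq_of_integer y hy
    have hσB : ∀ x : B, σ (algebraMap B K x) = algebraMap B K (σ • x) := fun x => rfl
    have hin : ∀ x : B, σ • x - x ∈ P := fun x => hσP x
    have hc1 : w.intValuation (c : B) = 1 := by
      rw [w.intValuation_eq_one_iff_mem_primeCompl]
      exact c.2
    have hσc : w.intValuation (σ • (c : B)) = 1 := by
      rw [w.intValuation_eq_one_iff_mem_primeCompl]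
      intro h
      apply c.2
      have h3 := P.sub_mem h (hin c)
      rwa [sub_sub_cancel] at h3
    have hσy : σ y * algebraMap B K (σ • (c : B)) = algebraMap B K (σ • b) := by
      rw [← hσB, ← hσB, ← map_mul, hbc]
    constructor
    · have h3 := congrArg (w.valuation K) hσy
      rw [map_mul, HeightOneSpectrum.valuation_of_algebraMap, hσc, mul_one,
        HeightOneSpectrum.valuation_of_algebraMap] at h3
      rw [h3]
      exact w.intValuation_le_one _
    · have h3 : (σ y - y) * algebraMap B K ((σ • (c : B)) * (c : B)) =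
          algebraMap B K ((σ • b - b) * (c : B) - b * (σ • (c : B) - (c : B))) := by
        simp only [map_sub, map_mul]
        linear_combination (algebraMap B K (c : B)) * hσy - (algebraMap B K (σ • (c : B))) * hbc
      have h4 := congrArg (w.valuation K) h3
      rw [map_mul, HeightOneSpectrum.valuation_of_algebraMap, map_mul, hσc, hc1, mul_one, mul_one,
        HeightOneSpectrum.valuation_of_algebraMap] at h4
      rw [h4, w.intValuation_lt_one_iff_mem]
      exact P.sub_mem (P.mul_mem_right _ (hin b)) (P.mul_mem_left _ (hin c))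
  have hcard : e ≤ Nat.card (P.inertia (K ≃ₐ[ℚ] K)) := by
    let : Field (B ⧸ P) := Ideal.Quotient.field P
    rw [hedef, Ideal.ramificationIdx'_eq_ramificationIdx v.asIdeal w.asIdeal v.ne_bot]
    exact ramificationIdx_le_card_inertia7 v.asIdeal P
  refine ⟨w.valuation K, e, he1, ?_, ?_, ?_⟩
  · intro z hz
    have hz0 : (z : R₀) ≠ 0 := by
      intro h0
      have h1 : algebraMap R₀ K (z : R₀) = 0 := by rw [h0, map_zero]
      rw [map_intCast] at h1
      have : CharZero K := charZero_of_injective_algebraMap (algebraMap ℚ K).injective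
      exact hz (by exact_mod_cast h1)
    have h1 : v.intValuation (z : R₀) = exp (-((padicValInt p z : ℕ) : ℤ)) := by
      apply le_antisymm
      · refine (v.intValuation_le_pow_iff_mem (z : R₀) (padicValInt p z)).mpr ?_
        refine (hR₀ z _).mpr ?_
        exact padicValInt_dvd z
      · by_contra hlt
        rw [not_le] at hlt
        have h2 : v.intValuation (z : R₀) ≤ exp (-((padicValInt p z + 1 : ℕ) : ℤ)) := by
          obtain ⟨m, hm⟩ : ∃ m : ℤ, v.intValuation (z : R₀) = exp m := by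
            refine ⟨log (v.intValuation (z : R₀)), (exp_log ?_).symm⟩
            exact v.intValuation_ne_zero _ hz0
          rw [hm] at hlt ⊢
          rw [exp_lt_exp] at hlt
          rw [exp_le_exp]
          push_cast
          omega
        have h3 := (v.intValuation_le_pow_iff_mem (z : R₀) _).mp h2
        have h4 := (hR₀ z _).mp h3
        have := Fact.mk hp
        rw [padicValInt_dvd_iff] at h4
        rcases h4 with h4 | h4
        · exact hz h4
        · omega
    have h2 : (z : K) = algebraMap B K (algebraMap R₀ B (z : R₀)) := by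
      rw [map_intCast, map_intCast]
    rw [h2, HeightOneSpectrum.valuation_of_algebraMap, hWk, h1, ← exp_nsmul]
    congr 1
    push_cast
    rw [nsmul_eq_mul]
    ring
  · intro he2
    have h2 : 1 < Nat.card (P.inertia (K ≃ₐ[ℚ] K)) := lt_of_lt_of_le (by omega) hcard
    obtain ⟨σ, hσP, hσ1⟩ : ∃ σ : K ≃ₐ[ℚ] K, σ ∈ P.inertia (K ≃ₐ[ℚ] K) ∧ σ ≠ 1 := by
      by_contra hcon
      push Not at hcon
      have : Subsingleton (P.inertia (K ≃ₐ[ℚ] K)) :=
        ⟨fun σ τ => Subtype.ext ((hcon σ σ.2).trans (hcon τ τ.2).symm)⟩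
      have := Finite.card_le_one_iff_subsingleton.mpr this
      omega
    exact ⟨σ, hσ1, hinert σ hσP⟩
  · intro he3
    have h2 : 2 < Nat.card (P.inertia (K ≃ₐ[ℚ] K)) := lt_of_lt_of_le (by omega) hcard
    have hfin : Finite (P.inertia (K ≃ₐ[ℚ] K)) := Nat.finite_of_card_ne_zero (by omega)
    have hft : Fintype (P.inertia (K ≃ₐ[ℚ] K)) := Fintype.ofFinite _
    rw [Nat.card_eq_fintype_card] at h2
    obtain ⟨σ, hσ⟩ : ∃ σ : P.inertia (K ≃ₐ[ℚ] K), σ ∉ ({1} : Finset (P.inertia (K ≃ₐ[ℚ] K))) := by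
      by_contra hcon
      push Not at hcon
      have h3 := Finset.card_le_card (s := Finset.univ) (t := {1}) fun x _ => hcon x
      rw [Finset.card_univ, Finset.card_singleton] at h3
      omega
    obtain ⟨τ, hτ⟩ : ∃ τ : P.inertia (K ≃ₐ[ℚ] K), τ ∉ ({1, σ} : Finset (P.inertia (K ≃ₐ[ℚ] K))) := by
      by_contra hcon
      push Not at hcon
      have h3 := Finset.card_le_card (s := Finset.univ) (t := {1, σ}) fun x _ => hcon x
      rw [Finset.card_univ] at h3
      have h4 := Finset.card_le_two (a := (1 : P.inertia (K ≃ₐ[ℚ] K))) (b := σ)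
      omega
    rw [Finset.mem_singleton] at hσ
    rw [Finset.mem_insert, Finset.mem_singleton, not_or] at hτ
    refine ⟨σ, τ, ?_, ?_, ?_, hinert σ σ.2, hinert τ τ.2⟩
    · intro h
      exact hσ (Subtype.ext h)
    · intro h
      exact hτ.1 (Subtype.ext h)
    · intro h
      exact hτ.2 (Subtype.ext h.symm)

section

attribute [-instance] DivisionRing.toRatAlgebra

/-- The place of `exists_place` (`Gph/Place.lean`), with one more statement for `3 ≤ e`. Proof: the same, with
`exists_place_aux_three` instead of `place_aux_h74`; two different automorphisms of `ℚ(S)` differ at an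
element of `S`. -/
theorem exists_place_three [IsAlgClosure ℚ F] {p : ℕ} (hp : p.Prime) (S : Set F) (hS : S.Finite)
    (hσ : ∀ (σ : F ≃ₐ[ℚ] F), ∀ s ∈ S, σ s ∈ S) :
    ∃ P : Place p (IntermediateField.adjoin ℚ S).toSubfield,
      (2 ≤ P.e → ∃ σ : F ≃ₐ[ℚ] F, (∃ s ∈ S, σ s ≠ s) ∧ P.Inert σ) ∧
      (3 ≤ P.e → ∃ σ τ : F ≃ₐ[ℚ] F, (∃ s ∈ S, σ s ≠ s) ∧ (∃ s ∈ S, τ s ≠ s) ∧
        (∃ s ∈ S, σ s ≠ τ s) ∧ P.Inert σ ∧ P.Inert τ) := by
  have halg : Algebra.IsAlgebraic ℚ F := IsAlgClosure.isAlgebraic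
  have hnF : Normal ℚ F := IsAlgClosure.normal ℚ F
  set K : IntermediateField ℚ F := IntermediateField.adjoin ℚ S with hKdef
  have hSfin : Finite S := hS.to_subtype
  have hfd : FiniteDimensional ℚ K :=
    IntermediateField.finiteDimensional_adjoin fun x _ => (halg.isAlgebraic x).isIntegral
  have hnK : Normal ℚ K := by
    rw [IntermediateField.normal_iff_forall_map_le']
    intro σ
    rw [hKdef, IntermediateField.adjoin_map, IntermediateField.adjoin_le_iff]
    rintro _ ⟨s, hs, rfl⟩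
    exact IntermediateField.subset_adjoin ℚ S (hσ σ s hs)
  have hgal : IsGalois ℚ K := ⟨⟩
  obtain ⟨w, e, he, hrat, hin, hin3⟩ := exists_place_aux_three K hp
  let V : ValuationSubring K := w.valuationSubring
  have hinj : Function.Injective (algebraMap K F) := (algebraMap K F).injective
  let O : Subring F := V.toSubring.map (algebraMap K F)
  let ε : V.toSubring ≃+* O := V.toSubring.equivMapOfInjective (algebraMap K F) hinj
  let red : O →+* IsLocalRing.ResidueField V := (IsLocalRing.residue V).comp ε.symm.toRingHom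
  let ord : F → ℤ := fun x => if h : x ∈ K then -(log (w ⟨x, h⟩)) else 0
  have hord : ∀ y : K, ord (y : F) = -(log (w y)) := fun y => dif_pos y.2
  have hred : ∀ (y : K) (hy : y ∈ V) (hO : (y : F) ∈ O), red ⟨y, hO⟩ = IsLocalRing.residue V ⟨y, hy⟩ := by
    intro y hy hO
    have h1 : ε.symm ⟨(y : F), hO⟩ = ⟨y, hy⟩ := by
      rw [RingEquiv.symm_apply_eq]
      rfl
    show IsLocalRing.residue V (ε.symm ⟨(y : F), hO⟩) = _
    rw [h1]
  have hOmem : ∀ x : F, x ∈ O ↔ ∃ y : K, w y ≤ 1 ∧ (y : F) = x := fun x => Iff.rfl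
  have hle : ∀ y : K, y ≠ 0 → (w y ≤ 1 ↔ 0 ≤ -(log (w y))) := by
    intro y hy
    have h1 : w y ≠ 0 := (Valuation.ne_zero_iff w).mpr hy
    have h2 : (0 : ℤ) ≤ -(log (w y)) ↔ log (w y) ≤ 0 := by omega
    rw [h2, log_le_iff_le_exp h1, exp_zero]
  have hlt : ∀ y : K, y ≠ 0 → (w y < 1 ↔ 0 < -(log (w y))) := by
    intro y hy
    have h1 : w y ≠ 0 := (Valuation.ne_zero_iff w).mpr hy
    have h2 : (0 : ℤ) < -(log (w y)) ↔ log (w y) < 0 := by omega
    rw [h2, log_lt_iff_lt_exp h1, exp_zero]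
  have hres : ∀ (y : K) (hy : y ∈ V), IsLocalRing.residue V ⟨y, hy⟩ = 0 ↔ w y < 1 := by
    intro y hy
    rw [IsLocalRing.residue_eq_zero_iff]
    exact Valuation.mem_maximalIdeal_iff _ _
  let P : Place p K.toSubfield :=
    { O := O
      κ := IsLocalRing.ResidueField V
      red := red
      ord := ord
      e := e
      isVal := by
        refine ⟨?_, ?_⟩
        · intro x hx y hy hx0 hy0
          have h1 := hord ⟨x, hx⟩
          have h2 := hord ⟨y, hy⟩
          have h3 := hord (⟨x, hx⟩ * ⟨y, hy⟩)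
          have h4 : w (⟨x, hx⟩ : K) ≠ 0 := (Valuation.ne_zero_iff w).mpr fun h => hx0 (congrArg Subtype.val h)
          have h5 : w (⟨y, hy⟩ : K) ≠ 0 := (Valuation.ne_zero_iff w).mpr fun h => hy0 (congrArg Subtype.val h)
          rw [map_mul, log_mul h4 h5] at h3
          change ord (x * y) = ord x + ord y
          change ord x = _ at h1
          change ord y = _ at h2
          change ord (x * y) = _ at h3
          rw [h3, h1, h2]
          ring
        · have h1 := hord (-1)
          rw [Valuation.map_neg, map_one, log_one, neg_zero] at h1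
          simpa using h1
      mem_O := by
        intro x
        rw [hOmem]
        constructor
        · rintro ⟨y, hy, rfl⟩
          refine ⟨y.2, ?_⟩
          by_cases h0 : y = 0
          · left
            rw [h0]
            rfl
          · right
            rw [hord]
            exact (hle y h0).mp hy
        · rintro ⟨hx, h1⟩
          refine ⟨⟨x, hx⟩, ?_, rfl⟩
          rcases h1 with h1 | h1
          · have h2 : (⟨x, hx⟩ : K) = 0 := Subtype.ext h1
            rw [h2, map_zero]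
            exact zero_le
          · by_cases h0 : (⟨x, hx⟩ : K) = 0
            · rw [h0, map_zero]
              exact zero_le
            · have h2 := hord ⟨x, hx⟩
              change ord x = _ at h2
              rw [h2] at h1
              exact (hle _ h0).mpr h1
      red_eq_zero := by
        intro x hx hx0
        obtain ⟨y, hy, rfl⟩ := (hOmem x).mp hx
        have h0 : y ≠ 0 := fun h => hx0 (by rw [h]; rfl)
        rw [hred y hy hx, hord]
        exact (hres y hy).trans (hlt y h0)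
      e_pos := he
      rat := by
        intro z hz
        have h1 := hord (z : K)
        rw [hrat z hz, log_exp, neg_neg] at h1
        have h2 : ((z : K) : F) = (z : F) := by push_cast; rfl
        rw [h2] at h1
        rw [h1]
        push_cast
        ring }
  have hcomm : ∀ (σ : K ≃ₐ[ℚ] K) (y : K), (σ.liftNormal F) (y : F) = (σ y : F) :=
    fun σ y => σ.liftNormal_commutes F y
  have hne : ∀ σ τ : K ≃ₐ[ℚ] K, σ ≠ τ → ∃ s ∈ S, (σ.liftNormal F) s ≠ (τ.liftNormal F) s := by
    intro σ τ hστ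
    by_contra hcon
    push Not at hcon
    apply hστ
    have h0 : τ⁻¹ * σ = 1 := by
      apply fix_adjoin_h74
      intro s hs
      have h1 := hcon s hs
      have h2 := hcomm σ ⟨s, IntermediateField.subset_adjoin ℚ S hs⟩
      have h3 := hcomm τ ⟨s, IntermediateField.subset_adjoin ℚ S hs⟩
      have h4 : σ ⟨s, IntermediateField.subset_adjoin ℚ S hs⟩ =
          τ ⟨s, IntermediateField.subset_adjoin ℚ S hs⟩ := by
        apply Subtype.ext
        rw [← h2, ← h3]
        exact h1
      rw [AlgEquiv.mul_apply, h4]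
      exact τ.symm_apply_apply _
    exact (inv_mul_eq_one.mp h0).symm
  have hne1 : ∀ σ : K ≃ₐ[ℚ] K, σ ≠ 1 → ∃ s ∈ S, (σ.liftNormal F) s ≠ s := by
    intro σ hσ1
    by_contra hcon
    push Not at hcon
    apply hσ1
    apply fix_adjoin_h74
    intro s hs
    apply Subtype.ext
    have h1 := hcomm σ ⟨s, IntermediateField.subset_adjoin ℚ S hs⟩
    rw [← h1]
    exact hcon s hs
  have hI : ∀ σ : K ≃ₐ[ℚ] K, (∀ y, w y ≤ 1 → w (σ y) ≤ 1 ∧ w (σ y - y) < 1) →
      P.Inert (σ.liftNormal F) := by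
    intro σ hσ2 x hx
    obtain ⟨y, hy, rfl⟩ := (hOmem x).mp hx
    obtain ⟨h1, h2⟩ := hσ2 y hy
    have hmem : (σ.liftNormal F) (y : F) ∈ O := by
      rw [hcomm]
      exact (hOmem _).mpr ⟨σ y, h1, rfl⟩
    refine ⟨hmem, ?_⟩
    have hmem' : ((σ y : K) : F) ∈ O := (hOmem _).mpr ⟨σ y, h1, rfl⟩
    have h3 : (⟨(σ.liftNormal F) (y : F), hmem⟩ : O) = ⟨((σ y : K) : F), hmem'⟩ :=
      Subtype.ext (hcomm σ y)
    show red ⟨(σ.liftNormal F) (y : F), hmem⟩ = red ⟨(y : F), hx⟩
    rw [h3, hred (σ y) h1 hmem', hred y hy hx, ← sub_eq_zero, ← map_sub]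
    have h4 : (⟨σ y, h1⟩ - ⟨y, hy⟩ : V) = ⟨σ y - y, h2.le⟩ := rfl
    rw [h4]
    exact (hres _ _).mpr h2
  refine ⟨P, fun h2e => ?_, fun h3e => ?_⟩
  · obtain ⟨σ, hσ1, hσ2⟩ := hin h2e
    exact ⟨σ.liftNormal F, hne1 σ hσ1, hI σ hσ2⟩
  · obtain ⟨σ, τ, hσ1, hτ1, hστ, hσ2, hτ2⟩ := hin3 h3e
    exact ⟨σ.liftNormal F, τ.liftNormal F, hne1 σ hσ1, hne1 τ hτ1, hne σ τ hστ, hI σ hσ2, hI τ hτ2⟩

end

end Pool.Agent.Lib.MP_89bcae_ag

end

section

/-!
# The criterion for a homomorphism of type `CopyV`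
-/

open Polynomial

open scoped Classical

namespace Pool.Agent.Lib.MP_89bcae_ag

open Superelliptic

universe u

variable {k F : Type u} [Field k] [Field F] [Algebra k F] {ι : Type} [Fintype ι] [LinearOrder ι]
  {n : ℕ}

lemma sum_off_h4 {A : Type*} [AddCommGroup A] (f : ι → A) {i j : ι} (hij : i ≠ j) :
    ∑ l ∈ Finset.univ.filter (fun l => l ≠ i ∧ l ≠ j), f l = ∑ l, f l - f i - f j := by
  have h1 : Finset.univ.filter (fun l : ι => l ≠ i ∧ l ≠ j) =
      (Finset.univ.erase i).erase j := by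
    ext l
    simp only [Finset.mem_filter, Finset.mem_univ, true_and, Finset.mem_erase, and_true]
    tauto
  rw [h1, Finset.sum_erase_eq_sub (Finset.mem_erase.2 ⟨hij.symm, Finset.mem_univ j⟩),
    Finset.sum_erase_eq_sub (Finset.mem_univ i)]

/-- The sum over the nodes. -/
lemma sum_nodes_h4 {ℓ : ℕ} (α : ι → k[X]) (hα : IsArrangement α) (ν : F → ZMod ℓ)
    (nd : ι → ι → Fin n → F) (hN : Nodes α nd) (B : Finset ι → ZMod ℓ) (h : CopyV ν α nd B)
    (e : ι → F → ZMod ℓ)
    (e0 : ∀ a b d : ι, ∀ s : F, a ≠ b → aeval s (α a) = aeval s (α b) → d ≠ a → d ≠ b →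
      e d s = 0) {i j : ι} (hij : i ≠ j) (a : Fin n) :
    ∑ s' ∈ (finite_nodes (F := F) α hα).toFinset.erase (nd i j a), e i s' * ν (nd i j a - s') =
      ∑ l ∈ Finset.univ.filter (fun l => l ≠ i ∧ l ≠ j),
        e i (nd i l a) * ν (nd i j a - nd i l a) := by
  have hval : ∀ i j : ι, i ≠ j → ∀ a, aeval (nd i j a) (α i) = aeval (nd i j a) (α j) :=
    fun i j hij a => (hN.mem i j hij _).2 ⟨a, rfl⟩
  have hinj : Set.InjOn (fun l => nd i l a)
      ((Finset.univ.filter (fun l : ι => l ≠ i ∧ l ≠ j) : Finset ι) : Set ι) := by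
    intro l hl l' hl' hll
    rw [Finset.mem_coe, Finset.mem_filter] at hl hl'
    have h1 := hval i l hl.2.1.symm a
    have h2 := hval i l' hl'.2.1.symm a
    have h3 : nd i l a = nd i l' a := hll
    rw [← h3] at h2
    have h4 := nodes_pair α hα hl.2.1.symm hl'.2.1.symm h1 h2
    have h5 : l ∈ ({i, l'} : Set ι) := by
      rw [← h4]
      exact Set.mem_insert_of_mem _ rfl
    rcases h5 with h5 | h5
    · exact absurd h5 hl.2.1
    · exact h5
  rw [← Finset.sum_image (f := fun s' => e i s' * ν (nd i j a - s')) hinj]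
  symm
  refine Finset.sum_subset ?_ ?_
  · intro s' hs'
    rw [Finset.mem_image] at hs'
    obtain ⟨l, hl, rfl⟩ := hs'
    rw [Finset.mem_filter] at hl
    rw [Finset.mem_erase, Set.Finite.mem_toFinset]
    have h1 := hval i l hl.2.1.symm a
    refine ⟨fun h0 => ?_, ⟨i, l, hl.2.1.symm, h1⟩⟩
    have h2 := hval i j hij a
    rw [← h0] at h2
    have h4 := nodes_pair α hα hl.2.1.symm hij h1 h2
    have h5 : l ∈ ({i, j} : Set ι) := by
      rw [← h4]
      exact Set.mem_insert_of_mem _ rfl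
    rcases h5 with h5 | h5
    · exact hl.2.1 h5
    · exact hl.2.2 h5
  · intro s' hs' hs''
    rw [Finset.mem_erase, Set.Finite.mem_toFinset] at hs'
    obtain ⟨hne, p, q, hpq, hs⟩ := hs'
    -- the other graph
    have key : ∀ l, l ≠ i → aeval s' (α i) = aeval s' (α l) → e i s' * ν (nd i j a - s') = 0 := by
      intro l hl hil
      obtain ⟨b, rfl⟩ := (hN.mem i l hl.symm s').1 hil
      by_cases hlj : l = j
      · subst hlj
        have hab : a ≠ b := by
          rintro rfl
          exact hne rfl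
        rw [h.par i l hij a b hab, mul_zero]
      · have hab : a ≠ b := by
          rintro rfl
          apply hs''
          rw [Finset.mem_image]
          exact ⟨l, Finset.mem_filter.2 ⟨Finset.mem_univ _, hl, hlj⟩, rfl⟩
        rw [h.adj i j l hij (Ne.symm hlj) hl.symm a b, if_neg hab, mul_zero]
    by_cases h1 : i = p
    · subst h1
      exact key q hpq.symm hs
    · by_cases h2 : i = q
      · subst h2
        exact key p hpq hs.symm
      · rw [e0 p q i s' hpq hs h1 h2, zero_mul]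

/-- **The criterion.** Proof (as `indepW_of_tripleV` in `Gph/G1.lean`): let `e, κ, c'` be as in
`ArrangementIndependentW` (with `c'` for the constants). As there, the condition on the sums gives, modulo
`ℓ`: `e_l(s) = 0` for a node `s` of `i, j` and `l ≠ i, j` (`nodes_pair`), and
`W_i e_i(s) + W_j e_j(s) = 0`. Put `ε a i j = e_i(nd i j a) / W_j` for `i ≠ j`, `ε a i i = 0`:
antisymmetric. `val_eqn` for `ν` at `s = nd i j a`, divided by `W_j`, gives (`w = W`, `x = ε a i j`)
`x ν(κ) + ν(c'_i) - ν(c'_j) - (w_i + w_j) x B {i, j} - ∑_{l ≠ i, j} w_l x (B {i, j, l} - B {i, j})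
+ (1 / w_j) ∑_{s' ≠ s} w_j (e_i(s') - e_j(s')) ν(s - s') = 0`, and the last sum is
`∑_{l ≠ i, j} w_l (ε a i l (B {i, j, l} - B {i, j} - B {i, l}) - ε a j l (B {i, j, l} - B {i, j} - B {j, l}))`:
the `s'` with `e_i(s') ≠ 0` or `e_j(s') ≠ 0` are in the sets of the pairs `i, j` (`ν(s - s') = 0` by
`CopyV.par`), `i, l` and `j, l` (`CopyV.adj`: only `s' = nd i l a`, resp. `s' = nd j l a`, with
`e_i(nd i l a) = w_l ε a i l`, `e_j(nd j l a) = w_l ε a j l`). Put `B T = c T - ∑ i ∈ T, g i` into this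
equation: it becomes the hypothesis `heq` of `Lr.core_copies` (for `k = a : Fin n`) with
`z = ν(κ) + ∑ l, w l * g l` and `γ i = ν(c' i)` (the same computation as in `Gen14.cut_good`,
`Lr/B01.lean`, with `m₀ = 0`, `μ (some i) = - g i`, `μ none = 0`). So `ε a i j = b i - b j`,
`e_i(nd i j a) = W_j (b i - b j)` modulo `ℓ`; take the integers `- (b i).val`. -/
theorem indepW_of_copyV {ℓ : ℕ} (hℓ : ℓ.Prime) (α : ι → k[X]) (hα : IsArrangement α) (W : ι → ℕ)
    (hW : ∀ i, (W i).Coprime ℓ) (ν : F → ZMod ℓ)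
    (hν : IsVal (IntermediateField.adjoin k (nodes k F α)).toSubfield ν)
    (nd : ι → ι → Fin n → F) (hN : Nodes α nd) (c : Finset ι → ZMod ℓ) (g : ι → ZMod ℓ)
    (h : CopyV ν α nd fun T => c T - ∑ i ∈ T, g i)
    (hT : Lr.GoodT (fun i => (W i : ZMod ℓ)) c Finset.univ)
    (hR : Lr.GoodR (fun i => (W i : ZMod ℓ)) (fun i l => c {i, l}) g Finset.univ) :
    ArrangementIndependentW ℓ k F W α := by
  have : Fact ℓ.Prime := ⟨hℓ⟩
  intro e κ c' hκ hκK hc hsum hpow0
  have hpow : ∀ (i j : ι) (s : F), i ≠ j → aeval s (α i) = aeval s (α j) →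
      ∃ w ∈ IntermediateField.adjoin k (nodes k F α),
        w ^ ℓ = κ ^ e i s * (c' i / c' j) ^ W j *
          aeval s (derivative (α i - α j)) ^ (-((W i : ℤ) + W j) * e i s) *
          (∏ l ∈ Finset.univ.filter fun l => l ≠ i ∧ l ≠ j,
            (aeval s (α i) - aeval s (α l)) ^ (-(W l : ℤ) * e i s)) *
          ∏ᶠ s' ∈ {s' ∈ nodes k F α | s' ≠ s}, (s - s') ^ ((W j : ℤ) * (e i s' - e j s')) := by
    intro i j s hij hs
    obtain ⟨w, hw1, hw2⟩ := hpow0 i j s hij hs
    refine ⟨w, hw1, hw2.trans ?_⟩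
    congr 2
    apply Finset.prod_congr _ (fun _ _ => rfl)
    ext l
    simp only [Finset.mem_filter]
  have hw : ∀ i, (W i : ZMod ℓ) ≠ 0 := by
    intro i h0
    rw [ZMod.natCast_eq_zero_iff] at h0
    exact (hℓ.coprime_iff_not_dvd.mp (hW i).symm) h0
  have hnode : ∀ {a b : ι} {s : F}, a ≠ b → aeval s (α a) = aeval s (α b) → s ∈ nodes k F α :=
    fun hab hs => ⟨_, _, hab, hs⟩
  -- the values of `e` at the nodes
  have e0 : ∀ a b d : ι, ∀ s : F, a ≠ b → aeval s (α a) = aeval s (α b) → d ≠ a → d ≠ b →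
      (e d s : ZMod ℓ) = 0 := by
    intro a b d s hab hs hda hdb
    have h1 := hsum s (hnode hab hs) d
    have h2 : (Finset.univ.filter fun j => aeval s (α j) = aeval s (α d)) = {d} := by
      ext j
      rw [Finset.mem_filter, Finset.mem_singleton]
      constructor
      · rintro ⟨-, hj⟩
        by_contra hjd
        have h3 := nodes_pair α hα hab hjd hs hj
        have h4 : d ∈ ({a, b} : Set ι) := by
          rw [h3]
          exact Set.mem_insert_of_mem _ rfl
        rcases h4 with h4 | h4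
        · exact hda h4
        · exact hdb h4
      · rintro rfl
        exact ⟨Finset.mem_univ _, rfl⟩
    rw [h2, Finset.sum_singleton] at h1
    have h3 : (((W d : ℤ) * e d s : ℤ) : ZMod ℓ) = 0 :=
      (ZMod.intCast_zmod_eq_zero_iff_dvd _ _).mpr h1
    push_cast at h3
    exact (mul_eq_zero.mp h3).resolve_left (hw d)
  have e1 : ∀ a b : ι, ∀ s : F, a ≠ b → aeval s (α a) = aeval s (α b) →
      (W a : ZMod ℓ) * e a s + W b * e b s = 0 := by
    intro a b s hab hs
    have h1 := hsum s (hnode hab hs) a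
    have h2 : (Finset.univ.filter fun j => aeval s (α j) = aeval s (α a)) = {a, b} := by
      ext j
      rw [Finset.mem_filter, Finset.mem_insert, Finset.mem_singleton]
      constructor
      · rintro ⟨-, hj⟩
        by_contra hjd
        rw [not_or] at hjd
        have h3 := nodes_pair α hα hab hjd.1 hs hj
        have h4 : j ∈ ({a, b} : Set ι) := by
          rw [h3]
          exact Set.mem_insert _ _
        rcases h4 with h4 | h4
        · exact hjd.1 h4
        · exact hjd.2 h4
      · rintro (rfl | rfl)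
        · exact ⟨Finset.mem_univ _, rfl⟩
        · exact ⟨Finset.mem_univ _, hs.symm⟩
    rw [h2, Finset.sum_pair hab] at h1
    have h3 : (((W a : ℤ) * e a s + (W b : ℤ) * e b s : ℤ) : ZMod ℓ) = 0 :=
      (ZMod.intCast_zmod_eq_zero_iff_dvd _ _).mpr h1
    push_cast at h3
    exact h3
  have hval : ∀ i j : ι, i ≠ j → ∀ a, aeval (nd i j a) (α i) = aeval (nd i j a) (α j) :=
    fun i j hij a => (hN.mem i j hij _).2 ⟨a, rfl⟩
  set B : Finset ι → ZMod ℓ := fun T => c T - ∑ i ∈ T, g i with hB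
  have hB2 : ∀ i j : ι, i ≠ j → B {i, j} = c {i, j} - g i - g j := by
    intro i j hij
    rw [hB]
    show c {i, j} - ∑ m ∈ {i, j}, g m = _
    rw [Finset.sum_pair hij]
    ring
  have hB3 : ∀ i j l : ι, i ≠ j → j ≠ l → i ≠ l → B {i, j, l} = c {i, j, l} - g i - g j - g l := by
    intro i j l hij hjl hil
    rw [hB]
    show c {i, j, l} - ∑ m ∈ {i, j, l}, g m = _
    rw [Finset.sum_insert (by
      rw [Finset.mem_insert, Finset.mem_singleton]
      rintro (h | h)
      · exact hij h
      · exact hil h), Finset.sum_pair hjl]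
    ring
  set ε : Fin n → ι → ι → ZMod ℓ := fun a i j =>
    if i = j then 0 else (e i (nd i j a) : ZMod ℓ) / W j with hε
  have hε0 : ∀ a i, ε a i i = 0 := fun a i => if_pos rfl
  have hε1 : ∀ a i j, i ≠ j → (e i (nd i j a) : ZMod ℓ) = W j * ε a i j := by
    intro a i j hij
    have h1 : ε a i j = (e i (nd i j a) : ZMod ℓ) / W j := if_neg hij
    rw [h1, mul_div_cancel₀ _ (hw j)]
  have hε2 : ∀ a i j, i ≠ j → ε a j i = -ε a i j := by
    intro a i j hij
    have h1 := e1 i j (nd i j a) hij (hval i j hij a)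
    have h2 := hε1 a i j hij
    have h3 := hε1 a j i hij.symm
    rw [← hN.symm i j a] at h3
    rw [h2, h3] at h1
    have h4 : (W i : ZMod ℓ) * W j * (ε a j i + ε a i j) = 0 := by linear_combination h1
    have h5 := (mul_eq_zero.mp h4).resolve_left (mul_ne_zero (hw i) (hw j))
    linear_combination h5
  have hadj : ∀ (a : Fin n) (i j l : ι), i ≠ j → j ≠ l → i ≠ l →
      ν (nd i j a - nd i l a) = B {i, j, l} - B {i, j} - B {i, l} := by
    intro a i j l h1 h2 h3
    have h4 := h.adj i j l h1 h2 h3 a a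
    rw [if_pos rfl] at h4
    refine h4.trans ?_
    congr <;> exact Subsingleton.elim _ _
  obtain ⟨b, hb⟩ := Lr.core_copies hT hR ε hε2 hε0 (ν κ + ∑ l, (W l : ZMod ℓ) * g l)
    (fun i => ν (c' i)) (by
      intro a i j hij
      have key := val_eqn α hα W ν hν e κ c' hκ hκK hc hij (hval i j hij a)
        (hpow i j _ hij (hval i j hij a))
      rw [h.der_eq hN hα hν hij a] at key
      set P := Finset.univ.filter (fun l : ι => l ≠ i ∧ l ≠ j) with hP
      have hPmem : ∀ l ∈ P, i ≠ l ∧ j ≠ l := by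
        intro l hl
        rw [hP, Finset.mem_filter] at hl
        exact ⟨hl.2.1.symm, hl.2.2.symm⟩
      have x1 := hε1 a i j hij
      -- the first sum
      have s1 : ∑ l ∈ P, (W l : ZMod ℓ) * e i (nd i j a) *
          ν (aeval (nd i j a) (α i) - aeval (nd i j a) (α l)) =
          W j * (ε a i j * (∑ l ∈ P, W l * (c {i, j, l} - c {i, j}) - ∑ l ∈ P, W l * g l)) := by
        rw [← Finset.sum_sub_distrib, Finset.mul_sum, Finset.mul_sum]
        refine Finset.sum_congr rfl fun l hl => ?_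
        obtain ⟨hil, hjl⟩ := hPmem l hl
        rw [h.val_eq hN hα hν hij hjl hil a, hB3 i j l hij hjl hil, hB2 i j hij, x1]
        ring
      -- the second sum
      have s2 : ∑ s' ∈ (finite_nodes (F := F) α hα).toFinset.erase (nd i j a),
          (W j : ZMod ℓ) * (e i s' - e j s') * ν (nd i j a - s') =
          W j * (∑ l ∈ P, W l * ε a i l * (c {i, j, l} - c {i, j}) -
            ∑ l ∈ P, W l * (c {i, l} - g i) * ε a i l -
            (∑ l ∈ P, W l * ε a j l * (c {i, j, l} - c {i, j}) -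
              ∑ l ∈ P, W l * (c {j, l} - g j) * ε a j l)) := by
        have t1 := sum_nodes_h4 α hα ν nd hN B h (fun i s => (e i s : ZMod ℓ)) e0 hij a
        have t2 := sum_nodes_h4 α hα ν nd hN B h (fun i s => (e i s : ZMod ℓ)) e0 hij.symm a
        have t3 : (∑ l ∈ P, (e i (nd i l a) : ZMod ℓ) * ν (nd i j a - nd i l a)) =
            ∑ l ∈ P, W l * ε a i l * (c {i, j, l} - c {i, j}) -
              ∑ l ∈ P, W l * (c {i, l} - g i) * ε a i l := by
          rw [← Finset.sum_sub_distrib]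
          refine Finset.sum_congr rfl fun l hl => ?_
          obtain ⟨hil, hjl⟩ := hPmem l hl
          rw [hadj a i j l hij hjl hil, hε1 a i l hil]
          have u1 := hB3 i j l hij hjl hil
          have u2 := hB2 i j hij
          have u3 := hB2 i l hil
          linear_combination (W l * ε a i l : ZMod ℓ) * (u1 - u2 - u3)
        have t4 : (∑ l ∈ Finset.univ.filter (fun l : ι => l ≠ j ∧ l ≠ i),
            (e j (nd j l a) : ZMod ℓ) * ν (nd j i a - nd j l a)) =
            ∑ l ∈ P, W l * ε a j l * (c {i, j, l} - c {i, j}) -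
              ∑ l ∈ P, W l * (c {j, l} - g j) * ε a j l := by
          have hP' : Finset.univ.filter (fun l : ι => l ≠ j ∧ l ≠ i) = P := by
            ext l
            rw [hP, Finset.mem_filter, Finset.mem_filter]
            tauto
          rw [hP', ← Finset.sum_sub_distrib]
          refine Finset.sum_congr rfl fun l hl => ?_
          obtain ⟨hil, hjl⟩ := hPmem l hl
          rw [hadj a j i l hij.symm hil hjl, hε1 a j l hjl]
          have v1 : ({j, i, l} : Finset ι) = {i, j, l} := by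
            rw [Finset.insert_comm]
          have v2 : ({j, i} : Finset ι) = {i, j} := Finset.pair_comm j i
          have u1 := hB3 j i l hij.symm hil hjl
          have u2 := hB2 j i hij.symm
          have u3 := hB2 j l hjl
          rw [v1] at u1
          rw [v2] at u2
          have u1' : B {j, i, l} = c {i, j, l} - g j - g i - g l := by
            rw [← u1, v1]
          have u2' : B {j, i} = c {i, j} - g j - g i := by
            rw [← u2, v2]
          linear_combination (W l * ε a j l : ZMod ℓ) * (u1' - u2' - u3)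
        rw [← t3, ← t4, ← t1, ← t2, ← hN.symm i j a, ← Finset.sum_sub_distrib, Finset.mul_sum]
        refine Finset.sum_congr rfl fun s' _ => ?_
        ring
      rw [s1, s2, hB2 i j hij, x1] at key
      -- the left side
      have hL : ∑ l, (W l : ZMod ℓ) * (c {i, j, l} - c {i, j}) * (ε a i j + ε a j l + ε a l i) =
          ε a i j * ∑ l ∈ P, W l * (c {i, j, l} - c {i, j}) +
            ∑ l ∈ P, W l * ε a j l * (c {i, j, l} - c {i, j}) -
            ∑ l ∈ P, W l * ε a i l * (c {i, j, l} - c {i, j}) := by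
        rw [Finset.mul_sum, ← Finset.sum_add_distrib, ← Finset.sum_sub_distrib]
        have h1 : ∑ l, (W l : ZMod ℓ) * (c {i, j, l} - c {i, j}) *
            (ε a i j + ε a j l + ε a l i) =
            ∑ l ∈ P, (W l : ZMod ℓ) * (c {i, j, l} - c {i, j}) *
            (ε a i j + ε a j l + ε a l i) := by
          rw [hP, Finset.sum_filter]
          refine Finset.sum_congr rfl fun l _ => ?_
          split_ifs with hl
          · rfl
          · have h0 : c {i, j, l} - c {i, j} = 0 := by
              rw [sub_eq_zero]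
              congr 1
              rw [not_and_or, not_not, not_not] at hl
              rcases hl with rfl | rfl
              · ext x
                simp only [Finset.mem_insert, Finset.mem_singleton]
                tauto
              · ext x
                simp only [Finset.mem_insert, Finset.mem_singleton]
                tauto
            rw [h0, mul_zero, zero_mul]
        rw [h1]
        refine Finset.sum_congr rfl fun l hl => ?_
        rw [hε2 a i l (hPmem l hl).1]
        ring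
      have r1 := sum_off_h4 (fun l => (W l : ZMod ℓ) * (c {i, l} - g i) * ε a i l) hij
      have r2 := sum_off_h4 (fun l => (W l : ZMod ℓ) * (c {j, l} - g j) * ε a j l) hij
      have r3 := sum_off_h4 (fun l => (W l : ZMod ℓ) * g l) hij
      rw [← hP] at r1 r2 r3
      have v2 : ({j, i} : Finset ι) = {i, j} := Finset.pair_comm j i
      rw [hε0 a i] at r1
      rw [hε0 a j, v2, hε2 a i j hij] at r2
      rw [hL]
      apply mul_left_cancel₀ (hw j)
      linear_combination -key + W j * (r2 - r1 + ε a i j * r3))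
  refine ⟨fun i => -((b i).val : ℤ), fun i j s hij hs => ?_⟩
  obtain ⟨a, rfl⟩ := (hN.mem i j hij s).1 hs
  have h1 := hb a i j hij
  rw [← ZMod.intCast_zmod_eq_zero_iff_dvd]
  have h3 : ∀ a : ι, (((b a).val : ℕ) : ZMod ℓ) = b a := fun a => ZMod.natCast_zmod_val _
  push_cast
  rw [h3, h3, hε1 a i j hij, h1]
  ring

end Pool.Agent.Lib.MP_89bcae_ag

end

section

/-!
# Types A and B: Frobenius elements and counts
-/

open Polynomial

open scoped Classical

namespace Pool.Agent.Lib.MP_89bcae_ag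


lemma polyOf_coeffs14 {k : Type} [Field k] {n : ℕ} {f : k[X]} (hf : f.natDegree = n) :
    polyOf8 (coeffs14 n f) = f := by
  unfold polyOf8 coeffs14
  conv_rhs => rw [f.as_sum_range_C_mul_X_pow, hf]
  rw [Finset.sum_range]


end Pool.Agent.Lib.MP_89bcae_ag

end

section

/-!
# The valuation at a prime of type K
-/

open Polynomial

open scoped Classical

namespace Pool.Agent.Lib.MP_89bcae_ag

open Superelliptic

variable {ι : Type} [Fintype ι] [LinearOrder ι] {n : ℕ} {F : Type} [Field F] [Algebra ℚ F]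
  [IsAlgClosure ℚ F]

omit [Fintype ι] [LinearOrder ι] [IsAlgClosure ℚ F] in
theorem eq_of_red_h40 {O κ : Type*} [CommRing O] [IsDomain O] [Field κ] (q : O →+* κ) {G : O[X]}
    (h1 : q (G.coeff 1) ≠ 0) {x y : O} (hx : G.eval x = 0) (hy : G.eval y = 0)
    (hqx : q x = 0) (hqy : q y = 0) : x = y := by
  by_contra hne
  obtain ⟨H, hH⟩ := dvd_iff_isRoot.mpr hx
  rw [hH, eval_mul, eval_sub, eval_X, eval_C] at hy
  have h2 : H.IsRoot y := (mul_eq_zero.mp hy).resolve_left fun h => hne (sub_eq_zero.mp h).symm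
  obtain ⟨H', hH'⟩ := dvd_iff_isRoot.mpr h2
  apply h1
  rw [← coeff_map, hH, hH', Polynomial.map_mul, Polynomial.map_mul, Polynomial.map_sub,
    Polynomial.map_sub, map_X, map_C, map_C, hqx, hqy, C_0, sub_zero, coeff_X_mul,
    mul_coeff_zero, coeff_X_zero, zero_mul]

variable {p : ℕ} {K₀ : Subfield F} (P : Place p K₀)

theorem ord_neg_h40 {x : F} (hx : x ∈ K₀) (hx0 : x ≠ 0) : P.ord (-x) = P.ord x := by
  have h := P.isVal.mul (-1) (neg_mem (one_mem _)) x hx (neg_ne_zero.mpr one_ne_zero) hx0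
  rw [P.isVal.neg_one, zero_add, neg_one_mul] at h
  exact h

theorem ord_inv_h40 {x : F} (hx : x ∈ K₀) (hx0 : x ≠ 0) : P.ord x⁻¹ = -P.ord x := by
  have h1 := P.isVal.mul x hx _ (inv_mem hx) hx0 (inv_ne_zero hx0)
  rw [mul_inv_cancel₀ hx0, ord_one_h57 P] at h1
  omega

theorem reverse_zero_h40 {f : ℤ[X]} {s : F} (hs0 : s ≠ 0) (h0 : aeval s f = 0) :
    aeval s⁻¹ (reverse f) = 0 := by
  letI : Invertible s := invertibleOfNonzero hs0
  have h2 := (eval₂_reverse_eq_zero_iff (algebraMap ℤ F) s f).2 h0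
  rw [invOf_eq_inv] at h2
  exact h2

theorem red_int_h40 (hp : p.Prime) (z : ℤ) (hz : ¬ (p : ℤ) ∣ z) :
    P.redp hp (Int.castRingHom (ZMod p) z) ≠ 0 := by
  haveI := P.charP hp
  have h6 : ((P.redp hp).comp (Int.castRingHom (ZMod p))) = Int.castRingHom P.κ :=
    RingHom.ext_int _ _
  intro h
  have h7 : Int.castRingHom P.κ z = 0 := by
    rw [← h6]
    exact h
  exact hz ((CharP.intCast_eq_zero_iff P.κ p z).1 h7)

/-- The value of a root which is not integral, if the second coefficient is prime to `p`. -/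
theorem ord_root_h40 (hp : p.Prime) {f : ℤ[X]} (hf0 : f ≠ 0) (hf1 : ¬ (p : ℤ) ∣ f.nextCoeff) {s : F}
    (hs : s ∈ K₀) (hO : s ∉ P.O) (h0 : aeval s f = 0) :
    P.ord s = -P.ord ((f.leadingCoeff : ℤ) : F) := by
  haveI : CharZero F := algebraRat.charZero F
  obtain ⟨hs0, hm, hr⟩ := P.inv_h64 hs hO
  have h1 := reverse_zero_h40 hs0 h0
  rw [← divX_mul_X_add (reverse f), coeff_zero_reverse, map_add, map_mul, aeval_X, aeval_C] at h1
  obtain ⟨h, h3⟩ := P.red_aeval_h64 hp (divX (reverse f)) hm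
  rw [hr, ← coeff_zero_eq_eval_zero, coeff_map, coeff_map, coeff_divX, zero_add,
    coeff_one_reverse] at h3
  set y : F := aeval s⁻¹ (divX (reverse f)) with hy
  have hry : P.red ⟨y, h⟩ ≠ 0 := by
    rw [h3]
    exact red_int_h40 P hp _ hf1
  have hy0 : y ≠ 0 := by
    intro h4
    apply hry
    have h5 : (⟨y, h⟩ : P.O) = 0 := Subtype.ext h4
    rw [h5, map_zero]
  have hyK := ((P.mem_O _).1 h).1
  have hoy : P.ord y = 0 := by
    have h4 : ¬ 0 < P.ord y := by
      rw [← P.red_eq_zero _ h hy0]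
      exact hry
    rcases ((P.mem_O _).1 h).2 with h5 | h5
    · exact absurd h5 hy0
    · omega
  have hsi : s⁻¹ ∈ K₀ := inv_mem hs
  have hsi0 : s⁻¹ ≠ 0 := inv_ne_zero hs0
  have h5 : ((f.leadingCoeff : ℤ) : F) = -(y * s⁻¹) := by
    rw [eq_intCast] at h1
    linear_combination h1
  rw [h5, ord_neg_h40 P (mul_mem hyK hsi) (mul_ne_zero hy0 hsi0), P.isVal.mul _ hyK _ hsi hy0 hsi0,
    hoy, ord_inv_h40 P hs hs0]
  ring

/-- At most one root is not integral, if the second coefficient is prime to `p`. -/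
theorem unique_root_h40 (hp : p.Prime) {f : ℤ[X]} (hf1 : ¬ (p : ℤ) ∣ f.nextCoeff) {s s' : F}
    (hs : s ∈ K₀) (hO : s ∉ P.O) (h0 : aeval s f = 0) (hs' : s' ∈ K₀) (hO' : s' ∉ P.O)
    (h0' : aeval s' f = 0) : s = s' := by
  obtain ⟨hs0, hm, hr⟩ := P.inv_h64 hs hO
  obtain ⟨hs0', hm', hr'⟩ := P.inv_h64 hs' hO'
  have h1 : ((reverse f).map (Int.castRingHom P.O)).eval ⟨s⁻¹, hm⟩ = 0 := by
    apply Subtype.ext
    rw [eval_sub_h57 P _ hm, reverse_zero_h40 hs0 h0]
    rfl
  have h2 : ((reverse f).map (Int.castRingHom P.O)).eval ⟨s'⁻¹, hm'⟩ = 0 := by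
    apply Subtype.ext
    rw [eval_sub_h57 P _ hm', reverse_zero_h40 hs0' h0']
    rfl
  have h3 : P.red (((reverse f).map (Int.castRingHom P.O)).coeff 1) ≠ 0 := by
    rw [coeff_map, coeff_one_reverse]
    have e : P.red.comp (Int.castRingHom P.O) = (P.redp hp).comp (Int.castRingHom (ZMod p)) :=
      RingHom.ext_int _ _
    have e2 : P.red (Int.castRingHom P.O f.nextCoeff) =
        P.redp hp (Int.castRingHom (ZMod p) f.nextCoeff) := RingHom.congr_fun e _
    rw [e2]
    exact red_int_h40 P hp _ hf1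
  have h4 := eq_of_red_h40 P.red h3 h1 h2 hr hr'
  exact inv_injective (congrArg Subtype.val h4)

/-- If all the roots are integral and `p` divides the leading coefficient, the reduction is zero. -/
theorem map_zero_h40 (hp : p.Prime) {f : ℤ[X]} (hf : (p : ℤ) ∣ f.leadingCoeff) (R : Finset F)
    (hRO : ∀ s ∈ R, s ∈ P.O)
    (hfR : f.map (algebraMap ℤ F) = C (algebraMap ℤ F f.leadingCoeff) * ∏ s ∈ R, (X - C s)) :
    f.map (Int.castRingHom (ZMod p)) = 0 := by
  have h1 : f.map (Int.castRingHom P.O) =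
      C (Int.castRingHom P.O f.leadingCoeff) *
        ∏ s ∈ R.attach, (X - C (⟨s.1, hRO s.1 s.2⟩ : P.O)) := by
    apply Polynomial.map_injective P.O.subtype Subtype.val_injective
    rw [Polynomial.map_map, Polynomial.map_mul, Polynomial.map_prod, map_C]
    have e1 : P.O.subtype.comp (Int.castRingHom P.O) = algebraMap ℤ F := RingHom.ext_int _ _
    rw [e1, hfR]
    have e2 : P.O.subtype ((Int.castRingHom P.O) f.leadingCoeff) =
        algebraMap ℤ F f.leadingCoeff := by
      rw [← e1]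
      rfl
    rw [e2, ← Finset.prod_attach]
    congr 1
    refine Finset.prod_congr rfl fun s _ => ?_
    rw [Polynomial.map_sub, map_X, map_C]
    rfl
  haveI := P.charP hp
  haveI : Fact p.Prime := ⟨hp⟩
  have h2 := congrArg (Polynomial.map P.red) h1
  rw [Polynomial.map_map, Polynomial.map_mul, map_C] at h2
  have e1 : P.red.comp (Int.castRingHom P.O) =
      (P.redp hp).comp (Int.castRingHom (ZMod p)) := RingHom.ext_int _ _
  have e3 : P.red (Int.castRingHom P.O f.leadingCoeff) = 0 := by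
    have e2 : P.red (Int.castRingHom P.O f.leadingCoeff) =
        P.redp hp (Int.castRingHom (ZMod p) f.leadingCoeff) := RingHom.congr_fun e1 _
    have e4 : Int.castRingHom (ZMod p) f.leadingCoeff = 0 :=
      (ZMod.intCast_zmod_eq_zero_iff_dvd _ _).2 hf
    rw [e2, e4, map_zero]
  rw [e1, e3, C_0, zero_mul, ← Polynomial.map_map] at h2
  exact (Polynomial.map_eq_zero (P.redp hp)).1 h2

/-- **The valuation at a prime of type K.** Proof: `P` from `exists_place_three` for `S` the set of the nodes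
(`nodes_stable`). The nodes of the other pairs are in `P.O` (`Place.root_mem`). Let
`f = gdif v a b = c_n X ^ n + c_{n-1} X ^ (n-1) + ...`, `p` divides `c_n` exactly once, and not `c_{n-1}`
(`h.deg`, `h.dvd`). (1) A root `s ∉ P.O` of `f`: `s⁻¹ ∈ P.O` has positive order (`Place.inv_h64`), and
`c_n s = - c_{n-1} - c_{n-2} s⁻¹ - ...` has order `0`, so `P.ord s = - P.ord c_n = - P.e`. (2) At most one
root is not in `P.O`: the inverses of two such roots `s`, `s'` are roots of the reverse polynomial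
`g = c_n + c_{n-1} X + ... + c_0 X ^ n`, whose derivative at `0` is a unit:
`0 = g(x) - g(x') = (x - x') (c_{n-1} + element of the maximal ideal)`, so `x = x'`. (3) At least one: if all
roots are in `P.O`, then in `f = c_n ∏ (X - s)` all coefficients have positive order or are zero,
contradiction for `c_{n-1}`. So there is exactly one such root `u`. (4) Two different nodes in `P.O` have
different reductions: `h.sep` (`Place.red_ne_of_separable`) and `h.cop` (`Place.red_ne_of_isCoprime`).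
(5) `P.e = 1`: otherwise some `σ` in the inertia group moves a node; it permutes the nodes of each pair, fixes
all nodes in `P.O` by (4), and so it fixes `u` (the only root of `f` which is left), contradiction. (6) The
values: `P.ord (s - s') = 0` for nodes `s ≠ s'` in `P.O` (`Place.ord_sub_eq_zero`), `P.ord (u - s) = -1`
(`u - s = u (1 - s u⁻¹)`); `P.ord c_n = 1` and the other leading coefficients are prime to `p`. -/
theorem exists_val_typeK (v : ι × Fin (n + 1) → ℤ) {p : ℕ} (hp : p.Prime) {a b : ι}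
    (hab : a ≠ b) (h : TypeK p a b v) (hn : 2 ≤ n) (hsep : (gpolQ v a - gpolQ v b).Separable) :
    ∃ (ν : F → ℤ) (u : F), aeval u (gpolQ v a) = aeval u (gpolQ v b) ∧
      IsVal (IntermediateField.adjoin ℚ (nodes ℚ F (gpolQ v))).toSubfield ν ∧
      DifV ν (gpolQ v) (fun s s' => if s = u ∨ s' = u then -1 else 0)
        (fun c d => if ({c, d} : Set ι) = {a, b} then 1 else 0) := by
  haveI : Fact p.Prime := ⟨hp⟩
  haveI : CharZero F := algebraRat.charZero F
  -- the leading coefficients
  have hlead : ∀ c d, c ≠ d → v (c, Fin.last n) ≠ v (d, Fin.last n) := by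
    intro c d hcd he
    by_cases hs : ({c, d} : Set ι) = {a, b}
    · apply h.ndvd
      rcases Set.pair_eq_pair_iff.1 hs with ⟨h2, h3⟩ | ⟨h2, h3⟩
      · rw [← h2, ← h3, he, sub_self]
        exact dvd_zero _
      · rw [← h2, ← h3, he, sub_self]
        exact dvd_zero _
    · apply h.lead c d hcd hs
      rw [he, sub_self]
      exact dvd_zero _
  have hlc : ∀ c d, c ≠ d → ({c, d} : Set ι) ≠ {a, b} →
      ¬ (p : ℤ) ∣ (gdif v c d).leadingCoeff := by
    intro c d hcd hs
    rw [gdif_leadingCoeff (hlead c d hcd)]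
    exact h.lead c d hcd hs
  have hg0 : ∀ c d, c ≠ d → gdif v c d ≠ 0 := by
    intro c d hcd h0
    have h1 := gdif_leadingCoeff (hlead c d hcd)
    rw [h0, leadingCoeff_zero] at h1
    exact hlead c d hcd (sub_eq_zero.1 h1.symm)
  have hne : ∀ c d, c ≠ d → gpolQ v c ≠ gpolQ v d := by
    intro c d hcd he
    have h1 := gdif_map_rat v c d
    rw [he, sub_self] at h1
    exact hg0 c d hcd ((Polynomial.map_eq_zero_iff (Int.castRingHom ℚ).injective_int).1 h1)
  obtain ⟨P, hP, -⟩ := exists_place_three (F := F) hp (nodes ℚ F (gpolQ v)) (nodes_gpolQ_finite hne)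
    (nodes_stable (gpolQ v))
  have hzero : ∀ (c d : ι) (s : F), aeval s (gpolQ v c) = aeval s (gpolQ v d) →
      aeval s (gdif v c d) = 0 := by
    intro c d s hs
    rw [aeval_gdif, hs, sub_self]
  have hSK : ∀ s ∈ nodes ℚ F (gpolQ v),
      s ∈ (IntermediateField.adjoin ℚ (nodes ℚ F (gpolQ v))).toSubfield := fun s hs =>
    IntermediateField.subset_adjoin ℚ _ hs
  -- the second coefficient
  have hnd : (gdif v a b).natDegree = n := gdif_natDegree (hlead a b hab)
  have hnc : ¬ (p : ℤ) ∣ (gdif v a b).nextCoeff := by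
    intro hd
    rw [nextCoeff_of_natDegree_pos (by rw [hnd]; omega), hnd] at hd
    have h1 : (gred p v a b).coeff (n - 1) = 0 := by
      unfold gred
      rw [coeff_map]
      exact (ZMod.intCast_zmod_eq_zero_iff_dvd _ _).2 hd
    have h2 : (gred p v a b).natDegree = n - 1 := by
      have := h.deg
      omega
    rw [← h2, coeff_natDegree, leadingCoeff_eq_zero] at h1
    rw [h1, natDegree_zero] at h2
    omega
  have hlcab : (gdif v a b).leadingCoeff = v (a, Fin.last n) - v (b, Fin.last n) :=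
    gdif_leadingCoeff (hlead a b hab)
  obtain ⟨R, hR, hfR⟩ := exists_roots (F := F) hsep
  have hRS : ∀ s ∈ R, s ∈ nodes ℚ F (gpolQ v) := fun s hs => ⟨a, b, hab, (hR s).1 hs⟩
  -- the exceptional root
  obtain ⟨u, huR, huO⟩ : ∃ u ∈ R, u ∉ P.O := by
    by_contra hcon
    push Not at hcon
    have h1 := map_zero_h40 P hp (f := gdif v a b) (by rw [hlcab]; exact h.dvd) R hcon hfR
    have h2 : (gred p v a b).Separable := h.sep a b hab
    unfold gred at h2
    rw [h1] at h2
    exact not_separable_zero h2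
  have hu0 : aeval u (gpolQ v a) = aeval u (gpolQ v b) := (hR u).1 huR
  have huK := hSK u (hRS u huR)
  -- the pair of a node
  have hpair : ∀ (c d : ι) (s : F), ({c, d} : Set ι) = {a, b} →
      aeval s (gpolQ v c) = aeval s (gpolQ v d) → aeval s (gpolQ v a) = aeval s (gpolQ v b) := by
    intro c d s hs h1
    rcases Set.pair_eq_pair_iff.1 hs with ⟨h2, h3⟩ | ⟨h2, h3⟩
    · rw [← h2, ← h3]; exact h1
    · rw [← h2, ← h3]; exact h1.symm
  have huniq : ∀ s ∈ nodes ℚ F (gpolQ v), s ∉ P.O → s = u := by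
    intro s hs hsO
    obtain ⟨c, d, hcd, hs2⟩ := id hs
    by_cases hset : ({c, d} : Set ι) = {a, b}
    · exact unique_root_h40 P hp hnc (hSK s hs) hsO (hzero a b s (hpair c d s hset hs2)) huK huO
        (hzero a b u hu0)
    · exact absurd (P.root_mem hp (hlc c d hcd hset) (hSK s hs) (hzero c d s hs2)) hsO
  have hSO : ∀ s ∈ nodes ℚ F (gpolQ v), s ≠ u → s ∈ P.O := by
    intro s hs hsu
    by_contra hcon
    exact hsu (huniq s hs hcon)
  -- reductions
  have hred : ∀ s ∈ nodes ℚ F (gpolQ v), ∀ s' ∈ nodes ℚ F (gpolQ v), s ≠ s' →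
      ∀ (hs : s ∈ P.O) (hs' : s' ∈ P.O), P.red ⟨s, hs⟩ ≠ P.red ⟨s', hs'⟩ := by
    rintro s ⟨c, d, hcd, h1⟩ s' ⟨c', d', hcd', h1'⟩ hss hs hs'
    by_cases hset : ({c, d} : Set ι) = {c', d'}
    · refine P.red_ne_of_separable hp (f := gdif v c d) (h.sep c d hcd) hs hs' (hzero c d s h1)
        (hzero c d s' ?_) hss
      rcases Set.pair_eq_pair_iff.1 hset with ⟨h2, h3⟩ | ⟨h2, h3⟩
      · rw [h2, h3]; exact h1'
      · rw [h2, h3]; exact h1'.symm
    · exact P.red_ne_of_isCoprime hp (f := gdif v c d) (g := gdif v c' d')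
        (h.cop c d c' d' hcd hcd' hset) hs hs' (hzero c d s h1) (hzero c' d' s' h1')
  -- the ramification index
  have he : P.e = 1 := by
    by_contra hcon
    have he2 : 2 ≤ P.e := by
      have := P.e_pos
      omega
    obtain ⟨σ, ⟨s₀, hs₀, hs₀ne⟩, hσ⟩ := hP he2
    have hstab := nodes_stable (gpolQ v) σ
    have hfix : ∀ s ∈ nodes ℚ F (gpolQ v), s ∈ P.O → σ s = s := by
      intro s hs hsO
      obtain ⟨h1, h2⟩ := hσ s hsO
      by_contra h3
      exact hred (σ s) (hstab s hs) s hs h3 h1 hsO h2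
    have hσu : σ u = u := by
      have h1 := hstab u (hRS u huR)
      by_cases h2 : σ u ∈ P.O
      · have h3 := hfix (σ u) h1 h2
        exact σ.injective h3
      · exact huniq _ h1 h2
    apply hs₀ne
    by_cases h1 : s₀ ∈ P.O
    · exact hfix s₀ hs₀ h1
    · rw [huniq s₀ hs₀ h1]
      exact hσu
  -- the values
  have hval : padicValInt p (v (a, Fin.last n) - v (b, Fin.last n)) = 1 := by
    have h0 : v (a, Fin.last n) - v (b, Fin.last n) ≠ 0 := sub_ne_zero.2 (hlead a b hab)
    have h1 : 1 ≤ padicValInt p (v (a, Fin.last n) - v (b, Fin.last n)) := by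
      have := (padicValInt_dvd_iff (p := p) 1 (v (a, Fin.last n) - v (b, Fin.last n))).1
        (by rw [pow_one]; exact h.dvd)
      exact this.resolve_left h0
    have h2 : ¬ 2 ≤ padicValInt p (v (a, Fin.last n) - v (b, Fin.last n)) := fun h3 =>
      h.ndvd ((padicValInt_dvd_iff (p := p) 2 _).2 (Or.inr h3))
    omega
  have hordab : P.ord (((v (a, Fin.last n) - v (b, Fin.last n) : ℤ)) : F) = 1 := by
    rw [P.rat _ (sub_ne_zero.2 (hlead a b hab)), hval, he]
    rfl
  have hordu : P.ord u = -1 := by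
    rw [ord_root_h40 P hp (hg0 a b hab) hnc huK huO (hzero a b u hu0), hlcab, hordab]
  have hu_ne : u ≠ 0 := by
    intro h0
    apply huO
    rw [h0]
    exact zero_mem _
  have hus : ∀ s ∈ nodes ℚ F (gpolQ v), s ≠ u → P.ord (u - s) = -1 := by
    intro s hs hsu
    have hsO := hSO s hs hsu
    rcases ((P.mem_O s).1 hsO).2 with h0 | h0
    · rw [h0, sub_zero]
      exact hordu
    · by_cases hs0 : s = 0
      · rw [hs0, sub_zero]
        exact hordu
      · have h1 := ord_neg_h40 P (hSK s hs) hs0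
        have h2 := (P.ord_add huK (neg_mem (hSK s hs)) hu_ne (neg_ne_zero.2 hs0)
          (by rw [h1, hordu]; omega)).2
        rw [← sub_eq_add_neg, hordu] at h2
        exact h2
  refine ⟨P.ord, u, hu0, P.isVal, ?_, ?_⟩
  · intro s hs s' hs' hss
    show P.ord (s - s') = if s = u ∨ s' = u then -1 else 0
    by_cases h1 : s = u
    · rw [if_pos (Or.inl h1), h1]
      exact hus s' hs' fun h2 => hss (h1.trans h2.symm)
    · by_cases h2 : s' = u
      · rw [if_pos (Or.inr h2), h2, ← neg_sub u s, ord_neg_h40 P (sub_mem huK (hSK s hs))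
          (sub_ne_zero.2 fun h3 => h1 h3.symm)]
        exact hus s hs h1
      · rw [if_neg (by tauto)]
        exact P.ord_sub_eq_zero (hSO s hs h1) (hSO s' hs' h2)
          (hred s hs s' hs' hss (hSO s hs h1) (hSO s' hs' h2))
  · intro i j hij
    show P.ord (algebraMap ℚ F (gpolQ v i - gpolQ v j).leadingCoeff) =
      if ({i, j} : Set ι) = {a, b} then 1 else 0
    have h1 : algebraMap ℚ F (gpolQ v i - gpolQ v j).leadingCoeff =
        (((v (i, Fin.last n) - v (j, Fin.last n) : ℤ)) : F) := by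
      rw [← gdif_map_rat, leadingCoeff_map_of_injective (Int.castRingHom ℚ).injective_int,
        gdif_leadingCoeff (hlead i j hij)]
      rw [eq_intCast, map_intCast]
    rw [h1]
    by_cases hset : ({i, j} : Set ι) = {a, b}
    · rw [if_pos hset]
      rcases Set.pair_eq_pair_iff.1 hset with ⟨h2, h3⟩ | ⟨h2, h3⟩
      · rw [h2, h3]
        exact hordab
      · rw [h2, h3]
        have h4 : (((v (b, Fin.last n) - v (a, Fin.last n) : ℤ)) : F) =
            -(((v (a, Fin.last n) - v (b, Fin.last n) : ℤ)) : F) := by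
          push_cast
          ring
        rw [h4, ord_neg_h40 P (intCast_mem _ _)
          (Int.cast_ne_zero.2 (sub_ne_zero.2 (hlead a b hab)))]
        exact hordab
    · rw [if_neg hset, P.rat _ (sub_ne_zero.2 (hlead i j hij)),
        padicValInt.eq_zero_of_not_dvd (h.lead i j hij hset)]
      simp

end Pool.Agent.Lib.MP_89bcae_ag

end

section

/-!
# Counting polynomials modulo `p` and modulo `p ^ 2`, for `g` of any degree
-/

open Polynomial

open scoped Classical

set_option linter.unusedSimpArgs false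
set_option linter.unusedVariables false
set_option linter.unusedSectionVars false
set_option linter.style.haveILetI false

namespace Pool.Agent.Lib.MP_89bcae_ag

section Crit

variable {K : Type*} [Field K]


end Crit

section Irr

/-- The number of the irreducible polynomials. -/
lemma irr_lower14 {k : Type} [Field k] [Fintype k] (hq : 3 ≤ Fintype.card k) {n : ℕ} (hn : 2 ≤ n) :
    Fintype.card k ^ n ≤ 2 * (n * (family (X : k[X]) n).ncard) := by
  have hfin := family_finite8 (X : k[X]) n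
  have hfam : ∀ D ∈ hfin.toFinset, D.Monic ∧ D.natDegree = n ∧ Irreducible D := by
    intro D hD
    rw [Set.Finite.mem_toFinset] at hD
    exact ⟨hD.1, hD.2.1, by simpa using hD.2.2⟩
  have hcard : hfin.toFinset.card = (family (X : k[X]) n).ncard :=
    (Set.ncard_eq_toFinset_card _ hfin).symm
  obtain ⟨A, hA1, hA2⟩ := exists_roots_card8 (F := AlgebraicClosure k) n hfin.toFinset hfam
  have h1 := Frob14.card_fixS (k := k) (F := AlgebraicClosure k) (i := n) (by omega)
  have h2 := Frob14.small_card (k := k) (F := AlgebraicClosure k) n (by omega)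
  have h3 := Frob14.two_mul_sum_pow_le hq (n / 2)
  have h4 : 3 * Fintype.card k ^ (n / 2) ≤ Fintype.card k ^ n := by
    calc 3 * Fintype.card k ^ (n / 2) ≤ Fintype.card k * Fintype.card k ^ (n - 1) :=
          Nat.mul_le_mul hq (Nat.pow_le_pow_right (by omega) (by omega))
      _ = Fintype.card k ^ n := by
          rw [← pow_succ']
          congr 1
          omega
  have h5 := Finset.card_filter_add_card_filter_not (s := Frob14.fixS k (AlgebraicClosure k) n)
    (fun v => ∃ j, 0 < j ∧ j < n ∧ v ^ (Fintype.card k ^ j) = v)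
  have h6 : ((Frob14.fixS k (AlgebraicClosure k) n).filter
      (fun v => ¬ ∃ j, 0 < j ∧ j < n ∧ v ^ (Fintype.card k ^ j) = v)).card ≤ A.card := by
    apply Finset.card_le_card
    intro a ha
    rw [Finset.mem_filter, Frob14.mem_fixS (by omega)] at ha
    obtain ⟨ha1, ha2⟩ := ha
    rw [hA1, Set.Finite.mem_toFinset]
    have hint : IsIntegral k a := Algebra.IsIntegral.isIntegral a
    refine ⟨minpoly.monic hint, ?_, ?_⟩
    · have h1 : (minpoly k a).natDegree ∣ n := by
        rw [← frob8_pow_eq_iff, frob8_pow_apply, ha1]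
      have h2 := Nat.le_of_dvd (by omega) h1
      have h3 : 0 < (minpoly k a).natDegree := minpoly.natDegree_pos hint
      by_contra h4
      apply ha2
      refine ⟨(minpoly k a).natDegree, h3, lt_of_le_of_ne h2 h4, ?_⟩
      rw [← frob8_pow_apply, frob8_pow_eq_iff]
    · rw [comp_X]
      exact minpoly.irreducible hint
  rw [hA2, hcard] at h6
  omega

variable {k : Type} [Field k] [Fintype k]

/-- The number of the products of a linear and an irreducible polynomial. -/
lemma count_BX14 {n : ℕ} (hn : 3 ≤ n) :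
    (Fintype.card k - 1) * Fintype.card k * (family (X : k[X]) (n - 1)).ncard ≤
      ({v : Fin (n + 1) → k | ∃ f : k[X], coeffs14 n f = v ∧ f.natDegree = n ∧
        ∃ (b : k) (D₁ : k[X]), f = (X - C b) * D₁ ∧ Irreducible D₁ ∧ D₁.natDegree = n - 1}).ncard := by
  have huniv : Fintype.card k = (Set.univ : Set k).ncard := by
    rw [Set.ncard_univ, Nat.card_eq_fintype_card]
  rw [← ncard_ne_zero14]
  conv_lhs => rw [huniv]
  rw [← Set.ncard_prod, ← Set.ncard_prod]
  apply Set.ncard_le_ncard_of_injOn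
    (fun x : (k × k) × k[X] => coeffs14 n (C x.1.1 * ((X - C x.1.2) * x.2)))
  · rintro ⟨⟨u, α⟩, D⟩ ⟨⟨hu, -⟩, h1, h2, h3⟩
    simp only at hu h1 h2 h3
    rw [comp_X] at h3
    refine ⟨_, rfl, ?_, α, C u * D, ?_, ?_, ?_⟩
    · change (C u * ((X - C α) * D)).natDegree = n
      rw [natDegree_C_mul hu, (monic_X_sub_C α).natDegree_mul h1, natDegree_X_sub_C, h2]
      omega
    · change C u * ((X - C α) * D) = _
      ring
    · have hu' : IsUnit (C u : k[X]) := isUnit_C.mpr (isUnit_iff_ne_zero.mpr hu)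
      rw [irreducible_isUnit_mul hu']
      exact h3
    · rw [natDegree_C_mul hu, h2]
  · rintro ⟨⟨u, α⟩, D⟩ ⟨⟨hu, -⟩, h1, h2, h3⟩ ⟨⟨u', α'⟩, D'⟩ ⟨⟨hu', -⟩, h1', h2', h3'⟩ h
    simp only at hu hu' h1 h2 h3 h1' h2' h3' h
    rw [comp_X] at h3 h3'
    have hdg : ∀ (u α : k) (D : k[X]), u ≠ 0 → D.Monic → D.natDegree = n - 1 →
        (C u * ((X - C α) * D)).natDegree ≤ n := by
      intro u α D hu h1 h2
      rw [natDegree_C_mul hu, (monic_X_sub_C α).natDegree_mul h1, natDegree_X_sub_C, h2]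
      omega
    have h4 := coeffs_inj14 (hdg u α D hu h1 h2) (hdg u' α' D' hu' h1' h2') h
    have h5 := congrArg leadingCoeff h4
    rw [leadingCoeff_mul, leadingCoeff_C, ((monic_X_sub_C α).mul h1).leadingCoeff, mul_one,
      leadingCoeff_mul, leadingCoeff_C, ((monic_X_sub_C α').mul h1').leadingCoeff, mul_one] at h5
    subst h5
    have h6 := mul_left_cancel₀ (C_ne_zero.mpr hu) h4
    have h7 : α = α' := by
      by_contra hne
      have h8 := congrArg (eval α) h6
      rw [eval_mul, eval_sub, eval_X, eval_C, sub_self, zero_mul, eval_mul, eval_sub, eval_X,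
        eval_C, eq_comm, mul_eq_zero] at h8
      rcases h8 with h8 | h8
      · exact hne (sub_eq_zero.mp h8)
      · have h9 : D'.natDegree = 1 := natDegree_eq_of_degree_eq_some
          (degree_eq_one_of_irreducible_of_root h3' h8)
        rw [h2'] at h9
        omega
    subst h7
    rw [Prod.mk.injEq]
    exact ⟨rfl, mul_left_cancel₀ (X_sub_C_ne_zero α) h6⟩

end Irr

/-- The polynomial is irreducible of degree `n`. -/
def TypeAX14 {κ : Type} [Field κ] (D : κ[X]) (n : ℕ) : Prop :=
  Irreducible D ∧ D.natDegree = n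

/-- The polynomial is the product of a linear polynomial and an irreducible polynomial of degree
`n - 1`. -/
def TypeBX14 {κ : Type} [Field κ] (D : κ[X]) (n : ℕ) : Prop :=
  ∃ (b : κ) (D₁ : κ[X]), D = (X - C b) * D₁ ∧ Irreducible D₁ ∧ D₁.natDegree = n - 1 ∧
    D.natDegree = n


/-- The number of the residue classes of type A. -/
theorem count_typeAX14 (n : ℕ) (hn : 2 ≤ n) : ∃ c : ℝ, 0 < c ∧ ∃ P₀ : ℕ, ∀ p : ℕ,
    ∀ _ : Fact p.Prime, P₀ ≤ p →
      c * (p : ℝ) ^ (n + 1) ≤
        ({v : Fin (n + 1) → ZMod p | TypeAX14 (polyOf8 v) n}.ncard : ℝ) := by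
  have hn0 : (0 : ℝ) < n := by exact_mod_cast (by omega : 0 < n)
  refine ⟨1 / (4 * n), by positivity, 3, fun p _ hp3 => ?_⟩
  have hp : p.Prime := Fact.out
  have hcard := ZMod.card p
  have h3 := irr_lower14 (k := ZMod p) (by rw [hcard]; exact hp3) hn
  have h4 := count_A14 (X : (ZMod p)[X]) n
  rw [hcard] at h3 h4
  have h5 : ({v : Fin (n + 1) → ZMod p | ∃ f : (ZMod p)[X], coeffs14 n f = v ∧
      f.natDegree = n ∧ Irreducible (f.comp X)}).ncard ≤
      {v : Fin (n + 1) → ZMod p | TypeAX14 (polyOf8 v) n}.ncard := by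
    apply Set.ncard_le_ncard _ (Set.toFinite _)
    rintro v ⟨f, rfl, hfn, hirr⟩
    change TypeAX14 (polyOf8 (coeffs14 n f)) n
    rw [polyOf_coeffs14 hfn]
    rw [comp_X] at hirr
    exact ⟨hirr, hfn⟩
  have h6 : ((p : ℝ) - 1) * ((family (X : (ZMod p)[X]) n).ncard : ℝ) ≤
      ({v : Fin (n + 1) → ZMod p | TypeAX14 (polyOf8 v) n}.ncard : ℝ) := by
    have h7 := h4.trans h5
    have h8 : (((p - 1) * (family (X : (ZMod p)[X]) n).ncard : ℕ) : ℝ) =
        ((p : ℝ) - 1) * ((family (X : (ZMod p)[X]) n).ncard : ℝ) := by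
      rw [Nat.cast_mul, Nat.cast_sub (by omega), Nat.cast_one]
    rw [← h8]
    exact_mod_cast h7
  refine le_trans ?_ h6
  have h7 : (p : ℝ) ^ n ≤ 2 * (n * ((family (X : (ZMod p)[X]) n).ncard : ℝ)) := by
    exact_mod_cast h3
  have hp3' : (3 : ℝ) ≤ p := by exact_mod_cast hp3
  rw [div_mul_eq_mul_div, one_mul, div_le_iff₀ (by positivity)]
  have h8 : (0 : ℝ) ≤ ((family (X : (ZMod p)[X]) n).ncard : ℝ) := Nat.cast_nonneg _
  calc (p : ℝ) ^ (n + 1) = p * (p : ℝ) ^ n := by ring
    _ ≤ p * (2 * (n * ((family (X : (ZMod p)[X]) n).ncard : ℝ))) := by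
        apply mul_le_mul_of_nonneg_left h7; linarith
    _ = 2 * p * (n * ((family (X : (ZMod p)[X]) n).ncard : ℝ)) := by ring
    _ ≤ 4 * (p - 1) * (n * ((family (X : (ZMod p)[X]) n).ncard : ℝ)) := by
        apply mul_le_mul_of_nonneg_right _ (by positivity)
        linarith
    _ = _ := by ring

/-- The number of the residue classes of type B. -/
theorem count_typeBX14 (n : ℕ) (hn : 3 ≤ n) : ∃ c : ℝ, 0 < c ∧ ∃ P₀ : ℕ, ∀ p : ℕ,
    ∀ _ : Fact p.Prime, P₀ ≤ p →
      c * (p : ℝ) ^ (n + 1) ≤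
        ({v : Fin (n + 1) → ZMod p | TypeBX14 (polyOf8 v) n}.ncard : ℝ) := by
  have hn0 : (0 : ℝ) < n := by exact_mod_cast (by omega : 0 < n)
  refine ⟨1 / (4 * n), by positivity, 3, fun p _ hp3 => ?_⟩
  have hp : p.Prime := Fact.out
  have hcard := ZMod.card p
  have h3 := irr_lower14 (k := ZMod p) (by rw [hcard]; exact hp3) (n := n - 1) (by omega)
  have h4 := count_BX14 (k := ZMod p) hn
  rw [hcard] at h3 h4
  have h5 : ({v : Fin (n + 1) → ZMod p | ∃ f : (ZMod p)[X], coeffs14 n f = v ∧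
      f.natDegree = n ∧ ∃ (b : ZMod p) (D₁ : (ZMod p)[X]), f = (X - C b) * D₁ ∧
        Irreducible D₁ ∧ D₁.natDegree = n - 1}).ncard ≤
      {v : Fin (n + 1) → ZMod p | TypeBX14 (polyOf8 v) n}.ncard := by
    apply Set.ncard_le_ncard _ (Set.toFinite _)
    rintro v ⟨f, rfl, hfn, b, D₁, hf, hirr, hd⟩
    change TypeBX14 (polyOf8 (coeffs14 n f)) n
    rw [polyOf_coeffs14 hfn]
    exact ⟨b, D₁, hf, hirr, hd, hfn⟩
  have h6 : ((p : ℝ) - 1) * p * ((family (X : (ZMod p)[X]) (n - 1)).ncard : ℝ) ≤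
      ({v : Fin (n + 1) → ZMod p | TypeBX14 (polyOf8 v) n}.ncard : ℝ) := by
    have h7 := h4.trans h5
    have h8 : (((p - 1) * p * (family (X : (ZMod p)[X]) (n - 1)).ncard : ℕ) : ℝ) =
        ((p : ℝ) - 1) * p * ((family (X : (ZMod p)[X]) (n - 1)).ncard : ℝ) := by
      rw [Nat.cast_mul, Nat.cast_mul, Nat.cast_sub (by omega), Nat.cast_one]
    rw [← h8]
    exact_mod_cast h7
  refine le_trans ?_ h6
  have h7 : (p : ℝ) ^ (n - 1) ≤
      2 * (((n - 1 : ℕ) : ℝ) * ((family (X : (ZMod p)[X]) (n - 1)).ncard : ℝ)) := by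
    exact_mod_cast h3
  have hp3' : (3 : ℝ) ≤ p := by exact_mod_cast hp3
  have h8 : (0 : ℝ) ≤ ((family (X : (ZMod p)[X]) (n - 1)).ncard : ℝ) := Nat.cast_nonneg _
  have h9 : (p : ℝ) ^ (n - 1) ≤ 2 * (n * ((family (X : (ZMod p)[X]) (n - 1)).ncard : ℝ)) := by
    refine h7.trans ?_
    have : ((n - 1 : ℕ) : ℝ) ≤ n := by exact_mod_cast Nat.sub_le _ _
    nlinarith [mul_le_mul_of_nonneg_right this h8]
  rw [div_mul_eq_mul_div, one_mul, div_le_iff₀ (by positivity)]
  have h12 : (p : ℝ) ^ (n + 1) = p ^ 2 * (p : ℝ) ^ (n - 1) := by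
    rw [← pow_add]
    congr 1
    omega
  have h13 : (p : ℝ) ^ 2 ≤ 2 * ((p - 1) * p) := by nlinarith
  calc (p : ℝ) ^ (n + 1) = p ^ 2 * (p : ℝ) ^ (n - 1) := h12
    _ ≤ 2 * ((p - 1) * p) * (2 * (n * ((family (X : (ZMod p)[X]) (n - 1)).ncard : ℝ))) := by
        apply mul_le_mul h13 h9 (by positivity)
        apply le_trans _ h13
        positivity
    _ = _ := by ring

end Pool.Agent.Lib.MP_89bcae_ag

end

section

/-!
# The valuation at a prime of type D
-/

open Polynomial

open scoped Classical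

namespace Pool.Agent.Lib.MP_89bcae_ag

open Superelliptic

section Aux

variable {F : Type} [Field F] [Algebra ℚ F] {p : ℕ} {K₀ : Subfield F} (P : Place p K₀)

omit [Algebra ℚ F] in
theorem ord_neg_h64 {x : F} (hx : x ∈ K₀) (hx0 : x ≠ 0) : P.ord (-x) = P.ord x := by
  have h1 := P.isVal.mul (-1) (neg_mem (one_mem _)) x hx (neg_ne_zero.2 one_ne_zero) hx0
  rw [P.isVal.neg_one, neg_one_mul, zero_add] at h1
  exact h1

omit [Algebra ℚ F] in
theorem ord_div_h64 {x y : F} (hx : x ∈ K₀) (hy : y ∈ K₀) (hx0 : x ≠ 0) (hy0 : y ≠ 0) :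
    P.ord (x / y) = P.ord x - P.ord y := by
  have h1 := P.isVal.mul (x / y) (div_mem hx hy) y hy (div_ne_zero hx0 hy0) hy0
  rw [div_mul_cancel₀ _ hy0] at h1
  omega

omit [Algebra ℚ F] in
/-- A quotient by an element of smaller value is integral. -/
theorem div_mem_O_h64 {x y : F} (hx : x ∈ K₀) (hy : y ∈ K₀) (hy0 : y ≠ 0)
    (h : x ≠ 0 → P.ord y ≤ P.ord x) : x / y ∈ P.O := by
  rw [P.mem_O]
  refine ⟨div_mem hx hy, ?_⟩
  by_cases hx0 : x = 0
  · left
    rw [hx0, zero_div]
  · right
    rw [ord_div_h64 P hx hy hx0 hy0]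
    have := h hx0
    omega

/-- The algebra of the double root: `y = (z - u) + (z - w)` has value at least `2`. -/
theorem double_root_h64 {lc fz' G G' a b : F} (hlc : lc ∈ K₀) (hlc0 : lc ≠ 0) (hlcv : P.ord lc = 0)
    (hG : G ∈ K₀) (hG0 : G ≠ 0) (hGv : P.ord G = 0) (hG' : G' ∈ P.O)
    (ha : a ∈ K₀) (ha0 : a ≠ 0) (hav : P.ord a = 1) (hb : b ∈ K₀) (hb0 : b ≠ 0) (hbv : P.ord b = 1)
    (hf : fz' ∈ K₀) (hfv : fz' ≠ 0 → 2 ≤ P.ord fz')
    (he : fz' = lc * ((a + b) * G + a * b * G')) (hab0 : a + b ≠ 0) : 2 ≤ P.ord (a + b) := by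
  have haa : a * a ∈ K₀ := mul_mem ha ha
  have haa0 : a * a ≠ 0 := mul_ne_zero ha0 ha0
  have haav : P.ord (a * a) = 2 := by
    rw [P.isVal.mul a ha a ha ha0 ha0, hav]
    rfl
  have h1 : fz' / (a * a) ∈ P.O := by
    refine div_mem_O_h64 P hf haa haa0 fun h => ?_
    rw [haav]
    exact hfv h
  have h2 : (1 : F) / lc ∈ P.O := by
    refine div_mem_O_h64 P (one_mem _) hlc hlc0 fun _ => ?_
    rw [hlcv, ord_one_h57 P]
  have h3 : (1 : F) / G ∈ P.O := by
    refine div_mem_O_h64 P (one_mem _) hG hG0 fun _ => ?_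
    rw [hGv, ord_one_h57 P]
  have h4 : b / a ∈ P.O := by
    refine div_mem_O_h64 P hb ha ha0 fun _ => ?_
    rw [hav, hbv]
  have h5 : (a + b) / (a * a) = (fz' / (a * a) * (1 / lc) - b / a * G') * (1 / G) := by
    rw [he]
    field_simp
    ring
  have h6 : (a + b) / (a * a) ∈ P.O := by
    rw [h5]
    exact mul_mem (sub_mem (mul_mem h1 h2) (mul_mem h4 hG')) h3
  have h7 := ((P.mem_O _).1 h6).2
  rcases h7 with h7 | h7
  · exact absurd h7 (div_ne_zero hab0 haa0)
  · rw [ord_div_h64 P (add_mem ha hb) haa hab0 haa0, haav] at h7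
    omega

end Aux

variable {ι : Type} [Fintype ι] [LinearOrder ι] {n : ℕ} {F : Type} [Field F] [Algebra ℚ F]
  [IsAlgClosure ℚ F]

/-- **The valuation at a prime of type D.** Proof: `P` from `exists_place_three` for `S` the set of the nodes
(`nodes_stable`). All the nodes are in `P.O` (`Place.root_mem`). Two different nodes `s`, `s'` with the same
reduction are the two roots `u`, `w` of `α_a - α_b` with the reduction of `z` (`h.cop`:
`Place.red_ne_of_isCoprime`; `h.sep`: `Place.red_ne_of_separable`; for `α_a - α_b` see the proof of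
`exists_swap_typeD` (`Gph/Swap.lean`)). An element of the inertia group fixes all the other nodes and
permutes `u`, `w`; so `P.e < 3` by the second part of `exists_place_three`. With
`f = gdif v a b = lc ∏ (X - s)`, `P.ord (f z) = P.e * 1` (`Place.rat`, `h.dbl`: `p` divides `f z` exactly
once; `Place.ord_aeval`), and it is `P.ord (z - u) + P.ord (z - w)`, both `≥ 1` (`Place.ord_sub_pos`): so
`P.e = 2` and both are `1`. The derivative: `f' z` is divisible by `p` (double root modulo `p`), so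
`P.ord (f' z) ≥ 2` (or it is `0`) and `f' z = lc ((z - u) + (z - w)) g z + lc (z - u) (z - w) g' z` with
`g = ∏` over the other roots, `P.ord (g z) = 0`: `(z - u) + (z - w)` is `0` or has `P.ord ≥ 2`. Since
`p ≠ 2`, `P.ord (2 (z - u)) = 1`, and `u - w = ((z - u) + (z - w)) - 2 (z - u)`, so `P.ord (u - w) = 1`
(`Place.ord_add` or the ideal `{x | x = 0 ∨ 2 ≤ ord x}` of `P.O`). The other differences have different
reductions (`Place.ord_sub_eq_zero`). The leading coefficients are prime to `p` (`h.lead`,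
`Place.rat`). -/
theorem exists_val_typeD (v : ι × Fin (n + 1) → ℤ) {p : ℕ} (hp : p.Prime) (hp2 : p ≠ 2) {a b : ι}
    (hab : a ≠ b) (h : TypeD p a b v) (hsep : (gpolQ v a - gpolQ v b).Separable) :
    ∃ (ν : F → ℤ) (u w : F), u ≠ w ∧ aeval u (gpolQ v a) = aeval u (gpolQ v b) ∧
      aeval w (gpolQ v a) = aeval w (gpolQ v b) ∧
      IsVal (IntermediateField.adjoin ℚ (nodes ℚ F (gpolQ v))).toSubfield ν ∧
      DifV ν (gpolQ v) (fun s s' => if s ∈ ({u, w} : Set F) ∧ s' ∈ ({u, w} : Set F) then 1 else 0)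
        (fun _ _ => 0) := by
  have : Fact p.Prime := ⟨hp⟩
  have : CharZero F := algebraRat.charZero F
  have hlead : ∀ c d, c ≠ d → v (c, Fin.last n) ≠ v (d, Fin.last n) := by
    intro c d hcd he
    apply h.lead c d hcd
    rw [he, sub_self]
    exact dvd_zero _
  have hlc : ∀ c d, c ≠ d → ¬ (p : ℤ) ∣ (gdif v c d).leadingCoeff := by
    intro c d hcd
    rw [gdif_leadingCoeff (hlead c d hcd)]
    exact h.lead c d hcd
  have hne : ∀ c d, c ≠ d → gpolQ v c ≠ gpolQ v d := by
    intro c d hcd he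
    have h1 := gdif_map_rat v c d
    rw [he, sub_self] at h1
    have h2 : gdif v c d = 0 :=
      (Polynomial.map_eq_zero_iff (Int.castRingHom ℚ).injective_int).1 h1
    apply hlc c d hcd
    rw [h2, leadingCoeff_zero]
    exact dvd_zero _
  obtain ⟨P, -, hP⟩ := exists_place_three (F := F) hp (nodes ℚ F (gpolQ v)) (nodes_gpolQ_finite hne)
    (nodes_stable (gpolQ v))
  have hzero : ∀ (c d : ι) (s : F), aeval s (gpolQ v c) = aeval s (gpolQ v d) →
      aeval s (gdif v c d) = 0 := by
    intro c d s hs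
    rw [aeval_gdif, hs, sub_self]
  have hSK : ∀ s ∈ nodes ℚ F (gpolQ v),
      s ∈ (IntermediateField.adjoin ℚ (nodes ℚ F (gpolQ v))).toSubfield := fun s hs =>
    IntermediateField.subset_adjoin ℚ _ hs
  have hSO : ∀ s ∈ nodes ℚ F (gpolQ v), s ∈ P.O := by
    intro s hs
    obtain ⟨c, d, hcd, hs2⟩ := id hs
    exact P.root_mem hp (hlc c d hcd) (hSK s hs) (hzero c d s hs2)
  obtain ⟨R, hR, hfR⟩ := exists_roots (F := F) hsep
  have hRS : ∀ s ∈ R, s ∈ nodes ℚ F (gpolQ v) := fun s hs => ⟨a, b, hab, (hR s).1 hs⟩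
  have hRO : ∀ s ∈ R, s ∈ P.O := fun s hs => hSO s (hRS s hs)
  obtain ⟨z, hz1, hz2, g, hg, hgz, hgs⟩ := h.dbl
  obtain ⟨c, hc⟩ := swRed_h70 hp P (gdif v a b) R hRO hfR
  set zb : P.κ := P.redp hp (z : ZMod p) with hzb
  set gb : P.κ[X] := g.map (P.redp hp) with hgb
  have hfb : (gred p v a b).map (P.redp hp) = (X - C zb) ^ 2 * gb := by
    rw [hg, Polynomial.map_mul, Polynomial.map_pow, Polynomial.map_sub, map_X, map_C]
  have hgbz : gb.eval zb ≠ 0 := by
    rw [hgb, hzb, eval_map, eval₂_at_apply]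
    exact fun h0 => hgz ((map_eq_zero (P.redp hp)).1 h0)
  have hgb0 : gb ≠ 0 := by
    intro h0
    apply hgbz
    rw [h0, eval_zero]
  have hgbs : gb.Separable := hgs.map
  have hfb0 : (X - C zb) ^ 2 * gb ≠ 0 := mul_ne_zero (pow_ne_zero _ (X_sub_C_ne_zero _)) hgb0
  have hprod : C c * ∏ s ∈ R, (X - C (swRd_h70 P s)) = (X - C zb) ^ 2 * gb := by
    rw [← hfb, ← hc]
    rfl
  have hc0 : c ≠ 0 := by
    intro h0
    rw [h0, C_0, zero_mul] at hprod
    exact hfb0 hprod.symm
  have hroots : R.val.map (swRd_h70 P) = 2 • {zb} + gb.roots := by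
    have h1 := congrArg Polynomial.roots hprod
    rw [roots_C_mul _ hc0, roots_mul hfb0, roots_pow, roots_X_sub_C] at h1
    rw [← h1]
    have h2 := Polynomial.roots_multiset_prod_X_sub_C (R.val.map (swRd_h70 P))
    rw [Multiset.map_map] at h2
    exact h2.symm
  have hcz : (R.filter (fun s => zb = swRd_h70 P s)).card = 2 := by
    rw [swCount_h70, hroots, Multiset.count_add, Multiset.count_nsmul, Multiset.count_singleton_self]
    have h1 : gb.roots.count zb = 0 := by
      rw [Multiset.count_eq_zero]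
      intro h2
      exact hgbz ((mem_roots hgb0).1 h2)
    rw [h1]
  have hct : ∀ t, t ≠ zb → (R.filter (fun s => t = swRd_h70 P s)).card ≤ 1 := by
    intro t ht
    rw [swCount_h70, hroots, Multiset.count_add, Multiset.count_nsmul,
      Multiset.count_singleton, if_neg ht, mul_zero, zero_add]
    exact Multiset.nodup_iff_count_le_one.1 (nodup_roots hgbs) t
  obtain ⟨u, w, huw, hfil⟩ := Finset.card_eq_two.1 hcz
  have hu : u ∈ R ∧ zb = swRd_h70 P u := by
    have : u ∈ R.filter (fun s => zb = swRd_h70 P s) := by rw [hfil]; simp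
    exact Finset.mem_filter.1 this
  have hw : w ∈ R ∧ zb = swRd_h70 P w := by
    have : w ∈ R.filter (fun s => zb = swRd_h70 P s) := by rw [hfil]; simp
    exact Finset.mem_filter.1 this
  have huwR : ∀ s ∈ R, swRd_h70 P s = zb → s = u ∨ s = w := by
    intro s hs hs2
    have : s ∈ R.filter (fun s => zb = swRd_h70 P s) := Finset.mem_filter.2 ⟨hs, hs2.symm⟩
    rw [hfil] at this
    simpa using this
  -- the ramification
  have hzO : ((z : ℤ) : F) ∈ P.O := P.int_mem z
  have hzrd : swRd_h70 P ((z : ℤ) : F) = zb := by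
    rw [swRd_eq_h70 P hzO]
    have e1 : (⟨((z : ℤ) : F), hzO⟩ : P.O) = ((z : ℤ) : P.O) := Subtype.ext (by simp)
    rw [e1, map_intCast, hzb, map_intCast]
  have hfz0 : (gdif v a b).eval z ≠ 0 := by
    intro h0
    apply hz2
    rw [h0]
    exact dvd_zero _
  have haevq : ∀ q : ℤ[X], aeval ((z : ℤ) : F) q = ((q.eval z : ℤ) : F) := by
    intro q
    have e1 : ((z : ℤ) : F) = algebraMap ℤ F z := (eq_intCast (algebraMap ℤ F) z).symm
    rw [e1, aeval_algebraMap_apply, coe_aeval_eq_eval]
    exact eq_intCast (algebraMap ℤ F) _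
  have haev : aeval ((z : ℤ) : F) (gdif v a b) = (((gdif v a b).eval z : ℤ) : F) := haevq _
  have hzR : ((z : ℤ) : F) ∉ R := by
    intro h0
    have h1 := hzero a b _ ((hR _).1 h0)
    rw [haev] at h1
    exact hfz0 (by exact_mod_cast h1)
  have hzK : ((z : ℤ) : F) ∈ (IntermediateField.adjoin ℚ (nodes ℚ F (gpolQ v))).toSubfield :=
    intCast_mem _ z
  have hord := P.ord_aeval hp (hlc a b hab) R (fun s hs => hSK s (hRS s hs)) hfR hzK hzR
  rw [haev, P.rat _ hfz0] at hord
  have hval : padicValInt p ((gdif v a b).eval z) = 1 := by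
    have h1 : 1 ≤ padicValInt p ((gdif v a b).eval z) := by
      have := (padicValInt_dvd_iff (p := p) 1 ((gdif v a b).eval z)).1 (by rwa [pow_one])
      exact this.resolve_left hfz0
    have h2 : ¬ 2 ≤ padicValInt p ((gdif v a b).eval z) := fun h3 =>
      hz2 ((padicValInt_dvd_iff (p := p) 2 ((gdif v a b).eval z)).2 (Or.inr h3))
    omega
  have hpos : ∀ s ∈ R, swRd_h70 P s = zb → 0 < P.ord (((z : ℤ) : F) - s) := by
    intro s hs hs2
    refine P.ord_sub_pos hzO (hRO s hs) (fun h3 => hzR (h3 ▸ hs)) ?_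
    rw [← swRd_eq_h70 P hzO, ← swRd_eq_h70 P (hRO s hs), hzrd, hs2]
  have hz00 : ∀ s ∈ R, s ≠ u → s ≠ w → P.ord (((z : ℤ) : F) - s) = 0 := by
    intro s hs hsu hsw
    refine P.ord_sub_eq_zero hzO (hRO s hs) ?_
    rw [← swRd_eq_h70 P hzO, ← swRd_eq_h70 P (hRO s hs), hzrd]
    intro h1
    rcases huwR s hs h1.symm with h2 | h2
    · exact hsu h2
    · exact hsw h2
  have hpairR : ({u, w} : Finset F) ⊆ R := by
    intro s hs
    rcases Finset.mem_insert.1 hs with h1 | h1
    · rw [h1]; exact hu.1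
    · rw [Finset.mem_singleton.1 h1]; exact hw.1
  have hsum : ∑ s ∈ R, P.ord (((z : ℤ) : F) - s) =
      P.ord (((z : ℤ) : F) - u) + P.ord (((z : ℤ) : F) - w) := by
    have e1 : P.ord (((z : ℤ) : F) - u) + P.ord (((z : ℤ) : F) - w) =
        ∑ s ∈ ({u, w} : Finset F), P.ord (((z : ℤ) : F) - s) :=
      (Finset.sum_pair (f := fun s => P.ord (((z : ℤ) : F) - s)) huw).symm
    rw [e1]
    refine (Finset.sum_subset hpairR fun s hs hs2 => ?_).symm
    refine hz00 s hs ?_ ?_
    · rintro rfl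
      exact hs2 (by simp)
    · rintro rfl
      exact hs2 (by simp)
  rw [hsum, hval] at hord
  have hposu := hpos u hu.1 hu.2.symm
  have hposw := hpos w hw.1 hw.2.symm
  -- an element of the inertia group exchanges `u` and `w`
  have hinert : ∀ σ : F ≃ₐ[ℚ] F, (∃ s ∈ nodes ℚ F (gpolQ v), σ s ≠ s) → P.Inert σ →
      ∀ s ∈ nodes ℚ F (gpolQ v), σ s = if s = u then w else if s = w then u else s := by
    intro σ hσne hσ
    obtain ⟨s₀, hs₀, hs₀ne⟩ := hσne
    have hσrd : ∀ x ∈ P.O, swRd_h70 P (σ x) = swRd_h70 P x := by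
      intro x hx
      obtain ⟨h1, h2⟩ := hσ x hx
      rw [swRd_eq_h70 P h1, swRd_eq_h70 P hx, h2]
    have hσroot : ∀ (c d : ι) (s : F), aeval s (gpolQ v c) = aeval s (gpolQ v d) →
        aeval (σ s) (gpolQ v c) = aeval (σ s) (gpolQ v d) := by
      intro c d s hs
      have e1 : ∀ q : ℚ[X], aeval (σ s) q = σ (aeval s q) := fun q =>
        (Polynomial.aeval_algHom_apply (σ : F →ₐ[ℚ] F) s q)
      rw [e1, e1, hs]
    have hσR : ∀ s ∈ R, σ s ∈ R := fun s hs => (hR _).2 (hσroot a b s ((hR s).1 hs))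
    have hfix : ∀ s ∈ nodes ℚ F (gpolQ v), s ≠ u → s ≠ w → σ s = s := by
      intro s hs hsu hsw
      by_cases hsR : s ∈ R
      · have ht : swRd_h70 P s ≠ zb := by
          intro h1
          rcases huwR s hsR h1 with h2 | h2
          · exact hsu h2
          · exact hsw h2
        have h1 := hct _ ht
        rw [Finset.card_le_one] at h1
        exact h1 (σ s) (Finset.mem_filter.2 ⟨hσR s hsR, (hσrd s (hSO s hs)).symm⟩) s
          (Finset.mem_filter.2 ⟨hsR, rfl⟩)
      · obtain ⟨c, d, hcd, hs2⟩ := id hs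
        have hset : ({c, d} : Set ι) ≠ {a, b} := by
          intro h1
          apply hsR
          rw [hR]
          rcases Set.pair_eq_pair_iff.1 h1 with ⟨h2, h3⟩ | ⟨h2, h3⟩
          · rw [← h2, ← h3]; exact hs2
          · rw [← h2, ← h3]; exact hs2.symm
        by_contra hcon
        have hσO : σ s ∈ P.O := (hσ s (hSO s hs)).1
        have h2 := P.red_ne_of_separable hp (f := gdif v c d) (h.sep c d hcd hset) hσO (hSO s hs)
          (hzero c d _ (hσroot c d s hs2)) (hzero c d s hs2) hcon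
        apply h2
        rw [← swRd_eq_h70 P hσO, ← swRd_eq_h70 P (hSO s hs)]
        exact hσrd s (hSO s hs)
    have hσu : σ u = u ∨ σ u = w :=
      huwR _ (hσR u hu.1) (by rw [hσrd u (hRO u hu.1)]; exact hu.2.symm)
    have hσw : σ w = u ∨ σ w = w :=
      huwR _ (hσR w hw.1) (by rw [hσrd w (hRO w hw.1)]; exact hw.2.symm)
    have hσu' : σ u = w := by
      rcases hσu with h1 | h1
      · exfalso
        have h2 : σ w = w := by
          rcases hσw with h3 | h3
          · exact absurd (σ.injective (h1.trans h3.symm)) huw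
          · exact h3
        apply hs₀ne
        by_cases h3 : s₀ = u
        · rw [h3, h1]
        · by_cases h4 : s₀ = w
          · rw [h4, h2]
          · exact hfix s₀ hs₀ h3 h4
      · exact h1
    have hσw' : σ w = u := by
      rcases hσw with h1 | h1
      · exact h1
      · exact absurd (σ.injective (hσu'.trans h1.symm)) huw
    intro s hs
    by_cases h3 : s = u
    · rw [if_pos h3, h3, hσu']
    · rw [if_neg h3]
      by_cases h4 : s = w
      · rw [if_pos h4, h4, hσw']
      · rw [if_neg h4]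
        exact hfix s hs h3 h4
  have he3 : ¬ 3 ≤ P.e := by
    intro h3
    obtain ⟨σ, τ, hσ1, hτ1, ⟨s, hs, hst⟩, hσ, hτ⟩ := hP h3
    apply hst
    rw [hinert σ hσ1 hσ s hs, hinert τ hτ1 hτ s hs]
  have hou : P.ord (((z : ℤ) : F) - u) = 1 := by
    push_cast at hord
    omega
  have how : P.ord (((z : ℤ) : F) - w) = 1 := by
    push_cast at hord
    omega
  have he2 : P.e = 2 := by
    push_cast at hord
    omega
  -- the derivative
  set lc : ℤ := (gdif v a b).leadingCoeff with hlcdef
  have hlcF0 : (lc : F) ≠ 0 := by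
    have h1 : lc ≠ 0 := by
      intro h0
      apply hlc a b hab
      rw [← hlcdef, h0]
      exact dvd_zero _
    exact_mod_cast h1
  have hlc0 : lc ≠ 0 := by exact_mod_cast hlcF0
  have hlcv : P.ord (lc : F) = 0 := by
    rw [P.rat lc hlc0, padicValInt.eq_zero_of_not_dvd (hlc a b hab)]
    simp
  set R' : Finset F := (R.erase u).erase w with hR'
  have hR'R : ∀ s ∈ R', s ∈ R ∧ s ≠ u ∧ s ≠ w := by
    intro s hs
    rw [hR', Finset.mem_erase, Finset.mem_erase] at hs
    exact ⟨hs.2.2, hs.2.1, hs.1⟩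
  set Gp : F[X] := ∏ s ∈ R', (X - C s) with hGp
  have hfact : (gdif v a b).map (algebraMap ℤ F) =
      C ((lc : ℤ) : F) * ((X - C u) * ((X - C w) * Gp)) := by
    rw [hfR, ← Finset.mul_prod_erase R _ hu.1,
      ← Finset.mul_prod_erase (R.erase u) _ (Finset.mem_erase.2 ⟨huw.symm, hw.1⟩)]
    rfl
  have hder : aeval ((z : ℤ) : F) (derivative (gdif v a b)) = (lc : F) *
      (((((z : ℤ) : F) - u) + (((z : ℤ) : F) - w)) * Gp.eval ((z : ℤ) : F) +
        (((z : ℤ) : F) - u) * (((z : ℤ) : F) - w) * (derivative Gp).eval ((z : ℤ) : F)) := by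
    rw [aeval_def, ← eval_map, ← derivative_map, hfact, derivative_C_mul, derivative_mul,
      derivative_mul]
    simp only [derivative_sub, derivative_X, derivative_C, eval_add, eval_mul, eval_sub,
      eval_C, eval_X, eval_one, eval_zero]
    ring
  have hGK : Gp.eval ((z : ℤ) : F) ∈
      (IntermediateField.adjoin ℚ (nodes ℚ F (gpolQ v))).toSubfield := by
    rw [hGp, eval_prod]
    refine prod_mem fun s hs => ?_
    rw [eval_sub, eval_X, eval_C]
    exact sub_mem hzK (hSK s (hRS s (hR'R s hs).1))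
  have hG0 : ∀ s ∈ R', ((z : ℤ) : F) - s ≠ 0 := by
    intro s hs h0
    exact hzR ((sub_eq_zero.1 h0) ▸ (hR'R s hs).1)
  have hGe : Gp.eval ((z : ℤ) : F) = ∏ s ∈ R', (((z : ℤ) : F) - s) := by
    rw [hGp, eval_prod]
    refine Finset.prod_congr rfl fun s _ => ?_
    rw [eval_sub, eval_X, eval_C]
  have hGne : Gp.eval ((z : ℤ) : F) ≠ 0 := by
    rw [hGe]
    exact Finset.prod_ne_zero_iff.2 hG0
  have hGv : P.ord (Gp.eval ((z : ℤ) : F)) = 0 := by
    rw [hGe, ord_prod_h57 P R' _ (fun s hs => sub_mem hzK (hSK s (hRS s (hR'R s hs).1))) hG0]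
    refine Finset.sum_eq_zero fun s hs => ?_
    obtain ⟨h1, h2, h3⟩ := hR'R s hs
    exact hz00 s h1 h2 h3
  have hG'O : (derivative Gp).eval ((z : ℤ) : F) ∈ P.O := by
    set GO : (P.O)[X] := ∏ s ∈ R'.attach,
      (X - C (⟨s.1, hRO s.1 (hR'R s.1 s.2).1⟩ : P.O)) with hGO
    have h1 : GO.map P.O.subtype = Gp := by
      rw [hGO, hGp, Polynomial.map_prod, ← Finset.prod_attach R' (fun s => (X - C s : F[X]))]
      refine Finset.prod_congr rfl fun s _ => ?_
      rw [Polynomial.map_sub, map_X, map_C]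
      rfl
    have h2 : (derivative Gp).eval ((z : ℤ) : F) =
        P.O.subtype ((derivative GO).eval (⟨((z : ℤ) : F), hzO⟩ : P.O)) := by
      rw [← h1, derivative_map, eval_map, eval₂_eq_eval_map]
      have h3 : ((z : ℤ) : F) = P.O.subtype ⟨((z : ℤ) : F), hzO⟩ := rfl
      conv_lhs => rw [h3]
      rw [eval_map, eval₂_at_apply]
    rw [h2]
    exact Subtype.prop _
  have hdz : (p : ℤ) ∣ (derivative (gdif v a b)).eval z := by
    have h1 : (((derivative (gdif v a b)).eval z : ℤ) : ZMod p) = 0 := by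
      have h2 : (((derivative (gdif v a b)).eval z : ℤ) : ZMod p) =
          (derivative (gred p v a b)).eval (z : ZMod p) := by
        unfold gred
        rw [derivative_map, eval_map]
        have h3 := eval₂_at_apply (p := derivative (gdif v a b)) (Int.castRingHom (ZMod p)) z
        exact h3.symm
      rw [h2, hg, derivative_mul, derivative_pow]
      simp
    exact (ZMod.intCast_zmod_eq_zero_iff_dvd _ _).1 h1
  have hfK : aeval ((z : ℤ) : F) (derivative (gdif v a b)) ∈
      (IntermediateField.adjoin ℚ (nodes ℚ F (gpolQ v))).toSubfield := by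
    rw [haevq]
    exact intCast_mem _ _
  have hfv : aeval ((z : ℤ) : F) (derivative (gdif v a b)) ≠ 0 →
      2 ≤ P.ord (aeval ((z : ℤ) : F) (derivative (gdif v a b))) := by
    rw [haevq]
    intro h0
    have h1 : (derivative (gdif v a b)).eval z ≠ 0 := by exact_mod_cast h0
    rw [P.rat _ h1, he2]
    have h2 : 1 ≤ padicValInt p ((derivative (gdif v a b)).eval z) := by
      have := (padicValInt_dvd_iff (p := p) 1 ((derivative (gdif v a b)).eval z)).1
        (by rwa [pow_one])
      exact this.resolve_left h1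
    push_cast
    omega
  have hzu : ((z : ℤ) : F) - u ≠ 0 := fun h0 => hzR ((sub_eq_zero.1 h0) ▸ hu.1)
  have hzw : ((z : ℤ) : F) - w ≠ 0 := fun h0 => hzR ((sub_eq_zero.1 h0) ▸ hw.1)
  have hzuK := sub_mem hzK (hSK u (hRS u hu.1))
  have hzwK := sub_mem hzK (hSK w (hRS w hw.1))
  have h2v : P.ord (-(2 * (((z : ℤ) : F) - u))) = 1 := by
    have h20 : (2 : F) ≠ 0 := two_ne_zero
    have h2K : (2 : F) ∈ (IntermediateField.adjoin ℚ (nodes ℚ F (gpolQ v))).toSubfield :=
      ofNat_mem _ 2
    rw [ord_neg_h64 P (mul_mem h2K hzuK) (mul_ne_zero h20 hzu), P.isVal.mul _ h2K _ hzuK h20 hzu,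
      hou]
    have h3 := P.rat 2 two_ne_zero
    have h4 : padicValInt p 2 = 0 := by
      refine padicValInt.eq_zero_of_not_dvd fun h5 => hp2 ?_
      have h6 : p ∣ 2 := by exact_mod_cast h5
      exact (Nat.prime_dvd_prime_iff_eq hp Nat.prime_two).1 h6
    rw [h4] at h3
    have h5 : (((2 : ℤ)) : F) = 2 := by norm_num
    rw [h5] at h3
    rw [h3]
    simp
  have huwv : P.ord (u - w) = 1 := by
    have h20 : (2 : F) ≠ 0 := two_ne_zero
    have h2K : (2 : F) ∈ (IntermediateField.adjoin ℚ (nodes ℚ F (gpolQ v))).toSubfield :=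
      ofNat_mem _ 2
    by_cases h0 : (((z : ℤ) : F) - u) + (((z : ℤ) : F) - w) = 0
    · have h1 : u - w = -(2 * (((z : ℤ) : F) - u)) := by linear_combination h0
      rw [h1, h2v]
    · have h1 := double_root_h64 P (intCast_mem _ lc) hlcF0 hlcv hGK hGne hGv hG'O hzuK hzu hou
        hzwK hzw how hfK hfv hder h0
      have h2 : u - w = -(2 * (((z : ℤ) : F) - u)) +
          ((((z : ℤ) : F) - u) + (((z : ℤ) : F) - w)) := by ring
      rw [h2]
      rw [(P.ord_add (neg_mem (mul_mem h2K hzuK)) (add_mem hzuK hzwK)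
        (neg_ne_zero.2 (mul_ne_zero h20 hzu)) h0 (by rw [h2v]; omega)).2, h2v]
  -- different reductions
  have hred : ∀ s ∈ nodes ℚ F (gpolQ v), ∀ s' ∈ nodes ℚ F (gpolQ v), s ≠ s' →
      swRd_h70 P s = swRd_h70 P s' → s ∈ ({u, w} : Set F) ∧ s' ∈ ({u, w} : Set F) := by
    intro s hs s' hs' hss hrr
    obtain ⟨c, d, hcd, hs2⟩ := id hs
    obtain ⟨c', d', hcd', hs2'⟩ := id hs'
    have hrr' : P.red ⟨s, hSO s hs⟩ = P.red ⟨s', hSO s' hs'⟩ := by
      rw [← swRd_eq_h70 P (hSO s hs), ← swRd_eq_h70 P (hSO s' hs'), hrr]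
    by_cases hset : ({c, d} : Set ι) = {c', d'}
    · have hs3' : aeval s' (gpolQ v c) = aeval s' (gpolQ v d) := by
        rcases Set.pair_eq_pair_iff.1 hset with ⟨h2, h3⟩ | ⟨h2, h3⟩
        · rw [h2, h3]; exact hs2'
        · rw [h2, h3]; exact hs2'.symm
      by_cases hset2 : ({c, d} : Set ι) = {a, b}
      · have hin : ∀ t : F, aeval t (gpolQ v c) = aeval t (gpolQ v d) → t ∈ R := by
          intro t ht
          rw [hR]
          rcases Set.pair_eq_pair_iff.1 hset2 with ⟨h2, h3⟩ | ⟨h2, h3⟩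
          · rw [← h2, ← h3]; exact ht
          · rw [← h2, ← h3]; exact ht.symm
        have hsR := hin s hs2
        have hsR' := hin s' hs3'
        by_cases ht : swRd_h70 P s = zb
        · have h1 := huwR s hsR ht
          have h2 := huwR s' hsR' (hrr ▸ ht)
          exact ⟨h1, h2⟩
        · exfalso
          have h1 := hct _ ht
          rw [Finset.card_le_one] at h1
          exact hss (h1 s (Finset.mem_filter.2 ⟨hsR, rfl⟩) s' (Finset.mem_filter.2 ⟨hsR', hrr⟩))
      · exact absurd hrr' (P.red_ne_of_separable hp (f := gdif v c d) (h.sep c d hcd hset2)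
          (hSO s hs) (hSO s' hs') (hzero c d s hs2) (hzero c d s' hs3') hss)
    · exact absurd hrr' (P.red_ne_of_isCoprime hp (h.cop c d c' d' hcd hcd' hset)
          (hSO s hs) (hSO s' hs') (hzero c d s hs2) (hzero c' d' s' hs2'))
  refine ⟨P.ord, u, w, huw, (hR u).1 hu.1, (hR w).1 hw.1, P.isVal, ⟨?_, ?_⟩⟩
  · intro s hs s' hs' hss
    by_cases hcond : s ∈ ({u, w} : Set F) ∧ s' ∈ ({u, w} : Set F)
    · rw [if_pos hcond]
      rcases hcond with ⟨h1 | h1, h2 | h2⟩
      · exact absurd (h1.trans h2.symm) hss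
      · have h2' : s' = w := h2
        rw [h1, h2', huwv]
      · have h1' : s = w := h1
        rw [h1', h2, ← neg_sub u w, ord_neg_h64 P (sub_mem (hSK u (hRS u hu.1)) (hSK w (hRS w hw.1)))
          (sub_ne_zero.2 huw), huwv]
      · have h1' : s = w := h1
        have h2' : s' = w := h2
        exact absurd (h1'.trans h2'.symm) hss
    · rw [if_neg hcond]
      refine P.ord_sub_eq_zero (hSO s hs) (hSO s' hs') ?_
      rw [← swRd_eq_h70 P (hSO s hs), ← swRd_eq_h70 P (hSO s' hs')]
      exact fun h1 => hcond (hred s hs s' hs' hss h1)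
  · intro i j hij
    have h1 : algebraMap ℚ F (gpolQ v i - gpolQ v j).leadingCoeff =
        (((gdif v i j).leadingCoeff : ℤ) : F) := by
      rw [← gdif_map_rat, leadingCoeff_map_of_injective (Int.castRingHom ℚ).injective_int]
      simp
    have h2 : (gdif v i j).leadingCoeff ≠ 0 := by
      intro h0
      apply hlc i j hij
      rw [h0]
      exact dvd_zero _
    rw [h1, P.rat _ h2, padicValInt.eq_zero_of_not_dvd (hlc i j hij)]
    simp

end Pool.Agent.Lib.MP_89bcae_ag

end

section

/-!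
# The criterion for a homomorphism of type `CopyW`
-/

open Polynomial

open scoped Classical

namespace Pool.Agent.Lib.MP_89bcae_ag

open Superelliptic

universe u

variable {k F : Type u} [Field k] [Field F] [Algebra k F] {ι : Type} [Fintype ι] [LinearOrder ι]
  {n : ℕ}

/-- The value at `α_i(s) - α_l(s)`, `s = nd i j a` (as `CopyV.val_eq`, `Gr/E02.lean`). -/
theorem CopyW.val_eq {A : Type*} [AddCommGroup A] {ν : F → A} {α : ι → k[X]}
    {nd : ι → ι → Fin n → F} {β : Finset ι → A} {c : Fin n → Finset ι → A}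
    {δ : Finset ι → Fin n → Fin n → A} (h : CopyW ν α nd β c δ) (hN : Nodes α nd)
    (hα : IsArrangement α)
    (hν : IsVal (IntermediateField.adjoin k (nodes k F α)).toSubfield ν) {i j l : ι} (hij : i ≠ j)
    (hjl : j ≠ l) (hil : i ≠ l) (a : Fin n) :
    ν (aeval (nd i j a) (α i) - aeval (nd i j a) (α l)) = c a (tr i j l) - β (pr i j) := by
  have hne : α i ≠ α l := by
    intro h0
    apply hα.natDegree_ne_zero i l hil
    rw [h0, sub_self, natDegree_zero]
  have hs := (hN.mem i j hij (nd i j a)).2 ⟨a, rfl⟩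
  have hK : ∀ x ∈ nodes k F α, x ∈ (IntermediateField.adjoin k (nodes k F α)).toSubfield :=
    fun x hx => IntermediateField.subset_adjoin k _ hx
  have hsK : nd i j a ∈ (IntermediateField.adjoin k (nodes k F α)).toSubfield :=
    hK _ ⟨i, j, hij, hs⟩
  have htK : ∀ b, nd i l b ∈ (IntermediateField.adjoin k (nodes k F α)).toSubfield :=
    fun b => hK _ ⟨i, l, hil, (hN.mem i l hil (nd i l b)).2 ⟨b, rfl⟩⟩
  have hlcK : algebraMap k F (α i - α l).leadingCoeff ∈
      (IntermediateField.adjoin k (nodes k F α)).toSubfield :=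
    (IntermediateField.adjoin k (nodes k F α)).algebraMap_mem _
  have hst : ∀ b, nd i j a - nd i l b ≠ 0 := by
    intro b hb
    have h1 := (hN.mem i l hil (nd i l b)).2 ⟨b, rfl⟩
    rw [← sub_eq_zero.1 hb] at h1
    have h2 := nodes_pair α hα hij hil hs h1
    have h3 : j ∈ ({i, l} : Set ι) := h2 ▸ (by simp)
    rcases h3 with h3 | h3
    · exact hij h3.symm
    · exact hjl h3
  have h1 : aeval (nd i j a) (α i) - aeval (nd i j a) (α l) =
      algebraMap k F (α i - α l).leadingCoeff * ∏ b, (nd i j a - nd i l b) := by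
    rw [← map_sub, aeval_def, ← eval_map, hN.prod_eq hil hne, eval_mul, eval_C, eval_prod]
    simp
  rw [h1, hν.mul _ hlcK _ (prod_mem fun b _ => sub_mem hsK (htK b)) (lc_ne_zero_h45 hα hil)
    (Finset.prod_ne_zero_iff.2 fun b _ => hst b),
    hν.prod _ _ (fun b _ => sub_mem hsK (htK b)) (fun b _ => hst b), h.lead i l hil]
  have h2 : ∑ b, ν (nd i j a - nd i l b) = c a (tr i j l) - β (pr i j) - β (pr i l) := by
    rw [Finset.sum_congr rfl fun b _ => h.adj i j l hij hjl hil a b, Finset.sum_ite_eq,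
      if_pos (Finset.mem_univ a)]
  rw [h2]
  abel

/-- The value at the derivative (as `CopyV.der_eq`, `Gr/E02.lean`). -/
theorem CopyW.der_eq {A : Type*} [AddCommGroup A] {ν : F → A} {α : ι → k[X]}
    {nd : ι → ι → Fin n → F} {β : Finset ι → A} {c : Fin n → Finset ι → A}
    {δ : Finset ι → Fin n → Fin n → A} (h : CopyW ν α nd β c δ) (hN : Nodes α nd)
    (hα : IsArrangement α)
    (hν : IsVal (IntermediateField.adjoin k (nodes k F α)).toSubfield ν) {i j : ι} (hij : i ≠ j)
    (a : Fin n) :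
    ν (aeval (nd i j a) (derivative (α i - α j))) =
      β (pr i j) + ∑ b ∈ Finset.univ.filter (fun b => b ≠ a), δ (pr i j) a b := by
  have hne : α i ≠ α j := by
    intro h0
    apply hα.natDegree_ne_zero i j hij
    rw [h0, sub_self, natDegree_zero]
  have hK : ∀ x ∈ nodes k F α, x ∈ (IntermediateField.adjoin k (nodes k F α)).toSubfield :=
    fun x hx => IntermediateField.subset_adjoin k _ hx
  have htK : ∀ b, nd i j b ∈ (IntermediateField.adjoin k (nodes k F α)).toSubfield :=
    fun b => hK _ ⟨i, j, hij, (hN.mem i j hij (nd i j b)).2 ⟨b, rfl⟩⟩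
  have hlcK : algebraMap k F (α i - α j).leadingCoeff ∈
      (IntermediateField.adjoin k (nodes k F α)).toSubfield :=
    (IntermediateField.adjoin k (nodes k F α)).algebraMap_mem _
  have hst : ∀ b ∈ Finset.univ.erase a, nd i j a - nd i j b ≠ 0 := by
    intro b hb h0
    exact (Finset.mem_erase.1 hb).1 (hN.inj i j hij (sub_eq_zero.1 h0)).symm
  have h1 : aeval (nd i j a) (derivative (α i - α j)) =
      algebraMap k F (α i - α j).leadingCoeff *
        ∏ b ∈ Finset.univ.erase a, (nd i j a - nd i j b) := by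
    rw [aeval_def, ← eval_map, ← derivative_map, hN.prod_eq hij hne,
      ← Finset.mul_prod_erase Finset.univ (fun b => X - C (nd i j b)) (Finset.mem_univ a),
      derivative_mul, derivative_mul, derivative_C, derivative_sub, derivative_X, derivative_C]
    simp only [eval_add, eval_mul, eval_sub, eval_zero, eval_C, eval_X, eval_one, eval_prod]
    simp
  rw [h1, hν.mul _ hlcK _ (prod_mem fun b _ => sub_mem (htK a) (htK b)) (lc_ne_zero_h45 hα hij)
    (Finset.prod_ne_zero_iff.2 hst),
    hν.prod _ _ (fun b _ => sub_mem (htK a) (htK b)) hst, h.lead i j hij]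
  have h2 : ∑ b ∈ Finset.univ.erase a, ν (nd i j a - nd i j b) =
      ∑ b ∈ Finset.univ.filter (fun b => b ≠ a), δ (pr i j) a b := by
    refine Finset.sum_congr ?_ ?_
    · ext b
      simp
    · intro b hb
      exact h.par i j hij a b (Ne.symm (Finset.mem_filter.1 hb).2)
  rw [h2]

/-- The sum over the nodes. -/
lemma sum_nodes_h30 {ℓ : ℕ} (α : ι → k[X]) (hα : IsArrangement α) (ν : F → ZMod ℓ)
    (nd : ι → ι → Fin n → F) (hN : Nodes α nd) (β : Finset ι → ZMod ℓ)
    (c : Fin n → Finset ι → ZMod ℓ) (δ : Finset ι → Fin n → Fin n → ZMod ℓ)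
    (h : CopyW ν α nd β c δ) (e : ι → F → ZMod ℓ)
    (e0 : ∀ a b d : ι, ∀ s : F, a ≠ b → aeval s (α a) = aeval s (α b) → d ≠ a → d ≠ b →
      e d s = 0) {i j : ι} (hij : i ≠ j) (a : Fin n) :
    ∑ s' ∈ (finite_nodes (F := F) α hα).toFinset.erase (nd i j a), e i s' * ν (nd i j a - s') =
      ∑ l ∈ Finset.univ.filter (fun l => l ≠ i ∧ l ≠ j),
        e i (nd i l a) * (c a (tr i j l) - β (pr i j) - β (pr i l)) +
      ∑ b ∈ Finset.univ.filter (fun b => b ≠ a), e i (nd i j b) * δ (pr i j) a b := by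
  have hval : ∀ i j : ι, i ≠ j → ∀ a, aeval (nd i j a) (α i) = aeval (nd i j a) (α j) :=
    fun i j hij a => (hN.mem i j hij _).2 ⟨a, rfl⟩
  have hcase : ∀ l l' : ι, l ≠ i → l' ≠ i → ∀ b b', nd i l b = nd i l' b' → l = l' := by
    intro l l' hl hl' b b' hll
    have h1 := hval i l hl.symm b
    have h2 := hval i l' hl'.symm b'
    rw [← hll] at h2
    have h4 := nodes_pair α hα hl.symm hl'.symm h1 h2
    have h5 : l ∈ ({i, l'} : Set ι) := by
      rw [← h4]
      exact Set.mem_insert_of_mem _ rfl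
    rcases h5 with h5 | h5
    · exact absurd h5 hl
    · exact h5
  have hinj : Set.InjOn (fun l => nd i l a)
      ((Finset.univ.filter (fun l : ι => l ≠ i ∧ l ≠ j) : Finset ι) : Set ι) := by
    intro l hl l' hl' hll
    rw [Finset.mem_coe, Finset.mem_filter] at hl hl'
    exact hcase l l' hl.2.1 hl'.2.1 a a hll
  have hinj' : Set.InjOn (fun b => nd i j b)
      ((Finset.univ.filter (fun b : Fin n => b ≠ a) : Finset (Fin n)) : Set (Fin n)) :=
    fun b _ b' _ hb => hN.inj i j hij hb
  have e1 : ∑ l ∈ Finset.univ.filter (fun l => l ≠ i ∧ l ≠ j),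
      e i (nd i l a) * (c a (tr i j l) - β (pr i j) - β (pr i l)) =
      ∑ l ∈ Finset.univ.filter (fun l => l ≠ i ∧ l ≠ j),
        e i (nd i l a) * ν (nd i j a - nd i l a) := by
    refine Finset.sum_congr rfl fun l hl => ?_
    rw [Finset.mem_filter] at hl
    rw [h.adj i j l hij hl.2.2.symm hl.2.1.symm a a, if_pos rfl]
  have e2 : ∑ b ∈ Finset.univ.filter (fun b => b ≠ a), e i (nd i j b) * δ (pr i j) a b =
      ∑ b ∈ Finset.univ.filter (fun b => b ≠ a), e i (nd i j b) * ν (nd i j a - nd i j b) := by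
    refine Finset.sum_congr rfl fun b hb => ?_
    rw [Finset.mem_filter] at hb
    rw [h.par i j hij a b hb.2.symm]
  rw [e1, e2, ← Finset.sum_image (f := fun s' => e i s' * ν (nd i j a - s')) hinj,
    ← Finset.sum_image (f := fun s' => e i s' * ν (nd i j a - s')) hinj', ← Finset.sum_union]
  · symm
    refine Finset.sum_subset ?_ ?_
    · intro s' hs'
      rw [Finset.mem_union, Finset.mem_image, Finset.mem_image] at hs'
      rw [Finset.mem_erase, Set.Finite.mem_toFinset]
      rcases hs' with ⟨l, hl, rfl⟩ | ⟨b, hb, rfl⟩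
      · rw [Finset.mem_filter] at hl
        refine ⟨fun h0 => ?_, ⟨i, l, hl.2.1.symm, hval i l hl.2.1.symm a⟩⟩
        exact hl.2.2 (hcase l j hl.2.1 hij.symm a a h0)
      · rw [Finset.mem_filter] at hb
        exact ⟨fun h0 => hb.2 (hN.inj i j hij h0), ⟨i, j, hij, hval i j hij b⟩⟩
    · intro s' hs' hs''
      rw [Finset.mem_erase, Set.Finite.mem_toFinset] at hs'
      obtain ⟨hne, p, q, hpq, hs⟩ := hs'
      rw [Finset.mem_union, not_or, Finset.mem_image, Finset.mem_image] at hs''
      have key : ∀ l, l ≠ i → aeval s' (α i) = aeval s' (α l) →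
          e i s' * ν (nd i j a - s') = 0 := by
        intro l hl hil
        obtain ⟨b, rfl⟩ := (hN.mem i l hl.symm s').1 hil
        by_cases hlj : l = j
        · subst hlj
          have hab : b ≠ a := by
            rintro rfl
            exact hne rfl
          exact absurd ⟨b, Finset.mem_filter.2 ⟨Finset.mem_univ _, hab⟩, rfl⟩ hs''.2
        · have hab : a ≠ b := by
            rintro rfl
            exact hs''.1 ⟨l, Finset.mem_filter.2 ⟨Finset.mem_univ _, hl, hlj⟩, rfl⟩
          rw [h.adj i j l hij (Ne.symm hlj) hl.symm a b, if_neg hab, mul_zero]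
      by_cases h1 : i = p
      · subst h1
        exact key q hpq.symm hs
      · by_cases h2 : i = q
        · subst h2
          exact key p hpq hs.symm
        · rw [e0 p q i s' hpq hs h1 h2, zero_mul]
  · rw [Finset.disjoint_left]
    intro s' hs1 hs2
    rw [Finset.mem_image] at hs1 hs2
    obtain ⟨l, hl, h1⟩ := hs1
    obtain ⟨b, _, h2⟩ := hs2
    rw [Finset.mem_filter] at hl
    exact hl.2.2 (hcase l j hl.2.1 hij.symm a b (h1.trans h2.symm))

/-- **The criterion.** Proof: as `indepW_of_copyV` (`Gr/E03.lean`), without the change to `c` and `g`: with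
`x a i j = e_i(nd i j a) / W_j` (`x a i i = 0`), the equation `val_eqn` for `ν` at `s = nd i j a`, divided by
`W_j`, is the equation of `GoodW` with `z = ν(κ)`, `γ i = ν(c' i)`; the parallel nodes contribute
`∑_{b ≠ a} (w_i + w_j) x b i j δ (pr i j) a b` in the last sum (`e_i(s') - e_j(s')` for `s' = nd i j b` is
`w_j x b i j + w_i x b i j`), and `- (w_i + w_j) x a i j δ (pr i j) a b` in the value of the derivative. `hG` gives
`x a i j = b i - b j`; take the integers `- (b i).val`. -/
theorem indepW_of_copyW {ℓ : ℕ} (hℓ : ℓ.Prime) (α : ι → k[X]) (hα : IsArrangement α) (W : ι → ℕ)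
    (hW : ∀ i, (W i).Coprime ℓ) (ν : F → ZMod ℓ)
    (hν : IsVal (IntermediateField.adjoin k (nodes k F α)).toSubfield ν)
    (nd : ι → ι → Fin n → F) (hN : Nodes α nd) (β : Finset ι → ZMod ℓ)
    (c : Fin n → Finset ι → ZMod ℓ) (δ : Finset ι → Fin n → Fin n → ZMod ℓ)
    (h : CopyW ν α nd β c δ) (hG : GoodW (fun i => (W i : ZMod ℓ)) β c δ) :
    ArrangementIndependentW ℓ k F W α := by
  have : Fact ℓ.Prime := ⟨hℓ⟩
  intro e κ c' hκ hκK hc hsum hpow0
  have hpow : ∀ (i j : ι) (s : F), i ≠ j → aeval s (α i) = aeval s (α j) →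
      ∃ w ∈ IntermediateField.adjoin k (nodes k F α),
        w ^ ℓ = κ ^ e i s * (c' i / c' j) ^ W j *
          aeval s (derivative (α i - α j)) ^ (-((W i : ℤ) + W j) * e i s) *
          (∏ l ∈ Finset.univ.filter fun l => l ≠ i ∧ l ≠ j,
            (aeval s (α i) - aeval s (α l)) ^ (-(W l : ℤ) * e i s)) *
          ∏ᶠ s' ∈ {s' ∈ nodes k F α | s' ≠ s}, (s - s') ^ ((W j : ℤ) * (e i s' - e j s')) := by
    intro i j s hij hs
    obtain ⟨w, hw1, hw2⟩ := hpow0 i j s hij hs
    refine ⟨w, hw1, hw2.trans ?_⟩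
    congr 2
    apply Finset.prod_congr _ (fun _ _ => rfl)
    ext l
    simp only [Finset.mem_filter]
  have hw : ∀ i, (W i : ZMod ℓ) ≠ 0 := by
    intro i h0
    rw [ZMod.natCast_eq_zero_iff] at h0
    exact (hℓ.coprime_iff_not_dvd.mp (hW i).symm) h0
  have hnode : ∀ {a b : ι} {s : F}, a ≠ b → aeval s (α a) = aeval s (α b) → s ∈ nodes k F α :=
    fun hab hs => ⟨_, _, hab, hs⟩
  -- the values of `e` at the nodes
  have e0 : ∀ a b d : ι, ∀ s : F, a ≠ b → aeval s (α a) = aeval s (α b) → d ≠ a → d ≠ b →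
      (e d s : ZMod ℓ) = 0 := by
    intro a b d s hab hs hda hdb
    have h1 := hsum s (hnode hab hs) d
    have h2 : (Finset.univ.filter fun j => aeval s (α j) = aeval s (α d)) = {d} := by
      ext j
      rw [Finset.mem_filter, Finset.mem_singleton]
      constructor
      · rintro ⟨-, hj⟩
        by_contra hjd
        have h3 := nodes_pair α hα hab hjd hs hj
        have h4 : d ∈ ({a, b} : Set ι) := by
          rw [h3]
          exact Set.mem_insert_of_mem _ rfl
        rcases h4 with h4 | h4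
        · exact hda h4
        · exact hdb h4
      · rintro rfl
        exact ⟨Finset.mem_univ _, rfl⟩
    rw [h2, Finset.sum_singleton] at h1
    have h3 : (((W d : ℤ) * e d s : ℤ) : ZMod ℓ) = 0 :=
      (ZMod.intCast_zmod_eq_zero_iff_dvd _ _).mpr h1
    push_cast at h3
    exact (mul_eq_zero.mp h3).resolve_left (hw d)
  have e1 : ∀ a b : ι, ∀ s : F, a ≠ b → aeval s (α a) = aeval s (α b) →
      (W a : ZMod ℓ) * e a s + W b * e b s = 0 := by
    intro a b s hab hs
    have h1 := hsum s (hnode hab hs) a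
    have h2 : (Finset.univ.filter fun j => aeval s (α j) = aeval s (α a)) = {a, b} := by
      ext j
      rw [Finset.mem_filter, Finset.mem_insert, Finset.mem_singleton]
      constructor
      · rintro ⟨-, hj⟩
        by_contra hjd
        rw [not_or] at hjd
        have h3 := nodes_pair α hα hab hjd.1 hs hj
        have h4 : j ∈ ({a, b} : Set ι) := by
          rw [h3]
          exact Set.mem_insert _ _
        rcases h4 with h4 | h4
        · exact hjd.1 h4
        · exact hjd.2 h4
      · rintro (rfl | rfl)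
        · exact ⟨Finset.mem_univ _, rfl⟩
        · exact ⟨Finset.mem_univ _, hs.symm⟩
    rw [h2, Finset.sum_pair hab] at h1
    have h3 : (((W a : ℤ) * e a s + (W b : ℤ) * e b s : ℤ) : ZMod ℓ) = 0 :=
      (ZMod.intCast_zmod_eq_zero_iff_dvd _ _).mpr h1
    push_cast at h3
    exact h3
  have hval : ∀ i j : ι, i ≠ j → ∀ a, aeval (nd i j a) (α i) = aeval (nd i j a) (α j) :=
    fun i j hij a => (hN.mem i j hij _).2 ⟨a, rfl⟩
  set ε : Fin n → ι → ι → ZMod ℓ := fun a i j => (e i (nd i j a) : ZMod ℓ) / W j with hε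
  have hε1 : ∀ a i j, (e i (nd i j a) : ZMod ℓ) = W j * ε a i j := by
    intro a i j
    show (e i (nd i j a) : ZMod ℓ) = W j * ((e i (nd i j a) : ZMod ℓ) / W j)
    rw [mul_div_cancel₀ _ (hw j)]
  have hε2 : ∀ a i j, i ≠ j → ε a j i = -ε a i j := by
    intro a i j hij
    have h1 := e1 i j (nd i j a) hij (hval i j hij a)
    have h2 := hε1 a i j
    have h3 := hε1 a j i
    rw [← hN.symm i j a] at h3
    rw [h2, h3] at h1
    have h4 : (W i : ZMod ℓ) * W j * (ε a j i + ε a i j) = 0 := by linear_combination h1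
    have h5 := (mul_eq_zero.mp h4).resolve_left (mul_ne_zero (hw i) (hw j))
    linear_combination h5
  obtain ⟨b, hb⟩ := hG ε (ν κ) (fun i => ν (c' i)) hε2 (by
      intro a i j hij
      have key := val_eqn α hα W ν hν e κ c' hκ hκK hc hij (hval i j hij a)
        (hpow i j _ hij (hval i j hij a))
      rw [h.der_eq hN hα hν hij a] at key
      set P := Finset.univ.filter (fun l : ι => l ≠ i ∧ l ≠ j) with hP
      set Q := Finset.univ.filter (fun b : Fin n => b ≠ a) with hQ
      have hPmem : ∀ l ∈ P, i ≠ l ∧ j ≠ l := by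
        intro l hl
        rw [hP, Finset.mem_filter] at hl
        exact ⟨hl.2.1.symm, hl.2.2.symm⟩
      have x1 := hε1 a i j
      -- the first sum
      have s1 : ∑ l ∈ P, (W l : ZMod ℓ) * e i (nd i j a) *
          ν (aeval (nd i j a) (α i) - aeval (nd i j a) (α l)) =
          W j * (ε a i j * ∑ l ∈ P, W l * (c a (tr i j l) - β (pr i j))) := by
        rw [Finset.mul_sum, Finset.mul_sum]
        refine Finset.sum_congr rfl fun l hl => ?_
        obtain ⟨hil, hjl⟩ := hPmem l hl
        rw [h.val_eq hN hα hν hij hjl hil a, x1]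
        ring
      -- the second sum
      have s2 : ∑ s' ∈ (finite_nodes (F := F) α hα).toFinset.erase (nd i j a),
          (W j : ZMod ℓ) * (e i s' - e j s') * ν (nd i j a - s') =
          W j * (∑ l ∈ P, W l * ((c a (tr i j l) - β (pr i j) - β (pr i l)) * ε a i l) +
            W j * ∑ b ∈ Q, δ (pr i j) a b * ε b i j -
            (∑ l ∈ P, W l * ((c a (tr i j l) - β (pr i j) - β (pr j l)) * ε a j l) +
              -(W i * ∑ b ∈ Q, δ (pr i j) a b * ε b i j))) := by
        have t1 := sum_nodes_h30 α hα ν nd hN β c δ h (fun i s => (e i s : ZMod ℓ)) e0 hij a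
        have t2 := sum_nodes_h30 α hα ν nd hN β c δ h (fun i s => (e i s : ZMod ℓ)) e0 hij.symm a
        have t3 : (∑ l ∈ P, (e i (nd i l a) : ZMod ℓ) *
            (c a (tr i j l) - β (pr i j) - β (pr i l))) =
            ∑ l ∈ P, W l * ((c a (tr i j l) - β (pr i j) - β (pr i l)) * ε a i l) := by
          refine Finset.sum_congr rfl fun l hl => ?_
          rw [hε1 a i l]
          ring
        have t4 : (∑ l ∈ Finset.univ.filter (fun l : ι => l ≠ j ∧ l ≠ i),
            (e j (nd j l a) : ZMod ℓ) * (c a (tr j i l) - β (pr j i) - β (pr j l))) =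
            ∑ l ∈ P, W l * ((c a (tr i j l) - β (pr i j) - β (pr j l)) * ε a j l) := by
          have hP' : Finset.univ.filter (fun l : ι => l ≠ j ∧ l ≠ i) = P := by
            ext l
            rw [hP, Finset.mem_filter, Finset.mem_filter]
            tauto
          rw [hP']
          refine Finset.sum_congr rfl fun l hl => ?_
          rw [hε1 a j l, tr_comm j i l, pr_comm j i]
          ring
        have t5 : (∑ b ∈ Q, (e i (nd i j b) : ZMod ℓ) * δ (pr i j) a b) =
            W j * ∑ b ∈ Q, δ (pr i j) a b * ε b i j := by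
          rw [Finset.mul_sum]
          refine Finset.sum_congr rfl fun b _ => ?_
          rw [hε1 b i j]
          ring
        have t6 : (∑ b ∈ Q, (e j (nd j i b) : ZMod ℓ) * δ (pr j i) a b) =
            -(W i * ∑ b ∈ Q, δ (pr i j) a b * ε b i j) := by
          rw [Finset.mul_sum, ← Finset.sum_neg_distrib]
          refine Finset.sum_congr rfl fun b _ => ?_
          rw [hε1 b j i, hε2 b i j hij, pr_comm j i]
          ring
        rw [t3, t5] at t1
        rw [t4, t6, ← hN.symm i j a] at t2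
        rw [← t1, ← t2, ← Finset.sum_sub_distrib, Finset.mul_sum]
        refine Finset.sum_congr rfl fun s' _ => ?_
        ring
      rw [s1, s2, x1] at key
      have g1 : ∑ b ∈ Q, δ (pr i j) a b * (ε a i j - ε b i j) =
          ε a i j * ∑ b ∈ Q, δ (pr i j) a b - ∑ b ∈ Q, δ (pr i j) a b * ε b i j := by
        rw [Finset.mul_sum, ← Finset.sum_sub_distrib]
        refine Finset.sum_congr rfl fun b _ => ?_
        ring
      have g2 : ∑ l ∈ P, (W l : ZMod ℓ) * ((c a (tr i j l) - β (pr i j)) * ε a i j -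
            (c a (tr i j l) - β (pr i j) - β (pr i l)) * ε a i l +
            (c a (tr i j l) - β (pr i j) - β (pr j l)) * ε a j l) =
          ε a i j * (∑ l ∈ P, W l * (c a (tr i j l) - β (pr i j))) -
            ∑ l ∈ P, W l * ((c a (tr i j l) - β (pr i j) - β (pr i l)) * ε a i l) +
            ∑ l ∈ P, W l * ((c a (tr i j l) - β (pr i j) - β (pr j l)) * ε a j l) := by
        rw [Finset.mul_sum, ← Finset.sum_sub_distrib, ← Finset.sum_add_distrib]
        refine Finset.sum_congr rfl fun l _ => ?_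
        ring
      have g3 : ∀ S : Finset ι, S = P → ((W i : ZMod ℓ) + W j) * (β (pr i j) * ε a i j +
          ∑ b ∈ Q, δ (pr i j) a b * (ε a i j - ε b i j)) +
          ∑ l ∈ S, (W l : ZMod ℓ) * ((c a (tr i j l) - β (pr i j)) * ε a i j -
            (c a (tr i j l) - β (pr i j) - β (pr i l)) * ε a i l +
            (c a (tr i j l) - β (pr i j) - β (pr j l)) * ε a j l) =
          ν κ * ε a i j + (ν (c' i) - ν (c' j)) := by
        rintro S rfl
        rw [g1, g2]
        apply mul_left_cancel₀ (hw j)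
        linear_combination -key
      refine g3 _ ?_
      rw [hP]
      ext l
      simp only [Finset.mem_filter])
  refine ⟨fun i => -((b i).val : ℤ), fun i j s hij hs => ?_⟩
  obtain ⟨a, rfl⟩ := (hN.mem i j hij s).1 hs
  have h1 := hb a i j hij
  rw [← ZMod.intCast_zmod_eq_zero_iff_dvd]
  have h3 : ∀ a : ι, (((b a).val : ℕ) : ZMod ℓ) = b a := fun a => ZMod.natCast_zmod_val _
  push_cast
  rw [h3, h3, hε1 a i j, h1]
  ring

end Pool.Agent.Lib.MP_89bcae_ag

end

section

/-!
# The Galois group is transitive on the triples of roots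

Step 1: for every pair `a ≠ b` and all roots `x`, `y` of `α_a - α_b` there is `σ` with `σ x = y` which
fixes the roots of all the `α_c - α_d`, `{c, d} ≠ {a, b}`. If `x = y` take `σ = 1`. Otherwise let `τ`,
`u`, `w` be as in `exists_swap_typeD` and `g` with `g u = x`, `g w = y` (`pairTransitive_gpol`); take
`σ = g τ g⁻¹` (for a root `s` of `α_c - α_d`, `g⁻¹ s` is also one, hence `τ` fixes it: it is not a root of
`α_a - α_b`, as the differences are coprime).
Step 2: compose three such elements for the pairs `(i, j)`, `(j, l)`, `(i, l)`.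
-/

open Polynomial

open scoped Classical

namespace Pool.Agent.Lib.MP_89bcae_ag

open Superelliptic

variable {ι : Type} [Fintype ι] [LinearOrder ι] {n : ℕ} {F : Type} [Field F] [Algebra ℚ F]
  [IsAlgClosure ℚ F]

lemma no_common_root_h30 {v : ι × Fin (n + 1) → ℤ} (h : GoodG v) {a b c d : ι} (hab : a ≠ b)
    (hcd : c ≠ d) (hne : ({a, b} : Set ι) ≠ {c, d}) {s : F}
    (h1 : aeval s (gpolQ v a) = aeval s (gpolQ v b))
    (h2 : aeval s (gpolQ v c) = aeval s (gpolQ v d)) : False := by
  obtain ⟨p, q, hpq⟩ := h.isCoprime hab hcd hne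
  have h3 := congrArg (aeval s) hpq
  rw [map_add, map_mul, map_mul, map_sub, map_sub, h1, h2, sub_self, sub_self, mul_zero, mul_zero,
    add_zero, map_one] at h3
  exact zero_ne_one h3

theorem exists_move {v : ι × Fin (n + 1) → ℤ} (h : GoodG v) {a b : ι} (hab : a ≠ b) (x y : F)
    (hx : aeval x (gpolQ v a) = aeval x (gpolQ v b))
    (hy : aeval y (gpolQ v a) = aeval y (gpolQ v b)) :
    ∃ σ : F ≃ₐ[ℚ] F, σ x = y ∧ ∀ c d s, c ≠ d → ({c, d} : Set ι) ≠ {a, b} →
      aeval s (gpolQ v c) = aeval s (gpolQ v d) → σ s = s := by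
  by_cases hxy : x = y
  · exact ⟨AlgEquiv.refl, hxy, fun _ _ _ _ _ _ => rfl⟩
  · obtain ⟨p, hp, hI⟩ := h.typeI a b hab
    have hsep := separable_of_typeI v hp hI
    obtain ⟨p', hp', hD⟩ := h.typeD a b hab
    obtain ⟨τ, u, w, huw, hu, hw, hτu, hτw, hfix⟩ := exists_swap_typeD (F := F) v hp' hab hD hsep
    obtain ⟨g, hgu, hgw⟩ := pairTransitive_gpol v (h.typeI a b hab) (h.typeL a b hab)
      u w x y hu hw hx hy huw hxy
    refine ⟨(g.symm.trans τ).trans g, ?_, ?_⟩
    · rw [AlgEquiv.trans_apply, AlgEquiv.trans_apply, ← hgu, AlgEquiv.symm_apply_apply, hτu, hgw]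
    · intro c d s hcd hne hs
      have hs' : aeval (g.symm s) (gpolQ v c) = aeval (g.symm s) (gpolQ v d) := by
        rw [aeval_algHom_apply, aeval_algHom_apply, hs]
      have h1 : g.symm s ≠ u := by
        intro hcon
        rw [hcon] at hs'
        exact no_common_root_h30 h hcd hab hne hs' hu
      have h2 : g.symm s ≠ w := by
        intro hcon
        rw [hcon] at hs'
        exact no_common_root_h30 h hcd hab hne hs' hw
      rw [AlgEquiv.trans_apply, AlgEquiv.trans_apply, hfix _ ⟨c, d, hcd, hs'⟩ h1 h2,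
        AlgEquiv.apply_symm_apply]

theorem exists_move_triple {v : ι × Fin (n + 1) → ℤ} (h : GoodG v) {i j l : ι} (hij : i ≠ j)
    (hjl : j ≠ l) (hil : i ≠ l) (x x' x'' y y' y'' : F)
    (hx : aeval x (gpolQ v i) = aeval x (gpolQ v j))
    (hx' : aeval x' (gpolQ v j) = aeval x' (gpolQ v l))
    (hx'' : aeval x'' (gpolQ v i) = aeval x'' (gpolQ v l))
    (hy : aeval y (gpolQ v i) = aeval y (gpolQ v j))
    (hy' : aeval y' (gpolQ v j) = aeval y' (gpolQ v l))
    (hy'' : aeval y'' (gpolQ v i) = aeval y'' (gpolQ v l)) :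
    ∃ σ : F ≃ₐ[ℚ] F, σ x = y ∧ σ x' = y' ∧ σ x'' = y'' := by
  have h12 : ({i, j} : Set ι) ≠ {j, l} := by
    intro hcon
    rw [Set.pair_eq_pair_iff] at hcon
    rcases hcon with ⟨h1, _⟩ | ⟨h1, _⟩
    · exact hij h1
    · exact hil h1
  have h13 : ({i, j} : Set ι) ≠ {i, l} := by
    intro hcon
    rw [Set.pair_eq_pair_iff] at hcon
    rcases hcon with ⟨_, h1⟩ | ⟨h1, _⟩
    · exact hjl h1
    · exact hil h1
  have h23 : ({j, l} : Set ι) ≠ {i, l} := by
    intro hcon
    rw [Set.pair_eq_pair_iff] at hcon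
    rcases hcon with ⟨h1, _⟩ | ⟨h1, _⟩
    · exact hij h1.symm
    · exact hjl h1
  obtain ⟨σ1, h1, f1⟩ := exists_move h hij x y hx hy
  obtain ⟨σ2, h2, f2⟩ := exists_move h hjl x' y' hx' hy'
  obtain ⟨σ3, h3, f3⟩ := exists_move h hil x'' y'' hx'' hy''
  refine ⟨(σ1.trans σ2).trans σ3, ?_, ?_, ?_⟩
  · rw [AlgEquiv.trans_apply, AlgEquiv.trans_apply, h1, f2 i j y hij h12 hy, f3 i j y hij h13 hy]
  · rw [AlgEquiv.trans_apply, AlgEquiv.trans_apply, f1 j l x' hjl h12.symm hx', h2,
      f3 j l y' hjl h23 hy']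
  · rw [AlgEquiv.trans_apply, AlgEquiv.trans_apply, f1 i l x'' hil h13.symm hx'',
      f2 i l x'' hil h23.symm hx'', h3]

end Pool.Agent.Lib.MP_89bcae_ag

end

section

/-!
# The number of the families of types I and L modulo `p`

The map `w ↦ gdif w a b` from `ι × Fin (n + 1) → ZMod p` to the polynomials of degree at most `n` is
linear and surjective, with fibres of size `p ^ (N - n - 1)`. Type I: there are at least
`(p - 1) p ^ n / (2 n)` irreducible polynomials of degree `n` over `𝔽_p` for large `p` (the number of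
monic ones: see the count of irreducible polynomials in the library: `family_lower14` in TypC14.lean and
the files it uses, SDen*.lean). Type L: the products `(X - z) g`, `g` irreducible of degree `n - 1`
with `g(z) ≠ 0`; given the product, `z` is determined if `n ≥ 3`, and up to two choices if `n = 2`
(`n = 2`: `g` linear), so there are at least `p (p - 1) (p ^ (n - 1) / (2 n) - 1) / 2` of them. Any
constant `c > 0` (depending on `n`) will do.
-/

open Polynomial

open scoped Classical

namespace Pool.Agent.Lib.MP_89bcae_ag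

section

variable {ι : Type} {n : ℕ}

/-- The families of type I modulo `p`. -/
def TypeIz (p : ℕ) (a b : ι) (w : ι × Fin (n + 1) → ZMod p) : Prop :=
  w (a, Fin.last n) ≠ w (b, Fin.last n) ∧ Irreducible (gdif w a b)

/-- The families of type L modulo `p`. -/
def TypeLz (p : ℕ) (a b : ι) (w : ι × Fin (n + 1) → ZMod p) : Prop :=
  w (a, Fin.last n) ≠ w (b, Fin.last n) ∧ ∃ (z : ZMod p) (g : (ZMod p)[X]),
    Irreducible g ∧ g.eval z ≠ 0 ∧ gdif w a b = (X - C z) * g

/-- The leading coefficients of the difference. -/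
lemma not_dvd_h83 {p : ℕ} {x y : ℤ} (h : (x : ZMod p) ≠ (y : ZMod p)) : ¬ (p : ℤ) ∣ x - y := by
  intro hd
  apply h
  have h1 := (ZMod.intCast_zmod_eq_zero_iff_dvd (x - y) p).2 hd
  rw [Int.cast_sub] at h1
  exact sub_eq_zero.1 h1

/-- The difference of the reductions. -/
lemma gred_h83 (p : ℕ) (v : ι × Fin (n + 1) → ℤ) (a b : ι) :
    gred p v a b = gdif (fun c => (v c : ZMod p)) a b := by
  unfold gred
  rw [gdif_map]
  rfl

theorem TypeI.of_z {p : ℕ} {a b : ι} {v : ι × Fin (n + 1) → ℤ}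
    (h : TypeIz p a b (fun c => (v c : ZMod p))) : TypeI p a b v := by
  refine ⟨not_dvd_h83 h.1, ?_⟩
  rw [gred_h83]
  exact h.2

theorem TypeL.of_z {p : ℕ} {a b : ι} {v : ι × Fin (n + 1) → ℤ}
    (h : TypeLz p a b (fun c => (v c : ZMod p))) : TypeL p a b v := by
  refine ⟨not_dvd_h83 h.1, ?_⟩
  rw [gred_h83]
  exact h.2

/-- The differences of the coefficients, as a homomorphism. -/
def difHom_h4 (p : ℕ) (n : ℕ) {ι : Type} (a b : ι) :
    (ι × Fin (n + 1) → ZMod p) →+ (Fin (n + 1) → ZMod p) where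
  toFun w := fun j => w (a, j) - w (b, j)
  map_zero' := by
    funext j
    simp
  map_add' v w := by
    funext j
    simp only [Pi.add_apply]
    ring

lemma difHom_surj_h4 (p : ℕ) (n : ℕ) {a b : ι} (hab : a ≠ b) :
    Function.Surjective (difHom_h4 p n a b) := by
  intro v
  refine ⟨fun x => if x.1 = a then v x.2 else 0, ?_⟩
  funext j
  change (if a = a then v j else 0) - (if b = a then v j else 0) = v j
  rw [if_pos rfl, if_neg (Ne.symm hab), sub_zero]

lemma gdif_eq_polyOf_h4 (p : ℕ) (n : ℕ) (a b : ι) (w : ι × Fin (n + 1) → ZMod p) :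
    gdif w a b = polyOf8 (difHom_h4 p n a b w) := by
  unfold gdif gpol polyOf8
  rw [← Finset.sum_sub_distrib]
  refine Finset.sum_congr rfl fun j _ => ?_
  change _ = C (w (a, j) - w (b, j)) * X ^ (j : ℕ)
  rw [C_sub]
  ring

/-- The number of the families with differences in a given set. -/
lemma fibre_count_h4 [Fintype ι] (p : ℕ) [Fact p.Prime] {a b : ι} (hab : a ≠ b)
    (S : Set (Fin (n + 1) → ZMod p)) :
    p ^ Fintype.card (ι × Fin (n + 1)) * S.ncard =
      p ^ (n + 1) * ({w : ι × Fin (n + 1) → ZMod p | difHom_h4 p n a b w ∈ S}).ncard := by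
  have hsurj := difHom_surj_h4 p n hab
  set K := (Finset.univ.filter (fun w => difHom_h4 p n a b w = 0)).card with hK
  have hfib : ∀ v, (Finset.univ.filter (fun w => difHom_h4 p n a b w = v)).card = K := by
    intro v
    exact AddMonoidHom.card_fiber_eq_of_mem_range (difHom_h4 p n a b) (hsurj v) (hsurj 0)
  have h1 : (Finset.univ : Finset (ι × Fin (n + 1) → ZMod p)).card = p ^ (n + 1) * K := by
    rw [Finset.card_eq_sum_card_fiberwise (f := difHom_h4 p n a b) (t := Finset.univ)
      (fun _ _ => Finset.mem_coe.2 (Finset.mem_univ _)), Finset.sum_congr rfl fun v _ => hfib v,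
      Finset.sum_const, smul_eq_mul, Finset.card_univ, Fintype.card_fun, ZMod.card, Fintype.card_fin]
  have h2 : ({w : ι × Fin (n + 1) → ZMod p | difHom_h4 p n a b w ∈ S}).ncard = S.ncard * K := by
    have e1 : {w : ι × Fin (n + 1) → ZMod p | difHom_h4 p n a b w ∈ S} =
        ((Finset.univ.filter (fun w => difHom_h4 p n a b w ∈ S) :
          Finset (ι × Fin (n + 1) → ZMod p)) : Set (ι × Fin (n + 1) → ZMod p)) := by
      ext w
      simp
    rw [e1, Set.ncard_coe_finset, Finset.card_eq_sum_card_fiberwise (f := difHom_h4 p n a b)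
      (t := S.toFinset) (fun w hw => by
        rw [Finset.mem_coe, Finset.mem_filter] at hw
        rw [Finset.mem_coe, Set.mem_toFinset]
        exact hw.2)]
    have e2 : ∀ v ∈ S.toFinset, ((Finset.univ.filter (fun w => difHom_h4 p n a b w ∈ S)).filter
        (fun w => difHom_h4 p n a b w = v)).card = K := by
      intro v hv
      rw [← hfib v]
      congr 1
      ext w
      simp only [Finset.mem_filter, Finset.mem_univ, true_and]
      constructor
      · exact fun h => h.2
      · intro h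
        exact ⟨by rw [h]; exact Set.mem_toFinset.1 hv, h⟩
    rw [Finset.sum_congr rfl e2, Finset.sum_const, smul_eq_mul, Set.ncard_eq_toFinset_card']
  rw [Finset.card_univ, Fintype.card_fun, ZMod.card] at h1
  rw [h2, h1]
  ring

/-- From a count of the differences to a count of the families. -/
lemma lift_count_h4 [Fintype ι] (p : ℕ) [Fact p.Prime] {a b : ι} (hab : a ≠ b)
    (S : Set (Fin (n + 1) → ZMod p)) (T : Set (ι × Fin (n + 1) → ZMod p)) (c : ℝ)
    (hS : c * (p : ℝ) ^ (n + 1) ≤ (S.ncard : ℝ)) (hT : ∀ w, difHom_h4 p n a b w ∈ S → w ∈ T) :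
    c * (p : ℝ) ^ Fintype.card (ι × Fin (n + 1)) ≤ (T.ncard : ℝ) := by
  have hp : p.Prime := Fact.out
  have hp0 : (0 : ℝ) < p := by exact_mod_cast hp.pos
  have h1 := fibre_count_h4 (n := n) p hab S
  have h2 : ({w : ι × Fin (n + 1) → ZMod p | difHom_h4 p n a b w ∈ S}).ncard ≤ T.ncard :=
    Set.ncard_le_ncard hT (Set.toFinite _)
  have h3 : (p : ℝ) ^ Fintype.card (ι × Fin (n + 1)) * (S.ncard : ℝ) =
      (p : ℝ) ^ (n + 1) * (({w : ι × Fin (n + 1) → ZMod p | difHom_h4 p n a b w ∈ S}).ncard : ℝ) := by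
    exact_mod_cast h1
  have h4 : (({w : ι × Fin (n + 1) → ZMod p | difHom_h4 p n a b w ∈ S}).ncard : ℝ) ≤ T.ncard := by
    exact_mod_cast h2
  have h5 : (p : ℝ) ^ (n + 1) * (c * (p : ℝ) ^ Fintype.card (ι × Fin (n + 1))) ≤
      (p : ℝ) ^ (n + 1) * T.ncard := by
    calc (p : ℝ) ^ (n + 1) * (c * (p : ℝ) ^ Fintype.card (ι × Fin (n + 1)))
        = (p : ℝ) ^ Fintype.card (ι × Fin (n + 1)) * (c * (p : ℝ) ^ (n + 1)) := by ring
      _ ≤ (p : ℝ) ^ Fintype.card (ι × Fin (n + 1)) * (S.ncard : ℝ) :=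
          mul_le_mul_of_nonneg_left hS (by positivity)
      _ = _ := h3
      _ ≤ _ := mul_le_mul_of_nonneg_left h4 (by positivity)
  exact le_of_mul_le_mul_left h5 (by positivity)

theorem count_typeI [Fintype ι] (hn : 1 ≤ n) {a b : ι} (hab : a ≠ b) :
    ∃ (P₀ : ℕ) (c : ℝ), 0 < c ∧ ∀ p : ℕ, p.Prime → P₀ ≤ p →
      c * (p : ℝ) ^ Fintype.card (ι × Fin (n + 1)) ≤
        ({w : ι × Fin (n + 1) → ZMod p | TypeIz p a b w}).ncard := by
  rcases eq_or_lt_of_le hn with h1 | h2
  · subst h1
    refine ⟨2, 1 / 2, by norm_num, fun p hp hp2 => ?_⟩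
    have : Fact p.Prime := ⟨hp⟩
    refine lift_count_h4 (n := 1) p hab {v : Fin (1 + 1) → ZMod p | v 1 ≠ 0} _ (1 / 2) ?_ ?_
    · have h3 : ({x : (ZMod p) × (ZMod p) | x.2 ≠ 0}).ncard ≤
          ({v : Fin (1 + 1) → ZMod p | v 1 ≠ 0}).ncard := by
        apply Set.ncard_le_ncard_of_injOn (fun x : (ZMod p) × (ZMod p) => (![x.1, x.2] : Fin (1 + 1) → ZMod p))
        · intro x hx
          exact hx
        · intro x _ y _ hxy
          have e0 := congrFun hxy 0
          have e1 := congrFun hxy 1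
          exact Prod.ext e0 e1
      have h4 : ({x : (ZMod p) × (ZMod p) | x.2 ≠ 0}).ncard = p * (p - 1) := by
        have h5 : {x : (ZMod p) × (ZMod p) | x.2 ≠ 0} =
            (Set.univ : Set (ZMod p)) ×ˢ {u : ZMod p | u ≠ 0} := by
          ext x
          simp
        rw [h5, Set.ncard_prod, ncard_ne_zero14, Set.ncard_univ, Nat.card_eq_fintype_card, ZMod.card]
      rw [h4] at h3
      have h6 : ((p : ℝ) * ((p : ℝ) - 1)) ≤
          (({v : Fin (1 + 1) → ZMod p | v 1 ≠ 0}).ncard : ℝ) := by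
        have h7 : ((p * (p - 1) : ℕ) : ℝ) = (p : ℝ) * ((p : ℝ) - 1) := by
          rw [Nat.cast_mul, Nat.cast_sub hp.one_le, Nat.cast_one]
        rw [← h7]
        exact_mod_cast h3
      refine le_trans ?_ h6
      have hpR : (2 : ℝ) ≤ p := by exact_mod_cast hp2
      nlinarith
    · intro w hw
      have hw' : w (a, 1) - w (b, 1) ≠ 0 := hw
      have hc : (gdif w a b).coeff 1 = w (a, 1) - w (b, 1) := gdif_coeff w a b 1
      refine ⟨fun h0 => hw' (sub_eq_zero.2 h0), irreducible_of_degree_eq_one ?_⟩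
      have hle : (gdif w a b).natDegree ≤ 1 := gdif_natDegree_le w a b
      have hge : 1 ≤ (gdif w a b).natDegree := le_natDegree_of_ne_zero (by rw [hc]; exact hw')
      have hdeg : (gdif w a b).natDegree = 1 := le_antisymm hle hge
      rw [degree_eq_natDegree (fun h0 => by rw [h0, natDegree_zero] at hdeg; omega), hdeg]
      rfl
  · obtain ⟨c, hc, P₀, hP⟩ := count_typeAX14 n h2
    refine ⟨P₀, c, hc, fun p hp hpP => ?_⟩
    have : Fact p.Prime := ⟨hp⟩
    refine lift_count_h4 (n := n) p hab _ _ c (hP p ⟨hp⟩ hpP) ?_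
    rintro w ⟨hirr, hn'⟩
    rw [← gdif_eq_polyOf_h4] at hirr hn'
    refine ⟨?_, hirr⟩
    intro h0
    have h4 := gdif_coeff w a b (Fin.last n)
    rw [h0, sub_self, Fin.val_last] at h4
    have h5 : (gdif w a b).leadingCoeff = 0 := by
      rw [leadingCoeff, hn', h4]
    rw [leadingCoeff_eq_zero] at h5
    exact hirr.ne_zero h5

/-- The quadratic polynomials with two different roots. -/
lemma count_quad_h4 (p : ℕ) [Fact p.Prime] :
    (p - 1) * p.choose 2 ≤ ({v : Fin (2 + 1) → ZMod p | ∃ (u z z' : ZMod p), u ≠ 0 ∧ z ≠ z' ∧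
      polyOf8 v = (X - C z) * (C u * (X - C z'))}).ncard := by
  have hdeg : ∀ (u : ZMod p) (s : Finset (ZMod p)), u ≠ 0 → s.card = 2 →
      (C u * ∏ z ∈ s, (X - C z)).natDegree = 2 := by
    intro u s hu hs
    rw [natDegree_C_mul hu, natDegree_finsetProd_X_sub_C_eq_card, hs]
  have h1 : ({u : ZMod p | u ≠ 0} ×ˢ
      (((Finset.univ : Finset (ZMod p)).powersetCard 2 : Finset (Finset (ZMod p))) :
        Set (Finset (ZMod p)))).ncard = (p - 1) * p.choose 2 := by
    rw [Set.ncard_prod, ncard_ne_zero14, Set.ncard_coe_finset, Finset.card_powersetCard,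
      Finset.card_univ, ZMod.card]
  rw [← h1]
  apply Set.ncard_le_ncard_of_injOn
    (fun x : ZMod p × Finset (ZMod p) => coeffs14 2 (C x.1 * ∏ z ∈ x.2, (X - C z)))
  · rintro ⟨u, s⟩ ⟨hu, hs⟩
    simp only at hu hs
    rw [Finset.mem_coe, Finset.mem_powersetCard] at hs
    obtain ⟨z, z', hzz, rfl⟩ := Finset.card_eq_two.1 hs.2
    refine ⟨u, z, z', hu, hzz, ?_⟩
    change polyOf8 (coeffs14 2 _) = _
    rw [polyOf_coeffs14 (hdeg u _ hu hs.2), Finset.prod_pair hzz]
    ring
  · rintro ⟨u, s⟩ ⟨hu, hs⟩ ⟨u', s'⟩ ⟨hu', hs'⟩ h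
    simp only at hu hs hu' hs' h
    rw [Finset.mem_coe, Finset.mem_powersetCard] at hs hs'
    have h2 := coeffs_inj14 (hdeg u s hu hs.2).le (hdeg u' s' hu' hs'.2).le h
    have h3 := congrArg leadingCoeff h2
    rw [leadingCoeff_mul, leadingCoeff_C, (monic_prod_X_sub_C (fun z => z) s).leadingCoeff, mul_one,
      leadingCoeff_mul, leadingCoeff_C, (monic_prod_X_sub_C (fun z => z) s').leadingCoeff,
      mul_one] at h3
    subst h3
    have h4 := mul_left_cancel₀ (C_ne_zero.mpr hu) h2
    have h5 := congrArg roots h4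
    rw [roots_prod_X_sub_C, roots_prod_X_sub_C] at h5
    rw [Prod.mk.injEq]
    exact ⟨rfl, Finset.val_injective h5⟩

theorem count_typeL [Fintype ι] (hn : 2 ≤ n) {a b : ι} (hab : a ≠ b) :
    ∃ (P₀ : ℕ) (c : ℝ), 0 < c ∧ ∀ p : ℕ, p.Prime → P₀ ≤ p →
      c * (p : ℝ) ^ Fintype.card (ι × Fin (n + 1)) ≤
        ({w : ι × Fin (n + 1) → ZMod p | TypeLz p a b w}).ncard := by
  rcases eq_or_lt_of_le hn with h2 | h3
  · subst h2
    refine ⟨3, 1 / 9, by norm_num, fun p hp hp3 => ?_⟩
    have : Fact p.Prime := ⟨hp⟩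
    refine lift_count_h4 (n := 2) p hab {v : Fin (2 + 1) → ZMod p | ∃ (u z z' : ZMod p), u ≠ 0 ∧ z ≠ z' ∧
      polyOf8 v = (X - C z) * (C u * (X - C z'))} _ (1 / 9) ?_ ?_
    · have h4 := count_quad_h4 p
      have h5 : (((p - 1) * p.choose 2 : ℕ) : ℝ) = ((p : ℝ) - 1) * (p * (p - 1) / 2) := by
        rw [Nat.cast_mul, Nat.cast_choose_two, Nat.cast_sub (by omega), Nat.cast_one]
      have h6 : ((p : ℝ) - 1) * (p * (p - 1) / 2) ≤
          (({v : Fin (2 + 1) → ZMod p | ∃ (u z z' : ZMod p), u ≠ 0 ∧ z ≠ z' ∧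
            polyOf8 v = (X - C z) * (C u * (X - C z'))}).ncard : ℝ) := by
        rw [← h5]
        exact_mod_cast h4
      refine le_trans ?_ h6
      have hpR : (3 : ℝ) ≤ p := by exact_mod_cast hp3
      have h7 : (2 / 3 * (p : ℝ)) ≤ p - 1 := by linarith
      have h8 : (2 / 3 * (p : ℝ)) * (2 / 3 * p) ≤ (p - 1) * (p - 1) :=
        mul_le_mul h7 h7 (by positivity) (by linarith)
      have h9 := mul_le_mul_of_nonneg_left h8 (by positivity : (0 : ℝ) ≤ (p : ℝ) / 2)
      have h10 : (0 : ℝ) ≤ (p : ℝ) ^ 3 := by positivity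
      have h11 : (p : ℝ) / 2 * (2 / 3 * (p : ℝ) * (2 / 3 * p)) = 2 / 9 * (p : ℝ) ^ 3 := by ring
      have h12 : (p : ℝ) / 2 * ((p - 1) * (p - 1)) = ((p : ℝ) - 1) * (p * (p - 1) / 2) := by ring
      rw [h11, h12] at h9
      norm_num
      linarith
    · rintro w ⟨u, z, z', hu, hzz, he⟩
      rw [← gdif_eq_polyOf_h4] at he
      have hc : (gdif w a b).coeff 2 = u := by
        rw [he]
        have : ((X - C z) * (C u * (X - C z')) : (ZMod p)[X]) =
            C u * X ^ 2 + C (-(u * (z + z'))) * X + C (u * z * z') := by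
          simp only [C_neg, C_mul, C_add]
          ring
        rw [this]
        simp
      refine ⟨?_, z, C u * (X - C z'), ?_, ?_, he⟩
      · intro h0
        apply hu
        rw [← hc]
        have := gdif_coeff w a b (Fin.last 2)
        rw [h0, sub_self] at this
        exact this
      · have hu' : IsUnit (C u : (ZMod p)[X]) := isUnit_C.mpr (isUnit_iff_ne_zero.mpr hu)
        rw [irreducible_isUnit_mul hu']
        exact irreducible_X_sub_C z'
      · rw [eval_mul, eval_C, eval_sub, eval_X, eval_C]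
        exact mul_ne_zero hu (sub_ne_zero.2 hzz)
  · obtain ⟨c, hc, P₀, hP⟩ := count_typeBX14 n h3
    refine ⟨P₀, c, hc, fun p hp hpP => ?_⟩
    have : Fact p.Prime := ⟨hp⟩
    refine lift_count_h4 (n := n) p hab _ _ c (hP p ⟨hp⟩ hpP) ?_
    rintro w ⟨z, D, he, hirr, hD, hn'⟩
    rw [← gdif_eq_polyOf_h4] at he hn'
    refine ⟨?_, z, D, hirr, ?_, he⟩
    · intro h0
      have h4 := gdif_coeff w a b (Fin.last n)
      rw [h0, sub_self, Fin.val_last] at h4
      have h5 : (gdif w a b).leadingCoeff = 0 := by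
        rw [leadingCoeff, hn', h4]
      rw [leadingCoeff_eq_zero] at h5
      rw [h5, natDegree_zero] at hn'
      omega
    · intro h0
      have h4 : D.natDegree = 1 := natDegree_eq_of_degree_eq_some
        (degree_eq_one_of_irreducible_of_root hirr h0)
      omega

end

end Pool.Agent.Lib.MP_89bcae_ag

end

section

/-!
# The criterion when all the nodes are rational
-/

open Polynomial

open scoped Classical

namespace Pool.Agent.Lib.MP_89bcae_ag

open Superelliptic

variable {k : Type} [Field k] {ι : Type} [Fintype ι] [LinearOrder ι] {n : ℕ}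

/-- **The criterion, nodes in `k`.** Proof: let `nd' i j a = algebraMap k F (nd i j a)` and let `ν x = V.ν y`
if `x = algebraMap k F y` (for instance with `Function.invFun (algebraMap k F) x`; `algebraMap k F` is
injective). The nodes over `F` are the `nd' i j a`, `i ≠ j` (`Nodes.mem` over `F`: `α i - α j` has degree `n`
and the `n` different roots `nd i j a` in `k`, so `Nodes.prod_eq` over `k` gives its factorisation, and a root
in `F` is one of the `nd' i j a`), so `IntermediateField.adjoin k (nodes k F α) = ⊥` and `ν` is `IsVal` on it.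
`CopyV` for `ν` and `nd'` is that of `V.ν` and `nd`. Then `indepW_of_copyV`. -/
theorem indepW_of_copyV_base {ℓ : ℕ} (hℓ : ℓ.Prime) (V : Val14 k ℓ) (α : ι → k[X])
    (hα : IsArrangement α) (W : ι → ℕ) (hW : ∀ i, (W i).Coprime ℓ)
    (nd : ι → ι → Fin n → k) (hN : Nodes (F := k) α nd) (c : Finset ι → ZMod ℓ) (g : ι → ZMod ℓ)
    (h : CopyV V.ν α nd fun T => c T - ∑ i ∈ T, g i)
    (hT : Lr.GoodT (fun i => (W i : ZMod ℓ)) c Finset.univ)
    (hR : Lr.GoodR (fun i => (W i : ZMod ℓ)) (fun i l => c {i, l}) g Finset.univ)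
    (F : Type) [Field F] [Algebra k F] :
    ArrangementIndependentW ℓ k F W α := by
  have hinj : Function.Injective (algebraMap k F) := (algebraMap k F).injective
  have hinv : ∀ x : k, Function.invFun (algebraMap k F) (algebraMap k F x) = x :=
    Function.leftInverse_invFun hinj
  have hN' : Nodes (F := F) α fun i j a => algebraMap k F (nd i j a) := by
    refine ⟨fun i j a => congrArg _ (hN.symm i j a), fun i j hij => hinj.comp (hN.inj i j hij), ?_, hN.lead⟩
    intro i j hij s
    have hne : α i ≠ α j := by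
      intro he
      apply hα.natDegree_ne_zero i j hij
      rw [he, sub_self, natDegree_zero]
    constructor
    · intro hs
      have h1 := hN.prod_eq hij hne
      rw [Algebra.algebraMap_self, Polynomial.map_id, RingHom.id_apply] at h1
      have h2 := congrArg (aeval s) h1
      rw [map_sub, hs, sub_self, map_mul, aeval_C, map_prod] at h2
      rcases mul_eq_zero.1 h2.symm with h3 | h3
      · rw [map_eq_zero_iff _ hinj, leadingCoeff_eq_zero, sub_eq_zero] at h3
        exact absurd h3 hne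
      · obtain ⟨a, -, ha⟩ := Finset.prod_eq_zero_iff.1 h3
        rw [map_sub, aeval_X, aeval_C, sub_eq_zero] at ha
        exact ⟨a, ha.symm⟩
    · rintro ⟨a, rfl⟩
      have h1 : aeval (nd i j a) (α i) = aeval (nd i j a) (α j) := (hN.mem i j hij _).2 ⟨a, rfl⟩
      rw [aeval_algebraMap_apply, aeval_algebraMap_apply, h1]
  have hbot : ∀ x ∈ (IntermediateField.adjoin k (nodes k F α)).toSubfield, ∃ y : k, algebraMap k F y = x := by
    have hb : IntermediateField.adjoin k (nodes k F α) = ⊥ := by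
      rw [IntermediateField.adjoin_eq_bot_iff]
      rintro s ⟨i, j, hij, hs⟩
      obtain ⟨a, rfl⟩ := (hN'.mem i j hij s).1 hs
      exact IntermediateField.mem_bot.2 ⟨_, rfl⟩
    intro x hx
    rw [hb] at hx
    exact IntermediateField.mem_bot.1 hx
  have hν : IsVal (IntermediateField.adjoin k (nodes k F α)).toSubfield
      fun x : F => V.ν (Function.invFun (algebraMap k F) x) := by
    constructor
    · intro x hx y hy hx0 hy0
      obtain ⟨x', rfl⟩ := hbot x hx
      obtain ⟨y', rfl⟩ := hbot y hy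
      rw [← map_mul, hinv, hinv, hinv]
      exact V.mul _ _ (fun h0 => hx0 (by rw [h0, map_zero])) fun h0 => hy0 (by rw [h0, map_zero])
    · show V.ν (Function.invFun (algebraMap k F) (-1)) = 0
      rw [← map_one (algebraMap k F), ← map_neg, hinv]
      exact V.neg_one
  refine indepW_of_copyV hℓ α hα W hW _ hν _ hN' c g ⟨?_, ?_, ?_⟩ hT hR
  · intro i j hij
    have h1 := h.lead i j hij
    rw [Algebra.algebraMap_self, RingHom.id_apply] at h1
    show V.ν (Function.invFun (algebraMap k F) (algebraMap k F _)) = _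
    rw [hinv, h1]
  · intro i j hij a b hab
    show V.ν (Function.invFun (algebraMap k F) (algebraMap k F _ - algebraMap k F _)) = _
    rw [← map_sub, hinv]
    exact h.par i j hij a b hab
  · intro i j l hij hjl hil a b
    show V.ν (Function.invFun (algebraMap k F) (algebraMap k F _ - algebraMap k F _)) = _
    rw [← map_sub, hinv]
    exact h.adj i j l hij hjl hil a b

end Pool.Agent.Lib.MP_89bcae_ag

end

section

/-!
# The arithmetic condition for good families

`exists_val_good`: conjugate the valuation of `exists_val_typeB` by the automorphism `σ` of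
`exists_move_triple` (`TripleV.conj`), and reduce it modulo `ℓ` (`1 ≠ 0` in `ZMod ℓ`).
`graphIndepW`: restrict to `I`; `K = ℚ(ζ_ℓ)`; the nodes of the `(gpolQ v i).map (algebraMap ℚ K)` are
those of the `gpolQ v i` (`aeval_map_algebraMap`, also for the derivatives); `exists_extend_val` extends
the homomorphisms from `ℚ(nodes)` to `K(nodes)`; all elements whose values are in `TripleV` are in
`ℚ(nodes)`; then `indepW_of_tripleV` over `k = K`. `F` is an algebraic closure of `ℚ` with an embedding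
of `K`.
-/

open Polynomial

open scoped Classical

namespace Pool.Agent.Lib.MP_89bcae_ag

open Superelliptic

section

variable {ι : Type} [Fintype ι] [LinearOrder ι] {n : ℕ} {F : Type} [Field F] [Algebra ℚ F]

theorem IsVal.conj {A : Type*} [AddCommGroup A] {S : Set F} (σ : F ≃ₐ[ℚ] F) {ν : F → A}
    (hS : σ.symm '' S = S) (h : IsVal (IntermediateField.adjoin ℚ S).toSubfield ν) :
    IsVal (IntermediateField.adjoin ℚ S).toSubfield fun x => ν (σ.symm x) := by
  have key : ∀ x ∈ (IntermediateField.adjoin ℚ S).toSubfield,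
      σ.symm x ∈ (IntermediateField.adjoin ℚ S).toSubfield := by
    intro x hx
    have h1 : (IntermediateField.adjoin ℚ S).map (σ.symm : F →ₐ[ℚ] F) = IntermediateField.adjoin ℚ S := by
      rw [IntermediateField.adjoin_map]
      exact congrArg _ hS
    have h2 : (σ.symm : F →ₐ[ℚ] F) x ∈ (IntermediateField.adjoin ℚ S).map (σ.symm : F →ₐ[ℚ] F) :=
      ⟨x, hx, rfl⟩
    rw [h1] at h2
    exact h2
  refine ⟨fun x hx y hy hx0 hy0 => ?_, ?_⟩
  · show ν (σ.symm (x * y)) = ν (σ.symm x) + ν (σ.symm y)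
    rw [map_mul]
    exact h.mul _ (key x hx) _ (key y hy) (by simpa using hx0) (by simpa using hy0)
  · show ν (σ.symm (-1)) = 0
    rw [map_neg, map_one]
    exact h.neg_one

theorem mem_triple_conj_h43 (σ : F ≃ₐ[ℚ] F) (r r' r'' s : F) :
    σ.symm s ∈ ({r, r', r''} : Set F) ↔ s ∈ ({σ r, σ r', σ r''} : Set F) := by
  simp only [Set.mem_insert_iff, Set.mem_singleton_iff, AlgEquiv.symm_apply_eq]

theorem aeval_conj_h43 (σ : F ≃ₐ[ℚ] F) (s : F) (p : ℚ[X]) :
    aeval (σ.symm s) p = σ.symm (aeval s p) :=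
  Polynomial.aeval_algHom_apply (σ.symm : F →ₐ[ℚ] F) s p

theorem TripleV.conj {A : Type*} [AddCommGroup A] {α : ι → ℚ[X]} (σ : F ≃ₐ[ℚ] F) {ν : F → A}
    {h : A} {i j l : ι} {r r' r'' : F} (H : TripleV ν α h i j l r r' r'') :
    TripleV (fun x => ν (σ.symm x)) α h i j l (σ r) (σ r') (σ r'') := by
  have hnode : ∀ s ∈ nodes ℚ F α, σ.symm s ∈ nodes ℚ F α := by
    rintro s ⟨a, b, hab, hs⟩
    exact ⟨a, b, hab, by rw [aeval_conj_h43, aeval_conj_h43, hs]⟩
  refine ⟨fun s hs s' hs' hne => ?_, fun a b s hab hs => ?_, fun a b c s hab hs hca hcb => ?_⟩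
  · show ν (σ.symm (s - s')) = _
    rw [map_sub, H.dif _ (hnode s hs) _ (hnode s' hs') (by simpa using hne)]
    simp only [mem_triple_conj_h43]
  · show ν (σ.symm (aeval s (derivative (α a - α b)))) = 0
    rw [← aeval_conj_h43]
    exact H.der a b _ hab (by rw [aeval_conj_h43, aeval_conj_h43, hs])
  · show ν (σ.symm (aeval s (α a) - aeval s (α c))) = _
    rw [map_sub, ← aeval_conj_h43, ← aeval_conj_h43,
      H.val a b c _ hab (by rw [aeval_conj_h43, aeval_conj_h43, hs]) hca hcb]
    simp only [mem_triple_conj_h43]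
    split_ifs <;> rfl

theorem exists_val_good [IsAlgClosure ℚ F] {ℓ : ℕ} (hℓ : ℓ.Prime) {v : ι × Fin (n + 1) → ℤ}
    (h : GoodG v) {i j l : ι} (hij : i ≠ j) (hjl : j ≠ l) (hil : i ≠ l) (r r' r'' : F)
    (hr : aeval r (gpolQ v i) = aeval r (gpolQ v j))
    (hr' : aeval r' (gpolQ v j) = aeval r' (gpolQ v l))
    (hr'' : aeval r'' (gpolQ v i) = aeval r'' (gpolQ v l)) :
    ∃ ν : F → ZMod ℓ, IsVal (IntermediateField.adjoin ℚ (nodes ℚ F (gpolQ v))).toSubfield ν ∧
      TripleV ν (gpolQ v) 1 i j l r r' r'' := by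
  obtain ⟨p, hp, hB⟩ := h.typeB i j l hij hjl hil
  obtain ⟨ν, s, s', s'', hs, hs', hs'', hν, hT⟩ := exists_val_typeB (F := F) v hp hij hjl hil hB
  obtain ⟨σ, h1, h2, h3⟩ := exists_move_triple h hij hjl hil s s' s'' r r' r'' hs hs' hs'' hr hr' hr''
  have hT' := hT.conj σ
  rw [h1, h2, h3] at hT'
  have hS : σ.symm '' nodes ℚ F (gpolQ v) = nodes ℚ F (gpolQ v) := by
    apply Set.Subset.antisymm
    · rintro _ ⟨x, hx, rfl⟩
      exact nodes_stable _ σ.symm x hx
    · intro x hx
      exact ⟨σ x, nodes_stable _ σ x hx, by simp⟩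
  have hν' := hν.conj σ hS
  refine ⟨fun x => ((ν (σ.symm x) : ℤ) : ZMod ℓ), ⟨fun x hx y hy hx0 hy0 => ?_, ?_⟩,
    ⟨fun s hs s' hs' hne => ?_, fun a b s hab hs => ?_, fun a b c s hab hs hca hcb => ?_⟩⟩
  · have := hν'.mul x hx y hy hx0 hy0
    simp only [this, Int.cast_add]
  · have := hν'.neg_one
    simp only [this, Int.cast_zero]
  · have := hT'.dif s hs s' hs' hne
    simp only [this]
    split_ifs <;> simp
  · have := hT'.der a b s hab hs
    simp only [this, Int.cast_zero]
  · have := hT'.val a b c s hab hs hca hcb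
    simp only [this]
    split_ifs <;> simp

end

section

variable {ι : Type} [Fintype ι] [LinearOrder ι] {n : ℕ}

theorem graphIndepW {ℓ : ℕ} (hℓ : ℓ.Prime) {v : ι × Fin (n + 1) → ℤ} (hv : GoodG v)
    (hn : (3 ≤ n ∧ 3 ≤ Fintype.card ι) ∨ (2 ≤ n ∧ 4 ≤ Fintype.card ι))
    (W : ι → ℕ) (hW : ∀ i, (W i).Coprime ℓ)
    (K F : Type) [Field K] [Algebra ℚ K] [IsCyclotomicExtension {ℓ} ℚ K] [Field F] [Algebra ℚ F]
    [IsAlgClosure ℚ F] [Algebra K F] [IsScalarTower ℚ K F] :
    IsArrangement (fun i => (gpolQ v i).map (algebraMap ℚ K)) ∧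
      ArrangementIndependentW ℓ K F W (fun i => (gpolQ v i).map (algebraMap ℚ K)) := by
  have : Fact ℓ.Prime := ⟨hℓ⟩
  have : IsAlgClosed F := IsAlgClosure.isAlgClosed ℚ
  have hFA : Algebra.IsAlgebraic ℚ F := IsAlgClosure.isAlgebraic
  have hn0 : n ≠ 0 := by
    rcases hn with h | h <;> omega
  have harr := hv.isArrangement hn0 K
  refine ⟨harr, ?_⟩
  have hnodes : nodes K F (fun i => (gpolQ v i).map (algebraMap ℚ K)) = nodes ℚ F (gpolQ v) := by
    unfold nodes
    simp only [aeval_map_algebraMap]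
  have hmem : ∀ (s : F), s ∈ nodes ℚ F (gpolQ v) → ∀ p : ℚ[X],
      aeval s p ∈ IntermediateField.adjoin ℚ (nodes ℚ F (gpolQ v)) := by
    intro s hs p
    have h1 := IntermediateField.subset_adjoin ℚ (nodes ℚ F (gpolQ v)) hs
    rw [aeval_eq_sum_range]
    exact sum_mem fun j _ => IntermediateField.smul_mem _ (pow_mem h1 j)
  have hfin : (nodes ℚ F (gpolQ v)).Finite := by
    apply nodes_gpolQ_finite
    intro a b hab hEq
    have h1 := hv.natDegree hab
    rw [hEq, sub_self, natDegree_zero] at h1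
    exact hn0 h1.symm
  apply indepW_of_tripleV hℓ _ harr (by rcases hn with h | h <;> omega) ?_ W hW
  · intro i j l hij hjl hil r r' r'' hr hr' hr''
    simp only [aeval_map_algebraMap] at hr hr' hr''
    obtain ⟨ν₀, hν₀, T⟩ := exists_val_good hℓ hv hij hjl hil r r' r'' hr hr' hr''
    obtain ⟨ν, hν, hext⟩ := exists_extend_val hℓ K F (nodes ℚ F (gpolQ v)) hfin
      (fun s _ => (hFA.isAlgebraic s).isIntegral) ν₀ hν₀
    refine ⟨ν, 1, ?_, one_ne_zero, ?_⟩
    · rw [hnodes]
      exact hν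
    · refine ⟨?_, ?_, ?_⟩
      · rw [hnodes]
        intro s hs s' hs' hne
        rw [hext _ (sub_mem (IntermediateField.subset_adjoin ℚ _ hs)
          (IntermediateField.subset_adjoin ℚ _ hs'))]
        exact T.dif s hs s' hs' hne
      · intro a b s hab hs
        have hs1 : aeval s (gpolQ v a) = aeval s (gpolQ v b) := by
          simpa only [aeval_map_algebraMap] using hs
        have h1 : aeval s (derivative ((gpolQ v a).map (algebraMap ℚ K) -
            (gpolQ v b).map (algebraMap ℚ K))) = aeval s (derivative (gpolQ v a - gpolQ v b)) := by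
          rw [← Polynomial.map_sub, derivative_map, aeval_map_algebraMap]
        show ν (aeval s (derivative ((gpolQ v a).map (algebraMap ℚ K) -
            (gpolQ v b).map (algebraMap ℚ K)))) = 0
        rw [h1, hext _ (hmem s ⟨a, b, hab, hs1⟩ _)]
        exact T.der a b s hab hs1
      · intro a b c s hab hs hca hcb
        have hs1 : aeval s (gpolQ v a) = aeval s (gpolQ v b) := by
          simpa only [aeval_map_algebraMap] using hs
        have h2 := T.val a b c s hab hs1 hca hcb
        simp only [aeval_map_algebraMap]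
        rw [hext _ (sub_mem (hmem s ⟨a, b, hab, hs1⟩ _) (hmem s ⟨a, b, hab, hs1⟩ _))]
        exact h2
  · have hdeg : ∀ i j : ι, i ≠ j → ((gpolQ v i).map (algebraMap ℚ K) -
        (gpolQ v j).map (algebraMap ℚ K)).natDegree = n := by
      intro i j hij
      rw [← Polynomial.map_sub, natDegree_map]
      exact hv.natDegree hij
    rcases hn with h | h
    · left
      intro i j hij
      rw [hdeg i j hij]
      exact h.1
    · right
      refine ⟨h.2, fun i j hij => ?_⟩
      rw [hdeg i j hij]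
      exact h.1

end

end Pool.Agent.Lib.MP_89bcae_ag

end

section

/-!
# The homomorphisms of types B, D, K at all the nodes
-/

open Polynomial

open scoped Classical

namespace Pool.Agent.Lib.MP_89bcae_ag

open Superelliptic

variable {ι : Type} [Fintype ι] [LinearOrder ι] {n : ℕ} {F : Type} [Field F] [Algebra ℚ F]

/-- Conjugation. (As `TripleV.conj`, `Gph/Ind.lean`: `σ` permutes the nodes (`nodes_stable`) and fixes the
leading coefficients; `IsVal.conj`.) -/
theorem DifV.conj {A : Type*} [AddCommGroup A] {α : ι → ℚ[X]} (σ : F ≃ₐ[ℚ] F) {ν : F → A}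
    {h : F → F → A} {b : ι → ι → A} (H : DifV ν α h b) :
    DifV (fun x => ν (σ.symm x)) α (fun s s' => h (σ.symm s) (σ.symm s')) b := by
  have hnode : ∀ s ∈ nodes ℚ F α, σ.symm s ∈ nodes ℚ F α := nodes_stable α σ.symm
  refine ⟨fun s hs s' hs' hne => ?_, fun a c hac => ?_⟩
  · show ν (σ.symm (s - s')) = _
    rw [map_sub, H.dif _ (hnode s hs) _ (hnode s' hs') (by simpa using hne)]
  · show ν (σ.symm (algebraMap ℚ F (α a - α c).leadingCoeff)) = _
    rw [AlgEquiv.commutes, H.lead a c hac]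

variable [IsAlgClosure ℚ F]

theorem isVal_prod_h66 {A : Type*} [AddCommGroup A] {K₀ : Subfield F}
    {ν₀ : F → A} (h₀ : IsVal K₀ ν₀) {τ : Type*} (R : Finset τ) (f : τ → F)
    (hK : ∀ t ∈ R, f t ∈ K₀) (h0 : ∀ t ∈ R, f t ≠ 0) :
    ν₀ (∏ t ∈ R, f t) = ∑ t ∈ R, ν₀ (f t) := by
  induction R using Finset.induction_on with
  | empty => rw [Finset.prod_empty, Finset.sum_empty, isVal_one_h65 h₀]
  | insert t R ht ih =>
    rw [Finset.prod_insert ht, Finset.sum_insert ht, h₀.mul, ih]
    · exact fun u hu => hK u (Finset.mem_insert_of_mem hu)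
    · exact fun u hu => h0 u (Finset.mem_insert_of_mem hu)
    · exact hK t (Finset.mem_insert_self t R)
    · exact prod_mem fun u hu => hK u (Finset.mem_insert_of_mem hu)
    · exact h0 t (Finset.mem_insert_self t R)
    · exact Finset.prod_ne_zero_iff.2 fun u hu => h0 u (Finset.mem_insert_of_mem hu)

theorem leadingCoeff_h66 (v : ι × Fin (n + 1) → ℤ) (a b : ι) :
    algebraMap ℚ F (gpolQ v a - gpolQ v b).leadingCoeff =
      algebraMap ℤ F (gdif v a b).leadingCoeff := by
  rw [← gdif_map_rat, leadingCoeff_map_of_injective (RingHom.injective_int (Int.castRingHom ℚ))]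
  simp

/-- Type B. Proof: `exists_val_good` gives `ν` with `TripleV ν (gpolQ v) 1 i j l r r' r''`; `dif` is the
statement. The leading coefficient of `α_a - α_b`: take a root `s` (`n ≥ 1`); by `der`,
`0 = ν((α_a - α_b)' s) = ν(lc) + ∑_{s' ≠ s} ν(s - s')` over the other roots `s'` of `α_a - α_b`
(`exists_roots` gives the factorisation), and `ν(s - s') = 0` because at most one of `r, r', r''` is a root
of `α_a - α_b` (`no_common_root_h30`). -/
theorem exists_val_B {ℓ : ℕ} (hℓ : ℓ.Prime) {v : ι × Fin (n + 1) → ℤ} (h : GoodH v) (hn : 1 ≤ n)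
    {i j l : ι} (hij : i ≠ j) (hjl : j ≠ l) (hil : i ≠ l) (r r' r'' : F)
    (hr : aeval r (gpolQ v i) = aeval r (gpolQ v j))
    (hr' : aeval r' (gpolQ v j) = aeval r' (gpolQ v l))
    (hr'' : aeval r'' (gpolQ v i) = aeval r'' (gpolQ v l)) :
    ∃ ν : F → ZMod ℓ, IsVal (IntermediateField.adjoin ℚ (nodes ℚ F (gpolQ v))).toSubfield ν ∧
      DifV ν (gpolQ v) (fun s s' => if s ∈ ({r, r', r''} : Set F) ∧ s' ∈ ({r, r', r''} : Set F)
        then 1 else 0) (fun _ _ => 0) := by
  obtain ⟨ν, hν, T⟩ := exists_val_good hℓ h.good hij hjl hil r r' r'' hr hr' hr''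
  refine ⟨ν, hν, fun s hs s' hs' hne => T.dif s hs s' hs' hne, fun a b hab => ?_⟩
  have hG := h.good
  have h12 : ({i, j} : Set ι) ≠ {j, l} := by
    intro hcon
    rw [Set.pair_eq_pair_iff] at hcon
    rcases hcon with ⟨h1, _⟩ | ⟨h1, _⟩
    · exact hij h1
    · exact hil h1
  have h13 : ({i, j} : Set ι) ≠ {i, l} := by
    intro hcon
    rw [Set.pair_eq_pair_iff] at hcon
    rcases hcon with ⟨_, h1⟩ | ⟨h1, _⟩
    · exact hjl h1
    · exact hil h1
  have h23 : ({j, l} : Set ι) ≠ {i, l} := by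
    intro hcon
    rw [Set.pair_eq_pair_iff] at hcon
    rcases hcon with ⟨h1, _⟩ | ⟨h1, _⟩
    · exact hij h1.symm
    · exact hjl h1
  have key : ∀ x ∈ ({r, r', r''} : Set F), aeval x (gpolQ v a) = aeval x (gpolQ v b) →
      (({a, b} : Set ι) = {i, j} ∧ x = r) ∨ (({a, b} : Set ι) = {j, l} ∧ x = r') ∨
        (({a, b} : Set ι) = {i, l} ∧ x = r'') := by
    intro x hx hxa
    simp only [Set.mem_insert_iff, Set.mem_singleton_iff] at hx
    rcases hx with rfl | rfl | rfl
    · refine Or.inl ⟨by_contra fun hcon => ?_, rfl⟩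
      exact no_common_root_h30 hG hab hij hcon hxa hr
    · refine Or.inr (Or.inl ⟨by_contra fun hcon => ?_, rfl⟩)
      exact no_common_root_h30 hG hab hjl hcon hxa hr'
    · refine Or.inr (Or.inr ⟨by_contra fun hcon => ?_, rfl⟩)
      exact no_common_root_h30 hG hab hil hcon hxa hr''
  have hcharz : CharZero F := algebraRat.charZero F
  obtain ⟨p, hp, hI⟩ := hG.typeI a b hab
  have hsep := separable_of_typeI v hp hI
  obtain ⟨R, hR, hfR⟩ := exists_roots (F := F) hsep
  have hinj : Function.Injective (algebraMap ℤ F) := RingHom.injective_int _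
  have hf0 : gdif v a b ≠ 0 := by
    intro hcon
    have := hsep.ne_zero
    rw [← gdif_map_rat, hcon, Polynomial.map_zero] at this
    exact this rfl
  have hlc0 : algebraMap ℤ F (gdif v a b).leadingCoeff ≠ 0 := by
    rw [Ne, map_eq_zero_iff _ hinj, leadingCoeff_eq_zero]
    exact hf0
  have hdeg : (gdif v a b).natDegree = n := by
    have := hG.natDegree hab
    rwa [← gdif_map_rat, natDegree_map_eq_of_injective (RingHom.injective_int (Int.castRingHom ℚ))] at this
  have hcard : R.card = n := by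
    have h1 := congrArg natDegree hfR
    rw [natDegree_map_eq_of_injective hinj, hdeg, natDegree_C_mul hlc0,
      natDegree_prod_of_monic _ _ fun s _ => monic_X_sub_C s] at h1
    simp only [natDegree_X_sub_C, Finset.sum_const, smul_eq_mul, mul_one] at h1
    exact h1.symm
  obtain ⟨s, hs⟩ : R.Nonempty := by
    rw [← Finset.card_pos, hcard]
    omega
  have hsr := (hR s).1 hs
  have hder : aeval s (derivative (gpolQ v a - gpolQ v b)) =
      algebraMap ℤ F (gdif v a b).leadingCoeff * ∏ t ∈ R.erase s, (s - t) := by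
    rw [← aeval_derivative_gdif, aeval_def, ← eval_map, ← derivative_map, hfR,
      ← Finset.mul_prod_erase R _ hs, derivative_mul, derivative_mul, derivative_C, derivative_sub,
      derivative_X, derivative_C]
    simp only [eval_add, eval_mul, eval_sub, eval_zero, eval_C, eval_X, eval_one, eval_prod]
    simp
  have hmem : ∀ t ∈ R, t ∈ (IntermediateField.adjoin ℚ (nodes ℚ F (gpolQ v))).toSubfield := by
    intro t ht
    exact IntermediateField.subset_adjoin ℚ _ ⟨a, b, hab, (hR t).1 ht⟩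
  have h1 := T.der a b s hab hsr
  rw [hder, hν.mul, isVal_prod_h66 hν] at h1
  · rw [Finset.sum_eq_zero, add_zero] at h1
    · rw [leadingCoeff_h66]
      exact h1
    · intro t ht
      rw [Finset.mem_erase] at ht
      have htr := (hR t).1 ht.2
      rw [T.dif s ⟨a, b, hab, hsr⟩ t ⟨a, b, hab, htr⟩ (Ne.symm ht.1), if_neg]
      rintro ⟨c1, c2⟩
      rcases key s c1 hsr with ⟨e1, e2⟩ | ⟨e1, e2⟩ | ⟨e1, e2⟩ <;>
        rcases key t c2 htr with ⟨g1, g2⟩ | ⟨g1, g2⟩ | ⟨g1, g2⟩
      · exact ht.1 (g2.trans e2.symm)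
      · exact h12 (e1.symm.trans g1)
      · exact h13 (e1.symm.trans g1)
      · exact h12 (g1.symm.trans e1)
      · exact ht.1 (g2.trans e2.symm)
      · exact h23 (e1.symm.trans g1)
      · exact h13 (g1.symm.trans e1)
      · exact h23 (g1.symm.trans e1)
      · exact ht.1 (g2.trans e2.symm)
  · exact fun t ht => sub_mem (hmem s hs) (hmem t (Finset.mem_of_mem_erase ht))
  · intro t ht hcon
    exact (Finset.ne_of_mem_erase ht) (sub_eq_zero.1 hcon).symm
  · rw [← leadingCoeff_h66]
    exact (IntermediateField.adjoin ℚ (nodes ℚ F (gpolQ v))).algebraMap_mem _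
  · exact prod_mem fun t ht => sub_mem (hmem s hs) (hmem t (Finset.mem_of_mem_erase ht))
  · exact hlc0
  · refine Finset.prod_ne_zero_iff.2 fun t ht hcon => ?_
    exact (Finset.ne_of_mem_erase ht) (sub_eq_zero.1 hcon).symm

/-- conjugation and reduction modulo `ℓ` -/
theorem valmod_h59 {ℓ : ℕ} {α : ι → ℚ[X]} (σ : F ≃ₐ[ℚ] F) {ν : F → ℤ}
    {h : F → F → ℤ} {b : ι → ι → ℤ}
    (hν : IsVal (IntermediateField.adjoin ℚ (nodes ℚ F α)).toSubfield ν) (H : DifV ν α h b) :
    ∃ ν' : F → ZMod ℓ, IsVal (IntermediateField.adjoin ℚ (nodes ℚ F α)).toSubfield ν' ∧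
      DifV ν' α (fun s s' => ((h (σ.symm s) (σ.symm s') : ℤ) : ZMod ℓ))
        (fun c d => ((b c d : ℤ) : ZMod ℓ)) := by
  have hS : σ.symm '' nodes ℚ F α = nodes ℚ F α := by
    apply Set.Subset.antisymm
    · rintro _ ⟨x, hx, rfl⟩
      exact nodes_stable _ σ.symm x hx
    · intro x hx
      exact ⟨σ x, nodes_stable _ σ x hx, by simp⟩
  have hν' := hν.conj σ hS
  have hT' := H.conj σ
  refine ⟨fun x => ((ν (σ.symm x) : ℤ) : ZMod ℓ), ⟨fun x hx y hy hx0 hy0 => ?_, ?_⟩,
    ⟨fun s hs s' hs' hne => ?_, fun c d hcd => ?_⟩⟩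
  · have := hν'.mul x hx y hy hx0 hy0
    simp only [this, Int.cast_add]
  · have := hν'.neg_one
    simp only [this, Int.cast_zero]
  · have := hT'.dif s hs s' hs' hne
    simp only [this]
  · have := hT'.lead c d hcd
    simp only [this]

/-- Type D. Proof: `exists_val_typeD` (`h.typeD`, `separable_of_typeI`) and `pairTransitive_gpol` give a
conjugate (`DifV.conj`, `IsVal.conj`) with the roots `u, w`; reduce modulo `ℓ` (as in
`exists_val_good`). -/
theorem exists_val_D {ℓ : ℕ} (hℓ : ℓ.Prime) {v : ι × Fin (n + 1) → ℤ} (h : GoodH v)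
    {a b : ι} (hab : a ≠ b) (u w : F) (huw : u ≠ w)
    (hu : aeval u (gpolQ v a) = aeval u (gpolQ v b))
    (hw : aeval w (gpolQ v a) = aeval w (gpolQ v b)) :
    ∃ ν : F → ZMod ℓ, IsVal (IntermediateField.adjoin ℚ (nodes ℚ F (gpolQ v))).toSubfield ν ∧
      DifV ν (gpolQ v) (fun s s' => if s ∈ ({u, w} : Set F) ∧ s' ∈ ({u, w} : Set F)
        then 1 else 0) (fun _ _ => 0) := by
  obtain ⟨p, hp, hp2, hD⟩ := h.typeD a b hab
  obtain ⟨q, hq, hI⟩ := h.good.typeI a b hab
  have hsep := separable_of_typeI v hq hI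
  obtain ⟨ν, u', w', huw', hu', hw', hν, hT⟩ := exists_val_typeD (F := F) v hp hp2 hab hD hsep
  obtain ⟨σ, hσu, hσw⟩ := pairTransitive_gpol v (h.good.typeI a b hab) (h.good.typeL a b hab)
    u' w' u w hu' hw' hu hw huw' huw
  obtain ⟨ν', hν', hT'⟩ := valmod_h59 (ℓ := ℓ) σ hν hT
  refine ⟨ν', hν', ?_⟩
  have hmem : ∀ s : F, σ.symm s ∈ ({u', w'} : Set F) ↔ s ∈ ({u, w} : Set F) := by
    intro s
    simp only [Set.mem_insert_iff, Set.mem_singleton_iff, AlgEquiv.symm_apply_eq, hσu, hσw]
  refine ⟨fun s hs s' hs' hne => ?_, fun c d hcd => ?_⟩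
  · rw [hT'.dif s hs s' hs' hne]
    simp only [hmem]
    split_ifs <;> simp
  · rw [hT'.lead c d hcd]
    simp

/-- Type K. Proof: `exists_val_typeK` and a conjugate by `exists_move`. -/
theorem exists_val_K {ℓ : ℕ} (hℓ : ℓ.Prime) {v : ι × Fin (n + 1) → ℤ} (h : GoodH v) (hn : 2 ≤ n)
    {a b : ι} (hab : a ≠ b) (u : F) (hu : aeval u (gpolQ v a) = aeval u (gpolQ v b)) :
    ∃ ν : F → ZMod ℓ, IsVal (IntermediateField.adjoin ℚ (nodes ℚ F (gpolQ v))).toSubfield ν ∧
      DifV ν (gpolQ v) (fun s s' => if s = u ∨ s' = u then -1 else 0)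
        (fun c d => if ({c, d} : Set ι) = {a, b} then 1 else 0) := by
  obtain ⟨p, hp, hK⟩ := h.typeK a b hab
  obtain ⟨q, hq, hI⟩ := h.good.typeI a b hab
  have hsep := separable_of_typeI v hq hI
  obtain ⟨ν, u', hu', hν, hT⟩ := exists_val_typeK (F := F) v hp hab hK hn hsep
  obtain ⟨σ, hσu, -⟩ := exists_move h.good hab u' u hu' hu
  obtain ⟨ν', hν', hT'⟩ := valmod_h59 (ℓ := ℓ) σ hν hT
  refine ⟨ν', hν', ?_⟩
  have hmem : ∀ s : F, σ.symm s = u' ↔ s = u := by
    intro s
    rw [AlgEquiv.symm_apply_eq, hσu]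
  refine ⟨fun s hs s' hs' hne => ?_, fun c d hcd => ?_⟩
  · rw [hT'.dif s hs s' hs' hne]
    simp only [hmem]
    split_ifs <;> simp
  · rw [hT'.lead c d hcd]
    split_ifs <;> simp

end Pool.Agent.Lib.MP_89bcae_ag

end

section

/-!
# The sums of the homomorphisms: one triple, one pair
-/

open Polynomial

open scoped Classical

namespace Pool.Agent.Lib.MP_89bcae_ag

open Superelliptic

variable {ι : Type} [Fintype ι] [LinearOrder ι] {n : ℕ} {F : Type} [Field F] [Algebra ℚ F]

/-- The nodes of different pairs are different. -/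
theorem Nodes.ne [IsAlgClosure ℚ F] {v : ι × Fin (n + 1) → ℤ} (h : GoodH v)
    {nd : ι → ι → Fin n → F} (hN : Nodes (gpolQ v) nd) {i j i' j' : ι} (hij : i ≠ j)
    (hij' : i' ≠ j') {a a' : Fin n} (he : nd i j a = nd i' j' a') :
    ({i, j} : Set ι) = {i', j'} ∧ a = a' := by
  have h1 : aeval (nd i j a) (gpolQ v i) = aeval (nd i j a) (gpolQ v j) := (hN.mem i j hij _).2 ⟨a, rfl⟩
  have h2 : aeval (nd i j a) (gpolQ v i') = aeval (nd i j a) (gpolQ v j') :=
    (hN.mem i' j' hij' _).2 ⟨a', he.symm⟩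
  have h3 : ({i, j} : Set ι) = {i', j'} := by
    by_contra hne
    exact no_common_root_h30 h.good hij hij' hne h1 h2
  refine ⟨h3, ?_⟩
  rcases Set.pair_eq_pair_iff.mp h3 with ⟨rfl, rfl⟩ | ⟨rfl, rfl⟩
  · exact hN.inj _ _ hij he
  · rw [hN.symm j i a'] at he
    exact hN.inj _ _ hij he

lemma isVal_sum_h30 {F' : Type*} [Field F'] {A κ : Type*} [AddCommGroup A] {K : Subfield F'} (s : Finset κ)
    {ν : κ → F' → A} (h : ∀ a ∈ s, IsVal K (ν a)) : IsVal K (fun x => ∑ a ∈ s, ν a x) where
  mul x hx y hy hx0 hy0 := by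
    rw [← Finset.sum_add_distrib]
    exact Finset.sum_congr rfl fun a ha => (h a ha).mul x hx y hy hx0 hy0
  neg_one := Finset.sum_eq_zero fun a ha => (h a ha).neg_one

lemma Nodes.mem_nodes_h30 {F' : Type} [Field F'] [Algebra ℚ F'] {κ : Type} {m : ℕ} {α : κ → ℚ[X]}
    {nd : κ → κ → Fin m → F'} (hN : Nodes α nd) {x y : κ} (hxy : x ≠ y) (a : Fin m) :
    nd x y a ∈ nodes ℚ F' α := ⟨x, y, hxy, (hN.mem x y hxy _).2 ⟨a, rfl⟩⟩

lemma triple_mem_iff_h30 [IsAlgClosure ℚ F] {v : ι × Fin (n + 1) → ℤ} (h : GoodH v)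
    {nd : ι → ι → Fin n → F} (hN : Nodes (gpolQ v) nd) {i j l : ι} (hij : i ≠ j) (hil : i ≠ l) (hjl : j ≠ l)
    {x y : ι} (hxy : x ≠ y) (a c : Fin n) :
    nd x y a ∈ ({nd i j c, nd j l c, nd i l c} : Set F) ↔
      a = c ∧ x ∈ ({i, j, l} : Finset ι) ∧ y ∈ ({i, j, l} : Finset ι) := by
  constructor
  · intro hm
    have key : ∀ i' j' : ι, i' ≠ j' → i' ∈ ({i, j, l} : Finset ι) → j' ∈ ({i, j, l} : Finset ι) →
        nd x y a = nd i' j' c → a = c ∧ x ∈ ({i, j, l} : Finset ι) ∧ y ∈ ({i, j, l} : Finset ι) := by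
      intro i' j' hij' hi' hj' he
      obtain ⟨h1, h2⟩ := Nodes.ne h hN hxy hij' he
      refine ⟨h2, ?_⟩
      rcases Set.pair_eq_pair_iff.mp h1 with ⟨rfl, rfl⟩ | ⟨rfl, rfl⟩
      · exact ⟨hi', hj'⟩
      · exact ⟨hj', hi'⟩
    rcases hm with he | he | he
    · exact key i j hij (by simp) (by simp) he
    · exact key j l hjl (by simp) (by simp) he
    · exact key i l hil (by simp) (by simp) he
  · rintro ⟨rfl, hx, hy⟩
    simp only [Finset.mem_insert, Finset.mem_singleton] at hx hy
    simp only [Set.mem_insert_iff, Set.mem_singleton_iff]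
    rcases hx with rfl | rfl | rfl <;> rcases hy with rfl | rfl | rfl
    · exact absurd rfl hxy
    · exact Or.inl rfl
    · exact Or.inr (Or.inr rfl)
    · exact Or.inl (hN.symm _ _ _)
    · exact absurd rfl hxy
    · exact Or.inr (Or.inl rfl)
    · exact Or.inr (Or.inr (hN.symm _ _ _))
    · exact Or.inr (Or.inl (hN.symm _ _ _))
    · exact absurd rfl hxy

/-- One triple. Proof: `ν = ∑ a : Fin n, ν_a` where `ν_a` is that of `exists_val_B` for
`r = nd i j a`, `r' = nd j l a`, `r'' = nd i l a`. A node `nd x y a'` is in `{r, r', r''}` if and only if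
`a' = a` and `x, y ∈ {i, j, l}` (`Nodes.ne`). So for `x ≠ y`, `a' ≠ b'`, `ν(nd x y a' - nd x y b') = 0`, and
for different `x, y, z`: `ν(nd x y a' - nd x z b')` is `1` if `a' = b'` and `{x, y, z} = {i, j, l}`, and `0`
otherwise. The values of `B` at pairs are `0`. -/
theorem copyV_triple [IsAlgClosure ℚ F] {ℓ : ℕ} (hℓ : ℓ.Prime) {v : ι × Fin (n + 1) → ℤ}
    (h : GoodH v) (hn : 1 ≤ n) {nd : ι → ι → Fin n → F} (hN : Nodes (gpolQ v) nd)
    {T : Finset ι} (hT : T.card = 3) :
    ∃ ν : F → ZMod ℓ, IsVal (IntermediateField.adjoin ℚ (nodes ℚ F (gpolQ v))).toSubfield ν ∧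
      CopyV ν (gpolQ v) nd (fun T' => if T' = T then 1 else 0) := by
  obtain ⟨i, j, l, hij, hil, hjl, hTe⟩ := Finset.card_eq_three.mp hT
  have hm : ∀ {x y : ι} (_ : x ≠ y) (a : Fin n), aeval (nd x y a) (gpolQ v x) = aeval (nd x y a) (gpolQ v y) :=
    fun {x y} hxy a => (hN.mem x y hxy _).2 ⟨a, rfl⟩
  choose ν hν hD using fun a : Fin n => exists_val_B hℓ h hn hij hjl hil (nd i j a) (nd j l a) (nd i l a)
    (hm hij a) (hm hjl a) (hm hil a)
  have hpair : ∀ {x y : ι} (_ : x ≠ y), (if ({x, y} : Finset ι) = T then (1 : ZMod ℓ) else 0) = 0 := by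
    intro x y hxy
    refine if_neg fun he => ?_
    rw [← he, Finset.card_pair hxy] at hT
    omega
  refine ⟨fun x => ∑ a : Fin n, ν a x, isVal_sum_h30 _ fun a _ => hν a, ?_, ?_, ?_⟩
  · intro x y hxy
    have e := (Finset.sum_eq_zero fun a (_ : a ∈ Finset.univ) => (hD a).lead x y hxy).trans (hpair hxy).symm
    refine e.trans ?_
    congr <;> exact Subsingleton.elim _ _
  · intro x y hxy a b hab
    refine Finset.sum_eq_zero fun c _ => ?_
    rw [(hD c).dif _ (hN.mem_nodes_h30 hxy a) _ (hN.mem_nodes_h30 hxy b) fun he => hab (hN.inj x y hxy he),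
      if_neg]
    rintro ⟨h1, h2⟩
    rw [triple_mem_iff_h30 h hN hij hil hjl hxy] at h1 h2
    exact hab (h1.1.trans h2.1.symm)
  · intro x y z hxy hyz hxz a b
    have hne : nd x y a ≠ nd x z b := by
      intro he
      rcases Set.pair_eq_pair_iff.mp (Nodes.ne h hN hxy hxz he).1 with ⟨-, h2⟩ | ⟨h1, -⟩
      · exact hyz h2
      · exact hxz h1
    have h1 : ∀ c : Fin n, ν c (nd x y a - nd x z b) =
        if c = a ∧ a = b ∧ ({x, y, z} : Finset ι) = T then 1 else 0 := by
      intro c
      rw [(hD c).dif _ (hN.mem_nodes_h30 hxy a) _ (hN.mem_nodes_h30 hxz b) hne]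
      refine if_congr ?_ rfl rfl
      rw [triple_mem_iff_h30 h hN hij hil hjl hxy, triple_mem_iff_h30 h hN hij hil hjl hxz, ← hTe]
      constructor
      · rintro ⟨⟨rfl, hx, hy⟩, rfl, -, hz⟩
        refine ⟨rfl, rfl, ?_⟩
        apply Finset.eq_of_subset_of_card_le
        · intro t ht
          simp only [Finset.mem_insert, Finset.mem_singleton] at ht
          rcases ht with rfl | rfl | rfl
          · exact hx
          · exact hy
          · exact hz
        · rw [hT, Finset.card_eq_three.mpr ⟨x, y, z, hxy, hxz, hyz, rfl⟩]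
      · rintro ⟨rfl, rfl, he⟩
        rw [← he]
        simp
    have e : ∑ c : Fin n, ν c (nd x y a - nd x z b) = if a = b then
        (if ({x, y, z} : Finset ι) = T then (1 : ZMod ℓ) else 0) - (if ({x, y} : Finset ι) = T then 1 else 0)
          - (if ({x, z} : Finset ι) = T then 1 else 0) else 0 := by
      simp only [h1, hpair hxy, hpair hxz, sub_zero]
      by_cases hab : a = b
      · by_cases hxT : ({x, y, z} : Finset ι) = T
        · simp [hab, hxT]
        · simp [hxT]
      · simp [hab]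
    refine e.trans ?_
    congr <;> exact Subsingleton.elim _ _

lemma IsVal.add_h64 {A : Type*} [AddCommGroup A] {K : Subfield F} {ν ν' : F → A} (H : IsVal K ν)
    (H' : IsVal K ν') : IsVal K (fun x => ν x + ν' x) := by
  refine ⟨fun x hx y hy hx0 hy0 => ?_, ?_⟩
  · show ν (x * y) + ν' (x * y) = (ν x + ν' x) + (ν y + ν' y)
    rw [H.mul x hx y hy hx0 hy0, H'.mul x hx y hy hx0 hy0]
    abel
  · show ν (-1) + ν' (-1) = 0
    rw [H.neg_one, H'.neg_one, add_zero]

lemma IsVal.sub_h64 {A : Type*} [AddCommGroup A] {K : Subfield F} {ν ν' : F → A} (H : IsVal K ν)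
    (H' : IsVal K ν') : IsVal K (fun x => ν x - ν' x) := by
  refine ⟨fun x hx y hy hx0 hy0 => ?_, ?_⟩
  · show ν (x * y) - ν' (x * y) = (ν x - ν' x) + (ν y - ν' y)
    rw [H.mul x hx y hy hx0 hy0, H'.mul x hx y hy hx0 hy0]
    abel
  · show ν (-1) - ν' (-1) = 0
    rw [H.neg_one, H'.neg_one, sub_zero]

lemma IsVal.sum_h64 {A J : Type*} [AddCommGroup A] {K : Subfield F} {ν : J → F → A} (S : Finset J)
    (H : ∀ c ∈ S, IsVal K (ν c)) : IsVal K (fun x => ∑ c ∈ S, ν c x) := by
  refine ⟨fun x hx y hy hx0 hy0 => ?_, ?_⟩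
  · show ∑ c ∈ S, ν c (x * y) = ∑ c ∈ S, ν c x + ∑ c ∈ S, ν c y
    rw [← Finset.sum_add_distrib]
    exact Finset.sum_congr rfl fun c hc => (H c hc).mul x hx y hy hx0 hy0
  · exact Finset.sum_eq_zero fun c hc => (H c hc).neg_one

lemma DifV.add_h64 {A : Type*} [AddCommGroup A] {α : ι → ℚ[X]} {ν ν' : F → A}
    {h h' : F → F → A} {b b' : ι → ι → A} (H : DifV ν α h b) (H' : DifV ν' α h' b') :
    DifV (fun x => ν x + ν' x) α (fun s s' => h s s' + h' s s') (fun i j => b i j + b' i j) := by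
  refine ⟨fun s hs s' hs' hss => ?_, fun i j hij => ?_⟩
  · show ν (s - s') + ν' (s - s') = _
    rw [H.dif s hs s' hs' hss, H'.dif s hs s' hs' hss]
  · show ν _ + ν' _ = _
    rw [H.lead i j hij, H'.lead i j hij]

lemma DifV.sub_h64 {A : Type*} [AddCommGroup A] {α : ι → ℚ[X]} {ν ν' : F → A}
    {h h' : F → F → A} {b b' : ι → ι → A} (H : DifV ν α h b) (H' : DifV ν' α h' b') :
    DifV (fun x => ν x - ν' x) α (fun s s' => h s s' - h' s s') (fun i j => b i j - b' i j) := by
  refine ⟨fun s hs s' hs' hss => ?_, fun i j hij => ?_⟩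
  · show ν (s - s') - ν' (s - s') = _
    rw [H.dif s hs s' hs' hss, H'.dif s hs s' hs' hss]
  · show ν _ - ν' _ = _
    rw [H.lead i j hij, H'.lead i j hij]

lemma DifV.sum_h64 {A J : Type*} [AddCommGroup A] {α : ι → ℚ[X]} {ν : J → F → A}
    {h : J → F → F → A} {b : J → ι → ι → A} (S : Finset J) (H : ∀ c ∈ S, DifV (ν c) α (h c) (b c)) :
    DifV (fun x => ∑ c ∈ S, ν c x) α (fun s s' => ∑ c ∈ S, h c s s')
      (fun i j => ∑ c ∈ S, b c i j) := by
  refine ⟨fun s hs s' hs' hss => ?_, fun i j hij => ?_⟩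
  · exact Finset.sum_congr rfl fun c hc => (H c hc).dif s hs s' hs' hss
  · exact Finset.sum_congr rfl fun c hc => (H c hc).lead i j hij

omit [Field F] [Algebra ℚ F] in
lemma ite_cg_h64 {A : Type*} {p q : Prop} {ip : Decidable p} {iq : Decidable q} (h : p ↔ q)
    {x y x' y' : A} (hx : x = x') (hy : y = y') : @ite A p ip x y = @ite A q iq x' y' := by
  subst hx hy
  by_cases hp : p
  · rw [if_pos hp, if_pos (h.1 hp)]
  · rw [if_neg hp, if_neg (fun hq => hp (h.2 hq))]

/-- The sum of the values of `B - B'`. -/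
lemma sumB_h64 {A : Type*} [Ring A] (z a b : Fin n) {t1 t2 t1' t2' : Prop} (ht : ¬ (t1 ∧ t2))
    (ht' : ¬ (t1' ∧ t2')) (hab : t1 → t1' → a ≠ b) :
    ∑ c : Fin n, (((if ((t1 ∧ a = z) ∨ (t2 ∧ a = c)) ∧ ((t1' ∧ b = z) ∨ (t2' ∧ b = c)) then
        (1 : A) else 0)) - (if ((t1 ∨ t2) ∧ a = c) ∧ ((t1' ∨ t2') ∧ b = c) then 1 else 0)) =
      if t1 ∧ t2' then (if a = z then 1 else 0) - (if a = b then 1 else 0) else
        if t2 ∧ t1' then (if b = z then 1 else 0) - (if a = b then 1 else 0) else 0 := by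
  rw [Finset.sum_sub_distrib]
  by_cases h1 : t1
  · have h2 : ¬ t2 := fun h => ht ⟨h1, h⟩
    by_cases h1' : t1'
    · have h2' : ¬ t2' := fun h => ht' ⟨h1', h⟩
      have hne := hab h1 h1'
      have e1 : ∀ c : Fin n, ¬ (a = c ∧ b = c) := fun c h => hne (h.1.trans h.2.symm)
      simp [h1, h2, h1', h2', e1]
    · by_cases h2' : t2'
      · simp only [h1, h2, h1', h2', true_and, false_and, or_false, false_or, true_or, and_true,
          if_true]
        congr 1
        · rw [Finset.sum_eq_single b]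
          · simp
          · intro c _ hc
            rw [if_neg]
            exact fun h => hc h.2.symm
          · exact fun h => absurd (Finset.mem_univ b) h
        · rw [Finset.sum_eq_single b]
          · simp
          · intro c _ hc
            rw [if_neg]
            exact fun h => hc h.2.symm
          · exact fun h => absurd (Finset.mem_univ b) h
      · simp [h1, h2, h1', h2']
  · by_cases h2 : t2
    · by_cases h1' : t1'
      · have h2' : ¬ t2' := fun h => ht' ⟨h1', h⟩
        simp only [h1, h2, h1', h2', true_and, false_and, or_false, false_or, and_true,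
          if_true, if_false, and_false]
        congr 1
        · rw [Finset.sum_eq_single a]
          · simp
          · intro c _ hc
            rw [if_neg]
            exact fun h => hc h.1.symm
          · exact fun h => absurd (Finset.mem_univ a) h
        · rw [Finset.sum_eq_single a]
          · simp only [true_and]
            simp only [eq_comm]
          · intro c _ hc
            rw [if_neg]
            exact fun h => hc h.1.symm
          · exact fun h => absurd (Finset.mem_univ a) h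
      · by_cases h2' : t2'
        · simp [h1, h2, h1', h2']
        · simp [h1, h2, h1', h2']
    · simp [h1, h2]

/-- The sum of the values of `D`. -/
lemma sumD_h64 {A : Type*} [Ring A] (z a b : Fin n) {t t' : Prop} (hab : t → t' → a ≠ b) :
    ∑ c ∈ Finset.univ.erase z, (if (t ∧ (a = z ∨ a = c)) ∧ (t' ∧ (b = z ∨ b = c)) then
        (1 : A) else 0) = if t ∧ t' ∧ (a = z ∨ b = z) then 1 else 0 := by
  by_cases h1 : t
  · by_cases h2 : t'
    · have hne := hab h1 h2
      by_cases ha : a = z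
      · have hb : b ≠ z := fun h => hne (ha.trans h.symm)
        simp only [h1, h2, ha, hb, true_and, true_or, false_or, if_true]
        rw [Finset.sum_eq_single b]
        · simp
        · intro c _ hc
          rw [if_neg]
          exact fun h => hc h.symm
        · intro h
          exact absurd (Finset.mem_erase.2 ⟨hb, Finset.mem_univ b⟩) h
      · by_cases hb : b = z
        · simp only [h1, h2, ha, hb, true_and, true_or, false_or, and_true, if_true, or_true]
          rw [Finset.sum_eq_single a]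
          · simp
          · intro c _ hc
            rw [if_neg]
            exact fun h => hc h.symm
          · intro h
            exact absurd (Finset.mem_erase.2 ⟨ha, Finset.mem_univ a⟩) h
        · have e1 : ∀ c : Fin n, ¬ (a = c ∧ b = c) := fun c h => hne (h.1.trans h.2.symm)
          simp [h1, h2, ha, hb, e1]
    · simp [h2]
  · simp [h1]

/-- One pair. Proof: `T = {i, j}`, `0 : Fin n` (`n ≥ 1`). Let `K` be the homomorphism of `exists_val_K` for
`nd i j 0`, `D_a` (`a ≠ 0`) that of `exists_val_D` for `nd i j 0`, `nd i j a`, and for `l ≠ i, j` and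
`a : Fin n` let `B_la`, `B'_la` be those of `exists_val_B` for `nd i j 0`, `nd j l a`, `nd i l a`, resp.
`nd i j a`, `nd j l a`, `nd i l a`. Take `ν = K + ∑_{a ≠ 0} D_a + ∑_l ∑_a (B_la - B'_la)`. The values:
leading coefficient of `α_x - α_y`: `1` if `{x, y} = {i, j}`, otherwise `0`. Parallel pairs
`nd x y a - nd x y b`, `a ≠ b`: if `{x, y} = {i, j}`, `K` gives `-1` if `a = 0` or `b = 0`, the `D` give `1`
in the same cases; the others give `0`; otherwise all give `0`. `nd i j a - nd i l b` (`l ≠ i, j`, also with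
`i`, `j` exchanged): `K` gives `-1` if `a = 0`, `D` gives `0`, `∑_a' (B_la' - B'_la')` gives
`[a = 0] - [a = b]`; the sum is `- [a = b]` as required (`B {i, j, l} - B {i, j} - B {i, l} = 0 - 1 - 0`).
`nd l i a - nd l j b`: `[a = b] - [a = b] = 0` as required. The other adjacent pairs: `0`, as required. -/
theorem copyV_pair [IsAlgClosure ℚ F] {ℓ : ℕ} (hℓ : ℓ.Prime) {v : ι × Fin (n + 1) → ℤ}
    (h : GoodH v) (hn : 2 ≤ n) {nd : ι → ι → Fin n → F} (hN : Nodes (gpolQ v) nd)
    {T : Finset ι} (hT : T.card = 2) :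
    ∃ ν : F → ZMod ℓ, IsVal (IntermediateField.adjoin ℚ (nodes ℚ F (gpolQ v))).toSubfield ν ∧
      CopyV ν (gpolQ v) nd (fun T' => if T' = T then 1 else 0) := by
  obtain ⟨i, j, hij, hTij⟩ := Finset.card_eq_two.1 hT
  have hTm : ∀ t, t ∈ T ↔ t = i ∨ t = j := by
    intro t
    rw [hTij, Finset.mem_insert, Finset.mem_singleton]
  have z : Fin n := ⟨0, by omega⟩
  set K₀ := (IntermediateField.adjoin ℚ (nodes ℚ F (gpolQ v))).toSubfield with hK₀
  have hmem : ∀ x y, x ≠ y → ∀ a, aeval (nd x y a) (gpolQ v x) = aeval (nd x y a) (gpolQ v y) :=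
    fun x y hxy a => (hN.mem x y hxy _).2 ⟨a, rfl⟩
  have hnode : ∀ x y, x ≠ y → ∀ a, nd x y a ∈ nodes ℚ F (gpolQ v) :=
    fun x y hxy a => ⟨x, y, hxy, hmem x y hxy a⟩
  have hkey : ∀ {x y x' y' : ι} {a a' : Fin n}, x ≠ y → x' ≠ y' →
      (nd x y a = nd x' y' a' ↔ ({x, y} : Set ι) = {x', y'} ∧ a = a') := by
    intro x y x' y' a a' hxy hxy'
    constructor
    · exact fun he => Nodes.ne h hN hxy hxy' he
    · rintro ⟨h1, rfl⟩
      rcases Set.pair_eq_pair_iff.1 h1 with ⟨h2, h3⟩ | ⟨h2, h3⟩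
      · rw [h2, h3]
      · rw [h2, h3, hN.symm]
  -- the homomorphisms
  obtain ⟨νK, hK1, hK2⟩ := exists_val_K hℓ h hn hij (nd i j z) (hmem i j hij z)
  have hD := fun (a : Fin n) (ha : a ∈ Finset.univ.erase z) =>
    exists_val_D hℓ h hij (nd i j z) (nd i j a)
      (fun he => (Finset.mem_erase.1 ha).1 (hN.inj i j hij he).symm) (hmem i j hij z) (hmem i j hij a)
  choose! νD hD1 hD2 using hD
  set L : Finset ι := Finset.univ.filter (fun l => l ≠ i ∧ l ≠ j) with hL
  have hLm : ∀ l, l ∈ L ↔ l ≠ i ∧ l ≠ j := fun l => by simp [hL]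
  have hB := fun (l : ι) (hl : l ∈ L) (a : Fin n) =>
    exists_val_B hℓ h (by omega : 1 ≤ n) hij ((hLm l).1 hl).2.symm ((hLm l).1 hl).1.symm
      (nd i j z) (nd j l a) (nd i l a) (hmem i j hij z) (hmem j l ((hLm l).1 hl).2.symm a)
      (hmem i l ((hLm l).1 hl).1.symm a)
  choose! νB hB1 hB2 using hB
  have hB' := fun (l : ι) (hl : l ∈ L) (a : Fin n) =>
    exists_val_B hℓ h (by omega : 1 ≤ n) hij ((hLm l).1 hl).2.symm ((hLm l).1 hl).1.symm
      (nd i j a) (nd j l a) (nd i l a) (hmem i j hij a) (hmem j l ((hLm l).1 hl).2.symm a)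
      (hmem i l ((hLm l).1 hl).1.symm a)
  choose! νB' hB1' hB2' using hB'
  have hV := (hK1.add_h64 (IsVal.sum_h64 _ hD1)).add_h64
    (IsVal.sum_h64 L fun l hl => IsVal.sum_h64 (Finset.univ : Finset (Fin n))
      fun a _ => (hB1 l hl a).sub_h64 (hB1' l hl a))
  have hDV := (hK2.add_h64 (DifV.sum_h64 _ hD2)).add_h64
    (DifV.sum_h64 L fun l hl => DifV.sum_h64 (Finset.univ : Finset (Fin n))
      fun a _ => (hB2 l hl a).sub_h64 (hB2' l hl a))
  refine ⟨_, hV, ?_⟩
  -- the values at the nodes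
  have hval : ∀ x y x' y' a b, x ≠ y → x' ≠ y' → nd x y a ≠ nd x' y' b →
      ((if nd x y a = nd i j z ∨ nd x' y' b = nd i j z then (-1 : ZMod ℓ) else 0) +
        ∑ c ∈ Finset.univ.erase z, (if nd x y a ∈ ({nd i j z, nd i j c} : Set F) ∧
          nd x' y' b ∈ ({nd i j z, nd i j c} : Set F) then 1 else 0)) +
        ∑ l ∈ L, ∑ c : Fin n, ((if nd x y a ∈ ({nd i j z, nd j l c, nd i l c} : Set F) ∧
          nd x' y' b ∈ ({nd i j z, nd j l c, nd i l c} : Set F) then 1 else 0) -
          (if nd x y a ∈ ({nd i j c, nd j l c, nd i l c} : Set F) ∧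
          nd x' y' b ∈ ({nd i j c, nd j l c, nd i l c} : Set F) then 1 else 0)) =
      ((if ({x, y} : Set ι) = {i, j} ∧ a = z ∨ ({x', y'} : Set ι) = {i, j} ∧ b = z
          then (-1 : ZMod ℓ) else 0) +
        (if ({x, y} : Set ι) = {i, j} ∧ ({x', y'} : Set ι) = {i, j} ∧ (a = z ∨ b = z)
          then 1 else 0)) +
        ∑ l ∈ L, (if ({x, y} : Set ι) = {i, j} ∧
            (({x', y'} : Set ι) = {j, l} ∨ ({x', y'} : Set ι) = {i, l})
          then (if a = z then 1 else 0) - (if a = b then 1 else 0)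
          else if (({x, y} : Set ι) = {j, l} ∨ ({x, y} : Set ι) = {i, l}) ∧
              ({x', y'} : Set ι) = {i, j}
            then (if b = z then 1 else 0) - (if a = b then 1 else 0) else 0) := by
    intro x y x' y' a b hxy hxy' hne
    have hab : ({x, y} : Set ι) = {i, j} → ({x', y'} : Set ι) = {i, j} → a ≠ b := by
      intro h1 h2 h3
      exact hne ((hkey hxy hxy').2 ⟨h1.trans h2.symm, h3⟩)
    congr 1
    · congr 1
      · exact ite_cg_h64 (by rw [hkey hxy hij, hkey hxy' hij]) rfl rfl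
      · refine Eq.trans (Finset.sum_congr rfl fun c _ => ?_) ((sumD_h64 z a b hab).trans ?_)
        · refine ite_cg_h64 ?_ rfl rfl
          simp only [Set.mem_insert_iff, Set.mem_singleton_iff, hkey hxy hij, hkey hxy' hij,
            ← and_or_left]
        · exact ite_cg_h64 Iff.rfl rfl rfl
    · refine Finset.sum_congr rfl fun l hl => ?_
      obtain ⟨hli, hlj⟩ := (hLm l).1 hl
      have hex : ∀ x y : ι, ¬ (({x, y} : Set ι) = {i, j} ∧
          (({x, y} : Set ι) = {j, l} ∨ ({x, y} : Set ι) = {i, l})) := by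
        rintro x y ⟨h1, h2 | h2⟩
        · rw [h1] at h2
          have h3 : l ∈ ({i, j} : Set ι) := by rw [h2]; simp
          rcases h3 with h3 | h3
          · exact hli h3
          · exact hlj h3
        · rw [h1] at h2
          have h3 : l ∈ ({i, j} : Set ι) := by rw [h2]; simp
          rcases h3 with h3 | h3
          · exact hli h3
          · exact hlj h3
      refine Eq.trans (Finset.sum_congr rfl fun c _ => ?_)
        ((sumB_h64 (A := ZMod ℓ) z a b (hex x y) (hex x' y') hab).trans ?_)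
      · refine congrArg₂ (fun x y : ZMod ℓ => x - y) (ite_cg_h64 ?_ rfl rfl) (ite_cg_h64 ?_ rfl rfl)
        · simp only [Set.mem_insert_iff, Set.mem_singleton_iff, hkey hxy hij, hkey hxy' hij,
            hkey hxy hlj.symm, hkey hxy' hlj.symm, hkey hxy hli.symm, hkey hxy' hli.symm,
            ← or_and_right]
        · simp only [Set.mem_insert_iff, Set.mem_singleton_iff, hkey hxy hij, hkey hxy' hij,
            hkey hxy hlj.symm, hkey hxy' hlj.symm, hkey hxy hli.symm, hkey hxy' hli.symm,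
            ← or_and_right]
      · exact ite_cg_h64 Iff.rfl rfl (ite_cg_h64 Iff.rfl rfl rfl)
  have hsetfin : ∀ (inst : DecidableEq ι) (x y : ι),
      (@insert ι (Finset ι) (@Finset.instInsert ι inst) x {y} = T) ↔
        ({x, y} : Set ι) = {i, j} := by
    intro inst x y
    rw [Finset.ext_iff, Set.ext_iff]
    refine forall_congr' fun t => ?_
    rw [hTm, Finset.mem_insert, Finset.mem_singleton, Set.mem_insert_iff, Set.mem_singleton_iff,
      Set.mem_insert_iff, Set.mem_singleton_iff]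
  refine ⟨?_, ?_, ?_⟩
  · intro x y hxy
    rw [hDV.lead x y hxy]
    simp only [Finset.sum_const_zero, sub_self, add_zero]
    exact ite_cg_h64 (hsetfin _ x y).symm rfl rfl
  · intro x y hxy a b hab
    have hne : nd x y a ≠ nd x y b := fun he => hab (hN.inj x y hxy he)
    rw [hDV.dif _ (hnode x y hxy a) _ (hnode x y hxy b) hne]
    refine (hval x y x y a b hxy hxy hne).trans ?_
    have h0 : ∀ l ∈ L, (if ({x, y} : Set ι) = {i, j} ∧
            (({x, y} : Set ι) = {j, l} ∨ ({x, y} : Set ι) = {i, l})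
          then (if a = z then (1 : ZMod ℓ) else 0) - (if a = b then 1 else 0)
          else if (({x, y} : Set ι) = {j, l} ∨ ({x, y} : Set ι) = {i, l}) ∧
              ({x, y} : Set ι) = {i, j}
            then (if b = z then 1 else 0) - (if a = b then 1 else 0) else 0) = 0 := by
      intro l hl
      obtain ⟨hli, hlj⟩ := (hLm l).1 hl
      have hex : ¬ (({x, y} : Set ι) = {i, j} ∧
          (({x, y} : Set ι) = {j, l} ∨ ({x, y} : Set ι) = {i, l})) := by
        rintro ⟨h1, h2 | h2⟩
        · rw [h1] at h2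
          have h3 : l ∈ ({i, j} : Set ι) := by rw [h2]; simp
          rcases h3 with h3 | h3
          · exact hli h3
          · exact hlj h3
        · rw [h1] at h2
          have h3 : l ∈ ({i, j} : Set ι) := by rw [h2]; simp
          rcases h3 with h3 | h3
          · exact hli h3
          · exact hlj h3
      rw [if_neg hex, if_neg (fun hh => hex hh.symm)]
    rw [Finset.sum_eq_zero h0, add_zero]
    by_cases h1 : ({x, y} : Set ι) = {i, j}
    · by_cases h2 : a = z ∨ b = z
      · rw [if_pos (by tauto), if_pos (by tauto)]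
        simp
      · rw [if_neg (by tauto), if_neg (by tauto)]
        simp
    · rw [if_neg (by tauto), if_neg (by tauto)]
      simp
  · intro x y w hxy hyw hxw a b
    have hne1 : ({x, y} : Set ι) ≠ {x, w} := by
      intro he
      have h3 : w ∈ ({x, y} : Set ι) := by rw [he]; simp
      rcases h3 with h3 | h3
      · exact hxw h3.symm
      · exact hyw h3.symm
    have hne : nd x y a ≠ nd x w b := fun he => hne1 ((hkey hxy hxw).1 he).1
    rw [hDV.dif _ (hnode x y hxy a) _ (hnode x w hxw b) hne]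
    refine (hval x y x w a b hxy hxw hne).trans ?_
    have hc3 : ∀ inst : DecidableEq ι, ¬ (@insert ι (Finset ι) (@Finset.instInsert ι inst) x
        (@insert ι (Finset ι) (@Finset.instInsert ι inst) y {w}) = T) := by
      intro inst he
      have h1 := (hTm x).1 (by rw [← he]; simp)
      have h2 := (hTm y).1 (by rw [← he]; simp)
      have h3 := (hTm w).1 (by rw [← he]; simp)
      rcases h1 with h1 | h1 <;> rcases h2 with h2 | h2
      · exact hxy (h1.trans h2.symm)
      · rcases h3 with h3 | h3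
        · exact hxw (h1.trans h3.symm)
        · exact hyw (h2.trans h3.symm)
      · rcases h3 with h3 | h3
        · exact hyw (h2.trans h3.symm)
        · exact hxw (h1.trans h3.symm)
      · exact hxy (h1.trans h2.symm)
    refine Eq.trans (b := if a = b then ((0 : ZMod ℓ) - (if ({x, y} : Set ι) = {i, j} then 1 else 0)) -
      (if ({x, w} : Set ι) = {i, j} then 1 else 0) else 0) ?_ (ite_cg_h64 (Iff.rfl : a = b ↔ a = b)
      (congrArg₂ (fun x y : ZMod ℓ => x - y) (congrArg₂ (fun x y : ZMod ℓ => x - y)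
        (if_neg (hc3 _)).symm (ite_cg_h64 (hsetfin _ x y).symm rfl rfl))
        (ite_cg_h64 (hsetfin _ x w).symm rfl rfl)) rfl)
    have hDz : ¬ (({x, y} : Set ι) = {i, j} ∧ ({x, w} : Set ι) = {i, j} ∧ (a = z ∨ b = z)) :=
      fun hh => hne1 (hh.1.trans hh.2.1.symm)
    rw [if_neg hDz, add_zero]
    by_cases h1 : ({x, y} : Set ι) = {i, j}
    · have h2 : ({x, w} : Set ι) ≠ {i, j} := fun hh => hne1 (h1.trans hh.symm)
      have hwL : w ∈ L := by
        rw [hLm]
        constructor
        · rintro rfl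
          have h3 : w ∈ ({x, y} : Set ι) := by rw [h1]; simp
          rcases h3 with h3 | h3
          · exact hxw h3.symm
          · exact hyw h3.symm
        · rintro rfl
          have h3 : w ∈ ({x, y} : Set ι) := by rw [h1]; simp
          rcases h3 with h3 | h3
          · exact hxw h3.symm
          · exact hyw h3.symm
      have hx : x = i ∨ x = j := by
        have h3 : x ∈ ({i, j} : Set ι) := by rw [← h1]; simp
        exact h3
      rw [Finset.sum_eq_single w]
      · have h3 : ({x, w} : Set ι) = {j, w} ∨ ({x, w} : Set ι) = {i, w} := by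
          rcases hx with rfl | rfl
          · right; rfl
          · left; rfl
        have p1 := eq_true h1
        have p2 := eq_false h2
        have p3 := eq_true h3
        simp only [p1, p2, p3, true_and, false_and, or_false, if_true, if_false]
        by_cases h4 : a = z
        · by_cases h5 : a = b
          · simp only [eq_true h4, eq_true h5, if_true]; ring
          · simp only [eq_true h4, eq_false h5, if_true, if_false]; ring
        · by_cases h5 : a = b
          · simp only [eq_false h4, eq_true h5, if_true, if_false]; ring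
          · simp only [eq_false h4, eq_false h5, if_false]; ring
      · intro l hl hlw
        obtain ⟨hli, hlj⟩ := (hLm l).1 hl
        have h3 : ¬ (({x, w} : Set ι) = {j, l} ∨ ({x, w} : Set ι) = {i, l}) := by
          have key : ∀ t : ι, ({x, w} : Set ι) ≠ {t, l} := by
            intro t ht
            have h4 : l ∈ ({x, w} : Set ι) := by rw [ht]; simp
            rcases h4 with h4 | h4
            · rcases hx with h5 | h5
              · exact hli (h4.trans h5)
              · exact hlj (h4.trans h5)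
            · exact hlw h4
          rintro (h4 | h4)
          · exact key j h4
          · exact key i h4
        rw [if_neg (fun hh => h3 hh.2), if_neg (fun hh => h2 hh.2)]
      · exact fun hh => absurd hwL hh
    · by_cases h2 : ({x, w} : Set ι) = {i, j}
      · have hyL : y ∈ L := by
          rw [hLm]
          constructor
          · rintro rfl
            have h3 : y ∈ ({x, w} : Set ι) := by rw [h2]; simp
            rcases h3 with h3 | h3
            · exact hxy h3.symm
            · exact hyw h3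
          · rintro rfl
            have h3 : y ∈ ({x, w} : Set ι) := by rw [h2]; simp
            rcases h3 with h3 | h3
            · exact hxy h3.symm
            · exact hyw h3
        have hx : x = i ∨ x = j := by
          have h3 : x ∈ ({i, j} : Set ι) := by rw [← h2]; simp
          exact h3
        rw [Finset.sum_eq_single y]
        · have h3 : ({x, y} : Set ι) = {j, y} ∨ ({x, y} : Set ι) = {i, y} := by
            rcases hx with rfl | rfl
            · right; rfl
            · left; rfl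
          have p1 := eq_false h1
          have p2 := eq_true h2
          have p3 := eq_true h3
          simp only [p1, p2, p3, true_and, false_and, false_or, if_true, if_false]
          by_cases h4 : b = z
          · by_cases h5 : a = b
            · simp only [eq_true h4, eq_true h5, if_true]; ring
            · simp only [eq_true h4, eq_false h5, if_true, if_false]; ring
          · by_cases h5 : a = b
            · simp only [eq_false h4, eq_true h5, if_true, if_false]; ring
            · simp only [eq_false h4, eq_false h5, if_false]; ring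
        · intro l hl hly
          obtain ⟨hli, hlj⟩ := (hLm l).1 hl
          have h3 : ¬ (({x, y} : Set ι) = {j, l} ∨ ({x, y} : Set ι) = {i, l}) := by
            have key : ∀ t : ι, ({x, y} : Set ι) ≠ {t, l} := by
              intro t ht
              have h4 : l ∈ ({x, y} : Set ι) := by rw [ht]; simp
              rcases h4 with h4 | h4
              · rcases hx with h5 | h5
                · exact hli (h4.trans h5)
                · exact hlj (h4.trans h5)
              · exact hly h4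
            rintro (h4 | h4)
            · exact key j h4
            · exact key i h4
          rw [if_neg (fun hh => h1 hh.1), if_neg (fun hh => h3 hh.1)]
        · exact fun hh => absurd hyL hh
      · have h0 : ∀ l ∈ L, (if ({x, y} : Set ι) = {i, j} ∧
              (({x, w} : Set ι) = {j, l} ∨ ({x, w} : Set ι) = {i, l})
            then (if a = z then (1 : ZMod ℓ) else 0) - (if a = b then 1 else 0)
            else if (({x, y} : Set ι) = {j, l} ∨ ({x, y} : Set ι) = {i, l}) ∧
                ({x, w} : Set ι) = {i, j}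
              then (if b = z then 1 else 0) - (if a = b then 1 else 0) else 0) = 0 := by
          intro l _
          rw [if_neg (fun hh => h1 hh.1), if_neg (fun hh => h2 hh.2)]
        rw [Finset.sum_eq_zero h0, add_zero]
        simp [h1, h2]

end Pool.Agent.Lib.MP_89bcae_ag

end

section

/-!
# Homomorphisms with arbitrary symbols
-/

open Polynomial

open scoped Classical

namespace Pool.Agent.Lib.MP_89bcae_ag

open Superelliptic

variable {ι : Type} [Fintype ι] [LinearOrder ι] {n : ℕ} {F : Type} [Field F] [Algebra ℚ F]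

theorem card_pair_h57 {κ : Type} (inst : DecidableEq κ) {a b : κ} (h : a ≠ b) :
    (@insert κ (Finset κ) (@Finset.instInsert κ inst) a {b}).card = 2 := Finset.card_pair h

theorem card_triple_h57 {κ : Type} (inst : DecidableEq κ) {a b c : κ} (hab : a ≠ b) (hac : a ≠ c)
    (hbc : b ≠ c) : (@insert κ (Finset κ) (@Finset.instInsert κ inst) a
      (@insert κ (Finset κ) (@Finset.instInsert κ inst) b {c})).card = 3 :=
  Finset.card_eq_three.2 ⟨a, b, c, hab, hac, hbc, rfl⟩

/-- Linear combinations of homomorphisms which are `IsVal`. -/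
theorem isVal_sum_h57 {ℓ : ℕ} {K : Subfield F} {κ : Type} (s : Finset κ) (c : κ → ZMod ℓ)
    (ν : κ → F → ZMod ℓ) (h : ∀ T, IsVal K (ν T)) : IsVal K (fun x => ∑ T ∈ s, c T * ν T x) where
  mul x hx y hy hx0 hy0 := by
    rw [← Finset.sum_add_distrib]
    refine Finset.sum_congr rfl (fun T _ => ?_)
    rw [(h T).mul x hx y hy hx0 hy0, mul_add]
  neg_one := Finset.sum_eq_zero (fun T _ => by rw [(h T).neg_one, mul_zero])

/-- Linear combinations of homomorphisms which are `CopyV`. -/
theorem copyV_sum_h57 {ℓ : ℕ} {α : ι → ℚ[X]} {nd : ι → ι → Fin n → F} {κ : Type} (s : Finset κ)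
    (c : κ → ZMod ℓ) (ν : κ → F → ZMod ℓ) (C : κ → Finset ι → ZMod ℓ) (h : ∀ T, CopyV (ν T) α nd (C T)) :
    CopyV (fun x => ∑ T ∈ s, c T * ν T x) α nd (fun T' => ∑ T ∈ s, c T * C T T') where
  lead i j hij := Finset.sum_congr rfl (fun T _ => by rw [(h T).lead i j hij])
  par i j hij a b hab := Finset.sum_eq_zero (fun T _ => by rw [(h T).par i j hij a b hab, mul_zero])
  adj i j l hij hjl hil a b := by
    rw [← Finset.sum_sub_distrib, ← Finset.sum_sub_distrib]
    by_cases hab : a = b
    · rw [if_pos hab]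
      refine Finset.sum_congr rfl (fun T _ => ?_)
      rw [(h T).adj i j l hij hjl hil a b, if_pos hab]
      ring
    · rw [if_neg hab]
      refine Finset.sum_eq_zero (fun T _ => ?_)
      rw [(h T).adj i j l hij hjl hil a b, if_neg hab, mul_zero]

/-- All symbols. Proof: for `T` with `T.card = 3` or `T.card = 2` let `ν_T` be that of `copyV_triple`,
`copyV_pair`, and `ν_T = 0` otherwise; take `ν = ∑ T : Finset ι, B T • ν_T` (or `B T * ν_T x`). All the
conditions of `CopyV` and `IsVal` are linear; `∑ T, B T * (if {i, j} = T then 1 else 0) = B {i, j}` (the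
`T` with `T.card ≠ 2, 3` do not contribute at pairs and triples). -/
theorem copyV_all [IsAlgClosure ℚ F] {ℓ : ℕ} (hℓ : ℓ.Prime) {v : ι × Fin (n + 1) → ℤ}
    (h : GoodH v) (hn : 2 ≤ n) {nd : ι → ι → Fin n → F} (hN : Nodes (gpolQ v) nd)
    (B : Finset ι → ZMod ℓ) :
    ∃ ν : F → ZMod ℓ, IsVal (IntermediateField.adjoin ℚ (nodes ℚ F (gpolQ v))).toSubfield ν ∧
      CopyV ν (gpolQ v) nd B := by
  have key : ∀ T : Finset ι, ∃ ν : F → ZMod ℓ,
      IsVal (IntermediateField.adjoin ℚ (nodes ℚ F (gpolQ v))).toSubfield ν ∧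
      CopyV ν (gpolQ v) nd (fun T' => if T' = T then 1 else 0) := by
    intro T
    by_cases h3 : T.card = 3
    · exact copyV_triple hℓ h (by omega) hN h3
    by_cases h2 : T.card = 2
    · exact copyV_pair hℓ h hn hN h2
    refine ⟨fun _ => 0, ⟨fun _ _ _ _ _ _ => (add_zero 0).symm, rfl⟩, ⟨?_, ?_, ?_⟩⟩
    · intro i j hij
      refine (if_neg ?_).symm
      intro he
      exact h2 (by rw [← he]; exact card_pair_h57 _ hij)
    · intro i j hij a b hab
      rfl
    · intro i j l hij hjl hil a b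
      by_cases hab : a = b
      · rw [if_pos hab, if_neg, if_neg, if_neg]
        · ring
        · intro he
          exact h2 (by rw [← he]; exact card_pair_h57 _ hil)
        · intro he
          exact h2 (by rw [← he]; exact card_pair_h57 _ hij)
        · intro he
          exact h3 (by rw [← he]; exact card_triple_h57 _ hij hil hjl)
      · rw [if_neg hab]
  choose ν hν1 hν2 using key
  refine ⟨fun x => ∑ T : Finset ι, B T * ν T x, isVal_sum_h57 Finset.univ B ν hν1, ?_⟩
  have h5 := copyV_sum_h57 Finset.univ B ν (fun T T' => if T' = T then 1 else 0) hν2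
  have h6 : (fun T' : Finset ι => ∑ T : Finset ι, B T * (if T' = T then (1 : ZMod ℓ) else 0)) = B := by
    funext T'
    simp only [mul_ite, mul_one, mul_zero]
    rw [Finset.sum_ite_eq]
    simp
  rw [h6] at h5
  exact h5

theorem exists_numbering_h43 [IsAlgClosure ℚ F] {v : ι × Fin (n + 1) → ℤ} (h : GoodH v) {i j : ι}
    (hij : i ≠ j) : ∃ g : Fin n → F, Function.Injective g ∧
      ∀ s : F, aeval s (gpolQ v i) = aeval s (gpolQ v j) ↔ ∃ a, g a = s := by
  obtain ⟨p, hp, hI⟩ := h.good.typeI i j hij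
  obtain ⟨R, hR1, hR2⟩ := exists_roots (F := F) (separable_of_typeI v hp hI)
  have hd : (gpolQ v i - gpolQ v j).natDegree = n := h.good.natDegree hij
  have hmap : (gdif v i j).map (algebraMap ℤ F) =
      (gpolQ v i - gpolQ v j).map (algebraMap ℚ F) := by
    rw [← gdif_map_rat, Polynomial.map_map, ← algebraMap_int_eq, ← IsScalarTower.algebraMap_eq]
  have hd2 : ((gdif v i j).map (algebraMap ℤ F)).natDegree = n := by
    rw [hmap, natDegree_map, hd]
  have hne : (gpolQ v i - gpolQ v j).map (algebraMap ℚ F) ≠ 0 := by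
    rw [Polynomial.map_ne_zero_iff (algebraMap ℚ F).injective]
    exact (separable_of_typeI v hp hI).ne_zero
  have hc0 : algebraMap ℤ F (gdif v i j).leadingCoeff ≠ 0 := by
    intro hc
    rw [hc, C_0, zero_mul] at hR2
    exact hne (hmap.symm.trans hR2)
  have hcard : R.card = n := by
    rw [hR2, natDegree_C_mul hc0, natDegree_prod_of_monic _ _ (fun s _ => monic_X_sub_C s)] at hd2
    simpa using hd2
  let e := (Finset.equivFinOfCardEq hcard).symm
  refine ⟨fun a => (e a : F), Subtype.val_injective.comp e.injective, fun s => ?_⟩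
  rw [← hR1 s]
  constructor
  · intro hs
    exact ⟨e.symm ⟨s, hs⟩, by simp⟩
  · rintro ⟨a, rfl⟩
    exact (e a).2

/-- A numbering of the nodes. Proof: for `i < j` the polynomial `α_i - α_j` has degree `n`
(`GoodG.natDegree`) and is separable, so it has exactly `n` roots in `F` (`exists_roots`); take a bijection
`Fin n ≃ roots` (`Finset.equivFinOfCardEq`, or `Finset.orderIsoOfFin` is not available) for `i < j` and
`nd j i = nd i j`; `nd i i` is arbitrary. -/
theorem exists_nodes [IsAlgClosure ℚ F] {v : ι × Fin (n + 1) → ℤ} (h : GoodH v) :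
    ∃ nd : ι → ι → Fin n → F, Nodes (gpolQ v) nd := by
  have key : ∀ i j : ι, i < j → ∃ g : Fin n → F, Function.Injective g ∧
      ∀ s : F, aeval s (gpolQ v i) = aeval s (gpolQ v j) ↔ ∃ a, g a = s :=
    fun i j hij => exists_numbering_h43 h hij.ne
  choose! g hg using key
  refine ⟨fun i j => if i < j then g i j else g j i, ?_, ?_, ?_, ?_⟩
  · intro i j a
    rcases lt_trichotomy i j with hij | hij | hij
    · simp only [if_pos hij, if_neg hij.le.not_gt]
    · rw [hij]
    · simp only [if_pos hij, if_neg hij.le.not_gt]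
  · intro i j hij
    rcases lt_or_gt_of_ne hij with h1 | h1
    · simp only [if_pos h1]
      exact (hg i j h1).1
    · simp only [if_neg h1.le.not_gt]
      exact (hg j i h1).1
  · intro i j hij s
    rcases lt_or_gt_of_ne hij with h1 | h1
    · simp only [if_pos h1]
      exact (hg i j h1).2 s
    · simp only [if_neg h1.le.not_gt]
      rw [eq_comm]
      exact (hg j i h1).2 s
  · intro i j hij
    exact h.good.natDegree hij

end Pool.Agent.Lib.MP_89bcae_ag

end

section

/-!
# Homomorphisms with arbitrary symbols and couplings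
-/

open Polynomial

open scoped Classical

namespace Pool.Agent.Lib.MP_89bcae_ag

open Superelliptic

variable {ι : Type} [Fintype ι] [LinearOrder ι] {n : ℕ} {F : Type} [Field F] [Algebra ℚ F]

omit [Fintype ι] [LinearOrder ι] in
/-- Linear combinations of homomorphisms with copies and couplings. -/
theorem copyW_sum_h7 {ℓ : ℕ} {α : ι → ℚ[X]} {nd : ι → ι → Fin n → F} {κ : Type} (s : Finset κ)
    (k : κ → ZMod ℓ) (ν : κ → F → ZMod ℓ) (β : κ → Finset ι → ZMod ℓ)
    (c : κ → Fin n → Finset ι → ZMod ℓ) (δ : κ → Finset ι → Fin n → Fin n → ZMod ℓ)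
    (h : ∀ t, CopyW (ν t) α nd (β t) (c t) (δ t)) :
    CopyW (fun x => ∑ t ∈ s, k t * ν t x) α nd (fun T => ∑ t ∈ s, k t * β t T)
      (fun a T => ∑ t ∈ s, k t * c t a T) (fun T a b => ∑ t ∈ s, k t * δ t T a b) where
  lead i j hij := Finset.sum_congr rfl (fun t _ => by rw [(h t).lead i j hij])
  par i j hij a b hab := Finset.sum_congr rfl (fun t _ => by rw [(h t).par i j hij a b hab])
  adj i j l hij hjl hil a b := by
    rw [← Finset.sum_sub_distrib, ← Finset.sum_sub_distrib]
    by_cases hab : a = b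
    · rw [if_pos hab]
      refine Finset.sum_congr rfl (fun t _ => ?_)
      rw [(h t).adj i j l hij hjl hil a b, if_pos hab]
      ring
    · rw [if_neg hab]
      refine Finset.sum_eq_zero (fun t _ => ?_)
      rw [(h t).adj i j l hij hjl hil a b, if_neg hab, mul_zero]

omit [Fintype ι] [LinearOrder ι] in
theorem copyW_add_h7 {ℓ : ℕ} {α : ι → ℚ[X]} {nd : ι → ι → Fin n → F} {ν ν' : F → ZMod ℓ}
    {β β' : Finset ι → ZMod ℓ} {c c' : Fin n → Finset ι → ZMod ℓ}
    {δ δ' : Finset ι → Fin n → Fin n → ZMod ℓ} (h : CopyW ν α nd β c δ)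
    (h' : CopyW ν' α nd β' c' δ') :
    CopyW (fun x => ν x + ν' x) α nd (fun T => β T + β' T) (fun a T => c a T + c' a T)
      (fun T a b => δ T a b + δ' T a b) where
  lead i j hij := by
    show ν _ + ν' _ = _
    rw [h.lead i j hij, h'.lead i j hij]
  par i j hij a b hab := by
    show ν _ + ν' _ = _
    rw [h.par i j hij a b hab, h'.par i j hij a b hab]
  adj i j l hij hjl hil a b := by
    show ν _ + ν' _ = _
    rw [h.adj i j l hij hjl hil a b, h'.adj i j l hij hjl hil a b]
    by_cases hab : a = b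
    · rw [if_pos hab, if_pos hab, if_pos hab]
      ring
    · rw [if_neg hab, if_neg hab, if_neg hab, add_zero]

omit [Fintype ι] [LinearOrder ι] in
/-- Only the values at pairs and triples matter. -/
theorem copyW_congr_h7 {ℓ : ℕ} {α : ι → ℚ[X]} {nd : ι → ι → Fin n → F} {ν : F → ZMod ℓ}
    {β β' : Finset ι → ZMod ℓ} {c c' : Fin n → Finset ι → ZMod ℓ}
    {δ δ' : Finset ι → Fin n → Fin n → ZMod ℓ} (h : CopyW ν α nd β c δ)
    (hβ : ∀ T : Finset ι, T.card = 2 → β T = β' T)
    (hc : ∀ a (T : Finset ι), T.card = 3 → c a T = c' a T)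
    (hδ : ∀ (T : Finset ι), T.card = 2 → ∀ a b, a ≠ b → δ T a b = δ' T a b) :
    CopyW ν α nd β' c' δ' where
  lead i j hij := by rw [h.lead i j hij, hβ _ (card_pr hij)]
  par i j hij a b hab := by rw [h.par i j hij a b hab, hδ _ (card_pr hij) a b hab]
  adj i j l hij hjl hil a b := by
    rw [h.adj i j l hij hjl hil a b, hβ _ (card_pr hij), hβ _ (card_pr hil),
      hc _ _ (card_tr hij hil hjl)]

/-- One triangle in one copy. -/
theorem copyW_triple_h7 [IsAlgClosure ℚ F] {ℓ : ℕ} (hℓ : ℓ.Prime) {v : ι × Fin (n + 1) → ℤ}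
    (h : GoodH v) (hn : 1 ≤ n) {nd : ι → ι → Fin n → F} (hN : Nodes (gpolQ v) nd)
    (a₀ : Fin n) (T : Finset ι) :
    ∃ ν : F → ZMod ℓ, IsVal (IntermediateField.adjoin ℚ (nodes ℚ F (gpolQ v))).toSubfield ν ∧
      CopyW ν (gpolQ v) nd (fun _ => 0)
        (fun a T' => if a = a₀ ∧ T' = T ∧ T.card = 3 then 1 else 0) (fun _ _ _ => 0) := by
  by_cases hT : T.card = 3
  swap
  · refine ⟨fun _ => 0, ⟨fun _ _ _ _ _ _ => (add_zero 0).symm, rfl⟩, ⟨?_, ?_, ?_⟩⟩
    · intro i j hij
      rfl
    · intro i j hij a b hab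
      rfl
    · intro i j l hij hjl hil a b
      by_cases hab : a = b
      · rw [if_pos hab, if_neg (fun hh => hT hh.2.2)]
        ring
      · rw [if_neg hab]
  obtain ⟨i, j, l, hij, hil, hjl, hTe⟩ := Finset.card_eq_three.mp hT
  have hm : ∀ {x y : ι} (_ : x ≠ y) (a : Fin n),
      aeval (nd x y a) (gpolQ v x) = aeval (nd x y a) (gpolQ v y) :=
    fun {x y} hxy a => (hN.mem x y hxy _).2 ⟨a, rfl⟩
  obtain ⟨ν, hν, hD⟩ := exists_val_B hℓ h hn hij hjl hil (nd i j a₀) (nd j l a₀) (nd i l a₀)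
    (hm hij a₀) (hm hjl a₀) (hm hil a₀)
  refine ⟨ν, hν, ?_, ?_, ?_⟩
  · intro x y hxy
    exact hD.lead x y hxy
  · intro x y hxy a b hab
    rw [hD.dif _ (hN.mem_nodes_h30 hxy a) _ (hN.mem_nodes_h30 hxy b) fun he => hab (hN.inj x y hxy he),
      if_neg]
    rintro ⟨h1, h2⟩
    rw [triple_mem_iff_h30 h hN hij hil hjl hxy] at h1 h2
    exact hab (h1.1.trans h2.1.symm)
  · intro x y z hxy hyz hxz a b
    have hne : nd x y a ≠ nd x z b := by
      intro he
      rcases Set.pair_eq_pair_iff.mp (Nodes.ne h hN hxy hxz he).1 with ⟨-, h2⟩ | ⟨h1, -⟩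
      · exact hyz h2
      · exact hxz h1
    have hxyz : ∀ (inst : DecidableEq ι), (x ∈ (@insert ι (Finset ι) (@Finset.instInsert ι inst) i
        (@insert ι (Finset ι) (@Finset.instInsert ι inst) j {l})) ∧
        y ∈ (@insert ι (Finset ι) (@Finset.instInsert ι inst) i
        (@insert ι (Finset ι) (@Finset.instInsert ι inst) j {l})) ∧
        z ∈ (@insert ι (Finset ι) (@Finset.instInsert ι inst) i
        (@insert ι (Finset ι) (@Finset.instInsert ι inst) j {l}))) ↔ tr x y z = T := by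
      intro inst
      have e : (@insert ι (Finset ι) (@Finset.instInsert ι inst) i
        (@insert ι (Finset ι) (@Finset.instInsert ι inst) j {l})) = T := by
        rw [hTe]
        ext t
        simp
      rw [e]
      constructor
      · rintro ⟨hx, hy, hz⟩
        apply Finset.eq_of_subset_of_card_le
        · intro t ht
          rcases mem_tr.1 ht with rfl | rfl | rfl
          · exact hx
          · exact hy
          · exact hz
        · rw [hT, card_tr hxy hxz hyz]
      · intro he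
        rw [← he]
        exact ⟨mem_tr.2 (Or.inl rfl), mem_tr.2 (Or.inr (Or.inl rfl)), mem_tr.2 (Or.inr (Or.inr rfl))⟩
    rw [hD.dif _ (hN.mem_nodes_h30 hxy a) _ (hN.mem_nodes_h30 hxz b) hne]
    have hiff : (nd x y a ∈ ({nd i j a₀, nd j l a₀, nd i l a₀} : Set F) ∧
        nd x z b ∈ ({nd i j a₀, nd j l a₀, nd i l a₀} : Set F)) ↔
        (a = b ∧ a = a₀ ∧ tr x y z = T ∧ T.card = 3) := by
      rw [triple_mem_iff_h30 h hN hij hil hjl hxy, triple_mem_iff_h30 h hN hij hil hjl hxz,
        ← hxyz _]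
      constructor
      · rintro ⟨⟨h1, hx, hy⟩, h2, -, hz⟩
        exact ⟨h1.trans h2.symm, h1, ⟨hx, hy, hz⟩, hT⟩
      · rintro ⟨h1, h2, ⟨hx, hy, hz⟩, -⟩
        exact ⟨⟨h2, hx, hy⟩, h1.symm.trans h2, hx, hz⟩
    by_cases hab : a = b
    · rw [if_pos hab, sub_zero, sub_zero]
      exact if_congr (hiff.trans ⟨fun hh => hh.2, fun hh => ⟨hab, hh⟩⟩) rfl rfl
    · rw [if_neg hab, if_neg (fun hh => hab (hiff.1 hh).1)]

/-- One coupling of one pair. -/
theorem copyW_pair_h7 [IsAlgClosure ℚ F] {ℓ : ℕ} (hℓ : ℓ.Prime) {v : ι × Fin (n + 1) → ℤ}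
    (h : GoodH v) {nd : ι → ι → Fin n → F} (hN : Nodes (gpolQ v) nd)
    (T : Finset ι) (a₀ b₀ : Fin n) :
    ∃ ν : F → ZMod ℓ, IsVal (IntermediateField.adjoin ℚ (nodes ℚ F (gpolQ v))).toSubfield ν ∧
      CopyW ν (gpolQ v) nd (fun _ => 0) (fun _ _ => 0)
        (fun T' a b => if T' = T ∧ T.card = 2 ∧ a₀ < b₀ ∧
          ((a = a₀ ∧ b = b₀) ∨ (a = b₀ ∧ b = a₀)) then 1 else 0) := by
  by_cases hT : T.card = 2 ∧ a₀ < b₀
  swap
  · refine ⟨fun _ => 0, ⟨fun _ _ _ _ _ _ => (add_zero 0).symm, rfl⟩, ⟨?_, ?_, ?_⟩⟩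
    · intro i j hij
      rfl
    · intro i j hij a b hab
      exact (if_neg (fun hh => hT ⟨hh.2.1, hh.2.2.1⟩)).symm
    · intro i j l hij hjl hil a b
      by_cases hab : a = b
      · rw [if_pos hab]
        ring
      · rw [if_neg hab]
  obtain ⟨hT, hab₀⟩ := hT
  obtain ⟨i, j, hij, hTe⟩ := Finset.card_eq_two.1 hT
  have hm : ∀ a : Fin n, aeval (nd i j a) (gpolQ v i) = aeval (nd i j a) (gpolQ v j) :=
    fun a => (hN.mem i j hij _).2 ⟨a, rfl⟩
  obtain ⟨ν, hν, hD⟩ := exists_val_D hℓ h hij (nd i j a₀) (nd i j b₀)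
    (fun he => hab₀.ne (hN.inj i j hij he)) (hm a₀) (hm b₀)
  have hpT : ∀ x y : ι, x ≠ y → (({x, y} : Set ι) = {i, j} ↔ pr x y = T) := by
    intro x y hxy
    have e : pr i j = T := by
      rw [hTe]
      ext t
      rw [mem_pr]
      simp
    rw [← e, pr_eq_pr, Set.pair_eq_pair_iff]
  have hkey : ∀ {x y : ι} {a : Fin n}, x ≠ y →
      (nd x y a ∈ ({nd i j a₀, nd i j b₀} : Set F) ↔ pr x y = T ∧ (a = a₀ ∨ a = b₀)) := by
    intro x y a hxy
    have h1 : ∀ c : Fin n, nd x y a = nd i j c ↔ pr x y = T ∧ a = c := by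
      intro c
      rw [← hpT x y hxy]
      constructor
      · exact fun he => Nodes.ne h hN hxy hij he
      · rintro ⟨h1, rfl⟩
        rcases Set.pair_eq_pair_iff.1 h1 with ⟨h2, h3⟩ | ⟨h2, h3⟩
        · rw [h2, h3]
        · rw [h2, h3, hN.symm]
    rw [Set.mem_insert_iff, Set.mem_singleton_iff, h1, h1]
    constructor
    · rintro (⟨hh, h2⟩ | ⟨hh, h2⟩)
      · exact ⟨hh, Or.inl h2⟩
      · exact ⟨hh, Or.inr h2⟩
    · rintro ⟨hh, h2 | h2⟩
      · exact Or.inl ⟨hh, h2⟩
      · exact Or.inr ⟨hh, h2⟩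
  refine ⟨ν, hν, ?_, ?_, ?_⟩
  · intro x y hxy
    exact hD.lead x y hxy
  · intro x y hxy a b hab
    rw [hD.dif _ (hN.mem_nodes_h30 hxy a) _ (hN.mem_nodes_h30 hxy b) fun he => hab (hN.inj x y hxy he)]
    refine if_congr ?_ rfl rfl
    rw [hkey hxy, hkey hxy]
    constructor
    · rintro ⟨⟨h1, h2⟩, -, h3⟩
      refine ⟨h1, hT, hab₀, ?_⟩
      rcases h2 with h2 | h2 <;> rcases h3 with h3 | h3
      · exact absurd (h2.trans h3.symm) hab
      · exact Or.inl ⟨h2, h3⟩
      · exact Or.inr ⟨h2, h3⟩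
      · exact absurd (h2.trans h3.symm) hab
    · rintro ⟨h1, -, -, ⟨h2, h3⟩ | ⟨h2, h3⟩⟩
      · exact ⟨⟨h1, Or.inl h2⟩, h1, Or.inr h3⟩
      · exact ⟨⟨h1, Or.inr h2⟩, h1, Or.inl h3⟩
  · intro x y z hxy hyz hxz a b
    have hne : nd x y a ≠ nd x z b := by
      intro he
      rcases Set.pair_eq_pair_iff.mp (Nodes.ne h hN hxy hxz he).1 with ⟨-, h2⟩ | ⟨h1, -⟩
      · exact hyz h2
      · exact hxz h1
    rw [hD.dif _ (hN.mem_nodes_h30 hxy a) _ (hN.mem_nodes_h30 hxz b) hne, if_neg]
    · by_cases hab : a = b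
      · rw [if_pos hab]
        ring
      · rw [if_neg hab]
    · rw [hkey hxy, hkey hxz]
      rintro ⟨⟨h1, -⟩, h2, -⟩
      have h3 : pr x y = pr x z := h1.trans h2.symm
      rcases pr_eq_pr.1 h3 with ⟨-, h4⟩ | ⟨h4, -⟩
      · exact hyz h4
      · exact hxz h4

/-- The symbols of the pairs. -/
theorem copyW_lead_h7 [IsAlgClosure ℚ F] {ℓ : ℕ} (hℓ : ℓ.Prime) {v : ι × Fin (n + 1) → ℤ}
    (h : GoodH v) (hn : 2 ≤ n) {nd : ι → ι → Fin n → F} (hN : Nodes (gpolQ v) nd)
    (β : Finset ι → ZMod ℓ) :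
    ∃ ν : F → ZMod ℓ, IsVal (IntermediateField.adjoin ℚ (nodes ℚ F (gpolQ v))).toSubfield ν ∧
      CopyW ν (gpolQ v) nd β (fun _ _ => 0) (fun _ _ _ => 0) := by
  obtain ⟨ν, hν, hV⟩ := copyV_all hℓ h hn hN (fun T => if T.card = 2 then β T else 0)
  have h2 : ∀ (inst : DecidableEq ι) {x y : ι}, x ≠ y →
      (if (@insert ι (Finset ι) (@Finset.instInsert ι inst) x {y}).card = 2 then
        β (@insert ι (Finset ι) (@Finset.instInsert ι inst) x {y}) else 0) = β (pr x y) := by
    intro inst x y hxy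
    rw [if_pos (card_pair_h57 inst hxy), @pr_eq ι inst x y]
  refine ⟨ν, hν, ?_, ?_, ?_⟩
  · intro x y hxy
    rw [hV.lead x y hxy]
    exact h2 _ hxy
  · intro x y hxy a b hab
    exact hV.par x y hxy a b hab
  · intro x y z hxy hyz hxz a b
    rw [hV.adj x y z hxy hyz hxz a b]
    by_cases hab : a = b
    · rw [if_pos hab, if_pos hab]
      have h3 : ∀ (inst : DecidableEq ι), (if (@insert ι (Finset ι) (@Finset.instInsert ι inst) x
          (@insert ι (Finset ι) (@Finset.instInsert ι inst) y {z})).card = 2 then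
          β (@insert ι (Finset ι) (@Finset.instInsert ι inst) x
          (@insert ι (Finset ι) (@Finset.instInsert ι inst) y {z})) else 0) = 0 := by
        intro inst
        apply if_neg
        rw [card_triple_h57 inst hxy hxz hyz]
        decide
      exact congrArg₂ (fun x y : ZMod ℓ => x - y)
        (congrArg₂ (fun x y : ZMod ℓ => x - y) (h3 _) (h2 _ hxy)) (h2 _ hxz)
    · rw [if_neg hab, if_neg hab]

/-- All symbols and couplings. Proof: let `ν₀` be that of `copyV_all` for `B T = if T.card = 2 then β T else 0`;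
for `T = {i, j, l}` (`T.card = 3`, choose `i, j, l`) and `a : Fin n` let `ν_{T, a}` be that of `exists_val_B` for
`nd i j a`, `nd j l a`, `nd i l a`; for `T = {i, j}` (`T.card = 2`) and `a < b` let `ν_{T, a, b}` be that of
`exists_val_D` for `nd i j a`, `nd i j b`. Take
`ν = ν₀ + ∑_T ∑_a c a T • ν_{T, a} + ∑_T ∑_{a < b} δ T a b • ν_{T, a, b}`. The values: at the leading coefficients
only `ν₀` contributes, `B (pr i j) = β (pr i j)`; at `nd i j a - nd i j b`: `ν₀` and the `ν_{T, a}` give `0`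
(`Nodes.ne`), the last sum gives `δ (pr i j) a b` (symmetric, `hδ`); at `nd i j a - nd i l b`: `ν₀` gives
`- β (pr i j) - β (pr i l)` if `a = b`, otherwise `0`, the second sum gives `c a (tr i j l)` if `a = b`, otherwise
`0`, the last sum gives `0`. See the proofs of `copyV_triple` and `copyV_pair` (`Gr/E05.lean`) and `copyV_all`
(`Gr/E06.lean`). `pr_eq`, `tr_eq` change `pr i j`, `tr i j l` to `{i, j}`, `{i, j, l}` for any instance of
`DecidableEq`. -/
theorem copyW_all [IsAlgClosure ℚ F] {ℓ : ℕ} (hℓ : ℓ.Prime) {v : ι × Fin (n + 1) → ℤ}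
    (h : GoodH v) (hn : 2 ≤ n) {nd : ι → ι → Fin n → F} (hN : Nodes (gpolQ v) nd)
    (β : Finset ι → ZMod ℓ) (c : Fin n → Finset ι → ZMod ℓ)
    (δ : Finset ι → Fin n → Fin n → ZMod ℓ) (hδ : ∀ T a b, δ T a b = δ T b a) :
    ∃ ν : F → ZMod ℓ, IsVal (IntermediateField.adjoin ℚ (nodes ℚ F (gpolQ v))).toSubfield ν ∧
      CopyW ν (gpolQ v) nd β c δ := by
  obtain ⟨ν₀, hν₀, hC₀⟩ := copyW_lead_h7 (F := F) hℓ h hn hN β
  choose ν₁ hν₁ hC₁ using fun t : Fin n × Finset ι =>
    copyW_triple_h7 (F := F) hℓ h (by omega) hN t.1 t.2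
  choose ν₂ hν₂ hC₂ using fun t : Finset ι × Fin n × Fin n =>
    copyW_pair_h7 (F := F) hℓ h hN t.1 t.2.1 t.2.2
  have hS₁ := copyW_sum_h7 Finset.univ (fun t : Fin n × Finset ι => c t.1 t.2) ν₁ _ _ _ hC₁
  have hS₂ := copyW_sum_h7 Finset.univ (fun t : Finset ι × Fin n × Fin n => δ t.1 t.2.1 t.2.2)
    ν₂ _ _ _ hC₂
  refine ⟨_, (hν₀.add_h64 (isVal_sum_h57 Finset.univ (fun t : Fin n × Finset ι => c t.1 t.2) ν₁
    hν₁)).add_h64 (isVal_sum_h57 Finset.univ
      (fun t : Finset ι × Fin n × Fin n => δ t.1 t.2.1 t.2.2) ν₂ hν₂),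
    copyW_congr_h7 (copyW_add_h7 (copyW_add_h7 hC₀ hS₁) hS₂) ?_ ?_ ?_⟩
  · intro T hT
    simp
  · intro a T hT
    simp only [mul_zero, Finset.sum_const_zero, zero_add, add_zero]
    rw [Finset.sum_eq_single (a, T)]
    · simp [hT]
    · rintro ⟨a', T'⟩ - hne
      rw [if_neg, mul_zero]
      rintro ⟨h1, h2, -⟩
      exact hne (Prod.ext h1.symm h2.symm)
    · exact fun hh => absurd (Finset.mem_univ _) hh
  · intro T hT a b hab
    simp only [mul_zero, Finset.sum_const_zero, zero_add]
    rcases lt_or_gt_of_ne hab with hlt | hlt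
    · rw [Finset.sum_eq_single (T, a, b)]
      · simp [hT, hlt]
      · rintro ⟨T', a', b'⟩ - hne
        rw [if_neg, mul_zero]
        rintro ⟨h1, -, h2, ⟨h3, h4⟩ | ⟨h3, h4⟩⟩
        · exact hne (Prod.ext h1.symm (Prod.ext h3.symm h4.symm))
        · simp only at h1 h2 h3 h4
          rw [← h3, ← h4] at h2
          exact absurd hlt h2.not_gt
      · exact fun hh => absurd (Finset.mem_univ _) hh
    · rw [Finset.sum_eq_single (T, b, a)]
      · simp [hT, hlt, hδ T b a]
      · rintro ⟨T', a', b'⟩ - hne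
        rw [if_neg, mul_zero]
        rintro ⟨h1, -, h2, ⟨h3, h4⟩ | ⟨h3, h4⟩⟩
        · simp only at h1 h2 h3 h4
          rw [← h3, ← h4] at h2
          exact absurd hlt h2.not_gt
        · exact hne (Prod.ext h1.symm (Prod.ext h4.symm h3.symm))
      · exact fun hh => absurd (Finset.mem_univ _) hh

end Pool.Agent.Lib.MP_89bcae_ag

end

section

/-!
# An automorphism with arbitrary symbols
-/

open Polynomial

open scoped Classical

namespace Pool.Agent.Lib.MP_89bcae_ag

open Superelliptic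

variable {ι : Type} [Fintype ι] [LinearOrder ι] {n : ℕ} {F : Type} [Field F] [Algebra ℚ F]

/-- Proof: `K = CyclotomicField ℓ ℚ` with an embedding in `F` (`letI : Algebra K F`, as in
`graphCovers8`, `Gph/Fin.lean`); `ν₀` of `copyV_all`; `exists_extend_val` (`Gph/Norm.lean`, `S` the nodes,
`nodes_gpolQ_finite`) extends it to `ν` on `K(S)`. `E = (IntermediateField.adjoin K S).restrictScalars ℚ`,
finite over `ℚ`; `ζ` the primitive root of `K` in `E`. `Sup.exists_U_of_lam` for `k := E`, `K := ⊥`,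
`lam := ν` and `T` the finite set of the leading coefficients and of the differences of different nodes
(not zero: `Nodes.inj`, `Nodes.ne`) gives `U`; all values of `CopyV` are at elements of `T`, in `ℚ(S)`,
where `ν = ν₀`. -/
theorem exists_U_graphs [IsAlgClosure ℚ F] {ℓ : ℕ} (hℓ : ℓ.Prime) {v : ι × Fin (n + 1) → ℤ}
    (h : GoodH v) (hn : 2 ≤ n) {nd : ι → ι → Fin n → F} (hN : Nodes (gpolQ v) nd)
    (B : Finset ι → ZMod ℓ) :
    ∃ (E : IntermediateField ℚ F) (ζ : E) (U : F ≃ₐ[E] F), FiniteDimensional ℚ E ∧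
      IsPrimitiveRoot ζ ℓ ∧ (∀ i j, i ≠ j → ∀ a, nd i j a ∈ E) ∧
      CopyV (fun x => Sup.kap ℓ (algebraMap E F ζ) U x) (gpolQ v) nd B := by
  have hF : IsAlgClosed F := IsAlgClosure.isAlgClosed ℚ
  have halg : Algebra.IsAlgebraic ℚ F := IsAlgClosure.isAlgebraic
  have hF0 : CharZero F := algebraRat.charZero F
  have hne0 : NeZero ℓ := ⟨hℓ.ne_zero⟩
  have hfact : Fact ℓ.Prime := ⟨hℓ⟩
  obtain ⟨ν₀, hν₀, hC⟩ := copyV_all hℓ h hn hN B
  obtain ⟨S, hSdef⟩ : ∃ S, S = nodes ℚ F (gpolQ v) := ⟨_, rfl⟩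
  rw [← hSdef] at hν₀
  have hS : S.Finite := by
    rw [hSdef]
    refine nodes_gpolQ_finite fun a b hab he => ?_
    have h1 := h.good.natDegree hab
    rw [he, sub_self, natDegree_zero] at h1
    omega
  have hint : ∀ s ∈ S, IsIntegral ℚ s := fun s _ => (halg.isAlgebraic s).isIntegral
  have hmem : ∀ i j, i ≠ j → ∀ a, nd i j a ∈ S := by
    intro i j hij a
    rw [hSdef]
    exact ⟨i, j, hij, (hN.mem i j hij _).2 ⟨a, rfl⟩⟩
  -- the cyclotomic field
  let K := CyclotomicField ℓ ℚ
  letI : Algebra ℚ K := CyclotomicField.algebra ℓ ℚ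
  haveI : IsCyclotomicExtension {ℓ} ℚ K := inferInstance
  haveI hfin : FiniteDimensional ℚ K := IsCyclotomicExtension.finiteDimensional {ℓ} ℚ K
  let e : K →ₐ[ℚ] F := IsAlgClosed.lift
  letI : Algebra K F := e.toRingHom.toAlgebra
  haveI : IsScalarTower ℚ K F := IsScalarTower.of_algebraMap_eq fun x => (e.commutes x).symm
  obtain ⟨ν, hν, hνe⟩ := exists_extend_val hℓ K F S hS hint ν₀ hν₀
  obtain ⟨z, hz⟩ := IsCyclotomicExtension.exists_isPrimitiveRoot (S := {ℓ}) ℚ K
    (Set.mem_singleton ℓ) hℓ.ne_zero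
  have hzF : IsPrimitiveRoot (algebraMap K F z) ℓ := hz.map_of_injective (algebraMap K F).injective
  -- the field `E`
  haveI hSfin : Finite S := hS.to_subtype
  haveI hfdK : FiniteDimensional K (IntermediateField.adjoin K S) :=
    IntermediateField.finiteDimensional_adjoin fun x hx => (hint x hx).tower_top
  let E : IntermediateField ℚ F := (IntermediateField.adjoin K S).restrictScalars ℚ
  have hEmem : ∀ x : F, x ∈ E ↔ x ∈ IntermediateField.adjoin K S := fun x => Iff.rfl
  have hfd : FiniteDimensional ℚ E := by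
    have h1 : FiniteDimensional ℚ (IntermediateField.adjoin K S) :=
      FiniteDimensional.trans ℚ K (IntermediateField.adjoin K S)
    exact h1
  let ζ : E := ⟨algebraMap K F z, (IntermediateField.adjoin K S).algebraMap_mem z⟩
  have hζF : IsPrimitiveRoot (algebraMap E F ζ) ℓ := hzF
  have hζ : IsPrimitiveRoot ζ ℓ := hζF.of_map_of_injective (algebraMap E F).injective
  have hℓE : ((ℓ : ℕ) : E) ≠ 0 := by
    have h1 : CharZero E := inferInstance
    exact Nat.cast_ne_zero.2 hℓ.ne_zero
  have halgE : Algebra.IsAlgebraic E F := Algebra.IsAlgebraic.tower_top (K := ℚ) E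
  -- the elements at which the symbol is prescribed
  let N : Finset F := hS.toFinset
  let T : Finset F := ((Finset.univ : Finset (ι × ι)).filter fun x => x.1 ≠ x.2).image
      (fun x => algebraMap ℚ F (gpolQ v x.1 - gpolQ v x.2).leadingCoeff) ∪
    ((N ×ˢ N).filter fun x => x.1 ≠ x.2).image fun x => x.1 - x.2
  have hlead0 : ∀ i j, i ≠ j → algebraMap ℚ F (gpolQ v i - gpolQ v j).leadingCoeff ≠ 0 := by
    intro i j hij h0
    rw [map_eq_zero, leadingCoeff_eq_zero] at h0
    have h1 := h.good.natDegree hij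
    rw [h0, natDegree_zero] at h1
    omega
  have hSE : ∀ s ∈ S, s ∈ E := fun s hs => IntermediateField.subset_adjoin K S hs
  have hbot : ∀ x : F, x ∈ E → x ∈ (⊥ : IntermediateField E F) := fun x hx =>
    IntermediateField.mem_bot.2 ⟨⟨x, hx⟩, rfl⟩
  have hbot' : ∀ x : F, x ∈ (⊥ : IntermediateField E F) → x ∈ E := by
    intro x hx
    obtain ⟨y, hy⟩ := IntermediateField.mem_bot.1 hx
    rw [← hy]
    exact y.2
  have hT : ∀ x ∈ T, x ∈ (⊥ : IntermediateField E F) ∧ x ≠ 0 := by
    intro x hx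
    rcases Finset.mem_union.1 hx with h1 | h1
    · obtain ⟨⟨i, j⟩, h2, h3⟩ := Finset.mem_image.1 h1
      have hij : i ≠ j := (Finset.mem_filter.1 h2).2
      rw [← h3]
      exact ⟨hbot _ (E.algebraMap_mem _), hlead0 i j hij⟩
    · obtain ⟨⟨s, t⟩, h2, h3⟩ := Finset.mem_image.1 h1
      obtain ⟨h4, h5⟩ := Finset.mem_filter.1 h2
      obtain ⟨h6, h7⟩ := Finset.mem_product.1 h4
      rw [← h3]
      refine ⟨hbot _ (E.sub_mem (hSE _ (hS.mem_toFinset.1 h6)) (hSE _ (hS.mem_toFinset.1 h7))), ?_⟩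
      exact sub_ne_zero.2 h5
  obtain ⟨U, -, hU⟩ := Sup.exists_U_of_lam (k := E) (F := F) hℓ hℓE hζ ⊥ ν
    (fun x hx y hy hx0 hy0 => hν.mul x (hbot' x hx) y (hbot' y hy) hx0 hy0) T hT
  have hsub : ∀ s ∈ S, ∀ t ∈ S, s ≠ t →
      Sup.kap ℓ (algebraMap E F ζ) U (s - t) = ν₀ (s - t) := by
    intro s hs t ht hst
    rw [hU (s - t) (Finset.mem_union.2 (Or.inr (Finset.mem_image.2 ⟨(s, t),
      Finset.mem_filter.2 ⟨Finset.mem_product.2 ⟨hS.mem_toFinset.2 hs, hS.mem_toFinset.2 ht⟩, hst⟩,
      rfl⟩)))]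
    exact hνe _ (sub_mem (IntermediateField.subset_adjoin ℚ S hs)
      (IntermediateField.subset_adjoin ℚ S ht))
  refine ⟨E, ζ, U, hfd, hζ, fun i j hij a => hSE _ (hmem i j hij a), ?_, ?_, ?_⟩
  · intro i j hij
    show Sup.kap ℓ (algebraMap E F ζ) U _ = _
    rw [hU _ (Finset.mem_union.2 (Or.inl (Finset.mem_image.2 ⟨(i, j),
      Finset.mem_filter.2 ⟨Finset.mem_univ _, hij⟩, rfl⟩)))]
    rw [hνe _ ((IntermediateField.adjoin ℚ S).algebraMap_mem _)]
    exact hC.lead i j hij
  · intro i j hij a b hab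
    show Sup.kap ℓ (algebraMap E F ζ) U _ = _
    rw [hsub _ (hmem i j hij a) _ (hmem i j hij b) fun h1 => hab (hN.inj i j hij h1)]
    exact hC.par i j hij a b hab
  · intro i j l hij hjl hil a b
    show Sup.kap ℓ (algebraMap E F ζ) U _ = _
    rw [hsub _ (hmem i j hij a) _ (hmem i l hil b) ?_]
    · exact hC.adj i j l hij hjl hil a b
    · intro h1
      have h2 := (Nodes.ne h hN hij hil h1).1
      rcases Set.pair_eq_pair_iff.1 h2 with ⟨-, h3⟩ | ⟨h3, -⟩
      · exact hjl h3
      · exact hil h3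

end Pool.Agent.Lib.MP_89bcae_ag

end

section

/-!
# An automorphism with the values of a given homomorphism
-/

open Polynomial

open scoped Classical

namespace Pool.Agent.Lib.MP_89bcae_ag

open Superelliptic

variable {ι : Type} [Fintype ι] [LinearOrder ι] {n : ℕ} {F : Type} [Field F] [Algebra ℚ F]

/-- As `exists_U_graphs` (`Gr/E07.lean`), for a given homomorphism. -/
theorem exists_U_val [IsAlgClosure ℚ F] {ℓ : ℕ} (hℓ : ℓ.Prime) {v : ι × Fin (n + 1) → ℤ}
    (h : GoodH v) (hn : n ≠ 0) {nd : ι → ι → Fin n → F} (hN : Nodes (gpolQ v) nd)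
    (ν₀ : F → ZMod ℓ)
    (hν₀ : IsVal (IntermediateField.adjoin ℚ (nodes ℚ F (gpolQ v))).toSubfield ν₀) :
    ∃ (E : IntermediateField ℚ F) (ζ : E) (U : F ≃ₐ[E] F), FiniteDimensional ℚ E ∧
      IsPrimitiveRoot ζ ℓ ∧ (∀ i j, i ≠ j → ∀ a, nd i j a ∈ E) ∧
      (∀ i j, i ≠ j →
        Sup.kap ℓ (algebraMap E F ζ) U (algebraMap ℚ F (gpolQ v i - gpolQ v j).leadingCoeff) =
          ν₀ (algebraMap ℚ F (gpolQ v i - gpolQ v j).leadingCoeff)) ∧
      ∀ i j i' j' a a', i ≠ j → i' ≠ j' → nd i j a ≠ nd i' j' a' →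
        Sup.kap ℓ (algebraMap E F ζ) U (nd i j a - nd i' j' a') = ν₀ (nd i j a - nd i' j' a') := by
  have hF : IsAlgClosed F := IsAlgClosure.isAlgClosed ℚ
  have halg : Algebra.IsAlgebraic ℚ F := IsAlgClosure.isAlgebraic
  have hF0 : CharZero F := algebraRat.charZero F
  have hne0 : NeZero ℓ := ⟨hℓ.ne_zero⟩
  have hfact : Fact ℓ.Prime := ⟨hℓ⟩
  obtain ⟨S, hSdef⟩ : ∃ S, S = nodes ℚ F (gpolQ v) := ⟨_, rfl⟩
  rw [← hSdef] at hν₀
  have hS : S.Finite := by
    rw [hSdef]
    refine nodes_gpolQ_finite fun a b hab he => ?_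
    have h1 := h.good.natDegree hab
    rw [he, sub_self, natDegree_zero] at h1
    omega
  have hint : ∀ s ∈ S, IsIntegral ℚ s := fun s _ => (halg.isAlgebraic s).isIntegral
  have hmem : ∀ i j, i ≠ j → ∀ a, nd i j a ∈ S := by
    intro i j hij a
    rw [hSdef]
    exact ⟨i, j, hij, (hN.mem i j hij _).2 ⟨a, rfl⟩⟩
  -- the cyclotomic field
  let K := CyclotomicField ℓ ℚ
  letI : Algebra ℚ K := CyclotomicField.algebra ℓ ℚ
  haveI : IsCyclotomicExtension {ℓ} ℚ K := inferInstance
  haveI hfin : FiniteDimensional ℚ K := IsCyclotomicExtension.finiteDimensional {ℓ} ℚ K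
  let e : K →ₐ[ℚ] F := IsAlgClosed.lift
  letI : Algebra K F := e.toRingHom.toAlgebra
  haveI : IsScalarTower ℚ K F := IsScalarTower.of_algebraMap_eq fun x => (e.commutes x).symm
  obtain ⟨ν, hν, hνe⟩ := exists_extend_val hℓ K F S hS hint ν₀ hν₀
  obtain ⟨z, hz⟩ := IsCyclotomicExtension.exists_isPrimitiveRoot (S := {ℓ}) ℚ K
    (Set.mem_singleton ℓ) hℓ.ne_zero
  have hzF : IsPrimitiveRoot (algebraMap K F z) ℓ := hz.map_of_injective (algebraMap K F).injective
  -- the field `E`
  haveI hSfin : Finite S := hS.to_subtype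
  haveI hfdK : FiniteDimensional K (IntermediateField.adjoin K S) :=
    IntermediateField.finiteDimensional_adjoin fun x hx => (hint x hx).tower_top
  let E : IntermediateField ℚ F := (IntermediateField.adjoin K S).restrictScalars ℚ
  have hEmem : ∀ x : F, x ∈ E ↔ x ∈ IntermediateField.adjoin K S := fun x => Iff.rfl
  have hfd : FiniteDimensional ℚ E := by
    have h1 : FiniteDimensional ℚ (IntermediateField.adjoin K S) :=
      FiniteDimensional.trans ℚ K (IntermediateField.adjoin K S)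
    exact h1
  let ζ : E := ⟨algebraMap K F z, (IntermediateField.adjoin K S).algebraMap_mem z⟩
  have hζF : IsPrimitiveRoot (algebraMap E F ζ) ℓ := hzF
  have hζ : IsPrimitiveRoot ζ ℓ := hζF.of_map_of_injective (algebraMap E F).injective
  have hℓE : ((ℓ : ℕ) : E) ≠ 0 := by
    have h1 : CharZero E := inferInstance
    exact Nat.cast_ne_zero.2 hℓ.ne_zero
  have halgE : Algebra.IsAlgebraic E F := Algebra.IsAlgebraic.tower_top (K := ℚ) E
  -- the elements at which the symbol is prescribed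
  let N : Finset F := hS.toFinset
  let T : Finset F := ((Finset.univ : Finset (ι × ι)).filter fun x => x.1 ≠ x.2).image
      (fun x => algebraMap ℚ F (gpolQ v x.1 - gpolQ v x.2).leadingCoeff) ∪
    ((N ×ˢ N).filter fun x => x.1 ≠ x.2).image fun x => x.1 - x.2
  have hlead0 : ∀ i j, i ≠ j → algebraMap ℚ F (gpolQ v i - gpolQ v j).leadingCoeff ≠ 0 := by
    intro i j hij h0
    rw [map_eq_zero, leadingCoeff_eq_zero] at h0
    have h1 := h.good.natDegree hij
    rw [h0, natDegree_zero] at h1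
    omega
  have hSE : ∀ s ∈ S, s ∈ E := fun s hs => IntermediateField.subset_adjoin K S hs
  have hbot : ∀ x : F, x ∈ E → x ∈ (⊥ : IntermediateField E F) := fun x hx =>
    IntermediateField.mem_bot.2 ⟨⟨x, hx⟩, rfl⟩
  have hbot' : ∀ x : F, x ∈ (⊥ : IntermediateField E F) → x ∈ E := by
    intro x hx
    obtain ⟨y, hy⟩ := IntermediateField.mem_bot.1 hx
    rw [← hy]
    exact y.2
  have hT : ∀ x ∈ T, x ∈ (⊥ : IntermediateField E F) ∧ x ≠ 0 := by
    intro x hx
    rcases Finset.mem_union.1 hx with h1 | h1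
    · obtain ⟨⟨i, j⟩, h2, h3⟩ := Finset.mem_image.1 h1
      have hij : i ≠ j := (Finset.mem_filter.1 h2).2
      rw [← h3]
      exact ⟨hbot _ (E.algebraMap_mem _), hlead0 i j hij⟩
    · obtain ⟨⟨s, t⟩, h2, h3⟩ := Finset.mem_image.1 h1
      obtain ⟨h4, h5⟩ := Finset.mem_filter.1 h2
      obtain ⟨h6, h7⟩ := Finset.mem_product.1 h4
      rw [← h3]
      refine ⟨hbot _ (E.sub_mem (hSE _ (hS.mem_toFinset.1 h6)) (hSE _ (hS.mem_toFinset.1 h7))), ?_⟩
      exact sub_ne_zero.2 h5
  obtain ⟨U, -, hU⟩ := Sup.exists_U_of_lam (k := E) (F := F) hℓ hℓE hζ ⊥ ν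
    (fun x hx y hy hx0 hy0 => hν.mul x (hbot' x hx) y (hbot' y hy) hx0 hy0) T hT
  have hsub : ∀ s ∈ S, ∀ t ∈ S, s ≠ t →
      Sup.kap ℓ (algebraMap E F ζ) U (s - t) = ν₀ (s - t) := by
    intro s hs t ht hst
    rw [hU (s - t) (Finset.mem_union.2 (Or.inr (Finset.mem_image.2 ⟨(s, t),
      Finset.mem_filter.2 ⟨Finset.mem_product.2 ⟨hS.mem_toFinset.2 hs, hS.mem_toFinset.2 ht⟩, hst⟩,
      rfl⟩)))]
    exact hνe _ (sub_mem (IntermediateField.subset_adjoin ℚ S hs)
      (IntermediateField.subset_adjoin ℚ S ht))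
  refine ⟨E, ζ, U, hfd, hζ, fun i j hij a => hSE _ (hmem i j hij a), ?_, ?_⟩
  · intro i j hij
    rw [hU _ (Finset.mem_union.2 (Or.inl (Finset.mem_image.2 ⟨(i, j),
      Finset.mem_filter.2 ⟨Finset.mem_univ _, hij⟩, rfl⟩)))]
    exact hνe _ ((IntermediateField.adjoin ℚ S).algebraMap_mem _)
  · intro i j i' j' a a' hij hij' hne
    exact hsub _ (hmem i j hij a) _ (hmem i' j' hij' a') hne

end Pool.Agent.Lib.MP_89bcae_ag

end

section

/-!
# Prime fields with arbitrary symbols
-/

open Polynomial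

open scoped Classical

namespace Pool.Agent.Lib.MP_89bcae_ag

open Superelliptic

variable {ι : Type} [Fintype ι] [LinearOrder ι] {n : ℕ}

/-- A unit is coprime to everything. -/
theorem isCoprime_of_isUnit_left_h32 {R : Type*} [CommSemiring R] {a : R} (h : IsUnit a) (b : R) :
    IsCoprime a b := by
  obtain ⟨u, rfl⟩ := h
  exact ⟨↑u⁻¹, 0, by simp⟩

/-- The factorisation of the reduction of one difference. -/
theorem gdif_reduction_h32 {F : Type} [Field F] [Algebra ℚ F] {v : ι × Fin (n + 1) → ℤ}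
    {nd : ι → ι → Fin n → F} (hN : Nodes (gpolQ v) nd) {q : ℕ}
    (A : Subring F) (Φ : A →+* ZMod q) (hA : ∀ i j, i ≠ j → ∀ a, nd i j a ∈ A)
    (hlc : ∀ i j, i ≠ j → ((v (i, Fin.last n) - v (j, Fin.last n) : ℤ) : ZMod q) ≠ 0)
    (i j : ι) (hij : i ≠ j) :
    gpol (fun x => (v x : ZMod q)) i - gpol (fun x => (v x : ZMod q)) j =
      C ((v (i, Fin.last n) - v (j, Fin.last n) : ℤ) : ZMod q) *
        ∏ a, (X - C (Φ ⟨nd i j a, hA i j hij a⟩)) := by
  have : CharZero F := algebraRat.charZero F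
  have hv : v (i, Fin.last n) - v (j, Fin.last n) ≠ 0 := by
    intro h
    apply hlc i j hij
    rw [h]
    simp
  have hcoef : (gpolQ v i - gpolQ v j).coeff n = ((v (i, Fin.last n) - v (j, Fin.last n) : ℤ) : ℚ) := by
    have := gdif_coeff (fun x => (v x : ℚ)) i j (Fin.last n)
    unfold gdif at this
    rw [Fin.val_last] at this
    unfold gpolQ
    rw [this]
    push_cast
    ring
  have hne : gpolQ v i ≠ gpolQ v j := by
    intro h
    rw [h, sub_self, coeff_zero] at hcoef
    exact hv (by exact_mod_cast hcoef.symm)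
  have h1 := hN.prod_eq hij hne
  have hlead : (gpolQ v i - gpolQ v j).leadingCoeff =
      ((v (i, Fin.last n) - v (j, Fin.last n) : ℤ) : ℚ) := by
    rw [← hcoef, leadingCoeff, hN.lead i j hij]
  rw [hlead] at h1
  -- the identity in `A[X]`
  have h2 : gdif (fun x => ((v x : ℤ) : A)) i j =
      C ((v (i, Fin.last n) - v (j, Fin.last n) : ℤ) : A) *
        ∏ a, (X - C (⟨nd i j a, hA i j hij a⟩ : A)) := by
    apply Polynomial.map_injective A.subtype Subtype.val_injective
    rw [gdif_map, Polynomial.map_mul, Polynomial.map_prod, map_C]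
    have e1 : gdif (fun x => A.subtype ((v x : ℤ) : A)) i j =
        (gpolQ v i - gpolQ v j).map (algebraMap ℚ F) := by
      unfold gpolQ
      change _ = (gdif (fun x => (v x : ℚ)) i j).map (algebraMap ℚ F)
      rw [gdif_map]
      congr 1
      funext x
      rw [map_intCast, map_intCast]
    rw [e1, h1]
    congr 1
    · rw [map_intCast (algebraMap ℚ F), map_intCast A.subtype]
    · refine Finset.prod_congr rfl fun a _ => ?_
      rw [Polynomial.map_sub, map_X, map_C]
      rfl
  have h3 := congrArg (Polynomial.map Φ) h2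
  rw [gdif_map, Polynomial.map_mul, Polynomial.map_prod, map_C] at h3
  have e2 : (fun x => Φ ((v x : ℤ) : A)) = fun x : ι × Fin (n + 1) => ((v x : ℤ) : ZMod q) := by
    funext x
    rw [map_intCast]
  rw [e2, map_intCast] at h3
  unfold gdif at h3
  rw [h3]
  congr 1
  refine Finset.prod_congr rfl fun a _ => ?_
  rw [Polynomial.map_sub, map_X, map_C]

/-- The reduction of a family whose differences split. Proof: let `v'` be the reduction of `v`. In `F[X]`,
`(gdif v i j).map = C lc * ∏ a, (X - C (nd i j a))` (`Nodes.prod_eq`); both sides have coefficients in the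
subring `A` of `F`, so this holds in `A[X]` (`Polynomial.map_injective`) and, applying `Φ`, in `(ZMod q)[X]`
with `Φ (nd i j a)` and `Φ lc = v'(i, n) - v'(j, n) ≠ 0` (`hlc`). So `gpol v' i - gpol v' j` has degree `n` and the
roots `Φ (nd i j a)`, which are different by `hd`: this is `Nodes`. `IsArrangement`: the product over
`i < j` is a constant times the product of the `X - C s` over the different elements
`s = Φ (nd i j a)` (`hd`; `Polynomial.separable_prod'`). -/
theorem nodes_reduction {F : Type} [Field F] [Algebra ℚ F] {v : ι × Fin (n + 1) → ℤ}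
    (hn : 1 ≤ n) {nd : ι → ι → Fin n → F} (hN : Nodes (gpolQ v) nd) {q : ℕ} [Fact q.Prime]
    (A : Subring F) (Φ : A →+* ZMod q) (hA : ∀ i j, i ≠ j → ∀ a, nd i j a ∈ A)
    (hlc : ∀ i j, i ≠ j → ((v (i, Fin.last n) - v (j, Fin.last n) : ℤ) : ZMod q) ≠ 0)
    (hd : ∀ i j i' j' (hij : i ≠ j) (hij' : i' ≠ j') (a a' : Fin n),
      (({i, j} : Set ι) ≠ {i', j'} ∨ a ≠ a') →
        Φ ⟨nd i j a, hA i j hij a⟩ ≠ Φ ⟨nd i' j' a', hA i' j' hij' a'⟩) :
    IsArrangement (gpol (fun x => (v x : ZMod q))) ∧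
      Nodes (F := ZMod q) (gpol (fun x => (v x : ZMod q)))
        (fun i j a => if hij : i = j then 0 else Φ ⟨nd i j a, hA i j hij a⟩) := by
  have key := gdif_reduction_h32 hN A Φ hA hlc
  have hcu : ∀ i j, i ≠ j →
      IsUnit (C ((v (i, Fin.last n) - v (j, Fin.last n) : ℤ) : ZMod q) : (ZMod q)[X]) := by
    intro i j hij
    exact Polynomial.isUnit_C.2 (isUnit_iff_ne_zero.2 (hlc i j hij))
  have hmon : ∀ i j (hij : i ≠ j), (∏ a, (X - C (Φ ⟨nd i j a, hA i j hij a⟩)) :
      (ZMod q)[X]).natDegree = n := by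
    intro i j hij
    rw [Polynomial.natDegree_prod_of_monic _ _ (fun a _ => monic_X_sub_C _)]
    simp
  have hdeg : ∀ i j, i ≠ j →
      (gpol (fun x => (v x : ZMod q)) i - gpol (fun x => (v x : ZMod q)) j).natDegree = n := by
    intro i j hij
    rw [key i j hij, natDegree_C_mul (hlc i j hij), hmon i j hij]
  have hsep : ∀ i j, i ≠ j →
      (gpol (fun x => (v x : ZMod q)) i - gpol (fun x => (v x : ZMod q)) j).Separable := by
    intro i j hij
    rw [key i j hij]
    refine Separable.mul ((separable_C _).2 (isUnit_iff_ne_zero.2 (hlc i j hij))) ?_ ?_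
    · refine separable_prod_X_sub_C_iff.2 fun a b hab => ?_
      by_contra hne
      exact hd i j i j hij hij a b (Or.inr hne) hab
    · exact isCoprime_of_isUnit_left_h32 (hcu i j hij) _
  have hcop : ∀ i j i' j', i ≠ j → i' ≠ j' → ({i, j} : Set ι) ≠ {i', j'} →
      IsCoprime (gpol (fun x => (v x : ZMod q)) i - gpol (fun x => (v x : ZMod q)) j)
        (gpol (fun x => (v x : ZMod q)) i' - gpol (fun x => (v x : ZMod q)) j') := by
    intro i j i' j' hij hij' hne
    rw [key i j hij, key i' j' hij']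
    refine IsCoprime.mul_left (isCoprime_of_isUnit_left_h32 (hcu i j hij) _)
      (IsCoprime.mul_right (isCoprime_of_isUnit_left_h32 (hcu i' j' hij') _).symm ?_)
    refine IsCoprime.prod_left fun a _ => IsCoprime.prod_right fun b _ => ?_
    exact isCoprime_X_sub_C_of_isUnit_sub
      (isUnit_iff_ne_zero.2 (sub_ne_zero.2 (hd i j i' j' hij hij' a b (Or.inl hne))))
  refine ⟨⟨?_, fun i j hij => ?_⟩, ⟨?_, ?_, ?_, hdeg⟩⟩
  · refine separable_prod' ?_ ?_
    · intro i _ i' _ hii
      refine IsCoprime.prod_left fun j hj => IsCoprime.prod_right fun j' hj' => ?_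
      have h1 : i < j := (Finset.mem_filter.1 hj).2
      have h2 : i' < j' := (Finset.mem_filter.1 hj').2
      refine hcop i j i' j' h1.ne h2.ne fun h => ?_
      have e1 : i ∈ ({i', j'} : Set ι) := h ▸ (by simp)
      have e2 : i' ∈ ({i, j} : Set ι) := h ▸ (by simp)
      rcases e1 with e1 | e1
      · exact hii e1
      · rcases e2 with e2 | e2
        · exact hii e2.symm
        · have e1' : i = j' := e1
          have e2' : i' = j := e2
          rw [e1'] at h1
          rw [e2'] at h2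
          exact lt_asymm h1 h2
    · intro i _
      refine separable_prod' ?_ ?_
      · intro j hj j' hj' hjj
        have h1 : i < j := (Finset.mem_filter.1 hj).2
        have h2 : i < j' := (Finset.mem_filter.1 hj').2
        refine hcop i j i j' h1.ne h2.ne fun h => ?_
        have e1 : j ∈ ({i, j'} : Set ι) := h ▸ (by simp)
        rcases e1 with e1 | e1
        · exact h1.ne e1.symm
        · exact hjj e1
      · intro j hj
        exact hsep i j (Finset.mem_filter.1 hj).2.ne
  · rw [hdeg i j hij]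
    omega
  · intro i j a
    by_cases hij : i = j
    · rw [dif_pos hij, dif_pos hij.symm]
    · rw [dif_neg hij, dif_neg (Ne.symm hij)]
      congr 2
      exact hN.symm i j a
  · intro i j hij a b hab
    simp only [dif_neg hij] at hab
    by_contra hne
    exact hd i j i j hij hij a b (Or.inr hne) hab
  · intro i j hij s
    have h1 : aeval s (gpol (fun x => (v x : ZMod q)) i) =
        aeval s (gpol (fun x => (v x : ZMod q)) j) ↔
        (gpol (fun x => (v x : ZMod q)) i - gpol (fun x => (v x : ZMod q)) j).eval s = 0 := by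
      rw [eval_sub, sub_eq_zero]
      rfl
    rw [h1, key i j hij, eval_mul, eval_C, mul_eq_zero, or_iff_right (hlc i j hij), eval_prod,
      Finset.prod_eq_zero_iff]
    simp only [dif_neg hij, Finset.mem_univ, true_and, eval_sub, eval_X, eval_C]
    constructor
    · rintro ⟨a, ha⟩
      exact ⟨a, (sub_eq_zero.1 ha).symm⟩
    · rintro ⟨a, ha⟩
      exact ⟨a, sub_eq_zero.2 ha.symm⟩

/-- **Primes with arbitrary symbols.** Proof: `F = AlgebraicClosure ℚ`, `nd` of `exists_nodes`, `E, ζ, U` of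
`exists_U_graphs`; `F` is an algebraic closure of the number field `E`. `Re.exists_reduction` for `K := E`
and `T` the finite set of the nodes, the differences of different nodes and the leading coefficients (as
elements of `E`); `hT` from `hB` and `CopyV` (a pair with `B {i, j} ≠ 0`: the leading coefficient; otherwise
a triple with `B {i, j, l} ≠ 0` and all pairs zero: the difference `nd i j 0 - nd i l 0`). It gives `q`, `A`,
`Φ`, `c ≠ 0` and `ζ' = (Φ ζ) ^ c.val` and `V` as in `Lr.exists_prime_lines` (`Lr/B05.lean`). `nodes_reduction`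
for the image of `A` in `F` (`Subring.map`), or with `Φ` composed; the values of `V` at the differences of the
`Φ (nd i j a)` and at the leading coefficients are those of `kap`. -/
theorem exists_prime_graphs {v : ι × Fin (n + 1) → ℤ} (h : GoodH v) (hn : 2 ≤ n) {ℓ : ℕ}
    (hℓ : ℓ.Prime) (hℓ2 : ℓ ≠ 2) (B : Finset ι → ZMod ℓ)
    (hB : (∃ i j l : ι, i ≠ j ∧ j ≠ l ∧ i ≠ l ∧ B {i, j, l} ≠ 0) ∨ ∃ i j : ι, i ≠ j ∧ B {i, j} ≠ 0)
    (N : ℕ) :
    ∃ (q : ℕ) (_ : Fact q.Prime) (ζ : ZMod q) (V : Val14 (ZMod q) ℓ) (nd : ι → ι → Fin n → ZMod q),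
      N < q ∧ IsPrimitiveRoot ζ ℓ ∧ IsArrangement (gpol (fun x => (v x : ZMod q))) ∧
      Nodes (F := ZMod q) (gpol (fun x => (v x : ZMod q))) nd ∧
      CopyV V.ν (gpol (fun x => (v x : ZMod q))) nd B := by
  have : Fact ℓ.Prime := ⟨hℓ⟩
  have : NeZero ℓ := ⟨hℓ.ne_zero⟩
  obtain ⟨F, _, _, _⟩ : ∃ (F : Type) (_ : Field F) (_ : Algebra ℚ F), IsAlgClosure ℚ F := by
    let _ : Algebra ℚ (AlgebraicClosure ℚ) := AlgebraicClosure.instAlgebra ℚ
    exact ⟨AlgebraicClosure ℚ, inferInstance, AlgebraicClosure.instAlgebra ℚ, inferInstance⟩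
  obtain ⟨nd, hN⟩ := exists_nodes (F := F) h
  obtain ⟨E, ζ, U, hfin, hζ, hmem, hC⟩ := exists_U_graphs (F := F) hℓ h hn hN B
  have : FiniteDimensional ℚ E := hfin
  have : NumberField E := @NumberField.of_module_finite ℚ E _ _ _ E.algebra' hfin
  have : Algebra.IsAlgebraic ℚ F := IsAlgClosure.isAlgebraic
  have : IsAlgClosure E F := ⟨IsAlgClosure.isAlgClosed ℚ, Algebra.IsAlgebraic.tower_top (K := ℚ) E⟩
  -- the leading coefficients
  have hlead : ∀ i j : ι, i ≠ j → (gpolQ v i - gpolQ v j).leadingCoeff =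
      ((v (i, Fin.last n) - v (j, Fin.last n) : ℤ) : ℚ) := by
    intro i j hij
    have h1 := gdif_coeff (fun x => (v x : ℚ)) i j (Fin.last n)
    unfold gdif at h1
    rw [Fin.val_last] at h1
    have h2 : (gpolQ v i - gpolQ v j).coeff n =
        (v (i, Fin.last n) : ℚ) - (v (j, Fin.last n) : ℚ) := h1
    rw [leadingCoeff, hN.lead i j hij, h2]
    push_cast
    rfl
  have hvne : ∀ i j : ι, i ≠ j → v (i, Fin.last n) - v (j, Fin.last n) ≠ 0 := by
    intro i j hij h0
    have h1 := hlead i j hij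
    rw [h0, Int.cast_zero, leadingCoeff_eq_zero] at h1
    have h2 := hN.lead i j hij
    rw [h1, natDegree_zero] at h2
    omega
  -- the elements of `E`
  let nE : ι → ι → Fin n → E := fun i j a => if hij : i ≠ j then ⟨nd i j a, hmem i j hij a⟩ else 0
  have hnE : ∀ i j (hij : i ≠ j) a, nE i j a = ⟨nd i j a, hmem i j hij a⟩ := by
    intro i j hij a
    exact dif_pos hij
  have hnE' : ∀ i j (_ : i ≠ j) a, algebraMap E F (nE i j a) = nd i j a := by
    intro i j hij a
    rw [hnE i j hij a]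
    rfl
  let T : Finset E :=
    (Finset.univ.image fun t : ι × ι × Fin n => nE t.1 t.2.1 t.2.2) ∪
    (Finset.univ.image fun t : (ι × ι × Fin n) × (ι × ι × Fin n) =>
      nE t.1.1 t.1.2.1 t.1.2.2 - nE t.2.1 t.2.2.1 t.2.2.2) ∪
    (Finset.univ.image fun t : ι × ι => ((v (t.1, Fin.last n) - v (t.2, Fin.last n) : ℤ) : E))
  have hT1 : ∀ i j a, nE i j a ∈ T := fun i j a =>
    Finset.mem_union_left _ (Finset.mem_union_left _
      (Finset.mem_image.2 ⟨(i, j, a), Finset.mem_univ _, rfl⟩))
  have hT2 : ∀ i j a i' j' a', nE i j a - nE i' j' a' ∈ T := fun i j a i' j' a' =>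
    Finset.mem_union_left _ (Finset.mem_union_right _
      (Finset.mem_image.2 ⟨((i, j, a), (i', j', a')), Finset.mem_univ _, rfl⟩))
  have hT3 : ∀ i j, ((v (i, Fin.last n) - v (j, Fin.last n) : ℤ) : E) ∈ T := fun i j =>
    Finset.mem_union_right _ (Finset.mem_image.2 ⟨(i, j), Finset.mem_univ _, rfl⟩)
  have hdne : ∀ i j i' j' (_ : i ≠ j) (_ : i' ≠ j') (a a' : Fin n),
      (({i, j} : Set ι) ≠ {i', j'} ∨ a ≠ a') → nE i j a - nE i' j' a' ≠ 0 := by
    intro i j i' j' hij hij' a a' hor h0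
    have h1 : nE i j a = nE i' j' a' := sub_eq_zero.1 h0
    rw [hnE i j hij, hnE i' j' hij'] at h1
    have h2 : nd i j a = nd i' j' a' := congrArg Subtype.val h1
    obtain ⟨h3, h4⟩ := Nodes.ne h hN hij hij' h2
    rcases hor with h5 | h5
    · exact h5 h3
    · exact h5 h4
  have hpairne : ∀ i j l : ι, j ≠ l → i ≠ l → ({i, j} : Set ι) ≠ {i, l} := by
    intro i j l hjl hil he
    have h1 : l ∈ ({i, j} : Set ι) := he ▸ (by simp)
    rcases h1 with h1 | h1
    · exact hil h1.symm
    · exact hjl (Set.mem_singleton_iff.1 h1).symm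
  -- the Kummer symbols
  have hk3 : ∀ i j, i ≠ j → Sup.kap ℓ (algebraMap E F ζ) U
      (algebraMap E F ((v (i, Fin.last n) - v (j, Fin.last n) : ℤ) : E)) =
        B {i, j} := by
    intro i j hij
    have h1 := hC.lead i j hij
    rw [hlead i j hij, map_intCast] at h1
    rw [map_intCast]
    refine h1.trans ?_
    congr <;> exact Subsingleton.elim _ _
  have hk2 : ∀ i j i' j' (_ : i ≠ j) (_ : i' ≠ j') (a a' : Fin n),
      algebraMap E F (nE i j a - nE i' j' a') = nd i j a - nd i' j' a' := by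
    intro i j i' j' hij hij' a a'
    rw [map_sub, hnE' i j hij, hnE' i' j' hij']
  have hfirst : ∃ z ∈ T, z ≠ 0 ∧ Sup.kap ℓ (algebraMap E F ζ) U
      (algebraMap E F z) ≠ 0 := by
    by_cases hp : ∃ i j : ι, i ≠ j ∧ B {i, j} ≠ 0
    · obtain ⟨i, j, hij, hb⟩ := hp
      refine ⟨_, hT3 i j, Int.cast_ne_zero.2 (hvne i j hij), ?_⟩
      rw [hk3 i j hij]
      exact hb
    · have hp' : ∀ i j : ι, i ≠ j → B {i, j} = 0 := by
        intro i j hij
        by_contra hb
        exact hp ⟨i, j, hij, hb⟩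
      rcases hB with ⟨i, j, l, hij, hjl, hil, hb⟩ | hB
      · have a0 : Fin n := ⟨0, by omega⟩
        refine ⟨_, hT2 i j a0 i l a0,
          hdne i j i l hij hil a0 a0 (Or.inl (hpairne i j l hjl hil)), ?_⟩
        rw [hk2 i j i l hij hil a0 a0]
        have h1 : Sup.kap ℓ (algebraMap E F ζ) U (nd i j a0 - nd i l a0) =
            B {i, j, l} - B {i, j} - B {i, l} := by
          have h2 := hC.adj i j l hij hjl hil a0 a0
          rw [if_pos rfl] at h2
          refine h2.trans ?_
          congr <;> exact Subsingleton.elim _ _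
        rw [hp' i j hij, hp' i l hil, sub_zero, sub_zero] at h1
        intro h2
        exact hb (h1.symm.trans h2)
      · exact absurd hB hp
  obtain ⟨q, hq, A, Φ, c, hζA, hNq, hdvd, hc, hprim, hT⟩ :=
    Re.exists_reduction hℓ E F hζ U T hfirst N
  have hcop : Nat.Coprime c.val ℓ := by
    refine ((Nat.Prime.coprime_iff_not_dvd hℓ).2 ?_).symm
    intro hd
    apply hc
    have h5 : c.val = 0 := Nat.eq_zero_of_dvd_of_lt hd (ZMod.val_lt c)
    exact (ZMod.val_eq_zero c).1 h5
  have hζ' : IsPrimitiveRoot ((Φ ⟨ζ, hζA⟩) ^ c.val) ℓ := hprim.pow_of_coprime c.val hcop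
  obtain ⟨V, hV⟩ := Lr.exists_val_zmod hℓ hℓ2 hdvd hζ'
  have hval : ∀ z ∈ T, ∀ hz : z ∈ A, z ≠ 0 → Φ ⟨z, hz⟩ ≠ 0 ∧ V.ν (Φ ⟨z, hz⟩) =
      Sup.kap ℓ (algebraMap E F ζ) U (algebraMap E F z) := by
    intro z hzT hz hz0
    obtain ⟨hz', hrest⟩ := hT z hzT
    obtain ⟨h0, hpow⟩ := hrest hz0
    refine ⟨h0, hV _ _ h0 ?_⟩
    rw [hpow, ZMod.val_mul, ← pow_mul]
    exact (pow_eq_pow_mod _ hprim.pow_eq_one).symm
  -- the subring of `F`
  have hinj : Function.Injective (algebraMap E F) :=
    (algebraMap E F).injective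
  let e := A.equivMapOfInjective (algebraMap E F) hinj
  let A' : Subring F := A.map (algebraMap E F)
  let Φ' : A' →+* ZMod q := Φ.comp (e.symm : A' →+* A)
  have hmA : ∀ i j a, nE i j a ∈ A := fun i j a => (hT _ (hT1 i j a)).1
  have hA' : ∀ i j, i ≠ j → ∀ a, nd i j a ∈ A' := by
    intro i j hij a
    exact Subring.mem_map.2 ⟨nE i j a, hmA i j a, hnE' i j hij a⟩
  have hΦ' : ∀ i j (hij : i ≠ j) a, Φ' ⟨nd i j a, hA' i j hij a⟩ = Φ ⟨nE i j a, hmA i j a⟩ := by
    intro i j hij a
    have h1 : e ⟨nE i j a, hmA i j a⟩ = ⟨nd i j a, hA' i j hij a⟩ :=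
      Subtype.ext (hnE' i j hij a)
    show Φ (e.symm ⟨nd i j a, hA' i j hij a⟩) = _
    rw [← h1, RingEquiv.symm_apply_apply]
  have hsub : ∀ i j a i' j' a', ∃ hz : nE i j a - nE i' j' a' ∈ A,
      Φ ⟨nE i j a - nE i' j' a', hz⟩ = Φ ⟨nE i j a, hmA i j a⟩ - Φ ⟨nE i' j' a', hmA i' j' a'⟩ := by
    intro i j a i' j' a'
    refine ⟨A.sub_mem (hmA i j a) (hmA i' j' a'), ?_⟩
    rw [← map_sub]
    rfl
  have hlc' : ∀ i j, ∃ hz : ((v (i, Fin.last n) - v (j, Fin.last n) : ℤ) : E) ∈ A,
      Φ ⟨((v (i, Fin.last n) - v (j, Fin.last n) : ℤ) : E), hz⟩ =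
        ((v (i, Fin.last n) - v (j, Fin.last n) : ℤ) : ZMod q) := by
    intro i j
    obtain ⟨hz, -⟩ := hT _ (hT3 i j)
    refine ⟨hz, ?_⟩
    have h5 : (⟨((v (i, Fin.last n) - v (j, Fin.last n) : ℤ) : E), hz⟩ : A) =
        ((v (i, Fin.last n) - v (j, Fin.last n) : ℤ) : A) := Subtype.ext (by push_cast; rfl)
    rw [h5, map_intCast]
  have hlc : ∀ i j, i ≠ j →
      ((v (i, Fin.last n) - v (j, Fin.last n) : ℤ) : ZMod q) ≠ 0 ∧
      V.ν ((v (i, Fin.last n) - v (j, Fin.last n) : ℤ) : ZMod q) = B {i, j} := by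
    intro i j hij
    obtain ⟨hz, he⟩ := hlc' i j
    obtain ⟨h0, h1⟩ := hval _ (hT3 i j) hz (Int.cast_ne_zero.2 (hvne i j hij))
    rw [he] at h0 h1
    exact ⟨h0, h1.trans (hk3 i j hij)⟩
  have hdif : ∀ i j i' j' (hij : i ≠ j) (hij' : i' ≠ j') (a a' : Fin n),
      (({i, j} : Set ι) ≠ {i', j'} ∨ a ≠ a') →
        Φ' ⟨nd i j a, hA' i j hij a⟩ - Φ' ⟨nd i' j' a', hA' i' j' hij' a'⟩ ≠ 0 ∧
        V.ν (Φ' ⟨nd i j a, hA' i j hij a⟩ - Φ' ⟨nd i' j' a', hA' i' j' hij' a'⟩) =
          Sup.kap ℓ (algebraMap E F ζ) U (nd i j a - nd i' j' a') := by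
    intro i j i' j' hij hij' a a' hor
    obtain ⟨hz, he⟩ := hsub i j a i' j' a'
    obtain ⟨h0, h1⟩ := hval _ (hT2 i j a i' j' a') hz (hdne i j i' j' hij hij' a a' hor)
    rw [he] at h0 h1
    rw [hΦ' i j hij a, hΦ' i' j' hij' a']
    refine ⟨h0, h1.trans ?_⟩
    rw [hk2 i j i' j' hij hij' a a']
  have hd : ∀ i j i' j' (hij : i ≠ j) (hij' : i' ≠ j') (a a' : Fin n),
      (({i, j} : Set ι) ≠ {i', j'} ∨ a ≠ a') →
        Φ' ⟨nd i j a, hA' i j hij a⟩ ≠ Φ' ⟨nd i' j' a', hA' i' j' hij' a'⟩ := by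
    intro i j i' j' hij hij' a a' hor
    exact sub_ne_zero.1 (hdif i j i' j' hij hij' a a' hor).1
  obtain ⟨hArr, hNod⟩ := nodes_reduction (by omega : 1 ≤ n) hN A' Φ' hA'
    (fun i j hij => (hlc i j hij).1) hd
  refine ⟨q, hq, (Φ ⟨ζ, hζA⟩) ^ c.val, V, _, hNq, hζ', hArr, hNod, ?_, ?_, ?_⟩
  · intro i j hij
    have h1 : (gpol (fun x => (v x : ZMod q)) i - gpol (fun x => (v x : ZMod q)) j).leadingCoeff =
        ((v (i, Fin.last n) - v (j, Fin.last n) : ℤ) : ZMod q) := by
      have h2 := gdif_coeff (fun x => (v x : ZMod q)) i j (Fin.last n)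
      unfold gdif at h2
      rw [Fin.val_last] at h2
      rw [leadingCoeff, hNod.lead i j hij, h2]
      push_cast
      rfl
    rw [h1, map_intCast]
    refine (hlc i j hij).2.trans ?_
    congr <;> exact Subsingleton.elim _ _
  · intro i j hij a b hab
    rw [dif_neg hij, dif_neg hij]
    exact (hdif i j i j hij hij a b (Or.inr hab)).2.trans (hC.par i j hij a b hab)
  · intro i j l hij hjl hil a b
    rw [dif_neg hij, dif_neg hil]
    exact (hdif i j i l hij hil a b (Or.inl (hpairne i j l hjl hil))).2.trans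
      (hC.adj i j l hij hjl hil a b)

end Pool.Agent.Lib.MP_89bcae_ag

end

section

/-!
# Prime fields with the values of a given homomorphism
-/

open Polynomial

open scoped Classical

namespace Pool.Agent.Lib.MP_89bcae_ag

open Superelliptic

variable {ι : Type} [Fintype ι] [LinearOrder ι] {n : ℕ}

/-- **Primes with the values of a homomorphism.** (As `exists_prime_graphs`, `Gr/E08.lean`.) -/
theorem exists_prime_val {v : ι × Fin (n + 1) → ℤ} (h : GoodH v) (hn : 2 ≤ n) {ℓ : ℕ}
    (hℓ : ℓ.Prime) (hℓ2 : ℓ ≠ 2) {F : Type} [Field F] [Algebra ℚ F] [IsAlgClosure ℚ F]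
    {nd : ι → ι → Fin n → F} (hN : Nodes (gpolQ v) nd) (ν₀ : F → ZMod ℓ)
    (hν₀ : IsVal (IntermediateField.adjoin ℚ (nodes ℚ F (gpolQ v))).toSubfield ν₀)
    (h0 : ∃ i j, i ≠ j ∧ ν₀ (algebraMap ℚ F (gpolQ v i - gpolQ v j).leadingCoeff) ≠ 0) (N : ℕ) :
    ∃ (q : ℕ) (_ : Fact q.Prime) (ζ : ZMod q) (V : Val14 (ZMod q) ℓ) (nd' : ι → ι → Fin n → ZMod q),
      N < q ∧ IsPrimitiveRoot ζ ℓ ∧ IsArrangement (gpol (fun x => (v x : ZMod q))) ∧
      Nodes (F := ZMod q) (gpol (fun x => (v x : ZMod q))) nd' ∧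
      (∀ i j, i ≠ j →
        V.ν (gpol (fun x => (v x : ZMod q)) i - gpol (fun x => (v x : ZMod q)) j).leadingCoeff =
          ν₀ (algebraMap ℚ F (gpolQ v i - gpolQ v j).leadingCoeff)) ∧
      ∀ i j i' j' a a', i ≠ j → i' ≠ j' → nd i j a ≠ nd i' j' a' →
        V.ν (nd' i j a - nd' i' j' a') = ν₀ (nd i j a - nd i' j' a') := by
  have : Fact ℓ.Prime := ⟨hℓ⟩
  have : NeZero ℓ := ⟨hℓ.ne_zero⟩
  obtain ⟨E, ζ, U, hfin, hζ, hmem, hC1, hC2⟩ := exists_U_val (F := F) hℓ h (by omega) hN ν₀ hν₀
  have : FiniteDimensional ℚ E := hfin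
  have : NumberField E := @NumberField.of_module_finite ℚ E _ _ _ E.algebra' hfin
  have : Algebra.IsAlgebraic ℚ F := IsAlgClosure.isAlgebraic
  have : IsAlgClosure E F := ⟨IsAlgClosure.isAlgClosed ℚ, Algebra.IsAlgebraic.tower_top (K := ℚ) E⟩
  -- the leading coefficients
  have hlead : ∀ i j : ι, i ≠ j → (gpolQ v i - gpolQ v j).leadingCoeff =
      ((v (i, Fin.last n) - v (j, Fin.last n) : ℤ) : ℚ) := by
    intro i j hij
    have h1 := gdif_coeff (fun x => (v x : ℚ)) i j (Fin.last n)
    unfold gdif at h1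
    rw [Fin.val_last] at h1
    have h2 : (gpolQ v i - gpolQ v j).coeff n =
        (v (i, Fin.last n) : ℚ) - (v (j, Fin.last n) : ℚ) := h1
    rw [leadingCoeff, hN.lead i j hij, h2]
    push_cast
    rfl
  have hvne : ∀ i j : ι, i ≠ j → v (i, Fin.last n) - v (j, Fin.last n) ≠ 0 := by
    intro i j hij h0
    have h1 := hlead i j hij
    rw [h0, Int.cast_zero, leadingCoeff_eq_zero] at h1
    have h2 := hN.lead i j hij
    rw [h1, natDegree_zero] at h2
    omega
  -- the elements of `E`
  let nE : ι → ι → Fin n → E := fun i j a => if hij : i ≠ j then ⟨nd i j a, hmem i j hij a⟩ else 0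
  have hnE : ∀ i j (hij : i ≠ j) a, nE i j a = ⟨nd i j a, hmem i j hij a⟩ := by
    intro i j hij a
    exact dif_pos hij
  have hnE' : ∀ i j (_ : i ≠ j) a, algebraMap E F (nE i j a) = nd i j a := by
    intro i j hij a
    rw [hnE i j hij a]
    rfl
  let T : Finset E :=
    (Finset.univ.image fun t : ι × ι × Fin n => nE t.1 t.2.1 t.2.2) ∪
    (Finset.univ.image fun t : (ι × ι × Fin n) × (ι × ι × Fin n) =>
      nE t.1.1 t.1.2.1 t.1.2.2 - nE t.2.1 t.2.2.1 t.2.2.2) ∪
    (Finset.univ.image fun t : ι × ι => ((v (t.1, Fin.last n) - v (t.2, Fin.last n) : ℤ) : E))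
  have hT1 : ∀ i j a, nE i j a ∈ T := fun i j a =>
    Finset.mem_union_left _ (Finset.mem_union_left _
      (Finset.mem_image.2 ⟨(i, j, a), Finset.mem_univ _, rfl⟩))
  have hT2 : ∀ i j a i' j' a', nE i j a - nE i' j' a' ∈ T := fun i j a i' j' a' =>
    Finset.mem_union_left _ (Finset.mem_union_right _
      (Finset.mem_image.2 ⟨((i, j, a), (i', j', a')), Finset.mem_univ _, rfl⟩))
  have hT3 : ∀ i j, ((v (i, Fin.last n) - v (j, Fin.last n) : ℤ) : E) ∈ T := fun i j =>
    Finset.mem_union_right _ (Finset.mem_image.2 ⟨(i, j), Finset.mem_univ _, rfl⟩)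
  have hdne : ∀ i j i' j' (_ : i ≠ j) (_ : i' ≠ j') (a a' : Fin n),
      (({i, j} : Set ι) ≠ {i', j'} ∨ a ≠ a') → nE i j a - nE i' j' a' ≠ 0 := by
    intro i j i' j' hij hij' a a' hor h0
    have h1 : nE i j a = nE i' j' a' := sub_eq_zero.1 h0
    rw [hnE i j hij, hnE i' j' hij'] at h1
    have h2 : nd i j a = nd i' j' a' := congrArg Subtype.val h1
    obtain ⟨h3, h4⟩ := Nodes.ne h hN hij hij' h2
    rcases hor with h5 | h5
    · exact h5 h3
    · exact h5 h4
  -- the Kummer symbols
  have hk3 : ∀ i j, i ≠ j → Sup.kap ℓ (algebraMap E F ζ) U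
      (algebraMap E F ((v (i, Fin.last n) - v (j, Fin.last n) : ℤ) : E)) =
        ν₀ (algebraMap ℚ F (gpolQ v i - gpolQ v j).leadingCoeff) := by
    intro i j hij
    have h1 := hC1 i j hij
    have h2 : algebraMap E F ((v (i, Fin.last n) - v (j, Fin.last n) : ℤ) : E) =
        algebraMap ℚ F (gpolQ v i - gpolQ v j).leadingCoeff := by
      rw [hlead i j hij, map_intCast, map_intCast]
    rw [h2, h1]
  have hk2 : ∀ i j i' j' (_ : i ≠ j) (_ : i' ≠ j') (a a' : Fin n),
      algebraMap E F (nE i j a - nE i' j' a') = nd i j a - nd i' j' a' := by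
    intro i j i' j' hij hij' a a'
    rw [map_sub, hnE' i j hij, hnE' i' j' hij']
  have hfirst : ∃ z ∈ T, z ≠ 0 ∧ Sup.kap ℓ (algebraMap E F ζ) U
      (algebraMap E F z) ≠ 0 := by
    obtain ⟨i, j, hij, hb⟩ := h0
    refine ⟨_, hT3 i j, Int.cast_ne_zero.2 (hvne i j hij), ?_⟩
    rw [hk3 i j hij]
    exact hb
  obtain ⟨q, hq, A, Φ, c, hζA, hNq, hdvd, hc, hprim, hT⟩ :=
    Re.exists_reduction hℓ E F hζ U T hfirst N
  have hcop : Nat.Coprime c.val ℓ := by
    refine ((Nat.Prime.coprime_iff_not_dvd hℓ).2 ?_).symm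
    intro hd
    apply hc
    have h5 : c.val = 0 := Nat.eq_zero_of_dvd_of_lt hd (ZMod.val_lt c)
    exact (ZMod.val_eq_zero c).1 h5
  have hζ' : IsPrimitiveRoot ((Φ ⟨ζ, hζA⟩) ^ c.val) ℓ := hprim.pow_of_coprime c.val hcop
  obtain ⟨V, hV⟩ := Lr.exists_val_zmod hℓ hℓ2 hdvd hζ'
  have hval : ∀ z ∈ T, ∀ hz : z ∈ A, z ≠ 0 → Φ ⟨z, hz⟩ ≠ 0 ∧ V.ν (Φ ⟨z, hz⟩) =
      Sup.kap ℓ (algebraMap E F ζ) U (algebraMap E F z) := by
    intro z hzT hz hz0
    obtain ⟨hz', hrest⟩ := hT z hzT
    obtain ⟨h0, hpow⟩ := hrest hz0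
    refine ⟨h0, hV _ _ h0 ?_⟩
    rw [hpow, ZMod.val_mul, ← pow_mul]
    exact (pow_eq_pow_mod _ hprim.pow_eq_one).symm
  -- the subring of `F`
  have hinj : Function.Injective (algebraMap E F) :=
    (algebraMap E F).injective
  let e := A.equivMapOfInjective (algebraMap E F) hinj
  let A' : Subring F := A.map (algebraMap E F)
  let Φ' : A' →+* ZMod q := Φ.comp (e.symm : A' →+* A)
  have hmA : ∀ i j a, nE i j a ∈ A := fun i j a => (hT _ (hT1 i j a)).1
  have hA' : ∀ i j, i ≠ j → ∀ a, nd i j a ∈ A' := by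
    intro i j hij a
    exact Subring.mem_map.2 ⟨nE i j a, hmA i j a, hnE' i j hij a⟩
  have hΦ' : ∀ i j (hij : i ≠ j) a, Φ' ⟨nd i j a, hA' i j hij a⟩ = Φ ⟨nE i j a, hmA i j a⟩ := by
    intro i j hij a
    have h1 : e ⟨nE i j a, hmA i j a⟩ = ⟨nd i j a, hA' i j hij a⟩ :=
      Subtype.ext (hnE' i j hij a)
    show Φ (e.symm ⟨nd i j a, hA' i j hij a⟩) = _
    rw [← h1, RingEquiv.symm_apply_apply]
  have hsub : ∀ i j a i' j' a', ∃ hz : nE i j a - nE i' j' a' ∈ A,
      Φ ⟨nE i j a - nE i' j' a', hz⟩ = Φ ⟨nE i j a, hmA i j a⟩ - Φ ⟨nE i' j' a', hmA i' j' a'⟩ := by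
    intro i j a i' j' a'
    refine ⟨A.sub_mem (hmA i j a) (hmA i' j' a'), ?_⟩
    rw [← map_sub]
    rfl
  have hlc' : ∀ i j, ∃ hz : ((v (i, Fin.last n) - v (j, Fin.last n) : ℤ) : E) ∈ A,
      Φ ⟨((v (i, Fin.last n) - v (j, Fin.last n) : ℤ) : E), hz⟩ =
        ((v (i, Fin.last n) - v (j, Fin.last n) : ℤ) : ZMod q) := by
    intro i j
    obtain ⟨hz, -⟩ := hT _ (hT3 i j)
    refine ⟨hz, ?_⟩
    have h5 : (⟨((v (i, Fin.last n) - v (j, Fin.last n) : ℤ) : E), hz⟩ : A) =
        ((v (i, Fin.last n) - v (j, Fin.last n) : ℤ) : A) := Subtype.ext (by push_cast; rfl)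
    rw [h5, map_intCast]
  have hlc : ∀ i j, i ≠ j →
      ((v (i, Fin.last n) - v (j, Fin.last n) : ℤ) : ZMod q) ≠ 0 ∧
      V.ν ((v (i, Fin.last n) - v (j, Fin.last n) : ℤ) : ZMod q) =
        ν₀ (algebraMap ℚ F (gpolQ v i - gpolQ v j).leadingCoeff) := by
    intro i j hij
    obtain ⟨hz, he⟩ := hlc' i j
    obtain ⟨h0, h1⟩ := hval _ (hT3 i j) hz (Int.cast_ne_zero.2 (hvne i j hij))
    rw [he] at h0 h1
    exact ⟨h0, h1.trans (hk3 i j hij)⟩
  have hdif : ∀ i j i' j' (hij : i ≠ j) (hij' : i' ≠ j') (a a' : Fin n),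
      (({i, j} : Set ι) ≠ {i', j'} ∨ a ≠ a') →
        Φ' ⟨nd i j a, hA' i j hij a⟩ - Φ' ⟨nd i' j' a', hA' i' j' hij' a'⟩ ≠ 0 ∧
        V.ν (Φ' ⟨nd i j a, hA' i j hij a⟩ - Φ' ⟨nd i' j' a', hA' i' j' hij' a'⟩) =
          Sup.kap ℓ (algebraMap E F ζ) U (nd i j a - nd i' j' a') := by
    intro i j i' j' hij hij' a a' hor
    obtain ⟨hz, he⟩ := hsub i j a i' j' a'
    obtain ⟨h0, h1⟩ := hval _ (hT2 i j a i' j' a') hz (hdne i j i' j' hij hij' a a' hor)
    rw [he] at h0 h1
    rw [hΦ' i j hij a, hΦ' i' j' hij' a']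
    refine ⟨h0, h1.trans ?_⟩
    rw [hk2 i j i' j' hij hij' a a']
  have hd : ∀ i j i' j' (hij : i ≠ j) (hij' : i' ≠ j') (a a' : Fin n),
      (({i, j} : Set ι) ≠ {i', j'} ∨ a ≠ a') →
        Φ' ⟨nd i j a, hA' i j hij a⟩ ≠ Φ' ⟨nd i' j' a', hA' i' j' hij' a'⟩ := by
    intro i j i' j' hij hij' a a' hor
    exact sub_ne_zero.1 (hdif i j i' j' hij hij' a a' hor).1
  obtain ⟨hArr, hNod⟩ := nodes_reduction (by omega : 1 ≤ n) hN A' Φ' hA'
    (fun i j hij => (hlc i j hij).1) hd
  refine ⟨q, hq, (Φ ⟨ζ, hζA⟩) ^ c.val, V, _, hNq, hζ', hArr, hNod, ?_, ?_⟩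
  · intro i j hij
    have h1 : (gpol (fun x => (v x : ZMod q)) i - gpol (fun x => (v x : ZMod q)) j).leadingCoeff =
        ((v (i, Fin.last n) - v (j, Fin.last n) : ℤ) : ZMod q) := by
      have h2 := gdif_coeff (fun x => (v x : ZMod q)) i j (Fin.last n)
      unfold gdif at h2
      rw [Fin.val_last] at h2
      rw [leadingCoeff, hNod.lead i j hij, h2]
      push_cast
      rfl
    rw [h1]
    exact (hlc i j hij).2
  · intro i j i' j' a a' hij hij' hne
    rw [dif_neg hij, dif_neg hij']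
    refine (hdif i j i' j' hij hij' a a' ?_).2.trans (hC2 i j i' j' a a' hij hij' hne)
    by_contra hor
    push Not at hor
    obtain ⟨h3, h4⟩ := hor
    apply hne
    rw [h4]
    rcases Set.pair_eq_pair_iff.mp h3 with ⟨rfl, rfl⟩ | ⟨rfl, rfl⟩
    · rfl
    · exact hN.symm _ _ _

end Pool.Agent.Lib.MP_89bcae_ag

end
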