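import Mathlib
import Pool.Agent.Lib.MP_89bcae_ag.Bk.K059

section

/-!
# The number of the families of type K modulo `p ^ 2`
-/

open Polynomial

open scoped Classical

namespace Pool.Agent.Lib.MP_89bcae_ag

section

variable {ι : Type} {n : ℕ}

/-- The families of type K modulo `p ^ 2`. -/
def TypeKz (p : ℕ) (a b : ι) (w : ι × Fin (n + 1) → ZMod (p ^ 2)) : Prop :=
  GenK a b (redp p w) ∧ w (a, Fin.last n) ≠ w (b, Fin.last n)

/-- If `w` lifts a good family modulo `p` but is not of type K, then `w + p` at the leading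
coefficient of `α_a` is. -/
theorem TypeKz.flip {p : ℕ} (hp : p.Prime) {a b : ι} (hab : a ≠ b)
    (w : ι × Fin (n + 1) → ZMod (p ^ 2)) (h : GenK a b (redp p w)) (hw : ¬ TypeKz p a b w) :
    TypeKz p a b
      (Function.update w (a, Fin.last n) (w (a, Fin.last n) + (p : ZMod (p ^ 2)))) := by
  have h0 : w (a, Fin.last n) = w (b, Fin.last n) := by
    by_contra hne
    exact hw ⟨h, hne⟩
  refine ⟨?_, ?_⟩
  · rw [redp_update_h21]
    exact h
  · rw [Function.update_self, Function.update_of_ne (fun h => hab (congrArg Prod.fst h).symm), ← h0]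
    intro h1
    have h2 : (p : ZMod (p ^ 2)) = 0 := by
      have h3 : w (a, Fin.last n) + (p : ZMod (p ^ 2)) = w (a, Fin.last n) + 0 := by
        rw [h1, add_zero]
      exact add_left_cancel h3
    have h3 := Nat.le_of_dvd hp.pos ((ZMod.natCast_eq_zero_iff p (p ^ 2)).1 h2)
    have h4 := hp.two_le
    nlinarith

/-- From the residues modulo `p ^ 2` to the integers. -/
theorem TypeK.of_z {p : ℕ} {a b : ι} {v : ι × Fin (n + 1) → ℤ}
    (h : TypeKz p a b (fun c => (v c : ZMod (p ^ 2)))) : TypeK p a b v := by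
  obtain ⟨hy, hy2⟩ := h
  have hred : redp p (fun c => (v c : ZMod (p ^ 2))) = fun c => (v c : ZMod p) := by
    funext c
    exact map_intCast _ _
  rw [hred] at hy
  have hg : ∀ c d, gdif (fun c => (v c : ZMod p)) c d = gred p v c d := by
    intro c d
    exact (gdif_map (Int.castRingHom (ZMod p)) v c d).symm
  refine ⟨?_, ?_, ?_, ?_, ?_, ?_⟩
  · intro c d hcd hne hdvd
    apply hy.lead c d hcd hne
    have h1 := (ZMod.intCast_zmod_eq_zero_iff_dvd _ p).2 hdvd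
    rw [Int.cast_sub, sub_eq_zero] at h1
    exact h1
  · rw [← ZMod.intCast_zmod_eq_zero_iff_dvd, Int.cast_sub, sub_eq_zero]
    exact hy.eq
  · intro hdvd
    apply hy2
    have h1 : ((p ^ 2 : ℕ) : ℤ) ∣ v (a, Fin.last n) - v (b, Fin.last n) := by
      rw [Nat.cast_pow]
      exact hdvd
    rw [← ZMod.intCast_zmod_eq_zero_iff_dvd, Int.cast_sub, sub_eq_zero] at h1
    exact h1
  · rw [← hg]
    exact hy.deg
  · intro c d hcd
    rw [← hg]
    exact hy.sep c d hcd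
  · intro a' b' c d h1 h2 h3
    rw [← hg, ← hg]
    exact hy.cop a' b' c d h1 h2 h3

/-- The count (`count_scheme1`). -/
theorem count_typeK [Fintype ι] (hn : 2 ≤ n) {a b : ι} (hab : a ≠ b) :
    ∃ P₀ : ℕ, ∀ p : ℕ, p.Prime → P₀ ≤ p →
      (1 / 4 : ℝ) / p * ((p ^ 2 : ℕ) : ℝ) ^ Fintype.card (ι × Fin (n + 1)) ≤
        ({w : ι × Fin (n + 1) → ZMod (p ^ 2) | TypeKz p a b w}).ncard := by
  obtain ⟨Δ, hΔ, h0⟩ := isGeneric_genK (ι := ι) (n := n) hn hab
  refine count_scheme1 (colK a b) (b, Fin.last n) (a, Fin.last n) ?_ Δ hΔ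
    (fun p u => GenK a b u) ?_ (fun p => {w | TypeKz p a b w}) ?_
  · intro c hc
    exact colK_of_ne_h45 a b hc
  · intro p hp u hu
    have : Fact p.Prime := ⟨hp⟩
    exact h0 (ZMod p) u hu
  · intro p hp w hz hw
    have h := TypeKz.flip hp hab w hz hw
    have e : ∀ (d1 d2 : DecidableEq (ι × Fin (n + 1))),
        @Function.update _ _ d1 w (a, Fin.last n) (w (a, Fin.last n) + (p : ZMod (p ^ 2))) =
          @Function.update _ _ d2 w (a, Fin.last n) (w (a, Fin.last n) + (p : ZMod (p ^ 2))) :=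
      fun d1 d2 => by rw [Subsingleton.elim d1 d2]
    exact (e _ _) ▸ h

end

end Pool.Agent.Lib.MP_89bcae_ag

end

section

/-!
# Almost all families are good

As `prjDensity14` in LPrjA14.lean (copy the end of its proof): `density_crtB7` for every condition, with
`M p = p ^ 2` and proportions `(1 / 4) / p` for the types B and D (`sum_residue_unbounded14` with
`q = 1`), and with `M p = p` and constant proportions for the types I and L; then finite unions.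
-/

open Polynomial Filter Topology

open scoped Classical

namespace Pool.Agent.Lib.MP_89bcae_ag

variable {ι : Type} [Fintype ι] {n : ℕ}

/-- One condition of density one (for `P` a property of `v` and of a prime, with residue classes). -/
theorem density_prime (e : ι × Fin (n + 1) ≃ Fin (Fintype.card (ι × Fin (n + 1))))
    (M : ℕ → ℕ) (hM : ∀ p : ℕ, p.Prime → M p = p ∨ M p = p ^ 2)
    (D : ∀ p : ℕ, Set (ι × Fin (n + 1) → ZMod (M p))) (P₀ : ℕ) (c : ℝ) (hc : 0 < c)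
    (hD : ∀ p : ℕ, p.Prime → P₀ ≤ p →
      c / p * ((M p : ℕ) : ℝ) ^ Fintype.card (ι × Fin (n + 1)) ≤ (D p).ncard)
    (P : (ι × Fin (n + 1) → ℤ) → Prop)
    (hP : ∀ v, ∀ p : ℕ, p.Prime → (fun c => (v c : ZMod (M p))) ∈ D p → P v) :
    Tendsto (fun H : ℕ => ({a : Fin (Fintype.card (ι × Fin (n + 1))) → ℤ | (∀ i, |a i| ≤ H) ∧
      ¬ P (a ∘ e)}.ncard : ℝ) / (2 * H + 1) ^ Fintype.card (ι × Fin (n + 1))) atTop (𝓝 0) := by
  have hcopM : ∀ p ∈ {p : ℕ | p.Prime ∧ P₀ ≤ p}, ∀ q ∈ {p : ℕ | p.Prime ∧ P₀ ≤ p}, p ≠ q →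
      Nat.Coprime (M p) (M q) := by
    intro p hp q hq hpq
    have h1 : Nat.Coprime p q := (Nat.coprime_primes hp.1 hq.1).mpr hpq
    rcases hM p hp.1 with h2 | h2 <;> rcases hM q hq.1 with h3 | h3 <;> rw [h2, h3]
    · exact h1
    · exact Nat.Coprime.pow_right 2 h1
    · exact Nat.Coprime.pow_left 2 h1
    · exact Nat.Coprime.pow 2 2 h1
  refine density_crtB7 (Fintype.card (ι × Fin (n + 1))) M
    (fun p => {w | (fun x => w (e x)) ∈ D p}) (fun p => c / p)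
    {p : ℕ | p.Prime ∧ P₀ ≤ p} ?_ hcopM ?_ ?_ (fun a => P (a ∘ e)) ?_
  · intro p hp
    rcases hM p hp.1 with h2 | h2 <;> rw [h2]
    · exact hp.1.pos
    · exact pow_pos hp.1.pos 2
  · intro T
    obtain ⟨S, hS1, hS2⟩ := sum_primes_unbounded7 hc P₀ T
    exact ⟨S, hS1, hS2⟩
  · intro p hp
    have h1 : ({w : Fin (Fintype.card (ι × Fin (n + 1))) → ZMod (M p) |
        (fun x => w (e x)) ∈ D p}).ncard = (D p).ncard := by
      refine Set.ncard_congr (fun w _ x => w (e x)) (fun w hw => hw) ?_ ?_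
      · intro w w' _ _ h
        funext i
        have h2 := congrFun h (e.symm i)
        simpa using h2
      · intro u hu
        refine ⟨fun i => u (e.symm i), ?_, ?_⟩
        · show (fun x => u (e.symm (e x))) ∈ D p
          simpa using hu
        · funext x
          simp
    show c / p * ((M p : ℕ) : ℝ) ^ Fintype.card (ι × Fin (n + 1)) ≤ _
    rw [h1]
    exact hD p hp.1 hp.2
  · intro a p hp ha
    exact hP (a ∘ e) p hp.1 ha

/-- The box, as a set of functions on a finite type, has `(2 H + 1) ^ card` elements. -/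
theorem box_ncard_h15 {κ : Type} [Fintype κ] (H : ℕ) :
    ({v : κ → ℤ | ∀ i, |v i| ≤ H}).Finite ∧
      (({v : κ → ℤ | ∀ i, |v i| ≤ H}).ncard : ℝ) = (2 * H + 1) ^ Fintype.card κ := by
  have h1 : {v : κ → ℤ | ∀ i, |v i| ≤ H} =
      ((Fintype.piFinset fun _ : κ => Finset.Icc (-(H : ℤ)) H : Finset (κ → ℤ)) :
        Set (κ → ℤ)) := by
    ext v
    simp only [Set.mem_ofPred_eq, Finset.mem_coe, Fintype.mem_piFinset, Finset.mem_Icc, abs_le]
  rw [h1]
  refine ⟨Finset.finite_toSet _, ?_⟩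
  rw [Set.ncard_coe_finset, Fintype.card_piFinset]
  simp only [Int.card_Icc, Finset.prod_const, Finset.card_univ]
  have h2 : ((H : ℤ) + 1 - -(H : ℤ)).toNat = 2 * H + 1 := by omega
  rw [h2]
  push_cast
  rfl

/-- One condition, for the functions on `ι × Fin (n + 1)`. -/
theorem density_transfer_h15 (e : ι × Fin (n + 1) ≃ Fin (Fintype.card (ι × Fin (n + 1))))
    (P : (ι × Fin (n + 1) → ℤ) → Prop) (H : ℕ) :
    ({a : Fin (Fintype.card (ι × Fin (n + 1))) → ℤ | (∀ i, |a i| ≤ H) ∧ ¬ P (a ∘ e)}).ncard =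
      ({v : ι × Fin (n + 1) → ℤ | (∀ i, |v i| ≤ H) ∧ ¬ P v}).ncard := by
  have h1 : {v : ι × Fin (n + 1) → ℤ | (∀ i, |v i| ≤ H) ∧ ¬ P v} =
      (fun a : Fin (Fintype.card (ι × Fin (n + 1))) → ℤ => a ∘ e) ''
        {a | (∀ i, |a i| ≤ H) ∧ ¬ P (a ∘ e)} := by
    ext v
    simp only [Set.mem_ofPred_eq, Set.mem_image]
    constructor
    · rintro ⟨h2, h3⟩
      refine ⟨v ∘ e.symm, ⟨fun i => h2 _, ?_⟩, ?_⟩
      · have h4 : (v ∘ e.symm) ∘ e = v := by
          funext x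
          simp
        rw [h4]
        exact h3
      · funext x
        simp
    · rintro ⟨a, ⟨h2, h3⟩, rfl⟩
      exact ⟨fun i => h2 _, h3⟩
  rw [h1, Set.ncard_image_of_injective]
  intro a b hab
  funext i
  have h2 := congrFun hab (e.symm i)
  simpa using h2

/-- **Almost all families are good.** -/
theorem density_goodG (hn : 2 ≤ n) :
    Tendsto (fun H : ℕ => ({v : ι × Fin (n + 1) → ℤ | (∀ i, |v i| ≤ H) ∧ GoodG v}.ncard : ℝ) /
      (2 * H + 1) ^ Fintype.card (ι × Fin (n + 1))) atTop (𝓝 1) := by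
  let e : ι × Fin (n + 1) ≃ Fin (Fintype.card (ι × Fin (n + 1))) := Fintype.equivFin _
  -- the exceptional sets of one condition
  let Z : ((ι × Fin (n + 1) → ℤ) → Prop) → ℕ → ℝ := fun P H =>
    ({v : ι × Fin (n + 1) → ℤ | (∀ i, |v i| ≤ H) ∧ ¬ P v}.ncard : ℝ) /
      (2 * H + 1) ^ Fintype.card (ι × Fin (n + 1))
  have key : ∀ (M : ℕ → ℕ), (∀ p : ℕ, p.Prime → M p = p ∨ M p = p ^ 2) →
      ∀ (D : ∀ p : ℕ, Set (ι × Fin (n + 1) → ZMod (M p))) (P₀ : ℕ) (c : ℝ), 0 < c →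
      (∀ p : ℕ, p.Prime → P₀ ≤ p →
        c / p * ((M p : ℕ) : ℝ) ^ Fintype.card (ι × Fin (n + 1)) ≤ (D p).ncard) →
      ∀ P : (ι × Fin (n + 1) → ℤ) → Prop,
      (∀ v, ∀ p : ℕ, p.Prime → (fun c => (v c : ZMod (M p))) ∈ D p → P v) →
      Tendsto (Z P) atTop (𝓝 0) := by
    intro M hM D P₀ c hc hD P hP
    have h1 := density_prime e M hM D P₀ c hc hD P hP
    refine h1.congr fun H => ?_
    rw [density_transfer_h15 e P H]
  have hpos : ∀ p : ℕ, p.Prime → (1 : ℝ) ≤ p := fun p hp => by exact_mod_cast hp.one_lt.le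
  have hI : ∀ a b : ι, Tendsto (Z fun v => a ≠ b → ∃ p : ℕ, p.Prime ∧ TypeI p a b v)
      atTop (𝓝 0) := by
    intro a b
    by_cases hab : a = b
    · have h1 : ∀ H, Z (fun v => a ≠ b → ∃ p : ℕ, p.Prime ∧ TypeI p a b v) H = 0 := by
        intro H
        simp [Z, hab]
      exact tendsto_const_nhds.congr fun H => (h1 H).symm
    · obtain ⟨P₀, c, hc, h1⟩ := count_typeI (n := n) (by omega) hab
      refine key (fun p => p) (fun p _ => Or.inl rfl) (fun p => {w | TypeIz p a b w}) P₀ c hc ?_ _ ?_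
      · intro p hp hP
        refine le_trans ?_ (h1 p hp hP)
        have h2 := hpos p hp
        gcongr
        exact div_le_self hc.le h2
      · intro v p hp hv _
        exact ⟨p, hp, TypeI.of_z hv⟩
  have hL : ∀ a b : ι, Tendsto (Z fun v => a ≠ b → ∃ p : ℕ, p.Prime ∧ TypeL p a b v)
      atTop (𝓝 0) := by
    intro a b
    by_cases hab : a = b
    · have h1 : ∀ H, Z (fun v => a ≠ b → ∃ p : ℕ, p.Prime ∧ TypeL p a b v) H = 0 := by
        intro H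
        simp [Z, hab]
      exact tendsto_const_nhds.congr fun H => (h1 H).symm
    · obtain ⟨P₀, c, hc, h1⟩ := count_typeL hn hab
      refine key (fun p => p) (fun p _ => Or.inl rfl) (fun p => {w | TypeLz p a b w}) P₀ c hc ?_ _ ?_
      · intro p hp hP
        refine le_trans ?_ (h1 p hp hP)
        have h2 := hpos p hp
        gcongr
        exact div_le_self hc.le h2
      · intro v p hp hv _
        exact ⟨p, hp, TypeL.of_z hv⟩
  have hDD : ∀ a b : ι, Tendsto (Z fun v => a ≠ b → ∃ p : ℕ, p.Prime ∧ TypeD p a b v)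
      atTop (𝓝 0) := by
    intro a b
    by_cases hab : a = b
    · have h1 : ∀ H, Z (fun v => a ≠ b → ∃ p : ℕ, p.Prime ∧ TypeD p a b v) H = 0 := by
        intro H
        simp [Z, hab]
      exact tendsto_const_nhds.congr fun H => (h1 H).symm
    · obtain ⟨P₀, h1⟩ := count_typeD hn hab
      refine key (fun p => p ^ 2) (fun p _ => Or.inr rfl) (fun p => {w | TypeDz p a b w}) P₀ (1 / 4)
        (by norm_num) h1 _ ?_
      intro v p hp hv _
      exact ⟨p, hp, TypeD.of_z hp hv⟩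
  have hB : ∀ i j l : ι, Tendsto (Z fun v => i ≠ j → j ≠ l → i ≠ l →
      ∃ p : ℕ, p.Prime ∧ TypeB p i j l v) atTop (𝓝 0) := by
    intro i j l
    by_cases h : i ≠ j ∧ j ≠ l ∧ i ≠ l
    · obtain ⟨hij, hjl, hil⟩ := h
      obtain ⟨P₀, h1⟩ := count_typeB hn hij hjl hil
      refine key (fun p => p ^ 2) (fun p _ => Or.inr rfl) (fun p => {w | TypeBz p i j l w}) P₀
        (1 / 4) (by norm_num) h1 _ ?_
      intro v p hp hv _ _ _
      exact ⟨p, hp, TypeB.of_z hp hv⟩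
    · have h1 : ∀ H, Z (fun v => i ≠ j → j ≠ l → i ≠ l →
          ∃ p : ℕ, p.Prime ∧ TypeB p i j l v) H = 0 := by
        intro H
        have h2 : {v : ι × Fin (n + 1) → ℤ | (∀ i, |v i| ≤ H) ∧ ¬ (i ≠ j → j ≠ l → i ≠ l →
            ∃ p : ℕ, p.Prime ∧ TypeB p i j l v)} = ∅ := by
          ext v
          simp only [Set.mem_ofPred_eq, Set.mem_empty_iff_false, iff_false, not_and, not_not]
          intro _ h3 h4 h5
          exact absurd ⟨h3, h4, h5⟩ h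
        simp only [Z, h2, Set.ncard_empty, Nat.cast_zero, zero_div]
      exact tendsto_const_nhds.congr fun H => (h1 H).symm
  -- the exceptional set
  have hbad : Tendsto (Z GoodG) atTop (𝓝 0) := by
    have hsum : Tendsto (fun H => (∑ x : ι × ι, Z (fun v => x.1 ≠ x.2 →
          ∃ p : ℕ, p.Prime ∧ TypeI p x.1 x.2 v) H) + (∑ x : ι × ι, Z (fun v => x.1 ≠ x.2 →
          ∃ p : ℕ, p.Prime ∧ TypeL p x.1 x.2 v) H) + (∑ x : ι × ι, Z (fun v => x.1 ≠ x.2 →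
          ∃ p : ℕ, p.Prime ∧ TypeD p x.1 x.2 v) H) + ∑ x : ι × ι × ι, Z (fun v => x.1 ≠ x.2.1 →
          x.2.1 ≠ x.2.2 → x.1 ≠ x.2.2 → ∃ p : ℕ, p.Prime ∧ TypeB p x.1 x.2.1 x.2.2 v) H)
        atTop (𝓝 0) := by
      have h1 := ((((tendsto_finsetSum Finset.univ fun (x : ι × ι) _ => hI x.1 x.2).add
        (tendsto_finsetSum Finset.univ fun (x : ι × ι) _ => hL x.1 x.2)).add
        (tendsto_finsetSum Finset.univ fun (x : ι × ι) _ => hDD x.1 x.2)).add
        (tendsto_finsetSum Finset.univ fun (x : ι × ι × ι) _ => hB x.1 x.2.1 x.2.2))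
      simpa using h1
    refine squeeze_zero (fun H => by positivity) (fun H => ?_) hsum
    have hfin : ∀ P : (ι × Fin (n + 1) → ℤ) → Prop,
        ({v : ι × Fin (n + 1) → ℤ | (∀ i, |v i| ≤ H) ∧ ¬ P v}).Finite := fun P =>
      (box_ncard_h15 H).1.subset fun v hv => hv.1
    have hsub : {v : ι × Fin (n + 1) → ℤ | (∀ i, |v i| ≤ H) ∧ ¬ GoodG v} ⊆
        (⋃ x ∈ (Finset.univ : Finset (ι × ι)), {v : ι × Fin (n + 1) → ℤ | (∀ i, |v i| ≤ H) ∧
          ¬ (x.1 ≠ x.2 → ∃ p : ℕ, p.Prime ∧ TypeI p x.1 x.2 v)}) ∪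
        (⋃ x ∈ (Finset.univ : Finset (ι × ι)), {v : ι × Fin (n + 1) → ℤ | (∀ i, |v i| ≤ H) ∧
          ¬ (x.1 ≠ x.2 → ∃ p : ℕ, p.Prime ∧ TypeL p x.1 x.2 v)}) ∪
        (⋃ x ∈ (Finset.univ : Finset (ι × ι)), {v : ι × Fin (n + 1) → ℤ | (∀ i, |v i| ≤ H) ∧
          ¬ (x.1 ≠ x.2 → ∃ p : ℕ, p.Prime ∧ TypeD p x.1 x.2 v)}) ∪
        (⋃ x ∈ (Finset.univ : Finset (ι × ι × ι)), {v : ι × Fin (n + 1) → ℤ |
          (∀ i, |v i| ≤ H) ∧ ¬ (x.1 ≠ x.2.1 → x.2.1 ≠ x.2.2 → x.1 ≠ x.2.2 →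
            ∃ p : ℕ, p.Prime ∧ TypeB p x.1 x.2.1 x.2.2 v)}) := by
      rintro v ⟨hv1, hv2⟩
      by_contra hcon
      apply hv2
      simp only [Set.mem_union, Set.mem_iUnion, Finset.mem_univ, exists_prop, true_and,
        Set.mem_ofPred_eq, not_or, not_exists, not_and, not_not] at hcon
      obtain ⟨⟨⟨h1, h2⟩, h3⟩, h4⟩ := hcon
      exact ⟨fun a b hab => h1 (a, b) hv1 hab, fun a b hab => h2 (a, b) hv1 hab,
        fun a b hab => h3 (a, b) hv1 hab, fun i j l hij hjl hil => h4 (i, j, l) hv1 hij hjl hil⟩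
    have hfinU : ∀ {κ : Type} [Fintype κ] (P : κ → (ι × Fin (n + 1) → ℤ) → Prop),
        (⋃ x ∈ (Finset.univ : Finset κ), {v : ι × Fin (n + 1) → ℤ | (∀ i, |v i| ≤ H) ∧
          ¬ P x v}).Finite := fun P => Finset.univ.finite_toSet.biUnion fun x _ => hfin (P x)
    have hcardU : ∀ {κ : Type} [Fintype κ] (P : κ → (ι × Fin (n + 1) → ℤ) → Prop),
        ((⋃ x ∈ (Finset.univ : Finset κ), {v : ι × Fin (n + 1) → ℤ | (∀ i, |v i| ≤ H) ∧
          ¬ P x v}).ncard : ℝ) ≤ ∑ x : κ, (({v : ι × Fin (n + 1) → ℤ | (∀ i, |v i| ≤ H) ∧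
          ¬ P x v}).ncard : ℝ) := by
      intro κ _ P
      exact_mod_cast Finset.set_ncard_biUnion_le _ _
    have hdiv : ∀ {κ : Type} [Fintype κ] (P : κ → (ι × Fin (n + 1) → ℤ) → Prop),
        ∑ x : κ, Z (P x) H = (∑ x : κ, (({v : ι × Fin (n + 1) → ℤ | (∀ i, |v i| ≤ H) ∧
          ¬ P x v}).ncard : ℝ)) / (2 * H + 1) ^ Fintype.card (ι × Fin (n + 1)) := by
      intro κ _ P
      rw [Finset.sum_div]
    rw [hdiv (fun (x : ι × ι) v => x.1 ≠ x.2 → ∃ p : ℕ, p.Prime ∧ TypeI p x.1 x.2 v),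
      hdiv (fun (x : ι × ι) v => x.1 ≠ x.2 → ∃ p : ℕ, p.Prime ∧ TypeL p x.1 x.2 v),
      hdiv (fun (x : ι × ι) v => x.1 ≠ x.2 → ∃ p : ℕ, p.Prime ∧ TypeD p x.1 x.2 v),
      hdiv (fun (x : ι × ι × ι) v => x.1 ≠ x.2.1 → x.2.1 ≠ x.2.2 → x.1 ≠ x.2.2 →
        ∃ p : ℕ, p.Prime ∧ TypeB p x.1 x.2.1 x.2.2 v), ← add_div, ← add_div, ← add_div]
    refine div_le_div_of_nonneg_right ?_ (by positivity)
    have h5 := Set.ncard_le_ncard hsub (((((hfinU _).union (hfinU _)).union (hfinU _)).union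
      (hfinU fun (x : ι × ι × ι) v => x.1 ≠ x.2.1 → x.2.1 ≠ x.2.2 → x.1 ≠ x.2.2 →
        ∃ p : ℕ, p.Prime ∧ TypeB p x.1 x.2.1 x.2.2 v)))
    have h6 : ∀ A B C D : Set (ι × Fin (n + 1) → ℤ), (A ∪ B ∪ C ∪ D).ncard ≤
        A.ncard + B.ncard + C.ncard + D.ncard := by
      intro A B C D
      have := Set.ncard_union_le (A ∪ B ∪ C) D
      have := Set.ncard_union_le (A ∪ B) C
      have := Set.ncard_union_le A B
      omega
    have h7 : (({v : ι × Fin (n + 1) → ℤ | (∀ i, |v i| ≤ H) ∧ ¬ GoodG v}.ncard : ℕ) : ℝ) ≤ _ :=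
      Nat.cast_le.2 (h5.trans (h6 _ _ _ _))
    refine h7.trans ?_
    push_cast
    gcongr
    · exact hcardU (fun (x : ι × ι) v => x.1 ≠ x.2 → ∃ p : ℕ, p.Prime ∧ TypeI p x.1 x.2 v)
    · exact hcardU (fun (x : ι × ι) v => x.1 ≠ x.2 → ∃ p : ℕ, p.Prime ∧ TypeL p x.1 x.2 v)
    · exact hcardU (fun (x : ι × ι) v => x.1 ≠ x.2 → ∃ p : ℕ, p.Prime ∧ TypeD p x.1 x.2 v)
    · exact hcardU (fun (x : ι × ι × ι) v => x.1 ≠ x.2.1 → x.2.1 ≠ x.2.2 → x.1 ≠ x.2.2 →
        ∃ p : ℕ, p.Prime ∧ TypeB p x.1 x.2.1 x.2.2 v)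
  have hfinal : ∀ H : ℕ, ({v : ι × Fin (n + 1) → ℤ | (∀ i, |v i| ≤ H) ∧ GoodG v}.ncard : ℝ) /
      (2 * H + 1) ^ Fintype.card (ι × Fin (n + 1)) = 1 - Z GoodG H := by
    intro H
    obtain ⟨h1, h2⟩ := box_ncard_h15 (κ := ι × Fin (n + 1)) H
    have h3 : {v : ι × Fin (n + 1) → ℤ | ∀ i, |v i| ≤ H} =
        {v : ι × Fin (n + 1) → ℤ | (∀ i, |v i| ≤ H) ∧ GoodG v} ∪
        {v : ι × Fin (n + 1) → ℤ | (∀ i, |v i| ≤ H) ∧ ¬ GoodG v} := by
      ext v
      simp only [Set.mem_ofPred_eq, Set.mem_union]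
      tauto
    have h4 : Disjoint {v : ι × Fin (n + 1) → ℤ | (∀ i, |v i| ≤ H) ∧ GoodG v}
        {v : ι × Fin (n + 1) → ℤ | (∀ i, |v i| ≤ H) ∧ ¬ GoodG v} := by
      rw [Set.disjoint_left]
      rintro v ⟨_, h5⟩ ⟨_, h6⟩
      exact h6 h5
    have h5 := Set.ncard_union_eq h4 (h1.subset fun v hv => hv.1) (h1.subset fun v hv => hv.1)
    rw [← h3] at h5
    have h6 : (({v : ι × Fin (n + 1) → ℤ | ∀ i, |v i| ≤ H}).ncard : ℝ) =
        ({v : ι × Fin (n + 1) → ℤ | (∀ i, |v i| ≤ H) ∧ GoodG v}.ncard : ℝ) +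
        ({v : ι × Fin (n + 1) → ℤ | (∀ i, |v i| ≤ H) ∧ ¬ GoodG v}.ncard : ℝ) := by
      exact_mod_cast h5
    rw [h2] at h6
    have h7 : (0 : ℝ) < (2 * H + 1) ^ Fintype.card (ι × Fin (n + 1)) := by positivity
    simp only [Z]
    rw [eq_sub_iff_add_eq, ← add_div, ← h6, div_self h7.ne']
  simp_rw [hfinal]
  have h8 := hbad.const_sub 1
  rwa [sub_zero] at h8

end Pool.Agent.Lib.MP_89bcae_ag

end

section

/-!
# Almost all families satisfy the conditions at the primes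
-/

open Polynomial Filter Topology

open scoped Classical

namespace Pool.Agent.Lib.MP_89bcae_ag

variable {ι : Type} [Fintype ι] {n : ℕ}

/-- The condition `P` has density one. -/
def Dens1_h45 (P : (ι × Fin (n + 1) → ℤ) → Prop) : Prop :=
  Tendsto (fun H : ℕ => ({v : ι × Fin (n + 1) → ℤ | (∀ i, |v i| ≤ H) ∧ ¬ P v}.ncard : ℝ) /
    (2 * H + 1) ^ Fintype.card (ι × Fin (n + 1))) atTop (𝓝 0)

lemma compl_h45 (P : (ι × Fin (n + 1) → ℤ) → Prop) (H : ℕ) :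
    ({v : ι × Fin (n + 1) → ℤ | (∀ i, |v i| ≤ H) ∧ P v}.ncard : ℝ) /
        (2 * H + 1) ^ Fintype.card (ι × Fin (n + 1)) =
      1 - ({v : ι × Fin (n + 1) → ℤ | (∀ i, |v i| ≤ H) ∧ ¬ P v}.ncard : ℝ) /
        (2 * H + 1) ^ Fintype.card (ι × Fin (n + 1)) := by
  obtain ⟨h1, h2⟩ := box_ncard_h15 (κ := ι × Fin (n + 1)) H
  have h3 : {v : ι × Fin (n + 1) → ℤ | ∀ i, |v i| ≤ H} =
      {v : ι × Fin (n + 1) → ℤ | (∀ i, |v i| ≤ H) ∧ P v} ∪
      {v : ι × Fin (n + 1) → ℤ | (∀ i, |v i| ≤ H) ∧ ¬ P v} := by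
    ext v
    simp only [Set.mem_ofPred_eq, Set.mem_union]
    tauto
  have h4 : Disjoint {v : ι × Fin (n + 1) → ℤ | (∀ i, |v i| ≤ H) ∧ P v}
      {v : ι × Fin (n + 1) → ℤ | (∀ i, |v i| ≤ H) ∧ ¬ P v} := by
    rw [Set.disjoint_left]
    rintro v ⟨_, h5⟩ ⟨_, h6⟩
    exact h6 h5
  have h5 := Set.ncard_union_eq h4 (h1.subset fun v hv => hv.1) (h1.subset fun v hv => hv.1)
  rw [← h3] at h5
  have h6 : (({v : ι × Fin (n + 1) → ℤ | ∀ i, |v i| ≤ H}).ncard : ℝ) =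
      ({v : ι × Fin (n + 1) → ℤ | (∀ i, |v i| ≤ H) ∧ P v}.ncard : ℝ) +
      ({v : ι × Fin (n + 1) → ℤ | (∀ i, |v i| ≤ H) ∧ ¬ P v}.ncard : ℝ) := by
    exact_mod_cast h5
  rw [h2] at h6
  have h7 : (0 : ℝ) < (2 * H + 1) ^ Fintype.card (ι × Fin (n + 1)) := by positivity
  rw [eq_sub_iff_add_eq, ← add_div, ← h6, div_self h7.ne']

lemma dens1_iff_h45 (P : (ι × Fin (n + 1) → ℤ) → Prop) : Dens1_h45 P ↔
    Tendsto (fun H : ℕ => ({v : ι × Fin (n + 1) → ℤ | (∀ i, |v i| ≤ H) ∧ P v}.ncard : ℝ) /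
      (2 * H + 1) ^ Fintype.card (ι × Fin (n + 1))) atTop (𝓝 1) := by
  unfold Dens1_h45
  constructor
  · intro h
    have h1 := h.const_sub 1
    rw [sub_zero] at h1
    exact h1.congr fun H => (compl_h45 P H).symm
  · intro h
    have h1 := h.const_sub 1
    rw [sub_self] at h1
    refine h1.congr fun H => ?_
    rw [compl_h45 P H, sub_sub_cancel]

lemma Dens1_h45.and {P Q : (ι × Fin (n + 1) → ℤ) → Prop} (hP : Dens1_h45 P) (hQ : Dens1_h45 Q) :
    Dens1_h45 (fun v => P v ∧ Q v) := by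
  have h1 := hP.add hQ
  rw [add_zero] at h1
  refine squeeze_zero (fun H => by positivity) (fun H => ?_) h1
  rw [← add_div]
  refine div_le_div_of_nonneg_right ?_ (by positivity)
  have hfin : ∀ P : (ι × Fin (n + 1) → ℤ) → Prop,
      ({v : ι × Fin (n + 1) → ℤ | (∀ i, |v i| ≤ H) ∧ ¬ P v}).Finite := fun P =>
    (box_ncard_h15 H).1.subset fun v hv => hv.1
  have h2 : {v : ι × Fin (n + 1) → ℤ | (∀ i, |v i| ≤ H) ∧ ¬ (P v ∧ Q v)} ⊆
      {v : ι × Fin (n + 1) → ℤ | (∀ i, |v i| ≤ H) ∧ ¬ P v} ∪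
      {v : ι × Fin (n + 1) → ℤ | (∀ i, |v i| ≤ H) ∧ ¬ Q v} := by
    rintro v ⟨h3, h4⟩
    by_cases h5 : P v
    · exact Or.inr ⟨h3, fun h6 => h4 ⟨h5, h6⟩⟩
    · exact Or.inl ⟨h3, h5⟩
  exact_mod_cast (Set.ncard_le_ncard h2 ((hfin P).union (hfin Q))).trans (Set.ncard_union_le _ _)

lemma Dens1_h45.true : Dens1_h45 (fun _ : ι × Fin (n + 1) → ℤ => True) := by
  have h : ∀ H : ℕ, ({v : ι × Fin (n + 1) → ℤ | (∀ i, |v i| ≤ H) ∧ ¬ True}.ncard : ℝ) /
      (2 * H + 1) ^ Fintype.card (ι × Fin (n + 1)) = 0 := by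
    intro H
    simp
  unfold Dens1_h45
  simp_rw [h]
  exact tendsto_const_nhds

lemma Dens1_h45.mono {P Q : (ι × Fin (n + 1) → ℤ) → Prop} (hP : Dens1_h45 P)
    (h : ∀ v, P v → Q v) : Dens1_h45 Q := by
  refine squeeze_zero (fun H => by positivity) (fun H => ?_) hP
  refine div_le_div_of_nonneg_right ?_ (by positivity)
  have h2 : {v : ι × Fin (n + 1) → ℤ | (∀ i, |v i| ≤ H) ∧ ¬ Q v} ⊆
      {v : ι × Fin (n + 1) → ℤ | (∀ i, |v i| ≤ H) ∧ ¬ P v} :=
    fun v hv => ⟨hv.1, fun h1 => hv.2 (h v h1)⟩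
  exact_mod_cast Set.ncard_le_ncard h2 ((box_ncard_h15 H).1.subset fun v hv => hv.1)

lemma Dens1_h45.all {T : Type} [Finite T] {P : T → (ι × Fin (n + 1) → ℤ) → Prop}
    (h : ∀ t, Dens1_h45 (P t)) : Dens1_h45 (fun v => ∀ t, P t v) := by
  have := Fintype.ofFinite T
  have key : ∀ S : Finset T, Dens1_h45 (fun v => ∀ t ∈ S, P t v) := by
    intro S
    induction S using Finset.induction_on with
    | empty => exact Dens1_h45.true.mono fun v _ t ht => absurd ht (Finset.notMem_empty t)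
    | insert a S ha ih =>
      refine ((h a).and ih).mono fun v hv t ht => ?_
      rcases Finset.mem_insert.1 ht with rfl | ht
      · exact hv.1
      · exact hv.2 t ht
  exact (key Finset.univ).mono fun v hv t => hv t (Finset.mem_univ t)

/-- One condition at the primes modulo `p ^ 2`. -/
lemma dens1_of_count_h45 (D : ∀ p : ℕ, Set (ι × Fin (n + 1) → ZMod (p ^ 2))) (P₀ : ℕ)
    (hD : ∀ p : ℕ, p.Prime → P₀ ≤ p →
      (1 / 4 : ℝ) / p * ((p ^ 2 : ℕ) : ℝ) ^ Fintype.card (ι × Fin (n + 1)) ≤ (D p).ncard)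
    (P : (ι × Fin (n + 1) → ℤ) → Prop)
    (hP : ∀ v, ∀ p : ℕ, p.Prime → P₀ ≤ p → (fun c => (v c : ZMod (p ^ 2))) ∈ D p → P v) :
    Dens1_h45 P := by
  let e : ι × Fin (n + 1) ≃ Fin (Fintype.card (ι × Fin (n + 1))) := Fintype.equivFin _
  have h1 := density_prime e (fun p => p ^ 2) (fun p _ => Or.inr rfl)
    (fun p => {w | w ∈ D p ∧ P₀ ≤ p}) P₀ (1 / 4) (by norm_num) (fun p hp hpP => by
      have h2 : {w | w ∈ D p ∧ P₀ ≤ p} = D p := by
        ext w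
        exact ⟨fun h => h.1, fun h => ⟨h, hpP⟩⟩
      change _ ≤ (({w | w ∈ D p ∧ P₀ ≤ p} : Set (ι × Fin (n + 1) → ZMod (p ^ 2))).ncard : ℝ)
      rw [h2]
      exact hD p hp hpP) P (fun v p hp hv => hP v p hp hv.2 hv.1)
  refine h1.congr fun H => ?_
  rw [density_transfer_h15 e P H]

/-- **Almost all families satisfy all the conditions.** -/
theorem density_goodH (hn : 2 ≤ n) :
    Tendsto (fun H : ℕ => ({v : ι × Fin (n + 1) → ℤ | (∀ i, |v i| ≤ H) ∧ GoodH v}.ncard : ℝ) /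
      (2 * H + 1) ^ Fintype.card (ι × Fin (n + 1))) atTop (𝓝 1) := by
  rw [← dens1_iff_h45]
  have h1 : Dens1_h45 (GoodG (ι := ι) (n := n)) := (dens1_iff_h45 _).2 (density_goodG hn)
  have h2 : Dens1_h45 (fun v : ι × Fin (n + 1) → ℤ => ∀ t : ι × ι, t.1 ≠ t.2 →
      ∃ p : ℕ, p.Prime ∧ p ≠ 2 ∧ TypeD p t.1 t.2 v) := by
    apply Dens1_h45.all
    rintro ⟨a, b⟩
    by_cases hab : a = b
    · exact Dens1_h45.true.mono fun v _ h => absurd hab h
    · obtain ⟨P₀, h⟩ := count_typeD (ι := ι) (n := n) hn hab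
      refine (dens1_of_count_h45 (fun p => {w | TypeDz p a b w}) (max P₀ 3)
        (fun p hp hpP => h p hp ((le_max_left _ _).trans hpP)) (fun v => ∃ p : ℕ, p.Prime ∧ p ≠ 2 ∧
          TypeD p a b v) (fun v p hp hpP hv => ⟨p, hp, ?_, TypeD.of_z hp hv⟩)).mono
          fun v hv _ => hv
      have := (le_max_right _ _).trans hpP
      omega
  have h3 : Dens1_h45 (fun v : ι × Fin (n + 1) → ℤ => ∀ t : ι × ι, t.1 ≠ t.2 →
      ∃ p : ℕ, p.Prime ∧ TypeK p t.1 t.2 v) := by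
    apply Dens1_h45.all
    rintro ⟨a, b⟩
    by_cases hab : a = b
    · exact Dens1_h45.true.mono fun v _ h => absurd hab h
    · obtain ⟨P₀, h⟩ := count_typeK (ι := ι) (n := n) hn hab
      exact (dens1_of_count_h45 (fun p => {w | TypeKz p a b w}) P₀ h (fun v => ∃ p : ℕ, p.Prime ∧
          TypeK p a b v) (fun v p hp hpP hv => ⟨p, hp, TypeK.of_z hv⟩)).mono fun v hv _ => hv
  refine ((h1.and h2).and h3).mono fun v hv => ?_
  exact ⟨hv.1.1, fun a b hab => hv.1.2 (a, b) hab, fun a b hab => hv.2 (a, b) hab⟩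

end Pool.Agent.Lib.MP_89bcae_ag

end
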