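import Mathlib
import Pool.Agent.Lib.MP_89bcae_ag.Bk.K043
import Pool.Agent.Lib.MP_89bcae_ag.Bk.K059
import Pool.Agent.Lib.MP_89bcae_ag.DefsS8

namespace Pool.Agent.Lib.MP_89bcae_ag.Superelliptic
end Pool.Agent.Lib.MP_89bcae_ag.Superelliptic

section

/-!
# The criterion when all the nodes are rational
-/

open Polynomial

open scoped Classical

namespace Pool.Agent.Lib.MP_89bcae_ag

open Superelliptic

variable {k : Type} [Field k] {ι : Type} [Fintype ι] [LinearOrder ι] {n : ℕ}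

/-- **The criterion, nodes in `k`.** (As `indepW_of_copyV_base`, `Gr/E09.lean`.) -/
theorem indepW_of_copyW_base {ℓ : ℕ} (hℓ : ℓ.Prime) (V : Val14 k ℓ) (α : ι → k[X])
    (hα : IsArrangement α) (W : ι → ℕ) (hW : ∀ i, (W i).Coprime ℓ)
    (nd : ι → ι → Fin n → k) (hN : Nodes (F := k) α nd) (β : Finset ι → ZMod ℓ)
    (c : Fin n → Finset ι → ZMod ℓ) (δ : Finset ι → Fin n → Fin n → ZMod ℓ)
    (h : CopyW V.ν α nd β c δ) (hG : GoodW (fun i => (W i : ZMod ℓ)) β c δ)
    (F : Type) [Field F] [Algebra k F] :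
    ArrangementIndependentW ℓ k F W α := by
  have hinj : Function.Injective (algebraMap k F) := (algebraMap k F).injective
  have hinv : ∀ x : k, Function.invFun (algebraMap k F) (algebraMap k F x) = x :=
    Function.leftInverse_invFun hinj
  have hN' : Nodes (F := F) α fun i j a => algebraMap k F (nd i j a) := by
    refine ⟨fun i j a => congrArg _ (hN.symm i j a), fun i j hij => hinj.comp (hN.inj i j hij), ?_, hN.lead⟩
    intro i j hij s
    have hne : α i ≠ α j := by
      intro he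
      apply hα.natDegree_ne_zero i j hij
      rw [he, sub_self, natDegree_zero]
    constructor
    · intro hs
      have h1 := hN.prod_eq hij hne
      rw [Algebra.algebraMap_self, Polynomial.map_id, RingHom.id_apply] at h1
      have h2 := congrArg (aeval s) h1
      rw [map_sub, hs, sub_self, map_mul, aeval_C, map_prod] at h2
      rcases mul_eq_zero.1 h2.symm with h3 | h3
      · rw [map_eq_zero_iff _ hinj, leadingCoeff_eq_zero, sub_eq_zero] at h3
        exact absurd h3 hne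
      · obtain ⟨a, -, ha⟩ := Finset.prod_eq_zero_iff.1 h3
        rw [map_sub, aeval_X, aeval_C, sub_eq_zero] at ha
        exact ⟨a, ha.symm⟩
    · rintro ⟨a, rfl⟩
      have h1 : aeval (nd i j a) (α i) = aeval (nd i j a) (α j) := (hN.mem i j hij _).2 ⟨a, rfl⟩
      rw [aeval_algebraMap_apply, aeval_algebraMap_apply, h1]
  have hbot : ∀ x ∈ (IntermediateField.adjoin k (nodes k F α)).toSubfield, ∃ y : k, algebraMap k F y = x := by
    have hb : IntermediateField.adjoin k (nodes k F α) = ⊥ := by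
      rw [IntermediateField.adjoin_eq_bot_iff]
      rintro s ⟨i, j, hij, hs⟩
      obtain ⟨a, rfl⟩ := (hN'.mem i j hij s).1 hs
      exact IntermediateField.mem_bot.2 ⟨_, rfl⟩
    intro x hx
    rw [hb] at hx
    exact IntermediateField.mem_bot.1 hx
  have hν : IsVal (IntermediateField.adjoin k (nodes k F α)).toSubfield
      fun x : F => V.ν (Function.invFun (algebraMap k F) x) := by
    constructor
    · intro x hx y hy hx0 hy0
      obtain ⟨x', rfl⟩ := hbot x hx
      obtain ⟨y', rfl⟩ := hbot y hy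
      rw [← map_mul, hinv, hinv, hinv]
      exact V.mul _ _ (fun h0 => hx0 (by rw [h0, map_zero])) fun h0 => hy0 (by rw [h0, map_zero])
    · show V.ν (Function.invFun (algebraMap k F) (-1)) = 0
      rw [← map_one (algebraMap k F), ← map_neg, hinv]
      exact V.neg_one
  refine indepW_of_copyW hℓ α hα W hW _ hν _ hN' β c δ ⟨?_, ?_, ?_⟩ hG
  · intro i j hij
    have h1 := h.lead i j hij
    rw [Algebra.algebraMap_self, RingHom.id_apply] at h1
    show V.ν (Function.invFun (algebraMap k F) (algebraMap k F _)) = _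
    rw [hinv, h1]
  · intro i j hij a b hab
    show V.ν (Function.invFun (algebraMap k F) (algebraMap k F _ - algebraMap k F _)) = _
    rw [← map_sub, hinv]
    exact h.par i j hij a b hab
  · intro i j l hij hjl hil a b
    show V.ν (Function.invFun (algebraMap k F) (algebraMap k F _ - algebraMap k F _)) = _
    rw [← map_sub, hinv]
    exact h.adj i j l hij hjl hil a b

end Pool.Agent.Lib.MP_89bcae_ag

end

section

/-!
# Finite fields without Tate classes
-/

open Polynomial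

open scoped Classical

set_option linter.unusedSectionVars false

set_option linter.style.haveILetI false

namespace Pool.Agent.Lib.MP_89bcae_ag

open Superelliptic

variable {ι : Type} {n : ℕ}

/-- Restriction to a set of indices. (`GoodG.restrict` and the same for the types D and K; `gred` of the
restriction is `gred` by definition; `coe_pair_ne_h30`.) -/
theorem GoodH.restrict {v : ι × Fin (n + 1) → ℤ} (h : GoodH v) (I : Finset ι) :
    GoodH (fun x : I × Fin (n + 1) => v (x.1, x.2)) := by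
  have hc : ∀ {a b : I}, a ≠ b → (a : ι) ≠ (b : ι) := fun hab hcon => hab (Subtype.ext hcon)
  refine ⟨h.good.restrict I, ?_, ?_⟩
  · intro a b hab
    obtain ⟨p, hp, hp2, hD⟩ := h.typeD a b (hc hab)
    refine ⟨p, hp, hp2, ⟨?_, ?_, ?_, hD.dbl⟩⟩
    · intro c d hcd
      exact hD.lead c d (hc hcd)
    · intro c d hcd hne
      exact hD.sep c d (hc hcd) (coe_pair_ne_h30 hne)
    · intro a' b' c d hab' hcd hne
      exact hD.cop a' b' c d (hc hab') (hc hcd) (coe_pair_ne_h30 hne)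
  · intro a b hab
    obtain ⟨p, hp, hK⟩ := h.typeK a b (hc hab)
    refine ⟨p, hp, ⟨?_, hK.dvd, hK.ndvd, hK.deg, ?_, ?_⟩⟩
    · intro c d hcd hne
      exact hK.lead c d (hc hcd) (coe_pair_ne_h30 hne)
    · intro c d hcd
      exact hK.sep c d (hc hcd)
    · intro a' b' c d hab' hcd hne
      exact hK.cop a' b' c d (hc hab') (hc hcd) (coe_pair_ne_h30 hne)

variable [Fintype ι] [LinearOrder ι]

/-- **Finite fields without Tate classes.** Proof: let `v' x = v (x.1, x.2)` on `I × Fin (n + 1)`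
(`GoodH.restrict`). `Lr.exists_good` for the type `I`, `S = Finset.univ` and the weights `W` gives `c, g` with
`GoodT` and `GoodR`; put `B T = c T - ∑ i ∈ T, g i`; `Lr.GoodT.exists_ne_gauge` gives `hB`;
`exists_prime_graphs` for `v'`, `B` and the bound `max N ℓ` gives `q, ζ, V, nd`. The family
`Graph.polyFamily (ZMod q) v i` (`i : I`) is `gpol (fun x => (v' x : ZMod q)) i` by definition
(`unfold`/`rfl`). `IsArrangement` is part of `exists_prime_graphs`. For `F, L, Ω, k'`:
`indepW_of_copyV_base`, then `Wt.Lns.arrangementW` (`(ℓ : ZMod q) ≠ 0` because `0 < ℓ < q`) and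
`tateClassesTorsionN8`. -/
theorem exists_prime_hasNoTateClasses_graph {ℓ : ℕ} (hℓ : ℓ.Prime) (hℓ2 : ℓ ≠ 2)
    {v : ι × Fin (n + 1) → ℤ} (hv : GoodH v) (hn : 2 ≤ n) {I : Finset ι} (hI : 4 ≤ I.card)
    (W : I → ℕ) (hW : ∀ i, (W i).Coprime ℓ) (hs : (∑ i, W i).Coprime ℓ) (N : ℕ) :
    ∃ (q : ℕ) (_ : Fact q.Prime), N < q ∧ Graph.HasNoTateClasses ℓ (ZMod q) v I W := by
  haveI : Fact ℓ.Prime := ⟨hℓ⟩
  have hcop : ∀ m : ℕ, m.Coprime ℓ → (m : ZMod ℓ) ≠ 0 := by
    intro m hm h0
    rw [ZMod.natCast_eq_zero_iff] at h0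
    exact hℓ.one_lt.ne' (Nat.eq_one_of_dvd_coprimes hm h0 dvd_rfl)
  have hcard : (Finset.univ : Finset I).card = I.card := by
    rw [Finset.card_univ, Fintype.card_coe]
  obtain ⟨c, g, hT, hR⟩ := Lr.exists_good (ι := I) (ℓ := ℓ) hℓ2 (w := fun i => (W i : ZMod ℓ))
    Finset.univ (by rw [hcard]; exact hI) (fun i _ => hcop _ (hW i))
    (by
      have h := hcop _ hs
      rw [Nat.cast_sum] at h
      exact h)
  have hB := Lr.GoodT.exists_ne_gauge hT g (by rw [Fintype.card_coe]; omega)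
  obtain ⟨q, hq, ζ, V, nd, hNq, hζ, hα, hN, hV⟩ :=
    exists_prime_graphs (hv.restrict I) hn hℓ hℓ2 (fun T => c T - ∑ i ∈ T, g i) hB (max N ℓ)
  have hℓq : ℓ < q := (le_max_right N ℓ).trans_lt hNq
  have hℓ0 : ((ℓ : ℕ) : ZMod q) ≠ 0 := by
    intro h0
    rw [ZMod.natCast_eq_zero_iff] at h0
    exact absurd (Nat.le_of_dvd hℓ.pos h0) (not_le.mpr hℓq)
  refine ⟨q, hq, (le_max_left N ℓ).trans_lt hNq, hα, ?_⟩
  intro F L Ω _ _ _ _ _ _ _ _ _ k' hk'
  haveI := hk'
  exact tateClassesTorsionN8 (Wt.Lns.arrangementW F L Ω hℓ hℓ0 hζ W hW hs _ hα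
    (indepW_of_copyV_base hℓ V _ hα W hW nd hN c g hV hT hR F) k')

end Pool.Agent.Lib.MP_89bcae_ag

end

section

/-!
# Three graphs: finite fields without Tate classes
-/

open Polynomial

open scoped Classical

namespace Pool.Agent.Lib.MP_89bcae_ag

open Superelliptic

variable {ι : Type} {n : ℕ}

theorem ne_zero_of_coprime_h8 {ℓ : ℕ} (hℓ : ℓ.Prime) {m : ℕ} (hm : m.Coprime ℓ) :
    (m : ZMod ℓ) ≠ 0 := by
  intro h0
  rw [ZMod.natCast_eq_zero_iff] at h0
  exact hℓ.one_lt.ne' (Nat.eq_one_of_dvd_coprimes hm h0 dvd_rfl)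

/-- **Finite fields without Tate classes, three graphs.** -/
theorem exists_prime_hasNoTateClasses_graph3 [Fintype ι] [LinearOrder ι] {ℓ : ℕ} (hℓ : ℓ.Prime)
    (hℓ2 : ℓ ≠ 2) {v : ι × Fin (n + 1) → ℤ} (hv : GoodH v) (hn : 2 ≤ n) {I : Finset ι}
    (hI : I.card = 3) (W : I → ℕ) (hW : ∀ i, (W i).Coprime ℓ) (hs : (∑ i, W i).Coprime ℓ) (N : ℕ) :
    ∃ (q : ℕ) (_ : Fact q.Prime), N < q ∧ Graph.HasNoTateClasses ℓ (ZMod q) v I W := by
  haveI : Fact ℓ.Prime := ⟨hℓ⟩
  obtain ⟨F, _, _, _⟩ : ∃ (F : Type) (_ : Field F) (_ : Algebra ℚ F), IsAlgClosure ℚ F := by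
    let _ : Algebra ℚ (AlgebraicClosure ℚ) := AlgebraicClosure.instAlgebra ℚ
    exact ⟨AlgebraicClosure ℚ, inferInstance, AlgebraicClosure.instAlgebra ℚ, inferInstance⟩
  have hvI := hv.restrict I
  obtain ⟨β, c, δ, hδ, hG, i₀, j₀, hij₀, hβ⟩ := Tri.exists_goodW (ι := I) hℓ2
    (by rw [Fintype.card_coe]; exact hI) (w := fun i => (W i : ZMod ℓ))
    (fun i => ne_zero_of_coprime_h8 hℓ (hW i))
    (by
      have h := ne_zero_of_coprime_h8 hℓ hs
      rw [Nat.cast_sum] at h
      exact h) hn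
  obtain ⟨nd, hN⟩ := exists_nodes (F := F) hvI
  obtain ⟨ν, hν, hC⟩ := copyW_all hℓ hvI hn hN β c δ hδ
  obtain ⟨q, hq, ζ, V, nd', hNq, hζ, hα, hN', hV1, hV2⟩ :=
    exists_prime_val hvI hn hℓ hℓ2 hN ν hν ⟨i₀, j₀, hij₀, by rw [hC.lead i₀ j₀ hij₀]; exact hβ⟩
      (max N ℓ)
  have hℓq : ℓ < q := (le_max_right N ℓ).trans_lt hNq
  have hℓ0 : ((ℓ : ℕ) : ZMod q) ≠ 0 := by
    intro h0
    rw [ZMod.natCast_eq_zero_iff] at h0
    exact absurd (Nat.le_of_dvd hℓ.pos h0) (not_le.mpr hℓq)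
  have hne : ∀ i j l : I, i ≠ j → j ≠ l → i ≠ l → ∀ a b, nd i j a ≠ nd i l b := by
    intro i j l hij hjl hil a b he
    rcases Set.pair_eq_pair_iff.mp (Nodes.ne hvI hN hij hil he).1 with ⟨-, h2⟩ | ⟨h1, -⟩
    · exact hjl h2
    · exact hil h1
  have hCV : CopyW V.ν (gpol (fun x : I × Fin (n + 1) => (v (x.1, x.2) : ZMod q))) nd' β c δ := by
    refine ⟨fun i j hij => ?_, fun i j hij a b hab => ?_, fun i j l hij hjl hil a b => ?_⟩
    · rw [Algebra.algebraMap_self, RingHom.id_apply]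
      exact (hV1 i j hij).trans (hC.lead i j hij)
    · exact (hV2 i j i j a b hij hij fun he => hab (hN.inj i j hij he)).trans
        (hC.par i j hij a b hab)
    · exact (hV2 i j i l a b hij hil (hne i j l hij hjl hil a b)).trans
        (hC.adj i j l hij hjl hil a b)
  refine ⟨q, hq, (le_max_left N ℓ).trans_lt hNq, hα, ?_⟩
  intro F' L Ω _ _ _ _ _ _ _ _ _ k' hk'
  haveI := hk'
  exact tateClassesTorsionN8 (Wt.Lns.arrangementW F' L Ω hℓ hℓ0 hζ W hW hs _ hα
    (indepW_of_copyW_base hℓ V _ hα W hW nd' hN' β c δ hCV hG F') k')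

end Pool.Agent.Lib.MP_89bcae_ag

end

section

/-!
# Three graphs: the criterion over the cyclotomic field
-/

open Polynomial

open scoped Classical

namespace Pool.Agent.Lib.MP_89bcae_ag

open Superelliptic

variable {ι : Type} [Fintype ι] [LinearOrder ι] {n : ℕ}

theorem graphIndepW3 {ℓ : ℕ} (hℓ : ℓ.Prime) (hℓ2 : ℓ ≠ 2) {v : ι × Fin (n + 1) → ℤ}
    (hv : GoodH v) (hn : 2 ≤ n) (hι : Fintype.card ι = 3)
    (W : ι → ℕ) (hW : ∀ i, (W i).Coprime ℓ) (hs : (∑ i, W i).Coprime ℓ)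
    (K F : Type) [Field K] [Algebra ℚ K] [IsCyclotomicExtension {ℓ} ℚ K] [Field F] [Algebra ℚ F]
    [IsAlgClosure ℚ F] [Algebra K F] [IsScalarTower ℚ K F] :
    IsArrangement (fun i => (gpolQ v i).map (algebraMap ℚ K)) ∧
      ArrangementIndependentW ℓ K F W (fun i => (gpolQ v i).map (algebraMap ℚ K)) := by
  haveI : Fact ℓ.Prime := ⟨hℓ⟩
  have : IsAlgClosed F := IsAlgClosure.isAlgClosed ℚ
  have hFA : Algebra.IsAlgebraic ℚ F := IsAlgClosure.isAlgebraic
  have hn0 : n ≠ 0 := by omega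
  have harr := hv.good.isArrangement hn0 K
  refine ⟨harr, ?_⟩
  have hnodes : nodes K F (fun i => (gpolQ v i).map (algebraMap ℚ K)) = nodes ℚ F (gpolQ v) := by
    unfold nodes
    simp only [aeval_map_algebraMap]
  have hfin : (nodes ℚ F (gpolQ v)).Finite := by
    apply nodes_gpolQ_finite
    intro a b hab hEq
    have h1 := hv.good.natDegree hab
    rw [hEq, sub_self, natDegree_zero] at h1
    exact hn0 h1.symm
  obtain ⟨β, c, δ, hδ, hG, -⟩ := Tri.exists_goodW (ι := ι) hℓ2 hι (w := fun i => (W i : ZMod ℓ))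
    (fun i => ne_zero_of_coprime_h8 hℓ (hW i))
    (by
      have h := ne_zero_of_coprime_h8 hℓ hs
      rw [Nat.cast_sum] at h
      exact h) hn
  obtain ⟨nd, hN⟩ := exists_nodes (F := F) hv
  obtain ⟨ν₀, hν₀, hC⟩ := copyW_all hℓ hv hn hN β c δ hδ
  obtain ⟨ν, hν, hνe⟩ := exists_extend_val hℓ K F (nodes ℚ F (gpolQ v)) hfin
    (fun s _ => (hFA.isAlgebraic s).isIntegral) ν₀ hν₀
  have hmem : ∀ i j, i ≠ j → ∀ a, nd i j a ∈ IntermediateField.adjoin ℚ (nodes ℚ F (gpolQ v)) :=
    fun i j hij a => IntermediateField.subset_adjoin ℚ _ ⟨i, j, hij, (hN.mem i j hij _).2 ⟨a, rfl⟩⟩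
  have hmap : ∀ i j, (gpolQ v i).map (algebraMap ℚ K) - (gpolQ v j).map (algebraMap ℚ K) =
      (gpolQ v i - gpolQ v j).map (algebraMap ℚ K) := fun i j => (Polynomial.map_sub _).symm
  have hN' : Nodes (F := F) (fun i => (gpolQ v i).map (algebraMap ℚ K)) nd := by
    refine ⟨hN.symm, hN.inj, fun i j hij s => ?_, fun i j hij => ?_⟩
    · rw [aeval_map_algebraMap, aeval_map_algebraMap]
      exact hN.mem i j hij s
    · show ((gpolQ v i).map (algebraMap ℚ K) - (gpolQ v j).map (algebraMap ℚ K)).natDegree = n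
      rw [hmap, natDegree_map]
      exact hN.lead i j hij
  have hC' : CopyW ν (fun i => (gpolQ v i).map (algebraMap ℚ K)) nd β c δ := by
    refine ⟨fun i j hij => ?_, fun i j hij a b hab => ?_, fun i j l hij hjl hil a b => ?_⟩
    · show ν (algebraMap K F
        ((gpolQ v i).map (algebraMap ℚ K) - (gpolQ v j).map (algebraMap ℚ K)).leadingCoeff) = _
      rw [hmap, leadingCoeff_map, ← IsScalarTower.algebraMap_apply ℚ K F,
        hνe _ ((IntermediateField.adjoin ℚ (nodes ℚ F (gpolQ v))).algebraMap_mem _)]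
      exact hC.lead i j hij
    · rw [hνe _ (sub_mem (hmem i j hij a) (hmem i j hij b))]
      exact hC.par i j hij a b hab
    · rw [hνe _ (sub_mem (hmem i j hij a) (hmem i l hil b))]
      exact hC.adj i j l hij hjl hil a b
  refine indepW_of_copyW hℓ _ harr W hW ν ?_ nd hN' β c δ hC' hG
  rw [hnodes]
  exact hν

end Pool.Agent.Lib.MP_89bcae_ag

end

section

/-!
# The density one theorem for graphs of polynomials, with finite fields
-/

open Polynomial Filter Topology

open scoped Classical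

set_option linter.unusedVariables false
set_option linter.style.haveILetI false

namespace Pool.Agent.Lib.MP_89bcae_ag

open Superelliptic

/-- The property over `ℚ`, from the criterion over the cyclotomic field. -/
theorem hasNoTateClasses_rat_of {m n : ℕ} {v : Fin m × Fin (n + 1) → ℤ} (hv : GoodG v)
    (hn0 : n ≠ 0) {ℓ : ℕ} (hℓ : ℓ.Prime) {I : Finset (Fin m)} (W : I → ℕ)
    (hW : ∀ i, (W i).Coprime ℓ) (hs : (∑ i, W i).Coprime ℓ)
    (h : ∀ (K F : Type) [Field K] [Algebra ℚ K] [IsCyclotomicExtension {ℓ} ℚ K] [Field F]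
      [Algebra ℚ F] [IsAlgClosure ℚ F] [Algebra K F] [IsScalarTower ℚ K F],
      IsArrangement (fun i =>
        (gpolQ (fun x : I × Fin (n + 1) => v (x.1, x.2)) i).map (algebraMap ℚ K)) ∧
      ArrangementIndependentW ℓ K F W (fun i =>
        (gpolQ (fun x : I × Fin (n + 1) => v (x.1, x.2)) i).map (algebraMap ℚ K))) :
    Graph.HasNoTateClasses ℓ ℚ v I W := by
  have key : (fun i : I => Graph.polyFamily ℚ v i) =
      fun i : I => (gpolQ (fun x : I × Fin (n + 1) => v (x.1, x.2)) i).map (algebraMap ℚ ℚ) := by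
    funext i
    rw [Algebra.algebraMap_self, Polynomial.map_id]
    rfl
  have key' : (fun i : I => Graph.polyFamily ℚ v i) =
      gpolQ (fun x : I × Fin (n + 1) => v (x.1, x.2)) := rfl
  refine ⟨?_, ?_⟩
  · rw [key]
    exact (hv.restrict I).isArrangement hn0 ℚ
  · intro F L Ω _ _ _ _ _ _ _ _ _ k' hk'
    have hF : IsAlgClosed F := IsAlgClosure.isAlgClosed ℚ
    haveI : NeZero ℓ := ⟨hℓ.ne_zero⟩
    let K := CyclotomicField ℓ ℚ
    letI : Algebra ℚ K := CyclotomicField.algebra ℓ ℚ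
    haveI : IsCyclotomicExtension {ℓ} ℚ K := inferInstance
    haveI hfin : FiniteDimensional ℚ K := IsCyclotomicExtension.finiteDimensional {ℓ} ℚ K
    let e : K →ₐ[ℚ] F := IsAlgClosed.lift
    letI : Algebra K F := e.toRingHom.toAlgebra
    haveI : IsScalarTower ℚ K F := IsScalarTower.of_algebraMap_eq fun x => (e.commutes x).symm
    obtain ⟨h1, h2⟩ := h K F
    rw [key']
    exact tateClassesTorsionN8 (Wt.tateClassesTorsionW_of_cyclotomic45 hℓ F L Ω K W _
      (fun hcl h0 ζ hζ K' hK' => by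
        haveI := hcl
        haveI := hK'
        exact Wt.Lns.arrangementW F L Ω hℓ h0 hζ W hW hs _ h1 h2 K') k' hk')

/-- The property over `ℚ`. -/
theorem hasNoTateClasses_rat8 {m n : ℕ} {v : Fin m × Fin (n + 1) → ℤ} (hv : GoodH v)
    (hn : 2 ≤ n) {ℓ : ℕ} (hℓ : ℓ.Prime) {I : Finset (Fin m)} (hI : 3 ≤ I.card)
    (hI2 : ℓ = 2 → n = 2 → 4 ≤ I.card) (W : I → ℕ) (hW : ∀ i, (W i).Coprime ℓ)
    (hs : (∑ i, W i).Coprime ℓ) : Graph.HasNoTateClasses ℓ ℚ v I W := by
  refine hasNoTateClasses_rat_of hv.good (by omega) hℓ W hW hs ?_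
  intro K F _ _ _ _ _ _ _ _
  by_cases hc : (3 ≤ n ∧ 3 ≤ I.card) ∨ (2 ≤ n ∧ 4 ≤ I.card)
  · exact graphIndepW hℓ (hv.good.restrict I) (by rw [Fintype.card_coe]; exact hc) W hW K F
  · exact graphIndepW3 hℓ (fun h2 => hc (Or.inr ⟨hn, hI2 h2 (by omega)⟩)) (hv.restrict I) hn
      (by rw [Fintype.card_coe]; omega) W hW hs K F


end Pool.Agent.Lib.MP_89bcae_ag

end
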