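import Mathlib
import Pool.Agent.Lib.MP_89bcae_ag.Bk.K049
import Pool.Agent.Lib.MP_89bcae_ag.Bk.K060
import Pool.Agent.Lib.MP_89bcae_ag.Bk.K061

namespace Pool.Agent.Lib.MP_89bcae_ag.Superelliptic
end Pool.Agent.Lib.MP_89bcae_ag.Superelliptic

/-!
# The Brauer group of the coverings branched along graphs of polynomials: the density one theorem
-/

open Polynomial Filter Topology

open scoped Classical

set_option linter.unusedVariables false

namespace Pool.Agent.Lib.MP_89bcae_ag.Bra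

open Superelliptic

/-- **The density one theorem.** -/
theorem graphBrauer (m n : ℕ) (hn : 2 ≤ n) :
    Tendsto (fun H : ℕ => ({v : Fin m × Fin (n + 1) → ℤ | (∀ i, |v i| ≤ H) ∧
      ∀ ℓ : ℕ, ℓ.Prime → ∀ I : Finset (Fin m), 3 ≤ I.card → (ℓ = 2 → n = 2 → 4 ≤ I.card) →
        ∀ W : I → ℕ, (∀ i, (W i).Coprime ℓ) → (∑ i, W i).Coprime ℓ →
          GraphTate ℓ ℚ v I W ∧
          (ℓ ≠ 2 → ∀ N : ℕ, ∃ (q : ℕ) (_ : Fact q.Prime), N < q ∧
            GraphTate ℓ (ZMod q) v I W)}.ncard : ℝ) /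
      (2 * H + 1) ^ (m * (n + 1))) atTop (𝓝 1) := by
  have hcard : Fintype.card (Fin m × Fin (n + 1)) = m * (n + 1) := by
    rw [Fintype.card_prod, Fintype.card_fin, Fintype.card_fin]
  rw [← hcard]
  refine density_mono8 (Fintype.card (Fin m × Fin (n + 1))) rfl ?_ (density_goodH hn)
  intro v hv ℓ hℓ I hI hI2 W hW hs
  refine ⟨graphTate hℓ (Nat.cast_ne_zero.2 hℓ.ne_zero) hW hs
    (hasNoTateClasses_rat8 hv hn hℓ hI hI2 W hW hs), fun hℓ2 N => ?_⟩
  have key : ∃ (q : ℕ) (_ : Fact q.Prime), max N ℓ < q ∧ Graph.HasNoTateClasses ℓ (ZMod q) v I W := by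
    by_cases hI4 : 4 ≤ I.card
    · exact exists_prime_hasNoTateClasses_graph hℓ hℓ2 hv hn hI4 W hW hs (max N ℓ)
    · exact exists_prime_hasNoTateClasses_graph3 hℓ hℓ2 hv hn (by omega) W hW hs (max N ℓ)
  obtain ⟨q, hq, hNq, h⟩ := key
  exact ⟨q, hq, lt_of_le_of_lt (le_max_left _ _) hNq,
    graphTate hℓ (natCast_zmod_ne_zero hℓ (lt_of_le_of_lt (le_max_right _ _) hNq)) hW hs h⟩

end Pool.Agent.Lib.MP_89bcae_ag.Bra
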